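import Pool.Agent.X12.Leg

/-!
# Matrices with square `p`, and the even and odd parts of the matrix of `((j-k)/p)`, `p ≡ 1 (mod 4)`
-/

set_option autoImplicit false

namespace Pool.Agent.X12

open Matrix Finset Polynomial

/-- A rational matrix of even size whose square is the prime `p` has determinant `(-p) ^ m`. -/
lemma det_of_sq {p : ℕ} (hp : p.Prime) {m n : ℕ} (hn : n = 2 * m) (A : Matrix (Fin n) (Fin n) ℚ)
    (hA : A * A = (p : ℚ) • (1 : Matrix (Fin n) (Fin n) ℚ)) : A.det = (-(p : ℚ)) ^ m := by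
  have hirr : Irreducible (X ^ 2 - C (p : ℚ)) := by
    apply X_pow_sub_C_irreducible_of_prime Nat.prime_two
    intro b hb
    have h1 : Irrational (Real.sqrt p) := hp.irrational_sqrt
    apply h1
    have hb' : ((b : ℝ)) ^ 2 = p := by exact_mod_cast hb
    refine ⟨|b|, ?_⟩
    rw [← hb', Real.sqrt_sq_eq_abs]
    push_cast
    rfl
  have hmon : (X ^ 2 - C (p : ℚ)).Monic := monic_X_pow_sub_C _ two_ne_zero
  have hmap : ∀ M N : Matrix (Fin n) (Fin n) ℚ,
      (M * N).map (C : ℚ →+* ℚ[X]) = M.map C * N.map C := fun M N => Matrix.map_mul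
  have h1 : A.charmatrix * (scalar (Fin n) X + A.map C) =
      scalar (Fin n) (X ^ 2 - C (p : ℚ)) := by
    have hc : Commute (scalar (Fin n) (X : ℚ[X])) (A.map C) :=
      scalar_commute _ (fun _ => Commute.all _ _) _
    have h2 : A.map (C : ℚ →+* ℚ[X]) * A.map C = scalar (Fin n) (C (p : ℚ)) := by
      rw [← hmap, hA]
      ext i j
      simp only [Matrix.map_apply, Matrix.smul_apply, Matrix.one_apply, smul_eq_mul, scalar_apply,
        diagonal_apply]
      split_ifs <;> simp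
    unfold charmatrix
    rw [RingHom.mapMatrix_apply, sub_mul, mul_add, mul_add, h2, hc.eq]
    rw [map_sub, map_pow, sq]
    abel
  have h2 : A.charpoly ∣ (X ^ 2 - C (p : ℚ)) ^ n := by
    refine ⟨(scalar (Fin n) X + A.map C).det, ?_⟩
    unfold Matrix.charpoly
    rw [← det_mul, h1, scalar_apply, det_diagonal, Finset.prod_const, Finset.card_univ,
      Fintype.card_fin]
  obtain ⟨i, -, hi⟩ := (dvd_prime_pow hirr.prime n).1 h2
  have h3 : A.charpoly = (X ^ 2 - C (p : ℚ)) ^ i :=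
    eq_of_monic_of_associated (charpoly_monic A) (hmon.pow i) hi
  have h4 : i = m := by
    have := congrArg natDegree h3
    rw [charpoly_natDegree_eq_dim, hmon.natDegree_pow, natDegree_X_pow_sub_C, Fintype.card_fin] at this
    omega
  rw [det_eq_sign_charpoly_coeff, h3, h4, coeff_zero_eq_eval_zero, Fintype.card_fin, hn]
  simp

/-- The swap of the two coordinates. -/
def sw (R : Type*) [CommRing R] : Matrix (Fin 2) (Fin 2) R := !![0, 1; 1, 0]

lemma sw_mul_sw (R : Type*) [CommRing R] : sw R * sw R = 1 := by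
  ext i j
  fin_cases i <;> fin_cases j <;> simp [sw]

lemma det_rank_two {R : Type*} [CommRing R] {n : ℕ} (B : Matrix (Fin n) (Fin n) R)
    (U : Matrix (Fin n) (Fin 2) R) (K : Matrix (Fin 2) (Fin 2) R) (c : R)
    (hBU : B * U = -(U * sw R)) (hUU : Uᵀ * U = c • (1 : Matrix (Fin 2) (Fin 2) R)) :
    (B + U * K * Uᵀ).det = B.det * (1 - c • (sw R * K)).det := by
  have h1 : B + U * K * Uᵀ = B * (1 - U * (sw R * K) * Uᵀ) := by
    have : B * (U * (sw R * K) * Uᵀ) = -(U * K * Uᵀ) := by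
      rw [← Matrix.mul_assoc, ← Matrix.mul_assoc, hBU]
      have e : -(U * sw R) * (sw R * K) = -(U * K) := by
        rw [Matrix.neg_mul, Matrix.mul_assoc U, ← Matrix.mul_assoc (sw R), sw_mul_sw, Matrix.one_mul]
      rw [e, Matrix.neg_mul]
    rw [Matrix.mul_sub, Matrix.mul_one, this, sub_neg_eq_add]
  rw [h1, det_mul, det_one_sub_mul_comm, ← Matrix.mul_assoc, hUU, Matrix.smul_mul, Matrix.one_mul]

section

variable {p : ℕ} [Fact p.Prime]

/-- The integer matrix of `((j+k)/p) - ((j-k)/p)`, `1 ≤ j, k ≤ n`. -/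
noncomputable def Am (p : ℕ) [Fact p.Prime] (n : ℕ) : Matrix (Fin n) (Fin n) ℤ :=
  of fun j k => qc p (((j : ℕ) : ZMod p) + 1 + (((k : ℕ) : ZMod p) + 1)) -
    qc p (((j : ℕ) : ZMod p) + 1 - (((k : ℕ) : ZMod p) + 1))

/-- The integer matrix of `((j+k)/p) + ((j-k)/p)`, `1 ≤ j, k ≤ n`. -/
noncomputable def Bm (p : ℕ) [Fact p.Prime] (n : ℕ) : Matrix (Fin n) (Fin n) ℤ :=
  of fun j k => qc p (((j : ℕ) : ZMod p) + 1 + (((k : ℕ) : ZMod p) + 1)) +
    qc p (((j : ℕ) : ZMod p) + 1 - (((k : ℕ) : ZMod p) + 1))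

/-- The two columns `1` and `χ`. -/
noncomputable def Um (p : ℕ) [Fact p.Prime] (n : ℕ) : Matrix (Fin n) (Fin 2) ℤ :=
  of fun j => ![1, qc p (((j : ℕ) : ZMod p) + 1)]

lemma qc_even (hp : p % 4 = 1) (a : ZMod p) : qc p (-a) = qc p a := by
  rw [qc_neg, qc_neg_one_of_one hp, one_mul]

lemma ne_two_of (hp : p % 4 = 1) : p ≠ 2 := by rintro rfl; norm_num at hp

lemma Am_sq {n : ℕ} (hn : p = 2 * n + 1) (hp : p % 4 = 1) :
    Am p n * Am p n = (p : ℤ) • (1 : Matrix (Fin n) (Fin n) ℤ) := by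
  have h2 : p ≠ 2 := ne_two_of hp
  have hev := qc_even hp
  ext j l
  have hj := j.2
  have hl := l.2
  set a : ZMod p := ((j : ℕ) : ZMod p) + 1 with ha
  set b : ZMod p := ((l : ℕ) : ZMod p) + 1 with hb
  let f : ZMod p → ℤ := fun k => (qc p (a + k) - qc p (a - k)) * (qc p (k + b) - qc p (k - b))
  have hf : ∀ k, f (-k) = f k := by
    intro k
    show (qc p (a + -k) - qc p (a - -k)) * (qc p (-k + b) - qc p (-k - b)) = _
    have e1 : a + -k = a - k := by ring
    have e2 : a - -k = a + k := by ring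
    have e3 : -k + b = -(k - b) := by ring
    have e4 : -k - b = -(k + b) := by ring
    rw [e1, e2, e3, e4, hev, hev]
    ring
  have h1 := sum_half_even hn f hf
  have h0 : f 0 = 0 := by
    show (qc p (a + 0) - qc p (a - 0)) * _ = 0
    simp
  have h3 : ∑ k, f k = (if a = b then 2 * (p : ℤ) else 0) := by
    have e : ∀ k, f k = qc p (k + a) * qc p (k + b) - qc p (k + a) * qc p (k + -b) -
        qc p (k + -a) * qc p (k + b) + qc p (k + -a) * qc p (k + -b) := by
      intro k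
      show (qc p (a + k) - qc p (a - k)) * (qc p (k + b) - qc p (k - b)) = _
      have e1 : a - k = -(k + -a) := by ring
      rw [e1, hev, add_comm a k, sub_eq_add_neg k b]
      ring
    rw [Finset.sum_congr rfl fun k _ => e k, Finset.sum_add_distrib, Finset.sum_sub_distrib,
      Finset.sum_sub_distrib, sum_qc_mul h2, sum_qc_mul h2, sum_qc_mul h2, sum_qc_mul h2]
    have n1 : a ≠ -b := half_ne_neg hn hj hl
    have n2 : -a ≠ b := fun h => n1 (by rw [← h]; ring)
    rw [if_neg n1, if_neg n2]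
    by_cases hab : a = b
    · rw [if_pos hab, if_pos hab, if_pos (by rw [hab])]; ring
    · rw [if_neg hab, if_neg hab, if_neg (fun h => hab (neg_injective h))]; ring
  have h4 : (Am p n * Am p n) j l = ∑ i ∈ range n, f ((i : ZMod p) + 1) := by
    rw [Matrix.mul_apply, ← Fin.sum_univ_eq_sum_range (fun i => f ((i : ZMod p) + 1)) n]
    rfl
  rw [h4]
  rw [h0, h3] at h1
  have hab : a = b ↔ j = l := by
    rw [ha, hb, half_inj hn hj hl]; exact Fin.ext_iff.symm
  by_cases h : j = l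
  · rw [if_pos (hab.2 h)] at h1
    rw [h, Matrix.smul_apply, Matrix.one_apply_eq, smul_eq_mul, mul_one]
    linarith
  · rw [if_neg (fun h' => h (hab.1 h'))] at h1
    rw [Matrix.smul_apply, Matrix.one_apply_ne h, smul_zero]
    linarith

lemma Bm_sq {n : ℕ} (hn : p = 2 * n + 1) (hp : p % 4 = 1) :
    Bm p n * Bm p n = (p : ℤ) • (1 : Matrix (Fin n) (Fin n) ℤ) -
      (2 : ℤ) • (Um p n * (Um p n)ᵀ) := by
  have h2 : p ≠ 2 := ne_two_of hp
  have hev := qc_even hp
  ext j l
  have hj := j.2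
  have hl := l.2
  set a : ZMod p := ((j : ℕ) : ZMod p) + 1 with ha
  set b : ZMod p := ((l : ℕ) : ZMod p) + 1 with hb
  let f : ZMod p → ℤ := fun k => (qc p (a + k) + qc p (a - k)) * (qc p (k + b) + qc p (k - b))
  have hf : ∀ k, f (-k) = f k := by
    intro k
    show (qc p (a + -k) + qc p (a - -k)) * (qc p (-k + b) + qc p (-k - b)) = _
    have e1 : a + -k = a - k := by ring
    have e2 : a - -k = a + k := by ring
    have e3 : -k + b = -(k - b) := by ring
    have e4 : -k - b = -(k + b) := by ring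
    rw [e1, e2, e3, e4, hev, hev]
    ring
  have h1 := sum_half_even hn f hf
  have h0 : f 0 = 4 * (qc p a * qc p b) := by
    show (qc p (a + 0) + qc p (a - 0)) * (qc p (0 + b) + qc p (0 - b)) = _
    rw [add_zero, sub_zero, zero_add, zero_sub, hev]
    ring
  have h3 : ∑ k, f k = (if a = b then 2 * (p : ℤ) else 0) - 4 := by
    have e : ∀ k, f k = qc p (k + a) * qc p (k + b) + qc p (k + a) * qc p (k + -b) +
        qc p (k + -a) * qc p (k + b) + qc p (k + -a) * qc p (k + -b) := by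
      intro k
      show (qc p (a + k) + qc p (a - k)) * (qc p (k + b) + qc p (k - b)) = _
      have e1 : a - k = -(k + -a) := by ring
      rw [e1, hev, add_comm a k, sub_eq_add_neg k b]
      ring
    rw [Finset.sum_congr rfl fun k _ => e k, Finset.sum_add_distrib, Finset.sum_add_distrib,
      Finset.sum_add_distrib, sum_qc_mul h2, sum_qc_mul h2, sum_qc_mul h2, sum_qc_mul h2]
    have n1 : a ≠ -b := half_ne_neg hn hj hl
    have n2 : -a ≠ b := fun h => n1 (by rw [← h]; ring)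
    rw [if_neg n1, if_neg n2]
    by_cases hab : a = b
    · rw [if_pos hab, if_pos hab, if_pos (by rw [hab])]; ring
    · rw [if_neg hab, if_neg hab, if_neg (fun h => hab (neg_injective h))]; ring
  have h4 : (Bm p n * Bm p n) j l = ∑ i ∈ range n, f ((i : ZMod p) + 1) := by
    rw [Matrix.mul_apply, ← Fin.sum_univ_eq_sum_range (fun i => f ((i : ZMod p) + 1)) n]
    rfl
  have h5 : (Um p n * (Um p n)ᵀ) j l = 1 + qc p a * qc p b := by
    rw [Matrix.mul_apply, Fin.sum_univ_two]
    simp [Um, ha, hb]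
  rw [h4, Matrix.sub_apply, Matrix.smul_apply (2 : ℤ), h5]
  rw [h0, h3] at h1
  have hab : a = b ↔ j = l := by
    rw [ha, hb, half_inj hn hj hl]; exact Fin.ext_iff.symm
  by_cases h : j = l
  · rw [if_pos (hab.2 h)] at h1
    rw [h, Matrix.smul_apply, Matrix.one_apply_eq, smul_eq_mul, mul_one, smul_eq_mul]
    linarith
  · rw [if_neg (fun h' => h (hab.1 h'))] at h1
    rw [Matrix.smul_apply, Matrix.one_apply_ne h, smul_zero, smul_eq_mul]
    linarith

lemma sum_half_qc {n : ℕ} (hn : p = 2 * n + 1) (hp : p % 4 = 1) :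
    ∑ i ∈ range n, qc p ((i : ZMod p) + 1) = 0 := by
  have h3 := sum_half_even hn (fun a => qc p a) (qc_even hp)
  simp only [qc_zero, zero_add] at h3
  rw [sum_qc (ne_two_of hp)] at h3
  linarith

lemma Um_trans_mul {n : ℕ} (hn : p = 2 * n + 1) (hp : p % 4 = 1) :
    (Um p n)ᵀ * Um p n = (n : ℤ) • (1 : Matrix (Fin 2) (Fin 2) ℤ) := by
  have h1 : ∑ j : Fin n, qc p (((j : ℕ) : ZMod p) + 1) = 0 := by
    rw [Fin.sum_univ_eq_sum_range (fun i => qc p ((i : ZMod p) + 1)) n]
    exact sum_half_qc hn hp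
  have h2 : ∑ j : Fin n, qc p (((j : ℕ) : ZMod p) + 1) * qc p (((j : ℕ) : ZMod p) + 1) = n := by
    rw [Finset.sum_congr rfl fun j _ => qc_sq (half_ne_zero hn j.2)]
    simp
  ext i j
  fin_cases i <;> fin_cases j <;> simp [Matrix.mul_apply, Um]
  · exact h1
  · exact h1
  · exact h2

lemma Bm_mul_Um {n : ℕ} (hn : p = 2 * n + 1) (hp : p % 4 = 1) :
    Bm p n * Um p n = -(Um p n * sw ℤ) := by
  have h2 : p ≠ 2 := ne_two_of hp
  have hev := qc_even hp
  ext j i
  have hj := j.2
  set a : ZMod p := ((j : ℕ) : ZMod p) + 1 with ha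
  have ha0 : a ≠ 0 := half_ne_zero hn hj
  have k1 : ∑ i ∈ range n, (qc p (a + ((i : ZMod p) + 1)) + qc p (a - ((i : ZMod p) + 1))) =
      - qc p a := by
    have h := sum_half hn (fun k => qc p (a + k))
    have h' : ∑ k, qc p (a + k) = 0 := by
      rw [← sum_qc (p := p) h2]
      exact Equiv.sum_comp (Equiv.addLeft a) (fun k => qc p k)
    simp only [add_zero, ← sub_eq_add_neg] at h
    rw [h'] at h
    linarith
  have k2 : ∑ i ∈ range n, (qc p (a + ((i : ZMod p) + 1)) + qc p (a - ((i : ZMod p) + 1))) *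
      qc p ((i : ZMod p) + 1) = -1 := by
    have h := sum_half hn (fun k => qc p (k + a) * qc p (k + 0))
    rw [sum_qc_mul h2, if_neg ha0] at h
    simp only [add_zero, qc_zero, mul_zero, zero_add] at h
    rw [h]
    refine Finset.sum_congr rfl fun i _ => ?_
    rw [hev ((i : ZMod p) + 1)]
    have e1 : -((i : ZMod p) + 1) + a = a - ((i : ZMod p) + 1) := by ring
    rw [e1, add_comm ((i : ZMod p) + 1) a]
    ring
  fin_cases i
  · have : (Bm p n * Um p n) j 0 =
        ∑ i ∈ range n, (qc p (a + ((i : ZMod p) + 1)) + qc p (a - ((i : ZMod p) + 1))) := by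
      rw [Matrix.mul_apply, ← Fin.sum_univ_eq_sum_range (fun i => qc p (a + ((i : ZMod p) + 1)) +
        qc p (a - ((i : ZMod p) + 1))) n]
      refine Finset.sum_congr rfl fun k _ => ?_
      simp [Bm, Um, ha]
    show (Bm p n * Um p n) j 0 = _
    rw [this, k1]
    simp [Um, sw, Matrix.mul_apply, Fin.sum_univ_two, ha]
  · have : (Bm p n * Um p n) j 1 =
        ∑ i ∈ range n, (qc p (a + ((i : ZMod p) + 1)) + qc p (a - ((i : ZMod p) + 1))) *
          qc p ((i : ZMod p) + 1) := by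
      rw [Matrix.mul_apply, ← Fin.sum_univ_eq_sum_range (fun i => (qc p (a + ((i : ZMod p) + 1)) +
        qc p (a - ((i : ZMod p) + 1))) * qc p ((i : ZMod p) + 1)) n]
      refine Finset.sum_congr rfl fun k _ => ?_
      simp [Bm, Um, ha]
    show (Bm p n * Um p n) j 1 = _
    rw [this, k2]
    simp [Um, sw, Matrix.mul_apply, Fin.sum_univ_two]

lemma Bm_trans {n : ℕ} (hp : p % 4 = 1) : (Bm p n)ᵀ = Bm p n := by
  ext j k
  simp only [Bm, transpose_apply, of_apply]
  have e : ((k : ℕ) : ZMod p) + 1 - (((j : ℕ) : ZMod p) + 1) =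
      -(((j : ℕ) : ZMod p) + 1 - (((k : ℕ) : ZMod p) + 1)) := by ring
  rw [e, qc_even hp, add_comm (((k : ℕ) : ZMod p) + 1)]

/-- The determinant of the odd part. -/
lemma det_Am {n m : ℕ} (hn : p = 2 * n + 1) (hm : n = 2 * m) (hp : p % 4 = 1) :
    (Am p n).det = (-(p : ℤ)) ^ m := by
  have h1 := Am_sq hn hp
  have h2 : ((Am p n).map (Int.castRingHom ℚ)) * ((Am p n).map (Int.castRingHom ℚ)) =
      (p : ℚ) • (1 : Matrix (Fin n) (Fin n) ℚ) := by
    rw [← Matrix.map_mul, h1]
    ext i j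
    simp only [Matrix.map_apply, Matrix.smul_apply, Matrix.one_apply, smul_eq_mul, map_mul]
    split_ifs <;> simp
  have h3 := det_of_sq (Fact.out : p.Prime) hm _ h2
  rw [← RingHom.mapMatrix_apply, ← RingHom.map_det] at h3
  have h4 : (Int.castRingHom ℚ) (Am p n).det = (Int.castRingHom ℚ) ((-(p : ℤ)) ^ m) := by
    rw [h3]; simp
  exact Int.cast_injective (α := ℚ) h4

/-- The determinant of the reduced even part. -/
lemma det_Bm {n m : ℕ} (hn : p = 2 * n + 1) (hm : n = 2 * (m + 1)) (hp : p % 4 = 1) :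
    (Bm p n).det = -(-(p : ℤ)) ^ m := by
  obtain ⟨a, b, hab⟩ := Nat.Prime.sq_add_sq (p := p) (by omega)
  let c : ℤ →+* ℚ := Int.castRingHom ℚ
  let B : Matrix (Fin n) (Fin n) ℚ := (Bm p n).map c
  let U : Matrix (Fin n) (Fin 2) ℚ := (Um p n).map c
  have hn0 : (n : ℚ) ≠ 0 := by
    have : n ≠ 0 := by omega
    exact_mod_cast this
  have hBU : B * U = -(U * sw ℚ) := by
    have h := congrArg (fun M => M.map c) (Bm_mul_Um hn hp)
    simp only [Matrix.map_mul] at h
    rw [h]
    ext i j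
    fin_cases j <;> simp [U, sw, Matrix.mul_apply, Fin.sum_univ_two]
  have hUU : Uᵀ * U = (n : ℚ) • (1 : Matrix (Fin 2) (Fin 2) ℚ) := by
    have h := congrArg (fun M => M.map c) (Um_trans_mul hn hp)
    simp only [Matrix.map_mul] at h
    show ((Um p n).map c)ᵀ * (Um p n).map c = _
    rw [← Matrix.transpose_map, h]
    ext i j
    simp only [Matrix.map_apply, Matrix.smul_apply, Matrix.one_apply, smul_eq_mul, map_mul]
    split_ifs <;> simp
  have hBB : B * B = (p : ℚ) • (1 : Matrix (Fin n) (Fin n) ℚ) - (2 : ℚ) • (U * Uᵀ) := by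
    have h := congrArg (fun M => M.map c) (Bm_sq hn hp)
    simp only [Matrix.map_mul] at h
    rw [h]
    ext i j
    simp only [Matrix.map_apply, Matrix.smul_apply, Matrix.one_apply, smul_eq_mul, map_mul,
      Matrix.sub_apply, map_sub]
    congr 1
    · split_ifs <;> simp
    · simp [U, Matrix.mul_apply, c]
  have hBt : Bᵀ = B := by
    show ((Bm p n).map c)ᵀ = (Bm p n).map c
    rw [← Matrix.transpose_map, Bm_trans hp]
  have hUB : Uᵀ * B = -(sw ℚ * Uᵀ) := by
    have h := congrArg Matrix.transpose hBU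
    rw [Matrix.transpose_mul, hBt, Matrix.transpose_neg, Matrix.transpose_mul] at h
    rw [h]
    congr 2
    ext i j
    fin_cases i <;> fin_cases j <;> simp [sw]
  -- the correction making the square equal to `p`
  obtain ⟨α, β, hαβ⟩ : ∃ α β : ℚ, (n : ℚ) * (α ^ 2 + β ^ 2) = 2 * β + 2 := by
    refine ⟨a / n, (b + 1) / n, ?_⟩
    have hpq : ((a : ℚ)) ^ 2 + (b : ℚ) ^ 2 = 2 * n + 1 := by
      have : ((a ^ 2 + b ^ 2 : ℕ) : ℚ) = ((2 * n + 1 : ℕ) : ℚ) := by rw [hab, ← hn]
      push_cast at this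
      exact this
    field_simp
    linear_combination hpq
  let K : Matrix (Fin 2) (Fin 2) ℚ := !![α, β; β, -α]
  have hK : (n : ℚ) • (K * K) - sw ℚ * K - K * sw ℚ = (2 : ℚ) • (1 : Matrix (Fin 2) (Fin 2) ℚ) := by
    ext i j
    fin_cases i <;> fin_cases j <;> simp [K, sw]
    all_goals first | linear_combination hαβ | (right; ring1)
  have hsq : (B + U * K * Uᵀ) * (B + U * K * Uᵀ) = (p : ℚ) • (1 : Matrix (Fin n) (Fin n) ℚ) := by
    have e1 : B * (U * K * Uᵀ) = -(U * (sw ℚ * K) * Uᵀ) := by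
      rw [← Matrix.mul_assoc, ← Matrix.mul_assoc, hBU, Matrix.neg_mul, Matrix.neg_mul,
        Matrix.mul_assoc U]
    have e2 : U * K * Uᵀ * B = -(U * (K * sw ℚ) * Uᵀ) := by
      rw [Matrix.mul_assoc (U * K), hUB, Matrix.mul_neg, ← Matrix.mul_assoc (U * K),
        Matrix.mul_assoc U]
    have e3 : U * K * Uᵀ * (U * K * Uᵀ) = U * ((n : ℚ) • (K * K)) * Uᵀ := by
      calc U * K * Uᵀ * (U * K * Uᵀ) = U * K * (Uᵀ * U) * K * Uᵀ := by
            simp only [Matrix.mul_assoc]
        _ = _ := by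
            rw [hUU, Matrix.mul_smul, Matrix.mul_one, Matrix.smul_mul, Matrix.mul_assoc U K K,
              Matrix.mul_smul]
    rw [add_mul, mul_add, mul_add, e1, e2, e3, hBB]
    have e4 : U * ((n : ℚ) • (K * K)) * Uᵀ - U * (sw ℚ * K) * Uᵀ - U * (K * sw ℚ) * Uᵀ =
        (2 : ℚ) • (U * Uᵀ) := by
      rw [← Matrix.sub_mul, ← Matrix.sub_mul, ← Matrix.mul_sub, ← Matrix.mul_sub, hK,
        Matrix.mul_smul, Matrix.mul_one, Matrix.smul_mul]
    rw [← e4]
    abel
  have hdet := det_of_sq (Fact.out : p.Prime) hm _ hsq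
  rw [det_rank_two B U K n hBU hUU] at hdet
  have hd2 : (1 - (n : ℚ) • (sw ℚ * K)).det = p := by
    have hpn : (p : ℚ) = 2 * n + 1 := by exact_mod_cast hn
    rw [det_fin_two]
    simp [K, sw]
    linear_combination (n : ℚ) * hαβ - hpn
  rw [hd2] at hdet
  have hp0 : (p : ℚ) ≠ 0 := by exact_mod_cast (Fact.out : p.Prime).ne_zero
  have h5 : B.det = -(-(p : ℚ)) ^ m := by
    apply mul_right_cancel₀ hp0
    rw [hdet, pow_succ]
    ring
  have h6 : B.det = c (Bm p n).det := by
    show ((Bm p n).map c).det = _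
    rw [← RingHom.mapMatrix_apply, ← RingHom.map_det]
  rw [h6] at h5
  have h7 : c (Bm p n).det = c (-(-(p : ℤ)) ^ m) := by
    rw [h5]; simp [c]
  exact Int.cast_injective (α := ℚ) h7

end

end Pool.Agent.X12
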