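import Pool.Agent.X11.RotL
import Pool.Agent.Y41.XT.L1

/-!
# The value at `1` of the `L`-function of an odd primitive quadratic character
-/

set_option autoImplicit false

namespace Pool.Agent.X12

open Finset Filter Topology DirichletCharacter

lemma L_odd {m : ℕ} [NeZero m] {χ : DirichletCharacter ℂ m} (hp : χ.IsPrimitive) (hne : χ ≠ 1)
    (hodd : χ (-1) = -1) (hq : χ⁻¹ = χ) :
    ‖LFunction χ 1‖ * Real.sqrt m = Real.pi / m * ‖∑ u : ZMod m, χ u * (u.val : ℂ)‖ := by
  have hm0 : (m : ℂ) ≠ 0 := Nat.cast_ne_zero.2 (NeZero.ne m)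
  have h1 := Pool.Agent.Y41.XT.limit hp hne
  rw [hq] at h1
  have hχ0 := Pool.Agent.Y41.XT.chi_zero hne
  have hneg : ∀ u : ZMod m, χ (-u) = -χ u := by
    intro u
    rw [← neg_one_mul, map_mul, hodd, neg_one_mul]
  have h2 : ∑ u : ZMod m, χ u * Complex.log (1 - ZMod.stdAddChar u) =
      -∑ u : ZMod m, χ u * (starRingEnd ℂ) (Complex.log (1 - ZMod.stdAddChar u)) := by
    rw [← Equiv.sum_comp (Equiv.neg (ZMod m)), ← Finset.sum_neg_distrib]
    refine sum_congr rfl fun u _ => ?_
    simp only [Equiv.neg_apply]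
    rw [hneg]
    by_cases hu : u = 0
    · subst hu
      rw [hχ0]
      simp
    · rw [neg_mul]
      congr 2
      have hs := Pool.Agent.Y41.XT.slit (Pool.Agent.Y41.XT.std_norm u) (Pool.Agent.Y41.XT.std_ne_one hu)
      rw [← Complex.log_conj _ (Complex.mem_slitPlane_iff_arg.mp hs).1]
      congr 1
      rw [map_sub, map_one, AddChar.map_neg_eq_inv]
      congr 1
      rw [Complex.inv_def, Complex.normSq_eq_norm_sq, Pool.Agent.Y41.XT.std_norm]
      simp
  have hsum0 : ∑ u : ZMod m, χ u = 0 := MulChar.sum_eq_zero_of_ne_one hne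
  have h3 : ∑ u : ZMod m, χ u * Complex.log (1 - ZMod.stdAddChar u) =
      Complex.I * (Real.pi / m) * ∑ u : ZMod m, χ u * (u.val : ℂ) := by
    have h4 : 2 * ∑ u : ZMod m, χ u * Complex.log (1 - ZMod.stdAddChar u) =
        2 * (Complex.I * (Real.pi / m) * ∑ u : ZMod m, χ u * (u.val : ℂ)) := by
      rw [two_mul]
      nth_rewrite 2 [h2]
      rw [← sub_eq_add_neg, ← sum_sub_distrib]
      have h5 : ∀ u : ZMod m, χ u * Complex.log (1 - ZMod.stdAddChar u) -
          χ u * (starRingEnd ℂ) (Complex.log (1 - ZMod.stdAddChar u)) =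
          2 * (Complex.I * (Real.pi / m) * (χ u * (u.val : ℂ))) - Complex.I * Real.pi * χ u := by
        intro u
        by_cases hu : u = 0
        · subst hu
          rw [hχ0]
          simp
        · rw [← mul_sub, Complex.sub_conj, Pool.Agent.X11.Rot.im_log_std hu]
          push_cast
          field_simp
      rw [sum_congr rfl fun u _ => h5 u, sum_sub_distrib, ← mul_sum, ← mul_sum, ← mul_sum, hsum0]
      ring
    exact mul_left_cancel₀ two_ne_zero h4
  have h7 : ‖gaussSum χ (ZMod.stdAddChar (N := m))‖ = Real.sqrt m := by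
    have h8 := H385.GaussAux.norm_sq_gaussSum hp
    rw [← h8, Real.sqrt_sq (norm_nonneg _)]
  rw [← h7, ← norm_mul, h1, norm_neg, h3, norm_mul, norm_mul, Complex.norm_I, one_mul, norm_div,
    Complex.norm_real, Real.norm_of_nonneg Real.pi_pos.le, Complex.norm_natCast]

end Pool.Agent.X12
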