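import Pool.Agent.Y125.XT.Res
import Pool.Agent.Y797.FK.Disc
import Pool.Agent.X12.Lodd

/-!
# The class number formula for `ℚ(√-p)`, `p ≡ 3 (mod 4)`
-/

set_option autoImplicit false

open Finset NumberField NumberField.InfinitePlace NumberField.Units Polynomial
open IsCyclotomicExtension.Rat H300.HW

namespace Pool.Agent.X12

/-! ### Imaginary quadratic fields -/

section field

variable {K : Type} [Field K] [NumberField K]

lemma neg_sq_int {n : ℕ} {s : K} (hs : s ^ 2 = -(n : K)) (φ : K →+* ℂ) : (φ s) ^ 2 = -(n : ℂ) := by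
  rw [← map_pow, hs, map_neg, map_natCast]

lemma no_real {n : ℕ} (hn : 0 < n) {s : K} (hs : s ^ 2 = -(n : K)) : nrRealPlaces K = 0 := by
  classical
  rw [nrRealPlaces, Fintype.card_eq_zero_iff]
  refine ⟨fun w => ?_⟩
  have h1 := InfinitePlace.isReal_iff.1 w.2
  have h2 := neg_sq_int hs (embedding w.1)
  have h3 := ComplexEmbedding.isReal_iff.1 h1
  have h4 : (starRingEnd ℂ) (embedding w.1 s) = embedding w.1 s := by
    have := DFunLike.congr_fun h3 s
    exact this
  have h5 := (Complex.conj_eq_iff_re.1 h4)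
  have h6 : (((embedding w.1 s).re ^ 2 : ℝ) : ℂ) = ((-(n : ℝ) : ℝ) : ℂ) := by
    push_cast
    rw [h5, h2]
  have h7 : (embedding w.1 s).re ^ 2 = -(n : ℝ) := by exact_mod_cast h6
  have h8 : (0 : ℝ) < n := by exact_mod_cast hn
  nlinarith [sq_nonneg (embedding w.1 s).re]

lemma one_complex (h2 : Module.finrank ℚ K = 2) {n : ℕ} (hn : 0 < n) {s : K}
    (hs : s ^ 2 = -(n : K)) : nrComplexPlaces K = 1 := by
  have h1 := card_add_two_mul_card_eq_rank K
  rw [no_real hn hs, h2] at h1
  omega

lemma rank_zero (h2 : Module.finrank ℚ K = 2) {n : ℕ} (hn : 0 < n) {s : K}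
    (hs : s ^ 2 = -(n : K)) : rank K = 0 := by
  have h1 : Fintype.card (InfinitePlace K) = nrRealPlaces K + nrComplexPlaces K :=
    card_eq_nrRealPlaces_add_nrComplexPlaces (K := K)
  rw [no_real hn hs, one_complex h2 hn hs] at h1
  rw [rank, h1]

lemma regulator_one (h2 : Module.finrank ℚ K = 2) {n : ℕ} (hn : 0 < n) {s : K}
    (hs : s ^ 2 = -(n : K)) : regulator K = 1 := by
  classical
  rw [regulator_eq_det']
  have : IsEmpty {w : InfinitePlace K // w ≠ Units.dirichletUnitTheorem.w₀} := by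
    have h1 : Fintype.card (InfinitePlace K) = 1 := by
      rw [card_eq_nrRealPlaces_add_nrComplexPlaces, no_real hn hs, one_complex h2 hn hs]
    have h3 := Fintype.card_le_one_iff_subsingleton.1 h1.le
    exact ⟨fun w => w.2 (h3.elim _ _)⟩
  rw [Matrix.det_isEmpty, abs_one]

lemma torsion_two (h2 : Module.finrank ℚ K = 2) (hd : discr K < -4) : torsionOrder K = 2 := by
  have h1 : ∀ u : (𝓞 K)ˣ, u = 1 ∨ u = -1 := by
    intro u
    have hN : |Algebra.norm ℤ (u : 𝓞 K)| = 1 := by
      have h3 : IsUnit (Algebra.norm ℤ (u : 𝓞 K)) := u.isUnit.map _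
      exact Int.isUnit_iff_abs_eq.1 h3
    obtain ⟨m, hm⟩ := Pool.Agent.TH847.LS.int_of_small h2 (by omega) (α := (u : 𝓞 K)) (by
      rw [hN, abs_of_neg (by omega)]; omega)
    have h4 := Pool.Agent.TH847.LS.norm_int h2 m
    rw [← hm] at h4
    rw [h4] at hN
    have h5 : m = 1 ∨ m = -1 := by
      rw [abs_of_nonneg (sq_nonneg m)] at hN
      have h10 : (m - 1) * (m + 1) = 0 := by linear_combination hN
      rcases mul_eq_zero.1 h10 with h11 | h11
      · left; omega
      · right; omega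
    rcases h5 with h5 | h5
    · left
      apply Units.ext
      rw [hm, h5]; simp
    · right
      apply Units.ext
      rw [hm, h5]; simp
  have h6 : torsionOrder K ≤ 2 := by
    classical
    rw [torsionOrder]
    have h7 : Nat.card (torsion K) ≤ Nat.card Bool :=
      Nat.card_le_card_of_injective (fun u : torsion K => decide ((u : (𝓞 K)ˣ) = 1)) (by
        intro u v huv
        apply Subtype.ext
        simp only [decide_eq_decide] at huv
        rcases h1 u with hu | hu
        · rw [hu, huv.1 hu]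
        · rcases h1 v with hv | hv
          · rw [hv, huv.2 hv]
          · rw [hu, hv])
    simpa using h7
  have h8 := torsionOrder_pos K
  have h9 := even_torsionOrder K
  rcases h9 with ⟨k, hk⟩
  omega

/-- Isomorphic fields have the same class number. -/
lemma classNumber_congr {E : Type} [Field E] [NumberField E] (e : K ≃+* E) :
    classNumber K = classNumber E := by
  rw [classNumber, classNumber]
  exact Fintype.card_congr (ClassGroup.mulEquiv (RingOfIntegers.mapRingEquiv e)).toEquiv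

lemma iso_adjoin (h2 : Module.finrank ℚ K = 2) {n : ℕ} (hn : 0 < n) {s : K}
    (hs : s ^ 2 = -(n : K)) : Nonempty (AdjoinRoot (X ^ 2 + C (n : ℚ) : ℚ[X]) ≃ₐ[ℚ] K) := by
  have hdeg : (X ^ 2 + C (n : ℚ) : ℚ[X]).natDegree = 2 := natDegree_X_pow_add_C
  have hmon : (X ^ 2 + C (n : ℚ) : ℚ[X]).Monic := monic_X_pow_add_C _ (by norm_num)
  have hirr : Irreducible (X ^ 2 + C (n : ℚ) : ℚ[X]) := by
    apply (Monic.irreducible_iff_roots_eq_zero_of_degree_le_three hmon (by omega) (by omega)).2
    apply Multiset.eq_zero_of_forall_notMem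
    intro q hq
    rw [mem_roots hmon.ne_zero, IsRoot.def] at hq
    simp only [eval_add, eval_pow, eval_X, eval_C] at hq
    have : (0 : ℚ) < n := by exact_mod_cast hn
    nlinarith [sq_nonneg q]
  have : Fact (Irreducible (X ^ 2 + C (n : ℚ) : ℚ[X])) := ⟨hirr⟩
  have hfin : FiniteDimensional ℚ (AdjoinRoot (X ^ 2 + C (n : ℚ) : ℚ[X])) :=
    (AdjoinRoot.powerBasis hmon.ne_zero).finite
  have hfr : Module.finrank ℚ (AdjoinRoot (X ^ 2 + C (n : ℚ) : ℚ[X])) = 2 := by
    have h := (AdjoinRoot.powerBasis hmon.ne_zero).finrank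
    rw [AdjoinRoot.powerBasis_dim, hdeg] at h
    exact h
  have hroot : aeval s (X ^ 2 + C (n : ℚ) : ℚ[X]) = 0 := by
    simp [hs]
  set φ : AdjoinRoot (X ^ 2 + C (n : ℚ) : ℚ[X]) →ₐ[ℚ] K :=
    AdjoinRoot.liftAlgHom (X ^ 2 + C (n : ℚ) : ℚ[X]) (Algebra.ofId ℚ K) s (by
      rw [← hroot]; rfl)
  have hinj : Function.Injective φ := φ.toRingHom.injective
  have hsur : Function.Surjective φ := by
    have := (LinearMap.injective_iff_surjective_of_finrank_eq_finrank
      (f := φ.toLinearMap) (by rw [hfr, h2])).1 hinj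
    exact this
  exact ⟨AlgEquiv.ofBijective φ ⟨hinj, hsur⟩⟩

lemma classNumber_eq (h2 : Module.finrank ℚ K = 2) {n : ℕ} (hn : 0 < n) {s : K}
    (hs : s ^ 2 = -(n : K)) {E : Type} [Field E] [NumberField E] (h2' : Module.finrank ℚ E = 2)
    {t : E} (ht : t ^ 2 = -(n : E)) : classNumber K = classNumber E := by
  obtain ⟨e⟩ := iso_adjoin h2 hn hs
  obtain ⟨e'⟩ := iso_adjoin h2' hn ht
  exact classNumber_congr ((e.symm.trans e').toRingEquiv)

end field

/-! ### The quadratic subfield of the cyclotomic field -/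

section cyc

variable {p : ℕ} [Fact p.Prime] {L : Type} [Field L] [NumberField L] [IsCyclotomicExtension {p} ℚ L]

/-- the quadratic character with values in `L` -/
noncomputable def qL (p : ℕ) [Fact p.Prime] (L : Type) [Field L] : MulChar (ZMod p) L :=
  (quadraticChar (ZMod p)).ringHomComp (Int.castRingHom L)

omit [NumberField L] [IsCyclotomicExtension {p} ℚ L] in
lemma qL_apply (x : ZMod p) : qL p L x = ((quadraticChar (ZMod p) x : ℤ) : L) := rfl

/-- the Gauss sum -/
lemma exists_gauss_L (hp : p % 4 = 3) (L : Type) [Field L] [NumberField L]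
    [IsCyclotomicExtension {p} ℚ L] : ∃ g : L, g ^ 2 = -(p : L) ∧
      ∀ σ : Gal(L/ℚ), σ g = g → quadraticChar (ZMod p) (galEquivZMod p L σ : ZMod p) = 1 := by
  have hζ := IsCyclotomicExtension.zeta_spec p ℚ L
  set ζ := IsCyclotomicExtension.zeta p ℚ L with hζdef
  have hζp : ζ ^ p = 1 := hζ.pow_eq_one
  set ψ : AddChar (ZMod p) L := AddChar.zmodChar p hζp with hψ
  have hψp : ψ.IsPrimitive := AddChar.zmodChar_primitive_of_primitive_root p hζ
  have hp2 : ringChar (ZMod p) ≠ 2 := by
    rw [ZMod.ringChar_zmod_n]; omega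
  have hq1 : qL p L ≠ 1 := by
    intro h
    obtain ⟨a, ha⟩ := quadraticChar_exists_neg_one' hp2
    have h1 : qL p L (a : ZMod p) = 1 := by rw [h]; exact MulChar.one_apply_coe a
    rw [qL_apply, ha] at h1
    norm_num at h1
  have hqq : (qL p L).IsQuadratic := (quadraticChar_isQuadratic (ZMod p)).comp _
  have hg := gaussSum_sq hq1 hqq hψp
  refine ⟨gaussSum (qL p L) ψ, ?_, ?_⟩
  · rw [hg, ZMod.card, qL_apply, quadraticChar_neg_one hp2, ZMod.card, ZMod.χ₄_nat_three_mod_four hp]
    push_cast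
    ring
  · intro σ hσ
    set c := galEquivZMod p L σ with hc
    have h1 : σ (gaussSum (qL p L) ψ) = gaussSum (qL p L) (ψ.mulShift (c : ZMod p)) := by
      unfold gaussSum
      rw [map_sum]
      refine Finset.sum_congr rfl fun x _ => ?_
      rw [map_mul, qL_apply, map_intCast]
      congr 1
      rw [AddChar.mulShift_apply, hψ, AddChar.zmodChar_apply, map_pow,
        galEquivZMod_apply_of_pow_eq p L σ hζp, ← hc]
      rw [← pow_mul, ← AddChar.zmodChar_apply' hζp]
      congr 1
      push_cast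
      rw [ZMod.natCast_zmod_val, ZMod.natCast_zmod_val]
    have h2 := gaussSum_mulShift (qL p L) ψ c
    rw [← h1, hσ] at h2
    have hg0 : gaussSum (qL p L) ψ ≠ 0 := by
      intro h0
      rw [h0] at hg
      have hp0 : (Fintype.card (ZMod p) : L) ≠ 0 := by
        rw [ZMod.card]; exact Nat.cast_ne_zero.2 (Fact.out : p.Prime).ne_zero
      have hq0 : qL p L (-1) ≠ 0 := by
        rw [qL_apply, quadraticChar_neg_one hp2, ZMod.card, ZMod.χ₄_nat_three_mod_four hp]
        norm_num
      exact (mul_ne_zero hq0 hp0) (by rw [← hg]; ring)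
    have h3 : qL p L (c : ZMod p) = 1 := mul_right_cancel₀ hg0 (by rw [h2, one_mul])
    rw [qL_apply] at h3
    exact_mod_cast h3

lemma finrank_adjoin {L : Type} [Field L] [NumberField L] {n : ℕ} (hn : 0 < n) {g : L}
    (hg : g ^ 2 = -(n : L)) : Module.finrank ℚ (IntermediateField.adjoin ℚ {g}) = 2 := by
  have hdeg : (X ^ 2 + C (n : ℚ) : ℚ[X]).natDegree = 2 := natDegree_X_pow_add_C
  have hmon : (X ^ 2 + C (n : ℚ) : ℚ[X]).Monic := monic_X_pow_add_C _ (by norm_num)
  have hirr : Irreducible (X ^ 2 + C (n : ℚ) : ℚ[X]) := by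
    apply (Monic.irreducible_iff_roots_eq_zero_of_degree_le_three hmon (by omega) (by omega)).2
    apply Multiset.eq_zero_of_forall_notMem
    intro q hq
    rw [mem_roots hmon.ne_zero, IsRoot.def] at hq
    simp only [eval_add, eval_pow, eval_X, eval_C] at hq
    have : (0 : ℚ) < n := by exact_mod_cast hn
    nlinarith [sq_nonneg q]
  have hroot : aeval g (X ^ 2 + C (n : ℚ) : ℚ[X]) = 0 := by
    simp [hg]
  have hmin := minpoly.eq_of_irreducible_of_monic hirr hroot hmon
  rw [IntermediateField.adjoin.finrank (Algebra.IsIntegral.isIntegral g), ← hmin, hdeg]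

open Pool.Agent.Y812.XF (jc jc_nat jc_val jc_prim)

lemma jc_apply (x : ZMod p) : jc p x = ((quadraticChar (ZMod p) x : ℤ) : ℂ) := by
  rw [jc_val, ← jacobiSym.legendreSym.to_jacobiSym, legendreSym]
  congr 3
  push_cast
  exact ZMod.natCast_zmod_val x

lemma jc_odd (hp : p % 4 = 3) : jc p (-1) = -1 := by
  rw [jc_apply, quadraticChar_neg_one (by rw [ZMod.ringChar_zmod_n]; omega), ZMod.card,
    ZMod.χ₄_nat_three_mod_four hp]
  norm_num

lemma Lp_jc (hp : p % 4 = 3) :
    Pool.Agent.Y125.XT.Lp p (jc p) 1 = DirichletCharacter.LFunction (jc p) 1 := by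
  have hpr := (Fact.out : p.Prime)
  have hprim : (jc p).IsPrimitive := jc_prim (Nat.odd_iff.2 (by omega)) hpr.squarefree
  have hne := Pool.Agent.X11.Rot.jc_ne_one hp
  have hc : (jc p).conductor = p := (DirichletCharacter.isPrimitive_def _).1 hprim
  have hp1 : (jc p).primitiveCharacter ≠ 1 := by
    intro h
    apply hne
    have := (jc p).changeLevel_primitiveCharacter
    rw [h, DirichletCharacter.changeLevel_one] at this
    exact this.symm
  have h1 := DirichletCharacter.LFunction_changeLevel (jc p).conductor_dvd_level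
    (jc p).primitiveCharacter (s := 1) (Or.inl hp1)
  rw [(jc p).changeLevel_primitiveCharacter, hpr.primeFactors, Finset.prod_singleton] at h1
  have h2 : (jc p).primitiveCharacter (p : ZMod (jc p).conductor) = 0 := by
    apply MulChar.map_nonunit
    have : ((p : ℕ) : ZMod (jc p).conductor) = 0 := by
      rw [ZMod.natCast_eq_zero_iff, hc]
    rw [this]
    intro h
    rw [isUnit_zero_iff] at h
    have h3 : Subsingleton (ZMod (jc p).conductor) := subsingleton_of_zero_eq_one h
    have h4 := (ZMod.subsingleton_iff).1 h3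
    rw [hc] at h4
    exact hpr.one_lt.ne' h4
  rw [h2, zero_mul, sub_zero, mul_one] at h1
  rw [h1]
  rfl

lemma residue_eq_L (hp : p % 4 = 3) {g : L} (hg : g ^ 2 = -(p : L))
    (hgal : ∀ σ : Gal(L/ℚ), σ g = g → quadraticChar (ZMod p) (galEquivZMod p L σ : ZMod p) = 1) :
    (dedekindZeta_residue (IntermediateField.adjoin ℚ {g}) : ℂ) =
      DirichletCharacter.LFunction (jc p) 1 := by
  classical
  have hpr := (Fact.out : p.Prime)
  have hgalois : IsGalois ℚ L := IsCyclotomicExtension.isGalois {p} ℚ L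
  set F := IntermediateField.adjoin ℚ {g} with hF
  have hcard : Nat.card (YY p L F) = 2 := by
    rw [card_YY, ← IntermediateField.finrank_eq_fixingSubgroup_index, finrank_adjoin hpr.pos hg]
  have hmem : jc p ∈ YY p L F := by
    rw [mem_YY]
    intro σ hσ
    rw [jc_apply, hgal σ]
    · simp
    · have h1 := (IntermediateField.mem_fixingSubgroup_iff F σ).1 hσ
      exact h1 g (IntermediateField.mem_adjoin_simple_self ℚ g)
  have hne := Pool.Agent.X11.Rot.jc_ne_one hp
  rw [Pool.Agent.Y125.XT.residue_eq p L F]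
  have h1 : (Finset.univ : Finset (YY p L F)).erase 1 = {⟨jc p, hmem⟩} := by
    symm
    apply Finset.eq_of_subset_of_card_le
    · intro x hx
      rw [Finset.mem_singleton] at hx
      rw [hx, Finset.mem_erase]
      exact ⟨fun h => hne (congrArg Subtype.val h), Finset.mem_univ _⟩
    · rw [Finset.card_erase_of_mem (Finset.mem_univ _), Finset.card_univ,
        ← Nat.card_eq_fintype_card, hcard, Finset.card_singleton]
  rw [h1, Finset.prod_singleton, Lp_jc hp]

end cyc

section final

variable {p : ℕ} [Fact p.Prime]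

open Pool.Agent.Y812.XF (jc jc_nat jc_val jc_prim)
open Pool.Agent.X11.Rot

lemma sum_jc (hp : p % 4 = 3) : ∑ u : ZMod p, jc p u * (u.val : ℂ) =
    ((∑ n ∈ Ioo 0 p, J p n * n : ℤ) : ℂ) := by
  have h1 : ∑ u : ZMod p, jc p u * (u.val : ℂ) =
      ∑ b ∈ range p, ((J p b : ℤ) : ℂ) * (b : ℂ) := by
    rw [← sum_zmod_val (fun b : ℕ => ((J p b : ℤ) : ℂ) * (b : ℂ))]
    rfl
  have h2 : range p = insert 0 (Ioo 0 p) := by
    ext n; simp only [mem_range, mem_insert, mem_Ioo]; omega
  rw [h1, h2, sum_insert (by simp)]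
  push_cast
  simp

/-- The class number formula. -/
theorem class_number_sum (hp : p % 4 = 3) (h3 : 3 < p) {K : Type} [Field K] [NumberField K]
    (h2 : Module.finrank ℚ K = 2) {s : K} (hs : s ^ 2 = -(p : K)) :
    (classNumber K : ℤ) * p = -∑ n ∈ Ioo 0 p, J p n * n := by
  have hpr := (Fact.out : p.Prime)
  have hp0 : (0 : ℝ) < p := by exact_mod_cast hpr.pos
  have hnz : NeZero p := ⟨hpr.ne_zero⟩
  have hnq : NeZero ((p : ℕ) : ℚ) := ⟨Nat.cast_ne_zero.2 hpr.ne_zero⟩
  have hcyc : IsCyclotomicExtension {p} ℚ (CyclotomicField p ℚ) :=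
    CyclotomicField.isCyclotomicExtension p ℚ
  obtain ⟨g, hg, hgal⟩ := exists_gauss_L hp (CyclotomicField p ℚ)
  set F := IntermediateField.adjoin ℚ {g} with hF
  have hF2 : Module.finrank ℚ F = 2 := finrank_adjoin hpr.pos hg
  set t : F := ⟨g, IntermediateField.mem_adjoin_simple_self ℚ g⟩ with ht
  have ht2 : t ^ 2 = -(p : F) := by
    apply Subtype.ext
    show g ^ 2 = _
    rw [hg]
    push_cast
    rfl
  rw [classNumber_eq h2 hpr.pos hs hF2 ht2]
  have hd : discr F = -(p : ℤ) := by
    rw [Pool.Agent.Y797.FK.part1 hF2 p hpr.squarefree t ht2, if_pos hp]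
  have h4 := residue_eq_L hp hg hgal
  rw [← hF, dedekindZeta_residue_def, no_real hpr.pos ht2, one_complex hF2 hpr.pos ht2,
    regulator_one hF2 hpr.pos ht2, torsion_two hF2 (by rw [hd]; omega), hd] at h4
  have h5 := L_odd (jc_prim (Nat.odd_iff.2 (by omega)) hpr.squarefree) (jc_ne_one hp) (jc_odd hp)
    (jc_quad p).inv
  rw [← h4, sum_jc hp, Complex.norm_intCast, Complex.norm_real] at h5
  have h6 : |((-(p : ℤ) : ℤ) : ℝ)| = p := by
    push_cast
    rw [abs_neg, abs_of_pos hp0]
  rw [h6] at h5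
  have hsq : 0 < Real.sqrt p := Real.sqrt_pos.2 hp0
  have h7 : (0 : ℝ) ≤ 2 ^ 0 * (2 * Real.pi) ^ 1 * 1 * (classNumber F : ℝ) / ((2 : ℕ) * Real.sqrt p) := by
    positivity
  rw [Real.norm_of_nonneg h7] at h5
  have h8 : (classNumber F : ℝ) * p = |((∑ n ∈ Ioo 0 p, J p n * n : ℤ) : ℝ)| := by
    have hpi := Real.pi_pos
    field_simp at h5
    push_cast at h5 ⊢
    linear_combination h5 / 2
  obtain ⟨m, hm⟩ : ∃ m, p = 2 * m + 1 := ⟨p / 2, by omega⟩
  have h10 : ∑ n ∈ Ioo 0 p, J p n * n ≤ 0 := by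
    have := T_nonpos (m := m) (by rw [← hm]; exact hp) (by rw [← hm]; exact hpr.squarefree)
    rw [← hm] at this
    exact this
  rw [abs_of_nonpos (by exact_mod_cast h10)] at h8
  exact_mod_cast h8

/-- The class number as a half sum. -/
theorem class_number_half {m : ℕ} (hm : p = 2 * m + 1) (hp : p % 4 = 3) (h3 : 3 < p) {K : Type}
    [Field K] [NumberField K] (h2 : Module.finrank ℚ K = 2) {s : K} (hs : s ^ 2 = -(p : K)) :
    (2 - J p 2) * (classNumber K : ℤ) = ∑ n ∈ Icc 1 m, J p n := by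
  have h4 := class_number_sum hp h3 h2 hs
  have h5 := half_sum_identity (m := m) (by rw [← hm]; exact hp)
  rw [← hm] at h5
  have h6 : (p : ℤ) ≠ 0 := by exact_mod_cast (Fact.out : p.Prime).ne_zero
  have h7 : (2 * (m : ℤ) + 1) = p := by rw [hm]; push_cast; ring
  rw [h7] at h5
  apply mul_left_cancel₀ h6
  rw [← h5]
  linear_combination (2 - J p 2) * h4

end final

end Pool.Agent.X12
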