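import Pool.Agent.Y473.FK.Alg
import Pool.Agent.Y797.FK.Disc
import Pool.Agent.Y486.FK.Amb1
import Pool.Agent.Y629.FK.Sq
import Pool.Agent.Y168.FK.Leg
import Pool.Agent.Y688.FK.Amb2

/-!
# The class number of `ℚ(√-p)` modulo four for `p ≡ 1 (mod 4)`
-/

set_option autoImplicit false

open Finset NumberField

open scoped Classical

namespace Pool.Agent.X12

open Pool.Agent.Y755.FK Pool.Agent.Y473.FK.Alg

theorem a_AMB1 : S_AMB1 := Pool.Agent.Y486.FK.t_AMB1
theorem a_AMB : S_AMB := Pool.Agent.Y688.FK.t_AMB2 Pool.Agent.Y486.FK.t_AMB1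
theorem a_SQ : S_SQ := Pool.Agent.Y629.FK.t_SQ
theorem a_LEG : S_LEG := Pool.Agent.Y168.FK.t_LEG

lemma count_two {K : Type} [Field K] [NumberField K] (h2 : Module.finrank ℚ K = 2) (n : ℕ)
    (hn : Squarefree n) (hs : ∃ s : K, s ^ 2 = -(n : K)) :
    (Rn n).divisors.card =
      2 * Nat.card {y : ClassGroup (NumberField.RingOfIntegers K) // y ^ 2 = 1} := by
  obtain ⟨hA1a, _⟩ := a_AMB1 K h2 n hn hs
  have hA' := a_AMB K h2 n hn hs
  rw [Nat.card_eq_fintype_card, Fintype.card_subtype]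
  have hmaps : (((Rn n).divisors : Finset ℕ) : Set ℕ).MapsTo (clb K)
      ((Finset.univ.filter (fun y : ClassGroup (NumberField.RingOfIntegers K) => y ^ 2 = 1) :
        Finset (ClassGroup (NumberField.RingOfIntegers K))) :
          Set (ClassGroup (NumberField.RingOfIntegers K))) := by
    intro b hb
    rw [Finset.mem_coe] at hb
    rw [Finset.mem_coe, Finset.mem_filter]
    obtain ⟨I, hI⟩ := hA1a b (Nat.dvd_of_mem_divisors hb)
    rw [clb_eq K hI]
    exact ⟨Finset.mem_univ _, mk0_sq K hI⟩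
  rw [Finset.card_eq_sum_card_fiberwise hmaps]
  rw [Finset.sum_congr rfl (g := fun _ => 2), Finset.sum_const, smul_eq_mul, mul_comm]
  intro y hy
  rw [← hA' y (Finset.mem_filter.mp hy).2]
  congr 1
  refine Finset.filter_congr (fun b hb => ?_)
  constructor
  · intro hb2
    obtain ⟨I, hI⟩ := hA1a b (Nat.dvd_of_mem_divisors hb)
    refine ⟨I, hI, ?_⟩
    rw [← clb_eq K hI]
    exact hb2
  · rintro ⟨I, hI, hc⟩
    rw [clb_eq K hI]
    exact hc

lemma rep_p {p : ℕ} [Fact p.Prime] (hp : p % 4 = 1) :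
    ((2 * p).divisors.filter (fun b => Rep p b)).card = if p % 8 = 1 then 4 else 2 := by
  have hpr := (Fact.out : p.Prime)
  have hodd : Odd p := Nat.odd_iff.2 (by omega)
  have r1 : Rep p 1 := ⟨1, 0, by norm_num⟩
  have rp : Rep p p := ⟨0, 1, by norm_num⟩
  have hp0 : (p : ℚ) ≠ 0 := by exact_mod_cast hpr.ne_zero
  have r2 : Rep p 2 ↔ p % 8 = 1 := by
    have h := rep_two a_LEG (b := 1) (c := p) (by rw [one_mul]; exact hpr.squarefree)
      (by rw [one_mul]; exact hodd)
    rw [one_mul, mul_one] at h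
    rw [h]
    unfold Qc
    have h3 : jacobiSym 2 p = ZMod.χ₈ p := by
      exact jacobiSym.at_two hodd
    have h4 := ZMod.χ₈_nat_eq_if_mod_eight p
    constructor
    · rintro ⟨h1, -⟩
      have h2 := h1 p hpr dvd_rfl
      have h5 : jacobiSym 2 p = 1 := by
        simpa using h2
      rw [h3, h4] at h5
      by_contra h6
      rw [if_neg (by omega), if_neg (by omega)] at h5
      norm_num at h5
    · intro h5
      refine ⟨fun q hq hqp => ?_, fun q hq hq1 => absurd (Nat.dvd_one.1 hq1) hq.one_lt.ne'⟩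
      have h6 := (Nat.prime_dvd_prime_iff_eq hq hpr).1 hqp
      subst h6
      have h7 : jacobiSym 2 q = 1 := by
        rw [h3, h4, if_neg (by omega), if_pos (by omega)]
      simpa using h7
  have r2p : Rep p (2 * p) ↔ Rep p 2 := by
    constructor
    · rintro ⟨u, v, h⟩
      refine ⟨v, u / p, ?_⟩
      push_cast at h ⊢
      field_simp
      linear_combination h
    · rintro ⟨u, v, h⟩
      refine ⟨p * v, u, ?_⟩
      push_cast at h ⊢
      linear_combination p * h
  have h1p : (1 : ℕ) ≠ p := hpr.one_lt.ne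
  rw [card_divisors_two hodd, hpr.divisors, Finset.filter_insert, if_pos r1, Finset.filter_singleton,
    if_pos rp, Finset.card_pair h1p, Finset.filter_insert, Finset.filter_singleton]
  by_cases h8 : p % 8 = 1
  · rw [if_pos h8]
    have a1 : Rep p (2 * 1) := by rw [mul_one]; exact r2.2 h8
    have a2 : Rep p (2 * p) := r2p.2 (r2.2 h8)
    rw [if_pos a1, if_pos a2, Finset.card_pair h1p]
  · rw [if_neg h8]
    have a1 : ¬ Rep p (2 * 1) := by rw [mul_one]; exact fun h => h8 (r2.1 h)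
    have a2 : ¬ Rep p (2 * p) := fun h => h8 (r2.1 (r2p.1 h))
    rw [if_neg a1, if_neg a2, Finset.card_empty]

lemma group_two {G : Type*} [CommGroup G] [Finite G] (h : Nat.card {y : G // y ^ 2 = 1} = 2) :
    2 ∣ Nat.card G := by
  have : Nontrivial {y : G // y ^ 2 = 1} := by
    rw [← Finite.one_lt_card_iff_nontrivial, h]; norm_num
  obtain ⟨⟨y, hy⟩, hne⟩ := exists_ne (⟨1, one_pow 2⟩ : {y : G // y ^ 2 = 1})
  have hy1 : y ≠ 1 := fun h => hne (Subtype.ext h)
  have := orderOf_eq_prime hy hy1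
  rw [← this]
  exact orderOf_dvd_natCard y

lemma group_four {G : Type*} [CommGroup G] [Finite G]
    (h : Nat.card {y : G // ∃ x : G, x ^ 4 = 1 ∧ x ^ 2 = y} = 2) : 4 ∣ Nat.card G := by
  have : Nontrivial {y : G // ∃ x : G, x ^ 4 = 1 ∧ x ^ 2 = y} := by
    rw [← Finite.one_lt_card_iff_nontrivial, h]; norm_num
  obtain ⟨⟨y, x, hx4, hx2⟩, hne⟩ := exists_ne
    (⟨1, 1, one_pow 4, one_pow 2⟩ : {y : G // ∃ x : G, x ^ 4 = 1 ∧ x ^ 2 = y})
  have hy1 : x ^ 2 ≠ 1 := fun h => hne (Subtype.ext (hx2.symm.trans h))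
  have : orderOf x = 2 ^ (1 + 1) := orderOf_eq_prime_pow (by simpa using hy1) (by simpa using hx4)
  have h4 : orderOf x = 4 := by rw [this]; norm_num
  rw [← h4]
  exact orderOf_dvd_natCard x

lemma group_not_four {G : Type*} [CommGroup G] [Finite G] (h2 : Nat.card {y : G // y ^ 2 = 1} = 2)
    (h : Nat.card {y : G // ∃ x : G, x ^ 4 = 1 ∧ x ^ 2 = y} = 1) : ¬ 4 ∣ Nat.card G := by
  intro h4
  have : Fact (Nat.Prime 2) := ⟨Nat.prime_two⟩
  obtain ⟨H, hH⟩ := Sylow.exists_subgroup_card_pow_prime (G := G) 2 (n := 2) (by simpa using h4)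
  have h5 : ∀ x : H, (x : G) ^ 2 = 1 := by
    intro x
    have h6 : x ^ 4 = 1 := by
      have := pow_card_eq_one' (x := x)
      rw [hH] at this
      simpa using this
    have h7 : (x : G) ^ 4 = 1 := by
      rw [← Subgroup.coe_pow, h6, Subgroup.coe_one]
    have h8 := (Nat.card_eq_one_iff_unique.1 h).1
    have h9 := h8.elim (⟨(x : G) ^ 2, x, h7, rfl⟩ : {y : G // ∃ x : G, x ^ 4 = 1 ∧ x ^ 2 = y})
      ⟨1, 1, one_pow 4, one_pow 2⟩
    exact congrArg Subtype.val h9
  have h10 : Nat.card H ≤ Nat.card {y : G // y ^ 2 = 1} :=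
    Nat.card_le_card_of_injective (fun x : H => (⟨x, h5 x⟩ : {y : G // y ^ 2 = 1}))
      (fun a b hab => Subtype.ext (congrArg (fun z : {y : G // y ^ 2 = 1} => (z : G)) hab))
  rw [hH, h2] at h10
  norm_num at h10

/-- The class number modulo four. -/
theorem class_mod_four {p : ℕ} [Fact p.Prime] (hp : p % 4 = 1) {K : Type} [Field K] [NumberField K]
    (h2 : Module.finrank ℚ K = 2) (hs : ∃ s : K, s ^ 2 = -(p : K)) :
    classNumber K % 4 = if p % 8 = 1 then 0 else 2 := by
  have hpr := (Fact.out : p.Prime)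
  have hcard : classNumber K = Nat.card (ClassGroup (𝓞 K)) := by
    rw [classNumber, Nat.card_eq_fintype_card]
  have hRn : Rn p = 2 * p := by rw [Rn, if_pos hp]
  have c1 := count_two h2 p hpr.squarefree hs
  have c2 := count (K := K) a_AMB1 a_AMB a_SQ h2 p hpr.squarefree hs
  rw [hRn] at c1 c2
  rw [rep_p hp] at c2
  have hodd : Odd p := Nat.odd_iff.2 (by omega)
  have h1p : (1 : ℕ) ≠ p := hpr.one_lt.ne
  have c3 : (2 * p).divisors.card = 4 := by
    have := card_divisors_two hodd (fun _ => True)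
    rw [Finset.filter_true, Finset.filter_true, hpr.divisors, Finset.card_pair h1p] at this
    exact this
  rw [c3] at c1
  have d1 : Nat.card {y : ClassGroup (𝓞 K) // y ^ 2 = 1} = 2 := by omega
  have e1 := group_two d1
  rw [hcard]
  by_cases h8 : p % 8 = 1
  · rw [if_pos h8] at c2 ⊢
    have := group_four (G := ClassGroup (𝓞 K)) (by omega)
    omega
  · rw [if_neg h8] at c2 ⊢
    have := group_not_four (G := ClassGroup (𝓞 K)) d1 (by omega)
    omega

end Pool.Agent.X12
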