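import Pool.Agent.X12.Sp
import Pool.Agent.X12.Cnf
import Pool.Agent.X12.HmodFour

/-!
# The argument of the product over the quadratic residues
-/

set_option autoImplicit false

namespace Pool.Agent.X12

open Finset Complex

section

variable {p : ℕ} [Fact p.Prime]

/-- the set of the quadratic residues -/
def QR (p : ℕ) [Fact p.Prime] : Finset (ZMod p) := univ.filter (fun a => qc p a = 1)

lemma mem_QR {a : ZMod p} : a ∈ QR p ↔ qc p a = 1 := by simp [QR]

lemma card_QR {n : ℕ} (hn : p = 2 * n + 1) : (QR p).card = n := by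
  have h1 := prod_squares hn (fun _ : ZMod p => (2 : ℕ))
  rw [Finset.prod_const, Nat.card_Icc, ← Finset.prod_filter, Finset.prod_const] at h1
  have h2 := Nat.pow_right_injective (le_refl 2) h1
  rw [QR, ← h2]
  omega

lemma QR_ne {a : ZMod p} (h : a ∈ QR p) : a ≠ 0 := by
  rintro rfl
  rw [mem_QR, qc_zero] at h
  norm_num at h

lemma QR_val {a : ZMod p} (h : a ∈ QR p) : 0 < a.val ∧ a.val < p :=
  ⟨Nat.pos_of_ne_zero (by rw [Ne, ZMod.val_eq_zero]; exact QR_ne h), ZMod.val_lt a⟩

lemma SQ_eq_prod (x : ℂ) : SQ p x = ∏ a ∈ QR p, (x - ps p a) := by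
  rw [SQ, QR, Finset.prod_filter]

lemma sum_val {n : ℕ} (hn : p = 2 * n + 1) : ∑ a : ZMod p, (a.val : ℤ) = p * n := by
  have h1 := prod_zmod (M := Multiplicative ℤ) (fun a : ZMod p => Multiplicative.ofAdd (a.val : ℤ))
  have h2 : ∑ a : ZMod p, (a.val : ℤ) = ∑ i ∈ range p, (((i : ZMod p).val : ℕ) : ℤ) := by
    exact h1
  rw [h2, Finset.sum_congr rfl (fun i hi => by rw [ZMod.val_cast_of_lt (Finset.mem_range.1 hi)])]
  have h3 := Finset.sum_range_id_mul_two p
  have h4 : ((∑ i ∈ range p, i : ℕ) : ℤ) * 2 = p * (p - 1 : ℕ) := by exact_mod_cast h3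
  rw [Nat.cast_sum, show ((p - 1 : ℕ) : ℤ) = 2 * n by omega] at h4
  linarith

/-- The sum of the quadratic residues. -/
lemma sum_QR {n : ℕ} (hn : p = 2 * n + 1) {h' : ℤ}
    (hh : ∑ a : ZMod p, qc p a * (a.val : ℤ) = -h' * p) :
    2 * ∑ a ∈ QR p, (a.val : ℤ) = p * (n - h') := by
  have h1 : ∑ a : ZMod p, (a.val : ℤ) + ∑ a : ZMod p, qc p a * (a.val : ℤ) =
      2 * ∑ a ∈ QR p, (a.val : ℤ) := by
    rw [← Finset.sum_add_distrib, QR, Finset.sum_filter, Finset.mul_sum]
    refine Finset.sum_congr rfl fun a _ => ?_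
    by_cases ha : a = 0
    · rw [ha, ZMod.val_zero, qc_zero]; simp
    · rcases qc_cases ha with h | h
      · rw [h, if_pos rfl]; ring
      · rw [h, if_neg (by norm_num)]; ring
  rw [← h1, sum_val hn, hh]
  ring

/-- The argument of the product. -/
lemma SQ_exp {n : ℕ} (hn : p = 2 * n + 1) {h' : ℤ}
    (hh : ∑ a : ZMod p, qc p a * (a.val : ℤ) = -h' * p) (θ : ℝ) :
    SQ p (exp (I * θ)) = exp (I * (θ * n / 2 + Real.pi * (n - h' / 2))) *
      ((∏ a ∈ QR p, 2 * Real.sin (θ / 2 - Real.pi * a.val / p) : ℝ) : ℂ) := by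
  have hp0 : (p : ℂ) ≠ 0 := Nat.cast_ne_zero.2 (Fact.out : p.Prime).ne_zero
  have h1 : ∀ a : ZMod p, exp (I * θ) - ps p a = (exp (I * (θ / 2)) * I) *
      exp (I * (Real.pi / p) * (a.val : ℂ)) * ((2 * Real.sin (θ / 2 - Real.pi * a.val / p) : ℝ) : ℂ) := by
    intro a
    have h2 : ps p a = exp (I * (Real.pi / p) * (a.val : ℂ)) * exp (I * (Real.pi / p) * (a.val : ℂ)) := by
      have h3 := ps_nat (p := p) a.val
      rw [ZMod.natCast_zmod_val] at h3
      rw [h3, ← Complex.exp_add]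
      congr 1
      ring
    have h4 : exp (I * θ) = exp (I * (θ / 2)) * exp (I * (θ / 2)) := by
      rw [← Complex.exp_add]; congr 1; ring
    have h5 : ((2 * Real.sin (θ / 2 - Real.pi * a.val / p) : ℝ) : ℂ) =
        (exp (-(I * (θ / 2 - Real.pi * a.val / p))) - exp (I * (θ / 2 - Real.pi * a.val / p))) * I := by
      rw [Complex.ofReal_mul, Complex.ofReal_sin, Complex.sin]
      push_cast
      rw [show -((θ : ℂ) / 2 - Real.pi * a.val / p) * I = -(I * (θ / 2 - Real.pi * a.val / p)) by ring,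
        show ((θ : ℂ) / 2 - Real.pi * a.val / p) * I = (I * (θ / 2 - Real.pi * a.val / p)) by ring]
      ring
    rw [h5, h4, h2]
    have h6 : exp (I * (θ / 2 - Real.pi * a.val / p)) = exp (I * (θ / 2)) *
        exp (-(I * (Real.pi / p) * (a.val : ℂ))) := by
      rw [← Complex.exp_add]; congr 1; ring
    have h7 : exp (-(I * (θ / 2 - Real.pi * a.val / p))) = exp (-(I * (θ / 2))) *
        exp (I * (Real.pi / p) * (a.val : ℂ)) := by
      rw [← Complex.exp_add]; congr 1; ring
    rw [h6, h7]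
    have h8 : exp (I * (θ / 2)) * exp (-(I * (θ / 2))) = 1 := by
      rw [← Complex.exp_add]; simp
    have h9 : exp (I * (Real.pi / p) * (a.val : ℂ)) * exp (-(I * (Real.pi / p) * (a.val : ℂ))) = 1 := by
      rw [← Complex.exp_add]; simp
    generalize exp (I * (θ / 2)) = x at *
    generalize exp (-(I * (θ / 2))) = x' at *
    generalize exp (I * (Real.pi / p) * (a.val : ℂ)) = y at *
    generalize exp (-(I * (Real.pi / p) * (a.val : ℂ))) = y' at *
    linear_combination (-(x * x' * y ^ 2 - x ^ 2 * y * y')) * I_sq + y ^ 2 * h8 - x ^ 2 * h9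
  have h10 := sum_QR hn hh
  have h11 : (∑ a ∈ QR p, (a.val : ℂ)) = p * (n - h') / 2 := by
    have : (2 : ℂ) * ∑ a ∈ QR p, (a.val : ℂ) = p * (n - h') := by exact_mod_cast h10
    linear_combination this / 2
  rw [SQ_eq_prod, Finset.prod_congr rfl fun a _ => h1 a, Finset.prod_mul_distrib,
    Finset.prod_mul_distrib, Finset.prod_const, card_QR hn, ← Complex.exp_sum, ← Finset.mul_sum, h11,
    ← Complex.ofReal_prod]
  congr 1
  have h12 : exp (I * (θ / 2)) * I = exp (I * (θ / 2 + Real.pi / 2)) := by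
    rw [mul_add, Complex.exp_add]
    congr 1
    rw [show I * ((Real.pi : ℂ) / 2) = (Real.pi : ℂ) / 2 * I by ring, Complex.exp_pi_div_two_mul_I]
  rw [h12, ← Complex.exp_nat_mul, ← Complex.exp_add]
  congr 1
  field_simp
  ring

lemma prod_sign {ι : Type*} (s : Finset ι) (f : ι → ℝ) (h : ∀ i ∈ s, f i ≠ 0) :
    0 < (-1 : ℝ) ^ (s.filter (fun i => f i < 0)).card * ∏ i ∈ s, f i := by
  classical
  induction s using Finset.induction_on with
  | empty => simp
  | insert i s hi ih =>
    have h1 := ih fun j hj => h j (Finset.mem_insert_of_mem hj)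
    have h2 := h i (Finset.mem_insert_self _ _)
    rw [Finset.prod_insert hi, Finset.filter_insert]
    by_cases h3 : f i < 0
    · rw [if_pos h3, Finset.card_insert_of_notMem (fun h4 => hi (Finset.mem_filter.1 h4).1), pow_succ]
      have := mul_pos (neg_pos.2 h3) h1
      linarith
    · rw [if_neg h3]
      have h4 : 0 < f i := lt_of_le_of_ne (not_lt.1 h3) (Ne.symm h2)
      have := mul_pos h4 h1
      linarith

/-- the number of the quadratic residues in `(0, p / 12)` -/
def NQ (p : ℕ) [Fact p.Prime] : ℕ := ((QR p).filter (fun a => 12 * a.val < p)).card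

lemma neg_plus {n : ℕ} (hn : p = 2 * n + 1) (h5 : 3 < p) :
    ((QR p).filter (fun a => 2 * Real.sin (Real.pi / 6 / 2 - Real.pi * a.val / p) < 0)).card + NQ p = n ∧
    ∀ a ∈ QR p, 2 * Real.sin (Real.pi / 6 / 2 - Real.pi * a.val / p) ≠ 0 := by
  have hp0 : (0 : ℝ) < p := by exact_mod_cast (Fact.out : p.Prime).pos
  have hpi := Real.pi_pos
  have hne : ∀ a : ZMod p, 12 * a.val ≠ p := by
    intro a h
    have h2 : 2 ∣ p := ⟨6 * a.val, by omega⟩
    omega
  have key : ∀ a ∈ QR p, (2 * Real.sin (Real.pi / 6 / 2 - Real.pi * a.val / p) < 0 ↔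
      ¬ 12 * a.val < p) ∧ 2 * Real.sin (Real.pi / 6 / 2 - Real.pi * a.val / p) ≠ 0 := by
    intro a ha
    obtain ⟨h0, hlt⟩ := QR_val ha
    have h0' : (0 : ℝ) < a.val := by exact_mod_cast h0
    have hlt' : (a.val : ℝ) < p := by exact_mod_cast hlt
    have hle1 : (a.val : ℝ) / p < 1 := (div_lt_one hp0).2 hlt'
    have hge0 : 0 < (a.val : ℝ) / p := by positivity
    have e : Real.pi / 6 / 2 - Real.pi * a.val / p = Real.pi * (1 / 12 - a.val / p) := by ring
    rw [e]
    by_cases h : 12 * a.val < p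
    · have h1 : (12 : ℝ) * a.val < p := by exact_mod_cast h
      have h2 : (a.val : ℝ) / p < 1 / 12 := by rw [div_lt_iff₀ hp0]; linarith
      have h3 : 0 < Real.sin (Real.pi * (1 / 12 - a.val / p)) :=
        Real.sin_pos_of_pos_of_lt_pi (mul_pos hpi (by linarith)) (by nlinarith)
      exact ⟨⟨fun h4 => by linarith, fun h4 => absurd h h4⟩, by linarith⟩
    · have h1 : (p : ℝ) < 12 * a.val := by
        have : p < 12 * a.val := lt_of_le_of_ne (not_lt.1 h) (Ne.symm (hne a))
        exact_mod_cast this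
      have h2 : 1 / 12 < (a.val : ℝ) / p := by rw [lt_div_iff₀ hp0]; linarith
      have h3 : Real.sin (Real.pi * (1 / 12 - a.val / p)) < 0 :=
        Real.sin_neg_of_neg_of_neg_pi_lt (by nlinarith) (by nlinarith)
      exact ⟨⟨fun _ => h, fun _ => by linarith⟩, by linarith⟩
  refine ⟨?_, fun a ha => (key a ha).2⟩
  rw [Finset.filter_congr (fun a ha => (key a ha).1), NQ, add_comm,
    Finset.card_filter_add_card_filter_not, card_QR hn]

lemma neg_minus {n : ℕ} (hn : p = 2 * n + 1) (h5 : 3 < p) :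
    ((QR p).filter (fun a => 2 * Real.sin (-(Real.pi / 6) / 2 - Real.pi * a.val / p) < 0)).card +
      ((QR p).filter (fun a => 11 * p < 12 * a.val)).card = n ∧
    ∀ a ∈ QR p, 2 * Real.sin (-(Real.pi / 6) / 2 - Real.pi * a.val / p) ≠ 0 := by
  have hp0 : (0 : ℝ) < p := by exact_mod_cast (Fact.out : p.Prime).pos
  have hpi := Real.pi_pos
  have hne : ∀ a : ZMod p, 12 * a.val ≠ 11 * p := by
    intro a h
    omega
  have key : ∀ a ∈ QR p, (2 * Real.sin (-(Real.pi / 6) / 2 - Real.pi * a.val / p) < 0 ↔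
      ¬ 11 * p < 12 * a.val) ∧ 2 * Real.sin (-(Real.pi / 6) / 2 - Real.pi * a.val / p) ≠ 0 := by
    intro a ha
    obtain ⟨h0, hlt⟩ := QR_val ha
    have h0' : (0 : ℝ) < a.val := by exact_mod_cast h0
    have hlt' : (a.val : ℝ) < p := by exact_mod_cast hlt
    have hle1 : (a.val : ℝ) / p < 1 := (div_lt_one hp0).2 hlt'
    have hge0 : 0 < (a.val : ℝ) / p := by positivity
    have e : -(Real.pi / 6) / 2 - Real.pi * a.val / p = -(Real.pi * (1 / 12 + a.val / p)) := by ring
    rw [e, Real.sin_neg]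
    by_cases h : 11 * p < 12 * a.val
    · have h1 : (11 : ℝ) * p < 12 * a.val := by exact_mod_cast h
      have h2 : 11 / 12 < (a.val : ℝ) / p := by rw [lt_div_iff₀ hp0]; linarith
      have h3 : Real.sin (Real.pi * (1 / 12 + a.val / p)) < 0 := by
        rw [← Real.sin_sub_two_pi]
        exact Real.sin_neg_of_neg_of_neg_pi_lt (by nlinarith) (by nlinarith)
      exact ⟨⟨fun h4 => by linarith, fun h4 => absurd h h4⟩, by linarith⟩
    · have h1 : (12 : ℝ) * a.val < 11 * p := by
        have : 12 * a.val < 11 * p := lt_of_le_of_ne (not_lt.1 h) (hne a)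
        exact_mod_cast this
      have h2 : (a.val : ℝ) / p < 11 / 12 := by rw [div_lt_iff₀ hp0]; linarith
      have h3 : 0 < Real.sin (Real.pi * (1 / 12 + a.val / p)) :=
        Real.sin_pos_of_pos_of_lt_pi (by positivity) (by nlinarith)
      exact ⟨⟨fun _ => h, fun _ => by linarith⟩, by linarith⟩
  refine ⟨?_, fun a ha => (key a ha).2⟩
  rw [Finset.filter_congr (fun a ha => (key a ha).1), add_comm,
    Finset.card_filter_add_card_filter_not, card_QR hn]

lemma val_neg' {a : ZMod p} (ha : a ≠ 0) : (-a).val = p - a.val := by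
  rw [ZMod.neg_val, if_neg ha]

lemma NQ_one (hp : p % 4 = 1) :
    ((QR p).filter (fun a => 11 * p < 12 * a.val)).card = NQ p := by
  rw [NQ]
  refine Finset.card_bij' (fun a _ => -a) (fun a _ => -a) ?_ ?_ ?_ ?_
  · intro a ha
    rw [Finset.mem_filter] at ha ⊢
    have h0 := QR_ne ha.1
    have hlt := ZMod.val_lt a
    refine ⟨?_, ?_⟩
    · rw [mem_QR, qc_neg, qc_neg_one_of_one hp, one_mul]; exact mem_QR.1 ha.1
    · rw [val_neg' h0]; omega
  · intro a ha
    rw [Finset.mem_filter] at ha ⊢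
    have h0 := QR_ne ha.1
    have hlt := ZMod.val_lt a
    refine ⟨?_, ?_⟩
    · rw [mem_QR, qc_neg, qc_neg_one_of_one hp, one_mul]; exact mem_QR.1 ha.1
    · rw [val_neg' h0]; omega
  · intro a _; exact neg_neg a
  · intro a _; exact neg_neg a

lemma NQ_three (hp : p % 4 = 3) :
    NQ p + ((QR p).filter (fun a => 11 * p < 12 * a.val)).card = p / 12 := by
  have hpr := (Fact.out : p.Prime)
  have h1 : ((QR p).filter (fun a => 11 * p < 12 * a.val)).card =
      ((univ.filter (fun a : ZMod p => qc p a = -1)).filter (fun a => 12 * a.val < p)).card := by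
    refine Finset.card_bij' (fun a _ => -a) (fun a _ => -a) ?_ ?_ ?_ ?_
    · intro a ha
      rw [Finset.mem_filter] at ha ⊢
      have h0 := QR_ne ha.1
      have hlt := ZMod.val_lt a
      refine ⟨?_, ?_⟩
      · rw [Finset.mem_filter, qc_neg, qc_neg_one_of_three hp, mem_QR.1 ha.1]
        exact ⟨Finset.mem_univ _, by norm_num⟩
      · rw [val_neg' h0]; omega
    · intro a ha
      rw [Finset.mem_filter, Finset.mem_filter] at ha
      rw [Finset.mem_filter]
      have h0 : a ≠ 0 := by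
        rintro rfl
        have := ha.1.2
        rw [qc_zero] at this
        norm_num at this
      have hlt := ZMod.val_lt a
      refine ⟨?_, ?_⟩
      · rw [mem_QR, qc_neg, qc_neg_one_of_three hp, ha.1.2]; norm_num
      · rw [val_neg' h0]; omega
    · intro a _; exact neg_neg a
    · intro a _; exact neg_neg a
  have hdisj : Disjoint ((QR p).filter (fun a => 12 * a.val < p))
      ((univ.filter (fun a : ZMod p => qc p a = -1)).filter (fun a => 12 * a.val < p)) := by
    rw [Finset.disjoint_left]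
    intro a ha hb
    rw [Finset.mem_filter, mem_QR] at ha
    rw [Finset.mem_filter, Finset.mem_filter] at hb
    have := hb.1.2
    rw [ha.1] at this
    norm_num at this
  rw [h1, NQ, ← Finset.card_union_of_disjoint hdisj]
  have h2 : p / 12 = (Icc 1 (p / 12)).card := by rw [Nat.card_Icc]; omega
  rw [h2]
  refine Finset.card_bij' (fun a _ => a.val) (fun k _ => (k : ZMod p)) ?_ ?_ ?_ ?_
  · intro a ha
    rw [Finset.mem_union, Finset.mem_filter, Finset.mem_filter, Finset.mem_filter, mem_QR] at ha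
    have h0 : a ≠ 0 := by
      rintro rfl
      rw [qc_zero] at ha
      norm_num at ha
    have h3 : 0 < a.val := Nat.pos_of_ne_zero (by rwa [Ne, ZMod.val_eq_zero])
    rw [Finset.mem_Icc]
    rcases ha with ha | ha
    · have := ha.2; omega
    · have := ha.2; omega
  · intro k hk
    rw [Finset.mem_Icc] at hk
    have hv : (k : ZMod p).val = k := ZMod.val_cast_of_lt (by omega)
    have h0 : (k : ZMod p) ≠ 0 := by
      rw [Ne, ← ZMod.val_eq_zero, hv]; omega
    rw [Finset.mem_union, Finset.mem_filter, Finset.mem_filter, Finset.mem_filter, mem_QR, hv]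
    rcases qc_cases h0 with h | h
    · left; exact ⟨h, by omega⟩
    · right; exact ⟨⟨Finset.mem_univ _, h⟩, by omega⟩
  · intro a _; exact ZMod.natCast_zmod_val a
  · intro k hk
    rw [Finset.mem_Icc] at hk
    exact ZMod.val_cast_of_lt (by omega)

lemma sum_val_one (hp : p % 4 = 1) : ∑ a : ZMod p, qc p a * (a.val : ℤ) = -0 * p := by
  have hpr := (Fact.out : p.Prime)
  have h1 : ∑ a : ZMod p, qc p (-a) * ((-a).val : ℤ) = ∑ a : ZMod p, qc p a * (a.val : ℤ) :=
    Fintype.sum_equiv (Equiv.neg _) _ _ fun _ => rfl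
  have h2 : ∀ a : ZMod p, qc p (-a) * ((-a).val : ℤ) = p * qc p a - qc p a * (a.val : ℤ) := by
    intro a
    rw [qc_neg, qc_neg_one_of_one hp, one_mul]
    by_cases ha : a = 0
    · rw [ha, qc_zero]; ring
    · rw [val_neg' ha, Nat.cast_sub (ZMod.val_lt a).le]; ring
  rw [Finset.sum_congr rfl fun a _ => h2 a, Finset.sum_sub_distrib, ← Finset.mul_sum,
    sum_qc (by omega)] at h1
  linarith

lemma sum_val_three (hp : p % 4 = 3) (h3 : 3 < p) {K : Type} [Field K] [NumberField K]
    (h2 : Module.finrank ℚ K = 2) {s : K} (hs : s ^ 2 = -(p : K)) :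
    ∑ a : ZMod p, qc p a * (a.val : ℤ) = -(NumberField.classNumber K : ℤ) * p := by
  have h4 := class_number_sum hp h3 h2 hs
  have h5 := sum_jc (p := p) hp
  have h6 : ∑ u : ZMod p, Pool.Agent.Y812.XF.jc p u * (u.val : ℂ) =
      ((∑ a : ZMod p, qc p a * (a.val : ℤ) : ℤ) : ℂ) := by
    push_cast
    refine Finset.sum_congr rfl fun a _ => ?_
    rw [jc_apply]
  rw [h6] at h5
  have h7 : ∑ a : ZMod p, qc p a * (a.val : ℤ) = ∑ n ∈ Ioo 0 p, Pool.Agent.X11.Rot.J p n * n := by
    exact_mod_cast h5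
  rw [h7]
  linarith

omit [Fact p.Prime] in
lemma exp_pi_int (c : ℤ) : exp (Real.pi * I * c) = (-1) ^ c.natAbs := by
  rcases Int.even_or_odd' c with ⟨k, hk | hk⟩
  · have h1 : Even c.natAbs := Int.natAbs_even.2 ⟨k, by omega⟩
    rw [h1.neg_one_pow, hk]
    push_cast
    rw [show (Real.pi : ℂ) * I * (2 * k) = k * (2 * Real.pi * I) by ring,
      Complex.exp_int_mul_two_pi_mul_I]
  · have h1 : Odd c.natAbs := Int.natAbs_odd.2 ⟨k, hk⟩
    rw [h1.neg_one_pow, hk]
    push_cast
    rw [show (Real.pi : ℂ) * I * (2 * k + 1) = k * (2 * Real.pi * I) + Real.pi * I by ring,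
      Complex.exp_add, Complex.exp_int_mul_two_pi_mul_I, Complex.exp_pi_mul_I, one_mul]

/-- The sign of the rotated product. -/
lemma final_sign {n : ℕ} (hn : p = 2 * n + 1) (h5 : 3 < p) {h' c : ℤ}
    (hh : ∑ a : ZMod p, qc p a * (a.val : ℤ) = -h' * p) (ε : ℤ) (hε : ε = 1 ∨ ε = -1) (κ : ℤ)
    (hc : 12 * c = ε * (κ + 1) * n + 12 * n - 6 * h') (A : ℕ) :
    ∃ (r : ℝ) (B : ℕ), 0 < r ∧ (B + (if ε = 1 then NQ p else
      ((QR p).filter (fun a => 11 * p < 12 * a.val)).card) = n) ∧
      (-1) ^ A * exp (2 * Real.pi * I * ε * κ * (p - 1) / 48) * SQ p (exp (2 * Real.pi * I * ε / 12)) =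
        (-1) ^ (A + c.natAbs + B) * (r : ℂ) := by
  have hc' : (12 : ℂ) * c = ε * (κ + 1) * n + 12 * n - 6 * h' := by exact_mod_cast hc
  have hp' : (p : ℂ) = 2 * n + 1 := by rw [hn]; push_cast; ring
  have key : ∀ θ : ℝ, (θ : ℂ) = Real.pi * ε / 6 →
      (-1) ^ A * exp (2 * Real.pi * I * ε * κ * (p - 1) / 48) *
        SQ p (exp (2 * Real.pi * I * ε / 12)) =
      (-1) ^ (A + c.natAbs) * ((∏ a ∈ QR p, 2 * Real.sin (θ / 2 - Real.pi * a.val / p) : ℝ) : ℂ) := by
    intro θ hθ
    rw [show (2 * Real.pi * I * ε / 12 : ℂ) = I * θ by rw [hθ]; ring, SQ_exp hn hh θ, pow_add,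
      ← exp_pi_int c, ← mul_assoc, mul_assoc ((-1) ^ A), ← Complex.exp_add]
    congr 3
    rw [hθ, hp']
    linear_combination (-(Real.pi : ℂ) * I / 12) * hc'
  rcases hε with h | h
  · obtain ⟨h1, h2⟩ := neg_plus hn h5
    have h3 := prod_sign (QR p) (fun a : ZMod p => 2 * Real.sin (Real.pi / 6 / 2 - Real.pi * a.val / p)) h2
    refine ⟨_, _, h3, by rw [if_pos h]; exact h1, ?_⟩
    rw [key (Real.pi / 6) (by rw [h]; push_cast; ring), pow_add _ (A + c.natAbs)]
    push_cast
    rw [← mul_assoc, mul_assoc ((-1 : ℂ) ^ (A + c.natAbs)), ← mul_pow]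
    norm_num
  · obtain ⟨h1, h2⟩ := neg_minus hn h5
    have h3 := prod_sign (QR p) (fun a : ZMod p => 2 * Real.sin (-(Real.pi / 6) / 2 - Real.pi * a.val / p)) h2
    refine ⟨_, _, h3, by rw [if_neg (by rw [h]; norm_num)]; exact h1, ?_⟩
    rw [key (-(Real.pi / 6)) (by rw [h]; push_cast; ring), pow_add _ (A + c.natAbs)]
    push_cast
    rw [← mul_assoc, mul_assoc ((-1 : ℂ) ^ (A + c.natAbs)), ← mul_pow]
    norm_num

lemma jacobi_qc (a : ℤ) : jacobiSym a p = qc p (a : ZMod p) := by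
  rw [← jacobiSym.legendreSym.to_jacobiSym, legendre_eq]

lemma N_eq_NQ : ((Icc 1 p).filter (fun k : ℕ => 12 * k < p ∧ jacobiSym k p = 1)).card = NQ p := by
  have hpr := (Fact.out : p.Prime)
  rw [NQ]
  refine Finset.card_bij' (fun k _ => (k : ZMod p)) (fun a _ => a.val) ?_ ?_ ?_ ?_
  · intro k hk
    rw [Finset.mem_filter, Finset.mem_Icc] at hk
    have hv : (k : ZMod p).val = k := ZMod.val_cast_of_lt (by omega)
    rw [Finset.mem_filter, mem_QR, hv]
    refine ⟨?_, hk.2.1⟩
    have := hk.2.2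
    rw [jacobi_qc] at this
    push_cast at this
    exact this
  · intro a ha
    rw [Finset.mem_filter] at ha
    have h1 := QR_val ha.1
    rw [Finset.mem_filter, Finset.mem_Icc, jacobi_qc]
    push_cast
    rw [ZMod.natCast_zmod_val]
    exact ⟨by omega, ha.2, mem_QR.1 ha.1⟩
  · intro k hk
    rw [Finset.mem_filter, Finset.mem_Icc] at hk
    exact ZMod.val_cast_of_lt (by omega)
  · intro a _; exact ZMod.natCast_zmod_val a

lemma parity_h {n : ℕ} (hn : p = 2 * n + 1) {h' : ℤ}
    (hh : ∑ a : ZMod p, qc p a * (a.val : ℤ) = -h' * p) : Even ((n : ℤ) - h') := by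
  have h1 := sum_QR hn hh
  have h2 : Even ((p : ℤ) * (n - h')) := ⟨∑ a ∈ QR p, (a.val : ℤ), by rw [← h1]; ring⟩
  rcases Int.even_mul.1 h2 with h3 | h3
  · exfalso
    rw [Int.even_iff] at h3
    omega
  · exact h3

end

end Pool.Agent.X12
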