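import Pool.Agent.X12.Szp16

/-!
# All elliptic curves over `ℚ`: the Faltings height against the conductor
-/

set_option autoImplicit false

namespace Pool.Agent.X12.Szp

open Finset Filter Topology Pool.Agent.H328R2.ABC Pool.Agent.Y679.Fh
open Pool.Agent.TH876.FH (jInv arch ana)

/-- all curves with `lam * log N + c < h_F` -/
def WS (lam c : ℝ) : Set (ℤ × ℤ) :=
  {q | ∃ τ : UpperHalfPlane, IsMn q.1 q.2 ∧ IsPr q τ ∧
    lam * Real.log (Cnd q.1 q.2 : ℝ) + c < hE q τ}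

lemma Cnd_pos' (q : ℤ × ℤ) : (0 : ℝ) < (Cnd q.1 q.2 : ℝ) := by exact_mod_cast Cnd_pos q.1 q.2

/-- the violators near the top of the box have a small conductor -/
theorem WS_top (lam c : ℝ) (hlam : 0 < lam) : ∃ K : ℝ, 0 < K ∧ ∀ X : ℝ, 1 ≤ X →
    {q ∈ WS lam c | Box X q ∧ ¬ Box (X / 2) q} ⊆ TopE (K * X ^ (1 / (2 * lam))) X := by
  obtain ⟨C, hC⟩ := fh_le
  set C' := C + Real.log 746496 with hC'
  refine ⟨Real.exp ((C' - 12 * c) / (12 * lam)), Real.exp_pos _, fun X hX => ?_⟩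
  rintro q ⟨⟨τ, hmin, hτ, hlt⟩, hbox, hnot⟩
  have hX0 : 0 < X := by linarith
  have h0 : (Ez' q).Δ ≠ 0 := by
    rw [Ez'_disc]
    exact mul_ne_zero (by norm_num) hmin.1
  refine ⟨hmin.1, not_dvd_of_isMn hmin, hbox, ?_, ?_⟩
  · by_contra hcon
    push Not at hcon
    apply hnot
    constructor
    · have : (X / 2) ^ 2 = X ^ 2 / 4 := by ring
      rw [this]
      exact hcon.1.le
    · have : (X / 2) ^ 3 = X ^ 3 / 8 := by ring
      rw [this]
      exact hcon.2.le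
  · have h1 := hC (Ez' q) h0 τ ((IsPr_iff q τ).1 hτ)
    have h1' := (hE_fh hmin τ).2
    have h2 := Real.log_le_log (by linarith [cH_pos h0]) (cH_Ez q hbox)
    rw [Real.log_mul (by norm_num) (by positivity), Real.log_pow] at h2
    push_cast at h2
    have hr := Cnd_pos' q
    have h3 : Real.log (Cnd q.1 q.2 : ℝ) ≤
        (C' - 12 * c) / (12 * lam) + 1 / (2 * lam) * Real.log X := by
      have h4 : 12 * lam * Real.log (Cnd q.1 q.2 : ℝ) ≤ C' - 12 * c + 6 * Real.log X := by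
        rw [hC']
        linarith
      have h5 : (C' - 12 * c) / (12 * lam) + 1 / (2 * lam) * Real.log X =
          (C' - 12 * c + 6 * Real.log X) / (12 * lam) := by
        field_simp
        ring
      rw [h5, le_div_iff₀ (by positivity)]
      linarith
    rw [Real.rpow_def_of_pos hX0, ← Real.exp_add, ← Real.log_le_iff_le_exp hr]
    linarith

/-- **Upper bound** for the violators in a box -/
theorem WS_box (lam c ε : ℝ) (hlam : 0 < lam) (hε : 0 < ε) : ∃ K : ℝ, 0 < K ∧ ∀ X : ℝ, 1 ≤ X →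
    (({q ∈ WS lam c | Box X q}.ncard : ℕ) : ℝ) ≤ K * X ^ (max (1 / (2 * lam) - 1) 4 + ε) := by
  obtain ⟨K, hK, h1⟩ := WS_top lam c hlam
  obtain ⟨C, hC, h2⟩ := topE_le ε hε
  set g := max (1 / (2 * lam) - 1) 4 with hg
  have hg4 : (4 : ℝ) ≤ g := le_max_right _ _
  refine dyadic (WS lam c) (C * (K + 1)) (g + ε) (by positivity) (by linarith) fun X hX => ?_
  have hX0 : 0 < X := by linarith
  have e1 : (({q ∈ WS lam c | Box X q ∧ ¬ Box (X / 2) q}.ncard : ℕ) : ℝ) ≤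
      ((TopE (K * X ^ (1 / (2 * lam))) X).ncard : ℝ) := by
    exact_mod_cast Set.ncard_le_ncard (h1 X hX) (TopE_finite _ _)
  refine e1.trans ((h2 _ X (by positivity) hX).trans ?_)
  have e2 : K * X ^ (1 / (2 * lam)) / X = K * X ^ (1 / (2 * lam) - 1) := by
    rw [Real.rpow_sub_one hX0.ne']
    ring
  have e3 : X ^ (1 / (2 * lam) - 1) ≤ X ^ g :=
    Real.rpow_le_rpow_of_exponent_le hX (le_max_left _ _)
  have e4 : X ^ (4 : ℝ) ≤ X ^ g := Real.rpow_le_rpow_of_exponent_le hX hg4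
  rw [e2, Real.rpow_add hX0]
  have e5 : 0 < X ^ ε := Real.rpow_pos_of_pos hX0 _
  calc C * X ^ ε * (K * X ^ (1 / (2 * lam) - 1) + X ^ (4 : ℝ)) ≤
      C * X ^ ε * (K * X ^ g + X ^ g) := by gcongr
    _ = C * (K + 1) * (X ^ g * X ^ ε) := by ring

/-- all curves with `h_F ≤ log B` -/
def AH (B : ℝ) : Set (ℤ × ℤ) :=
  {q | ∃ τ : UpperHalfPlane, IsMn q.1 q.2 ∧ IsPr q τ ∧ hE q τ ≤ Real.log B}

/-- the curves of small Faltings height lie in a small box -/
theorem AH_box (δ : ℝ) (hδ : 0 < δ) : ∃ K : ℝ, 1 ≤ K ∧ ∀ B : ℝ, 1 ≤ B →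
    AH B ⊆ {q | Box (K * B ^ (2 + δ)) q} := by
  obtain ⟨C, hC⟩ := fh_ge (δ := δ / 2) (by positivity)
  set C' := C + C0 with hC'
  refine ⟨Real.exp (|C'| * (1 + δ / 2) / 6), Real.one_le_exp (by positivity), fun B hB => ?_⟩
  rintro q ⟨τ, hmin, hτ, hle⟩
  have hB0 : 0 < B := by linarith
  have h0 : (Ez' q).Δ ≠ 0 := by
    rw [Ez'_disc]
    exact mul_ne_zero (by norm_num) hmin.1
  have h1 := hC (Ez' q) h0 τ ((IsPr_iff q τ).1 hτ)
  have h1' := (hE_fh hmin τ).1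
  have hcH := cH_pos h0
  refine Box_of_cH_Ez q (by positivity) ?_
  have h2 : Real.log (cH (Ez' q)) ≤ (12 * Real.log B + C') * (1 + δ / 2) := by
    rw [sub_le_iff_le_add, div_le_iff₀ (by positivity)] at h1
    refine h1.trans (mul_le_mul_of_nonneg_right ?_ (by positivity))
    rw [hC']
    linarith
  have hlog : 0 ≤ Real.log B := Real.log_nonneg hB
  have h3 : Real.log (cH (Ez' q)) ≤ 6 * (|C'| * (1 + δ / 2) / 6 + (2 + δ) * Real.log B) := by
    have h4 : C' ≤ |C'| := le_abs_self C'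
    calc Real.log (cH (Ez' q)) ≤ (12 * Real.log B + C') * (1 + δ / 2) := h2
      _ ≤ (12 * Real.log B + |C'|) * (1 + δ / 2) := by gcongr
      _ = _ := by ring
  rw [Real.rpow_def_of_pos hB0, ← Real.exp_add, ← Real.exp_nat_mul,
    ← Real.log_le_iff_le_exp (by linarith)]
  push_cast
  linarith

theorem AH_finite {B : ℝ} (hB : 1 ≤ B) : (AH B).Finite := by
  obtain ⟨K, -, h⟩ := AH_box 1 one_pos
  exact (Box_finite _).subset (h B hB)

/-- the number of all curves with `h_F ≤ log B` -/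
theorem AH_card (ε : ℝ) (hε : 0 < ε) : ∃ C : ℝ, 0 < C ∧ ∀ B : ℝ, 1 ≤ B →
    ((AH B).ncard : ℝ) ≤ C * B ^ (10 + ε) := by
  obtain ⟨K, hK, h⟩ := AH_box (ε / 5) (by positivity)
  refine ⟨9 * K ^ 5, by positivity, fun B hB => ?_⟩
  have hB0 : 0 < B := by linarith
  have h1 : 1 ≤ K * B ^ (2 + ε / 5) :=
    one_le_mul_of_one_le_of_one_le hK (Real.one_le_rpow hB (by positivity))
  have h2 := Set.ncard_le_ncard (h B hB) (Box_finite _)
  calc ((AH B).ncard : ℝ) ≤ (({q : ℤ × ℤ | Box (K * B ^ (2 + ε / 5)) q}.ncard : ℕ) : ℝ) := by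
        exact_mod_cast h2
    _ ≤ 9 * (K * B ^ (2 + ε / 5)) ^ 5 := Box_card h1
    _ = 9 * K ^ 5 * B ^ (10 + ε) := by
      rw [mul_pow, ← Real.rpow_natCast (B ^ (2 + ε / 5)) 5, ← Real.rpow_mul hB0.le]
      push_cast
      have : (2 + ε / 5) * 5 = 10 + ε := by ring
      rw [this]
      ring

/-- the violators with `h_F ≤ log B` -/
def WW' (lam c B : ℝ) : Set (ℤ × ℤ) :=
  {q | ∃ τ : UpperHalfPlane, IsMn q.1 q.2 ∧ IsPr q τ ∧ hE q τ ≤ Real.log B ∧
    lam * Real.log (Cnd q.1 q.2 : ℝ) + c < hE q τ}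

theorem WW'_sub (lam c B : ℝ) : WW' lam c B ⊆ AH B ∩ WS lam c := by
  rintro q ⟨τ, h0, h1, h2, h3⟩
  exact ⟨⟨τ, h0, h1, h2⟩, τ, h0, h1, h3⟩

theorem WW'_finite (lam c : ℝ) {B : ℝ} (hB : 1 ≤ B) : (WW' lam c B).Finite :=
  (AH_finite hB).subset fun _ hq => (WW'_sub _ _ _ hq).1

/-- **Upper bound** for the violators of small Faltings height -/
theorem WH_upper (lam c ε : ℝ) (hlam : 0 < lam) (hε : 0 < ε) : ∃ C : ℝ, 0 < C ∧ ∀ B : ℝ, 1 ≤ B →
    ((WW' lam c B).ncard : ℝ) ≤ C * B ^ (2 * max (1 / (2 * lam) - 1) 4 + ε) := by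
  set g := max (1 / (2 * lam) - 1) 4 with hg
  have hg4 : (4 : ℝ) ≤ g := le_max_right _ _
  set δ := min 1 (ε / (4 * (g + 1))) with hδdef
  have hδ : 0 < δ := lt_min one_pos (by positivity)
  have hδ1 : δ ≤ 1 := min_le_left _ _
  have hδ2 : δ * (g + 1) ≤ ε / 4 := by
    have : δ ≤ ε / (4 * (g + 1)) := min_le_right _ _
    rw [le_div_iff₀ (by positivity)] at this
    linarith
  obtain ⟨K, hK, h1⟩ := AH_box δ hδ
  set ε' := min 1 (ε / 8) with hε'def
  have hε' : 0 < ε' := lt_min one_pos (by positivity)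
  have hε'1 : ε' ≤ 1 := min_le_left _ _
  have hε'2 : ε' ≤ ε / 8 := min_le_right _ _
  obtain ⟨M, hM, h2⟩ := WS_box lam c ε' hlam hε'
  refine ⟨M * K ^ (g + ε'), by positivity, fun B hB => ?_⟩
  have hB0 : 0 < B := by linarith
  have h3 : 1 ≤ K * B ^ (2 + δ) :=
    one_le_mul_of_one_le_of_one_le hK (Real.one_le_rpow hB (by positivity))
  have h4 : WW' lam c B ⊆ {q ∈ WS lam c | Box (K * B ^ (2 + δ)) q} :=
    fun q hq => ⟨(WW'_sub _ _ _ hq).2, h1 B hB (WW'_sub _ _ _ hq).1⟩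
  have h5 := Set.ncard_le_ncard h4 ((Box_finite _).subset fun q hq => hq.2)
  have h6 := h2 (K * B ^ (2 + δ)) h3
  have h7 : ((WW' lam c B).ncard : ℝ) ≤ M * (K * B ^ (2 + δ)) ^ (g + ε') :=
    le_trans (by exact_mod_cast h5) h6
  refine h7.trans ?_
  rw [Real.mul_rpow (by linarith) (by positivity), ← Real.rpow_mul hB0.le, ← mul_assoc]
  refine mul_le_mul_of_nonneg_left (Real.rpow_le_rpow_of_exponent_le hB ?_) (by positivity)
  have e1 : (2 + δ) * (g + ε') = 2 * g + 2 * ε' + δ * (g + ε') := by ring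
  have e2 : δ * (g + ε') ≤ δ * (g + 1) := by gcongr
  rw [e1]
  linarith

end Pool.Agent.X12.Szp
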