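import Pool.Agent.X12.Szp17

/-!
# From semistable curves to short minimal models
-/

set_option autoImplicit false

namespace Pool.Agent.X12.Szp

open Finset Filter Topology Pool.Agent.H328R2.ABC Pool.Agent.Y679.Fh
open Pool.Agent.TH876.FH (jInv arch ana)

/-- `q` is a short minimal model of the semistable curve `W` -/
def Model (W : WeierstrassCurve ℤ) (q : ℤ × ℤ) : Prop :=
  (q = (27 * W.c₄, 54 * W.c₆) ∧ IsMn q.1 q.2) ∨
    (W.c₄ = 3 * q.1 ∧ 2 * W.c₆ = 27 * q.2 ∧ IsMn q.1 q.2)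

lemma Dsc_one (W : WeierstrassCurve ℤ) : Dsc (27 * W.c₄) (54 * W.c₆) = 136048896 * W.Δ := by
  have h9 := W.c_relation
  unfold Dsc
  linear_combination (-78732) * h9

lemma Dsc_two {W : WeierstrassCurve ℤ} {q : ℤ × ℤ} (h1 : W.c₄ = 3 * q.1)
    (h2 : 2 * W.c₆ = 27 * q.2) : Dsc q.1 q.2 = 256 * W.Δ := by
  have h9 := W.c_relation
  rw [h1] at h9
  unfold Dsc
  have h3 : 4 * W.c₆ ^ 2 = 729 * q.2 ^ 2 := by
    have : (2 * W.c₆) ^ 2 = (27 * q.2) ^ 2 := by rw [h2]
    linarith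
  have h4 : 27 * (4 * q.1 ^ 3 - 27 * q.2 ^ 2) = 27 * (256 * W.Δ) := by
    linear_combination (-4) * h9 + h3
  linarith

/-- a semistable curve has a short minimal model of this shape -/
theorem exists_model {W : WeierstrassCurve ℤ} (h0 : W.Δ ≠ 0) (hcop : IsCoprime W.c₄ W.Δ) :
    ∃ q : ℤ × ℤ, Model W q := by
  have hrel := W.c_relation
  have hnot : ∀ p : ℤ, Prime p → p ∣ W.c₄ → ¬ p ∣ W.Δ := by
    intro p hp h1 h2
    exact hp.not_isUnit (hcop.isUnit_of_dvd' h1 h2)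
  have key : ∀ p : ℕ, p.Prime → p ≠ 2 → p ≠ 3 → (p : ℤ) ∣ W.c₄ → (p : ℤ) ∣ W.c₆ → False := by
    intro p hp h2 h3 h4 h6
    have hpp : Prime (p : ℤ) := Nat.prime_iff_prime_int.1 hp
    have h7 : (p : ℤ) ∣ 1728 * W.Δ := by
      rw [hrel]
      exact dvd_sub (dvd_pow h4 (by norm_num)) (dvd_pow h6 (by norm_num))
    rcases hpp.dvd_or_dvd h7 with h8 | h8
    · have h9 : p ∣ 1728 := by exact_mod_cast h8
      have h10 : p ∣ 2 ^ 6 * 3 ^ 3 := by norm_num; exact h9
      rcases (Nat.Prime.dvd_mul hp).1 h10 with h11 | h11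
      · have := hp.dvd_of_dvd_pow h11
        exact h2 ((Nat.prime_dvd_prime_iff_eq hp Nat.prime_two).1 this)
      · have := hp.dvd_of_dvd_pow h11
        exact h3 ((Nat.prime_dvd_prime_iff_eq hp Nat.prime_three).1 this)
    · exact hnot p hpp h4 h8
  by_cases h3 : (3 : ℤ) ∣ W.c₄ ∧ (27 : ℤ) ∣ W.c₆
  · obtain ⟨⟨x, hx⟩, y, hy⟩ := h3
    refine ⟨(x, 2 * y), Or.inr ⟨hx, by simp only; rw [hy]; ring, ?_⟩⟩
    simp only
    have hD : Dsc x (2 * y) = 256 * W.Δ := Dsc_two (q := (x, 2 * y)) hx (by simp only; rw [hy]; ring)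
    refine isMn_of (by rw [hD]; exact mul_ne_zero (by norm_num) h0) ?_
    rintro p hp ⟨h4, h6⟩
    have hpp : Prime (p : ℤ) := Nat.prime_iff_prime_int.1 hp
    have h4' : (p : ℤ) ∣ x := (dvd_pow_self (p : ℤ) (by norm_num)).trans h4
    have hc4 : (p : ℤ) ∣ W.c₄ := by
      rw [hx]
      exact Dvd.dvd.mul_left h4' _
    by_cases hp2 : p = 2
    · subst hp2
      obtain ⟨x', hx'⟩ := h4
      obtain ⟨y', hy'⟩ := h6
      have hy2 : y = 32 * y' := by
        push_cast at hy'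
        linarith
      apply hnot 2 Int.prime_two (by exact_mod_cast hc4)
      push_cast at hx'
      rw [hx, hy, hx', hy2] at hrel
      exact ⟨32 * x' ^ 3 - 216 * y' ^ 2, by linarith⟩
    by_cases hp3 : p = 3
    · subst hp3
      obtain ⟨x', hx'⟩ := h4
      apply hnot 3 Int.prime_three (by exact_mod_cast hc4)
      push_cast at hx'
      rw [hx, hy, hx'] at hrel
      have h7 : (3 : ℤ) ∣ 64 * W.Δ := ⟨177147 * x' ^ 3 - 9 * y ^ 2, by linarith⟩
      rcases Int.prime_three.dvd_or_dvd h7 with h8 | h8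
      · norm_num at h8
      · exact h8
    · refine key p hp hp2 hp3 hc4 ?_
      have h7 : (p : ℤ) ∣ 2 * y := (dvd_pow_self (p : ℤ) (by norm_num)).trans h6
      rcases hpp.dvd_or_dvd h7 with h8 | h8
      · exfalso
        have h9 : p ∣ 2 := by exact_mod_cast h8
        exact hp2 ((Nat.prime_dvd_prime_iff_eq hp Nat.prime_two).1 h9)
      · rw [hy]
        exact Dvd.dvd.mul_left h8 _
  · refine ⟨(27 * W.c₄, 54 * W.c₆), Or.inl ⟨rfl, ?_⟩⟩
    simp only
    refine isMn_of (by rw [Dsc_one]; exact mul_ne_zero (by norm_num) h0) ?_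
    rintro p hp ⟨h4, h6⟩
    have hpp : Prime (p : ℤ) := Nat.prime_iff_prime_int.1 hp
    by_cases hp2 : p = 2
    · subst hp2
      push_cast at h4 h6
      have h4' : (16 : ℤ) ∣ W.c₄ := by omega
      have h6' : (32 : ℤ) ∣ W.c₆ := by omega
      obtain ⟨x, hx⟩ := h4'
      obtain ⟨y, hy⟩ := h6'
      apply hnot 2 Int.prime_two ⟨8 * x, by linarith⟩
      rw [hx, hy] at hrel
      have h7 : 27 * W.Δ = 64 * x ^ 3 - 16 * y ^ 2 := by linarith
      have h8 : (2 : ℤ) ∣ 27 * W.Δ := ⟨32 * x ^ 3 - 8 * y ^ 2, by linarith⟩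
      rcases Int.prime_two.dvd_or_dvd h8 with h9 | h9
      · norm_num at h9
      · exact h9
    by_cases hp3 : p = 3
    · subst hp3
      push_cast at h4 h6
      exact h3 ⟨by omega, by omega⟩
    · have h4' : (p : ℤ) ∣ 27 * W.c₄ := (dvd_pow_self (p : ℤ) (by norm_num)).trans h4
      have h6' : (p : ℤ) ∣ 54 * W.c₆ := (dvd_pow_self (p : ℤ) (by norm_num)).trans h6
      refine key p hp hp2 hp3 ?_ ?_
      · rcases hpp.dvd_or_dvd h4' with h8 | h8
        · exfalso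
          have h9 : p ∣ 3 ^ 3 := by
            have : p ∣ 27 := by exact_mod_cast h8
            norm_num
            exact this
          exact hp3 ((Nat.prime_dvd_prime_iff_eq hp Nat.prime_three).1 (hp.dvd_of_dvd_pow h9))
        · exact h8
      · rcases hpp.dvd_or_dvd h6' with h8 | h8
        · exfalso
          have h9 : p ∣ 2 * 3 ^ 3 := by
            have : p ∣ 54 := by exact_mod_cast h8
            norm_num
            exact this
          rcases (Nat.Prime.dvd_mul hp).1 h9 with h10 | h10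
          · exact hp2 ((Nat.prime_dvd_prime_iff_eq hp Nat.prime_two).1 h10)
          · exact hp3 ((Nat.prime_dvd_prime_iff_eq hp Nat.prime_three).1 (hp.dvd_of_dvd_pow h10))
        · exact h8

/-- the discriminant of the model -/
lemma model_disc {W : WeierstrassCurve ℤ} {q : ℤ × ℤ} (h : Model W q) :
    Dsc q.1 q.2 = 136048896 * W.Δ ∨ Dsc q.1 q.2 = 256 * W.Δ := by
  rcases h with ⟨h1, -⟩ | ⟨h1, h2, -⟩
  · left
    rw [h1]
    exact Dsc_one W
  · exact Or.inr (Dsc_two h1 h2)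

lemma model_min {W : WeierstrassCurve ℤ} {q : ℤ × ℤ} (h : Model W q) : IsMn q.1 q.2 := by
  rcases h with ⟨-, h1⟩ | ⟨-, -, h1⟩ <;> exact h1

/-- the conductor of the model -/
lemma model_cnd {W : WeierstrassCurve ℤ} {q : ℤ × ℤ} (h0 : W.Δ ≠ 0) (hcop : IsCoprime W.c₄ W.Δ)
    (h : Model W q) : Cnd q.1 q.2 ≤ rad W.Δ.natAbs := by
  classical
  have hprime : ∀ p ∈ (Dsc q.1 q.2).natAbs.primeFactors.filter (fun p => 5 ≤ p),
      p ∈ W.Δ.natAbs.primeFactors ∧ ¬ (p : ℤ) ∣ q.1 := by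
    intro p hp
    rw [Finset.mem_filter] at hp
    have hp' := Nat.prime_of_mem_primeFactors hp.1
    have hpp : Prime (p : ℤ) := Nat.prime_iff_prime_int.1 hp'
    have hdv : (p : ℤ) ∣ Dsc q.1 q.2 := Int.natCast_dvd.2 (Nat.dvd_of_mem_primeFactors hp.1)
    have hsmall : ∀ k : ℕ, (∀ r : ℕ, r.Prime → r ∣ k → r ≤ 3) → ¬ (p : ℤ) ∣ (k : ℤ) := by
      intro k hk h
      have := hk p hp' (by exact_mod_cast h)
      have := hp.2
      omega
    have hpΔ : (p : ℤ) ∣ W.Δ := by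
      rcases model_disc h with h1 | h1
      · rw [h1] at hdv
        rcases hpp.dvd_or_dvd hdv with h2 | h2
        · exfalso
          refine hsmall 136048896 ?_ (by exact_mod_cast h2)
          intro r hr hrk
          have h3 : r ∣ 2 ^ 8 * 3 ^ 12 := by norm_num; exact hrk
          rcases (Nat.Prime.dvd_mul hr).1 h3 with h4 | h4
          · exact (Nat.le_of_dvd (by norm_num) (hr.dvd_of_dvd_pow h4)).trans (by norm_num)
          · exact Nat.le_of_dvd (by norm_num) (hr.dvd_of_dvd_pow h4)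
        · exact h2
      · rw [h1] at hdv
        rcases hpp.dvd_or_dvd hdv with h2 | h2
        · exfalso
          refine hsmall 256 ?_ (by exact_mod_cast h2)
          intro r hr hrk
          have h3 : r ∣ 2 ^ 8 := by norm_num; exact hrk
          exact (Nat.le_of_dvd (by norm_num) (hr.dvd_of_dvd_pow h3)).trans (by norm_num)
        · exact h2
    have hpc : ¬ (p : ℤ) ∣ W.c₄ := fun h1 => hpp.not_isUnit (hcop.isUnit_of_dvd' h1 hpΔ)
    refine ⟨Nat.mem_primeFactors.2 ⟨hp', Int.natCast_dvd.1 hpΔ, Int.natAbs_ne_zero.2 h0⟩, ?_⟩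
    intro h1
    apply hpc
    rcases h with ⟨h2, -⟩ | ⟨h2, -, -⟩
    · rw [h2] at h1
      simp only at h1
      rcases hpp.dvd_or_dvd h1 with h3 | h3
      · exfalso
        refine hsmall 27 ?_ (by exact_mod_cast h3)
        intro r hr hrk
        have h4 : r ∣ 3 ^ 3 := by norm_num; exact hrk
        exact Nat.le_of_dvd (by norm_num) (hr.dvd_of_dvd_pow h4)
      · exact h3
    · rw [h2]
      exact Dvd.dvd.mul_left h1 _
  unfold Cnd rad
  calc ∏ p ∈ (Dsc q.1 q.2).natAbs.primeFactors.filter (fun p => 5 ≤ p),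
        (if (p : ℤ) ∣ q.1 then p ^ 2 else p)
      = ∏ p ∈ (Dsc q.1 q.2).natAbs.primeFactors.filter (fun p => 5 ≤ p), p :=
        Finset.prod_congr rfl fun p hp => if_neg (hprime p hp).2
    _ ≤ ∏ p ∈ W.Δ.natAbs.primeFactors, p := by
        refine Finset.prod_le_prod_of_subset_of_one_le' (fun p hp => (hprime p hp).1) ?_
        intro p hp _
        exact (Nat.prime_of_mem_primeFactors hp).one_lt.le

/-- the period of the model -/
lemma model_period {W : WeierstrassCurve ℤ} {q : ℤ × ℤ} (h0 : W.Δ ≠ 0) (h : Model W q)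
    {τ : UpperHalfPlane} (hτ : IsP W τ) : IsPr q τ := by
  have hΔ : (W.Δ : ℚ) ≠ 0 := by exact_mod_cast h0
  have h1 : (Eq' q).c₄ ^ 3 / (Eq' q).Δ = (W.c₄ : ℚ) ^ 3 / W.Δ := by
    rw [Eq'_c4, Eq'_disc]
    rcases h with ⟨h2, -⟩ | ⟨h2, h3, -⟩
    · rw [h2]
      simp only
      rw [Dsc_one]
      push_cast
      rw [div_eq_div_iff (by positivity) hΔ]
      ring
    · rw [Dsc_two h2 h3, h2]
      push_cast
      rw [div_eq_div_iff (by positivity) hΔ]
      ring
  unfold IsPr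
  unfold IsP at hτ
  rw [h1, hτ]

/-- the height of the model -/
lemma model_height {W : WeierstrassCurve ℤ} {q : ℤ × ℤ} (h0 : W.Δ ≠ 0) (h : Model W q)
    (τ : UpperHalfPlane) :
    fh W τ - C0 / 12 ≤ hE q τ ∧ hE q τ ≤ fh W τ + C0 / 12 := by
  have hmin := model_min h
  have hΔ1 : (1 : ℝ) ≤ |(W.Δ : ℝ)| := Δ_abs h0
  have h2 : |((Dsc q.1 q.2 : ℤ) : ℝ)| ≤ 136048896 * ((minD (Eq' q) : ℕ) : ℝ) := by
    rw [← absD]
    exact_mod_cast minD_ge hmin
  have h1 : ((minD (Eq' q) : ℕ) : ℝ) ≤ 16 * |((Dsc q.1 q.2 : ℤ) : ℝ)| := by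
    rw [← absD]
    exact_mod_cast minD_le q
  have h3 : |(W.Δ : ℝ)| ≤ |((Dsc q.1 q.2 : ℤ) : ℝ)| ∧
      |((Dsc q.1 q.2 : ℤ) : ℝ)| ≤ 136048896 * |(W.Δ : ℝ)| := by
    rcases model_disc h with h4 | h4
    · rw [h4]
      push_cast
      rw [abs_mul, abs_of_pos (by norm_num : (0 : ℝ) < 136048896)]
      constructor <;> linarith
    · rw [h4]
      push_cast
      rw [abs_mul, abs_of_pos (by norm_num : (0 : ℝ) < 256)]
      constructor <;> linarith
  have h5 : (0 : ℝ) < ((minD (Eq' q) : ℕ) : ℝ) := by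
    by_contra hcon
    have : ((minD (Eq' q) : ℕ) : ℝ) = 0 := le_antisymm (not_lt.1 hcon) (Nat.cast_nonneg _)
    rw [this, mul_zero] at h2
    linarith
  have h6 : ((minD (Eq' q) : ℕ) : ℝ) ≤ (16 * 136048896) * |(W.Δ : ℝ)| := by
    calc ((minD (Eq' q) : ℕ) : ℝ) ≤ 16 * |((Dsc q.1 q.2 : ℤ) : ℝ)| := h1
      _ ≤ 16 * (136048896 * |(W.Δ : ℝ)|) := by linarith [h3.2]
      _ = _ := by ring
  have h7 : |(W.Δ : ℝ)| ≤ (16 * 136048896) * ((minD (Eq' q) : ℕ) : ℝ) := by
    linarith [h3.1, h5]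
  have h8 := Real.log_le_log h5 h6
  have h9 := Real.log_le_log (by linarith) h7
  rw [Real.log_mul (by norm_num) (by linarith)] at h8 h9
  have h10 : ((|W.Δ| : ℤ) : ℝ) = |(W.Δ : ℝ)| := by push_cast; rfl
  have hC0 : Real.log (16 * 136048896) = C0 := rfl
  rw [hC0] at h8 h9
  unfold hE fh
  rw [h10]
  constructor <;> linarith

/-- the transfer of the lower bound -/
theorem VV_le (lam c B : ℝ) (hlam : 0 < lam) (hB : 1 ≤ B) :
    ((VV lam (c + C0 / 12) (Real.exp (-(C0 / 12)) * B)).ncard : ℝ) ≤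
      2 * ((WW' lam c B).ncard : ℝ) := by
  classical
  have hB0 : 0 < B := by linarith
  have hfin := WW'_finite lam c hB
  have hsub : VV lam (c + C0 / 12) (Real.exp (-(C0 / 12)) * B) ⊆
      (fun q : ℤ × ℤ => (q.1 / 27, q.2 / 54)) '' (WW' lam c B) ∪
      (fun q : ℤ × ℤ => (3 * q.1, 27 * q.2 / 2)) '' (WW' lam c B) := by
    rintro q ⟨W, τ, h0, hcop, rfl, hτ, h1, h2⟩
    obtain ⟨q', hq'⟩ := exists_model h0 hcop
    have h3 := model_height h0 hq' τ
    have hmem : q' ∈ WW' lam c B := by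
      refine ⟨τ, model_min hq', model_period h0 hq' hτ, ?_, ?_⟩
      · rw [Real.log_mul (Real.exp_pos _).ne' hB0.ne', Real.log_exp] at h1
        linarith [h3.2]
      · have h4 := model_cnd h0 hcop hq'
        have h5 : Real.log (Cnd q'.1 q'.2 : ℝ) ≤ Real.log (rad W.Δ.natAbs : ℝ) :=
          Real.log_le_log (Cnd_pos' q') (by exact_mod_cast h4)
        have h6 : lam * Real.log (Cnd q'.1 q'.2 : ℝ) ≤ lam * Real.log (rad W.Δ.natAbs : ℝ) := by
          gcongr
        linarith [h3.1]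
    rcases hq' with ⟨h4, -⟩ | ⟨h4, h5, -⟩
    · left
      refine ⟨q', hmem, ?_⟩
      rw [h4]
      simp only
      rw [Int.mul_ediv_cancel_left _ (by norm_num), Int.mul_ediv_cancel_left _ (by norm_num)]
    · right
      refine ⟨q', hmem, ?_⟩
      simp only
      rw [← h5, Int.mul_ediv_cancel_left _ (by norm_num), h4]
  have h1 := Set.ncard_le_ncard hsub ((hfin.image _).union (hfin.image _))
  have h2 := h1.trans (Set.ncard_union_le _ _)
  have h3 := Set.ncard_image_le (f := fun q : ℤ × ℤ => (q.1 / 27, q.2 / 54)) hfin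
  have h4 := Set.ncard_image_le (f := fun q : ℤ × ℤ => (3 * q.1, 27 * q.2 / 2)) hfin
  have h5 : (VV lam (c + C0 / 12) (Real.exp (-(C0 / 12)) * B)).ncard ≤
      2 * (WW' lam c B).ncard := by omega
  exact_mod_cast h5

/-- **Lower bound** for the violators of small Faltings height -/
theorem WH_lower (lam c ε : ℝ) (hlam : 1 / 12 ≤ lam) (hlam2 : lam < 1 / 2) (hε : 0 < ε) :
    ∃ B₀ : ℝ, ∀ B : ℝ, B₀ ≤ B →
      B ^ (1 / lam - 2 - ε) ≤ ((WW' lam c B).ncard : ℝ) := by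
  have hl0 : 0 < lam := by linarith
  obtain ⟨B1, h⟩ := VH_lower lam (c + C0 / 12) (ε / 2) hlam hlam2 (by positivity)
  set a := Real.exp (-(C0 / 12)) with ha
  have ha0 : 0 < a := Real.exp_pos _
  set e := 1 / lam - 2 - ε / 2 with he
  have t1 : Tendsto (fun B : ℝ => a * B) atTop atTop := Tendsto.const_mul_atTop ha0 tendsto_id
  have t2 : Tendsto (fun B : ℝ => B ^ (ε / 2)) atTop atTop := tendsto_rpow_atTop (by positivity)
  have hfin : ∀ᶠ B : ℝ in atTop, B ^ (1 / lam - 2 - ε) ≤ ((WW' lam c B).ncard : ℝ) := by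
    filter_upwards [t1.eventually_ge_atTop B1, t2.eventually_ge_atTop (2 / a ^ e),
      eventually_ge_atTop 1] with B h1 h2 h3
    have hB0 : 0 < B := by linarith
    have h4 := h _ h1
    have h5 := VV_le lam c B hl0 h3
    rw [Real.mul_rpow ha0.le hB0.le] at h4
    have hae : 0 < a ^ e := Real.rpow_pos_of_pos ha0 _
    rw [div_le_iff₀ hae] at h2
    have h6 : B ^ e = B ^ (1 / lam - 2 - ε) * B ^ (ε / 2) := by
      rw [← Real.rpow_add hB0, he]
      congr 1
      ring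
    have h7 : 0 < B ^ (1 / lam - 2 - ε) := Real.rpow_pos_of_pos hB0 _
    have h8 : 2 * B ^ (1 / lam - 2 - ε) ≤ a ^ e * B ^ e := by
      rw [h6]
      calc 2 * B ^ (1 / lam - 2 - ε) ≤ (B ^ (ε / 2) * a ^ e) * B ^ (1 / lam - 2 - ε) := by gcongr
        _ = _ := by ring
    linarith
  exact eventually_atTop.1 hfin

end Pool.Agent.X12.Szp
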