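import Pool.Agent.X12.Sp

/-!
# Skew-symmetric matrices through the Vandermonde matrix; symbols of factorials
-/

set_option autoImplicit false

namespace Pool.Agent.X12

open Matrix Finset

section

variable {F : Type*} [CommRing F]

lemma det_J_block (h : ℕ) :
    (fromBlocks 0 1 (-1) 0 : Matrix (Fin h ⊕ Fin h) (Fin h ⊕ Fin h) F).det = 1 := by
  have h1 : (fromBlocks 0 1 (-1) 0 : Matrix (Fin h ⊕ Fin h) (Fin h ⊕ Fin h) F) =
      fromBlocks 1 1 0 1 * fromBlocks 1 0 (-1) 1 * fromBlocks 1 1 0 1 := by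
    rw [fromBlocks_multiply, fromBlocks_multiply]
    simp
  rw [h1, det_mul, det_mul, det_fromBlocks_zero₂₁, det_fromBlocks_zero₁₂, det_one]
  simp

lemma det_skew_block {h : ℕ} (d : Fin h → F) :
    (fromBlocks 0 (diagonal d) (-(diagonal d)) 0 :
      Matrix (Fin h ⊕ Fin h) (Fin h ⊕ Fin h) F).det = (∏ i, d i) ^ 2 := by
  have h1 : (fromBlocks 0 (diagonal d) (-(diagonal d)) 0 :
      Matrix (Fin h ⊕ Fin h) (Fin h ⊕ Fin h) F) =
      fromBlocks 0 1 (-1) 0 * fromBlocks (diagonal d) 0 0 (diagonal d) := by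
    rw [fromBlocks_multiply]
    simp
  rw [h1, det_mul, det_J_block, det_fromBlocks_zero₂₁, det_diagonal, one_mul, sq]

/-- The indices `h + i` and `h - 1 - i`. -/
def eqv (h : ℕ) : Fin h ⊕ Fin h ≃ Fin (h + h) :=
  (Equiv.sumComm _ _).trans ((Equiv.sumCongr Fin.revPerm (Equiv.refl _)).trans finSumFinEquiv)

lemma eqv_inl {h : ℕ} (i : Fin h) : ((eqv h (Sum.inl i) : Fin (h + h)) : ℕ) = h + i := by
  simp [eqv]
  omega

lemma eqv_inr {h : ℕ} (i : Fin h) : ((eqv h (Sum.inr i) : Fin (h + h)) : ℕ) = h - 1 - i := by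
  simp [eqv, Fin.val_rev]
  omega

/-- The determinant of a skew-symmetric matrix written through a Vandermonde matrix. -/
lemma det_skew_vandermonde {h : ℕ} (x w : Fin (h + h) → F) (c : Fin h → F)
    (A : Matrix (Fin (h + h)) (Fin (h + h)) F)
    (hA : ∀ j k, w j * A j k * w k = ∑ i : Fin h, c i * (x j ^ (h + i : ℕ) * x k ^ (h - 1 - i : ℕ) -
      x j ^ (h - 1 - i : ℕ) * x k ^ (h + i : ℕ))) :
    (∏ j, w j) ^ 2 * A.det = (vandermonde x).det ^ 2 * (∏ i, c i) ^ 2 := by
  set K : Matrix (Fin h ⊕ Fin h) (Fin h ⊕ Fin h) F :=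
    fromBlocks 0 (diagonal c) (-(diagonal c)) 0 with hK
  have h1 : diagonal w * A * diagonal w =
      vandermonde x * (K.submatrix (eqv h).symm (eqv h).symm) * (vandermonde x)ᵀ := by
    ext j k
    rw [mul_diagonal, diagonal_mul, hA, mul_apply]
    simp only [mul_apply, transpose_apply, submatrix_apply, vandermonde_apply]
    rw [← Equiv.sum_comp (eqv h)]
    simp only [Equiv.symm_apply_apply]
    have h2 : ∀ t : Fin h ⊕ Fin h, (∑ a : Fin (h + h), x j ^ (a : ℕ) * K ((eqv h).symm a) t) =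
        ∑ s : Fin h ⊕ Fin h, x j ^ ((eqv h s : Fin (h + h)) : ℕ) * K s t := by
      intro t
      rw [← Equiv.sum_comp (eqv h)]
      simp only [Equiv.symm_apply_apply]
    simp only [h2]
    rw [Fintype.sum_sum_type]
    simp only [Fintype.sum_sum_type, hK, fromBlocks_apply₁₁, fromBlocks_apply₁₂,
      fromBlocks_apply₂₁, fromBlocks_apply₂₂, Matrix.zero_apply, mul_zero, sum_const_zero, zero_add,
      add_zero, Matrix.neg_apply, diagonal_apply, eqv_inl, eqv_inr]
    rw [← Finset.sum_add_distrib]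
    refine Finset.sum_congr rfl fun i _ => ?_
    simp only [mul_ite, mul_zero, mul_neg, Finset.sum_neg_distrib, Finset.sum_ite_eq',
      Finset.mem_univ, if_true]
    ring
  have h3 := congrArg Matrix.det h1
  rw [det_mul, det_mul, det_mul, det_mul, det_diagonal, det_transpose, det_submatrix_equiv_self,
    hK, det_skew_block] at h3
  linear_combination h3

end

section

variable {p : ℕ} [Fact p.Prime]

lemma qc_nat_ne {a : ℕ} (h : ((a : ℕ) : ZMod p) ≠ 0) : qc p a * qc p a = 1 := qc_sq h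

lemma fact_ne_zero {t : ℕ} (ht : t < p) : ((t.factorial : ℕ) : ZMod p) ≠ 0 := by
  rw [Ne, ZMod.natCast_eq_zero_iff, (Fact.out : p.Prime).dvd_factorial]
  omega

lemma qc_pow (a : ZMod p) (k : ℕ) : qc p (a ^ k) = qc p a ^ k := map_pow _ a k

lemma qc_prod {ι : Type*} (s : Finset ι) (f : ι → ZMod p) :
    qc p (∏ i ∈ s, f i) = ∏ i ∈ s, qc p (f i) := map_prod (quadraticChar (ZMod p)) f s

/-- Euler's criterion. -/
lemma qc_eq_pow {n : ℕ} (hn : p = 2 * n + 1) (a : ZMod p) : ((qc p a : ℤ) : ZMod p) = a ^ n := by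
  have h1 := legendreSym.eq_pow p (a.val : ℤ)
  rw [legendre_eq] at h1
  push_cast at h1
  rw [ZMod.natCast_zmod_val] at h1
  rw [h1]
  congr 1
  omega

lemma qc_one_of_pow {n : ℕ} (hn : p = 2 * n + 1) (hp : 2 < p) {a : ZMod p} {ε : ℤ}
    (hε : ε = 1 ∨ ε = -1) (h : a ^ n = (ε : ZMod p)) : qc p a = ε := by
  have h1 := qc_eq_pow hn a
  rw [h] at h1
  have h0 : a ≠ 0 := by
    rintro rfl
    rw [zero_pow (by omega)] at h
    rcases hε with rfl | rfl
    · simp at h
    · simp at h
  have h2 : (2 : ZMod p) ≠ 0 := by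
    intro h2
    have : ((2 : ℕ) : ZMod p) = 0 := by exact_mod_cast h2
    rw [ZMod.natCast_eq_zero_iff] at this
    have := Nat.le_of_dvd (by norm_num) this
    omega
  rcases qc_cases h0 with h3 | h3 <;> rcases hε with rfl | rfl
  · exact h3
  · exfalso
    rw [h3] at h1
    apply h2
    push_cast at h1
    linear_combination h1
  · exfalso
    rw [h3] at h1
    apply h2
    push_cast at h1
    linear_combination -h1
  · exact h3

/-- Wilson's theorem. -/
lemma fact_mul_fact {a b : ℕ} (h : a + b + 1 = p) :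
    ((a.factorial : ℕ) : ZMod p) * (b.factorial : ℕ) = (-1) ^ (a + 1) := by
  induction a generalizing b with
  | zero =>
    have hb : b = p - 1 := by omega
    rw [hb, Nat.factorial_zero, ZMod.wilsons_lemma]
    simp
  | succ a ih =>
    have h1 := ih (b := b + 1) (by omega)
    rw [Nat.factorial_succ] at h1 ⊢
    have h2 : ((b + 1 : ℕ) : ZMod p) = -((a + 1 : ℕ) : ZMod p) := by
      have : ((a + 1 + b + 1 : ℕ) : ZMod p) = 0 := by rw [h]; exact ZMod.natCast_self p
      push_cast at this ⊢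
      linear_combination this
    push_cast at h1 h2 ⊢
    rw [h2] at h1
    rw [pow_succ]
    linear_combination -h1

/-- The symbol of the factorial of `(p - 1) / 2`. -/
lemma qc_fact_half {n h : ℕ} (hn : p = 2 * n + 1) (hh : n = h + h) (hh0 : 0 < h) :
    qc p ((n.factorial : ℕ) : ZMod p) = (-1) ^ h := by
  apply qc_one_of_pow hn (by omega)
  · exact neg_one_pow_eq_or ℤ h
  · have h1 := fact_mul_fact (p := p) (a := n) (b := n) (by omega)
    have h2 : ((n.factorial : ℕ) : ZMod p) ^ 2 = -1 := by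
      rw [sq, h1, hh, pow_succ, ← two_mul, pow_mul]; norm_num
    calc ((n.factorial : ℕ) : ZMod p) ^ n = (((n.factorial : ℕ) : ZMod p) ^ 2) ^ h := by
          rw [← pow_mul]; congr 1; omega
      _ = _ := by rw [h2]; push_cast; rfl

lemma qc_two {n h : ℕ} (hn : p = 2 * n + 1) (hh : n = h + h) : qc p 2 = (-1) ^ h := by
  have h1 := legendreSym.at_two (p := p) (by omega)
  rw [legendre_eq] at h1
  push_cast at h1
  rw [h1, ZMod.χ₈_nat_eq_if_mod_eight]
  rcases Nat.even_or_odd h with he | ho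
  · obtain ⟨k, rfl⟩ := he
    rw [if_neg (by omega), if_pos (by omega)]
    rw [← two_mul, pow_mul]; norm_num
  · obtain ⟨k, rfl⟩ := ho
    rw [if_neg (by omega), if_neg (by omega)]
    rw [pow_succ, pow_mul]; norm_num

/-- The product of the symbols of the factorials. -/
lemma prod_qc_fact {h : ℕ} (hp : 2 * h < p) (h2 : (2 : ZMod p) ≠ 0) :
    ∏ t ∈ range (2 * h), qc p ((t.factorial : ℕ) : ZMod p) =
      qc p (((2 * h).factorial : ℕ) : ZMod p) * qc p 2 ^ h * qc p ((h.factorial : ℕ) : ZMod p) := by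
  have key : ∀ h : ℕ, 2 * h < p → ∏ t ∈ range (2 * h), qc p ((t.factorial : ℕ) : ZMod p) =
      ∏ s ∈ range h, qc p ((2 * s + 1 : ℕ) : ZMod p) := by
    intro h
    induction h with
    | zero => simp
    | succ h ih =>
      intro hlt
      rw [show 2 * (h + 1) = 2 * h + 1 + 1 by ring, prod_range_succ, prod_range_succ,
        prod_range_succ, ih (by omega), Nat.factorial_succ (2 * h)]
      push_cast
      rw [qc_mul]
      have := qc_sq (fact_ne_zero (p := p) (t := 2 * h) (by omega))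
      linear_combination (∏ s ∈ range h, qc p (2 * (s : ZMod p) + 1)) * qc p (2 * (h : ZMod p) + 1) * this
  have key2 : ∀ h : ℕ, 2 * h < p → qc p (((2 * h).factorial : ℕ) : ZMod p) =
      (∏ s ∈ range h, qc p ((2 * s + 1 : ℕ) : ZMod p)) * qc p 2 ^ h *
        qc p ((h.factorial : ℕ) : ZMod p) := by
    intro h
    induction h with
    | zero => simp [qc_one]
    | succ h ih =>
      intro hlt
      have ih' := ih (by omega)
      rw [show 2 * (h + 1) = 2 * h + 1 + 1 by ring, Nat.factorial_succ, Nat.factorial_succ,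
        Nat.factorial_succ h, prod_range_succ, pow_succ]
      push_cast
      rw [qc_mul, qc_mul, qc_mul (h + 1 : ZMod p), ih',
        show (2 * (h : ZMod p) + 1 + 1) = 2 * (h + 1) by ring, qc_mul]
      push_cast
      ring
  rw [key h hp, key2 h hp]
  have e1 := qc_sq h2
  have e2 := qc_sq (fact_ne_zero (p := p) (t := h) (by omega))
  have e3 : qc p 2 ^ h * qc p 2 ^ h = 1 := by rw [← mul_pow, e1, one_pow]
  calc (∏ s ∈ range h, qc p ((2 * s + 1 : ℕ) : ZMod p)) =
      (∏ s ∈ range h, qc p ((2 * s + 1 : ℕ) : ZMod p)) * (qc p 2 ^ h * qc p 2 ^ h) *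
        (qc p ((h.factorial : ℕ) : ZMod p) * qc p ((h.factorial : ℕ) : ZMod p)) := by
        rw [e3, e2]; ring
    _ = _ := by ring

/-- The symbol of `h!` and the number of nonresidues up to `h`. -/
lemma qc_fact_count {h : ℕ} (hp : h < p) : qc p ((h.factorial : ℕ) : ZMod p) =
    (-1) ^ ((Finset.Icc 1 h).filter (fun k : ℕ => legendreSym p (k : ℤ) = -1)).card := by
  induction h with
  | zero => simp [qc_one]
  | succ h ih =>
    rw [Nat.factorial_succ, ← Finset.insert_Icc_right_eq_Icc_add_one (by omega),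
      Finset.filter_insert]
    push_cast
    rw [qc_mul, ih (by omega)]
    have h0 : (((h + 1 : ℕ) : ℤ) : ZMod p) ≠ 0 := by
      intro h'
      push_cast at h'
      have h'' : ((h + 1 : ℕ) : ZMod p) = 0 := by push_cast; exact h'
      rw [ZMod.natCast_eq_zero_iff] at h''
      have := Nat.le_of_dvd (by omega) h''
      omega
    have hcast : (((h + 1 : ℕ) : ℤ) : ZMod p) = (h : ZMod p) + 1 := by push_cast; rfl
    rcases qc_cases h0 with h1 | h1
    · have h2 : legendreSym p ((h + 1 : ℕ) : ℤ) = 1 := h1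
      push_cast at h2
      rw [if_neg (by rw [h2]; norm_num)]
      rw [hcast] at h1
      rw [h1, one_mul]
    · have h2 : legendreSym p ((h + 1 : ℕ) : ℤ) = -1 := h1
      push_cast at h2
      rw [if_pos h2, Finset.card_insert_of_notMem (by simp)]
      rw [hcast] at h1
      rw [h1, pow_succ]
      ring

/-- The inner product of the Vandermonde determinant of the squares. -/
lemma inner_prod {R : Type*} [CommRing R] (k : ℕ) :
    ((k : R) + 1) * ∏ l ∈ range k, (((k : R) + 1) ^ 2 - ((l : R) + 1) ^ 2) =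
      ((2 * k + 1).factorial : ℕ) := by
  have h1 : ∏ l ∈ range k, (((k : R) + 1) ^ 2 - ((l : R) + 1) ^ 2) =
      ∏ l ∈ range k, (((k - l : ℕ) : R) * ((k + 1 + 1 + l : ℕ) : R)) := by
    refine Finset.prod_congr rfl fun l hl => ?_
    rw [Nat.cast_sub (Finset.mem_range.1 hl).le]
    push_cast
    ring
  have h2 : ∏ l ∈ range k, ((k - l : ℕ) : R) = ((k.factorial : ℕ) : R) := by
    rw [← Nat.descFactorial_self, Nat.descFactorial_eq_prod_range]
    push_cast
    rfl
  have h3 : ∏ l ∈ range k, ((k + 1 + 1 + l : ℕ) : R) = (((k + 1 + 1).ascFactorial k : ℕ) : R) := by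
    rw [Nat.ascFactorial_eq_prod_range]
    push_cast
    rfl
  have h4 := Nat.factorial_mul_ascFactorial (k + 1) k
  rw [show k + 1 + k = 2 * k + 1 by ring] at h4
  rw [h1, Finset.prod_mul_distrib, h2, h3, ← h4, Nat.factorial_succ]
  push_cast
  ring

/-- The Vandermonde determinant of the squares as a nested product. -/
lemma vandermonde_squares {R : Type*} [CommRing R] (n : ℕ) :
    (vandermonde (fun j : Fin n => (((j : ℕ) : R) + 1) ^ 2)).det =
      ∏ k ∈ range n, ∏ l ∈ range k, (((k : R) + 1) ^ 2 - ((l : R) + 1) ^ 2) := by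
  rw [det_vandermonde, Finset.prod_comm' (t' := Finset.univ) (s' := fun j => Finset.Iio j)
    (by intro x y; simp), Finset.prod_range]
  refine Finset.prod_congr rfl fun k _ => ?_
  rw [← Nat.Iio_eq_range, ← Fin.map_valEmbedding_Iio, Finset.prod_map]
  rfl

/-- The symbol of the Vandermonde determinant of the squares. -/
lemma qc_vandermonde {n h : ℕ} (hn : p = 2 * n + 1) (hh : n = h + h) :
    qc p (vandermonde (fun j : Fin n => (((j : ℕ) : ZMod p) + 1) ^ 2)).det =
      qc p ((n.factorial : ℕ) : ZMod p) := by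
  have h1 : ((n.factorial : ℕ) : ZMod p) *
      (vandermonde (fun j : Fin n => (((j : ℕ) : ZMod p) + 1) ^ 2)).det =
      ∏ k ∈ range n, (((2 * k + 1).factorial : ℕ) : ZMod p) := by
    rw [vandermonde_squares, ← Finset.prod_range_add_one_eq_factorial]
    push_cast
    rw [← Finset.prod_mul_distrib]
    refine Finset.prod_congr rfl fun k _ => ?_
    exact inner_prod k
  set X : ZMod p := ∏ k ∈ range n, (((2 * k + 1).factorial : ℕ) : ZMod p) with hX
  have h2 : X * X = 1 := by
    conv_lhs => rw [hX]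
    nth_rewrite 2 [← Finset.prod_range_reflect]
    rw [← Finset.prod_mul_distrib]
    apply Finset.prod_eq_one
    intro k hk
    have hk' := Finset.mem_range.1 hk
    rw [fact_mul_fact (by omega), show 2 * k + 1 + 1 = 2 * (k + 1) by ring, pow_mul]
    norm_num
  have h3 : qc p X = 1 := by
    have hm : qc p (-1) = 1 := qc_neg_one_of_one (by omega)
    rcases mul_self_eq_one_iff.1 h2 with h | h
    · rw [h, qc_one]
    · rw [h, hm]
  have h4 := congrArg (qc p) h1
  rw [qc_mul, h3] at h4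
  have h5 := qc_sq (fact_ne_zero (p := p) (t := n) (by omega))
  calc _ = (qc p ((n.factorial : ℕ) : ZMod p) * qc p ((n.factorial : ℕ) : ZMod p)) *
        qc p (vandermonde (fun j : Fin n => (((j : ℕ) : ZMod p) + 1) ^ 2)).det := by
        rw [h5, one_mul]
    _ = qc p ((n.factorial : ℕ) : ZMod p) * (qc p ((n.factorial : ℕ) : ZMod p) *
        qc p (vandermonde (fun j : Fin n => (((j : ℕ) : ZMod p) + 1) ^ 2)).det) := by ring
    _ = _ := by rw [h4, mul_one]

/-- The square root of the determinant of a skew matrix of powers of differences of squares. -/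
lemma qc_sqrt_det {n h : ℕ} (hn : p = 2 * n + 1) (hh : n = h + h) (m : ℕ) (μ : ℕ) (c : ℕ → ZMod p)
    (hpoly : ∀ x y : ZMod p, x ^ n = 1 → y ^ n = 1 →
      (x * y) ^ μ * (x - y) ^ (n + m) = ∑ i ∈ range h, c i * (x ^ (h + i) * y ^ (h - 1 - i) -
      x ^ (h - 1 - i) * y ^ (h + i)))
    (A : Matrix (Fin n) (Fin n) ℤ) (hA : ∀ j k, A j k = (((j : ℤ) + 1) ^ 2 - ((k : ℤ) + 1) ^ 2) ^ m *
      legendreSym p (((j : ℤ) + 1) ^ 2 - ((k : ℤ) + 1) ^ 2)) (s : ℤ) (hs : s ^ 2 = A.det) :
    legendreSym p s = qc p ((n.factorial : ℕ) : ZMod p) * ∏ i ∈ range h, qc p (c i) := by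
  subst hh
  set x : Fin (h + h) → ZMod p := fun j => (((j : ℕ) : ZMod p) + 1) ^ 2 with hx
  have hx0 : ∀ j : Fin (h + h), ((j : ℕ) : ZMod p) + 1 ≠ 0 := fun j =>
    half_ne_zero hn j.isLt
  have hxn : ∀ j, x j ^ (h + h) = 1 := by
    intro j
    rw [hx]
    simp only
    rw [← pow_mul, show 2 * (h + h) = p - 1 by omega]
    exact ZMod.pow_card_sub_one_eq_one (hx0 j)
  have hAc : ∀ j k, ((A j k : ℤ) : ZMod p) = (x j - x k) ^ (h + h + m) := by
    intro j k
    rw [hA]
    push_cast
    rw [legendreSym.eq_pow, show p / 2 = h + h by omega]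
    push_cast
    rw [hx]
    ring
  have h1 := det_skew_vandermonde x (fun j => x j ^ μ) (fun i : Fin h => c i)
    (A.map (Int.castRingHom (ZMod p))) (by
      intro j k
      rw [Matrix.map_apply]
      have := hpoly (x j) (x k) (hxn j) (hxn k)
      rw [Finset.sum_range] at this
      rw [← this]
      have e := hAc j k
      simp only [eq_intCast]
      rw [e]
      ring)
  have h2 : (A.map (Int.castRingHom (ZMod p))).det = ((s : ℤ) : ZMod p) ^ 2 := by
    have := RingHom.map_det (Int.castRingHom (ZMod p)) A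
    rw [RingHom.mapMatrix_apply] at this
    rw [← this, ← hs]
    simp
  rw [h2, ← mul_pow, ← mul_pow] at h1
  have hm : qc p (-1) = 1 := qc_neg_one_of_one (by omega)
  have h3 : qc p ((∏ j, x j ^ μ) * (s : ZMod p)) =
      qc p ((vandermonde x).det * ∏ i : Fin h, c i) := by
    rcases sq_eq_sq_iff_eq_or_eq_neg.1 h1 with h | h
    · rw [h]
    · rw [h, qc_neg, hm, one_mul]
  have h4 : qc p (∏ j, x j ^ μ) = 1 := by
    rw [qc_prod]
    apply Finset.prod_eq_one
    intro j _
    rw [qc_pow, hx]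
    simp only
    rw [qc_pow, sq, qc_sq (hx0 j), one_pow]
  rw [qc_mul, h4, one_mul, qc_mul, qc_vandermonde hn rfl, qc_prod] at h3
  rw [legendre_eq, h3, Finset.prod_range]

end

end Pool.Agent.X12
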