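import Pool.Agent.X12.Szp8

/-!
# The lower bounds with a constant
-/

set_option autoImplicit false

namespace Pool.Agent.X12.Szp

open Finset Filter Topology Pool.Agent.H328R2.ABC

/-- the semistable curves in the box with `(K0 N) ^ κ < |Δ|` -/
def ExK (K0 κ X : ℝ) : Set (ℤ × ℤ) :=
  {q | ∃ W : WeierstrassCurve ℤ, W.Δ ≠ 0 ∧ IsCoprime W.c₄ W.Δ ∧ q = (W.c₄, W.c₆) ∧
    |(W.c₄ : ℝ)| ≤ X ^ 2 ∧ |(W.c₆ : ℝ)| ≤ X ^ 3 ∧
    (K0 * (rad W.Δ.natAbs : ℝ)) ^ κ < |(W.Δ : ℝ)|}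

theorem ExK_sub {K0 κ : ℝ} (hK0 : 1 ≤ K0) (hκ : 0 ≤ κ) (X : ℝ) : ExK K0 κ X ⊆ Exc κ X := by
  rintro q ⟨W, h1, h2, h3, h4, h5, h6⟩
  refine ⟨W, h1, h2, h3, h4, h5, lt_of_le_of_lt ?_ h6⟩
  have : (0 : ℝ) ≤ (rad W.Δ.natAbs : ℝ) := Nat.cast_nonneg _
  refine Real.rpow_le_rpow this ?_ hκ
  nlinarith

theorem ExK_finite {K0 κ : ℝ} (hK0 : 1 ≤ K0) (hκ : 0 ≤ κ) (X : ℝ) : (ExK K0 κ X).Finite :=
  (Exc_finite κ X).subset (ExK_sub hK0 hκ X)

/-- many members of the first family -/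
theorem family1K (K0 : ℝ) (hK0 : 1 ≤ K0) (κ X : ℝ) (hκ : 1 ≤ κ) (hX : 2 ≤ X) (j I K : ℕ)
    (hj : K0 * X ^ (6 - 6 / κ) < 5 ^ j)
    (hI : 240 * (I : ℝ) ≤ X ^ 2) (hK : 1728 * (5 : ℝ) ^ (j + 1) * K ≤ X ^ 3) :
    ∃ t0 : ℕ → ℤ, (∑ i ∈ Finset.Icc 1 I, ((Finset.range K).filter fun k : ℕ =>
      (Int.gcd ((-1 + 360 * (i : ℤ) - 864 * t0 i) + (-(864 * 5 ^ (j + 1))) * k) (240 * i - 1 : ℕ)) = 1).card)
        ≤ (ExK K0 κ X).ncard := by
  classical
  choose t0 ht0 ht1 ht2 using fun i : ℤ => exists_t0 j i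
  refine ⟨fun i => t0 i, ?_⟩
  set S := (Finset.Icc 1 I).sigma fun i => (Finset.range K).filter fun k : ℕ =>
      (Int.gcd ((-1 + 360 * (i : ℤ) - 864 * t0 i) + (-(864 * 5 ^ (j + 1))) * k) (240 * i - 1 : ℕ)) = 1
    with hS
  rw [← Finset.card_sigma, ← hS, ← Set.ncard_coe_finset]
  set W : (Σ _ : ℕ, ℕ) → WeierstrassCurve ℤ := fun x => W1 (5 * x.1) (t0 x.1 + 5 ^ (j + 1) * x.2)
    with hW
  have hX0 : 0 < X := by linarith
  refine Set.ncard_le_ncard_of_injOn (fun x => ((W x).c₄, (W x).c₆)) ?_ ?_ (ExK_finite hK0 (by linarith : 0 ≤ κ) X)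
  · rintro ⟨i, k⟩ hx
    rw [Finset.mem_coe, hS, Finset.mem_sigma, Finset.mem_filter, Finset.mem_Icc,
      Finset.mem_range] at hx
    obtain ⟨⟨hi1, hi2⟩, hk, hg⟩ := hx
    simp only at hi1 hi2 hk hg
    have e4 : (W ⟨i, k⟩).c₄ = 1 - 240 * i := by
      rw [hW]
      simp only
      rw [W1_c4]
      ring
    have e6 : (W ⟨i, k⟩).c₆ = (-1 + 360 * (i : ℤ) - 864 * t0 i) + (-(864 * 5 ^ (j + 1))) * k := by
      rw [hW]
      simp only
      rw [W1_c6]
      ring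
    have hcast : ((240 * i - 1 : ℕ) : ℤ) = -(1 - 240 * (i : ℤ)) := by
      rw [Nat.cast_sub (by omega)]
      push_cast
      ring
    have hcop : IsCoprime (W ⟨i, k⟩).c₆ (W ⟨i, k⟩).c₄ := by
      rw [e6, e4]
      rw [hcast, ← Int.isCoprime_iff_gcd_eq_one] at hg
      rwa [IsCoprime.neg_right_iff] at hg
    have hrel := (W ⟨i, k⟩).c_relation
    have hcopΔ : IsCoprime (W ⟨i, k⟩).c₄ (W ⟨i, k⟩).Δ := by
      have h1 : IsCoprime (W ⟨i, k⟩).c₄ ((W ⟨i, k⟩).c₆ ^ 2) := hcop.symm.pow_right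
      have h2 : IsCoprime (W ⟨i, k⟩).c₄ (1728 * (W ⟨i, k⟩).Δ) := by
        rw [hrel]
        have h3 : (W ⟨i, k⟩).c₄ ^ 3 - (W ⟨i, k⟩).c₆ ^ 2 =
            -(W ⟨i, k⟩).c₆ ^ 2 + (W ⟨i, k⟩).c₄ * (W ⟨i, k⟩).c₄ ^ 2 := by ring
        rw [h3]
        exact IsCoprime.add_mul_left_right h1.neg_right _
      exact h2.of_mul_right_right
    have hΔ : (W ⟨i, k⟩).Δ ≠ 0 := by
      intro h0
      rw [h0, isCoprime_zero_right, e4] at hcopΔ
      have := Int.natAbs_of_isUnit hcopΔ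
      omega
    have hi1' : (1 : ℝ) ≤ i := by exact_mod_cast hi1
    have hi2' : (i : ℝ) ≤ I := by exact_mod_cast hi2
    have hX2 : (4 : ℝ) ≤ X ^ 2 := by nlinarith
    have hX3 : 2 * X ^ 2 ≤ X ^ 3 := by nlinarith [sq_nonneg X]
    have b4 : |((W ⟨i, k⟩).c₄ : ℝ)| ≤ X ^ 2 := by
      rw [e4]
      push_cast
      rw [abs_le]
      constructor <;> nlinarith
    have b6 : |((W ⟨i, k⟩).c₆ : ℝ)| ≤ X ^ 3 := by
      rw [e6]
      push_cast
      have t1 : (0 : ℝ) ≤ t0 i := by exact_mod_cast ht0 i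
      have t2 : (t0 i : ℝ) ≤ 5 ^ (j + 1) := by
        have := (ht1 i).le
        have h3 : ((t0 i : ℤ) : ℝ) ≤ ((5 ^ (j + 1) : ℤ) : ℝ) := by exact_mod_cast this
        simpa using h3
      have t3 : (0 : ℝ) ≤ k := Nat.cast_nonneg k
      have t4 : (k : ℝ) + 1 ≤ K := by exact_mod_cast hk
      have t5 : (0 : ℝ) < 5 ^ (j + 1) := by positivity
      have t6 : (5 : ℝ) ^ (j + 1) * (k + 1) ≤ 5 ^ (j + 1) * K := by gcongr
      have t7 : (0 : ℝ) ≤ 5 ^ (j + 1) * k := by positivity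
      rw [abs_le]
      constructor <;> nlinarith
    refine ⟨W ⟨i, k⟩, hΔ, hcopΔ, rfl, b4, b6, ?_⟩
    have hn0 : (W ⟨i, k⟩).Δ.natAbs ≠ 0 := by omega
    have h5Δ : 5 ^ (j + 1) ∣ (W ⟨i, k⟩).Δ.natAbs := by
      have h1 : (5 : ℤ) ^ (j + 1) ∣ 1728 * (W ⟨i, k⟩).Δ := by
        rw [hrel, e4, e6]
        have h2 : (1 - 240 * (i : ℤ)) ^ 3 - (-1 + 360 * (i : ℤ) - 864 * t0 i +
            (-(864 * 5 ^ (j + 1))) * k) ^ 2 = ((1 - 240 * (i : ℤ)) ^ 3 -
            (-1 + 360 * (i : ℤ) - 864 * t0 i) ^ 2) + 5 ^ (j + 1) * (864 * k *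
            (2 * (-1 + 360 * (i : ℤ) - 864 * t0 i) - 864 * 5 ^ (j + 1) * k)) := by ring
        rw [h2]
        exact dvd_add (ht2 i) (dvd_mul_right _ _)
      have h2 : IsCoprime ((5 : ℤ) ^ (j + 1)) 1728 := IsCoprime.pow_left (by norm_num)
      have h3 := h2.dvd_of_dvd_mul_left h1
      have h4 := Int.natAbs_dvd_natAbs.2 h3
      rwa [Int.natAbs_pow] at h4
    have hnr : (((W ⟨i, k⟩).Δ.natAbs : ℕ) : ℝ) = |((W ⟨i, k⟩).Δ : ℝ)| := by
      rw [Nat.cast_natAbs]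
      push_cast
      rfl
    rw [← hnr]
    have h6 := rad_mul_pow_le hn0 (by norm_num : 0 < 5) h5Δ
    have hK00 : 0 < K0 := by linarith
    refine crit (X := X) (N := K0 * (rad (W ⟨i, k⟩).Δ.natAbs : ℝ)) (P := 5 ^ j / K0) hκ ?_
      (by positivity) (by linarith) ?_ (by rw [lt_div_iff₀ hK00]; linarith) ?_
    · exact_mod_cast Nat.pos_of_ne_zero hn0
    · rw [hnr]
      exact disc_le b4 b6
    · have h7 : (rad (W ⟨i, k⟩).Δ.natAbs : ℝ) * 5 ^ j ≤ ((W ⟨i, k⟩).Δ.natAbs : ℝ) := by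
        exact_mod_cast h6
      calc K0 * (rad (W ⟨i, k⟩).Δ.natAbs : ℝ) * (5 ^ j / K0) =
          (rad (W ⟨i, k⟩).Δ.natAbs : ℝ) * 5 ^ j := by field_simp
        _ ≤ _ := h7
  · rintro ⟨i, k⟩ hx ⟨i', k'⟩ hx' hxx
    simp only [Prod.mk.injEq] at hxx
    obtain ⟨h1, h2⟩ := hxx
    rw [hW] at h1 h2
    simp only at h1 h2
    rw [W1_c4, W1_c4] at h1
    have hi : i = i' := by omega
    subst hi
    rw [W1_c6, W1_c6] at h2
    have h3 : (5 : ℤ) ^ (j + 1) * k = 5 ^ (j + 1) * k' := by linarith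
    have h4 : (k : ℤ) = k' := mul_left_cancel₀ (by positivity) h3
    have h5 : k = k' := by exact_mod_cast h4
    rw [h5]

/-- **Lower bound** for `1 ≤ κ < 2` -/
theorem lower1K (K0 : ℝ) (hK0 : 1 ≤ K0) (κ ε : ℝ) (hκ : 1 ≤ κ) (hκ2 : κ < 2) (hε : 0 < ε) :
    ∃ X₀ : ℝ, ∀ X : ℝ, X₀ ≤ X → X ^ (6 / κ - 1 - ε) ≤ ((ExK K0 κ X).ncard : ℝ) := by
  classical
  have hκ0 : 0 < κ := by linarith
  have hδ0 : 0 ≤ 6 - 6 / κ := by
    have : 6 / κ ≤ 6 := by
      rw [div_le_iff₀ hκ0]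
      linarith
    linarith
  have hβ : 0 < 6 / κ - 3 := by
    have : 3 < 6 / κ := by
      rw [lt_div_iff₀ hκ0]
      linarith
    linarith
  set β := 6 / κ - 3 with hβd
  set η := min (ε / 2) (β / 4) with hη
  have hη0 : 0 < η := lt_min (by positivity) (by positivity)
  have hη1 : η ≤ ε / 2 := min_le_left _ _
  have hη2 : η ≤ β / 4 := min_le_right _ _
  obtain ⟨c, C, hc, hC, hsieve⟩ := sieve_ge η hη0
  obtain ⟨X1, hX1⟩ := final_num (1 / 480) (1 / (86400 * K0)) c C 2 β ε η (by norm_num)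
    (by positivity) hc hη0
    (by linarith) (by linarith)
  obtain ⟨X2, hX2⟩ := Filter.eventually_atTop.1
    ((tendsto_rpow_atTop hβ).eventually_ge_atTop (86400 * K0 : ℝ))
  refine ⟨max (max X1 X2) 30, fun X hX => ?_⟩
  have hXa : X1 ≤ X := (le_max_left _ _).trans ((le_max_left _ _).trans hX)
  have hXb : X2 ≤ X := (le_max_right _ _).trans ((le_max_left _ _).trans hX)
  have hXc : (30 : ℝ) ≤ X := (le_max_right _ _).trans hX
  have hX0 : 0 < X := by linarith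
  have hX1' : (1 : ℝ) ≤ X := by linarith
  obtain ⟨j, hj1, hj2⟩ := exists_pow 5 (by norm_num) (K0 * X ^ (6 - 6 / κ))
    (one_le_mul_of_one_le_of_one_le hK0 (Real.one_le_rpow hX1' hδ0))
  push_cast at hj1 hj2
  set I := ⌊X ^ 2 / 240⌋₊ with hI
  set K := ⌊X ^ 3 / (1728 * 5 ^ (j + 1))⌋₊ with hK
  have hI1 : (I : ℝ) ≤ X ^ 2 / 240 := Nat.floor_le (by positivity)
  have hI2 : X ^ 2 / 240 - 1 < I := Nat.sub_one_lt_floor _
  have hK1 : (K : ℝ) ≤ X ^ 3 / (1728 * 5 ^ (j + 1)) := Nat.floor_le (by positivity)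
  have hK2 : X ^ 3 / (1728 * 5 ^ (j + 1)) - 1 < K := Nat.sub_one_lt_floor _
  obtain ⟨t0, ht0⟩ := family1K K0 hK0 κ X hκ (by linarith) j I K hj1 (by linarith) (by
    rw [le_div_iff₀ (by positivity)] at hK1
    linarith)
  have h1 : ∀ i ∈ Finset.Icc 1 I, c * K * X ^ (-η) - C * X ^ η ≤
      (((Finset.range K).filter fun k : ℕ => (Int.gcd ((-1 + 360 * (i : ℤ) - 864 * t0 i) +
        (-(864 * 5 ^ (j + 1))) * k) (240 * i - 1 : ℕ)) = 1).card : ℝ) := by
    intro i hi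
    rw [Finset.mem_Icc] at hi
    have hcast : ((240 * i - 1 : ℕ) : ℤ) = -(1 - 240 * (i : ℤ)) := by
      rw [Nat.cast_sub (by omega)]
      push_cast
      ring
    have h2 := hsieve X (240 * i - 1) K (-1 + 360 * (i : ℤ) - 864 * t0 i) (-(864 * 5 ^ (j + 1))) hX1'
      (by omega) (by
        have e1 : ((240 * i - 1 : ℕ) : ℝ) ≤ 240 * I := by
          have : 240 * i - 1 ≤ 240 * I := by omega
          exact_mod_cast this
        linarith) (by
        rw [hcast]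
        exact (cop_key j i).neg_neg)
    refine h2.trans (le_of_eq ?_)
    congr 2
    refine Finset.filter_congr fun k _ => ?_
    rw [Int.isCoprime_iff_gcd_eq_one]
  have h2 : (I : ℝ) * (c * K * X ^ (-η) - C * X ^ η) ≤ ((ExK K0 κ X).ncard : ℝ) := by
    calc (I : ℝ) * (c * K * X ^ (-η) - C * X ^ η) =
        ∑ _i ∈ Finset.Icc 1 I, (c * K * X ^ (-η) - C * X ^ η) := by
          rw [Finset.sum_const, Nat.card_Icc, Nat.add_sub_cancel, nsmul_eq_mul]
      _ ≤ ∑ i ∈ Finset.Icc 1 I, (((Finset.range K).filter fun k : ℕ =>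
          (Int.gcd ((-1 + 360 * (i : ℤ) - 864 * t0 i) +
          (-(864 * 5 ^ (j + 1))) * k) (240 * i - 1 : ℕ)) = 1).card : ℝ) := Finset.sum_le_sum h1
      _ ≤ _ := by exact_mod_cast ht0
  refine le_trans ?_ h2
  have e1 : 6 / κ - 1 - ε = 2 + β - ε := by rw [hβd]; ring
  rw [e1]
  refine hX1 X hXa _ _ ?_ ?_
  · rw [show X ^ (2 : ℝ) = X ^ 2 by rw [show (2 : ℝ) = ((2 : ℕ) : ℝ) by norm_num, Real.rpow_natCast]]
    nlinarith
  · have h3 := hX2 X hXb
    have hK00 : 0 < K0 := by linarith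
    have e2 : X ^ β / (43200 * K0) ≤ X ^ 3 / (1728 * 5 ^ (j + 1)) := by
      rw [le_div_iff₀ (by positivity)]
      have e3 : X ^ 3 = X ^ β * X ^ (6 - 6 / κ) := by
        rw [← Real.rpow_add hX0, hβd]
        have : 6 / κ - 3 + (6 - 6 / κ) = 3 := by ring
        rw [this, show (3 : ℝ) = ((3 : ℕ) : ℝ) by norm_num, Real.rpow_natCast]
      have p1 : 0 < X ^ β := Real.rpow_pos_of_pos hX0 _
      rw [e3]
      calc X ^ β / (43200 * K0) * (1728 * 5 ^ (j + 1)) = X ^ β * (5 ^ j) / (5 * K0) := by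
            field_simp
            ring
        _ ≤ X ^ β * (5 * (K0 * X ^ (6 - 6 / κ))) / (5 * K0) := by gcongr
        _ = _ := by field_simp
    have e4 : X ^ β / (43200 * K0) = 2 * (1 / (86400 * K0) * X ^ β) := by
      field_simp
      ring
    have e5 : 1 ≤ 1 / (86400 * K0) * X ^ β := by
      rw [one_div, inv_mul_eq_div, le_div_iff₀ (by positivity)]
      linarith
    linarith

/-- a member of the family is in the exceptional set -/
theorem frey_memK (K0 : ℝ) (hK0 : 1 ≤ K0) (κ X : ℝ) (hκ : 2 ≤ κ) (hX : 1 ≤ X) (k l u v x : ℕ) (hu : 1 ≤ u) (hv : 1 ≤ v)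
    (hA : 3 ^ l * v = 4 * x + 3) (hcop : IsCoprime (4 * (x : ℤ) + 3) (16 * (2 ^ k * u)))
    (hAX : (4 * (x : ℝ) + 3) ≤ X / 2) (hBX : 16 * (2 ^ k * (u : ℝ)) ≤ X / 2)
    (hQ : 6 * (K0 * X ^ (3 - 6 / κ)) < 2 ^ k * 3 ^ l) :
    ((WF x (2 ^ k * u)).c₄, (WF x (2 ^ k * u)).c₆) ∈ ExK K0 κ X := by
  have hx0 : (0 : ℝ) ≤ x := Nat.cast_nonneg x
  have hy0 : (1 : ℝ) ≤ 2 ^ k * (u : ℝ) := by
    have : 1 ≤ 2 ^ k * u := Nat.mul_pos (by positivity) hu
    exact_mod_cast this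
  have hΔ := WF_disc x (2 ^ k * u)
  have hD0 : (0 : ℤ) < (4 * (x : ℤ) + 3) * (2 ^ k * u) * ((4 * (x : ℤ) + 3) + 16 * (2 ^ k * u)) := by
    have : (0 : ℤ) < u := by exact_mod_cast hu
    positivity
  have b4 : |((WF x (2 ^ k * u)).c₄ : ℝ)| ≤ X ^ 2 := by
    rw [WF_c4]
    push_cast
    generalize hy : (2 : ℝ) ^ k * (u : ℝ) = y at *
    generalize hA' : 4 * (x : ℝ) + 3 = A at *
    have hA0 : 0 ≤ A := by rw [← hA']; positivity
    rw [abs_of_nonneg (by positivity)]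
    nlinarith [mul_nonneg hA0 (by linarith : 0 ≤ 16 * y)]
  have b6 : |((WF x (2 ^ k * u)).c₆ : ℝ)| ≤ X ^ 3 := by
    rw [WF_c6]
    push_cast
    generalize hy : (2 : ℝ) ^ k * (u : ℝ) = y at *
    generalize hA' : 4 * (x : ℝ) + 3 = A at *
    have hA0 : 0 ≤ A := by rw [← hA']; positivity
    rw [abs_mul, abs_mul, abs_neg, abs_of_nonneg (by positivity : (0 : ℝ) ≤ A + 8 * y),
      abs_of_nonneg (by positivity : (0 : ℝ) ≤ A + 2 * (16 * y))]
    have h1 : |16 * y - A| ≤ X / 2 := by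
      rw [abs_le]
      constructor <;> linarith
    have h2 : A + 8 * y ≤ X := by linarith
    have h3 : A + 2 * (16 * y) ≤ 2 * X := by linarith
    calc |16 * y - A| * (A + 8 * y) * (A + 2 * (16 * y)) ≤ X / 2 * X * (2 * X) := by
          gcongr
      _ = X ^ 3 := by ring
  refine ⟨WF x (2 ^ k * u), ?_, WF_coprime hcop, rfl, b4, b6, ?_⟩
  · rw [hΔ]
    positivity
  · -- the size of the conductor
    set D : ℕ := (4 * x + 3) * (2 ^ k * u) * ((4 * x + 3) + 16 * (2 ^ k * u)) with hD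
    have hΔn : (WF x (2 ^ k * u)).Δ = ((D ^ 2 : ℕ) : ℤ) := by
      rw [hΔ, hD]
      push_cast
      rfl
    have hDpos : 0 < D := by
      rw [hD]
      have : 0 < u := hu
      positivity
    have h1 : (WF x (2 ^ k * u)).Δ.natAbs = D ^ 2 := by rw [hΔn, Int.natAbs_natCast]
    have h2 : |((WF x (2 ^ k * u)).Δ : ℝ)| = (D : ℝ) ^ 2 := by
      rw [hΔn]
      push_cast
      rw [abs_of_nonneg (by positivity)]
    rw [h1, h2, rad_sq]
    have h3 : rad D * (2 ^ k * 3 ^ l) ≤ 6 * D := by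
      have e1 : D = (3 ^ l * v) * (2 ^ k * u) * ((4 * x + 3) + 16 * (2 ^ k * u)) := by rw [hD, hA]
      have n1 : (3 : ℕ) ^ l ≠ 0 := by positivity
      have n2 : (2 : ℕ) ^ k ≠ 0 := by positivity
      have n3 : (4 * x + 3) + 16 * (2 ^ k * u) ≠ 0 := by omega
      have r1 : rad (3 ^ l * v) ≤ 3 * v := (rad_mul_le _ _ n1 (by omega)).trans
        (Nat.mul_le_mul (rad_pow_le 3 l (by norm_num)) (rad_le hv))
      have r2 : rad (2 ^ k * u) ≤ 2 * u := (rad_mul_le _ _ n2 (by omega)).trans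
        (Nat.mul_le_mul (rad_pow_le 2 k (by norm_num)) (rad_le hu))
      have m1 : 3 ^ l * v ≠ 0 := Nat.mul_ne_zero n1 (by omega)
      have m2 : 2 ^ k * u ≠ 0 := Nat.mul_ne_zero n2 (by omega)
      have r3 : rad D ≤ 3 * v * (2 * u) * ((4 * x + 3) + 16 * (2 ^ k * u)) := by
        rw [e1]
        refine (rad_mul_le _ _ (Nat.mul_ne_zero m1 m2) n3).trans ?_
        refine Nat.mul_le_mul ((rad_mul_le _ _ m1 m2).trans (Nat.mul_le_mul r1 r2)) ?_
        exact rad_le (by omega)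
      calc rad D * (2 ^ k * 3 ^ l) ≤
          3 * v * (2 * u) * ((4 * x + 3) + 16 * (2 ^ k * u)) * (2 ^ k * 3 ^ l) :=
            Nat.mul_le_mul_right _ r3
        _ = 6 * D := by
            rw [e1]
            ring
    have hK00 : 0 < K0 := by linarith
    refine crit2 (X := X) (N := K0 * (rad D : ℝ)) (Q := 2 ^ k * 3 ^ l / K0) hκ
      (by exact_mod_cast hDpos) (by positivity) hX ?_ (by rw [lt_div_iff₀ hK00]; linarith) ?_
    · have h4 := disc_le b4 b6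
      rw [h2] at h4
      have h5 : (D : ℝ) ^ 2 ≤ (X ^ 3) ^ 2 := by
        calc (D : ℝ) ^ 2 ≤ X ^ 6 := h4
          _ = (X ^ 3) ^ 2 := by ring
      exact (pow_le_pow_iff_left₀ (by positivity) (by positivity) (by norm_num)).1 h5
    · have h7 : (rad D : ℝ) * (2 ^ k * 3 ^ l) ≤ 6 * (D : ℝ) := by exact_mod_cast h3
      calc K0 * (rad D : ℝ) * (2 ^ k * 3 ^ l / K0) = (rad D : ℝ) * (2 ^ k * 3 ^ l) := by
            field_simp
        _ ≤ _ := h7

/-- **Lower bound** for `2 ≤ κ < 3` -/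
theorem lower2K (K0 : ℝ) (hK0 : 1 ≤ K0) (κ ε : ℝ) (hκ : 2 ≤ κ) (hκ3 : κ < 3) (hε : 0 < ε) :
    ∃ X₀ : ℝ, ∀ X : ℝ, X₀ ≤ X → X ^ (6 / κ - 1 - ε) ≤ ((ExK K0 κ X).ncard : ℝ) := by
  classical
  have hκ0 : 0 < κ := by linarith
  have hs0 : 0 ≤ 3 - 6 / κ := by
    have : 6 / κ ≤ 3 := by
      rw [div_le_iff₀ hκ0]
      linarith
    linarith
  have hα : 0 < 6 / κ - 2 := by
    have : 2 < 6 / κ := by
      rw [lt_div_iff₀ hκ0]
      linarith
    linarith
  set α := 6 / κ - 2 with hαd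
  set η := min (ε / 2) (1 / 4) with hη
  have hη0 : 0 < η := lt_min (by positivity) (by norm_num)
  have hη1 : η ≤ ε / 2 := min_le_left _ _
  have hη2 : η ≤ 1 / 4 := min_le_right _ _
  obtain ⟨c, C, hc, hC, hsieve⟩ := sieve_ge η hη0
  obtain ⟨X1, hX1⟩ := final_num (1 / (1536 * K0)) (1 / 16) c C α 1 ε η (by positivity)
    (by norm_num) hc hη0
    (by linarith) (by linarith)
  obtain ⟨X2, hX2⟩ := Filter.eventually_atTop.1
    ((tendsto_rpow_atTop hα).eventually_ge_atTop (1536 * K0 : ℝ))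
  refine ⟨max (max X1 X2) 30, fun X hX => ?_⟩
  have hXa : X1 ≤ X := (le_max_left _ _).trans ((le_max_left _ _).trans hX)
  have hXb : X2 ≤ X := (le_max_right _ _).trans ((le_max_left _ _).trans hX)
  have hXc : (30 : ℝ) ≤ X := (le_max_right _ _).trans hX
  have hX0 : 0 < X := by linarith
  have hX1' : (1 : ℝ) ≤ X := by linarith
  have hY1 : 1 ≤ X ^ (3 - 6 / κ) := Real.one_le_rpow hX1' hs0
  obtain ⟨k, hk1, hk2⟩ := exists_pow 2 (by norm_num) (6 * (K0 * X ^ (3 - 6 / κ))) (by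
    have := one_le_mul_of_one_le_of_one_le hK0 hY1
    linarith)
  push_cast at hk1 hk2
  set I := ⌊X / (64 * 2 ^ k)⌋₊ with hI
  set K := ⌊X / 8⌋₊ with hK
  have hI1 : (I : ℝ) ≤ X / (64 * 2 ^ k) := Nat.floor_le (by positivity)
  have hI2 : X / (64 * 2 ^ k) - 1 < I := Nat.sub_one_lt_floor _
  have hK1 : (K : ℝ) ≤ X / 8 := Nat.floor_le (by positivity)
  have hK2 : X / 8 - 1 < K := Nat.sub_one_lt_floor _
  have hI1' : 64 * 2 ^ k * (I : ℝ) ≤ X := by
    rw [le_div_iff₀ (by positivity)] at hI1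
    linarith
  have h2k : (1 : ℝ) ≤ 2 ^ k := one_le_pow₀ (by norm_num)
  -- the injection
  set S := (Finset.Icc 1 I).sigma fun i => (Finset.range K).filter fun x : ℕ =>
      IsCoprime ((3 : ℤ) + 4 * x) ((2 * i - 1 : ℕ) : ℤ) with hS
  have hcard : S.card ≤ (ExK K0 κ X).ncard := by
    rw [← Set.ncard_coe_finset]
    refine Set.ncard_le_ncard_of_injOn (fun z : Σ _ : ℕ, ℕ =>
      ((WF z.2 (2 ^ k * (2 * z.1 - 1 : ℕ))).c₄, (WF z.2 (2 ^ k * (2 * z.1 - 1 : ℕ))).c₆)) ?_ ?_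
      (ExK_finite hK0 (by linarith : 0 ≤ κ) X)
    · rintro ⟨i, x⟩ hx
      rw [Finset.mem_coe, hS, Finset.mem_sigma, Finset.mem_filter, Finset.mem_Icc,
        Finset.mem_range] at hx
      obtain ⟨⟨hi1, hi2⟩, hxK, hg⟩ := hx
      simp only at hi1 hi2 hxK hg ⊢
      have hcop : IsCoprime (4 * (x : ℤ) + 3) (16 * (2 ^ k * ((2 * i - 1 : ℕ) : ℤ))) := by
        have e2 : IsCoprime (4 * (x : ℤ) + 3) 2 := ⟨1, -(2 * x + 1), by ring⟩
        have e3 : IsCoprime (4 * (x : ℤ) + 3) ((2 * i - 1 : ℕ) : ℤ) := by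
          rw [add_comm]
          exact hg
        refine IsCoprime.mul_right ?_ (IsCoprime.mul_right e2.pow_right e3)
        have : (16 : ℤ) = 2 ^ 4 := by norm_num
        rw [this]
        exact e2.pow_right
      have hi2' : (i : ℝ) ≤ I := by exact_mod_cast hi2
      have hx' : (x : ℝ) + 1 ≤ K := by exact_mod_cast hxK
      refine frey_memK K0 hK0 κ X hκ hX1' k 0 (2 * i - 1) (4 * x + 3) x (by omega) (by omega) (by ring) hcop
        (by linarith) ?_ (by rw [pow_zero, mul_one]; exact hk1)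
      have e4 : ((2 * i - 1 : ℕ) : ℝ) ≤ 2 * i := by
        have : 2 * i - 1 ≤ 2 * i := by omega
        exact_mod_cast this
      have e5 : (2 : ℝ) ^ k * ((2 * i - 1 : ℕ) : ℝ) ≤ 2 ^ k * (2 * I) := by
        gcongr
        linarith
      linarith
    · rintro ⟨i, x⟩ hx ⟨i', x'⟩ hx' hxx
      rw [Finset.mem_coe, hS, Finset.mem_sigma, Finset.mem_filter, Finset.mem_Icc,
        Finset.mem_range] at hx hx'
      simp only [Prod.mk.injEq] at hxx hx hx'
      have p1 : (0 : ℤ) < 2 ^ k * ((2 * i - 1 : ℕ) : ℤ) := by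
        have : 0 < 2 * i - 1 := by omega
        positivity
      have p2 : (0 : ℤ) < 2 ^ k * ((2 * i' - 1 : ℕ) : ℤ) := by
        have : 0 < 2 * i' - 1 := by omega
        positivity
      obtain ⟨q1, q2⟩ := frey_inj (by positivity) p1 (by positivity) p2 hxx.1 hxx.2
      have q3 : ((2 * i - 1 : ℕ) : ℤ) = ((2 * i' - 1 : ℕ) : ℤ) := mul_left_cancel₀ (by positivity) q2
      have q4 : 2 * i - 1 = 2 * i' - 1 := by exact_mod_cast q3
      have q5 : i = i' := by omega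
      have q6 : x = x' := by exact_mod_cast q1
      rw [q5, q6]
  have hsum : (I : ℝ) * (c * K * X ^ (-η) - C * X ^ η) ≤ ((ExK K0 κ X).ncard : ℝ) := by
    calc (I : ℝ) * (c * K * X ^ (-η) - C * X ^ η) =
        ∑ _i ∈ Finset.Icc 1 I, (c * K * X ^ (-η) - C * X ^ η) := by
          rw [Finset.sum_const, Nat.card_Icc, Nat.add_sub_cancel, nsmul_eq_mul]
      _ ≤ ∑ i ∈ Finset.Icc 1 I, (((Finset.range K).filter fun x : ℕ =>
          IsCoprime ((3 : ℤ) + 4 * x) ((2 * i - 1 : ℕ) : ℤ)).card : ℝ) := by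
          refine Finset.sum_le_sum fun i hi => ?_
          rw [Finset.mem_Icc] at hi
          refine hsieve X (2 * i - 1) K 3 4 hX1' (by omega) ?_ ?_
          · have e1 : ((2 * i - 1 : ℕ) : ℝ) ≤ 2 * I := by
              have : 2 * i - 1 ≤ 2 * I := by omega
              exact_mod_cast this
            have e2 : (64 : ℝ) * I ≤ 64 * 2 ^ k * I := by
              have : (0 : ℝ) ≤ I := Nat.cast_nonneg I
              nlinarith
            nlinarith
          · have e1 : ((2 * i - 1 : ℕ) : ℤ) = 2 * i - 1 := by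
              rw [Nat.cast_sub (by omega)]
              push_cast
              ring
            rw [e1]
            have e2 : IsCoprime (2 : ℤ) (2 * i - 1) := ⟨i, -1, by ring⟩
            have : (4 : ℤ) = 2 ^ 2 := by norm_num
            rw [this]
            exact e2.pow_left
      _ ≤ _ := by
          rw [hS, Finset.card_sigma] at hcard
          exact_mod_cast hcard
  refine le_trans ?_ hsum
  have e1 : 6 / κ - 1 - ε = α + 1 - ε := by rw [hαd]; ring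
  rw [e1]
  refine hX1 X hXa _ _ ?_ ?_
  · have h3 := hX2 X hXb
    have hK00 : 0 < K0 := by linarith
    have e2 : X ^ α / (768 * K0) ≤ X / (64 * 2 ^ k) := by
      rw [le_div_iff₀ (by positivity)]
      have e3 : X = X ^ α * X ^ (3 - 6 / κ) := by
        rw [← Real.rpow_add hX0, hαd]
        have : 6 / κ - 2 + (3 - 6 / κ) = 1 := by ring
        rw [this, Real.rpow_one]
      have p1 : 0 < X ^ α := Real.rpow_pos_of_pos hX0 _
      calc X ^ α / (768 * K0) * (64 * 2 ^ k) = X ^ α * 2 ^ k / (12 * K0) := by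
            field_simp
            ring
        _ ≤ X ^ α * (2 * (6 * (K0 * X ^ (3 - 6 / κ)))) / (12 * K0) := by gcongr
        _ = X ^ α * X ^ (3 - 6 / κ) := by
            field_simp
            ring
        _ = X := e3.symm
    have e4 : X ^ α / (768 * K0) = 2 * (1 / (1536 * K0) * X ^ α) := by
      field_simp
      ring
    have e5 : 1 ≤ 1 / (1536 * K0) * X ^ α := by
      rw [one_div, inv_mul_eq_div, le_div_iff₀ (by positivity)]
      linarith
    linarith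
  · rw [Real.rpow_one]
    linarith

/-- **Lower bound** for `3 ≤ κ < 6` -/
theorem lower3K (K0 : ℝ) (hK0 : 1 ≤ K0) (κ ε : ℝ) (hκ : 3 ≤ κ) (hκ6 : κ < 6) (hε : 0 < ε) :
    ∃ X₀ : ℝ, ∀ X : ℝ, X₀ ≤ X → X ^ (6 / κ - 1 - ε) ≤ ((ExK K0 κ X).ncard : ℝ) := by
  classical
  have hκ0 : 0 < κ := by linarith
  have hs0 : 0 ≤ 2 - 6 / κ := by
    have : 6 / κ ≤ 2 := by
      rw [div_le_iff₀ hκ0]
      linarith
    linarith
  have hα : 0 < 6 / κ - 1 := by
    have : 1 < 6 / κ := by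
      rw [lt_div_iff₀ hκ0]
      linarith
    linarith
  set α := 6 / κ - 1 with hαd
  obtain ⟨X2, hX2⟩ := Filter.eventually_atTop.1
    (((tendsto_rpow_atTop hα).eventually_ge_atTop (18432 * K0 : ℝ)).and
      ((tendsto_rpow_atTop hε).eventually_ge_atTop (18432 * K0 : ℝ)))
  refine ⟨max X2 128, fun X hX => ?_⟩
  have hXb : X2 ≤ X := (le_max_left _ _).trans hX
  have hXc : (128 : ℝ) ≤ X := (le_max_right _ _).trans hX
  have hX0 : 0 < X := by linarith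
  have hX1' : (1 : ℝ) ≤ X := by linarith
  obtain ⟨k, hk1, hk2⟩ := exists_pow 2 (by norm_num) (X / 64) (by linarith)
  push_cast at hk1 hk2
  have hY1 : 1 ≤ X ^ (2 - 6 / κ) := Real.one_le_rpow hX1' hs0
  obtain ⟨l, hl1, hl2⟩ := exists_pow 3 (by norm_num) (384 * (K0 * X ^ (2 - 6 / κ))) (by
    have := one_le_mul_of_one_le_of_one_le hK0 hY1
    linarith)
  push_cast at hl1 hl2
  set J := ⌊X / (8 * 3 ^ l)⌋₊ with hJ
  have hJ1 : (J : ℝ) ≤ X / (8 * 3 ^ l) := Nat.floor_le (by positivity)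
  have hJ2 : X / (8 * 3 ^ l) - 1 < J := Nat.sub_one_lt_floor _
  have hJ1' : 8 * 3 ^ l * (J : ℝ) ≤ X := by
    rw [le_div_iff₀ (by positivity)] at hJ1
    linarith
  -- `3 ^ l * c ≡ 3` modulo 4
  obtain ⟨c, hc1, hc3, hc4⟩ : ∃ c : ℕ, 1 ≤ c ∧ c ≤ 3 ∧ 3 ^ l * c % 4 = 3 := by
    have h9 : (3 ^ l) % 4 = 1 ∨ (3 ^ l) % 4 = 3 := by
      clear_value J
      clear hl1 hl2 hJ hJ1 hJ2 hJ1'
      induction l with
      | zero => left; rfl
      | succ l ih =>
        rw [pow_succ]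
        omega
    rcases h9 with h | h
    · exact ⟨3, by norm_num, le_rfl, by omega⟩
    · exact ⟨1, le_rfl, by norm_num, by omega⟩
  have hcard : (Finset.range J).card ≤ (ExK K0 κ X).ncard := by
    rw [← Set.ncard_coe_finset]
    -- `A = 3 ^ l (4 i + c)`
    have hA : ∀ i : ℕ, 3 ^ l * (4 * i + c) = 4 * ((3 ^ l * (4 * i + c) - 3) / 4) + 3 := by
      intro i
      have e1 : 3 ^ l * (4 * i + c) = 4 * (3 ^ l * i) + 3 ^ l * c := by ring
      rw [e1]
      omega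
    refine Set.ncard_le_ncard_of_injOn (fun i : ℕ =>
      ((WF ((3 ^ l * (4 * i + c) - 3) / 4 : ℕ) (2 ^ k * (1 : ℕ))).c₄,
        (WF ((3 ^ l * (4 * i + c) - 3) / 4 : ℕ) (2 ^ k * (1 : ℕ))).c₆)) ?_ ?_ (ExK_finite hK0 (by linarith : 0 ≤ κ) X)
    · intro i hi
      rw [Finset.mem_coe, Finset.mem_range] at hi
      set x := (3 ^ l * (4 * i + c) - 3) / 4 with hx
      have hAx : 3 ^ l * (4 * i + c) = 4 * x + 3 := hA i
      have hcop : IsCoprime (4 * (x : ℤ) + 3) (16 * (2 ^ k * ((1 : ℕ) : ℤ))) := by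
        have e2 : IsCoprime (4 * (x : ℤ) + 3) 2 := ⟨1, -(2 * x + 1), by ring⟩
        rw [Nat.cast_one, mul_one]
        refine IsCoprime.mul_right ?_ e2.pow_right
        have : (16 : ℤ) = 2 ^ 4 := by norm_num
        rw [this]
        exact e2.pow_right
      have hi' : (i : ℝ) + 1 ≤ J := by exact_mod_cast hi
      have hAr : (4 * (x : ℝ) + 3) = 3 ^ l * (4 * i + c) := by exact_mod_cast hAx.symm
      have hcr : (c : ℝ) ≤ 3 := by exact_mod_cast hc3
      refine frey_memK K0 hK0 κ X (by linarith) hX1' k l 1 (4 * i + c) x le_rfl (by omega) hAx hcop ?_ ?_ ?_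
      · rw [hAr]
        have e1 : (4 * (i : ℝ) + c) ≤ 4 * J := by linarith
        have e2 : (3 : ℝ) ^ l * (4 * i + c) ≤ 3 ^ l * (4 * J) := by gcongr
        linarith
      · rw [Nat.cast_one, mul_one]
        linarith
      · have e1 : X ^ (3 - 6 / κ) = X * X ^ (2 - 6 / κ) := by
          rw [← Real.rpow_one_add' hX0.le (by
            have : 0 < 1 + (2 - 6 / κ) := by linarith
            exact this.ne')]
          congr 1
          ring
        rw [e1]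
        calc 6 * (K0 * (X * X ^ (2 - 6 / κ))) = X / 64 * (384 * (K0 * X ^ (2 - 6 / κ))) := by ring
          _ < 2 ^ k * 3 ^ l := by
            have : 0 < 384 * (K0 * X ^ (2 - 6 / κ)) := by positivity
            gcongr
    · intro i _ i' _ hii
      simp only [Prod.mk.injEq] at hii
      have p : (0 : ℤ) < 2 ^ k * ((1 : ℕ) : ℤ) := by positivity
      obtain ⟨q1, -⟩ := frey_inj (by positivity) p (by positivity) p hii.1 hii.2
      have q2 : (3 ^ l * (4 * i + c) - 3) / 4 = (3 ^ l * (4 * i' + c) - 3) / 4 := by exact_mod_cast q1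
      have q3 := hA i
      rw [q2, ← hA i'] at q3
      have q4 : 4 * i + c = 4 * i' + c := Nat.eq_of_mul_eq_mul_left (by positivity) q3
      omega
  rw [Finset.card_range] at hcard
  have h1 : (J : ℝ) ≤ ((ExK K0 κ X).ncard : ℝ) := by exact_mod_cast hcard
  refine le_trans ?_ h1
  obtain ⟨h2, h3⟩ := hX2 X hXb
  have p1 : 0 < X ^ α := Real.rpow_pos_of_pos hX0 _
  have hK00 : 0 < K0 := by linarith
  have e2 : X ^ α / (9216 * K0) ≤ X / (8 * 3 ^ l) := by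
    rw [le_div_iff₀ (by positivity)]
    have e3 : X = X ^ α * X ^ (2 - 6 / κ) := by
      rw [← Real.rpow_add hX0, hαd]
      have : 6 / κ - 1 + (2 - 6 / κ) = 1 := by ring
      rw [this, Real.rpow_one]
    calc X ^ α / (9216 * K0) * (8 * 3 ^ l) = X ^ α * 3 ^ l / (1152 * K0) := by
          field_simp
          ring
      _ ≤ X ^ α * (3 * (384 * (K0 * X ^ (2 - 6 / κ)))) / (1152 * K0) := by gcongr
      _ = X ^ α * X ^ (2 - 6 / κ) := by
          field_simp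
          ring
      _ = X := e3.symm
  have e4 : X ^ (α - ε) ≤ X ^ α / (18432 * K0) := by
    rw [Real.rpow_sub hX0]
    gcongr
  have e5 : X ^ α / (9216 * K0) = 2 * (X ^ α / (18432 * K0)) := by
    field_simp
    ring
  have e6 : 1 ≤ X ^ α / (18432 * K0) := by
    rw [le_div_iff₀ (by positivity)]
    linarith
  linarith

/-- **Lower bound** for all `1 ≤ κ < 6` -/
theorem lower_allK (K0 : ℝ) (hK0 : 1 ≤ K0) (κ ε : ℝ) (hκ : 1 ≤ κ) (hκ6 : κ < 6) (hε : 0 < ε) :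
    ∃ X₀ : ℝ, ∀ X : ℝ, X₀ ≤ X → X ^ (6 / κ - 1 - ε) ≤ ((ExK K0 κ X).ncard : ℝ) := by
  rcases lt_or_ge κ 2 with h | h
  · exact lower1K K0 hK0 κ ε hκ h hε
  · rcases lt_or_ge κ 3 with h' | h'
    · exact lower2K K0 hK0 κ ε h h' hε
    · exact lower3K K0 hK0 κ ε h' hκ6 hε

end Pool.Agent.X12.Szp
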