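import Pool.Agent.X12.Szp18
import Pool.Agent.X12.Szp19

/-!
# All elliptic curves over `ℚ`: the discriminant against the conductor
-/

set_option autoImplicit false

namespace Pool.Agent.X12.Szp

open Finset Filter Topology Pool.Agent.H328R2.ABC Pool.Agent.Y679.Fh

lemma minD_bounds {q : ℤ × ℤ} (hmin : IsMn q.1 q.2) :
    ((minD (Eq' q) : ℕ) : ℝ) ≤ 16 * |((Dsc q.1 q.2 : ℤ) : ℝ)| ∧
    |((Dsc q.1 q.2 : ℤ) : ℝ)| ≤ 136048896 * ((minD (Eq' q) : ℕ) : ℝ) := by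
  constructor
  · rw [← absD]
    exact_mod_cast minD_le q
  · rw [← absD]
    exact_mod_cast minD_ge hmin

/-- all curves with `c N ^ κ < D_min` -/
def SD (c κ : ℝ) : Set (ℤ × ℤ) :=
  {q | IsMn q.1 q.2 ∧ c * (Cnd q.1 q.2 : ℝ) ^ κ < ((minD (Eq' q) : ℕ) : ℝ)}

theorem SD_top (c κ : ℝ) (hc : 0 < c) (hκ : 0 < κ) : ∃ K : ℝ, 0 < K ∧ ∀ X : ℝ, 1 ≤ X →
    {q ∈ SD c κ | Box X q ∧ ¬ Box (X / 2) q} ⊆ TopE (K * X ^ (6 / κ)) X := by
  refine ⟨(496 / c) ^ (1 / κ), by positivity, fun X hX => ?_⟩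
  rintro q ⟨⟨hmin, hlt⟩, hbox, hnot⟩
  have hX0 : 0 < X := by linarith
  refine ⟨hmin.1, not_dvd_of_isMn hmin, hbox, ?_, ?_⟩
  · by_contra hcon
    push Not at hcon
    apply hnot
    constructor
    · have : (X / 2) ^ 2 = X ^ 2 / 4 := by ring
      rw [this]
      exact hcon.1.le
    · have : (X / 2) ^ 3 = X ^ 3 / 8 := by ring
      rw [this]
      exact hcon.2.le
  · have h1 := (minD_bounds hmin).1
    have h2 := Dsc_le hbox.1 hbox.2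
    have hr := Cnd_pos' q
    have h3 : (Cnd q.1 q.2 : ℝ) ^ κ ≤ 496 / c * X ^ 6 := by
      rw [div_mul_eq_mul_div, le_div_iff₀ hc]
      linarith
    have h4 : ((Cnd q.1 q.2 : ℝ) ^ κ) ^ (1 / κ) = Cnd q.1 q.2 := by
      rw [← Real.rpow_mul hr.le, mul_one_div_cancel hκ.ne', Real.rpow_one]
    rw [← h4]
    calc ((Cnd q.1 q.2 : ℝ) ^ κ) ^ (1 / κ) ≤ (496 / c * X ^ 6) ^ (1 / κ) :=
          Real.rpow_le_rpow (by positivity) h3 (by positivity)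
      _ = (496 / c) ^ (1 / κ) * X ^ (6 / κ) := by
          rw [Real.mul_rpow (by positivity) (by positivity), ← Real.rpow_natCast X 6,
            ← Real.rpow_mul hX0.le]
          congr 2
          push_cast
          ring

/-- **Upper bound** for the violators in a box -/
theorem SD_box (c κ ε : ℝ) (hc : 0 < c) (hκ : 0 < κ) (hε : 0 < ε) : ∃ K : ℝ, 0 < K ∧
    ∀ X : ℝ, 1 ≤ X →
    (({q ∈ SD c κ | Box X q}.ncard : ℕ) : ℝ) ≤ K * X ^ (max (6 / κ - 1) 4 + ε) := by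
  obtain ⟨K, hK, h1⟩ := SD_top c κ hc hκ
  obtain ⟨C, hC, h2⟩ := topE_le ε hε
  set g := max (6 / κ - 1) 4 with hg
  have hg4 : (4 : ℝ) ≤ g := le_max_right _ _
  refine dyadic (SD c κ) (C * (K + 1)) (g + ε) (by positivity) (by linarith) fun X hX => ?_
  have hX0 : 0 < X := by linarith
  have e1 : (({q ∈ SD c κ | Box X q ∧ ¬ Box (X / 2) q}.ncard : ℕ) : ℝ) ≤
      ((TopE (K * X ^ (6 / κ)) X).ncard : ℝ) := by
    exact_mod_cast Set.ncard_le_ncard (h1 X hX) (TopE_finite _ _)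
  refine e1.trans ((h2 _ X (by positivity) hX).trans ?_)
  have e2 : K * X ^ (6 / κ) / X = K * X ^ (6 / κ - 1) := by
    rw [Real.rpow_sub_one hX0.ne']
    ring
  have e3 : X ^ (6 / κ - 1) ≤ X ^ g :=
    Real.rpow_le_rpow_of_exponent_le hX (le_max_left _ _)
  have e4 : X ^ (4 : ℝ) ≤ X ^ g := Real.rpow_le_rpow_of_exponent_le hX hg4
  rw [e2, Real.rpow_add hX0]
  have e5 : 0 < X ^ ε := Real.rpow_pos_of_pos hX0 _
  calc C * X ^ ε * (K * X ^ (6 / κ - 1) + X ^ (4 : ℝ)) ≤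
      C * X ^ ε * (K * X ^ g + X ^ g) := by gcongr
    _ = C * (K + 1) * (X ^ g * X ^ ε) := by ring

/-- the short model of a semistable curve in the box -/
lemma model_box {W : WeierstrassCurve ℤ} {q : ℤ × ℤ} {X : ℝ} (h : Model W q)
    (h4 : |(W.c₄ : ℝ)| ≤ X ^ 2) (h6 : |(W.c₆ : ℝ)| ≤ X ^ 3) :
    4 * |(q.1 : ℝ)| ^ 3 ≤ 78732 * X ^ 6 ∧ 27 * (q.2 : ℝ) ^ 2 ≤ 78732 * X ^ 6 := by
  have e4 : |(W.c₄ : ℝ)| ^ 3 ≤ X ^ 6 := by
    calc |(W.c₄ : ℝ)| ^ 3 ≤ (X ^ 2) ^ 3 := by gcongr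
      _ = X ^ 6 := by ring
  have e6 : (W.c₆ : ℝ) ^ 2 ≤ X ^ 6 := by
    rw [← sq_abs]
    calc |(W.c₆ : ℝ)| ^ 2 ≤ (X ^ 3) ^ 2 := by gcongr
      _ = X ^ 6 := by ring
  have hX6 : 0 ≤ X ^ 6 := (by positivity : 0 ≤ (W.c₆ : ℝ) ^ 2).trans e6
  rcases h with ⟨h1, -⟩ | ⟨h1, h2, -⟩
  · rw [h1]
    simp only
    push_cast
    rw [abs_mul, abs_of_pos (by norm_num : (0 : ℝ) < 27)]
    constructor
    · have : 4 * (27 * |(W.c₄ : ℝ)|) ^ 3 = 78732 * |(W.c₄ : ℝ)| ^ 3 := by ring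
      rw [this]
      linarith
    · have : 27 * (54 * (W.c₆ : ℝ)) ^ 2 = 78732 * (W.c₆ : ℝ) ^ 2 := by ring
      rw [this]
      linarith
  · have h1' : (W.c₄ : ℝ) = 3 * q.1 := by exact_mod_cast h1
    have h2' : 2 * (W.c₆ : ℝ) = 27 * q.2 := by exact_mod_cast h2
    constructor
    · rw [h1', abs_mul, abs_of_pos (by norm_num : (0 : ℝ) < 3)] at e4
      have : 0 ≤ |(q.1 : ℝ)| ^ 3 := by positivity
      have e5 : (3 * |(q.1 : ℝ)|) ^ 3 = 27 * |(q.1 : ℝ)| ^ 3 := by ring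
      rw [e5] at e4
      linarith
    · have e5 : 729 * (q.2 : ℝ) ^ 2 = 4 * (W.c₆ : ℝ) ^ 2 := by
        have : (2 * (W.c₆ : ℝ)) ^ 2 = (27 * (q.2 : ℝ)) ^ 2 := by rw [h2']
        linarith
      have : 0 ≤ (q.2 : ℝ) ^ 2 := by positivity
      linarith

/-- the violators of height at most `78732 X ^ 6` -/
def BD (c κ X : ℝ) : Set (ℤ × ℤ) :=
  {q ∈ SD c κ | 4 * |(q.1 : ℝ)| ^ 3 ≤ 78732 * X ^ 6 ∧ 27 * (q.2 : ℝ) ^ 2 ≤ 78732 * X ^ 6}

theorem BD_finite (c κ : ℝ) {X : ℝ} (hX : 0 ≤ X) : (BD c κ X).Finite := by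
  refine (Box_finite (7 * X)).subset ?_
  rintro q ⟨-, h1, h2⟩
  have hX6 : 0 ≤ X ^ 6 := by positivity
  constructor
  · refine (pow_le_pow_iff_left₀ (abs_nonneg _) (by positivity) (by norm_num : 3 ≠ 0)).1 ?_
    calc |(q.1 : ℝ)| ^ 3 ≤ 117649 * X ^ 6 := by linarith
      _ = ((7 * X) ^ 2) ^ 3 := by ring
  · refine (pow_le_pow_iff_left₀ (abs_nonneg _) (by positivity) (by norm_num : 2 ≠ 0)).1 ?_
    rw [sq_abs]
    calc (q.2 : ℝ) ^ 2 ≤ 117649 * X ^ 6 := by linarith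
      _ = ((7 * X) ^ 3) ^ 2 := by ring

/-- the transfer of the lower bound -/
theorem ExK_le (c κ : ℝ) (hc : 0 < c) (hκ : 1 ≤ κ) : ∃ K0 : ℝ, 1 ≤ K0 ∧ ∀ X : ℝ, 0 ≤ X →
    ((ExK K0 κ X).ncard : ℝ) ≤ 2 * ((BD c κ X).ncard : ℝ) := by
  classical
  have hκ0 : 0 < κ := by linarith
  set K0 := max 1 ((136048896 * c) ^ (1 / κ)) with hK0
  refine ⟨K0, le_max_left _ _, fun X hX => ?_⟩
  have hK0' : 136048896 * c ≤ K0 ^ κ := by
    have h1 : ((136048896 * c) ^ (1 / κ)) ^ κ = 136048896 * c := by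
      rw [← Real.rpow_mul (by positivity), one_div_mul_cancel hκ0.ne', Real.rpow_one]
    rw [← h1]
    exact Real.rpow_le_rpow (by positivity) (le_max_right _ _) hκ0.le
  have hfin := BD_finite c κ hX
  have hsub : ExK K0 κ X ⊆
      (fun q : ℤ × ℤ => (q.1 / 27, q.2 / 54)) '' (BD c κ X) ∪
      (fun q : ℤ × ℤ => (3 * q.1, 27 * q.2 / 2)) '' (BD c κ X) := by
    rintro q ⟨W, h0, hcop, rfl, h1, h2, h3⟩
    obtain ⟨q', hq'⟩ := exists_model h0 hcop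
    have hmem : q' ∈ BD c κ X := by
      refine ⟨⟨model_min hq', ?_⟩, model_box hq' h1 h2⟩
      have h4 := (minD_bounds (model_min hq')).2
      have h5 : |(W.Δ : ℝ)| ≤ |((Dsc q'.1 q'.2 : ℤ) : ℝ)| := by
        have := abs_nonneg (W.Δ : ℝ)
        rcases model_disc hq' with h4 | h4
        · rw [h4]
          push_cast
          rw [abs_mul, abs_of_pos (by norm_num : (0 : ℝ) < 136048896)]
          linarith
        · rw [h4]
          push_cast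
          rw [abs_mul, abs_of_pos (by norm_num : (0 : ℝ) < 256)]
          linarith
      have h6 : (Cnd q'.1 q'.2 : ℝ) ≤ (rad W.Δ.natAbs : ℝ) := by
        exact_mod_cast model_cnd h0 hcop hq'
      have hr : (0 : ℝ) < rad W.Δ.natAbs := by exact_mod_cast rad_pos _
      have h7 : (Cnd q'.1 q'.2 : ℝ) ^ κ ≤ (rad W.Δ.natAbs : ℝ) ^ κ :=
        Real.rpow_le_rpow (Cnd_pos' q').le h6 hκ0.le
      have hK00 : 0 < K0 := lt_of_lt_of_le one_pos (le_max_left _ _)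
      rw [Real.mul_rpow hK00.le hr.le] at h3
      have h8 : 136048896 * c * (Cnd q'.1 q'.2 : ℝ) ^ κ ≤ K0 ^ κ * (rad W.Δ.natAbs : ℝ) ^ κ := by
        have : 0 ≤ (Cnd q'.1 q'.2 : ℝ) ^ κ := Real.rpow_nonneg (Cnd_pos' q').le _
        gcongr
      linarith
    rcases hq' with ⟨h4, -⟩ | ⟨h4, h5, -⟩
    · left
      refine ⟨q', hmem, ?_⟩
      rw [h4]
      simp only
      rw [Int.mul_ediv_cancel_left _ (by norm_num), Int.mul_ediv_cancel_left _ (by norm_num)]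
    · right
      refine ⟨q', hmem, ?_⟩
      simp only
      rw [← h5, Int.mul_ediv_cancel_left _ (by norm_num), h4]
  have h1 := Set.ncard_le_ncard hsub ((hfin.image _).union (hfin.image _))
  have h2 := h1.trans (Set.ncard_union_le _ _)
  have h3 := Set.ncard_image_le (f := fun q : ℤ × ℤ => (q.1 / 27, q.2 / 54)) hfin
  have h4 := Set.ncard_image_le (f := fun q : ℤ × ℤ => (3 * q.1, 27 * q.2 / 2)) hfin
  have h5 : (ExK K0 κ X).ncard ≤ 2 * (BD c κ X).ncard := by omega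
  exact_mod_cast h5

/-- the violators of naive height at most `H` -/
def HD (c κ H : ℝ) : Set (ℤ × ℤ) :=
  {q | IsMn q.1 q.2 ∧ 4 * |(q.1 : ℝ)| ^ 3 ≤ H ∧ 27 * (q.2 : ℝ) ^ 2 ≤ H ∧
    c * (Cnd q.1 q.2 : ℝ) ^ κ < ((minD (Eq' q) : ℕ) : ℝ)}

lemma sixth {H : ℝ} (hH : 0 ≤ H) : (H ^ (1 / 6 : ℝ)) ^ 6 = H := by
  rw [← Real.rpow_natCast, ← Real.rpow_mul hH]
  norm_num

theorem HD_sub (c κ : ℝ) {H : ℝ} (hH : 0 ≤ H) :
    HD c κ H ⊆ {q ∈ SD c κ | Box (H ^ (1 / 6 : ℝ)) q} := by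
  rintro q ⟨h1, h2, h3, h4⟩
  have hX : 0 ≤ H ^ (1 / 6 : ℝ) := Real.rpow_nonneg hH _
  refine ⟨⟨h1, h4⟩, ?_, ?_⟩
  · refine (pow_le_pow_iff_left₀ (abs_nonneg _) (by positivity) (by norm_num : 3 ≠ 0)).1 ?_
    calc |(q.1 : ℝ)| ^ 3 ≤ H := by
          have : 0 ≤ |(q.1 : ℝ)| ^ 3 := by positivity
          linarith
      _ = ((H ^ (1 / 6 : ℝ)) ^ 2) ^ 3 := by rw [← pow_mul]; exact (sixth hH).symm
  · refine (pow_le_pow_iff_left₀ (abs_nonneg _) (by positivity) (by norm_num : 2 ≠ 0)).1 ?_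
    rw [sq_abs]
    calc (q.2 : ℝ) ^ 2 ≤ H := by
          have : 0 ≤ (q.2 : ℝ) ^ 2 := by positivity
          linarith
      _ = ((H ^ (1 / 6 : ℝ)) ^ 3) ^ 2 := by rw [← pow_mul]; exact (sixth hH).symm

theorem HD_finite (c κ H : ℝ) : (HD c κ H).Finite := by
  rcases lt_or_ge H 0 with h | h
  · have : HD c κ H = ∅ := by
      rw [Set.eq_empty_iff_forall_notMem]
      rintro q ⟨-, h2, -, -⟩
      have : 0 ≤ |(q.1 : ℝ)| ^ 3 := by positivity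
      linarith
    rw [this]
    exact Set.finite_empty
  · exact ((Box_finite _).subset fun q hq => hq.2).subset (HD_sub c κ h)

/-- **Upper bound** -/
theorem HD_upper (c κ ε : ℝ) (hc : 0 < c) (hκ : 0 < κ) (hε : 0 < ε) : ∃ K : ℝ, 0 < K ∧
    ∀ H : ℝ, 1 ≤ H → ((HD c κ H).ncard : ℝ) ≤ K * H ^ (max (1 / κ - 1 / 6) (2 / 3) + ε) := by
  obtain ⟨K, hK, h⟩ := SD_box c κ (6 * ε) hc hκ (by positivity)
  refine ⟨K, hK, fun H hH => ?_⟩
  have hH0 : 0 ≤ H := by linarith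
  have h1 := h (H ^ (1 / 6 : ℝ)) (Real.one_le_rpow hH (by norm_num))
  have h2 := Set.ncard_le_ncard (HD_sub c κ hH0) ((Box_finite _).subset fun q hq => hq.2)
  have h3 : ((HD c κ H).ncard : ℝ) ≤ K * (H ^ (1 / 6 : ℝ)) ^ (max (6 / κ - 1) 4 + 6 * ε) :=
    le_trans (by exact_mod_cast h2) h1
  refine h3.trans (le_of_eq ?_)
  rw [← Real.rpow_mul hH0]
  congr 2
  have h4 : max (6 / κ - 1) 4 = 6 * max (1 / κ - 1 / 6) (2 / 3) := by
    rw [mul_max_of_nonneg _ _ (by norm_num)]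
    congr 1
    · ring
    · norm_num
  rw [h4]
  ring

/-- **Lower bound** -/
theorem HD_lower (c κ ε : ℝ) (hc : 0 < c) (hκ : 1 ≤ κ) (hκ6 : κ < 6) (hε : 0 < ε) :
    ∃ H₀ : ℝ, ∀ H : ℝ, H₀ ≤ H → H ^ (1 / κ - 1 / 6 - ε) ≤ ((HD c κ H).ncard : ℝ) := by
  obtain ⟨K0, hK0, h1⟩ := ExK_le c κ hc hκ
  obtain ⟨X1, h2⟩ := lower_allK K0 hK0 κ (3 * ε) hκ hκ6 (by positivity)
  set a : ℝ := (1 / 78732) ^ (1 / 6 : ℝ) with ha
  have ha0 : 0 < a := by positivity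
  have ha6 : a ^ 6 = 1 / 78732 := sixth (by norm_num)
  set e := 6 / κ - 1 - 3 * ε with he
  have t0 : Tendsto (fun H : ℝ => H ^ (1 / 6 : ℝ)) atTop atTop :=
    tendsto_rpow_atTop (by norm_num)
  have t1 : Tendsto (fun H : ℝ => a * H ^ (1 / 6 : ℝ)) atTop atTop :=
    Tendsto.const_mul_atTop ha0 t0
  have t2 : Tendsto (fun H : ℝ => H ^ (ε / 2)) atTop atTop := tendsto_rpow_atTop (by positivity)
  have hfin : ∀ᶠ H : ℝ in atTop, H ^ (1 / κ - 1 / 6 - ε) ≤ ((HD c κ H).ncard : ℝ) := by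
    filter_upwards [t1.eventually_ge_atTop X1, t2.eventually_ge_atTop (2 / a ^ e),
      eventually_ge_atTop 1] with H h3 h4 h5
    have hH0 : 0 < H := by linarith
    have hX0 : 0 ≤ a * H ^ (1 / 6 : ℝ) := by positivity
    have h6 := h2 _ h3
    have h7 := h1 _ hX0
    have h8 : BD c κ (a * H ^ (1 / 6 : ℝ)) ⊆ HD c κ H := by
      rintro q ⟨⟨k1, k2⟩, k3, k4⟩
      have e1 : 78732 * (a * H ^ (1 / 6 : ℝ)) ^ 6 = H := by
        rw [mul_pow, ha6, sixth hH0.le]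
        ring
      rw [e1] at k3 k4
      exact ⟨k1, k3, k4, k2⟩
    have h9 : ((BD c κ (a * H ^ (1 / 6 : ℝ))).ncard : ℝ) ≤ ((HD c κ H).ncard : ℝ) := by
      exact_mod_cast Set.ncard_le_ncard h8 (HD_finite c κ H)
    have hae : 0 < a ^ e := Real.rpow_pos_of_pos ha0 _
    rw [Real.mul_rpow ha0.le (by positivity), ← Real.rpow_mul hH0.le] at h6
    rw [div_le_iff₀ hae] at h4
    have h10 : H ^ (1 / 6 * e) = H ^ (1 / κ - 1 / 6 - ε) * H ^ (ε / 2) := by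
      rw [← Real.rpow_add hH0, he]
      congr 1
      ring
    have h11 : 0 < H ^ (1 / κ - 1 / 6 - ε) := Real.rpow_pos_of_pos hH0 _
    have h12 : 2 * H ^ (1 / κ - 1 / 6 - ε) ≤ a ^ e * H ^ (1 / 6 * e) := by
      rw [h10]
      calc 2 * H ^ (1 / κ - 1 / 6 - ε) ≤ (H ^ (ε / 2) * a ^ e) * H ^ (1 / κ - 1 / 6 - ε) := by
            gcongr
        _ = _ := by ring
    linarith
  exact eventually_atTop.1 hfin

end Pool.Agent.X12.Szp
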