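import Pool.Agent.X12.Szp22

/-!
# All elliptic curves over `ℚ`: the discriminant against the bad primes, final bounds
-/

set_option autoImplicit false

namespace Pool.Agent.X12.Szp

open Finset Filter Topology Pool.Agent.H328R2.ABC

lemma Bad_pos' (q : ℤ × ℤ) : (0 : ℝ) < (Bad q.1 q.2 : ℝ) := by exact_mod_cast Bad_pos q.1 q.2

/-- all curves with `c M ^ κ < D_min` -/
def SM (c κ : ℝ) : Set (ℤ × ℤ) :=
  {q | IsMn q.1 q.2 ∧ c * (Bad q.1 q.2 : ℝ) ^ κ < ((minD (Eq' q) : ℕ) : ℝ)}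

theorem SM_top (c κ : ℝ) (hc : 0 < c) (hκ : 0 < κ) : ∃ K : ℝ, 0 < K ∧ ∀ X : ℝ, 1 ≤ X →
    {q ∈ SM c κ | Box X q ∧ ¬ Box (X / 2) q} ⊆ TopM (K * X ^ (6 / κ)) X := by
  refine ⟨(496 / c) ^ (1 / κ), by positivity, fun X hX => ?_⟩
  rintro q ⟨⟨hmin, hlt⟩, hbox, hnot⟩
  have hX0 : 0 < X := by linarith
  refine ⟨hmin.1, not_dvd_of_isMn hmin, hbox, ?_, ?_⟩
  · by_contra hcon
    push Not at hcon
    apply hnot
    constructor
    · have : (X / 2) ^ 2 = X ^ 2 / 4 := by ring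
      rw [this]
      exact hcon.1.le
    · have : (X / 2) ^ 3 = X ^ 3 / 8 := by ring
      rw [this]
      exact hcon.2.le
  · have h1 := (minD_bounds hmin).1
    have h2 := Dsc_le hbox.1 hbox.2
    have hr := Bad_pos' q
    have h3 : (Bad q.1 q.2 : ℝ) ^ κ ≤ 496 / c * X ^ 6 := by
      rw [div_mul_eq_mul_div, le_div_iff₀ hc]
      linarith
    have h4 : ((Bad q.1 q.2 : ℝ) ^ κ) ^ (1 / κ) = Bad q.1 q.2 := by
      rw [← Real.rpow_mul hr.le, mul_one_div_cancel hκ.ne', Real.rpow_one]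
    rw [← h4]
    calc ((Bad q.1 q.2 : ℝ) ^ κ) ^ (1 / κ) ≤ (496 / c * X ^ 6) ^ (1 / κ) :=
          Real.rpow_le_rpow (by positivity) h3 (by positivity)
      _ = (496 / c) ^ (1 / κ) * X ^ (6 / κ) := by
          rw [Real.mul_rpow (by positivity) (by positivity), ← Real.rpow_natCast X 6,
            ← Real.rpow_mul hX0.le]
          congr 2
          push_cast
          ring

/-- **Upper bound** for the violators in a box -/
theorem SM_box (c κ ε : ℝ) (hc : 0 < c) (hκ : 0 < κ) (hε : 0 < ε) : ∃ K : ℝ, 0 < K ∧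
    ∀ X : ℝ, 1 ≤ X →
    (({q ∈ SM c κ | Box X q}.ncard : ℕ) : ℝ) ≤ K * X ^ (max (1 / 5 + 24 / (5 * κ)) 4 + ε) := by
  obtain ⟨K, hK, h1⟩ := SM_top c κ hc hκ
  obtain ⟨C, hC, h2⟩ := topM_le ε hε
  set g := max (1 / 5 + 24 / (5 * κ)) 4 with hg
  have hg4 : (4 : ℝ) ≤ g := le_max_right _ _
  set K' := K ^ (4 / 5 : ℝ) with hK'
  have hK'0 : 0 < K' := by positivity
  refine dyadic (SM c κ) (C * (K' + 1)) (g + ε) (by positivity) (by linarith) fun X hX => ?_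
  have hX0 : 0 < X := by linarith
  have e1 : (({q ∈ SM c κ | Box X q ∧ ¬ Box (X / 2) q}.ncard : ℕ) : ℝ) ≤
      ((TopM (K * X ^ (6 / κ)) X).ncard : ℝ) := by
    exact_mod_cast Set.ncard_le_ncard (h1 X hX) (TopM_finite _ _)
  refine e1.trans ((h2 _ X (by positivity) hX).trans ?_)
  have e2 : X ^ 2 * YY X (K * X ^ (6 / κ)) = K' * X ^ (1 / 5 + 24 / (5 * κ)) := by
    unfold YY
    have k1 : X ^ 3 = X ^ (3 : ℝ) := by
      rw [show (3 : ℝ) = ((3 : ℕ) : ℝ) by norm_num, Real.rpow_natCast]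
    have k2 : X ^ 2 = X ^ (2 : ℝ) := by
      rw [show (2 : ℝ) = ((2 : ℕ) : ℝ) by norm_num, Real.rpow_natCast]
    have k3 : K * X ^ (6 / κ) / X ^ 3 = K * X ^ (6 / κ - 3) := by
      rw [k1, Real.rpow_sub hX0]
      ring
    rw [k3, Real.mul_rpow hK.le (by positivity), ← Real.rpow_mul hX0.le, k1, k2,
      ← Real.rpow_mul hX0.le, ← hK']
    calc X ^ (2 : ℝ) * (X ^ ((3 : ℝ) * (1 / 5)) * (K' * X ^ ((6 / κ - 3) * (4 / 5)))) =
        K' * (X ^ (2 : ℝ) * (X ^ ((3 : ℝ) * (1 / 5)) * X ^ ((6 / κ - 3) * (4 / 5)))) := by ring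
      _ = K' * X ^ (1 / 5 + 24 / (5 * κ)) := by
        rw [← Real.rpow_add hX0, ← Real.rpow_add hX0]
        congr 2
        field_simp
        ring
  have e3 : X ^ (1 / 5 + 24 / (5 * κ)) ≤ X ^ g :=
    Real.rpow_le_rpow_of_exponent_le hX (le_max_left _ _)
  have e4 : X ^ (4 : ℝ) ≤ X ^ g := Real.rpow_le_rpow_of_exponent_le hX hg4
  have e6 : X ^ (g + ε) = X ^ g * X ^ ε := Real.rpow_add hX0 _ _
  rw [e2, e6]
  have e5 : 0 < X ^ ε := Real.rpow_pos_of_pos hX0 _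
  have e7 : K' * X ^ (1 / 5 + 24 / (5 * κ)) + X ^ (4 : ℝ) ≤ K' * X ^ g + X ^ g :=
    add_le_add (mul_le_mul_of_nonneg_left e3 hK'0.le) e4
  calc C * X ^ ε * (K' * X ^ (1 / 5 + 24 / (5 * κ)) + X ^ (4 : ℝ)) ≤
      C * X ^ ε * (K' * X ^ g + X ^ g) := mul_le_mul_of_nonneg_left e7 (by positivity)
    _ = C * (K' + 1) * (X ^ g * X ^ ε) := by ring

/-- the violators of naive height at most `H` -/
def HM (c κ H : ℝ) : Set (ℤ × ℤ) :=
  {q | IsMn q.1 q.2 ∧ 4 * |(q.1 : ℝ)| ^ 3 ≤ H ∧ 27 * (q.2 : ℝ) ^ 2 ≤ H ∧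
    c * (Bad q.1 q.2 : ℝ) ^ κ < ((minD (Eq' q) : ℕ) : ℝ)}

theorem HM_sub (c κ : ℝ) {H : ℝ} (hH : 0 ≤ H) :
    HM c κ H ⊆ {q ∈ SM c κ | Box (H ^ (1 / 6 : ℝ)) q} := by
  rintro q ⟨h1, h2, h3, h4⟩
  have hX : 0 ≤ H ^ (1 / 6 : ℝ) := Real.rpow_nonneg hH _
  refine ⟨⟨h1, h4⟩, ?_, ?_⟩
  · refine (pow_le_pow_iff_left₀ (abs_nonneg _) (by positivity) (by norm_num : 3 ≠ 0)).1 ?_
    calc |(q.1 : ℝ)| ^ 3 ≤ H := by
          have : 0 ≤ |(q.1 : ℝ)| ^ 3 := by positivity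
          linarith
      _ = ((H ^ (1 / 6 : ℝ)) ^ 2) ^ 3 := by rw [← pow_mul]; exact (sixth hH).symm
  · refine (pow_le_pow_iff_left₀ (abs_nonneg _) (by positivity) (by norm_num : 2 ≠ 0)).1 ?_
    rw [sq_abs]
    calc (q.2 : ℝ) ^ 2 ≤ H := by
          have : 0 ≤ (q.2 : ℝ) ^ 2 := by positivity
          linarith
      _ = ((H ^ (1 / 6 : ℝ)) ^ 3) ^ 2 := by rw [← pow_mul]; exact (sixth hH).symm

theorem HM_finite (c κ H : ℝ) : (HM c κ H).Finite := by
  rcases lt_or_ge H 0 with h | h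
  · have : HM c κ H = ∅ := by
      rw [Set.eq_empty_iff_forall_notMem]
      rintro q ⟨-, h2, -, -⟩
      have : 0 ≤ |(q.1 : ℝ)| ^ 3 := by positivity
      linarith
    rw [this]
    exact Set.finite_empty
  · exact ((Box_finite _).subset fun q hq => hq.2).subset (HM_sub c κ h)

/-- **Upper bound** -/
theorem HM_upper (c κ ε : ℝ) (hc : 0 < c) (hκ : 0 < κ) (hε : 0 < ε) : ∃ K : ℝ, 0 < K ∧
    ∀ H : ℝ, 1 ≤ H →
      ((HM c κ H).ncard : ℝ) ≤ K * H ^ (max (1 / 30 + 4 / (5 * κ)) (2 / 3) + ε) := by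
  obtain ⟨K, hK, h⟩ := SM_box c κ (6 * ε) hc hκ (by positivity)
  refine ⟨K, hK, fun H hH => ?_⟩
  have hH0 : 0 ≤ H := by linarith
  have h1 := h (H ^ (1 / 6 : ℝ)) (Real.one_le_rpow hH (by norm_num))
  have h2 := Set.ncard_le_ncard (HM_sub c κ hH0) ((Box_finite _).subset fun q hq => hq.2)
  have h3 : ((HM c κ H).ncard : ℝ) ≤
      K * (H ^ (1 / 6 : ℝ)) ^ (max (1 / 5 + 24 / (5 * κ)) 4 + 6 * ε) :=
    le_trans (by exact_mod_cast h2) h1
  refine h3.trans (le_of_eq ?_)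
  rw [← Real.rpow_mul hH0]
  congr 2
  have h4 : max (1 / 5 + 24 / (5 * κ)) 4 = 6 * max (1 / 30 + 4 / (5 * κ)) (2 / 3) := by
    rw [mul_max_of_nonneg _ _ (by norm_num)]
    congr 1
    · ring
    · norm_num
  rw [h4]
  ring

/-! ### The lower bound: quadratic twists -/

/-- squarefree numbers have a positive density -/
lemma sqf_count (N : ℕ) : (N : ℝ) / 4 ≤ (((Finset.Icc 1 N).filter Squarefree).card : ℝ) := by
  have h1 : (Finset.Icc 1 N).filter (fun m => ¬ Squarefree m) ⊆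
      (Finset.Icc 2 N).biUnion fun k => (Finset.Icc 1 N).filter fun m => k ^ 2 ∣ m := by
    intro m hm
    rw [Finset.mem_filter, Finset.mem_Icc] at hm
    obtain ⟨⟨h1, h2⟩, h3⟩ := hm
    rw [Nat.squarefree_iff_prime_squarefree] at h3
    push Not at h3
    obtain ⟨p, hp, hpm⟩ := h3
    rw [Finset.mem_biUnion]
    have hpm' : p ^ 2 ∣ m := by rw [pow_two]; exact hpm
    refine ⟨p, Finset.mem_Icc.2 ⟨hp.two_le, ?_⟩, Finset.mem_filter.2
      ⟨Finset.mem_Icc.2 ⟨h1, h2⟩, hpm'⟩⟩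
    have h4 := Nat.le_of_dvd h1 hpm'
    have := hp.two_le
    nlinarith
  have h2 : ∀ k ∈ Finset.Icc 2 N, (((Finset.Icc 1 N).filter fun m => k ^ 2 ∣ m).card : ℝ) ≤
      N * (1 / (k : ℝ) ^ 2) := by
    intro k hk
    rw [Finset.mem_Icc] at hk
    have h3 : ((Finset.Icc 1 N).filter fun m => k ^ 2 ∣ m).card = N / k ^ 2 := by
      have := Nat.Ioc_filter_dvd_card_eq_div N (k ^ 2)
      rw [← this]
      congr 1
    rw [h3]
    calc (((N / k ^ 2 : ℕ)) : ℝ) ≤ (N : ℝ) / ((k ^ 2 : ℕ) : ℝ) := Nat.cast_div_le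
      _ = N * (1 / (k : ℝ) ^ 2) := by push_cast; ring
  have h3 : ∀ n : ℕ, 2 ≤ n → ∑ k ∈ Finset.Icc 2 n, 1 / (k : ℝ) ^ 2 ≤ 3 / 4 - 1 / (n : ℝ) := by
    intro n hn
    induction n, hn using Nat.le_induction with
    | base => norm_num
    | succ n hn ih =>
      rw [← Finset.insert_Icc_right_eq_Icc_add_one (by omega), Finset.sum_insert (by simp)]
      have hn0 : (2 : ℝ) ≤ n := by exact_mod_cast hn
      have : 1 / ((n + 1 : ℕ) : ℝ) ^ 2 ≤ 1 / (n : ℝ) - 1 / ((n + 1 : ℕ) : ℝ) := by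
        push_cast
        rw [div_sub_div _ _ (by positivity) (by positivity), div_le_div_iff₀ (by positivity)
          (by positivity)]
        nlinarith
      linarith
  have h4 : (((Finset.Icc 1 N).filter (fun m => ¬ Squarefree m)).card : ℝ) ≤ 3 / 4 * N := by
    rcases Nat.lt_or_ge N 2 with hN | hN
    · have : Finset.Icc 2 N = ∅ := Finset.Icc_eq_empty (by omega)
      rw [this, Finset.biUnion_empty, Finset.subset_empty] at h1
      rw [h1, Finset.card_empty, Nat.cast_zero]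
      positivity
    · have h5 : (((Finset.Icc 1 N).filter (fun m => ¬ Squarefree m)).card : ℝ) ≤
          ∑ k ∈ Finset.Icc 2 N, (((Finset.Icc 1 N).filter fun m => k ^ 2 ∣ m).card : ℝ) := by
        exact_mod_cast (Finset.card_le_card h1).trans Finset.card_biUnion_le
      refine h5.trans ((Finset.sum_le_sum h2).trans ?_)
      rw [← Finset.mul_sum]
      have h6 := h3 N hN
      have hN0 : (0 : ℝ) < N := by exact_mod_cast (by omega : 0 < N)
      have h7 : 0 < 1 / (N : ℝ) := by positivity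
      have h8 : ∑ k ∈ Finset.Icc 2 N, 1 / (k : ℝ) ^ 2 ≤ 3 / 4 := by linarith
      nlinarith
  have h5 := Finset.card_filter_add_card_filter_not (s := Finset.Icc 1 N) Squarefree
  rw [Nat.card_Icc, Nat.add_sub_cancel] at h5
  have h6 : (((Finset.Icc 1 N).filter Squarefree).card : ℝ) +
      (((Finset.Icc 1 N).filter (fun m => ¬ Squarefree m)).card : ℝ) = N := by exact_mod_cast h5
  linarith

/-- the twisting factor is determined -/
lemma twist_inj {m m' x x' y y' : ℕ} (hm : Squarefree m) (hm' : Squarefree m')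
    (hxy : Nat.Coprime x y) (hxy' : Nat.Coprime x' y') (h1 : m ^ 2 * x = m' ^ 2 * x')
    (h2 : m ^ 3 * y = m' ^ 3 * y') : m = m' := by
  have key : ∀ n n' z z' w w' : ℕ, Squarefree n → n' ≠ 0 → Nat.Coprime z' w' →
      n ^ 2 * z = n' ^ 2 * z' → n ^ 3 * w = n' ^ 3 * w' → n.primeFactors ⊆ n'.primeFactors := by
    intro n n' z z' w w' hn hn' hc h1 h2 p hp
    have hp' := Nat.prime_of_mem_primeFactors hp
    have hpn := Nat.dvd_of_mem_primeFactors hp
    by_contra hcon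
    have hpn' : ¬ p ∣ n' := fun h => hcon (Nat.mem_primeFactors.2 ⟨hp', h, hn'⟩)
    have hcop : Nat.Coprime p n' := (Nat.Prime.coprime_iff_not_dvd hp').2 hpn'
    have d1 : p ∣ n' ^ 2 * z' := by
      rw [← h1]
      exact Dvd.dvd.mul_right (dvd_pow hpn (by norm_num)) _
    have d2 : p ∣ n' ^ 3 * w' := by
      rw [← h2]
      exact Dvd.dvd.mul_right (dvd_pow hpn (by norm_num)) _
    have d3 : p ∣ z' := (Nat.Coprime.dvd_of_dvd_mul_left (hcop.pow_right 2) d1)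
    have d4 : p ∣ w' := (Nat.Coprime.dvd_of_dvd_mul_left (hcop.pow_right 3) d2)
    have := Nat.dvd_gcd d3 d4
    rw [hc] at this
    exact hp'.one_lt.ne' (Nat.dvd_one.1 this)
  have e1 := key m m' x x' y y' hm hm'.ne_zero hxy' h1 h2
  have e2 := key m' m x' x y' y hm' hm.ne_zero hxy h1.symm h2.symm
  have e3 : m.primeFactors = m'.primeFactors := Finset.Subset.antisymm e1 e2
  rw [← Nat.prod_primeFactors_of_squarefree hm, ← Nat.prod_primeFactors_of_squarefree hm', e3]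

/-- a quadratic twist of a curve with coprime coefficients -/
lemma twist_mem {c κ P Q X : ℝ} (hc : 0 < c) (hκ : 1 ≤ κ) (hκ6 : κ < 6) (hP : 1 ≤ P)
    (hQ : Q = 8 * P) (hX : 0 < X) (hK : 136048896 * c * 31 ^ (κ - 1) * X ^ (6 * (κ - 1)) < P ^ (5 * κ))
    {m x y : ℕ} (hm : Squarefree m) (hmP : P < m) (hmQ : (m : ℝ) ≤ Q) (hxy : Nat.Coprime x y)
    (hx1 : 1 ≤ x) (hy1 : 1 ≤ y) (hx3 : ¬ 3 ∣ x) (hx : (x : ℝ) ≤ (X / Q) ^ 2)
    (hy : (y : ℝ) ≤ (X / Q) ^ 3) :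
    ((((m ^ 2 * x : ℕ) : ℤ), ((m ^ 3 * y : ℕ) : ℤ)) : ℤ × ℤ) ∈ HM c κ (27 * X ^ 6) := by
  have hP0 : 0 < P := by linarith
  have hQ0 : 0 < Q := by rw [hQ]; positivity
  have hm0 : (0 : ℝ) < m := by linarith
  have hmn0 : m ≠ 0 := hm.ne_zero
  set D0 : ℤ := Dsc x y with hD0
  have hD0ne : D0 ≠ 0 := by
    intro h
    rw [hD0] at h
    unfold Dsc at h
    have h3 : (3 : ℤ) ∣ 4 * (x : ℤ) ^ 3 := ⟨9 * (y : ℤ) ^ 2, by linarith⟩
    rcases Int.prime_three.dvd_or_dvd h3 with h4 | h4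
    · norm_num at h4
    · have h5 := Int.prime_three.dvd_of_dvd_pow h4
      exact hx3 (by exact_mod_cast h5)
  have hDs : Dsc ((m ^ 2 * x : ℕ) : ℤ) ((m ^ 3 * y : ℕ) : ℤ) = (m : ℤ) ^ 6 * D0 := by
    rw [hD0]
    unfold Dsc
    push_cast
    ring
  have hDne : Dsc ((m ^ 2 * x : ℕ) : ℤ) ((m ^ 3 * y : ℕ) : ℤ) ≠ 0 := by
    rw [hDs]
    exact mul_ne_zero (pow_ne_zero _ (by exact_mod_cast hmn0)) hD0ne
  have hmin : IsMn ((m ^ 2 * x : ℕ) : ℤ) ((m ^ 3 * y : ℕ) : ℤ) := by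
    refine isMn_of hDne ?_
    rintro p hp ⟨h1, h2⟩
    have h1' : p ^ 4 ∣ m ^ 2 * x := by exact_mod_cast h1
    have h2' : p ^ 6 ∣ m ^ 3 * y := by exact_mod_cast h2
    have hcase : p ∣ x ∧ p ∣ y := by
      by_cases hpm : p ∣ m
      · obtain ⟨k, hk⟩ := hpm
        have hpk : ¬ p ∣ k := by
          intro hpk
          obtain ⟨j, hj⟩ := hpk
          have := hm p ⟨j, by rw [hk, hj]; ring⟩
          exact hp.one_lt.ne' (Nat.isUnit_iff.1 this)
        have hcop : Nat.Coprime p k := (Nat.Prime.coprime_iff_not_dvd hp).2 hpk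
        have hp2 : 0 < p ^ 2 := by have := hp.pos; positivity
        have hp3 : 0 < p ^ 3 := by have := hp.pos; positivity
        have d1 : p ^ 2 ∣ k ^ 2 * x := by
          have : p ^ 2 * p ^ 2 ∣ p ^ 2 * (k ^ 2 * x) := by
            have e1 : p ^ 2 * p ^ 2 = p ^ 4 := by ring
            have e2 : p ^ 2 * (k ^ 2 * x) = m ^ 2 * x := by rw [hk]; ring
            rw [e1, e2]
            exact h1'
          exact Nat.dvd_of_mul_dvd_mul_left hp2 this
        have d2 : p ^ 3 ∣ k ^ 3 * y := by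
          have : p ^ 3 * p ^ 3 ∣ p ^ 3 * (k ^ 3 * y) := by
            have e1 : p ^ 3 * p ^ 3 = p ^ 6 := by ring
            have e2 : p ^ 3 * (k ^ 3 * y) = m ^ 3 * y := by rw [hk]; ring
            rw [e1, e2]
            exact h2'
          exact Nat.dvd_of_mul_dvd_mul_left hp3 this
        have d3 := Nat.Coprime.dvd_of_dvd_mul_left (Nat.Coprime.pow 2 2 hcop) d1
        have d4 := Nat.Coprime.dvd_of_dvd_mul_left (Nat.Coprime.pow 3 3 hcop) d2
        exact ⟨(dvd_pow_self p (by norm_num)).trans d3, (dvd_pow_self p (by norm_num)).trans d4⟩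
      · have hcop : Nat.Coprime p m := (Nat.Prime.coprime_iff_not_dvd hp).2 hpm
        have d3 := Nat.Coprime.dvd_of_dvd_mul_left (Nat.Coprime.pow 4 2 hcop) h1'
        have d4 := Nat.Coprime.dvd_of_dvd_mul_left (Nat.Coprime.pow 6 3 hcop) h2'
        exact ⟨(dvd_pow_self p (by norm_num)).trans d3, (dvd_pow_self p (by norm_num)).trans d4⟩
    have := Nat.dvd_gcd hcase.1 hcase.2
    rw [hxy] at this
    exact hp.one_lt.ne' (Nat.dvd_one.1 this)
  have hx0 : (0 : ℝ) ≤ x := Nat.cast_nonneg x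
  have hy0 : (0 : ℝ) ≤ y := Nat.cast_nonneg y
  have hax : (m : ℝ) ^ 2 * x ≤ X ^ 2 := by
    calc (m : ℝ) ^ 2 * x ≤ Q ^ 2 * (X / Q) ^ 2 := by gcongr
      _ = X ^ 2 := by field_simp
  have hby : (m : ℝ) ^ 3 * y ≤ X ^ 3 := by
    calc (m : ℝ) ^ 3 * y ≤ Q ^ 3 * (X / Q) ^ 3 := by gcongr
      _ = X ^ 3 := by field_simp
  refine ⟨hmin, ?_, ?_, ?_⟩
  · simp only
    push_cast
    rw [abs_of_nonneg (by positivity)]
    calc 4 * ((m : ℝ) ^ 2 * x) ^ 3 ≤ 4 * (X ^ 2) ^ 3 := by gcongr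
      _ ≤ 27 * X ^ 6 := by
        have : 0 ≤ X ^ 6 := by positivity
        nlinarith
  · simp only
    push_cast
    calc 27 * ((m : ℝ) ^ 3 * y) ^ 2 ≤ 27 * (X ^ 3) ^ 2 := by gcongr
      _ = 27 * X ^ 6 := by ring
  · simp only
    -- the size of the bad primes
    have hD0n : D0.natAbs ≠ 0 := Int.natAbs_ne_zero.2 hD0ne
    have hBad : Bad ((m ^ 2 * x : ℕ) : ℤ) ((m ^ 3 * y : ℕ) : ℤ) ≤ m * D0.natAbs := by
      unfold Bad
      have h1 : ∏ p ∈ (Dsc ((m ^ 2 * x : ℕ) : ℤ) ((m ^ 3 * y : ℕ) : ℤ)).natAbs.primeFactors.filter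
          (fun p => 5 ≤ p), p ≤ ∏ p ∈ (m * D0.natAbs).primeFactors, p := by
        refine Finset.prod_le_prod_of_subset_of_one_le' ?_ ?_
        · intro p hp
          rw [Finset.mem_filter, hDs, Int.natAbs_mul, Int.natAbs_pow, Int.natAbs_natCast] at hp
          have hp' := Nat.prime_of_mem_primeFactors hp.1
          rw [Nat.mem_primeFactors]
          refine ⟨hp', ?_, Nat.mul_ne_zero hmn0 hD0n⟩
          rcases (Nat.Prime.dvd_mul hp').1 (Nat.dvd_of_mem_primeFactors hp.1) with h2 | h2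
          · exact Dvd.dvd.mul_right (hp'.dvd_of_dvd_pow h2) _
          · exact Dvd.dvd.mul_left h2 _
        · intro p hp _
          exact (Nat.prime_of_mem_primeFactors hp).one_lt.le
      refine h1.trans ?_
      have h2 := rad_le (n := m * D0.natAbs) (Nat.pos_of_ne_zero (Nat.mul_ne_zero hmn0 hD0n))
      exact h2
    have hn : ((D0.natAbs : ℕ) : ℝ) = |(D0 : ℝ)| := by
      rw [Nat.cast_natAbs]
      push_cast
      rfl
    set n : ℝ := |(D0 : ℝ)| with hnd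
    have hn1 : 1 ≤ n := by
      rw [← hn]
      exact_mod_cast (by omega : 1 ≤ D0.natAbs)
    have hn0 : 0 < n := by linarith
    have hBad' : (Bad ((m ^ 2 * x : ℕ) : ℤ) ((m ^ 3 * y : ℕ) : ℤ) : ℝ) ≤ m * n := by
      rw [← hn]
      exact_mod_cast hBad
    have hmd := (minD_bounds (q := (((m ^ 2 * x : ℕ) : ℤ), ((m ^ 3 * y : ℕ) : ℤ))) hmin).2
    simp only at hmd
    rw [hDs] at hmd
    have hmd1 : |(((m : ℤ) ^ 6 * D0 : ℤ) : ℝ)| = (m : ℝ) ^ 6 * n := by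
      rw [hnd]
      push_cast
      rw [abs_mul, abs_of_pos (by positivity : (0 : ℝ) < (m : ℝ) ^ 6)]
    rw [hmd1] at hmd
    have hnX : n ≤ 31 * (X / Q) ^ 6 := by
      have hXQ : 0 ≤ X / Q := by positivity
      have := Dsc_le (X := X / Q) (a := (x : ℤ)) (b := (y : ℤ)) (by
        push_cast
        rw [abs_of_nonneg hx0]
        exact hx) (by
        push_cast
        rw [abs_of_nonneg hy0]
        exact hy)
      exact this
    -- the inequality
    have hPX : X / Q ≤ X / P := by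
      rw [hQ]
      gcongr
      linarith
    have e1 : n ^ (κ - 1) ≤ 31 ^ (κ - 1) * (X ^ (6 * (κ - 1)) / P ^ (6 * (κ - 1))) := by
      calc n ^ (κ - 1) ≤ (31 * (X / P) ^ 6) ^ (κ - 1) := by
            refine Real.rpow_le_rpow hn0.le (hnX.trans ?_) (by linarith)
            have : 0 ≤ X / Q := by positivity
            gcongr
        _ = 31 ^ (κ - 1) * (X ^ (6 * (κ - 1)) / P ^ (6 * (κ - 1))) := by
            rw [Real.mul_rpow (by norm_num) (by positivity), ← Real.rpow_natCast (X / P) 6,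
              ← Real.rpow_mul (by positivity), Real.div_rpow hX.le hP0.le]
            push_cast
            rfl
    have e2 : 136048896 * c * n ^ (κ - 1) < (m : ℝ) ^ (6 - κ) := by
      have hP6 : 0 < P ^ (6 * (κ - 1)) := Real.rpow_pos_of_pos hP0 _
      calc 136048896 * c * n ^ (κ - 1) ≤
          136048896 * c * (31 ^ (κ - 1) * (X ^ (6 * (κ - 1)) / P ^ (6 * (κ - 1)))) := by gcongr
        _ = 136048896 * c * 31 ^ (κ - 1) * X ^ (6 * (κ - 1)) / P ^ (6 * (κ - 1)) := by ring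
        _ < P ^ (5 * κ) / P ^ (6 * (κ - 1)) := by gcongr
        _ = P ^ (6 - κ) := by
            rw [← Real.rpow_sub hP0]
            congr 1
            ring
        _ ≤ (m : ℝ) ^ (6 - κ) := Real.rpow_le_rpow hP0.le hmP.le (by linarith)
    have e3 : c * ((m : ℝ) * n) ^ κ * 136048896 < (m : ℝ) ^ 6 * n := by
      have k1 : ((m : ℝ) * n) ^ κ = (m : ℝ) ^ κ * (n * n ^ (κ - 1)) := by
        rw [Real.mul_rpow hm0.le hn0.le]
        congr 1
        rw [← Real.rpow_one_add' hn0.le (by linarith)]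
        congr 1
        ring
      have k2 : (m : ℝ) ^ 6 = (m : ℝ) ^ κ * (m : ℝ) ^ (6 - κ) := by
        rw [← Real.rpow_add hm0, ← Real.rpow_natCast (m : ℝ) 6]
        congr 1
        push_cast
        ring
      rw [k1, k2]
      have k3 : 0 < (m : ℝ) ^ κ := Real.rpow_pos_of_pos hm0 _
      calc c * ((m : ℝ) ^ κ * (n * n ^ (κ - 1))) * 136048896 =
          ((m : ℝ) ^ κ * n) * (136048896 * c * n ^ (κ - 1)) := by ring
        _ < ((m : ℝ) ^ κ * n) * (m : ℝ) ^ (6 - κ) := by gcongr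
        _ = _ := by ring
    have e4 : (Bad ((m ^ 2 * x : ℕ) : ℤ) ((m ^ 3 * y : ℕ) : ℤ) : ℝ) ^ κ ≤ ((m : ℝ) * n) ^ κ :=
      Real.rpow_le_rpow (Nat.cast_nonneg _) hBad' (by linarith)
    have e5 : c * (Bad ((m ^ 2 * x : ℕ) : ℤ) ((m ^ 3 * y : ℕ) : ℤ) : ℝ) ^ κ ≤
        c * ((m : ℝ) * n) ^ κ := by gcongr
    linarith

end Pool.Agent.X12.Szp
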