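import Pool.Agent.Helper929.Pfaffian

/-!
# Cofactors of circulant matrices of odd order with zero sums
-/

set_option autoImplicit false

namespace Pool.Agent.X12

open Matrix Finset

section

variable {n : Type*} [Fintype n] [DecidableEq n]

/-- the all-ones matrix -/
def Jm (n : Type*) : Matrix n n ℤ := Matrix.of fun _ _ => 1

lemma det_zero_of_rows [Nonempty n] (B : Matrix n n ℤ) (hr : ∀ i, ∑ j, B i j = 0) : B.det = 0 := by
  rw [← exists_mulVec_eq_zero_iff]
  refine ⟨fun _ => 1, ?_, ?_⟩
  · intro h
    have := congrFun h (Classical.arbitrary n)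
    simp at this
  · ext i
    rw [mulVec, dotProduct]
    simp [hr i]

lemma adj_row (B : Matrix n n ℤ) (hr : ∀ i, ∑ j, B i j = 0) (i i' j : n) :
    B.adjugate i j = B.adjugate i' j := by
  rw [adjugate_apply, adjugate_apply]
  have h1 : (B.updateRow j (Pi.single i 1 - Pi.single i' 1)).det =
      (B.updateRow j (Pi.single i 1)).det - (B.updateRow j (Pi.single i' 1)).det := by
    rw [sub_eq_add_neg, det_updateRow_add, ← neg_one_smul ℤ (Pi.single i' (1 : ℤ) : n → ℤ),
      det_updateRow_smul]
    ring
  have : Nonempty n := ⟨i⟩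
  have h2 : (B.updateRow j (Pi.single i 1 - Pi.single i' 1)).det = 0 := by
    apply det_zero_of_rows
    intro k
    by_cases hk : k = j
    · subst hk
      simp [Finset.sum_sub_distrib]
    · rw [← hr k]
      refine Finset.sum_congr rfl fun l _ => ?_
      rw [updateRow_ne hk]
  linarith

/-- All cofactors are equal. -/
lemma adj_eq (B : Matrix n n ℤ) (hr : ∀ i, ∑ j, B i j = 0) (hc : ∀ j, ∑ i, B i j = 0) (o : n) :
    B.adjugate = B.adjugate o o • Jm n := by
  ext i j
  rw [Matrix.smul_apply, Jm, of_apply, smul_eq_mul, mul_one, adj_row B hr i o j]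
  have h1 := adj_row Bᵀ hc j o o
  rw [← adjugate_transpose, transpose_apply, transpose_apply] at h1
  exact h1

/-- The principal minor. -/
lemma minor_eq (B : Matrix n n ℤ) (o : n) :
    (B.submatrix (fun x : {x : n // x ≠ o} => (x : n)) (fun x : {x : n // x ≠ o} => (x : n))).det =
      B.adjugate o o := by
  rw [adjugate_apply, twoBlockTriangular_det _ (fun i => i ≠ o)]
  · have h1 : (toSquareBlockProp (B.updateRow o (Pi.single o 1)) fun i => i ≠ o) =
        B.submatrix (fun x : {x : n // x ≠ o} => (x : n)) (fun x : {x : n // x ≠ o} => (x : n)) := by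
      ext x y
      rw [toSquareBlockProp_def, of_apply, submatrix_apply, updateRow_ne x.2]
    have h2 : (toSquareBlockProp (B.updateRow o (Pi.single o 1)) fun i => ¬ (i ≠ o)).det = 1 := by
      have : Unique {i : n // ¬ (i ≠ o)} :=
        { default := ⟨o, by simp⟩
          uniq := fun x => Subtype.ext (not_not.1 x.2) }
      rw [det_unique, toSquareBlockProp_def, of_apply]
      have h3 : ((default : {i : n // ¬ (i ≠ o)}) : n) = o := not_not.1 (default : {i : n // ¬ (i ≠ o)}).2
      rw [h3]
      simp
    rw [h1, h2, mul_one]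
  · intro i hi j hj
    have : i = o := not_not.1 hi
    rw [this, updateRow_self, Pi.single_eq_of_ne hj]

/-- Skew-symmetric determinants are squares. -/
lemma sq_of_skew (A : Matrix n n ℤ) (hA : ∀ i j, A i j = -A j i) : ∃ a : ℤ, A.det = a ^ 2 := by
  have e := (Fintype.equivFin n).symm
  refine ⟨Helper929.pf _ (A.submatrix e e), ?_⟩
  rw [Helper929.pf_sq_int _ (fun i j => by rw [submatrix_apply, submatrix_apply, hA]),
    det_submatrix_equiv_self]

lemma adj_sq_of_skew (A : Matrix n n ℤ) (hA : ∀ i j, A i j = -A j i) (o : n) :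
    ∃ a : ℤ, A.adjugate o o = a ^ 2 := by
  rw [← minor_eq]
  exact sq_of_skew _ fun i j => by rw [submatrix_apply, submatrix_apply, hA]

lemma Jm_mul_Jm : Jm n * Jm n = (Fintype.card n : ℤ) • Jm n := by
  ext i j
  simp [Jm, mul_apply]

end

section

variable {N : ℕ} [NeZero N]

lemma circ_row (g : ZMod N → ℤ) (h : ∑ x, g x = 0) (i : ZMod N) : ∑ j, circulant g i j = 0 := by
  rw [← h]
  exact Fintype.sum_equiv (Equiv.subLeft i) _ _ fun j => rfl

lemma circ_col (g : ZMod N → ℤ) (h : ∑ x, g x = 0) (j : ZMod N) : ∑ i, circulant g i j = 0 := by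
  rw [← h]
  exact Fintype.sum_equiv (Equiv.subRight j) _ _ fun i => rfl

/-- the common cofactor -/
def kap (g : ZMod N → ℤ) : ℤ := (circulant g).adjugate 0 0

lemma adj_circ (g : ZMod N → ℤ) (h : ∑ x, g x = 0) :
    (circulant g).adjugate = kap g • Jm (ZMod N) := adj_eq _ (circ_row g h) (circ_col g h) 0

lemma sign_add (hN : Odd N) (d : ZMod N) : Equiv.Perm.sign (Equiv.addRight d) = 1 := by
  have h1 : (Equiv.addRight d) ^ N = 1 := by
    ext x
    have : ∀ k : ℕ, ((Equiv.addRight d) ^ k) x = x + k * d := by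
      intro k
      induction k with
      | zero => simp
      | succ k ih =>
        rw [pow_succ', Equiv.Perm.mul_apply, ih, Equiv.coe_addRight]
        push_cast
        ring
    rw [this N]
    simp
  have h2 := congrArg Equiv.Perm.sign h1
  rw [map_pow, map_one] at h2
  rcases Int.units_eq_one_or (Equiv.Perm.sign (Equiv.addRight d)) with h | h
  · exact h
  · rw [h, hN.neg_one_pow] at h2
    exact absurd h2 (by decide)

/-- Shifting the sequence does not change the cofactor. -/
lemma kap_shift (hN : Odd N) (g : ZMod N → ℤ) (h : ∑ x, g x = 0) (d : ZMod N) :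
    kap (fun x => g (x + d)) = kap g := by
  set P : Matrix (ZMod N) (ZMod N) ℤ := (1 : Matrix (ZMod N) (ZMod N) ℤ).submatrix
    (Equiv.addRight d) id with hP
  have hdet : P.det = 1 := by
    rw [hP, det_permute, sign_add hN]
    simp
  have h1 : circulant (fun x => g (x + d)) = P * circulant g := by
    ext i j
    rw [hP, mul_apply]
    simp only [submatrix_apply, id, one_apply, ite_mul, one_mul, zero_mul, Finset.sum_ite_eq,
      Finset.mem_univ, if_true, circulant_apply, Equiv.coe_addRight]
    congr 1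
    ring
  have h2 : Jm (ZMod N) * P = Jm (ZMod N) := by
    ext i j
    rw [mul_apply, hP]
    simp only [Jm, of_apply, one_mul, submatrix_apply, id, one_apply]
    rw [Finset.sum_eq_single (j - d)]
    · simp
    · intro b _ hb
      rw [if_neg]
      intro h3
      apply hb
      simp only [Equiv.coe_addRight] at h3
      rw [← h3]; ring
    · intro h3
      exact absurd (Finset.mem_univ _) h3
  have h3 : (circulant (fun x => g (x + d))).adjugate = kap g • Jm (ZMod N) := by
    rw [h1, adjugate_mul_distrib, adj_circ g h, smul_mul]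
    congr 1
    calc Jm (ZMod N) * P.adjugate = Jm (ZMod N) * P * P.adjugate := by rw [h2]
      _ = Jm (ZMod N) := by rw [Matrix.mul_assoc, mul_adjugate, hdet, one_smul, Matrix.mul_one]
  rw [kap, h3]
  simp [Jm]

lemma exists_half (hN : Odd N) (d : ZMod N) : ∃ h : ZMod N, h + h = d := by
  obtain ⟨k, hk⟩ := hN
  refine ⟨(k + 1) * d, ?_⟩
  have : ((2 * k + 1 : ℕ) : ZMod N) = 0 := by rw [← hk]; exact ZMod.natCast_self N
  push_cast at this
  linear_combination d * this

lemma sum_shift (g : ZMod N → ℤ) (d : ZMod N) : ∑ x, g (x + d) = ∑ x, g x :=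
  Fintype.sum_equiv (Equiv.addRight d) _ _ fun _ => rfl

/-- The skew case. -/
lemma kap_skew (hN : Odd N) (g : ZMod N → ℤ) (h : ∑ x, g x = 0) (d : ZMod N)
    (hg : ∀ x, g (d - x) = -g x) : ∃ a : ℤ, kap g = a ^ 2 := by
  obtain ⟨t, ht⟩ := exists_half hN d
  rw [← kap_shift hN g h t]
  apply adj_sq_of_skew
  intro i j
  rw [circulant_apply, circulant_apply, ← hg]
  congr 1
  rw [← ht]; ring

/-- The partial sums. -/
def ksum (g : ZMod N → ℤ) (h x : ZMod N) : ℤ := -∑ t ∈ range x.val, g ((t : ZMod N) + h)

lemma ksum_step (g : ZMod N → ℤ) (hs : ∑ x, g x = 0) (h x : ZMod N) :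
    ksum g h x - ksum g h (x + 1) = g (x + h) := by
  have htot : ∑ t ∈ range N, g ((t : ZMod N) + h) = 0 := by
    rw [← hs, ← sum_shift g h]
    symm
    refine Finset.sum_nbij' (fun k => k.val) (fun i => (i : ZMod N)) ?_ ?_ ?_ ?_ ?_
    · intro k _; exact Finset.mem_range.2 (ZMod.val_lt k)
    · intro i _; exact Finset.mem_univ _
    · intro k _; exact ZMod.natCast_zmod_val k
    · intro i hi; exact ZMod.val_cast_of_lt (Finset.mem_range.1 hi)
    · intro k _; rw [ZMod.natCast_zmod_val]
  unfold ksum
  have hx := ZMod.val_lt x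
  by_cases hlt : x.val + 1 < N
  · have h1 : (x + 1).val = x.val + 1 := by
      have : Fact (1 < N) := ⟨by omega⟩
      rw [ZMod.val_add, ZMod.val_one, Nat.mod_eq_of_lt hlt]
    rw [h1, Finset.sum_range_succ, ZMod.natCast_zmod_val]
    ring
  · have hxN : x.val + 1 = N := by omega
    have h1 : x + 1 = 0 := by
      rw [← ZMod.natCast_zmod_val x]
      have : ((x.val + 1 : ℕ) : ZMod N) = 0 := by rw [hxN]; exact ZMod.natCast_self N
      push_cast at this
      exact this
    rw [h1, ZMod.val_zero, Finset.range_zero, Finset.sum_empty]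
    have h2 : ∑ t ∈ range (x.val + 1), g ((t : ZMod N) + h) = 0 := by rw [hxN]; exact htot
    rw [Finset.sum_range_succ, ZMod.natCast_zmod_val] at h2
    linarith

lemma ksum_zero (g : ZMod N → ℤ) (h : ZMod N) : ksum g h 0 = 0 := by
  simp [ksum, ZMod.val_zero]

lemma ksum_skew (g : ZMod N → ℤ) (hs : ∑ x, g x = 0) (h : ZMod N) (hh : h + h = 1)
    (hg : ∀ x, g (-x) = g x) (x : ZMod N) : ksum g h (-x) = -ksum g h x := by
  have hstep : ∀ x, ksum g h (x + 1) + ksum g h (-(x + 1)) = ksum g h x + ksum g h (-x) := by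
    intro x
    have h1 := ksum_step g hs h x
    have h2 := ksum_step g hs h (-(x + 1))
    rw [show -(x + 1) + 1 = -x by ring, show -(x + 1) + h = -(x + h) by linear_combination hh,
      hg] at h2
    linarith
  have h3 : ∀ k : ℕ, ksum g h (k : ZMod N) + ksum g h (-(k : ZMod N)) = 0 := by
    intro k
    induction k with
    | zero => simp [ksum_zero]
    | succ k ih =>
      push_cast
      rw [hstep, ih]
  have h4 := h3 x.val
  rw [ZMod.natCast_zmod_val] at h4
  linarith

/-- The symmetric case. -/
lemma kap_symm (hN : Odd N) (g : ZMod N → ℤ) (hs : ∑ x, g x = 0) (d : ZMod N)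
    (hg : ∀ x, g (d - x) = g x) : ∃ a : ℤ, kap g = N * a ^ 2 := by
  obtain ⟨t, ht⟩ := exists_half hN d
  rw [← kap_shift hN g hs t]
  set G : ZMod N → ℤ := fun x => g (x + t) with hG
  have hGs : ∑ x, G x = 0 := by rw [hG, sum_shift, hs]
  have hGg : ∀ x, G (-x) = G x := by
    intro x
    simp only [hG]
    rw [← hg]
    congr 1
    rw [← ht]; ring
  obtain ⟨h, hh⟩ := exists_half hN 1
  set k : ZMod N → ℤ := fun x => (if x = h then 1 else 0) - (if x = -h then 1 else 0) with hk
  set k' : ZMod N → ℤ := ksum G h with hk'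
  have hkk : ∀ x, k (-x) = -k x := by
    intro x
    simp only [hk, neg_inj, neg_eq_iff_eq_neg]
    ring
  have hkk' : ∀ x, k' (-x) = -k' x := ksum_skew G hGs h hh hGg
  have hsum0 : ∀ u : ZMod N → ℤ, (∀ x, u (-x) = -u x) → ∑ x, u x = 0 := by
    intro u hu
    have h1 : ∑ x, u (-x) = ∑ x, u x := Fintype.sum_equiv (Equiv.neg _) _ _ fun _ => rfl
    rw [Finset.sum_congr rfl fun x _ => hu x, Finset.sum_neg_distrib] at h1
    linarith
  have hprod : circulant G = circulant k * circulant k' := by
    rw [circulant_mul]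
    congr 1
    funext x
    rw [mulVec, dotProduct]
    simp only [circulant_apply, hk, sub_mul, ite_mul, one_mul, zero_mul, Finset.sum_sub_distrib]
    rw [Finset.sum_eq_single (x - h), Finset.sum_eq_single (x + h)]
    · rw [if_pos (by ring), if_pos (by ring)]
      have := ksum_step G hGs h (x - h)
      rw [show x - h + 1 = x + h by linear_combination -hh, sub_add_cancel] at this
      rw [hk', this]
    · intro b _ hb
      rw [if_neg]
      intro h3
      apply hb
      linear_combination -h3
    · intro h3; exact absurd (Finset.mem_univ _) h3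
    · intro b _ hb
      rw [if_neg]
      intro h3
      apply hb
      linear_combination -h3
    · intro h3; exact absurd (Finset.mem_univ _) h3
  obtain ⟨a, ha⟩ := adj_sq_of_skew (circulant k) (fun i j => by
    rw [circulant_apply, circulant_apply, ← hkk]; congr 1; ring) 0
  obtain ⟨b, hb⟩ := adj_sq_of_skew (circulant k') (fun i j => by
    rw [circulant_apply, circulant_apply, ← hkk']; congr 1; ring) 0
  refine ⟨a * b, ?_⟩
  have h1 : (circulant G).adjugate = (kap k' • Jm (ZMod N)) * (kap k • Jm (ZMod N)) := by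
    rw [hprod, adjugate_mul_distrib, adj_circ k (hsum0 k hkk), adj_circ k' (hsum0 k' hkk')]
  rw [smul_mul, Matrix.mul_smul, Jm_mul_Jm, ZMod.card] at h1
  rw [kap, h1]
  simp only [Matrix.smul_apply, Jm, of_apply, smul_eq_mul, mul_one]
  rw [kap, kap, ha, hb]
  ring

/-- The block determinant. -/
lemma det_blocks {n : Type*} [Fintype n] [DecidableEq n] (A B : Matrix n n ℤ) :
    (fromBlocks A B B A).det = (A + B).det * (A - B).det := by
  have h1 : fromBlocks 1 0 (-1) 1 * fromBlocks A B B A * fromBlocks 1 0 1 1 =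
      fromBlocks (A + B) B 0 (A - B) := by
    rw [fromBlocks_multiply, fromBlocks_multiply]
    simp [sub_eq_neg_add, add_comm]
  have h2 := congrArg Matrix.det h1
  rw [det_mul, det_mul, det_fromBlocks_zero₁₂, det_fromBlocks_zero₁₂, det_one,
    det_fromBlocks_zero₂₁] at h2
  linarith

end

end Pool.Agent.X12
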