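import Pool.Agent.X12.Dyn1

/-!
# Rational preperiodic points of the odd cubic polynomials `a z³ + c z`
-/

set_option autoImplicit false

namespace Pool.Agent.X12.Cub

open Function

/-- the odd cubic polynomial -/
def g (a : ℤ) (c : ℚ) : ℚ → ℚ := fun z => a * z ^ 3 + c * z

/-- the points with a finite forward orbit -/
def Pre (h : ℚ → ℚ) : Set ℚ := {z | (Set.range fun k : ℕ => h^[k] z).Finite}

lemma escape {h : ℚ → ℚ} (P : ℚ → Prop) (φ : ℚ → ℚ)
    (H : ∀ x, P x → P (h x) ∧ φ x < φ (h x)) {z : ℚ} (hz : P z) : z ∉ Pre h := by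
  intro hpre
  have hk : ∀ k : ℕ, P (h^[k] z) := by
    intro k
    induction k with
    | zero => exact hz
    | succ k ih =>
      rw [Function.iterate_succ_apply']
      exact (H _ ih).1
  have hmono : StrictMono fun k : ℕ => φ (h^[k] z) := by
    refine strictMono_nat_of_lt_succ fun k => ?_
    rw [Function.iterate_succ_apply']
    exact (H _ (hk k)).2
  have hinj : Function.Injective fun k : ℕ => h^[k] z := by
    intro i j hij
    exact hmono.injective (by simp only at hij ⊢; rw [hij])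
  exact Set.infinite_range_of_injective hinj hpre

lemma pre_apply {h : ℚ → ℚ} {z : ℚ} (hz : z ∈ Pre h) : h z ∈ Pre h := by
  refine hz.subset ?_
  rintro _ ⟨k, rfl⟩
  refine ⟨k + 1, ?_⟩
  simp only
  rw [Function.iterate_succ_apply]

lemma pre_iterate {h : ℚ → ℚ} {z : ℚ} (hz : z ∈ Pre h) (k : ℕ) : h^[k] z ∈ Pre h := by
  induction k with
  | zero => exact hz
  | succ k ih =>
    rw [Function.iterate_succ_apply']
    exact pre_apply ih

lemma pre_back {h : ℚ → ℚ} {z : ℚ} (hz : h z ∈ Pre h) : z ∈ Pre h := by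
  have h1 : Set.range (fun k : ℕ => h^[k] z) ⊆
      insert z (Set.range fun k : ℕ => h^[k] (h z)) := by
    rintro _ ⟨k, rfl⟩
    rcases k with _ | k
    · exact Set.mem_insert _ _
    · right
      refine ⟨k, ?_⟩
      simp only
      rw [Function.iterate_succ_apply]
  exact (Set.Finite.insert z hz).subset h1

lemma pre_fixed {h : ℚ → ℚ} {z : ℚ} (hz : h z = z) : z ∈ Pre h := by
  have h1 : Set.range (fun k : ℕ => h^[k] z) ⊆ {z} := by
    rintro _ ⟨k, rfl⟩
    exact Function.iterate_fixed hz k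
  exact (Set.finite_singleton z).subset h1

/-- a preperiodic point runs into a periodic point -/
lemma exists_periodic {h : ℚ → ℚ} {z : ℚ} (hz : z ∈ Pre h) : ∃ k : ℕ, h^[k] z ∈ periodicPts h := by
  have hinj : ¬ Function.Injective fun k : ℕ => h^[k] z :=
    fun h1 => Set.infinite_range_of_injective h1 hz
  rw [Function.not_injective_iff] at hinj
  obtain ⟨i, j, hij, hne⟩ := hinj
  rcases lt_or_gt_of_ne hne with h1 | h1
  · refine ⟨i, mk_mem_periodicPts (n := j - i) (by omega) ?_⟩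
    show h^[j - i] (h^[i] z) = h^[i] z
    rw [← Function.iterate_add_apply, Nat.sub_add_cancel h1.le, hij]
  · refine ⟨j, mk_mem_periodicPts (n := i - j) (by omega) ?_⟩
    show h^[i - j] (h^[j] z) = h^[j] z
    rw [← Function.iterate_add_apply, Nat.sub_add_cancel h1.le, hij]

/-- periodic points are preperiodic -/
lemma pre_of_periodic {h : ℚ → ℚ} {z : ℚ} (hz : z ∈ periodicPts h) : z ∈ Pre h := by
  have hN : 0 < minimalPeriod h z := minimalPeriod_pos_of_mem_periodicPts hz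
  refine (Set.Finite.subset ((Set.finite_Iio (minimalPeriod h z)).image
    fun k => h^[k] z)) ?_
  rintro _ ⟨k, rfl⟩
  refine ⟨k % minimalPeriod h z, Nat.mod_lt _ hN, ?_⟩
  simp only
  exact iterate_mod_minimalPeriod_eq

/-- the exit from a set which contains the periodic points -/
lemma exit_point {h : ℚ → ℚ} {z : ℚ} (hz : z ∈ Pre h) {S : Set ℚ}
    (hS : ∀ y ∈ periodicPts h, y ∈ S) (hzS : z ∉ S) : ∃ w ∈ Pre h, w ∉ S ∧ h w ∈ S := by
  classical
  obtain ⟨k, hk⟩ := exists_periodic hz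
  have hex : ∃ k : ℕ, h^[k] z ∈ S := ⟨k, hS _ hk⟩
  set m := Nat.find hex with hm
  have h1 : h^[m] z ∈ S := Nat.find_spec hex
  have h2 : ∀ j < m, h^[j] z ∉ S := fun j hj => Nat.find_min hex hj
  have hm0 : m ≠ 0 := by
    intro h0
    rw [h0] at h1
    exact hzS h1
  obtain ⟨j, hj⟩ := Nat.exists_eq_succ_of_ne_zero hm0
  refine ⟨h^[j] z, pre_iterate hz j, h2 j (by omega), ?_⟩
  rw [← Function.iterate_succ_apply' h j z]
  rw [hj] at h1
  exact h1

/-! ### Bounds -/

/-- the archimedean bound -/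
lemma pre_abs {a : ℤ} {c z : ℚ} (hz : z ∈ Pre (g a c)) : |(a : ℚ)| * z ^ 2 ≤ 1 + |c| := by
  by_contra hcon
  push Not at hcon
  refine escape (h := g a c) (fun x => 1 + |c| < |(a : ℚ)| * x ^ 2) (fun x => |x|) ?_ hcon hz
  intro x hx
  have hc0 := abs_nonneg c
  have ha0 := abs_nonneg (a : ℚ)
  have hx0 : x ≠ 0 := by
    rintro rfl
    norm_num at hx
    linarith
  have hx1 : 0 < |x| := abs_pos.2 hx0
  have h1 : |g a c x| = |x| * |(a : ℚ) * x ^ 2 + c| := by
    unfold g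
    rw [← abs_mul]
    congr 1
    ring
  have h2 : |(a : ℚ)| * x ^ 2 ≤ |(a : ℚ) * x ^ 2 + c| + |c| := by
    have h3 := abs_sub ((a : ℚ) * x ^ 2 + c) c
    rw [add_sub_cancel_right, abs_mul, abs_of_nonneg (sq_nonneg x)] at h3
    exact h3
  have h3 : |x| < |g a c x| := by
    rw [h1]
    nlinarith
  refine ⟨?_, h3⟩
  have h4 : x ^ 2 ≤ (g a c x) ^ 2 := by
    rw [← sq_abs x, ← sq_abs (g a c x)]
    nlinarith
  nlinarith

/-- the `p`-adic bound -/
lemma pre_padic {a : ℤ} {c z : ℚ} (hz : z ∈ Pre (g a c)) (p : ℕ) [hp : Fact p.Prime] :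
    padicNorm p (a * z ^ 2) ≤ max 1 (padicNorm p c) := by
  by_contra hcon
  rw [not_le, max_lt_iff] at hcon
  refine escape (h := g a c) (fun x => 1 < padicNorm p (a * x ^ 2) ∧
    padicNorm p c < padicNorm p (a * x ^ 2)) (fun x => padicNorm p x) ?_ hcon hz
  rintro x ⟨h1, h2⟩
  have hx0 : x ≠ 0 := by
    rintro rfl
    norm_num at h1
  have hN0 : 0 < padicNorm p x := lt_of_le_of_ne (padicNorm.nonneg _)
    (fun h => hx0 (padicNorm.zero_of_padicNorm_eq_zero h.symm))
  have h3 : padicNorm p (g a c x) = padicNorm p x * padicNorm p (a * x ^ 2) := by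
    have e : g a c x = x * (a * x ^ 2 + c) := by
      unfold g
      ring
    rw [e, padicNorm.mul, padicNorm.add_eq_max_of_ne h2.ne', max_eq_left h2.le]
  have h4 : padicNorm p x < padicNorm p (g a c x) := by
    rw [h3]
    nlinarith
  have h5 : padicNorm p (a * (g a c x) ^ 2) =
      padicNorm p (a * x ^ 2) * padicNorm p (a * x ^ 2) ^ 2 := by
    rw [padicNorm.mul, sq (g a c x), padicNorm.mul, h3, padicNorm.mul, sq x, padicNorm.mul]
    ring
  have h6 : padicNorm p (a * x ^ 2) < padicNorm p (a * (g a c x) ^ 2) := by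
    rw [h5]
    have : 1 < padicNorm p (a * x ^ 2) ^ 2 := by nlinarith
    nlinarith
  exact ⟨⟨h1.trans h6, h2.trans h6⟩, h4⟩

lemma int_of_padic {q : ℚ} (h : ∀ p : ℕ, ∀ _ : Fact p.Prime, padicNorm p q ≤ 1) :
    ∃ A : ℤ, (A : ℚ) = q := by
  have hden : q.den = 1 := by
    by_contra hne
    obtain ⟨p, hp, hpd⟩ := Nat.exists_prime_and_dvd hne
    have hF : Fact p.Prime := ⟨hp⟩
    have h1 := Pool.Agent.X12.Dyn.max_padic q p
    rw [max_eq_left (h p hF)] at h1
    have h2 : 1 ≤ padicValNat p q.den := one_le_padicValNat_of_dvd q.den_ne_zero hpd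
    have h3 : (1 : ℚ) < (p : ℚ) ^ padicValNat p q.den :=
      one_lt_pow₀ (by exact_mod_cast hp.one_lt) (by omega)
    linarith
  exact ⟨q.num, Rat.coe_int_num_of_den_eq_one hden⟩

lemma int_of_sq {q : ℚ} {A : ℤ} (h : (A : ℚ) = q ^ 2) : ∃ B : ℤ, (B : ℚ) = q := by
  have h1 : (q ^ 2).den = 1 := by
    rw [← h]
    exact Rat.den_intCast A
  rw [Rat.den_pow] at h1
  have h2 : q.den = 1 := by
    rcases Nat.pow_eq_one.1 h1 with h | h
    · exact h
    · omega
  exact ⟨q.num, Rat.coe_int_num_of_den_eq_one h2⟩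

/-- integrality of the squares -/
lemma int_sq {a : ℤ} {c z : ℚ} (hz : z ∈ Pre (g a c)) :
    ∃ A : ℤ, (A : ℚ) = c.den * (a * z ^ 2) := by
  refine int_of_padic fun p hp => ?_
  have h1 := pre_padic hz p
  rw [Pool.Agent.X12.Dyn.max_padic] at h1
  have h3 : padicNorm p ((c.den : ℕ) : ℚ) = ((p : ℚ) ^ (padicValNat p c.den))⁻¹ := by
    rw [padicNorm.eq_zpow_of_nonzero (by exact_mod_cast c.den_ne_zero), padicValRat.of_nat,
      zpow_neg, zpow_natCast]
  have hp0 : (0 : ℚ) < (p : ℚ) ^ (padicValNat p c.den) := by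
    have : (0 : ℚ) < p := by exact_mod_cast hp.out.pos
    positivity
  rw [padicNorm.mul, h3]
  calc ((p : ℚ) ^ (padicValNat p c.den))⁻¹ * padicNorm p (a * z ^ 2)
      ≤ ((p : ℚ) ^ (padicValNat p c.den))⁻¹ * (p : ℚ) ^ (padicValNat p c.den) :=
        mul_le_mul_of_nonneg_left h1 (by positivity)
    _ = 1 := inv_mul_cancel₀ hp0.ne'

lemma int_mul {a : ℤ} {c z w : ℚ} (hz : z ∈ Pre (g a c)) (hw : w ∈ Pre (g a c)) :
    ∃ P : ℤ, (P : ℚ) = c.den * (a * z * w) := by
  obtain ⟨A, hA⟩ := int_sq hz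
  obtain ⟨B, hB⟩ := int_sq hw
  refine int_of_sq (A := A * B) ?_
  push_cast
  rw [hA, hB]
  ring

/-! ### Cycles -/

lemma prod_one {N : ℕ} {d e : ℕ → ℚ} (h0 : d N = d 0) (hne : d 0 ≠ 0)
    (h : ∀ i, d i * e i = d (i + 1)) : ∏ i ∈ Finset.range N, e i = 1 := by
  have h1 : ∀ k : ℕ, d 0 * ∏ i ∈ Finset.range k, e i = d k := by
    intro k
    induction k with
    | zero => simp
    | succ k ih => rw [Finset.prod_range_succ, ← mul_assoc, ih, h k]
  have h2 := h1 N
  rw [h0] at h2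
  exact mul_left_cancel₀ hne (by rw [h2, mul_one])

lemma unit_supp {N n : ℕ} (hN : 0 < N) (hn : n ≠ 0) {e : ℕ → ℚ} {u : ℕ → ℤ}
    (hu : ∀ i, (u i : ℚ) = n * e i) (hprod : ∏ i ∈ Finset.range N, e i = 1) :
    u 0 ≠ 0 ∧ (u 0).natAbs.primeFactors ⊆ n.primeFactors := by
  have h1 : ∏ i ∈ Finset.range N, u i = (n : ℤ) ^ N := by
    have h2 : (∏ i ∈ Finset.range N, (u i : ℚ)) = (n : ℚ) ^ N := by
      rw [Finset.prod_congr rfl fun i _ => hu i, Finset.prod_mul_distrib, hprod, mul_one,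
        Finset.prod_const, Finset.card_range]
    exact_mod_cast h2
  have hdvd : u 0 ∣ (n : ℤ) ^ N := by
    rw [← h1]
    exact Finset.dvd_prod_of_mem u (Finset.mem_range.2 hN)
  have h0 : u 0 ≠ 0 := by
    intro h
    rw [h, zero_dvd_iff] at hdvd
    exact pow_ne_zero _ (by exact_mod_cast hn) hdvd
  refine ⟨h0, ?_⟩
  have h2 : (u 0).natAbs ∣ n ^ N := by
    have := Int.natAbs_dvd_natAbs.2 hdvd
    rwa [Int.natAbs_pow, Int.natAbs_natCast] at this
  have h3 := Nat.primeFactors_mono h2 (pow_ne_zero _ hn)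
  rwa [Nat.primeFactors_pow _ hN.ne'] at h3

/-- the data of a long cycle -/
theorem cycle_units {a : ℤ} {c z : ℚ} (ha : a ≠ 0) (hz : z ∈ periodicPts (g a c))
    (h1 : g a c z ≠ z) (h2 : g a c z ≠ -z) :
    ∃ A B P : ℤ, (A : ℚ) = c.den * (a * z ^ 2) ∧ (B : ℚ) = c.den * (a * (g a c z) ^ 2) ∧
      A * B = P ^ 2 ∧ c.den * P = A * (A + c.num) ∧ A ≠ 0 ∧ P ≠ 0 ∧
      (A + P + B + c.num ≠ 0 ∧ (A + P + B + c.num).natAbs.primeFactors ⊆ c.den.primeFactors) ∧
      (A - P + B + c.num ≠ 0 ∧ (A - P + B + c.num).natAbs.primeFactors ⊆ c.den.primeFactors) := by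
  set N := minimalPeriod (g a c) z with hN
  have hN0 : 0 < N := minimalPeriod_pos_of_mem_periodicPts hz
  have hpre := pre_of_periodic hz
  set x : ℕ → ℚ := fun i => (g a c)^[i] z with hx
  have hxN : ∀ i, x (i + N) = x i := fun i => by
    simp only [hx]
    rw [hN]
    exact iterate_add_minimalPeriod_eq
  have hxs : ∀ i, g a c (x i) = x (i + 1) := fun i => by
    simp only [hx]
    rw [Function.iterate_succ_apply']
  have hxp : ∀ i, x i ∈ Pre (g a c) := fun i => pre_iterate hpre i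
  have hx0 : x 0 = z := rfl
  have hx1 : x 1 = g a c z := rfl
  have hnq : (c.den : ℚ) * c = c.num := by
    rw [mul_comm]
    exact Rat.mul_den_eq_num c
  have hnq0 : (c.den : ℚ) ≠ 0 := by exact_mod_cast c.den_ne_zero
  have hi : ∀ i, ∃ q : ℤ × ℤ × ℤ, (q.1 : ℚ) = c.den * (a * x i ^ 2) ∧
      (q.2.1 : ℚ) = c.den * (a * x (i + 1) ^ 2) ∧ (q.2.2 : ℚ) = c.den * (a * x i * x (i + 1)) := by
    intro i
    obtain ⟨A, hA⟩ := int_sq (hxp i)
    obtain ⟨B, hB⟩ := int_sq (hxp (i + 1))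
    obtain ⟨P, hP⟩ := int_mul (hxp i) (hxp (i + 1))
    exact ⟨(A, B, P), hA, hB, hP⟩
  choose q hqA hqB hqP using hi
  -- the two products
  have hU : ∏ i ∈ Finset.range N, (a * x i ^ 2 + a * x i * x (i + 1) + a * x (i + 1) ^ 2 + c) = 1 := by
    refine prod_one (d := fun i => x i - x (i + 1)) ?_ ?_ fun i => ?_
    · have e1 := hxN 0
      have e2 := hxN 1
      rw [zero_add] at e1
      rw [add_comm] at e2
      show x N - x (N + 1) = x 0 - x (0 + 1)
      rw [e1, e2]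
    · show x 0 - x 1 ≠ 0
      rw [hx0, hx1, sub_ne_zero]
      exact h1.symm
    · show (x i - x (i + 1)) * _ = x (i + 1) - x (i + 1 + 1)
      rw [← hxs (i + 1), ← hxs i]
      unfold g
      ring
  have hV : ∏ i ∈ Finset.range N, (a * x i ^ 2 - a * x i * x (i + 1) + a * x (i + 1) ^ 2 + c) = 1 := by
    refine prod_one (d := fun i => x i + x (i + 1)) ?_ ?_ fun i => ?_
    · have e1 := hxN 0
      have e2 := hxN 1
      rw [zero_add] at e1
      rw [add_comm] at e2
      show x N + x (N + 1) = x 0 + x (0 + 1)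
      rw [e1, e2]
    · show x 0 + x 1 ≠ 0
      rw [hx0, hx1]
      intro h
      exact h2 (by linarith)
    · show (x i + x (i + 1)) * _ = x (i + 1) + x (i + 1 + 1)
      rw [← hxs (i + 1), ← hxs i]
      unfold g
      ring
  have hu := unit_supp (u := fun i => (q i).1 + (q i).2.2 + (q i).2.1 + c.num) hN0 c.den_ne_zero
    (fun i => by
      push_cast
      rw [hqA, hqB, hqP, ← hnq]
      ring) hU
  have hv := unit_supp (u := fun i => (q i).1 - (q i).2.2 + (q i).2.1 + c.num) hN0 c.den_ne_zero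
    (fun i => by
      push_cast
      rw [hqA, hqB, hqP, ← hnq]
      ring) hV
  have hz0 : z ≠ 0 := by
    rintro rfl
    exact h1 (by unfold g; ring)
  have hw0 : g a c z ≠ 0 := by
    intro hw
    have h3 : ∀ k : ℕ, x (k + 1) = 0 := by
      intro k
      induction k with
      | zero => exact hw
      | succ k ih =>
        rw [← hxs (k + 1), ih]
        unfold g
        ring
    obtain ⟨k, hk⟩ := Nat.exists_eq_succ_of_ne_zero hN0.ne'
    have h4 := hxN 0
    rw [zero_add, hk, Nat.succ_eq_add_one, h3 k, hx0] at h4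
    exact hz0 h4.symm
  have haq : (a : ℚ) ≠ 0 := by exact_mod_cast ha
  refine ⟨(q 0).1, (q 0).2.1, (q 0).2.2, hqA 0, hqB 0, ?_, ?_, ?_, ?_, hu, hv⟩
  · have : (((q 0).1 * (q 0).2.1 : ℤ) : ℚ) = (((q 0).2.2 ^ 2 : ℤ) : ℚ) := by
      push_cast
      rw [hqA, hqB, hqP]
      ring
    exact_mod_cast this
  · have : ((c.den * (q 0).2.2 : ℤ) : ℚ) = (((q 0).1 * ((q 0).1 + c.num) : ℤ) : ℚ) := by
      push_cast
      rw [hqA, hqP, ← hnq, ← hxs 0]
      unfold g
      ring
    exact_mod_cast this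
  · intro h
    have h3 := hqA 0
    rw [h, hx0] at h3
    push_cast at h3
    have h4 : (c.den : ℚ) * (a * z ^ 2) ≠ 0 := mul_ne_zero hnq0 (mul_ne_zero haq (pow_ne_zero _ hz0))
    exact h4 h3.symm
  · intro h
    have h3 := hqP 0
    rw [h, zero_add, hx0, hx1] at h3
    push_cast at h3
    have h4 : (c.den : ℚ) * (a * z * g a c z) ≠ 0 :=
      mul_ne_zero hnq0 (mul_ne_zero (mul_ne_zero haq hz0) hw0)
    exact h4 h3.symm

end Pool.Agent.X12.Cub
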