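import Pool.Agent.X12.Szp10

/-!
# Arithmetic lemmas for the count of all elliptic curves
-/

set_option autoImplicit false

namespace Pool.Agent.X12.Szp

open Finset Filter Topology Pool.Agent.H328R2.ABC

/-- the part of `n` supported on the primes of `m` -/
lemma split_part (m : ℕ) (hm : m ≠ 0) (n : ℕ) : 1 ≤ n → ∃ n1 n2 : ℕ, n = n1 * n2 ∧ 1 ≤ n1 ∧
    n1.primeFactors ⊆ m.primeFactors ∧ Nat.Coprime n2 m := by
  induction n using Nat.strong_induction_on with
  | _ n ih =>
    intro hn
    by_cases h : Nat.Coprime n m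
    · exact ⟨1, n, by ring, le_rfl, by simp, h⟩
    · obtain ⟨p, hp, hpn, hpm⟩ := Nat.Prime.not_coprime_iff_dvd.1 h
      obtain ⟨k, hk⟩ := hpn
      have hk0 : 1 ≤ k := by
        rcases Nat.eq_zero_or_pos k with h0 | h0
        · rw [h0] at hk
          omega
        · exact h0
      have hkn : k < n := by
        rw [hk]
        have := hp.two_le
        nlinarith
      obtain ⟨n1, n2, h1, h2, h3, h4⟩ := ih k hkn hk0
      refine ⟨p * n1, n2, by rw [hk, h1]; ring, Nat.mul_pos hp.pos h2, ?_, h4⟩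
      rw [Nat.primeFactors_mul hp.ne_zero (by omega), hp.primeFactors]
      refine Finset.union_subset ?_ h3
      rw [Finset.singleton_subset_iff]
      exact Nat.mem_primeFactors.2 ⟨hp, hpm, hm⟩

lemma prod_local_le (ε : ℝ) (hε : 0 < ε) : ∃ C : ℝ, 0 < C ∧ ∀ m : ℕ, 1 ≤ m →
    ∏ p ∈ m.primeFactors, (1 - (p : ℝ) ^ (-ε))⁻¹ ≤ C * (m : ℝ) ^ ε := by
  set c := (1 - (2 : ℝ) ^ (-ε))⁻¹ with hc
  have h2 : (2 : ℝ) ^ (-ε) < 1 := Real.rpow_lt_one_of_one_lt_of_neg (by norm_num) (by linarith)
  have h20 : 0 < (2 : ℝ) ^ (-ε) := by positivity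
  have hc1 : 1 ≤ c := by
    rw [hc]
    exact (one_le_inv₀ (by linarith)).2 (by linarith)
  set P := ⌈(2 : ℝ) ^ (1 / ε)⌉₊ with hP
  refine ⟨c ^ P, by positivity, fun m hm => ?_⟩
  have h1 : ∀ p ∈ m.primeFactors, (1 - (p : ℝ) ^ (-ε))⁻¹ ≤ (if p < P then c else 1) *
      (p : ℝ) ^ ε := by
    intro p hp
    have hp' := Nat.prime_of_mem_primeFactors hp
    have hp2 : (2 : ℝ) ≤ p := by exact_mod_cast hp'.two_le
    have hp0 : (0 : ℝ) < p := by linarith
    have hpe : 1 ≤ (p : ℝ) ^ ε := Real.one_le_rpow (by linarith) hε.le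
    have hpn : 0 < (p : ℝ) ^ (-ε) := by positivity
    split_ifs with hlt
    · have h3 : (1 - (p : ℝ) ^ (-ε))⁻¹ ≤ c := by
        rw [hc]
        apply inv_anti₀ (by linarith)
        have : (p : ℝ) ^ (-ε) ≤ (2 : ℝ) ^ (-ε) :=
          Real.rpow_le_rpow_of_nonpos (by norm_num) hp2 (by linarith)
        linarith
      nlinarith
    · push Not at hlt
      have h3 : (2 : ℝ) ^ (1 / ε) ≤ p := (Nat.le_ceil _).trans (by exact_mod_cast hlt)
      have h4 : (2 : ℝ) ≤ (p : ℝ) ^ ε := by
        have h5 : (2 : ℝ) = ((2 : ℝ) ^ (1 / ε)) ^ ε := by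
          rw [← Real.rpow_mul (by norm_num), one_div_mul_cancel hε.ne', Real.rpow_one]
        rw [h5]
        exact Real.rpow_le_rpow (by positivity) h3 hε.le
      rw [one_mul]
      have h5 : (p : ℝ) ^ (-ε) = ((p : ℝ) ^ ε)⁻¹ := Real.rpow_neg hp0.le _
      rw [h5]
      have h6 : ((p : ℝ) ^ ε)⁻¹ ≤ 1 / 2 := by
        rw [inv_le_comm₀ (by positivity) (by norm_num)]
        norm_num
        exact h4
      rw [inv_le_comm₀ (by linarith) (by positivity)]
      linarith
  have h3 : ∏ p ∈ m.primeFactors, ((if p < P then c else 1) * (p : ℝ) ^ ε) =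
      (∏ p ∈ m.primeFactors, (if p < P then c else 1)) * ∏ p ∈ m.primeFactors, (p : ℝ) ^ ε :=
    Finset.prod_mul_distrib
  have h4 : ∏ p ∈ m.primeFactors, (if p < P then c else (1 : ℝ)) ≤ c ^ P := by
    rw [Finset.prod_ite, Finset.prod_const_one, mul_one, Finset.prod_const]
    apply pow_le_pow_right₀ hc1
    calc (m.primeFactors.filter (fun p => p < P)).card ≤ (Finset.range P).card := by
          apply Finset.card_le_card
          intro p hp
          rw [Finset.mem_filter] at hp
          exact Finset.mem_range.2 hp.2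
      _ = P := Finset.card_range P
  have h5 : ∏ p ∈ m.primeFactors, (p : ℝ) ^ ε ≤ (m : ℝ) ^ ε := by
    rw [Real.finsetProd_rpow _ _ (fun p _ => Nat.cast_nonneg p)]
    refine Real.rpow_le_rpow (Finset.prod_nonneg fun p _ => Nat.cast_nonneg p) ?_ hε.le
    have := rad_le hm
    unfold rad at this
    rw [← Nat.cast_prod]
    exact_mod_cast this
  calc ∏ p ∈ m.primeFactors, (1 - (p : ℝ) ^ (-ε))⁻¹ ≤
      ∏ p ∈ m.primeFactors, ((if p < P then c else 1) * (p : ℝ) ^ ε) := by
        refine Finset.prod_le_prod (fun p hp => ?_) h1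
        have hp' := Nat.prime_of_mem_primeFactors hp
        have hp2 : (2 : ℝ) ≤ p := by exact_mod_cast hp'.two_le
        have : (p : ℝ) ^ (-ε) < 1 := Real.rpow_lt_one_of_one_lt_of_neg (by linarith) (by linarith)
        exact inv_nonneg.2 (by linarith)
    _ ≤ c ^ P * (m : ℝ) ^ ε := by
        rw [h3]
        have : 0 ≤ ∏ p ∈ m.primeFactors, (p : ℝ) ^ ε :=
          Finset.prod_nonneg fun p _ => by positivity
        gcongr

/-- `n ↦ n ^ (-ε)` -/
noncomputable def powHom (ε : ℝ) : ℕ →* ℝ where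
  toFun n := (n : ℝ) ^ (-ε)
  map_one' := by simp
  map_mul' m n := by
    push_cast
    exact Real.mul_rpow (by positivity) (by positivity)

/-- there are few numbers all of whose primes divide `m` -/
theorem supp_count (ε : ℝ) (hε : 0 < ε) : ∃ C : ℝ, 0 < C ∧ ∀ m Y : ℕ, 1 ≤ m → 1 ≤ Y →
    (((Finset.Icc 1 Y).filter (fun n => n.primeFactors ⊆ m.primeFactors)).card : ℝ) ≤
      C * (Y : ℝ) ^ ε * (m : ℝ) ^ ε := by
  obtain ⟨C, hC, h⟩ := prod_local_le ε hε
  refine ⟨C, hC, fun m Y hm hY => ?_⟩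
  have hlt : ∀ {p : ℕ}, p.Prime → ‖powHom ε p‖ < 1 := by
    intro p hp
    have hp1 : (1 : ℝ) < p := by exact_mod_cast hp.one_lt
    show ‖(p : ℝ) ^ (-ε)‖ < 1
    rw [Real.norm_of_nonneg (by positivity)]
    exact Real.rpow_lt_one_of_one_lt_of_neg hp1 (by linarith)
  have h1 := (EulerProduct.summable_and_hasSum_factoredNumbers_prod_filter_prime_geometric
    (f := powHom ε) hlt m.primeFactors).2
  have h2 : HasSum ((Nat.factoredNumbers m.primeFactors).indicator (powHom ε))
      (∏ p ∈ m.primeFactors with p.Prime, (1 - powHom ε p)⁻¹) := by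
    rw [← hasSum_subtype_iff_indicator]
    exact h1
  have h3 := sum_le_hasSum ((Finset.Icc 1 Y).filter
    (fun n => n.primeFactors ⊆ m.primeFactors)) (fun n _ => by
      apply Set.indicator_nonneg
      intro n _
      show 0 ≤ (n : ℝ) ^ (-ε)
      positivity) h2
  have h4 : ∀ n ∈ (Finset.Icc 1 Y).filter (fun n => n.primeFactors ⊆ m.primeFactors),
      (Y : ℝ) ^ (-ε) ≤ (Nat.factoredNumbers m.primeFactors).indicator (powHom ε) n := by
    intro n hn
    rw [Finset.mem_filter, Finset.mem_Icc] at hn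
    have hmem : n ∈ Nat.factoredNumbers m.primeFactors := by
      rw [Nat.mem_factoredNumbers']
      intro p hp hpn
      exact hn.2 (Nat.mem_primeFactors.2 ⟨hp, hpn, by omega⟩)
    rw [Set.indicator_of_mem hmem]
    show (Y : ℝ) ^ (-ε) ≤ (n : ℝ) ^ (-ε)
    exact Real.rpow_le_rpow_of_nonpos (by exact_mod_cast (by omega : 0 < n))
      (by exact_mod_cast hn.1.2) (by linarith)
  have h5 := (Finset.sum_le_sum h4).trans h3
  rw [Finset.sum_const, nsmul_eq_mul] at h5
  have h6 : ∏ p ∈ m.primeFactors with p.Prime, (1 - powHom ε p)⁻¹ =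
      ∏ p ∈ m.primeFactors, (1 - (p : ℝ) ^ (-ε))⁻¹ := by
    rw [Finset.filter_true_of_mem fun p hp => Nat.prime_of_mem_primeFactors hp]
    rfl
  rw [h6] at h5
  have hY0 : (0 : ℝ) < Y := by exact_mod_cast hY
  have h7 := h5.trans (h m hm)
  rw [Real.rpow_neg hY0.le, ← div_eq_mul_inv, div_le_iff₀ (by positivity)] at h7
  linarith

lemma rad_factorization {n : ℕ} (hn : n ≠ 0) {p : ℕ} (hp : p.Prime) :
    (rad n).factorization p = if p ∣ n then 1 else 0 := by
  classical
  unfold rad
  rw [Nat.factorization_prod (fun q hq => (Nat.prime_of_mem_primeFactors hq).ne_zero),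
    Finsupp.finsetSum_apply]
  have h1 : ∀ q ∈ n.primeFactors, (q.factorization) p = if q = p then 1 else 0 := by
    intro q hq
    rw [(Nat.prime_of_mem_primeFactors hq).factorization, Finsupp.single_apply]
  rw [Finset.sum_congr rfl h1, Finset.sum_ite_eq']
  by_cases h : p ∣ n
  · rw [if_pos h, if_pos (Nat.mem_primeFactors.2 ⟨hp, h, hn⟩)]
  · rw [if_neg h, if_neg (fun h' => h (Nat.dvd_of_mem_primeFactors h'))]

/-- the local inequality behind the count -/
lemma gcd_dvd {a b : ℕ} (ha : a ≠ 0) (hb : b ≠ 0)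
    (hmin : ∀ p : ℕ, p.Prime → ¬ (p ^ 4 ∣ a ∧ p ^ 6 ∣ b)) :
    Nat.gcd (4 * a ^ 3) (27 * b ^ 2) * rad a ∣ 6 ^ 14 * (b * a * rad (Nat.gcd a b) ^ 2) := by
  have hg : Nat.gcd a b ≠ 0 := Nat.gcd_ne_zero_left ha
  have hr1 : rad a ≠ 0 := (rad_pos a).ne'
  have hr2 : rad (Nat.gcd a b) ≠ 0 := (rad_pos _).ne'
  have hG : Nat.gcd (4 * a ^ 3) (27 * b ^ 2) ≠ 0 := Nat.gcd_ne_zero_left (by positivity)
  rw [← Nat.factorization_prime_le_iff_dvd (by positivity) (by positivity)]
  intro p hp
  rw [Nat.factorization_mul hG hr1, Nat.factorization_mul (by positivity) (by positivity),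
    Nat.factorization_mul (by positivity) (by positivity), Nat.factorization_mul hb ha,
    Nat.factorization_gcd (by positivity) (by positivity), Nat.factorization_pow,
    Nat.factorization_pow, Nat.factorization_mul (by norm_num) (by positivity),
    Nat.factorization_mul (by norm_num) (by positivity), Nat.factorization_pow,
    Nat.factorization_pow]
  simp only [Finsupp.add_apply, Finsupp.inf_apply, Finsupp.smul_apply, smul_eq_mul,
    rad_factorization ha hp, rad_factorization hg hp]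
  have e1 : p ^ 4 ∣ a ↔ 4 ≤ a.factorization p := hp.pow_dvd_iff_le_factorization ha
  have e2 : p ^ 6 ∣ b ↔ 6 ≤ b.factorization p := hp.pow_dvd_iff_le_factorization hb
  have e3 : p ∣ a ↔ 1 ≤ a.factorization p := by
    have := hp.pow_dvd_iff_le_factorization (k := 1) ha
    rwa [pow_one] at this
  have e4 : p ∣ b ↔ 1 ≤ b.factorization p := by
    have := hp.pow_dvd_iff_le_factorization (k := 1) hb
    rwa [pow_one] at this
  have e5 : p ∣ Nat.gcd a b ↔ 1 ≤ a.factorization p ∧ 1 ≤ b.factorization p := by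
    rw [Nat.dvd_gcd_iff, e3, e4]
  have hm := hmin p hp
  rw [e1, e2] at hm
  simp only [e5, e3]
  set α := a.factorization p
  set β := b.factorization p
  by_cases hp6 : p ∣ 6
  · have h6 : 1 ≤ (6 : ℕ).factorization p := by
      have := hp.pow_dvd_iff_le_factorization (k := 1) (n := 6) (by norm_num)
      rw [pow_one] at this
      exact this.1 hp6
    have h4 : (4 : ℕ).factorization p ≤ 2 := by
      by_contra hcon
      push Not at hcon
      have := (hp.pow_dvd_iff_le_factorization (k := 3) (n := 4) (by norm_num)).2 hcon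
      have h8 : 2 ^ 3 ≤ p ^ 3 := Nat.pow_le_pow_left hp.two_le 3
      have := Nat.le_of_dvd (by norm_num) this
      omega
    have h27 : (27 : ℕ).factorization p ≤ 3 := by
      by_contra hcon
      push Not at hcon
      have h9 := (hp.pow_dvd_iff_le_factorization (k := 4) (n := 27) (by norm_num)).2 hcon
      have h8 : 2 ^ 4 ≤ p ^ 4 := Nat.pow_le_pow_left hp.two_le 4
      have h10 := Nat.le_of_dvd (by norm_num) h9
      have hp2 : p = 2 := by
        by_contra hne
        have : 3 ≤ p := by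
          have := hp.two_le
          omega
        have : 3 ^ 4 ≤ p ^ 4 := Nat.pow_le_pow_left this 4
        omega
      rw [hp2] at h9
      omega
    split_ifs <;> omega
  · have h6 : (6 : ℕ).factorization p = 0 := Nat.factorization_eq_zero_of_not_dvd hp6
    have h2 : ¬ p ∣ 2 := fun h => hp6 (h.trans (by norm_num))
    have h3 : ¬ p ∣ 3 := fun h => hp6 (h.trans (by norm_num))
    have h4 : (4 : ℕ).factorization p = 0 := by
      apply Nat.factorization_eq_zero_of_not_dvd
      intro h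
      exact h2 (hp.dvd_of_dvd_pow (show p ∣ 2 ^ 2 by norm_num; exact h))
    have h27 : (27 : ℕ).factorization p = 0 := by
      apply Nat.factorization_eq_zero_of_not_dvd
      intro h
      exact h3 (hp.dvd_of_dvd_pow (show p ∣ 3 ^ 3 by norm_num; exact h))
    split_ifs <;> omega

end Pool.Agent.X12.Szp
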