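import Pool.Agent.X12.Dyn1
import Pool.Agent.X12.Szp11

/-!
# The number of the quadratic polynomials with many rational preperiodic points: upper bounds
-/

set_option autoImplicit false

namespace Pool.Agent.X12.Dyn

open Function Finset

/-- height at most `X` -/
def HtLe (X : ℝ) (c : ℚ) : Prop := |(c.num : ℝ)| ≤ X ∧ (c.den : ℝ) ≤ X

/-- more than `N` rational preperiodic points -/
def Many (N : ℕ) (X : ℝ) : Set ℚ := {c | HtLe X c ∧ (N : ℕ∞) < (Pre c).encard}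

/-- a rational point of period at least three -/
def Long (X : ℝ) : Set ℚ := {c | HtLe X c ∧ ∃ z : ℚ, 3 ≤ minimalPeriod (f c) z}

/-- the integers composed of primes of `d` -/
noncomputable def TS (Y : ℝ) (d : ℕ) : Finset ℤ := by
  classical
  exact (Finset.Icc (-⌊Y⌋) ⌊Y⌋).filter fun s => s ≠ 0 ∧ s.natAbs.primeFactors ⊆ d.primeFactors

lemma mem_TS {Y : ℝ} {d : ℕ} {s : ℤ} (h1 : |(s : ℝ)| ≤ Y) (h2 : s ≠ 0)
    (h3 : s.natAbs.primeFactors ⊆ d.primeFactors) : s ∈ TS Y d := by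
  classical
  unfold TS
  rw [Finset.mem_filter]
  exact ⟨Szp.mem_of_abs_le h1, h2, h3⟩

theorem TS_card (ε : ℝ) (hε : 0 < ε) : ∃ C : ℝ, 0 < C ∧ ∀ (Y : ℝ) (d : ℕ), 1 ≤ Y → 1 ≤ d →
    ((TS Y d).card : ℝ) ≤ C * Y ^ ε * (d : ℝ) ^ ε := by
  classical
  obtain ⟨C, hC, h⟩ := Szp.supp_count ε hε
  refine ⟨2 * C, by positivity, fun Y d hY hd => ?_⟩
  set M := ⌊Y⌋₊ with hM
  have hM1 : 1 ≤ M := Nat.le_floor (by simpa using hY)
  have hMY : (M : ℝ) ≤ Y := Nat.floor_le (by linarith)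
  set F := (Finset.Icc 1 M).filter (fun n => n.primeFactors ⊆ d.primeFactors) with hF
  have hsub : TS Y d ⊆ (F.image fun n : ℕ => (n : ℤ)) ∪ F.image fun n : ℕ => -(n : ℤ) := by
    intro s hs
    unfold TS at hs
    rw [Finset.mem_filter, Finset.mem_Icc] at hs
    obtain ⟨⟨h1, h2⟩, h3, h4⟩ := hs
    have h5 : s.natAbs ∈ F := by
      rw [hF, Finset.mem_filter, Finset.mem_Icc]
      refine ⟨⟨Int.natAbs_pos.2 h3, ?_⟩, h4⟩
      have h6 : (s.natAbs : ℤ) ≤ ⌊Y⌋ := by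
        rw [Int.natCast_natAbs, abs_le]
        exact ⟨h1, h2⟩
      have h7 : ((M : ℕ) : ℤ) = ⌊Y⌋ := Int.natCast_floor_eq_floor (by linarith)
      rw [← h7] at h6
      exact_mod_cast h6
    rw [Finset.mem_union, Finset.mem_image, Finset.mem_image]
    rcases Int.natAbs_eq s with h6 | h6
    · exact Or.inl ⟨_, h5, h6.symm⟩
    · exact Or.inr ⟨_, h5, h6.symm⟩
  have h1 : (TS Y d).card ≤ F.card + F.card :=
    (Finset.card_le_card hsub).trans ((Finset.card_union_le _ _).trans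
      (Nat.add_le_add Finset.card_image_le Finset.card_image_le))
  have h2 := h d M hd hM1
  have h3 : (M : ℝ) ^ ε ≤ Y ^ ε := Real.rpow_le_rpow (Nat.cast_nonneg _) hMY hε.le
  have h4 : (0 : ℝ) ≤ (d : ℝ) ^ ε := by positivity
  calc ((TS Y d).card : ℝ) ≤ (F.card : ℝ) + F.card := by exact_mod_cast h1
    _ ≤ C * (M : ℝ) ^ ε * (d : ℝ) ^ ε + C * (M : ℝ) ^ ε * (d : ℝ) ^ ε := by linarith
    _ ≤ C * Y ^ ε * (d : ℝ) ^ ε + C * Y ^ ε * (d : ℝ) ^ ε := by gcongr
    _ = 2 * C * Y ^ ε * (d : ℝ) ^ ε := by ring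

/-- counting rationals with a square denominator -/
lemma count_by_den {R K : ℝ} (hR : 0 ≤ R) (hK : 0 ≤ K) (F : ℕ → Finset ℤ) (S : Set ℚ)
    (h : ∀ c ∈ S, ∃ d : ℕ, 1 ≤ d ∧ (d : ℝ) ≤ R ∧ c.den = d ^ 2 ∧ c.num ∈ F d)
    (hF : ∀ d : ℕ, 1 ≤ d → (d : ℝ) ≤ R → ((F d).card : ℝ) ≤ K) :
    S.Finite ∧ (S.ncard : ℝ) ≤ R * K := by
  classical
  set P : Finset (Σ _ : ℕ, ℤ) := (Finset.Icc 1 ⌊R⌋₊).sigma F with hP
  set I : Finset ℚ := P.image fun z => (z.2 : ℚ) / ((z.1 : ℚ) ^ 2) with hI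
  have hsub : S ⊆ (I : Set ℚ) := by
    intro c hc
    obtain ⟨d, h1, h2, h3, h4⟩ := h c hc
    rw [hI, Finset.mem_coe, Finset.mem_image]
    refine ⟨⟨d, c.num⟩, ?_, ?_⟩
    · rw [hP, Finset.mem_sigma, Finset.mem_Icc]
      exact ⟨⟨h1, Nat.le_floor h2⟩, h4⟩
    · simp only
      conv_rhs => rw [← Rat.num_div_den c]
      rw [h3]
      push_cast
      rfl
  refine ⟨I.finite_toSet.subset hsub, ?_⟩
  have h1 := Set.ncard_le_ncard hsub I.finite_toSet
  rw [Set.ncard_coe_finset] at h1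
  have h2 : I.card ≤ P.card := Finset.card_image_le
  have h3 : (P.card : ℝ) ≤ R * K := by
    rw [hP, Finset.card_sigma]
    push_cast
    calc ∑ d ∈ Finset.Icc 1 ⌊R⌋₊, ((F d).card : ℝ) ≤ ∑ _d ∈ Finset.Icc 1 ⌊R⌋₊, K := by
          refine Finset.sum_le_sum fun d hd => ?_
          rw [Finset.mem_Icc] at hd
          exact hF d hd.1 ((Nat.le_floor_iff hR).1 hd.2)
      _ = (⌊R⌋₊ : ℝ) * K := by
          rw [Finset.sum_const, Nat.card_Icc, Nat.add_sub_cancel, nsmul_eq_mul]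
      _ ≤ R * K := by
          have := Nat.floor_le hR
          gcongr
  calc (S.ncard : ℝ) ≤ (P.card : ℝ) := by exact_mod_cast h1.trans h2
    _ ≤ R * K := h3

/-- the numerator from the sums of consecutive points of a long cycle -/
def nA (d : ℕ) (z : ℤ × ℤ) : ℤ :=
  d * ((z.1 ^ 2 + d * z.2) / (2 * (z.1 + d))) -
    (z.1 - (z.1 ^ 2 + d * z.2) / (2 * (z.1 + d))) ^ 2

/-- the numerator in the first case -/
def nB1 (d : ℕ) (s : ℤ) : ℤ :=
  d * (d + (s + d ^ 2 / s) / 2) - (d + (s + d ^ 2 / s) / 2) ^ 2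

/-- the numerator in the second case -/
def nB2 (d : ℕ) (s : ℤ) : ℤ :=
  d * ((s + d ^ 2 / s + d) / 2) - ((s + d ^ 2 / s + d) / 2) ^ 2

/-- the numerator in the third case -/
def nB3 (d : ℕ) (s : ℤ) : ℤ :=
  -d ^ 2 - d * ((s - d ^ 2 / s) / 2) - ((s - d ^ 2 / s) / 2) ^ 2

lemma den_le {c z : ℚ} {R : ℝ} (hR : 0 ≤ R) (hc : HtLe (R ^ 2) c) (hz : z ∈ Pre c) :
    1 ≤ z.den ∧ (z.den : ℝ) ≤ R ∧ c.den = z.den ^ 2 := by
  have h1 := pre_den hz
  refine ⟨z.den_pos, ?_, h1.symm⟩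
  have h2 : ((z.den : ℝ)) ^ 2 ≤ R ^ 2 := by
    have h3 : ((z.den ^ 2 : ℕ) : ℝ) = (c.den : ℝ) := by exact_mod_cast h1
    push_cast at h3
    rw [h3]
    exact hc.2
  exact (pow_le_pow_iff_left₀ (Nat.cast_nonneg _) hR (by norm_num)).1 h2

lemma nb {c z : ℚ} {R : ℝ} (hR : 0 ≤ R) (hc : HtLe (R ^ 2) c) (hz : z ∈ Pre c) :
    |(z.num : ℝ)| ≤ 2 * R :=
  num_bound hz hR (den_le hR hc hz).2.1 hc.1

lemma mem_long {c z : ℚ} {R : ℝ} (hR : 0 ≤ R) (hc : HtLe (R ^ 2) c)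
    (h3 : 3 ≤ minimalPeriod (f c) z) :
    z ∈ Pre c ∧ c.num ∈ (TS (5 * R) z.den ×ˢ TS (5 * R) z.den).image (nA z.den) := by
  classical
  have hz : z ∈ periodicPts (f c) := minimalPeriod_pos_iff_mem_periodicPts.1 (by omega)
  have hpre := pre_of_periodic hz
  refine ⟨hpre, ?_⟩
  obtain ⟨a1, a2, a3⟩ := cycle_sum hz h3
  have hz' : f c z ∈ periodicPts (f c) := by
    have hb := hz
    obtain ⟨n, hn, hp⟩ := hb
    exact mk_mem_periodicPts hn (by
      show (f c)^[n] (f c z) = f c z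
      rw [← Function.iterate_succ_apply, Function.iterate_succ_apply', hp.eq])
  have h3' : 3 ≤ minimalPeriod (f c) (f c z) := by
    rw [minimalPeriod_apply hz]
    exact h3
  obtain ⟨b1, b2, -⟩ := cycle_sum hz' h3'
  rw [den_eq (pre_apply hpre) hpre] at b2
  have n0 := abs_le.1 (nb hR hc hpre)
  have n1 := abs_le.1 (nb hR hc (pre_apply hpre))
  have n2 := abs_le.1 (nb hR hc (pre_apply (pre_apply hpre)))
  set s := z.num + (f c z).num with hs
  set t := (f c z).num + (f c (f c z)).num with ht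
  rw [Finset.mem_image]
  refine ⟨(s, t), Finset.mem_product.2 ⟨mem_TS ?_ a1 a2, mem_TS ?_ b1 b2⟩, ?_⟩
  · simp only
    rw [hs, abs_le]
    push_cast
    constructor <;> linarith [n0.1, n0.2, n1.1, n1.2]
  · simp only
    rw [ht, abs_le]
    push_cast
    constructor <;> linarith [n2.1, n2.2, n1.1, n1.2]
  · have h5 := cycle_eq hpre
    have h6 : (s ^ 2 + z.den * t) / (2 * (s + z.den)) = (f c z).num := by
      refine Int.ediv_eq_of_eq_mul_right (mul_ne_zero two_ne_zero a3) ?_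
      rw [hs, ht]
      linear_combination -h5
    unfold nA
    simp only
    rw [h6]
    have h7 := pre_step hpre
    rw [hs]
    linear_combination -h7

lemma TS_of_dvd {Y : ℝ} {d : ℕ} {s t : ℤ} (hd : 1 ≤ d) (h : s * t = (d : ℤ) ^ 2)
    (h1 : |(s : ℝ)| ≤ Y) : s ∈ TS Y d ∧ (d : ℤ) ^ 2 / s = t := by
  have hd0 : (d : ℤ) ^ 2 ≠ 0 := by
    have : (0 : ℤ) < d := by exact_mod_cast hd
    positivity
  have hs : s ≠ 0 := by
    rintro rfl
    rw [zero_mul] at h
    exact hd0 h.symm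
  refine ⟨mem_TS h1 hs ?_, Int.ediv_eq_of_eq_mul_right hs h.symm⟩
  have h2 : s.natAbs ∣ d ^ 2 := by
    have := Int.natAbs_dvd_natAbs.2 (Dvd.intro _ h)
    rwa [Int.natAbs_pow, Int.natAbs_natCast] at this
  have h3 := Nat.primeFactors_mono h2 (by positivity)
  rwa [Nat.primeFactors_pow _ two_ne_zero] at h3

lemma num_one_sub {c q : ℚ} (hq : q ∈ Pre c) (h : f c q = -1 - q) :
    (f c q).num = -q.den - q.num := by
  have hd := den_eq (pre_apply hq) hq
  have hd0 : (q.den : ℚ) ≠ 0 := by exact_mod_cast q.den_ne_zero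
  have e1 : ((f c q).num : ℚ) / (f c q).den = f c q := Rat.num_div_den _
  have e2 : (q.num : ℚ) / q.den = q := Rat.num_div_den _
  have e3 : ((f c q).num : ℚ) / q.den = -1 - (q.num : ℚ) / q.den := by
    rw [e2, ← h, ← hd]
    exact e1
  have e4 : ((f c q).num : ℚ) = -q.den - q.num := by
    field_simp at e3
    linarith
  exact_mod_cast e4

/-- all numerators for a given denominator -/
noncomputable def FB (R : ℝ) (d : ℕ) : Finset ℤ := by
  classical
  exact (TS (5 * R) d ×ˢ TS (5 * R) d).image (nA d) ∪ ((TS (5 * R) d).image (nB1 d) ∪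
    ((TS (5 * R) d).image (nB2 d) ∪ (TS (5 * R) d).image (nB3 d)))

theorem mem_FB {c : ℚ} {R : ℝ} (hR : 0 ≤ R) (hc : HtLe (R ^ 2) c)
    (h4 : (4 : ℕ∞) < (Pre c).encard) :
    ∃ d : ℕ, 1 ≤ d ∧ (d : ℝ) ≤ R ∧ c.den = d ^ 2 ∧ c.num ∈ FB R d := by
  classical
  by_cases hlong : ∃ z : ℚ, 3 ≤ minimalPeriod (f c) z
  · obtain ⟨z, hz⟩ := hlong
    obtain ⟨h1, h2⟩ := mem_long hR hc hz
    obtain ⟨d1, d2, d3⟩ := den_le hR hc h1
    refine ⟨z.den, d1, d2, d3, ?_⟩
    unfold FB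
    rw [Finset.mem_union]
    exact Or.inl h2
  push Not at hlong
  have hper : ∀ y ∈ periodicPts (f c), f c (f c y) = y := by
    intro y hy
    have h1 := hlong y
    have h2 : 0 < minimalPeriod (f c) y := minimalPeriod_pos_of_mem_periodicPts hy
    have h3 : IsPeriodicPt (f c) (minimalPeriod (f c) y) y := isPeriodicPt_minimalPeriod _ _
    have h4 : minimalPeriod (f c) y = 1 ∨ minimalPeriod (f c) y = 2 := by omega
    rcases h4 with h4 | h4
    · rw [h4] at h3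
      have h5 : f c y = y := h3
      rw [h5, h5]
    · rw [h4] at h3
      exact h3
  rcases short_cases h4 hper with ⟨p, w, hp, hw, h1, h2⟩ | ⟨p, q, hp, hq, h1, h2⟩ |
    ⟨q, w, hq, hw, h1, h2⟩
  · obtain ⟨d1, d2, d3⟩ := den_le hR hc hp
    refine ⟨p.den, d1, d2, d3, ?_⟩
    have n0 := abs_le.1 (nb hR hc hp)
    have n1 := abs_le.1 (nb hR hc hw)
    have s1 := pre_step hp
    have s2 := pre_step hw
    rw [h1] at s1
    rw [h2, den_eq hw hp, Rat.num_neg_eq_neg_num] at s2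
    have hmul : (p.num - p.den - w.num) * (p.num - p.den + w.num) = (p.den : ℤ) ^ 2 := by
      linear_combination s1 - s2
    obtain ⟨m1, m2⟩ := TS_of_dvd (Y := 5 * R) d1 hmul (by
      rw [abs_le]
      push_cast
      constructor <;> linarith [n0.1, n0.2, n1.1, n1.2, (Nat.cast_nonneg p.den : (0 : ℝ) ≤ p.den)])
    unfold FB
    rw [Finset.mem_union, Finset.mem_union]
    refine Or.inr (Or.inl (Finset.mem_image.2 ⟨_, m1, ?_⟩))
    unfold nB1
    rw [m2]
    have e : (p.num - p.den - w.num + (p.num - p.den + w.num)) / 2 = p.num - p.den := by omega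
    rw [e]
    linear_combination -s1
  · obtain ⟨d1, d2, d3⟩ := den_le hR hc hp
    refine ⟨p.den, d1, d2, d3, ?_⟩
    have n0 := abs_le.1 (nb hR hc hp)
    have n1 := abs_le.1 (nb hR hc hq)
    have s1 := pre_step hp
    have s2 := pre_step hq
    rw [h1] at s1
    rw [num_one_sub hq h2, den_eq hq hp] at s2
    have hmul : (p.num + q.num) * (p.num - q.num - p.den) = (p.den : ℤ) ^ 2 := by
      linear_combination s1 - s2
    obtain ⟨m1, m2⟩ := TS_of_dvd (Y := 5 * R) d1 hmul (by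
      rw [abs_le]
      push_cast
      constructor <;> linarith [n0.1, n0.2, n1.1, n1.2])
    unfold FB
    rw [Finset.mem_union, Finset.mem_union, Finset.mem_union]
    refine Or.inr (Or.inr (Or.inl (Finset.mem_image.2 ⟨_, m1, ?_⟩)))
    unfold nB2
    rw [m2]
    have e : (p.num + q.num + (p.num - q.num - p.den) + p.den) / 2 = p.num := by omega
    rw [e]
    linear_combination -s1
  · obtain ⟨d1, d2, d3⟩ := den_le hR hc hq
    refine ⟨q.den, d1, d2, d3, ?_⟩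
    have n0 := abs_le.1 (nb hR hc hq)
    have n1 := abs_le.1 (nb hR hc hw)
    have s1 := pre_step hq
    have s2 := pre_step hw
    rw [num_one_sub hq h1] at s1
    rw [h2, den_eq hw hq, Rat.num_neg_eq_neg_num] at s2
    have hmul : (w.num + q.num) * (w.num - q.num) = (q.den : ℤ) ^ 2 := by
      linear_combination s2 - s1
    obtain ⟨m1, m2⟩ := TS_of_dvd (Y := 5 * R) d1 hmul (by
      rw [abs_le]
      push_cast
      constructor <;> linarith [n0.1, n0.2, n1.1, n1.2])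
    unfold FB
    rw [Finset.mem_union, Finset.mem_union, Finset.mem_union]
    refine Or.inr (Or.inr (Or.inr (Finset.mem_image.2 ⟨_, m1, ?_⟩)))
    unfold nB3
    rw [m2]
    have e : (w.num + q.num - (w.num - q.num)) / 2 = q.num := by omega
    rw [e]
    linear_combination -s1

theorem FB_card (ε : ℝ) (hε : 0 < ε) : ∃ C : ℝ, 0 < C ∧ ∀ (R : ℝ) (d : ℕ), 1 ≤ R → 1 ≤ d →
    (d : ℝ) ≤ R → ((FB R d).card : ℝ) ≤ C * R ^ ε := by
  classical
  obtain ⟨C0, hC0, h⟩ := TS_card (ε / 4) (by positivity)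
  set C := max C0 1 * 5 ^ (ε / 4) with hC
  have hC1 : 1 ≤ C := one_le_mul_of_one_le_of_one_le (le_max_right _ _)
    (Real.one_le_rpow (by norm_num) (by positivity))
  refine ⟨4 * C ^ 2, by positivity, fun R d hR hd hdR => ?_⟩
  have hR0 : 0 < R := by linarith
  have h1 := h (5 * R) d (by linarith) hd
  have hT : ((TS (5 * R) d).card : ℝ) ≤ C * R ^ (ε / 2) := by
    refine h1.trans ?_
    rw [Real.mul_rpow (by norm_num) hR0.le]
    have h2 : (d : ℝ) ^ (ε / 4) ≤ R ^ (ε / 4) :=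
      Real.rpow_le_rpow (Nat.cast_nonneg _) hdR (by positivity)
    have h3 : R ^ (ε / 2) = R ^ (ε / 4) * R ^ (ε / 4) := by
      rw [← Real.rpow_add hR0]
      congr 1
      ring
    rw [h3, hC]
    calc C0 * (5 ^ (ε / 4) * R ^ (ε / 4)) * (d : ℝ) ^ (ε / 4) ≤
        max C0 1 * (5 ^ (ε / 4) * R ^ (ε / 4)) * R ^ (ε / 4) := by
          have := le_max_left C0 1
          gcongr
      _ = _ := by ring
  have hone : 1 ≤ C * R ^ (ε / 2) :=
    one_le_mul_of_one_le_of_one_le hC1 (Real.one_le_rpow hR (by positivity))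
  set K := C * R ^ (ε / 2) with hK
  have hcard : (FB R d).card ≤ (TS (5 * R) d).card * (TS (5 * R) d).card +
      ((TS (5 * R) d).card + ((TS (5 * R) d).card + (TS (5 * R) d).card)) := by
    unfold FB
    refine (Finset.card_union_le _ _).trans (Nat.add_le_add ?_ ?_)
    · exact Finset.card_image_le.trans (Finset.card_product _ _).le
    · refine (Finset.card_union_le _ _).trans (Nat.add_le_add Finset.card_image_le ?_)
      exact (Finset.card_union_le _ _).trans (Nat.add_le_add Finset.card_image_le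
        Finset.card_image_le)
  have h0 : (0 : ℝ) ≤ ((TS (5 * R) d).card : ℝ) := Nat.cast_nonneg _
  calc ((FB R d).card : ℝ) ≤ ((TS (5 * R) d).card : ℝ) * (TS (5 * R) d).card +
      ((TS (5 * R) d).card + ((TS (5 * R) d).card + (TS (5 * R) d).card)) := by
        exact_mod_cast hcard
    _ ≤ K * K + (K + (K + K)) := by gcongr
    _ ≤ 4 * (K * K) := by nlinarith
    _ = 4 * C ^ 2 * R ^ ε := by
      have h3 : R ^ ε = R ^ (ε / 2) * R ^ (ε / 2) := by
        rw [← Real.rpow_add hR0]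
        congr 1
        ring
      rw [hK, h3]
      ring

lemma sqrt_facts {X : ℝ} (hX : 1 ≤ X) : 1 ≤ X ^ (1 / 2 : ℝ) ∧ (X ^ (1 / 2 : ℝ)) ^ 2 = X := by
  refine ⟨Real.one_le_rpow hX (by norm_num), ?_⟩
  rw [← Real.rpow_natCast, ← Real.rpow_mul (by linarith)]
  norm_num

/-- **Upper bound**: more than four preperiodic points -/
theorem many_upper (ε : ℝ) (hε : 0 < ε) : ∃ C : ℝ, 0 < C ∧ ∀ (N : ℕ) (X : ℝ), 4 ≤ N → 1 ≤ X →
    ((Many N X).ncard : ℝ) ≤ C * X ^ (1 / 2 + ε) := by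
  obtain ⟨C, hC, h⟩ := FB_card (2 * ε) (by positivity)
  refine ⟨C, hC, fun N X hN hX => ?_⟩
  have hX0 : 0 < X := by linarith
  obtain ⟨hR1, hR2⟩ := sqrt_facts hX
  set R := X ^ (1 / 2 : ℝ) with hR
  have hR0 : 0 ≤ R := by linarith
  have h1 := (count_by_den (K := C * R ^ (2 * ε)) hR0 (by positivity) (FB R) (Many N X) (by
    rintro c ⟨hc1, hc2⟩
    rw [← hR2] at hc1
    refine mem_FB hR0 hc1 (lt_of_le_of_lt ?_ hc2)
    exact_mod_cast hN) (fun d hd1 hd2 => h R d hR1 hd1 hd2)).2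
  refine h1.trans (le_of_eq ?_)
  have e : X ^ (1 / 2 + ε) = R * R ^ (2 * ε) := by
    rw [hR, ← Real.rpow_mul hX0.le, ← Real.rpow_add hX0]
    congr 1
    ring
  rw [e]
  ring

/-- **Upper bound**: a point of period at least three -/
theorem long_upper (ε : ℝ) (hε : 0 < ε) : ∃ C : ℝ, 0 < C ∧ ∀ X : ℝ, 1 ≤ X →
    (Long X).Finite ∧ ((Long X).ncard : ℝ) ≤ C * X ^ (1 / 2 + ε) := by
  classical
  obtain ⟨C, hC, h⟩ := FB_card (2 * ε) (by positivity)
  refine ⟨C, hC, fun X hX => ?_⟩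
  have hX0 : 0 < X := by linarith
  obtain ⟨hR1, hR2⟩ := sqrt_facts hX
  set R := X ^ (1 / 2 : ℝ) with hR
  have hR0 : 0 ≤ R := by linarith
  have h1 := count_by_den (K := C * R ^ (2 * ε)) hR0 (by positivity) (FB R) (Long X) (by
    rintro c ⟨hc1, z, hz⟩
    rw [← hR2] at hc1
    obtain ⟨g1, g2⟩ := mem_long hR0 hc1 hz
    obtain ⟨d1, d2, d3⟩ := den_le hR0 hc1 g1
    refine ⟨z.den, d1, d2, d3, ?_⟩
    unfold FB
    rw [Finset.mem_union]
    exact Or.inl g2) (fun d hd1 hd2 => h R d hR1 hd1 hd2)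
  refine ⟨h1.1, h1.2.trans (le_of_eq ?_)⟩
  have e : X ^ (1 / 2 + ε) = R * R ^ (2 * ε) := by
    rw [hR, ← Real.rpow_mul hX0.le, ← Real.rpow_add hX0]
    congr 1
    ring
  rw [e]
  ring

/-- all numerators for a given denominator -/
noncomputable def F0 (R : ℝ) (d : ℕ) : Finset ℤ := by
  classical
  exact FB R d ∪ (((Finset.Icc (-⌊2 * R⌋) ⌊2 * R⌋).image fun y : ℤ => d * y - y ^ 2) ∪
    (Finset.Icc (-⌊2 * R⌋) ⌊2 * R⌋).image fun y : ℤ => -(d : ℤ) ^ 2 - d * y - y ^ 2)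

theorem mem_F0 {c : ℚ} {R : ℝ} (hR : 0 ≤ R) (hc : HtLe (R ^ 2) c)
    (h : (Pre c).Nonempty) :
    ∃ d : ℕ, 1 ≤ d ∧ (d : ℝ) ≤ R ∧ c.den = d ^ 2 ∧ c.num ∈ F0 R d := by
  classical
  obtain ⟨z0, hz0⟩ := h
  obtain ⟨k, hk⟩ := exists_periodic hz0
  set y := (f c)^[k] z0 with hy
  have hpre := pre_of_periodic hk
  obtain ⟨d1, d2, d3⟩ := den_le hR hc hpre
  refine ⟨y.den, d1, d2, d3, ?_⟩
  unfold F0
  rw [Finset.mem_union, Finset.mem_union]
  by_cases h3 : 3 ≤ minimalPeriod (f c) y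
  · left
    unfold FB
    rw [Finset.mem_union]
    exact Or.inl (mem_long hR hc h3).2
  right
  have hb := mem_of_abs_le' (nb hR hc hpre)
  have s1 := pre_step hpre
  by_cases hfix : f c y = y
  · left
    rw [hfix] at s1
    exact Finset.mem_image.2 ⟨y.num, hb, by linear_combination -s1⟩
  · right
    have h2 : 0 < minimalPeriod (f c) y := minimalPeriod_pos_of_mem_periodicPts hk
    have h4 : IsPeriodicPt (f c) (minimalPeriod (f c) y) y := isPeriodicPt_minimalPeriod _ _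
    have h5 : minimalPeriod (f c) y = 1 ∨ minimalPeriod (f c) y = 2 := by omega
    have h6 : f c (f c y) = y := by
      rcases h5 with h5 | h5
      · rw [h5] at h4
        exact absurd h4 hfix
      · rw [h5] at h4
        exact h4
    have h7 : f c y = -1 - y := by
      unfold f at h6 hfix ⊢
      have h8 : (y ^ 2 + c - y) * (y ^ 2 + c + y + 1) = 0 := by linear_combination h6
      have h9 := (mul_eq_zero.1 h8).resolve_left (sub_ne_zero.2 hfix)
      linarith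
    rw [num_one_sub hpre h7] at s1
    exact Finset.mem_image.2 ⟨y.num, hb, by linear_combination -s1⟩
where
  mem_of_abs_le' {Y : ℝ} {a : ℤ} (h : |(a : ℝ)| ≤ Y) : a ∈ Finset.Icc (-⌊Y⌋) ⌊Y⌋ :=
    Szp.mem_of_abs_le h

/-- **Upper bound**: the polynomials with a rational preperiodic point -/
theorem some_upper (ε : ℝ) (hε : 0 < ε) : ∃ C : ℝ, 0 < C ∧ ∀ (N : ℕ) (X : ℝ), 1 ≤ X →
    (Many N X).Finite ∧ ((Many N X).ncard : ℝ) ≤ C * X ^ (1 + ε) := by
  classical
  obtain ⟨C, hC, h⟩ := FB_card ε hε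
  refine ⟨C + 12, by positivity, fun N X hX => ?_⟩
  have hX0 : 0 < X := by linarith
  obtain ⟨hR1, hR2⟩ := sqrt_facts hX
  set R := X ^ (1 / 2 : ℝ) with hR
  have hR0 : 0 ≤ R := by linarith
  have hR0' : 0 < R := by linarith
  have h1 := count_by_den (K := C * R ^ ε + 12 * R) hR0 (by positivity) (F0 R) (Many N X) (by
    rintro c ⟨hc1, hc2⟩
    rw [← hR2] at hc1
    refine mem_F0 hR0 hc1 ?_
    rw [← Set.encard_pos]
    exact lt_of_le_of_lt bot_le hc2) (fun d hd1 hd2 => by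
      have g1 := h R d hR1 hd1 hd2
      have g2 := Szp.card_Icc_le (Y := 2 * R) (by linarith)
      have g3 : (F0 R d).card ≤ (FB R d).card + ((Finset.Icc (-⌊2 * R⌋) ⌊2 * R⌋).card +
          (Finset.Icc (-⌊2 * R⌋) ⌊2 * R⌋).card) := by
        unfold F0
        refine (Finset.card_union_le _ _).trans (Nat.add_le_add le_rfl ?_)
        exact (Finset.card_union_le _ _).trans (Nat.add_le_add Finset.card_image_le
          Finset.card_image_le)
      have g4 : ((F0 R d).card : ℝ) ≤ ((FB R d).card : ℝ) +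
          (((Finset.Icc (-⌊2 * R⌋) ⌊2 * R⌋).card : ℝ) +
          ((Finset.Icc (-⌊2 * R⌋) ⌊2 * R⌋).card : ℝ)) := by exact_mod_cast g3
      linarith)
  refine ⟨h1.1, h1.2.trans ?_⟩
  have e : X ^ (1 + ε) = R * R * (R ^ ε * R ^ ε) := by
    rw [← Real.rpow_add hR0']
    have : R * R = X := by rw [← sq, hR2]
    rw [this, hR, ← Real.rpow_mul hX0.le, Real.rpow_add hX0, Real.rpow_one]
    congr 2
    ring
  have hRe : 1 ≤ R ^ ε := Real.one_le_rpow hR1 hε.le
  rw [e]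
  have p1 : 0 < R ^ ε := by positivity
  have g1 : C * R ^ ε ≤ C * (R * (R ^ ε * R ^ ε)) := by
    have : R ^ ε ≤ R * (R ^ ε * R ^ ε) := by
      calc R ^ ε = 1 * (1 * R ^ ε) := by ring
        _ ≤ R * (R ^ ε * R ^ ε) := by gcongr
    gcongr
  have g2 : 12 * R ≤ 12 * (R * (R ^ ε * R ^ ε)) := by
    have : R ≤ R * (R ^ ε * R ^ ε) := by
      calc R = R * (1 * 1) := by ring
        _ ≤ R * (R ^ ε * R ^ ε) := by gcongr
    linarith
  calc R * (C * R ^ ε + 12 * R) ≤ R * (C * (R * (R ^ ε * R ^ ε)) + 12 * (R * (R ^ ε * R ^ ε))) := by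
        gcongr
    _ = (C + 12) * (R * R * (R ^ ε * R ^ ε)) := by ring

end Pool.Agent.X12.Dyn
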