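import Pool.Agent.X12.Cub1
import Pool.Agent.X12.Dyn2

/-!
# Odd cubic polynomials with more than three rational preperiodic points
-/

set_option autoImplicit false

namespace Pool.Agent.X12.Cub

open Function Finset
open Pool.Agent.X12.Dyn (HtLe TS mem_TS TS_of_dvd TS_card)

/-- the nonzero solutions of `a z² = e` -/
def Ty (a : ℤ) (e z : ℚ) : Prop := z ≠ 0 ∧ a * z ^ 2 = e

lemma small_set {a : ℤ} (ha : a ≠ 0) {S : Set ℚ} {e : ℚ} (h : ∀ z ∈ S, z ≠ 0 → a * z ^ 2 = e) :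
    S.encard ≤ 3 := by
  have haq : (a : ℚ) ≠ 0 := by exact_mod_cast ha
  by_cases h0 : ∃ z ∈ S, z ≠ 0
  · obtain ⟨z0, hz0, hne⟩ := h0
    have h1 : S ⊆ {0, z0, -z0} := by
      intro z hz
      by_cases hz1 : z = 0
      · exact Or.inl hz1
      right
      have h2 : (a : ℚ) * ((z - z0) * (z + z0)) = 0 := by
        linear_combination h z hz hz1 - h z0 hz0 hne
      rcases mul_eq_zero.1 ((mul_eq_zero.1 h2).resolve_left haq) with h3 | h3
      · left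
        linarith
      · right
        show z = -z0
        linarith
    refine (Set.encard_le_encard h1).trans ?_
    refine (Set.encard_insert_le _ _).trans ?_
    have e1 := (Set.encard_insert_le ({-z0} : Set ℚ) z0)
    rw [Set.encard_singleton] at e1
    calc ({z0, -z0} : Set ℚ).encard + 1 ≤ (1 + 1) + 1 := by gcongr
      _ = 3 := by norm_num
  · push Not at h0
    have h1 : S ⊆ {0} := fun z hz => h0 z hz
    refine (Set.encard_le_encard h1).trans ?_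
    rw [Set.encard_singleton]
    norm_num

/-- more than three preperiodic points and no long cycles -/
theorem short_cases {a : ℤ} {c : ℚ} (ha : a ≠ 0) (h3 : (3 : ℕ∞) < (Pre (g a c)).encard)
    (hper : ∀ y ∈ periodicPts (g a c), g a c y = y ∨ g a c y = -y) :
    (∃ s t : ℚ, Ty a (-c) s ∧ Ty a (1 - c) t) ∨ (∃ s r : ℚ, Ty a (-c) s ∧ Ty a (-1 - c) r) ∨
    (∃ t r : ℚ, Ty a (1 - c) t ∧ Ty a (-1 - c) r) ∨
    (∃ s w : ℚ, Ty a (-c) s ∧ w ≠ 0 ∧ g a c w = s) ∨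
    (∃ t w : ℚ, Ty a (1 - c) t ∧ w ≠ t ∧ g a c w = t) ∨
    (∃ r w : ℚ, Ty a (-1 - c) r ∧ w ≠ -r ∧ g a c w = r) := by
  classical
  by_contra hcon
  push Not at hcon
  obtain ⟨k1, k2, k3, k4, k5, k6⟩ := hcon
  set S : Set ℚ := {z | z = 0 ∨ a * z ^ 2 = -c ∨ a * z ^ 2 = 1 - c ∨ a * z ^ 2 = -1 - c} with hS
  have hsmall : S.encard ≤ 3 := by
    by_cases hA : ∃ s, Ty a (-c) s
    · obtain ⟨s, hs⟩ := hA
      refine small_set ha (e := -c) fun z hz hz0 => ?_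
      rcases hz with h | h | h | h
      · exact absurd h hz0
      · exact h
      · exact absurd ⟨hz0, h⟩ (k1 s z hs)
      · exact absurd ⟨hz0, h⟩ (k2 s z hs)
    · push Not at hA
      by_cases hB : ∃ t, Ty a (1 - c) t
      · obtain ⟨t, ht⟩ := hB
        refine small_set ha (e := 1 - c) fun z hz hz0 => ?_
        rcases hz with h | h | h | h
        · exact absurd h hz0
        · exact absurd ⟨hz0, h⟩ (hA z)
        · exact h
        · exact absurd ⟨hz0, h⟩ (k3 t z ht)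
      · push Not at hB
        refine small_set ha (e := -1 - c) fun z hz hz0 => ?_
        rcases hz with h | h | h | h
        · exact absurd h hz0
        · exact absurd ⟨hz0, h⟩ (hA z)
        · exact absurd ⟨hz0, h⟩ (hB z)
        · exact h
  have hout : ∃ z ∈ Pre (g a c), z ∉ S := by
    by_contra hc
    push Not at hc
    have h1 : (Pre (g a c)).encard ≤ S.encard := Set.encard_le_encard hc
    exact absurd (h3.trans_le (h1.trans hsmall)) (lt_irrefl _)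
  obtain ⟨z, hz, hzS⟩ := hout
  have hPS : ∀ y ∈ periodicPts (g a c), y ∈ S := by
    intro y hy
    by_cases hy0 : y = 0
    · exact Or.inl hy0
    rcases hper y hy with h | h
    · right; right; left
      have h1 : y * (a * y ^ 2 - (1 - c)) = 0 := by
        unfold g at h
        linear_combination h
      linarith [(mul_eq_zero.1 h1).resolve_left hy0]
    · right; right; right
      have h1 : y * (a * y ^ 2 - (-1 - c)) = 0 := by
        unfold g at h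
        linear_combination h
      linarith [(mul_eq_zero.1 h1).resolve_left hy0]
  obtain ⟨w, hw, hwS, hgw⟩ := exit_point hz hPS hzS
  have hw0 : w ≠ 0 := fun h => hwS (Or.inl h)
  by_cases hg0 : g a c w = 0
  · refine hwS ?_
    right; left
    have h1 : w * (a * w ^ 2 + c) = 0 := by
      unfold g at hg0
      linear_combination hg0
    linarith [(mul_eq_zero.1 h1).resolve_left hw0]
  rcases hgw with h | h | h | h
  · exact hg0 h
  · exact k4 _ w ⟨hg0, h⟩ hw0 rfl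
  · refine k5 _ w ⟨hg0, h⟩ ?_ rfl
    intro h1
    rw [← h1] at h
    exact hwS (Or.inr (Or.inr (Or.inl h)))
  · refine k6 _ w ⟨hg0, h⟩ ?_ rfl
    intro h1
    refine hwS (Or.inr (Or.inr (Or.inr ?_)))
    have : w ^ 2 = (g a c w) ^ 2 := by
      conv_lhs => rw [h1]
      ring
    rw [this]
    exact h

/-! ### The twisting class -/

/-- `a K` is a nonzero square -/
def Cls (a K : ℤ) : Prop := ∃ k : ℤ, k ≠ 0 ∧ a * K = k ^ 2

lemma cls_of {a K : ℤ} {n : ℕ} {z : ℚ} (ha : a ≠ 0) (hn : n ≠ 0) (hz : z ≠ 0)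
    (hK : (K : ℚ) = (n : ℚ) ^ 2 * (a * z ^ 2)) : Cls a K := by
  have haq : (a : ℚ) ≠ 0 := by exact_mod_cast ha
  have hnq : (n : ℚ) ≠ 0 := by exact_mod_cast hn
  obtain ⟨k, hk⟩ := int_of_sq (q := n * a * z) (A := a * K) (by
    push_cast
    rw [hK]
    ring)
  refine ⟨k, ?_, ?_⟩
  · rintro rfl
    have h1 : (n : ℚ) * a * z ≠ 0 := mul_ne_zero (mul_ne_zero hnq haq) hz
    exact h1 (by rw [← hk]; norm_num)
  · have : ((a * K : ℤ) : ℚ) = ((k ^ 2 : ℤ) : ℚ) := by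
      push_cast
      rw [hk, hK]
      ring
    exact_mod_cast this

/-- the class determines the squarefree twist -/
lemma cls_inj {a b K : ℤ} (ha : Squarefree a) (hb : Squarefree b) (h1 : Cls a K)
    (h2 : Cls b K) : a = b := by
  obtain ⟨k, hk0, hk⟩ := h1
  obtain ⟨l, hl0, hl⟩ := h2
  have ha0 : a ≠ 0 := ha.ne_zero
  have hb0 : b ≠ 0 := hb.ne_zero
  have d1 : a ∣ k := (ha.dvd_pow_iff_dvd (by norm_num : (2 : ℕ) ≠ 0)).1 ⟨K, hk.symm⟩
  have d2 : b ∣ l := (hb.dvd_pow_iff_dvd (by norm_num : (2 : ℕ) ≠ 0)).1 ⟨K, hl.symm⟩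
  obtain ⟨x, rfl⟩ := d1
  obtain ⟨y, rfl⟩ := d2
  have e1 : K = a * x ^ 2 := mul_left_cancel₀ ha0 (by rw [hk]; ring)
  have e2 : K = b * y ^ 2 := mul_left_cancel₀ hb0 (by rw [hl]; ring)
  have hx0 : x ≠ 0 := fun h => hk0 (by rw [h, mul_zero])
  have hy0 : y ≠ 0 := fun h => hl0 (by rw [h, mul_zero])
  have hgpos : 0 < Int.gcd x y := Int.gcd_pos_of_ne_zero_left y hx0
  obtain ⟨d, x', y', hd, hcop, ex, ey⟩ := Int.exists_gcd_one' hgpos
  have hcop' : IsCoprime x' y' := Int.isCoprime_iff_gcd_eq_one.2 hcop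
  have hd0 : (d : ℤ) ≠ 0 := by exact_mod_cast hd.ne'
  have e3 : a * x' ^ 2 = b * y' ^ 2 := by
    have h : (d : ℤ) ^ 2 * (a * x' ^ 2) = (d : ℤ) ^ 2 * (b * y' ^ 2) := by
      have := e1.symm.trans e2
      rw [ex, ey] at this
      linear_combination this
    exact mul_left_cancel₀ (pow_ne_zero 2 hd0) h
  have ux : IsUnit x' := by
    have h : x' ^ 2 ∣ b * y' ^ 2 := ⟨a, by rw [← e3]; ring⟩
    have h' : x' ^ 2 ∣ b := (hcop'.pow (m := 2) (n := 2)).dvd_of_dvd_mul_right h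
    exact hb x' (by rwa [← sq])
  have uy : IsUnit y' := by
    have h : y' ^ 2 ∣ a * x' ^ 2 := ⟨b, by rw [e3]; ring⟩
    have h' : y' ^ 2 ∣ a := (hcop'.symm.pow (m := 2) (n := 2)).dvd_of_dvd_mul_right h
    exact ha y' (by rwa [← sq])
  rcases Int.isUnit_iff.1 ux with rfl | rfl <;> rcases Int.isUnit_iff.1 uy with rfl | rfl <;>
    linarith

/-! ### The numerators and the classes -/

/-- the numerator and the twisting class from two divisors -/
def phi (n : ℤ) (j : ℕ) (p : ℤ × ℤ) : ℤ × ℤ :=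
  match j with
  | 0 => ((p.1 + p.2) / 2 - (p.1 - p.2) / 2 * (n + (p.1 - p.2) / 2) / ((p.1 + p.2) / 2) -
      (p.1 - p.2) / 2 * ((p.1 - p.2) / 2) /
        ((p.1 - p.2) / 2 * (n + (p.1 - p.2) / 2) / ((p.1 + p.2) / 2)),
      n * ((p.1 - p.2) / 2 * (n + (p.1 - p.2) / 2) / ((p.1 + p.2) / 2)))
  | 1 => (-p.1 - n ^ 2 / p.1, n * p.1)
  | 2 => (((p.1 + n ^ 2 / p.1) / 2 + n) / 2, -(((p.1 + n ^ 2 / p.1) / 2 + n) / 2 * n))
  | 3 => (((p.1 + n ^ 2 / p.1) / 2 - n) / 2, -(((p.1 + n ^ 2 / p.1) / 2 - n) / 2 * n))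
  | 4 => ((p.1 + n ^ 2 / p.1) / 2, (n - (p.1 + n ^ 2 / p.1) / 2) * n)
  | 5 => ((p.1 + p.2) ^ 3, -((p.1 + p.2) ^ 3 * n))
  | 6 => (-(p.1 + p.2) ^ 3, (p.1 + p.2) ^ 3 * n)
  | 7 => ((p.2 - p.1) ^ 2 + (p.2 - p.1) * p.1 + p.1 ^ 2,
      (n - ((p.2 - p.1) ^ 2 + (p.2 - p.1) * p.1 + p.1 ^ 2)) * n)
  | 8 => (-((p.2 - p.1) ^ 2 + (p.2 - p.1) * p.1 + p.1 ^ 2),
      (n + ((p.2 - p.1) ^ 2 + (p.2 - p.1) * p.1 + p.1 ^ 2)) * n)
  | 9 => (p.1 ^ 2 - p.1 * (p.1 - p.2) + (p.1 - p.2) ^ 2,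
      -((n + (p.1 ^ 2 - p.1 * (p.1 - p.2) + (p.1 - p.2) ^ 2)) * n))
  | _ => (-(p.1 ^ 2 - p.1 * (p.1 - p.2) + (p.1 - p.2) ^ 2),
      -((n - (p.1 ^ 2 - p.1 * (p.1 - p.2) + (p.1 - p.2) ^ 2)) * n))

/-- the pairs of a numerator and a twisting class -/
noncomputable def FC (X : ℝ) (n : ℕ) : Finset (ℤ × ℤ) := by
  classical
  exact ((TS (7 * X ^ 2) n ×ˢ TS (7 * X ^ 2) n) ×ˢ Finset.range 11).image
    fun q => phi n q.2 q.1

lemma mem_FC {X : ℝ} {n : ℕ} {p : ℤ × ℤ} {j : ℕ} {q : ℤ × ℤ} (h1 : p.1 ∈ TS (7 * X ^ 2) n)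
    (h2 : p.2 ∈ TS (7 * X ^ 2) n) (hj : j < 11) (h : phi n j p = q) : q ∈ FC X n := by
  classical
  unfold FC
  refine Finset.mem_image.2 ⟨(p, j), ?_, h⟩
  rw [Finset.mem_product, Finset.mem_product, Finset.mem_range]
  exact ⟨⟨h1, h2⟩, hj⟩

theorem FC_card (ε : ℝ) (hε : 0 < ε) : ∃ C : ℝ, 0 < C ∧ ∀ (X : ℝ) (n : ℕ), 1 ≤ X → 1 ≤ n →
    (n : ℝ) ≤ X → ((FC X n).card : ℝ) ≤ C * X ^ ε := by
  classical
  obtain ⟨C, hC, h⟩ := TS_card (ε / 6) (by positivity)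
  refine ⟨11 * (C * (7 : ℝ) ^ (ε / 6)) ^ 2, by positivity, fun X n hX hn hnX => ?_⟩
  have hX0 : 0 < X := by linarith
  have h1 := h (7 * X ^ 2) n (by nlinarith) hn
  have h2 : ((TS (7 * X ^ 2) n).card : ℝ) ≤ C * (7 : ℝ) ^ (ε / 6) * X ^ (ε / 2) := by
    refine h1.trans ?_
    have e1 : (7 * X ^ 2) ^ (ε / 6) = (7 : ℝ) ^ (ε / 6) * X ^ (ε / 3) := by
      rw [Real.mul_rpow (by norm_num) (by positivity), ← Real.rpow_natCast X 2,
        ← Real.rpow_mul hX0.le]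
      congr 2
      push_cast
      ring
    have e2 : (n : ℝ) ^ (ε / 6) ≤ X ^ (ε / 6) :=
      Real.rpow_le_rpow (Nat.cast_nonneg n) hnX (by positivity)
    have e3 : X ^ (ε / 3) * X ^ (ε / 6) = X ^ (ε / 2) := by
      rw [← Real.rpow_add hX0]
      congr 1
      ring
    rw [e1]
    calc C * ((7 : ℝ) ^ (ε / 6) * X ^ (ε / 3)) * (n : ℝ) ^ (ε / 6)
        ≤ C * ((7 : ℝ) ^ (ε / 6) * X ^ (ε / 3)) * X ^ (ε / 6) := by gcongr
      _ = C * (7 : ℝ) ^ (ε / 6) * X ^ (ε / 2) := by rw [← e3]; ring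
  have h3 : (FC X n).card ≤ ((TS (7 * X ^ 2) n).card * (TS (7 * X ^ 2) n).card) * 11 := by
    unfold FC
    refine Finset.card_image_le.trans ?_
    rw [Finset.card_product, Finset.card_product, Finset.card_range]
  have h4 : ((FC X n).card : ℝ) ≤
      (((TS (7 * X ^ 2) n).card : ℝ) * ((TS (7 * X ^ 2) n).card : ℝ)) * 11 := by exact_mod_cast h3
  refine h4.trans ?_
  have e4 : X ^ ε = X ^ (ε / 2) * X ^ (ε / 2) := by
    rw [← Real.rpow_add hX0]
    congr 1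
    ring
  rw [e4]
  have h5 : (0 : ℝ) ≤ ((TS (7 * X ^ 2) n).card : ℝ) := Nat.cast_nonneg _
  calc (((TS (7 * X ^ 2) n).card : ℝ) * ((TS (7 * X ^ 2) n).card : ℝ)) * 11
      ≤ ((C * (7 : ℝ) ^ (ε / 6) * X ^ (ε / 2)) * (C * (7 : ℝ) ^ (ε / 6) * X ^ (ε / 2))) * 11 := by
        gcongr
    _ = _ := by ring

end Pool.Agent.X12.Cub
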