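import Pool.Agent.X12.Cub2

/-!
# Odd cubic polynomials with more than three rational preperiodic points: the arithmetic of the cases
-/

set_option autoImplicit false

namespace Pool.Agent.X12.Cub

open Function Finset
open Pool.Agent.X12.Dyn (HtLe TS mem_TS TS_of_dvd TS_card)

lemma rat_pm {c : ℚ} {m n : ℤ} (hn : n ≠ 0) (hcop : IsCoprime m n) (h : c = (m : ℚ) / n) :
    (c.num = m ∧ (c.den : ℤ) = n) ∨ (c.num = -m ∧ (c.den : ℤ) = -n) := by
  rcases lt_or_gt_of_ne hn with h0 | h0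
  · right
    have h1 : c = ((-m : ℤ) : ℚ) / ((-n : ℤ) : ℚ) := by
      rw [h]
      push_cast
      rw [neg_div_neg_eq]
    have h2 := Int.isCoprime_iff_nat_coprime.1 hcop.neg_neg
    rw [h1]
    exact ⟨Rat.num_div_eq_of_coprime (by omega) h2, Rat.den_div_eq_of_coprime (by omega) h2⟩
  · left
    have h2 := Int.isCoprime_iff_nat_coprime.1 hcop
    rw [h]
    exact ⟨Rat.num_div_eq_of_coprime h0 h2, Rat.den_div_eq_of_coprime h0 h2⟩

lemma TS_sq {X : ℝ} {n : ℕ} {s t : ℤ} (hX : 1 ≤ X) (hn : 1 ≤ n) (hnX : (n : ℝ) ≤ X)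
    (h : s * t = (n : ℤ) ^ 2) : s ∈ TS (7 * X ^ 2) n ∧ (n : ℤ) ^ 2 / s = t := by
  refine TS_of_dvd hn h ?_
  have h0 : (0 : ℤ) < (n : ℤ) ^ 2 := by positivity
  have h1 : |s| ≤ (n : ℤ) ^ 2 := by
    have := Int.le_of_dvd h0 ((abs_dvd _ _).2 (Dvd.intro _ h))
    exact this
  have h2 : |(s : ℝ)| ≤ (n : ℝ) ^ 2 := by exact_mod_cast h1
  have h3 : (n : ℝ) ^ 2 ≤ X ^ 2 := by
    have : (0 : ℝ) ≤ n := Nat.cast_nonneg n
    nlinarith
  nlinarith

lemma TS_dvd {X : ℝ} {n : ℕ} {s : ℤ} (hX : 1 ≤ X) (hn : 1 ≤ n) (hnX : (n : ℝ) ≤ X)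
    (h : s ∣ (n : ℤ)) : s ∈ TS (7 * X ^ 2) n := by
  obtain ⟨t, ht⟩ := h
  refine (TS_sq (t := t * n) hX hn hnX ?_).1
  rw [← mul_assoc, ← ht]
  ring

section

variable {a : ℤ} {c : ℚ} {X : ℝ} (ha : a ≠ 0) (hX : 1 ≤ X) (hc : HtLe X c)
include ha hX hc

lemma case_AB {s t : ℚ} (hs : Ty a (-c) s) (ht : Ty a (1 - c) t) :
    ∃ K, (c.num, K) ∈ FC X c.den ∧ Cls a K := by
  have hn : 1 ≤ c.den := c.den_pos
  have hcn : (c.num : ℚ) = c * c.den := (Rat.mul_den_eq_num c).symm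
  obtain ⟨k, hk⟩ := int_of_sq (q := c.den * (a * s * t))
    (A := c.num * (c.num - c.den)) (by
      push_cast
      rw [hcn]
      linear_combination (-(c.den : ℚ) ^ 2 * (a * t ^ 2)) * hs.2 + (c.den : ℚ) ^ 2 * c * ht.2)
  have hk2 : k ^ 2 = c.num * (c.num - c.den) := by
    have : ((k ^ 2 : ℤ) : ℚ) = ((c.num * (c.num - c.den) : ℤ) : ℚ) := by
      push_cast
      rw [hk, hcn]
      linear_combination ((c.den : ℚ) ^ 2 * (a * t ^ 2)) * hs.2 - (c.den : ℚ) ^ 2 * c * ht.2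
    exact_mod_cast this
  obtain ⟨m1, m2⟩ := TS_sq (s := 2 * c.num - c.den - 2 * k) (t := 2 * c.num - c.den + 2 * k)
    hX hn hc.2 (by linear_combination -4 * hk2)
  refine ⟨-(c.num * c.den), mem_FC (p := (2 * c.num - c.den - 2 * k, 2 * c.num - c.den - 2 * k))
    (j := 2) m1 m1 (by norm_num) ?_, ?_⟩
  · show (_, _) = (_, _)
    rw [m2]
    have e : ((2 * c.num - c.den - 2 * k + (2 * c.num - c.den + 2 * k)) / 2 + (c.den : ℤ)) / 2 =
        c.num := by omega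
    rw [e]
  · refine cls_of ha c.den_ne_zero hs.1 ?_
    push_cast
    rw [hs.2, hcn]
    ring

lemma case_AC {s t : ℚ} (hs : Ty a (-c) s) (ht : Ty a (-1 - c) t) :
    ∃ K, (c.num, K) ∈ FC X c.den ∧ Cls a K := by
  have hn : 1 ≤ c.den := c.den_pos
  have hcn : (c.num : ℚ) = c * c.den := (Rat.mul_den_eq_num c).symm
  obtain ⟨k, hk⟩ := int_of_sq (q := c.den * (a * s * t))
    (A := c.num * (c.num + c.den)) (by
      push_cast
      rw [hcn]
      linear_combination (-(c.den : ℚ) ^ 2 * (a * t ^ 2)) * hs.2 + (c.den : ℚ) ^ 2 * c * ht.2)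
  have hk2 : k ^ 2 = c.num * (c.num + c.den) := by
    have : ((k ^ 2 : ℤ) : ℚ) = ((c.num * (c.num + c.den) : ℤ) : ℚ) := by
      push_cast
      rw [hk, hcn]
      linear_combination ((c.den : ℚ) ^ 2 * (a * t ^ 2)) * hs.2 - (c.den : ℚ) ^ 2 * c * ht.2
    exact_mod_cast this
  obtain ⟨m1, m2⟩ := TS_sq (s := 2 * c.num + c.den - 2 * k) (t := 2 * c.num + c.den + 2 * k)
    hX hn hc.2 (by linear_combination -4 * hk2)
  refine ⟨-(c.num * c.den), mem_FC (p := (2 * c.num + c.den - 2 * k, 2 * c.num + c.den - 2 * k))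
    (j := 3) m1 m1 (by norm_num) ?_, ?_⟩
  · show (_, _) = (_, _)
    rw [m2]
    have e : ((2 * c.num + c.den - 2 * k + (2 * c.num + c.den + 2 * k)) / 2 - (c.den : ℤ)) / 2 =
        c.num := by omega
    rw [e]
  · refine cls_of ha c.den_ne_zero hs.1 ?_
    push_cast
    rw [hs.2, hcn]
    ring

lemma case_BC {s t : ℚ} (hs : Ty a (1 - c) s) (ht : Ty a (-1 - c) t) :
    ∃ K, (c.num, K) ∈ FC X c.den ∧ Cls a K := by
  have hn : 1 ≤ c.den := c.den_pos
  have hcn : (c.num : ℚ) = c * c.den := (Rat.mul_den_eq_num c).symm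
  obtain ⟨k, hk⟩ := int_of_sq (q := c.den * (a * s * t))
    (A := c.num ^ 2 - c.den ^ 2) (by
      push_cast
      rw [hcn]
      linear_combination (-(c.den : ℚ) ^ 2 * (a * t ^ 2)) * hs.2 -
        (c.den : ℚ) ^ 2 * (1 - c) * ht.2)
  have hk2 : k ^ 2 = c.num ^ 2 - c.den ^ 2 := by
    have : ((k ^ 2 : ℤ) : ℚ) = ((c.num ^ 2 - c.den ^ 2 : ℤ) : ℚ) := by
      push_cast
      rw [hk, hcn]
      linear_combination ((c.den : ℚ) ^ 2 * (a * t ^ 2)) * hs.2 +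
        (c.den : ℚ) ^ 2 * (1 - c) * ht.2
    exact_mod_cast this
  obtain ⟨m1, m2⟩ := TS_sq (s := c.num - k) (t := c.num + k)
    hX hn hc.2 (by linear_combination -hk2)
  refine ⟨(c.den - c.num) * c.den, mem_FC (p := (c.num - k, c.num - k))
    (j := 4) m1 m1 (by norm_num) ?_, ?_⟩
  · show (_, _) = (_, _)
    rw [m2]
    have e : (c.num - k + (c.num + k)) / 2 = c.num := by omega
    rw [e]
  · refine cls_of ha c.den_ne_zero hs.1 ?_
    push_cast
    rw [hs.2, hcn]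
    ring

lemma case_TA {s w : ℚ} (hs : Ty a (-c) s) (hw : w ≠ 0) (hg : g a c w = s) :
    ∃ K, (c.num, K) ∈ FC X c.den ∧ Cls a K := by
  have hn : 1 ≤ c.den := c.den_pos
  have hcn : (c.num : ℚ) = c * c.den := (Rat.mul_den_eq_num c).symm
  have hs0 := hs.1
  have hs2 := hs.2
  set ρ := w / s with hρ
  have hwρ : w = ρ * s := by rw [hρ]; field_simp
  have e1 : c * (ρ * (1 - ρ ^ 2)) = 1 := by
    unfold g at hg
    rw [hwρ] at hg
    have h1 : s * (c * (ρ * (1 - ρ ^ 2)) - 1) = 0 := by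
      linear_combination hg - ρ ^ 3 * s * hs2
    linarith [(mul_eq_zero.1 h1).resolve_left hs0]
  have hd0 : (ρ.den : ℚ) ≠ 0 := by exact_mod_cast ρ.den_ne_zero
  have hρq : (ρ.num : ℚ) = ρ * ρ.den := (Rat.mul_den_eq_num ρ).symm
  have hcop : IsCoprime ρ.num (ρ.den : ℤ) := by
    rw [Int.isCoprime_iff_nat_coprime]
    exact ρ.reduced
  have h0 : ρ.num * ((ρ.den : ℤ) ^ 2 - ρ.num ^ 2) ≠ 0 := by
    intro h
    have h' : (ρ.num : ℚ) * ((ρ.den : ℚ) ^ 2 - (ρ.num : ℚ) ^ 2) = 0 := by exact_mod_cast h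
    rw [hρq] at h'
    have h2 : (ρ.den : ℚ) ^ 3 * (ρ * (1 - ρ ^ 2)) = 0 := by linear_combination h'
    have h3 := (mul_eq_zero.1 h2).resolve_left (pow_ne_zero 3 hd0)
    rw [h3, mul_zero] at e1
    exact zero_ne_one e1
  have hcop2 : IsCoprime ((ρ.den : ℤ) ^ 3) (ρ.num * ((ρ.den : ℤ) ^ 2 - ρ.num ^ 2)) := by
    refine IsCoprime.pow_left ?_
    refine IsCoprime.mul_right hcop.symm ?_
    have h1 : IsCoprime (ρ.den : ℤ) (-(ρ.num ^ 2) + ρ.den * ρ.den) :=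
      IsCoprime.add_mul_left_right (hcop.symm.pow_right (n := 2)).neg_right _
    have e : -(ρ.num ^ 2) + (ρ.den : ℤ) * ρ.den = (ρ.den : ℤ) ^ 2 - ρ.num ^ 2 := by ring
    rwa [e] at h1
  have hceq : c = (((ρ.den : ℤ) ^ 3 : ℤ) : ℚ) /
      ((ρ.num * ((ρ.den : ℤ) ^ 2 - ρ.num ^ 2) : ℤ) : ℚ) := by
    rw [eq_div_iff (by exact_mod_cast h0)]
    push_cast
    rw [hρq]
    linear_combination (ρ.den : ℚ) ^ 3 * e1
  have hcls : ∀ K : ℤ, K = -(c.num * c.den) → Cls a K := by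
    rintro K rfl
    refine cls_of ha c.den_ne_zero hs.1 ?_
    push_cast
    rw [hs.2, hcn]
    ring
  have hdv : ∀ e : ℤ, e = c.den ∨ e = -c.den → ∀ q : ℤ, q ∣ e → q ∈ TS (7 * X ^ 2) c.den := by
    intro e he q hq
    refine TS_dvd hX hn hc.2 ?_
    rcases he with rfl | rfl
    · exact hq
    · exact (dvd_neg).1 hq
  have hd1 : ρ.num ∣ ρ.num * ((ρ.den : ℤ) ^ 2 - ρ.num ^ 2) := Dvd.intro _ rfl
  have hd2 : ((ρ.den : ℤ) - ρ.num) ∣ ρ.num * ((ρ.den : ℤ) ^ 2 - ρ.num ^ 2) :=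
    ⟨ρ.num * (ρ.den + ρ.num), by ring⟩
  rcases rat_pm h0 hcop2 hceq with ⟨n1, n2⟩ | ⟨n1, n2⟩
  · have t := hdv _ (Or.inl n2.symm)
    refine ⟨_, mem_FC (p := (ρ.num, (ρ.den : ℤ) - ρ.num)) (j := 5) (t _ hd1) (t _ hd2)
      (by norm_num) ?_, hcls _ rfl⟩
    show (_, _) = (_, _)
    rw [n1]
    simp only [add_sub_cancel]
  · have t := hdv (ρ.num * ((ρ.den : ℤ) ^ 2 - ρ.num ^ 2)) (Or.inr (by linarith))
    refine ⟨_, mem_FC (p := (ρ.num, (ρ.den : ℤ) - ρ.num)) (j := 6) (t _ hd1) (t _ hd2)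
      (by norm_num) ?_, hcls _ rfl⟩
    show (_, _) = (_, _)
    rw [n1]
    simp only [add_sub_cancel, neg_mul, neg_neg]

lemma case_TB {t w : ℚ} (ht : Ty a (1 - c) t) (hw : w ≠ t) (hg : g a c w = t) :
    ∃ K, (c.num, K) ∈ FC X c.den ∧ Cls a K := by
  have hn : 1 ≤ c.den := c.den_pos
  have hcn : (c.num : ℚ) = c * c.den := (Rat.mul_den_eq_num c).symm
  have ht0 := ht.1
  have ht2 := ht.2
  have h1 : a * w ^ 2 + a * t * w + 1 = 0 := by
    unfold g at hg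
    have h2 : (w - t) * (a * w ^ 2 + a * t * w + 1) = 0 := by
      linear_combination hg - w * ht2
    exact (mul_eq_zero.1 h2).resolve_left (sub_ne_zero.2 hw)
  have hw0 : w ≠ 0 := by
    rintro rfl
    norm_num at h1
  set ρ := t / w with hρ
  have htρ : t = ρ * w := by rw [hρ]; field_simp
  have h2 : (a * w ^ 2) * (1 + ρ) = -1 := by
    rw [htρ] at h1
    linear_combination h1
  have e1 : c * (1 + ρ) = 1 + ρ + ρ ^ 2 := by
    rw [htρ] at ht2
    linear_combination (1 + ρ) * ht2 - ρ ^ 2 * h2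
  have hρ1 : 1 + ρ ≠ 0 := by
    intro h
    rw [h, mul_zero] at h2
    norm_num at h2
  have hd0 : (ρ.den : ℚ) ≠ 0 := by exact_mod_cast ρ.den_ne_zero
  have hρq : (ρ.num : ℚ) = ρ * ρ.den := (Rat.mul_den_eq_num ρ).symm
  have hcop : IsCoprime ρ.num (ρ.den : ℤ) := by
    rw [Int.isCoprime_iff_nat_coprime]
    exact ρ.reduced
  have h0 : (ρ.den : ℤ) * (ρ.num + ρ.den) ≠ 0 := by
    intro h
    have h' : (ρ.den : ℚ) * ((ρ.num : ℚ) + (ρ.den : ℚ)) = 0 := by exact_mod_cast h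
    rw [hρq] at h'
    have h3 : (ρ.den : ℚ) ^ 2 * (1 + ρ) = 0 := by linear_combination h'
    exact hρ1 ((mul_eq_zero.1 h3).resolve_left (pow_ne_zero 2 hd0))
  have hcop2 : IsCoprime (ρ.num ^ 2 + ρ.num * ρ.den + (ρ.den : ℤ) ^ 2)
      ((ρ.den : ℤ) * (ρ.num + ρ.den)) := by
    refine IsCoprime.mul_right ?_ ?_
    · have h3 : IsCoprime (ρ.num ^ 2 + (ρ.den : ℤ) * (ρ.num + ρ.den)) (ρ.den : ℤ) :=
        IsCoprime.add_mul_left_left (hcop.pow_left (m := 2)) _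
      have e : ρ.num ^ 2 + (ρ.den : ℤ) * (ρ.num + ρ.den) =
        ρ.num ^ 2 + ρ.num * ρ.den + (ρ.den : ℤ) ^ 2 := by ring
      rwa [e] at h3
    · have h3 : IsCoprime ((ρ.den : ℤ) ^ 2 + (ρ.num + ρ.den) * ρ.num) (ρ.num + ρ.den) := by
        refine IsCoprime.add_mul_left_left (IsCoprime.pow_left ?_) _
        have h4 : IsCoprime (ρ.den : ℤ) (ρ.num + ρ.den * 1) :=
          IsCoprime.add_mul_left_right hcop.symm _
        rwa [mul_one] at h4
      have e : (ρ.den : ℤ) ^ 2 + (ρ.num + ρ.den) * ρ.num =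
        ρ.num ^ 2 + ρ.num * ρ.den + (ρ.den : ℤ) ^ 2 := by ring
      rwa [e] at h3
  have hceq : c = ((ρ.num ^ 2 + ρ.num * ρ.den + (ρ.den : ℤ) ^ 2 : ℤ) : ℚ) /
      (((ρ.den : ℤ) * (ρ.num + ρ.den) : ℤ) : ℚ) := by
    rw [eq_div_iff (by exact_mod_cast h0)]
    push_cast
    rw [hρq]
    linear_combination (ρ.den : ℚ) ^ 2 * e1
  have hcls : ∀ K : ℤ, K = (c.den - c.num) * c.den → Cls a K := by
    rintro K rfl
    refine cls_of ha c.den_ne_zero ht.1 ?_
    push_cast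
    rw [ht.2, hcn]
    ring
  have hdv : ∀ e : ℤ, e = c.den ∨ e = -c.den → ∀ q : ℤ, q ∣ e → q ∈ TS (7 * X ^ 2) c.den := by
    intro e he q hq
    refine TS_dvd hX hn hc.2 ?_
    rcases he with rfl | rfl
    · exact hq
    · exact (dvd_neg).1 hq
  have hd1 : (ρ.den : ℤ) ∣ (ρ.den : ℤ) * (ρ.num + ρ.den) := Dvd.intro _ rfl
  have hd2 : (ρ.num + (ρ.den : ℤ)) ∣ (ρ.den : ℤ) * (ρ.num + ρ.den) := Dvd.intro_left _ rfl
  rcases rat_pm h0 hcop2 hceq with ⟨n1, n2⟩ | ⟨n1, n2⟩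
  · have t := hdv _ (Or.inl n2.symm)
    refine ⟨_, mem_FC (p := ((ρ.den : ℤ), ρ.num + (ρ.den : ℤ))) (j := 7) (t _ hd1) (t _ hd2)
      (by norm_num) ?_, hcls _ rfl⟩
    show (_, _) = (_, _)
    rw [n1]
    simp only [add_sub_cancel_right]
  · have t := hdv ((ρ.den : ℤ) * (ρ.num + ρ.den)) (Or.inr (by linarith))
    refine ⟨_, mem_FC (p := ((ρ.den : ℤ), ρ.num + (ρ.den : ℤ))) (j := 8) (t _ hd1) (t _ hd2)
      (by norm_num) ?_, hcls _ rfl⟩
    show (_, _) = (_, _)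
    rw [n1]
    simp only [add_sub_cancel_right, sub_neg_eq_add]

lemma case_TC {t w : ℚ} (ht : Ty a (-1 - c) t) (hw : w ≠ -t) (hg : g a c w = t) :
    ∃ K, (c.num, K) ∈ FC X c.den ∧ Cls a K := by
  have hn : 1 ≤ c.den := c.den_pos
  have hcn : (c.num : ℚ) = c * c.den := (Rat.mul_den_eq_num c).symm
  have ht0 := ht.1
  have ht2 := ht.2
  have h1 : a * w ^ 2 - a * t * w - 1 = 0 := by
    unfold g at hg
    have h2 : (w + t) * (a * w ^ 2 - a * t * w - 1) = 0 := by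
      linear_combination hg - w * ht2
    refine (mul_eq_zero.1 h2).resolve_left ?_
    intro h
    exact hw (by linarith)
  have hw0 : w ≠ 0 := by
    rintro rfl
    norm_num at h1
  set ρ := t / w with hρ
  have htρ : t = ρ * w := by rw [hρ]; field_simp
  have h2 : (a * w ^ 2) * (1 - ρ) = 1 := by
    rw [htρ] at h1
    linear_combination h1
  have e1 : c * (1 - ρ) = -(1 - ρ + ρ ^ 2) := by
    rw [htρ] at ht2
    linear_combination (1 - ρ) * ht2 - ρ ^ 2 * h2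
  have hρ1 : 1 - ρ ≠ 0 := by
    intro h
    rw [h, mul_zero] at h2
    norm_num at h2
  have hd0 : (ρ.den : ℚ) ≠ 0 := by exact_mod_cast ρ.den_ne_zero
  have hρq : (ρ.num : ℚ) = ρ * ρ.den := (Rat.mul_den_eq_num ρ).symm
  have hcop : IsCoprime ρ.num (ρ.den : ℤ) := by
    rw [Int.isCoprime_iff_nat_coprime]
    exact ρ.reduced
  have h0 : (ρ.den : ℤ) * (ρ.den - ρ.num) ≠ 0 := by
    intro h
    have h' : (ρ.den : ℚ) * ((ρ.den : ℚ) - (ρ.num : ℚ)) = 0 := by exact_mod_cast h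
    rw [hρq] at h'
    have h3 : (ρ.den : ℚ) ^ 2 * (1 - ρ) = 0 := by linear_combination h'
    exact hρ1 ((mul_eq_zero.1 h3).resolve_left (pow_ne_zero 2 hd0))
  have hcop2 : IsCoprime (-((ρ.den : ℤ) ^ 2 - ρ.den * ρ.num + ρ.num ^ 2))
      ((ρ.den : ℤ) * (ρ.den - ρ.num)) := by
    refine IsCoprime.neg_left (IsCoprime.mul_right ?_ ?_)
    · have h3 : IsCoprime (ρ.num ^ 2 + (ρ.den : ℤ) * (ρ.den - ρ.num)) (ρ.den : ℤ) :=
        IsCoprime.add_mul_left_left (hcop.pow_left (m := 2)) _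
      have e : ρ.num ^ 2 + (ρ.den : ℤ) * (ρ.den - ρ.num) =
        (ρ.den : ℤ) ^ 2 - ρ.den * ρ.num + ρ.num ^ 2 := by ring
      rwa [e] at h3
    · have h3 : IsCoprime ((ρ.num) ^ 2 + (ρ.den - ρ.num) * (ρ.den : ℤ)) ((ρ.den : ℤ) - ρ.num) := by
        refine IsCoprime.add_mul_left_left (IsCoprime.pow_left ?_) _
        have h4 : IsCoprime ρ.num ((ρ.den : ℤ) + ρ.num * (-1)) :=
          IsCoprime.add_mul_left_right hcop _
        have e : (ρ.den : ℤ) + ρ.num * (-1) = ρ.den - ρ.num := by ring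
        rwa [e] at h4
      have e : (ρ.num) ^ 2 + (ρ.den - ρ.num) * (ρ.den : ℤ) =
        (ρ.den : ℤ) ^ 2 - ρ.den * ρ.num + ρ.num ^ 2 := by ring
      rwa [e] at h3
  have hceq : c = ((-((ρ.den : ℤ) ^ 2 - ρ.den * ρ.num + ρ.num ^ 2) : ℤ) : ℚ) /
      (((ρ.den : ℤ) * (ρ.den - ρ.num) : ℤ) : ℚ) := by
    rw [eq_div_iff (by exact_mod_cast h0)]
    push_cast
    rw [hρq]
    linear_combination (ρ.den : ℚ) ^ 2 * e1
  have hcls : ∀ K : ℤ, K = -((c.den + c.num) * c.den) → Cls a K := by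
    rintro K rfl
    refine cls_of ha c.den_ne_zero ht.1 ?_
    push_cast
    rw [ht.2, hcn]
    ring
  have hdv : ∀ e : ℤ, e = c.den ∨ e = -c.den → ∀ q : ℤ, q ∣ e → q ∈ TS (7 * X ^ 2) c.den := by
    intro e he q hq
    refine TS_dvd hX hn hc.2 ?_
    rcases he with rfl | rfl
    · exact hq
    · exact (dvd_neg).1 hq
  have hd1 : (ρ.den : ℤ) ∣ (ρ.den : ℤ) * (ρ.den - ρ.num) := Dvd.intro _ rfl
  have hd2 : ((ρ.den : ℤ) - ρ.num) ∣ (ρ.den : ℤ) * (ρ.den - ρ.num) := Dvd.intro_left _ rfl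
  have e3 : (ρ.den : ℤ) - (ρ.den - ρ.num) = ρ.num := by ring
  rcases rat_pm h0 hcop2 hceq with ⟨n1, n2⟩ | ⟨n1, n2⟩
  · have t := hdv _ (Or.inl n2.symm)
    refine ⟨_, mem_FC (p := ((ρ.den : ℤ), (ρ.den : ℤ) - ρ.num)) (j := 10) (t _ hd1) (t _ hd2)
      (by norm_num) ?_, hcls _ rfl⟩
    show (_, _) = (_, _)
    rw [n1]
    simp only [e3]
    refine Prod.ext rfl ?_
    simp only
    ring
  · have t := hdv ((ρ.den : ℤ) * (ρ.den - ρ.num)) (Or.inr (by linarith))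
    refine ⟨_, mem_FC (p := ((ρ.den : ℤ), (ρ.den : ℤ) - ρ.num)) (j := 9) (t _ hd1) (t _ hd2)
      (by norm_num) ?_, hcls _ rfl⟩
    show (_, _) = (_, _)
    rw [n1]
    simp only [e3]
    refine Prod.ext ?_ ?_
    · simp only
      ring
    · simp only
      ring

lemma case_long {z : ℚ} (hz : z ∈ periodicPts (g a c)) (h1 : g a c z ≠ z)
    (h2 : g a c z ≠ -z) : ∃ K, (c.num, K) ∈ FC X c.den ∧ Cls a K := by
  have hn : 1 ≤ c.den := c.den_pos
  have hn0 : (c.den : ℤ) ≠ 0 := by exact_mod_cast c.den_ne_zero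
  have hnq : (0 : ℚ) < c.den := by exact_mod_cast c.den_pos
  have hcn : (c.num : ℚ) = c * c.den := (Rat.mul_den_eq_num c).symm
  have hz0 : z ≠ 0 := by
    rintro rfl
    exact h1 (by unfold g; ring)
  obtain ⟨A, B, P, hA, hB, hAB, hnP, hA0, hP0, ⟨hu0, hu⟩, ⟨hv0, hv⟩⟩ := cycle_units ha hz h1 h2
  have hpre := pre_of_periodic hz
  have hcls : Cls a (c.den * A) := by
    refine cls_of ha c.den_ne_zero hz0 ?_
    push_cast
    rw [hA]
    ring
  have key : A * (A + B + c.num) = P * (c.den + P) := by linear_combination hAB - hnP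
  -- sizes
  have hsize : ∀ (y : ℚ) (D : ℤ), y ∈ Pre (g a c) → (D : ℚ) = c.den * (a * y ^ 2) →
      |(D : ℝ)| ≤ 2 * X := by
    intro y D hy hD
    have k1 := pre_abs hy
    have k2 : |(D : ℚ)| ≤ c.den + |(c.num : ℚ)| := by
      have e1 : |(D : ℚ)| = c.den * (|(a : ℚ)| * y ^ 2) := by
        rw [hD, abs_mul, abs_mul, abs_of_pos hnq, abs_of_nonneg (sq_nonneg y)]
      have e2 : |(c.num : ℚ)| = |c| * c.den := by rw [hcn, abs_mul, abs_of_pos hnq]
      rw [e1, e2]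
      nlinarith
    have k3 : |(D : ℝ)| ≤ c.den + |(c.num : ℝ)| := by exact_mod_cast k2
    linarith [hc.1, hc.2]
  have sA := hsize z A hpre hA
  have sB := hsize _ B (pre_apply hpre) hB
  have sP : |(P : ℝ)| ≤ 2 * X := by
    refine abs_le_of_sq_le_sq ?_ (by linarith)
    have e : (P : ℝ) ^ 2 = A * B := by exact_mod_cast hAB.symm
    rw [e]
    calc (A : ℝ) * B ≤ |(A : ℝ) * B| := le_abs_self _
      _ = |(A : ℝ)| * |(B : ℝ)| := abs_mul _ _
      _ ≤ (2 * X) * (2 * X) := by gcongr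
      _ = (2 * X) ^ 2 := by ring
  have sm := hc.1
  have hXX : X ≤ X ^ 2 := by nlinarith
  rw [abs_le] at sA sB sP sm
  by_cases hPn : (c.den : ℤ) + P = 0
  · -- the other cycles of length two
    have hQ : A + B + c.num = 0 := by
      rw [hPn, mul_zero] at key
      exact (mul_eq_zero.1 key).resolve_left hA0
    have hAB2 : A * B = (c.den : ℤ) ^ 2 := by
      rw [hAB]
      have : P = -c.den := by linarith
      rw [this]
      ring
    obtain ⟨m1, m2⟩ := TS_sq hX hn hc.2 hAB2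
    refine ⟨c.den * A, mem_FC (p := (A, A)) (j := 1) m1 m1 (by norm_num) ?_, hcls⟩
    show (_, _) = (_, _)
    simp only
    rw [m2]
    refine Prod.ext ?_ rfl
    simp only
    linarith
  · have hQ0 : A + B + c.num ≠ 0 := by
      intro h
      rw [h, mul_zero] at key
      rcases mul_eq_zero.1 key.symm with h' | h'
      · exact hP0 h'
      · exact hPn h'
    have m1 : A + P + B + c.num ∈ TS (7 * X ^ 2) c.den := by
      refine mem_TS ?_ hu0 hu
      push_cast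
      rw [abs_le]
      constructor <;> linarith
    have m2 : A - P + B + c.num ∈ TS (7 * X ^ 2) c.den := by
      refine mem_TS ?_ hv0 hv
      push_cast
      rw [abs_le]
      constructor <;> linarith
    refine ⟨c.den * A, mem_FC (p := (A + P + B + c.num, A - P + B + c.num)) (j := 0) m1 m2
      (by norm_num) ?_, hcls⟩
    have e1 : (A + P + B + c.num + (A - P + B + c.num)) / 2 = A + B + c.num := by omega
    have e2 : (A + P + B + c.num - (A - P + B + c.num)) / 2 = P := by omega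
    have e3 : P * (c.den + P) / (A + B + c.num) = A := by
      rw [← key]
      exact Int.mul_ediv_cancel _ hQ0
    have e4 : P * P / A = B := by
      rw [← sq, ← hAB]
      exact Int.mul_ediv_cancel_left _ hA0
    show (_, _) = (_, _)
    simp only
    rw [e1, e2, e3, e4]
    refine Prod.ext ?_ rfl
    simp only
    ring

theorem exc_mem (h : (3 : ℕ∞) < (Pre (g a c)).encard ∨
    ∃ z ∈ periodicPts (g a c), g a c z ≠ z ∧ g a c z ≠ -z) :
    ∃ K, (c.num, K) ∈ FC X c.den ∧ Cls a K := by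
  by_cases hl : ∃ z ∈ periodicPts (g a c), g a c z ≠ z ∧ g a c z ≠ -z
  · obtain ⟨z, hz, h1, h2⟩ := hl
    exact case_long ha hX hc hz h1 h2
  · have h3 := h.resolve_right hl
    push Not at hl
    have hper : ∀ y ∈ periodicPts (g a c), g a c y = y ∨ g a c y = -y := by
      intro y hy
      by_cases h4 : g a c y = y
      · exact Or.inl h4
      · exact Or.inr (hl y hy h4)
    rcases short_cases ha h3 hper with ⟨s, t, hs, ht⟩ | ⟨s, t, hs, ht⟩ | ⟨s, t, hs, ht⟩ |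
      ⟨s, w, hs, hw, hg⟩ | ⟨t, w, ht, hw, hg⟩ | ⟨t, w, ht, hw, hg⟩
    · exact case_AB ha hX hc hs ht
    · exact case_AC ha hX hc hs ht
    · exact case_BC ha hX hc hs ht
    · exact case_TA ha hX hc hs hw hg
    · exact case_TB ha hX hc ht hw hg
    · exact case_TC ha hX hc ht hw hg

end

end Pool.Agent.X12.Cub
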