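import Mathlib
import Pool.Agent.H510R2.Div

/-!
# Integers of an arithmetic progression coprime to `m`
-/

set_option autoImplicit false

namespace Pool.Agent.X12.Szp

open Finset

open ArithmeticFunction in
theorem ind_cop (f N : ℕ) (hN : 1 ≤ N) : (if Nat.Coprime f N then (1 : ℤ) else 0) =
    ∑ d ∈ N.divisors, if d ∣ f then moebius d else 0 := by
  have h1 : ∑ d ∈ (Nat.gcd f N).divisors, (moebius d : ℤ) = if Nat.gcd f N = 1 then 1 else 0 := by
    have := DFunLike.congr_fun moebius_mul_coe_zeta (Nat.gcd f N)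
    rw [coe_mul_zeta_apply, one_apply] at this
    exact this
  have h2 : (Nat.gcd f N).divisors = N.divisors.filter (fun d => d ∣ f) := by
    ext d
    simp only [Nat.mem_divisors, mem_filter, Nat.dvd_gcd_iff, ne_eq, Nat.gcd_eq_zero_iff]
    constructor
    · rintro ⟨⟨h, h'⟩, -⟩
      exact ⟨⟨h', by omega⟩, h⟩
    · rintro ⟨⟨h, h'⟩, h''⟩
      exact ⟨⟨h'', h⟩, fun hh => h' hh.2⟩
  rw [← sum_filter, ← h2, h1]

open ArithmeticFunction in
theorem cop_id (N Y : ℕ) (hN : 1 ≤ N) : (((Icc 1 Y).filter (fun f => Nat.Coprime f N)).card : ℤ) =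
    ∑ d ∈ N.divisors, moebius d * ((Y / d : ℕ) : ℤ) := by
  rw [card_filter, Nat.cast_sum]
  simp only [Nat.cast_ite, Nat.cast_one, Nat.cast_zero]
  rw [sum_congr rfl (fun f _ => ind_cop f N hN), sum_comm]
  refine sum_congr rfl fun d _ => ?_
  rw [← sum_filter, sum_const, nsmul_eq_mul, mul_comm]
  have h : Icc 1 Y = Ioc 0 Y := by
    ext x
    simp only [mem_Icc, mem_Ioc]
    omega
  rw [h, Nat.Ioc_filter_dvd_card_eq_div]

/-- integers up to `Y` coprime to `N` -/
theorem cop_count (N Y : ℕ) (hN1 : 1 ≤ N) :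
    |(((Icc 1 Y).filter (fun f => Nat.Coprime f N)).card : ℝ) - (Y : ℝ) * (Nat.totient N : ℝ) / (N : ℝ)| ≤
      (N.divisors.card : ℝ) := by
  have h1 := cop_id N Y hN1
  have h2 := cop_id N N hN1
  have h3 : ((Icc 1 N).filter (fun f => Nat.Coprime f N)).card = Nat.totient N := by
    rw [← Nat.filter_coprime_Ico_eq_totient N 1]
    congr 1
    ext x
    simp only [mem_filter, mem_Icc, mem_Ico, Nat.coprime_comm]
    omega
  rw [h3] at h2
  have hNR : (0 : ℝ) < (N : ℝ) := by exact_mod_cast hN1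
  have h1' : (((Icc 1 Y).filter (fun f => Nat.Coprime f N)).card : ℝ) =
      ∑ d ∈ N.divisors, (ArithmeticFunction.moebius d : ℝ) * ((Y / d : ℕ) : ℝ) := by
    rw [← Int.cast_natCast, h1, Int.cast_sum]
    exact sum_congr rfl fun d _ => by rw [Int.cast_mul, Int.cast_natCast]
  have h2' : (Nat.totient N : ℝ) =
      ∑ d ∈ N.divisors, (ArithmeticFunction.moebius d : ℝ) * ((N / d : ℕ) : ℝ) := by
    rw [← Int.cast_natCast, h2, Int.cast_sum]
    exact sum_congr rfl fun d _ => by rw [Int.cast_mul, Int.cast_natCast]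
  have h4 : (Y : ℝ) * (Nat.totient N : ℝ) / (N : ℝ) =
      ∑ d ∈ N.divisors, (ArithmeticFunction.moebius d : ℝ) * ((Y : ℝ) / d) := by
    rw [h2', mul_sum, sum_div]
    refine sum_congr rfl fun d hd => ?_
    have hd' := Nat.mem_divisors.1 hd
    have hd0 : (d : ℝ) ≠ 0 := by
      have : d ≠ 0 := fun h => hd'.2 (by simpa [h] using hd'.1)
      exact_mod_cast this
    rw [Nat.cast_div hd'.1 hd0]
    field_simp
  rw [h1', h4, ← sum_sub_distrib]
  calc |∑ d ∈ N.divisors, ((ArithmeticFunction.moebius d : ℝ) * ((Y / d : ℕ) : ℝ) -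
        (ArithmeticFunction.moebius d : ℝ) * ((Y : ℝ) / d))|
      ≤ ∑ d ∈ N.divisors, |(ArithmeticFunction.moebius d : ℝ) * ((Y / d : ℕ) : ℝ) -
        (ArithmeticFunction.moebius d : ℝ) * ((Y : ℝ) / d)| := abs_sum_le_sum_abs _ _
    _ ≤ ∑ _d ∈ N.divisors, (1 : ℝ) := by
        refine sum_le_sum fun d hd => ?_
        have hd' := Nat.mem_divisors.1 hd
        have hd0 : d ≠ 0 := fun h => hd'.2 (by simpa [h] using hd'.1)
        have hdR : (0 : ℝ) < d := by exact_mod_cast Nat.pos_of_ne_zero hd0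
        rw [← mul_sub, abs_mul]
        have hm : |(ArithmeticFunction.moebius d : ℝ)| ≤ 1 := by
          have := ArithmeticFunction.abs_moebius_le_one (n := d)
          exact_mod_cast this
        have hq : |((Y / d : ℕ) : ℝ) - (Y : ℝ) / d| ≤ 1 := by
          have e1 : ((Y / d : ℕ) : ℝ) ≤ (Y : ℝ) / d := Nat.cast_div_le
          have e2 : (Y : ℝ) / d < ((Y / d : ℕ) : ℝ) + 1 := by
            rw [div_lt_iff₀ hdR]
            have h5 : Y < (Y / d + 1) * d := by
              have h6 := Nat.div_add_mod Y d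
              have h7 := Nat.mod_lt Y (Nat.pos_of_ne_zero hd0)
              nlinarith
            exact_mod_cast h5
          rw [abs_le]
          constructor <;> linarith
        calc |(ArithmeticFunction.moebius d : ℝ)| * |((Y / d : ℕ) : ℝ) - (Y : ℝ) / d|
            ≤ 1 * 1 := mul_le_mul hm hq (abs_nonneg _) zero_le_one
          _ = 1 := one_mul 1
    _ = (N.divisors.card : ℝ) := by simp

open scoped Classical in
/-- integers of an arithmetic progression coprime to `m` -/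
theorem cop_ap (m : ℕ) (hm : 1 ≤ m) (A B : ℤ) (hB : IsCoprime B (m : ℤ)) (K : ℕ) :
    (K : ℝ) * (Nat.totient m : ℝ) / m - 2 * (m.divisors.card : ℝ) ≤
      (((Finset.range K).filter fun k : ℕ => IsCoprime (A + B * k) (m : ℤ)).card : ℝ) := by
  obtain ⟨u, v, huv⟩ := hB
  -- `u * B ≡ 1`
  have hm0 : (0 : ℤ) < m := by exact_mod_cast hm
  set c := ((u * A) % m + m).toNat with hc
  have hmod : 0 ≤ (u * A) % (m : ℤ) := Int.emod_nonneg _ hm0.ne'
  have hc1 : ((c : ℕ) : ℤ) = (u * A) % m + m := by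
    rw [hc, Int.toNat_of_nonneg (by linarith)]
  have hcpos : 1 ≤ c := by
    have : (1 : ℤ) ≤ c := by rw [hc1]; linarith
    exact_mod_cast this
  have hdiv : (m : ℤ) ∣ A - B * c := by
    rw [hc1]
    have h1 := Int.emod_add_mul_ediv (u * A) m
    have h2 : A - B * ((u * A) % m + m) = m * (v * A + B * (u * A / m) - B) := by
      have h3 : A = u * B * A + v * m * A := by rw [← add_mul, huv, one_mul]
      have h4 : (u * A) % m = u * A - m * (u * A / m) := by linarith
      rw [h4]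
      nth_rewrite 1 [h3]
      ring
    rw [h2]
    exact dvd_mul_right _ _
  have hcopr : ∀ k : ℕ, Nat.Coprime (c + k) m → IsCoprime (A + B * k) (m : ℤ) := by
    intro k hk
    obtain ⟨t, ht⟩ := hdiv
    have h1 : A + B * k = B * ((c + k : ℕ) : ℤ) + t * m := by
      push_cast
      linarith
    rw [h1]
    refine IsCoprime.add_mul_right_left ?_ t
    exact IsCoprime.mul_left ⟨u, v, huv⟩ (Nat.isCoprime_iff_coprime.2 hk)
  have h1 : ((Icc 1 (c - 1 + K)).filter (fun f => Nat.Coprime f m)).card ≤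
      ((Icc 1 (c - 1)).filter (fun f => Nat.Coprime f m)).card +
      ((Finset.range K).filter fun k : ℕ => IsCoprime (A + B * k) (m : ℤ)).card := by
    have h2 : (Icc 1 (c - 1 + K)).filter (fun f => Nat.Coprime f m) ⊆
        ((Icc 1 (c - 1)).filter (fun f => Nat.Coprime f m)) ∪
        (((Finset.range K).filter fun k : ℕ => IsCoprime (A + B * k) (m : ℤ)).image
          fun k => c + k) := by
      intro f hf
      rw [Finset.mem_filter, Finset.mem_Icc] at hf
      rw [Finset.mem_union]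
      by_cases hfc : f ≤ c - 1
      · exact Or.inl (Finset.mem_filter.2 ⟨Finset.mem_Icc.2 ⟨hf.1.1, hfc⟩, hf.2⟩)
      · right
        rw [Finset.mem_image]
        refine ⟨f - c, ?_, by omega⟩
        rw [Finset.mem_filter, Finset.mem_range]
        refine ⟨by omega, hcopr _ ?_⟩
        have : c + (f - c) = f := by omega
        rw [this]
        exact hf.2
    refine (Finset.card_le_card h2).trans ((Finset.card_union_le _ _).trans ?_)
    exact Nat.add_le_add_left Finset.card_image_le _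
  have h2 := (abs_le.1 (cop_count m (c - 1 + K) hm)).1
  have h3 := (abs_le.1 (cop_count m (c - 1) hm)).2
  have h4 : (((Icc 1 (c - 1 + K)).filter (fun f => Nat.Coprime f m)).card : ℝ) ≤
      (((Icc 1 (c - 1)).filter (fun f => Nat.Coprime f m)).card : ℝ) +
      (((Finset.range K).filter fun k : ℕ => IsCoprime (A + B * k) (m : ℤ)).card : ℝ) := by
    exact_mod_cast h1
  have h5 : ((c - 1 + K : ℕ) : ℝ) * (Nat.totient m : ℝ) / m =
      ((c - 1 : ℕ) : ℝ) * (Nat.totient m : ℝ) / m + (K : ℝ) * (Nat.totient m : ℝ) / m := by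
    rw [Nat.cast_add]
    ring
  rw [h5] at h2
  linarith

lemma prod_le_card (S : Finset ℕ) : (∀ p ∈ S, 2 ≤ p) →
    ∏ p ∈ S, p ≤ (S.card + 1) * ∏ p ∈ S, (p - 1) := by
  induction S using Finset.induction_on_max with
  | empty => simp
  | insert m s hm ih =>
    intro h
    have hms : m ∉ s := fun hcon => lt_irrefl _ (hm m hcon)
    have h1 := ih fun p hp => h p (mem_insert_of_mem hp)
    have hcard : s.card + 1 ≤ m - 1 := by
      have h2 : s ⊆ Finset.Ico 2 m := fun x hx =>
        mem_Ico.2 ⟨h x (mem_insert_of_mem hx), hm x hx⟩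
      have h3 := card_le_card h2
      rw [Nat.card_Ico] at h3
      have h4 := h m (mem_insert_self _ _)
      omega
    obtain ⟨k, hk⟩ : ∃ k, m = k + 1 := ⟨m - 1, by
      have := h m (mem_insert_self _ _)
      omega⟩
    rw [prod_insert hms, prod_insert hms, card_insert_of_notMem hms]
    rw [hk] at hcard ⊢
    simp only [Nat.add_sub_cancel] at hcard ⊢
    calc (k + 1) * ∏ p ∈ s, p ≤ (k + 1) * ((s.card + 1) * ∏ p ∈ s, (p - 1)) :=
          Nat.mul_le_mul_left _ h1
      _ = ((k + 1) * (s.card + 1)) * ∏ p ∈ s, (p - 1) := by ring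
      _ ≤ ((s.card + 1 + 1) * k) * ∏ p ∈ s, (p - 1) := by
        apply Nat.mul_le_mul_right
        nlinarith
      _ = _ := by ring

lemma totient_bound {b : ℕ} (hb : 1 ≤ b) : (b : ℝ) / (Nat.totient b : ℝ) ≤ 2 * (1 + Real.log b) := by
  have hb0 : b ≠ 0 := by omega
  have hφ : 0 < Nat.totient b := Nat.totient_pos.2 hb
  have hφR : (0 : ℝ) < Nat.totient b := by exact_mod_cast hφ
  have h1 := Nat.totient_mul_prod_primeFactors b
  have h2 := prod_le_card b.primeFactors fun p hp => (Nat.prime_of_mem_primeFactors hp).two_le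
  have hpos : 0 < ∏ p ∈ b.primeFactors, (p - 1) := by
    apply prod_pos
    intro p hp
    have := (Nat.prime_of_mem_primeFactors hp).two_le
    omega
  have h3 : b ≤ Nat.totient b * (b.primeFactors.card + 1) := by
    apply Nat.le_of_mul_le_mul_right _ hpos
    rw [← h1, mul_assoc]
    exact Nat.mul_le_mul_left _ h2
  have h4 : 2 ^ b.primeFactors.card ≤ b := by
    refine le_trans ?_ (Nat.le_of_dvd hb (Nat.prod_primeFactors_dvd b))
    exact Finset.pow_card_le_prod _ _ _ fun p hp => (Nat.prime_of_mem_primeFactors hp).two_le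
  have h5 : (b.primeFactors.card : ℝ) * Real.log 2 ≤ Real.log b := by
    rw [← Real.log_pow]
    apply Real.log_le_log (by positivity)
    exact_mod_cast h4
  have h6 := Real.log_two_gt_d9
  have hc : (0 : ℝ) ≤ b.primeFactors.card := Nat.cast_nonneg _
  rw [div_le_iff₀ hφR]
  have h7 : (b : ℝ) ≤ Nat.totient b * ((b.primeFactors.card : ℝ) + 1) := by exact_mod_cast h3
  have h8 : (b.primeFactors.card : ℝ) + 1 ≤ 2 * (1 + Real.log b) := by
    nlinarith
  calc (b : ℝ) ≤ Nat.totient b * ((b.primeFactors.card : ℝ) + 1) := h7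
    _ ≤ Nat.totient b * (2 * (1 + Real.log b)) := by gcongr
    _ = _ := by ring

open scoped Classical in
/-- the sieve bound in the form used below -/
theorem sieve_ge (η : ℝ) (hη : 0 < η) : ∃ c C : ℝ, 0 < c ∧ 0 < C ∧ ∀ (X : ℝ) (m K : ℕ) (A B : ℤ),
    1 ≤ X → 1 ≤ m → (m : ℝ) ≤ X ^ 2 → IsCoprime B (m : ℤ) →
    c * K * X ^ (-η) - C * X ^ η ≤
      (((Finset.range K).filter fun k : ℕ => IsCoprime (A + B * k) (m : ℤ)).card : ℝ) := by
  obtain ⟨C₁, hC₁, hdiv⟩ := Pool.Agent.H510R2.divisor_bound (η / 2) (by positivity)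
  refine ⟨1 / (2 * (1 + 2 / η)), 2 * C₁, by positivity, by positivity, ?_⟩
  intro X m K A B hX hm hmX hB
  have hX0 : 0 < X := by linarith
  have hmR : (0 : ℝ) < m := by exact_mod_cast hm
  have hφR : (0 : ℝ) < Nat.totient m := by exact_mod_cast Nat.totient_pos.2 hm
  refine le_trans ?_ (cop_ap m hm A B hB K)
  have h1 : (m.divisors.card : ℝ) ≤ C₁ * X ^ η := by
    refine (hdiv m hm).trans ?_
    refine mul_le_mul_of_nonneg_left ?_ hC₁.le
    refine (Real.rpow_le_rpow hmR.le hmX (by positivity)).trans (le_of_eq ?_)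
    rw [show X ^ 2 = X ^ ((2 : ℕ) : ℝ) from (Real.rpow_natCast X 2).symm, ← Real.rpow_mul hX0.le]
    congr 1
    push_cast
    ring
  have h2 := totient_bound hm
  have hlogX : Real.log X ≤ X ^ η / η := Real.log_le_rpow_div hX0.le hη
  have hlogm : Real.log m ≤ 2 * Real.log X := by
    have := Real.log_le_log hmR hmX
    rwa [Real.log_pow] at this
  have hXη : 1 ≤ X ^ η := Real.one_le_rpow hX hη.le
  have h3 : (m : ℝ) / (Nat.totient m : ℝ) ≤ 2 * (1 + 2 / η) * X ^ η := by
    have e1 : (2 : ℝ) * (1 + Real.log m) ≤ 2 * (1 + 2 * (X ^ η / η)) := by linarith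
    have e2 : (2 : ℝ) * (1 + 2 * (X ^ η / η)) ≤ 2 * (1 + 2 / η) * X ^ η := by
      have : 2 / η * X ^ η = 2 * (X ^ η / η) := by ring
      nlinarith
    linarith
  have h4 : 1 / (2 * (1 + 2 / η)) * X ^ (-η) ≤ (Nat.totient m : ℝ) / m := by
    rw [Real.rpow_neg hX0.le]
    have e1 : 1 / (2 * (1 + 2 / η)) * (X ^ η)⁻¹ = (2 * (1 + 2 / η) * X ^ η)⁻¹ := by
      rw [mul_inv, one_div]
    have e2 : (Nat.totient m : ℝ) / m = ((m : ℝ) / (Nat.totient m : ℝ))⁻¹ := by rw [inv_div]
    rw [e1, e2]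
    exact inv_anti₀ (by positivity) h3
  have hK : (0 : ℝ) ≤ K := Nat.cast_nonneg _
  have h5 : 1 / (2 * (1 + 2 / η)) * K * X ^ (-η) ≤ (K : ℝ) * (Nat.totient m : ℝ) / m := by
    calc 1 / (2 * (1 + 2 / η)) * K * X ^ (-η) = K * (1 / (2 * (1 + 2 / η)) * X ^ (-η)) := by ring
      _ ≤ K * ((Nat.totient m : ℝ) / m) := by gcongr
      _ = _ := by ring
  linarith

/-- the final numerical step -/
theorem final_num (c1 c2 c C α β ε η : ℝ) (hc1 : 0 < c1) (hc2 : 0 < c2) (hc : 0 < c)
    (_hη : 0 < η) (h2η : 2 * η < β) (hηε : η < ε) :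
    ∃ X₀ : ℝ, ∀ X : ℝ, X₀ ≤ X → ∀ I K : ℝ, c1 * X ^ α ≤ I → c2 * X ^ β ≤ K →
      X ^ (α + β - ε) ≤ I * (c * K * X ^ (-η) - C * X ^ η) := by
  have t1 := tendsto_rpow_atTop (sub_pos.2 h2η)
  have t2 := tendsto_rpow_atTop (sub_pos.2 hηε)
  obtain ⟨X1, hX1⟩ := Filter.eventually_atTop.1
    ((t1.eventually_ge_atTop (2 * C / (c * c2))).and
      ((t2.eventually_ge_atTop (2 / (c * c2 * c1))).and (Filter.eventually_ge_atTop (1 : ℝ))))
  refine ⟨X1, fun X hX I K hI hK => ?_⟩
  obtain ⟨h1, h2, h3⟩ := hX1 X hX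
  have hX0 : 0 < X := by linarith
  have p1 : 0 < X ^ α := Real.rpow_pos_of_pos hX0 _
  have p2 : 0 < X ^ β := Real.rpow_pos_of_pos hX0 _
  have p3 : 0 < X ^ η := Real.rpow_pos_of_pos hX0 _
  have p4 : 0 < X ^ (-η) := Real.rpow_pos_of_pos hX0 _
  have h4 : c * c2 / 2 * X ^ (β - η) ≤ c * K * X ^ (-η) - C * X ^ η := by
    have e1 : X ^ (β - η) = X ^ β * X ^ (-η) := by rw [← Real.rpow_add hX0]; rfl
    have e2 : X ^ (β - η) = X ^ (β - 2 * η) * X ^ η := by
      rw [← Real.rpow_add hX0]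
      congr 1
      ring
    have e3 : C * X ^ η ≤ c * c2 / 2 * X ^ (β - η) := by
      rw [e2]
      rw [div_le_iff₀ (by positivity)] at h1
      calc C * X ^ η = 2 * C / 2 * X ^ η := by ring
        _ ≤ X ^ (β - 2 * η) * (c * c2) / 2 * X ^ η := by gcongr
        _ = _ := by ring
    have e4 : c * c2 * X ^ (β - η) ≤ c * K * X ^ (-η) := by
      rw [e1]
      calc c * c2 * (X ^ β * X ^ (-η)) = c * (c2 * X ^ β) * X ^ (-η) := by ring
        _ ≤ c * K * X ^ (-η) := by gcongr
    linarith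
  have p5 : 0 < X ^ (β - η) := Real.rpow_pos_of_pos hX0 _
  have hI0 : 0 < I := lt_of_lt_of_le (by positivity) hI
  calc X ^ (α + β - ε) ≤ X ^ (ε - η) * (c * c2 * c1) / 2 * X ^ (α + β - ε) := by
        rw [div_le_iff₀ (by positivity)] at h2
        have : 1 ≤ X ^ (ε - η) * (c * c2 * c1) / 2 := by linarith
        have p6 : 0 < X ^ (α + β - ε) := Real.rpow_pos_of_pos hX0 _
        nlinarith
    _ = c1 * X ^ α * (c * c2 / 2 * X ^ (β - η)) := by
        have e5 : X ^ (ε - η) * X ^ (α + β - ε) = X ^ α * X ^ (β - η) := by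
          rw [← Real.rpow_add hX0, ← Real.rpow_add hX0]
          congr 1
          ring
        calc X ^ (ε - η) * (c * c2 * c1) / 2 * X ^ (α + β - ε) =
            (c * c2 * c1) / 2 * (X ^ (ε - η) * X ^ (α + β - ε)) := by ring
          _ = _ := by rw [e5]; ring
    _ ≤ I * (c * K * X ^ (-η) - C * X ^ η) := by
        have : 0 ≤ c * c2 / 2 * X ^ (β - η) := by positivity
        gcongr

end Pool.Agent.X12.Szp
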