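import Pool.Agent.X12.Szp7

/-!
# Assembly in terms of the height
-/

set_option autoImplicit false

namespace Pool.Agent.X12.Szp

open Filter Topology

/-- **Lower bound** for all `1 ≤ κ < 6` -/
theorem lower_all (κ ε : ℝ) (hκ : 1 ≤ κ) (hκ6 : κ < 6) (hε : 0 < ε) :
    ∃ X₀ : ℝ, ∀ X : ℝ, X₀ ≤ X → X ^ (6 / κ - 1 - ε) ≤ ((Exc κ X).ncard : ℝ) := by
  rcases lt_or_ge κ 2 with h | h
  · exact lower1 κ ε hκ h hε
  · rcases lt_or_ge κ 3 with h' | h'
    · exact lower2 κ ε h h' hε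
    · exact lower3 κ ε h' hκ6 hε

/-- logarithmic asymptotics from bounds with an `ε` -/
theorem tendsto_of_bounds (f : ℝ → ℝ) (g : ℝ)
    (hl : ∀ ε : ℝ, 0 < ε → ∃ H₀ : ℝ, ∀ H : ℝ, H₀ ≤ H → H ^ (g - ε) ≤ f H)
    (hu : ∀ ε : ℝ, 0 < ε → ∃ C : ℝ, 0 < C ∧ ∀ H : ℝ, 1 ≤ H → f H ≤ C * H ^ (g + ε)) :
    Tendsto (fun H => Real.log (f H) / Real.log H) atTop (𝓝 g) := by
  rw [tendsto_order]
  constructor
  · intro a ha
    obtain ⟨H0, h⟩ := hl ((g - a) / 2) (by linarith)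
    filter_upwards [eventually_ge_atTop H0, eventually_gt_atTop 1] with H h1 h2
    have hH : 0 < H := by linarith
    have hlog : 0 < Real.log H := Real.log_pos h2
    have h3 := Real.log_le_log (Real.rpow_pos_of_pos hH _) (h H h1)
    rw [Real.log_rpow hH] at h3
    rw [lt_div_iff₀ hlog]
    nlinarith
  · intro a ha
    obtain ⟨C, hC, h⟩ := hu ((a - g) / 4) (by linarith)
    obtain ⟨H0, h0⟩ := hl 1 one_pos
    have ht : Tendsto (fun H : ℝ => Real.log C / Real.log H) atTop (𝓝 0) :=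
      Tendsto.div_atTop tendsto_const_nhds Real.tendsto_log_atTop
    have ht' := (tendsto_order.1 ht).2 ((a - g) / 4) (by linarith)
    filter_upwards [eventually_ge_atTop H0, eventually_gt_atTop 1, ht'] with H h1 h2 h3
    have hH : 0 < H := by linarith
    have hlog : 0 < Real.log H := Real.log_pos h2
    have hf : 0 < f H := lt_of_lt_of_le (Real.rpow_pos_of_pos hH _) (h0 H h1)
    have h4 := Real.log_le_log hf (h H h2.le)
    rw [Real.log_mul hC.ne' (Real.rpow_pos_of_pos hH _).ne', Real.log_rpow hH] at h4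
    rw [div_lt_iff₀ hlog] at h3 ⊢
    nlinarith

end Pool.Agent.X12.Szp
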