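import Pool.Agent.X12.Dyn2
import Pool.Agent.X12.Szp5
import Pool.Agent.X12.Szp8

/-!
# The number of the quadratic polynomials with many rational preperiodic points: lower bounds
-/

set_option autoImplicit false

namespace Pool.Agent.X12.Dyn

open Function Finset

lemma pre_back {c z : ℚ} (h : f c z ∈ Pre c) : z ∈ Pre c := by
  have h1 : Set.range (fun k : ℕ => (f c)^[k] z) ⊆
      insert z (Set.range fun k : ℕ => (f c)^[k] (f c z)) := by
    rintro _ ⟨k, rfl⟩
    rcases k with _ | k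
    · exact Set.mem_insert _ _
    · right
      refine ⟨k, ?_⟩
      simp only
      rw [Function.iterate_succ_apply]
  exact (Set.Finite.insert z h).subset h1

lemma pre_fixed {c z : ℚ} (h : f c z = z) : z ∈ Pre c := by
  have h1 : Set.range (fun k : ℕ => (f c)^[k] z) ⊆ {z} := by
    rintro _ ⟨k, rfl⟩
    exact Function.iterate_fixed h k
  exact (Set.finite_singleton z).subset h1

lemma pre_two {c z w : ℚ} (h : f c z = w) (h' : f c w = z) : z ∈ Pre c := by
  have h1 : Set.range (fun k : ℕ => (f c)^[k] z) ⊆ {z, w} := by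
    rintro _ ⟨k, rfl⟩
    simp only
    induction k with
    | zero => exact Set.mem_insert _ _
    | succ k ih =>
      rw [Function.iterate_succ_apply']
      rcases ih with ih | ih
      · right
        rw [ih, h]
        rfl
      · left
        have ih' : (f c)^[k] z = w := ih
        rw [ih', h']
  exact (Set.toFinite {z, w}).subset h1

/-- a height bound from a presentation -/
lemma htLe_of_div {X : ℝ} {c : ℚ} {m n : ℤ} (hn : n ≠ 0) (hm : m ≠ 0) (hc : c = (m : ℚ) / n)
    (h1 : |(m : ℝ)| ≤ X) (h2 : |(n : ℝ)| ≤ X) : HtLe X c := by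
  rw [← Rat.divInt_eq_div] at hc
  have g1 : c.num ∣ m := by
    rw [hc]
    exact Rat.num_dvd m hn
  have g2 : (c.den : ℤ) ∣ n := by
    rw [hc]
    exact Rat.den_dvd m n
  have e1 : |c.num| ≤ |m| := by
    have := Int.le_of_dvd (abs_pos.2 hm) ((abs_dvd _ _).2 ((dvd_abs _ _).2 g1))
    exact this
  have e2 : (c.den : ℤ) ≤ |n| := Int.le_of_dvd (abs_pos.2 hn) ((dvd_abs _ _).2 g2)
  constructor
  · have : (|c.num| : ℝ) ≤ |(m : ℝ)| := by exact_mod_cast e1
    exact this.trans h1
  · have : (c.den : ℝ) ≤ |(n : ℝ)| := by exact_mod_cast e2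
    exact this.trans h2

/-- many rational numbers at least two of given height -/
theorem many_rat (ε : ℝ) (hε : 0 < ε) : ∃ A₀ : ℝ, ∀ A : ℝ, A₀ ≤ A → ∃ S : Finset ℚ,
    (∀ u ∈ S, 2 ≤ u ∧ (u.num : ℝ) ≤ A ∧ (u.den : ℝ) ≤ A) ∧ A ^ (2 - ε) ≤ (S.card : ℝ) := by
  classical
  set η := min (ε / 2) (1 / 4) with hη
  have hη0 : 0 < η := by
    rw [hη]
    exact lt_min (by linarith) (by norm_num)
  have hη1 : 2 * η < 1 := by
    have : η ≤ 1 / 4 := min_le_right _ _
    linarith
  have hη2 : η < ε := by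
    have : η ≤ ε / 2 := min_le_left _ _
    linarith
  obtain ⟨c, C, hc, hC, hs⟩ := Szp.sieve_ge η hη0
  obtain ⟨X0, hX0⟩ := Szp.final_num (1 / 8) (1 / 8) c C 1 1 ε η (by norm_num) (by norm_num) hc
    hη0 hη1 hη2
  refine ⟨max X0 8, fun A hA => ?_⟩
  have hA1 : X0 ≤ A := (le_max_left _ _).trans hA
  have hA8 : 8 ≤ A := (le_max_right _ _).trans hA
  have hA0 : 0 < A := by linarith
  set K := ⌊A / 4⌋₊ with hK
  have hK1 : (K : ℝ) ≤ A / 4 := Nat.floor_le (by linarith)
  have hK2 : A / 8 ≤ (K : ℝ) := by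
    have := Nat.lt_floor_add_one (A / 4)
    rw [← hK] at this
    linarith
  set G : Finset (Σ _ : ℕ, ℕ) := (Finset.Icc 1 K).sigma fun b => (Finset.range K).filter
    fun k : ℕ => IsCoprime (2 * (b : ℤ) + 1 * k) (b : ℤ) with hG
  set φ : (Σ _ : ℕ, ℕ) → ℚ := fun x => ((2 * (x.1 : ℤ) + 1 * x.2 : ℤ) : ℚ) / ((x.1 : ℤ) : ℚ) with hφ
  have hinj : Set.InjOn φ (G : Set (Σ _ : ℕ, ℕ)) := by
    rintro ⟨b, k⟩ h1 ⟨b', k'⟩ h2 h
    rw [Finset.mem_coe, hG, Finset.mem_sigma, Finset.mem_filter, Finset.mem_Icc] at h1 h2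
    obtain ⟨⟨p1, p2⟩, p3, p4⟩ := h1
    obtain ⟨⟨q1, q2⟩, q3, q4⟩ := h2
    simp only at p1 p2 p3 p4 q1 q2 q3 q4
    have := Rat.div_int_inj (by exact_mod_cast p1) (by exact_mod_cast q1)
      (Int.isCoprime_iff_nat_coprime.1 p4) (Int.isCoprime_iff_nat_coprime.1 q4) h
    obtain ⟨e1, e2⟩ := this
    have e3 : b = b' := by exact_mod_cast e2
    subst e3
    have e4 : k = k' := by
      have : (k : ℤ) = k' := by linarith
      exact_mod_cast this
    rw [e4]
  refine ⟨G.image φ, ?_, ?_⟩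
  · intro u hu
    obtain ⟨⟨b, k⟩, h1, rfl⟩ := Finset.mem_image.1 hu
    rw [hG, Finset.mem_sigma, Finset.mem_filter, Finset.mem_Icc, Finset.mem_range] at h1
    obtain ⟨⟨p1, p2⟩, p3, p4⟩ := h1
    simp only at p1 p2 p3 p4
    have hb0 : (0 : ℤ) < b := by exact_mod_cast p1
    have hcop := Int.isCoprime_iff_nat_coprime.1 p4
    have hnum : (φ ⟨b, k⟩).num = 2 * (b : ℤ) + 1 * k := by
      rw [hφ]
      exact Rat.num_div_eq_of_coprime hb0 hcop
    have hden : ((φ ⟨b, k⟩).den : ℤ) = b := by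
      rw [hφ]
      exact Rat.den_div_eq_of_coprime hb0 hcop
    have hbK : (b : ℝ) ≤ A / 4 := by
      have : (b : ℝ) ≤ K := by exact_mod_cast p2
      linarith
    have hkK : (k : ℝ) ≤ A / 4 := by
      have : (k : ℝ) ≤ K := by exact_mod_cast p3.le
      linarith
    refine ⟨?_, ?_, ?_⟩
    · rw [hφ]
      simp only
      have hbq : (0 : ℚ) < ((b : ℤ) : ℚ) := by exact_mod_cast hb0
      rw [le_div_iff₀ hbq]
      push_cast
      have : (0 : ℚ) ≤ k := Nat.cast_nonneg k
      linarith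
    · rw [hnum]
      push_cast
      linarith
    · have : ((φ ⟨b, k⟩).den : ℝ) = b := by exact_mod_cast hden
      rw [this]
      linarith
  · rw [Finset.card_image_of_injOn hinj, hG, Finset.card_sigma]
    have h1 := hX0 A hA1 (K : ℝ) (K : ℝ) (by rw [Real.rpow_one]; linarith)
      (by rw [Real.rpow_one]; linarith)
    have e : (1 : ℝ) + 1 - ε = 2 - ε := by ring
    rw [e] at h1
    refine h1.trans ?_
    push_cast
    have h2 : ∀ b ∈ Finset.Icc 1 K, c * K * A ^ (-η) - C * A ^ η ≤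
        (((Finset.range K).filter fun k : ℕ => IsCoprime (2 * (b : ℤ) + 1 * k) (b : ℤ)).card : ℝ) := by
      intro b hb
      rw [Finset.mem_Icc] at hb
      refine hs A b K (2 * b) 1 (by linarith) hb.1 ?_ isCoprime_one_left
      have : (b : ℝ) ≤ K := by exact_mod_cast hb.2
      nlinarith
    have h3 := Finset.card_nsmul_le_sum (Finset.Icc 1 K) _ _ h2
    rw [Nat.card_Icc, Nat.add_sub_cancel, nsmul_eq_mul] at h3
    exact h3

/-- the four points -/
lemma four_points {u : ℚ} (hu : 2 ≤ u) : (3 : ℕ∞) < (Pre (u - u ^ 2)).encard := by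
  set P : Fin 4 → ℚ := ![-u, 1 - u, u - 1, u] with hP
  have hmono : StrictMono P := by
    rw [Fin.strictMono_iff_lt_succ]
    intro i
    fin_cases i <;> simp [hP] <;> linarith
  have h1 : f (u - u ^ 2) u = u := by
    unfold f
    ring
  have h2 : f (u - u ^ 2) (1 - u) = 1 - u := by
    unfold f
    ring
  have h3 : f (u - u ^ 2) (-u) = u := by
    unfold f
    ring
  have h4 : f (u - u ^ 2) (u - 1) = 1 - u := by
    unfold f
    ring
  have hsub : Set.range P ⊆ Pre (u - u ^ 2) := by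
    rintro _ ⟨i, rfl⟩
    fin_cases i
    · exact pre_back (by simp only [hP]; simpa [h3] using pre_fixed h1)
    · exact pre_fixed h2
    · exact pre_back (by simp only [hP]; simpa [h4] using pre_fixed h2)
    · exact pre_fixed h1
  have hcard : (Set.range P).encard = 4 := by
    rw [← Set.image_univ, hmono.injective.encard_image, Set.encard_univ]
    simp
  have := Set.encard_le_encard hsub
  rw [hcard] at this
  exact lt_of_lt_of_le (by norm_num) this

/-- the parameter with eight points -/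
def cu (u : ℚ) : ℚ := -(u ^ 4 + u ^ 2 + 1) / (4 * u ^ 2)

lemma eight_points {u : ℚ} (hu : 2 ≤ u) : (7 : ℕ∞) < (Pre (cu u)).encard := by
  have hu0 : u ≠ 0 := by linarith
  set p := (u ^ 2 + u + 1) / (2 * u) with hp
  set q := (u ^ 2 - u - 1) / (2 * u) with hq
  have hq0 : 0 < q := by
    rw [hq]
    have : 0 < u ^ 2 - u - 1 := by nlinarith
    have : 0 < u := by linarith
    positivity
  have hpq : p - 1 - q = 1 / u := by
    rw [hp, hq]
    field_simp
    ring
  have hqp : 1 + q - (p - 1) = 1 - 1 / u := by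
    rw [hp, hq]
    field_simp
    ring
  have hpq' : p - (1 + q) = 1 / u := by
    rw [hp, hq]
    field_simp
    ring
  have hi0 : 0 < 1 / u := by
    have : 0 < u := by linarith
    positivity
  have hi1 : 1 / u < 1 := by
    rw [div_lt_one (by linarith)]
    linarith
  set P : Fin 8 → ℚ := ![-p, -(1 + q), -(p - 1), -q, q, p - 1, 1 + q, p] with hP
  have hmono : StrictMono P := by
    rw [Fin.strictMono_iff_lt_succ]
    intro i
    fin_cases i <;> simp [hP] <;> linarith
  have h1 : f (cu u) p = p := by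
    unfold f cu
    rw [hp]
    field_simp
    ring
  have h2 : f (cu u) (-(p - 1)) = -(p - 1) := by
    have : f (cu u) (-(p - 1)) = f (cu u) p - 2 * p + 1 := by
      unfold f
      ring
    rw [this, h1]
    ring
  have h3 : f (cu u) q = -(1 + q) := by
    unfold f cu
    rw [hq]
    field_simp
    ring
  have h4 : f (cu u) (-(1 + q)) = q := by
    have : f (cu u) (-(1 + q)) = f (cu u) q + 2 * q + 1 := by
      unfold f
      ring
    rw [this, h3]
    ring
  have neg : ∀ x : ℚ, f (cu u) (-x) = f (cu u) x := by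
    intro x
    unfold f
    ring
  have k1 : p ∈ Pre (cu u) := pre_fixed h1
  have k2 : -(p - 1) ∈ Pre (cu u) := pre_fixed h2
  have k3 : q ∈ Pre (cu u) := pre_two h3 h4
  have k4 : -(1 + q) ∈ Pre (cu u) := pre_two h4 h3
  have k5 : ∀ x, x ∈ Pre (cu u) → -x ∈ Pre (cu u) := by
    intro x hx
    refine pre_back ?_
    rw [neg]
    exact pre_apply hx
  have hsub : Set.range P ⊆ Pre (cu u) := by
    rintro _ ⟨i, rfl⟩
    fin_cases i
    · exact k5 _ k1
    · exact k4
    · exact k2
    · exact k5 _ k3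
    · exact k3
    · have := k5 _ k2
      rw [neg_neg] at this
      exact this
    · have := k5 _ k4
      rw [neg_neg] at this
      exact this
    · exact k1
  have hcard : (Set.range P).encard = 8 := by
    rw [← Set.image_univ, hmono.injective.encard_image, Set.encard_univ]
    simp
  have := Set.encard_le_encard hsub
  rw [hcard] at this
  exact lt_of_lt_of_le (by norm_num) this

/-- **Lower bound**: at most three -/
theorem three_lower (ε : ℝ) (hε : 0 < ε) : ∃ X₀ : ℝ, ∀ (N : ℕ) (X : ℝ), N ≤ 3 → X₀ ≤ X →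
    X ^ (1 - ε) ≤ ((Many N X).ncard : ℝ) := by
  classical
  obtain ⟨A0, hA0⟩ := many_rat (2 * ε) (by positivity)
  refine ⟨max 1 (A0 ^ 2), fun N X hN hX => ?_⟩
  have hX1 : 1 ≤ X := (le_max_left _ _).trans hX
  have hX2 : A0 ^ 2 ≤ X := (le_max_right _ _).trans hX
  have hX0 : 0 < X := by linarith
  obtain ⟨hR1, hR2⟩ := sqrt_facts hX1
  set R := X ^ (1 / 2 : ℝ) with hR
  obtain ⟨S, hS1, hS2⟩ := hA0 R (by
    by_contra hcon
    push Not at hcon
    nlinarith)
  obtain ⟨C, _, hfin⟩ := some_upper 1 one_pos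
  have hsub : ((S.image fun u : ℚ => u - u ^ 2 : Finset ℚ) : Set ℚ) ⊆ Many N X := by
    intro c hc
    rw [Finset.mem_coe, Finset.mem_image] at hc
    obtain ⟨u, hu, rfl⟩ := hc
    obtain ⟨g1, g2, g3⟩ := hS1 u hu
    have hd : (0 : ℚ) < u.den := by exact_mod_cast u.pos
    have hn : 2 * (u.den : ℤ) ≤ u.num := by
      have h1 : (u.num : ℚ) = u * u.den := (Rat.mul_den_eq_num u).symm
      have : (2 * (u.den : ℤ) : ℚ) ≤ u.num := by
        rw [h1]
        push_cast
        nlinarith
      exact_mod_cast this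
    have hdz : (0 : ℤ) < u.den := by exact_mod_cast u.pos
    refine ⟨htLe_of_div (m := u.num * u.den - u.num ^ 2) (n := (u.den : ℤ) ^ 2) (by positivity)
      ?_ ?_ ?_ ?_, ?_⟩
    · nlinarith
    · conv_lhs => rw [← Rat.num_div_den u]
      push_cast
      field_simp
    · have e1 : (2 * (u.den : ℝ)) ≤ u.num := by exact_mod_cast hn
      have e2 : (0 : ℝ) < u.den := by exact_mod_cast u.pos
      push_cast
      rw [abs_le]
      constructor <;> nlinarith
    · have e2 : (0 : ℝ) < u.den := by exact_mod_cast u.pos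
      push_cast
      rw [abs_of_nonneg (by positivity)]
      nlinarith
    · refine lt_of_le_of_lt ?_ (four_points g1)
      exact_mod_cast hN
  have hinj : Set.InjOn (fun u : ℚ => u - u ^ 2) (S : Set ℚ) := by
    intro u hu v hv huv
    have h1 := (hS1 u hu).1
    have h2 := (hS1 v hv).1
    simp only at huv
    have h3 : (u - v) * (u + v - 1) = 0 := by linear_combination -huv
    rcases mul_eq_zero.1 h3 with h4 | h4 <;> linarith
  have h1 := Set.ncard_le_ncard hsub (hfin N X hX1).1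
  rw [Set.ncard_coe_finset, Finset.card_image_of_injOn hinj] at h1
  have h2 : (S.card : ℝ) ≤ (Many N X).ncard := by exact_mod_cast h1
  refine le_trans (le_of_eq ?_) (hS2.trans h2)
  rw [hR, ← Real.rpow_mul hX0.le]
  congr 1
  ring

/-- **Lower bound**: at most seven -/
theorem seven_lower (ε : ℝ) (hε : 0 < ε) : ∃ X₀ : ℝ, ∀ (N : ℕ) (X : ℝ), N ≤ 7 → X₀ ≤ X →
    X ^ (1 / 2 - ε) ≤ ((Many N X).ncard : ℝ) := by
  classical
  obtain ⟨A0, hA0⟩ := many_rat ε hε
  obtain ⟨X1, hX1⟩ := Filter.eventually_atTop.1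
    (((tendsto_rpow_atTop (by norm_num : (0 : ℝ) < 1 / 4)).eventually_ge_atTop (2 * A0)).and
      (((tendsto_rpow_atTop (by positivity : 0 < ε * (3 / 4))).eventually_ge_atTop 4).and
      (Filter.eventually_ge_atTop (1 : ℝ))))
  refine ⟨X1, fun N X hN hX => ?_⟩
  obtain ⟨b1, b2, b3⟩ := hX1 X hX
  have hX0 : 0 < X := by linarith
  set A := X ^ (1 / 4 : ℝ) / 2 with hA
  have hA4 : 16 * A ^ 4 = X := by
    have : (X ^ (1 / 4 : ℝ)) ^ 4 = X := by
      rw [← Real.rpow_natCast, ← Real.rpow_mul hX0.le]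
      norm_num
    rw [hA, div_pow, this]
    ring
  have hApos : 0 < A := by rw [hA]; positivity
  obtain ⟨S, hS1, hS2⟩ := hA0 A (by rw [hA]; linarith)
  obtain ⟨C, _, hfin⟩ := some_upper 1 one_pos
  have hsub : ((S.image cu : Finset ℚ) : Set ℚ) ⊆ Many N X := by
    intro c hc
    rw [Finset.mem_coe, Finset.mem_image] at hc
    obtain ⟨u, hu, rfl⟩ := hc
    obtain ⟨g1, g2, g3⟩ := hS1 u hu
    have hd : (0 : ℚ) < u.den := by exact_mod_cast u.pos
    have hdz : (0 : ℤ) < u.den := by exact_mod_cast u.pos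
    have hn : 2 * (u.den : ℤ) ≤ u.num := by
      have h1 : (u.num : ℚ) = u * u.den := (Rat.mul_den_eq_num u).symm
      have : (2 * (u.den : ℤ) : ℚ) ≤ u.num := by
        rw [h1]
        push_cast
        nlinarith
      exact_mod_cast this
    have hnz : (0 : ℤ) < u.num := by linarith
    have r1 : (0 : ℝ) < u.den := by exact_mod_cast u.pos
    have r2 : (0 : ℝ) < u.num := by exact_mod_cast hnz
    have s1 : (u.num : ℝ) ^ 2 ≤ A ^ 2 := by nlinarith
    have s2 : (u.den : ℝ) ^ 2 ≤ A ^ 2 := by nlinarith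
    have t1 : (u.num : ℝ) ^ 4 ≤ A ^ 4 := by nlinarith
    have t2 : (u.den : ℝ) ^ 4 ≤ A ^ 4 := by nlinarith
    have t3 : (u.num : ℝ) ^ 2 * (u.den : ℝ) ^ 2 ≤ A ^ 4 := by nlinarith
    have a4 : 0 < A ^ 4 := by positivity
    refine ⟨htLe_of_div (m := -(u.num ^ 4 + u.num ^ 2 * u.den ^ 2 + u.den ^ 4))
      (n := 4 * (u.num ^ 2 * (u.den : ℤ) ^ 2)) (by positivity) ?_ ?_ ?_ ?_, ?_⟩
    · have : 0 < u.num ^ 4 + u.num ^ 2 * (u.den : ℤ) ^ 2 + (u.den : ℤ) ^ 4 := by positivity
      omega
    · have hnq : (u.num : ℚ) ≠ 0 := by exact_mod_cast hnz.ne'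
      have e : cu u = cu ((u.num : ℚ) / u.den) := by rw [Rat.num_div_den]
      rw [e]
      unfold cu
      push_cast
      field_simp
    · push_cast
      rw [abs_neg, abs_of_nonneg (by positivity)]
      linarith
    · push_cast
      rw [abs_of_nonneg (by positivity)]
      linarith
    · refine lt_of_le_of_lt ?_ (eight_points g1)
      exact_mod_cast hN
  have hinj : Set.InjOn cu (S : Set ℚ) := by
    intro u hu v hv huv
    have h1 := (hS1 u hu).1
    have h2 := (hS1 v hv).1
    have hu0 : u ≠ 0 := by linarith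
    have hv0 : v ≠ 0 := by linarith
    unfold cu at huv
    rw [div_eq_div_iff (by positivity) (by positivity)] at huv
    have h3 : (u - v) * ((u + v) * (u ^ 2 * v ^ 2 - 1)) = 0 := by linear_combination -huv / 4
    rcases mul_eq_zero.1 h3 with h4 | h4
    · linarith
    · exfalso
      have h5 : 4 ≤ u ^ 2 := by nlinarith
      have h6 : 4 ≤ v ^ 2 := by nlinarith
      have h7 : 16 ≤ u ^ 2 * v ^ 2 := by nlinarith
      have h8 : 0 < (u + v) * (u ^ 2 * v ^ 2 - 1) := mul_pos (by linarith) (by linarith)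
      linarith
  have h1 := Set.ncard_le_ncard hsub (hfin N X b3).1
  rw [Set.ncard_coe_finset, Finset.card_image_of_injOn hinj] at h1
  have h2 : (S.card : ℝ) ≤ (Many N X).ncard := by exact_mod_cast h1
  refine le_trans ?_ (hS2.trans h2)
  rw [hA, Real.div_rpow (by positivity) (by norm_num), ← Real.rpow_mul hX0.le,
    le_div_iff₀ (by positivity)]
  have e1 : (2 : ℝ) ^ (2 - ε) ≤ 4 := by
    refine (Real.rpow_le_rpow_of_exponent_le (by norm_num) (by linarith : 2 - ε ≤ 2)).trans ?_
    norm_num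
  have e2 : X ^ (1 / 4 * (2 - ε)) = X ^ (1 / 2 - ε) * X ^ (ε * (3 / 4)) := by
    rw [← Real.rpow_add hX0]
    congr 1
    ring
  rw [e2]
  exact mul_le_mul_of_nonneg_left (e1.trans b2) (Real.rpow_nonneg hX0.le _)

end Pool.Agent.X12.Dyn
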