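import Pool.Agent.X12.Cub3
import Pool.Agent.X12.Dyn3

/-!
# Counting the odd cubic polynomials with many rational preperiodic points
-/

set_option autoImplicit false

namespace Pool.Agent.X12.Cub

open Function Finset Filter Topology
open Pool.Agent.X12.Dyn (HtLe many_rat htLe_of_div)

/-- more than `N` rational preperiodic points -/
def MoreC (N : ℕ) (X : ℝ) : Set (ℤ × ℚ) :=
  {q | Squarefree q.1 ∧ HtLe X q.2 ∧ (N : ℕ∞) < (Pre (g q.1 q.2)).encard}

/-- a nonzero rational preperiodic point but not exactly three -/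
def NotThree (X : ℝ) : Set (ℤ × ℚ) :=
  {q | Squarefree q.1 ∧ HtLe X q.2 ∧ (1 : ℕ∞) < (Pre (g q.1 q.2)).encard ∧
    (Pre (g q.1 q.2)).encard ≠ 3}

/-- a rational point of period at least three -/
def LongC (X : ℝ) : Set (ℤ × ℚ) :=
  {q | Squarefree q.1 ∧ HtLe X q.2 ∧ ∃ z : ℚ, 3 ≤ minimalPeriod (g q.1 q.2) z}

/-- the exceptional pairs -/
def ExcC (X : ℝ) : Set (ℤ × ℚ) :=
  {q | Squarefree q.1 ∧ HtLe X q.2 ∧ ((3 : ℕ∞) < (Pre (g q.1 q.2)).encard ∨
    ∃ z ∈ periodicPts (g q.1 q.2), g q.1 q.2 z ≠ z ∧ g q.1 q.2 z ≠ -z)}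

lemma g_neg (a : ℤ) (c z : ℚ) : g a c (-z) = -g a c z := by
  unfold g
  ring

lemma g_zero (a : ℤ) (c : ℚ) : g a c 0 = 0 := by
  unfold g
  ring

lemma zero_pre (a : ℤ) (c : ℚ) : (0 : ℚ) ∈ Pre (g a c) := pre_fixed (g_zero a c)

lemma pre_neg {a : ℤ} {c z : ℚ} (hz : z ∈ Pre (g a c)) : -z ∈ Pre (g a c) := by
  have h1 : ∀ k : ℕ, (g a c)^[k] (-z) = -(g a c)^[k] z := by
    intro k
    induction k with
    | zero => rfl
    | succ k ih => rw [Function.iterate_succ_apply', Function.iterate_succ_apply', ih, g_neg]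
  have h2 := Set.Finite.image (fun x : ℚ => -x) hz
  refine h2.subset ?_
  rintro _ ⟨k, rfl⟩
  exact ⟨(g a c)^[k] z, ⟨k, rfl⟩, (h1 k).symm⟩

theorem count_pairs {X B : ℝ} (hX : 1 ≤ X) (F : ℕ → Finset (ℤ × ℤ))
    (S : Set (ℤ × ℚ)) (hS : ∀ q ∈ S, Squarefree q.1 ∧ HtLe X q.2 ∧
      ∃ K, (q.2.num, K) ∈ F q.2.den ∧ Cls q.1 K)
    (hF : ∀ n : ℕ, 1 ≤ n → (n : ℝ) ≤ X → ((F n).card : ℝ) ≤ B) :
    S.Finite ∧ (S.ncard : ℝ) ≤ X * B := by
  classical
  have hB : 0 ≤ B := (Nat.cast_nonneg _).trans (hF 1 le_rfl (by simpa using hX))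
  set D : Finset (Σ _ : ℕ, ℤ × ℤ) := (Finset.Icc 1 ⌊X⌋₊).sigma F with hD
  set K : ℤ × ℚ → ℤ := fun q => if h : q ∈ S then Classical.choose (hS q h).2.2 else 0 with hK
  have hK1 : ∀ q ∈ S, (q.2.num, K q) ∈ F q.2.den ∧ Cls q.1 (K q) := by
    intro q hq
    have h1 := Classical.choose_spec (hS q hq).2.2
    simp only [hK, dif_pos hq]
    exact h1
  set ψ : ℤ × ℚ → Σ _ : ℕ, ℤ × ℤ := fun q => ⟨q.2.den, (q.2.num, K q)⟩ with hψ
  have hmaps : Set.MapsTo ψ S (D : Set (Σ _ : ℕ, ℤ × ℤ)) := by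
    intro q hq
    obtain ⟨h1, h2, -⟩ := hS q hq
    rw [Finset.mem_coe, hD, Finset.mem_sigma, Finset.mem_Icc]
    exact ⟨⟨q.2.den_pos, Nat.le_floor h2.2⟩, (hK1 q hq).1⟩
  have hinj : Set.InjOn ψ S := by
    intro q hq r hr hqr
    simp only [hψ, Sigma.mk.injEq, heq_eq_eq, Prod.mk.injEq] at hqr
    obtain ⟨h1, h2, h3⟩ := hqr
    have h4 : q.2 = r.2 := Rat.ext h2 h1
    have h5 : q.1 = r.1 := by
      refine cls_inj (K := K q) (hS q hq).1 (hS r hr).1 (hK1 q hq).2 ?_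
      rw [h3]
      exact (hK1 r hr).2
    exact Prod.ext h5 h4
  have hfin := Set.Finite.of_injOn hmaps hinj D.finite_toSet
  refine ⟨hfin, ?_⟩
  have h1 := Set.ncard_le_ncard_of_injOn ψ hmaps hinj D.finite_toSet
  rw [Set.ncard_coe_finset, hD, Finset.card_sigma] at h1
  have h2 : (S.ncard : ℝ) ≤ ∑ n ∈ Finset.Icc 1 ⌊X⌋₊, ((F n).card : ℝ) := by exact_mod_cast h1
  refine h2.trans ?_
  have h3 : ∑ n ∈ Finset.Icc 1 ⌊X⌋₊, ((F n).card : ℝ) ≤ ∑ _n ∈ Finset.Icc 1 ⌊X⌋₊, B := by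
    refine Finset.sum_le_sum fun n hn => ?_
    rw [Finset.mem_Icc] at hn
    exact hF n hn.1 ((Nat.le_floor_iff (by linarith)).1 hn.2)
  refine h3.trans ?_
  rw [Finset.sum_const, Nat.card_Icc, Nat.add_sub_cancel, nsmul_eq_mul]
  exact mul_le_mul_of_nonneg_right (Nat.floor_le (by linarith)) hB

/-- **Upper bound**: the exceptional pairs -/
theorem exc_upper (ε : ℝ) (hε : 0 < ε) : ∃ C : ℝ, 0 < C ∧ ∀ X : ℝ, 1 ≤ X →
    (ExcC X).Finite ∧ ((ExcC X).ncard : ℝ) ≤ C * X ^ (1 + ε) := by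
  obtain ⟨C, hC, h⟩ := FC_card ε hε
  refine ⟨C, hC, fun X hX => ?_⟩
  have hX0 : 0 < X := by linarith
  have h1 := count_pairs hX (FC X) (ExcC X) (fun q hq => by
    obtain ⟨g1, g2, g3⟩ := hq
    exact ⟨g1, g2, exc_mem g1.ne_zero hX g2 g3⟩) (fun n h1 h2 => h X n hX h1 h2)
  refine ⟨h1.1, h1.2.trans (le_of_eq ?_)⟩
  rw [Real.rpow_add hX0, Real.rpow_one]
  ring

lemma more_sub {N : ℕ} (hN : 3 ≤ N) (X : ℝ) : MoreC N X ⊆ ExcC X := by
  rintro q ⟨h1, h2, h3⟩
  refine ⟨h1, h2, Or.inl (lt_of_le_of_lt ?_ h3)⟩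
  exact_mod_cast hN

lemma long_sub (X : ℝ) : LongC X ⊆ ExcC X := by
  rintro q ⟨h1, h2, z, hz⟩
  refine ⟨h1, h2, Or.inr ⟨z, ?_, ?_, ?_⟩⟩
  · exact minimalPeriod_pos_iff_mem_periodicPts.1 (by omega)
  · intro h
    have h3 : IsPeriodicPt (g q.1 q.2) 1 z := h
    have := h3.minimalPeriod_le one_pos
    omega
  · intro h
    have h3 : IsPeriodicPt (g q.1 q.2) 2 z := by
      show g q.1 q.2 (g q.1 q.2 z) = z
      rw [h, g_neg, h, neg_neg]
    have := h3.minimalPeriod_le two_pos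
    omega

lemma exists_ne {a : ℤ} {c : ℚ} (h : (1 : ℕ∞) < (Pre (g a c)).encard) :
    ∃ z ∈ Pre (g a c), z ≠ 0 := by
  by_contra hcon
  push Not at hcon
  have h1 : Pre (g a c) ⊆ {0} := fun z hz => hcon z hz
  have h2 := Set.encard_le_encard h1
  rw [Set.encard_singleton] at h2
  exact absurd (h.trans_le h2) (lt_irrefl _)

lemma three_le {a : ℤ} {c z : ℚ} (hz : z ∈ Pre (g a c)) (hz0 : z ≠ 0) :
    (3 : ℕ∞) ≤ (Pre (g a c)).encard := by
  classical
  set S : Finset ℚ := {0, z, -z} with hS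
  have hsub : (S : Set ℚ) ⊆ Pre (g a c) := by
    intro y hy
    rw [hS] at hy
    simp only [Finset.coe_insert, Finset.coe_singleton, Set.mem_insert_iff,
      Set.mem_singleton_iff] at hy
    rcases hy with rfl | rfl | rfl
    · exact zero_pre a c
    · exact hz
    · exact pre_neg hz
  have hcard : S.card = 3 := by
    rw [hS, Finset.card_insert_of_notMem (by simp [hz0, hz0.symm]),
      Finset.card_insert_of_notMem (by
        rw [Finset.mem_singleton]
        intro h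
        exact hz0 (by linarith)), Finset.card_singleton]
  have := Set.encard_le_encard hsub
  rw [Set.encard_coe_eq_coe_finsetCard, hcard] at this
  exact this

lemma notThree_sub (X : ℝ) : NotThree X ⊆ ExcC X := by
  rintro q ⟨h1, h2, h3, h4⟩
  obtain ⟨z, hz, hz0⟩ := exists_ne h3
  exact ⟨h1, h2, Or.inl (lt_of_le_of_ne (three_le hz hz0) h4.symm)⟩

/-- the class of the generic polynomials -/
lemma generic_cls {a : ℤ} {c : ℚ} (ha : a ≠ 0) (h : (1 : ℕ∞) < (Pre (g a c)).encard)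
    (hl : ∀ z ∈ periodicPts (g a c), g a c z = z ∨ g a c z = -z) :
    Cls a (-(c.num * c.den)) ∨ Cls a ((c.den - c.num) * c.den) ∨
      Cls a (-((c.den + c.num) * c.den)) := by
  have hcn : (c.num : ℚ) = c * c.den := (Rat.mul_den_eq_num c).symm
  obtain ⟨z, hz, hz0⟩ := exists_ne h
  have key : ∃ y : ℚ, y ≠ 0 ∧ (a * y ^ 2 = -c ∨ a * y ^ 2 = 1 - c ∨ a * y ^ 2 = -1 - c) := by
    by_cases hp : ∃ y ∈ periodicPts (g a c), y ≠ 0
    · obtain ⟨y, hy, hy0⟩ := hp
      refine ⟨y, hy0, ?_⟩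
      rcases hl y hy with h1 | h1
      · right; left
        have h2 : y * (a * y ^ 2 - (1 - c)) = 0 := by
          unfold g at h1
          linear_combination h1
        linarith [(mul_eq_zero.1 h2).resolve_left hy0]
      · right; right
        have h2 : y * (a * y ^ 2 - (-1 - c)) = 0 := by
          unfold g at h1
          linear_combination h1
        linarith [(mul_eq_zero.1 h2).resolve_left hy0]
    · push Not at hp
      obtain ⟨w, hw, hw0, hgw⟩ := exit_point hz (S := {0}) (fun y hy => hp y hy) hz0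
      have hgw' : g a c w = 0 := hgw
      have hw0' : w ≠ 0 := hw0
      refine ⟨w, hw0', Or.inl ?_⟩
      have h2 : w * (a * w ^ 2 + c) = 0 := by
        unfold g at hgw'
        linear_combination hgw'
      linarith [(mul_eq_zero.1 h2).resolve_left hw0']
  obtain ⟨y, hy0, h1 | h1 | h1⟩ := key
  · left
    refine cls_of ha c.den_ne_zero hy0 ?_
    push_cast
    rw [h1, hcn]
    ring
  · right; left
    refine cls_of ha c.den_ne_zero hy0 ?_
    push_cast
    rw [h1, hcn]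
    ring
  · right; right
    refine cls_of ha c.den_ne_zero hy0 ?_
    push_cast
    rw [h1, hcn]
    ring

/-- the three generic classes -/
def gen (m n : ℤ) : Finset ℤ := {-(m * n), (n - m) * n, -((n + m) * n)}

lemma gen_card (m n : ℤ) : (gen m n).card ≤ 3 := Finset.card_le_three

lemma some_mem {a : ℤ} {c : ℚ} {X : ℝ} (ha : a ≠ 0) (hX : 1 ≤ X) (hc : HtLe X c)
    (h : (1 : ℕ∞) < (Pre (g a c)).encard) :
    (∃ K, (c.num, K) ∈ FC X c.den ∧ Cls a K) ∨ ∃ K ∈ gen c.num c.den, Cls a K := by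
  by_cases he : (3 : ℕ∞) < (Pre (g a c)).encard ∨
    ∃ z ∈ periodicPts (g a c), g a c z ≠ z ∧ g a c z ≠ -z
  · exact Or.inl (exc_mem ha hX hc he)
  · right
    push Not at he
    have hl : ∀ z ∈ periodicPts (g a c), g a c z = z ∨ g a c z = -z := by
      intro z hz
      by_cases h1 : g a c z = z
      · exact Or.inl h1
      · exact Or.inr (he.2 z hz h1)
    unfold gen
    rcases generic_cls ha h hl with h1 | h1 | h1
    · exact ⟨_, by simp, h1⟩
    · exact ⟨_, by simp, h1⟩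
    · exact ⟨_, by simp, h1⟩

/-- **Upper bound**: the pairs with a nonzero preperiodic point -/
theorem some_upper (ε : ℝ) (hε : 0 < ε) : ∃ C : ℝ, 0 < C ∧ ∀ (N : ℕ) (X : ℝ), 1 ≤ N → 1 ≤ X →
    (MoreC N X).Finite ∧ ((MoreC N X).ncard : ℝ) ≤ C * X ^ (2 + ε) := by
  classical
  obtain ⟨C, hC, h⟩ := FC_card ε hε
  refine ⟨C + 9, by positivity, fun N X hN hX => ?_⟩
  have hX0 : 0 < X := by linarith
  set F : ℕ → Finset (ℤ × ℤ) := fun n => FC X n ∪
    (Finset.Icc (-⌊X⌋) ⌊X⌋).biUnion fun m : ℤ => (gen m n).image fun K => (m, K) with hF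
  have h1 := count_pairs (B := (C + 9) * X ^ (1 + ε)) hX F (MoreC N X) (fun q hq => by
    obtain ⟨g1, g2, g3⟩ := hq
    refine ⟨g1, g2, ?_⟩
    have g4 : (1 : ℕ∞) < (Pre (g q.1 q.2)).encard := lt_of_le_of_lt (by exact_mod_cast hN) g3
    rcases some_mem g1.ne_zero hX g2 g4 with ⟨K, k1, k2⟩ | ⟨K, k1, k2⟩
    · exact ⟨K, Finset.mem_union_left _ k1, k2⟩
    · refine ⟨K, Finset.mem_union_right _ ?_, k2⟩
      rw [Finset.mem_biUnion]
      exact ⟨q.2.num, Szp.mem_of_abs_le g2.1, Finset.mem_image.2 ⟨K, k1, rfl⟩⟩) (fun n h1 h2 => by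
    have k1 := h X n hX h1 h2
    have k2 : (F n).card ≤ (FC X n).card + (Finset.Icc (-⌊X⌋) ⌊X⌋).card * 3 := by
      refine (Finset.card_union_le _ _).trans (Nat.add_le_add le_rfl ?_)
      exact Finset.card_biUnion_le_card_mul _ _ _ fun m _ =>
        Finset.card_image_le.trans (gen_card m n)
    have k3 := Szp.card_Icc_le (Y := X) hX
    have k4 : ((F n).card : ℝ) ≤ ((FC X n).card : ℝ) +
        ((Finset.Icc (-⌊X⌋) ⌊X⌋).card : ℝ) * 3 := by exact_mod_cast k2
    have k5 : X ^ ε ≤ X ^ (1 + ε) := Real.rpow_le_rpow_of_exponent_le hX (by linarith)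
    have k6 : X ≤ X ^ (1 + ε) := by
      conv_lhs => rw [← Real.rpow_one X]
      exact Real.rpow_le_rpow_of_exponent_le hX (by linarith)
    nlinarith)
  refine ⟨h1.1, h1.2.trans (le_of_eq ?_)⟩
  have e : X ^ (2 + ε) = X * X ^ (1 + ε) := by
    nth_rw 2 [← Real.rpow_one X]
    rw [← Real.rpow_add hX0]
    congr 1
    ring
  rw [e]
  ring

/-- **The twists of one polynomial** -/
theorem twists_upper (ε : ℝ) (hε : 0 < ε) : ∃ C : ℝ, 0 < C ∧ ∀ (X : ℝ) (c : ℚ), 1 ≤ X →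
    HtLe X c → {a : ℤ | Squarefree a ∧ (1 : ℕ∞) < (Pre (g a c)).encard}.Finite ∧
    ({a : ℤ | Squarefree a ∧ (1 : ℕ∞) < (Pre (g a c)).encard}.ncard : ℝ) ≤ C * X ^ ε := by
  classical
  obtain ⟨C, hC, h⟩ := FC_card ε hε
  refine ⟨C + 3, by positivity, fun X c hX hc => ?_⟩
  set S := {a : ℤ | Squarefree a ∧ (1 : ℕ∞) < (Pre (g a c)).encard} with hS
  set D : Finset ℤ := (FC X c.den).image Prod.snd ∪ gen c.num c.den with hD
  have hex : ∀ a ∈ S, ∃ K ∈ D, Cls a K := by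
    rintro a ⟨h1, h2⟩
    rcases some_mem h1.ne_zero hX hc h2 with ⟨K, k1, k2⟩ | ⟨K, k1, k2⟩
    · exact ⟨K, Finset.mem_union_left _ (Finset.mem_image.2 ⟨_, k1, rfl⟩), k2⟩
    · exact ⟨K, Finset.mem_union_right _ k1, k2⟩
  set K : ℤ → ℤ := fun a => if h : a ∈ S then Classical.choose (hex a h) else 0 with hK
  have hK1 : ∀ a ∈ S, K a ∈ D ∧ Cls a (K a) := by
    intro a ha
    have h1 := Classical.choose_spec (hex a ha)
    simp only [hK, dif_pos ha]
    exact h1
  have hmaps : Set.MapsTo K S (D : Set ℤ) := fun a ha => (hK1 a ha).1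
  have hinj : Set.InjOn K S := by
    intro a ha b hb hab
    refine cls_inj (K := K a) ha.1 hb.1 (hK1 a ha).2 ?_
    rw [hab]
    exact (hK1 b hb).2
  refine ⟨Set.Finite.of_injOn hmaps hinj D.finite_toSet, ?_⟩
  have h1 := Set.ncard_le_ncard_of_injOn K hmaps hinj D.finite_toSet
  rw [Set.ncard_coe_finset] at h1
  have h2 : D.card ≤ (FC X c.den).card + 3 :=
    (Finset.card_union_le _ _).trans (Nat.add_le_add Finset.card_image_le (gen_card _ _))
  have h3 : (S.ncard : ℝ) ≤ ((FC X c.den).card : ℝ) + 3 := by exact_mod_cast h1.trans h2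
  have h4 := h X c.den hX c.den_pos hc.2
  have h5 : 1 ≤ X ^ ε := Real.one_le_rpow hX hε.le
  nlinarith

/-! ### Lower bounds -/

lemma sqf_class {u : ℚ} (hu : 0 < u) : ∃ a : ℤ, Squarefree a ∧ 0 < a ∧ ∃ s : ℚ, 0 < s ∧
    a * s ^ 2 = u := by
  obtain ⟨a, b, h, hsq⟩ := Nat.sq_mul_squarefree (u.num.natAbs * u.den)
  have hnum : 0 < u.num := Rat.num_pos.2 hu
  have hne : u.num.natAbs * u.den ≠ 0 :=
    Nat.mul_ne_zero (by omega) u.den_ne_zero
  have ha0 : a ≠ 0 := hsq.ne_zero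
  have hb0 : b ≠ 0 := by
    rintro rfl
    rw [← h] at hne
    simp at hne
  have hbq : (0 : ℚ) < b := by exact_mod_cast Nat.pos_of_ne_zero hb0
  have hdq : (0 : ℚ) < u.den := by exact_mod_cast u.den_pos
  refine ⟨a, Int.squarefree_natCast.2 hsq, by exact_mod_cast Nat.pos_of_ne_zero ha0,
    b / u.den, by positivity, ?_⟩
  have h1 : ((b ^ 2 * a : ℕ) : ℚ) = ((u.num.natAbs * u.den : ℕ) : ℚ) := by rw [h]
  have h2 : ((u.num.natAbs : ℕ) : ℚ) = (u.num : ℚ) := by
    rw [Nat.cast_natAbs, abs_of_pos hnum]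
  push_cast at h1
  rw [h2] at h1
  have h3 : (u.num : ℚ) = u * u.den := (Rat.mul_den_eq_num u).symm
  rw [h3] at h1
  push_cast
  rw [div_pow, mul_div_assoc', div_eq_iff (by positivity)]
  linarith

/-- **Lower bound**: at most two -/
theorem two_lower (ε : ℝ) (hε : 0 < ε) : ∃ X₀ : ℝ, ∀ (N : ℕ) (X : ℝ), 1 ≤ N → N ≤ 2 → X₀ ≤ X →
    X ^ (2 - ε) ≤ ((MoreC N X).ncard : ℝ) := by
  classical
  obtain ⟨A0, hA0⟩ := many_rat ε hε
  obtain ⟨C, -, hfin⟩ := some_upper 1 one_pos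
  refine ⟨max A0 1, fun N X hN1 hN hX => ?_⟩
  have hX1 : 1 ≤ X := (le_max_right _ _).trans hX
  obtain ⟨S, hS1, hS2⟩ := hA0 X ((le_max_left _ _).trans hX)
  have hex : ∀ u : ℚ, ∃ a : ℤ, 0 < u → Squarefree a ∧ ∃ s : ℚ, 0 < s ∧ a * s ^ 2 = u := by
    intro u
    by_cases hu : 0 < u
    · obtain ⟨a, h1, -, h2⟩ := sqf_class hu
      exact ⟨a, fun _ => ⟨h1, h2⟩⟩
    · exact ⟨0, fun h => absurd h hu⟩
  choose A hA using hex
  have hsub : ((S.image fun u : ℚ => (A u, -u) : Finset (ℤ × ℚ)) : Set (ℤ × ℚ)) ⊆ MoreC N X := by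
    intro q hq
    rw [Finset.mem_coe, Finset.mem_image] at hq
    obtain ⟨u, hu, rfl⟩ := hq
    obtain ⟨g1, g2, g3⟩ := hS1 u hu
    have hu0 : 0 < u := by linarith
    obtain ⟨k1, s, k2, k3⟩ := hA u hu0
    have hun : 0 < u.num := Rat.num_pos.2 hu0
    refine ⟨k1, ⟨?_, ?_⟩, ?_⟩
    · show |((-u).num : ℝ)| ≤ X
      rw [Rat.neg_num]
      push_cast
      rw [abs_neg, abs_of_pos (by exact_mod_cast hun)]
      exact g2
    · show ((-u).den : ℝ) ≤ X
      rw [Rat.neg_den]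
      exact g3
    · have h1 : g (A u) (-u) s = 0 := by
        unfold g
        linear_combination s * k3
      have h2 : s ∈ Pre (g (A u) (-u)) := by
        refine pre_back ?_
        rw [h1]
        exact zero_pre _ _
      refine lt_of_lt_of_le ?_ (three_le h2 k2.ne')
      have : N < 3 := by omega
      exact_mod_cast this
  have hinj : Set.InjOn (fun u : ℚ => (A u, -u)) (S : Set ℚ) := by
    intro u _ v _ huv
    have := congrArg Prod.snd huv
    simp only [neg_inj] at this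
    exact this
  have h1 := Set.ncard_le_ncard hsub (hfin N X hN1 hX1).1
  rw [Set.ncard_coe_finset, Finset.card_image_of_injOn hinj] at h1
  exact hS2.trans (by exact_mod_cast h1)

lemma seven_points {a : ℤ} {c u w : ℚ} (hu : 2 ≤ u) (hw : 0 < w)
    (haw : a * w ^ 2 * (1 + u) = -1) (hc : c * (1 + u) = 1 + u + u ^ 2) :
    (6 : ℕ∞) < (Pre (g a c)).encard := by
  have hu1 : (1 + u) ≠ 0 := by linarith
  have k1 : g a c (u * w) = u * w := by
    refine mul_left_cancel₀ hu1 ?_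
    unfold g
    linear_combination u ^ 3 * w * haw + u * w * hc
  have k2 : g a c w = u * w := by
    refine mul_left_cancel₀ hu1 ?_
    unfold g
    linear_combination w * haw + w * hc
  have k3 : g a c ((1 + u) * w) = -(u * w) := by
    unfold g
    linear_combination w * (1 + u) ^ 2 * haw + w * hc
  set P : Fin 7 → ℚ := ![-((1 + u) * w), -(u * w), -w, 0, w, u * w, (1 + u) * w] with hP
  have hmono : StrictMono P := by
    rw [Fin.strictMono_iff_lt_succ]
    intro i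
    fin_cases i <;> simp [hP] <;> nlinarith
  have m1 : u * w ∈ Pre (g a c) := pre_fixed k1
  have m2 : w ∈ Pre (g a c) := pre_back (by rw [k2]; exact m1)
  have m3 : (1 + u) * w ∈ Pre (g a c) := pre_back (by rw [k3]; exact pre_neg m1)
  have hsub : Set.range P ⊆ Pre (g a c) := by
    rintro _ ⟨i, rfl⟩
    fin_cases i
    · exact pre_neg m3
    · exact pre_neg m1
    · exact pre_neg m2
    · exact zero_pre a c
    · exact m2
    · exact m1
    · exact m3
  have hcard : (Set.range P).encard = 7 := by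
    rw [← Set.image_univ, hmono.injective.encard_image, Set.encard_univ]
    simp
  have := Set.encard_le_encard hsub
  rw [hcard] at this
  exact lt_of_lt_of_le (by norm_num) this

/-- **Lower bound**: at most six -/
theorem six_lower (ε : ℝ) (hε : 0 < ε) : ∃ X₀ : ℝ, ∀ (N : ℕ) (X : ℝ), 1 ≤ N → N ≤ 6 → X₀ ≤ X →
    X ^ (1 - ε) ≤ ((MoreC N X).ncard : ℝ) := by
  classical
  obtain ⟨A0, hA0⟩ := many_rat ε hε
  obtain ⟨C, -, hfin⟩ := some_upper 1 one_pos
  obtain ⟨X1, hX1⟩ := Filter.eventually_atTop.1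
    (((tendsto_rpow_atTop (by norm_num : (0 : ℝ) < 1 / 2)).eventually_ge_atTop (2 * A0)).and
      (((tendsto_rpow_atTop (by positivity : 0 < ε / 2)).eventually_ge_atTop 4).and
      (Filter.eventually_ge_atTop (1 : ℝ))))
  refine ⟨X1, fun N X hN1 hN hX => ?_⟩
  obtain ⟨b1, b2, b3⟩ := hX1 X hX
  have hX0 : 0 < X := by linarith
  set A := X ^ (1 / 2 : ℝ) / 2 with hA
  have hA4 : 4 * A ^ 2 = X := by
    have : (X ^ (1 / 2 : ℝ)) ^ 2 = X := by
      rw [← Real.rpow_natCast, ← Real.rpow_mul hX0.le]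
      norm_num
    rw [hA, div_pow, this]
    ring
  have hApos : 0 < A := by rw [hA]; positivity
  obtain ⟨S, hS1, hS2⟩ := hA0 A (by rw [hA]; linarith)
  have hex : ∀ u : ℚ, ∃ a : ℤ, 0 < u → Squarefree a ∧ ∃ w : ℚ, 0 < w ∧
      a * w ^ 2 * (1 + u) = -1 := by
    intro u
    by_cases hu : 0 < u
    · obtain ⟨a, h1, h2, s, h3, h4⟩ := sqf_class (u := 1 + u) (by linarith)
      have haq : (0 : ℚ) < a := by exact_mod_cast h2
      have h5 : Squarefree (-a) := by
        rw [← Int.squarefree_natAbs, Int.natAbs_neg, Int.squarefree_natAbs]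
        exact h1
      refine ⟨-a, fun _ => ⟨h5, 1 / (a * s), by positivity, ?_⟩⟩
      rw [← h4]
      push_cast
      field_simp
    · exact ⟨0, fun h => absurd h hu⟩
  choose B hB using hex
  set φ : ℚ → ℤ × ℚ := fun u => (B u, (1 + u + u ^ 2) / (1 + u)) with hφ
  have hsub : ((S.image φ : Finset (ℤ × ℚ)) : Set (ℤ × ℚ)) ⊆ MoreC N X := by
    intro q hq
    rw [Finset.mem_coe, Finset.mem_image] at hq
    obtain ⟨u, hu, rfl⟩ := hq
    obtain ⟨g1, g2, g3⟩ := hS1 u hu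
    have hu0 : 0 < u := by linarith
    obtain ⟨k1, w, k2, k3⟩ := hB u hu0
    have hun : 0 < u.num := Rat.num_pos.2 hu0
    have hdz : (0 : ℤ) < u.den := by exact_mod_cast u.den_pos
    have r1 : (0 : ℝ) < u.den := by exact_mod_cast u.den_pos
    have r2 : (0 : ℝ) < u.num := by exact_mod_cast hun
    have s1 : (u.num : ℝ) ^ 2 ≤ A ^ 2 := by nlinarith
    have s2 : (u.den : ℝ) ^ 2 ≤ A ^ 2 := by nlinarith
    have s3 : (u.num : ℝ) * (u.den : ℝ) ≤ A ^ 2 := by nlinarith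
    refine ⟨k1, ?_, ?_⟩
    · refine htLe_of_div (m := u.den ^ 2 + u.num * u.den + u.num ^ 2)
        (n := (u.den : ℤ) * (u.den + u.num)) (by positivity) (by positivity) ?_ ?_ ?_
      · have hdq : (u.den : ℚ) ≠ 0 := by exact_mod_cast u.den_ne_zero
        have h3 : (u.num : ℚ) = u * u.den := (Rat.mul_den_eq_num u).symm
        have hu1 : (1 + u) ≠ 0 := by linarith
        simp only [hφ]
        push_cast
        rw [h3]
        field_simp
      · push_cast
        rw [abs_of_nonneg (by positivity)]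
        nlinarith
      · push_cast
        rw [abs_of_nonneg (by positivity)]
        nlinarith
    · refine lt_of_le_of_lt ?_ (seven_points (a := B u) (c := (1 + u + u ^ 2) / (1 + u)) g1 k2 k3 ?_)
      · exact_mod_cast hN
      · exact div_mul_cancel₀ _ (by linarith)
  have hinj : Set.InjOn φ (S : Set ℚ) := by
    intro u hu v hv huv
    have h1 := (hS1 u hu).1
    have h2 := (hS1 v hv).1
    have h3 : (1 + u + u ^ 2) / (1 + u) = (1 + v + v ^ 2) / (1 + v) := congrArg Prod.snd huv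
    rw [div_eq_div_iff (by linarith) (by linarith)] at h3
    have h4 : (u - v) * (u + v + u * v) = 0 := by linear_combination h3
    rcases mul_eq_zero.1 h4 with h5 | h5
    · linarith
    · nlinarith
  have h1 := Set.ncard_le_ncard hsub (hfin N X hN1 b3).1
  rw [Set.ncard_coe_finset, Finset.card_image_of_injOn hinj] at h1
  have h2 : (S.card : ℝ) ≤ (MoreC N X).ncard := by exact_mod_cast h1
  refine le_trans ?_ (hS2.trans h2)
  rw [hA, Real.div_rpow (by positivity) (by norm_num), ← Real.rpow_mul hX0.le,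
    le_div_iff₀ (by positivity)]
  have e1 : (2 : ℝ) ^ (2 - ε) ≤ 4 := by
    refine (Real.rpow_le_rpow_of_exponent_le (by norm_num) (by linarith : 2 - ε ≤ 2)).trans ?_
    norm_num
  have e2 : X ^ (1 / 2 * (2 - ε)) = X ^ (1 - ε) * X ^ (ε / 2) := by
    rw [← Real.rpow_add hX0]
    congr 1
    ring
  rw [e2]
  exact mul_le_mul_of_nonneg_left (e1.trans b2) (Real.rpow_nonneg hX0.le _)

/-! ### The exponents -/

theorem tendsto_few (N : ℕ) (hN1 : 1 ≤ N) (hN : N ≤ 2) :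
    Tendsto (fun X => Real.log ((MoreC N X).ncard : ℝ) / Real.log X) atTop (𝓝 2) := by
  refine Szp.tendsto_of_bounds (fun X => ((MoreC N X).ncard : ℝ)) 2 ?_ ?_
  · intro ε hε
    obtain ⟨X0, h⟩ := two_lower ε hε
    exact ⟨X0, fun X hX => h N X hN1 hN hX⟩
  · intro ε hε
    obtain ⟨C, hC, h⟩ := some_upper ε hε
    exact ⟨C, hC, fun X hX => (h N X hN1 hX).2⟩

theorem tendsto_many (N : ℕ) (hN : 3 ≤ N) (hN6 : N ≤ 6) :
    Tendsto (fun X => Real.log ((MoreC N X).ncard : ℝ) / Real.log X) atTop (𝓝 1) := by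
  refine Szp.tendsto_of_bounds (fun X => ((MoreC N X).ncard : ℝ)) 1 ?_ ?_
  · intro ε hε
    obtain ⟨X0, h⟩ := six_lower ε hε
    exact ⟨X0, fun X hX => h N X (by omega) hN6 hX⟩
  · intro ε hε
    obtain ⟨C, hC, h⟩ := exc_upper ε hε
    refine ⟨C, hC, fun X hX => le_trans ?_ (h X hX).2⟩
    exact_mod_cast Set.ncard_le_ncard (more_sub hN X) (h X hX).1

theorem tendsto_notThree :
    Tendsto (fun X => Real.log ((NotThree X).ncard : ℝ) / Real.log X) atTop (𝓝 1) := by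
  refine Szp.tendsto_of_bounds (fun X => ((NotThree X).ncard : ℝ)) 1 ?_ ?_
  · intro ε hε
    obtain ⟨X0, h⟩ := six_lower ε hε
    obtain ⟨C, -, hf⟩ := exc_upper 1 one_pos
    refine ⟨max X0 1, fun X hX => ?_⟩
    have h1 := h 3 X (by norm_num) (by norm_num) ((le_max_left _ _).trans hX)
    have h2 : MoreC 3 X ⊆ NotThree X := by
      rintro q ⟨k1, k2, k3⟩
      exact ⟨k1, k2, lt_trans (by norm_num) k3, k3.ne'⟩
    refine h1.trans ?_
    exact_mod_cast Set.ncard_le_ncard h2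
      ((hf X ((le_max_right _ _).trans hX)).1.subset (notThree_sub X))
  · intro ε hε
    obtain ⟨C, hC, h⟩ := exc_upper ε hε
    refine ⟨C, hC, fun X hX => le_trans ?_ (h X hX).2⟩
    exact_mod_cast Set.ncard_le_ncard (notThree_sub X) (h X hX).1

end Pool.Agent.X12.Cub
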