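import Pool.Agent.X12.Leg

/-!
# Relations between roots of unity and their reductions
-/

set_option autoImplicit false

namespace Pool.Agent.X12

open Polynomial Finset

/-- An integral relation for a primitive `n`-th root of unity in `ℂ` holds for every primitive `n`-th
root of unity in `ZMod ℓ`. -/
lemma transfer {n l : ℕ} [Fact l.Prime] (hn : 0 < n) {z : ℂ} (hz : IsPrimitiveRoot z n)
    {g : ZMod l} (hg : IsPrimitiveRoot g n) (F : ℤ[X]) (hF : aeval z F = 0) : aeval g F = 0 := by
  have h1 : minpoly ℤ z ∣ F := minpoly.isIntegrallyClosed_dvd (hz.isIntegral hn) hF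
  rw [← cyclotomic_eq_minpoly hz hn] at h1
  obtain ⟨Q, hQ⟩ := h1
  have h2 : aeval g (cyclotomic n ℤ) = 0 := by
    have := hg.isRoot_cyclotomic hn
    rw [IsRoot, ← map_cyclotomic_int, eval_map, ← algebraMap_int_eq, ← aeval_def] at this
    exact this
  rw [hQ, map_mul, h2, zero_mul]

/-- The square of the quadratic Gauss sum as a polynomial relation. -/
lemma exists_gauss {p : ℕ} [Fact p.Prime] (hp : p ≠ 2) {z : ℂ} {e : ℕ} (h : IsPrimitiveRoot (z ^ e) p) :
    ∃ G : ℤ[X], (aeval z G) ^ 2 = ((qc p (-1) * (p : ℤ) : ℤ) : ℂ) := by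
  have hp0 : p ≠ 0 := (Fact.out : p.Prime).ne_zero
  have : NeZero p := ⟨hp0⟩
  refine ⟨∑ a : ZMod p, C (qc p a) * X ^ (e * a.val), ?_⟩
  let chi : MulChar (ZMod p) ℂ := (quadraticChar (ZMod p)).ringHomComp (Int.castRingHom ℂ)
  have hchi : chi ≠ 1 := by
    intro hc
    obtain ⟨a, ha⟩ := quadraticChar_exists_neg_one (ringChar_ne_two hp)
    have h1 : chi a = ((-1 : ℤ) : ℂ) := by
      show (Int.castRingHom ℂ) (quadraticChar (ZMod p) a) = _
      rw [ha]; rfl
    have ha0 : a ≠ 0 := by
      rintro rfl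
      rw [quadraticChar_zero] at ha
      norm_num at ha
    rw [hc, MulChar.one_apply (isUnit_iff_ne_zero.2 ha0)] at h1
    norm_num at h1
  have hquad : chi.IsQuadratic :=
    MulChar.IsQuadratic.comp (quadraticChar_isQuadratic (F := ZMod p)) (Int.castRingHom ℂ)
  have hpr := AddChar.zmodChar_primitive_of_primitive_root p h
  have key := gaussSum_sq hchi hquad hpr
  have h2 : aeval z (∑ a : ZMod p, C (qc p a) * X ^ (e * a.val) : ℤ[X]) =
      gaussSum chi (AddChar.zmodChar p ((IsPrimitiveRoot.iff_def _ p).mp h).left) := by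
    rw [map_sum]
    unfold gaussSum
    refine Finset.sum_congr rfl fun a _ => ?_
    rw [map_mul, aeval_C, map_pow, aeval_X, AddChar.zmodChar_apply, pow_mul]
    rfl
  rw [h2, key, ZMod.card p]
  push_cast
  rfl

end Pool.Agent.X12
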