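import Mathlib

/-!
# Rational preperiodic points of `z² + c`
-/

set_option autoImplicit false

namespace Pool.Agent.X12.Dyn

open Function

/-- the quadratic map -/
def f (c : ℚ) : ℚ → ℚ := fun w => w ^ 2 + c

/-- the rational preperiodic points -/
def Pre (c : ℚ) : Set ℚ := {z | (Set.range fun k : ℕ => (f c)^[k] z).Finite}

lemma escape {c : ℚ} (P : ℚ → Prop) (φ : ℚ → ℚ)
    (h : ∀ x, P x → P (f c x) ∧ φ x < φ (f c x)) {z : ℚ} (hz : P z) : z ∉ Pre c := by
  intro hpre
  have hk : ∀ k : ℕ, P ((f c)^[k] z) := by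
    intro k
    induction k with
    | zero => exact hz
    | succ k ih =>
      rw [Function.iterate_succ_apply']
      exact (h _ ih).1
  have hmono : StrictMono fun k : ℕ => φ ((f c)^[k] z) := by
    refine strictMono_nat_of_lt_succ fun k => ?_
    rw [Function.iterate_succ_apply']
    exact (h _ (hk k)).2
  have hinj : Function.Injective fun k : ℕ => (f c)^[k] z := by
    intro i j hij
    exact hmono.injective (by simp only at hij ⊢; rw [hij])
  exact Set.infinite_range_of_injective hinj hpre

lemma pre_apply {c z : ℚ} (hz : z ∈ Pre c) : f c z ∈ Pre c := by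
  refine hz.subset ?_
  rintro _ ⟨k, rfl⟩
  refine ⟨k + 1, ?_⟩
  simp only
  rw [Function.iterate_succ_apply]

lemma pre_iterate {c z : ℚ} (hz : z ∈ Pre c) (k : ℕ) : (f c)^[k] z ∈ Pre c := by
  induction k with
  | zero => exact hz
  | succ k ih =>
    rw [Function.iterate_succ_apply']
    exact pre_apply ih

/-- the archimedean bound -/
lemma pre_abs {c z : ℚ} (hz : z ∈ Pre c) : |z| ≤ 1 ∨ (|z| - 1) ^ 2 ≤ |c| := by
  by_contra hcon
  push Not at hcon
  refine escape (c := c) (fun x => 1 < |x| ∧ |c| < (|x| - 1) ^ 2) (fun x => |x|) ?_ hcon hz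
  rintro x ⟨h1, h2⟩
  have h3 : |x| < |f c x| := by
    unfold f
    have e1 : |x| ^ 2 ≤ |x ^ 2 + c| + |c| := by
      have := abs_sub (x ^ 2 + c) c
      rw [add_sub_cancel_right, abs_pow] at this
      exact this
    nlinarith
  refine ⟨⟨h1.trans h3, h2.trans ?_⟩, h3⟩
  nlinarith

/-- the `p`-adic bound -/
lemma pre_padic {c z : ℚ} (hz : z ∈ Pre c) (p : ℕ) [hp : Fact p.Prime] :
    padicNorm p z ≤ 1 ∨ padicNorm p z ^ 2 ≤ padicNorm p c := by
  by_contra hcon
  push Not at hcon
  refine escape (c := c) (fun x => 1 < padicNorm p x ∧ padicNorm p c < padicNorm p x ^ 2)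
    (fun x => padicNorm p x) ?_ hcon hz
  rintro x ⟨h1, h2⟩
  have h3 : padicNorm p (f c x) = padicNorm p x ^ 2 := by
    unfold f
    have e : padicNorm p (x ^ 2) = padicNorm p x ^ 2 := by rw [sq, padicNorm.mul, sq]
    rw [padicNorm.add_eq_max_of_ne (by rw [e]; exact h2.ne'), e, max_eq_left h2.le]
  have h4 : padicNorm p x < padicNorm p (f c x) := by
    rw [h3]
    nlinarith
  exact ⟨⟨h1.trans h4, h2.trans (by nlinarith)⟩, h4⟩

lemma pre_padic_eq {c z : ℚ} (hz : z ∈ Pre c) (p : ℕ) [hp : Fact p.Prime] :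
    max 1 (padicNorm p z) ^ 2 = max 1 (padicNorm p c) := by
  have h0 := padicNorm.nonneg (p := p) z
  rcases le_or_gt (padicNorm p c) 1 with h | h
  · have h1 : padicNorm p z ≤ 1 := by
      rcases pre_padic hz p with h2 | h2
      · exact h2
      · by_contra hcon
        push Not at hcon
        nlinarith
    rw [max_eq_left h, max_eq_left h1, one_pow]
  · have h1 : padicNorm p z ^ 2 = padicNorm p c := by
      by_contra hcon
      have h2 : padicNorm p z ^ 2 < padicNorm p c := by
        rcases pre_padic hz p with h2 | h2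
        · nlinarith
        · exact lt_of_le_of_ne h2 hcon
      have h3 : padicNorm p (f c z) = padicNorm p c := by
        unfold f
        have e : padicNorm p (z ^ 2) = padicNorm p z ^ 2 := by rw [sq, padicNorm.mul, sq]
        rw [padicNorm.add_eq_max_of_ne (by rw [e]; exact h2.ne), e, max_eq_right h2.le]
      rcases pre_padic (pre_apply hz) p with h4 | h4
      · linarith
      · rw [h3] at h4
        nlinarith
    have h2 : 1 ≤ padicNorm p z := by
      by_contra hcon
      push Not at hcon
      nlinarith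
    rw [max_eq_right h.le, max_eq_right h2, h1]

lemma max_padic (q : ℚ) (p : ℕ) [hp : Fact p.Prime] :
    max 1 (padicNorm p q) = (p : ℚ) ^ (padicValNat p q.den) := by
  have hden : padicNorm p q = padicNorm p q.num / padicNorm p q.den := by
    conv_lhs => rw [← Rat.num_div_den q]
    rw [padicNorm.div]
  by_cases h : p ∣ q.den
  · have h1 : ¬ (p : ℤ) ∣ q.num := by
      intro h2
      have h3 := q.reduced
      have h4 : p ∣ Nat.gcd q.num.natAbs q.den := Nat.dvd_gcd (Int.natCast_dvd.1 h2) h
      rw [h3] at h4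
      exact hp.out.one_lt.ne' (Nat.dvd_one.1 h4)
    have h2 : padicNorm p (q.num : ℚ) = 1 := (padicNorm.int_eq_one_iff q.num).2 h1
    have h3 : padicNorm p ((q.den : ℕ) : ℚ) = ((p : ℚ) ^ (padicValNat p q.den))⁻¹ := by
      rw [padicNorm.eq_zpow_of_nonzero (by exact_mod_cast q.den_ne_zero), padicValRat.of_nat,
        zpow_neg, zpow_natCast]
    rw [hden, h2, h3, one_div, inv_inv, max_eq_right]
    exact one_le_pow₀ (by exact_mod_cast hp.out.one_lt.le)
  · have h2 : padicNorm p ((q.den : ℕ) : ℚ) = 1 := (padicNorm.nat_eq_one_iff q.den).2 h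
    have h3 : padicNorm p (q.num : ℚ) ≤ 1 := padicNorm.of_int q.num
    rw [hden, h2, div_one, max_eq_left h3, padicValNat.eq_zero_of_not_dvd h, pow_zero]

/-- the denominator of a preperiodic point -/
theorem pre_den {c z : ℚ} (hz : z ∈ Pre c) : z.den ^ 2 = c.den := by
  refine Nat.eq_of_factorization_eq (pow_ne_zero _ z.den_ne_zero) c.den_ne_zero fun p => ?_
  by_cases hp : p.Prime
  · have : Fact p.Prime := ⟨hp⟩
    have h1 := pre_padic_eq hz p
    rw [max_padic, max_padic, ← pow_mul] at h1
    rw [Nat.factorization_pow, Nat.factorization_def _ hp]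
    simp only [Finsupp.coe_smul, Pi.smul_apply, smul_eq_mul]
    rw [Nat.factorization_def _ hp]
    have h2 := pow_right_injective₀ (by exact_mod_cast hp.pos : (0 : ℚ) < p)
      (by exact_mod_cast hp.one_lt.ne' : (p : ℚ) ≠ 1) h1
    omega
  · rw [Nat.factorization_eq_zero_of_not_prime _ hp, Nat.factorization_eq_zero_of_not_prime _ hp]

lemma den_eq {c z w : ℚ} (hz : z ∈ Pre c) (hw : w ∈ Pre c) : z.den = w.den := by
  have h1 := pre_den hz
  have h2 := pre_den hw
  exact (pow_left_inj₀ (Nat.zero_le _) (Nat.zero_le _) (by norm_num : (2 : ℕ) ≠ 0)).1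
    (h1.trans h2.symm)

/-- the integral form of the map -/
theorem pre_step {c z : ℚ} (hz : z ∈ Pre c) :
    z.num ^ 2 + c.num = z.den * (f c z).num := by
  have h1 := pre_den hz
  have h2 := den_eq (pre_apply hz) hz
  have hd : (z.den : ℚ) ≠ 0 := by exact_mod_cast z.den_ne_zero
  have e1 : (c.den : ℚ) = (z.den : ℚ) ^ 2 := by exact_mod_cast h1.symm
  have e2 : ((f c z).den : ℚ) = z.den := by exact_mod_cast h2
  have e3 : (z.num : ℚ) / z.den = z := Rat.num_div_den z
  have e4 : (c.num : ℚ) / c.den = c := Rat.num_div_den c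
  have e5 : ((f c z).num : ℚ) / (f c z).den = f c z := Rat.num_div_den _
  rw [e1] at e4
  rw [e2] at e5
  have e6 : ((f c z).num : ℚ) / z.den = ((z.num : ℚ) / z.den) ^ 2 + (c.num : ℚ) / (z.den : ℚ) ^ 2 := by
    rw [e5, e3, e4]
    rfl
  have e7 : ((z.num ^ 2 + c.num : ℤ) : ℚ) = ((z.den * (f c z).num : ℤ) : ℚ) := by
    push_cast
    field_simp at e6
    linarith
  exact_mod_cast e7

lemma num_eq {c z w : ℚ} (hz : z ∈ Pre c) (hw : w ∈ Pre c) (h : z.num = w.num) : z = w :=
  Rat.ext h (den_eq hz hw)

/-- the bound for the numerator -/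
lemma num_bound {c z : ℚ} (hz : z ∈ Pre c) {Y : ℝ} (hY : 0 ≤ Y) (hd : (z.den : ℝ) ≤ Y)
    (hn : |(c.num : ℝ)| ≤ Y ^ 2) : |(z.num : ℝ)| ≤ 2 * Y := by
  have h1 := pre_den hz
  have hdq : (0 : ℚ) < z.den := by exact_mod_cast z.den_pos
  have hdr : (0 : ℝ) < z.den := by exact_mod_cast z.den_pos
  have e1 : (c.den : ℚ) = (z.den : ℚ) ^ 2 := by exact_mod_cast h1.symm
  have ez : |z| = |(z.num : ℚ)| / z.den := by
    conv_lhs => rw [← Rat.num_div_den z]
    rw [abs_div, abs_of_pos hdq]
  have ec : |c| = |(c.num : ℚ)| / (z.den : ℚ) ^ 2 := by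
    conv_lhs => rw [← Rat.num_div_den c]
    rw [abs_div, e1, abs_of_pos (by positivity : (0 : ℚ) < (z.den : ℚ) ^ 2)]
  rcases pre_abs hz with h | h
  · rw [ez, div_le_one hdq] at h
    have h' : |(z.num : ℝ)| ≤ z.den := by exact_mod_cast h
    linarith
  · rw [ez, ec] at h
    have h2 : (|(z.num : ℚ)| - z.den) ^ 2 ≤ |(c.num : ℚ)| := by
      have e : (|(z.num : ℚ)| / z.den - 1) ^ 2 = (|(z.num : ℚ)| - z.den) ^ 2 / (z.den : ℚ) ^ 2 := by
        field_simp
      rw [e] at h
      exact (div_le_div_iff_of_pos_right (by positivity)).1 h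
    have h3 : (|(z.num : ℝ)| - z.den) ^ 2 ≤ |(c.num : ℝ)| := by exact_mod_cast h2
    have h4 : |(z.num : ℝ)| - z.den ≤ Y :=
      (le_abs_self _).trans (abs_le_of_sq_le_sq (h3.trans hn) hY)
    linarith

/-- a preperiodic point runs into a periodic point -/
lemma exists_periodic {c z : ℚ} (hz : z ∈ Pre c) : ∃ k : ℕ, (f c)^[k] z ∈ periodicPts (f c) := by
  have hinj : ¬ Function.Injective fun k : ℕ => (f c)^[k] z :=
    fun h => Set.infinite_range_of_injective h hz
  rw [Function.not_injective_iff] at hinj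
  obtain ⟨i, j, hij, hne⟩ := hinj
  rcases lt_or_gt_of_ne hne with h | h
  · refine ⟨i, mk_mem_periodicPts (n := j - i) (by omega) ?_⟩
    show (f c)^[j - i] ((f c)^[i] z) = (f c)^[i] z
    rw [← Function.iterate_add_apply, Nat.sub_add_cancel h.le, hij]
  · refine ⟨j, mk_mem_periodicPts (n := i - j) (by omega) ?_⟩
    show (f c)^[i - j] ((f c)^[j] z) = (f c)^[j] z
    rw [← Function.iterate_add_apply, Nat.sub_add_cancel h.le, hij]

/-- periodic points are preperiodic -/
lemma pre_of_periodic {c z : ℚ} (hz : z ∈ periodicPts (f c)) : z ∈ Pre c := by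
  have hN : 0 < minimalPeriod (f c) z := minimalPeriod_pos_of_mem_periodicPts hz
  refine (Set.Finite.subset ((Set.finite_Iio (minimalPeriod (f c) z)).image
    fun k => (f c)^[k] z)) ?_
  rintro _ ⟨k, rfl⟩
  refine ⟨k % minimalPeriod (f c) z, Nat.mod_lt _ hN, ?_⟩
  simp only
  exact iterate_mod_minimalPeriod_eq

/-- the exit from a set which contains the periodic points -/
lemma exit_point {c z : ℚ} (hz : z ∈ Pre c) {S : Set ℚ} (hS : ∀ y ∈ periodicPts (f c), y ∈ S)
    (hzS : z ∉ S) : ∃ w ∈ Pre c, w ∉ S ∧ f c w ∈ S := by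
  classical
  obtain ⟨k, hk⟩ := exists_periodic hz
  have hex : ∃ k : ℕ, (f c)^[k] z ∈ S := ⟨k, hS _ hk⟩
  set m := Nat.find hex with hm
  have h1 : (f c)^[m] z ∈ S := Nat.find_spec hex
  have h2 : ∀ j < m, (f c)^[j] z ∉ S := fun j hj => Nat.find_min hex hj
  have hm0 : m ≠ 0 := by
    intro h0
    rw [h0] at h1
    exact hzS h1
  obtain ⟨j, hj⟩ := Nat.exists_eq_succ_of_ne_zero hm0
  refine ⟨(f c)^[j] z, pre_iterate hz j, h2 j (by omega), ?_⟩
  rw [← Function.iterate_succ_apply' (f c) j z]
  rw [hj] at h1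
  exact h1

/-! ### Long cycles -/

/-- the relation between three consecutive points -/
lemma three_rel {c z : ℚ} (hz : z ∈ Pre c) :
    (z.num - (f c z).num) * (z.num + (f c z).num) =
      z.den * ((f c z).num - (f c (f c z)).num) := by
  have h1 := pre_step hz
  have h2 := pre_step (pre_apply hz)
  rw [den_eq (pre_apply hz) hz] at h2
  linear_combination h1 - h2

/-- the sum of two consecutive points of a long cycle -/
theorem cycle_sum {c z : ℚ} (hz : z ∈ periodicPts (f c)) (h3 : 3 ≤ minimalPeriod (f c) z) :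
    z.num + (f c z).num ≠ 0 ∧
    (z.num + (f c z).num).natAbs.primeFactors ⊆ z.den.primeFactors ∧
    z.num + (f c z).num + z.den ≠ 0 := by
  classical
  set N := minimalPeriod (f c) z with hN
  have hpre := pre_of_periodic hz
  set a : ℕ → ℤ := fun i => ((f c)^[i] z).num with ha
  have hden : ∀ i : ℕ, ((f c)^[i] z).den = z.den := fun i => den_eq (pre_iterate hpre i) hpre
  have hrel : ∀ i : ℕ, (a i - a (i + 1)) * (a i + a (i + 1)) = z.den * (a (i + 1) - a (i + 2)) := by
    intro i
    have h1 := three_rel (pre_iterate hpre i)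
    rw [hden i, ← Function.iterate_succ_apply' (f c), ← Function.iterate_succ_apply' (f c)] at h1
    exact h1
  have hper : ∀ i : ℕ, (f c)^[i + N] z = (f c)^[i] z := fun i => by
    rw [hN]
    exact iterate_add_minimalPeriod_eq
  have haN : ∀ i : ℕ, a (i + N) = a i := fun i => by
    simp only [ha]
    rw [hper i]
  have hd0 : (z.den : ℤ) ≠ 0 := by exact_mod_cast z.den_ne_zero
  -- consecutive points are different
  have hne : ∀ i : ℕ, a i - a (i + 1) ≠ 0 := by
    intro i h0
    have h1 : (f c)^[i] z = (f c)^[i + 1] z :=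
      num_eq (pre_iterate hpre i) (pre_iterate hpre (i + 1)) (by
        have : a i = a (i + 1) := by linarith
        exact this)
    have h2 : IsPeriodicPt (f c) 1 ((f c)^[i] z) := by
      show (f c)^[1] ((f c)^[i] z) = (f c)^[i] z
      rw [← Function.iterate_add_apply, add_comm, h1]
    have h4 : minimalPeriod (f c) ((f c)^[i] z) = N := minimalPeriod_apply_iterate hz i
    have h5 := h2.minimalPeriod_le one_pos
    omega
  set g : ℕ → ℤ := fun i => a i - a (i + 1) with hg
  have hshift : ∏ i ∈ Finset.range N, g (i + 1) = ∏ i ∈ Finset.range N, g i := by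
    have h1 : (∏ i ∈ Finset.range N, g (i + 1)) * g 0 = (∏ i ∈ Finset.range N, g i) * g N := by
      rw [← Finset.prod_range_succ', Finset.prod_range_succ]
    have h2 : g N = g 0 := by
      simp only [hg]
      have e1 := haN 0
      have e2 := haN 1
      rw [zero_add] at e1
      rw [add_comm] at e2
      rw [e1, e2]
    rw [h2] at h1
    exact mul_right_cancel₀ (hne 0) h1
  have hprod : ∏ i ∈ Finset.range N, (a i + a (i + 1)) = (z.den : ℤ) ^ N := by
    have h1 : (∏ i ∈ Finset.range N, g i) * ∏ i ∈ Finset.range N, (a i + a (i + 1)) =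
        (∏ i ∈ Finset.range N, g i) * (z.den : ℤ) ^ N := by
      rw [← Finset.prod_mul_distrib, mul_comm _ ((z.den : ℤ) ^ N)]
      conv_rhs => rw [← hshift]
      have e : (z.den : ℤ) ^ N = ∏ _i ∈ Finset.range N, (z.den : ℤ) := by
        rw [Finset.prod_const, Finset.card_range]
      rw [e, ← Finset.prod_mul_distrib]
      exact Finset.prod_congr rfl fun i _ => hrel i
    exact mul_left_cancel₀ (Finset.prod_ne_zero_iff.2 fun i _ => hne i) h1
  have hN0 : 0 < N := by omega
  have hdvd : z.num + (f c z).num ∣ (z.den : ℤ) ^ N := by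
    rw [← hprod]
    exact Finset.dvd_prod_of_mem (fun i => a i + a (i + 1)) (Finset.mem_range.2 hN0)
  have h0 : z.num + (f c z).num ≠ 0 := by
    intro h
    rw [h, zero_dvd_iff] at hdvd
    exact pow_ne_zero _ hd0 hdvd
  refine ⟨h0, ?_, ?_⟩
  · have h1 : (z.num + (f c z).num).natAbs ∣ z.den ^ N := by
      have := Int.natAbs_dvd_natAbs.2 hdvd
      rwa [Int.natAbs_pow, Int.natAbs_natCast] at this
    have h2 := Nat.primeFactors_mono h1 (pow_ne_zero _ z.den_ne_zero)
    rwa [Nat.primeFactors_pow _ hN0.ne'] at h2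
  · intro h
    have h1 := hrel 0
    have e0 : a 0 = z.num := rfl
    have e1 : a 1 = (f c z).num := rfl
    have h2 : a 0 + a 1 = -z.den := by
      rw [e0, e1]
      linarith
    have h3' : (z.den : ℤ) * (a 0 - a 2) = 0 := by
      simp only [zero_add] at h1
      rw [h2] at h1
      linarith
    have h4 : a 0 = a 2 := by
      have := (mul_eq_zero.1 h3').resolve_left hd0
      linarith
    have h5 : z = (f c)^[2] z := num_eq hpre (pre_iterate hpre 2) h4
    have h6 : IsPeriodicPt (f c) 2 z := h5.symm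
    have h7 := h6.minimalPeriod_le two_pos
    omega

lemma cycle_eq {c z : ℚ} (hz : z ∈ Pre c) :
    2 * (f c z).num * (z.num + (f c z).num + z.den) =
      (z.num + (f c z).num) ^ 2 + z.den * ((f c z).num + (f c (f c z)).num) := by
  have h := three_rel hz
  linear_combination -h

/-! ### Short cycles -/

/-- more than four preperiodic points and no long cycles -/
theorem short_cases {c : ℚ} (h4 : (4 : ℕ∞) < (Pre c).encard)
    (hper : ∀ y ∈ periodicPts (f c), f c (f c y) = y) :
    (∃ p w : ℚ, p ∈ Pre c ∧ w ∈ Pre c ∧ f c p = p ∧ f c w = -p) ∨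
    (∃ p q : ℚ, p ∈ Pre c ∧ q ∈ Pre c ∧ f c p = p ∧ f c q = -1 - q) ∨
    (∃ q w : ℚ, q ∈ Pre c ∧ w ∈ Pre c ∧ f c q = -1 - q ∧ f c w = -q) := by
  classical
  -- a point in a cycle of length two
  have htwo : ∀ y ∈ periodicPts (f c), f c y ≠ y → f c y = -1 - y := by
    intro y hy hne
    have h1 := hper y hy
    unfold f at h1 hne ⊢
    have h2 : (y ^ 2 + c - y) * (y ^ 2 + c + y + 1) = 0 := by linear_combination h1
    have h3 := (mul_eq_zero.1 h2).resolve_left (sub_ne_zero.2 hne)
    linarith
  -- outside four points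
  have hout : ∀ a b : ℚ, ∃ z ∈ Pre c, z ∉ ({a, b, -a, -b} : Set ℚ) := by
    intro a b
    by_contra hcon
    push Not at hcon
    have h1 : (Pre c).encard ≤ ({a, b, -a, -b} : Set ℚ).encard := Set.encard_le_encard hcon
    have h2 : ({a, b, -a, -b} : Set ℚ).encard ≤ 4 := by
      refine (Set.encard_insert_le _ _).trans ?_
      have e1 := (Set.encard_insert_le ({-a, -b} : Set ℚ) b)
      have e2 := (Set.encard_insert_le ({-b} : Set ℚ) (-a))
      rw [Set.encard_singleton] at e2
      calc ({b, -a, -b} : Set ℚ).encard + 1 ≤ (({-a, -b} : Set ℚ).encard + 1) + 1 := by gcongr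
        _ ≤ ((1 + 1) + 1) + 1 := by gcongr
        _ = 4 := by norm_num
    exact absurd (h4.trans_le (h1.trans h2)) (lt_irrefl _)
  by_cases hfix : ∃ p ∈ periodicPts (f c), f c p = p
  · obtain ⟨p, hp, hpp⟩ := hfix
    by_cases hcyc : ∃ q ∈ periodicPts (f c), f c q ≠ q
    · obtain ⟨q, hq, hqq⟩ := hcyc
      exact Or.inr (Or.inl ⟨p, q, pre_of_periodic hp, pre_of_periodic hq, hpp, htwo q hq hqq⟩)
    · push Not at hcyc
      left
      obtain ⟨z, hz, hzS⟩ := hout p (1 - p)
      have hS : ∀ y ∈ periodicPts (f c), y ∈ ({p, 1 - p, -p, -(1 - p)} : Set ℚ) := by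
        intro y hy
        have h1 := hcyc y hy
        unfold f at h1 hpp
        have h2 : (y - p) * (y + p - 1) = 0 := by linear_combination h1 - hpp
        rcases mul_eq_zero.1 h2 with h3 | h3
        · left
          linarith
        · right
          left
          linarith
      obtain ⟨w, hw, hwS, hfw⟩ := exit_point hz hS hzS
      have hpc : p ^ 2 + c = p := hpp
      have hf1 : f c (1 - p) = 1 - p := by
        unfold f
        linear_combination hpc
      have hp1 : (1 - p) ∈ periodicPts (f c) := mk_mem_periodicPts one_pos hf1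
      have hwn : w ≠ p ∧ w ≠ 1 - p ∧ w ≠ -p ∧ w ≠ -(1 - p) := by
        simp only [Set.mem_insert_iff, Set.mem_singleton_iff, not_or] at hwS
        exact hwS
      simp only [Set.mem_insert_iff, Set.mem_singleton_iff] at hfw
      rcases hfw with h | h | h | h
      · exfalso
        have h1 : (w - p) * (w + p) = 0 := by
          unfold f at h
          linear_combination h - hpc
        rcases mul_eq_zero.1 h1 with h2 | h2
        · exact hwn.1 (by linarith)
        · exact hwn.2.2.1 (by linarith)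
      · exfalso
        have h1 : (w - (1 - p)) * (w + (1 - p)) = 0 := by
          unfold f at h
          linear_combination h - hpc
        rcases mul_eq_zero.1 h1 with h2 | h2
        · exact hwn.2.1 (by linarith)
        · exact hwn.2.2.2 (by linarith)
      · exact ⟨p, w, pre_of_periodic hp, hw, hpp, h⟩
      · exact ⟨1 - p, w, pre_of_periodic hp1, hw, hf1, h⟩
  · push Not at hfix
    right
    right
    -- there is a periodic point
    obtain ⟨z0, hz0, -⟩ := hout 0 0
    obtain ⟨k, hk⟩ := exists_periodic hz0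
    set q := (f c)^[k] z0 with hq
    have hqq := htwo q hk (hfix q hk)
    have hqc : q ^ 2 + c = -1 - q := hqq
    have hf1 : f c (-1 - q) = q := by
      unfold f
      linear_combination hqc
    have hq' : (-1 - q) ∈ periodicPts (f c) := by
      refine mk_mem_periodicPts (n := 2) two_pos ?_
      show f c (f c (-1 - q)) = -1 - q
      rw [hf1, hqq]
    have hqq' : f c (-1 - q) = -1 - (-1 - q) := by
      rw [hf1]
      ring
    obtain ⟨z, hz, hzS⟩ := hout q (-1 - q)
    have hS : ∀ y ∈ periodicPts (f c), y ∈ ({q, -1 - q, -q, -(-1 - q)} : Set ℚ) := by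
      intro y hy
      have h1 := htwo y hy (hfix y hy)
      unfold f at h1
      have h2 : (y - q) * (y + q + 1) = 0 := by linear_combination h1 - hqc
      rcases mul_eq_zero.1 h2 with h3 | h3
      · left
        linarith
      · right
        left
        linarith
    obtain ⟨w, hw, hwS, hfw⟩ := exit_point hz hS hzS
    have hwn : w ≠ q ∧ w ≠ -1 - q ∧ w ≠ -q ∧ w ≠ -(-1 - q) := by
      simp only [Set.mem_insert_iff, Set.mem_singleton_iff, not_or] at hwS
      exact hwS
    simp only [Set.mem_insert_iff, Set.mem_singleton_iff] at hfw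
    rcases hfw with h | h | h | h
    · exfalso
      have h1 : (w - (-1 - q)) * (w + (-1 - q)) = 0 := by
        unfold f at h
        linear_combination h - hqc
      rcases mul_eq_zero.1 h1 with h2 | h2
      · exact hwn.2.1 (by linarith)
      · exact hwn.2.2.2 (by linarith)
    · exfalso
      have h1 : (w - q) * (w + q) = 0 := by
        unfold f at h
        linear_combination h - hqc
      rcases mul_eq_zero.1 h1 with h2 | h2
      · exact hwn.1 (by linarith)
      · exact hwn.2.2.1 (by linarith)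
    · exact ⟨q, w, pre_of_periodic hk, hw, hqq, h⟩
    · exact ⟨-1 - q, w, pre_of_periodic hq', hw, hqq', h⟩

end Pool.Agent.X12.Dyn
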