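import Pool.Agent.X12.Dyn3

/-!
# Exactly four rational preperiodic points
-/

set_option autoImplicit false

namespace Pool.Agent.X12.Dyn

open Function Finset Filter Topology

/-- some rational preperiodic point but not exactly four of them -/
def NotFour (X : ℝ) : Set ℚ := {c | HtLe X c ∧ (Pre c).Nonempty ∧ (Pre c).encard ≠ 4}

lemma pre_neg {c x : ℚ} (hx : x ∈ Pre c) : -x ∈ Pre c := by
  refine pre_back ?_
  have e : f c (-x) = f c x := by
    unfold f
    ring
  rw [e]
  exact pre_apply hx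

lemma four_le {c x y : ℚ} (hx : x ∈ Pre c) (hy : y ∈ Pre c) (hx0 : x ≠ 0) (hy0 : y ≠ 0)
    (h1 : x ≠ y) (h2 : x ≠ -y) : (4 : ℕ∞) ≤ (Pre c).encard := by
  classical
  set S : Finset ℚ := {x, -x, y, -y} with hS
  have hsub : (S : Set ℚ) ⊆ Pre c := by
    intro z hz
    rw [hS] at hz
    simp only [Finset.coe_insert, Finset.coe_singleton, Set.mem_insert_iff,
      Set.mem_singleton_iff] at hz
    rcases hz with rfl | rfl | rfl | rfl
    · exact hx
    · exact pre_neg hx
    · exact hy
    · exact pre_neg hy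
  have hcard : S.card = 4 := by
    have a1 : x ≠ -x := fun h => hx0 (by linarith)
    have a2 : y ≠ -y := fun h => hy0 (by linarith)
    have a3 : -x ≠ y := fun h => h2 (by linarith)
    have a4 : -x ≠ -y := fun h => h1 (by linarith)
    rw [hS, Finset.card_insert_of_notMem (by simp [a1, h1, h2]),
      Finset.card_insert_of_notMem (by simp only [Finset.mem_insert, Finset.mem_singleton]; tauto),
      Finset.card_insert_of_notMem (by simpa using a2), Finset.card_singleton]
  have := Set.encard_le_encard hsub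
  rw [Set.encard_coe_eq_coe_finsetCard, hcard] at this
  exact this

lemma four_or {c : ℚ} (h : (Pre c).Nonempty) (hlong : ∀ z : ℚ, ¬ 3 ≤ minimalPeriod (f c) z) :
    (4 : ℕ∞) ≤ (Pre c).encard ∨ c ∈ ({0, 1 / 4, -1} : Finset ℚ) := by
  obtain ⟨z0, hz0⟩ := h
  obtain ⟨k, hk⟩ := exists_periodic hz0
  set y := (f c)^[k] z0 with hy
  have hpre := pre_of_periodic hk
  have h3 := hlong y
  simp only [Finset.mem_insert, Finset.mem_singleton]
  by_cases hfix : f c y = y
  · have hc : c = y - y ^ 2 := by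
      unfold f at hfix
      linarith
    by_cases y0 : y = 0
    · right
      left
      rw [hc, y0]
      ring
    by_cases y1 : y = 1
    · right
      left
      rw [hc, y1]
      ring
    by_cases y2 : y = 1 / 2
    · right
      right
      left
      rw [hc, y2]
      norm_num
    left
    have hf1 : f c (1 - y) = 1 - y := by
      unfold f
      linear_combination hc
    refine four_le hpre (pre_fixed hf1) y0 ?_ ?_ ?_
    · intro h
      exact y1 (by linarith)
    · intro h
      exact y2 (by linarith)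
    · intro h
      linarith
  · have h2 : 0 < minimalPeriod (f c) y := minimalPeriod_pos_of_mem_periodicPts hk
    have h4 : IsPeriodicPt (f c) (minimalPeriod (f c) y) y := isPeriodicPt_minimalPeriod _ _
    have h5 : minimalPeriod (f c) y = 1 ∨ minimalPeriod (f c) y = 2 := by omega
    have h6 : f c (f c y) = y := by
      rcases h5 with h5 | h5
      · rw [h5] at h4
        exact absurd h4 hfix
      · rw [h5] at h4
        exact h4
    have h7 : f c y = -1 - y := by
      unfold f at h6 hfix ⊢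
      have h8 : (y ^ 2 + c - y) * (y ^ 2 + c + y + 1) = 0 := by linear_combination h6
      have h9 := (mul_eq_zero.1 h8).resolve_left (sub_ne_zero.2 hfix)
      linarith
    have hc : c = -1 - y - y ^ 2 := by
      unfold f at h7
      linarith
    by_cases y0 : y = 0
    · right
      right
      right
      rw [hc, y0]
      ring
    by_cases y1 : y = -1
    · right
      right
      right
      rw [hc, y1]
      ring
    left
    have hw := pre_apply hpre
    rw [h7] at hw hfix
    refine four_le hpre hw y0 ?_ (fun h => hfix h.symm) ?_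
    · intro h
      exact y1 (by linarith)
    · intro h
      linarith

/-- **Upper bound**: not exactly four -/
theorem notFour_upper (ε : ℝ) (hε : 0 < ε) : ∃ C : ℝ, 0 < C ∧ ∀ X : ℝ, 1 ≤ X →
    (NotFour X).Finite ∧ ((NotFour X).ncard : ℝ) ≤ C * X ^ (1 / 2 + ε) := by
  classical
  obtain ⟨C1, hC1, h1⟩ := many_upper ε hε
  obtain ⟨C2, hC2, h2⟩ := long_upper ε hε
  obtain ⟨C3, hC3, h3⟩ := some_upper 1 one_pos
  refine ⟨C1 + C2 + 3, by positivity, fun X hX => ?_⟩
  have hX0 : 0 < X := by linarith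
  have hsub : NotFour X ⊆ Many 4 X ∪ (Long X ∪ (({0, 1 / 4, -1} : Finset ℚ) : Set ℚ)) := by
    rintro c ⟨hc1, hc2, hc3⟩
    by_cases hm : (4 : ℕ∞) < (Pre c).encard
    · left
      exact ⟨hc1, hm⟩
    right
    by_cases hl : ∃ z : ℚ, 3 ≤ minimalPeriod (f c) z
    · left
      exact ⟨hc1, hl⟩
    right
    push Not at hl
    rcases four_or hc2 (fun z => not_le.2 (hl z)) with h | h
    · exact absurd (le_antisymm (not_lt.1 hm) h) hc3
    · exact h
  have f1 := (h3 4 X hX).1
  have f2 := (h2 X hX).1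
  have f3 : (({0, 1 / 4, -1} : Finset ℚ) : Set ℚ).Finite := Finset.finite_toSet _
  have hfin := (f1.union (f2.union f3)).subset hsub
  refine ⟨hfin, ?_⟩
  have n1 := Set.ncard_le_ncard hsub (f1.union (f2.union f3))
  have n2 := Set.ncard_union_le (Many 4 X) (Long X ∪ (({0, 1 / 4, -1} : Finset ℚ) : Set ℚ))
  have n3 := Set.ncard_union_le (Long X) (({0, 1 / 4, -1} : Finset ℚ) : Set ℚ)
  have n4 : (({0, 1 / 4, -1} : Finset ℚ) : Set ℚ).ncard ≤ 3 := by
    rw [Set.ncard_coe_finset]
    exact Finset.card_le_three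
  have n5 : (NotFour X).ncard ≤ (Many 4 X).ncard + ((Long X).ncard + 3) := by omega
  have n6 : ((NotFour X).ncard : ℝ) ≤ (Many 4 X).ncard + ((Long X).ncard + 3) := by
    exact_mod_cast n5
  have n7 := h1 4 X le_rfl hX
  have n8 := (h2 X hX).2
  have n9 : 1 ≤ X ^ (1 / 2 + ε) := Real.one_le_rpow hX (by positivity)
  nlinarith

/-- more than four points: contained in the exceptional set -/
lemma many_sub (X : ℝ) : Many 4 X ⊆ NotFour X := by
  rintro c ⟨h1, h2⟩
  refine ⟨h1, ?_, h2.ne'⟩
  rw [← Set.encard_pos]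
  exact lt_of_le_of_lt bot_le h2

theorem notFour_lower (ε : ℝ) (hε : 0 < ε) : ∃ X₀ : ℝ, ∀ X : ℝ, X₀ ≤ X →
    X ^ (1 / 2 - ε) ≤ ((NotFour X).ncard : ℝ) := by
  obtain ⟨X0, h⟩ := seven_lower ε hε
  obtain ⟨C, hC, hf⟩ := notFour_upper 1 one_pos
  refine ⟨max X0 1, fun X hX => ?_⟩
  have h1 := h 4 X (by norm_num) ((le_max_left _ _).trans hX)
  have h2 := Set.ncard_le_ncard (many_sub X) (hf X ((le_max_right _ _).trans hX)).1
  refine h1.trans ?_
  exact_mod_cast h2

theorem tendsto_few (N : ℕ) (hN : N ≤ 3) :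
    Tendsto (fun X => Real.log ((Many N X).ncard : ℝ) / Real.log X) atTop (𝓝 1) := by
  refine Szp.tendsto_of_bounds (fun X => ((Many N X).ncard : ℝ)) 1 ?_ ?_
  · intro ε hε
    obtain ⟨X0, h⟩ := three_lower ε hε
    exact ⟨X0, fun X hX => h N X hN hX⟩
  · intro ε hε
    obtain ⟨C, hC, h⟩ := some_upper ε hε
    exact ⟨C, hC, fun X hX => (h N X hX).2⟩

theorem tendsto_many (N : ℕ) (hN : 4 ≤ N) (hN7 : N ≤ 7) :
    Tendsto (fun X => Real.log ((Many N X).ncard : ℝ) / Real.log X) atTop (𝓝 (1 / 2)) := by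
  refine Szp.tendsto_of_bounds (fun X => ((Many N X).ncard : ℝ)) (1 / 2) ?_ ?_
  · intro ε hε
    obtain ⟨X0, h⟩ := seven_lower ε hε
    exact ⟨X0, fun X hX => h N X hN7 hX⟩
  · intro ε hε
    obtain ⟨C, hC, h⟩ := many_upper ε hε
    exact ⟨C, hC, fun X hX => h N X hN hX⟩

theorem tendsto_notFour :
    Tendsto (fun X => Real.log ((NotFour X).ncard : ℝ) / Real.log X) atTop (𝓝 (1 / 2)) := by
  refine Szp.tendsto_of_bounds (fun X => ((NotFour X).ncard : ℝ)) (1 / 2) ?_ ?_
  · intro ε hε
    exact notFour_lower ε hε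
  · intro ε hε
    obtain ⟨C, hC, h⟩ := notFour_upper ε hε
    exact ⟨C, hC, fun X hX => (h X hX).2⟩

end Pool.Agent.X12.Dyn
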