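import Mathlib

/-!
# Elementary facts on the quadratic character of `ZMod p` and half systems of residues
-/

set_option autoImplicit false

namespace Pool.Agent.X12

open Finset

variable {p : ℕ} [Fact p.Prime]

/-- The quadratic character of `ZMod p` with integer values. -/
abbrev qc (p : ℕ) [Fact p.Prime] (a : ZMod p) : ℤ := quadraticChar (ZMod p) a

lemma ringChar_ne_two (hp : p ≠ 2) : ringChar (ZMod p) ≠ 2 := by
  rw [ZMod.ringChar_zmod_n]; exact hp

lemma legendre_eq (a : ℤ) : legendreSym p a = qc p (a : ZMod p) := rfl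

lemma qc_mul (a b : ZMod p) : qc p (a * b) = qc p a * qc p b := map_mul _ a b

lemma qc_zero : qc p 0 = 0 := quadraticChar_zero

lemma qc_one : qc p 1 = 1 := map_one _

lemma qc_sq {a : ZMod p} (ha : a ≠ 0) : qc p a * qc p a = 1 := by
  have := quadraticChar_sq_one ha
  rw [sq] at this
  exact this

lemma sum_qc (hp : p ≠ 2) : ∑ a : ZMod p, qc p a = 0 :=
  quadraticChar_sum_zero (ringChar_ne_two hp)

lemma qc_neg_one_of_one (hp : p % 4 = 1) : qc p (-1) = 1 := by
  have h2 : p ≠ 2 := by rintro rfl; norm_num at hp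
  have : quadraticChar (ZMod p) (-1) = ZMod.χ₄ (Fintype.card (ZMod p)) :=
    quadraticChar_neg_one (ringChar_ne_two h2)
  rw [qc, this, ZMod.card p, ZMod.χ₄_nat_one_mod_four hp]

lemma qc_neg_one_of_three (hp : p % 4 = 3) : qc p (-1) = -1 := by
  have h2 : p ≠ 2 := by rintro rfl; norm_num at hp
  have : quadraticChar (ZMod p) (-1) = ZMod.χ₄ (Fintype.card (ZMod p)) :=
    quadraticChar_neg_one (ringChar_ne_two h2)
  rw [qc, this, ZMod.card p, ZMod.χ₄_nat_three_mod_four hp]

lemma qc_neg (a : ZMod p) : qc p (-a) = qc p (-1) * qc p a := by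
  rw [← qc_mul]; congr 1; ring

/-- The autocorrelation of the quadratic character. -/
lemma sum_qc_mul (hp : p ≠ 2) (a b : ZMod p) :
    ∑ k : ZMod p, qc p (k + a) * qc p (k + b) = if a = b then (p : ℤ) - 1 else -1 := by
  split_ifs with h
  · subst h
    have h1 : ∑ k : ZMod p, qc p (k + a) * qc p (k + a) = ∑ k : ZMod p, qc p k * qc p k :=
      Equiv.sum_comp (Equiv.addRight a) (fun k => qc p k * qc p k)
    rw [h1, ← Finset.add_sum_erase _ _ (Finset.mem_univ (0 : ZMod p)), qc_zero, zero_mul, zero_add,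
      Finset.sum_congr rfl (fun k hk => qc_sq (Finset.ne_of_mem_erase hk))]
    rw [Finset.sum_const, Finset.card_erase_of_mem (Finset.mem_univ _), Finset.card_univ,
      ZMod.card p, nsmul_eq_mul, mul_one, Nat.cast_sub (Fact.out : p.Prime).one_le]
    rfl
  · have hc : a - b ≠ 0 := sub_ne_zero.2 h
    have h1 : ∑ k : ZMod p, qc p (k + a) * qc p (k + b) =
        ∑ x : ZMod p, qc p x * qc p (1 - x) * qc p (-1) := by
      refine Fintype.sum_equiv ((Equiv.addRight b).trans (Equiv.mulRight₀ (-(a - b)⁻¹)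
        (neg_ne_zero.2 (inv_ne_zero hc)))) _ _ fun k => ?_
      have e : ((Equiv.addRight b).trans (Equiv.mulRight₀ (-(a - b)⁻¹)
        (neg_ne_zero.2 (inv_ne_zero hc)))) k = (k + b) * (-(a - b)⁻¹) := rfl
      rw [e]
      have e2 : 1 - (k + b) * (-(a - b)⁻¹) = (k + a) * (a - b)⁻¹ := by
        field_simp
        ring
      rw [e2, ← qc_mul, ← qc_mul, ← qc_mul]
      have e3 : (k + b) * (-(a - b)⁻¹) * ((k + a) * (a - b)⁻¹) * (-1) =
          ((k + a) * (k + b)) * ((a - b)⁻¹ * (a - b)⁻¹) := by ring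
      rw [e3, qc_mul ((k + a) * (k + b)), qc_mul ((a - b)⁻¹), qc_sq (inv_ne_zero hc), mul_one,
        qc_mul]
    have h2 := jacobiSum_nontrivial_inv (quadraticChar_ne_one (ringChar_ne_two hp))
    have h3 : (quadraticChar (ZMod p))⁻¹ = quadraticChar (ZMod p) :=
      (quadraticChar_isQuadratic (F := ZMod p)).inv
    rw [h3] at h2
    rw [h1, ← Finset.sum_mul]
    unfold jacobiSum at h2
    have h4 : ∑ x : ZMod p, qc p x * qc p (1 - x) = - qc p (-1) := h2
    rw [h4]
    have := qc_sq (p := p) (a := -1) (neg_ne_zero.2 one_ne_zero)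
    linarith

/-- Sums over `ZMod p` as sums over a range. -/
lemma sum_zmod {M : Type*} [AddCommMonoid M] (f : ZMod p → M) :
    ∑ k : ZMod p, f k = ∑ i ∈ range p, f (i : ZMod p) := by
  refine Finset.sum_nbij' (fun k => k.val) (fun i => (i : ZMod p)) ?_ ?_ ?_ ?_ ?_
  · intro k _; exact Finset.mem_range.2 (ZMod.val_lt k)
  · intro i _; exact Finset.mem_univ _
  · intro k _; exact ZMod.natCast_zmod_val k
  · intro i hi; exact ZMod.val_cast_of_lt (Finset.mem_range.1 hi)
  · intro k _; rw [ZMod.natCast_zmod_val]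

/-- The sum over all residues through the half system `1, …, n`. -/
lemma sum_half {M : Type*} [AddCommMonoid M] {n : ℕ} (hn : p = 2 * n + 1) (f : ZMod p → M) :
    ∑ k : ZMod p, f k = f 0 + ∑ i ∈ range n, (f ((i : ZMod p) + 1) + f (-((i : ZMod p) + 1))) := by
  rw [sum_zmod, show range p = range (2 * n + 1) by rw [hn], Finset.sum_range_succ',
    Nat.cast_zero, add_comm, Finset.sum_add_distrib]
  congr 1
  rw [two_mul, Finset.sum_range_add]
  congr 1
  · refine Finset.sum_congr rfl fun i _ => ?_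
    push_cast; rfl
  · rw [← Finset.sum_range_reflect]
    refine Finset.sum_congr rfl fun i hi => ?_
    congr 1
    have hi' := Finset.mem_range.1 hi
    have h0 : ((2 * n + 1 : ℕ) : ZMod p) = 0 := by rw [← hn]; exact ZMod.natCast_self p
    have h1 : n + (n - 1 - i) + 1 + (i + 1) = 2 * n + 1 := by omega
    rw [← h1] at h0
    push_cast at h0 ⊢
    linear_combination h0

/-- Variant of `sum_half` for even functions. -/
lemma sum_half_even {n : ℕ} (hn : p = 2 * n + 1) (f : ZMod p → ℤ) (hf : ∀ k, f (-k) = f k) :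
    ∑ k : ZMod p, f k = f 0 + 2 * ∑ i ∈ range n, f ((i : ZMod p) + 1) := by
  rw [sum_half hn, Finset.mul_sum]
  congr 1
  refine Finset.sum_congr rfl fun i _ => ?_
  rw [hf]; ring

/-- The elements `1, …, n` are distinct, nonzero and no two of them are opposite. -/
lemma half_ne_zero {n : ℕ} (hn : p = 2 * n + 1) {i : ℕ} (hi : i < n) : ((i : ZMod p) + 1) ≠ 0 := by
  intro h
  have h1 : ((i + 1 : ℕ) : ZMod p) = 0 := by push_cast; exact h
  rw [ZMod.natCast_eq_zero_iff] at h1
  have := Nat.le_of_dvd (by omega) h1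
  omega

lemma half_inj {n : ℕ} (hn : p = 2 * n + 1) {i j : ℕ} (hi : i < n) (hj : j < n) :
    ((i : ZMod p) + 1 = (j : ZMod p) + 1) ↔ i = j := by
  constructor
  · intro h
    have h1 : ((i : ℕ) : ZMod p) = ((j : ℕ) : ZMod p) := add_right_cancel h
    rw [ZMod.natCast_eq_natCast_iff'] at h1
    rw [Nat.mod_eq_of_lt (by omega), Nat.mod_eq_of_lt (by omega)] at h1
    exact h1
  · rintro rfl; rfl

lemma half_ne_neg {n : ℕ} (hn : p = 2 * n + 1) {i j : ℕ} (hi : i < n) (hj : j < n) :
    ((i : ZMod p) + 1) ≠ -((j : ZMod p) + 1) := by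
  intro h
  have h1 : ((i + 1 + (j + 1) : ℕ) : ZMod p) = 0 := by
    push_cast
    linear_combination h
  rw [ZMod.natCast_eq_zero_iff] at h1
  have := Nat.le_of_dvd (by omega) h1
  omega

end Pool.Agent.X12
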