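import Pool.Agent.Y733.LS.Fin
import Pool.Agent.TH4.HS.Pl

/-!
# The lower bound for the canonical height over `ℚ`: the simple poles of the invariant
-/

set_option autoImplicit false
set_option linter.unusedSectionVars false

namespace Pool.Agent.X12.Lng

open NumberField IsDedekindDomain Finset Pool.Agent.H691R3 Pool.Agent.W223.AK Pool.Agent.Y733.UD
open Pool.Agent.TH942 Pool.Agent.TH910.LS WeierstrassCurve Pool.Agent.Y733.LS Pool.Agent.TH4.HS

lemma fv_exp {K : Type} [Field K] [NumberField K] (v : Pr K) {x : K} {m : ℤ}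
    (h : v.valuation K x = WithZero.exp m) : fv v x = (Nv v) ^ m := by
  have hx' : v.valuation K x ≠ 0 := by rw [h]; exact WithZero.exp_ne_zero
  have h1 : fv v x = _ := NumberField.FinitePlace.norm_embedding' (v := v) (x := x)
  rw [WithZeroMulInt.toNNReal_neg_apply _ hx'] at h1
  have h2 : Multiplicative.toAdd (WithZero.unzero hx') = m := by
    have h3 : WithZero.unzero hx' = Multiplicative.ofAdd m := by
      apply WithZero.coe_injective
      rw [WithZero.coe_unzero, h]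
      rfl
    rw [h3]
    rfl
  rw [h1, h2]
  push_cast
  rfl

lemma Nv_vp (p : ℕ) (hp : p.Prime) : Nv (vp p hp) = p := by
  unfold Nv
  rw [absNorm_eq, pv_vp]

lemma fv_int (p : ℕ) (hp : p.Prime) (n : ℤ) (k : ℕ) (h1 : (p : ℤ) ^ k ∣ n)
    (h2 : ¬ (p : ℤ) ^ (k + 1) ∣ n) : fv (vp p hp) (n : ℚ) = (p : ℝ) ^ (-(k : ℤ)) := by
  have hn : n ≠ 0 := by rintro rfl; exact h2 (dvd_zero _)
  have hnq : (n : ℚ) ≠ 0 := by exact_mod_cast hn
  set v := vp p hp with hv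
  have hpv : pv v = p := pv_vp p hp
  have hval : v.valuation ℚ (n : ℚ) ≠ 0 := (Valuation.ne_zero_iff _).mpr hnq
  obtain ⟨m, hm⟩ : ∃ m : ℤ, v.valuation ℚ (n : ℚ) = WithZero.exp m := by
    refine ⟨WithZero.log (v.valuation ℚ (n : ℚ)), ?_⟩
    rw [WithZero.exp_log hval]
  have h3 := (val_le_iff v n k).2 (by rw [hpv]; exact h1)
  have h4 : ¬ v.valuation ℚ (n : ℚ) ≤ WithZero.exp (-((k + 1 : ℕ) : ℤ)) := by
    rw [val_le_iff v n (k + 1), hpv]
    exact h2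
  rw [hm, WithZero.exp_le_exp] at h3 h4
  have h5 : m = -(k : ℤ) := by push_cast at h4; omega
  rw [fv_exp v hm, h5, hv, Nv_vp]

/-- the product of the primes `p ≥ 5` with `p ∥ D` -/
def Sq1 (D : ℤ) : ℕ := ∏ p ∈ D.natAbs.primeFactors.filter (fun p => 5 ≤ p ∧ ¬ p ^ 2 ∣ D.natAbs), p

lemma Sq1_pos (D : ℤ) : 0 < Sq1 D := by
  apply Finset.prod_pos
  intro p hp
  rw [Finset.mem_filter] at hp
  exact (Nat.prime_of_mem_primeFactors hp.1).pos

lemma sp_ge (a b : ℤ) :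
    Real.log (Sq1 (4 * a ^ 3 + 27 * b ^ 2) : ℝ) ≤ sp (jj (a : ℚ) (b : ℚ)) := by
  classical
  set D : ℤ := 4 * a ^ 3 + 27 * b ^ 2 with hDd
  have hDq : dl (a : ℚ) (b : ℚ) = ((D : ℤ) : ℚ) := by
    unfold dl
    rw [hDd]
    push_cast
    ring
  set S := D.natAbs.primeFactors.filter (fun p => 5 ≤ p ∧ ¬ p ^ 2 ∣ D.natAbs) with hS
  have hSp : ∀ p ∈ S, p.Prime := fun p hp => Nat.prime_of_mem_primeFactors (Finset.mem_filter.1 hp).1
  set T : Finset (Pr ℚ) := S.attach.image (fun p => vp p.1 (hSp p.1 p.2)) with hT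
  have hinj : Function.Injective (fun p : {x // x ∈ S} => vp p.1 (hSp p.1 p.2)) := by
    intro p q h
    simp only at h
    have h2 : pv (vp p.1 (hSp p.1 p.2)) = pv (vp q.1 (hSp q.1 q.2)) := by rw [h]
    rw [pv_vp, pv_vp] at h2
    exact Subtype.ext h2
  have h0 : ∀ v : Pr ℚ, 0 ≤ if Sp (jj (a : ℚ) (b : ℚ)) v then Real.log (Nv v) else 0 := by
    intro v
    split_ifs
    · exact (log_Nv_pos v).le
    · exact le_rfl
  have h1 := sum_le_fin T (Fs_sp (jj (a : ℚ) (b : ℚ))) h0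
  refine le_trans (le_of_eq ?_) h1
  rw [hT, Finset.sum_image (fun p _ q _ h => hinj h)]
  have h2 : ∀ p : {x // x ∈ S}, (if Sp (jj (a : ℚ) (b : ℚ)) (vp p.1 (hSp p.1 p.2)) then
      Real.log (Nv (vp p.1 (hSp p.1 p.2))) else 0) = Real.log (p.1 : ℝ) := by
    rintro ⟨p, hp⟩
    simp only
    have hpp := hSp p hp
    rw [hS, Finset.mem_filter] at hp
    obtain ⟨hpm, h5, hp2⟩ := hp
    have hpD : (p : ℤ) ∣ D := Int.natCast_dvd.2 (Nat.dvd_of_mem_primeFactors hpm)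
    have hp2' : ¬ (p : ℤ) ^ 2 ∣ D := by
      intro h
      apply hp2
      have := Int.natAbs_dvd_natAbs.2 h
      rwa [Int.natAbs_pow, Int.natAbs_natCast] at this
    have hpZ : Prime (p : ℤ) := Nat.prime_iff_prime_int.1 hpp
    have np : ∀ n : ℤ, ¬ (p : ℤ) ∣ n → fv (vp p hpp) (n : ℚ) = 1 := by
      intro n hn
      have := fv_int p hpp n 0 (by simp) (by simpa using hn)
      simpa using this
    have hnd : ∀ n : ℕ, 0 < n → n < 5 → ¬ (p : ℤ) ∣ (n : ℤ) := by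
      intro n hn hn5 h
      have := Nat.le_of_dvd hn (Int.natCast_dvd_natCast.1 h)
      omega
    have h2' : ¬ (p : ℤ) ∣ 2 := by exact_mod_cast hnd 2 (by norm_num) (by norm_num)
    have h3' : ¬ (p : ℤ) ∣ 3 := by exact_mod_cast hnd 3 (by norm_num) (by norm_num)
    have hpa : ¬ (p : ℤ) ∣ a := by
      intro h
      have h27 : (p : ℤ) ∣ 27 * b ^ 2 := by
        have e : 27 * b ^ 2 = D - 4 * a ^ 3 := by rw [hDd]; ring
        rw [e]
        exact dvd_sub hpD (Dvd.dvd.mul_left (dvd_pow h (by norm_num)) _)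
      have hb : (p : ℤ) ∣ b := by
        rcases hpZ.dvd_or_dvd h27 with h6 | h6
        · exfalso
          have : (27 : ℤ) = 3 ^ 3 := by norm_num
          rw [this] at h6
          exact h3' (hpZ.dvd_of_dvd_pow h6)
        · exact hpZ.dvd_of_dvd_pow h6
      apply hp2'
      obtain ⟨x, hx⟩ := h
      obtain ⟨y, hy⟩ := hb
      refine ⟨4 * p * x ^ 3 + 27 * y ^ 2, ?_⟩
      rw [hDd, hx, hy]
      ring
    have e1 : fv (vp p hpp) (a : ℚ) = 1 := np a hpa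
    have e2 : fv (vp p hpp) ((D : ℤ) : ℚ) = (p : ℝ)⁻¹ := by
      have := fv_int p hpp D 1 (by rw [pow_one]; exact hpD) hp2'
      rw [this]
      simp
    have e3 : fv (vp p hpp) (2 : ℚ) = 1 := by exact_mod_cast np 2 h2'
    have e4 : fv (vp p hpp) (3 : ℚ) = 1 := by exact_mod_cast np 3 h3'
    have e5 : fv (vp p hpp) (6912 : ℚ) = 1 := by
      have : (6912 : ℚ) = 2 ^ 8 * 3 ^ 3 := by norm_num
      rw [this, map_mul, map_pow, map_pow, e3, e4]
      norm_num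
    have e6 : fv (vp p hpp) (jj (a : ℚ) (b : ℚ)) = Nv (vp p hpp) := by
      rw [w_jj, hDq, e5, e1, e2, Nv_vp]
      simp
    rw [if_pos ⟨e3, e4, e6⟩, Nv_vp]
  rw [Finset.sum_congr rfl fun p _ => h2 p, Finset.sum_attach S (fun p => Real.log (p : ℝ))]
  unfold Sq1
  rw [← hS]
  push_cast
  rw [Real.log_prod]
  intro p hp
  exact_mod_cast (hSp p hp).ne_zero

lemma ht_le {a b : ℤ} (ha : a ≠ 0) (hD : 4 * a ^ 3 + 27 * b ^ 2 ≠ 0) :
    ht (jj (a : ℚ) (b : ℚ)) ≤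
      Real.log (max (6912 * |(a : ℝ)| ^ 3) |((4 * a ^ 3 + 27 * b ^ 2 : ℤ) : ℝ)|) := by
  set D : ℤ := 4 * a ^ 3 + 27 * b ^ 2 with hDd
  have e1 : ht (jj (a : ℚ) (b : ℚ)) = Height.logHeight₁ (jj (a : ℚ) (b : ℚ)) := by
    rw [logHeight_eq, ht_eq_Sa]
  set q : ℚ := jj (a : ℚ) (b : ℚ) with hq
  have e2 : q = ((6912 * a ^ 3 : ℤ) : ℚ) / ((D : ℤ) : ℚ) := by
    rw [hq]
    unfold jj
    rw [hDd]
    push_cast
    rfl
  rw [e1, Rat.logHeight₁_eq_log_max]
  have hN : (6912 * a ^ 3 : ℤ) ≠ 0 := mul_ne_zero (by norm_num) (pow_ne_zero _ ha)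
  have e3 : q = Rat.divInt (6912 * a ^ 3) D := by rw [e2, Rat.divInt_eq_div]
  have h1 : q.num ∣ 6912 * a ^ 3 := by rw [e3]; exact Rat.num_dvd _ hD
  have h2 : (q.den : ℤ) ∣ D := by rw [e3]; exact Rat.den_dvd _ _
  have h3 : q.num.natAbs ≤ (6912 * a ^ 3).natAbs := Nat.le_of_dvd (Int.natAbs_pos.2 hN)
    (Int.natAbs_dvd_natAbs.2 h1)
  have h4 : q.den ≤ D.natAbs := Nat.le_of_dvd (Int.natAbs_pos.2 hD) (Int.natCast_dvd.1 h2)
  apply Real.log_le_log
  · have := q.den_pos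
    have h5 : 0 < max q.num.natAbs q.den := lt_max_of_lt_right this
    exact_mod_cast h5
  · push_cast
    apply max_le_max
    · have h6 : ((q.num.natAbs : ℕ) : ℝ) ≤ (((6912 * a ^ 3).natAbs : ℕ) : ℝ) := by exact_mod_cast h3
      refine h6.trans (le_of_eq ?_)
      rw [Nat.cast_natAbs]
      push_cast
      rw [abs_mul, abs_pow]
      norm_num
    · have h6 : ((q.den : ℕ) : ℝ) ≤ ((D.natAbs : ℕ) : ℝ) := by exact_mod_cast h4
      refine h6.trans (le_of_eq ?_)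
      rw [Nat.cast_natAbs]
      push_cast
      rfl

end Pool.Agent.X12.Lng
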