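import Pool.Agent.X12.Lng1
import Pool.Agent.X12.Szp23
import Pool.Agent.X12.Szp17

/-!
# The lower bound for the canonical height: almost all elliptic curves over `ℚ`
-/

set_option autoImplicit false
set_option linter.unusedSectionVars false

namespace Pool.Agent.X12.Lng

open NumberField IsDedekindDomain Finset Filter Topology
open Pool.Agent.TH942 Pool.Agent.TH910.LS WeierstrassCurve Pool.Agent.Y733.LS Pool.Agent.X12.Szp

/-- the lower bound `t` for all points -/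
def Low (t : ℝ) (q : ℤ × ℤ) : Prop :=
  ∀ P : SPt (-(q.1 : ℚ)) (-(q.2 : ℚ)), P ≠ 0 → t ≤ chat P

lemma dl_neg (q : ℤ × ℤ) : 4 * (-(q.1 : ℚ)) ^ 3 + 27 * (-(q.2 : ℚ)) ^ 2 =
    ((-(Dsc q.1 q.2) : ℤ) : ℚ) := by
  unfold Dsc
  push_cast
  ring

lemma two_free {a b : ℚ} (h2 : ∀ x : ℚ, x ^ 3 + a * x + b ≠ 0)
    {P : SPt a b} (hP : P ≠ 0) : ∀ k : ℕ, (2 ^ k : ℕ) • P ≠ 0 := by
  intro k
  induction k with
  | zero => simpa using hP
  | succ k ih =>
    intro h0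
    obtain ⟨x, y, h, hxy⟩ := exists_coord _ ih
    rw [pow_succ, mul_comm, mul_smul, hxy] at h0
    have hy : y = 0 := by
      by_contra hy
      obtain ⟨_, y', h', e⟩ := dup_some h hy
      rw [e] at h0
      exact absurd h0 (by intro h9; cases h9)
    have he : y ^ 2 = x ^ 3 + a * x + b := sw_eqn.1 h.1
    apply h2 x
    rw [← he, hy]
    ring

/-- the lower bound for one curve -/
theorem low_of {q : ℤ × ℤ} (ha : q.1 ≠ 0) (hb : q.2 ≠ 0) (hD : Dsc q.1 q.2 ≠ 0)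
    (h2 : ∀ x : ℚ, x ^ 3 + -(q.1 : ℚ) * x + -(q.2 : ℚ) ≠ 0) {t : ℝ}
    (ht : t ≤ 1 / 12 * Real.log (Sq1 (Dsc q.1 q.2) : ℝ) -
      1 / 24 * Real.log (max (6912 * |(q.1 : ℝ)| ^ 3) |((Dsc q.1 q.2 : ℤ) : ℝ)|) - C3) :
    Low t q := by
  have hDq : 4 * (-(q.1 : ℚ)) ^ 3 + 27 * (-(q.2 : ℚ)) ^ 2 ≠ 0 := by
    rw [dl_neg]
    exact_mod_cast neg_ne_zero.2 hD
  intro Q hQ
  have ha' : (-(q.1 : ℚ)) ≠ 0 := neg_ne_zero.2 (by exact_mod_cast ha)
  have hb' : (-(q.2 : ℚ)) ≠ 0 := neg_ne_zero.2 (by exact_mod_cast hb)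
  have h := chat_ge ha' hb' hDq Q (two_free h2 hQ) ∅ (by simp)
  rw [Finset.sum_empty, mul_zero, add_zero, Module.finrank_self, Nat.cast_one, one_mul] at h
  have hDz : 4 * (-q.1) ^ 3 + 27 * (-q.2) ^ 2 ≠ 0 := by
    have : 4 * (-q.1) ^ 3 + 27 * (-q.2) ^ 2 = -(Dsc q.1 q.2) := by unfold Dsc; ring
    rw [this]
    exact neg_ne_zero.2 hD
  have e0 : 4 * (-q.1) ^ 3 + 27 * (-q.2) ^ 2 = -(Dsc q.1 q.2) := by unfold Dsc; ring
  have h3 := sp_ge (-q.1) (-q.2)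
  have h4 := ht_le (a := -q.1) (b := -q.2) (neg_ne_zero.2 ha) hDz
  have e1 : Sq1 (-(Dsc q.1 q.2)) = Sq1 (Dsc q.1 q.2) := by
    unfold Sq1
    rw [Int.natAbs_neg]
  rw [e0, e1] at h3
  rw [e0] at h4
  push_cast at h3 h4
  rw [abs_neg, abs_neg] at h4
  linarith

/-- the bad primes and the primes dividing the discriminant once -/
lemma Bad_sq {a b : ℤ} (hD : Dsc a b ≠ 0) : (Bad a b) ^ 2 ≤ Sq1 (Dsc a b) * (Dsc a b).natAbs := by
  set n := (Dsc a b).natAbs with hn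
  have hn0 : n ≠ 0 := Int.natAbs_ne_zero.2 hD
  set A := n.primeFactors.filter (fun p => 5 ≤ p) with hA
  set B := n.primeFactors.filter (fun p => 5 ≤ p ∧ ¬ p ^ 2 ∣ n) with hB
  have hBA : B ⊆ A := by
    intro p hp
    rw [hB, Finset.mem_filter] at hp
    rw [hA, Finset.mem_filter]
    exact ⟨hp.1, hp.2.1⟩
  have e1 : Bad a b = (∏ p ∈ A \ B, p) * ∏ p ∈ B, p := (Finset.prod_sdiff hBA).symm
  have e2 : Sq1 (Dsc a b) = ∏ p ∈ B, p := rfl
  rw [e1, e2]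
  have h3 : (∏ p ∈ A \ B, p ^ 2) * ∏ p ∈ B, p ∣ n := by
    have h4 : (∏ p ∈ A \ B, p ^ 2) * ∏ p ∈ B, p = ∏ p ∈ A, if p ∈ B then p else p ^ 2 := by
      rw [← Finset.prod_sdiff hBA]
      congr 1
      · refine Finset.prod_congr rfl fun p hp => ?_
        rw [Finset.mem_sdiff] at hp
        rw [if_neg hp.2]
      · refine Finset.prod_congr rfl fun p hp => ?_
        rw [if_pos hp]
    rw [h4]
    have h5 : ∏ p ∈ A, (if p ∈ B then p else p ^ 2) ∣ ∏ p ∈ A, p ^ n.factorization p := by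
      apply Finset.prod_dvd_prod_of_dvd
      intro p hp
      rw [hA, Finset.mem_filter] at hp
      have hpp := Nat.prime_of_mem_primeFactors hp.1
      have hpn := Nat.dvd_of_mem_primeFactors hp.1
      split_ifs with h6
      · exact dvd_pow_self p (hpp.factorization_pos_of_dvd hn0 hpn).ne'
      · have h7 : p ^ 2 ∣ n := by
          by_contra hcon
          apply h6
          rw [hB, Finset.mem_filter]
          exact ⟨hp.1, hp.2, hcon⟩
        exact pow_dvd_pow p ((hpp.pow_dvd_iff_le_factorization hn0).1 h7)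
    have h6 : ∏ p ∈ A, p ^ n.factorization p ∣ ∏ p ∈ n.primeFactors, p ^ n.factorization p :=
      Finset.prod_dvd_prod_of_subset _ _ _ (Finset.filter_subset _ _)
    have h7 : ∏ p ∈ n.primeFactors, p ^ n.factorization p = n :=
      Nat.prod_factorization_pow_eq_self hn0
    rw [h7] at h6
    exact h5.trans h6
  have h4 := Nat.le_of_dvd (Nat.pos_of_ne_zero hn0) h3
  rw [Finset.prod_pow] at h4
  calc ((∏ p ∈ A \ B, p) * ∏ p ∈ B, p) ^ 2 =
      (∏ p ∈ B, p) * ((∏ p ∈ A \ B, p) ^ 2 * ∏ p ∈ B, p) := by ring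
    _ ≤ _ := Nat.mul_le_mul_left _ h4

end Pool.Agent.X12.Lng
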