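import Pool.Agent.X12.Lng2

/-!
# The lower bound for the canonical height: the count
-/

set_option autoImplicit false
set_option linter.unusedSectionVars false

namespace Pool.Agent.X12.Lng

open NumberField IsDedekindDomain Finset Filter Topology
open Pool.Agent.TH942 Pool.Agent.TH910.LS WeierstrassCurve Pool.Agent.Y733.LS Pool.Agent.X12.Szp
open Pool.Agent.Y679.Fh
open Pool.Agent.TH876.FH (jInv arch ana)

/-- the special curves: invariant `0` or `1728`, or a rational point of order two -/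
def Spc (X : ℝ) : Set (ℤ × ℤ) :=
  {q | Box X q ∧ (q.1 = 0 ∨ q.2 = 0 ∨ ∃ x : ℚ, x ^ 3 + -(q.1 : ℚ) * x + -(q.2 : ℚ) = 0)}

lemma root_int {a b : ℤ} {x : ℚ} (h : x ^ 3 + -(a : ℚ) * x + -(b : ℚ) = 0) :
    ∃ e : ℤ, b = e ^ 3 - a * e ∧ (e : ℚ) = x := by
  have hint : IsIntegral ℤ x := by
    refine ⟨Polynomial.X ^ 3 + (Polynomial.C (-a : ℤ) * Polynomial.X + Polynomial.C (-b : ℤ)), ?_, ?_⟩
    · apply Polynomial.monic_X_pow_add
      refine lt_of_le_of_lt (Polynomial.degree_linear_le) (by norm_num)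
    · have e1 : Polynomial.eval₂ (algebraMap ℤ ℚ) x (Polynomial.C (-a : ℤ)) = -(a : ℚ) := by
        rw [Polynomial.eval₂_C]
        simp
      have e2 : Polynomial.eval₂ (algebraMap ℤ ℚ) x (Polynomial.C (-b : ℤ)) = -(b : ℚ) := by
        rw [Polynomial.eval₂_C]
        simp
      rw [Polynomial.eval₂_add, Polynomial.eval₂_pow, Polynomial.eval₂_X, Polynomial.eval₂_add,
        Polynomial.eval₂_mul, Polynomial.eval₂_X, e1, e2]
      linear_combination h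
  obtain ⟨e, he⟩ := IsIntegrallyClosed.isIntegral_iff.1 hint
  have he' : (e : ℚ) = x := by rw [← he]; rfl
  refine ⟨e, ?_, he'⟩
  rw [← he'] at h
  have : ((b : ℤ) : ℚ) = ((e ^ 3 - a * e : ℤ) : ℚ) := by
    push_cast
    linear_combination -h
  exact_mod_cast this

lemma abs_le_floor {n : ℤ} {Y : ℝ} (h : |(n : ℝ)| ≤ Y) :
    n ∈ Finset.Icc (-(⌊Y⌋₊ : ℤ)) (⌊Y⌋₊ : ℤ) := by
  have h1 : ((n.natAbs : ℕ) : ℝ) ≤ Y := by
    rw [Nat.cast_natAbs]
    push_cast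
    exact h
  have h2 : n.natAbs ≤ ⌊Y⌋₊ := Nat.le_floor h1
  rw [Finset.mem_Icc]
  omega

lemma card_Icc_floor {Y : ℝ} (hY : 0 ≤ Y) :
    ((Finset.Icc (-(⌊Y⌋₊ : ℤ)) (⌊Y⌋₊ : ℤ)).card : ℝ) ≤ 2 * Y + 1 := by
  rw [Int.card_Icc]
  have h1 : (⌊Y⌋₊ : ℝ) ≤ Y := Nat.floor_le hY
  have h2 : (((⌊Y⌋₊ : ℤ) + 1 - -(⌊Y⌋₊ : ℤ)).toNat : ℝ) = 2 * (⌊Y⌋₊ : ℝ) + 1 := by
    have : ((⌊Y⌋₊ : ℤ) + 1 - -(⌊Y⌋₊ : ℤ)).toNat = 2 * ⌊Y⌋₊ + 1 := by omega
    rw [this]
    push_cast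
    ring
  rw [h2]
  linarith

theorem Spc_card {X : ℝ} (hX : 1 ≤ X) : ((Spc X).ncard : ℝ) ≤ 21 * X ^ 3 := by
  classical
  have hX0 : 0 < X := by linarith
  set S1 : Finset (ℤ × ℤ) := (Finset.Icc (-(⌊X ^ 3⌋₊ : ℤ)) (⌊X ^ 3⌋₊ : ℤ)).image fun b => (0, b)
  set S2 : Finset (ℤ × ℤ) := (Finset.Icc (-(⌊X ^ 2⌋₊ : ℤ)) (⌊X ^ 2⌋₊ : ℤ)).image fun a => (a, 0)
  set S3 : Finset (ℤ × ℤ) := ((Finset.Icc (-(⌊X ^ 2⌋₊ : ℤ)) (⌊X ^ 2⌋₊ : ℤ)) ×ˢ
    (Finset.Icc (-(⌊2 * X⌋₊ : ℤ)) (⌊2 * X⌋₊ : ℤ))).image fun t => (t.1, t.2 ^ 3 - t.1 * t.2)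
  have hsub : Spc X ⊆ ((S1 ∪ S2 ∪ S3 : Finset (ℤ × ℤ)) : Set (ℤ × ℤ)) := by
    rintro ⟨a, b⟩ ⟨⟨h1, h2⟩, h3⟩
    simp only at h1 h2 h3
    rw [Finset.coe_union, Finset.coe_union]
    rcases h3 with h3 | h3 | ⟨x, h3⟩
    · left; left
      rw [Finset.mem_coe, Finset.mem_image]
      exact ⟨b, abs_le_floor h2, by rw [h3]⟩
    · left; right
      rw [Finset.mem_coe, Finset.mem_image]
      exact ⟨a, abs_le_floor h1, by rw [h3]⟩
    · right
      obtain ⟨e, he, -⟩ := root_int h3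
      rw [Finset.mem_coe, Finset.mem_image]
      refine ⟨(a, e), Finset.mem_product.2 ⟨abs_le_floor h1, abs_le_floor ?_⟩, by rw [he]⟩
      by_contra hcon
      push Not at hcon
      have hbR : (b : ℝ) = (e : ℝ) ^ 3 - a * e := by exact_mod_cast he
      have e1 : |(e : ℝ)| ^ 3 ≤ X ^ 3 + X ^ 2 * |(e : ℝ)| := by
        have e2 : (e : ℝ) ^ 3 = b + a * e := by rw [hbR]; ring
        calc |(e : ℝ)| ^ 3 = |(b : ℝ) + a * e| := by rw [← abs_pow, e2]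
          _ ≤ |(b : ℝ)| + |(a : ℝ) * e| := abs_add_le _ _
          _ = |(b : ℝ)| + |(a : ℝ)| * |(e : ℝ)| := by rw [abs_mul]
          _ ≤ X ^ 3 + X ^ 2 * |(e : ℝ)| := by gcongr
      set y := |(e : ℝ)| with hy
      have h5 : (2 * X) ^ 2 * y ≤ y ^ 3 := by
        have : (2 * X) ^ 2 ≤ y ^ 2 := by gcongr
        nlinarith
      nlinarith [pow_pos hX0 2, pow_pos hX0 3]
  have hc1 : (S1.card : ℝ) ≤ 2 * X ^ 3 + 1 :=
    le_trans (by exact_mod_cast Finset.card_image_le) (card_Icc_floor (by positivity))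
  have hc2 : (S2.card : ℝ) ≤ 2 * X ^ 2 + 1 :=
    le_trans (by exact_mod_cast Finset.card_image_le) (card_Icc_floor (by positivity))
  have hc3 : (S3.card : ℝ) ≤ (2 * X ^ 2 + 1) * (2 * (2 * X) + 1) := by
    have h1 : (S3.card : ℝ) ≤ ((Finset.Icc (-(⌊X ^ 2⌋₊ : ℤ)) (⌊X ^ 2⌋₊ : ℤ)).card : ℝ) *
        ((Finset.Icc (-(⌊2 * X⌋₊ : ℤ)) (⌊2 * X⌋₊ : ℤ)).card : ℝ) := by
      have := Finset.card_image_le (s := (Finset.Icc (-(⌊X ^ 2⌋₊ : ℤ)) (⌊X ^ 2⌋₊ : ℤ)) ×ˢ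
        (Finset.Icc (-(⌊2 * X⌋₊ : ℤ)) (⌊2 * X⌋₊ : ℤ))) (f := fun t => (t.1, t.2 ^ 3 - t.1 * t.2))
      rw [Finset.card_product] at this
      exact_mod_cast this
    refine h1.trans (mul_le_mul (card_Icc_floor (by positivity)) (card_Icc_floor (by positivity))
      (Nat.cast_nonneg _) (by positivity))
  have h1 : (Spc X).ncard ≤ S1.card + S2.card + S3.card := by
    refine (Set.ncard_le_ncard hsub (Finset.finite_toSet _)).trans ?_
    rw [Set.ncard_coe_finset]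
    exact (Finset.card_union_le _ _).trans (Nat.add_le_add_right (Finset.card_union_le _ _) _)
  have h2 : ((Spc X).ncard : ℝ) ≤ S1.card + S2.card + S3.card := by exact_mod_cast h1
  have hX2 : X ^ 2 ≤ X ^ 3 := pow_le_pow_right₀ hX (by norm_num)
  have hX1 : X ≤ X ^ 3 := by
    calc X = X ^ 1 := (pow_one X).symm
      _ ≤ X ^ 3 := pow_le_pow_right₀ hX (by norm_num)
  have h1X : 1 ≤ X ^ 3 := one_le_pow₀ hX
  have h3 : (2 * X ^ 2 + 1) * (2 * (2 * X) + 1) = 8 * X ^ 3 + 2 * X ^ 2 + 4 * X + 1 := by ring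
  rw [h3] at hc3
  linarith

/-- the curves which do not satisfy the bound -/
def SL (c : ℝ) : Set (ℤ × ℤ) :=
  {q | IsMn q.1 q.2 ∧ ∃ τ : UpperHalfPlane, IsPr q τ ∧ ¬ Low (c * max (hE q τ) 1) q}

theorem SL_top (c : ℝ) (hc : 0 < c) : ∃ K : ℝ, 0 < K ∧ ∀ X : ℝ, 1 ≤ X →
    {q ∈ SL c | Box X q ∧ ¬ Box (X / 2) q} ⊆ TopM (K * X ^ (3 * c + 9 / 2)) X ∪ Spc X := by
  obtain ⟨C, hC⟩ := fh_le
  set C1 : ℝ := max ((C + Real.log 746496) / 12) 1 with hC1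
  set C2 : ℝ := c * C1 + Real.log 31 / 12 + Real.log 6912 / 24 + C3 with hC2
  refine ⟨Real.exp (6 * C2), Real.exp_pos _, fun X hX => ?_⟩
  rintro q ⟨⟨hmin, τ, hτ, hlow⟩, hbox, hnot⟩
  have hX0 : 0 < X := by linarith
  by_cases hs : q ∈ Spc X
  · exact Or.inr hs
  left
  have hD : Dsc q.1 q.2 ≠ 0 := hmin.1
  have h0 : (Ez' q).Δ ≠ 0 := by
    rw [Ez'_disc]
    exact mul_ne_zero (by norm_num) hD
  have ha : q.1 ≠ 0 := fun h => hs ⟨hbox, Or.inl h⟩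
  have hb : q.2 ≠ 0 := fun h => hs ⟨hbox, Or.inr (Or.inl h)⟩
  have h2t : ∀ x : ℚ, x ^ 3 + -(q.1 : ℚ) * x + -(q.2 : ℚ) ≠ 0 :=
    fun x h => hs ⟨hbox, Or.inr (Or.inr ⟨x, h⟩)⟩
  refine ⟨hD, not_dvd_of_isMn hmin, hbox, ?_, ?_⟩
  · by_contra hcon
    push Not at hcon
    apply hnot
    constructor
    · have : (X / 2) ^ 2 = X ^ 2 / 4 := by ring
      rw [this]
      exact hcon.1.le
    · have : (X / 2) ^ 3 = X ^ 3 / 8 := by ring
      rw [this]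
      exact hcon.2.le
  · by_contra hcon
    push Not at hcon
    apply hlow
    set L := Real.log X with hL
    have hL0 : 0 ≤ L := Real.log_nonneg hX
    -- the height
    have h1 := hC (Ez' q) h0 τ ((IsPr_iff q τ).1 hτ)
    have h1' := (hE_fh hmin τ).2
    have h2 := Real.log_le_log (by linarith [cH_pos h0]) (cH_Ez q hbox)
    rw [Real.log_mul (by norm_num) (by positivity), Real.log_pow] at h2
    push_cast at h2
    have hmax : max (hE q τ) 1 ≤ L / 2 + C1 := by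
      apply max_le
      · have : (C + Real.log 746496) / 12 ≤ C1 := le_max_left _ _
        linarith
      · have : 1 ≤ C1 := le_max_right _ _
        linarith
    have hB0 : (0 : ℝ) < (Bad q.1 q.2 : ℝ) := Bad_pos' q
    have hS0 : (0 : ℝ) < (Sq1 (Dsc q.1 q.2) : ℝ) := by exact_mod_cast Sq1_pos _
    have hD0 : (0 : ℝ) < |((Dsc q.1 q.2 : ℤ) : ℝ)| := abs_pos.2 (by exact_mod_cast hD)
    have h3 : 2 * Real.log (Bad q.1 q.2 : ℝ) ≤
        Real.log (Sq1 (Dsc q.1 q.2) : ℝ) + Real.log |((Dsc q.1 q.2 : ℤ) : ℝ)| := by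
      have h4 : ((Bad q.1 q.2 : ℕ) : ℝ) ^ 2 ≤
          (Sq1 (Dsc q.1 q.2) : ℝ) * |((Dsc q.1 q.2 : ℤ) : ℝ)| := by
        have h5 := Bad_sq hD
        have h6 : (((Dsc q.1 q.2).natAbs : ℕ) : ℝ) = |((Dsc q.1 q.2 : ℤ) : ℝ)| := by
          rw [Nat.cast_natAbs]
          push_cast
          rfl
        rw [← h6]
        exact_mod_cast h5
      have h5 := Real.log_le_log (by positivity) h4
      rw [Real.log_mul hS0.ne' hD0.ne', Real.log_pow] at h5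
      push_cast at h5
      linarith
    have h4 : Real.log |((Dsc q.1 q.2 : ℤ) : ℝ)| ≤ Real.log 31 + 6 * L := by
      have h5 := Real.log_le_log hD0 (Dsc_le hbox.1 hbox.2)
      rw [Real.log_mul (by norm_num) (by positivity), Real.log_pow] at h5
      push_cast at h5
      exact h5
    have h5 : 6 * C2 + (3 * c + 9 / 2) * L ≤ Real.log (Bad q.1 q.2 : ℝ) := by
      have h6 := Real.log_le_log (by positivity) hcon.le
      rw [Real.log_mul (Real.exp_pos _).ne' (Real.rpow_pos_of_pos hX0 _).ne', Real.log_exp,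
        Real.log_rpow hX0] at h6
      exact h6
    have h6 : Real.log (max (6912 * |(q.1 : ℝ)| ^ 3) |((Dsc q.1 q.2 : ℤ) : ℝ)|) ≤
        Real.log 6912 + 6 * L := by
      have h7 : max (6912 * |(q.1 : ℝ)| ^ 3) |((Dsc q.1 q.2 : ℤ) : ℝ)| ≤ 6912 * X ^ 6 := by
        apply max_le
        · have : |(q.1 : ℝ)| ^ 3 ≤ (X ^ 2) ^ 3 := by
            have := hbox.1
            gcongr
          have e : (X ^ 2) ^ 3 = X ^ 6 := by ring
          rw [e] at this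
          linarith
        · have := Dsc_le hbox.1 hbox.2
          have h8 : 0 < X ^ 6 := by positivity
          linarith
      have h8 := Real.log_le_log (lt_max_of_lt_right hD0) h7
      rw [Real.log_mul (by norm_num) (by positivity), Real.log_pow] at h8
      push_cast at h8
      exact h8
    have hc1 : c * max (hE q τ) 1 ≤ c * (L / 2 + C1) := mul_le_mul_of_nonneg_left hmax hc.le
    refine low_of ha hb hD h2t (hc1.trans ?_)
    have hC2' : C2 = c * C1 + Real.log 31 / 12 + Real.log 6912 / 24 + C3 := hC2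
    nlinarith

theorem SL_box (c ε : ℝ) (hc : 0 < c) (hε : 0 < ε) : ∃ K : ℝ, 0 < K ∧ ∀ X : ℝ, 1 ≤ X →
    (({q ∈ SL c | Box X q}.ncard : ℕ) : ℝ) ≤ K * X ^ (max (19 / 5 + 12 / 5 * c) 4 + ε) := by
  obtain ⟨K, hK, h1⟩ := SL_top c hc
  obtain ⟨C, hC, h2⟩ := topM_le ε hε
  set g := max (19 / 5 + 12 / 5 * c) 4 with hg
  have hg4 : (4 : ℝ) ≤ g := le_max_right _ _
  set K' := K ^ (4 / 5 : ℝ) with hK'
  have hK'0 : 0 < K' := by positivity
  refine dyadic (SL c) (C * (K' + 1) + 21) (g + ε) (by positivity) (by linarith) fun X hX => ?_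
  have hX0 : 0 < X := by linarith
  have hfin : (TopM (K * X ^ (3 * c + 9 / 2)) X ∪ Spc X).Finite :=
    (TopM_finite _ _).union ((Box_finite X).subset fun q hq => hq.1)
  have e1 : (({q ∈ SL c | Box X q ∧ ¬ Box (X / 2) q}.ncard : ℕ) : ℝ) ≤
      ((TopM (K * X ^ (3 * c + 9 / 2)) X).ncard : ℝ) + ((Spc X).ncard : ℝ) := by
    exact_mod_cast (Set.ncard_le_ncard (h1 X hX) hfin).trans (Set.ncard_union_le _ _)
  have e0 := h2 (K * X ^ (3 * c + 9 / 2)) X (by positivity) hX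
  have e2 : X ^ 2 * YY X (K * X ^ (3 * c + 9 / 2)) = K' * X ^ (19 / 5 + 12 / 5 * c) := by
    unfold YY
    have k1 : X ^ 3 = X ^ (3 : ℝ) := by
      rw [show (3 : ℝ) = ((3 : ℕ) : ℝ) by norm_num, Real.rpow_natCast]
    have k2 : X ^ 2 = X ^ (2 : ℝ) := by
      rw [show (2 : ℝ) = ((2 : ℕ) : ℝ) by norm_num, Real.rpow_natCast]
    have k3 : K * X ^ (3 * c + 9 / 2) / X ^ 3 = K * X ^ (3 * c + 9 / 2 - 3) := by
      rw [k1, Real.rpow_sub hX0]
      ring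
    rw [k3, Real.mul_rpow hK.le (by positivity), ← Real.rpow_mul hX0.le, k1, k2,
      ← Real.rpow_mul hX0.le, ← hK']
    calc X ^ (2 : ℝ) * (X ^ ((3 : ℝ) * (1 / 5)) * (K' * X ^ ((3 * c + 9 / 2 - 3) * (4 / 5)))) =
        K' * (X ^ (2 : ℝ) * (X ^ ((3 : ℝ) * (1 / 5)) * X ^ ((3 * c + 9 / 2 - 3) * (4 / 5)))) := by
          ring
      _ = K' * X ^ (19 / 5 + 12 / 5 * c) := by
        rw [← Real.rpow_add hX0, ← Real.rpow_add hX0]
        congr 2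
        ring
  have e3 : X ^ (19 / 5 + 12 / 5 * c) ≤ X ^ g :=
    Real.rpow_le_rpow_of_exponent_le hX (le_max_left _ _)
  have e4 : X ^ (4 : ℝ) ≤ X ^ g := Real.rpow_le_rpow_of_exponent_le hX hg4
  rw [e2] at e0
  have e6 : X ^ (g + ε) = X ^ g * X ^ ε := Real.rpow_add hX0 _ _
  have e5 : 0 < X ^ ε := Real.rpow_pos_of_pos hX0 _
  have e7 : K' * X ^ (19 / 5 + 12 / 5 * c) + X ^ (4 : ℝ) ≤ K' * X ^ g + X ^ g :=
    add_le_add (mul_le_mul_of_nonneg_left e3 hK'0.le) e4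
  have e8 : X ^ 3 ≤ X ^ (g + ε) := by
    rw [← Real.rpow_natCast X 3]
    apply Real.rpow_le_rpow_of_exponent_le hX
    push_cast
    linarith
  have e9 := Spc_card hX
  calc (({q ∈ SL c | Box X q ∧ ¬ Box (X / 2) q}.ncard : ℕ) : ℝ) ≤
      C * X ^ ε * (K' * X ^ (19 / 5 + 12 / 5 * c) + X ^ (4 : ℝ)) + 21 * X ^ 3 := by linarith
    _ ≤ C * X ^ ε * (K' * X ^ g + X ^ g) + 21 * X ^ (g + ε) :=
        add_le_add (mul_le_mul_of_nonneg_left e7 (by positivity)) (by linarith)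
    _ = (C * (K' + 1) + 21) * X ^ (g + ε) := by rw [e6]; ring

/-- the exceptional curves with `h_F ≤ log B` -/
def EH (c B : ℝ) : Set (ℤ × ℤ) :=
  {q | ∃ τ : UpperHalfPlane, IsMn q.1 q.2 ∧ IsPr q τ ∧ hE q τ ≤ Real.log B ∧
    ¬ Low (c * max (hE q τ) 1) q}

theorem EH_sub (c B : ℝ) : EH c B ⊆ AH B ∩ SL c := by
  rintro q ⟨τ, h0, h1, h2, h3⟩
  exact ⟨⟨τ, h0, h1, h2⟩, h0, τ, h1, h3⟩

theorem EH_finite (c : ℝ) {B : ℝ} (hB : 1 ≤ B) : (EH c B).Finite :=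
  (AH_finite hB).subset fun _ hq => (EH_sub _ _ hq).1

/-- **the number of the exceptional curves** -/
theorem EH_upper (c ε : ℝ) (hc : 0 < c) (hε : 0 < ε) : ∃ C : ℝ, 0 < C ∧ ∀ B : ℝ, 1 ≤ B →
    ((EH c B).ncard : ℝ) ≤ C * B ^ (max (38 / 5 + 24 / 5 * c) 8 + ε) := by
  set g := max (19 / 5 + 12 / 5 * c) 4 with hg
  have hgg : max (38 / 5 + 24 / 5 * c) 8 = 2 * g := by
    rw [hg, mul_max_of_nonneg _ _ (by norm_num)]
    congr 1
    · ring
    · norm_num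
  rw [hgg]
  have hg4 : (4 : ℝ) ≤ g := le_max_right _ _
  set δ := min 1 (ε / (4 * (g + 1))) with hδdef
  have hδ : 0 < δ := lt_min one_pos (by positivity)
  have hδ1 : δ ≤ 1 := min_le_left _ _
  have hδ2 : δ * (g + 1) ≤ ε / 4 := by
    have : δ ≤ ε / (4 * (g + 1)) := min_le_right _ _
    rw [le_div_iff₀ (by positivity)] at this
    linarith
  obtain ⟨K, hK, h1⟩ := AH_box δ hδ
  set ε' := min 1 (ε / 8) with hε'def
  have hε' : 0 < ε' := lt_min one_pos (by positivity)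
  have hε'1 : ε' ≤ 1 := min_le_left _ _
  have hε'2 : ε' ≤ ε / 8 := min_le_right _ _
  obtain ⟨M, hM, h2⟩ := SL_box c ε' hc hε'
  refine ⟨M * K ^ (g + ε'), by positivity, fun B hB => ?_⟩
  have hB0 : 0 < B := by linarith
  have h3 : 1 ≤ K * B ^ (2 + δ) :=
    one_le_mul_of_one_le_of_one_le hK (Real.one_le_rpow hB (by positivity))
  have h4 : EH c B ⊆ {q ∈ SL c | Box (K * B ^ (2 + δ)) q} :=
    fun q hq => ⟨(EH_sub _ _ hq).2, h1 B hB (EH_sub _ _ hq).1⟩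
  have h5 := Set.ncard_le_ncard h4 ((Box_finite _).subset fun q hq => hq.2)
  have h6 := h2 (K * B ^ (2 + δ)) h3
  have h7 : ((EH c B).ncard : ℝ) ≤ M * (K * B ^ (2 + δ)) ^ (g + ε') :=
    le_trans (by exact_mod_cast h5) h6
  refine h7.trans ?_
  rw [Real.mul_rpow (by linarith) (by positivity), ← Real.rpow_mul hB0.le, ← mul_assoc]
  refine mul_le_mul_of_nonneg_left (Real.rpow_le_rpow_of_exponent_le hB ?_) (by positivity)
  have e1 : (2 + δ) * (g + ε') = 2 * g + 2 * ε' + δ * (g + ε') := by ring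
  have e2 : δ * (g + ε') ≤ δ * (g + 1) := by gcongr
  rw [e1]
  linarith

end Pool.Agent.X12.Lng
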