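import Pool.Agent.X12.Lng3
import Pool.Agent.Y725.LS.Final

/-!
# The strong alternative for all forms of the powers of almost all elliptic curves over `ℚ`
-/

set_option autoImplicit false
set_option linter.unusedSectionVars false

namespace Pool.Agent.X12.Lng

open Height NumberField IsDedekindDomain Module Finset TH951
open TH951.LS (GoodRed)
open Pool.Agent.TH942 (sw sw_ell SPt)
open Pool.Agent.TH910.LS Pool.Agent.Y725.LS
open Pool.Agent.X12.Szp (Dsc Bad Bad_pos Bad_pos' IsMn)
open Pool.Agent.TH4.HS (vp pv pv_vp)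

/-- good reduction implies that the invariant is integral -/
theorem good_j {L : Type} [Field L] [NumberField L] (w : FinitePlace L) (W : WeierstrassCurve L)
    [W.IsElliptic] (h : GoodRed w.val W) : w.val W.j ≤ 1 := by
  obtain ⟨C, h1, h2, h3, h4, h6, hΔ⟩ := h
  have hna := TH951.LS.na_val w
  have hnat : ∀ n : ℕ, w.val (n : L) ≤ 1 := fun n => NF.natCast_le_one w n
  have n4 : w.val (4 : L) ≤ 1 := by exact_mod_cast hnat 4
  have n2 : w.val (2 : L) ≤ 1 := by exact_mod_cast hnat 2
  have n24 : w.val (24 : L) ≤ 1 := by exact_mod_cast hnat 24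
  have hb2 : w.val (C • W).b₂ ≤ 1 := by
    rw [WeierstrassCurve.b₂]
    refine (hna _ _).trans (max_le ?_ ?_)
    · rw [map_pow]
      exact pow_le_one₀ (w.val.nonneg _) h1
    · rw [map_mul]
      exact mul_le_one₀ n4 (w.val.nonneg _) h2
  have hb4 : w.val (C • W).b₄ ≤ 1 := by
    rw [WeierstrassCurve.b₄]
    refine (hna _ _).trans (max_le ?_ ?_)
    · rw [map_mul]
      exact mul_le_one₀ n2 (w.val.nonneg _) h4
    · rw [map_mul]
      exact mul_le_one₀ h1 (w.val.nonneg _) h3
  have hc4 : w.val (C • W).c₄ ≤ 1 := by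
    rw [WeierstrassCurve.c₄, sub_eq_add_neg]
    refine (hna _ _).trans (max_le ?_ ?_)
    · rw [map_pow]
      exact pow_le_one₀ (w.val.nonneg _) hb2
    · rw [AbsoluteValue.map_neg, map_mul]
      exact mul_le_one₀ n24 (w.val.nonneg _) hb4
  have hjj : (C • W).j * (C • W).Δ = (C • W).c₄ ^ 3 := by
    rw [WeierstrassCurve.j, ← (C • W).coe_Δ', mul_comm, ← mul_assoc, Units.mul_inv, one_mul]
  rw [← WeierstrassCurve.variableChange_j W C]
  have e1 : w.val (C • W).j = w.val (C • W).c₄ ^ 3 := by
    rw [← map_pow, ← hjj, map_mul, hΔ, mul_one]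
  rw [e1]
  exact pow_le_one₀ (w.val.nonneg _) hc4

/-- **the truncated Szpiro-type bound** -/
theorem szp {K : Type} [Field K] [NumberField K] {j : K} (F0 : Finset (FinitePlace K))
    (hF0 : ∀ v ∈ F0, 1 < v.val j)
    (hj : logHeight₁ j ≤ 2 * ∑ v ∈ F0, Real.log (NF.Nm v)) {a b : 𝓞 K}
    (hab : 4 * (a : K) ^ 3 + 27 * (b : K) ^ 2 ≠ 0) (hjab : jinv (a : K) b = j)
    (L : Type) [Field L] [NumberField L] [Algebra K L] {δ : ℝ} (hδ : 0 ≤ δ) :
    SzpiroLe 2 δ 0 1 a b L := by
  classical
  choose up hup using exists_above (K := K) (L := L)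
  refine ⟨∅, F0.image up, by simp, ?_, ?_⟩
  · intro w hw
    obtain ⟨v, hv, rfl⟩ := Finset.mem_image.1 hw
    left
    intro hgood
    have hab' : 4 * (algebraMap K L a) ^ 3 + 27 * (algebraMap K L b) ^ 2 ≠ 0 := by
      have h1 : algebraMap K L (4 * (a : K) ^ 3 + 27 * (b : K) ^ 2) ≠ 0 := by
        rw [ne_eq, map_eq_zero]
        exact hab
      rw [map_add, map_mul, map_mul, map_pow, map_pow, map_ofNat, map_ofNat] at h1
      exact h1
    haveI hell := sw_ell hab'
    have h2 := good_j (up v) _ hgood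
    rw [jinv_eq _ _ hell] at h2
    have e1 : jinv (algebraMap K L (a : K)) (algebraMap K L (b : K)) = algebraMap K L j := by
      rw [← hjab]
      unfold jinv
      rw [map_div₀, map_add, map_mul, map_mul, map_mul, map_pow, map_pow, map_ofNat, map_ofNat,
        map_ofNat]
    rw [e1, ext_apply (K := K), hup] at h2
    have hv' : 1 < v.val j := hF0 v hv
    have h3 : 1 < v.val j ^ ldeg K (up v) := one_lt_pow₀ hv' (ldeg_pos K (up v)).ne'
    linarith
  · intro S hS
    rw [hjab]
    have hinj : Set.InjOn up (F0 : Set (FinitePlace K)) := by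
      intro v₁ _ v₂ _ h
      rw [← hup v₁, ← hup v₂, h]
    rw [Finset.sum_image hinj]
    have h1 : ∑ v ∈ F0, Real.log (NF.Nm v) ≤
        ∑ v ∈ F0, Real.log (Ideal.absNorm (up v).maximalIdeal.asIdeal) := by
      refine Finset.sum_le_sum fun v _ => ?_
      have h2 := Nm_below K (up v)
      rw [hup v] at h2
      have h3 : NF.Nm v ≤ Ideal.absNorm (up v).maximalIdeal.asIdeal := by
        have h4 : Ideal.absNorm (up v).maximalIdeal.asIdeal = NF.Nm (up v) := rfl
        rw [h4, h2]
        refine Nat.le_self_pow ?_ _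
        have := inert_pos K (up v)
        rw [hup v] at this
        exact this.ne'
      have h5 : 0 < NF.Nm v := by
        have := NF.one_lt_Nm v
        omega
      exact Real.log_le_log (by exact_mod_cast h5) (by exact_mod_cast h3)
    have h2 : ∑ v ∈ S, Real.log (v.val j) ≤ logHeight₁ j := by
      have h3 := FE.posLog_sum_le j S
      have h4 : (0 : ℝ) ≤ ∑ v : InfinitePlace K, (v.mult : ℝ) * Real.posLog (v.val j) :=
        Finset.sum_nonneg fun v _ => mul_nonneg (Nat.cast_nonneg _) Real.posLog_nonneg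
      have h5 : ∑ v ∈ S, Real.log (v.val j) ≤ ∑ v ∈ S, Real.posLog (v.val j) :=
        Finset.sum_le_sum fun v _ => by
          rw [Real.posLog]
          exact le_max_right _ _
      linarith
    have h3 : 0 ≤ δ * logHeight₁ j := mul_nonneg hδ (zero_le_logHeight₁ j)
    linarith

end Pool.Agent.X12.Lng
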