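import Pool.Agent.X12.Lng4

/-!
# The strong alternative: one criterion, and the count of the exceptions
-/

set_option autoImplicit false
set_option linter.unusedSectionVars false

namespace Pool.Agent.X12.Lng

open Height NumberField IsDedekindDomain Module Finset TH951
open Pool.Agent.TH942 (sw sw_ell SPt)
open Pool.Agent.TH910.LS Pool.Agent.Y725.LS
open Pool.Agent.X12.Szp (Dsc Bad Bad_pos Bad_pos' IsMn)
open Pool.Agent.TH4.HS (vp pv pv_vp absNorm_eq)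
open Pool.Agent.H691R3 (fv Nv)

/-- the naive height -/
noncomputable def nh (q : ℤ × ℤ) : ℝ := max (4 * |(q.1 : ℝ)| ^ 3) (27 * (q.2 : ℝ) ^ 2)

/-- a prime `p ≥ 5` with `p ∥ D` is a simple pole of `j` -/
lemma pole_eq {a b : ℤ} {p : ℕ} (hpp : p.Prime) (h5 : 5 ≤ p)
    (hpD : (p : ℤ) ∣ 4 * a ^ 3 + 27 * b ^ 2) (hp2 : ¬ (p : ℤ) ^ 2 ∣ 4 * a ^ 3 + 27 * b ^ 2) :
    fv (vp p hpp) (jinv (a : ℚ) (b : ℚ)) = p := by
  set D : ℤ := 4 * a ^ 3 + 27 * b ^ 2 with hDd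
  have hpZ : Prime (p : ℤ) := Nat.prime_iff_prime_int.1 hpp
  have np : ∀ n : ℤ, ¬ (p : ℤ) ∣ n → fv (vp p hpp) (n : ℚ) = 1 := by
    intro n hn
    have := fv_int p hpp n 0 (by simp) (by simpa using hn)
    simpa using this
  have hnd : ∀ n : ℕ, 0 < n → n < 5 → ¬ (p : ℤ) ∣ (n : ℤ) := by
    intro n hn hn5 h
    have := Nat.le_of_dvd hn (Int.natCast_dvd_natCast.1 h)
    omega
  have h2' : ¬ (p : ℤ) ∣ 2 := by exact_mod_cast hnd 2 (by norm_num) (by norm_num)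
  have h3' : ¬ (p : ℤ) ∣ 3 := by exact_mod_cast hnd 3 (by norm_num) (by norm_num)
  have hpa : ¬ (p : ℤ) ∣ a := by
    intro h
    have h27 : (p : ℤ) ∣ 27 * b ^ 2 := by
      have e : 27 * b ^ 2 = D - 4 * a ^ 3 := by rw [hDd]; ring
      rw [e]
      exact dvd_sub hpD (Dvd.dvd.mul_left (dvd_pow h (by norm_num)) _)
    have hb : (p : ℤ) ∣ b := by
      rcases hpZ.dvd_or_dvd h27 with h6 | h6
      · exfalso
        have : (27 : ℤ) = 3 ^ 3 := by norm_num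
        rw [this] at h6
        exact h3' (hpZ.dvd_of_dvd_pow h6)
      · exact hpZ.dvd_of_dvd_pow h6
    apply hp2
    obtain ⟨x, hx⟩ := h
    obtain ⟨y, hy⟩ := hb
    refine ⟨4 * p * x ^ 3 + 27 * y ^ 2, ?_⟩
    rw [hDd, hx, hy]
    ring
  have e1 : fv (vp p hpp) (a : ℚ) = 1 := np a hpa
  have e2 : fv (vp p hpp) ((D : ℤ) : ℚ) = (p : ℝ)⁻¹ := by
    have := fv_int p hpp D 1 (by rw [pow_one]; exact hpD) hp2
    rw [this]
    simp
  have e3 : fv (vp p hpp) (2 : ℚ) = 1 := by exact_mod_cast np 2 h2'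
  have e4 : fv (vp p hpp) (3 : ℚ) = 1 := by exact_mod_cast np 3 h3'
  have e5 : fv (vp p hpp) (6912 : ℚ) = 1 := by
    have : (6912 : ℚ) = 2 ^ 8 * 3 ^ 3 := by norm_num
    rw [this, map_mul, map_pow, map_pow, e3, e4]
    norm_num
  have e6 : jinv (a : ℚ) (b : ℚ) = 6912 * (a : ℚ) ^ 3 / ((D : ℤ) : ℚ) := by
    unfold jinv
    rw [hDd]
    push_cast
    rfl
  rw [e6, map_div₀, map_mul, map_pow, e5, e1, e2]
  simp

/-- the places of the simple poles -/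
lemma simple_places (a b : ℤ) :
    ∃ F0 : Finset (FinitePlace ℚ), (∀ v ∈ F0, 1 < v.val (jinv (a : ℚ) (b : ℚ))) ∧
      ∑ v ∈ F0, Real.log (NF.Nm v) = Real.log (Sq1 (4 * a ^ 3 + 27 * b ^ 2) : ℝ) ∧
      Real.log (Sq1 (4 * a ^ 3 + 27 * b ^ 2) : ℝ) ≤ logHeight₁ (jinv (a : ℚ) (b : ℚ)) := by
  classical
  set D : ℤ := 4 * a ^ 3 + 27 * b ^ 2 with hDd
  set S := D.natAbs.primeFactors.filter (fun p => 5 ≤ p ∧ ¬ p ^ 2 ∣ D.natAbs) with hS
  have hSp : ∀ p ∈ S, p.Prime := fun p hp => Nat.prime_of_mem_primeFactors (Finset.mem_filter.1 hp).1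
  set up : {x // x ∈ S} → FinitePlace ℚ := fun p => FinitePlace.mk (vp p.1 (hSp p.1 p.2)) with hup
  have hinj : Function.Injective up := by
    intro p q h
    have h1 : vp p.1 (hSp p.1 p.2) = vp q.1 (hSp q.1 q.2) := FinitePlace.mk_eq_iff.1 h
    have h2 : pv (vp p.1 (hSp p.1 p.2)) = pv (vp q.1 (hSp q.1 q.2)) := by rw [h1]
    rw [pv_vp, pv_vp] at h2
    exact Subtype.ext h2
  have hval : ∀ p : {x // x ∈ S}, (up p).val (jinv (a : ℚ) (b : ℚ)) = (p.1 : ℝ) := by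
    rintro ⟨p, hp⟩
    have hpp := hSp p hp
    have hp' := hp
    rw [hS, Finset.mem_filter] at hp'
    obtain ⟨hpm, h5, hp2⟩ := hp'
    have hpD : (p : ℤ) ∣ D := Int.natCast_dvd.2 (Nat.dvd_of_mem_primeFactors hpm)
    have hp2' : ¬ (p : ℤ) ^ 2 ∣ D := by
      intro h
      apply hp2
      have := Int.natAbs_dvd_natAbs.2 h
      rwa [Int.natAbs_pow, Int.natAbs_natCast] at this
    exact pole_eq hpp h5 hpD hp2'
  have hNm : ∀ p : {x // x ∈ S}, (NF.Nm (up p) : ℝ) = (p.1 : ℝ) := by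
    rintro ⟨p, hp⟩
    unfold NF.Nm
    rw [hup]
    simp only
    rw [FinitePlace.maximalIdeal_mk, absNorm_eq, pv_vp]
  have hlogS : ∑ p ∈ S.attach, Real.log (p.1 : ℝ) = Real.log (Sq1 D : ℝ) := by
    rw [Finset.sum_attach S (fun p => Real.log (p : ℝ))]
    unfold Sq1
    rw [← hS]
    push_cast
    rw [Real.log_prod]
    intro p hp
    exact_mod_cast (hSp p hp).ne_zero
  refine ⟨S.attach.image up, ?_, ?_, ?_⟩
  · intro v hv
    obtain ⟨p, -, rfl⟩ := Finset.mem_image.1 hv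
    rw [hval p]
    exact_mod_cast (hSp p.1 p.2).one_lt
  · rw [Finset.sum_image (fun p _ q _ h => hinj h), ← hlogS]
    exact Finset.sum_congr rfl fun p _ => by rw [hNm p]
  · have h1 := FE.posLog_sum_le (jinv (a : ℚ) (b : ℚ)) (S.attach.image up)
    have h2 : (0 : ℝ) ≤ ∑ v : InfinitePlace ℚ,
        (v.mult : ℝ) * Real.posLog (v.val (jinv (a : ℚ) (b : ℚ))) :=
      Finset.sum_nonneg fun v _ => mul_nonneg (Nat.cast_nonneg _) Real.posLog_nonneg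
    rw [Finset.sum_image (fun p _ q _ h => hinj h)] at h1
    rw [← hlogS]
    have h3 : ∑ p ∈ S.attach, Real.log (p.1 : ℝ) ≤
        ∑ p ∈ S.attach, Real.posLog ((up p).val (jinv (a : ℚ) (b : ℚ))) :=
      Finset.sum_le_sum fun p _ => by
        rw [hval p, Real.posLog]
        exact le_max_right _ _
    linarith

/-- the estimates under the criterion -/
lemma crit {q : ℤ × ℤ} (hD : Dsc q.1 q.2 ≠ 0)
    (hM : 10 * nh q ^ (3 / 4 : ℝ) < (Bad q.1 q.2 : ℝ)) :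
    1 ≤ nh q ∧ 50 * nh q ^ (1 / 2 : ℝ) ≤ (Sq1 (Dsc q.1 q.2) : ℝ) ∧
      max (6912 * |(q.1 : ℝ)| ^ 3) |((Dsc q.1 q.2 : ℤ) : ℝ)| ≤ 1728 * nh q := by
  have ha : 4 * |(q.1 : ℝ)| ^ 3 ≤ nh q := le_max_left _ _
  have hb : 27 * (q.2 : ℝ) ^ 2 ≤ nh q := le_max_right _ _
  have hDle : |((Dsc q.1 q.2 : ℤ) : ℝ)| ≤ 2 * nh q := by
    unfold Dsc
    push_cast
    calc |4 * (q.1 : ℝ) ^ 3 - 27 * (q.2 : ℝ) ^ 2| ≤ |4 * (q.1 : ℝ) ^ 3| + |27 * (q.2 : ℝ) ^ 2| :=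
          abs_sub _ _
      _ = 4 * |(q.1 : ℝ)| ^ 3 + 27 * (q.2 : ℝ) ^ 2 := by
          rw [abs_mul, abs_pow, abs_of_pos (by norm_num : (0 : ℝ) < 4),
            abs_of_nonneg (by positivity : (0 : ℝ) ≤ 27 * (q.2 : ℝ) ^ 2)]
      _ ≤ 2 * nh q := by linarith
  have hD1 : (1 : ℝ) ≤ |((Dsc q.1 q.2 : ℤ) : ℝ)| := by
    have : (1 : ℤ) ≤ |Dsc q.1 q.2| := Int.one_le_abs hD
    exact_mod_cast this
  have hh1 : 1 ≤ nh q := by
    by_contra hcon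
    push Not at hcon
    have hq1 : q.1 = 0 := by
      by_contra h
      have h1 : (1 : ℝ) ≤ |(q.1 : ℝ)| := by
        have : (1 : ℤ) ≤ |q.1| := Int.one_le_abs h
        exact_mod_cast this
      have h2 : (1 : ℝ) ≤ |(q.1 : ℝ)| ^ 3 := one_le_pow₀ h1
      linarith
    have hq2 : q.2 = 0 := by
      by_contra h
      have h1 : (1 : ℝ) ≤ |(q.2 : ℝ)| := by
        have : (1 : ℤ) ≤ |q.2| := Int.one_le_abs h
        exact_mod_cast this
      have h2 : (1 : ℝ) ≤ |(q.2 : ℝ)| ^ 2 := one_le_pow₀ h1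
      rw [sq_abs] at h2
      linarith
    apply hD
    rw [hq1, hq2]
    rfl
  have hh0 : 0 < nh q := by linarith
  refine ⟨hh1, ?_, ?_⟩
  · have h1 : ((Bad q.1 q.2 : ℕ) : ℝ) ^ 2 ≤
        (Sq1 (Dsc q.1 q.2) : ℝ) * |((Dsc q.1 q.2 : ℤ) : ℝ)| := by
      have h5 := Bad_sq hD
      have h6 : (((Dsc q.1 q.2).natAbs : ℕ) : ℝ) = |((Dsc q.1 q.2 : ℤ) : ℝ)| := by
        rw [Nat.cast_natAbs]
        push_cast
        rfl
      rw [← h6]
      exact_mod_cast h5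
    have hS0 : (0 : ℝ) < (Sq1 (Dsc q.1 q.2) : ℝ) := by exact_mod_cast Sq1_pos _
    have h2 : (10 * nh q ^ (3 / 4 : ℝ)) ^ 2 ≤ (Sq1 (Dsc q.1 q.2) : ℝ) * (2 * nh q) := by
      calc (10 * nh q ^ (3 / 4 : ℝ)) ^ 2 ≤ ((Bad q.1 q.2 : ℕ) : ℝ) ^ 2 := by gcongr
        _ ≤ _ := h1
        _ ≤ _ := by gcongr
    have h3 : (10 * nh q ^ (3 / 4 : ℝ)) ^ 2 = 100 * nh q ^ (1 / 2 : ℝ) * nh q := by
      rw [mul_pow, ← Real.rpow_natCast (nh q ^ (3 / 4 : ℝ)) 2, ← Real.rpow_mul hh0.le]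
      have : ((3 / 4 : ℝ) * ((2 : ℕ) : ℝ)) = 1 / 2 + 1 := by push_cast; norm_num
      rw [this, Real.rpow_add_one hh0.ne']
      ring
    rw [h3] at h2
    have h4 : 100 * nh q ^ (1 / 2 : ℝ) ≤ (Sq1 (Dsc q.1 q.2) : ℝ) * 2 := by
      by_contra hcon
      push Not at hcon
      nlinarith
    linarith
  · apply max_le
    · linarith
    · linarith

/-- the coefficients as algebraic integers -/
noncomputable def zA (n : ℤ) : 𝓞 ℚ := ((-n : ℤ) : 𝓞 ℚ)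

lemma zA_coe (n : ℤ) : ((zA n : 𝓞 ℚ) : ℚ) = ((-n : ℤ) : ℚ) := by
  unfold zA
  simp

lemma ht_int (n : ℤ) {h : ℝ} (h1 : 1 ≤ h) (hn : |(n : ℝ)| ≤ h) : logHeight₁ (n : ℚ) ≤ Real.log h := by
  rw [Rat.logHeight₁_eq_log_max]
  have h2 : (((max (n : ℚ).num.natAbs (n : ℚ).den : ℕ)) : ℝ) = max |(n : ℝ)| 1 := by
    rw [Rat.num_intCast, Rat.den_intCast]
    push_cast
    rw [Nat.cast_natAbs]
    push_cast
    rfl
  rw [h2]
  exact Real.log_le_log (lt_max_of_lt_right one_pos) (max_le hn h1)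

lemma subvar_mono {K : Type} [Field K] [NumberField K] {a b : 𝓞 K} {g : ℕ} {L : Type}
    [Field L] [NumberField L] [Algebra K L] [DecidableEq L] {c c' : ℕ} (h : c ≤ c')
    {ρ : (L ≃ₐ[K] L) →* Matrix (Fin g) (Fin g) ℤ} {M : Matrix (Fin g) (Fin g) ℤ}
    {P : Fin g → Pts L a b} (hM : Polar ρ M) (hs : SubvarLe c ρ M P) : SubvarLe c' ρ M P := by
  obtain ⟨m, β, hm, h1, h2, h3, n, hn0, hn, h4⟩ := hs
  have hdet : 0 < M.det := by
    have h5 := hM.1.det_pos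
    have h6 : (M.map (Int.cast : ℤ → ℝ)).det = (M.det : ℝ) := by
      have := (Int.castRingHom ℝ).map_det M
      simp only [eq_intCast] at this
      rw [this]
      rfl
    rw [h6] at h5
    exact_mod_cast h5
  refine ⟨m, β, hm, h1, h2, h3.trans ?_, n, hn0, hn.trans h, h4⟩
  have h7 : (c : ℤ) ≤ c' := by exact_mod_cast h
  have h8 : (0 : ℤ) < (g.factorial : ℤ) := by exact_mod_cast Nat.factorial_pos g
  exact mul_le_mul_of_nonneg_right h7 (by positivity)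

/-- the alternative -/
def Alt (c₁ : ℝ) (c₂ g : ℕ) (q : ℤ × ℤ) : Prop :=
  ∀ (L : Type) [Field L] [NumberField L] [IsGalois ℚ L] [DecidableEq L]
    (ρ : (L ≃ₐ[ℚ] L) →* Matrix (Fin g) (Fin g) ℤ) (M : Matrix (Fin g) (Fin g) ℤ)
    (P : Fin g → Pts L (zA q.1) (zA q.2)) (T : Finset (HeightOneSpectrum (𝓞 L))),
    Faithful ρ → Polar ρ M → FixedPt ρ P → RamPrimes ℚ T →
      SubvarLe c₂ ρ M P ∨
      (¬ IsOfFinAddOrder P ∧
        c₁ * (1 + Real.log (nh q) + logNorms T / Module.finrank ℚ L) ≤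
          chatM M P / Module.finrank ℚ L)

theorem alt_main (g : ℕ) (hg : 0 < g) : ∃ c₁ : ℝ, 0 < c₁ ∧ ∃ c₂ : ℕ, ∀ q : ℤ × ℤ,
    Dsc q.1 q.2 ≠ 0 → 10 * nh q ^ (3 / 4 : ℝ) < (Bad q.1 q.2 : ℝ) → Alt c₁ c₂ g q := by
  obtain ⟨c, δ, hc, hδ, c₂, h⟩ := strong_main 1 g 0 hg (5 / 3) 2 (by norm_num)
  obtain ⟨A, c', hc', c₂', h⟩ := h 1 one_ne_zero
  refine ⟨min c c' / 2, half_pos (lt_min hc hc'), max c₂ c₂', fun q hD hM => ?_⟩
  obtain ⟨k1, k2, k3⟩ := crit hD hM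
  have hDq : 4 * ((zA q.1 : 𝓞 ℚ) : ℚ) ^ 3 + 27 * ((zA q.2 : 𝓞 ℚ) : ℚ) ^ 2 ≠ 0 := by
    rw [zA_coe, zA_coe]
    push_cast
    rw [dl_neg]
    exact_mod_cast neg_ne_zero.2 hD
  have e0 : 4 * (-q.1) ^ 3 + 27 * (-q.2) ^ 2 = -(Dsc q.1 q.2) := by unfold Dsc; ring
  have hDz : 4 * (-q.1) ^ 3 + 27 * (-q.2) ^ 2 ≠ 0 := by
    rw [e0]
    exact neg_ne_zero.2 hD
  have eS : Sq1 (4 * (-q.1) ^ 3 + 27 * (-q.2) ^ 2) = Sq1 (Dsc q.1 q.2) := by
    rw [e0]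
    unfold Sq1
    rw [Int.natAbs_neg]
  set j : ℚ := jinv (((-q.1 : ℤ)) : ℚ) ((-q.2 : ℤ) : ℚ) with hj
  obtain ⟨F0, f1, f2, f3⟩ := simple_places (-q.1) (-q.2)
  rw [← hj] at f1 f3
  rw [eS] at f2 f3
  have hh0 : 0 < nh q := by linarith
  have hlog0 : 0 ≤ Real.log (nh q) := Real.log_nonneg k1
  have hSlog : 1 / 2 * Real.log (nh q) + Real.log 50 ≤ Real.log (Sq1 (Dsc q.1 q.2) : ℝ) := by
    have := Real.log_le_log (by positivity) k2
    rw [Real.log_mul (by norm_num) (Real.rpow_pos_of_pos hh0 _).ne', Real.log_rpow hh0] at this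
    linarith
  have hl50 : 0 < Real.log 50 := Real.log_pos (by norm_num)
  have ha0 : q.1 ≠ 0 := by
    intro h0
    have h1 : logHeight₁ j = 0 := by
      rw [hj, h0]
      unfold jinv
      simp
    linarith
  have hjle : logHeight₁ j ≤ 2 * ∑ v ∈ F0, Real.log (NF.Nm v) := by
    have h1 := ht_le (a := -q.1) (b := -q.2) (neg_ne_zero.2 ha0) hDz
    have h2 : Pool.Agent.W223.AK.ht
        (Pool.Agent.Y733.LS.jj ((-q.1 : ℤ) : ℚ) ((-q.2 : ℤ) : ℚ)) = logHeight₁ j := by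
      rw [Pool.Agent.Y733.LS.ht_eq_Sa, ← Pool.Agent.Y733.LS.logHeight_eq]
      rfl
    rw [h2, e0] at h1
    push_cast at h1
    rw [abs_neg, abs_neg] at h1
    have h3 : Real.log (max (6912 * |(q.1 : ℝ)| ^ 3) |((Dsc q.1 q.2 : ℤ) : ℝ)|) ≤
        Real.log (1728 * nh q) :=
      Real.log_le_log (lt_max_of_lt_right (abs_pos.2 (by exact_mod_cast hD))) k3
    rw [Real.log_mul (by norm_num) hh0.ne'] at h3
    rw [f2]
    have h4 : Real.log 1728 ≤ 2 * Real.log 50 := by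
      rw [← Real.log_rpow (by norm_num)]
      exact Real.log_le_log (by norm_num) (by norm_num)
    linarith
  have hAB : absH ((zA q.1 : 𝓞 ℚ) : ℚ) + absH ((zA q.2 : 𝓞 ℚ) : ℚ) ≤
      5 / 3 * (1 + absH (jinv ((zA q.1 : 𝓞 ℚ) : ℚ) ((zA q.2 : 𝓞 ℚ) : ℚ))) := by
    rw [zA_coe, zA_coe]
    unfold absH
    rw [Module.finrank_self, Nat.cast_one, div_one, div_one, div_one, ← hj]
    have h1 : logHeight₁ (((-q.1 : ℤ)) : ℚ) ≤ Real.log (nh q ^ (1 / 3 : ℝ)) := by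
      refine ht_int _ (Real.one_le_rpow k1 (by norm_num)) ?_
      push_cast
      rw [abs_neg]
      have h2 : |(q.1 : ℝ)| ^ 3 ≤ nh q := by
        have : 4 * |(q.1 : ℝ)| ^ 3 ≤ nh q := le_max_left _ _
        have h3 : 0 ≤ |(q.1 : ℝ)| ^ 3 := by positivity
        linarith
      calc |(q.1 : ℝ)| = (|(q.1 : ℝ)| ^ 3) ^ (1 / 3 : ℝ) := by
            rw [← Real.rpow_natCast (|(q.1 : ℝ)|) 3, ← Real.rpow_mul (abs_nonneg _)]
            norm_num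
        _ ≤ nh q ^ (1 / 3 : ℝ) := Real.rpow_le_rpow (by positivity) h2 (by norm_num)
    have h1' : logHeight₁ (((-q.2 : ℤ)) : ℚ) ≤ Real.log (nh q ^ (1 / 2 : ℝ)) := by
      refine ht_int _ (Real.one_le_rpow k1 (by norm_num)) ?_
      push_cast
      rw [abs_neg]
      have h2 : |(q.2 : ℝ)| ^ 2 ≤ nh q := by
        have : 27 * (q.2 : ℝ) ^ 2 ≤ nh q := le_max_right _ _
        rw [sq_abs]
        have h3 : 0 ≤ (q.2 : ℝ) ^ 2 := by positivity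
        linarith
      calc |(q.2 : ℝ)| = (|(q.2 : ℝ)| ^ 2) ^ (1 / 2 : ℝ) := by
            rw [← Real.rpow_natCast (|(q.2 : ℝ)|) 2, ← Real.rpow_mul (abs_nonneg _)]
            norm_num
        _ ≤ nh q ^ (1 / 2 : ℝ) := Real.rpow_le_rpow (by positivity) h2 (by norm_num)
    rw [Real.log_rpow hh0] at h1 h1'
    linarith
  intro L _ _ _ _ ρ M P T hf hMp hP hT
  have hSz : SzpiroLe 2 δ 0 1 (zA q.1) (zA q.2) L :=
    szp F0 f1 hjle hDq (by rw [zA_coe, zA_coe]) L hδ.le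
  have hlogN : 0 ≤ logNorms T / Module.finrank ℚ L :=
    div_nonneg (Finset.sum_nonneg fun _ _ => Real.log_natCast_nonneg _) (Nat.cast_nonneg _)
  have hfin1 : Module.finrank ℚ ℚ ≤ 1 := by rw [Module.finrank_self]
  have hmain := h ℚ hfin1 (zA q.1) (zA q.2) hDq hAB L hSz ρ M P T hf hMp hP hT
  have hHj : 1 / 2 * Real.log (nh q) ≤ absH (jinv ((zA q.1 : 𝓞 ℚ) : ℚ) ((zA q.2 : 𝓞 ℚ) : ℚ)) := by
    rw [zA_coe, zA_coe]
    unfold absH
    rw [Module.finrank_self, Nat.cast_one, div_one, ← hj]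
    linarith
  rcases hmain with h1 | ⟨h1, h2⟩
  · left
    refine subvar_mono ?_ hMp h1
    split_ifs
    · exact le_max_left _ _
    · exact le_max_right _ _
  · right
    refine ⟨h1, le_trans ?_ h2⟩
    have h3 : min c c' ≤ (if A < absH (jinv ((zA q.1 : 𝓞 ℚ) : ℚ) ((zA q.2 : 𝓞 ℚ) : ℚ)) then c
        else c') := by
      split_ifs
      · exact min_le_left _ _
      · exact min_le_right _ _
    have h4 : 0 < min c c' := lt_min hc hc'
    calc min c c' / 2 * (1 + Real.log (nh q) + logNorms T / Module.finrank ℚ L) ≤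
        min c c' * (1 + absH (jinv ((zA q.1 : 𝓞 ℚ) : ℚ) ((zA q.2 : 𝓞 ℚ) : ℚ)) +
          logNorms T / Module.finrank ℚ L) := by
          rw [div_mul_eq_mul_div, mul_div_assoc]
          refine mul_le_mul_of_nonneg_left ?_ h4.le
          linarith
      _ ≤ _ := by
          refine mul_le_mul_of_nonneg_right h3 ?_
          linarith

end Pool.Agent.X12.Lng
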