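import Pool.Agent.X12.Lng5
import Pool.Agent.X12.Szp20

/-!
# The count of the exceptions by the naive height
-/

set_option autoImplicit false
set_option linter.unusedSectionVars false

namespace Pool.Agent.X12.Lng

open Finset Filter Topology Pool.Agent.X12.Szp

/-- all curves of naive height at most `H` -/
def CN (H : ℝ) : Set (ℤ × ℤ) := {q | IsMn q.1 q.2 ∧ nh q ≤ H}

/-- those with few bad primes -/
def XN (H : ℝ) : Set (ℤ × ℤ) :=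
  {q | IsMn q.1 q.2 ∧ nh q ≤ H ∧ (Bad q.1 q.2 : ℝ) ≤ 10 * nh q ^ (3 / 4 : ℝ)}

theorem CN_sub {H : ℝ} (hH : 0 ≤ H) : CN H ⊆ {q | Box (H ^ (1 / 6 : ℝ)) q} := by
  rintro q ⟨-, h⟩
  have h2 : 4 * |(q.1 : ℝ)| ^ 3 ≤ H := (le_max_left _ _).trans h
  have h3 : 27 * (q.2 : ℝ) ^ 2 ≤ H := (le_max_right _ _).trans h
  have hX : 0 ≤ H ^ (1 / 6 : ℝ) := Real.rpow_nonneg hH _
  constructor
  · refine (pow_le_pow_iff_left₀ (abs_nonneg _) (by positivity) (by norm_num : 3 ≠ 0)).1 ?_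
    calc |(q.1 : ℝ)| ^ 3 ≤ H := by
          have : 0 ≤ |(q.1 : ℝ)| ^ 3 := by positivity
          linarith
      _ = ((H ^ (1 / 6 : ℝ)) ^ 2) ^ 3 := by rw [← pow_mul]; exact (sixth hH).symm
  · refine (pow_le_pow_iff_left₀ (abs_nonneg _) (by positivity) (by norm_num : 2 ≠ 0)).1 ?_
    rw [sq_abs]
    calc (q.2 : ℝ) ^ 2 ≤ H := by
          have : 0 ≤ (q.2 : ℝ) ^ 2 := by positivity
          linarith
      _ = ((H ^ (1 / 6 : ℝ)) ^ 3) ^ 2 := by rw [← pow_mul]; exact (sixth hH).symm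

theorem CN_finite (H : ℝ) : (CN H).Finite := by
  rcases lt_or_ge H 0 with h | h
  · have : CN H = ∅ := by
      rw [Set.eq_empty_iff_forall_notMem]
      rintro q ⟨-, h2⟩
      have h3 : 4 * |(q.1 : ℝ)| ^ 3 ≤ H := (le_max_left _ _).trans h2
      have : 0 ≤ |(q.1 : ℝ)| ^ 3 := by positivity
      linarith
    rw [this]
    exact Set.finite_empty
  · exact (Box_finite _).subset (CN_sub h)

theorem CN_tendsto : Tendsto (fun H : ℝ => Real.log ((CN H).ncard : ℝ) / Real.log H) atTop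
    (𝓝 (5 / 6)) := by
  refine tendsto_of_bounds _ _ (fun ε hε => ?_) fun ε hε => ?_
  · obtain ⟨H1, h⟩ := HD_lower 1 1 ε one_pos le_rfl (by norm_num) hε
    refine ⟨H1, fun H hH => ?_⟩
    have h1 := h H hH
    have e1 : (1 : ℝ) / 1 - 1 / 6 - ε = 5 / 6 - ε := by norm_num
    rw [e1] at h1
    refine h1.trans ?_
    have h2 : HD 1 1 H ⊆ CN H := by
      rintro q ⟨k1, k2, k3, -⟩
      exact ⟨k1, max_le k2 k3⟩
    exact_mod_cast Set.ncard_le_ncard h2 (CN_finite H)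
  · refine ⟨9, by norm_num, fun H hH => ?_⟩
    have hH0 : 0 ≤ H := by linarith
    have h1 := Box_card (X := H ^ (1 / 6 : ℝ)) (Real.one_le_rpow hH (by norm_num))
    have h2 : ((CN H).ncard : ℝ) ≤ (({q : ℤ × ℤ | Box (H ^ (1 / 6 : ℝ)) q}.ncard : ℕ) : ℝ) := by
      exact_mod_cast Set.ncard_le_ncard (CN_sub hH0) (Box_finite _)
    refine (h2.trans h1).trans ?_
    rw [← Real.rpow_natCast (H ^ (1 / 6 : ℝ)) 5, ← Real.rpow_mul hH0]
    have h3 : H ^ ((1 / 6 : ℝ) * ((5 : ℕ) : ℝ)) ≤ H ^ (5 / 6 + ε) := by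
      apply Real.rpow_le_rpow_of_exponent_le hH
      push_cast
      linarith
    linarith

/-- the curves with few bad primes -/
def SX : Set (ℤ × ℤ) := {q | IsMn q.1 q.2 ∧ (Bad q.1 q.2 : ℝ) ≤ 10 * nh q ^ (3 / 4 : ℝ)}

theorem SX_top : ∃ K : ℝ, 0 < K ∧ ∀ X : ℝ, 1 ≤ X →
    {q ∈ SX | Box X q ∧ ¬ Box (X / 2) q} ⊆ TopM (K * X ^ (9 / 2 : ℝ)) X := by
  refine ⟨10 * 27 ^ (3 / 4 : ℝ), by positivity, fun X hX => ?_⟩
  rintro q ⟨⟨hmin, hle⟩, hbox, hnot⟩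
  have hX0 : 0 < X := by linarith
  refine ⟨hmin.1, not_dvd_of_isMn hmin, hbox, ?_, ?_⟩
  · by_contra hcon
    push Not at hcon
    apply hnot
    constructor
    · have : (X / 2) ^ 2 = X ^ 2 / 4 := by ring
      rw [this]
      exact hcon.1.le
    · have : (X / 2) ^ 3 = X ^ 3 / 8 := by ring
      rw [this]
      exact hcon.2.le
  · refine hle.trans ?_
    have h1 : nh q ≤ 27 * X ^ 6 := by
      apply max_le
      · have h2 : |(q.1 : ℝ)| ^ 3 ≤ (X ^ 2) ^ 3 := by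
          have := hbox.1
          gcongr
        have e : (X ^ 2) ^ 3 = X ^ 6 := by ring
        rw [e] at h2
        have h3 : 0 < X ^ 6 := by positivity
        linarith
      · have h2 : |(q.2 : ℝ)| ^ 2 ≤ (X ^ 3) ^ 2 := by
          have := hbox.2
          gcongr
        have e : (X ^ 3) ^ 2 = X ^ 6 := by ring
        rw [e, sq_abs] at h2
        linarith
    have h0 : 0 ≤ nh q := le_trans (by positivity) (le_max_left _ _)
    calc 10 * nh q ^ (3 / 4 : ℝ) ≤ 10 * (27 * X ^ 6) ^ (3 / 4 : ℝ) := by gcongr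
      _ = 10 * 27 ^ (3 / 4 : ℝ) * X ^ (9 / 2 : ℝ) := by
        rw [Real.mul_rpow (by norm_num) (by positivity), ← Real.rpow_natCast X 6,
          ← Real.rpow_mul hX0.le]
        have : ((6 : ℕ) : ℝ) * (3 / 4) = 9 / 2 := by push_cast; norm_num
        rw [this]
        ring

theorem SX_box (ε : ℝ) (hε : 0 < ε) : ∃ K : ℝ, 0 < K ∧ ∀ X : ℝ, 1 ≤ X →
    (({q ∈ SX | Box X q}.ncard : ℕ) : ℝ) ≤ K * X ^ (4 + ε) := by
  obtain ⟨K, hK, h1⟩ := SX_top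
  obtain ⟨C, hC, h2⟩ := topM_le ε hε
  set K' := K ^ (4 / 5 : ℝ) with hK'
  have hK'0 : 0 < K' := by positivity
  refine dyadic SX (C * (K' + 1)) (4 + ε) (by positivity) (by linarith) fun X hX => ?_
  have hX0 : 0 < X := by linarith
  have e1 : (({q ∈ SX | Box X q ∧ ¬ Box (X / 2) q}.ncard : ℕ) : ℝ) ≤
      ((TopM (K * X ^ (9 / 2 : ℝ)) X).ncard : ℝ) := by
    exact_mod_cast Set.ncard_le_ncard (h1 X hX) (TopM_finite _ _)
  have e0 := h2 (K * X ^ (9 / 2 : ℝ)) X (by positivity) hX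
  have e2 : X ^ 2 * YY X (K * X ^ (9 / 2 : ℝ)) = K' * X ^ (19 / 5 : ℝ) := by
    unfold YY
    have k1 : X ^ 3 = X ^ (3 : ℝ) := by
      rw [show (3 : ℝ) = ((3 : ℕ) : ℝ) by norm_num, Real.rpow_natCast]
    have k2 : X ^ 2 = X ^ (2 : ℝ) := by
      rw [show (2 : ℝ) = ((2 : ℕ) : ℝ) by norm_num, Real.rpow_natCast]
    have k3 : K * X ^ (9 / 2 : ℝ) / X ^ 3 = K * X ^ (9 / 2 - 3 : ℝ) := by
      rw [k1, Real.rpow_sub hX0]
      ring
    rw [k3, Real.mul_rpow hK.le (by positivity), ← Real.rpow_mul hX0.le, k1, k2,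
      ← Real.rpow_mul hX0.le, ← hK']
    calc X ^ (2 : ℝ) * (X ^ ((3 : ℝ) * (1 / 5)) * (K' * X ^ ((9 / 2 - 3 : ℝ) * (4 / 5)))) =
        K' * (X ^ (2 : ℝ) * (X ^ ((3 : ℝ) * (1 / 5)) * X ^ ((9 / 2 - 3 : ℝ) * (4 / 5)))) := by
          ring
      _ = K' * X ^ (19 / 5 : ℝ) := by
        rw [← Real.rpow_add hX0, ← Real.rpow_add hX0]
        congr 2
        norm_num
  rw [e2] at e0
  have e3 : X ^ (19 / 5 : ℝ) ≤ X ^ (4 : ℝ) :=
    Real.rpow_le_rpow_of_exponent_le hX (by norm_num)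
  have e6 : X ^ (4 + ε) = X ^ (4 : ℝ) * X ^ ε := Real.rpow_add hX0 _ _
  have e5 : 0 < X ^ ε := Real.rpow_pos_of_pos hX0 _
  have e7 : K' * X ^ (19 / 5 : ℝ) + X ^ (4 : ℝ) ≤ K' * X ^ (4 : ℝ) + X ^ (4 : ℝ) :=
    add_le_add_left (mul_le_mul_of_nonneg_left e3 hK'0.le) _
  calc (({q ∈ SX | Box X q ∧ ¬ Box (X / 2) q}.ncard : ℕ) : ℝ) ≤
      C * X ^ ε * (K' * X ^ (19 / 5 : ℝ) + X ^ (4 : ℝ)) := e1.trans e0
    _ ≤ C * X ^ ε * (K' * X ^ (4 : ℝ) + X ^ (4 : ℝ)) :=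
        mul_le_mul_of_nonneg_left e7 (by positivity)
    _ = C * (K' + 1) * X ^ (4 + ε) := by rw [e6]; ring

theorem XN_upper (ε : ℝ) (hε : 0 < ε) : ∃ C : ℝ, 0 < C ∧ ∀ H : ℝ, 1 ≤ H →
    ((XN H).ncard : ℝ) ≤ C * H ^ (2 / 3 + ε) := by
  obtain ⟨K, hK, h⟩ := SX_box (6 * ε) (by positivity)
  refine ⟨K, hK, fun H hH => ?_⟩
  have hH0 : 0 ≤ H := by linarith
  have h1 := h (H ^ (1 / 6 : ℝ)) (Real.one_le_rpow hH (by norm_num))
  have h3 : XN H ⊆ {q ∈ SX | Box (H ^ (1 / 6 : ℝ)) q} := by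
    rintro q ⟨k1, k2, k3⟩
    exact ⟨⟨k1, k3⟩, CN_sub hH0 ⟨k1, k2⟩⟩
  have h2 := Set.ncard_le_ncard h3 ((Box_finite _).subset fun q hq => hq.2)
  have h4 : ((XN H).ncard : ℝ) ≤ K * (H ^ (1 / 6 : ℝ)) ^ (4 + 6 * ε) :=
    le_trans (by exact_mod_cast h2) h1
  refine h4.trans (le_of_eq ?_)
  rw [← Real.rpow_mul hH0]
  congr 2
  ring

end Pool.Agent.X12.Lng
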