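import Pool.Agent.X12.Toep4

/-!
# The polynomial `∏ (1 - χ(a) ζ^a X)` and solutions of Toeplitz systems
-/

set_option autoImplicit false

namespace Pool.Agent.X12

open Finset Complex Polynomial

section newton

variable {ι : Type*} [DecidableEq ι]

/-- `∏ (1 - r X)` -/
noncomputable def BPo (s : Finset ι) (r : ι → ℂ) : ℂ[X] := ∏ i ∈ s, (1 - C (r i) * X)

lemma BPo_insert (s : Finset ι) (r : ι → ℂ) {i : ι} (hi : i ∉ s) (k : ℕ) :
    (BPo (insert i s) r).coeff (k + 1) = (BPo s r).coeff (k + 1) - r i * (BPo s r).coeff k := by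
  rw [BPo, Finset.prod_insert hi, ← BPo]
  have : (1 - C (r i) * X) * BPo s r = BPo s r - C (r i) * (BPo s r * X) := by ring
  rw [this, coeff_sub, coeff_C_mul, coeff_mul_X]

omit [DecidableEq ι] in
lemma BPo_zero (s : Finset ι) (r : ι → ℂ) : (BPo s r).coeff 0 = 1 := by
  rw [BPo, Polynomial.coeff_zero_eq_eval_zero, eval_prod]
  exact Finset.prod_eq_one fun i _ => by simp

lemma BPo_low (s : Finset ι) (r : ι → ℂ) :
    (BPo s r).coeff 1 = - ∑ i ∈ s, r i ∧
    2 * (BPo s r).coeff 2 = (∑ i ∈ s, r i) ^ 2 - ∑ i ∈ s, r i ^ 2 ∧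
    6 * (BPo s r).coeff 3 = - (∑ i ∈ s, r i) ^ 3 + 3 * (∑ i ∈ s, r i) * (∑ i ∈ s, r i ^ 2) -
      2 * ∑ i ∈ s, r i ^ 3 := by
  induction s using Finset.induction_on with
  | empty => simp [BPo, coeff_one]
  | insert i s hi ih =>
    obtain ⟨h1, h2, h3⟩ := ih
    rw [BPo_insert s r hi 0, BPo_insert s r hi 1, BPo_insert s r hi 2, BPo_zero,
      Finset.sum_insert hi, Finset.sum_insert hi, Finset.sum_insert hi, h1]
    simp only [Nat.reduceAdd]
    refine ⟨by ring, ?_, ?_⟩
    · linear_combination h2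
    · linear_combination h3 - 3 * r i * h2

lemma BPo_high (s : Finset ι) (r : ι → ℂ) (hr : ∀ i ∈ s, r i ≠ 0) :
    (∀ k, s.card < k → (BPo s r).coeff k = 0) ∧
    (BPo s r).coeff s.card = ∏ i ∈ s, (- r i) ∧
    (BPo s r * X).coeff s.card = (∏ i ∈ s, (- r i)) * (- ∑ i ∈ s, (r i)⁻¹) := by
  induction s using Finset.induction_on with
  | empty =>
    refine ⟨?_, ?_, ?_⟩
    · intro k hk
      rw [Finset.card_empty] at hk
      simp only [BPo, Finset.prod_empty, coeff_one]
      rw [if_neg (by omega)]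
    · simp [BPo]
    · simp [BPo]
  | insert i s hi ih =>
    obtain ⟨h1, h2, h3⟩ := ih (fun j hj => hr j (Finset.mem_insert_of_mem hj))
    have hri := hr i (Finset.mem_insert_self i s)
    rw [Finset.card_insert_of_notMem hi]
    refine ⟨?_, ?_, ?_⟩
    · intro k hk
      obtain ⟨l, rfl⟩ : ∃ l, k = l + 1 := ⟨k - 1, by omega⟩
      rw [BPo_insert s r hi, h1 _ (by omega), h1 _ (by omega)]
      ring
    · rw [BPo_insert s r hi, h1 _ (by omega), h2, Finset.prod_insert hi]
      ring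
    · rw [coeff_mul_X, BPo, Finset.prod_insert hi, ← BPo, Finset.prod_insert hi,
        Finset.sum_insert hi]
      have : (1 - C (r i) * X) * BPo s r = BPo s r - C (r i) * (BPo s r * X) := by ring
      rw [this, coeff_sub, coeff_C_mul, h2, h3]
      field_simp
      ring

end newton

lemma sum_even_odd {M : Type*} [AddCommMonoid M] (f : ℕ → M) (n : ℕ) :
    ∑ m ∈ range (2 * n + 1), f m = ∑ k ∈ range (n + 1), f (2 * k) + ∑ k ∈ range n, f (2 * k + 1) := by
  induction n with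
  | zero => simp
  | succ n ih =>
    rw [show 2 * (n + 1) + 1 = (2 * n + 1) + 1 + 1 by ring, Finset.sum_range_succ,
      Finset.sum_range_succ, ih, Finset.sum_range_succ (fun k => f (2 * k)) (n + 1),
      Finset.sum_range_succ (fun k => f (2 * k + 1)) n]
    rw [show 2 * n + 1 + 1 = 2 * (n + 1) by ring]
    abel

section

variable {p : ℕ} [Fact p.Prime]

/-- `χ(a) ζ^a` -/
noncomputable def rho (p : ℕ) [Fact p.Prime] (a : ZMod p) : ℂ := qc p a * ps p a

/-- the polynomial `∏ (1 - χ(a) ζ^a X)` -/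
noncomputable def BP (p : ℕ) [Fact p.Prime] : ℂ[X] := BPo (univ.erase (0 : ZMod p)) (rho p)

lemma rho_ne {a : ZMod p} (ha : a ≠ 0) : rho p a ≠ 0 := by
  rw [rho]
  refine mul_ne_zero ?_ (ps_ne_zero a)
  rcases qc_cases ha with h | h <;> rw [h] <;> norm_num

lemma sum_rho : ∑ a ∈ univ.erase (0 : ZMod p), rho p a = Gs p := by
  rw [Gs, ← Finset.add_sum_erase _ _ (Finset.mem_univ (0 : ZMod p)), qc_zero]
  simp [rho]

lemma sum_rho_sq (hp : p ≠ 2) : ∑ a ∈ univ.erase (0 : ZMod p), rho p a ^ 2 = -1 := by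
  have h1 : ∀ a ∈ univ.erase (0 : ZMod p), rho p a ^ 2 = ps p (a * 2) := by
    intro a ha
    have h2 := qc_sq (Finset.ne_of_mem_erase ha)
    have h3 : (qc p a : ℂ) * qc p a = 1 := by exact_mod_cast h2
    rw [rho, mul_pow, ← ps_two, mul_comm 2 a]
    linear_combination (ps p (a * 2)) * h3
  rw [Finset.sum_congr rfl h1]
  have h2 := sum_ps (p := p) 2
  rw [if_neg (two_ne' hp), ← Finset.add_sum_erase _ _ (Finset.mem_univ (0 : ZMod p)), zero_mul,
    ps_zero] at h2
  linear_combination h2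

lemma sum_rho_cube (hp : p ≠ 2) :
    ∑ a ∈ univ.erase (0 : ZMod p), rho p a ^ 3 = qc p 3 * Gs p := by
  have h1 : ∀ a ∈ univ.erase (0 : ZMod p), rho p a ^ 3 = qc p a * ps p (a * 3) := by
    intro a ha
    have h2 := qc_sq (Finset.ne_of_mem_erase ha)
    have h3 : (qc p a : ℂ) * qc p a = 1 := by exact_mod_cast h2
    have h4 : ps p (a * 3) = ps p a ^ 3 := by
      rw [ps_pow']
      push_cast
      rfl
    rw [rho, mul_pow, h4]
    linear_combination (qc p a * ps p a ^ 3) * h3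
  rw [Finset.sum_congr rfl h1]
  have h2 := sum_qc_ps hp (3 : ZMod p)
  rw [← Finset.add_sum_erase _ _ (Finset.mem_univ (0 : ZMod p)), qc_zero] at h2
  simpa using h2

lemma sum_rho_inv (h3 : p % 4 = 3) :
    ∑ a ∈ univ.erase (0 : ZMod p), (rho p a)⁻¹ = - Gs p := by
  have h1 : ∀ a ∈ univ.erase (0 : ZMod p), (rho p a)⁻¹ = - rho p (-a) := by
    intro a ha
    have h2 := qc_sq (Finset.ne_of_mem_erase ha)
    have h4 : (qc p a : ℂ) * qc p a = 1 := by exact_mod_cast h2
    apply inv_eq_of_mul_eq_one_right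
    rw [rho, rho, qc_neg, qc_neg_one_of_three h3]
    have h5 := ps_mul_neg (p := p) a
    push_cast
    linear_combination (ps p a * ps p (-a)) * h4 + h5
  rw [Finset.sum_congr rfl h1, Finset.sum_neg_distrib, ← sum_rho]
  congr 1
  refine Finset.sum_nbij' (fun a => -a) (fun a => -a) ?_ ?_ ?_ ?_ ?_
  · intro a ha; simpa using ha
  · intro a ha; simpa using ha
  · intro a _; simp
  · intro a _; simp
  · intro a _; rfl

lemma prod_rho {n : ℕ} (hn : p = 2 * n + 1) (h3 : p % 4 = 3) (h5 : 3 < p) :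
    ∏ a ∈ univ.erase (0 : ZMod p), (- rho p a) = -1 := by
  have h1 : ∏ a ∈ univ.erase (0 : ZMod p), (- rho p a) =
      (∏ a : ZMod p, if qc p a = 1 then - ps p a else 1) *
        ∏ a : ZMod p, if qc p a = -1 then ps p a else 1 := by
    rw [← Finset.prod_mul_distrib, ← Finset.mul_prod_erase Finset.univ
      (fun a => (if qc p a = 1 then - ps p a else 1) * (if qc p a = -1 then ps p a else 1))
      (Finset.mem_univ (0 : ZMod p)), qc_zero, if_neg (by norm_num), if_neg (by norm_num), one_mul,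
      one_mul]
    refine Finset.prod_congr rfl fun a ha => ?_
    rcases qc_cases (Finset.ne_of_mem_erase ha) with h | h
    · rw [rho, h, if_pos rfl, if_neg (by norm_num)]; push_cast; ring
    · rw [rho, h, if_pos rfl, if_neg (by norm_num)]; push_cast; ring
  rw [h1, prod_ps h5, mul_one]
  have h2 : (∏ a : ZMod p, if qc p a = 1 then - ps p a else 1) =
      ∏ a : ZMod p, if qc p a = 1 then (-1) * ps p a else 1 := by
    refine Finset.prod_congr rfl fun a _ => ?_
    split_ifs <;> ring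
  rw [h2, prod_ite_mul, prod_ps h5, prod_const_QR hn, mul_one]
  exact Odd.neg_one_pow (Nat.odd_iff.2 (by omega))

lemma card_erase {n : ℕ} (hn : p = 2 * n + 1) : (univ.erase (0 : ZMod p)).card = 2 * n := by
  rw [Finset.card_erase_of_mem (Finset.mem_univ _), Finset.card_univ, ZMod.card]
  omega

/-- the coefficients -/
lemma BP_coeffs {n : ℕ} (hn : p = 2 * n + 1) (h3 : p % 4 = 3) (h5 : 3 < p) :
    (BP p).coeff 0 = 1 ∧ (BP p).coeff 1 = - Gs p ∧ (BP p).coeff 2 = -n ∧
    3 * (BP p).coeff 3 = Gs p * (n - 1 - qc p 3) ∧ (BP p).coeff (2 * n) = -1 ∧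
    (BP p).coeff (2 * n - 1) = - Gs p ∧ (BP p).coeff (2 * n + 1) = 0 := by
  have h2 : p ≠ 2 := by omega
  have hG : Gs p ^ 2 = - (p : ℂ) := by
    rw [Gs_sq h2, qc_neg_one_of_three h3]
    push_cast; ring
  have hpn : (p : ℂ) = 2 * n + 1 := by exact_mod_cast hn
  obtain ⟨a1, a2, a3⟩ := BPo_low (univ.erase (0 : ZMod p)) (rho p)
  obtain ⟨b1, b2, b3⟩ := BPo_high (univ.erase (0 : ZMod p)) (rho p)
    (fun a ha => rho_ne (Finset.ne_of_mem_erase ha))
  rw [sum_rho, sum_rho_sq h2, sum_rho_cube h2] at a3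
  rw [sum_rho, sum_rho_sq h2] at a2
  rw [sum_rho] at a1
  rw [card_erase hn] at b1 b2 b3
  rw [prod_rho hn h3 h5] at b2 b3
  rw [sum_rho_inv h3] at b3
  refine ⟨BPo_zero _ _, a1, ?_, ?_, b2, ?_, b1 _ (by omega)⟩
  · show (BPo (univ.erase (0 : ZMod p)) (rho p)).coeff 2 = _
    linear_combination (1 / 2) * a2 + (1 / 2) * hG - (1 / 2) * hpn
  · show 3 * (BPo (univ.erase (0 : ZMod p)) (rho p)).coeff 3 = _
    linear_combination (1 / 2) * a3 - (1 / 2) * Gs p * hG + (1 / 2) * Gs p * hpn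
  · have h6 : 2 * n = (2 * n - 1) + 1 := by omega
    rw [h6, coeff_mul_X] at b3
    show (BPo (univ.erase (0 : ZMod p)) (rho p)).coeff (2 * n - 1) = _
    rw [b3]; ring

/-- the roots -/
lemma BP_eval {u : ZMod p} (h3 : p % 4 = 3) (hu : u ≠ 0) :
    (BP p).eval (- (qc p u) * ps p u) = 0 := by
  rw [BP, BPo, eval_prod]
  refine Finset.prod_eq_zero (i := -u) (Finset.mem_erase.2 ⟨neg_ne_zero.2 hu, Finset.mem_univ _⟩) ?_
  simp only [eval_sub, eval_one, eval_mul, eval_C, eval_X]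
  have h2 := qc_sq hu
  have h4 : (qc p u : ℂ) * qc p u = 1 := by exact_mod_cast h2
  have h5 := ps_mul_neg (p := p) u
  rw [rho, qc_neg, qc_neg_one_of_three h3]
  push_cast
  linear_combination (- ps p u * ps p (-u)) * h4 - h5

/-- the even part at `ζ^{2u}` -/
noncomputable def Ev (p : ℕ) [Fact p.Prime] (n : ℕ) (u : ZMod p) : ℂ :=
  ∑ k ∈ range (n + 1), (BP p).coeff (2 * k) * ps p (u * (2 * k))

/-- the odd part at `ζ^{2u}` -/
noncomputable def Ov (p : ℕ) [Fact p.Prime] (n : ℕ) (u : ZMod p) : ℂ :=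
  ∑ k ∈ range n, (BP p).coeff (2 * k + 1) * ps p (u * (2 * k))

lemma BP_deg {n : ℕ} (hn : p = 2 * n + 1) : (BP p).natDegree < 2 * n + 1 := by
  have hb := (BPo_high (univ.erase (0 : ZMod p)) (rho p)
    (fun a ha => rho_ne (Finset.ne_of_mem_erase ha))).1
  rw [card_erase hn] at hb
  rw [Nat.lt_succ_iff, Polynomial.natDegree_le_iff_coeff_eq_zero]
  exact hb

lemma eval_split {n : ℕ} (hn : p = 2 * n + 1) {e : ℂ} (he : e ^ 2 = 1) (u : ZMod p) :
    (BP p).eval (e * ps p u) = Ev p n u + e * ps p u * Ov p n u := by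
  rw [eval_eq_sum_range' (BP_deg hn), sum_even_odd, Ev, Ov, Finset.mul_sum]
  congr 1
  · refine Finset.sum_congr rfl fun k _ => ?_
    rw [mul_pow, pow_mul, he, one_pow, one_mul, ps_pow']
    push_cast
    rfl
  · refine Finset.sum_congr rfl fun k _ => ?_
    rw [mul_pow, pow_succ, pow_mul, he, one_pow, one_mul, pow_succ, ps_pow']
    push_cast
    ring

/-- the relation between the even and the odd part -/
lemma Ev_eq {n : ℕ} (hn : p = 2 * n + 1) (h3 : p % 4 = 3) {u : ZMod p} (hu : u ≠ 0) :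
    Ev p n u = qc p u * ps p u * Ov p n u := by
  have h2 := qc_sq hu
  have h4 : (qc p u : ℂ) * qc p u = 1 := by exact_mod_cast h2
  have h1 := eval_split hn (e := - (qc p u : ℂ)) (by linear_combination h4) u
  rw [BP_eval h3 hu] at h1
  linear_combination - h1

end

end Pool.Agent.X12
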