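import Mathlib
import Pool.Agent.X12.Dyn2

/-!
# Counting algebraic integers of given norm and bounded house
-/

set_option autoImplicit false

namespace Pool.Agent.X12.Nf

open NumberField Module

/-- counting through a relation -/
lemma card_of_rel {α β : Type*} {S : Set α} (F : Finset β) (R : α → β → Prop)
    (h1 : ∀ a ∈ S, ∃ b ∈ F, R a b) (h2 : ∀ a ∈ S, ∀ a' ∈ S, ∀ b, R a b → R a' b → a = a') :
    S.Finite ∧ S.ncard ≤ F.card := by
  classical
  rcases S.eq_empty_or_nonempty with h0 | ⟨a0, ha0⟩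
  · subst h0
    exact ⟨Set.finite_empty, by simp⟩
  obtain ⟨b0, -, -⟩ := h1 a0 ha0
  have hex : ∀ a, ∃ b, a ∈ S → b ∈ F ∧ R a b := by
    intro a
    by_cases ha : a ∈ S
    · obtain ⟨b, e1, e2⟩ := h1 a ha
      exact ⟨b, fun _ => ⟨e1, e2⟩⟩
    · exact ⟨b0, fun h => absurd h ha⟩
  choose g hg using hex
  have hinj : Set.InjOn g S := by
    intro a ha a' ha' h
    have e1 := (hg a ha).2
    have e2 := (hg a' ha').2
    rw [← h] at e2
    exact h2 a ha a' ha' _ e1 e2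
  have hmap : Set.MapsTo g S (F : Set β) := fun a ha => (hg a ha).1
  have hfin : S.Finite := Set.Finite.of_injOn hmap hinj F.finite_toSet
  refine ⟨hfin, ?_⟩
  have := Set.ncard_le_ncard_of_injOn g hmap hinj F.finite_toSet
  rwa [Set.ncard_coe_finset] at this

variable (K : Type*) [Field K] [NumberField K]

/-- the algebraic integers of bounded house -/
def OS (Y : ℝ) : Set (𝓞 K) := {x | house (algebraMap (𝓞 K) K x) ≤ Y}

lemma coord_le : ∃ c : ℝ, 0 < c ∧ ∀ (x : 𝓞 K) (j : Free.ChooseBasisIndex ℤ (𝓞 K)),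
    |(((RingOfIntegers.basis K).repr x j : ℤ) : ℝ)| ≤ c * house (algebraMap (𝓞 K) K x) := by
  classical
  obtain ⟨c, hc⟩ : ∃ c : ℝ, ∀ (α : 𝓞 K) (i : K →+* ℂ),
      ‖((((integralBasis K).reindex (equivReindex K).symm).repr α i : ℚ) : ℂ)‖ ≤
        c * house (algebraMap (𝓞 K) K α) :=
    ⟨_, fun α i => NumberField.house.basis_repr_norm_le_const_mul_house K α i⟩
  refine ⟨max c 1, lt_max_of_lt_right one_pos, fun x j => ?_⟩
  have h1 := hc x ((equivReindex K).symm j)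
  rw [Basis.repr_reindex_apply, Equiv.symm_symm, Equiv.apply_symm_apply,
    integralBasis_repr_apply] at h1
  have h2 : ‖(((algebraMap ℤ ℚ) ((RingOfIntegers.basis K).repr x j) : ℚ) : ℂ)‖ =
      |(((RingOfIntegers.basis K).repr x j : ℤ) : ℝ)| := by
    rw [eq_intCast, Rat.cast_intCast, Complex.norm_intCast]
  rw [h2] at h1
  refine h1.trans ?_
  exact mul_le_mul_of_nonneg_right (le_max_left _ _) (house_nonneg _)

lemma card_index : Fintype.card (Free.ChooseBasisIndex ℤ (𝓞 K)) = finrank ℚ K := by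
  rw [← finrank_eq_card_chooseBasisIndex, RingOfIntegers.rank]

theorem OS_card : ∃ C : ℝ, 0 < C ∧ ∀ Y : ℝ, 1 ≤ Y →
    (OS K Y).Finite ∧ ((OS K Y).ncard : ℝ) ≤ C * Y ^ finrank ℚ K := by
  classical
  obtain ⟨c, hc0, hc⟩ := coord_le K
  refine ⟨(2 * c + 1) ^ finrank ℚ K, by positivity, fun Y hY => ?_⟩
  set F : Finset (Free.ChooseBasisIndex ℤ (𝓞 K) → ℤ) :=
    Fintype.piFinset fun _ => Finset.Icc (-⌊c * Y⌋) ⌊c * Y⌋ with hF
  obtain ⟨h1, h2⟩ := card_of_rel (S := OS K Y) F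
    (fun x b => ∀ j, (RingOfIntegers.basis K).repr x j = b j)
    (fun x hx => ⟨fun j => (RingOfIntegers.basis K).repr x j, by
      rw [hF, Fintype.mem_piFinset]
      intro j
      refine Szp.mem_of_abs_le ?_
      refine (hc x j).trans (mul_le_mul_of_nonneg_left hx hc0.le), fun _ => rfl⟩)
    (fun x _ x' _ b h h' => by
      refine (RingOfIntegers.basis K).repr.injective ?_
      ext j
      rw [h j, h' j])
  refine ⟨h1, ?_⟩
  have h3 : F.card = (2 * ⌊c * Y⌋ + 1).toNat ^ finrank ℚ K := by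
    rw [hF, Fintype.card_piFinset, Finset.prod_const, Finset.card_univ, card_index, Int.card_Icc]
    congr 2
    ring
  have h4 : 0 ≤ ⌊c * Y⌋ := Int.floor_nonneg.2 (by positivity)
  have h5 : ((2 * ⌊c * Y⌋ + 1).toNat : ℝ) ≤ (2 * c + 1) * Y := by
    have e1 : (((2 * ⌊c * Y⌋ + 1).toNat : ℤ) : ℝ) = ((2 * ⌊c * Y⌋ + 1 : ℤ) : ℝ) := by
      rw [Int.toNat_of_nonneg (by omega)]
    have e2 : ((2 * ⌊c * Y⌋ + 1).toNat : ℝ) = ((2 * ⌊c * Y⌋ + 1 : ℤ) : ℝ) := by
      rw [← e1]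
      norm_cast
    rw [e2]
    push_cast
    have := Int.floor_le (c * Y)
    nlinarith
  calc ((OS K Y).ncard : ℝ) ≤ (F.card : ℝ) := by exact_mod_cast h2
    _ = ((2 * ⌊c * Y⌋ + 1).toNat : ℝ) ^ finrank ℚ K := by
      rw [h3]
      push_cast
      rfl
    _ ≤ ((2 * c + 1) * Y) ^ finrank ℚ K := pow_le_pow_left₀ (Nat.cast_nonneg _) h5 _
    _ = _ := by rw [mul_pow]

theorem OS_lower : ∃ c : ℝ, 0 < c ∧ ∀ Y : ℝ, 1 ≤ Y →
    c * Y ^ finrank ℚ K ≤ ((OS K Y).ncard : ℝ) := by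
  classical
  set ω := RingOfIntegers.basis K with hω
  set S : ℝ := ∑ j, house (algebraMap (𝓞 K) K (ω j)) + 1 with hS
  have hS0 : 0 ≤ ∑ j, house (algebraMap (𝓞 K) K (ω j)) :=
    Finset.sum_nonneg fun j _ => house_nonneg _
  have hS1 : 1 ≤ S := by rw [hS]; linarith
  refine ⟨(1 / S) ^ finrank ℚ K, by positivity, fun Y hY => ?_⟩
  obtain ⟨C, -, hC⟩ := OS_card K
  set F : Finset (Free.ChooseBasisIndex ℤ (𝓞 K) → ℤ) :=
    Fintype.piFinset fun _ => Finset.Icc (-⌊Y / S⌋) ⌊Y / S⌋ with hF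
  have h4 : 0 ≤ ⌊Y / S⌋ := Int.floor_nonneg.2 (by positivity)
  set φ : (Free.ChooseBasisIndex ℤ (𝓞 K) → ℤ) → 𝓞 K := fun b => ∑ j, b j • ω j with hφ
  have hinj : Function.Injective φ := by
    intro b b' h
    have : ω.equivFun.symm b = ω.equivFun.symm b' := by
      rw [Basis.equivFun_symm_apply, Basis.equivFun_symm_apply]
      exact h
    exact ω.equivFun.symm.injective this
  have hmem : ∀ b ∈ F, φ b ∈ OS K Y := by
    intro b hb
    rw [hF, Fintype.mem_piFinset] at hb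
    show house (algebraMap (𝓞 K) K (∑ j, b j • ω j)) ≤ Y
    rw [map_sum]
    refine (house_sum_le_sum_house _ _).trans ?_
    have h5 : ∀ j ∈ Finset.univ, house (algebraMap (𝓞 K) K (b j • ω j)) ≤
        (Y / S) * house (algebraMap (𝓞 K) K (ω j)) := by
      intro j _
      rw [zsmul_eq_mul, map_mul, map_intCast]
      refine (house_mul_le _ _).trans ?_
      rw [house_intCast]
      refine mul_le_mul_of_nonneg_right ?_ (house_nonneg _)
      have h6 := abs_le.2 (Finset.mem_Icc.1 (hb j))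
      have h7 : (|b j| : ℝ) ≤ (⌊Y / S⌋ : ℝ) := by exact_mod_cast h6
      have h8 := h7.trans (Int.floor_le _)
      exact_mod_cast h8
    refine (Finset.sum_le_sum h5).trans ?_
    rw [← Finset.mul_sum, div_mul_eq_mul_div, div_le_iff₀ (by linarith)]
    refine mul_le_mul_of_nonneg_left ?_ (by linarith)
    rw [hS]
    linarith
  have h6 : F.card ≤ (OS K Y).ncard := by
    have h7 : ((F.image φ : Finset (𝓞 K)) : Set (𝓞 K)) ⊆ OS K Y := by
      intro x hx
      obtain ⟨b, hb, rfl⟩ := Finset.mem_image.1 (Finset.mem_coe.1 hx)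
      exact hmem b hb
    have h8 := Set.ncard_le_ncard h7 (hC Y hY).1
    rwa [Set.ncard_coe_finset, Finset.card_image_of_injective _ hinj] at h8
  have h3 : F.card = (2 * ⌊Y / S⌋ + 1).toNat ^ finrank ℚ K := by
    rw [hF, Fintype.card_piFinset, Finset.prod_const, Finset.card_univ, card_index, Int.card_Icc]
    congr 2
    ring
  have h5 : Y / S ≤ ((2 * ⌊Y / S⌋ + 1).toNat : ℝ) := by
    have e1 : (((2 * ⌊Y / S⌋ + 1).toNat : ℤ) : ℝ) = ((2 * ⌊Y / S⌋ + 1 : ℤ) : ℝ) := by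
      rw [Int.toNat_of_nonneg (by omega)]
    have e2 : ((2 * ⌊Y / S⌋ + 1).toNat : ℝ) = ((2 * ⌊Y / S⌋ + 1 : ℤ) : ℝ) := by
      rw [← e1]
      norm_cast
    rw [e2]
    push_cast
    have := Int.lt_floor_add_one (Y / S)
    have h9 : (0 : ℝ) ≤ (⌊Y / S⌋ : ℝ) := by exact_mod_cast h4
    linarith
  calc (1 / S) ^ finrank ℚ K * Y ^ finrank ℚ K = (Y / S) ^ finrank ℚ K := by
        rw [← mul_pow]
        congr 1
        ring
    _ ≤ ((2 * ⌊Y / S⌋ + 1).toNat : ℝ) ^ finrank ℚ K := pow_le_pow_left₀ (by positivity) h5 _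
    _ = (F.card : ℝ) := by
      rw [h3]
      push_cast
      rfl
    _ ≤ _ := by exact_mod_cast h6

end Pool.Agent.X12.Nf
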