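import Pool.Agent.X12.Nf9

/-!
# The size of the family: the lower bound
-/

set_option autoImplicit false

namespace Pool.Agent.X12.Nf

open NumberField Module Polynomial Function
open Pool.Agent.X12.Pg (CQ CQ_card)

variable {K : Type*} [Field K]

/-- the polynomial with given coefficients -/
noncomputable def mk (d : ℕ) (a : K) (c : ℕ → K) : K[X] :=
  C a * X ^ d + ∑ i ∈ Finset.range (d - 1), C (c i) * X ^ i

lemma mk_sum_coeff (d : ℕ) (c : ℕ → K) (m : ℕ) :
    (∑ i ∈ Finset.range (d - 1), C (c i) * X ^ i : K[X]).coeff m = if m < d - 1 then c m else 0 := by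
  rw [Polynomial.finsetSum_coeff]
  simp only [Polynomial.coeff_C_mul_X_pow]
  rw [Finset.sum_ite_eq]
  simp only [Finset.mem_range]

lemma mk_coeff {d : ℕ} {a : K} (c : ℕ → K) {i : ℕ} (hi : i < d - 1) :
    (mk d a c).coeff i = c i := by
  unfold mk
  rw [Polynomial.coeff_add, mk_sum_coeff, if_pos hi, Polynomial.coeff_C_mul_X_pow,
    if_neg (by omega), zero_add]

lemma mk_coeff_pred {d : ℕ} (hd : 2 ≤ d) (a : K) (c : ℕ → K) : (mk d a c).coeff (d - 1) = 0 := by
  unfold mk
  rw [Polynomial.coeff_add, mk_sum_coeff, if_neg (by omega), Polynomial.coeff_C_mul_X_pow,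
    if_neg (by omega), zero_add]

lemma mk_coeff_top {d : ℕ} (hd : 2 ≤ d) (a : K) (c : ℕ → K) : (mk d a c).coeff d = a := by
  unfold mk
  rw [Polynomial.coeff_add, mk_sum_coeff, if_neg (by omega), Polynomial.coeff_C_mul_X_pow,
    if_pos rfl, add_zero]

lemma mk_natDegree {d : ℕ} (hd : 2 ≤ d) {a : K} (ha : a ≠ 0) (c : ℕ → K) :
    (mk d a c).natDegree = d := by
  refine le_antisymm ?_ ?_
  · rw [Polynomial.natDegree_le_iff_coeff_eq_zero]
    intro m hm
    unfold mk
    rw [Polynomial.coeff_add, mk_sum_coeff, if_neg (by omega), Polynomial.coeff_C_mul_X_pow,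
      if_neg (by omega), add_zero]
  · refine Polynomial.le_natDegree_of_ne_zero ?_
    rw [mk_coeff_top hd]
    exact ha

variable [NumberField K]

/-- the coefficients of the family -/
noncomputable def cf (d : ℕ) (n : ℕ) (B : 𝓞 K) (v : Fin (d - 2) → 𝓞 K) (i : ℕ) : K :=
  if i = 0 then (B : K) / (n : K) ^ d else
    if h : i - 1 < d - 2 then (v ⟨i - 1, h⟩ : K) / (n : K) ^ (d - i) else 0

lemma cf_fam {d : ℕ} (hd : 2 ≤ d) {a : 𝓞 K} (ha : a ≠ 0) {H : ℝ} (hH : 1 ≤ H) {n : ℕ}
    (hn : 1 ≤ n) (hnH : (n : ℝ) ≤ H) {B : 𝓞 K} (hB : house (B : K) ≤ H ^ d)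
    {v : Fin (d - 2) → 𝓞 K} (hv : ∀ j : Fin (d - 2), house (v j : K) ≤ H ^ (d - 1 - (j : ℕ))) :
    mk d (a : K) (cf d n B v) ∈ Fam d a H := by
  have hn0 : (n : K) ≠ 0 := by
    have : n ≠ 0 := by omega
    exact_mod_cast this
  have ha' : (a : K) ≠ 0 := RingOfIntegers.coe_ne_zero_iff.2 ha
  have hnK : (((n : ℕ) : 𝓞 K) : K) = (n : K) := map_natCast (algebraMap (𝓞 K) K) n
  refine ⟨mk_natDegree hd ha' _, mk_coeff_top hd _ _, mk_coeff_pred hd _ _, (n : 𝓞 K), ?_, ?_, ?_⟩
  · have : n ≠ 0 := by omega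
    exact_mod_cast this
  · rw [hnK]
    have := house_intCast (K := K) (n : ℤ)
    rw [Int.cast_natCast] at this
    rw [this]
    simpa using hnH
  intro i hi
  rw [hnK]
  rcases Nat.lt_or_ge i (d - 1) with hi1 | hi1
  · rw [mk_coeff _ hi1]
    by_cases hi0 : i = 0
    · subst hi0
      refine ⟨B, ?_, ?_⟩
      · unfold cf
        rw [if_pos rfl, Nat.sub_zero]
        field_simp
      · rw [Nat.sub_zero]
        exact hB
    · have hlt : i - 1 < d - 2 := by omega
      refine ⟨v ⟨i - 1, hlt⟩, ?_, ?_⟩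
      · unfold cf
        rw [if_neg hi0, dif_pos hlt]
        field_simp
      · have h7 := hv ⟨i - 1, hlt⟩
        have h8 : d - 1 - (i - 1) = d - i := by omega
        simp only [h8] at h7
        exact h7
  · have h7 : i = d - 1 := by omega
    refine ⟨0, ?_, ?_⟩
    · rw [h7, mk_coeff_pred hd, mul_zero, vzero]
    · rw [vzero]
      have h8 : house (0 : K) = 0 := by
        have := house_intCast (K := K) 0
        simpa using this
      rw [h8]
      positivity

open scoped Classical in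
/-- the integer with given coordinates -/
noncomputable def BB (j0 : Free.ChooseBasisIndex ℤ (𝓞 K)) (b : ℕ)
    (w : {j : Free.ChooseBasisIndex ℤ (𝓞 K) // j ≠ j0} → ℤ) : 𝓞 K :=
  ∑ j, (if h : j = j0 then (b : ℤ) else w ⟨j, h⟩) • RingOfIntegers.basis K j

open scoped Classical in
lemma BB_repr (j0 : Free.ChooseBasisIndex ℤ (𝓞 K)) (b : ℕ)
    (w : {j : Free.ChooseBasisIndex ℤ (𝓞 K) // j ≠ j0} → ℤ) (j : Free.ChooseBasisIndex ℤ (𝓞 K)) :
    (RingOfIntegers.basis K).repr (BB j0 b w) j = if h : j = j0 then (b : ℤ) else w ⟨j, h⟩ := by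
  have h1 : BB j0 b w = (RingOfIntegers.basis K).equivFun.symm
      (fun j => if h : j = j0 then (b : ℤ) else w ⟨j, h⟩) := by
    rw [Basis.equivFun_symm_apply]
    rfl
  rw [h1, ← Basis.equivFun_apply, LinearEquiv.apply_symm_apply]

variable (K) in
theorem fam_lower {d : ℕ} (hd : 2 ≤ d) : ∃ c : ℝ, 0 < c ∧ ∀ (H : ℝ) (a : 𝓞 K), 1 ≤ H → a ≠ 0 →
    c * H ^ (finrank ℚ K * (d * (d + 1) / 2 - 1) + 1) ≤ ((Fam d a H).ncard : ℝ) := by
  classical
  set r := finrank ℚ K with hr
  have hr1 : 1 ≤ r := finrank_pos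
  obtain ⟨C1, hC1, hOS⟩ := OS_card K
  obtain ⟨C2, hC2, hfu⟩ := fam_upper K hd
  obtain ⟨c1, hc1, hlow⟩ := OS_lower K
  set ω := RingOfIntegers.basis K with hω
  have hcard0 : Fintype.card (Free.ChooseBasisIndex ℤ (𝓞 K)) = r := card_index K
  obtain ⟨j0⟩ : Nonempty (Free.ChooseBasisIndex ℤ (𝓞 K)) := by
    rw [← Fintype.card_pos_iff, hcard0]
    omega
  set S : ℝ := ∑ j, house (ω j : K) + 1 with hS
  have hS0 : 0 ≤ ∑ j, house (ω j : K) := Finset.sum_nonneg fun j _ => house_nonneg _
  have hS1 : 1 ≤ S := by rw [hS]; linarith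
  set e : ℕ := r * (d * (d + 1) / 2 - 1) + 1 with he
  set c2 : ℝ := (1 / 2) * (1 / (2 * S)) / 4 * (1 / S) ^ (r - 1) * c1 ^ (d - 2) with hc2
  have hc20 : 0 < c2 := by positivity
  refine ⟨min c2 (1 / S ^ e), lt_min hc20 (by positivity), fun H a hH ha => ?_⟩
  have hH0 : 0 < H := by linarith
  have hHp : ∀ n : ℕ, 1 ≤ H ^ n := fun n => one_le_pow₀ hH
  have hfin := (hfu H a hH).1
  rcases lt_or_ge (H ^ d) S with hlt | hge
  · -- small heights
    have h1 : H ≤ S := (le_self_pow₀ hH (by omega)).trans hlt.le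
    have h2 : H ^ e ≤ S ^ e := pow_le_pow_left₀ hH0.le h1 _
    have h3 : min c2 (1 / S ^ e) * H ^ e ≤ 1 := by
      calc min c2 (1 / S ^ e) * H ^ e ≤ (1 / S ^ e) * S ^ e :=
            mul_le_mul (min_le_right _ _) h2 (by positivity) (by positivity)
        _ = 1 := by field_simp
    refine h3.trans ?_
    have h0' : house ((0 : 𝓞 K) : K) = 0 := by
      rw [vzero]
      have := house_intCast (K := K) 0
      simpa using this
    have h4 : mk d (a : K) (cf d 1 (0 : 𝓞 K) (fun _ => 0)) ∈ Fam d a H := by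
      refine cf_fam hd ha hH le_rfl (by exact_mod_cast hH) ?_ fun j => ?_
      · rw [h0']; positivity
      · rw [h0']; positivity
    have h5 : 0 < (Fam d a H).ncard := (Set.ncard_pos hfin).2 ⟨_, h4⟩
    exact_mod_cast h5
  · set N : ℕ := ⌊H⌋₊ with hN
    set M : ℕ := ⌊H ^ d / S⌋₊ with hM
    have hq1 : 1 ≤ H ^ d / S := by
      rw [le_div_iff₀ (by linarith), one_mul]
      exact hge
    have hN1 : 1 ≤ N := Nat.le_floor (by exact_mod_cast hH)
    have hM1 : 1 ≤ M := Nat.le_floor (by exact_mod_cast hq1)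
    have hNH : (N : ℝ) ≤ H := Nat.floor_le hH0.le
    have hMH : (M : ℝ) ≤ H ^ d / S := Nat.floor_le (by positivity)
    have hN2 : H / 2 ≤ N := by
      have h1 := Nat.lt_floor_add_one H
      have h2 : (1 : ℝ) ≤ N := by exact_mod_cast hN1
      rw [← hN] at h1
      linarith
    have hM2 : H ^ d / (2 * S) ≤ M := by
      have h1 := Nat.lt_floor_add_one (H ^ d / S)
      have h2 : (1 : ℝ) ≤ M := by exact_mod_cast hM1
      rw [← hM] at h1
      have h3 : H ^ d / (2 * S) = (H ^ d / S) / 2 := by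
        field_simp
      rw [h3]
      linarith
    set G1 : Finset ({j : Free.ChooseBasisIndex ℤ (𝓞 K) // j ≠ j0} → ℤ) :=
      Fintype.piFinset fun _ => Finset.Icc (-(M : ℤ)) M with hG1
    set G2 : Finset (Fin (d - 2) → 𝓞 K) :=
      Fintype.piFinset fun j => fs (OS K (H ^ (d - 1 - (j : ℕ)))) with hG2
    set G := (CQ N M ×ˢ G1) ×ˢ G2 with hG
    -- the count
    have k1 : (N : ℝ) * M / 4 ≤ ((CQ N M).card : ℝ) := CQ_card N M
    have k2 : (H ^ d / S) ^ (r - 1) ≤ (G1.card : ℝ) := by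
      have e1 : G1.card = (2 * M + 1) ^ (r - 1) := by
        rw [hG1, Fintype.card_piFinset, Finset.prod_const, Finset.card_univ,
          Fintype.card_subtype_compl, hcard0, Fintype.card_subtype_eq, Int.card_Icc]
        congr 1
        omega
      rw [e1]
      push_cast
      refine pow_le_pow_left₀ (by positivity) ?_ _
      have h1 := Nat.lt_floor_add_one (H ^ d / S)
      rw [← hM] at h1
      have h2 : (0 : ℝ) ≤ M := Nat.cast_nonneg _
      linarith
    have k3 : c1 ^ (d - 2) * (H ^ (∑ j : Fin (d - 2), (d - 1 - (j : ℕ)))) ^ r ≤ (G2.card : ℝ) := by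
      rw [hG2, Fintype.card_piFinset]
      push_cast
      have h1 : ∏ j : Fin (d - 2), (c1 * (H ^ (d - 1 - (j : ℕ))) ^ r) ≤
          ∏ j : Fin (d - 2), ((fs (OS K (H ^ (d - 1 - (j : ℕ))))).card : ℝ) := by
        refine Finset.prod_le_prod (fun _ _ => by positivity) fun j _ => ?_
        rw [card_fs (hOS _ (hHp _)).1]
        exact hlow _ (hHp _)
      refine le_trans (le_of_eq ?_) h1
      rw [Finset.prod_mul_distrib, Finset.prod_const, Finset.card_univ, Fintype.card_fin,
        Finset.prod_pow, Finset.prod_pow_eq_pow_sum]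
    have k4 : c2 * H ^ e ≤ (G.card : ℝ) := by
      have h1 : (G.card : ℝ) = (CQ N M).card * G1.card * G2.card := by
        rw [hG, Finset.card_product, Finset.card_product]
        push_cast
        ring
      rw [h1]
      have h2 : (H / 2) * (H ^ d / (2 * S)) / 4 ≤ ((CQ N M).card : ℝ) := by
        refine le_trans ?_ k1
        have := mul_le_mul hN2 hM2 (by positivity) (Nat.cast_nonneg _)
        linarith
      have h3 : c2 * H ^ e = ((H / 2) * (H ^ d / (2 * S)) / 4) * (H ^ d / S) ^ (r - 1) *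
          (c1 ^ (d - 2) * (H ^ (∑ j : Fin (d - 2), (d - 1 - (j : ℕ)))) ^ r) := by
        have e1 : d * (d + 1) / 2 - 1 = d + ∑ j : Fin (d - 2), (d - 1 - (j : ℕ)) := by
          rw [← Pg.exp_low hd]
          omega
        have e2 : H ^ e = H * (H ^ d * (H ^ d) ^ (r - 1)) *
            (H ^ (∑ j : Fin (d - 2), (d - 1 - (j : ℕ)))) ^ r := by
          have e3 : (H ^ d * (H ^ d) ^ (r - 1)) = (H ^ d) ^ r := by
            rw [← pow_succ']
            congr 1
            omega
          rw [e3, he, e1, pow_succ, mul_comm r, pow_mul, pow_add, mul_pow]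
          ring
        rw [e2, hc2, div_pow, div_pow, one_pow]
        field_simp
      rw [h3]
      exact mul_le_mul (mul_le_mul h2 k2 (by positivity) (Nat.cast_nonneg _)) k3
        (by positivity) (by positivity)
    -- membership
    have hmem : ∀ x ∈ G, 1 ≤ x.1.1.1 ∧ x.1.1.1 ≤ N ∧ 1 ≤ x.1.1.2 ∧ x.1.1.2 ≤ M ∧
        Nat.Coprime x.1.1.1 x.1.1.2 ∧ (∀ j, |x.1.2 j| ≤ (M : ℤ)) ∧
        ∀ j : Fin (d - 2), house (x.2 j : K) ≤ H ^ (d - 1 - (j : ℕ)) := by
      intro x hx
      rw [hG, Finset.mem_product, Finset.mem_product, hG1, hG2, Fintype.mem_piFinset,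
        Fintype.mem_piFinset] at hx
      obtain ⟨⟨h1, h2⟩, h3⟩ := hx
      unfold CQ at h1
      rw [Finset.mem_filter, Finset.mem_product, Finset.mem_Icc, Finset.mem_Icc] at h1
      obtain ⟨⟨⟨h4, h5⟩, h6, h7⟩, h8⟩ := h1
      refine ⟨h4, h5, h6, h7, h8, fun j => abs_le.2 (Finset.mem_Icc.1 (h2 j)), fun j => ?_⟩
      exact (mem_fs (hOS _ (hHp _)).1 _).1 (h3 j)
    have hBB : ∀ x ∈ G, house ((BB j0 x.1.1.2 x.1.2 : 𝓞 K) : K) ≤ H ^ d := by
      intro x hx
      obtain ⟨h1, h2, h3, h4, h5, h6, h7⟩ := hmem x hx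
      unfold BB
      show house (algebraMap (𝓞 K) K _) ≤ _
      rw [map_sum]
      refine (house_sum_le_sum_house _ _).trans ?_
      have h8 : ∀ j ∈ Finset.univ, house (algebraMap (𝓞 K) K
          ((if h : j = j0 then (x.1.1.2 : ℤ) else x.1.2 ⟨j, h⟩) • ω j)) ≤
          (H ^ d / S) * house (ω j : K) := by
        intro j _
        rw [zsmul_eq_mul, map_mul, map_intCast]
        refine (house_mul_le _ _).trans ?_
        rw [house_intCast]
        refine mul_le_mul_of_nonneg_right ?_ (house_nonneg _)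
        refine le_trans ?_ hMH
        have h9 : |(if h : j = j0 then (x.1.1.2 : ℤ) else x.1.2 ⟨j, h⟩)| ≤ (M : ℤ) := by
          split_ifs with h
          · rw [abs_of_nonneg (by positivity)]
            exact_mod_cast h4
          · exact h6 _
        exact_mod_cast h9
      refine (Finset.sum_le_sum h8).trans ?_
      rw [← Finset.mul_sum, div_mul_eq_mul_div, div_le_iff₀ (by linarith)]
      refine mul_le_mul_of_nonneg_left ?_ (by positivity)
      rw [hS]
      linarith
    set φ : ((ℕ × ℕ) × ({j : Free.ChooseBasisIndex ℤ (𝓞 K) // j ≠ j0} → ℤ)) ×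
        (Fin (d - 2) → 𝓞 K) → K[X] := fun x =>
      mk d (a : K) (cf d x.1.1.1 (BB j0 x.1.1.2 x.1.2) x.2) with hφ
    have hFam : ∀ x ∈ G, φ x ∈ Fam d a H := by
      intro x hx
      obtain ⟨h1, h2, h3, h4, h5, h6, h7⟩ := hmem x hx
      refine cf_fam hd ha hH h1 ?_ (hBB x hx) h7
      exact le_trans (by exact_mod_cast h2) hNH
    have hinj : Set.InjOn φ (G : Set _) := by
      rintro ⟨⟨⟨n, b⟩, w⟩, v⟩ hx ⟨⟨⟨n', b'⟩, w'⟩, v'⟩ hx' h
      obtain ⟨h1, h2, h3, h4, h5, -, -⟩ := hmem _ hx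
      obtain ⟨g1, g2, g3, g4, g5, -, -⟩ := hmem _ hx'
      simp only [hφ] at h1 h2 h3 h4 h5 g1 g2 g3 g4 g5 h
      have hco : ∀ i < d - 1, cf d n (BB j0 b w) v i = cf d n' (BB j0 b' w') v' i := by
        intro i hi
        rw [← mk_coeff (a := (a : K)) (cf d n (BB j0 b w) v) hi, h,
          mk_coeff (cf d n' (BB j0 b' w') v') hi]
      have hn0 : (n : K) ≠ 0 := by
        have : n ≠ 0 := by omega
        exact_mod_cast this
      have hn0' : (n' : K) ≠ 0 := by
        have : n' ≠ 0 := by omega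
        exact_mod_cast this
      have e0 := hco 0 (by omega)
      unfold cf at e0
      rw [if_pos rfl, if_pos rfl, div_eq_div_iff (pow_ne_zero _ hn0) (pow_ne_zero _ hn0')] at e0
      have e1 : (BB j0 b w) * ((n' : 𝓞 K)) ^ d = (BB j0 b' w') * ((n : 𝓞 K)) ^ d := by
        refine RingOfIntegers.coe_injective ?_
        show ((_ : 𝓞 K) : K) = ((_ : 𝓞 K) : K)
        rw [vmul, vmul, vpow, vpow]
        have q1 : (((n' : ℕ) : 𝓞 K) : K) = (n' : K) := map_natCast (algebraMap (𝓞 K) K) n'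
        have q2 : (((n : ℕ) : 𝓞 K) : K) = (n : K) := map_natCast (algebraMap (𝓞 K) K) n
        rw [q1, q2]
        exact e0
      have e2 : ∀ j, ((n' : ℤ) ^ d) * ω.repr (BB j0 b w) j =
          ((n : ℤ) ^ d) * ω.repr (BB j0 b' w') j := by
        intro j
        have q1 : ((n' : ℤ) ^ d) • (BB j0 b w) = ((n : ℤ) ^ d) • (BB j0 b' w') := by
          rw [zsmul_eq_mul, zsmul_eq_mul, mul_comm, mul_comm _ (BB j0 b' w')]
          push_cast
          exact e1
        have q2 := congrArg (fun y => ω.repr y j) q1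
        simp only [map_smul, Finsupp.smul_apply, smul_eq_mul] at q2
        exact q2
      have e3 := e2 j0
      rw [hω, BB_repr, BB_repr, dif_pos rfl, dif_pos rfl] at e3
      have e4 : n' ^ d * b = n ^ d * b' := by exact_mod_cast e3
      have e5 : n ^ d ∣ n' ^ d := by
        have q : n ^ d ∣ n' ^ d * b := ⟨b', e4⟩
        exact (Nat.Coprime.pow_left d h5).dvd_of_dvd_mul_right q
      have e6 : n' ^ d ∣ n ^ d := by
        have q : n' ^ d ∣ n ^ d * b' := ⟨b, e4.symm⟩
        exact (Nat.Coprime.pow_left d g5).dvd_of_dvd_mul_right q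
      have e7 : n = n' := by
        have := Nat.dvd_antisymm e5 e6
        exact Nat.pow_left_injective (by omega) this
      subst e7
      have hnd : 0 < n ^ d := by positivity
      have e8 : b = b' := Nat.eq_of_mul_eq_mul_left hnd e4
      subst e8
      have e9 : w = w' := by
        funext j
        have q := e2 j
        rw [hω, BB_repr, BB_repr, dif_neg j.2, dif_neg j.2] at q
        have q0 : ((n : ℤ) ^ d) ≠ 0 := by
          have : n ≠ 0 := by omega
          exact pow_ne_zero _ (by exact_mod_cast this)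
        exact mul_left_cancel₀ q0 q
      subst e9
      have e10 : v = v' := by
        funext j
        have hj := j.2
        have q := hco (j + 1) (by omega)
        unfold cf at q
        have hlt : (j : ℕ) + 1 - 1 < d - 2 := by omega
        rw [if_neg (by omega), if_neg (by omega), dif_pos hlt, dif_pos hlt] at q
        simp only [Nat.add_sub_cancel, Fin.eta] at q
        have q2 := (div_left_inj' (pow_ne_zero _ hn0)).1 q
        exact RingOfIntegers.coe_injective q2
      rw [e10]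
    have h1 : (G.image φ).card = G.card := Finset.card_image_of_injOn hinj
    have h2 : ((G.image φ : Finset K[X]) : Set K[X]) ⊆ Fam d a H := by
      intro f hf
      obtain ⟨x, hx, rfl⟩ := Finset.mem_image.1 (Finset.mem_coe.1 hf)
      exact hFam x hx
    have h3 := Set.ncard_le_ncard h2 hfin
    rw [Set.ncard_coe_finset, h1] at h3
    calc min c2 (1 / S ^ e) * H ^ e ≤ c2 * H ^ e :=
          mul_le_mul_of_nonneg_right (min_le_left _ _) (by positivity)
      _ ≤ (G.card : ℝ) := k4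
      _ ≤ _ := by exact_mod_cast h3

end Pool.Agent.X12.Nf
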