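import Pool.Agent.X12.Nf1

/-!
# Counting units of bounded house
-/

set_option autoImplicit false

namespace Pool.Agent.X12.Nf

open NumberField Module NumberField.Units NumberField.Units.dirichletUnitTheorem

variable (K : Type*) [Field K] [NumberField K]

open scoped Classical in
lemma ex_decomp : ∃ C : ℝ, 0 < C ∧ ∀ u : (𝓞 K)ˣ, ∃ (ζ : torsion K) (e : Fin (rank K) → ℤ),
    u = ζ * ∏ i, (fundSystem K i) ^ (e i) ∧
    ∀ i, |(e i : ℝ)| ≤ C * ‖logEmbedding K (Additive.ofMul u)‖ := by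
  set B := (basisUnitLattice K).ofZLatticeBasis ℝ (unitLattice K) with hB
  refine ⟨‖(B.equivFunL : logSpace K →L[ℝ] (Fin (rank K) → ℝ))‖ + 1, by positivity,
    fun u => ?_⟩
  obtain ⟨⟨ζ, e⟩, h, -⟩ := exist_unique_eq_mul_prod K u
  simp only at h
  refine ⟨ζ, e, h, fun i => ?_⟩
  have h1 : logEmbedding K (Additive.ofMul u) = ∑ j, (e j : ℝ) • B j := by
    rw [h, ofMul_mul, map_add, (logEmbedding_eq_zero_iff).2 ζ.2, zero_add, ofMul_prod, map_sum]
    refine Finset.sum_congr rfl fun j _ => ?_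
    rw [ofMul_zpow, map_zsmul, logEmbedding_fundSystem, hB, Basis.ofZLatticeBasis_apply]
    rw [Int.cast_smul_eq_zsmul]
  have h2 : (B.equivFunL : logSpace K →L[ℝ] (Fin (rank K) → ℝ))
      (logEmbedding K (Additive.ofMul u)) = fun j => (e j : ℝ) := by
    show B.equivFun (logEmbedding K (Additive.ofMul u)) = _
    rw [h1]
    exact B.equivFun.apply_symm_apply (fun j => (e j : ℝ)) ▸ by
      rw [Basis.equivFun_symm_apply]
  have h3 : |(e i : ℝ)| = ‖(B.equivFunL : logSpace K →L[ℝ] (Fin (rank K) → ℝ))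
      (logEmbedding K (Additive.ofMul u)) i‖ := by
    rw [h2, Real.norm_eq_abs]
  rw [h3]
  refine (norm_le_pi_norm _ i).trans ?_
  refine (ContinuousLinearMap.le_opNorm _ _).trans ?_
  refine mul_le_mul_of_nonneg_right (by linarith) (norm_nonneg _)

lemma one_le_place {Z : ℝ} (hZ : 1 ≤ Z) {x : 𝓞 K} (hx : x ≠ 0)
    (h : house (algebraMap (𝓞 K) K x) ≤ Z) (σ : K →+* ℂ) :
    1 ≤ ‖σ (algebraMap (𝓞 K) K x)‖ * Z ^ (finrank ℚ K - 1) := by
  have h1 := norm_norm_le_norm_mul_house_pow (algebraMap (𝓞 K) K x) σ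
  have h2 : (1 : ℝ) ≤ ‖Algebra.norm ℚ (algebraMap (𝓞 K) K x)‖ := by
    rw [← Algebra.coe_norm_int]
    have h3 : Algebra.norm ℤ x ≠ 0 := Algebra.norm_ne_zero_iff.2 hx
    have h4 := Int.one_le_abs h3
    rw [← Rat.norm_cast_real, Real.norm_eq_abs]
    push_cast
    exact_mod_cast h4
  refine h2.trans (h1.trans ?_)
  refine mul_le_mul_of_nonneg_left ?_ (norm_nonneg _)
  exact pow_le_pow_left₀ (house_nonneg _) h _

open scoped Classical in
lemma logEmb_le {Z : ℝ} (hZ : 1 ≤ Z) {u : (𝓞 K)ˣ}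
    (h : house (algebraMap (𝓞 K) K (u : 𝓞 K)) ≤ Z) :
    ‖logEmbedding K (Additive.ofMul u)‖ ≤ 2 * (finrank ℚ K * Real.log Z) := by
  have hlog : 0 ≤ Real.log Z := Real.log_nonneg hZ
  have hr : 1 ≤ finrank ℚ K := finrank_pos
  refine (pi_norm_le_iff_of_nonneg (by positivity)).2 fun w => ?_
  rw [logEmbedding_component, Real.norm_eq_abs, abs_mul]
  have hm : |((w.1.mult : ℕ) : ℝ)| ≤ 2 := by
    rw [abs_of_nonneg (Nat.cast_nonneg _)]
    unfold InfinitePlace.mult
    split_ifs <;> norm_num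
  have hu0 : (u : 𝓞 K) ≠ 0 := Units.ne_zero u
  have h1 := one_le_place K hZ hu0 h w.1.embedding
  rw [InfinitePlace.norm_embedding_eq] at h1
  have h2 : w.1 (algebraMap (𝓞 K) K (u : 𝓞 K)) ≤ Z := by
    have := norm_embedding_le_house (algebraMap (𝓞 K) K (u : 𝓞 K)) w.1.embedding
    rw [InfinitePlace.norm_embedding_eq] at this
    exact this.trans h
  have hpos : 0 < w.1 (algebraMap (𝓞 K) K (u : 𝓞 K)) := by
    rw [InfinitePlace.pos_iff]
    exact RingOfIntegers.coe_ne_zero_iff.2 hu0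
  have h3 : |Real.log (w.1 (algebraMap (𝓞 K) K (u : 𝓞 K)))| ≤ finrank ℚ K * Real.log Z := by
    rw [abs_le]
    constructor
    · have h4 := Real.log_le_log one_pos h1
      rw [Real.log_one, Real.log_mul hpos.ne' (by positivity), Real.log_pow] at h4
      have h5 : ((finrank ℚ K - 1 : ℕ) : ℝ) ≤ finrank ℚ K := by
        exact_mod_cast Nat.sub_le _ _
      nlinarith
    · have h4 := Real.log_le_log hpos h2
      have h5 : (1 : ℝ) ≤ finrank ℚ K := by exact_mod_cast hr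
      nlinarith
  calc |((w.1.mult : ℕ) : ℝ)| * |Real.log (w.1 (algebraMap (𝓞 K) K (u : 𝓞 K)))| ≤
        2 * (finrank ℚ K * Real.log Z) :=
        mul_le_mul hm h3 (abs_nonneg _) (by norm_num)
    _ = _ := rfl

/-- the units of bounded house -/
def US (Z : ℝ) : Set (𝓞 K)ˣ := {u | house (algebraMap (𝓞 K) K (u : 𝓞 K)) ≤ Z}

theorem US_card (ε : ℝ) (hε : 0 < ε) : ∃ C : ℝ, 0 < C ∧ ∀ Z : ℝ, 1 ≤ Z →
    (US K Z).Finite ∧ ((US K Z).ncard : ℝ) ≤ C * Z ^ ε := by
  classical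
  haveI : Fintype (torsion K) := Fintype.ofFinite _
  obtain ⟨c, hc0, hc⟩ := ex_decomp K
  set k := rank K with hk
  set η := ε / (k + 1) with hη
  have hη0 : 0 < η := by positivity
  set A : ℝ := 2 * (c * (2 * (finrank ℚ K * (1 / η)))) + 1 with hA
  have hA1 : 0 < A := by positivity
  refine ⟨Fintype.card (torsion K) * A ^ k, ?_, fun Z hZ => ?_⟩
  · have : 0 < Fintype.card (torsion K) := Fintype.card_pos
    have h' : (0 : ℝ) < Fintype.card (torsion K) := by exact_mod_cast this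
    positivity
  set R : ℝ := c * (2 * (finrank ℚ K * Real.log Z)) with hR
  have hlog : 0 ≤ Real.log Z := Real.log_nonneg hZ
  have hR0 : 0 ≤ R := by positivity
  set F : Finset (torsion K × (Fin k → ℤ)) := (Finset.univ : Finset (torsion K)) ×ˢ
    Fintype.piFinset (fun _ => Finset.Icc (-⌊R⌋) ⌊R⌋) with hF
  obtain ⟨h1, h2⟩ := card_of_rel (S := US K Z) F
    (fun u b => u = b.1 * ∏ i, (fundSystem K i) ^ (b.2 i))
    (fun u hu => by
      obtain ⟨ζ, e, hζ, he⟩ := hc u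
      refine ⟨(ζ, e), ?_, hζ⟩
      rw [hF, Finset.mem_product, Fintype.mem_piFinset]
      refine ⟨Finset.mem_univ _, fun i => Szp.mem_of_abs_le ?_⟩
      refine (he i).trans ?_
      rw [hR]
      exact mul_le_mul_of_nonneg_left (logEmb_le K hZ hu) hc0.le)
    (fun u _ u' _ b h h' => by rw [h, h'])
  refine ⟨h1, ?_⟩
  have h4 : 0 ≤ ⌊R⌋ := Int.floor_nonneg.2 hR0
  have h3 : F.card = Fintype.card (torsion K) * (2 * ⌊R⌋ + 1).toNat ^ k := by
    rw [hF, Finset.card_product, Fintype.card_piFinset, Finset.prod_const, Finset.card_univ,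
      Finset.card_univ, Fintype.card_fin, Int.card_Icc]
    congr 3
    ring
  have hlogZ : Real.log Z ≤ Z ^ η * (1 / η) := by
    have := Real.log_le_rpow_div (by linarith : (0 : ℝ) ≤ Z) hη0
    rw [mul_one_div]
    exact this
  have hZη : 1 ≤ Z ^ η := Real.one_le_rpow hZ hη0.le
  have h5 : ((2 * ⌊R⌋ + 1).toNat : ℝ) ≤ A * Z ^ η := by
    have e1 : (((2 * ⌊R⌋ + 1).toNat : ℤ) : ℝ) = ((2 * ⌊R⌋ + 1 : ℤ) : ℝ) := by
      rw [Int.toNat_of_nonneg (by omega)]
    have e2 : ((2 * ⌊R⌋ + 1).toNat : ℝ) = ((2 * ⌊R⌋ + 1 : ℤ) : ℝ) := by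
      rw [← e1]
      norm_cast
    rw [e2]
    push_cast
    have h6 := Int.floor_le R
    have h7 : R ≤ c * (2 * (finrank ℚ K * (Z ^ η * (1 / η)))) := by
      rw [hR]
      have : (finrank ℚ K : ℝ) * Real.log Z ≤ finrank ℚ K * (Z ^ η * (1 / η)) :=
        mul_le_mul_of_nonneg_left hlogZ (Nat.cast_nonneg _)
      refine mul_le_mul_of_nonneg_left ?_ hc0.le
      linarith
    have h8 : A * Z ^ η = 2 * (c * (2 * (finrank ℚ K * (Z ^ η * (1 / η))))) + Z ^ η := by
      rw [hA]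
      ring
    rw [h8]
    linarith
  calc ((US K Z).ncard : ℝ) ≤ (F.card : ℝ) := by exact_mod_cast h2
    _ = Fintype.card (torsion K) * ((2 * ⌊R⌋ + 1).toNat : ℝ) ^ k := by
      rw [h3]
      push_cast
      rfl
    _ ≤ Fintype.card (torsion K) * (A * Z ^ η) ^ k := by
      refine mul_le_mul_of_nonneg_left ?_ (Nat.cast_nonneg _)
      exact pow_le_pow_left₀ (Nat.cast_nonneg _) h5 _
    _ = Fintype.card (torsion K) * A ^ k * Z ^ (η * k) := by
      rw [mul_pow, ← Real.rpow_natCast (Z ^ η) k, ← Real.rpow_mul (by linarith), mul_assoc]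
    _ ≤ Fintype.card (torsion K) * A ^ k * Z ^ ε := by
      refine mul_le_mul_of_nonneg_left ?_ (by positivity)
      refine Real.rpow_le_rpow_of_exponent_le hZ ?_
      rw [hη, div_mul_eq_mul_div, div_le_iff₀ (by positivity)]
      nlinarith

end Pool.Agent.X12.Nf
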