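import Pool.Agent.X12.Nf2

/-!
# Counting ideals and elements of given norm
-/

set_option autoImplicit false

namespace Pool.Agent.X12.Nf

open NumberField Module UniqueFactorizationMonoid
open Pool.Agent.X12.Dyn (TS mem_TS TS_card)

variable (K : Type*) [Field K] [NumberField K]

lemma succ_le_pow (ε : ℝ) (hε : 0 < ε) (e : ℕ) :
    ((e + 1 : ℕ) : ℝ) ≤ (1 + 1 / (ε * Real.log 2)) * (2 : ℝ) ^ (ε * e) := by
  have hl : 0 < Real.log 2 := Real.log_pos (by norm_num)
  have h1 : 1 + ε * Real.log 2 * e ≤ (2 : ℝ) ^ (ε * e) := by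
    rw [Real.rpow_def_of_pos (by norm_num)]
    have := Real.add_one_le_exp (Real.log 2 * (ε * e))
    linarith
  have h2 : (0 : ℝ) ≤ 1 + 1 / (ε * Real.log 2) := by positivity
  calc ((e + 1 : ℕ) : ℝ) ≤ (1 + 1 / (ε * Real.log 2)) * (1 + ε * Real.log 2 * e) := by
        push_cast
        have h3 : 1 / (ε * Real.log 2) * (ε * Real.log 2 * e) = e := by
          field_simp
        have h4 : (0 : ℝ) ≤ 1 / (ε * Real.log 2) := by positivity
        have h5 : (0 : ℝ) ≤ ε * Real.log 2 * e := by positivity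
        nlinarith
    _ ≤ _ := mul_le_mul_of_nonneg_left h1 h2

open scoped Classical in
theorem ideal_bound (ε : ℝ) (hε : 0 < ε) : ∃ C : ℝ, 0 < C ∧ ∀ J : Ideal (𝓞 K), J ≠ ⊥ →
    ((Finset.Iic (normalizedFactors J)).card : ℝ) ≤ C * (Ideal.absNorm J : ℝ) ^ ε := by
  set c : ℝ := 1 + 1 / (ε * Real.log 2) with hc
  have hl : 0 < Real.log 2 := Real.log_pos (by norm_num)
  have hc1 : 1 ≤ c := by
    rw [hc]
    have : (0 : ℝ) ≤ 1 / (ε * Real.log 2) := by positivity
    linarith
  set T : ℝ := (2 : ℝ) ^ (1 / ε) with hT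
  have hfin := Ideal.finite_setOfPred_absNorm_le (S := 𝓞 K) ⌊T⌋₊
  set Sm := hfin.toFinset with hSm
  refine ⟨c ^ Sm.card, by positivity, fun J hJ => ?_⟩
  rw [Multiset.card_Iic]
  push_cast
  set s := normalizedFactors J with hs
  have hN2 : ∀ P ∈ s.toFinset, (2 : ℝ) ≤ (Ideal.absNorm P : ℝ) := by
    intro P hP
    rw [Multiset.mem_toFinset] at hP
    have hprime := prime_of_normalized_factor P hP
    have h1 : Ideal.absNorm P ≠ 0 := by
      rw [Ne, Ideal.absNorm_eq_zero_iff]
      exact hprime.ne_zero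
    have h2 : Ideal.absNorm P ≠ 1 := by
      rw [Ne, Ideal.absNorm_eq_one_iff]
      intro h
      exact hprime.not_isUnit (by rw [h, ← Ideal.one_eq_top]; exact isUnit_one)
    have : 2 ≤ Ideal.absNorm P := by omega
    exact_mod_cast this
  have hterm : ∀ P ∈ s.toFinset, ((s.count P : ℕ) : ℝ) + 1 ≤ (if P ∈ Sm then c else 1) *
      ((Ideal.absNorm P : ℝ) ^ s.count P) ^ ε := by
    intro P hP
    have h2 := hN2 P hP
    have h0 : (0 : ℝ) ≤ (Ideal.absNorm P : ℝ) := by linarith
    have h3 : ((Ideal.absNorm P : ℝ) ^ s.count P) ^ ε =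
        (Ideal.absNorm P : ℝ) ^ (ε * (s.count P : ℝ)) := by
      rw [← Real.rpow_natCast, ← Real.rpow_mul h0, mul_comm]
    rw [h3]
    split_ifs with hSmP
    · have h4 := succ_le_pow ε hε (s.count P)
      push_cast at h4
      refine h4.trans ?_
      refine mul_le_mul_of_nonneg_left ?_ (by linarith)
      exact Real.rpow_le_rpow (by norm_num) h2 (by positivity)
    · rw [one_mul]
      have h5 : T < (Ideal.absNorm P : ℝ) := by
        by_contra hcon
        rw [not_lt] at hcon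
        apply hSmP
        rw [hSm, Set.Finite.mem_toFinset]
        exact Nat.le_floor hcon
      have h6 : (2 : ℝ) ≤ (Ideal.absNorm P : ℝ) ^ ε := by
        have h7 : T ^ ε = 2 := by
          rw [hT, ← Real.rpow_mul (by norm_num), one_div, inv_mul_cancel₀ hε.ne', Real.rpow_one]
        rw [← h7]
        exact Real.rpow_le_rpow (by positivity) h5.le hε.le
      rw [Real.rpow_mul h0, Real.rpow_natCast]
      have h8 : ((s.count P : ℕ) : ℝ) + 1 ≤ (2 : ℝ) ^ s.count P := by
        have := Nat.lt_two_pow_self (n := s.count P)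
        exact_mod_cast this
      exact h8.trans (pow_le_pow_left₀ (by norm_num) h6 _)
  have hprod : (Ideal.absNorm J : ℝ) = ∏ P ∈ s.toFinset, (Ideal.absNorm P : ℝ) ^ s.count P := by
    have h1 : s.prod = J := Ideal.prod_normalizedFactors_eq_self hJ
    have h2 : Ideal.absNorm J = (s.map Ideal.absNorm).prod := by
      conv_lhs => rw [← h1]
      rw [map_multiset_prod]
    rw [h2, Finset.prod_multiset_map_count]
    push_cast
    rfl
  calc ∏ P ∈ s.toFinset, (((s.count P : ℕ) : ℝ) + 1) ≤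
        ∏ P ∈ s.toFinset, ((if P ∈ Sm then c else 1) *
          ((Ideal.absNorm P : ℝ) ^ s.count P) ^ ε) :=
        Finset.prod_le_prod (fun _ _ => by positivity) hterm
    _ = (∏ P ∈ s.toFinset, if P ∈ Sm then c else 1) *
          ∏ P ∈ s.toFinset, ((Ideal.absNorm P : ℝ) ^ s.count P) ^ ε := by
        rw [Finset.prod_mul_distrib]
    _ ≤ c ^ Sm.card * (Ideal.absNorm J : ℝ) ^ ε := by
      refine mul_le_mul ?_ (le_of_eq ?_) (Finset.prod_nonneg fun _ _ => by positivity)
        (by positivity)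
      · rw [Finset.prod_ite, Finset.prod_const_one, mul_one, Finset.prod_const]
        refine pow_le_pow_right₀ hc1 (Finset.card_le_card ?_)
        intro P hP
        exact (Finset.mem_filter.1 hP).2
      · rw [hprod, Real.finsetProd_rpow]
        intro P _
        positivity

lemma house_le_of {x : K} {Z : ℝ} (hZ : 0 ≤ Z) (h : ∀ σ : K →+* ℂ, ‖σ x‖ ≤ Z) :
    house x ≤ Z := by
  unfold house
  exact (pi_norm_le_iff_of_nonneg hZ).2 h

/-- the absolute norm of an integer -/
noncomputable def Nm (x : 𝓞 K) : ℕ := Ideal.absNorm (Ideal.span {x})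

/-- elements of given norm -/
def EN (Y : ℝ) (ν : ℕ) : Set (𝓞 K) := {x | house (algebraMap (𝓞 K) K x) ≤ Y ∧ Nm K x = ν}

open scoped Classical in
theorem EN_card (ε : ℝ) (hε : 0 < ε) : ∃ C : ℝ, 0 < C ∧ ∀ (Y : ℝ) (ν : ℕ), 1 ≤ Y → 1 ≤ ν →
    (EN K Y ν).Finite ∧ ((EN K Y ν).ncard : ℝ) ≤ C * (ν : ℝ) ^ ε * Y ^ ε := by
  set r := finrank ℚ K with hr
  have hr1 : 1 ≤ r := finrank_pos
  have hr0 : (0 : ℝ) < r := by exact_mod_cast hr1
  obtain ⟨C1, hC1, h1⟩ := ideal_bound K (ε / r) (by positivity)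
  obtain ⟨C2, hC2, h2⟩ := US_card K (ε / r) (by positivity)
  refine ⟨C1 * C2, by positivity, fun Y ν hY hν => ?_⟩
  set J : Ideal (𝓞 K) := Ideal.span {(ν : 𝓞 K)} with hJ
  have hJ0 : J ≠ ⊥ := by
    rw [hJ, Ne, Ideal.span_singleton_eq_bot]
    have : ν ≠ 0 := by omega
    exact_mod_cast this
  have hZ : 1 ≤ Y ^ r := one_le_pow₀ hY
  obtain ⟨hUfin, hUcard⟩ := h2 (Y ^ r) hZ
  -- the base points
  set g : Ideal (𝓞 K) → 𝓞 K := fun I =>
    if h : ∃ x ∈ EN K Y ν, Ideal.span {x} = I then h.choose else 0 with hg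
  have hgs : ∀ x ∈ EN K Y ν, g (Ideal.span {x}) ∈ EN K Y ν ∧
      Ideal.span {g (Ideal.span {x})} = Ideal.span {x} := by
    intro x hx
    have h : ∃ y ∈ EN K Y ν, Ideal.span {y} = Ideal.span {x} := ⟨x, hx, rfl⟩
    rw [hg]
    simp only
    rw [dif_pos h]
    exact h.choose_spec
  have hne : ∀ x ∈ EN K Y ν, x ≠ 0 := by
    rintro x hx rfl
    have h3 : Nm K (0 : 𝓞 K) = ν := hx.2
    unfold Nm at h3
    rw [Ideal.span_singleton_eq_bot.2 rfl, Ideal.absNorm_bot] at h3
    omega
  set F : Finset (Multiset (Ideal (𝓞 K)) × (𝓞 K)ˣ) :=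
    Finset.Iic (normalizedFactors J) ×ˢ hUfin.toFinset with hF
  obtain ⟨f1, f2⟩ := card_of_rel (S := EN K Y ν) F
    (fun x b => normalizedFactors (Ideal.span {x}) = b.1 ∧
      x = (b.2 : 𝓞 K) * g (Ideal.span {x}))
    (fun x hx => by
      obtain ⟨⟨g1, g2⟩, g3⟩ := hgs x hx
      obtain ⟨u, hu⟩ := (Ideal.span_singleton_eq_span_singleton.1 g3)
      refine ⟨(normalizedFactors (Ideal.span {x}), u), ?_, rfl, ?_⟩
      · rw [hF, Finset.mem_product, Finset.mem_Iic, Set.Finite.mem_toFinset]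
        constructor
        · have hx0 : Ideal.span {x} ≠ (0 : Ideal (𝓞 K)) := by
            rw [Ideal.zero_eq_bot, Ne, Ideal.span_singleton_eq_bot]
            exact hne x hx
          refine (dvd_iff_normalizedFactors_le_normalizedFactors hx0 hJ0).1 ?_
          rw [Ideal.dvd_iff_le, hJ]
          have h3 : Nm K x = ν := hx.2
          rw [← h3]
          unfold Nm
          exact Ideal.span_singleton_absNorm_le _
        · show house (algebraMap (𝓞 K) K (u : 𝓞 K)) ≤ Y ^ r
          refine house_le_of K (by positivity) fun σ => ?_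
          have k1 := one_le_place K hY (hne _ ⟨g1, g2⟩) g1 σ
          have k2 : ‖σ (algebraMap (𝓞 K) K x)‖ ≤ Y :=
            (norm_embedding_le_house _ σ).trans hx.1
          rw [← hu, map_mul, map_mul, norm_mul] at k2
          have k3 : Y ^ r = Y * Y ^ (r - 1) := by
            rw [← pow_succ']
            congr 1
            omega
          have k4 : 0 ≤ Y ^ (r - 1) := by positivity
          rw [k3]
          rw [← hr] at k1
          calc ‖σ (algebraMap (𝓞 K) K (u : 𝓞 K))‖ ≤ ‖σ (algebraMap (𝓞 K) K (u : 𝓞 K))‖ *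
                (‖σ (algebraMap (𝓞 K) K (g (Ideal.span {x})))‖ * Y ^ (r - 1)) :=
                le_mul_of_one_le_right (norm_nonneg _) k1
            _ = (‖σ (algebraMap (𝓞 K) K (g (Ideal.span {x})))‖ *
                ‖σ (algebraMap (𝓞 K) K (u : 𝓞 K))‖) * Y ^ (r - 1) := by ring
            _ ≤ _ := mul_le_mul_of_nonneg_right k2 k4
      · simp only
        rw [mul_comm]
        exact hu.symm)
    (fun x hx x' hx' b h h' => by
      obtain ⟨e1, e2⟩ := h
      obtain ⟨e3, e4⟩ := h'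
      have hx0 : Ideal.span {x} ≠ (0 : Ideal (𝓞 K)) := by
        rw [Ideal.zero_eq_bot, Ne, Ideal.span_singleton_eq_bot]
        exact hne x hx
      have hx0' : Ideal.span {x'} ≠ (0 : Ideal (𝓞 K)) := by
        rw [Ideal.zero_eq_bot, Ne, Ideal.span_singleton_eq_bot]
        exact hne x' hx'
      have h3 : Ideal.span {x} = Ideal.span {x'} := by
        rw [← Ideal.prod_normalizedFactors_eq_self hx0,
          ← Ideal.prod_normalizedFactors_eq_self hx0', e1, e3]
      rw [e2, e4, h3])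
  refine ⟨f1, ?_⟩
  have h5 : F.card = (Finset.Iic (normalizedFactors J)).card * (US K (Y ^ r)).ncard := by
    rw [hF, Finset.card_product, ← Set.ncard_eq_toFinset_card _ hUfin]
  have h6 : (Ideal.absNorm J : ℝ) ^ (ε / r) = (ν : ℝ) ^ ε := by
    rw [hJ, Ideal.absNorm_span_natCast, RingOfIntegers.rank, ← hr]
    push_cast
    rw [← Real.rpow_natCast, ← Real.rpow_mul (Nat.cast_nonneg _)]
    congr 1
    field_simp
  have h7 : (Y ^ r) ^ (ε / r) = Y ^ ε := by
    rw [← Real.rpow_natCast, ← Real.rpow_mul (by linarith)]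
    congr 1
    field_simp
  calc ((EN K Y ν).ncard : ℝ) ≤ (F.card : ℝ) := by exact_mod_cast f2
    _ = ((Finset.Iic (normalizedFactors J)).card : ℝ) * ((US K (Y ^ r)).ncard : ℝ) := by
      rw [h5]
      push_cast
      rfl
    _ ≤ (C1 * (Ideal.absNorm J : ℝ) ^ (ε / r)) * (C2 * (Y ^ r) ^ (ε / r)) :=
      mul_le_mul (h1 J hJ0) hUcard (Nat.cast_nonneg _) (by positivity)
    _ = C1 * C2 * (ν : ℝ) ^ ε * Y ^ ε := by
      rw [h6, h7]
      ring

end Pool.Agent.X12.Nf
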