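import Pool.Agent.X12.Pg4

/-!
# The counts
-/

set_option autoImplicit false

namespace Pool.Agent.X12.Pg

open Polynomial Function
open Pool.Agent.X12.Dyn (TS mem_TS TS_card)

theorem FD_card {d : ℕ} (hd : 2 ≤ d) (m : ℕ) (ε : ℝ) (hε : 0 < ε) : ∃ C : ℝ, 0 < C ∧
    ∀ (a : ℤ) (H Q : ℕ), 1 ≤ H → a ≠ 0 → |a| ≤ (H : ℤ) ^ m →
    Q ≤ LL d a H → ((FD d a H Q).card : ℝ) ≤ C * (H : ℝ) ^ (1 + ε) * Q := by
  classical
  have hd0 : (0 : ℝ) < d := by exact_mod_cast (by omega : 0 < d)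
  -- the exponents
  set P : ℝ := m * (d - 1) + d + 2 * (m + 1) with hP
  have hd1 : (1 : ℝ) ≤ d := by exact_mod_cast (by omega : 1 ≤ d)
  have hP0 : 0 < P := by
    rw [hP]
    have : (0 : ℝ) ≤ m := Nat.cast_nonneg m
    nlinarith
  set η := ε / (d * P) with hη
  have hη0 : 0 < η := by positivity
  obtain ⟨C0, hC0, hTS⟩ := TS_card η hη0
  set A : ℝ := 2 * (d + 1) with hA
  have hA1 : 1 ≤ A := by rw [hA]; linarith
  refine ⟨2 * (C0 * A ^ η * A ^ η) ^ d, by positivity, fun a H Q hH ha haH hQ => ?_⟩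
  have hH1 : (1 : ℝ) ≤ H := by exact_mod_cast hH
  have hH0 : (0 : ℝ) < H := by linarith
  have ha1 : (1 : ℝ) ≤ |(a : ℝ)| := by
    have := Int.one_le_abs ha
    exact_mod_cast this
  have haH' : |(a : ℝ)| ≤ (H : ℝ) ^ m := by exact_mod_cast haH
  set M : ℝ := C0 * A ^ η * A ^ η * (H : ℝ) ^ (P * η) with hM
  have hM0 : 0 ≤ M := by positivity
  have hYle : YY d a H ≤ A * (H : ℝ) ^ (m * (d - 1) + d : ℝ) := by
    unfold YY
    have e1 : |(a : ℝ)| ^ (d - 1) ≤ ((H : ℝ) ^ m) ^ (d - 1) :=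
      pow_le_pow_left₀ (abs_nonneg _) haH' _
    have e2 : ((H : ℝ) ^ m) ^ (d - 1) * (H : ℝ) ^ d = (H : ℝ) ^ (m * (d - 1) + d : ℝ) := by
      rw [← pow_mul, ← pow_add, ← Real.rpow_natCast]
      congr 1
      push_cast [Nat.cast_sub (by omega : 1 ≤ d)]
      ring
    calc 2 * ((d : ℝ) + 1) * |(a : ℝ)| ^ (d - 1) * (H : ℝ) ^ d =
        A * (|(a : ℝ)| ^ (d - 1) * (H : ℝ) ^ d) := by rw [hA]; ring
      _ ≤ A * (((H : ℝ) ^ m) ^ (d - 1) * (H : ℝ) ^ d) := by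
        refine mul_le_mul_of_nonneg_left ?_ (by positivity)
        exact mul_le_mul_of_nonneg_right e1 (by positivity)
      _ = _ := by rw [e2]
  have key : ∀ D q : ℕ, 1 ≤ D → D ≤ H → 1 ≤ q → q ≤ Q →
      ((TS (YY d a H) (a.natAbs * (D * q))).card : ℝ) ≤ M := by
    intro D q hD hDH hq hqQ
    have hY : 1 ≤ YY d a H := by
      unfold YY
      rw [← hA]
      have h1 : 1 ≤ (H : ℝ) ^ d := one_le_pow₀ hH1
      have h2 : 1 ≤ |(a : ℝ)| ^ (d - 1) := one_le_pow₀ ha1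
      have h3 : 1 ≤ A * |(a : ℝ)| ^ (d - 1) := by nlinarith
      nlinarith
    refine (hTS _ (a.natAbs * (D * q)) hY (Nat.mul_pos (Int.natAbs_pos.2 ha)
      (Nat.mul_pos hD hq))).trans ?_
    have e1 : (YY d a H) ^ η ≤ A ^ η * (H : ℝ) ^ ((m * (d - 1) + d : ℝ) * η) := by
      refine (Real.rpow_le_rpow (by linarith) hYle hη0.le).trans (le_of_eq ?_)
      rw [Real.mul_rpow (by positivity) (by positivity), ← Real.rpow_mul hH0.le]
    have e2 : ((a.natAbs * (D * q) : ℕ) : ℝ) ^ η ≤ A ^ η * (H : ℝ) ^ ((2 * (m + 1) : ℝ) * η) := by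
      have h0 : (a.natAbs : ℝ) ≤ (H : ℝ) ^ m := by
        rw [Nat.cast_natAbs, Int.cast_abs]
        exact haH'
      have h1 : ((a.natAbs * (D * q) : ℕ) : ℝ) ≤ A * (H : ℝ) ^ (2 * (m + 1) : ℝ) := by
        have h2 : D * q ≤ H * (2 * (d + 1) * (a.natAbs * H)) := by
          refine Nat.mul_le_mul hDH (hqQ.trans ?_)
          exact hQ
        have h3 : ((a.natAbs * (D * q) : ℕ) : ℝ) ≤
            ((a.natAbs * (H * (2 * (d + 1) * (a.natAbs * H))) : ℕ) : ℝ) := by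
          exact_mod_cast Nat.mul_le_mul_left _ h2
        refine h3.trans ?_
        have h4 : ((a.natAbs * (H * (2 * (d + 1) * (a.natAbs * H))) : ℕ) : ℝ) =
            A * ((a.natAbs : ℝ) * a.natAbs * (H : ℝ) ^ 2) := by
          rw [hA]
          push_cast
          ring
        rw [h4]
        refine mul_le_mul_of_nonneg_left ?_ (by positivity)
        have h5 : (a.natAbs : ℝ) * a.natAbs ≤ (H : ℝ) ^ m * (H : ℝ) ^ m :=
          mul_le_mul h0 h0 (Nat.cast_nonneg _) (by positivity)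
        have h6 : (H : ℝ) ^ (2 * (m + 1) : ℝ) = (H : ℝ) ^ m * (H : ℝ) ^ m * (H : ℝ) ^ 2 := by
          have e : (2 * ((m : ℝ) + 1)) = ((m + m + 2 : ℕ) : ℝ) := by
            push_cast
            ring
          rw [e, Real.rpow_natCast, pow_add, pow_add]
        rw [h6]
        exact mul_le_mul_of_nonneg_right h5 (by positivity)
      refine (Real.rpow_le_rpow (Nat.cast_nonneg _) h1 hη0.le).trans (le_of_eq ?_)
      rw [Real.mul_rpow (by positivity) (by positivity), ← Real.rpow_mul hH0.le]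
    have e3 : (H : ℝ) ^ (P * η) = (H : ℝ) ^ ((m * (d - 1) + d : ℝ) * η) *
        (H : ℝ) ^ ((2 * (m + 1) : ℝ) * η) := by
      rw [← Real.rpow_add hH0]
      congr 1
      rw [hP]
      ring
    rw [hM, e3]
    calc C0 * (YY d a H) ^ η * ((a.natAbs * (D * q) : ℕ) : ℝ) ^ η ≤
          C0 * (A ^ η * (H : ℝ) ^ ((m * (d - 1) + d : ℝ) * η)) *
            (A ^ η * (H : ℝ) ^ ((2 * (m + 1) : ℝ) * η)) := by
          refine mul_le_mul (mul_le_mul_of_nonneg_left e1 hC0.le) e2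
            (Real.rpow_nonneg (Nat.cast_nonneg _) _) (by positivity)
      _ = _ := by ring
  have hcard : ((FD d a H Q).card : ℝ) ≤ ((H * Q * 2 : ℕ) : ℝ) * M ^ d := by
    unfold FD
    rw [Finset.card_sigma]
    push_cast
    have h1 : ∀ x ∈ (Finset.Icc 1 H ×ˢ Finset.Icc 1 Q) ×ˢ (Finset.univ : Finset Bool),
        (((Fintype.piFinset fun _ : Fin d => TS (YY d a H)
          (a.natAbs * (x.1.1 * x.1.2))).card : ℕ) : ℝ) ≤ M ^ d := by
      intro x hx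
      rw [Finset.mem_product, Finset.mem_product, Finset.mem_Icc, Finset.mem_Icc] at hx
      obtain ⟨⟨⟨a1, a2⟩, a3, a4⟩, -⟩ := hx
      rw [Fintype.card_piFinset_const]
      push_cast
      exact pow_le_pow_left₀ (Nat.cast_nonneg _) (key _ _ a1 a2 a3 a4) _
    refine (Finset.sum_le_card_nsmul _ _ _ h1).trans (le_of_eq ?_)
    rw [Finset.card_product, Finset.card_product, Nat.card_Icc, Nat.card_Icc, Finset.card_univ,
      Fintype.card_bool, nsmul_eq_mul]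
    push_cast
    simp
  refine hcard.trans (le_of_eq ?_)
  have e4 : M ^ d = (C0 * A ^ η * A ^ η) ^ d * (H : ℝ) ^ ε := by
    rw [hM, mul_pow, ← Real.rpow_natCast ((H : ℝ) ^ (P * η)) d, ← Real.rpow_mul hH0.le]
    congr 2
    rw [hη]
    field_simp
  rw [e4, Real.rpow_add hH0, Real.rpow_one]
  push_cast
  ring

lemma LL_pos {d : ℕ} {a : ℤ} {H : ℕ} (ha : a ≠ 0) (hH : 1 ≤ H) : 1 ≤ LL d a H := by
  unfold LL
  have h1 := Int.natAbs_pos.2 ha
  exact Nat.mul_pos (by omega) (Nat.mul_pos h1 hH)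

/-- the polynomials with a rational point of period more than `d` -/
theorem cyc_count {d : ℕ} (hd : 2 ≤ d) (m : ℕ) (ε : ℝ) (hε : 0 < ε) : ∃ C : ℝ, 0 < C ∧
    ∀ (H : ℕ) (a : ℤ), 1 ≤ H → a ≠ 0 → |a| ≤ (H : ℤ) ^ m →
    (({f | f ∈ Fam d a H ∧ ∃ z : ℚ, d < minimalPeriod (fun x => f.eval x) z} :
      Set ℚ[X]).ncard : ℝ) ≤ C * (H : ℝ) ^ (1 + ε) := by
  obtain ⟨C, hC, h⟩ := FD_card hd m ε hε
  refine ⟨C, hC, fun H a hH ha haH => ?_⟩
  obtain ⟨h1, h2⟩ := bad_card hd ha H 1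
  have h3 : ({f | f ∈ Fam d a H ∧ ∃ z : ℚ, d < minimalPeriod (fun x => f.eval x) z} : Set ℚ[X]) ⊆
      Bad d a H 1 := by
    rintro f ⟨hf, z, hz⟩
    exact cyc_bad hd ha hf hz
  have h4 := Set.ncard_le_ncard h3 h1
  have h5 := h a H 1 hH ha haH (LL_pos ha hH)
  rw [Nat.cast_one, mul_one] at h5
  refine le_trans ?_ h5
  exact_mod_cast h4.trans h2

lemma QK_le {K L : ℕ} (hK : 1 ≤ K) (hL : 1 ≤ L) : QK K L ≤ L ∧
    (QK K L : ℝ) ≤ (L : ℝ) ^ (1 / (K : ℝ)) := by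
  have hK1 : (1 : ℝ) ≤ K := by exact_mod_cast hK
  have hx1 : (1 : ℝ) ≤ (L : ℝ) := by exact_mod_cast hL
  have h1 : (QK K L : ℝ) ≤ (L : ℝ) ^ (1 / (K : ℝ)) := by
    unfold QK
    exact Nat.floor_le (Real.rpow_nonneg (by linarith) _)
  refine ⟨?_, h1⟩
  have h2 : (L : ℝ) ^ (1 / (K : ℝ)) ≤ (L : ℝ) := by
    calc (L : ℝ) ^ (1 / (K : ℝ)) ≤ (L : ℝ) ^ (1 : ℝ) := by
          refine Real.rpow_le_rpow_of_exponent_le hx1 ?_
          rw [div_le_one (by linarith)]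
          exact hK1
      _ = _ := Real.rpow_one _
  exact_mod_cast h1.trans h2

/-- the common bound for the long orbits -/
theorem long_count {d : ℕ} (hd : 2 ≤ d) (m : ℕ) {K : ℕ} (hK : 1 ≤ K) (ε : ℝ) (hε : 0 < ε) :
    ∃ C : ℝ, 0 < C ∧ ∀ (H : ℕ) (a : ℤ), 1 ≤ H → a ≠ 0 → |a| ≤ (H : ℤ) ^ m → ∀ S : Set ℚ[X],
      (∀ f ∈ S, f ∈ Fam d a H ∧ ∃ z ∈ Pre f,
      ∀ i ≤ K * d + 1, ∀ j ≤ K * d + 1, orb f z i = orb f z j → i = j) →
      (S.ncard : ℝ) ≤ C * (H : ℝ) ^ (1 + ((m : ℝ) + 1) / (K : ℝ) + ε) := by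
  obtain ⟨C, hC, h⟩ := FD_card hd m ε hε
  refine ⟨C * (2 * (d + 1) : ℝ) ^ (1 / (K : ℝ)), by positivity, fun H a hH ha haH S hS => ?_⟩
  obtain ⟨h1, h2⟩ := bad_card hd ha H (QK K (LL d a H))
  have hH0 : (0 : ℝ) < H := by exact_mod_cast hH
  have h3 : S ⊆ Bad d a H (QK K (LL d a H)) := by
    intro f hf
    obtain ⟨e1, z, e2, e3⟩ := hS f hf
    exact orb_bad hd ha hK e1 e2 e3
  have h4 := Set.ncard_le_ncard h3 h1
  obtain ⟨q1, q2⟩ := QK_le (L := LL d a H) hK (LL_pos ha hH)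
  have h5 := h a H (QK K (LL d a H)) hH ha haH q1
  have h6 : (S.ncard : ℝ) ≤ ((FD d a H (QK K (LL d a H))).card : ℝ) := by
    exact_mod_cast h4.trans h2
  have h7 : (LL d a H : ℝ) ^ (1 / (K : ℝ)) ≤
      (2 * (d + 1) : ℝ) ^ (1 / (K : ℝ)) * (H : ℝ) ^ (((m : ℝ) + 1) / (K : ℝ)) := by
    have h8 : (LL d a H : ℝ) ≤ (2 * (d + 1) : ℝ) * (H : ℝ) ^ ((m : ℝ) + 1) := by
      unfold LL
      push_cast
      refine mul_le_mul_of_nonneg_left ?_ (by positivity)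
      have h9 : (a.natAbs : ℝ) ≤ (H : ℝ) ^ m := by
        rw [Nat.cast_natAbs, Int.cast_abs]
        exact_mod_cast haH
      have h10 : (H : ℝ) ^ ((m : ℝ) + 1) = (H : ℝ) ^ m * H := by
        have e : ((m : ℝ) + 1) = ((m + 1 : ℕ) : ℝ) := by push_cast; ring
        rw [e, Real.rpow_natCast, pow_succ]
      rw [h10]
      exact mul_le_mul_of_nonneg_right h9 hH0.le
    refine (Real.rpow_le_rpow (Nat.cast_nonneg _) h8 (by positivity)).trans (le_of_eq ?_)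
    rw [Real.mul_rpow (by positivity) (by positivity), ← Real.rpow_mul hH0.le]
    congr 2
    ring
  refine h6.trans (h5.trans ?_)
  calc C * (H : ℝ) ^ (1 + ε) * (QK K (LL d a H) : ℝ) ≤ C * (H : ℝ) ^ (1 + ε) *
        ((2 * (d + 1) : ℝ) ^ (1 / (K : ℝ)) * (H : ℝ) ^ (((m : ℝ) + 1) / (K : ℝ))) :=
        mul_le_mul_of_nonneg_left (q2.trans h7) (by positivity)
    _ = _ := by
      have e : (H : ℝ) ^ (1 + ((m : ℝ) + 1) / (K : ℝ) + ε) =
          (H : ℝ) ^ (1 + ε) * (H : ℝ) ^ (((m : ℝ) + 1) / (K : ℝ)) := by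
        rw [← Real.rpow_add hH0]
        congr 1
        ring
      rw [e]
      ring

end Pool.Agent.X12.Pg
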