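import Pool.Agent.X12.Pg4

/-!
# The size of the family
-/

set_option autoImplicit false

namespace Pool.Agent.X12.Pg

open Polynomial Function

/-! ### Coprime pairs -/

/-- the coprime pairs -/
noncomputable def CQ (N M : ℕ) : Finset (ℕ × ℕ) := by
  classical
  exact (Finset.Icc 1 N ×ˢ Finset.Icc 1 M).filter fun p => Nat.Coprime p.1 p.2

theorem CQ_card (N M : ℕ) : (N : ℝ) * M / 4 ≤ ((CQ N M).card : ℝ) := by
  classical
  have h1 : (Finset.Icc 1 N ×ˢ Finset.Icc 1 M) ⊆ CQ N M ∪ (Finset.Icc 2 N).biUnion fun d =>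
      ((Finset.Icc 1 N).filter fun m => d ∣ m) ×ˢ ((Finset.Icc 1 M).filter fun m => d ∣ m) := by
    intro p hp
    rw [Finset.mem_union]
    by_cases hc : Nat.Coprime p.1 p.2
    · left
      unfold CQ
      exact Finset.mem_filter.2 ⟨hp, hc⟩
    · right
      rw [Finset.mem_product] at hp
      have hp1 := Finset.mem_Icc.1 hp.1
      have hg1 : Nat.gcd p.1 p.2 ≠ 1 := hc
      have hg0 : 0 < Nat.gcd p.1 p.2 := Nat.gcd_pos_of_pos_left _ (by omega)
      have hg2 : Nat.gcd p.1 p.2 ≤ p.1 := Nat.le_of_dvd (by omega) (Nat.gcd_dvd_left _ _)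
      rw [Finset.mem_biUnion]
      refine ⟨Nat.gcd p.1 p.2, Finset.mem_Icc.2 ⟨by omega, by omega⟩, ?_⟩
      rw [Finset.mem_product, Finset.mem_filter, Finset.mem_filter]
      exact ⟨⟨hp.1, Nat.gcd_dvd_left _ _⟩, hp.2, Nat.gcd_dvd_right _ _⟩
  have h2 := (Finset.card_le_card h1).trans (Finset.card_union_le _ _)
  rw [Finset.card_product, Nat.card_Icc, Nat.add_sub_cancel, Nat.card_Icc, Nat.add_sub_cancel] at h2
  have h3 : ((Finset.Icc 2 N).biUnion fun d =>
      ((Finset.Icc 1 N).filter fun m => d ∣ m) ×ˢ ((Finset.Icc 1 M).filter fun m => d ∣ m)).card ≤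
      ∑ d ∈ Finset.Icc 2 N, (N / d) * (M / d) := by
    refine Finset.card_biUnion_le.trans (le_of_eq ?_)
    refine Finset.sum_congr rfl fun d hd => ?_
    rw [Finset.mem_Icc] at hd
    rw [Finset.card_product, Obi.card_mult N d, Obi.card_mult M d]
  have h4 : (∑ d ∈ Finset.Icc 2 N, ((N / d : ℕ) : ℝ) * ((M / d : ℕ) : ℝ)) ≤
      (N : ℝ) * M * (3 / 4) := by
    have h5 : ∀ d ∈ Finset.Icc 2 N, ((N / d : ℕ) : ℝ) * ((M / d : ℕ) : ℝ) ≤
        (N : ℝ) * M * (1 / (d : ℝ) ^ 2) := by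
      intro d hd
      have h6 : ((N / d : ℕ) : ℝ) ≤ (N : ℝ) / d := Nat.cast_div_le
      have h6' : ((M / d : ℕ) : ℝ) ≤ (M : ℝ) / d := Nat.cast_div_le
      have h7 : (0 : ℝ) ≤ ((N / d : ℕ) : ℝ) := Nat.cast_nonneg _
      have h7' : (0 : ℝ) ≤ ((M / d : ℕ) : ℝ) := Nat.cast_nonneg _
      calc ((N / d : ℕ) : ℝ) * ((M / d : ℕ) : ℝ) ≤ ((N : ℝ) / d) * ((M : ℝ) / d) :=
            mul_le_mul h6 h6' h7' (h7.trans h6)
        _ = (N : ℝ) * M * (1 / (d : ℝ) ^ 2) := by
          rw [div_mul_div_comm, ← sq]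
          ring
    refine (Finset.sum_le_sum h5).trans ?_
    rw [← Finset.mul_sum]
    refine mul_le_mul_of_nonneg_left ?_ (by positivity)
    by_cases h8 : 2 ≤ N
    · have h9 := Obi.sum_sq_le h8
      have h10 : (0 : ℝ) ≤ 1 / N := by positivity
      linarith
    · have : Finset.Icc 2 N = ∅ := Finset.Icc_eq_empty (by omega)
      rw [this]
      norm_num
  have h5 : ((N : ℝ) * M) ≤ ((CQ N M).card : ℝ) +
      ∑ d ∈ Finset.Icc 2 N, ((N / d : ℕ) : ℝ) * ((M / d : ℕ) : ℝ) := by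
    exact_mod_cast h2.trans (Nat.add_le_add le_rfl h3)
  linarith

/-! ### The upper bound -/

lemma sum_exp (e : ℕ) : ∑ j ∈ Finset.range e, (e + 1 - j) = e * (e + 3) / 2 := by
  have h : 2 * ∑ j ∈ Finset.range e, (e + 1 - j) = e * (e + 3) := by
    induction e with
    | zero => rfl
    | succ e ih =>
      rw [Finset.sum_range_succ', Nat.sub_zero]
      have h1 : ∑ k ∈ Finset.range e, (e + 1 + 1 - (k + 1)) =
          ∑ k ∈ Finset.range e, (e + 1 - k) := by
        refine Finset.sum_congr rfl fun k _ => ?_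
        omega
      rw [h1, mul_add, ih]
      ring
  omega

lemma exp_up {d : ℕ} (hd : 2 ≤ d) :
    1 + ∑ i : Fin (d - 1), (d - (i : ℕ)) = d * (d + 1) / 2 := by
  obtain ⟨e, rfl⟩ : ∃ e, d = e + 2 := ⟨d - 2, by omega⟩
  have h1 : ∑ i : Fin (e + 2 - 1), (e + 2 - (i : ℕ)) = ∑ j ∈ Finset.range (e + 1), (e + 1 + 1 - j) :=
    Fin.sum_univ_eq_sum_range (fun j => e + 2 - j) (e + 1)
  rw [h1, sum_exp (e + 1)]
  have h2 : (e + 2) * (e + 2 + 1) = 2 + (e + 1) * (e + 1 + 3) := by ring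
  rw [h2]
  omega

lemma exp_low {d : ℕ} (hd : 2 ≤ d) :
    1 + d + ∑ i : Fin (d - 2), (d - 1 - (i : ℕ)) = d * (d + 1) / 2 := by
  obtain ⟨e, rfl⟩ : ∃ e, d = e + 2 := ⟨d - 2, by omega⟩
  have h1 : ∑ i : Fin (e + 2 - 2), (e + 2 - 1 - (i : ℕ)) = ∑ j ∈ Finset.range e, (e + 1 - j) :=
    Fin.sum_univ_eq_sum_range (fun j => e + 1 - j) e
  rw [h1, sum_exp e]
  have h2 : (e + 2) * (e + 2 + 1) = 2 * (1 + (e + 2)) + e * (e + 3) := by ring
  rw [h2]
  omega

theorem fam_upper {d : ℕ} (hd : 2 ≤ d) (a : ℤ) {H : ℕ} (hH : 1 ≤ H) :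
    (Fam d a H).Finite ∧ (Fam d a H).ncard ≤ 3 ^ (d - 1) * H ^ (d * (d + 1) / 2) := by
  classical
  set F : Finset (ℕ × (Fin (d - 1) → ℤ)) := Finset.Icc 1 H ×ˢ Fintype.piFinset
    (fun i : Fin (d - 1) => Finset.Icc (-((H : ℤ) ^ (d - (i : ℕ)))) ((H : ℤ) ^ (d - (i : ℕ)))) with hF
  have hcard : F.card ≤ 3 ^ (d - 1) * H ^ (d * (d + 1) / 2) := by
    rw [hF, Finset.card_product, Nat.card_Icc, Nat.add_sub_cancel, Fintype.card_piFinset]
    have h1 : ∏ i : Fin (d - 1), (Finset.Icc (-((H : ℤ) ^ (d - (i : ℕ))))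
        ((H : ℤ) ^ (d - (i : ℕ)))).card ≤ ∏ i : Fin (d - 1), (3 * H ^ (d - (i : ℕ))) := by
      refine Finset.prod_le_prod' fun i _ => ?_
      rw [Int.card_Icc]
      have h2 : 1 ≤ H ^ (d - (i : ℕ)) := Nat.one_le_pow _ _ hH
      have h3 : ((H : ℤ) ^ (d - (i : ℕ)) + 1 - -((H : ℤ) ^ (d - (i : ℕ)))) =
          ((2 * H ^ (d - (i : ℕ)) + 1 : ℕ) : ℤ) := by
        push_cast
        ring
      rw [h3, Int.toNat_natCast]
      omega
    refine (Nat.mul_le_mul le_rfl h1).trans (le_of_eq ?_)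
    rw [Finset.prod_mul_distrib, Finset.prod_const, Finset.card_univ, Fintype.card_fin,
      Finset.prod_pow_eq_pow_sum, ← exp_up hd, pow_add, pow_one]
    ring
  set R : ℚ[X] → ℕ × (Fin (d - 1) → ℤ) → Prop := fun f b => f.natDegree = d ∧ f.coeff d = a ∧
    f.coeff (d - 1) = 0 ∧ 1 ≤ b.1 ∧ ∀ i : Fin (d - 1), (b.2 i : ℚ) =
      (b.1 : ℚ) ^ (d - (i : ℕ)) * f.coeff i with hR
  have hex : ∀ f ∈ Fam d a H, ∃ b ∈ F, R f b := by
    rintro f ⟨a1, a2, a3, D, a4, a5, a6⟩
    choose B hB using fun i : Fin (d - 1) => a6 i (by omega)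
    refine ⟨(D, B), ?_, a1, a2, a3, a4, fun i => (hB i).1⟩
    rw [hF, Finset.mem_product, Finset.mem_Icc, Fintype.mem_piFinset]
    refine ⟨⟨a4, a5⟩, fun i => ?_⟩
    rw [Finset.mem_Icc]
    exact abs_le.1 (hB i).2
  have hin : ∀ f f' b, R f b → R f' b → f = f' := by
    rintro f f' b ⟨a1, a2, a3, a4, a5⟩ ⟨b1, b2, b3, b4, b5⟩
    have hb0 : (b.1 : ℚ) ≠ 0 := by
      have : b.1 ≠ 0 := by omega
      exact_mod_cast this
    ext i
    rcases Nat.lt_or_ge i (d - 1) with h1 | h1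
    · have e1 := a5 ⟨i, h1⟩
      have e2 := b5 ⟨i, h1⟩
      rw [e1] at e2
      exact mul_left_cancel₀ (pow_ne_zero _ hb0) e2
    · rcases Nat.eq_or_lt_of_le h1 with h2 | h2
      · rw [← h2, a3, b3]
      · rcases Nat.lt_or_ge d i with h3 | h3
        · rw [Polynomial.coeff_eq_zero_of_natDegree_lt (by omega),
            Polynomial.coeff_eq_zero_of_natDegree_lt (by omega)]
        · have h4 : i = d := by omega
          rw [h4, a2, b2]
  obtain ⟨h1, h2⟩ := card_of_rel F R hex hin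
  exact ⟨h1, h2.trans hcard⟩

/-! ### The lower bound -/

/-- the polynomial with given coefficients -/
noncomputable def mk (d : ℕ) (a : ℤ) (c : ℕ → ℚ) : ℚ[X] :=
  C (a : ℚ) * X ^ d + ∑ i ∈ Finset.range (d - 1), C (c i) * X ^ i

lemma mk_sum_coeff (d : ℕ) (c : ℕ → ℚ) (m : ℕ) :
    (∑ i ∈ Finset.range (d - 1), C (c i) * X ^ i : ℚ[X]).coeff m = if m < d - 1 then c m else 0 := by
  rw [Polynomial.finsetSum_coeff]
  simp only [Polynomial.coeff_C_mul_X_pow]
  rw [Finset.sum_ite_eq]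
  simp only [Finset.mem_range]

lemma mk_coeff {d : ℕ} {a : ℤ} (c : ℕ → ℚ) {i : ℕ} (hi : i < d - 1) :
    (mk d a c).coeff i = c i := by
  unfold mk
  rw [Polynomial.coeff_add, mk_sum_coeff, if_pos hi, Polynomial.coeff_C_mul_X_pow,
    if_neg (by omega), zero_add]

lemma mk_coeff_pred {d : ℕ} (hd : 2 ≤ d) (a : ℤ) (c : ℕ → ℚ) : (mk d a c).coeff (d - 1) = 0 := by
  unfold mk
  rw [Polynomial.coeff_add, mk_sum_coeff, if_neg (by omega), Polynomial.coeff_C_mul_X_pow,
    if_neg (by omega), zero_add]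

lemma mk_coeff_top {d : ℕ} (hd : 2 ≤ d) (a : ℤ) (c : ℕ → ℚ) : (mk d a c).coeff d = a := by
  unfold mk
  rw [Polynomial.coeff_add, mk_sum_coeff, if_neg (by omega), Polynomial.coeff_C_mul_X_pow,
    if_pos rfl, add_zero]

lemma mk_natDegree {d : ℕ} (hd : 2 ≤ d) {a : ℤ} (ha : a ≠ 0) (c : ℕ → ℚ) :
    (mk d a c).natDegree = d := by
  refine le_antisymm ?_ ?_
  · rw [Polynomial.natDegree_le_iff_coeff_eq_zero]
    intro m hm
    unfold mk
    rw [Polynomial.coeff_add, mk_sum_coeff, if_neg (by omega), Polynomial.coeff_C_mul_X_pow,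
      if_neg (by omega), add_zero]
  · refine Polynomial.le_natDegree_of_ne_zero ?_
    rw [mk_coeff_top hd]
    exact_mod_cast ha

/-- the coefficients of the family -/
noncomputable def cf (d : ℕ) (x : (ℕ × ℕ) × (Fin (d - 2) → ℕ)) (i : ℕ) : ℚ :=
  if i = 0 then (x.1.2 : ℚ) / (x.1.1 : ℚ) ^ d else
    if h : i - 1 < d - 2 then (x.2 ⟨i - 1, h⟩ : ℚ) / (x.1.1 : ℚ) ^ (d - i) else 0

theorem fam_lower {d : ℕ} (hd : 2 ≤ d) {a : ℤ} (ha : a ≠ 0) {H : ℕ} (hH : 1 ≤ H) :
    (H : ℝ) ^ (d * (d + 1) / 2) / 4 ≤ ((Fam d a H).ncard : ℝ) := by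
  classical
  set G : Finset ((ℕ × ℕ) × (Fin (d - 2) → ℕ)) := CQ H (H ^ d) ×ˢ Fintype.piFinset
    (fun j : Fin (d - 2) => Finset.Icc 1 (H ^ (d - 1 - (j : ℕ)))) with hG
  have hcard : (H : ℝ) ^ (d * (d + 1) / 2) / 4 ≤ (G.card : ℝ) := by
    rw [hG, Finset.card_product, Fintype.card_piFinset]
    simp only [Nat.card_Icc, Nat.add_sub_cancel]
    rw [Finset.prod_pow_eq_pow_sum, ← exp_low hd, pow_add, pow_add, pow_one]
    push_cast
    have h1 := CQ_card H (H ^ d)
    push_cast at h1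
    have h2 : (0 : ℝ) ≤ (H : ℝ) ^ (∑ i : Fin (d - 2), (d - 1 - (i : ℕ))) := by positivity
    nlinarith
  have hmem : ∀ x ∈ G, 1 ≤ x.1.1 ∧ x.1.1 ≤ H ∧ 1 ≤ x.1.2 ∧ x.1.2 ≤ H ^ d ∧
      Nat.Coprime x.1.1 x.1.2 ∧ ∀ j : Fin (d - 2), x.2 j ≤ H ^ (d - 1 - (j : ℕ)) := by
    intro x hx
    rw [hG, Finset.mem_product, Fintype.mem_piFinset] at hx
    obtain ⟨h1, h2⟩ := hx
    unfold CQ at h1
    rw [Finset.mem_filter, Finset.mem_product, Finset.mem_Icc, Finset.mem_Icc] at h1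
    obtain ⟨⟨⟨h3, h4⟩, h5, h6⟩, h7⟩ := h1
    exact ⟨h3, h4, h5, h6, h7, fun j => (Finset.mem_Icc.1 (h2 j)).2⟩
  have hFam : ∀ x ∈ G, mk d a (cf d x) ∈ Fam d a H := by
    intro x hx
    obtain ⟨h1, h2, h3, h4, h5, h6⟩ := hmem x hx
    have hx0 : (x.1.1 : ℚ) ≠ 0 := by
      have : x.1.1 ≠ 0 := by omega
      exact_mod_cast this
    refine ⟨mk_natDegree hd ha _, mk_coeff_top hd a _, mk_coeff_pred hd a _, x.1.1, h1, h2, ?_⟩
    intro i hi
    rcases Nat.lt_or_ge i (d - 1) with hi1 | hi1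
    · rw [mk_coeff _ hi1]
      by_cases hi0 : i = 0
      · subst hi0
        refine ⟨(x.1.2 : ℤ), ?_, ?_⟩
        · unfold cf
          rw [if_pos rfl, Nat.sub_zero]
          field_simp
          norm_cast
        · rw [Nat.sub_zero, abs_of_nonneg (by positivity)]
          exact_mod_cast h4
      · have hlt : i - 1 < d - 2 := by omega
        refine ⟨(x.2 ⟨i - 1, hlt⟩ : ℤ), ?_, ?_⟩
        · unfold cf
          rw [if_neg hi0, dif_pos hlt]
          field_simp
          norm_cast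
        · rw [abs_of_nonneg (by positivity)]
          have h7 := h6 ⟨i - 1, hlt⟩
          have h8 : d - 1 - (i - 1) = d - i := by omega
          simp only [h8] at h7
          exact_mod_cast h7
    · have h7 : i = d - 1 := by omega
      refine ⟨0, ?_, ?_⟩
      · rw [h7, mk_coeff_pred hd a, mul_zero, Int.cast_zero]
      · rw [abs_zero]
        positivity
  have hinj : Set.InjOn (fun x => mk d a (cf d x)) (G : Set ((ℕ × ℕ) × (Fin (d - 2) → ℕ))) := by
    rintro ⟨⟨D, b⟩, w⟩ hx ⟨⟨D', b'⟩, w'⟩ hx' h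
    obtain ⟨h1, h2, h3, h4, h5, h6⟩ := hmem _ hx
    obtain ⟨g1, g2, g3, g4, g5, g6⟩ := hmem _ hx'
    simp only at h1 h2 h3 h4 h5 h6 g1 g2 g3 g4 g5 g6 h
    have hco : ∀ i < d - 1, cf d ((D, b), w) i = cf d ((D', b'), w') i := by
      intro i hi
      rw [← mk_coeff (a := a) (cf d ((D, b), w)) hi, h, mk_coeff (cf d ((D', b'), w')) hi]
    have e0 := hco 0 (by omega)
    unfold cf at e0
    rw [if_pos rfl, if_pos rfl] at e0
    simp only at e0
    have e1 : ((b : ℤ) : ℚ) / (((D : ℤ) ^ d : ℤ) : ℚ) = ((b' : ℤ) : ℚ) / (((D' : ℤ) ^ d : ℤ) : ℚ) := by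
      push_cast
      exact e0
    have hc1 : Nat.Coprime (b : ℤ).natAbs ((D : ℤ) ^ d).natAbs := by
      rw [Int.natAbs_pow, Int.natAbs_natCast, Int.natAbs_natCast]
      exact Nat.Coprime.pow_right _ h5.symm
    have hc2 : Nat.Coprime (b' : ℤ).natAbs ((D' : ℤ) ^ d).natAbs := by
      rw [Int.natAbs_pow, Int.natAbs_natCast, Int.natAbs_natCast]
      exact Nat.Coprime.pow_right _ g5.symm
    obtain ⟨e2, e3⟩ := Rat.div_int_inj (pow_pos (by exact_mod_cast h1) _)
      (pow_pos (by exact_mod_cast g1) _) hc1 hc2 e1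
    have e4 : b = b' := by exact_mod_cast e2
    have e5 : D = D' := by
      have e6 : D ^ d = D' ^ d := by exact_mod_cast e3
      exact Nat.pow_left_injective (by omega) e6
    subst e4
    subst e5
    have hD0 : (D : ℚ) ≠ 0 := by
      have : D ≠ 0 := by omega
      exact_mod_cast this
    have e7 : w = w' := by
      funext j
      have hj := j.2
      have e8 := hco (j + 1) (by omega)
      unfold cf at e8
      have hlt : (j : ℕ) + 1 - 1 < d - 2 := by omega
      rw [if_neg (by omega), if_neg (by omega), dif_pos hlt, dif_pos hlt] at e8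
      simp only [Nat.add_sub_cancel, Fin.eta] at e8
      have e9 := (div_left_inj' (pow_ne_zero _ hD0)).1 e8
      exact_mod_cast e9
    rw [e7]
  have h1 : (G.image fun x => mk d a (cf d x)).card = G.card := Finset.card_image_of_injOn hinj
  have h2 : ((G.image fun x => mk d a (cf d x) : Finset ℚ[X]) : Set ℚ[X]) ⊆ Fam d a H := by
    intro f hf
    obtain ⟨x, hx, rfl⟩ := Finset.mem_image.1 (Finset.mem_coe.1 hf)
    exact hFam x hx
  have h3 := Set.ncard_le_ncard h2 (fam_upper hd a hH).1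
  rw [Set.ncard_coe_finset, h1] at h3
  refine hcard.trans ?_
  exact_mod_cast h3

/-! ### Every polynomial is conjugate to a member of the family -/

theorem exists_conj {d : ℕ} (hd : 2 ≤ d) {g : ℚ[X]} (hg : g.natDegree = d) :
    ∃ (a : ℤ) (H : ℕ) (f : ℚ[X]) (l μ : ℚ), a ≠ 0 ∧ 1 ≤ H ∧ f ∈ Fam d a H ∧ l ≠ 0 ∧
      g.comp (C l * X + C μ) = C l * f + C μ := by
  classical
  have hg0 : g ≠ 0 := by
    rintro rfl
    rw [Polynomial.natDegree_zero] at hg
    omega
  set b := g.coeff d with hb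
  have hb0 : b ≠ 0 := by
    rw [hb, ← hg]
    exact Polynomial.leadingCoeff_ne_zero.2 hg0
  have hd0 : (d : ℚ) ≠ 0 := by
    have : d ≠ 0 := by omega
    exact_mod_cast this
  -- the shift
  set μ : ℚ := -(g.coeff (d - 1)) / (d * b) with hμ
  set l : ℚ := (b.den : ℚ) with hl
  have hl0 : l ≠ 0 := by
    rw [hl]
    exact_mod_cast b.den_ne_zero
  have hlin : (C l * X + C μ : ℚ[X]).natDegree = 1 := Polynomial.natDegree_linear hl0
  have hlc : (C l * X + C μ : ℚ[X]).leadingCoeff = l := Polynomial.leadingCoeff_linear hl0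
  set f : ℚ[X] := C l⁻¹ * (g.comp (C l * X + C μ) - C μ) with hf
  have hconj : g.comp (C l * X + C μ) = C l * f + C μ := by
    rw [hf, ← mul_assoc, ← Polynomial.C_mul, mul_inv_cancel₀ hl0, Polynomial.C_1, one_mul]
    ring
  have hco : ∀ i, (g.comp (C l * X + C μ)).coeff i = (taylor μ g).coeff i * l ^ i := by
    intro i
    have e : (g.comp (C l * X + C μ)) = (taylor μ g).comp (C l * X) := by
      rw [Polynomial.taylor_apply, Polynomial.comp_assoc, Polynomial.add_comp, Polynomial.X_comp,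
        Polynomial.C_comp]
    rw [e, Polynomial.comp_C_mul_X_coeff]
  have htd : (taylor μ g).coeff d = b := by
    have h1 : (taylor μ g).natDegree = d := by rw [Polynomial.natDegree_taylor, hg]
    have h2 := Polynomial.leadingCoeff_taylor μ g
    rw [Polynomial.leadingCoeff, Polynomial.leadingCoeff, h1, hg] at h2
    exact h2
  have htp : (taylor μ g).coeff (d - 1) = 0 := by
    rw [Polynomial.taylor_coeff, Polynomial.eval_eq_sum_range' (n := 2)]
    · rw [Finset.sum_range_succ, Finset.sum_range_one, Polynomial.hasseDeriv_coeff,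
        Polynomial.hasseDeriv_coeff]
      have e1 : 0 + (d - 1) = d - 1 := by omega
      have e2 : 1 + (d - 1) = d := by omega
      have e3 : d.choose (d - 1) = d := by
        have := Nat.choose_symm (n := d) (k := 1) (by omega)
        rw [this, Nat.choose_one_right]
      rw [e1, e2, e3, Nat.choose_self, ← hb, hμ]
      field_simp
      push_cast
      ring
    · refine lt_of_le_of_lt (Polynomial.natDegree_hasseDeriv_le _ _) ?_
      rw [hg]
      omega
  have hfc : ∀ i, i ≠ 0 → f.coeff i = l⁻¹ * ((taylor μ g).coeff i * l ^ i) := by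
    intro i hi
    rw [hf, Polynomial.coeff_C_mul, Polynomial.coeff_sub, hco,
      Polynomial.coeff_C_of_ne_zero hi, sub_zero]
  have hfd : f.coeff d = ((b.num * (b.den : ℤ) ^ (d - 2) : ℤ) : ℚ) := by
    rw [hfc d (by omega), htd]
    have e : l ^ d = l * (l * l ^ (d - 2)) := by
      rw [← mul_assoc, ← sq, ← pow_add]
      congr 1
      omega
    rw [e]
    have e2 : b * l = b.num := by
      rw [hl]
      exact Rat.mul_den_eq_num b
    push_cast
    rw [← hl, ← e2]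
    field_simp
  have hfp : f.coeff (d - 1) = 0 := by
    rw [hfc (d - 1) (by omega), htp]
    ring
  have hfdeg : f.natDegree = d := by
    refine le_antisymm ?_ ?_
    · rw [Polynomial.natDegree_le_iff_coeff_eq_zero]
      intro m hm
      rw [hfc m (by omega), Polynomial.coeff_eq_zero_of_natDegree_lt]
      · ring
      · rw [Polynomial.natDegree_taylor, hg]
        exact hm
    · refine Polynomial.le_natDegree_of_ne_zero ?_
      rw [hfd]
      have h1 : b.num * (b.den : ℤ) ^ (d - 2) ≠ 0 :=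
        mul_ne_zero (Rat.num_ne_zero.2 hb0) (pow_ne_zero _ (by exact_mod_cast b.den_ne_zero))
      exact_mod_cast h1
  -- the height
  set D : ℕ := ∏ i ∈ Finset.range d, (f.coeff i).den with hD
  have hD1 : 1 ≤ D := Finset.prod_pos fun i _ => (f.coeff i).den_pos
  have hB : ∀ i, ∃ B : ℤ, i < d → (B : ℚ) = (D : ℚ) ^ (d - i) * f.coeff i := by
    intro i
    by_cases hi : i < d
    · obtain ⟨k, hk⟩ := Finset.dvd_prod_of_mem (fun i => (f.coeff i).den) (Finset.mem_range.2 hi)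
      refine ⟨(f.coeff i).num * k * (D : ℤ) ^ (d - i - 1), fun _ => ?_⟩
      have e1 : (D : ℚ) ^ (d - i) = (D : ℚ) ^ (d - i - 1) * D := by
        rw [← pow_succ]
        congr 1
        omega
      have e2 : (D : ℚ) = ((f.coeff i).den : ℚ) * k := by
        rw [hD]
        exact_mod_cast hk
      have e3 := Rat.mul_den_eq_num (f.coeff i)
      have e4 : (D : ℚ) ^ (d - i) * f.coeff i = (D : ℚ) ^ (d - i - 1) * (k * (f.coeff i *
          ((f.coeff i).den : ℚ))) := by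
        rw [e1]
        conv_lhs => rw [mul_assoc, e2]
        rw [← e2]
        rw [show (D : ℚ) * f.coeff i = ((f.coeff i).den : ℚ) * k * f.coeff i by rw [← e2]]
        ring
      rw [e4, e3]
      push_cast
      ring
    · exact ⟨0, fun h => absurd h hi⟩
  choose B hB using hB
  set H : ℕ := D + ∑ i ∈ Finset.range d, (B i).natAbs with hH
  have hH1 : 1 ≤ H := by omega
  refine ⟨b.num * (b.den : ℤ) ^ (d - 2), H, f, l, μ, ?_, hH1, ?_, hl0, hconj⟩
  · exact mul_ne_zero (Rat.num_ne_zero.2 hb0) (pow_ne_zero _ (by exact_mod_cast b.den_ne_zero))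
  · refine ⟨hfdeg, hfd, hfp, D, hD1, by omega, fun i hi => ⟨B i, hB i hi, ?_⟩⟩
    have h1 : (B i).natAbs ≤ ∑ i ∈ Finset.range d, (B i).natAbs :=
      Finset.single_le_sum (f := fun i => (B i).natAbs) (fun _ _ => Nat.zero_le _)
        (Finset.mem_range.2 hi)
    have h2 : (B i).natAbs ≤ H := by omega
    have h3 : H ≤ H ^ (d - i) := Nat.le_self_pow (by omega) H
    have h4 : |B i| ≤ (H : ℤ) := by
      rw [← Int.natCast_natAbs]
      exact_mod_cast h2
    refine h4.trans ?_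
    exact_mod_cast h3

end Pool.Agent.X12.Pg
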