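import Pool.Agent.X12.Nf3
import Pool.Agent.X12.Pg5
import Pool.Agent.X12.Pg6

/-!
# Preperiodic points of polynomials over a number field: integrality and size
-/

set_option autoImplicit false

namespace Pool.Agent.X12.Nf

open NumberField Module Polynomial Function IsDedekindDomain

/-! ### General facts -/

lemma escape {α Γ : Type*} [LinearOrder Γ] {h : α → α} (P : α → Prop) (φ : α → Γ)
    (H : ∀ x, P x → P (h x) ∧ φ x < φ (h x)) {z : α} (hz : P z)
    (hfin : (Set.range fun k : ℕ => h^[k] z).Finite) : False := by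
  have hk : ∀ k : ℕ, P (h^[k] z) := by
    intro k
    induction k with
    | zero => exact hz
    | succ k ih =>
      rw [Function.iterate_succ_apply']
      exact (H _ ih).1
  have hmono : StrictMono fun k : ℕ => φ (h^[k] z) := by
    refine strictMono_nat_of_lt_succ fun k => ?_
    rw [Function.iterate_succ_apply']
    exact (H _ (hk k)).2
  have hinj : Function.Injective fun k : ℕ => h^[k] z := by
    intro i j hij
    exact hmono.injective (by simp only at hij ⊢; rw [hij])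
  exact Set.infinite_range_of_injective hinj hfin

section field

variable {F : Type*} [Field F]

/-- the elements with a finite forward orbit -/
def Pre (f : F[X]) : Set F := {z | (Set.range fun k : ℕ => (fun x => f.eval x)^[k] z).Finite}

/-- the orbit -/
def orb (f : F[X]) (z : F) (i : ℕ) : F := (fun x => f.eval x)^[i] z

lemma orb_succ (f : F[X]) (z : F) (i : ℕ) : orb f z (i + 1) = f.eval (orb f z i) := by
  unfold orb
  rw [Function.iterate_succ_apply']

lemma orb_orb (f : F[X]) (z : F) (i j : ℕ) : orb f (orb f z i) j = orb f z (i + j) := by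
  unfold orb
  rw [← Function.iterate_add_apply, add_comm]

lemma orb_pre {f : F[X]} {z : F} (hz : z ∈ Pre f) (i : ℕ) : orb f z i ∈ Pre f := by
  refine Set.Finite.subset hz ?_
  rintro _ ⟨k, rfl⟩
  refine ⟨i + k, ?_⟩
  have := orb_orb f z i k
  unfold orb at this ⊢
  exact this.symm

lemma pre_of_periodic {f : F[X]} {z : F} (hz : z ∈ periodicPts (fun x => f.eval x)) :
    z ∈ Pre f := by
  obtain ⟨n, hn, hp⟩ := hz
  have h1 : (Set.range fun k : ℕ => (fun x => f.eval x)^[k] z) ⊆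
      (fun k : ℕ => (fun x => f.eval x)^[k] z) '' (Set.Iio n) := by
    rintro _ ⟨k, rfl⟩
    refine ⟨k % n, Nat.mod_lt _ hn, ?_⟩
    simp only
    exact hp.iterate_mod_apply k
  exact ((Set.finite_Iio n).image _).subset h1

lemma eval_form {d : ℕ} {a D : F} {f : F[X]} {B : ℕ → F} (hdeg : f.natDegree = d)
    (hlc : f.coeff d = a) (hB : ∀ i < d, B i = D ^ (d - i) * f.coeff i) (x : F) :
    D ^ d * f.eval x = a * (D * x) ^ d + ∑ i ∈ Finset.range d, B i * (D * x) ^ i := by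
  rw [Polynomial.eval_eq_sum_range, hdeg, Finset.sum_range_succ, hlc, mul_add, Finset.mul_sum,
    add_comm]
  congr 1
  · rw [mul_pow]
    ring
  · refine Finset.sum_congr rfl fun i hi => ?_
    rw [hB i (Finset.mem_range.1 hi), mul_pow]
    have e : d = (d - i) + i := by
      have := Finset.mem_range.1 hi
      omega
    calc D ^ d * (f.coeff i * x ^ i) = D ^ ((d - i) + i) * (f.coeff i * x ^ i) := by
          rw [← e]
      _ = _ := by rw [pow_add]; ring

lemma eval_form2 {d : ℕ} {a D : F} {f : F[X]} {B : ℕ → F} (hd : 2 ≤ d) (hdeg : f.natDegree = d)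
    (hlc : f.coeff d = a) (hB : ∀ i < d, B i = D ^ (d - i) * f.coeff i) (x : F) :
    (a ^ (d - 2) * D ^ (d - 1)) * (a * D * f.eval x) = (a * D * x) ^ d +
      ∑ i ∈ Finset.range d, (B i * a ^ (d - 1 - i)) * (a * D * x) ^ i := by
  have h1 := eval_form hdeg hlc hB x
  have h2 : (a ^ (d - 2) * D ^ (d - 1)) * (a * D * f.eval x) =
      a ^ (d - 1) * (D ^ d * f.eval x) := by
    have e : d - 1 = (d - 2) + 1 := by omega
    have e' : d = (d - 1) + 1 := by omega
    calc a ^ (d - 2) * D ^ (d - 1) * (a * D * f.eval x) =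
        (a ^ (d - 2) * a) * ((D ^ (d - 1) * D) * f.eval x) := by ring
      _ = _ := by rw [← pow_succ, ← pow_succ, ← e, ← e']
  rw [h2, h1, mul_add, Finset.mul_sum]
  congr 1
  · have e : d = (d - 1) + 1 := by omega
    have e1 : a ^ (d - 1) * a = a ^ d := by
      rw [← pow_succ, ← e]
    calc a ^ (d - 1) * (a * (D * x) ^ d) = (a ^ (d - 1) * a) * (D * x) ^ d := by ring
      _ = _ := by rw [e1, ← mul_pow, mul_assoc]
  · refine Finset.sum_congr rfl fun i hi => ?_
    have hi' := Finset.mem_range.1 hi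
    have e : d - 1 = (d - 1 - i) + i := by omega
    have e1 : a ^ (d - 1) = a ^ (d - 1 - i) * a ^ i := by
      rw [← pow_add, ← e]
    rw [e1]
    have e2 : (a * D * x) ^ i = a ^ i * (D * x) ^ i := by
      rw [← mul_pow, mul_assoc]
    rw [e2]
    ring

end field

variable {K : Type*} [Field K] [NumberField K]

/-! ### The integral form -/

/-- the data of the integral recursion -/
structure Bd (d : ℕ) (M : ℝ) (f : K[X]) (c E : 𝓞 K) (C : ℕ → 𝓞 K) : Prop where
  c0 : c ≠ 0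
  E0 : E ≠ 0
  M1 : 1 ≤ M
  hrec : ∀ x : K, (E : K) * (c * f.eval x) = (c * x) ^ d +
    ∑ i ∈ Finset.range d, (C i : K) * (c * x) ^ i
  EM : house (E : K) ≤ M ^ (d - 1)
  CM : ∀ i < d, house (C i : K) ≤ M ^ (d - i)

lemma pre_int {d : ℕ} {M : ℝ} {f : K[X]} {c E : 𝓞 K} {C : ℕ → 𝓞 K} (h : Bd d M f c E C)
    (hd : 2 ≤ d) {z : K} (hz : z ∈ Pre f) : ∃ Z : 𝓞 K, (Z : K) = c * z := by
  have h1 : (c : K) * z ∈ (algebraMap (𝓞 K) K).range := by
    refine HeightOneSpectrum.mem_integers_of_valuation_le_one (R := 𝓞 K) K _ fun v => ?_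
    by_contra hcon
    rw [not_le] at hcon
    refine escape (h := fun x => f.eval x) (fun x => 1 < v.valuation K ((c : K) * x))
      (fun x => v.valuation K ((c : K) * x)) ?_ hcon hz
    intro x hx
    have hx0 : v.valuation K ((c : K) * x) ≠ 0 := (lt_trans zero_lt_one hx).ne'
    have hsum : v.valuation K (∑ i ∈ Finset.range d, (C i : K) * ((c : K) * x) ^ i) <
        v.valuation K (((c : K) * x) ^ d) := by
      refine Valuation.map_sum_lt _ (by rw [map_pow]; exact pow_ne_zero _ hx0) ?_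
      intro i hi
      rw [map_mul, map_pow, map_pow]
      calc v.valuation K (C i : K) * v.valuation K ((c : K) * x) ^ i ≤
            1 * v.valuation K ((c : K) * x) ^ i :=
            mul_le_mul_of_nonneg_right (v.valuation_le_one (C i)) zero_le
        _ = v.valuation K ((c : K) * x) ^ i := one_mul _
        _ < _ := pow_lt_pow_right₀ hx (Finset.mem_range.1 hi)
    have h1 := congrArg (v.valuation K) (h.hrec x)
    rw [map_mul, Valuation.map_add_eq_of_lt_left _ hsum, map_pow] at h1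
    have h3 : v.valuation K ((c : K) * x) < v.valuation K ((c : K) * x) ^ d := by
      calc v.valuation K ((c : K) * x) = v.valuation K ((c : K) * x) ^ 1 := (pow_one _).symm
        _ < _ := pow_lt_pow_right₀ hx (by omega)
    have h4 : v.valuation K ((c : K) * x) ^ d ≤ v.valuation K ((c : K) * f.eval x) := by
      rw [← h1]
      calc v.valuation K (E : K) * v.valuation K ((c : K) * f.eval x) ≤
            1 * v.valuation K ((c : K) * f.eval x) :=
            mul_le_mul_of_nonneg_right (v.valuation_le_one E) zero_le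
        _ = _ := one_mul _
    exact ⟨hx.trans (h3.trans_le h4), h3.trans_le h4⟩
  obtain ⟨Z, hZ⟩ := h1
  exact ⟨Z, hZ⟩

lemma pre_abs {d : ℕ} {M : ℝ} {f : K[X]} {c E : 𝓞 K} {C : ℕ → 𝓞 K} (h : Bd d M f c E C)
    (hd : 2 ≤ d) {z : K} (hz : z ∈ Pre f) (σ : K →+* ℂ) :
    ‖σ ((c : K) * z)‖ ≤ (d + 1) * M := by
  by_contra hcon
  rw [not_le] at hcon
  refine escape (h := fun x => f.eval x) (fun x => ((d : ℝ) + 1) * M < ‖σ ((c : K) * x)‖)
    (fun x => ‖σ ((c : K) * x)‖) ?_ hcon hz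
  intro x hx
  have hM := h.M1
  have hd2 : (2 : ℝ) ≤ d := by exact_mod_cast hd
  set w : ℂ := σ ((c : K) * x) with hw
  have hMy : M ≤ ‖w‖ := by nlinarith
  have hy0 : 0 < ‖w‖ := by linarith
  obtain ⟨e, rfl⟩ : ∃ e, d = e + 2 := ⟨d - 2, by omega⟩
  have hsum : ‖∑ i ∈ Finset.range (e + 2), σ (C i : K) * w ^ i‖ ≤
      ((e + 2 : ℕ) : ℝ) * (M * ‖w‖ ^ (e + 1)) := by
    refine (norm_sum_le _ _).trans ?_
    have := Finset.sum_le_card_nsmul (Finset.range (e + 2)) (fun i => ‖σ (C i : K) * w ^ i‖)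
      (M * ‖w‖ ^ (e + 1)) ?_
    · rwa [Finset.card_range, nsmul_eq_mul] at this
    · intro i hi
      have hi' := Finset.mem_range.1 hi
      rw [norm_mul, norm_pow]
      have h1 : ‖σ (C i : K)‖ ≤ M ^ (e + 2 - i) :=
        (norm_embedding_le_house _ σ).trans (h.CM i hi')
      have h2 : M ^ (e + 2 - i) = M * M ^ (e + 1 - i) := by
        rw [← pow_succ']
        congr 1
        omega
      have h3 : M ^ (e + 1 - i) ≤ ‖w‖ ^ (e + 1 - i) :=
        pow_le_pow_left₀ (by linarith) hMy _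
      have h4 : ‖w‖ ^ (e + 1) = ‖w‖ ^ (e + 1 - i) * ‖w‖ ^ i := by
        rw [← pow_add]
        congr 1
        omega
      rw [h4]
      have h5 : 0 ≤ ‖w‖ ^ i := by positivity
      calc ‖σ (C i : K)‖ * ‖w‖ ^ i ≤ M ^ (e + 2 - i) * ‖w‖ ^ i :=
            mul_le_mul_of_nonneg_right h1 h5
        _ = M * (M ^ (e + 1 - i) * ‖w‖ ^ i) := by rw [h2]; ring
        _ ≤ _ := by
          refine mul_le_mul_of_nonneg_left ?_ (by linarith)
          exact mul_le_mul_of_nonneg_right h3 h5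
  have h1 : ‖σ ((E : K) * ((c : K) * f.eval x))‖ = ‖σ (((c : K) * x) ^ (e + 2) +
      ∑ i ∈ Finset.range (e + 2), (C i : K) * ((c : K) * x) ^ i)‖ := by rw [h.hrec x]
  rw [map_mul, norm_mul, map_add, map_pow, map_sum] at h1
  have h1' : ∑ i ∈ Finset.range (e + 2), σ ((C i : K) * ((c : K) * x) ^ i) =
      ∑ i ∈ Finset.range (e + 2), σ (C i : K) * w ^ i := by
    refine Finset.sum_congr rfl fun i _ => ?_
    rw [map_mul, map_pow]
  rw [h1', ← hw] at h1
  have h2 : ‖w‖ ^ (e + 2) - ((e + 2 : ℕ) : ℝ) * (M * ‖w‖ ^ (e + 1)) ≤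
      ‖w ^ (e + 2) + ∑ i ∈ Finset.range (e + 2), σ (C i : K) * w ^ i‖ := by
    have h3 := norm_sub_norm_le (w ^ (e + 2))
      (-∑ i ∈ Finset.range (e + 2), σ (C i : K) * w ^ i)
    rw [norm_neg, sub_neg_eq_add, norm_pow] at h3
    linarith
  rw [← h1] at h2
  have h3 : M ^ (e + 2 - 1) * ‖w‖ < ‖w‖ ^ (e + 2) -
      ((e + 2 : ℕ) : ℝ) * (M * ‖w‖ ^ (e + 1)) := by
    have g1 : ‖w‖ ^ (e + 2) - ((e + 2 : ℕ) : ℝ) * (M * ‖w‖ ^ (e + 1)) =
        ‖w‖ ^ (e + 1) * (‖w‖ - ((e + 2 : ℕ) : ℝ) * M) := by ring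
    have g2 : M < ‖w‖ - ((e + 2 : ℕ) : ℝ) * M := by linarith
    have g3 : 0 < ‖w‖ ^ (e + 1) := by positivity
    have g4 : M ^ (e + 2 - 1) * ‖w‖ ≤ ‖w‖ ^ (e + 1) * M := by
      have g5 : M ^ e ≤ ‖w‖ ^ e := pow_le_pow_left₀ (by linarith) hMy _
      have g6 : M ^ (e + 2 - 1) = M ^ e * M := by
        rw [← pow_succ]
        congr 1
      rw [g6, pow_succ]
      calc M ^ e * M * ‖w‖ = M ^ e * (M * ‖w‖) := by ring
        _ ≤ ‖w‖ ^ e * (M * ‖w‖) := mul_le_mul_of_nonneg_right g5 (by positivity)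
        _ = _ := by ring
    rw [g1]
    calc M ^ (e + 2 - 1) * ‖w‖ ≤ ‖w‖ ^ (e + 1) * M := g4
      _ < _ := mul_lt_mul_of_pos_left g2 g3
  have h4 : ‖w‖ < ‖σ ((c : K) * f.eval x)‖ := by
    have g0 : ‖σ (E : K)‖ ≤ M ^ (e + 2 - 1) := (norm_embedding_le_house _ σ).trans h.EM
    have g1 : M ^ (e + 2 - 1) * ‖w‖ < M ^ (e + 2 - 1) * ‖σ ((c : K) * f.eval x)‖ :=
      lt_of_lt_of_le h3 (h2.trans (mul_le_mul_of_nonneg_right g0 (norm_nonneg _)))
    exact lt_of_mul_lt_mul_left g1 (by positivity)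
  exact ⟨hx.trans h4, h4⟩

lemma int_orb {d : ℕ} {M : ℝ} {f : K[X]} {c E : 𝓞 K} {C : ℕ → 𝓞 K} (h : Bd d M f c E C)
    (hd : 2 ≤ d) {z : K} (hz : z ∈ Pre f) : ∃ Z : ℕ → 𝓞 K, (∀ i, (Z i : K) = c * orb f z i) ∧
      (∀ i, house (Z i : K) ≤ (d + 1) * M) ∧
      ∀ i, (Z (i + 1) - Z i) ∣ E * (Z (i + 2) - Z (i + 1)) := by
  choose Z hZ using fun i => pre_int h hd (orb_pre hz i)
  have hM := h.M1
  refine ⟨Z, hZ, fun i => ?_, fun i => ?_⟩
  · refine house_le_of K (by positivity) fun σ => ?_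
    rw [hZ]
    exact pre_abs h hd (orb_pre hz i) σ
  · have key : ∀ j, E * Z (j + 1) = Z j ^ d + ∑ i ∈ Finset.range d, C i * Z j ^ i := by
      intro j
      refine RingOfIntegers.coe_injective ?_
      have h1 := h.hrec (orb f z j)
      rw [← hZ, ← orb_succ, ← hZ] at h1
      show algebraMap (𝓞 K) K _ = algebraMap (𝓞 K) K _
      rw [map_mul, map_add, map_pow, map_sum, h1]
      simp only [map_mul, map_pow]
    rw [mul_sub, key, key]
    have e : Z (i + 1) ^ d + ∑ j ∈ Finset.range d, C j * Z (i + 1) ^ j -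
        (Z i ^ d + ∑ j ∈ Finset.range d, C j * Z i ^ j) =
        (Z (i + 1) ^ d - Z i ^ d) + ∑ j ∈ Finset.range d, C j * (Z (i + 1) ^ j - Z i ^ j) := by
      simp only [mul_sub, Finset.sum_sub_distrib]
      ring
    rw [e]
    refine dvd_add (sub_dvd_pow_sub_pow _ _ _) (Finset.dvd_sum fun i _ => ?_)
    exact (sub_dvd_pow_sub_pow _ _ _).mul_left _

/-! ### Norms -/

variable (K) in
lemma Nm_mul (x y : 𝓞 K) : Nm K (x * y) = Nm K x * Nm K y := by
  unfold Nm
  rw [← Ideal.span_singleton_mul_span_singleton, map_mul]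

lemma Nm_dvd {x y : 𝓞 K} (h : x ∣ y) : Nm K x ∣ Nm K y := by
  obtain ⟨w, rfl⟩ := h
  rw [Nm_mul]
  exact Nat.dvd_mul_right _ _

lemma Nm_pos {x : 𝓞 K} (h : x ≠ 0) : 1 ≤ Nm K x := by
  have h1 : Nm K x ≠ 0 := by
    unfold Nm
    rw [Ne, Ideal.absNorm_eq_zero_iff, Ideal.span_singleton_eq_bot]
    exact h
  omega

lemma Nm_pow (x : 𝓞 K) (n : ℕ) : Nm K (x ^ n) = Nm K x ^ n := by
  induction n with
  | zero =>
    unfold Nm
    rw [pow_zero, pow_zero, Ideal.span_singleton_one, Ideal.absNorm_top]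
  | succ n ih => rw [pow_succ, Nm_mul, ih, pow_succ]

lemma Nm_le {x : 𝓞 K} {Y : ℝ} (hY : 0 ≤ Y) (h : house (x : K) ≤ Y) :
    (Nm K x : ℝ) ≤ Y ^ finrank ℚ K := by
  have hr : 1 ≤ finrank ℚ K := finrank_pos
  obtain ⟨σ⟩ : Nonempty (K →+* ℂ) := inferInstance
  have h1 := norm_norm_le_norm_mul_house_pow (x : K) σ
  have h2 : (Nm K x : ℝ) = ‖Algebra.norm ℚ (x : K)‖ := by
    unfold Nm
    rw [Ideal.absNorm_span_singleton, ← Algebra.coe_norm_int, ← Rat.norm_cast_real,
      Real.norm_eq_abs]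
    push_cast
    rw [Nat.cast_natAbs]
    push_cast
    rfl
  rw [h2]
  refine h1.trans ?_
  have h3 : Y ^ finrank ℚ K = Y * Y ^ (finrank ℚ K - 1) := by
    rw [← pow_succ']
    congr 1
    omega
  rw [h3]
  exact mul_le_mul ((norm_embedding_le_house _ σ).trans h)
    (pow_le_pow_left₀ (house_nonneg _) h _) (pow_nonneg (house_nonneg _) _) hY

end Pool.Agent.X12.Nf
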