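import Pool.Agent.X12.Nf4

/-!
# The data which determine a polynomial with a long orbit
-/

set_option autoImplicit false

namespace Pool.Agent.X12.Nf

open Polynomial Function

variable {F : Type*} [Field F] [CharZero F]

omit [CharZero F] in
lemma coeff_shift {d : ℕ} (hd : 2 ≤ d) {a : F} {f : F[X]} (hlc : f.coeff d = a)
    (hdeg : f.natDegree = d) (hc : f.coeff (d - 1) = 0) (μ : F) :
    (f.comp (X + C μ)).coeff (d - 1) = a * (d * μ) := by
  set r := f - C a * X ^ d with hr
  have hf : f = C a * X ^ d + r := by rw [hr]; ring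
  have hr1 : ∀ m, d - 1 ≤ m → r.coeff m = 0 := by
    intro m hmm
    rw [hr, Polynomial.coeff_sub, Polynomial.coeff_C_mul_X_pow]
    rcases Nat.lt_or_ge m d with h1 | h1
    · have : m = d - 1 := by omega
      rw [this, hc, if_neg (by omega), sub_zero]
    · rcases Nat.eq_or_lt_of_le h1 with h2 | h2
      · rw [if_pos h2.symm, ← h2, hlc, sub_self]
      · rw [if_neg (by omega), Polynomial.coeff_eq_zero_of_natDegree_lt (by omega), sub_zero]
  have hr2 : (r.comp (X + C μ)).coeff (d - 1) = 0 := by
    rcases eq_or_ne r 0 with h0 | h0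
    · rw [h0, Polynomial.zero_comp, Polynomial.coeff_zero]
    · refine Polynomial.coeff_eq_zero_of_natDegree_lt ?_
      rw [Polynomial.natDegree_comp, Polynomial.natDegree_X_add_C, mul_one]
      by_contra hcon
      have := hr1 r.natDegree (by omega)
      exact h0 (Polynomial.leadingCoeff_eq_zero.1 this)
  rw [hf, Polynomial.add_comp, Polynomial.coeff_add, hr2, add_zero, Polynomial.C_mul_comp,
    Polynomial.X_pow_comp, Polynomial.coeff_C_mul, Polynomial.coeff_X_add_C_pow]
  have e1 : d - (d - 1) = 1 := by omega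
  have e2 : d.choose (d - 1) = d := by
    have := Nat.choose_symm (n := d) (k := 1) (by omega)
    rw [this, Nat.choose_one_right]
  rw [e1, e2, pow_one]
  ring

/-- a conjugacy between two centred polynomials with the same leading coefficient -/
lemma conj_scale {d : ℕ} (hd : 2 ≤ d) {a : F} (ha : a ≠ 0) {f f' : F[X]}
    (hm : f.coeff d = a) (hm' : f'.coeff d = a)
    (hdeg : f.natDegree = d) (hdeg' : f'.natDegree = d) (hc : f.coeff (d - 1) = 0)
    (hc' : f'.coeff (d - 1) = 0) {l μ : F} (hl : l ≠ 0)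
    (h : f'.comp (C l * X + C μ) = C l * f + C μ) :
    l ^ (d - 1) = 1 ∧ f'.comp (C l * X) = C l * f := by
  have hlin : (C l * X + C μ : F[X]).natDegree = 1 := Polynomial.natDegree_linear hl
  have hlc : (C l * X + C μ : F[X]).leadingCoeff = l := Polynomial.leadingCoeff_linear hl
  have h1 : (f'.comp (C l * X + C μ)).coeff d = (C l * f + C μ : F[X]).coeff d := by rw [h]
  have h2 : (f'.comp (C l * X + C μ)).coeff d = a * l ^ d := by
    have := Polynomial.coeff_comp_degree_mul_degree (p := f') (q := C l * X + C μ)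
      (by rw [hlin]; norm_num)
    rw [hlin, hlc, mul_one, Polynomial.leadingCoeff, hdeg', hm'] at this
    exact this
  have h3 : (C l * f + C μ : F[X]).coeff d = l * a := by
    rw [Polynomial.coeff_add, Polynomial.coeff_C_mul, Polynomial.coeff_C_of_ne_zero (by omega),
      add_zero, hm]
  rw [h2, h3] at h1
  have h4 : l ^ (d - 1) = 1 := by
    have h5 : l ^ (d - 1) * (l * a) = 1 * (l * a) := by
      rw [← mul_assoc, ← pow_succ, Nat.sub_add_cancel (by omega), one_mul, ← h1]
      ring
    exact mul_right_cancel₀ (mul_ne_zero hl ha) h5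
  refine ⟨h4, ?_⟩
  -- the polynomial `l⁻¹ f'(l X)` is centred with leading coefficient `a`
  set p := C l⁻¹ * f'.comp (C l * X) with hp
  have hlX : (C l * X : F[X]).natDegree = 1 := by
    rw [Polynomial.natDegree_C_mul_X l hl]
  have hpd : p.natDegree = d := by
    rw [hp, Polynomial.natDegree_C_mul (inv_ne_zero hl), Polynomial.natDegree_comp, hlX, hdeg',
      mul_one]
  have hcoef : ∀ n, p.coeff n = l⁻¹ * (f'.coeff n * l ^ n) := by
    intro n
    rw [hp, Polynomial.coeff_C_mul, Polynomial.comp_C_mul_X_coeff]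
  have hpa : p.coeff d = a := by
    rw [hcoef, hm']
    have : l ^ d = l ^ (d - 1) * l := by
      rw [← pow_succ, Nat.sub_add_cancel (by omega)]
    rw [this, h4, one_mul]
    field_simp
  have hpc : p.coeff (d - 1) = 0 := by
    rw [hcoef, hc', zero_mul, mul_zero]
  have h6 : p.comp (X + C (l⁻¹ * μ)) = f + C (l⁻¹ * μ) := by
    rw [hp, Polynomial.mul_comp, Polynomial.C_comp, Polynomial.comp_assoc, Polynomial.mul_comp,
      Polynomial.C_comp, Polynomial.X_comp, mul_add, ← Polynomial.C_mul, ← mul_assoc,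
      mul_inv_cancel₀ hl, one_mul, h, mul_add, ← mul_assoc, ← Polynomial.C_mul,
      inv_mul_cancel₀ hl, Polynomial.C_1, one_mul, Polynomial.C_mul]
  have h7 : (p.comp (X + C (l⁻¹ * μ))).coeff (d - 1) = (f + C (l⁻¹ * μ) : F[X]).coeff (d - 1) := by
    rw [h6]
  rw [coeff_shift hd hpa hpd hpc, Polynomial.coeff_add, hc,
    Polynomial.coeff_C_of_ne_zero (by omega), add_zero] at h7
  have h8 : l⁻¹ * μ = 0 := by
    have hd0 : (d : F) ≠ 0 := by
      have : d ≠ 0 := by omega
      exact_mod_cast this
    exact (mul_eq_zero.1 ((mul_eq_zero.1 h7).resolve_left ha)).resolve_left hd0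
  rw [h8, Polynomial.C_0, add_zero, add_zero, Polynomial.comp_X] at h6
  rw [← h6, hp, ← mul_assoc, ← Polynomial.C_mul, mul_inv_cancel₀ hl, Polynomial.C_1, one_mul]

/-- the relation between a polynomial and its data -/
def Rel (d : ℕ) (a : F) (f : F[X]) (E : F) (u : Fin d → F) : Prop :=
  f.coeff d = a ∧ f.natDegree = d ∧ f.coeff (d - 1) = 0 ∧ ∃ z : ℕ → F,
    (∀ i, z (i + 1) = f.eval (z i)) ∧
    (∀ i ≤ d, ∀ j ≤ d, z i = z j → i = j) ∧
    ∀ i : Fin d, u i * (z (i + 1) - z i) = E * (z (i + 2) - z (i + 1))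

theorem rel_scale {d : ℕ} (hd : 2 ≤ d) {a : F} (ha : a ≠ 0) {f f' : F[X]} {E : F} (hE : E ≠ 0)
    {u : Fin d → F} (h : Rel d a f E u) (h' : Rel d a f' E u) :
    ∃ l : F, l ≠ 0 ∧ l ^ (d - 1) = 1 ∧ f'.comp (C l * X) = C l * f := by
  obtain ⟨hm, hdeg, hc, z, hz, hinj, hu⟩ := h
  obtain ⟨hm', hdeg', hc', z', hz', hinj', hu'⟩ := h'
  have ht0 : z 1 - z 0 ≠ 0 := by
    intro h0
    have := hinj 1 (by omega) 0 (by omega) (sub_eq_zero.1 h0)
    omega
  have ht0' : z' 1 - z' 0 ≠ 0 := by
    intro h0
    have := hinj' 1 (by omega) 0 (by omega) (sub_eq_zero.1 h0)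
    omega
  set l := (z' 1 - z' 0) / (z 1 - z 0) with hl
  set μ := z' 0 - l * z 0 with hμ
  have hl0 : l ≠ 0 := div_ne_zero ht0' ht0
  have hT : ∀ i ≤ d, z' (i + 1) - z' i = l * (z (i + 1) - z i) := by
    intro i
    induction i with
    | zero =>
      intro _
      rw [hl]
      field_simp
    | succ i ih =>
      intro hi
      have e := ih (by omega)
      have e1 := hu ⟨i, by omega⟩
      have e2 := hu' ⟨i, by omega⟩
      simp only at e1 e2
      rw [e] at e2
      have e3 : E * (z' (i + 2) - z' (i + 1)) = E * (l * (z (i + 2) - z (i + 1))) := by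
        rw [← e2, mul_left_comm, e1]
        ring
      exact mul_left_cancel₀ hE e3
  have hZ : ∀ i ≤ d + 1, z' i = l * z i + μ := by
    intro i
    induction i with
    | zero =>
      intro _
      rw [hμ]
      ring
    | succ i ih =>
      intro hi
      have e := ih (by omega)
      have e1 := hT i (by omega)
      rw [e] at e1
      linear_combination e1
  have hlin : (C l * X + C μ : F[X]).natDegree = 1 := Polynomial.natDegree_linear hl0
  set P := f'.comp (C l * X + C μ) - (C l * f + C μ) with hP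
  have hP0 : P = 0 := by
    refine Polynomial.eq_zero_of_natDegree_lt_card_of_eval_eq_zero (R := F) P
      (f := fun i : Fin (d + 1) => z i) ?_ ?_ ?_
    · intro i j hij
      exact Fin.ext (hinj i (by omega) j (by omega) hij)
    · intro i
      rw [hP, Polynomial.eval_sub, Polynomial.eval_comp, Polynomial.eval_add,
        Polynomial.eval_mul, Polynomial.eval_C, Polynomial.eval_X, Polynomial.eval_C,
        Polynomial.eval_add, Polynomial.eval_mul, Polynomial.eval_C, Polynomial.eval_C,
        ← hZ i (by omega), ← hz, ← hz', hZ (i + 1) (by omega), sub_self]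
    · rw [Fintype.card_fin]
      refine lt_of_le_of_lt (Polynomial.natDegree_sub_le _ _) ?_
      rw [max_lt_iff]
      constructor
      · rw [Polynomial.natDegree_comp, hlin, hdeg']
        omega
      · refine lt_of_le_of_lt (Polynomial.natDegree_add_le _ _) ?_
        rw [max_lt_iff]
        constructor
        · refine lt_of_le_of_lt (Polynomial.natDegree_C_mul_le _ _) ?_
          omega
        · rw [Polynomial.natDegree_C]
          omega
  obtain ⟨h1, h2⟩ := conj_scale hd ha hm hm' hdeg hdeg' hc hc' (l := l) (μ := μ) hl0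
    (sub_eq_zero.1 hP0)
  exact ⟨l, hl0, h1, h2⟩

omit [CharZero F] in
lemma comp_scale_inj {l : F} (hl : l ≠ 0) {f g : F[X]} (h : f.comp (C l * X) = g.comp (C l * X)) :
    f = g := by
  ext n
  have h1 := congrArg (fun p => p.coeff n) h
  simp only [Polynomial.comp_C_mul_X_coeff] at h1
  exact mul_right_cancel₀ (pow_ne_zero n hl) h1

/-- counting through a relation with fibres given by the roots of unity -/
theorem card_of_fibre {β : Type*} {S : Set F[X]} (d : ℕ) (hd : 2 ≤ d) (Fs : Finset β)
    (R : F[X] → β → Prop) (h1 : ∀ f ∈ S, ∃ b ∈ Fs, R f b)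
    (h2 : ∀ f f' b, R f b → R f' b →
      ∃ l : F, l ≠ 0 ∧ l ^ (d - 1) = 1 ∧ f'.comp (C l * X) = C l * f) :
    S.Finite ∧ S.ncard ≤ Fs.card * (d - 1) := by
  classical
  set g : β → F[X] := fun b => if h : ∃ f, R f b then h.choose else 0 with hg
  have hgs : ∀ f b, R f b → R (g b) b := by
    intro f b hf
    have h : ∃ f, R f b := ⟨f, hf⟩
    rw [hg]
    simp only
    rw [dif_pos h]
    exact h.choose_spec
  obtain ⟨f1, f2⟩ := card_of_rel (S := S) (Fs ×ˢ (Polynomial.nthRoots (d - 1) (1 : F)).toFinset)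
    (fun f b => b.2 ≠ 0 ∧ f.comp (C b.2 * X) = C b.2 * g b.1)
    (fun f hf => by
      obtain ⟨b, hb, hR⟩ := h1 f hf
      obtain ⟨l, hl0, hl1, hl2⟩ := h2 (g b) f b (hgs f b hR) hR
      refine ⟨(b, l), ?_, hl0, hl2⟩
      rw [Finset.mem_product, Multiset.mem_toFinset, Polynomial.mem_nthRoots (by omega)]
      exact ⟨hb, hl1⟩)
    (fun f _ f' _ b h h' => by
      refine comp_scale_inj h.1 ?_
      rw [h.2, h'.2])
  refine ⟨f1, f2.trans ?_⟩
  rw [Finset.card_product]
  refine Nat.mul_le_mul le_rfl ?_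
  exact (Multiset.toFinset_card_le _).trans (Polynomial.card_nthRoots _ _)

end Pool.Agent.X12.Nf
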