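import Pool.Agent.X12.Nf5

/-!
# The finite set of the data
-/

set_option autoImplicit false

namespace Pool.Agent.X12.Nf

open NumberField Module Polynomial Function
open Pool.Agent.X12.Dyn (TS mem_TS TS_card)
open Pool.Agent.X12.Pg (fr fr_spec fr_pos fr_le fr_dvd quot_dvd)

/-! ### The elements whose norm has given support -/

section FU

variable (K : Type*) [Field K] [NumberField K]

/-- nonzero integers of house at most `Y` whose norm has its prime factors among those of `n` -/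
def FU (Y : ℝ) (n : ℕ) : Set (𝓞 K) :=
  {u | u ≠ 0 ∧ house (u : K) ≤ Y ∧ (Nm K u).primeFactors ⊆ n.primeFactors}

theorem FU_card (ε : ℝ) (hε : 0 < ε) : ∃ C : ℝ, 0 < C ∧ ∀ (Y : ℝ) (n : ℕ), 1 ≤ Y → 1 ≤ n →
    (FU K Y n).Finite ∧ ((FU K Y n).ncard : ℝ) ≤ C * Y ^ ε * (n : ℝ) ^ ε := by
  classical
  set r := finrank ℚ K with hr
  have hr1 : 1 ≤ r := finrank_pos
  set η := ε / (2 * r + 1) with hη
  have hη0 : 0 < η := by positivity
  obtain ⟨C1, hC1, h1⟩ := EN_card K η hη0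
  obtain ⟨C2, hC2, h2⟩ := TS_card η hη0
  refine ⟨C2 * C1, by positivity, fun Y n hY hn => ?_⟩
  have hY0 : 0 < Y := by linarith
  have hYr : 1 ≤ Y ^ r := one_le_pow₀ hY
  set T : Finset ℕ := ((TS (Y ^ r) n).image Int.natAbs).filter (fun ν => 1 ≤ ν ∧ (ν : ℝ) ≤ Y ^ r)
    with hT
  have hsub : FU K Y n ⊆ ⋃ ν ∈ T, EN K Y ν := by
    rintro u ⟨u1, u2, u3⟩
    have hpos := Nm_pos u1
    have hle := Nm_le hY0.le u2
    rw [← hr] at hle
    rw [Set.mem_iUnion₂]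
    refine ⟨Nm K u, ?_, u2, rfl⟩
    rw [hT, Finset.mem_filter]
    refine ⟨?_, hpos, hle⟩
    rw [Finset.mem_image]
    refine ⟨(Nm K u : ℤ), ?_, Int.natAbs_natCast _⟩
    refine mem_TS ?_ ?_ ?_
    · rw [Int.cast_natCast, abs_of_nonneg (Nat.cast_nonneg _)]
      exact hle
    · exact_mod_cast (by omega : Nm K u ≠ 0)
    · rw [Int.natAbs_natCast]
      exact u3
  have hfin : (⋃ ν ∈ T, EN K Y ν).Finite := by
    refine Set.Finite.biUnion T.finite_toSet fun ν hν => ?_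
    have := (Finset.mem_filter.1 (Finset.mem_coe.1 hν)).2
    exact (h1 Y ν hY this.1).1
  refine ⟨hfin.subset hsub, ?_⟩
  have h3 : ((FU K Y n).ncard : ℝ) ≤ ∑ ν ∈ T, ((EN K Y ν).ncard : ℝ) := by
    exact_mod_cast (Set.ncard_le_ncard hsub hfin).trans (Finset.set_ncard_biUnion_le T _)
  have h4 : ∀ ν ∈ T, ((EN K Y ν).ncard : ℝ) ≤ C1 * (Y ^ r) ^ η * Y ^ η := by
    intro ν hν
    have h5 := (Finset.mem_filter.1 hν).2
    refine (h1 Y ν hY h5.1).2.trans ?_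
    refine mul_le_mul_of_nonneg_right ?_ (by positivity)
    refine mul_le_mul_of_nonneg_left ?_ hC1.le
    exact Real.rpow_le_rpow (Nat.cast_nonneg _) h5.2 hη0.le
  have h5 : (T.card : ℝ) ≤ C2 * (Y ^ r) ^ η * (n : ℝ) ^ η := by
    refine le_trans ?_ (h2 (Y ^ r) n hYr hn)
    exact_mod_cast (Finset.card_filter_le _ _).trans Finset.card_image_le
  have hn1 : (1 : ℝ) ≤ n := by exact_mod_cast hn
  have h6 : (n : ℝ) ^ η ≤ (n : ℝ) ^ ε := by
    refine Real.rpow_le_rpow_of_exponent_le hn1 ?_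
    rw [hη, div_le_iff₀ (by positivity)]
    have : (0 : ℝ) ≤ r := Nat.cast_nonneg r
    nlinarith
  have h7 : (Y ^ r) ^ η * ((Y ^ r) ^ η * Y ^ η) = Y ^ ε := by
    rw [← Real.rpow_natCast Y r, ← Real.rpow_mul hY0.le, ← Real.rpow_add hY0,
      ← Real.rpow_add hY0]
    congr 1
    rw [hη]
    field_simp
    ring
  refine h3.trans ((Finset.sum_le_card_nsmul _ _ _ h4).trans ?_)
  rw [nsmul_eq_mul]
  calc (T.card : ℝ) * (C1 * (Y ^ r) ^ η * Y ^ η) ≤
        (C2 * (Y ^ r) ^ η * (n : ℝ) ^ η) * (C1 * (Y ^ r) ^ η * Y ^ η) :=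
        mul_le_mul_of_nonneg_right h5 (by positivity)
    _ = C2 * C1 * ((Y ^ r) ^ η * ((Y ^ r) ^ η * Y ^ η)) * (n : ℝ) ^ η := by ring
    _ = C2 * C1 * Y ^ ε * (n : ℝ) ^ η := by rw [h7]
    _ ≤ _ := mul_le_mul_of_nonneg_left h6 (by positivity)

end FU

open scoped Classical in
/-- the finset of a finite set -/
noncomputable def fs {α : Type*} (S : Set α) : Finset α := if h : S.Finite then h.toFinset else ∅

lemma mem_fs {α : Type*} {S : Set α} (h : S.Finite) (x : α) : x ∈ fs S ↔ x ∈ S := by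
  unfold fs
  rw [dif_pos h, Set.Finite.mem_toFinset]

lemma card_fs {α : Type*} {S : Set α} (h : S.Finite) : (fs S).card = S.ncard := by
  unfold fs
  rw [dif_pos h, ← Set.ncard_eq_toFinset_card _ h]

/-! ### The family -/

variable {K : Type*} [Field K] [NumberField K]

omit [NumberField K] in
lemma vmul (x y : 𝓞 K) : ((x * y : 𝓞 K) : K) = (x : K) * (y : K) :=
  map_mul (algebraMap (𝓞 K) K) x y

omit [NumberField K] in
lemma vpow (x : 𝓞 K) (n : ℕ) : ((x ^ n : 𝓞 K) : K) = (x : K) ^ n :=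
  map_pow (algebraMap (𝓞 K) K) x n

omit [NumberField K] in
lemma vsub (x y : 𝓞 K) : ((x - y : 𝓞 K) : K) = (x : K) - (y : K) :=
  map_sub (algebraMap (𝓞 K) K) x y

omit [NumberField K] in
lemma vzero : ((0 : 𝓞 K) : K) = 0 := map_zero (algebraMap (𝓞 K) K)

/-- the integral form of a member of the family -/
structure Fm (d : ℕ) (a : 𝓞 K) (H : ℝ) (f : K[X]) (D : 𝓞 K) (B : ℕ → 𝓞 K) : Prop where
  a0 : a ≠ 0
  D0 : D ≠ 0
  deg : f.natDegree = d
  lc : f.coeff d = (a : K)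
  DH : house (D : K) ≤ H
  hB : ∀ i < d, (B i : K) = (D : K) ^ (d - i) * f.coeff i
  BH : ∀ i < d, house (B i : K) ≤ H ^ (d - i)

lemma one_le_house {a : 𝓞 K} (ha : a ≠ 0) : 1 ≤ house (a : K) :=
  one_le_house_of_isIntegral (RingOfIntegers.isIntegral_coe a) (RingOfIntegers.coe_ne_zero_iff.2 ha)

lemma fm_bd {d : ℕ} (hd : 2 ≤ d) {a : 𝓞 K} {H : ℝ} (hH : 1 ≤ H) {f : K[X]} {D : 𝓞 K}
    {B : ℕ → 𝓞 K} (h : Fm d a H f D B) : Bd d (house (a : K) * H) f (a * D)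
      (a ^ (d - 2) * D ^ (d - 1)) (fun i => B i * a ^ (d - 1 - i)) := by
  have hA := one_le_house h.a0
  have hA0 : 0 ≤ house (a : K) := house_nonneg _
  have hpow : ∀ (x : K) (Y : ℝ) (n : ℕ), house x ≤ Y → house (x ^ n) ≤ Y ^ n := by
    intro x Y n hx
    exact (house_pow_le _ _).trans (pow_le_pow_left₀ (house_nonneg _) hx _)
  refine ⟨mul_ne_zero h.a0 h.D0, mul_ne_zero (pow_ne_zero _ h.a0) (pow_ne_zero _ h.D0),
    by nlinarith, fun x => ?_, ?_, fun i hi => ?_⟩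
  · have h1 := eval_form2 hd h.deg h.lc h.hB x
    push_cast
    simpa using h1
  · have e : ((a ^ (d - 2) * D ^ (d - 1) : 𝓞 K) : K) = (a : K) ^ (d - 2) * (D : K) ^ (d - 1) := by
      rw [vmul, vpow, vpow]
    rw [e, mul_pow]
    refine (house_mul_le _ _).trans ?_
    refine mul_le_mul ?_ (hpow _ _ _ h.DH) (house_nonneg _) (by positivity)
    refine (hpow _ _ _ le_rfl).trans ?_
    exact pow_le_pow_right₀ hA (by omega)
  · have e : ((B i * a ^ (d - 1 - i) : 𝓞 K) : K) = (B i : K) * (a : K) ^ (d - 1 - i) := by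
      rw [vmul, vpow]
    rw [e, mul_pow, mul_comm (house (a : K) ^ (d - i))]
    refine (house_mul_le _ _).trans ?_
    refine mul_le_mul (h.BH i hi) ?_ (house_nonneg _) (by positivity)
    refine (hpow _ _ _ le_rfl).trans ?_
    exact pow_le_pow_right₀ hA (by omega)

/-- the chain of the free parts -/
lemma fr_chain {d D' : ℕ} {E : 𝓞 K} (hE : Nm K E ∣ D' ^ (d - 1)) {T : ℕ → 𝓞 K} {m : ℕ}
    (hT : ∀ i ≤ m, T i ≠ 0) (hdvd : ∀ i, T i ∣ E * T (i + 1)) :
    ∀ i ≤ m, ∀ j ≤ i, fr D' (Nm K (T j)) ∣ fr D' (Nm K (T i)) := by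
  intro i
  induction i with
  | zero =>
    intro _ j hj
    have : j = 0 := by omega
    rw [this]
  | succ i ih =>
    intro hi j hj
    rcases Nat.lt_or_ge i j with h1 | h1
    · have : j = i + 1 := by omega
      rw [this]
    · refine (ih (by omega) j h1).trans ?_
      refine fr_dvd (k := d - 1) (Nm_pos (hT i (by omega))) (Nm_pos (hT (i + 1) hi)) ?_
      have h2 := Nm_dvd (hdvd i)
      rw [Nm_mul] at h2
      exact h2.trans (Nat.mul_dvd_mul hE dvd_rfl)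

/-- the polynomials with a long orbit whose differences grow slowly -/
def Bad (d : ℕ) (a : 𝓞 K) (H : ℝ) (Q : ℕ) : Set K[X] := {f | f.coeff (d - 1) = 0 ∧
  ∃ (D : 𝓞 K) (B : ℕ → 𝓞 K),
  Fm d a H f D B ∧ ∃ z ∈ Pre f, (∀ i ≤ d, ∀ j ≤ d, orb f z i = orb f z j → i = j) ∧
    orb f z (d + 1) ≠ orb f z d ∧
    ∀ s t : 𝓞 K, (s : K) = (a * D : 𝓞 K) * (orb f z 1 - orb f z 0) →
      (t : K) = (a * D : 𝓞 K) * (orb f z (d + 1) - orb f z d) →
      fr (Nm K (a * D)) (Nm K t) ≤ Q * fr (Nm K (a * D)) (Nm K s)}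

/-- the size of the differences -/
noncomputable def LL (d : ℕ) (a : 𝓞 K) (H : ℝ) : ℝ := 2 * (d + 1) * (house (a : K) * H)

/-- the bound of the quotients -/
noncomputable def YY (d : ℕ) (a : 𝓞 K) (H : ℝ) : ℝ :=
  (house (a : K) * H) ^ (d - 1) * LL d a H ^ finrank ℚ K

/-- the finite set of the data -/
noncomputable def FD (d : ℕ) (a : 𝓞 K) (H : ℝ) (Q : ℕ) :
    Finset (Σ _ : 𝓞 K × ℕ, (Fin d → 𝓞 K)) :=
  (fs (OS K H \ {0}) ×ˢ Finset.Icc 1 Q).sigma
    fun x => Fintype.piFinset fun _ : Fin d => fs (FU K (YY d a H) (Nm K (a * x.1) * x.2))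

lemma LL_ge {d : ℕ} {a : 𝓞 K} (ha : a ≠ 0) {H : ℝ} (hH : 1 ≤ H) : 1 ≤ LL d a H := by
  unfold LL
  have h1 := one_le_house ha
  have h2 : 1 ≤ house (a : K) * H := by nlinarith
  have h3 : (0 : ℝ) ≤ d := Nat.cast_nonneg d
  nlinarith

lemma YY_ge {d : ℕ} {a : 𝓞 K} (ha : a ≠ 0) {H : ℝ} (hH : 1 ≤ H) : 1 ≤ YY d a H := by
  unfold YY
  have h1 := one_le_house ha
  have h2 : 1 ≤ house (a : K) * H := by nlinarith
  have h3 : 1 ≤ (house (a : K) * H) ^ (d - 1) := one_le_pow₀ h2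
  have h4 : 1 ≤ LL d a H ^ finrank ℚ K := one_le_pow₀ (LL_ge ha hH)
  nlinarith

variable (K) in
lemma os_fin {H : ℝ} (hH : 1 ≤ H) : (OS K H \ {0}).Finite := by
  obtain ⟨C, -, h⟩ := OS_card K
  exact (h H hH).1.subset Set.sdiff_subset

variable (K) in
lemma fu_fin {Y : ℝ} (hY : 1 ≤ Y) {n : ℕ} (hn : 1 ≤ n) : (FU K Y n).Finite := by
  obtain ⟨C, -, h⟩ := FU_card K 1 one_pos
  exact (h Y n hY hn).1

theorem bad_data {d : ℕ} (hd : 2 ≤ d) {a : 𝓞 K} {H : ℝ} (hH : 1 ≤ H) {Q : ℕ} {f : K[X]}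
    (hf : f ∈ Bad d a H Q) :
    ∃ b ∈ FD d a H Q, b.1.1 ≠ 0 ∧
      Rel d (a : K) f ((a ^ (d - 2) * b.1.1 ^ (d - 1) : 𝓞 K) : K) fun i => (b.2 i : K) := by
  classical
  obtain ⟨hc, D, B, hB, z, hz, hinj, hlast, hQ⟩ := hf
  have ha0 := hB.a0
  have hD0 := hB.D0
  have hbd := fm_bd hd hH hB
  obtain ⟨Z, hZ, hZH, hdvd⟩ := int_orb hbd hd hz
  set c : 𝓞 K := a * D with hcdef
  set E : 𝓞 K := a ^ (d - 2) * D ^ (d - 1) with hEdef
  have hcq : (c : K) ≠ 0 := RingOfIntegers.coe_ne_zero_iff.2 hbd.c0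
  set D' : ℕ := Nm K c with hD'
  have hD'1 : 1 ≤ D' := Nm_pos hbd.c0
  have hED : Nm K E ∣ D' ^ (d - 1) := by
    rw [hD', ← Nm_pow, hcdef, mul_pow]
    refine Nm_dvd ?_
    rw [hEdef]
    exact mul_dvd_mul (pow_dvd_pow _ (by omega)) dvd_rfl
  set T : ℕ → 𝓞 K := fun i => Z (i + 1) - Z i with hT
  have hTq : ∀ i, (T i : K) = c * (orb f z (i + 1) - orb f z i) := by
    intro i
    simp only [hT]
    rw [vsub, hZ, hZ]
    ring
  have hT0 : ∀ i ≤ d, T i ≠ 0 := by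
    intro i hi h0
    have h1 := hTq i
    rw [h0, vzero] at h1
    have h2 := (mul_eq_zero.1 h1.symm).resolve_left hcq
    rcases Nat.lt_or_ge i d with h3 | h3
    · have := hinj (i + 1) (by omega) i (by omega) (sub_eq_zero.1 h2)
      omega
    · have : i = d := by omega
      subst this
      exact hlast (sub_eq_zero.1 h2)
  have hTpos : ∀ i ≤ d, 1 ≤ Nm K (T i) := fun i hi => Nm_pos (hT0 i hi)
  have hTdvd : ∀ i, T i ∣ E * T (i + 1) := fun i => hdvd i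
  have hfr2 : ∀ i ≤ d, ∀ j ≤ i, fr D' (Nm K (T j)) ∣ fr D' (Nm K (T i)) :=
    fr_chain hED hT0 hTdvd
  choose U hU using hTdvd
  obtain ⟨q, hq⟩ := hfr2 d le_rfl 0 (by omega)
  have hp0 := fr_pos (D := D') (hTpos 0 (by omega))
  have hpd := fr_pos (D := D') (hTpos d le_rfl)
  have hq1 : 1 ≤ q := by
    rcases Nat.eq_zero_or_pos q with h | h
    · rw [h, mul_zero] at hq
      omega
    · exact h
  have hqQ : q ≤ Q := by
    have h1 := hQ (T 0) (T d) (by rw [hTq]) (by rw [hTq])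
    rw [hq, mul_comm Q] at h1
    exact Nat.le_of_mul_le_mul_left h1 hp0
  have hUdvd : ∀ i < d, Nm K (U i) ∣ D' ^ (d - 1 + Nm K (T (i + 1))) * q := by
    intro i hi
    refine quot_dvd (s := Nm K (T i)) (t := Nm K (T (i + 1))) (hTpos i (by omega))
      (hTpos (i + 1) (by omega)) ?_ ?_
    · have h1 : Nm K E * Nm K (T (i + 1)) = Nm K (T i) * Nm K (U i) := by
        rw [← Nm_mul, ← Nm_mul, hU i]
      rw [mul_comm (Nm K (U i)), ← h1]
      exact Nat.mul_dvd_mul hED dvd_rfl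
    · refine (hfr2 d le_rfl (i + 1) (by omega)).trans ?_
      rw [hq]
      exact Nat.mul_dvd_mul (hfr2 i (by omega) 0 (by omega)) dvd_rfl
  have hE0 : E ≠ 0 := hbd.E0
  have hU0 : ∀ i < d, U i ≠ 0 := by
    intro i hi h0
    have h1 := hU i
    rw [h0, mul_zero] at h1
    exact hT0 (i + 1) (by omega) ((mul_eq_zero.1 h1).resolve_left hE0)
  have hL1 : 1 ≤ LL d a H := LL_ge ha0 hH
  have hTH : ∀ i, house (T i : K) ≤ LL d a H := by
    intro i
    refine house_le_of K (by linarith) fun σ => ?_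
    simp only [hT]
    rw [vsub, map_sub]
    refine (norm_sub_le _ _).trans ?_
    have h1 := (norm_embedding_le_house (Z (i + 1) : K) σ).trans (hZH (i + 1))
    have h2 := (norm_embedding_le_house (Z i : K) σ).trans (hZH i)
    unfold LL
    linarith
  have hUH : ∀ i < d, house (U i : K) ≤ YY d a H := by
    intro i hi
    have hY1 := YY_ge (d := d) ha0 hH
    refine house_le_of K (by linarith) fun σ => ?_
    have h1 := one_le_place K hL1 (hT0 i (by omega)) (hTH i) σ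
    have h2 : ‖σ (E : K)‖ ≤ (house (a : K) * H) ^ (d - 1) :=
      (norm_embedding_le_house _ σ).trans hbd.EM
    have h3 : ‖σ (T (i + 1) : K)‖ ≤ LL d a H := (norm_embedding_le_house _ σ).trans (hTH _)
    have h4 : ‖σ (E : K)‖ * ‖σ (T (i + 1) : K)‖ = ‖σ (T i : K)‖ * ‖σ (U i : K)‖ := by
      have h0 : (E : K) * (T (i + 1) : K) = (T i : K) * (U i : K) := by
        rw [← vmul, ← vmul, hU i]
      rw [← norm_mul, ← norm_mul, ← map_mul σ, ← map_mul σ, h0]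
    have h5 : LL d a H ^ finrank ℚ K = LL d a H * LL d a H ^ (finrank ℚ K - 1) := by
      rw [← pow_succ']
      congr 1
      have : 1 ≤ finrank ℚ K := finrank_pos
      omega
    unfold YY
    rw [h5]
    have h6 : 0 ≤ LL d a H ^ (finrank ℚ K - 1) := by positivity
    have h7 : 0 ≤ (house (a : K) * H) ^ (d - 1) :=
      pow_nonneg (mul_nonneg (house_nonneg _) (by linarith)) _
    calc ‖σ (U i : K)‖ ≤ ‖σ (U i : K)‖ * (‖σ (T i : K)‖ * LL d a H ^ (finrank ℚ K - 1)) :=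
          le_mul_of_one_le_right (norm_nonneg _) h1
      _ = (‖σ (E : K)‖ * ‖σ (T (i + 1) : K)‖) * LL d a H ^ (finrank ℚ K - 1) := by
        rw [h4]
        ring
      _ ≤ ((house (a : K) * H) ^ (d - 1) * LL d a H) * LL d a H ^ (finrank ℚ K - 1) := by
        refine mul_le_mul_of_nonneg_right ?_ h6
        exact mul_le_mul h2 h3 (norm_nonneg _) h7
      _ = _ := by ring
  refine ⟨⟨(D, q), fun i => U i⟩, ?_, hD0, ?_⟩
  · unfold FD
    rw [Finset.mem_sigma, Finset.mem_product, mem_fs (os_fin K hH), Finset.mem_Icc,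
      Fintype.mem_piFinset]
    refine ⟨⟨⟨hB.DH, hD0⟩, hq1, hqQ⟩, fun i => ?_⟩
    have hn1 : 1 ≤ Nm K (a * D) * q := Nat.mul_pos hD'1 hq1
    rw [mem_fs (fu_fin K (YY_ge ha0 hH) hn1)]
    refine ⟨hU0 i i.2, hUH i i.2, ?_⟩
    intro p hp
    have hpp := Nat.prime_of_mem_primeFactors hp
    have h1 : p ∣ D' ^ (d - 1 + Nm K (T (i + 1))) * q :=
      (Nat.dvd_of_mem_primeFactors hp).trans (hUdvd i i.2)
    rw [Nat.mem_primeFactors]
    refine ⟨hpp, ?_, by omega⟩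
    rcases (Nat.Prime.dvd_mul hpp).1 h1 with h2 | h2
    · exact (hpp.dvd_of_dvd_pow h2).mul_right _
    · exact h2.mul_left _
  · refine ⟨hB.lc, hB.deg, hc, orb f z, orb_succ f z, hinj, ?_⟩
    intro i
    show (U i : K) * _ = (E : K) * _
    have h1 : ((T i * U i : 𝓞 K) : K) = ((E * T (i + 1) : 𝓞 K) : K) := by
      rw [← hU i]
    rw [vmul, vmul, hTq, hTq] at h1
    have h2 : (c : K) * ((U i : K) * (orb f z (i + 1) - orb f z i)) =
        (c : K) * ((E : K) * (orb f z (i + 2) - orb f z (i + 1))) := by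
      linear_combination h1
    exact mul_left_cancel₀ hcq h2

theorem bad_card {d : ℕ} (hd : 2 ≤ d) {a : 𝓞 K} (ha : a ≠ 0) {H : ℝ} (hH : 1 ≤ H) (Q : ℕ) :
    (Bad d a H Q).Finite ∧ (Bad d a H Q).ncard ≤ (FD d a H Q).card * (d - 1) := by
  refine card_of_fibre d hd (FD d a H Q)
    (fun f b => b.1.1 ≠ 0 ∧
      Rel d (a : K) f ((a ^ (d - 2) * b.1.1 ^ (d - 1) : 𝓞 K) : K) fun i => (b.2 i : K))
    (fun _ hf => bad_data hd hH hf) fun f f' b h h' => ?_
  refine rel_scale hd (RingOfIntegers.coe_ne_zero_iff.2 ha) ?_ h.2 h'.2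
  rw [RingOfIntegers.coe_ne_zero_iff]
  exact mul_ne_zero (pow_ne_zero _ ha) (pow_ne_zero _ h.1)

end Pool.Agent.X12.Nf
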