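import Pool.Agent.X12.Nf6

/-!
# The exceptional polynomials
-/

set_option autoImplicit false

namespace Pool.Agent.X12.Nf

open NumberField Module Polynomial Function
open Pool.Agent.X12.Pg (fr fr_spec fr_pos fr_le fr_dvd quot_dvd)

variable {K : Type*} [Field K] [NumberField K]

/-- the centred polynomials of degree `d` with leading coefficient `a`, of weighted height at
most `H` -/
def Fam (d : ℕ) (a : 𝓞 K) (H : ℝ) : Set K[X] := {f | f.natDegree = d ∧ f.coeff d = (a : K) ∧
  f.coeff (d - 1) = 0 ∧ ∃ D : 𝓞 K, D ≠ 0 ∧ house (D : K) ≤ H ∧ ∀ i < d, ∃ B : 𝓞 K,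
    (B : K) = (D : K) ^ (d - i) * f.coeff i ∧ house (B : K) ≤ H ^ (d - i)}

lemma fam_bd {d : ℕ} {a : 𝓞 K} {H : ℝ} (ha : a ≠ 0) {f : K[X]} (hf : f ∈ Fam d a H) :
    f.coeff (d - 1) = 0 ∧ ∃ (D : 𝓞 K) (B : ℕ → 𝓞 K), Fm d a H f D B := by
  obtain ⟨h1, h2, h3, D, h4, h5, h6⟩ := hf
  refine ⟨h3, D, ?_⟩
  have h7 : ∀ i, ∃ B : 𝓞 K, i < d → (B : K) = (D : K) ^ (d - i) * f.coeff i ∧
      house (B : K) ≤ H ^ (d - i) := by
    intro i
    by_cases hi : i < d
    · obtain ⟨B, hB⟩ := h6 i hi
      exact ⟨B, fun _ => hB⟩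
    · exact ⟨0, fun h => absurd h hi⟩
  choose B hB using h7
  exact ⟨B, ⟨ha, h4, h1, h2, h5, fun i hi => (hB i hi).1, fun i hi => (hB i hi).2⟩⟩

lemma nmE_dvd {d : ℕ} (a D : 𝓞 K) :
    Nm K (a ^ (d - 2) * D ^ (d - 1)) ∣ Nm K (a * D) ^ (d - 1) := by
  rw [← Nm_pow, mul_pow]
  exact Nm_dvd (mul_dvd_mul (pow_dvd_pow _ (by omega)) dvd_rfl)

/-- polynomials with a long cycle -/
theorem cyc_bad {d : ℕ} {a : 𝓞 K} {H : ℝ} (hd : 2 ≤ d) (hH : 1 ≤ H) (ha : a ≠ 0) {f : K[X]}
    (hf : f ∈ Fam d a H) {z : K}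
    (hz : d < minimalPeriod (fun x => f.eval x) z) : f ∈ Bad d a H 1 := by
  obtain ⟨hc, D, B, hB⟩ := fam_bd ha hf
  set h : K → K := fun x => f.eval x with hh
  have hper : z ∈ periodicPts h := minimalPeriod_pos_iff_mem_periodicPts.1 (by omega)
  have hpre : z ∈ Pre f := pre_of_periodic hper
  have hne : ∀ i, orb f z (i + 1) ≠ orb f z i := by
    intro i h0
    rw [orb_succ] at h0
    have h1 : IsFixedPt h (h^[i] z) := h0
    have h2 := minimalPeriod_eq_one_iff_isFixedPt.2 h1
    rw [minimalPeriod_apply_iterate hper] at h2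
    omega
  refine ⟨hc, D, B, hB, z, hpre, ?_, hne d, ?_⟩
  · intro i hi j hj hij
    exact iterate_injOn_Iio_minimalPeriod (f := h) (x := z) (Set.mem_Iio.2 (by omega))
      (Set.mem_Iio.2 (by omega)) hij
  · intro s t hs ht
    have hbd := fm_bd hd hH hB
    obtain ⟨Z, hZ, hZH, hdvd⟩ := int_orb hbd hd hpre
    have hcq : ((a * D : 𝓞 K) : K) ≠ 0 := RingOfIntegers.coe_ne_zero_iff.2 hbd.c0
    set N := minimalPeriod h z with hN
    have hZZ : ∀ i j, orb f z i = orb f z j → Z i = Z j := by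
      intro i j hij
      refine RingOfIntegers.coe_injective ?_
      show (Z i : K) = Z j
      rw [hZ, hZ, hij]
    have hT0 : ∀ i ≤ N, Z (i + 1) - Z i ≠ 0 := by
      intro i _ h0
      have h1 : ((a * D : 𝓞 K) : K) * orb f z (i + 1) = ((a * D : 𝓞 K) : K) * orb f z i := by
        rw [← hZ, ← hZ, sub_eq_zero.1 h0]
      exact hne i (mul_left_cancel₀ hcq h1)
    have hch := fr_chain (nmE_dvd a D) (T := fun i => Z (i + 1) - Z i) hT0 hdvd N le_rfl d
      (by omega)
    have e1 : Z N = Z 0 := by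
      refine hZZ _ _ ?_
      show h^[N] z = h^[0] z
      rw [hN, iterate_minimalPeriod]
      rfl
    have e2 : Z (N + 1) = Z 1 := by
      refine hZZ _ _ ?_
      show h^[N + 1] z = h^[1] z
      rw [Function.iterate_succ_apply', hN, iterate_minimalPeriod]
      rfl
    simp only [e1, e2] at hch
    have e3 : s = Z 1 - Z 0 := by
      refine RingOfIntegers.coe_injective ?_
      show (s : K) = ((Z 1 - Z 0 : 𝓞 K) : K)
      rw [hs, vsub, hZ, hZ]
      ring
    have e4 : t = Z (d + 1) - Z d := by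
      refine RingOfIntegers.coe_injective ?_
      show (t : K) = ((Z (d + 1) - Z d : 𝓞 K) : K)
      rw [ht, vsub, hZ, hZ]
      ring
    rw [one_mul, e3, e4]
    refine Nat.le_of_dvd ?_ hch
    exact fr_pos (Nm_pos (by simpa using hT0 0 (by omega)))

/-- the growth bound -/
noncomputable def QR (κ : ℕ) (X : ℝ) : ℕ := ⌊X ^ (1 / (κ : ℝ))⌋₊

lemma QR_lt {κ : ℕ} {X : ℝ} (hX : 0 ≤ X) (hκ : 1 ≤ κ) : X < ((QR κ X + 1) ^ κ : ℕ) := by
  have h1 := Nat.lt_floor_add_one (X ^ (1 / (κ : ℝ)))
  have hK0 : (κ : ℝ) ≠ 0 := by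
    have : κ ≠ 0 := by omega
    exact_mod_cast this
  have h2 : X = (X ^ (1 / (κ : ℝ))) ^ κ := by
    rw [← Real.rpow_natCast, ← Real.rpow_mul hX, one_div, inv_mul_cancel₀ hK0, Real.rpow_one]
  have h3 : (X ^ (1 / (κ : ℝ))) ^ κ < ((QR κ X : ℝ) + 1) ^ κ := by
    refine pow_lt_pow_left₀ ?_ (Real.rpow_nonneg hX _) (by omega)
    unfold QR
    exact h1
  rw [← h2] at h3
  push_cast
  exact h3

/-- polynomials with a long orbit -/
theorem orb_bad {d : ℕ} {a : 𝓞 K} {H : ℝ} {κ : ℕ} (hd : 2 ≤ d) (hH : 1 ≤ H) (ha : a ≠ 0)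
    (hκ : 1 ≤ κ) {f : K[X]} (hf : f ∈ Fam d a H) {z : K} (hz : z ∈ Pre f)
    (hinj : ∀ i ≤ κ * d + 1, ∀ j ≤ κ * d + 1, orb f z i = orb f z j → i = j) :
    f ∈ Bad d a H (QR κ (LL d a H ^ finrank ℚ K)) := by
  obtain ⟨hc, D, B, hB⟩ := fam_bd ha hf
  have hbd := fm_bd hd hH hB
  obtain ⟨Z, hZ, hZH, hdvd⟩ := int_orb hbd hd hz
  have hcq : ((a * D : 𝓞 K) : K) ≠ 0 := RingOfIntegers.coe_ne_zero_iff.2 hbd.c0
  have hT0 : ∀ i ≤ κ * d, Z (i + 1) - Z i ≠ 0 := by
    intro i hi h0
    have h1 : ((a * D : 𝓞 K) : K) * orb f z (i + 1) = ((a * D : 𝓞 K) : K) * orb f z i := by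
      rw [← hZ, ← hZ, sub_eq_zero.1 h0]
    have := hinj (i + 1) (by omega) i (by omega) (mul_left_cancel₀ hcq h1)
    omega
  set n : ℕ → ℕ := fun i => fr (Nm K (a * D)) (Nm K (Z (i + 1) - Z i)) with hn
  have hn1 : ∀ i ≤ κ * d, 1 ≤ n i := fun i hi => fr_pos (Nm_pos (hT0 i hi))
  have hL1 : 1 ≤ LL d a H := LL_ge ha hH
  set X : ℝ := LL d a H ^ finrank ℚ K with hX
  have hX0 : 0 ≤ X := by positivity
  have hnK : (n (κ * d) : ℝ) ≤ X := by
    have h1 : n (κ * d) ≤ Nm K (Z (κ * d + 1) - Z (κ * d)) := fr_le (Nm_pos (hT0 (κ * d) le_rfl))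
    have h2 : house ((Z (κ * d + 1) - Z (κ * d) : 𝓞 K) : K) ≤ LL d a H := by
      refine house_le_of K (by linarith) fun σ => ?_
      rw [vsub, map_sub]
      refine (norm_sub_le _ _).trans ?_
      have h1 := (norm_embedding_le_house (Z (κ * d + 1) : K) σ).trans (hZH (κ * d + 1))
      have h2 := (norm_embedding_le_house (Z (κ * d) : K) σ).trans (hZH (κ * d))
      unfold LL
      linarith
    have h3 := Nm_le (by linarith) h2
    have h4 : (n (κ * d) : ℝ) ≤ (Nm K (Z (κ * d + 1) - Z (κ * d)) : ℝ) := by exact_mod_cast h1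
    exact h4.trans h3
  have hex : ∃ k < κ, n (k * d + d) ≤ QR κ X * n (k * d) := by
    by_contra hcon
    push Not at hcon
    have hch := fr_chain (nmE_dvd a D) (T := fun i => Z (i + 1) - Z i) hT0 hdvd
    have hgrow : ∀ k ≤ κ, (QR κ X + 1) ^ k ≤ n (k * d) := by
      intro k
      induction k with
      | zero =>
        intro _
        rw [pow_zero]
        exact hn1 _ (Nat.mul_le_mul_right _ (by omega))
      | succ k ih =>
        intro hk
        have h1 := ih (by omega)
        have h2 := hcon k (by omega)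
        have h3 : k * d + d ≤ κ * d := by
          calc k * d + d = (k + 1) * d := by ring
            _ ≤ κ * d := Nat.mul_le_mul_right _ hk
        obtain ⟨w, hw⟩ := hch (k * d + d) h3 (k * d) (by omega)
        have hw' : n (k * d + d) = n (k * d) * w := hw
        have h4 : QR κ X < w := by
          rw [hw', mul_comm] at h2
          exact lt_of_mul_lt_mul_left h2 (Nat.zero_le _)
        have h5 : (k + 1) * d = k * d + d := by ring
        rw [h5, hw', pow_succ]
        exact Nat.mul_le_mul h1 h4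
    have h1 := hgrow κ le_rfl
    have h2 := QR_lt (κ := κ) hX0 hκ
    have h3 : (((QR κ X + 1) ^ κ : ℕ) : ℝ) ≤ (n (κ * d) : ℝ) := by exact_mod_cast h1
    linarith
  obtain ⟨k, hk, hkn⟩ := hex
  have hkK : k * d + d ≤ κ * d := by
    calc k * d + d = (k + 1) * d := by ring
      _ ≤ κ * d := Nat.mul_le_mul_right _ hk
  refine ⟨hc, D, B, hB, orb f z (k * d), orb_pre hz _, ?_, ?_, ?_⟩
  · intro i hi j hj hij
    rw [orb_orb, orb_orb] at hij
    have := hinj (k * d + i) (by omega) (k * d + j) (by omega) hij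
    omega
  · rw [orb_orb, orb_orb]
    intro h0
    have := hinj (k * d + (d + 1)) (by omega) (k * d + d) (by omega) h0
    omega
  · intro s t hs ht
    rw [orb_orb, orb_orb] at hs ht
    have e3 : s = Z (k * d + 1) - Z (k * d) := by
      refine RingOfIntegers.coe_injective ?_
      show (s : K) = ((Z (k * d + 1) - Z (k * d) : 𝓞 K) : K)
      rw [hs, vsub, hZ, hZ, add_zero]
      ring
    have e4 : t = Z (k * d + d + 1) - Z (k * d + d) := by
      refine RingOfIntegers.coe_injective ?_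
      show (t : K) = ((Z (k * d + d + 1) - Z (k * d + d) : 𝓞 K) : K)
      rw [ht, vsub, hZ, hZ, ← add_assoc]
      ring
    rw [e3, e4]
    exact hkn

section general

variable {F : Type*} [Field F]

/-- distinct points from a large orbit -/
lemma inj_of_orbit {f : F[X]} {z : F} {m : ℕ} (h : m < (Set.range (orb f z)).ncard) :
    ∀ i ≤ m, ∀ j ≤ m, orb f z i = orb f z j → i = j := by
  have key : ∀ i j, i < j → j ≤ m → orb f z i ≠ orb f z j := by
    intro i j hij hj h0
    have h1 : ∀ k, ∃ k' < j, orb f z k = orb f z k' := by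
      intro k
      induction k using Nat.strong_induction_on with
      | _ k ih =>
        rcases Nat.lt_or_ge k j with h1 | h1
        · exact ⟨k, h1, rfl⟩
        · obtain ⟨k', e1, e2⟩ := ih (i + (k - j)) (by omega)
          refine ⟨k', e1, ?_⟩
          rw [← e2, ← orb_orb, h0, orb_orb]
          congr 1
          omega
    have h2 : Set.range (orb f z) ⊆ orb f z '' (Set.Iio j) := by
      rintro _ ⟨k, rfl⟩
      obtain ⟨k', e1, e2⟩ := h1 k
      exact ⟨k', e1, e2.symm⟩
    have h3 := Set.ncard_le_ncard h2 ((Set.finite_Iio j).image _)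
    have h4 := Set.ncard_image_le (f := orb f z) (Set.finite_Iio j)
    have h5 : (Set.Iio j).ncard = j := by
      rw [← Finset.coe_Iio, Set.ncard_coe_finset, Nat.card_Iio]
    omega
  intro i hi j hj h0
  rcases lt_trichotomy i j with h1 | h1 | h1
  · exact absurd h0 (key i j h1 hj)
  · exact h1
  · exact absurd h0.symm (key j i h1 hi)

/-- many preperiodic points give a long orbit -/
theorem exists_long {d : ℕ} (hd : 2 ≤ d) {f : F[X]} (hdeg : f.natDegree = d) {m : ℕ}
    (h : ((m * d ^ m : ℕ) : ℕ∞) < (Pre f).encard) :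
    ∃ z ∈ Pre f, ∀ i ≤ m, ∀ j ≤ m, orb f z i = orb f z j → i = j := by
  classical
  by_contra hcon
  push Not at hcon
  set P : ℕ → F[X] := fun k => f.comp^[k] X with hP
  have hPe : ∀ k z, (P k).eval z = orb f z k := by
    intro k z
    rw [hP]
    simp only
    rw [Polynomial.iterate_comp_eval, Polynomial.eval_X]
    rfl
  have hPd : ∀ k, (P k).natDegree = d ^ k := by
    intro k
    rw [hP]
    simp only
    rw [Polynomial.natDegree_iterate_comp, hdeg, Polynomial.natDegree_X, mul_one]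
  have hlt : ∀ k < m, d ^ k < d ^ m := fun k hk => Nat.pow_lt_pow_right (by omega) hk
  have hsub : Pre f ⊆ (((Finset.range m).biUnion fun k => (P m - P k).roots.toFinset : Finset F) :
      Set F) := by
    intro z hz
    obtain ⟨i, hi, j, hj, e1, e2⟩ := hcon z hz
    have key : ∀ i j, i < j → j ≤ m → orb f z i = orb f z j → z ∈
        (((Finset.range m).biUnion fun k => (P m - P k).roots.toFinset : Finset F) : Set F) := by
      intro i j hij hj h0
      rw [Finset.mem_coe, Finset.mem_biUnion]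
      refine ⟨i + (m - j), Finset.mem_range.2 (by omega), ?_⟩
      rw [Multiset.mem_toFinset, Polynomial.mem_roots]
      · rw [Polynomial.IsRoot.def, Polynomial.eval_sub, hPe, hPe, ← orb_orb f z i, h0, orb_orb,
          sub_eq_zero]
        congr 1
        omega
      · intro h1
        have h2 := congrArg Polynomial.natDegree (sub_eq_zero.1 h1)
        rw [hPd, hPd] at h2
        have := hlt (i + (m - j)) (by omega)
        omega
    rcases lt_trichotomy i j with h1 | h1 | h1
    · exact key i j h1 hj e1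
    · exact absurd h1 e2
    · exact key j i h1 hi e1.symm
  have h1 := Set.encard_le_encard hsub
  rw [Set.encard_coe_eq_coe_finsetCard] at h1
  have h2 : ((Finset.range m).biUnion fun k => (P m - P k).roots.toFinset).card ≤ m * d ^ m := by
    refine Finset.card_biUnion_le.trans ?_
    have h3 : ∀ k ∈ Finset.range m, ((P m - P k).roots.toFinset).card ≤ d ^ m := by
      intro k hk
      refine (Multiset.toFinset_card_le _).trans ((Polynomial.card_roots' _).trans ?_)
      refine (Polynomial.natDegree_sub_le _ _).trans ?_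
      rw [hPd, hPd]
      exact max_le le_rfl (hlt k (Finset.mem_range.1 hk)).le
    refine (Finset.sum_le_card_nsmul _ _ _ h3).trans ?_
    rw [Finset.card_range, smul_eq_mul]
  have h3 : (((Finset.range m).biUnion fun k => (P m - P k).roots.toFinset).card : ℕ∞) ≤
      ((m * d ^ m : ℕ) : ℕ∞) := by exact_mod_cast h2
  exact absurd (h.trans_le (h1.trans h3)) (lt_irrefl _)

end general

end Pool.Agent.X12.Nf
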