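import Pool.Agent.X12.Nf7

/-!
# The counts
-/

set_option autoImplicit false

namespace Pool.Agent.X12.Nf

open NumberField Module Polynomial Function

variable (K : Type*) [Field K] [NumberField K]

theorem FD_card {d : ℕ} (hd : 2 ≤ d) (m : ℕ) (ε : ℝ) (hε : 0 < ε) : ∃ C : ℝ, 0 < C ∧
    ∀ (a : 𝓞 K) (H : ℝ) (Q : ℕ), 1 ≤ H → a ≠ 0 → house (a : K) ≤ H ^ m →
    (Q : ℝ) ≤ LL d a H ^ finrank ℚ K →
    ((FD d a H Q).card : ℝ) ≤ C * H ^ ((finrank ℚ K : ℝ) + ε) * Q := by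
  classical
  set r := finrank ℚ K with hr
  have hr1 : 1 ≤ r := finrank_pos
  set P : ℕ := (d - 1 + r) + (r + r) with hP
  have hP0 : 0 < P := by omega
  have hd0 : (0 : ℝ) < d := by exact_mod_cast (by omega : 0 < d)
  have hPr : (0 : ℝ) < P := by exact_mod_cast hP0
  set η := ε / (d * ((m + 1) * P)) with hη
  have hη0 : 0 < η := by positivity
  obtain ⟨C0, hC0, hFU⟩ := FU_card K η hη0
  obtain ⟨C1, hC1, hOS⟩ := OS_card K
  set A : ℝ := 2 * (d + 1) with hA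
  have hA1 : 1 ≤ A := by rw [hA]; linarith
  refine ⟨C1 * (C0 ^ d * (A ^ P) ^ (η * d)), by positivity, fun a H Q hH ha haH hQ => ?_⟩
  have hH0 : 0 < H := by linarith
  have ha1 := one_le_house ha
  set W : ℝ := A * H ^ (m + 1) with hW
  have hHm : 1 ≤ H ^ (m + 1) := one_le_pow₀ hH
  have hW1 : 1 ≤ W := by rw [hW]; nlinarith
  have hM : house (a : K) * H ≤ H ^ (m + 1) := by
    rw [pow_succ]
    exact mul_le_mul_of_nonneg_right haH hH0.le
  have hM0 : 0 ≤ house (a : K) * H := mul_nonneg (house_nonneg _) hH0.le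
  have hMW : house (a : K) * H ≤ W := by
    rw [hW]
    nlinarith
  have hLW : LL d a H ≤ W := by
    unfold LL
    rw [← hA, hW]
    exact mul_le_mul_of_nonneg_left hM (by linarith)
  have hL1 : 1 ≤ LL d a H := LL_ge ha hH
  have hY1 : 1 ≤ YY d a H := YY_ge ha hH
  have hYW : YY d a H ≤ W ^ (d - 1 + r) := by
    unfold YY
    rw [pow_add]
    exact mul_le_mul (pow_le_pow_left₀ hM0 hMW _) (pow_le_pow_left₀ (by linarith) hLW _)
      (by positivity) (by positivity)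
  set B : ℝ := C0 * (W ^ P) ^ η with hB
  have hB0 : 0 ≤ B := by positivity
  have key : ∀ (D : 𝓞 K) (q : ℕ), D ≠ 0 → house (D : K) ≤ H → 1 ≤ q → q ≤ Q →
      ((fs (FU K (YY d a H) (Nm K (a * D) * q))).card : ℝ) ≤ B := by
    intro D q hD hDH hq hqQ
    have hc0 : a * D ≠ 0 := mul_ne_zero ha hD
    have hn1 : 1 ≤ Nm K (a * D) * q := Nat.mul_pos (Nm_pos hc0) hq
    obtain ⟨h1, h2⟩ := hFU (YY d a H) (Nm K (a * D) * q) hY1 hn1
    rw [card_fs h1]
    refine h2.trans ?_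
    rw [hB, mul_assoc, ← Real.mul_rpow (by linarith) (Nat.cast_nonneg _)]
    refine mul_le_mul_of_nonneg_left ?_ hC0.le
    refine Real.rpow_le_rpow (mul_nonneg (by linarith) (Nat.cast_nonneg _)) ?_ hη0.le
    rw [hP, pow_add W (d - 1 + r)]
    refine mul_le_mul hYW ?_ (Nat.cast_nonneg _) (by positivity)
    push_cast
    rw [pow_add]
    refine mul_le_mul ?_ ?_ (Nat.cast_nonneg _) (by positivity)
    · have h3 : house ((a * D : 𝓞 K) : K) ≤ house (a : K) * H := by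
        rw [vmul]
        exact (house_mul_le _ _).trans (mul_le_mul_of_nonneg_left hDH (house_nonneg _))
      exact (Nm_le hM0 h3).trans (pow_le_pow_left₀ hM0 hMW _)
    · have h3 : (q : ℝ) ≤ Q := by exact_mod_cast hqQ
      exact h3.trans (hQ.trans (pow_le_pow_left₀ (by linarith) hLW _))
  have hcard : ((FD d a H Q).card : ℝ) ≤ ((fs (OS K H \ {0})).card * Q : ℝ) * B ^ d := by
    unfold FD
    rw [Finset.card_sigma]
    push_cast
    have h1 : ∀ x ∈ fs (OS K H \ {0}) ×ˢ Finset.Icc 1 Q,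
        (((Fintype.piFinset fun _ : Fin d => fs (FU K (YY d a H)
          (Nm K (a * x.1) * x.2))).card : ℕ) : ℝ) ≤ B ^ d := by
      intro x hx
      rw [Finset.mem_product, mem_fs (os_fin K hH), Finset.mem_Icc] at hx
      obtain ⟨⟨a1, a2⟩, a3, a4⟩ := hx
      rw [Fintype.card_piFinset_const]
      push_cast
      exact pow_le_pow_left₀ (Nat.cast_nonneg _) (key _ _ a2 a1 a3 a4) _
    refine (Finset.sum_le_card_nsmul _ _ _ h1).trans (le_of_eq ?_)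
    rw [Finset.card_product, Nat.card_Icc, nsmul_eq_mul]
    push_cast
    simp
  have hos : ((fs (OS K H \ {0})).card : ℝ) ≤ C1 * H ^ r := by
    rw [card_fs (os_fin K hH)]
    refine le_trans ?_ (hOS H hH).2
    exact_mod_cast Set.ncard_le_ncard Set.sdiff_subset (hOS H hH).1
  refine hcard.trans ?_
  have e4 : B ^ d = C0 ^ d * (A ^ P) ^ (η * d) * H ^ ε := by
    have e5 : (W ^ P) ^ (η * d) = (A ^ P) ^ (η * d) * H ^ ε := by
      rw [hW, mul_pow, Real.mul_rpow (by positivity) (by positivity)]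
      congr 1
      rw [← pow_mul, ← Real.rpow_natCast, ← Real.rpow_mul hH0.le]
      congr 1
      rw [hη]
      push_cast
      field_simp
    rw [hB, mul_pow, ← Real.rpow_natCast ((W ^ P) ^ η) d, ← Real.rpow_mul (by positivity), e5]
    ring
  rw [e4, Real.rpow_add hH0, Real.rpow_natCast]
  calc ((fs (OS K H \ {0})).card * Q : ℝ) * (C0 ^ d * (A ^ P) ^ (η * d) * H ^ ε) ≤
        (C1 * H ^ r * Q : ℝ) * (C0 ^ d * (A ^ P) ^ (η * d) * H ^ ε) := by
        refine mul_le_mul_of_nonneg_right ?_ (by positivity)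
        exact mul_le_mul_of_nonneg_right hos (Nat.cast_nonneg _)
    _ = _ := by ring

/-- the polynomials with a point of period more than `d` -/
theorem cyc_count {d : ℕ} (hd : 2 ≤ d) (m : ℕ) (ε : ℝ) (hε : 0 < ε) : ∃ C : ℝ, 0 < C ∧
    ∀ (H : ℝ) (a : 𝓞 K), 1 ≤ H → a ≠ 0 → house (a : K) ≤ H ^ m →
    (({f | f ∈ Fam d a H ∧ ∃ z : K, d < minimalPeriod (fun x => f.eval x) z} :
      Set K[X]).ncard : ℝ) ≤ C * H ^ ((finrank ℚ K : ℝ) + ε) := by
  obtain ⟨C, hC, h⟩ := FD_card K hd m ε hε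
  have hd1 : (0 : ℝ) < (d - 1 : ℕ) := by exact_mod_cast (by omega : 0 < d - 1)
  refine ⟨C * (d - 1 : ℕ), by positivity, fun H a hH ha haH => ?_⟩
  obtain ⟨h1, h2⟩ := bad_card hd ha hH 1
  have h3 : ({f | f ∈ Fam d a H ∧ ∃ z : K, d < minimalPeriod (fun x => f.eval x) z} : Set K[X]) ⊆
      Bad d a H 1 := by
    rintro f ⟨hf, z, hz⟩
    exact cyc_bad hd hH ha hf hz
  have h4 := Set.ncard_le_ncard h3 h1
  have h5 := h a H 1 hH ha haH (by
    rw [Nat.cast_one]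
    exact one_le_pow₀ (LL_ge ha hH))
  rw [Nat.cast_one, mul_one] at h5
  have h6 : (({f | f ∈ Fam d a H ∧ ∃ z : K, d < minimalPeriod (fun x => f.eval x) z} :
      Set K[X]).ncard : ℝ) ≤ ((FD d a H 1).card : ℝ) * (d - 1 : ℕ) := by
    exact_mod_cast h4.trans h2
  refine h6.trans ?_
  calc ((FD d a H 1).card : ℝ) * (d - 1 : ℕ) ≤ (C * H ^ ((finrank ℚ K : ℝ) + ε)) * (d - 1 : ℕ) :=
        mul_le_mul_of_nonneg_right h5 hd1.le
    _ = _ := by ring

lemma QR_le {κ : ℕ} {X : ℝ} (hκ : 1 ≤ κ) (hX : 1 ≤ X) : (QR κ X : ℝ) ≤ X ∧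
    (QR κ X : ℝ) ≤ X ^ (1 / (κ : ℝ)) := by
  have hK1 : (1 : ℝ) ≤ κ := by exact_mod_cast hκ
  have h1 : (QR κ X : ℝ) ≤ X ^ (1 / (κ : ℝ)) := by
    unfold QR
    exact Nat.floor_le (Real.rpow_nonneg (by linarith) _)
  refine ⟨h1.trans ?_, h1⟩
  calc X ^ (1 / (κ : ℝ)) ≤ X ^ (1 : ℝ) := by
        refine Real.rpow_le_rpow_of_exponent_le hX ?_
        rw [div_le_one (by linarith)]
        exact hK1
    _ = _ := Real.rpow_one _

/-- the common bound for the long orbits -/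
theorem long_count {d : ℕ} (hd : 2 ≤ d) (m : ℕ) {κ : ℕ} (hκ : 1 ≤ κ) (ε : ℝ) (hε : 0 < ε) :
    ∃ C : ℝ, 0 < C ∧ ∀ (H : ℝ) (a : 𝓞 K), 1 ≤ H → a ≠ 0 → house (a : K) ≤ H ^ m →
      ∀ S : Set K[X],
      (∀ f ∈ S, f ∈ Fam d a H ∧ ∃ z ∈ Pre f,
      ∀ i ≤ κ * d + 1, ∀ j ≤ κ * d + 1, orb f z i = orb f z j → i = j) →
      (S.ncard : ℝ) ≤ C * H ^ ((finrank ℚ K : ℝ) * (1 + ((m : ℝ) + 1) / (κ : ℝ)) + ε) := by
  set r := finrank ℚ K with hr
  obtain ⟨C, hC, h⟩ := FD_card K hd m ε hε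
  have hd1 : (0 : ℝ) < (d - 1 : ℕ) := by exact_mod_cast (by omega : 0 < d - 1)
  set A : ℝ := 2 * (d + 1) with hA
  have hd0 : (0 : ℝ) ≤ d := Nat.cast_nonneg d
  have hA1 : 1 ≤ A := by rw [hA]; linarith
  refine ⟨C * (A ^ r) ^ (1 / (κ : ℝ)) * (d - 1 : ℕ), by positivity,
    fun H a hH ha haH S hS => ?_⟩
  have hH0 : 0 < H := by linarith
  have hL1 : 1 ≤ LL d a H := LL_ge ha hH
  set X : ℝ := LL d a H ^ r with hX
  have hX1 : 1 ≤ X := one_le_pow₀ hL1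
  obtain ⟨h1, h2⟩ := bad_card hd ha hH (QR κ X)
  have h3 : S ⊆ Bad d a H (QR κ X) := by
    intro f hf
    obtain ⟨e1, z, e2, e3⟩ := hS f hf
    exact orb_bad hd hH ha hκ e1 e2 e3
  have h4 := Set.ncard_le_ncard h3 h1
  obtain ⟨q1, q2⟩ := QR_le hκ hX1
  have h5 := h a H (QR κ X) hH ha haH q1
  have h6 : (S.ncard : ℝ) ≤ ((FD d a H (QR κ X)).card : ℝ) * (d - 1 : ℕ) := by
    exact_mod_cast h4.trans h2
  have h7 : X ^ (1 / (κ : ℝ)) ≤
      (A ^ r) ^ (1 / (κ : ℝ)) * H ^ ((r : ℝ) * (((m : ℝ) + 1) / (κ : ℝ))) := by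
    have h8 : LL d a H ≤ A * H ^ (m + 1) := by
      unfold LL
      rw [← hA]
      refine mul_le_mul_of_nonneg_left ?_ (by linarith)
      rw [pow_succ]
      exact mul_le_mul_of_nonneg_right haH hH0.le
    have h9 : X ≤ A ^ r * H ^ ((m + 1) * r) := by
      rw [hX, pow_mul, ← mul_pow]
      exact pow_le_pow_left₀ (by linarith) h8 _
    refine (Real.rpow_le_rpow (by linarith) h9 (by positivity)).trans (le_of_eq ?_)
    rw [Real.mul_rpow (by positivity) (by positivity), ← Real.rpow_natCast H,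
      ← Real.rpow_mul hH0.le]
    congr 2
    push_cast
    ring
  have h8 : (C * H ^ ((r : ℝ) + ε) * (QR κ X : ℝ)) ≤ C * (A ^ r) ^ (1 / (κ : ℝ)) *
      H ^ ((r : ℝ) * (1 + ((m : ℝ) + 1) / (κ : ℝ)) + ε) := by
    calc C * H ^ ((r : ℝ) + ε) * (QR κ X : ℝ) ≤ C * H ^ ((r : ℝ) + ε) *
          ((A ^ r) ^ (1 / (κ : ℝ)) * H ^ ((r : ℝ) * (((m : ℝ) + 1) / (κ : ℝ)))) :=
          mul_le_mul_of_nonneg_left (q2.trans h7) (by positivity)
      _ = _ := by
        have e : H ^ ((r : ℝ) * (1 + ((m : ℝ) + 1) / (κ : ℝ)) + ε) =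
            H ^ ((r : ℝ) + ε) * H ^ ((r : ℝ) * (((m : ℝ) + 1) / (κ : ℝ))) := by
          rw [← Real.rpow_add hH0]
          congr 1
          ring
        rw [e]
        ring
  calc (S.ncard : ℝ) ≤ ((FD d a H (QR κ X)).card : ℝ) * (d - 1 : ℕ) := h6
    _ ≤ (C * (A ^ r) ^ (1 / (κ : ℝ)) *
      H ^ ((r : ℝ) * (1 + ((m : ℝ) + 1) / (κ : ℝ)) + ε)) * (d - 1 : ℕ) :=
      mul_le_mul_of_nonneg_right (h5.trans h8) hd1.le
    _ = _ := by ring

end Pool.Agent.X12.Nf
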