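import Pool.Agent.X12.Nf8

/-!
# The size of the family: the upper bound, and the conjugacy
-/

set_option autoImplicit false

namespace Pool.Agent.X12.Nf

open NumberField Module Polynomial Function

variable (K : Type*) [Field K] [NumberField K]

theorem fam_upper {d : ℕ} (hd : 2 ≤ d) : ∃ C : ℝ, 0 < C ∧ ∀ (H : ℝ) (a : 𝓞 K), 1 ≤ H →
    (Fam d a H).Finite ∧
      ((Fam d a H).ncard : ℝ) ≤ C * H ^ (finrank ℚ K * (d * (d + 1) / 2)) := by
  classical
  set r := finrank ℚ K with hr
  obtain ⟨C1, hC1, hOS⟩ := OS_card K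
  refine ⟨C1 ^ d, by positivity, fun H a hH => ?_⟩
  have hH0 : 0 < H := by linarith
  have hHp : ∀ n : ℕ, 1 ≤ H ^ n := fun n => one_le_pow₀ hH
  set F : Finset (𝓞 K × (Fin (d - 1) → 𝓞 K)) := fs (OS K H \ {0}) ×ˢ Fintype.piFinset
    (fun i : Fin (d - 1) => fs (OS K (H ^ (d - (i : ℕ))))) with hF
  have hcard : (F.card : ℝ) ≤ C1 ^ d * H ^ (r * (d * (d + 1) / 2)) := by
    rw [hF, Finset.card_product, Fintype.card_piFinset]
    push_cast
    have h0 : ((fs (OS K H \ {0})).card : ℝ) ≤ C1 * H ^ r := by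
      rw [card_fs (os_fin K hH)]
      refine le_trans ?_ (hOS H hH).2
      exact_mod_cast Set.ncard_le_ncard Set.sdiff_subset (hOS H hH).1
    have h1 : ∏ i : Fin (d - 1), ((fs (OS K (H ^ (d - (i : ℕ))))).card : ℝ) ≤
        ∏ i : Fin (d - 1), (C1 * (H ^ (d - (i : ℕ))) ^ r) := by
      refine Finset.prod_le_prod (fun _ _ => Nat.cast_nonneg _) fun i _ => ?_
      obtain ⟨g1, g2⟩ := hOS (H ^ (d - (i : ℕ))) (hHp _)
      rw [card_fs g1]
      exact g2
    refine (mul_le_mul h0 h1 (Finset.prod_nonneg fun _ _ => Nat.cast_nonneg _)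
      (by positivity)).trans (le_of_eq ?_)
    rw [Finset.prod_mul_distrib, Finset.prod_const, Finset.card_univ, Fintype.card_fin]
    have e1 : ∏ i : Fin (d - 1), (H ^ (d - (i : ℕ))) ^ r =
        (H ^ (∑ i : Fin (d - 1), (d - (i : ℕ)))) ^ r := by
      rw [Finset.prod_pow, Finset.prod_pow_eq_pow_sum]
    have e2 : C1 ^ d = C1 * C1 ^ (d - 1) := by
      rw [← pow_succ']
      congr 1
      omega
    have e3 : H ^ (r * (d * (d + 1) / 2)) =
        H ^ r * (H ^ (∑ i : Fin (d - 1), (d - (i : ℕ)))) ^ r := by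
      rw [← Pg.exp_up hd, mul_add, pow_add, mul_one, mul_comm r, ← pow_mul]
    rw [e1, e2, e3]
    ring
  obtain ⟨h1, h2⟩ := card_of_rel (S := Fam d a H) F
    (fun f b => f.natDegree = d ∧ f.coeff d = (a : K) ∧
      f.coeff (d - 1) = 0 ∧ b.1 ≠ 0 ∧ ∀ i : Fin (d - 1), (b.2 i : K) =
      (b.1 : K) ^ (d - (i : ℕ)) * f.coeff i)
    (by
      rintro f ⟨a1, a2, a3, D, a4, a5, a6⟩
      choose B hB using fun i : Fin (d - 1) => a6 i (by omega)
      refine ⟨(D, B), ?_, a1, a2, a3, a4, fun i => (hB i).1⟩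
      rw [hF, Finset.mem_product, mem_fs (os_fin K hH), Fintype.mem_piFinset]
      refine ⟨⟨a5, a4⟩, fun i => ?_⟩
      rw [mem_fs (hOS _ (hHp _)).1]
      exact (hB i).2)
    (by
      rintro f _ f' _ b ⟨a1, a2, a3, a4, a5⟩ ⟨b1, b2, b3, b4, b5⟩
      have hb0 : (b.1 : K) ≠ 0 := RingOfIntegers.coe_ne_zero_iff.2 a4
      ext i
      rcases Nat.lt_or_ge i (d - 1) with h1 | h1
      · have e1 := a5 ⟨i, h1⟩
        have e2 := b5 ⟨i, h1⟩
        rw [e1] at e2
        exact mul_left_cancel₀ (pow_ne_zero _ hb0) e2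
      · rcases Nat.eq_or_lt_of_le h1 with h2 | h2
        · rw [← h2, a3, b3]
        · rcases Nat.lt_or_ge d i with h3 | h3
          · rw [Polynomial.coeff_eq_zero_of_natDegree_lt (by omega),
              Polynomial.coeff_eq_zero_of_natDegree_lt (by omega)]
          · have h4 : i = d := by omega
            rw [h4, a2, b2])
  refine ⟨h1, le_trans ?_ hcard⟩
  exact_mod_cast h2

theorem exists_conj {d : ℕ} (hd : 2 ≤ d) {g : K[X]} (hg : g.natDegree = d) :
    ∃ (a : 𝓞 K) (H : ℝ) (f : K[X]) (l μ : K), a ≠ 0 ∧ 1 ≤ H ∧ f ∈ Fam d a H ∧ l ≠ 0 ∧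
      g.comp (C l * X + C μ) = C l * f + C μ := by
  classical
  have hg0 : g ≠ 0 := by
    rintro rfl
    rw [Polynomial.natDegree_zero] at hg
    omega
  set b := g.coeff d with hb
  have hb0 : b ≠ 0 := by
    rw [hb, ← hg]
    exact Polynomial.leadingCoeff_ne_zero.2 hg0
  have hd0 : (d : K) ≠ 0 := by
    have : d ≠ 0 := by omega
    exact_mod_cast this
  -- the shift
  set μ : K := -(g.coeff (d - 1)) / (d * b) with hμ
  obtain ⟨x, y, hy, hxy⟩ := IsFractionRing.div_surjective (A := 𝓞 K) b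
  have hy0 : y ≠ 0 := nonZeroDivisors.ne_zero hy
  set l : K := (y : K) with hl
  have hl0 : l ≠ 0 := RingOfIntegers.coe_ne_zero_iff.2 hy0
  have hbl : b * l = (x : K) := by
    rw [← hxy]
    exact div_mul_cancel₀ _ hl0
  have hx0 : x ≠ 0 := by
    rintro rfl
    rw [vzero] at hbl
    exact (mul_ne_zero hb0 hl0) hbl
  set f : K[X] := C l⁻¹ * (g.comp (C l * X + C μ) - C μ) with hf
  have hconj : g.comp (C l * X + C μ) = C l * f + C μ := by
    rw [hf, ← mul_assoc, ← Polynomial.C_mul, mul_inv_cancel₀ hl0, Polynomial.C_1, one_mul]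
    ring
  have hco : ∀ i, (g.comp (C l * X + C μ)).coeff i = (taylor μ g).coeff i * l ^ i := by
    intro i
    have e : (g.comp (C l * X + C μ)) = (taylor μ g).comp (C l * X) := by
      rw [Polynomial.taylor_apply, Polynomial.comp_assoc, Polynomial.add_comp, Polynomial.X_comp,
        Polynomial.C_comp]
    rw [e, Polynomial.comp_C_mul_X_coeff]
  have htd : (taylor μ g).coeff d = b := by
    have h1 : (taylor μ g).natDegree = d := by rw [Polynomial.natDegree_taylor, hg]
    have h2 := Polynomial.leadingCoeff_taylor μ g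
    rw [Polynomial.leadingCoeff, Polynomial.leadingCoeff, h1, hg] at h2
    exact h2
  have htp : (taylor μ g).coeff (d - 1) = 0 := by
    rw [Polynomial.taylor_coeff, Polynomial.eval_eq_sum_range' (n := 2)]
    · rw [Finset.sum_range_succ, Finset.sum_range_one, Polynomial.hasseDeriv_coeff,
        Polynomial.hasseDeriv_coeff]
      have e1 : 0 + (d - 1) = d - 1 := by omega
      have e2 : 1 + (d - 1) = d := by omega
      have e3 : d.choose (d - 1) = d := by
        have := Nat.choose_symm (n := d) (k := 1) (by omega)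
        rw [this, Nat.choose_one_right]
      rw [e1, e2, e3, Nat.choose_self, ← hb, hμ]
      field_simp
      push_cast
      ring
    · refine lt_of_le_of_lt (Polynomial.natDegree_hasseDeriv_le _ _) ?_
      rw [hg]
      omega
  have hfc : ∀ i, i ≠ 0 → f.coeff i = l⁻¹ * ((taylor μ g).coeff i * l ^ i) := by
    intro i hi
    rw [hf, Polynomial.coeff_C_mul, Polynomial.coeff_sub, hco,
      Polynomial.coeff_C_of_ne_zero hi, sub_zero]
  have hfd : f.coeff d = ((x * y ^ (d - 2) : 𝓞 K) : K) := by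
    rw [hfc d (by omega), htd, vmul, vpow, ← hbl, ← hl]
    have e : l ^ d = l * (l * l ^ (d - 2)) := by
      rw [← mul_assoc, ← sq, ← pow_add]
      congr 1
      omega
    rw [e]
    field_simp
  have hfp : f.coeff (d - 1) = 0 := by
    rw [hfc (d - 1) (by omega), htp]
    ring
  have ha0 : x * y ^ (d - 2) ≠ 0 := mul_ne_zero hx0 (pow_ne_zero _ hy0)
  have hfdeg : f.natDegree = d := by
    refine le_antisymm ?_ ?_
    · rw [Polynomial.natDegree_le_iff_coeff_eq_zero]
      intro m hm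
      rw [hfc m (by omega), Polynomial.coeff_eq_zero_of_natDegree_lt]
      · ring
      · rw [Polynomial.natDegree_taylor, hg]
        exact hm
    · refine Polynomial.le_natDegree_of_ne_zero ?_
      rw [hfd]
      exact RingOfIntegers.coe_ne_zero_iff.2 ha0
  -- the height
  obtain ⟨D, hD⟩ := IsLocalization.exist_integer_multiples (nonZeroDivisors (𝓞 K))
    (Finset.range d) (fun i => f.coeff i)
  have hD0 : (D : 𝓞 K) ≠ 0 := nonZeroDivisors.ne_zero D.2
  have hB : ∀ i, ∃ B : 𝓞 K, i < d → (B : K) = ((D : 𝓞 K) : K) ^ (d - i) * f.coeff i := by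
    intro i
    by_cases hi : i < d
    · obtain ⟨k, hk⟩ := hD i (Finset.mem_range.2 hi)
      refine ⟨k * (D : 𝓞 K) ^ (d - i - 1), fun _ => ?_⟩
      have e1 : ((D : 𝓞 K) : K) ^ (d - i) = ((D : 𝓞 K) : K) ^ (d - i - 1) * ((D : 𝓞 K) : K) := by
        rw [← pow_succ]
        congr 1
        omega
      have e2 : (k : K) = ((D : 𝓞 K) : K) * f.coeff i := by
        have : algebraMap (𝓞 K) K k = (D : 𝓞 K) • f.coeff i := hk
        rw [Algebra.smul_def] at this
        exact this
      rw [vmul, vpow, e1, e2]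
      ring
    · exact ⟨0, fun h => absurd h hi⟩
  choose B hB using hB
  set H : ℝ := 1 + house ((D : 𝓞 K) : K) + ∑ i ∈ Finset.range d, house (B i : K) with hH
  have hs0 : 0 ≤ ∑ i ∈ Finset.range d, house (B i : K) :=
    Finset.sum_nonneg fun _ _ => house_nonneg _
  have hD1 : 0 ≤ house ((D : 𝓞 K) : K) := house_nonneg _
  have hH1 : 1 ≤ H := by linarith
  refine ⟨x * y ^ (d - 2), H, f, l, μ, ha0, hH1, ?_, hl0, hconj⟩
  refine ⟨hfdeg, hfd, hfp, D, hD0, by linarith, fun i hi => ⟨B i, hB i hi, ?_⟩⟩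
  have h1 : house (B i : K) ≤ ∑ i ∈ Finset.range d, house (B i : K) :=
    Finset.single_le_sum (f := fun i => house (B i : K)) (fun _ _ => house_nonneg _)
      (Finset.mem_range.2 hi)
  have h2 : house (B i : K) ≤ H := by linarith
  have h3 : H ≤ H ^ (d - i) := le_self_pow₀ hH1 (by omega)
  exact h2.trans h3

end Pool.Agent.X12.Nf
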