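import Pool.Agent.X12.Nu7

/-!
# Quadratic integers of given norm support
-/

set_option autoImplicit false

namespace Pool.Agent.X12.Nq

open NumberField Module Polynomial Function IntermediateField
open Pool.Agent.X12.Dyn (TS mem_TS TS_card)
open Pool.Agent.X12.Nf Pool.Agent.X12.Nu

/-- the roots of the quadratic polynomials with small trace and norm supported on `N` -/
def GQ (Y : ℝ) (N : ℕ) : Set ℂ := {u | ∃ t c : ℤ, |(t : ℝ)| ≤ 2 * Y ∧ c ∈ TS (Y ^ 2) N ∧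
  u ^ 2 - t * u + c = 0}

lemma quad {L : Type} [Field L] [NumberField L] (hL : finrank ℚ L = 2) {Y : ℝ} (hY : 0 ≤ Y)
    {N : ℕ} {u : 𝓞 L} (hu : u ∈ FU L Y N) (σ : L →+* ℂ) : σ (u : L) ∈ GQ Y N := by
  classical
  obtain ⟨u1, u2, u3⟩ := hu
  have hcard : Fintype.card (Free.ChooseBasisIndex ℤ (𝓞 L)) = Fintype.card (Fin 2) := by
    rw [card_index, hL, Fintype.card_fin]
  set b : Basis (Fin 2) ℤ (𝓞 L) :=
    (RingOfIntegers.basis L).reindex (Fintype.equivOfCardEq hcard) with hb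
  set M := Algebra.leftMulMatrix b u with hM
  have h1 : aeval u M.charpoly = 0 := by
    have h2 : aeval M M.charpoly = 0 := Matrix.aeval_self_charpoly M
    have h3 : Algebra.leftMulMatrix b (aeval u M.charpoly) = 0 := by
      rw [← Polynomial.aeval_algHom_apply]
      exact h2
    exact Algebra.leftMulMatrix_injective b (by rw [h3, map_zero])
  rw [Matrix.charpoly_fin_two] at h1
  have hdet : M.det = Algebra.norm ℤ u := (Algebra.norm_eq_matrix_det b u).symm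
  have htr : M.trace = Algebra.trace ℤ (𝓞 L) u := (Algebra.trace_eq_matrix_trace b u).symm
  rw [hdet, htr] at h1
  set t := Algebra.trace ℤ (𝓞 L) u with ht
  set c := Algebra.norm ℤ u with hc
  have hcN : c.natAbs = Nm L u := by
    unfold Nm
    rw [Ideal.absNorm_span_singleton]
  refine ⟨t, c, ?_, ?_, ?_⟩
  · have h2 : (t : ℂ) = ∑ τ : L →ₐ[ℚ] ℂ, τ (u : L) := by
      rw [← trace_eq_sum_embeddings (K := ℚ) (L := L) ℂ (x := (u : L))]
      rw [← Algebra.coe_trace_int]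
      simp
      rfl
    have h3 : |(t : ℝ)| = ‖(t : ℂ)‖ := (Complex.norm_intCast t).symm
    rw [h3, h2]
    refine (norm_sum_le _ _).trans ?_
    have h4 : ∀ τ ∈ (Finset.univ : Finset (L →ₐ[ℚ] ℂ)), ‖τ (u : L)‖ ≤ Y := fun τ _ =>
      (norm_embedding_le_house (u : L) (τ : L →+* ℂ)).trans u2
    refine (Finset.sum_le_card_nsmul _ _ _ h4).trans (le_of_eq ?_)
    rw [Finset.card_univ, AlgHom.card, hL, nsmul_eq_mul]
    norm_num
  · refine mem_TS ?_ ?_ ?_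
    · have h2 := Nm_le hY u2
      rw [hL, ← hcN, Nat.cast_natAbs] at h2
      push_cast at h2
      exact h2
    · rw [← Int.natAbs_ne_zero, hcN]
      have := Nm_pos u1
      omega
    · rw [hcN]
      exact u3
  · have h2 : (u : 𝓞 L) ^ 2 - (algebraMap ℤ (𝓞 L)) t * u + (algebraMap ℤ (𝓞 L)) c = 0 := by
      simpa only [map_sub, map_add, map_mul, map_pow, aeval_X, aeval_C] using h1
    have e1 : ∀ x : ℤ, σ (((algebraMap ℤ (𝓞 L)) x : 𝓞 L) : L) = (x : ℂ) := by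
      intro x
      simp
    have e2 : σ ((((u : 𝓞 L) ^ 2 - (algebraMap ℤ (𝓞 L)) t * u + (algebraMap ℤ (𝓞 L)) c : 𝓞 L)) : L) =
        σ (u : L) ^ 2 - t * σ (u : L) + c := by
      simp
    rw [← e2]
    rw [h2]
    simp

lemma quad_monic {R : Type*} [CommRing R] [Nontrivial R] (t c : R) :
    (X ^ 2 + (-C t * X + C c) : R[X]).Monic := by
  refine Polynomial.monic_X_pow_add ?_
  refine lt_of_le_of_lt (Polynomial.degree_add_le _ _) ?_
  rw [max_lt_iff]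
  constructor
  · rw [← Polynomial.C_neg]
    refine lt_of_le_of_lt (Polynomial.degree_C_mul_X_le _) ?_
    norm_num
  · refine lt_of_le_of_lt Polynomial.degree_C_le ?_
    norm_num

lemma GQ_int {Y : ℝ} {N : ℕ} {u : ℂ} (hu : u ∈ GQ Y N) :
    IsIntegral ℤ u ∧ (minpoly ℚ u).natDegree ≤ 2 := by
  obtain ⟨t, c, -, -, h⟩ := hu
  have hm : (X ^ 2 + (-C (t : ℤ) * X + C c) : ℤ[X]).Monic := quad_monic t c
  have h0 : aeval u (X ^ 2 + (-C (t : ℤ) * X + C c) : ℤ[X]) = 0 := by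
    simp only [map_add, map_mul, map_neg, map_pow, aeval_X, aeval_C]
    have e1 : (algebraMap ℤ ℂ) t = (t : ℂ) := by simp
    have e2 : (algebraMap ℤ ℂ) c = (c : ℂ) := by simp
    rw [e1, e2]
    linear_combination h
  refine ⟨⟨_, hm, h0⟩, ?_⟩
  set p : ℚ[X] := X ^ 2 + (-C (t : ℚ) * X + C (c : ℚ)) with hp
  have hpm : p.degree ≤ 2 := by
    rw [hp]
    compute_degree
  have hp0 : p ≠ 0 := (quad_monic (t : ℚ) (c : ℚ)).ne_zero
  have h3 : aeval u p = 0 := by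
    rw [hp]
    simp only [map_add, map_mul, map_neg, map_pow, aeval_X, aeval_C]
    have e1 : (algebraMap ℚ ℂ) t = (t : ℂ) := by simp
    have e2 : (algebraMap ℚ ℂ) c = (c : ℂ) := by simp
    rw [e1, e2]
    linear_combination h
  have h4 := minpoly.degree_le_of_ne_zero ℚ u hp0 h3
  exact Polynomial.natDegree_le_of_degree_le (h4.trans hpm)

theorem GQ_card (ε : ℝ) (hε : 0 < ε) : ∃ C : ℝ, 0 < C ∧ ∀ (Y : ℝ) (N : ℕ), 1 ≤ Y → 1 ≤ N →
    (GQ Y N).Finite ∧ ((GQ Y N).ncard : ℝ) ≤ C * Y ^ (1 + ε) * (N : ℝ) ^ ε := by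
  classical
  obtain ⟨C1, hC1, h1⟩ := TS_card (ε / 2) (by positivity)
  refine ⟨10 * C1, by positivity, fun Y N hY hN => ?_⟩
  have hY0 : 0 < Y := by linarith
  set F : Finset (ℤ × ℤ) := Finset.Icc (-⌊2 * Y⌋) ⌊2 * Y⌋ ×ˢ TS (Y ^ 2) N with hF
  set S : ℤ × ℤ → Set ℂ := fun x => {u | u ^ 2 - x.1 * u + x.2 = 0} with hS
  have hSfin : ∀ x, (S x).Finite ∧ (S x).ncard ≤ 2 := by
    intro x
    set p : ℂ[X] := X ^ 2 + (-C (x.1 : ℂ) * X + C (x.2 : ℂ)) with hp
    have hpm : p.degree ≤ 2 := by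
      rw [hp]
      compute_degree
    have hp0 : p ≠ 0 := (quad_monic (x.1 : ℂ) (x.2 : ℂ)).ne_zero
    have h2 : S x ⊆ (p.roots.toFinset : Set ℂ) := by
      intro u hu
      rw [Finset.mem_coe, Multiset.mem_toFinset, Polynomial.mem_roots hp0, Polynomial.IsRoot.def, hp]
      simp only [eval_add, eval_mul, eval_neg, eval_pow, eval_X, eval_C]
      have hu' : u ^ 2 - x.1 * u + x.2 = 0 := hu
      linear_combination hu'
    refine ⟨(Finset.finite_toSet _).subset h2, ?_⟩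
    refine (Set.ncard_le_ncard h2 (Finset.finite_toSet _)).trans ?_
    rw [Set.ncard_coe_finset]
    refine (Multiset.toFinset_card_le _).trans ((Polynomial.card_roots' _).trans ?_)
    exact Polynomial.natDegree_le_of_degree_le hpm
  have hsub : GQ Y N ⊆ ⋃ x ∈ F, S x := by
    rintro u ⟨t, c, ht, hc, h⟩
    rw [Set.mem_iUnion₂]
    refine ⟨(t, c), ?_, h⟩
    rw [hF, Finset.mem_product]
    exact ⟨Szp.mem_of_abs_le ht, hc⟩
  have hfin : (⋃ x ∈ F, S x).Finite := Set.Finite.biUnion F.finite_toSet fun c _ => (hSfin c).1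
  refine ⟨hfin.subset hsub, ?_⟩
  have h2 : (GQ Y N).ncard ≤ ∑ x ∈ F, (S x).ncard :=
    (Set.ncard_le_ncard hsub hfin).trans (Finset.set_ncard_biUnion_le F _)
  have h3 : ∑ x ∈ F, (S x).ncard ≤ F.card * 2 := by
    refine (Finset.sum_le_card_nsmul _ _ _ fun c _ => (hSfin c).2).trans (le_of_eq ?_)
    rw [smul_eq_mul]
  have h4 : ((GQ Y N).ncard : ℝ) ≤ (F.card : ℝ) * 2 := by exact_mod_cast h2.trans h3
  have h5 : ((Finset.Icc (-⌊2 * Y⌋) ⌊2 * Y⌋).card : ℝ) ≤ 5 * Y := by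
    have h0 : 0 ≤ ⌊2 * Y⌋ := Int.floor_nonneg.2 (by linarith)
    rw [Int.card_Icc]
    have e1 : (((⌊2 * Y⌋ + 1 - -⌊2 * Y⌋).toNat : ℤ) : ℝ) = ((2 * ⌊2 * Y⌋ + 1 : ℤ) : ℝ) := by
      rw [Int.toNat_of_nonneg (by omega)]
      congr 1
      ring
    have e2 : ((⌊2 * Y⌋ + 1 - -⌊2 * Y⌋).toNat : ℝ) = ((2 * ⌊2 * Y⌋ + 1 : ℤ) : ℝ) := by
      rw [← e1]
      norm_cast
    rw [e2]
    push_cast
    have := Int.floor_le (2 * Y)
    linarith
  have h6 : ((TS (Y ^ 2) N).card : ℝ) ≤ C1 * Y ^ ε * (N : ℝ) ^ ε := by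
    refine (h1 (Y ^ 2) N (one_le_pow₀ hY) hN).trans ?_
    have e1 : (Y ^ 2) ^ (ε / 2) = Y ^ ε := by
      rw [← Real.rpow_natCast, ← Real.rpow_mul hY0.le]
      congr 1
      push_cast
      ring
    have hN1 : (1 : ℝ) ≤ N := by exact_mod_cast hN
    have e2 : (N : ℝ) ^ (ε / 2) ≤ (N : ℝ) ^ ε :=
      Real.rpow_le_rpow_of_exponent_le hN1 (by linarith)
    rw [e1]
    exact mul_le_mul_of_nonneg_left e2 (by positivity)
  have h7 : (F.card : ℝ) = ((Finset.Icc (-⌊2 * Y⌋) ⌊2 * Y⌋).card : ℝ) * ((TS (Y ^ 2) N).card : ℝ) := by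
    rw [hF, Finset.card_product]
    push_cast
    rfl
  calc ((GQ Y N).ncard : ℝ) ≤ (F.card : ℝ) * 2 := h4
    _ ≤ ((5 * Y) * (C1 * Y ^ ε * (N : ℝ) ^ ε)) * 2 := by
      rw [h7]
      refine mul_le_mul_of_nonneg_right ?_ (by norm_num)
      exact mul_le_mul h5 h6 (Nat.cast_nonneg _) (by positivity)
    _ = _ := by
      rw [Real.rpow_add hY0, Real.rpow_one]
      ring

end Pool.Agent.X12.Nq
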