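import Pool.Agent.X12.Nq1

/-!
# Quadratic polynomials with long orbits over quadratic fields: the data
-/

set_option autoImplicit false

namespace Pool.Agent.X12.Nq

open NumberField Module Polynomial Function IntermediateField
open Pool.Agent.X12.Pg (fr fr_spec fr_pos fr_le fr_dvd quot_dvd)
open Pool.Agent.X12.Nf Pool.Agent.X12.Nu

section general

variable {K : Type} [Field K] [NumberField K]

theorem bad_dataE {d : ℕ} (hd : 2 ≤ d) {a : 𝓞 K} {H : ℝ} (hH : 1 ≤ H) {Q : ℕ} {f : K[X]}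
    {D : 𝓞 K} (hf : BadD d a H Q f D) :
    ∃ q : ℕ, 1 ≤ q ∧ q ≤ Q ∧ ∃ U : Fin d → 𝓞 K,
      (∀ i, U i ∈ FU K (YY d a H) (Nm K (a * D) * q)) ∧ ∃ z ∈ Pre f,
      (∀ i ≤ d, ∀ j ≤ d, orb f z i = orb f z j → i = j) ∧
      ∀ i : Fin d, (U i : K) * (orb f z (i + 1) - orb f z i) =
        ((a ^ (d - 2) * D ^ (d - 1) : 𝓞 K) : K) * (orb f z (i + 2) - orb f z (i + 1)) := by
  classical
  obtain ⟨hc, B, hB, z, hz, hinj, hlast, hQ⟩ := hf
  have ha0 := hB.a0
  have hD0 := hB.D0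
  have hbd := fm_bd hd hH hB
  obtain ⟨Z, hZ, hZH, hdvd⟩ := int_orb hbd hd hz
  set c : 𝓞 K := a * D with hcdef
  set E : 𝓞 K := a ^ (d - 2) * D ^ (d - 1) with hEdef
  have hcq : (c : K) ≠ 0 := RingOfIntegers.coe_ne_zero_iff.2 hbd.c0
  set D' : ℕ := Nm K c with hD'
  have hD'1 : 1 ≤ D' := Nm_pos hbd.c0
  have hED : Nm K E ∣ D' ^ (d - 1) := by
    rw [hD', ← Nm_pow, hcdef, mul_pow]
    refine Nm_dvd ?_
    rw [hEdef]
    exact mul_dvd_mul (pow_dvd_pow _ (by omega)) dvd_rfl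
  set T : ℕ → 𝓞 K := fun i => Z (i + 1) - Z i with hT
  have hTq : ∀ i, (T i : K) = c * (orb f z (i + 1) - orb f z i) := by
    intro i
    simp only [hT]
    rw [vsub, hZ, hZ]
    ring
  have hT0 : ∀ i ≤ d, T i ≠ 0 := by
    intro i hi h0
    have h1 := hTq i
    rw [h0, vzero] at h1
    have h2 := (mul_eq_zero.1 h1.symm).resolve_left hcq
    rcases Nat.lt_or_ge i d with h3 | h3
    · have := hinj (i + 1) (by omega) i (by omega) (sub_eq_zero.1 h2)
      omega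
    · have : i = d := by omega
      subst this
      exact hlast (sub_eq_zero.1 h2)
  have hTpos : ∀ i ≤ d, 1 ≤ Nm K (T i) := fun i hi => Nm_pos (hT0 i hi)
  have hTdvd : ∀ i, T i ∣ E * T (i + 1) := fun i => hdvd i
  have hfr2 : ∀ i ≤ d, ∀ j ≤ i, fr D' (Nm K (T j)) ∣ fr D' (Nm K (T i)) :=
    fr_chain hED hT0 hTdvd
  choose U hU using hTdvd
  obtain ⟨q, hq⟩ := hfr2 d le_rfl 0 (by omega)
  have hp0 := fr_pos (D := D') (hTpos 0 (by omega))
  have hpd := fr_pos (D := D') (hTpos d le_rfl)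
  have hq1 : 1 ≤ q := by
    rcases Nat.eq_zero_or_pos q with h | h
    · rw [h, mul_zero] at hq
      omega
    · exact h
  have hqQ : q ≤ Q := by
    have h1 := hQ (T 0) (T d) (by rw [hTq]) (by rw [hTq])
    rw [hq, mul_comm Q] at h1
    exact Nat.le_of_mul_le_mul_left h1 hp0
  have hUdvd : ∀ i < d, Nm K (U i) ∣ D' ^ (d - 1 + Nm K (T (i + 1))) * q := by
    intro i hi
    refine quot_dvd (s := Nm K (T i)) (t := Nm K (T (i + 1))) (hTpos i (by omega))
      (hTpos (i + 1) (by omega)) ?_ ?_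
    · have h1 : Nm K E * Nm K (T (i + 1)) = Nm K (T i) * Nm K (U i) := by
        rw [← Nm_mul, ← Nm_mul, hU i]
      rw [mul_comm (Nm K (U i)), ← h1]
      exact Nat.mul_dvd_mul hED dvd_rfl
    · refine (hfr2 d le_rfl (i + 1) (by omega)).trans ?_
      rw [hq]
      exact Nat.mul_dvd_mul (hfr2 i (by omega) 0 (by omega)) dvd_rfl
  have hE0 : E ≠ 0 := hbd.E0
  have hU0 : ∀ i < d, U i ≠ 0 := by
    intro i hi h0
    have h1 := hU i
    rw [h0, mul_zero] at h1
    exact hT0 (i + 1) (by omega) ((mul_eq_zero.1 h1).resolve_left hE0)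
  have hL1 : 1 ≤ LL d a H := LL_ge ha0 hH
  have hTH : ∀ i, house (T i : K) ≤ LL d a H := by
    intro i
    refine house_le_of K (by linarith) fun σ => ?_
    simp only [hT]
    rw [vsub, map_sub]
    refine (norm_sub_le _ _).trans ?_
    have h1 := (norm_embedding_le_house (Z (i + 1) : K) σ).trans (hZH (i + 1))
    have h2 := (norm_embedding_le_house (Z i : K) σ).trans (hZH i)
    unfold LL
    linarith
  have hUH : ∀ i < d, house (U i : K) ≤ YY d a H := by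
    intro i hi
    have hY1 := YY_ge (d := d) ha0 hH
    refine house_le_of K (by linarith) fun σ => ?_
    have h1 := one_le_place K hL1 (hT0 i (by omega)) (hTH i) σ
    have h2 : ‖σ (E : K)‖ ≤ (house (a : K) * H) ^ (d - 1) :=
      (norm_embedding_le_house _ σ).trans hbd.EM
    have h3 : ‖σ (T (i + 1) : K)‖ ≤ LL d a H := (norm_embedding_le_house _ σ).trans (hTH _)
    have h4 : ‖σ (E : K)‖ * ‖σ (T (i + 1) : K)‖ = ‖σ (T i : K)‖ * ‖σ (U i : K)‖ := by
      have h0 : (E : K) * (T (i + 1) : K) = (T i : K) * (U i : K) := by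
        rw [← vmul, ← vmul, hU i]
      rw [← norm_mul, ← norm_mul, ← map_mul σ, ← map_mul σ, h0]
    have h5 : LL d a H ^ finrank ℚ K = LL d a H * LL d a H ^ (finrank ℚ K - 1) := by
      rw [← pow_succ']
      congr 1
      have : 1 ≤ finrank ℚ K := finrank_pos
      omega
    unfold YY
    rw [h5]
    have h6 : 0 ≤ LL d a H ^ (finrank ℚ K - 1) := by positivity
    have h7 : 0 ≤ (house (a : K) * H) ^ (d - 1) :=
      pow_nonneg (mul_nonneg (house_nonneg _) (by linarith)) _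
    calc ‖σ (U i : K)‖ ≤ ‖σ (U i : K)‖ * (‖σ (T i : K)‖ * LL d a H ^ (finrank ℚ K - 1)) :=
          le_mul_of_one_le_right (norm_nonneg _) h1
      _ = (‖σ (E : K)‖ * ‖σ (T (i + 1) : K)‖) * LL d a H ^ (finrank ℚ K - 1) := by
        rw [h4]
        ring
      _ ≤ ((house (a : K) * H) ^ (d - 1) * LL d a H) * LL d a H ^ (finrank ℚ K - 1) := by
        refine mul_le_mul_of_nonneg_right ?_ h6
        exact mul_le_mul h2 h3 (norm_nonneg _) h7
      _ = _ := by ring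
  refine ⟨q, hq1, hqQ, fun i => U i, fun i => ?_, ?_⟩
  · refine ⟨hU0 i i.2, hUH i i.2, ?_⟩
    intro p hp
    have hpp := Nat.prime_of_mem_primeFactors hp
    have h1 : p ∣ D' ^ (d - 1 + Nm K (T (i + 1))) * q :=
      (Nat.dvd_of_mem_primeFactors hp).trans (hUdvd i i.2)
    rw [Nat.mem_primeFactors]
    refine ⟨hpp, ?_, (Nat.mul_pos hD'1 hq1).ne'⟩
    rcases (Nat.Prime.dvd_mul hpp).1 h1 with h2 | h2
    · exact (hpp.dvd_of_dvd_pow h2).mul_right _
    · exact h2.mul_left _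
  · refine ⟨z, hz, hinj, ?_⟩
    intro i
    show (U i : K) * _ = (E : K) * _
    have h1 : ((T i * U i : 𝓞 K) : K) = ((E * T (i + 1) : 𝓞 K) : K) := by
      rw [← hU i]
    rw [vmul, vmul, hTq, hTq] at h1
    have h2 : (c : K) * ((U i : K) * (orb f z (i + 1) - orb f z i)) =
        (c : K) * ((E : K) * (orb f z (i + 2) - orb f z (i + 1))) := by
      linear_combination h1
    exact mul_left_cancel₀ hcq h2


/-- the quadratic case -/
theorem quad_bound {H : ℝ} (hH : 1 ≤ H) {Q : ℕ} {f : K[X]} {D : 𝓞 K}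
    (hf : BadD 2 ((1 : ℤ) : 𝓞 K) H Q f D) :
    ∃ q : ℕ, 1 ≤ q ∧ q ≤ Q ∧ ∃ U : Fin 2 → 𝓞 K,
      (∀ i, U i ∈ FU K (6 * H) (Nm K D * q)) ∧ Rel 2 (1 : K) f (D : K) fun i => (U i : K) := by
  obtain ⟨q, hq1, hqQ, U, hU, z, hz, hinj, hrel⟩ := bad_dataE le_rfl hH hf
  obtain ⟨hc, B, hB, -⟩ := hf
  have hbd := fm_bd le_rfl hH hB
  have hone : (((1 : ℤ) : 𝓞 K)) = 1 := Int.cast_one
  have h1K : (((1 : ℤ) : 𝓞 K) : K) = 1 := by
    rw [hone]
    exact map_one (algebraMap (𝓞 K) K)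
  have hE : ((((1 : ℤ) : 𝓞 K) ^ (2 - 2) * D ^ (2 - 1) : 𝓞 K) : K) = (D : K) := by
    rw [hone]
    simp
  have hcD : ((((1 : ℤ) : 𝓞 K) * D : 𝓞 K) : K) = (D : K) := by
    rw [hone, one_mul]
  have hD0 : (D : K) ≠ 0 := RingOfIntegers.coe_ne_zero_iff.2 hB.D0
  have hev : ∀ x, f.eval x = x ^ 2 + f.coeff 0 := by
    intro x
    have h2 := hB.lc
    rw [h1K] at h2
    have h3 : f.coeff 1 = 0 := hc
    rw [Polynomial.eval_eq_sum_range, hB.deg, Finset.sum_range_succ, Finset.sum_range_succ,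
      Finset.sum_range_one, h2, h3]
    ring
  have hUeq : ∀ i : Fin 2, (U i : K) = (D : K) * (orb f z (i + 1) + orb f z i) := by
    intro i
    have h2 := hrel i
    rw [hE] at h2
    have h3 : orb f z ((i : ℕ) + 2) - orb f z ((i : ℕ) + 1) =
        (orb f z (i + 1) - orb f z i) * (orb f z (i + 1) + orb f z i) := by
      rw [orb_succ f z ((i : ℕ) + 1), hev]
      have e1 : orb f z ((i : ℕ) + 1) = orb f z i ^ 2 + f.coeff 0 := by rw [orb_succ, hev]
      linear_combination -e1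
    rw [h3] at h2
    have h4 : orb f z ((i : ℕ) + 1) - orb f z i ≠ 0 := by
      intro h5
      have hi := i.2
      have := hinj (i + 1) (by omega) i (by omega) (sub_eq_zero.1 h5)
      omega
    have h5 : (orb f z ((i : ℕ) + 1) - orb f z i) * (U i : K) =
        (orb f z ((i : ℕ) + 1) - orb f z i) * ((D : K) * (orb f z (i + 1) + orb f z i)) := by
      rw [mul_comm, h2]
      ring
    exact mul_left_cancel₀ h4 h5
  have hhouse1 : house (((1 : ℤ) : 𝓞 K) : K) = 1 := by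
    rw [house_int]
    simp
  refine ⟨q, hq1, hqQ, U, fun i => ?_, ?_⟩
  · obtain ⟨u1, -, u3⟩ := hU i
    refine ⟨u1, ?_, ?_⟩
    · refine house_le_of K (by positivity) fun σ => ?_
      rw [hUeq, mul_add, map_add]
      refine (norm_add_le _ _).trans ?_
      have h2 := pre_abs hbd le_rfl (orb_pre hz (i + 1)) σ
      have h3 := pre_abs hbd le_rfl (orb_pre hz i) σ
      rw [hcD, hhouse1] at h2 h3
      push_cast at h2 h3
      linarith
    · rw [hone, one_mul] at u3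
      exact u3
  · have h2 := hB.lc
    rw [h1K] at h2
    refine ⟨h2, hB.deg, hc, orb f z, orb_succ f z, hinj, ?_⟩
    intro i
    have h3 := hrel i
    rw [hE] at h3
    exact h3

end general

/-- the finite set of the data -/
noncomputable def FDQ (H Q : ℕ) : Finset (Σ _ : ℕ × ℕ, Σ _ : ℂ, (Fin 2 → ℂ)) :=
  (Finset.Icc 1 H ×ˢ Finset.Icc 1 Q).sigma fun x =>
    (fs (GQ (6 * H) (x.1 * x.2))).sigma fun g =>
      Fintype.piFinset fun _ : Fin 2 => fs (FUC g (6 * H) (x.1 * x.2))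

/-- integers in an intermediate field -/
def FUL (L : IntermediateField ℚ ℂ) (Y : ℝ) (N : ℕ) : Set ℂ :=
  {u | ∃ (_ : NumberField L) (w : 𝓞 L), w ∈ FU L Y N ∧ u = ((w : L) : ℂ)}

theorem quad_data {H : ℕ} (hH : 1 ≤ H) {Q : ℕ} {f : ℚ[X]} {D : ℕ} (hD : 1 ≤ D) (hDH : D ≤ H)
    {L : IntermediateField ℚ ℂ} [hnf : NumberField L] (hL : finrank ℚ L = 2)
    (hbad : BadD 2 ((1 : ℤ) : 𝓞 L) (H : ℝ) Q (f.map (algebraMap ℚ L)) ((D : ℤ) : 𝓞 L)) :
    ∃ b ∈ FDQ H Q, 1 ≤ b.1.1 ∧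
      Rel 2 (1 : ℂ) (f.map (algebraMap ℚ ℂ)) ((b.1.1 : ℤ) : ℂ) b.2.2 := by
  classical
  have hHR : (1 : ℝ) ≤ H := by exact_mod_cast hH
  obtain ⟨q, hq1, hqQ, U, hU, hrel⟩ := quad_bound hHR hbad
  have hY1 : (1 : ℝ) ≤ 6 * H := by linarith
  have hN1 : 1 ≤ D * q := Nat.mul_pos hD hq1
  set τ : L →+* ℂ := algebraMap L ℂ with hτ
  have hsupp : (Nm L ((D : ℤ) : 𝓞 L) * q).primeFactors ⊆ (D * q).primeFactors := by
    intro p hp
    have hpp := Nat.prime_of_mem_primeFactors hp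
    have hpd := Nat.dvd_of_mem_primeFactors hp
    rw [Nm_int, Int.natAbs_natCast] at hpd
    rw [Nat.mem_primeFactors]
    refine ⟨hpp, ?_, by omega⟩
    rcases (Nat.Prime.dvd_mul hpp).1 hpd with h1 | h1
    · exact (hpp.dvd_of_dvd_pow h1).mul_right _
    · exact h1.mul_left _
  have hU' : ∀ i, U i ∈ FU L (6 * H) (D * q) := fun i =>
    ⟨(hU i).1, (hU i).2.1, (hU i).2.2.trans hsupp⟩
  have hrel' := rel_map τ hrel
  have e1 : τ (1 : L) = (1 : ℂ) := map_one _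
  have e2 : τ ((((D : ℤ) : 𝓞 L)) : L) = ((D : ℤ) : ℂ) := by
    have := map_intCast (algebraMap (𝓞 L) L) (D : ℤ)
    show τ (algebraMap (𝓞 L) L ((D : ℤ) : 𝓞 L)) = _
    rw [this, map_intCast]
  have e3 : (f.map (algebraMap ℚ L)).map τ = f.map (algebraMap ℚ ℂ) := by
    rw [Polynomial.map_map]
    congr 1
  rw [e1, e2, e3] at hrel'
  -- the generator
  have hgen : ∃ g ∈ GQ (6 * H) (D * q), ∀ i, τ (U i : L) ∈ FUC g (6 * H) (D * q) := by
    by_cases hall : ∀ i, τ (U i : L) ∈ (⊥ : IntermediateField ℚ ℂ)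
    · have hint : ∀ i, ∃ t : ℤ, τ (U i : L) = (t : ℂ) := by
        intro i
        obtain ⟨r, hr⟩ := IntermediateField.mem_bot.1 (hall i)
        have h1 : IsIntegral ℤ ((algebraMap ℚ ℂ) r) := by
          rw [hr]
          exact (RingOfIntegers.isIntegral_coe (U i)).map (τ : L →+* ℂ).toIntAlgHom
        have h2 : IsIntegral ℤ r := (isIntegral_algebraMap_iff (algebraMap ℚ ℂ).injective).1 h1
        obtain ⟨t, ht⟩ := IsIntegrallyClosed.isIntegral_iff.1 h2
        refine ⟨t, ?_⟩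
        rw [← hr, ← ht]
        simp
      choose t ht using hint
      have hUt : ∀ i, U i = ((t i : ℤ) : 𝓞 L) := by
        intro i
        refine RingOfIntegers.coe_injective (τ.injective ?_)
        show τ (U i : L) = τ (algebraMap (𝓞 L) L ((t i : ℤ) : 𝓞 L))
        rw [ht, map_intCast, map_intCast]
      have hg := quad hL (by linarith) (hU' 0) τ
      refine ⟨τ (U 0 : L), hg, fun i => ?_⟩
      have hgi := (GQ_int hg).1
      have hnf' := nf_adjoin hgi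
      refine ⟨hnf', ((t i : ℤ) : 𝓞 ℚ⟮τ (U 0 : L)⟯), ⟨?_, ?_, ?_⟩, ?_⟩
      · have h1 := (hU' i).1
        rw [hUt] at h1
        have h2 : t i ≠ 0 := by
          intro h3
          apply h1
          rw [h3, Int.cast_zero]
        exact_mod_cast h2
      · have h1 := (hU' i).2.1
        rw [hUt, house_int] at h1
        rw [house_int]
        exact h1
      · have h1 := (hU' i).2.2
        rw [hUt, Nm_int, hL, Nat.primeFactors_pow _ (by norm_num)] at h1
        have h2 : finrank ℚ ℚ⟮τ (U 0 : L)⟯ ≠ 0 := finrank_pos.ne'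
        rw [Nm_int, Nat.primeFactors_pow _ h2]
        exact h1
      · rw [ht]
        have := map_intCast (algebraMap (𝓞 ℚ⟮τ (U 0 : L)⟯) ℚ⟮τ (U 0 : L)⟯) (t i)
        show (t i : ℂ) = algebraMap ℚ⟮τ (U 0 : L)⟯ ℂ (algebraMap (𝓞 ℚ⟮τ (U 0 : L)⟯)
          ℚ⟮τ (U 0 : L)⟯ ((t i : ℤ) : 𝓞 ℚ⟮τ (U 0 : L)⟯))
        rw [this, map_intCast]
    · push Not at hall
      obtain ⟨j, hj⟩ := hall
      have hg := quad hL (by linarith) (hU' j) τ
      refine ⟨τ (U j : L), hg, fun i => ?_⟩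
      have hle : ℚ⟮τ (U j : L)⟯ ≤ L := by
        rw [IntermediateField.adjoin_simple_le_iff]
        exact (U j : L).2
      have hgi := (GQ_int hg).1
      have hnf' := nf_adjoin hgi
      have hgL : ℚ⟮τ (U j : L)⟯ = L := by
        refine IntermediateField.eq_of_le_of_finrank_le hle ?_
        rw [hL]
        have h1 : finrank ℚ ℚ⟮τ (U j : L)⟯ ≠ 1 := by
          intro h2
          rw [IntermediateField.finrank_eq_one_iff, IntermediateField.adjoin_simple_eq_bot_iff] at h2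
          exact hj h2
        have h2 : 0 < finrank ℚ ℚ⟮τ (U j : L)⟯ := finrank_pos
        omega
      show τ (U i : L) ∈ FUL ℚ⟮τ (U j : L)⟯ (6 * H) (D * q)
      rw [hgL]
      exact ⟨hnf, U i, hU' i, rfl⟩
  obtain ⟨g, hg1, hg2⟩ := hgen
  refine ⟨⟨(D, q), ⟨g, fun i => τ (U i : L)⟩⟩, ?_, hD, hrel'⟩
  obtain ⟨C1, -, hGQ⟩ := GQ_card 1 one_pos
  obtain ⟨C2, -, hFU⟩ := FUC_card 2 1 one_pos
  obtain ⟨hgi, hgd⟩ := GQ_int hg1
  unfold FDQ
  rw [Finset.mem_sigma, Finset.mem_product, Finset.mem_Icc, Finset.mem_Icc, Finset.mem_sigma,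
    mem_fs (hGQ _ _ hY1 hN1).1, Fintype.mem_piFinset]
  refine ⟨⟨⟨hD, hDH⟩, hq1, hqQ⟩, hg1, fun i => ?_⟩
  rw [mem_fs (hFU g hgi hgd _ _ hY1 hN1).1]
  exact hg2 i

end Pool.Agent.X12.Nq
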