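import Pool.Agent.X12.Nq2

/-!
# Quadratic polynomials with long orbits over quadratic fields: the counts
-/

set_option autoImplicit false

namespace Pool.Agent.X12.Nq

open NumberField Module Polynomial Function IntermediateField
open Pool.Agent.X12.Nf Pool.Agent.X12.Nu

theorem FDQ_card (ε : ℝ) (hε : 0 < ε) : ∃ C : ℝ, 0 < C ∧ ∀ (H Q : ℕ), 1 ≤ H →
    (Q : ℝ) ≤ (6 * H) ^ 2 → ((FDQ H Q).card : ℝ) ≤ C * (H : ℝ) ^ ((2 : ℝ) + ε) * Q := by
  classical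
  set η := ε / 12 with hη
  have hη0 : 0 < η := by positivity
  obtain ⟨C1, hC1, hGQ⟩ := GQ_card η hη0
  obtain ⟨C2, hC2, hFU⟩ := FUC_card 2 η hη0
  refine ⟨C1 * C2 ^ 2 * 6 * (6 : ℝ) ^ ε, by positivity, fun H Q hH hQ => ?_⟩
  have hHR : (1 : ℝ) ≤ H := by exact_mod_cast hH
  have hH0 : (0 : ℝ) < H := by linarith
  set W : ℝ := 6 * H with hW
  have hW1 : 1 ≤ W := by rw [hW]; linarith
  have hW0 : 0 < W := by linarith
  set V : ℝ := W ^ (4 * η) with hV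
  have hV0 : 0 < V := by positivity
  have hN : ∀ D q : ℕ, D ≤ H → q ≤ Q → W ^ η * ((D * q : ℕ) : ℝ) ^ η ≤ V := by
    intro D q hD hq
    have h1 : ((D * q : ℕ) : ℝ) ≤ W ^ 3 := by
      push_cast
      have h2 : (D : ℝ) ≤ W := by
        have : (D : ℝ) ≤ H := by exact_mod_cast hD
        rw [hW]
        linarith
      have h3 : (q : ℝ) ≤ W ^ 2 := by
        have : (q : ℝ) ≤ Q := by exact_mod_cast hq
        linarith
      calc (D : ℝ) * q ≤ W * W ^ 2 := mul_le_mul h2 h3 (Nat.cast_nonneg _) hW0.le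
        _ = W ^ 3 := by ring
    have h2 : ((D * q : ℕ) : ℝ) ^ η ≤ (W ^ 3) ^ η :=
      Real.rpow_le_rpow (Nat.cast_nonneg _) h1 hη0.le
    have h3 : W ^ η * (W ^ 3) ^ η = V := by
      rw [hV, ← Real.rpow_natCast W 3, ← Real.rpow_mul hW0.le, ← Real.rpow_add hW0]
      congr 1
      push_cast
      ring
    rw [← h3]
    exact mul_le_mul_of_nonneg_left h2 (by positivity)
  have hcard : ((FDQ H Q).card : ℝ) ≤ (H * Q : ℝ) * ((C1 * W * V) * (C2 * V) ^ 2) := by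
    unfold FDQ
    rw [Finset.card_sigma]
    push_cast
    have h1 : ∀ x ∈ Finset.Icc 1 H ×ˢ Finset.Icc 1 Q,
        ((((fs (GQ (6 * H) (x.1 * x.2))).sigma fun g =>
          Fintype.piFinset fun _ : Fin 2 => fs (FUC g (6 * H) (x.1 * x.2))).card : ℕ) : ℝ) ≤
          (C1 * W * V) * (C2 * V) ^ 2 := by
      intro x hx
      rw [Finset.mem_product, Finset.mem_Icc, Finset.mem_Icc] at hx
      obtain ⟨⟨a1, a2⟩, a3, a4⟩ := hx
      have hN1 : 1 ≤ x.1 * x.2 := Nat.mul_pos a1 a3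
      have hG := hGQ W (x.1 * x.2) hW1 hN1
      rw [Finset.card_sigma]
      push_cast
      have h2 : ∀ g ∈ fs (GQ W (x.1 * x.2)),
          (((Fintype.piFinset fun _ : Fin 2 => fs (FUC g W (x.1 * x.2))).card : ℕ) : ℝ) ≤
          (C2 * V) ^ 2 := by
        intro g hg
        rw [mem_fs hG.1] at hg
        obtain ⟨hgi, hgd⟩ := GQ_int hg
        obtain ⟨f1, f2⟩ := hFU g hgi hgd W (x.1 * x.2) hW1 hN1
        rw [Fintype.card_piFinset_const]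
        push_cast
        refine pow_le_pow_left₀ (Nat.cast_nonneg _) ?_ _
        rw [card_fs f1]
        refine f2.trans ?_
        rw [mul_assoc]
        exact mul_le_mul_of_nonneg_left (hN _ _ a2 a4) hC2.le
      refine (Finset.sum_le_card_nsmul _ _ _ h2).trans ?_
      rw [nsmul_eq_mul, card_fs hG.1]
      refine mul_le_mul_of_nonneg_right ?_ (by positivity)
      refine hG.2.trans ?_
      have e1 : W ^ (1 + η) = W * W ^ η := by rw [Real.rpow_add hW0, Real.rpow_one]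
      rw [e1]
      calc C1 * (W * W ^ η) * ((x.1 * x.2 : ℕ) : ℝ) ^ η =
            (C1 * W) * (W ^ η * ((x.1 * x.2 : ℕ) : ℝ) ^ η) := by ring
        _ ≤ (C1 * W) * V := mul_le_mul_of_nonneg_left (hN _ _ a2 a4) (by positivity)
    refine (Finset.sum_le_card_nsmul _ _ _ h1).trans (le_of_eq ?_)
    rw [Finset.card_product, Nat.card_Icc, Nat.card_Icc, nsmul_eq_mul]
    push_cast
    simp
  refine hcard.trans (le_of_eq ?_)
  have e3 : V ^ 3 = (6 : ℝ) ^ ε * (H : ℝ) ^ ε := by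
    rw [hV, ← Real.rpow_natCast, ← Real.rpow_mul hW0.le, ← Real.mul_rpow (by norm_num) hH0.le]
    congr 1
    rw [hη]
    push_cast
    ring
  have e4 : (H : ℝ) ^ (2 : ℝ) = (H : ℝ) * H := by
    rw [Real.rpow_two, sq]
  rw [Real.rpow_add hH0, e4]
  calc (H * Q : ℝ) * ((C1 * W * V) * (C2 * V) ^ 2) = C1 * C2 ^ 2 * W * H * Q * V ^ 3 := by ring
    _ = _ := by
      rw [e3, hW]
      ring

theorem badq_card {H Q : ℕ} {S : Set ℚ[X]}
    (hS : ∀ f ∈ S, ∃ b ∈ FDQ H Q, 1 ≤ b.1.1 ∧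
      Rel 2 (1 : ℂ) (f.map (algebraMap ℚ ℂ)) ((b.1.1 : ℤ) : ℂ) b.2.2) :
    S.Finite ∧ S.ncard ≤ (FDQ H Q).card := by
  have hinj : Function.Injective (fun f : ℚ[X] => f.map (algebraMap ℚ ℂ)) :=
    Polynomial.map_injective _ (algebraMap ℚ ℂ).injective
  obtain ⟨h1, h2⟩ := card_of_fibre (S := (fun f : ℚ[X] => f.map (algebraMap ℚ ℂ)) '' S) 2 le_rfl
    (FDQ H Q)
    (fun f b => 1 ≤ b.1.1 ∧ Rel 2 (1 : ℂ) f ((b.1.1 : ℤ) : ℂ) b.2.2)
    (by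
      rintro _ ⟨f, hf, rfl⟩
      exact hS f hf)
    (fun f f' b h h' => by
      refine rel_scale le_rfl one_ne_zero ?_ h.2 h'.2
      have h0 : b.1.1 ≠ 0 := by
        have := h.1
        omega
      exact_mod_cast h0)
  rw [Set.ncard_image_of_injective _ hinj] at h2
  refine ⟨Set.Finite.of_finite_image h1 hinj.injOn, h2.trans (le_of_eq ?_)⟩
  norm_num

/-- the field generated by the point inside the complex numbers -/
lemma gen_field {K : Type} [Field K] [NumberField K] (hK : finrank ℚ K ≤ 2) (z : K) :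
    ∃ (L : IntermediateField ℚ ℂ) (_ : NumberField L) (y : L) (σ : K →+* ℂ),
      finrank ℚ L ≤ 2 ∧ algebraMap L ℂ y = σ z := by
  obtain ⟨σ⟩ : Nonempty (K →+* ℂ) := inferInstance
  have hint : IsIntegral ℚ z := Algebra.IsIntegral.isIntegral z
  have hintσ : IsIntegral ℚ (σ z) := hint.map σ.toRatAlgHom
  have hdeg : (minpoly ℚ (σ z)).natDegree ≤ 2 := by
    have h1 : minpoly ℚ (σ z) = minpoly ℚ z := minpoly.algHom_eq σ.toRatAlgHom σ.injective z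
    rw [h1]
    exact (minpoly.natDegree_le z).trans hK
  have h0 : FiniteDimensional ℚ ℚ⟮σ z⟯ := adjoin.finiteDimensional hintσ
  have hnf : NumberField ℚ⟮σ z⟯ :=
    { to_charZero := inferInstance, to_finiteDimensional := inferInstance }
  have hfr : finrank ℚ ℚ⟮σ z⟯ ≤ 2 := by
    rw [adjoin.finrank hintσ]
    exact hdeg
  exact ⟨ℚ⟮σ z⟯, hnf, AdjoinSimple.gen ℚ (σ z), σ, hfr, AdjoinSimple.algebraMap_gen _ _⟩

/-- cycles -/
theorem cyc_split {H : ℕ} (hH : 1 ≤ H) {f : ℚ[X]} (hf : f ∈ Pg.Fam 2 1 H) {K : Type} [Field K]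
    [NumberField K] (hK : finrank ℚ K ≤ 2) {z : K}
    (hz : 2 < minimalPeriod (fun x => (f.map (algebraMap ℚ K)).eval x) z) :
    (∃ (L : Type) (_ : Field L) (_ : NumberField L), finrank ℚ L ≤ 1 ∧
      ∃ y : L, 2 < minimalPeriod (fun x => (f.map (algebraMap ℚ L)).eval x) y) ∨
    ∃ b ∈ FDQ H 1, 1 ≤ b.1.1 ∧
      Rel 2 (1 : ℂ) (f.map (algebraMap ℚ ℂ)) ((b.1.1 : ℤ) : ℂ) b.2.2 := by
  have hHR : (1 : ℝ) ≤ H := by exact_mod_cast hH
  obtain ⟨L, hnf, y, σ, hfr, hτ⟩ := gen_field hK z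
  set τ : L →+* ℂ := algebraMap L ℂ with hτdef
  have e1 : (f.map (algebraMap ℚ L)).map τ = f.map (algebraMap ℚ ℂ) := by
    rw [Polynomial.map_map]
    congr 1
  have e2 : (f.map (algebraMap ℚ K)).map σ = f.map (algebraMap ℚ ℂ) := by
    rw [Polynomial.map_map]
    congr 1
    exact Subsingleton.elim _ _
  have hz' : 2 < minimalPeriod (fun x => (f.map (algebraMap ℚ L)).eval x) y := by
    rw [← period_map τ, e1, hτ, ← e2, period_map σ]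
    exact hz
  rcases Nat.lt_or_ge (finrank ℚ L) 2 with h2 | h2
  · exact Or.inl ⟨L, inferInstance, hnf, by omega, y, hz'⟩
  · right
    obtain ⟨D, B, hD, hDH, hall⟩ := fm_of_fam one_ne_zero hf
    exact quad_data hH hD hDH (le_antisymm hfr h2)
      (cyc_badD le_rfl hHR (hall L).1 (hall L).2 hz')

/-- long orbits -/
theorem orb_split {H : ℕ} (hH : 1 ≤ H) {κ : ℕ} (hκ : 1 ≤ κ) {f : ℚ[X]}
    (hf : f ∈ Pg.Fam 2 1 H) {K : Type} [Field K]
    [NumberField K] (hK : finrank ℚ K ≤ 2) {z : K} (hz : z ∈ Pre (f.map (algebraMap ℚ K)))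
    (hinj : ∀ i ≤ κ * 2 + 1, ∀ j ≤ κ * 2 + 1, orb (f.map (algebraMap ℚ K)) z i =
      orb (f.map (algebraMap ℚ K)) z j → i = j) :
    (∃ (L : Type) (_ : Field L) (_ : NumberField L), finrank ℚ L ≤ 1 ∧
      ∃ y ∈ Pre (f.map (algebraMap ℚ L)), ∀ i ≤ κ * 2 + 1, ∀ j ≤ κ * 2 + 1,
        orb (f.map (algebraMap ℚ L)) y i = orb (f.map (algebraMap ℚ L)) y j → i = j) ∨
    ∃ b ∈ FDQ H (QR κ ((6 * (H : ℝ)) ^ 2)), 1 ≤ b.1.1 ∧
      Rel 2 (1 : ℂ) (f.map (algebraMap ℚ ℂ)) ((b.1.1 : ℤ) : ℂ) b.2.2 := by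
  have hHR : (1 : ℝ) ≤ H := by exact_mod_cast hH
  obtain ⟨L, hnf, y, σ, hfr, hτ⟩ := gen_field hK z
  set τ : L →+* ℂ := algebraMap L ℂ with hτdef
  have e1 : (f.map (algebraMap ℚ L)).map τ = f.map (algebraMap ℚ ℂ) := by
    rw [Polynomial.map_map]
    congr 1
  have e2 : (f.map (algebraMap ℚ K)).map σ = f.map (algebraMap ℚ ℂ) := by
    rw [Polynomial.map_map]
    congr 1
    exact Subsingleton.elim _ _
  have hpre : y ∈ Pre (f.map (algebraMap ℚ L)) := by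
    rw [← pre_map τ, e1, hτ, ← e2, pre_map σ]
    exact hz
  have horb : ∀ i, τ (orb (f.map (algebraMap ℚ L)) y i) =
      σ (orb (f.map (algebraMap ℚ K)) z i) := by
    intro i
    rw [← orb_map, ← orb_map, e1, e2, hτ]
  have hinj' : ∀ i ≤ κ * 2 + 1, ∀ j ≤ κ * 2 + 1, orb (f.map (algebraMap ℚ L)) y i =
      orb (f.map (algebraMap ℚ L)) y j → i = j := by
    intro i hi j hj hij
    refine hinj i hi j hj ?_
    refine σ.injective ?_
    rw [← horb, ← horb, hij]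
  rcases Nat.lt_or_ge (finrank ℚ L) 2 with h2 | h2
  · exact Or.inl ⟨L, inferInstance, hnf, by omega, y, hpre, hinj'⟩
  · right
    have hL2 : finrank ℚ L = 2 := le_antisymm hfr h2
    obtain ⟨D, B, hD, hDH, hall⟩ := fm_of_fam one_ne_zero hf
    refine quad_data hH hD hDH hL2 ?_
    have h1 := orb_badD le_rfl hHR hκ (hall L).1 (hall L).2 hpre hinj'
    have hL' : LL 2 ((1 : ℤ) : 𝓞 L) (H : ℝ) = 6 * (H : ℝ) := by
      unfold LL
      rw [house_int]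
      push_cast
      rw [abs_one]
      ring
    rw [hL', hL2] at h1
    exact h1

/-- cycles of quadratic polynomials over all quadratic fields -/
theorem cyc_count2 (ε : ℝ) (hε : 0 < ε) : ∃ C : ℝ, 0 < C ∧
    ∀ H : ℕ, 1 ≤ H → ∀ S : Set ℚ[X],
    (∀ f ∈ S, f ∈ Pg.Fam 2 1 H ∧ ∃ (K : Type) (_ : Field K) (_ : NumberField K),
      finrank ℚ K ≤ 2 ∧ ∃ z : K, 2 < minimalPeriod (fun x => (f.map (algebraMap ℚ K)).eval x) z) →
    (S.ncard : ℝ) ≤ C * (H : ℝ) ^ ((2 : ℝ) + ε) := by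
  obtain ⟨C1, hC1, h1⟩ := cyc_count 1 (d := 2) le_rfl 0 ε hε
  obtain ⟨C2, hC2, h2⟩ := FDQ_card ε hε
  refine ⟨C1 + C2, by positivity, fun H hH S hS => ?_⟩
  have hHR : (1 : ℝ) ≤ H := by exact_mod_cast hH
  set S1 : Set ℚ[X] := {f | f ∈ S ∧ ∃ (L : Type) (_ : Field L) (_ : NumberField L),
    finrank ℚ L ≤ 1 ∧ ∃ y : L, 2 < minimalPeriod (fun x => (f.map (algebraMap ℚ L)).eval x) y}
    with hS1
  set S2 : Set ℚ[X] := {f | f ∈ S ∧ ∃ b ∈ FDQ H 1, 1 ≤ b.1.1 ∧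
      Rel 2 (1 : ℂ) (f.map (algebraMap ℚ ℂ)) ((b.1.1 : ℤ) : ℂ) b.2.2} with hS2
  have hsub : S = S1 ∪ S2 := by
    ext f
    constructor
    · intro hf
      obtain ⟨hF, K, i1, i2, hK, z, hz⟩ := hS f hf
      rcases cyc_split hH hF hK hz with h | h
      · exact Or.inl ⟨hf, h⟩
      · exact Or.inr ⟨hf, h⟩
    · rintro (hf | hf)
      · exact hf.1
      · exact hf.1
  have h3 := h1 H 1 hH one_ne_zero (by simp) S1 (fun f hf => ⟨(hS f hf.1).1, hf.2⟩)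
  obtain ⟨-, h4⟩ := badq_card (H := H) (Q := 1) (S := S2) fun f hf => hf.2
  have h5 := h2 H 1 hH (by
    rw [Nat.cast_one]
    exact one_le_pow₀ (by linarith))
  have h6 : (S.ncard : ℝ) ≤ (S1.ncard : ℝ) + (S2.ncard : ℝ) := by
    have := Set.ncard_union_le S1 S2
    rw [← hsub] at this
    exact_mod_cast this
  have h7 : (H : ℝ) ^ (((1 + (0 + 1) * (1 * (1 + 1) / 2 - 1) : ℕ) : ℝ) + ε) ≤
      (H : ℝ) ^ ((2 : ℝ) + ε) := by
    refine Real.rpow_le_rpow_of_exponent_le hHR ?_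
    norm_num
  have h8 : (S2.ncard : ℝ) ≤ ((FDQ H 1).card : ℝ) := by exact_mod_cast h4
  rw [Nat.cast_one, mul_one] at h5
  calc (S.ncard : ℝ) ≤ (S1.ncard : ℝ) + (S2.ncard : ℝ) := h6
    _ ≤ C1 * (H : ℝ) ^ ((2 : ℝ) + ε) + C2 * (H : ℝ) ^ ((2 : ℝ) + ε) :=
      add_le_add (h3.trans (mul_le_mul_of_nonneg_left h7 hC1.le)) (h8.trans h5)
    _ = _ := by ring

/-- long orbits of quadratic polynomials over all quadratic fields -/
theorem long_count2 {κ : ℕ} (hκ : 1 ≤ κ) (ε : ℝ) (hε : 0 < ε) : ∃ C : ℝ, 0 < C ∧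
    ∀ H : ℕ, 1 ≤ H → ∀ S : Set ℚ[X],
    (∀ f ∈ S, f ∈ Pg.Fam 2 1 H ∧ ∃ (K : Type) (_ : Field K) (_ : NumberField K),
      finrank ℚ K ≤ 2 ∧ ∃ z ∈ Pre (f.map (algebraMap ℚ K)), ∀ i ≤ κ * 2 + 1, ∀ j ≤ κ * 2 + 1,
        orb (f.map (algebraMap ℚ K)) z i = orb (f.map (algebraMap ℚ K)) z j → i = j) →
    (S.ncard : ℝ) ≤ C * (H : ℝ) ^ ((2 : ℝ) + 2 / κ + ε) := by
  obtain ⟨C1, hC1, h1⟩ := long_count 1 (d := 2) le_rfl 0 hκ ε hε
  obtain ⟨C2, hC2, h2⟩ := FDQ_card ε hε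
  have hκ0 : (0 : ℝ) < κ := by exact_mod_cast hκ
  refine ⟨C1 + C2 * ((6 : ℝ) ^ 2) ^ (1 / (κ : ℝ)), by positivity, fun H hH S hS => ?_⟩
  have hHR : (1 : ℝ) ≤ H := by exact_mod_cast hH
  have hH0 : (0 : ℝ) < H := by linarith
  set X : ℝ := (6 * (H : ℝ)) ^ 2 with hX
  have hX1 : 1 ≤ X := one_le_pow₀ (by linarith)
  set S1 : Set ℚ[X] := {f | f ∈ S ∧ ∃ (L : Type) (_ : Field L) (_ : NumberField L),
    finrank ℚ L ≤ 1 ∧ ∃ y ∈ Pre (f.map (algebraMap ℚ L)), ∀ i ≤ κ * 2 + 1, ∀ j ≤ κ * 2 + 1,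
        orb (f.map (algebraMap ℚ L)) y i = orb (f.map (algebraMap ℚ L)) y j → i = j}
    with hS1
  set S2 : Set ℚ[X] := {f | f ∈ S ∧ ∃ b ∈ FDQ H (QR κ X), 1 ≤ b.1.1 ∧
      Rel 2 (1 : ℂ) (f.map (algebraMap ℚ ℂ)) ((b.1.1 : ℤ) : ℂ) b.2.2} with hS2
  have hsub : S = S1 ∪ S2 := by
    ext f
    constructor
    · intro hf
      obtain ⟨hF, K, i1, i2, hK, z, hz, hz2⟩ := hS f hf
      rcases orb_split hH hκ hF hK hz hz2 with h | h
      · exact Or.inl ⟨hf, h⟩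
      · exact Or.inr ⟨hf, h⟩
    · rintro (hf | hf)
      · exact hf.1
      · exact hf.1
  have h3 := h1 H 1 hH one_ne_zero (by simp) S1 (fun f hf => ⟨(hS f hf.1).1, hf.2⟩)
  obtain ⟨-, h4⟩ := badq_card (H := H) (Q := QR κ X) (S := S2) fun f hf => hf.2
  obtain ⟨q1, q2⟩ := QR_le hκ hX1
  have h5 := h2 H (QR κ X) hH q1
  have h6 : (S.ncard : ℝ) ≤ (S1.ncard : ℝ) + (S2.ncard : ℝ) := by
    have := Set.ncard_union_le S1 S2
    rw [← hsub] at this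
    exact_mod_cast this
  have h7 : (H : ℝ) ^ (((1 + (0 + 1) * (1 * (1 + 1) / 2 - 1) : ℕ) : ℝ) +
      (((0 : ℕ) : ℝ) + 1) * ((1 : ℕ) : ℝ) / κ + ε) ≤
      (H : ℝ) ^ ((2 : ℝ) + 2 / κ + ε) := by
    refine Real.rpow_le_rpow_of_exponent_le hHR ?_
    have h9 : (1 : ℝ) / κ ≤ 2 / κ := div_le_div_of_nonneg_right (by norm_num) hκ0.le
    norm_num
    norm_num at h9
    linarith
  have h8 : (S2.ncard : ℝ) ≤ ((FDQ H (QR κ X)).card : ℝ) := by exact_mod_cast h4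
  have h10 : X ^ (1 / (κ : ℝ)) = ((6 : ℝ) ^ 2) ^ (1 / (κ : ℝ)) * (H : ℝ) ^ ((2 : ℝ) / κ) := by
    rw [hX, mul_pow, Real.mul_rpow (by positivity) (by positivity), ← Real.rpow_natCast (H : ℝ),
      ← Real.rpow_mul hH0.le]
    congr 2
    push_cast
    ring
  have h11 : C2 * (H : ℝ) ^ ((2 : ℝ) + ε) * (QR κ X : ℝ) ≤
      C2 * ((6 : ℝ) ^ 2) ^ (1 / (κ : ℝ)) * (H : ℝ) ^ ((2 : ℝ) + 2 / κ + ε) := by
    calc C2 * (H : ℝ) ^ ((2 : ℝ) + ε) * (QR κ X : ℝ) ≤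
          C2 * (H : ℝ) ^ ((2 : ℝ) + ε) * X ^ (1 / (κ : ℝ)) :=
          mul_le_mul_of_nonneg_left q2 (by positivity)
      _ = _ := by
        have e : (H : ℝ) ^ ((2 : ℝ) + 2 / κ + ε) =
            (H : ℝ) ^ ((2 : ℝ) + ε) * (H : ℝ) ^ ((2 : ℝ) / κ) := by
          rw [← Real.rpow_add hH0]
          congr 1
          ring
        rw [e, h10]
        ring
  calc (S.ncard : ℝ) ≤ (S1.ncard : ℝ) + (S2.ncard : ℝ) := h6
    _ ≤ C1 * (H : ℝ) ^ ((2 : ℝ) + 2 / κ + ε) +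
        C2 * ((6 : ℝ) ^ 2) ^ (1 / (κ : ℝ)) * (H : ℝ) ^ ((2 : ℝ) + 2 / κ + ε) :=
      add_le_add (h3.trans (mul_le_mul_of_nonneg_left h7 hC1.le)) (h8.trans (h5.trans h11))
    _ = _ := by ring

end Pool.Agent.X12.Nq
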