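import Pool.Agent.X12.Nq3

/-!
# Traces of the points of an orbit in a quadratic field
-/

set_option autoImplicit false

namespace Pool.Agent.X12.Nq

open NumberField Module Polynomial Function IntermediateField
open Pool.Agent.X12.Pg (fr fr_spec fr_pos fr_le fr_dvd quot_dvd)
open Pool.Agent.X12.Dyn (TS mem_TS TS_card)
open Pool.Agent.X12.Nf Pool.Agent.X12.Nu

/-- the integer data of an orbit in a quadratic field -/
structure Sq (H D : ℕ) (B : ℤ) (L : Type) [Field L] (w : ℕ → L) (t δ : ℕ → ℤ)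
    (ρ : ℕ → L) : Prop where
  h1 : ∀ i, (D : ℤ) ^ 2 * δ (i + 1) = δ i * t i ^ 2
  h2 : ∀ i, 2 * (D : ℤ) * t (i + 1) = t i ^ 2 + δ i + 4 * B
  hr : ∀ i, (D : L) * ρ (i + 1) = (t i : L) * ρ i
  hw : ∀ i, 2 * (D : L) * w i = ρ i + t i
  hsq : ∀ i, ρ i * ρ i = (δ i : L)
  ht : ∀ i, |(t i : ℝ)| ≤ 6 * H
  hd : ∀ i, |(δ i : ℝ)| ≤ (12 * H) ^ 2
  hper : ∀ i j, w i = w j → δ i = δ j

lemma o00 : (1 : Matrix (Fin 2) (Fin 2) ℤ) 0 0 = 1 := Matrix.one_apply_eq 0
lemma o11 : (1 : Matrix (Fin 2) (Fin 2) ℤ) 1 1 = 1 := Matrix.one_apply_eq 1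
lemma o01 : (1 : Matrix (Fin 2) (Fin 2) ℤ) 0 1 = 0 := Matrix.one_apply_ne (by decide)
lemma o10 : (1 : Matrix (Fin 2) (Fin 2) ℤ) 1 0 = 0 := Matrix.one_apply_ne (by decide)

lemma mat_entries {M M' : Matrix (Fin 2) (Fin 2) ℤ} {D B : ℤ}
    (h : D • M' = M * M + B • (1 : Matrix (Fin 2) (Fin 2) ℤ)) :
    D * M' 0 0 = M 0 0 * M 0 0 + M 0 1 * M 1 0 + B ∧
    D * M' 0 1 = M 0 0 * M 0 1 + M 0 1 * M 1 1 ∧
    D * M' 1 0 = M 1 0 * M 0 0 + M 1 1 * M 1 0 ∧
    D * M' 1 1 = M 1 0 * M 0 1 + M 1 1 * M 1 1 + B := by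
  refine ⟨?_, ?_, ?_, ?_⟩
  · have h1 := congrFun (congrFun h 0) 0
    rw [Matrix.smul_apply, Matrix.add_apply, Matrix.smul_apply, Matrix.mul_apply,
      Fin.sum_univ_two, o00, smul_eq_mul, smul_eq_mul, mul_one] at h1
    exact h1
  · have h1 := congrFun (congrFun h 0) 1
    rw [Matrix.smul_apply, Matrix.add_apply, Matrix.smul_apply, Matrix.mul_apply,
      Fin.sum_univ_two, o01, smul_eq_mul, smul_eq_mul, mul_zero, add_zero] at h1
    exact h1
  · have h1 := congrFun (congrFun h 1) 0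
    rw [Matrix.smul_apply, Matrix.add_apply, Matrix.smul_apply, Matrix.mul_apply,
      Fin.sum_univ_two, o10, smul_eq_mul, smul_eq_mul, mul_zero, add_zero] at h1
    exact h1
  · have h1 := congrFun (congrFun h 1) 1
    rw [Matrix.smul_apply, Matrix.add_apply, Matrix.smul_apply, Matrix.mul_apply,
      Fin.sum_univ_two, o11, smul_eq_mul, smul_eq_mul, mul_one] at h1
    exact h1

lemma mat_sq (M : Matrix (Fin 2) (Fin 2) ℤ) :
    ((2 : ℤ) • M - (M 0 0 + M 1 1) • (1 : Matrix (Fin 2) (Fin 2) ℤ)) *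
      ((2 : ℤ) • M - (M 0 0 + M 1 1) • (1 : Matrix (Fin 2) (Fin 2) ℤ)) =
      ((M 0 0 - M 1 1) ^ 2 + 4 * (M 0 1 * M 1 0)) • (1 : Matrix (Fin 2) (Fin 2) ℤ) := by
  have key : ∀ p q : Fin 2, (((2 : ℤ) • M - (M 0 0 + M 1 1) • (1 : Matrix (Fin 2) (Fin 2) ℤ)) *
      ((2 : ℤ) • M - (M 0 0 + M 1 1) • (1 : Matrix (Fin 2) (Fin 2) ℤ))) p q =
      (2 * M p 0 - (M 0 0 + M 1 1) * (1 : Matrix (Fin 2) (Fin 2) ℤ) p 0) *
      (2 * M 0 q - (M 0 0 + M 1 1) * (1 : Matrix (Fin 2) (Fin 2) ℤ) 0 q) +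
      (2 * M p 1 - (M 0 0 + M 1 1) * (1 : Matrix (Fin 2) (Fin 2) ℤ) p 1) *
      (2 * M 1 q - (M 0 0 + M 1 1) * (1 : Matrix (Fin 2) (Fin 2) ℤ) 1 q) := by
    intro p q
    rw [Matrix.mul_apply, Fin.sum_univ_two]
    simp only [Matrix.sub_apply, Matrix.smul_apply, smul_eq_mul]
  have h00 := key 0 0
  have h01 := key 0 1
  have h10 := key 1 0
  have h11 := key 1 1
  rw [o00, o10, o01] at h00
  rw [o00, o01, o11] at h01
  rw [o10, o00, o11] at h10
  rw [o10, o01, o11] at h11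
  ext p q
  rw [Matrix.smul_apply, smul_eq_mul]
  fin_cases p <;> fin_cases q
  · refine h00.trans ?_
    show _ = _ * (1 : Matrix (Fin 2) (Fin 2) ℤ) 0 0
    rw [o00]
    ring
  · refine h01.trans ?_
    show _ = _ * (1 : Matrix (Fin 2) (Fin 2) ℤ) 0 1
    rw [o01]
    ring
  · refine h10.trans ?_
    show _ = _ * (1 : Matrix (Fin 2) (Fin 2) ℤ) 1 0
    rw [o10]
    ring
  · refine h11.trans ?_
    show _ = _ * (1 : Matrix (Fin 2) (Fin 2) ℤ) 1 1
    rw [o11]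
    ring

theorem exists_sq {L : Type} [Field L] [NumberField L] (hL : finrank ℚ L = 2) {H : ℕ}
    (hH : 1 ≤ H) {f : ℚ[X]} (hf : f ∈ Pg.Fam 2 1 H) {z : L}
    (hz : z ∈ Pre (f.map (algebraMap ℚ L))) :
    ∃ (D : ℕ) (B : ℤ), 1 ≤ D ∧ D ≤ H ∧ f = X ^ 2 + C ((B : ℚ) / (D : ℚ) ^ 2) ∧
      ∃ (t δ : ℕ → ℤ) (ρ : ℕ → L), Sq H D B L (orb (f.map (algebraMap ℚ L)) z) t δ ρ := by
  classical
  have hHR : (1 : ℝ) ≤ H := by exact_mod_cast hH
  obtain ⟨D, B', hD, hDH, hall⟩ := fm_of_fam one_ne_zero hf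
  obtain ⟨hc, hfm⟩ := hall L
  have hbd := fm_bd le_rfl hHR hfm
  set F := f.map (algebraMap ℚ L) with hF
  set B : ℤ := B' 0 with hBdef
  have hD0 : (D : ℚ) ≠ 0 := by
    have : D ≠ 0 := by omega
    exact_mod_cast this
  have hDL : (D : L) ≠ 0 := by
    have : D ≠ 0 := by omega
    exact_mod_cast this
  have eB : ∀ x : ℤ, (((x : ℤ) : 𝓞 L) : L) = (x : L) := fun x => map_intCast (algebraMap (𝓞 L) L) x
  have hBL : (B : L) = (D : L) ^ 2 * F.coeff 0 := by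
    have h1 := hfm.hB 0 (by norm_num)
    rw [eB, eB] at h1
    push_cast at h1
    exact h1
  have hc0 : (B : ℚ) = (D : ℚ) ^ 2 * f.coeff 0 := by
    apply (algebraMap ℚ L).injective
    rw [map_mul, map_pow, map_natCast, map_intCast, hBL, hF, Polynomial.coeff_map]
  have hlc : F.coeff 2 = 1 := by
    have h1 := hfm.lc
    rw [eB] at h1
    push_cast at h1
    exact h1
  have hc1 : F.coeff 1 = 0 := hc
  have hfd : f.natDegree = 2 := by
    have h1 := hfm.deg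
    rw [hF, Polynomial.natDegree_map] at h1
    exact h1
  have hf2 : f.coeff 2 = 1 := by
    apply (algebraMap ℚ L).injective
    rw [← Polynomial.coeff_map, map_one]
    exact hlc
  have hf1 : f.coeff 1 = 0 := by
    apply (algebraMap ℚ L).injective
    rw [← Polynomial.coeff_map, map_zero]
    exact hc1
  have hfeq : f = X ^ 2 + C ((B : ℚ) / (D : ℚ) ^ 2) := by
    have h0 : f.coeff 0 = (B : ℚ) / (D : ℚ) ^ 2 := by
      rw [hc0]
      field_simp
    conv_lhs => rw [Polynomial.as_sum_range_C_mul_X_pow f]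
    rw [hfd, Finset.sum_range_succ, Finset.sum_range_succ, Finset.sum_range_one, hf2, hf1, h0]
    simp only [map_one, map_zero, one_mul, zero_mul, pow_zero, mul_one, add_zero]
    ring
  have hev : ∀ x : L, F.eval x = x ^ 2 + F.coeff 0 := by
    intro x
    rw [Polynomial.eval_eq_sum_range, hfm.deg, Finset.sum_range_succ, Finset.sum_range_succ,
      Finset.sum_range_one, hlc, hc1]
    ring
  refine ⟨D, B, hD, hDH, hfeq, ?_⟩
  -- the integers
  have hcD : ((((1 : ℤ) : 𝓞 L) * ((D : ℤ) : 𝓞 L) : 𝓞 L) : L) = (D : L) := by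
    rw [vmul, eB, eB]
    push_cast
    ring
  have hZex : ∀ i, ∃ Z : 𝓞 L, (Z : L) = (D : L) * orb F z i := by
    intro i
    obtain ⟨Z', hZ'⟩ := pre_int hbd le_rfl (orb_pre hz i)
    rw [hcD] at hZ'
    exact ⟨Z', hZ'⟩
  choose Z hZ using hZex
  have hZH : ∀ i, ∀ σ : L →+* ℂ, ‖σ (Z i : L)‖ ≤ 3 * H := by
    intro i σ
    have h2 := pre_abs hbd le_rfl (orb_pre hz i) σ
    have hhouse1 : house (((1 : ℤ) : 𝓞 L) : L) = 1 := by
      rw [house_int]
      simp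
    rw [hcD, hhouse1, ← hZ] at h2
    push_cast at h2
    linarith
  have hrec : ∀ i, (D : ℤ) • Z (i + 1) = Z i * Z i + B • (1 : 𝓞 L) := by
    intro i
    refine RingOfIntegers.coe_injective ?_
    have e1 : (((D : ℤ) • Z (i + 1) : 𝓞 L) : L) = (D : L) * (Z (i + 1) : L) := by
      rw [zsmul_eq_mul, vmul, eB]
      push_cast
      ring
    have e2 : ((Z i * Z i + B • (1 : 𝓞 L) : 𝓞 L) : L) = (Z i : L) * (Z i : L) + (B : L) := by
      have : ((Z i * Z i + B • (1 : 𝓞 L) : 𝓞 L) : L) =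
          ((Z i * Z i : 𝓞 L) : L) + ((B • (1 : 𝓞 L) : 𝓞 L) : L) :=
        map_add (algebraMap (𝓞 L) L) _ _
      rw [this, vmul, zsmul_eq_mul, mul_one, eB]
    show (((D : ℤ) • Z (i + 1) : 𝓞 L) : L) = ((Z i * Z i + B • (1 : 𝓞 L) : 𝓞 L) : L)
    rw [e1, e2, hZ, hZ, orb_succ, hev, hBL]
    ring
  have hcard : Fintype.card (Free.ChooseBasisIndex ℤ (𝓞 L)) = Fintype.card (Fin 2) := by
    rw [card_index, hL, Fintype.card_fin]
  set b : Basis (Fin 2) ℤ (𝓞 L) :=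
    (RingOfIntegers.basis L).reindex (Fintype.equivOfCardEq hcard) with hb
  set M : ℕ → Matrix (Fin 2) (Fin 2) ℤ := fun i => Algebra.leftMulMatrix b (Z i) with hM
  have hMrec : ∀ i, (D : ℤ) • M (i + 1) = M i * M i + B • (1 : Matrix (Fin 2) (Fin 2) ℤ) := by
    intro i
    have h1 := congrArg (Algebra.leftMulMatrix b) (hrec i)
    rw [map_zsmul, map_add, map_mul, map_zsmul, map_one] at h1
    exact h1
  have e00 := fun i => (mat_entries (hMrec i)).1
  have e01 := fun i => (mat_entries (hMrec i)).2.1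
  have e10 := fun i => (mat_entries (hMrec i)).2.2.1
  have e11 := fun i => (mat_entries (hMrec i)).2.2.2
  set t : ℕ → ℤ := fun i => M i 0 0 + M i 1 1 with ht
  set δ : ℕ → ℤ := fun i => (M i 0 0 - M i 1 1) ^ 2 + 4 * (M i 0 1 * M i 1 0) with hδ
  set ρ : ℕ → L := fun i => 2 * (Z i : L) - t i with hρ
  have hsq : ∀ i, ρ i * ρ i = (δ i : L) := by
    intro i
    have h1 : ((2 : ℤ) • Z i - t i • (1 : 𝓞 L)) * ((2 : ℤ) • Z i - t i • (1 : 𝓞 L)) =
        δ i • (1 : 𝓞 L) := by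
      apply Algebra.leftMulMatrix_injective b
      rw [map_mul, map_sub, map_zsmul, map_zsmul, map_one, map_zsmul, map_one]
      show ((2 : ℤ) • M i - t i • (1 : Matrix (Fin 2) (Fin 2) ℤ)) *
        ((2 : ℤ) • M i - t i • (1 : Matrix (Fin 2) (Fin 2) ℤ)) =
        δ i • (1 : Matrix (Fin 2) (Fin 2) ℤ)
      exact mat_sq (M i)
    have h2 := congrArg (algebraMap (𝓞 L) L) h1
    rw [map_mul, map_sub, zsmul_eq_mul, zsmul_eq_mul, zsmul_eq_mul, map_mul, mul_one, mul_one,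
      map_intCast, map_intCast, map_intCast] at h2
    push_cast at h2
    exact h2
  have h1 : ∀ i, (D : ℤ) ^ 2 * δ (i + 1) = δ i * t i ^ 2 := by
    intro i
    have e : (D : ℤ) ^ 2 * δ (i + 1) = ((D : ℤ) * M (i + 1) 0 0 - (D : ℤ) * M (i + 1) 1 1) ^ 2 +
        4 * (((D : ℤ) * M (i + 1) 0 1) * ((D : ℤ) * M (i + 1) 1 0)) := by
      simp only [hδ]
      ring
    rw [e, e00, e11, e01, e10]
    simp only [hδ, ht]
    ring
  have h2 : ∀ i, 2 * (D : ℤ) * t (i + 1) = t i ^ 2 + δ i + 4 * B := by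
    intro i
    have e : 2 * (D : ℤ) * t (i + 1) =
        2 * ((D : ℤ) * M (i + 1) 0 0) + 2 * ((D : ℤ) * M (i + 1) 1 1) := by
      simp only [ht]
      ring
    rw [e, e00, e11]
    simp only [hδ, ht]
    ring
  have hZr : ∀ i, (D : L) * (Z (i + 1) : L) = (Z i : L) * (Z i : L) + (B : L) := by
    intro i
    rw [hZ, hZ, orb_succ, hev, hBL]
    ring
  have htb : ∀ i, |(t i : ℝ)| ≤ 6 * H := by
    intro i
    have htr : t i = Algebra.trace ℤ (𝓞 L) (Z i) := by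
      rw [Algebra.trace_eq_matrix_trace b, Matrix.trace_fin_two]
    have h2 : (t i : ℂ) = ∑ τ : L →ₐ[ℚ] ℂ, τ (Z i : L) := by
      rw [htr, ← trace_eq_sum_embeddings (K := ℚ) (L := L) ℂ (x := (Z i : L))]
      rw [← Algebra.coe_trace_int]
      simp
    have h3 : |(t i : ℝ)| = ‖(t i : ℂ)‖ := (Complex.norm_intCast (t i)).symm
    rw [h3, h2]
    refine (norm_sum_le _ _).trans ?_
    have h4 : ∀ τ ∈ (Finset.univ : Finset (L →ₐ[ℚ] ℂ)), ‖τ (Z i : L)‖ ≤ 3 * H := fun τ _ =>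
      hZH i (τ : L →+* ℂ)
    refine (Finset.sum_le_card_nsmul _ _ _ h4).trans (le_of_eq ?_)
    rw [Finset.card_univ, AlgHom.card, hL, nsmul_eq_mul]
    push_cast
    ring
  refine ⟨t, δ, ρ, h1, h2, ?_, ?_, hsq, htb, ?_, ?_⟩
  · intro i
    have q1 := hsq i
    have q2 := hZr i
    have q3 : 2 * (D : L) * (t (i + 1) : L) = (t i : L) ^ 2 + (δ i : L) + 4 * (B : L) := by
      exact_mod_cast congrArg (fun x : ℤ => (x : L)) (h2 i)
    simp only [hρ] at q1 ⊢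
    have h20 : (2 : L) ≠ 0 := two_ne_zero
    apply mul_left_cancel₀ h20
    linear_combination 4 * q2 - q3 + q1
  · intro i
    simp only [hρ]
    rw [hZ]
    ring
  · intro i
    obtain ⟨σ⟩ : Nonempty (L →+* ℂ) := inferInstance
    have q1 := congrArg σ (hsq i)
    rw [map_mul, map_intCast] at q1
    have q2 : |(δ i : ℝ)| = ‖σ (ρ i)‖ * ‖σ (ρ i)‖ := by
      rw [← norm_mul, q1]
      exact (Complex.norm_intCast (δ i)).symm
    have q3 : ‖σ (ρ i)‖ ≤ 12 * H := by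
      simp only [hρ]
      rw [map_sub, map_mul, map_intCast, map_ofNat]
      refine (norm_sub_le _ _).trans ?_
      rw [norm_mul, Complex.norm_intCast]
      have q4 := hZH i σ
      have q5 := htb i
      have q6 : ‖(2 : ℂ)‖ = 2 := by norm_num
      rw [q6]
      linarith
    rw [q2, sq]
    exact mul_le_mul q3 q3 (norm_nonneg _) (by positivity)
  · intro i j hij
    have : Z i = Z j := by
      refine RingOfIntegers.coe_injective ?_
      show (Z i : L) = (Z j : L)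
      rw [hZ, hZ, hij]
    simp only [hδ, hM, this]

section sq

variable {H D : ℕ} {B : ℤ} {L : Type} [Field L] {w : ℕ → L} {t δ : ℕ → ℤ}
  {ρ : ℕ → L}

lemma Sq.abs (h : Sq H D B L w t δ ρ) (i : ℕ) :
    D ^ 2 * (δ (i + 1)).natAbs = (δ i).natAbs * (t i).natAbs ^ 2 := by
  have h1 := congrArg Int.natAbs (h.h1 i)
  rw [Int.natAbs_mul, Int.natAbs_mul, Int.natAbs_pow, Int.natAbs_pow, Int.natAbs_natCast] at h1
  exact h1

lemma Sq.chain (h : Sq H D B L w t δ ρ) {m : ℕ} (hm : ∀ i ≤ m, δ i ≠ 0) :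
    ∀ i ≤ m, ∀ j ≤ i, fr D (δ j).natAbs ∣ fr D (δ i).natAbs := by
  intro i
  induction i with
  | zero =>
    intro _ j hj
    have : j = 0 := by omega
    rw [this]
  | succ i ih =>
    intro hi j hj
    rcases Nat.lt_or_ge j (i + 1) with h3 | h3
    · refine (ih (by omega) j (by omega)).trans ?_
      refine fr_dvd (k := 2) (Int.natAbs_pos.2 (hm i (by omega)))
        (Int.natAbs_pos.2 (hm (i + 1) hi)) ?_
      rw [h.abs]
      exact Dvd.intro _ rfl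
    · have : j = i + 1 := by omega
      rw [this]

lemma Sq.window (h : Sq H D B L w t δ ρ) (hD : 1 ≤ D) {i0 q : ℕ} (hq : 1 ≤ q)
    (hm : ∀ i ≤ i0 + 4, δ i ≠ 0)
    (hfr : fr D (δ (i0 + 4)).natAbs ∣ fr D (δ i0).natAbs * q) :
    ∀ j < 4, t (i0 + j) ∈ TS (6 * H) (D * q) := by
  intro j hj
  have hpos : ∀ i ≤ i0 + 4, 1 ≤ (δ i).natAbs := fun i hi => Int.natAbs_pos.2 (hm i hi)
  have hch := h.chain hm
  have h1 : (t (i0 + j)).natAbs ^ 2 ∣ D ^ (2 + (δ (i0 + j + 1)).natAbs) * q := by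
    refine quot_dvd (s := (δ (i0 + j)).natAbs) (t := (δ (i0 + j + 1)).natAbs)
      (hpos _ (by omega)) (hpos _ (by omega)) ?_ ?_
    · rw [h.abs, mul_comm]
    · refine (hch (i0 + 4) le_rfl (i0 + j + 1) (by omega)).trans (hfr.trans ?_)
      exact Nat.mul_dvd_mul (hch (i0 + j) (by omega) i0 (by omega)) dvd_rfl
  have ht0 : t (i0 + j) ≠ 0 := by
    intro h0
    have h2 := h.h1 (i0 + j)
    rw [h0] at h2
    have hD0 : (D : ℤ) ≠ 0 := by
      have : D ≠ 0 := by omega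
      exact_mod_cast this
    have h3 : (D : ℤ) ^ 2 * δ (i0 + j + 1) = 0 := by
      rw [h2]
      ring
    rcases mul_eq_zero.1 h3 with h4 | h4
    · exact hD0 (pow_eq_zero_iff (two_ne_zero) |>.1 h4)
    · exact hm _ (by omega) h4
  refine mem_TS (h.ht _) ht0 ?_
  intro p hp
  have hpp := Nat.prime_of_mem_primeFactors hp
  have h2 : p ∣ D ^ (2 + (δ (i0 + j + 1)).natAbs) * q :=
    ((Nat.dvd_of_mem_primeFactors hp).trans (dvd_pow_self _ two_ne_zero)).trans h1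
  rw [Nat.mem_primeFactors]
  refine ⟨hpp, ?_, (Nat.mul_pos hD hq).ne'⟩
  rcases (Nat.Prime.dvd_mul hpp).1 h2 with h3 | h3
  · exact (hpp.dvd_of_dvd_pow h3).mul_right _
  · exact h3.mul_left _

lemma Sq.nondeg [CharZero L] (h : Sq H D B L w t δ ρ) (hD : 1 ≤ D) {i : ℕ} (h12 : w (i + 1) ≠ w (i + 2))
    (h13 : w (i + 1) ≠ w (i + 3)) :
    t i ^ 2 ≠ (D : ℤ) ^ 2 ∨ t (i + 1) ^ 2 ≠ (D : ℤ) ^ 2 := by
  by_contra hcon
  push Not at hcon
  obtain ⟨c1, c2⟩ := hcon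
  have hD0 : (D : ℤ) ≠ 0 := by
    have : D ≠ 0 := by omega
    exact_mod_cast this
  have hDL : (D : L) ≠ 0 := by
    have : D ≠ 0 := by omega
    exact_mod_cast this
  have hD2 : (D : ℤ) ^ 2 ≠ 0 := pow_ne_zero _ hD0
  have h2D : 2 * (D : ℤ) ≠ 0 := mul_ne_zero two_ne_zero hD0
  have h2DL : 2 * (D : L) ≠ 0 := mul_ne_zero two_ne_zero hDL
  have d1 : δ (i + 1) = δ i := by
    apply mul_left_cancel₀ hD2
    rw [h.h1, c1]
    ring
  have d2 : δ (i + 2) = δ (i + 1) := by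
    apply mul_left_cancel₀ hD2
    rw [h.h1 (i + 1), c2]
    ring
  have t2 : t (i + 2) = t (i + 1) := by
    apply mul_left_cancel₀ h2D
    rw [h.h2 (i + 1), h.h2 i, c1, c2, d1]
  have t3 : t (i + 3) = t (i + 1) := by
    apply mul_left_cancel₀ h2D
    rw [h.h2 (i + 2), h.h2 i, t2, c1, c2, d2, d1]
  rcases sq_eq_sq_iff_eq_or_eq_neg.1 c2 with c3 | c3
  · have r2 : ρ (i + 2) = ρ (i + 1) := by
      apply mul_left_cancel₀ hDL
      rw [h.hr (i + 1), c3]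
      push_cast
      ring
    apply h12
    apply mul_left_cancel₀ h2DL
    rw [h.hw (i + 1), h.hw (i + 2), r2, t2]
  · have r2 : ρ (i + 2) = -ρ (i + 1) := by
      apply mul_left_cancel₀ hDL
      rw [h.hr (i + 1), c3]
      push_cast
      ring
    have r3 : ρ (i + 3) = ρ (i + 1) := by
      apply mul_left_cancel₀ hDL
      rw [h.hr (i + 2), t2, c3, r2]
      push_cast
      ring
    apply h13
    apply mul_left_cancel₀ h2DL
    rw [h.hw (i + 1), h.hw (i + 3), r3, t3]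

end sq

end Pool.Agent.X12.Nq
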