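import Pool.Agent.X12.Nq4

/-!
# Quadratic polynomials with long orbits in quadratic fields: the sharper counts
-/

set_option autoImplicit false

namespace Pool.Agent.X12.Nq

open NumberField Module Polynomial Function IntermediateField
open Pool.Agent.X12.Pg (fr fr_spec fr_pos fr_le fr_dvd quot_dvd)
open Pool.Agent.X12.Dyn (TS mem_TS TS_card)
open Pool.Agent.X12.Nf Pool.Agent.X12.Nu

/-- the finite set of the data -/
noncomputable def FT (H Q : ℕ) : Finset (Σ _ : ℕ × ℕ, ℤ × ℤ × ℤ) :=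
  (Finset.Icc 1 H ×ˢ Finset.Icc 1 Q).sigma fun x =>
    TS (6 * H) (x.1 * x.2) ×ˢ (TS (6 * H) (x.1 * x.2) ×ˢ TS (6 * H) (x.1 * x.2))

/-- the relation of a polynomial with its data -/
def RT (f : ℚ[X]) (b : Σ _ : ℕ × ℕ, ℤ × ℤ × ℤ) : Prop :=
  1 ≤ b.1.1 ∧ b.2.1 ^ 2 ≠ (b.1.1 : ℤ) ^ 2 ∧ ∃ δ0 δ1 B : ℤ,
    (b.1.1 : ℤ) ^ 2 * δ1 = δ0 * b.2.1 ^ 2 ∧
    2 * (b.1.1 : ℤ) * b.2.2.1 = b.2.1 ^ 2 + δ0 + 4 * B ∧
    2 * (b.1.1 : ℤ) * b.2.2.2 = b.2.2.1 ^ 2 + δ1 + 4 * B ∧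
    f = X ^ 2 + C ((B : ℚ) / (b.1.1 : ℚ) ^ 2)

lemma RT_unique {f f' : ℚ[X]} {b : Σ _ : ℕ × ℕ, ℤ × ℤ × ℤ} (h : RT f b) (h' : RT f' b) :
    f = f' := by
  obtain ⟨hD, hne, δ0, δ1, B, a1, a2, a3, rfl⟩ := h
  obtain ⟨-, -, δ0', δ1', B', c1, c2, c3, rfl⟩ := h'
  have hne' : b.2.1 ^ 2 - (b.1.1 : ℤ) ^ 2 ≠ 0 := sub_ne_zero.2 hne
  have h1 : δ0 = δ0' := by
    apply mul_right_cancel₀ hne'
    linear_combination -a1 + c1 + (b.1.1 : ℤ) ^ 2 * (-a3 + a2 + c3 - c2)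
  have h2 : 4 * B = 4 * B' := by linear_combination c2 - a2 - h1
  have h3 : B = B' := by omega
  rw [h3]

section sq

variable {H D : ℕ} {B : ℤ} {L : Type} [Field L] [CharZero L] {w : ℕ → L} {t δ : ℕ → ℤ}
  {ρ : ℕ → L}

lemma Sq.data (h : Sq H D B L w t δ ρ) (hD : 1 ≤ D) (hDH : D ≤ H) {f : ℚ[X]}
    (hf : f = X ^ 2 + C ((B : ℚ) / (D : ℚ) ^ 2)) {i0 q Q : ℕ} (hq : 1 ≤ q) (hqQ : q ≤ Q)
    (hm : ∀ i ≤ i0 + 4, δ i ≠ 0)
    (hfr : fr D (δ (i0 + 4)).natAbs ∣ fr D (δ i0).natAbs * q)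
    (h12 : w (i0 + 1) ≠ w (i0 + 2)) (h13 : w (i0 + 1) ≠ w (i0 + 3)) :
    ∃ b ∈ FT H Q, RT f b := by
  have hw := h.window hD hq hm hfr
  rcases h.nondeg hD h12 h13 with hn | hn
  · refine ⟨⟨(D, q), (t i0, t (i0 + 1), t (i0 + 2))⟩, ?_, hD, hn, δ i0, δ (i0 + 1), B, h.h1 i0,
      h.h2 i0, h.h2 (i0 + 1), hf⟩
    unfold FT
    rw [Finset.mem_sigma, Finset.mem_product, Finset.mem_Icc, Finset.mem_Icc, Finset.mem_product,
      Finset.mem_product]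
    exact ⟨⟨⟨hD, hDH⟩, hq, hqQ⟩, hw 0 (by norm_num), hw 1 (by norm_num), hw 2 (by norm_num)⟩
  · refine ⟨⟨(D, q), (t (i0 + 1), t (i0 + 2), t (i0 + 3))⟩, ?_, hD, hn, δ (i0 + 1), δ (i0 + 2), B,
      h.h1 (i0 + 1), h.h2 (i0 + 1), h.h2 (i0 + 2), hf⟩
    unfold FT
    rw [Finset.mem_sigma, Finset.mem_product, Finset.mem_Icc, Finset.mem_Icc, Finset.mem_product,
      Finset.mem_product]
    exact ⟨⟨⟨hD, hDH⟩, hq, hqQ⟩, hw 1 (by norm_num), hw 2 (by norm_num), hw 3 (by norm_num)⟩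

lemma Sq.rat (h : Sq H D B L w t δ ρ) (hD : 1 ≤ D) [Algebra ℚ L] {i : ℕ} (h0 : δ i = 0) :
    ∃ x : ℚ, algebraMap ℚ L x = w i := by
  have h1 := h.hsq i
  rw [h0, Int.cast_zero] at h1
  have h2 : ρ i = 0 := mul_self_eq_zero.1 h1
  have h3 := h.hw i
  rw [h2, zero_add] at h3
  have hDL : (D : L) ≠ 0 := by
    have : D ≠ 0 := by omega
    exact_mod_cast this
  refine ⟨(t i : ℚ) / (2 * (D : ℚ)), ?_⟩
  rw [map_div₀, map_mul, map_intCast, map_natCast, map_ofNat, ← h3]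
  field_simp

end sq

lemma pigeon {κ : ℕ} (hκ : 1 ≤ κ) {X : ℝ} (hX : 0 ≤ X) {n : ℕ → ℕ} (d : ℕ) (h1 : 1 ≤ n 0)
    (hch : ∀ k < κ, n (k * d) ∣ n (k * d + d)) (hlast : (n (κ * d) : ℝ) ≤ X) :
    ∃ k < κ, n (k * d + d) ≤ QR κ X * n (k * d) := by
  by_contra hcon
  push Not at hcon
  have hgrow : ∀ k ≤ κ, (QR κ X + 1) ^ k ≤ n (k * d) := by
    intro k
    induction k with
    | zero =>
      intro _
      rw [pow_zero, Nat.zero_mul]
      exact h1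
    | succ k ih =>
      intro hk
      have h1 := ih (by omega)
      have h2 := hcon k (by omega)
      obtain ⟨w, hw⟩ := hch k (by omega)
      have h4 : QR κ X < w := by
        rw [hw, mul_comm] at h2
        exact lt_of_mul_lt_mul_left h2 (Nat.zero_le _)
      have h5 : (k + 1) * d = k * d + d := by ring
      rw [h5, hw, pow_succ]
      exact Nat.mul_le_mul h1 h4
  have h1 := hgrow κ le_rfl
  have h2 := QR_lt (κ := κ) hX hκ
  have h3 : (((QR κ X + 1) ^ κ : ℕ) : ℝ) ≤ (n (κ * d) : ℝ) := by exact_mod_cast h1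
  linarith

lemma map_q (f : ℚ[X]) {L : Type} [Field L] (φ : ℚ →+* ℚ) (ψ χ : ℚ →+* L) :
    (f.map φ).map ψ = f.map χ := by
  rw [Polynomial.map_map]
  congr 1
  exact Subsingleton.elim _ _

/-- cycles -/
theorem cyc_split3 {H : ℕ} (hH : 1 ≤ H) {f : ℚ[X]} (hf : f ∈ Pg.Fam 2 1 H) {K : Type} [Field K]
    [NumberField K] (hK : finrank ℚ K ≤ 2) {z : K}
    (hz : 2 < minimalPeriod (fun x => (f.map (algebraMap ℚ K)).eval x) z) :
    (∃ (L : Type) (_ : Field L) (_ : NumberField L), finrank ℚ L ≤ 1 ∧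
      ∃ y : L, 2 < minimalPeriod (fun x => (f.map (algebraMap ℚ L)).eval x) y) ∨
    ∃ b ∈ FT H 1, RT f b := by
  have hpos : 0 < finrank ℚ K := finrank_pos
  rcases Nat.lt_or_ge (finrank ℚ K) 2 with h2 | h2
  · exact Or.inl ⟨K, inferInstance, inferInstance, by omega, z, hz⟩
  have hK2 : finrank ℚ K = 2 := le_antisymm hK h2
  set F := f.map (algebraMap ℚ K) with hF
  set g : K → K := fun x => F.eval x with hg
  have hper : z ∈ periodicPts g := minimalPeriod_pos_iff_mem_periodicPts.1 (by omega)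
  have hpre : z ∈ Pre F := pre_of_periodic hper
  obtain ⟨D, B, hD, hDH, hfeq, t, δ, ρ, hsq⟩ := exists_sq hK2 hH hf hpre
  by_cases h0 : ∃ i, δ i = 0
  · left
    obtain ⟨i, hi⟩ := h0
    obtain ⟨x, hx⟩ := hsq.rat hD hi
    refine ⟨ℚ, inferInstance, inferInstance, by rw [finrank_self], x, ?_⟩
    rw [← period_map (algebraMap ℚ K), map_q f _ _ (algebraMap ℚ K), hx]
    have h3 : orb F z i = g^[i] z := rfl
    rw [h3]
    show 2 < minimalPeriod g (g^[i] z)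
    rw [minimalPeriod_apply_iterate hper]
    exact hz
  · right
    push Not at h0
    set N := minimalPeriod g z with hN
    have hwN : orb F z (4 * N) = orb F z 0 := by
      have h3 : IsPeriodicPt g (4 * N) z := (isPeriodicPt_minimalPeriod g z).const_mul 4
      exact h3
    have hδN := hsq.hper _ _ hwN
    have hper1 : minimalPeriod g (g^[1] z) = N := minimalPeriod_apply_iterate hper 1
    refine hsq.data hD hDH hfeq (i0 := 0) (q := 1) le_rfl le_rfl (fun i _ => h0 i) ?_ ?_ ?_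
    · rw [mul_one, ← hδN]
      exact hsq.chain (m := 4 * N) (fun i _ => h0 i) (4 * N) le_rfl (0 + 4) (by omega)
    · intro h3
      have h4 : IsPeriodicPt g 1 (g^[1] z) := by
        show g^[1] (g^[1] z) = g^[1] z
        exact h3.symm
      have := h4.minimalPeriod_le one_pos
      omega
    · intro h3
      have h4 : IsPeriodicPt g 2 (g^[1] z) := by
        show g^[2] (g^[1] z) = g^[1] z
        exact h3.symm
      have := h4.minimalPeriod_le two_pos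
      omega

/-- long orbits -/
theorem orb_split3 {H : ℕ} (hH : 1 ≤ H) {κ : ℕ} (hκ : 1 ≤ κ) {f : ℚ[X]}
    (hf : f ∈ Pg.Fam 2 1 H) {K : Type} [Field K]
    [NumberField K] (hK : finrank ℚ K ≤ 2) {z : K} (hz : z ∈ Pre (f.map (algebraMap ℚ K)))
    (hinj : ∀ i ≤ 6 * κ + 1, ∀ j ≤ 6 * κ + 1, orb (f.map (algebraMap ℚ K)) z i =
      orb (f.map (algebraMap ℚ K)) z j → i = j) :
    (∃ (L : Type) (_ : Field L) (_ : NumberField L), finrank ℚ L ≤ 1 ∧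
      ∃ y ∈ Pre (f.map (algebraMap ℚ L)), ∀ i ≤ κ * 2 + 1, ∀ j ≤ κ * 2 + 1,
        orb (f.map (algebraMap ℚ L)) y i = orb (f.map (algebraMap ℚ L)) y j → i = j) ∨
    ∃ b ∈ FT H (QR κ ((12 * (H : ℝ)) ^ 2)), RT f b := by
  have hpos : 0 < finrank ℚ K := finrank_pos
  rcases Nat.lt_or_ge (finrank ℚ K) 2 with h2 | h2
  · exact Or.inl ⟨K, inferInstance, inferInstance, by omega, z, hz, fun i hi j hj hij =>
      hinj i (by omega) j (by omega) hij⟩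
  have hK2 : finrank ℚ K = 2 := le_antisymm hK h2
  set F := f.map (algebraMap ℚ K) with hF
  obtain ⟨D, B, hD, hDH, hfeq, t, δ, ρ, hsq⟩ := exists_sq hK2 hH hf hz
  by_cases h0 : ∃ i ≤ 4 * κ, δ i = 0
  · left
    obtain ⟨i, hi, hi0⟩ := h0
    obtain ⟨x, hx⟩ := hsq.rat hD hi0
    refine ⟨ℚ, inferInstance, inferInstance, by rw [finrank_self], x, ?_, ?_⟩
    · rw [← pre_map (algebraMap ℚ K), map_q f _ _ (algebraMap ℚ K), hx]
      exact orb_pre hz i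
    · intro j1 hj1 j2 hj2 h3
      have h4 := congrArg (algebraMap ℚ K) h3
      rw [← orb_map, ← orb_map, map_q f _ _ (algebraMap ℚ K), hx] at h4
      have h5 := hinj (i + j1) (by omega) (i + j2) (by omega) (by
        rw [← orb_orb, ← orb_orb]
        exact h4)
      omega
  · right
    push Not at h0
    set X : ℝ := (12 * (H : ℝ)) ^ 2 with hX
    have hX0 : 0 ≤ X := by positivity
    have hpos' : ∀ i ≤ 4 * κ, 1 ≤ (δ i).natAbs := fun i hi => Int.natAbs_pos.2 (h0 i hi)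
    have hch := hsq.chain h0
    obtain ⟨k, hk, hkn⟩ := pigeon hκ hX0 (n := fun i => fr D (δ i).natAbs) 4
      (fr_pos (hpos' 0 (by omega)))
      (fun k hk => hch _ (by omega) _ (by omega)) (by
        have h3 : fr D (δ (κ * 4)).natAbs ≤ (δ (κ * 4)).natAbs := fr_le (hpos' _ (by omega))
        have h4 : ((fr D (δ (κ * 4)).natAbs : ℕ) : ℝ) ≤ (((δ (κ * 4)).natAbs : ℕ) : ℝ) := by
          exact_mod_cast h3
        refine h4.trans ?_
        rw [Nat.cast_natAbs]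
        push_cast
        exact hsq.hd _)
    obtain ⟨q, hq⟩ := hch (k * 4 + 4) (by omega) (k * 4) (by omega)
    have hp0 := fr_pos (D := D) (hpos' (k * 4) (by omega))
    have hp1 := fr_pos (D := D) (hpos' (k * 4 + 4) (by omega))
    have hq1 : 1 ≤ q := by
      rcases Nat.eq_zero_or_pos q with h | h
      · rw [h, mul_zero] at hq
        omega
      · exact h
    have hqQ : q ≤ QR κ X := by
      have h3 : fr D (δ (k * 4 + 4)).natAbs ≤ QR κ X * fr D (δ (k * 4)).natAbs := hkn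
      rw [hq, mul_comm (QR κ X)] at h3
      exact Nat.le_of_mul_le_mul_left h3 hp0
    refine hsq.data hD hDH hfeq (i0 := k * 4) hq1 hqQ (fun i hi => h0 i (by omega)) ?_ ?_ ?_
    · rw [hq]
    · intro h3
      have := hinj (k * 4 + 1) (by omega) (k * 4 + 2) (by omega) h3
      omega
    · intro h3
      have := hinj (k * 4 + 1) (by omega) (k * 4 + 3) (by omega) h3
      omega

theorem FT_card (ε : ℝ) (hε : 0 < ε) : ∃ C : ℝ, 0 < C ∧ ∀ (H Q : ℕ), 1 ≤ H →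
    (Q : ℝ) ≤ (12 * H) ^ 2 → ((FT H Q).card : ℝ) ≤ C * (H : ℝ) ^ ((1 : ℝ) + ε) * Q := by
  classical
  set η := ε / 12 with hη
  have hη0 : 0 < η := by positivity
  obtain ⟨C1, hC1, hTS⟩ := TS_card η hη0
  refine ⟨C1 ^ 3 * (12 : ℝ) ^ ε, by positivity, fun H Q hH hQ => ?_⟩
  have hHR : (1 : ℝ) ≤ H := by exact_mod_cast hH
  have hH0 : (0 : ℝ) < H := by linarith
  set W : ℝ := 12 * H with hW
  have hW1 : 1 ≤ W := by rw [hW]; linarith
  have hW0 : 0 < W := by linarith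
  set V : ℝ := W ^ (4 * η) with hV
  have hV0 : 0 < V := by positivity
  have hN : ∀ D q : ℕ, 1 ≤ D → D ≤ H → 1 ≤ q → q ≤ Q →
      ((TS (6 * H) (D * q)).card : ℝ) ≤ C1 * V := by
    intro D q hD1 hD hq1 hq
    have h1 : ((D * q : ℕ) : ℝ) ≤ W ^ 3 := by
      push_cast
      have h2 : (D : ℝ) ≤ W := by
        have : (D : ℝ) ≤ H := by exact_mod_cast hD
        rw [hW]
        linarith
      have h3 : (q : ℝ) ≤ W ^ 2 := by
        have : (q : ℝ) ≤ Q := by exact_mod_cast hq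
        linarith
      calc (D : ℝ) * q ≤ W * W ^ 2 := mul_le_mul h2 h3 (Nat.cast_nonneg _) hW0.le
        _ = W ^ 3 := by ring
    have h2 : ((D * q : ℕ) : ℝ) ^ η ≤ (W ^ 3) ^ η :=
      Real.rpow_le_rpow (Nat.cast_nonneg _) h1 hη0.le
    have h3 : W ^ η * (W ^ 3) ^ η = V := by
      rw [hV, ← Real.rpow_natCast W 3, ← Real.rpow_mul hW0.le, ← Real.rpow_add hW0]
      congr 1
      push_cast
      ring
    have h4 : (6 * (H : ℝ)) ^ η ≤ W ^ η := by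
      refine Real.rpow_le_rpow (by positivity) ?_ hη0.le
      rw [hW]
      linarith
    refine (hTS (6 * H) (D * q) (by linarith) (Nat.mul_pos hD1 hq1)).trans ?_
    rw [mul_assoc, ← h3]
    exact mul_le_mul_of_nonneg_left (mul_le_mul h4 h2 (by positivity) (by positivity)) hC1.le
  have hcard : ((FT H Q).card : ℝ) ≤ (H * Q : ℝ) * (C1 * V) ^ 3 := by
    unfold FT
    rw [Finset.card_sigma]
    push_cast
    have h1 : ∀ x ∈ Finset.Icc 1 H ×ˢ Finset.Icc 1 Q,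
        (((TS (6 * (H : ℝ)) (x.1 * x.2) ×ˢ (TS (6 * (H : ℝ)) (x.1 * x.2) ×ˢ
          TS (6 * (H : ℝ)) (x.1 * x.2))).card : ℕ) : ℝ) ≤ (C1 * V) ^ 3 := by
      intro x hx
      rw [Finset.mem_product, Finset.mem_Icc, Finset.mem_Icc] at hx
      obtain ⟨⟨a1, a2⟩, a3, a4⟩ := hx
      have h2 := hN x.1 x.2 a1 a2 a3 a4
      rw [Finset.card_product, Finset.card_product]
      push_cast
      have h3 : (0 : ℝ) ≤ ((TS (6 * (H : ℝ)) (x.1 * x.2)).card : ℝ) := Nat.cast_nonneg _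
      calc ((TS (6 * (H : ℝ)) (x.1 * x.2)).card : ℝ) * (((TS (6 * (H : ℝ)) (x.1 * x.2)).card : ℝ) *
            ((TS (6 * (H : ℝ)) (x.1 * x.2)).card : ℝ)) =
            ((TS (6 * (H : ℝ)) (x.1 * x.2)).card : ℝ) ^ 3 := by ring
        _ ≤ _ := pow_le_pow_left₀ h3 h2 3
    refine (Finset.sum_le_card_nsmul _ _ _ h1).trans (le_of_eq ?_)
    rw [Finset.card_product, Nat.card_Icc, Nat.card_Icc, nsmul_eq_mul]
    push_cast
    simp
  refine hcard.trans (le_of_eq ?_)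
  have e3 : V ^ 3 = (12 : ℝ) ^ ε * (H : ℝ) ^ ε := by
    rw [hV, ← Real.rpow_natCast, ← Real.rpow_mul hW0.le, ← Real.mul_rpow (by norm_num) hH0.le]
    congr 1
    rw [hη]
    push_cast
    ring
  rw [Real.rpow_add hH0, Real.rpow_one]
  calc (H * Q : ℝ) * (C1 * V) ^ 3 = C1 ^ 3 * H * Q * V ^ 3 := by ring
    _ = _ := by
      rw [e3]
      ring

theorem badt_card {H Q : ℕ} {S : Set ℚ[X]} (hS : ∀ f ∈ S, ∃ b ∈ FT H Q, RT f b) :
    S.Finite ∧ S.ncard ≤ (FT H Q).card := by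
  obtain ⟨h1, h2⟩ := card_of_fibre (S := S) 2 le_rfl (FT H Q) RT hS
    (fun f f' b h h' => by
      refine ⟨1, one_ne_zero, one_pow _, ?_⟩
      rw [RT_unique h h']
      simp)
  refine ⟨h1, h2.trans (le_of_eq ?_)⟩
  norm_num

/-- cycles of quadratic polynomials over all quadratic fields -/
theorem cyc_count3 (ε : ℝ) (hε : 0 < ε) : ∃ C : ℝ, 0 < C ∧
    ∀ H : ℕ, 1 ≤ H → ∀ S : Set ℚ[X],
    (∀ f ∈ S, f ∈ Pg.Fam 2 1 H ∧ ∃ (K : Type) (_ : Field K) (_ : NumberField K),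
      finrank ℚ K ≤ 2 ∧ ∃ z : K, 2 < minimalPeriod (fun x => (f.map (algebraMap ℚ K)).eval x) z) →
    (S.ncard : ℝ) ≤ C * (H : ℝ) ^ ((1 : ℝ) + ε) := by
  obtain ⟨C1, hC1, h1⟩ := cyc_count 1 (d := 2) le_rfl 0 ε hε
  obtain ⟨C2, hC2, h2⟩ := FT_card ε hε
  refine ⟨C1 + C2, by positivity, fun H hH S hS => ?_⟩
  have hHR : (1 : ℝ) ≤ H := by exact_mod_cast hH
  set S1 : Set ℚ[X] := {f | f ∈ S ∧ ∃ (L : Type) (_ : Field L) (_ : NumberField L),
    finrank ℚ L ≤ 1 ∧ ∃ y : L, 2 < minimalPeriod (fun x => (f.map (algebraMap ℚ L)).eval x) y}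
    with hS1
  set S2 : Set ℚ[X] := {f | f ∈ S ∧ ∃ b ∈ FT H 1, RT f b} with hS2
  have hsub : S = S1 ∪ S2 := by
    ext f
    constructor
    · intro hf
      obtain ⟨hF, K, i1, i2, hK, z, hz⟩ := hS f hf
      rcases cyc_split3 hH hF hK hz with h | h
      · exact Or.inl ⟨hf, h⟩
      · exact Or.inr ⟨hf, h⟩
    · rintro (hf | hf)
      · exact hf.1
      · exact hf.1
  have h3 := h1 H 1 hH one_ne_zero (by simp) S1 (fun f hf => ⟨(hS f hf.1).1, hf.2⟩)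
  obtain ⟨-, h4⟩ := badt_card (H := H) (Q := 1) (S := S2) fun f hf => hf.2
  have h5 := h2 H 1 hH (by
    rw [Nat.cast_one]
    exact one_le_pow₀ (by linarith))
  have h6 : (S.ncard : ℝ) ≤ (S1.ncard : ℝ) + (S2.ncard : ℝ) := by
    have := Set.ncard_union_le S1 S2
    rw [← hsub] at this
    exact_mod_cast this
  have h7 : (H : ℝ) ^ (((1 + (0 + 1) * (1 * (1 + 1) / 2 - 1) : ℕ) : ℝ) + ε) ≤
      (H : ℝ) ^ ((1 : ℝ) + ε) := by
    refine Real.rpow_le_rpow_of_exponent_le hHR ?_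
    norm_num
  have h8 : (S2.ncard : ℝ) ≤ ((FT H 1).card : ℝ) := by exact_mod_cast h4
  rw [Nat.cast_one, mul_one] at h5
  calc (S.ncard : ℝ) ≤ (S1.ncard : ℝ) + (S2.ncard : ℝ) := h6
    _ ≤ C1 * (H : ℝ) ^ ((1 : ℝ) + ε) + C2 * (H : ℝ) ^ ((1 : ℝ) + ε) :=
      add_le_add (h3.trans (mul_le_mul_of_nonneg_left h7 hC1.le)) (h8.trans h5)
    _ = _ := by ring

/-- long orbits of quadratic polynomials over all quadratic fields -/
theorem long_count3 {κ : ℕ} (hκ : 1 ≤ κ) (ε : ℝ) (hε : 0 < ε) : ∃ C : ℝ, 0 < C ∧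
    ∀ H : ℕ, 1 ≤ H → ∀ S : Set ℚ[X],
    (∀ f ∈ S, f ∈ Pg.Fam 2 1 H ∧ ∃ (K : Type) (_ : Field K) (_ : NumberField K),
      finrank ℚ K ≤ 2 ∧ ∃ z ∈ Pre (f.map (algebraMap ℚ K)), ∀ i ≤ 6 * κ + 1, ∀ j ≤ 6 * κ + 1,
        orb (f.map (algebraMap ℚ K)) z i = orb (f.map (algebraMap ℚ K)) z j → i = j) →
    (S.ncard : ℝ) ≤ C * (H : ℝ) ^ ((1 : ℝ) + 2 / κ + ε) := by
  obtain ⟨C1, hC1, h1⟩ := long_count 1 (d := 2) le_rfl 0 hκ ε hε
  obtain ⟨C2, hC2, h2⟩ := FT_card ε hε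
  have hκ0 : (0 : ℝ) < κ := by exact_mod_cast hκ
  refine ⟨C1 + C2 * ((12 : ℝ) ^ 2) ^ (1 / (κ : ℝ)), by positivity, fun H hH S hS => ?_⟩
  have hHR : (1 : ℝ) ≤ H := by exact_mod_cast hH
  have hH0 : (0 : ℝ) < H := by linarith
  set X : ℝ := (12 * (H : ℝ)) ^ 2 with hX
  have hX1 : 1 ≤ X := one_le_pow₀ (by linarith)
  set S1 : Set ℚ[X] := {f | f ∈ S ∧ ∃ (L : Type) (_ : Field L) (_ : NumberField L),
    finrank ℚ L ≤ 1 ∧ ∃ y ∈ Pre (f.map (algebraMap ℚ L)), ∀ i ≤ κ * 2 + 1, ∀ j ≤ κ * 2 + 1,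
        orb (f.map (algebraMap ℚ L)) y i = orb (f.map (algebraMap ℚ L)) y j → i = j}
    with hS1
  set S2 : Set ℚ[X] := {f | f ∈ S ∧ ∃ b ∈ FT H (QR κ X), RT f b} with hS2
  have hsub : S = S1 ∪ S2 := by
    ext f
    constructor
    · intro hf
      obtain ⟨hF, K, i1, i2, hK, z, hz, hz2⟩ := hS f hf
      rcases orb_split3 hH hκ hF hK hz hz2 with h | h
      · exact Or.inl ⟨hf, h⟩
      · exact Or.inr ⟨hf, h⟩
    · rintro (hf | hf)
      · exact hf.1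
      · exact hf.1
  have h3 := h1 H 1 hH one_ne_zero (by simp) S1 (fun f hf => ⟨(hS f hf.1).1, hf.2⟩)
  obtain ⟨-, h4⟩ := badt_card (H := H) (Q := QR κ X) (S := S2) fun f hf => hf.2
  obtain ⟨q1, q2⟩ := QR_le hκ hX1
  have h5 := h2 H (QR κ X) hH q1
  have h6 : (S.ncard : ℝ) ≤ (S1.ncard : ℝ) + (S2.ncard : ℝ) := by
    have := Set.ncard_union_le S1 S2
    rw [← hsub] at this
    exact_mod_cast this
  have h7 : (H : ℝ) ^ (((1 + (0 + 1) * (1 * (1 + 1) / 2 - 1) : ℕ) : ℝ) +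
      (((0 : ℕ) : ℝ) + 1) * ((1 : ℕ) : ℝ) / κ + ε) ≤
      (H : ℝ) ^ ((1 : ℝ) + 2 / κ + ε) := by
    refine Real.rpow_le_rpow_of_exponent_le hHR ?_
    have h9 : (1 : ℝ) / κ ≤ 2 / κ := div_le_div_of_nonneg_right (by norm_num) hκ0.le
    norm_num
    norm_num at h9
    linarith
  have h8 : (S2.ncard : ℝ) ≤ ((FT H (QR κ X)).card : ℝ) := by exact_mod_cast h4
  have h10 : X ^ (1 / (κ : ℝ)) = ((12 : ℝ) ^ 2) ^ (1 / (κ : ℝ)) * (H : ℝ) ^ ((2 : ℝ) / κ) := by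
    rw [hX, mul_pow, Real.mul_rpow (by positivity) (by positivity), ← Real.rpow_natCast (H : ℝ),
      ← Real.rpow_mul hH0.le]
    congr 2
    push_cast
    ring
  have h11 : C2 * (H : ℝ) ^ ((1 : ℝ) + ε) * (QR κ X : ℝ) ≤
      C2 * ((12 : ℝ) ^ 2) ^ (1 / (κ : ℝ)) * (H : ℝ) ^ ((1 : ℝ) + 2 / κ + ε) := by
    calc C2 * (H : ℝ) ^ ((1 : ℝ) + ε) * (QR κ X : ℝ) ≤
          C2 * (H : ℝ) ^ ((1 : ℝ) + ε) * X ^ (1 / (κ : ℝ)) :=
          mul_le_mul_of_nonneg_left q2 (by positivity)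
      _ = _ := by
        have e : (H : ℝ) ^ ((1 : ℝ) + 2 / κ + ε) =
            (H : ℝ) ^ ((1 : ℝ) + ε) * (H : ℝ) ^ ((2 : ℝ) / κ) := by
          rw [← Real.rpow_add hH0]
          congr 1
          ring
        rw [e, h10]
        ring
  calc (S.ncard : ℝ) ≤ (S1.ncard : ℝ) + (S2.ncard : ℝ) := h6
    _ ≤ C1 * (H : ℝ) ^ ((1 : ℝ) + 2 / κ + ε) +
        C2 * ((12 : ℝ) ^ 2) ^ (1 / (κ : ℝ)) * (H : ℝ) ^ ((1 : ℝ) + 2 / κ + ε) :=
      add_le_add (h3.trans (mul_le_mul_of_nonneg_left h7 hC1.le)) (h8.trans (h5.trans h11))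
    _ = _ := by ring

end Pool.Agent.X12.Nq
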