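import Pool.Agent.X12.Nq5
import Pool.Agent.X12.Nf10

/-!
# Quadratic polynomials over a number field and all its quadratic extensions
-/

set_option autoImplicit false

namespace Pool.Agent.X12.Nq

open NumberField Module Polynomial Function IntermediateField
open Pool.Agent.X12.Pg (fr fr_spec fr_pos fr_le fr_dvd quot_dvd)
open Pool.Agent.X12.Nf

section mat

variable {R : Type*} [CommRing R]

lemma matr_entries {M M' : Matrix (Fin 2) (Fin 2) R} {D B : R}
    (h : D • M' = M * M + B • (1 : Matrix (Fin 2) (Fin 2) R)) :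
    D * M' 0 0 = M 0 0 * M 0 0 + M 0 1 * M 1 0 + B ∧
    D * M' 0 1 = M 0 0 * M 0 1 + M 0 1 * M 1 1 ∧
    D * M' 1 0 = M 1 0 * M 0 0 + M 1 1 * M 1 0 ∧
    D * M' 1 1 = M 1 0 * M 0 1 + M 1 1 * M 1 1 + B := by
  have o00 : (1 : Matrix (Fin 2) (Fin 2) R) 0 0 = 1 := Matrix.one_apply_eq 0
  have o11 : (1 : Matrix (Fin 2) (Fin 2) R) 1 1 = 1 := Matrix.one_apply_eq 1
  have o01 : (1 : Matrix (Fin 2) (Fin 2) R) 0 1 = 0 := Matrix.one_apply_ne (by decide)
  have o10 : (1 : Matrix (Fin 2) (Fin 2) R) 1 0 = 0 := Matrix.one_apply_ne (by decide)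
  refine ⟨?_, ?_, ?_, ?_⟩
  · have h1 := congrFun (congrFun h 0) 0
    rw [Matrix.smul_apply, Matrix.add_apply, Matrix.smul_apply, Matrix.mul_apply,
      Fin.sum_univ_two, o00, smul_eq_mul, smul_eq_mul, mul_one] at h1
    exact h1
  · have h1 := congrFun (congrFun h 0) 1
    rw [Matrix.smul_apply, Matrix.add_apply, Matrix.smul_apply, Matrix.mul_apply,
      Fin.sum_univ_two, o01, smul_eq_mul, smul_eq_mul, mul_zero, add_zero] at h1
    exact h1
  · have h1 := congrFun (congrFun h 1) 0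
    rw [Matrix.smul_apply, Matrix.add_apply, Matrix.smul_apply, Matrix.mul_apply,
      Fin.sum_univ_two, o10, smul_eq_mul, smul_eq_mul, mul_zero, add_zero] at h1
    exact h1
  · have h1 := congrFun (congrFun h 1) 1
    rw [Matrix.smul_apply, Matrix.add_apply, Matrix.smul_apply, Matrix.mul_apply,
      Fin.sum_univ_two, o11, smul_eq_mul, smul_eq_mul, mul_one] at h1
    exact h1

lemma matr_sq (M : Matrix (Fin 2) (Fin 2) R) :
    ((2 : R) • M - (M 0 0 + M 1 1) • (1 : Matrix (Fin 2) (Fin 2) R)) *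
      ((2 : R) • M - (M 0 0 + M 1 1) • (1 : Matrix (Fin 2) (Fin 2) R)) =
      ((M 0 0 - M 1 1) ^ 2 + 4 * (M 0 1 * M 1 0)) • (1 : Matrix (Fin 2) (Fin 2) R) := by
  have o00 : (1 : Matrix (Fin 2) (Fin 2) R) 0 0 = 1 := Matrix.one_apply_eq 0
  have o11 : (1 : Matrix (Fin 2) (Fin 2) R) 1 1 = 1 := Matrix.one_apply_eq 1
  have o01 : (1 : Matrix (Fin 2) (Fin 2) R) 0 1 = 0 := Matrix.one_apply_ne (by decide)
  have o10 : (1 : Matrix (Fin 2) (Fin 2) R) 1 0 = 0 := Matrix.one_apply_ne (by decide)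
  have key : ∀ p q : Fin 2, (((2 : R) • M - (M 0 0 + M 1 1) • (1 : Matrix (Fin 2) (Fin 2) R)) *
      ((2 : R) • M - (M 0 0 + M 1 1) • (1 : Matrix (Fin 2) (Fin 2) R))) p q =
      (2 * M p 0 - (M 0 0 + M 1 1) * (1 : Matrix (Fin 2) (Fin 2) R) p 0) *
      (2 * M 0 q - (M 0 0 + M 1 1) * (1 : Matrix (Fin 2) (Fin 2) R) 0 q) +
      (2 * M p 1 - (M 0 0 + M 1 1) * (1 : Matrix (Fin 2) (Fin 2) R) p 1) *
      (2 * M 1 q - (M 0 0 + M 1 1) * (1 : Matrix (Fin 2) (Fin 2) R) 1 q) := by
    intro p q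
    rw [Matrix.mul_apply, Fin.sum_univ_two]
    simp only [Matrix.sub_apply, Matrix.smul_apply, smul_eq_mul]
  have h00 := key 0 0
  have h01 := key 0 1
  have h10 := key 1 0
  have h11 := key 1 1
  rw [o00, o10, o01] at h00
  rw [o00, o01, o11] at h01
  rw [o10, o00, o11] at h10
  rw [o10, o01, o11] at h11
  ext p q
  rw [Matrix.smul_apply, smul_eq_mul]
  fin_cases p <;> fin_cases q
  · refine h00.trans ?_
    show _ = _ * (1 : Matrix (Fin 2) (Fin 2) R) 0 0
    rw [o00]
    ring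
  · refine h01.trans ?_
    show _ = _ * (1 : Matrix (Fin 2) (Fin 2) R) 0 1
    rw [o01]
    ring
  · refine h10.trans ?_
    show _ = _ * (1 : Matrix (Fin 2) (Fin 2) R) 1 0
    rw [o10]
    ring
  · refine h11.trans ?_
    show _ = _ * (1 : Matrix (Fin 2) (Fin 2) R) 1 1
    rw [o11]
    ring

end mat

variable {K : Type} [Field K] [NumberField K] {L : Type} [Field L] [NumberField L] [Algebra K L]

lemma coeL (x : 𝓞 K) : ((algebraMap (𝓞 K) (𝓞 L) x : 𝓞 L) : L) = algebraMap K L (x : K) := rfl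

lemma house_map (x : K) : house (algebraMap K L x) ≤ house x := by
  refine house_le_of L (house_nonneg _) fun σ => ?_
  exact norm_embedding_le_house x (σ.comp (algebraMap K L))

lemma map_rel {a b c d e : K} (h : 2 * a * b = c ^ 2 + d + 4 * e) :
    2 * algebraMap K L a * algebraMap K L b =
      algebraMap K L c ^ 2 + algebraMap K L d + 4 * algebraMap K L e := by
  have h1 := congrArg (algebraMap K L) h
  rw [map_mul, map_mul, map_add, map_add, map_mul, map_pow, map_ofNat, map_ofNat] at h1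
  exact h1

/-- the data of an orbit in a quadratic extension -/
structure SqR (H : ℝ) (D B : 𝓞 K) (w : ℕ → L) (t δ : ℕ → 𝓞 K) (ρ : ℕ → L) : Prop where
  h1 : ∀ i, D ^ 2 * δ (i + 1) = δ i * t i ^ 2
  h2 : ∀ i, 2 * D * t (i + 1) = t i ^ 2 + δ i + 4 * B
  hr : ∀ i, algebraMap K L D * ρ (i + 1) = algebraMap K L (t i) * ρ i
  hw : ∀ i, 2 * algebraMap K L D * w i = ρ i + algebraMap K L (t i)
  hsq : ∀ i, ρ i * ρ i = algebraMap K L (δ i)
  ht : ∀ i, house (t i : K) ≤ 6 * H
  hd : ∀ i, house (δ i : K) ≤ (12 * H) ^ 2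
  hper : ∀ i j, w i = w j → δ i = δ j

theorem exists_sqR (hL : finrank K L = 2) {H : ℝ} (hH : 1 ≤ H)
    {f : K[X]} (hf : f ∈ Fam 2 (1 : 𝓞 K) H) {z : L}
    (hz : z ∈ Pre (f.map (algebraMap K L))) :
    ∃ D B : 𝓞 K, D ≠ 0 ∧ house (D : K) ≤ H ∧ f = X ^ 2 + C ((B : K) / (D : K) ^ 2) ∧
      ∃ (t δ : ℕ → 𝓞 K) (ρ : ℕ → L), SqR H D B (orb (f.map (algebraMap K L)) z) t δ ρ := by
  classical
  obtain ⟨hdeg, hlc0, hc, D, hD0, hDH, hB⟩ := hf
  choose! Bf hBf hBfH using hB
  set F := f.map (algebraMap K L) with hF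
  have hf2 : f.coeff 2 = 1 := by
    rw [hlc0]
    exact map_one (algebraMap (𝓞 K) K)
  have hf1 : f.coeff 1 = 0 := hc
  have hDK : (D : K) ≠ 0 := RingOfIntegers.coe_ne_zero_iff.2 hD0
  have hDL : algebraMap K L (D : K) ≠ 0 := by
    rw [Ne, map_eq_zero]
    exact hDK
  set B : 𝓞 K := Bf 0 with hBdef
  have hBK : (B : K) = (D : K) ^ 2 * f.coeff 0 := hBf 0 (by norm_num)
  have hBL : algebraMap K L (B : K) = algebraMap K L (D : K) ^ 2 * F.coeff 0 := by
    rw [hBK, map_mul, map_pow, hF, Polynomial.coeff_map]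
  have hFdeg : F.natDegree = 2 := by rw [hF, Polynomial.natDegree_map, hdeg]
  have hlc : F.coeff 2 = 1 := by rw [hF, Polynomial.coeff_map, hf2, map_one]
  have hc1 : F.coeff 1 = 0 := by rw [hF, Polynomial.coeff_map, hf1, map_zero]
  have hfeq : f = X ^ 2 + C ((B : K) / (D : K) ^ 2) := by
    have h0 : f.coeff 0 = (B : K) / (D : K) ^ 2 := by
      rw [hBK]
      field_simp
    conv_lhs => rw [Polynomial.as_sum_range_C_mul_X_pow f]
    rw [hdeg, Finset.sum_range_succ, Finset.sum_range_succ, Finset.sum_range_one, hf2, hf1, h0]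
    simp only [map_one, map_zero, one_mul, zero_mul, pow_zero, mul_one, add_zero]
    ring
  have hev : ∀ x : L, F.eval x = x ^ 2 + F.coeff 0 := by
    intro x
    rw [Polynomial.eval_eq_sum_range, hFdeg, Finset.sum_range_succ, Finset.sum_range_succ,
      Finset.sum_range_one, hlc, hc1]
    ring
  refine ⟨D, B, hD0, hDH, hfeq, ?_⟩
  -- the polynomial over `L`
  have h1L : (((1 : 𝓞 L)) : L) = 1 := map_one (algebraMap (𝓞 L) L)
  have hfm : Fm 2 (1 : 𝓞 L) H F (algebraMap (𝓞 K) (𝓞 L) D)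
      (fun i => algebraMap (𝓞 K) (𝓞 L) (Bf i)) := by
    refine ⟨one_ne_zero, ?_, hFdeg, ?_, ?_, ?_, ?_⟩
    · intro h0
      apply hDL
      rw [← coeL, h0]
      exact vzero
    · rw [hlc, h1L]
    · rw [coeL]
      exact (house_map _).trans hDH
    · intro i hi
      rw [coeL, coeL, hBf i hi, map_mul, map_pow, hF, Polynomial.coeff_map]
    · intro i hi
      rw [coeL]
      exact (house_map _).trans (hBfH i hi)
  have hbd := fm_bd le_rfl hH hfm
  have hhouse1 : house (((1 : 𝓞 L)) : L) = 1 := by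
    have h3 := Pool.Agent.X12.Nu.house_int (K := L) 1
    rw [Int.cast_one] at h3
    rw [h3]
    simp
  have hcD : (((1 : 𝓞 L) * algebraMap (𝓞 K) (𝓞 L) D : 𝓞 L) : L) = algebraMap K L (D : K) := by
    rw [one_mul, coeL]
  have hZex : ∀ i, ∃ Z : 𝓞 L, (Z : L) = algebraMap K L (D : K) * orb F z i := by
    intro i
    obtain ⟨Z', hZ'⟩ := pre_int hbd le_rfl (orb_pre hz i)
    rw [hcD] at hZ'
    exact ⟨Z', hZ'⟩
  choose Z hZ using hZex
  have hZH : ∀ i, ∀ σ : L →+* ℂ, ‖σ (Z i : L)‖ ≤ 3 * H := by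
    intro i σ
    have h2 := pre_abs hbd le_rfl (orb_pre hz i) σ
    rw [hcD, hhouse1, ← hZ] at h2
    push_cast at h2
    linarith
  have hZr : ∀ i, algebraMap K L (D : K) * (Z (i + 1) : L) =
      (Z i : L) * (Z i : L) + algebraMap K L (B : K) := by
    intro i
    rw [hZ, hZ, orb_succ, hev, hBL]
    ring
  have hfin : Module.Finite K L := Module.finite_of_finrank_pos (by omega)
  set b : Basis (Fin 2) K L := finBasisOfFinrankEq K L hL with hb
  set M : ℕ → Matrix (Fin 2) (Fin 2) K := fun i => Algebra.leftMulMatrix b (Z i : L) with hM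
  have hMrec : ∀ i, (D : K) • M (i + 1) =
      M i * M i + (B : K) • (1 : Matrix (Fin 2) (Fin 2) K) := by
    intro i
    have h0 : (D : K) • (Z (i + 1) : L) = (Z i : L) * (Z i : L) + (B : K) • (1 : L) := by
      rw [Algebra.smul_def, Algebra.smul_def, mul_one]
      exact hZr i
    have h1 := congrArg (Algebra.leftMulMatrix b) h0
    rw [map_smul, map_add, map_mul, map_smul, map_one] at h1
    exact h1
  have e00 := fun i => (matr_entries (hMrec i)).1
  have e01 := fun i => (matr_entries (hMrec i)).2.1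
  have e10 := fun i => (matr_entries (hMrec i)).2.2.1
  have e11 := fun i => (matr_entries (hMrec i)).2.2.2
  set tq : ℕ → K := fun i => M i 0 0 + M i 1 1 with htq
  set dq : ℕ → K := fun i => (M i 0 0 - M i 1 1) ^ 2 + 4 * (M i 0 1 * M i 1 0) with hdq
  set ρ : ℕ → L := fun i => 2 * (Z i : L) - algebraMap K L (tq i) with hρ
  have hsq : ∀ i, ρ i * ρ i = algebraMap K L (dq i) := by
    intro i
    have h1 : ((2 : K) • (Z i : L) - tq i • (1 : L)) * ((2 : K) • (Z i : L) - tq i • (1 : L)) =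
        dq i • (1 : L) := by
      apply Algebra.leftMulMatrix_injective b
      rw [map_mul, map_sub, map_smul, map_smul, map_one, map_smul, map_one]
      exact matr_sq (M i)
    rw [Algebra.smul_def, Algebra.smul_def, Algebra.smul_def, mul_one, mul_one, map_ofNat] at h1
    exact h1
  have htr : ∀ i, tq i = Algebra.trace K L (Z i : L) := by
    intro i
    rw [Algebra.trace_eq_matrix_trace b, Matrix.trace_fin_two]
  have hZint : ∀ i, IsIntegral ℤ (Z i : L) := fun i => RingOfIntegers.isIntegral_coe (Z i)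
  have htint : ∀ i, IsIntegral ℤ (tq i) := by
    intro i
    rw [htr]
    exact Algebra.isIntegral_trace (hZint i)
  have hρint : ∀ i, IsIntegral ℤ (ρ i) := by
    intro i
    have h3 : IsIntegral ℤ (2 : L) := by
      have := isIntegral_algebraMap (R := ℤ) (A := L) (x := 2)
      simpa using this
    exact (h3.mul (hZint i)).sub ((htint i).map (algebraMap K L).toIntAlgHom)
  have hdint : ∀ i, IsIntegral ℤ (dq i) := by
    intro i
    have h3 : IsIntegral ℤ (algebraMap K L (dq i)) := by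
      rw [← hsq]
      exact (hρint i).mul (hρint i)
    exact (isIntegral_algebraMap_iff (algebraMap K L).injective).1 h3
  have h1 : ∀ i, (D : K) ^ 2 * dq (i + 1) = dq i * tq i ^ 2 := by
    intro i
    have e : (D : K) ^ 2 * dq (i + 1) = ((D : K) * M (i + 1) 0 0 - (D : K) * M (i + 1) 1 1) ^ 2 +
        4 * (((D : K) * M (i + 1) 0 1) * ((D : K) * M (i + 1) 1 0)) := by
      simp only [hdq]
      ring
    rw [e, e00, e11, e01, e10]
    simp only [hdq, htq]
    ring
  have h2 : ∀ i, 2 * (D : K) * tq (i + 1) = tq i ^ 2 + dq i + 4 * (B : K) := by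
    intro i
    have e : 2 * (D : K) * tq (i + 1) =
        2 * ((D : K) * M (i + 1) 0 0) + 2 * ((D : K) * M (i + 1) 1 1) := by
      simp only [htq]
      ring
    rw [e, e00, e11]
    simp only [hdq, htq]
    ring
  set t : ℕ → 𝓞 K := fun i => ⟨tq i, htint i⟩ with ht
  set δ : ℕ → 𝓞 K := fun i => ⟨dq i, hdint i⟩ with hδ
  have htK : ∀ i, (t i : K) = tq i := fun i => rfl
  have hδK : ∀ i, (δ i : K) = dq i := fun i => rfl
  have htb : ∀ σ : K →+* ℂ, ∀ i, ‖σ (tq i)‖ ≤ 6 * H := by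
    intro σ i
    let _ : Algebra K ℂ := σ.toAlgebra
    have h3 : σ (tq i) = ∑ τ : L →ₐ[K] ℂ, τ (Z i : L) := by
      rw [htr]
      exact trace_eq_sum_embeddings (K := K) (L := L) ℂ (x := (Z i : L))
    rw [h3]
    refine (norm_sum_le _ _).trans ?_
    have h4 : ∀ τ ∈ (Finset.univ : Finset (L →ₐ[K] ℂ)), ‖τ (Z i : L)‖ ≤ 3 * H := fun τ _ =>
      hZH i (τ : L →+* ℂ)
    refine (Finset.sum_le_card_nsmul _ _ _ h4).trans (le_of_eq ?_)
    rw [Finset.card_univ, AlgHom.card, hL, nsmul_eq_mul]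
    push_cast
    ring
  refine ⟨t, δ, ρ, ?_, ?_, ?_, ?_, hsq, ?_, ?_, ?_⟩
  · intro i
    refine RingOfIntegers.coe_injective ?_
    have : (D : K) ^ 2 * dq (i + 1) = dq i * tq i ^ 2 := h1 i
    exact this
  · intro i
    refine RingOfIntegers.coe_injective ?_
    have : 2 * (D : K) * tq (i + 1) = tq i ^ 2 + dq i + 4 * (B : K) := h2 i
    exact this
  · intro i
    have q1 := hsq i
    have q2 := hZr i
    have q3 : 2 * algebraMap K L (D : K) * algebraMap K L (tq (i + 1)) =
        algebraMap K L (tq i) ^ 2 + algebraMap K L (dq i) + 4 * algebraMap K L (B : K) :=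
      map_rel (h2 i)
    show algebraMap K L (D : K) * ρ (i + 1) = algebraMap K L (tq i) * ρ i
    simp only [hρ] at q1 ⊢
    have h20 : (2 : L) ≠ 0 := two_ne_zero
    apply mul_left_cancel₀ h20
    linear_combination 4 * q2 - q3 + q1
  · intro i
    show 2 * algebraMap K L (D : K) * orb F z i = ρ i + algebraMap K L (tq i)
    simp only [hρ]
    rw [hZ]
    ring
  · intro i
    exact house_le_of K (by positivity) fun σ => htb σ i
  · intro i
    refine house_le_of K (by positivity) fun σ => ?_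
    let _ : Algebra K ℂ := σ.toAlgebra
    obtain ⟨τ⟩ : Nonempty (L →ₐ[K] ℂ) := by
      rw [← Fintype.card_pos_iff, AlgHom.card, hL]
      norm_num
    have q0 : τ (algebraMap K L (dq i)) = σ (dq i) := τ.commutes (dq i)
    have q1 : τ (ρ i) * τ (ρ i) = σ (dq i) := by
      rw [← map_mul, hsq, q0]
    have q3 : ‖τ (ρ i)‖ ≤ 12 * H := by
      simp only [hρ]
      have q7 : τ (algebraMap K L (tq i)) = σ (tq i) := τ.commutes (tq i)
      rw [map_sub, map_mul, map_ofNat, q7]
      refine (norm_sub_le _ _).trans ?_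
      rw [norm_mul]
      have q4 : ‖τ (Z i : L)‖ ≤ 3 * H := hZH i (τ : L →+* ℂ)
      have q5 := htb σ i
      have q6 : ‖(2 : ℂ)‖ = 2 := by norm_num
      rw [q6]
      linarith
    show ‖σ (dq i)‖ ≤ _
    rw [← q1, norm_mul, sq]
    exact mul_le_mul q3 q3 (norm_nonneg _) (by positivity)
  · intro i j hij
    have : Z i = Z j := by
      refine RingOfIntegers.coe_injective ?_
      show (Z i : L) = (Z j : L)
      rw [hZ, hZ, hij]
    refine RingOfIntegers.coe_injective ?_
    show dq i = dq j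
    simp only [hdq, hM, this]

end Pool.Agent.X12.Nq
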