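import Pool.Agent.X12.Nq6

/-!
# Quadratic polynomials over a number field and all its quadratic extensions: the counts
-/

set_option autoImplicit false

namespace Pool.Agent.X12.Nq

open NumberField Module Polynomial Function IntermediateField
open Pool.Agent.X12.Pg (fr fr_spec fr_pos fr_le fr_dvd quot_dvd)
open Pool.Agent.X12.Nf
open Pool.Agent.X12.Nu (orb_map pre_map period_map)

variable {K : Type} [Field K] [NumberField K]

/-- the finite set of the data -/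
noncomputable def FTR (H : ℝ) (Q : ℕ) : Finset (Σ _ : 𝓞 K × ℕ, 𝓞 K × 𝓞 K × 𝓞 K) :=
  (fs (OS K H \ {0}) ×ˢ Finset.Icc 1 Q).sigma fun x =>
    fs (FU K (6 * H) (Nm K x.1 * x.2)) ×ˢ (fs (FU K (6 * H) (Nm K x.1 * x.2)) ×ˢ
      fs (FU K (6 * H) (Nm K x.1 * x.2)))

/-- the relation of a polynomial with its data -/
def RTR (f : K[X]) (b : Σ _ : 𝓞 K × ℕ, 𝓞 K × 𝓞 K × 𝓞 K) : Prop :=
  b.1.1 ≠ 0 ∧ b.2.1 ^ 2 ≠ b.1.1 ^ 2 ∧ ∃ δ0 δ1 B : 𝓞 K,
    b.1.1 ^ 2 * δ1 = δ0 * b.2.1 ^ 2 ∧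
    2 * b.1.1 * b.2.2.1 = b.2.1 ^ 2 + δ0 + 4 * B ∧
    2 * b.1.1 * b.2.2.2 = b.2.2.1 ^ 2 + δ1 + 4 * B ∧
    f = X ^ 2 + C ((B : K) / (b.1.1 : K) ^ 2)

lemma RTR_unique {f f' : K[X]} {b : Σ _ : 𝓞 K × ℕ, 𝓞 K × 𝓞 K × 𝓞 K} (h : RTR f b)
    (h' : RTR f' b) : f = f' := by
  obtain ⟨hD, hne, δ0, δ1, B, a1, a2, a3, rfl⟩ := h
  obtain ⟨-, -, δ0', δ1', B', c1, c2, c3, rfl⟩ := h'
  have hne' : b.2.1 ^ 2 - b.1.1 ^ 2 ≠ 0 := sub_ne_zero.2 hne
  have h1 : δ0 = δ0' := by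
    apply mul_right_cancel₀ hne'
    linear_combination -a1 + c1 + b.1.1 ^ 2 * (-a3 + a2 + c3 - c2)
  have h2 : 4 * B = 4 * B' := by linear_combination c2 - a2 - h1
  have h40 : (4 : 𝓞 K) ≠ 0 := by norm_num
  have h3 : B = B' := mul_left_cancel₀ h40 h2
  rw [h3]

variable {L : Type} [Field L] [NumberField L] [Algebra K L]

section sq

variable {H : ℝ} {D B : 𝓞 K} {w : ℕ → L} {t δ : ℕ → 𝓞 K} {ρ : ℕ → L}

lemma SqR.abs (h : SqR H D B w t δ ρ) (i : ℕ) :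
    Nm K D ^ 2 * Nm K (δ (i + 1)) = Nm K (δ i) * Nm K (t i) ^ 2 := by
  rw [← Nm_pow, ← Nm_pow, ← Nm_mul, ← Nm_mul, h.h1 i]

lemma SqR.chain (h : SqR H D B w t δ ρ) {m : ℕ} (hm : ∀ i ≤ m, δ i ≠ 0) :
    ∀ i ≤ m, ∀ j ≤ i, fr (Nm K D) (Nm K (δ j)) ∣ fr (Nm K D) (Nm K (δ i)) := by
  intro i
  induction i with
  | zero =>
    intro _ j hj
    have : j = 0 := by omega
    rw [this]
  | succ i ih =>
    intro hi j hj
    rcases Nat.lt_or_ge j (i + 1) with h3 | h3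
    · refine (ih (by omega) j (by omega)).trans ?_
      refine fr_dvd (k := 2) (Nm_pos (hm i (by omega))) (Nm_pos (hm (i + 1) hi)) ?_
      rw [h.abs]
      exact Dvd.intro _ rfl
    · have : j = i + 1 := by omega
      rw [this]

lemma SqR.window (h : SqR H D B w t δ ρ) (hD : D ≠ 0) {i0 q : ℕ} (hq : 1 ≤ q)
    (hm : ∀ i ≤ i0 + 4, δ i ≠ 0)
    (hfr : fr (Nm K D) (Nm K (δ (i0 + 4))) ∣ fr (Nm K D) (Nm K (δ i0)) * q) :
    ∀ j < 4, t (i0 + j) ∈ FU K (6 * H) (Nm K D * q) := by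
  intro j hj
  have hpos : ∀ i ≤ i0 + 4, 1 ≤ Nm K (δ i) := fun i hi => Nm_pos (hm i hi)
  have hch := h.chain hm
  have h1 : Nm K (t (i0 + j)) ^ 2 ∣ Nm K D ^ (2 + Nm K (δ (i0 + j + 1))) * q := by
    refine quot_dvd (s := Nm K (δ (i0 + j))) (t := Nm K (δ (i0 + j + 1)))
      (hpos _ (by omega)) (hpos _ (by omega)) ?_ ?_
    · rw [h.abs, mul_comm]
    · refine (hch (i0 + 4) le_rfl (i0 + j + 1) (by omega)).trans (hfr.trans ?_)
      exact Nat.mul_dvd_mul (hch (i0 + j) (by omega) i0 (by omega)) dvd_rfl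
  have ht0 : t (i0 + j) ≠ 0 := by
    intro h0
    have h2 := h.h1 (i0 + j)
    rw [h0] at h2
    have h3 : D ^ 2 * δ (i0 + j + 1) = 0 := by
      rw [h2]
      ring
    rcases mul_eq_zero.1 h3 with h4 | h4
    · exact hD (pow_eq_zero_iff (two_ne_zero) |>.1 h4)
    · exact hm _ (by omega) h4
  refine ⟨ht0, h.ht _, ?_⟩
  intro p hp
  have hpp := Nat.prime_of_mem_primeFactors hp
  have h2 : p ∣ Nm K D ^ (2 + Nm K (δ (i0 + j + 1))) * q :=
    ((Nat.dvd_of_mem_primeFactors hp).trans (dvd_pow_self _ two_ne_zero)).trans h1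
  rw [Nat.mem_primeFactors]
  refine ⟨hpp, ?_, (Nat.mul_pos (Nm_pos hD) hq).ne'⟩
  rcases (Nat.Prime.dvd_mul hpp).1 h2 with h3 | h3
  · exact (hpp.dvd_of_dvd_pow h3).mul_right _
  · exact h3.mul_left _

lemma SqR.nondeg (h : SqR H D B w t δ ρ) (hD : D ≠ 0) {i : ℕ} (h12 : w (i + 1) ≠ w (i + 2))
    (h13 : w (i + 1) ≠ w (i + 3)) : t i ^ 2 ≠ D ^ 2 ∨ t (i + 1) ^ 2 ≠ D ^ 2 := by
  by_contra hcon
  push Not at hcon
  obtain ⟨c1, c2⟩ := hcon
  have hDK : (D : K) ≠ 0 := RingOfIntegers.coe_ne_zero_iff.2 hD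
  have hDL : algebraMap K L (D : K) ≠ 0 := by
    rw [Ne, map_eq_zero]
    exact hDK
  have hD2 : D ^ 2 ≠ 0 := pow_ne_zero _ hD
  have h2D : 2 * D ≠ 0 := mul_ne_zero two_ne_zero hD
  have h2DL : 2 * algebraMap K L (D : K) ≠ 0 := mul_ne_zero two_ne_zero hDL
  have d1 : δ (i + 1) = δ i := by
    apply mul_left_cancel₀ hD2
    rw [h.h1, c1]
    ring
  have d2 : δ (i + 2) = δ (i + 1) := by
    apply mul_left_cancel₀ hD2
    rw [h.h1 (i + 1), c2]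
    ring
  have t2 : t (i + 2) = t (i + 1) := by
    apply mul_left_cancel₀ h2D
    rw [h.h2 (i + 1), h.h2 i, c1, c2, d1]
  have t3 : t (i + 3) = t (i + 1) := by
    apply mul_left_cancel₀ h2D
    rw [h.h2 (i + 2), h.h2 i, t2, c1, c2, d2, d1]
  rcases sq_eq_sq_iff_eq_or_eq_neg.1 c2 with c3 | c3
  · have r2 : ρ (i + 2) = ρ (i + 1) := by
      apply mul_left_cancel₀ hDL
      rw [h.hr (i + 1), c3]
    apply h12
    apply mul_left_cancel₀ h2DL
    rw [h.hw (i + 1), h.hw (i + 2), r2, t2]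
  · have eneg : ((-D : 𝓞 K) : K) = -(D : K) := map_neg (algebraMap (𝓞 K) K) D
    have r2 : ρ (i + 2) = -ρ (i + 1) := by
      apply mul_left_cancel₀ hDL
      rw [h.hr (i + 1), c3, eneg, map_neg]
      ring
    have r3 : ρ (i + 3) = ρ (i + 1) := by
      apply mul_left_cancel₀ hDL
      rw [h.hr (i + 2), t2, c3, r2, eneg, map_neg]
      ring
    apply h13
    apply mul_left_cancel₀ h2DL
    rw [h.hw (i + 1), h.hw (i + 3), r3, t3]

lemma SqR.data (h : SqR H D B w t δ ρ) (hH : 1 ≤ H) (hD : D ≠ 0) (hDH : house (D : K) ≤ H)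
    {f : K[X]} (hf : f = X ^ 2 + C ((B : K) / (D : K) ^ 2)) {i0 q Q : ℕ} (hq : 1 ≤ q)
    (hqQ : q ≤ Q) (hm : ∀ i ≤ i0 + 4, δ i ≠ 0)
    (hfr : fr (Nm K D) (Nm K (δ (i0 + 4))) ∣ fr (Nm K D) (Nm K (δ i0)) * q)
    (h12 : w (i0 + 1) ≠ w (i0 + 2)) (h13 : w (i0 + 1) ≠ w (i0 + 3)) :
    ∃ b ∈ FTR H Q, RTR f b := by
  have hw := h.window hD hq hm hfr
  have hfin := fu_fin K (Y := 6 * H) (by linarith) (n := Nm K D * q)
    (Nat.mul_pos (Nm_pos hD) hq)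
  have hDmem : D ∈ OS K H \ {0} := ⟨hDH, hD⟩
  rcases h.nondeg hD h12 h13 with hn | hn
  · refine ⟨⟨(D, q), (t i0, t (i0 + 1), t (i0 + 2))⟩, ?_, hD, hn, δ i0, δ (i0 + 1), B, h.h1 i0,
      h.h2 i0, h.h2 (i0 + 1), hf⟩
    unfold FTR
    rw [Finset.mem_sigma, Finset.mem_product, Finset.mem_Icc, mem_fs (os_fin K hH),
      Finset.mem_product, Finset.mem_product, mem_fs hfin, mem_fs hfin, mem_fs hfin]
    exact ⟨⟨hDmem, hq, hqQ⟩, hw 0 (by norm_num), hw 1 (by norm_num), hw 2 (by norm_num)⟩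
  · refine ⟨⟨(D, q), (t (i0 + 1), t (i0 + 2), t (i0 + 3))⟩, ?_, hD, hn, δ (i0 + 1), δ (i0 + 2), B,
      h.h1 (i0 + 1), h.h2 (i0 + 1), h.h2 (i0 + 2), hf⟩
    unfold FTR
    rw [Finset.mem_sigma, Finset.mem_product, Finset.mem_Icc, mem_fs (os_fin K hH),
      Finset.mem_product, Finset.mem_product, mem_fs hfin, mem_fs hfin, mem_fs hfin]
    exact ⟨⟨hDmem, hq, hqQ⟩, hw 1 (by norm_num), hw 2 (by norm_num), hw 3 (by norm_num)⟩

lemma SqR.rat (h : SqR H D B w t δ ρ) (hD : D ≠ 0) {i : ℕ} (h0 : δ i = 0) :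
    ∃ x : K, algebraMap K L x = w i := by
  have h1 := h.hsq i
  rw [h0, vzero, map_zero] at h1
  have h2 : ρ i = 0 := mul_self_eq_zero.1 h1
  have h3 := h.hw i
  rw [h2, zero_add] at h3
  have hDK : (D : K) ≠ 0 := RingOfIntegers.coe_ne_zero_iff.2 hD
  have hDL : algebraMap K L (D : K) ≠ 0 := by
    rw [Ne, map_eq_zero]
    exact hDK
  refine ⟨(t i : K) / (2 * (D : K)), ?_⟩
  rw [map_div₀, map_mul, map_ofNat, ← h3]
  field_simp

end sq

/-- cycles -/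
theorem cyc_splitR {H : ℝ} (hH : 1 ≤ H) {f : K[X]} (hf : f ∈ Fam 2 (1 : 𝓞 K) H)
    (hL : finrank K L = 2) {z : L}
    (hz : 2 < minimalPeriod (fun x => (f.map (algebraMap K L)).eval x) z) :
    (∃ y : K, 2 < minimalPeriod (fun x => f.eval x) y) ∨ ∃ b ∈ FTR H 1, RTR f b := by
  set F := f.map (algebraMap K L) with hF
  set g : L → L := fun x => F.eval x with hg
  have hper : z ∈ periodicPts g := minimalPeriod_pos_iff_mem_periodicPts.1 (by omega)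
  have hpre : z ∈ Pre F := pre_of_periodic hper
  obtain ⟨D, B, hD, hDH, hfeq, t, δ, ρ, hsq⟩ := exists_sqR hL hH hf hpre
  by_cases h0 : ∃ i, δ i = 0
  · left
    obtain ⟨i, hi⟩ := h0
    obtain ⟨x, hx⟩ := hsq.rat hD hi
    refine ⟨x, ?_⟩
    rw [← period_map (algebraMap K L), hx]
    show 2 < minimalPeriod g (g^[i] z)
    rw [minimalPeriod_apply_iterate hper]
    exact hz
  · right
    push Not at h0
    set N := minimalPeriod g z with hN
    have hwN : orb F z (4 * N) = orb F z 0 := by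
      have h3 : IsPeriodicPt g (4 * N) z := (isPeriodicPt_minimalPeriod g z).const_mul 4
      exact h3
    have hδN := hsq.hper _ _ hwN
    have hper1 : minimalPeriod g (g^[1] z) = N := minimalPeriod_apply_iterate hper 1
    refine hsq.data hH hD hDH hfeq (i0 := 0) (q := 1) le_rfl le_rfl (fun i _ => h0 i) ?_ ?_ ?_
    · rw [mul_one, ← hδN]
      exact hsq.chain (m := 4 * N) (fun i _ => h0 i) (4 * N) le_rfl (0 + 4) (by omega)
    · intro h3
      have h4 : IsPeriodicPt g 1 (g^[1] z) := by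
        show g^[1] (g^[1] z) = g^[1] z
        exact h3.symm
      have := h4.minimalPeriod_le one_pos
      omega
    · intro h3
      have h4 : IsPeriodicPt g 2 (g^[1] z) := by
        show g^[2] (g^[1] z) = g^[1] z
        exact h3.symm
      have := h4.minimalPeriod_le two_pos
      omega

/-- long orbits -/
theorem orb_splitR {H : ℝ} (hH : 1 ≤ H) {κ : ℕ} (hκ : 1 ≤ κ) {f : K[X]}
    (hf : f ∈ Fam 2 (1 : 𝓞 K) H) (hL : finrank K L = 2) {z : L}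
    (hz : z ∈ Pre (f.map (algebraMap K L)))
    (hinj : ∀ i ≤ 6 * κ + 1, ∀ j ≤ 6 * κ + 1, orb (f.map (algebraMap K L)) z i =
      orb (f.map (algebraMap K L)) z j → i = j) :
    (∃ y ∈ Pre f, ∀ i ≤ κ * 2 + 1, ∀ j ≤ κ * 2 + 1, orb f y i = orb f y j → i = j) ∨
    ∃ b ∈ FTR H (QR κ (((12 * H) ^ 2) ^ finrank ℚ K)), RTR f b := by
  set F := f.map (algebraMap K L) with hF
  obtain ⟨D, B, hD, hDH, hfeq, t, δ, ρ, hsq⟩ := exists_sqR hL hH hf hz
  by_cases h0 : ∃ i ≤ 4 * κ, δ i = 0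
  · left
    obtain ⟨i, hi, hi0⟩ := h0
    obtain ⟨x, hx⟩ := hsq.rat hD hi0
    refine ⟨x, ?_, ?_⟩
    · rw [← pre_map (algebraMap K L), hx]
      exact orb_pre hz i
    · intro j1 hj1 j2 hj2 h3
      have h4 := congrArg (algebraMap K L) h3
      rw [← orb_map, ← orb_map, hx] at h4
      have h5 := hinj (i + j1) (by omega) (i + j2) (by omega) (by
        rw [← orb_orb, ← orb_orb]
        exact h4)
      omega
  · right
    push Not at h0
    set X : ℝ := ((12 * H) ^ 2) ^ finrank ℚ K with hX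
    have hX0 : 0 ≤ X := by positivity
    have hpos' : ∀ i ≤ 4 * κ, 1 ≤ Nm K (δ i) := fun i hi => Nm_pos (h0 i hi)
    have hch := hsq.chain h0
    obtain ⟨k, hk, hkn⟩ := pigeon hκ hX0 (n := fun i => fr (Nm K D) (Nm K (δ i))) 4
      (fr_pos (hpos' 0 (by omega)))
      (fun k hk => hch _ (by omega) _ (by omega)) (by
        have h3 : fr (Nm K D) (Nm K (δ (κ * 4))) ≤ Nm K (δ (κ * 4)) := fr_le (hpos' _ (by omega))
        have h4 : ((fr (Nm K D) (Nm K (δ (κ * 4))) : ℕ) : ℝ) ≤ ((Nm K (δ (κ * 4)) : ℕ) : ℝ) := by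
          exact_mod_cast h3
        exact h4.trans (Nm_le (by positivity) (hsq.hd _)))
    obtain ⟨q, hq⟩ := hch (k * 4 + 4) (by omega) (k * 4) (by omega)
    have hp0 := fr_pos (D := Nm K D) (hpos' (k * 4) (by omega))
    have hp1 := fr_pos (D := Nm K D) (hpos' (k * 4 + 4) (by omega))
    have hq1 : 1 ≤ q := by
      rcases Nat.eq_zero_or_pos q with h | h
      · rw [h, mul_zero] at hq
        omega
      · exact h
    have hqQ : q ≤ QR κ X := by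
      have h3 : fr (Nm K D) (Nm K (δ (k * 4 + 4))) ≤ QR κ X * fr (Nm K D) (Nm K (δ (k * 4))) := hkn
      rw [hq, mul_comm (QR κ X)] at h3
      exact Nat.le_of_mul_le_mul_left h3 hp0
    refine hsq.data hH hD hDH hfeq (i0 := k * 4) hq1 hqQ (fun i hi => h0 i (by omega)) ?_ ?_ ?_
    · rw [hq]
    · intro h3
      have := hinj (k * 4 + 1) (by omega) (k * 4 + 2) (by omega) h3
      omega
    · intro h3
      have := hinj (k * 4 + 1) (by omega) (k * 4 + 3) (by omega) h3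
      omega

theorem badtr_card {H : ℝ} {Q : ℕ} {S : Set K[X]} (hS : ∀ f ∈ S, ∃ b ∈ FTR H Q, RTR f b) :
    S.Finite ∧ S.ncard ≤ (FTR (K := K) H Q).card := by
  obtain ⟨h1, h2⟩ := card_of_fibre (S := S) 2 le_rfl (FTR (K := K) H Q) RTR hS
    (fun f f' b h h' => by
      refine ⟨1, one_ne_zero, one_pow _, ?_⟩
      rw [RTR_unique h h']
      simp)
  refine ⟨h1, h2.trans (le_of_eq ?_)⟩
  norm_num

variable (K) in
theorem FTR_card (ε : ℝ) (hε : 0 < ε) : ∃ C : ℝ, 0 < C ∧ ∀ (H : ℝ) (Q : ℕ), 1 ≤ H →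
    (Q : ℝ) ≤ ((12 * H) ^ 2) ^ finrank ℚ K →
    ((FTR (K := K) H Q).card : ℝ) ≤ C * H ^ ((finrank ℚ K : ℝ) + ε) * Q := by
  classical
  set r := finrank ℚ K with hr
  have hr1 : 1 ≤ r := finrank_pos
  set P : ℕ := 1 + (r + 2 * r) with hP
  have hP0 : (0 : ℝ) < P := by exact_mod_cast (by omega : 0 < P)
  set η := ε / (3 * P) with hη
  have hη0 : 0 < η := by positivity
  obtain ⟨C0, hC0, hFU⟩ := FU_card K η hη0
  obtain ⟨C1, hC1, hOS⟩ := OS_card K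
  refine ⟨C1 * (C0 ^ 3 * (12 : ℝ) ^ ε), by positivity, fun H Q hH hQ => ?_⟩
  have hH0 : 0 < H := by linarith
  set W : ℝ := 12 * H with hW
  have hW1 : 1 ≤ W := by rw [hW]; linarith
  have hW0 : 0 < W := by linarith
  set V : ℝ := (W ^ P) ^ η with hV
  have hV0 : 0 < V := by positivity
  have hN : ∀ (D : 𝓞 K) (q : ℕ), D ∈ OS K H \ {0} → 1 ≤ q → q ≤ Q →
      ((fs (FU K (6 * H) (Nm K D * q))).card : ℝ) ≤ C0 * V := by
    intro D q hD hq1 hq
    have hN1 : 1 ≤ Nm K D * q := Nat.mul_pos (Nm_pos hD.2) hq1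
    obtain ⟨h1, h2⟩ := hFU (6 * H) (Nm K D * q) (by linarith) hN1
    rw [card_fs h1]
    refine h2.trans ?_
    rw [mul_assoc, ← Real.mul_rpow (by linarith) (Nat.cast_nonneg _)]
    refine mul_le_mul_of_nonneg_left ?_ hC0.le
    refine Real.rpow_le_rpow (mul_nonneg (by linarith) (Nat.cast_nonneg _)) ?_ hη0.le
    rw [hP, pow_add, pow_one]
    refine mul_le_mul (by rw [hW]; linarith) ?_ (Nat.cast_nonneg _) hW0.le
    push_cast
    rw [pow_add]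
    refine mul_le_mul ?_ ?_ (Nat.cast_nonneg _) (by positivity)
    · have h3 : house (D : K) ≤ W := by
        have : house (D : K) ≤ H := hD.1
        rw [hW]
        linarith
      exact Nm_le hW0.le h3
    · have h3 : (q : ℝ) ≤ Q := by exact_mod_cast hq
      rw [pow_mul]
      exact h3.trans hQ
  have hos : ((fs (OS K H \ {0})).card : ℝ) ≤ C1 * H ^ r := by
    rw [card_fs (os_fin K hH)]
    refine le_trans ?_ (hOS H hH).2
    exact_mod_cast Set.ncard_le_ncard Set.sdiff_subset (hOS H hH).1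
  have hcard : ((FTR (K := K) H Q).card : ℝ) ≤
      ((fs (OS K H \ {0})).card * Q : ℝ) * (C0 * V) ^ 3 := by
    unfold FTR
    rw [Finset.card_sigma]
    push_cast
    have h1 : ∀ x ∈ fs (OS K H \ {0}) ×ˢ Finset.Icc 1 Q,
        (((fs (FU K (6 * H) (Nm K x.1 * x.2)) ×ˢ (fs (FU K (6 * H) (Nm K x.1 * x.2)) ×ˢ
          fs (FU K (6 * H) (Nm K x.1 * x.2)))).card : ℕ) : ℝ) ≤ (C0 * V) ^ 3 := by
      intro x hx
      rw [Finset.mem_product, Finset.mem_Icc, mem_fs (os_fin K hH)] at hx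
      obtain ⟨a1, a3, a4⟩ := hx
      have h2 := hN x.1 x.2 a1 a3 a4
      rw [Finset.card_product, Finset.card_product]
      push_cast
      have h3 : (0 : ℝ) ≤ ((fs (FU K (6 * H) (Nm K x.1 * x.2))).card : ℝ) := Nat.cast_nonneg _
      calc ((fs (FU K (6 * H) (Nm K x.1 * x.2))).card : ℝ) *
            (((fs (FU K (6 * H) (Nm K x.1 * x.2))).card : ℝ) *
            ((fs (FU K (6 * H) (Nm K x.1 * x.2))).card : ℝ)) =
            ((fs (FU K (6 * H) (Nm K x.1 * x.2))).card : ℝ) ^ 3 := by ring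
        _ ≤ _ := pow_le_pow_left₀ h3 h2 3
    refine (Finset.sum_le_card_nsmul _ _ _ h1).trans (le_of_eq ?_)
    rw [Finset.card_product, Nat.card_Icc, nsmul_eq_mul]
    push_cast
    simp
  refine hcard.trans ?_
  have e3 : V ^ 3 = (12 : ℝ) ^ ε * H ^ ε := by
    rw [hV, ← Real.rpow_natCast, ← Real.rpow_mul (by positivity), ← Real.rpow_natCast W P,
      ← Real.rpow_mul hW0.le, ← Real.mul_rpow (by norm_num) hH0.le]
    congr 1
    rw [hη]
    push_cast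
    field_simp
  rw [Real.rpow_add hH0, Real.rpow_natCast]
  calc ((fs (OS K H \ {0})).card * Q : ℝ) * (C0 * V) ^ 3 ≤
        (C1 * H ^ r * Q : ℝ) * (C0 * V) ^ 3 := by
        refine mul_le_mul_of_nonneg_right ?_ (by positivity)
        exact mul_le_mul_of_nonneg_right hos (Nat.cast_nonneg _)
    _ = C1 * C0 ^ 3 * H ^ r * Q * V ^ 3 := by ring
    _ = _ := by
      rw [e3]
      ring

variable (K) in
/-- cycles of quadratic polynomials over all quadratic extensions -/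
theorem cyc_countR (ε : ℝ) (hε : 0 < ε) : ∃ C : ℝ, 0 < C ∧ ∀ H : ℝ, 1 ≤ H → ∀ S : Set K[X],
    (∀ f ∈ S, f ∈ Fam 2 (1 : 𝓞 K) H ∧ ∃ (L : Type) (_ : Field L) (_ : NumberField L)
      (_ : Algebra K L), finrank K L = 2 ∧
      ∃ z : L, 2 < minimalPeriod (fun x => (f.map (algebraMap K L)).eval x) z) →
    (S.ncard : ℝ) ≤ C * H ^ ((finrank ℚ K : ℝ) + ε) := by
  obtain ⟨C1, hC1, h1⟩ := cyc_count K (d := 2) le_rfl 0 ε hε
  obtain ⟨C2, hC2, h2⟩ := FTR_card K ε hε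
  refine ⟨C1 + C2, by positivity, fun H hH S hS => ?_⟩
  set S1 : Set K[X] := {f | f ∈ Fam 2 (1 : 𝓞 K) H ∧ ∃ z : K, 2 < minimalPeriod (fun x => f.eval x) z}
    with hS1
  set S2 : Set K[X] := {f | f ∈ S ∧ ∃ b ∈ FTR H 1, RTR f b} with hS2
  obtain ⟨hS2f, h4⟩ := badtr_card (H := H) (Q := 1) (S := S2) fun f hf => hf.2
  obtain ⟨C3, -, hfu⟩ := fam_upper K (d := 2) le_rfl
  have hS1f : S1.Finite := (hfu H 1 hH).1.subset fun f hf => hf.1
  have hsub : S ⊆ S1 ∪ S2 := by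
    intro f hf
    obtain ⟨hF, L, i1, i2, i3, hL, z, hz⟩ := hS f hf
    rcases cyc_splitR hH hF hL hz with h | h
    · exact Or.inl ⟨hF, h⟩
    · exact Or.inr ⟨hf, h⟩
  have h3 := h1 H 1 hH one_ne_zero (by
    rw [pow_zero]
    have h3 := Pool.Agent.X12.Nu.house_int (K := K) 1
    rw [Int.cast_one] at h3
    rw [h3]
    simp)
  have h5 := h2 H 1 hH (by
    rw [Nat.cast_one]
    exact one_le_pow₀ (one_le_pow₀ (by linarith)))
  have h6 : (S.ncard : ℝ) ≤ (S1.ncard : ℝ) + (S2.ncard : ℝ) := by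
    have := (Set.ncard_le_ncard hsub (hS1f.union hS2f)).trans (Set.ncard_union_le S1 S2)
    exact_mod_cast this
  have h8 : (S2.ncard : ℝ) ≤ ((FTR (K := K) H 1).card : ℝ) := by exact_mod_cast h4
  rw [Nat.cast_one, mul_one] at h5
  calc (S.ncard : ℝ) ≤ (S1.ncard : ℝ) + (S2.ncard : ℝ) := h6
    _ ≤ C1 * H ^ ((finrank ℚ K : ℝ) + ε) + C2 * H ^ ((finrank ℚ K : ℝ) + ε) :=
      add_le_add h3 (h8.trans h5)
    _ = _ := by ring

variable (K) in
/-- long orbits of quadratic polynomials over all quadratic extensions -/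
theorem long_countR {κ : ℕ} (hκ : 1 ≤ κ) (ε : ℝ) (hε : 0 < ε) : ∃ C : ℝ, 0 < C ∧
    ∀ H : ℝ, 1 ≤ H → ∀ S : Set K[X],
    (∀ f ∈ S, f ∈ Fam 2 (1 : 𝓞 K) H ∧ ∃ (L : Type) (_ : Field L) (_ : NumberField L)
      (_ : Algebra K L), finrank K L = 2 ∧
      ∃ z ∈ Pre (f.map (algebraMap K L)), ∀ i ≤ 6 * κ + 1, ∀ j ≤ 6 * κ + 1,
        orb (f.map (algebraMap K L)) z i = orb (f.map (algebraMap K L)) z j → i = j) →
    (S.ncard : ℝ) ≤ C * H ^ ((finrank ℚ K : ℝ) * (1 + 2 / (κ : ℝ)) + ε) := by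
  obtain ⟨C1, hC1, h1⟩ := long_count K (d := 2) le_rfl 0 hκ ε hε
  obtain ⟨C2, hC2, h2⟩ := FTR_card K ε hε
  have hκ0 : (0 : ℝ) < κ := by exact_mod_cast hκ
  set r := finrank ℚ K with hr
  refine ⟨C1 + C2 * (((12 : ℝ) ^ 2) ^ r) ^ (1 / (κ : ℝ)), by positivity, fun H hH S hS => ?_⟩
  have hH0 : 0 < H := by linarith
  set X : ℝ := ((12 * H) ^ 2) ^ r with hX
  have hX1 : 1 ≤ X := one_le_pow₀ (one_le_pow₀ (by linarith))
  set S1 : Set K[X] := {f | f ∈ Fam 2 (1 : 𝓞 K) H ∧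
    ∃ y ∈ Pre f, ∀ i ≤ κ * 2 + 1, ∀ j ≤ κ * 2 + 1, orb f y i = orb f y j → i = j} with hS1
  set S2 : Set K[X] := {f | f ∈ S ∧ ∃ b ∈ FTR H (QR κ X), RTR f b} with hS2
  obtain ⟨hS2f, h4⟩ := badtr_card (H := H) (Q := QR κ X) (S := S2) fun f hf => hf.2
  obtain ⟨C3, -, hfu⟩ := fam_upper K (d := 2) le_rfl
  have hS1f : S1.Finite := (hfu H 1 hH).1.subset fun f hf => hf.1
  have hsub : S ⊆ S1 ∪ S2 := by
    intro f hf
    obtain ⟨hF, L, i1, i2, i3, hL, z, hz, hz2⟩ := hS f hf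
    rcases orb_splitR hH hκ hF hL hz hz2 with h | h
    · exact Or.inl ⟨hF, h⟩
    · exact Or.inr ⟨hf, h⟩
  have h3 := h1 H 1 hH one_ne_zero (by
    rw [pow_zero]
    have h3 := Pool.Agent.X12.Nu.house_int (K := K) 1
    rw [Int.cast_one] at h3
    rw [h3]
    simp) S1 (fun f hf => hf)
  obtain ⟨q1, q2⟩ := QR_le hκ hX1
  have h5 := h2 H (QR κ X) hH q1
  have h6 : (S.ncard : ℝ) ≤ (S1.ncard : ℝ) + (S2.ncard : ℝ) := by
    have := (Set.ncard_le_ncard hsub (hS1f.union hS2f)).trans (Set.ncard_union_le S1 S2)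
    exact_mod_cast this
  have h7 : H ^ ((r : ℝ) * (1 + (((0 : ℕ) : ℝ) + 1) / (κ : ℝ)) + ε) ≤
      H ^ ((r : ℝ) * (1 + 2 / (κ : ℝ)) + ε) := by
    refine Real.rpow_le_rpow_of_exponent_le hH ?_
    have h9 : (((0 : ℕ) : ℝ) + 1) / κ ≤ 2 / κ := div_le_div_of_nonneg_right (by norm_num) hκ0.le
    have h10 : (0 : ℝ) ≤ r := Nat.cast_nonneg r
    have h11 := mul_le_mul_of_nonneg_left h9 h10
    linarith
  have h8 : (S2.ncard : ℝ) ≤ ((FTR (K := K) H (QR κ X)).card : ℝ) := by exact_mod_cast h4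
  have h10 : X ^ (1 / (κ : ℝ)) =
      (((12 : ℝ) ^ 2) ^ r) ^ (1 / (κ : ℝ)) * H ^ ((r : ℝ) * (2 / (κ : ℝ))) := by
    rw [hX, mul_pow, mul_pow, Real.mul_rpow (by positivity) (by positivity), ← pow_mul H,
      ← Real.rpow_natCast H, ← Real.rpow_mul hH0.le]
    congr 2
    push_cast
    ring
  have h11 : C2 * H ^ ((r : ℝ) + ε) * (QR κ X : ℝ) ≤
      C2 * (((12 : ℝ) ^ 2) ^ r) ^ (1 / (κ : ℝ)) * H ^ ((r : ℝ) * (1 + 2 / (κ : ℝ)) + ε) := by
    calc C2 * H ^ ((r : ℝ) + ε) * (QR κ X : ℝ) ≤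
          C2 * H ^ ((r : ℝ) + ε) * X ^ (1 / (κ : ℝ)) :=
          mul_le_mul_of_nonneg_left q2 (by positivity)
      _ = _ := by
        have e : H ^ ((r : ℝ) * (1 + 2 / (κ : ℝ)) + ε) =
            H ^ ((r : ℝ) + ε) * H ^ ((r : ℝ) * (2 / (κ : ℝ))) := by
          rw [← Real.rpow_add hH0]
          congr 1
          ring
        rw [e, h10]
        ring
  calc (S.ncard : ℝ) ≤ (S1.ncard : ℝ) + (S2.ncard : ℝ) := h6
    _ ≤ C1 * H ^ ((r : ℝ) * (1 + 2 / (κ : ℝ)) + ε) +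
        C2 * (((12 : ℝ) ^ 2) ^ r) ^ (1 / (κ : ℝ)) * H ^ ((r : ℝ) * (1 + 2 / (κ : ℝ)) + ε) :=
      add_le_add (h3.trans (mul_le_mul_of_nonneg_left h7 hC1.le)) (h8.trans (h5.trans h11))
    _ = _ := by ring

end Pool.Agent.X12.Nq
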