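import Pool.Agent.X12.Nf10

/-!
# Algebraic integers of bounded degree and bounded house
-/

set_option autoImplicit false

namespace Pool.Agent.X12.Nu

open NumberField Module Polynomial Function

/-- the algebraic integers of degree at most `n` all of whose conjugates are at most `X` -/
def AI (n : ℕ) (X : ℝ) : Set ℂ := {x | IsIntegral ℤ x ∧ (minpoly ℚ x).natDegree ≤ n ∧
  ∀ y : ℂ, aeval y (minpoly ℚ x) = 0 → ‖y‖ ≤ X}

lemma mem_AI {K : Type} [Field K] [NumberField K] {n : ℕ} (hn : finrank ℚ K ≤ n) {X : ℝ}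
    {w : 𝓞 K} (h : house (w : K) ≤ X) (σ : K →+* ℂ) : σ (w : K) ∈ AI n X := by
  have hm : minpoly ℚ (σ (w : K)) = minpoly ℚ (w : K) :=
    minpoly.algHom_eq σ.toRatAlgHom σ.injective (w : K)
  refine ⟨?_, ?_, ?_⟩
  · exact (RingOfIntegers.isIntegral_coe w).map (σ : K →+* ℂ).toIntAlgHom
  · rw [hm]
    exact (minpoly.natDegree_le (w : K)).trans hn
  · intro y hy
    rw [hm] at hy
    have hne : minpoly ℚ (w : K) ≠ 0 := minpoly.ne_zero (IsIntegral.of_finite ℚ (w : K))
    have h1 : y ∈ (minpoly ℚ (w : K)).rootSet ℂ := (mem_rootSet).2 ⟨hne, hy⟩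
    rw [← Embeddings.range_eval_eq_rootSet_minpoly K ℂ (w : K)] at h1
    obtain ⟨τ, hτ⟩ := h1
    have h2 : τ (w : K) = y := hτ
    rw [← h2]
    exact (norm_embedding_le_house _ τ).trans h

/-- the monic polynomial with given lower coefficients -/
noncomputable def PC (n : ℕ) (c : Fin n → ℤ) : ℂ[X] :=
  X ^ n + ∑ j : Fin n, C ((c j : ℤ) : ℂ) * X ^ (j : ℕ)

lemma PC_deg (n : ℕ) (c : Fin n → ℤ) :
    (∑ j : Fin n, C ((c j : ℤ) : ℂ) * X ^ (j : ℕ) : ℂ[X]).degree < (n : WithBot ℕ) := by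
  exact Polynomial.degree_sum_fin_lt (fun j => ((c j : ℤ) : ℂ))

lemma PC_monic (n : ℕ) (c : Fin n → ℤ) : (PC n c).Monic := by
  unfold PC
  exact Polynomial.monic_X_pow_add (PC_deg n c)

lemma PC_natDegree (n : ℕ) (c : Fin n → ℤ) : (PC n c).natDegree = n := by
  have h : (PC n c).degree = n := by
    unfold PC
    rw [Polynomial.degree_add_eq_left_of_degree_lt]
    · rw [Polynomial.degree_X_pow]
    · rw [Polynomial.degree_X_pow]
      exact PC_deg n c
  exact Polynomial.natDegree_eq_of_degree_eq_some h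

theorem AI_card (n : ℕ) : ∃ C : ℝ, 0 < C ∧ ∀ X : ℝ, 1 ≤ X → (AI n X).Finite ∧
    ((AI n X).ncard : ℝ) ≤ C * X ^ (n * (n + 1) / 2) := by
  classical
  refine ⟨(n + 1) * (3 * 2 ^ n) ^ n, by positivity, fun X hX => ?_⟩
  have hX0 : 0 < X := by linarith
  set F : Finset (Fin n → ℤ) := Fintype.piFinset fun j : Fin n =>
    Finset.Icc (-⌊2 ^ n * X ^ (n - (j : ℕ))⌋) ⌊2 ^ n * X ^ (n - (j : ℕ))⌋ with hF
  set S : (Fin n → ℤ) → Set ℂ := fun c => {y | (PC n c).eval y = 0} with hS
  have hSfin : ∀ c, (S c).Finite ∧ (S c).ncard ≤ n := by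
    intro c
    have h1 : S c ⊆ ((PC n c).roots.toFinset : Set ℂ) := by
      intro y hy
      rw [Finset.mem_coe, Multiset.mem_toFinset, Polynomial.mem_roots (PC_monic n c).ne_zero]
      exact hy
    refine ⟨(Finset.finite_toSet _).subset h1, ?_⟩
    refine (Set.ncard_le_ncard h1 (Finset.finite_toSet _)).trans ?_
    rw [Set.ncard_coe_finset]
    refine (Multiset.toFinset_card_le _).trans ((Polynomial.card_roots' _).trans ?_)
    rw [PC_natDegree]
  have hsub : AI n X ⊆ ⋃ c ∈ F, S c := by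
    rintro x ⟨x1, x2, x3⟩
    set p := minpoly ℤ x with hp
    have hpm : p.Monic := minpoly.monic x1
    have hpQ : minpoly ℚ x = p.map (algebraMap ℤ ℚ) :=
      minpoly.isIntegrallyClosed_eq_field_fractions' ℚ x1
    set k := p.natDegree with hk
    have hkn : k ≤ n := by
      rw [hpQ, hpm.natDegree_map] at x2
      exact x2
    have hroots : ∀ z ∈ (map (algebraMap ℤ ℂ) p).roots, ‖z‖ ≤ X := by
      intro z hz
      refine x3 z ?_
      rw [hpQ]
      have h1 := (Polynomial.mem_roots (hpm.map _).ne_zero).1 hz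
      rw [Polynomial.IsRoot.def, Polynomial.eval_map] at h1
      rw [Polynomial.aeval_def, Polynomial.eval₂_map]
      have e : (algebraMap ℚ ℂ).comp (algebraMap ℤ ℚ) = algebraMap ℤ ℂ := RingHom.ext_int _ _
      rw [e]
      exact h1
    have hco : ∀ i ≤ k, |(p.coeff i : ℝ)| ≤ 2 ^ n * X ^ (k - i) := by
      intro i hi
      have h1 : ‖(map (algebraMap ℚ ℂ) (map (algebraMap ℤ ℚ) p)).coeff i‖ ≤
          X ^ ((map (algebraMap ℤ ℚ) p).natDegree - i) *
            (map (algebraMap ℤ ℚ) p).natDegree.choose i := by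
        refine Polynomial.coeff_le_of_roots_le i (hpm.map _) (IsAlgClosed.splits _) ?_
        intro z hz
        refine hroots z ?_
        rw [Polynomial.map_map] at hz
        have e : (algebraMap ℚ ℂ).comp (algebraMap ℤ ℚ) = algebraMap ℤ ℂ := RingHom.ext_int _ _
        rw [e] at hz
        exact hz
      rw [hpm.natDegree_map, ← hk, Polynomial.coeff_map, Polynomial.coeff_map] at h1
      have h2 : ‖(algebraMap ℚ ℂ) ((algebraMap ℤ ℚ) (p.coeff i))‖ = |(p.coeff i : ℝ)| := by
        simp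
      rw [h2] at h1
      refine h1.trans ?_
      rw [mul_comm]
      refine mul_le_mul_of_nonneg_right ?_ (by positivity)
      have h3 : k.choose i ≤ 2 ^ n :=
        (Nat.choose_le_two_pow k i).trans (Nat.pow_le_pow_right (by norm_num) hkn)
      exact_mod_cast h3
    set q : ℤ[X] := Polynomial.X ^ (n - k) * p with hq
    have hqm : q.Monic := (Polynomial.monic_X_pow _).mul hpm
    have hqd : q.natDegree = n := by
      rw [hq, (Polynomial.monic_X_pow _).natDegree_mul hpm, Polynomial.natDegree_X_pow, ← hk]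
      omega
    rw [Set.mem_iUnion₂]
    refine ⟨fun j => q.coeff j, ?_, ?_⟩
    · rw [hF, Fintype.mem_piFinset]
      intro j
      refine Szp.mem_of_abs_le ?_
      rw [hq, Polynomial.coeff_X_pow_mul']
      split_ifs with hj
      · have hj2 := j.2
        have h1 := hco ((j : ℕ) - (n - k)) (by omega)
        have e : k - ((j : ℕ) - (n - k)) = n - j := by omega
        rw [e] at h1
        exact h1
      · rw [Int.cast_zero, abs_zero]
        positivity
    · show (PC n fun j => q.coeff j).eval x = 0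
      have h1 : PC n (fun j => q.coeff j) = q.map (algebraMap ℤ ℂ) := by
        conv_rhs => rw [hqm.as_sum]
        rw [hqd, Polynomial.map_add, Polynomial.map_pow, Polynomial.map_X, Polynomial.map_sum]
        unfold PC
        congr 1
        rw [← Fin.sum_univ_eq_sum_range (fun i => map (algebraMap ℤ ℂ) (C (q.coeff i) * Polynomial.X ^ i)) n]
        refine Finset.sum_congr rfl fun j _ => ?_
        rw [Polynomial.map_mul, Polynomial.map_C, Polynomial.map_pow, Polynomial.map_X]
        rfl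
      rw [h1, Polynomial.eval_map, ← Polynomial.aeval_def, hq, map_mul, hp, minpoly.aeval, mul_zero]
  have hfin : (⋃ c ∈ F, S c).Finite := Set.Finite.biUnion F.finite_toSet fun c _ => (hSfin c).1
  refine ⟨hfin.subset hsub, ?_⟩
  have h1 : (AI n X).ncard ≤ ∑ c ∈ F, (S c).ncard :=
    (Set.ncard_le_ncard hsub hfin).trans (Finset.set_ncard_biUnion_le F _)
  have h2 : ∑ c ∈ F, (S c).ncard ≤ F.card * n := by
    refine (Finset.sum_le_card_nsmul _ _ _ fun c _ => (hSfin c).2).trans (le_of_eq ?_)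
    rw [smul_eq_mul]
  have h3 : (F.card : ℝ) ≤ (3 * 2 ^ n) ^ n * X ^ (n * (n + 1) / 2) := by
    rw [hF, Fintype.card_piFinset]
    push_cast
    have h4 : ∀ j : Fin n, ((Finset.Icc (-⌊2 ^ n * X ^ (n - (j : ℕ))⌋)
        ⌊2 ^ n * X ^ (n - (j : ℕ))⌋).card : ℝ) ≤ (3 * 2 ^ n) * X ^ (n - (j : ℕ)) := by
      intro j
      set y : ℝ := 2 ^ n * X ^ (n - (j : ℕ)) with hy
      have hy1 : 1 ≤ y := by
        rw [hy]
        have h5 : (1 : ℝ) ≤ 2 ^ n := one_le_pow₀ (by norm_num)
        have h6 : 1 ≤ X ^ (n - (j : ℕ)) := one_le_pow₀ hX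
        nlinarith
      have h0 : 0 ≤ ⌊y⌋ := Int.floor_nonneg.2 (by linarith)
      rw [Int.card_Icc]
      have e1 : (((⌊y⌋ + 1 - -⌊y⌋).toNat : ℤ) : ℝ) = ((2 * ⌊y⌋ + 1 : ℤ) : ℝ) := by
        rw [Int.toNat_of_nonneg (by omega)]
        congr 1
        ring
      have e2 : ((⌊y⌋ + 1 - -⌊y⌋).toNat : ℝ) = ((2 * ⌊y⌋ + 1 : ℤ) : ℝ) := by
        rw [← e1]
        norm_cast
      rw [e2]
      push_cast
      have := Int.floor_le y
      have e3 : 3 * 2 ^ n * X ^ (n - (j : ℕ)) = 3 * y := by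
        rw [hy]
        ring
      rw [e3]
      linarith
    refine (Finset.prod_le_prod (fun _ _ => Nat.cast_nonneg _) fun j _ => h4 j).trans
      (le_of_eq ?_)
    rw [Finset.prod_mul_distrib, Finset.prod_const, Finset.card_univ, Fintype.card_fin,
      Finset.prod_pow_eq_pow_sum]
    congr 2
    have e5 : ∑ j : Fin n, (n - (j : ℕ)) = ∑ j ∈ Finset.range n, (j + 1) := by
      rw [Fin.sum_univ_eq_sum_range (fun i => n - i) n, ← Finset.sum_range_reflect]
      refine Finset.sum_congr rfl fun j hj => ?_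
      have := Finset.mem_range.1 hj
      omega
    rw [e5]
    have e6 : (∑ j ∈ Finset.range n, (j + 1)) * 2 = n * (n + 1) := by
      clear * -
      induction n with
      | zero => rfl
      | succ n ih =>
        rw [Finset.sum_range_succ, add_mul, ih]
        ring
    omega
  have h4 : ((AI n X).ncard : ℝ) ≤ (F.card : ℝ) * n := by exact_mod_cast h1.trans h2
  have h5 : 0 ≤ X ^ (n * (n + 1) / 2) := by positivity
  calc ((AI n X).ncard : ℝ) ≤ (F.card : ℝ) * n := h4
    _ ≤ ((3 * 2 ^ n) ^ n * X ^ (n * (n + 1) / 2)) * (n + 1) :=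
      mul_le_mul h3 (by linarith) (Nat.cast_nonneg _) (by positivity)
    _ = _ := by ring

end Pool.Agent.X12.Nu
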