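import Pool.Agent.X12.Nu1

/-!
# Algebraic integers of bounded degree, house and trace
-/

set_option autoImplicit false

namespace Pool.Agent.X12.Nu

open NumberField Module Polynomial Function

/-- the algebraic integers of degree at most `n` all of whose conjugates are at most `X`, with a
trace of size at most `n` -/
def AT (n : ℕ) (X : ℝ) : Set ℂ := {x | x ∈ AI n X ∧
  |(((minpoly ℚ x).coeff ((minpoly ℚ x).natDegree - 1) : ℚ) : ℝ)| ≤ n}

/-- the exponents -/
def ex (n j : ℕ) : ℕ := if j + 1 = n then 0 else n - j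

lemma sum_ex (n : ℕ) : ∑ j : Fin n, ex n (j : ℕ) = n * (n + 1) / 2 - 1 := by
  rw [Fin.sum_univ_eq_sum_range (fun i => ex n i) n]
  rcases Nat.eq_zero_or_pos n with h | h
  · subst h
    rfl
  obtain ⟨k, rfl⟩ : ∃ k, n = k + 1 := ⟨n - 1, by omega⟩
  rw [Finset.sum_range_succ]
  have e0 : ex (k + 1) k = 0 := by
    unfold ex
    rw [if_pos rfl]
  have e1 : ∑ x ∈ Finset.range k, ex (k + 1) x = ∑ x ∈ Finset.range k, (x + 2) := by
    rw [← Finset.sum_range_reflect]
    refine Finset.sum_congr rfl fun j hj => ?_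
    have := Finset.mem_range.1 hj
    unfold ex
    rw [if_neg (by omega)]
    omega
  rw [e0, e1, add_zero]
  have e6 : (∑ j ∈ Finset.range k, (j + 2)) * 2 + 2 = (k + 1) * (k + 1 + 1) := by
    clear * -
    induction k with
    | zero => rfl
    | succ n ih =>
      rw [Finset.sum_range_succ, add_mul]
      have : (∑ j ∈ Finset.range n, (j + 2)) * 2 = (n + 1) * (n + 1 + 1) - 2 := by omega
      have h2 : 2 ≤ (n + 1) * (n + 1 + 1) := by nlinarith
      rw [this]
      zify [h2]
      ring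
  omega

theorem AT_card (n : ℕ) : ∃ C : ℝ, 0 < C ∧ ∀ X : ℝ, 1 ≤ X → (AT n X).Finite ∧
    ((AT n X).ncard : ℝ) ≤ C * X ^ (n * (n + 1) / 2 - 1) := by
  classical
  refine ⟨(n + 1) * (3 * ((n + 1) * 2 ^ n)) ^ n, by positivity, fun X hX => ?_⟩
  have hX0 : 0 < X := by linarith
  set F : Finset (Fin n → ℤ) := Fintype.piFinset fun j : Fin n =>
    Finset.Icc (-⌊((n : ℝ) + 1) * 2 ^ n * X ^ ex n (j : ℕ)⌋)
      ⌊((n : ℝ) + 1) * 2 ^ n * X ^ ex n (j : ℕ)⌋ with hF
  set S : (Fin n → ℤ) → Set ℂ := fun c => {y | (PC n c).eval y = 0} with hS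
  have hSfin : ∀ c, (S c).Finite ∧ (S c).ncard ≤ n := by
    intro c
    have h1 : S c ⊆ ((PC n c).roots.toFinset : Set ℂ) := by
      intro y hy
      rw [Finset.mem_coe, Multiset.mem_toFinset, Polynomial.mem_roots (PC_monic n c).ne_zero]
      exact hy
    refine ⟨(Finset.finite_toSet _).subset h1, ?_⟩
    refine (Set.ncard_le_ncard h1 (Finset.finite_toSet _)).trans ?_
    rw [Set.ncard_coe_finset]
    refine (Multiset.toFinset_card_le _).trans ((Polynomial.card_roots' _).trans ?_)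
    rw [PC_natDegree]
  have hsub : AT n X ⊆ ⋃ c ∈ F, S c := by
    rintro x ⟨⟨x1, x2, x3⟩, x4⟩
    set p := minpoly ℤ x with hp
    have hpm : p.Monic := minpoly.monic x1
    have hpQ : minpoly ℚ x = p.map (algebraMap ℤ ℚ) :=
      minpoly.isIntegrallyClosed_eq_field_fractions' ℚ x1
    set k := p.natDegree with hk
    have hk1 : 1 ≤ k := minpoly.natDegree_pos x1
    have hkn : k ≤ n := by
      rw [hpQ, hpm.natDegree_map] at x2
      exact x2
    have x5 : |(p.coeff (k - 1) : ℝ)| ≤ n := by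
      rw [hpQ, hpm.natDegree_map, Polynomial.coeff_map] at x4
      simpa using x4
    have hroots : ∀ z ∈ (map (algebraMap ℤ ℂ) p).roots, ‖z‖ ≤ X := by
      intro z hz
      refine x3 z ?_
      rw [hpQ]
      have h1 := (Polynomial.mem_roots (hpm.map _).ne_zero).1 hz
      rw [Polynomial.IsRoot.def, Polynomial.eval_map] at h1
      rw [Polynomial.aeval_def, Polynomial.eval₂_map]
      have e : (algebraMap ℚ ℂ).comp (algebraMap ℤ ℚ) = algebraMap ℤ ℂ := RingHom.ext_int _ _
      rw [e]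
      exact h1
    have hco : ∀ i ≤ k, |(p.coeff i : ℝ)| ≤ 2 ^ n * X ^ (k - i) := by
      intro i hi
      have h1 : ‖(map (algebraMap ℚ ℂ) (map (algebraMap ℤ ℚ) p)).coeff i‖ ≤
          X ^ ((map (algebraMap ℤ ℚ) p).natDegree - i) *
            (map (algebraMap ℤ ℚ) p).natDegree.choose i := by
        refine Polynomial.coeff_le_of_roots_le i (hpm.map _) (IsAlgClosed.splits _) ?_
        intro z hz
        refine hroots z ?_
        rw [Polynomial.map_map] at hz
        have e : (algebraMap ℚ ℂ).comp (algebraMap ℤ ℚ) = algebraMap ℤ ℂ := RingHom.ext_int _ _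
        rw [e] at hz
        exact hz
      rw [hpm.natDegree_map, ← hk, Polynomial.coeff_map, Polynomial.coeff_map] at h1
      have h2 : ‖(algebraMap ℚ ℂ) ((algebraMap ℤ ℚ) (p.coeff i))‖ = |(p.coeff i : ℝ)| := by
        simp
      rw [h2] at h1
      refine h1.trans ?_
      rw [mul_comm]
      refine mul_le_mul_of_nonneg_right ?_ (by positivity)
      have h3 : k.choose i ≤ 2 ^ n :=
        (Nat.choose_le_two_pow k i).trans (Nat.pow_le_pow_right (by norm_num) hkn)
      exact_mod_cast h3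
    set q : ℤ[X] := Polynomial.X ^ (n - k) * p with hq
    have hqm : q.Monic := (Polynomial.monic_X_pow _).mul hpm
    have hqd : q.natDegree = n := by
      rw [hq, (Polynomial.monic_X_pow _).natDegree_mul hpm, Polynomial.natDegree_X_pow, ← hk]
      omega
    have h2n : (1 : ℝ) ≤ 2 ^ n := one_le_pow₀ (by norm_num)
    have hn0 : (0 : ℝ) ≤ n := Nat.cast_nonneg n
    rw [Set.mem_iUnion₂]
    refine ⟨fun j => q.coeff j, ?_, ?_⟩
    · rw [hF, Fintype.mem_piFinset]
      intro j
      refine Szp.mem_of_abs_le ?_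
      rw [hq, Polynomial.coeff_X_pow_mul']
      split_ifs with hj
      · have hj2 := j.2
        by_cases hjn : (j : ℕ) + 1 = n
        · have e : (j : ℕ) - (n - k) = k - 1 := by omega
          unfold ex
          rw [if_pos hjn, e, pow_zero, mul_one]
          nlinarith
        · have h1 := hco ((j : ℕ) - (n - k)) (by omega)
          have e : k - ((j : ℕ) - (n - k)) = n - j := by omega
          rw [e] at h1
          unfold ex
          rw [if_neg hjn]
          refine h1.trans ?_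
          refine mul_le_mul_of_nonneg_right ?_ (by positivity)
          nlinarith
      · rw [Int.cast_zero, abs_zero]
        positivity
    · show (PC n fun j => q.coeff j).eval x = 0
      have h1 : PC n (fun j => q.coeff j) = q.map (algebraMap ℤ ℂ) := by
        conv_rhs => rw [hqm.as_sum]
        rw [hqd, Polynomial.map_add, Polynomial.map_pow, Polynomial.map_X, Polynomial.map_sum]
        unfold PC
        congr 1
        rw [← Fin.sum_univ_eq_sum_range (fun i => map (algebraMap ℤ ℂ) (C (q.coeff i) * Polynomial.X ^ i)) n]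
        refine Finset.sum_congr rfl fun j _ => ?_
        rw [Polynomial.map_mul, Polynomial.map_C, Polynomial.map_pow, Polynomial.map_X]
        rfl
      rw [h1, Polynomial.eval_map, ← Polynomial.aeval_def, hq, map_mul, hp, minpoly.aeval, mul_zero]
  have hfin : (⋃ c ∈ F, S c).Finite := Set.Finite.biUnion F.finite_toSet fun c _ => (hSfin c).1
  refine ⟨hfin.subset hsub, ?_⟩
  have h1 : (AT n X).ncard ≤ ∑ c ∈ F, (S c).ncard :=
    (Set.ncard_le_ncard hsub hfin).trans (Finset.set_ncard_biUnion_le F _)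
  have h2 : ∑ c ∈ F, (S c).ncard ≤ F.card * n := by
    refine (Finset.sum_le_card_nsmul _ _ _ fun c _ => (hSfin c).2).trans (le_of_eq ?_)
    rw [smul_eq_mul]
  have h3 : (F.card : ℝ) ≤ (3 * ((n + 1) * 2 ^ n)) ^ n * X ^ (n * (n + 1) / 2 - 1) := by
    rw [hF, Fintype.card_piFinset]
    push_cast
    have h4 : ∀ j : Fin n, ((Finset.Icc (-⌊((n : ℝ) + 1) * 2 ^ n * X ^ ex n (j : ℕ)⌋)
        ⌊((n : ℝ) + 1) * 2 ^ n * X ^ ex n (j : ℕ)⌋).card : ℝ) ≤
          (3 * (((n : ℝ) + 1) * 2 ^ n)) * X ^ ex n (j : ℕ) := by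
      intro j
      set y : ℝ := ((n : ℝ) + 1) * 2 ^ n * X ^ ex n (j : ℕ) with hy
      have hy1 : 1 ≤ y := by
        rw [hy]
        have h5 : (1 : ℝ) ≤ 2 ^ n := one_le_pow₀ (by norm_num)
        have h6 : 1 ≤ X ^ ex n (j : ℕ) := one_le_pow₀ hX
        have h7 : (0 : ℝ) ≤ n := Nat.cast_nonneg n
        have h8 : (1 : ℝ) ≤ ((n : ℝ) + 1) * 2 ^ n := by nlinarith
        nlinarith
      have h0 : 0 ≤ ⌊y⌋ := Int.floor_nonneg.2 (by linarith)
      rw [Int.card_Icc]
      have e1 : (((⌊y⌋ + 1 - -⌊y⌋).toNat : ℤ) : ℝ) = ((2 * ⌊y⌋ + 1 : ℤ) : ℝ) := by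
        rw [Int.toNat_of_nonneg (by omega)]
        congr 1
        ring
      have e2 : ((⌊y⌋ + 1 - -⌊y⌋).toNat : ℝ) = ((2 * ⌊y⌋ + 1 : ℤ) : ℝ) := by
        rw [← e1]
        norm_cast
      rw [e2]
      push_cast
      have := Int.floor_le y
      have e3 : 3 * (((n : ℝ) + 1) * 2 ^ n) * X ^ ex n (j : ℕ) = 3 * y := by
        rw [hy]
        ring
      rw [e3]
      linarith
    refine (Finset.prod_le_prod (fun _ _ => Nat.cast_nonneg _) fun j _ => h4 j).trans
      (le_of_eq ?_)
    rw [Finset.prod_mul_distrib, Finset.prod_const, Finset.card_univ, Fintype.card_fin,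
      Finset.prod_pow_eq_pow_sum, sum_ex]
  have h4 : ((AT n X).ncard : ℝ) ≤ (F.card : ℝ) * n := by exact_mod_cast h1.trans h2
  have h5 : 0 ≤ X ^ (n * (n + 1) / 2 - 1) := by positivity
  calc ((AT n X).ncard : ℝ) ≤ (F.card : ℝ) * n := h4
    _ ≤ ((3 * ((n + 1) * 2 ^ n)) ^ n * X ^ (n * (n + 1) / 2 - 1)) * (n + 1) :=
      mul_le_mul h3 (by linarith) (Nat.cast_nonneg _) (by positivity)
    _ = _ := by ring

lemma taylor_pred (p : ℚ[X]) (hp : p.Monic) (hk : 1 ≤ p.natDegree) (r : ℚ) :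
    (taylor r p).coeff (p.natDegree - 1) = p.coeff (p.natDegree - 1) + p.natDegree * r := by
  set k := p.natDegree with hkd
  rw [Polynomial.taylor_coeff, Polynomial.eval_eq_sum_range' (n := 2)]
  · rw [Finset.sum_range_succ, Finset.sum_range_one, Polynomial.hasseDeriv_coeff,
      Polynomial.hasseDeriv_coeff]
    have e1 : 0 + (k - 1) = k - 1 := by omega
    have e2 : 1 + (k - 1) = k := by omega
    have e3 : k.choose (k - 1) = k := by
      have := Nat.choose_symm (n := k) (k := 1) (by omega)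
      rw [this, Nat.choose_one_right]
    have e4 : p.coeff k = 1 := hp
    rw [e1, e2, e3, Nat.choose_self, e4]
    push_cast
    ring
  · refine lt_of_le_of_lt (Polynomial.natDegree_hasseDeriv_le _ _) ?_
    omega

/-- the shift by an integer -/
theorem exists_shift {n : ℕ} {X : ℝ} (hX : 1 ≤ X) {Z : ℂ} (hZ : Z ∈ AI n X) :
    ∃ s : ℤ, Z + (s : ℂ) ∈ AT n (3 * X) := by
  obtain ⟨x1, x2, x3⟩ := hZ
  set p := minpoly ℤ Z with hp
  have hpm : p.Monic := minpoly.monic x1
  have hpQ : minpoly ℚ Z = p.map (algebraMap ℤ ℚ) :=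
    minpoly.isIntegrallyClosed_eq_field_fractions' ℚ x1
  set k := p.natDegree with hk
  have hk1 : 1 ≤ k := minpoly.natDegree_pos x1
  have hdQ : (minpoly ℚ Z).natDegree = k := by rw [hpQ, hpm.natDegree_map]
  have hkn : k ≤ n := by rw [← hdQ]; exact x2
  have hmQ : (minpoly ℚ Z).Monic := by rw [hpQ]; exact hpm.map _
  set b : ℤ := p.coeff (k - 1) with hb
  have hbQ : (minpoly ℚ Z).coeff (k - 1) = (b : ℚ) := by
    rw [hpQ, Polynomial.coeff_map]
    rfl
  have hbX : |(b : ℝ)| ≤ k * X := by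
    have h1 : ‖(map (algebraMap ℚ ℂ) (minpoly ℚ Z)).coeff (k - 1)‖ ≤
        X ^ ((minpoly ℚ Z).natDegree - (k - 1)) * (minpoly ℚ Z).natDegree.choose (k - 1) := by
      refine Polynomial.coeff_le_of_roots_le (k - 1) hmQ (IsAlgClosed.splits _) ?_
      intro z hz
      refine x3 z ?_
      have h1 := (Polynomial.mem_roots (hmQ.map _).ne_zero).1 hz
      rw [Polynomial.IsRoot.def, Polynomial.eval_map] at h1
      rw [Polynomial.aeval_def]
      exact h1
    rw [hdQ, Polynomial.coeff_map, hbQ] at h1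
    have e3 : k.choose (k - 1) = k := by
      have := Nat.choose_symm (n := k) (k := 1) (by omega)
      rw [this, Nat.choose_one_right]
    have e4 : k - (k - 1) = 1 := by omega
    rw [e3, e4, pow_one] at h1
    have h2 : ‖(algebraMap ℚ ℂ) (b : ℚ)‖ = |(b : ℝ)| := by
      simp
    rw [h2, mul_comm] at h1
    exact h1
  set s : ℤ := b / k with hs
  have hk0 : (0 : ℤ) < k := by exact_mod_cast hk1
  have hmod : b - k * s = b % k := by
    have := Int.emod_add_mul_ediv b k
    rw [hs]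
    linarith
  have hmod1 := Int.emod_nonneg b hk0.ne'
  have hmod2 := Int.emod_lt_of_pos b hk0
  have hsX : |(s : ℝ)| ≤ 2 * X := by
    have hkR : (0 : ℝ) < k := by exact_mod_cast hk1
    have h1 : (k : ℝ) * s = b - ((b % k : ℤ) : ℝ) := by
      have := congrArg (fun t : ℤ => (t : ℝ)) hmod
      push_cast at this
      linarith
    have h2 : |(k : ℝ) * s| ≤ k * X + k := by
      rw [h1]
      refine (abs_sub _ _).trans ?_
      have h3 : |((b % k : ℤ) : ℝ)| ≤ k := by
        rw [abs_of_nonneg (by exact_mod_cast hmod1)]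
        exact_mod_cast hmod2.le
      linarith
    rw [abs_mul, abs_of_pos hkR] at h2
    have h3 : (k : ℝ) * |(s : ℝ)| ≤ k * (2 * X) := by nlinarith
    exact le_of_mul_le_mul_left h3 hkR
  have hmin : minpoly ℚ (Z + (s : ℂ)) = taylor (-(s : ℚ)) (minpoly ℚ Z) := by
    have h1 := minpoly.add_algebraMap (A := ℚ) Z (s : ℚ)
    have e1 : (algebraMap ℚ ℂ) (s : ℚ) = (s : ℂ) := by simp
    rw [e1] at h1
    rw [h1, Polynomial.taylor_apply, Polynomial.C_neg, sub_eq_add_neg]
  have hmd : (minpoly ℚ (Z + (s : ℂ))).natDegree = k := by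
    rw [hmin, Polynomial.natDegree_taylor, hdQ]
  refine ⟨s, ⟨?_, ?_, ?_⟩, ?_⟩
  · exact x1.add (isIntegral_algebraMap (R := ℤ) (x := s))
  · rw [hmd]
    exact hkn
  · intro y hy
    rw [hmin, Polynomial.taylor_apply, Polynomial.aeval_comp] at hy
    have e1 : (aeval y) (Polynomial.X + Polynomial.C (-(s : ℚ))) = y - (s : ℂ) := by
      simp
      ring
    rw [e1] at hy
    have h1 := x3 _ hy
    have h2 : ‖y‖ ≤ ‖y - (s : ℂ)‖ + ‖(s : ℂ)‖ := by
      have := norm_add_le (y - (s : ℂ)) (s : ℂ)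
      rwa [sub_add_cancel] at this
    have h3 : ‖(s : ℂ)‖ = |(s : ℝ)| := Complex.norm_intCast s
    rw [h3] at h2
    linarith
  · have h1 := taylor_pred (minpoly ℚ Z) hmQ (by rw [hdQ]; exact hk1) (-(s : ℚ))
    rw [hdQ, hbQ] at h1
    rw [hmd, hmin, h1]
    have h2 : ((b : ℚ) + (k : ℚ) * -(s : ℚ)) = ((b % k : ℤ) : ℚ) := by
      rw [← hmod]
      push_cast
      ring
    rw [h2]
    have h3 : (((b % k : ℤ) : ℚ) : ℝ) = ((b % k : ℤ) : ℝ) := by norm_cast
    rw [h3, abs_of_nonneg (by exact_mod_cast hmod1)]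
    have h4 : b % k ≤ (n : ℤ) := by
      have : (k : ℤ) ≤ n := by exact_mod_cast hkn
      omega
    exact_mod_cast h4

end Pool.Agent.X12.Nu
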