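import Pool.Agent.X12.Nu1

/-!
# Counting integers of given norm support, uniformly in the number field
-/

set_option autoImplicit false

namespace Pool.Agent.X12.Nu

open NumberField Module UniqueFactorizationMonoid
open Pool.Agent.X12.Dyn (TS mem_TS TS_card)
open Pool.Agent.X12.Nf

open scoped Classical in
theorem ideal_bound_u (n : ℕ) (ε : ℝ) (hε : 0 < ε) : ∃ C : ℝ, 0 < C ∧
    ∀ (K : Type) [Field K] [NumberField K], finrank ℚ K ≤ n → ∀ J : Ideal (𝓞 K), J ≠ ⊥ →
    ((Finset.Iic (normalizedFactors J)).card : ℝ) ≤ C * (Ideal.absNorm J : ℝ) ^ ε := by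
  set c : ℝ := 1 + 1 / (ε * Real.log 2) with hc
  have hl : 0 < Real.log 2 := Real.log_pos (by norm_num)
  have hc1 : 1 ≤ c := by
    rw [hc]
    have : (0 : ℝ) ≤ 1 / (ε * Real.log 2) := by positivity
    linarith
  set T : ℝ := (2 : ℝ) ^ (1 / ε) with hT
  set W : ℕ := (⌊T⌋₊.factorial) ^ n with hW
  refine ⟨c ^ W, by positivity, fun K _ _ hK J hJ => ?_⟩
  rw [Multiset.card_Iic]
  push_cast
  set s := normalizedFactors J with hs
  set Sm : Finset (Ideal (𝓞 K)) := s.toFinset.filter fun P => Ideal.absNorm P ≤ ⌊T⌋₊ with hSm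
  have hN1 : ∀ P ∈ s.toFinset, 2 ≤ Ideal.absNorm P := by
    intro P hP
    rw [Multiset.mem_toFinset] at hP
    have hprime := prime_of_normalized_factor P hP
    have h1 : Ideal.absNorm P ≠ 0 := by
      rw [Ne, Ideal.absNorm_eq_zero_iff]
      exact hprime.ne_zero
    have h2 : Ideal.absNorm P ≠ 1 := by
      rw [Ne, Ideal.absNorm_eq_one_iff]
      intro h
      exact hprime.not_isUnit (by rw [h, ← Ideal.one_eq_top]; exact isUnit_one)
    omega
  have hN2 : ∀ P ∈ s.toFinset, (2 : ℝ) ≤ (Ideal.absNorm P : ℝ) := by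
    intro P hP
    exact_mod_cast hN1 P hP
  -- the number of small primes
  have hSmcard : Sm.card ≤ W := by
    set Fac : 𝓞 K := ((⌊T⌋₊.factorial : ℕ) : 𝓞 K) with hFac
    have hFac0 : Fac ≠ 0 := by
      rw [hFac]
      exact_mod_cast Nat.factorial_ne_zero _
    have h1 : (∏ P ∈ Sm, P) ∣ Ideal.span {Fac} := by
      refine Finset.prod_primes_dvd _ ?_ ?_
      · intro P hP
        have := (Finset.mem_filter.1 hP).1
        rw [Multiset.mem_toFinset] at this
        exact prime_of_normalized_factor P this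
      · intro P hP
        have h2 := Finset.mem_filter.1 hP
        have h3 := hN1 P h2.1
        rw [Ideal.dvd_span_singleton]
        have h4 : Ideal.absNorm P ∣ ⌊T⌋₊.factorial := Nat.dvd_factorial (by omega) h2.2
        obtain ⟨w, hw⟩ := h4
        rw [hFac, hw, Nat.cast_mul]
        exact Ideal.mul_mem_right _ _ (Ideal.absNorm_mem P)
    have h2 : Ideal.absNorm (∏ P ∈ Sm, P) ∣ Ideal.absNorm (Ideal.span {Fac}) := map_dvd _ h1
    rw [hFac, Ideal.absNorm_span_natCast, RingOfIntegers.rank] at h2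
    have h3 : Ideal.absNorm (∏ P ∈ Sm, P) ≤ W := by
      refine (Nat.le_of_dvd (pow_pos (Nat.factorial_pos _) _) h2).trans ?_
      exact Nat.pow_le_pow_right (Nat.factorial_pos _) hK
    have h4 : 2 ^ Sm.card ≤ Ideal.absNorm (∏ P ∈ Sm, P) := by
      rw [map_prod, ← Finset.prod_const]
      exact Finset.prod_le_prod' fun P hP => hN1 P (Finset.mem_filter.1 hP).1
    have h5 : Sm.card < 2 ^ Sm.card := Nat.lt_two_pow_self
    omega
  have hterm : ∀ P ∈ s.toFinset, ((s.count P : ℕ) : ℝ) + 1 ≤ (if P ∈ Sm then c else 1) *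
      ((Ideal.absNorm P : ℝ) ^ s.count P) ^ ε := by
    intro P hP
    have h2 := hN2 P hP
    have h0 : (0 : ℝ) ≤ (Ideal.absNorm P : ℝ) := by linarith
    have h3 : ((Ideal.absNorm P : ℝ) ^ s.count P) ^ ε =
        (Ideal.absNorm P : ℝ) ^ (ε * (s.count P : ℝ)) := by
      rw [← Real.rpow_natCast, ← Real.rpow_mul h0, mul_comm]
    rw [h3]
    split_ifs with hSmP
    · have h4 := succ_le_pow ε hε (s.count P)
      push_cast at h4
      refine h4.trans ?_
      refine mul_le_mul_of_nonneg_left ?_ (by linarith)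
      exact Real.rpow_le_rpow (by norm_num) h2 (by positivity)
    · rw [one_mul]
      have h5 : T < (Ideal.absNorm P : ℝ) := by
        by_contra hcon
        rw [not_lt] at hcon
        apply hSmP
        rw [hSm, Finset.mem_filter]
        exact ⟨hP, Nat.le_floor hcon⟩
      have h6 : (2 : ℝ) ≤ (Ideal.absNorm P : ℝ) ^ ε := by
        have h7 : T ^ ε = 2 := by
          rw [hT, ← Real.rpow_mul (by norm_num), one_div, inv_mul_cancel₀ hε.ne', Real.rpow_one]
        rw [← h7]
        exact Real.rpow_le_rpow (by positivity) h5.le hε.le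
      rw [Real.rpow_mul h0, Real.rpow_natCast]
      have h8 : ((s.count P : ℕ) : ℝ) + 1 ≤ (2 : ℝ) ^ s.count P := by
        have := Nat.lt_two_pow_self (n := s.count P)
        exact_mod_cast this
      exact h8.trans (pow_le_pow_left₀ (by norm_num) h6 _)
  have hprod : (Ideal.absNorm J : ℝ) = ∏ P ∈ s.toFinset, (Ideal.absNorm P : ℝ) ^ s.count P := by
    have h1 : s.prod = J := Ideal.prod_normalizedFactors_eq_self hJ
    have h2 : Ideal.absNorm J = (s.map Ideal.absNorm).prod := by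
      conv_lhs => rw [← h1]
      rw [map_multiset_prod]
    rw [h2, Finset.prod_multiset_map_count]
    push_cast
    rfl
  calc ∏ P ∈ s.toFinset, (((s.count P : ℕ) : ℝ) + 1) ≤
        ∏ P ∈ s.toFinset, ((if P ∈ Sm then c else 1) *
          ((Ideal.absNorm P : ℝ) ^ s.count P) ^ ε) :=
        Finset.prod_le_prod (fun _ _ => by positivity) hterm
    _ = (∏ P ∈ s.toFinset, if P ∈ Sm then c else 1) *
          ∏ P ∈ s.toFinset, ((Ideal.absNorm P : ℝ) ^ s.count P) ^ ε := by
        rw [Finset.prod_mul_distrib]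
    _ ≤ c ^ W * (Ideal.absNorm J : ℝ) ^ ε := by
      refine mul_le_mul ?_ (le_of_eq ?_) (Finset.prod_nonneg fun _ _ => by positivity)
        (by positivity)
      · rw [Finset.prod_ite, Finset.prod_const_one, mul_one, Finset.prod_const]
        refine pow_le_pow_right₀ hc1 (le_trans (Finset.card_le_card ?_) hSmcard)
        intro P hP
        exact (Finset.mem_filter.1 hP).2
      · rw [hprod, Real.finsetProd_rpow]
        intro P _
        positivity

/-- the cell of a unit -/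
noncomputable def cell {K : Type} [Field K] (u : (𝓞 K)ˣ) (σ : K →+* ℂ) : ℤ :=
  ⌊Real.log ‖σ ((u : 𝓞 K) : K)‖ / Real.log 2⌋

lemma cell_ratio {K : Type} [Field K] {u v : (𝓞 K)ˣ} {σ : K →+* ℂ}
    (h : cell u σ = cell v σ) : ‖σ ((u : 𝓞 K) : K)‖ ≤ 2 * ‖σ ((v : 𝓞 K) : K)‖ := by
  have hl : 0 < Real.log 2 := Real.log_pos (by norm_num)
  have hpos : ∀ u : (𝓞 K)ˣ, 0 < ‖σ ((u : 𝓞 K) : K)‖ := by
    intro u
    rw [norm_pos_iff, Ne, map_eq_zero]
    exact RingOfIntegers.coe_ne_zero_iff.2 (Units.ne_zero u)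
  have h1 := Int.lt_floor_add_one (Real.log ‖σ ((u : 𝓞 K) : K)‖ / Real.log 2)
  have h2 := Int.floor_le (Real.log ‖σ ((v : 𝓞 K) : K)‖ / Real.log 2)
  unfold cell at h
  rw [h] at h1
  have h3 : Real.log ‖σ ((u : 𝓞 K) : K)‖ / Real.log 2 <
      Real.log ‖σ ((v : 𝓞 K) : K)‖ / Real.log 2 + 1 := by linarith
  rw [div_add_one hl.ne', div_lt_div_iff_of_pos_right hl, add_comm,
    ← Real.log_mul (by norm_num) (hpos v).ne'] at h3
  exact ((Real.log_lt_log_iff (hpos u) (mul_pos (by norm_num) (hpos v))).1 h3).le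

theorem US_card_u (n : ℕ) (ε : ℝ) (hε : 0 < ε) : ∃ C : ℝ, 0 < C ∧
    ∀ (K : Type) [Field K] [NumberField K], finrank ℚ K ≤ n → ∀ Z : ℝ, 1 ≤ Z →
    (US K Z).Finite ∧ ((US K Z).ncard : ℝ) ≤ C * Z ^ ε := by
  classical
  obtain ⟨C0, hC0, hAI⟩ := AI_card n
  obtain ⟨hAfin, hAcard⟩ := hAI 2 (by norm_num)
  have hl : 0 < Real.log 2 := Real.log_pos (by norm_num)
  set η := ε / (n + 1) with hη
  have hη0 : 0 < η := by positivity
  set A : ℝ := 2 * (n * (1 / η) / Real.log 2 + 1) + 1 with hA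
  have hA1 : 1 ≤ A := by
    rw [hA]
    have : (0 : ℝ) ≤ n * (1 / η) / Real.log 2 := by positivity
    linarith
  refine ⟨(C0 * 2 ^ (n * (n + 1) / 2)) * A ^ n, by positivity, fun K _ _ hK Z hZ => ?_⟩
  obtain ⟨C', -, hfin'⟩ := US_card K 1 one_pos
  have hUfin := (hfin' Z hZ).1
  refine ⟨hUfin, ?_⟩
  have hr : 1 ≤ finrank ℚ K := finrank_pos
  have hn1 : 1 ≤ n := hr.trans hK
  have hlog : 0 ≤ Real.log Z := Real.log_nonneg hZ
  set R : ℝ := n * Real.log Z / Real.log 2 + 1 with hR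
  have hR0 : 0 ≤ R := by positivity
  -- the integers of house at most two
  obtain ⟨σ0⟩ : Nonempty (K →+* ℂ) := inferInstance
  have hW : (OS K 2).Finite ∧ (OS K 2).ncard ≤ (AI n 2).ncard := by
    have hinj : Set.InjOn (fun w : 𝓞 K => σ0 (w : K)) (OS K 2) := by
      intro w _ w' _ h
      exact RingOfIntegers.coe_injective (σ0.injective h)
    have hmap : Set.MapsTo (fun w : 𝓞 K => σ0 (w : K)) (OS K 2) (AI n 2) :=
      fun w hw => mem_AI hK hw σ0
    exact ⟨Set.Finite.of_injOn hmap hinj hAfin, Set.ncard_le_ncard_of_injOn _ hmap hinj hAfin⟩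
  set F1 : Finset ((K →+* ℂ) → ℤ) := Fintype.piFinset fun _ => Finset.Icc (-⌊R⌋) ⌊R⌋ with hF1
  set g : ((K →+* ℂ) → ℤ) → (𝓞 K)ˣ := fun c =>
    if h : ∃ u ∈ US K Z, (cell u : (K →+* ℂ) → ℤ) = c then h.choose else 1 with hg
  have hgs : ∀ u ∈ US K Z, g (cell u) ∈ US K Z ∧ (cell (g (cell u)) : (K →+* ℂ) → ℤ) = cell u := by
    intro u hu
    have h : ∃ v ∈ US K Z, (cell v : (K →+* ℂ) → ℤ) = cell u := ⟨u, hu, rfl⟩
    rw [hg]
    simp only
    rw [dif_pos h]
    exact h.choose_spec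
  obtain ⟨f1, f2⟩ := card_of_rel (S := US K Z) (F1 ×ˢ hW.1.toFinset)
    (fun u b => (cell u : (K →+* ℂ) → ℤ) = b.1 ∧ (u : 𝓞 K) = b.2 * (g (cell u) : 𝓞 K))
    (fun u hu => by
      obtain ⟨g1, g2⟩ := hgs u hu
      refine ⟨(cell u, (u * (g (cell u))⁻¹ : (𝓞 K)ˣ)), ?_, rfl, ?_⟩
      · rw [Finset.mem_product, hF1, Fintype.mem_piFinset, Set.Finite.mem_toFinset]
        constructor
        · intro σ
          refine Szp.mem_of_abs_le ?_
          have hpos : 0 < ‖σ ((u : 𝓞 K) : K)‖ := by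
            rw [norm_pos_iff, Ne, map_eq_zero]
            exact RingOfIntegers.coe_ne_zero_iff.2 (Units.ne_zero u)
          have k1 := one_le_place K hZ (Units.ne_zero u) hu σ
          have k2 : ‖σ ((u : 𝓞 K) : K)‖ ≤ Z := (norm_embedding_le_house _ σ).trans hu
          have k3 : |Real.log ‖σ ((u : 𝓞 K) : K)‖| ≤ n * Real.log Z := by
            rw [abs_le]
            constructor
            · have h4 := Real.log_le_log one_pos k1
              rw [Real.log_one, Real.log_mul hpos.ne' (by positivity), Real.log_pow] at h4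
              have h5 : ((finrank ℚ K - 1 : ℕ) : ℝ) ≤ n := by
                exact_mod_cast (Nat.sub_le _ _).trans hK
              nlinarith
            · have h4 := Real.log_le_log hpos k2
              have h5 : (1 : ℝ) ≤ n := by exact_mod_cast hn1
              nlinarith
          have k4 : |Real.log ‖σ ((u : 𝓞 K) : K)‖ / Real.log 2| ≤ n * Real.log Z / Real.log 2 := by
            rw [abs_div, abs_of_pos hl]
            exact div_le_div_of_nonneg_right k3 hl.le
          unfold cell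
          set y := Real.log ‖σ ((u : 𝓞 K) : K)‖ / Real.log 2 with hy
          have k5 := Int.floor_le y
          have k6 := Int.lt_floor_add_one y
          have k7 := abs_le.1 k4
          rw [abs_le]
          constructor
          · rw [hR]
            linarith [k7.1]
          · rw [hR]
            linarith [k7.2]
        · show house (algebraMap (𝓞 K) K _) ≤ 2
          refine house_le_of K (by norm_num) fun σ => ?_
          have k1 := cell_ratio (K := K) (u := u) (v := g (cell u)) (σ := σ)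
            (by rw [g2])
          have hpos : 0 < ‖σ ((g (cell u) : 𝓞 K) : K)‖ := by
            rw [norm_pos_iff, Ne, map_eq_zero]
            exact RingOfIntegers.coe_ne_zero_iff.2 (Units.ne_zero _)
          have k2 : σ (((u * (g (cell u))⁻¹ : (𝓞 K)ˣ) : 𝓞 K) : K) *
              σ ((g (cell u) : 𝓞 K) : K) = σ ((u : 𝓞 K) : K) := by
            rw [← map_mul, ← vmul, Units.val_mul, mul_assoc, Units.inv_mul, mul_one]
          have k3 := congrArg norm k2
          rw [norm_mul] at k3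
          refine le_of_mul_le_mul_right ?_ hpos
          exact k3.le.trans k1
      · show (u : 𝓞 K) = ((u * (g (cell u))⁻¹ : (𝓞 K)ˣ) : 𝓞 K) * (g (cell u) : 𝓞 K)
        rw [Units.val_mul, mul_assoc, Units.inv_mul, mul_one])
    (fun u _ u' _ b h h' => by
      refine Units.ext ?_
      rw [h.2, h'.2, h.1, h'.1])
  have h4 : 0 ≤ ⌊R⌋ := Int.floor_nonneg.2 hR0
  have hcard : F1.card = (2 * ⌊R⌋ + 1).toNat ^ finrank ℚ K := by
    rw [hF1, Fintype.card_piFinset, Finset.prod_const, Finset.card_univ,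
      Embeddings.card, Int.card_Icc]
    congr 2
    ring
  have hlogZ : Real.log Z ≤ Z ^ η * (1 / η) := by
    have := Real.log_le_rpow_div (by linarith : (0 : ℝ) ≤ Z) hη0
    rw [mul_one_div]
    exact this
  have hZη : 1 ≤ Z ^ η := Real.one_le_rpow hZ hη0.le
  have h5 : ((2 * ⌊R⌋ + 1).toNat : ℝ) ≤ A * Z ^ η := by
    have e1 : (((2 * ⌊R⌋ + 1).toNat : ℤ) : ℝ) = ((2 * ⌊R⌋ + 1 : ℤ) : ℝ) := by
      rw [Int.toNat_of_nonneg (by omega)]
    have e2 : ((2 * ⌊R⌋ + 1).toNat : ℝ) = ((2 * ⌊R⌋ + 1 : ℤ) : ℝ) := by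
      rw [← e1]
      norm_cast
    rw [e2]
    push_cast
    have h6 := Int.floor_le R
    have h7 : R ≤ n * (Z ^ η * (1 / η)) / Real.log 2 + 1 := by
      rw [hR]
      have : (n : ℝ) * Real.log Z ≤ n * (Z ^ η * (1 / η)) :=
        mul_le_mul_of_nonneg_left hlogZ (Nat.cast_nonneg _)
      have := div_le_div_of_nonneg_right this hl.le
      linarith
    have h8 : A * Z ^ η = 2 * (n * (Z ^ η * (1 / η)) / Real.log 2 + Z ^ η) + Z ^ η := by
      rw [hA]
      ring
    rw [h8]
    linarith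
  have hAZ : 1 ≤ A * Z ^ η := by nlinarith
  have h6 : ((US K Z).ncard : ℝ) ≤ (F1.card : ℝ) * ((OS K 2).ncard : ℝ) := by
    rw [Finset.card_product, ← Set.ncard_eq_toFinset_card _ hW.1] at f2
    exact_mod_cast f2
  have h7 : ((OS K 2).ncard : ℝ) ≤ C0 * 2 ^ (n * (n + 1) / 2) := by
    refine le_trans ?_ hAcard
    exact_mod_cast hW.2
  have h8 : (F1.card : ℝ) ≤ A ^ n * Z ^ ε := by
    rw [hcard]
    push_cast
    calc ((2 * ⌊R⌋ + 1).toNat : ℝ) ^ finrank ℚ K ≤ (A * Z ^ η) ^ finrank ℚ K :=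
          pow_le_pow_left₀ (Nat.cast_nonneg _) h5 _
      _ ≤ (A * Z ^ η) ^ n := pow_le_pow_right₀ hAZ hK
      _ = A ^ n * Z ^ (η * n) := by
        rw [mul_pow, ← Real.rpow_natCast (Z ^ η) n, ← Real.rpow_mul (by linarith)]
      _ ≤ A ^ n * Z ^ ε := by
        refine mul_le_mul_of_nonneg_left ?_ (by positivity)
        refine Real.rpow_le_rpow_of_exponent_le hZ ?_
        rw [hη, div_mul_eq_mul_div, div_le_iff₀ (by positivity)]
        nlinarith
  calc ((US K Z).ncard : ℝ) ≤ (F1.card : ℝ) * ((OS K 2).ncard : ℝ) := h6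
    _ ≤ (A ^ n * Z ^ ε) * (C0 * 2 ^ (n * (n + 1) / 2)) :=
      mul_le_mul h8 h7 (Nat.cast_nonneg _) (by positivity)
    _ = _ := by ring

end Pool.Agent.X12.Nu
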