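import Pool.Agent.X12.Nu2

/-!
# Counting integers of given norm support, uniformly in the number field: the elements
-/

set_option autoImplicit false

namespace Pool.Agent.X12.Nu

open NumberField Module UniqueFactorizationMonoid
open Pool.Agent.X12.Dyn (TS mem_TS TS_card)
open Pool.Agent.X12.Nf

open scoped Classical in
theorem EN_card_u (n : ℕ) (ε : ℝ) (hε : 0 < ε) : ∃ C : ℝ, 0 < C ∧
    ∀ (K : Type) [Field K] [NumberField K], finrank ℚ K ≤ n → ∀ (Y : ℝ) (ν : ℕ), 1 ≤ Y → 1 ≤ ν →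
    (EN K Y ν).Finite ∧ ((EN K Y ν).ncard : ℝ) ≤ C * (ν : ℝ) ^ ε * Y ^ ε := by
  obtain ⟨C1, hC1, h1⟩ := ideal_bound_u n (ε / (n + 1)) (by positivity)
  obtain ⟨C2, hC2, h2⟩ := US_card_u n (ε / (n + 1)) (by positivity)
  refine ⟨C1 * C2, by positivity, fun K _ _ hK Y ν hY hν => ?_⟩
  set r := finrank ℚ K with hr
  have hr1 : 1 ≤ r := finrank_pos
  have hr0 : (0 : ℝ) < r := by exact_mod_cast hr1
  set J : Ideal (𝓞 K) := Ideal.span {(ν : 𝓞 K)} with hJ
  have hJ0 : J ≠ ⊥ := by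
    rw [hJ, Ne, Ideal.span_singleton_eq_bot]
    have : ν ≠ 0 := by omega
    exact_mod_cast this
  have hZ : 1 ≤ Y ^ r := one_le_pow₀ hY
  obtain ⟨hUfin, hUcard⟩ := h2 K hK (Y ^ r) hZ
  -- the base points
  set g : Ideal (𝓞 K) → 𝓞 K := fun I =>
    if h : ∃ x ∈ EN K Y ν, Ideal.span {x} = I then h.choose else 0 with hg
  have hgs : ∀ x ∈ EN K Y ν, g (Ideal.span {x}) ∈ EN K Y ν ∧
      Ideal.span {g (Ideal.span {x})} = Ideal.span {x} := by
    intro x hx
    have h : ∃ y ∈ EN K Y ν, Ideal.span {y} = Ideal.span {x} := ⟨x, hx, rfl⟩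
    rw [hg]
    simp only
    rw [dif_pos h]
    exact h.choose_spec
  have hne : ∀ x ∈ EN K Y ν, x ≠ 0 := by
    rintro x hx rfl
    have h3 : Nm K (0 : 𝓞 K) = ν := hx.2
    unfold Nm at h3
    rw [Ideal.span_singleton_eq_bot.2 rfl, Ideal.absNorm_bot] at h3
    omega
  set F : Finset (Multiset (Ideal (𝓞 K)) × (𝓞 K)ˣ) :=
    Finset.Iic (normalizedFactors J) ×ˢ hUfin.toFinset with hF
  obtain ⟨f1, f2⟩ := card_of_rel (S := EN K Y ν) F
    (fun x b => normalizedFactors (Ideal.span {x}) = b.1 ∧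
      x = (b.2 : 𝓞 K) * g (Ideal.span {x}))
    (fun x hx => by
      obtain ⟨⟨g1, g2⟩, g3⟩ := hgs x hx
      obtain ⟨u, hu⟩ := (Ideal.span_singleton_eq_span_singleton.1 g3)
      refine ⟨(normalizedFactors (Ideal.span {x}), u), ?_, rfl, ?_⟩
      · rw [hF, Finset.mem_product, Finset.mem_Iic, Set.Finite.mem_toFinset]
        constructor
        · have hx0 : Ideal.span {x} ≠ (0 : Ideal (𝓞 K)) := by
            rw [Ideal.zero_eq_bot, Ne, Ideal.span_singleton_eq_bot]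
            exact hne x hx
          refine (dvd_iff_normalizedFactors_le_normalizedFactors hx0 hJ0).1 ?_
          rw [Ideal.dvd_iff_le, hJ]
          have h3 : Nm K x = ν := hx.2
          rw [← h3]
          unfold Nm
          exact Ideal.span_singleton_absNorm_le _
        · show house (algebraMap (𝓞 K) K (u : 𝓞 K)) ≤ Y ^ r
          refine house_le_of K (by positivity) fun σ => ?_
          have k1 := one_le_place K hY (hne _ ⟨g1, g2⟩) g1 σ
          have k2 : ‖σ (algebraMap (𝓞 K) K x)‖ ≤ Y :=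
            (norm_embedding_le_house _ σ).trans hx.1
          rw [← hu, map_mul, map_mul, norm_mul] at k2
          have k3 : Y ^ r = Y * Y ^ (r - 1) := by
            rw [← pow_succ']
            congr 1
            omega
          have k4 : 0 ≤ Y ^ (r - 1) := by positivity
          rw [k3]
          rw [← hr] at k1
          calc ‖σ (algebraMap (𝓞 K) K (u : 𝓞 K))‖ ≤ ‖σ (algebraMap (𝓞 K) K (u : 𝓞 K))‖ *
                (‖σ (algebraMap (𝓞 K) K (g (Ideal.span {x})))‖ * Y ^ (r - 1)) :=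
                le_mul_of_one_le_right (norm_nonneg _) k1
            _ = (‖σ (algebraMap (𝓞 K) K (g (Ideal.span {x})))‖ *
                ‖σ (algebraMap (𝓞 K) K (u : 𝓞 K))‖) * Y ^ (r - 1) := by ring
            _ ≤ _ := mul_le_mul_of_nonneg_right k2 k4
      · simp only
        rw [mul_comm]
        exact hu.symm)
    (fun x hx x' hx' b h h' => by
      obtain ⟨e1, e2⟩ := h
      obtain ⟨e3, e4⟩ := h'
      have hx0 : Ideal.span {x} ≠ (0 : Ideal (𝓞 K)) := by
        rw [Ideal.zero_eq_bot, Ne, Ideal.span_singleton_eq_bot]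
        exact hne x hx
      have hx0' : Ideal.span {x'} ≠ (0 : Ideal (𝓞 K)) := by
        rw [Ideal.zero_eq_bot, Ne, Ideal.span_singleton_eq_bot]
        exact hne x' hx'
      have h3 : Ideal.span {x} = Ideal.span {x'} := by
        rw [← Ideal.prod_normalizedFactors_eq_self hx0,
          ← Ideal.prod_normalizedFactors_eq_self hx0', e1, e3]
      rw [e2, e4, h3])
  refine ⟨f1, ?_⟩
  have h5 : F.card = (Finset.Iic (normalizedFactors J)).card * (US K (Y ^ r)).ncard := by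
    rw [hF, Finset.card_product, ← Set.ncard_eq_toFinset_card _ hUfin]
  have hrn : (r : ℝ) * (ε / (n + 1)) ≤ ε := by
    have : (r : ℝ) ≤ n := by exact_mod_cast hK
    rw [mul_div_assoc', div_le_iff₀ (by positivity)]
    nlinarith
  have hν1 : (1 : ℝ) ≤ ν := by exact_mod_cast hν
  have h6 : (Ideal.absNorm J : ℝ) ^ (ε / (n + 1)) ≤ (ν : ℝ) ^ ε := by
    rw [hJ, Ideal.absNorm_span_natCast, RingOfIntegers.rank, ← hr]
    push_cast
    rw [← Real.rpow_natCast, ← Real.rpow_mul (Nat.cast_nonneg _)]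
    exact Real.rpow_le_rpow_of_exponent_le hν1 hrn
  have h7 : (Y ^ r) ^ (ε / (n + 1)) ≤ Y ^ ε := by
    rw [← Real.rpow_natCast, ← Real.rpow_mul (by linarith)]
    exact Real.rpow_le_rpow_of_exponent_le hY hrn
  calc ((EN K Y ν).ncard : ℝ) ≤ (F.card : ℝ) := by exact_mod_cast f2
    _ = ((Finset.Iic (normalizedFactors J)).card : ℝ) * ((US K (Y ^ r)).ncard : ℝ) := by
      rw [h5]
      push_cast
      rfl
    _ ≤ (C1 * (Ideal.absNorm J : ℝ) ^ (ε / (n + 1))) * (C2 * (Y ^ r) ^ (ε / (n + 1))) :=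
      mul_le_mul (h1 K hK J hJ0) hUcard (Nat.cast_nonneg _) (by positivity)
    _ ≤ (C1 * (ν : ℝ) ^ ε) * (C2 * Y ^ ε) :=
      mul_le_mul (mul_le_mul_of_nonneg_left h6 hC1.le) (mul_le_mul_of_nonneg_left h7 hC2.le)
        (by positivity) (by positivity)
    _ = C1 * C2 * (ν : ℝ) ^ ε * Y ^ ε := by ring

theorem FU_card_u (n : ℕ) (ε : ℝ) (hε : 0 < ε) : ∃ C : ℝ, 0 < C ∧
    ∀ (K : Type) [Field K] [NumberField K], finrank ℚ K ≤ n → ∀ (Y : ℝ) (N : ℕ), 1 ≤ Y → 1 ≤ N →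
    (FU K Y N).Finite ∧ ((FU K Y N).ncard : ℝ) ≤ C * Y ^ ε * (N : ℝ) ^ ε := by
  classical
  set η := ε / (2 * n + 1) with hη
  have hη0 : 0 < η := by positivity
  obtain ⟨C1, hC1, h1⟩ := EN_card_u n η hη0
  obtain ⟨C2, hC2, h2⟩ := TS_card η hη0
  refine ⟨C2 * C1, by positivity, fun K _ _ hK Y N hY hN => ?_⟩
  set r := finrank ℚ K with hr
  have hr1 : 1 ≤ r := finrank_pos
  have hY0 : 0 < Y := by linarith
  have hYr : 1 ≤ Y ^ r := one_le_pow₀ hY
  set T : Finset ℕ := ((TS (Y ^ r) N).image Int.natAbs).filter (fun ν => 1 ≤ ν ∧ (ν : ℝ) ≤ Y ^ r)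
    with hT
  have hsub : FU K Y N ⊆ ⋃ ν ∈ T, EN K Y ν := by
    rintro u ⟨u1, u2, u3⟩
    have hpos := Nm_pos u1
    have hle := Nm_le hY0.le u2
    rw [← hr] at hle
    rw [Set.mem_iUnion₂]
    refine ⟨Nm K u, ?_, u2, rfl⟩
    rw [hT, Finset.mem_filter]
    refine ⟨?_, hpos, hle⟩
    rw [Finset.mem_image]
    refine ⟨(Nm K u : ℤ), ?_, Int.natAbs_natCast _⟩
    refine mem_TS ?_ ?_ ?_
    · rw [Int.cast_natCast, abs_of_nonneg (Nat.cast_nonneg _)]
      exact hle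
    · exact_mod_cast (by omega : Nm K u ≠ 0)
    · rw [Int.natAbs_natCast]
      exact u3
  have hfin : (⋃ ν ∈ T, EN K Y ν).Finite := by
    refine Set.Finite.biUnion T.finite_toSet fun ν hν => ?_
    have := (Finset.mem_filter.1 (Finset.mem_coe.1 hν)).2
    exact (h1 K hK Y ν hY this.1).1
  refine ⟨hfin.subset hsub, ?_⟩
  have h3 : ((FU K Y N).ncard : ℝ) ≤ ∑ ν ∈ T, ((EN K Y ν).ncard : ℝ) := by
    exact_mod_cast (Set.ncard_le_ncard hsub hfin).trans (Finset.set_ncard_biUnion_le T _)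
  have h4 : ∀ ν ∈ T, ((EN K Y ν).ncard : ℝ) ≤ C1 * (Y ^ r) ^ η * Y ^ η := by
    intro ν hν
    have h5 := (Finset.mem_filter.1 hν).2
    refine (h1 K hK Y ν hY h5.1).2.trans ?_
    refine mul_le_mul_of_nonneg_right ?_ (by positivity)
    refine mul_le_mul_of_nonneg_left ?_ hC1.le
    exact Real.rpow_le_rpow (Nat.cast_nonneg _) h5.2 hη0.le
  have h5 : (T.card : ℝ) ≤ C2 * (Y ^ r) ^ η * (N : ℝ) ^ η := by
    refine le_trans ?_ (h2 (Y ^ r) N hYr hN)
    exact_mod_cast (Finset.card_filter_le _ _).trans Finset.card_image_le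
  have hN1 : (1 : ℝ) ≤ N := by exact_mod_cast hN
  have h6 : (N : ℝ) ^ η ≤ (N : ℝ) ^ ε := by
    refine Real.rpow_le_rpow_of_exponent_le hN1 ?_
    rw [hη, div_le_iff₀ (by positivity)]
    have : (0 : ℝ) ≤ n := Nat.cast_nonneg n
    nlinarith
  have h7 : (Y ^ r) ^ η * ((Y ^ r) ^ η * Y ^ η) ≤ Y ^ ε := by
    rw [← Real.rpow_natCast Y r, ← Real.rpow_mul hY0.le, ← Real.rpow_add hY0,
      ← Real.rpow_add hY0]
    refine Real.rpow_le_rpow_of_exponent_le hY ?_
    have h8 : (r : ℝ) ≤ n := by exact_mod_cast hK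
    have h9 : (r : ℝ) * η + (r * η + η) = (2 * r + 1) * η := by ring
    have h10 : (2 * (n : ℝ) + 1) * η = ε := by
      rw [hη]
      field_simp
    rw [h9, ← h10]
    exact mul_le_mul_of_nonneg_right (by linarith) hη0.le
  refine h3.trans ((Finset.sum_le_card_nsmul _ _ _ h4).trans ?_)
  rw [nsmul_eq_mul]
  calc (T.card : ℝ) * (C1 * (Y ^ r) ^ η * Y ^ η) ≤
        (C2 * (Y ^ r) ^ η * (N : ℝ) ^ η) * (C1 * (Y ^ r) ^ η * Y ^ η) :=
        mul_le_mul_of_nonneg_right h5 (by positivity)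
    _ = C2 * C1 * ((Y ^ r) ^ η * ((Y ^ r) ^ η * Y ^ η)) * (N : ℝ) ^ η := by ring
    _ ≤ C2 * C1 * Y ^ ε * (N : ℝ) ^ η := by
      refine mul_le_mul_of_nonneg_right ?_ (by positivity)
      exact mul_le_mul_of_nonneg_left h7 (by positivity)
    _ ≤ _ := mul_le_mul_of_nonneg_left h6 (by positivity)

end Pool.Agent.X12.Nu
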