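import Pool.Agent.X12.Nu3

/-!
# Long orbits over one number field, with a given denominator
-/

set_option autoImplicit false

namespace Pool.Agent.X12.Nu

open NumberField Module Polynomial Function
open Pool.Agent.X12.Pg (fr fr_spec fr_pos fr_le fr_dvd quot_dvd)
open Pool.Agent.X12.Nf

variable {K : Type} [Field K] [NumberField K]

/-- a long orbit whose differences grow slowly -/
def BadD (d : ℕ) (a : 𝓞 K) (H : ℝ) (Q : ℕ) (f : K[X]) (D : 𝓞 K) : Prop :=
  f.coeff (d - 1) = 0 ∧ ∃ B : ℕ → 𝓞 K,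
  Fm d a H f D B ∧ ∃ z ∈ Pre f, (∀ i ≤ d, ∀ j ≤ d, orb f z i = orb f z j → i = j) ∧
    orb f z (d + 1) ≠ orb f z d ∧
    ∀ s t : 𝓞 K, (s : K) = (a * D : 𝓞 K) * (orb f z 1 - orb f z 0) →
      (t : K) = (a * D : 𝓞 K) * (orb f z (d + 1) - orb f z d) →
      fr (Nm K (a * D)) (Nm K t) ≤ Q * fr (Nm K (a * D)) (Nm K s)

lemma BadD.mono {d : ℕ} {a : 𝓞 K} {H : ℝ} {Q Q' : ℕ} {f : K[X]} {D : 𝓞 K}
    (h : BadD d a H Q f D) (hQ : Q ≤ Q') : BadD d a H Q' f D := by
  obtain ⟨hc, B, hB, z, hz, hinj, hlast, h1⟩ := h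
  exact ⟨hc, B, hB, z, hz, hinj, hlast, fun s t hs ht =>
    (h1 s t hs ht).trans (Nat.mul_le_mul_right _ hQ)⟩

theorem bad_dataD {d : ℕ} (hd : 2 ≤ d) {a : 𝓞 K} {H : ℝ} (hH : 1 ≤ H) {Q : ℕ} {f : K[X]}
    {D : 𝓞 K} (hf : BadD d a H Q f D) :
    ∃ q : ℕ, 1 ≤ q ∧ q ≤ Q ∧ ∃ U : Fin d → 𝓞 K,
      (∀ i, U i ∈ FU K (YY d a H) (Nm K (a * D) * q)) ∧
      Rel d (a : K) f ((a ^ (d - 2) * D ^ (d - 1) : 𝓞 K) : K) fun i => (U i : K) := by
  classical
  obtain ⟨hc, B, hB, z, hz, hinj, hlast, hQ⟩ := hf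
  have ha0 := hB.a0
  have hD0 := hB.D0
  have hbd := fm_bd hd hH hB
  obtain ⟨Z, hZ, hZH, hdvd⟩ := int_orb hbd hd hz
  set c : 𝓞 K := a * D with hcdef
  set E : 𝓞 K := a ^ (d - 2) * D ^ (d - 1) with hEdef
  have hcq : (c : K) ≠ 0 := RingOfIntegers.coe_ne_zero_iff.2 hbd.c0
  set D' : ℕ := Nm K c with hD'
  have hD'1 : 1 ≤ D' := Nm_pos hbd.c0
  have hED : Nm K E ∣ D' ^ (d - 1) := by
    rw [hD', ← Nm_pow, hcdef, mul_pow]
    refine Nm_dvd ?_
    rw [hEdef]
    exact mul_dvd_mul (pow_dvd_pow _ (by omega)) dvd_rfl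
  set T : ℕ → 𝓞 K := fun i => Z (i + 1) - Z i with hT
  have hTq : ∀ i, (T i : K) = c * (orb f z (i + 1) - orb f z i) := by
    intro i
    simp only [hT]
    rw [vsub, hZ, hZ]
    ring
  have hT0 : ∀ i ≤ d, T i ≠ 0 := by
    intro i hi h0
    have h1 := hTq i
    rw [h0, vzero] at h1
    have h2 := (mul_eq_zero.1 h1.symm).resolve_left hcq
    rcases Nat.lt_or_ge i d with h3 | h3
    · have := hinj (i + 1) (by omega) i (by omega) (sub_eq_zero.1 h2)
      omega
    · have : i = d := by omega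
      subst this
      exact hlast (sub_eq_zero.1 h2)
  have hTpos : ∀ i ≤ d, 1 ≤ Nm K (T i) := fun i hi => Nm_pos (hT0 i hi)
  have hTdvd : ∀ i, T i ∣ E * T (i + 1) := fun i => hdvd i
  have hfr2 : ∀ i ≤ d, ∀ j ≤ i, fr D' (Nm K (T j)) ∣ fr D' (Nm K (T i)) :=
    fr_chain hED hT0 hTdvd
  choose U hU using hTdvd
  obtain ⟨q, hq⟩ := hfr2 d le_rfl 0 (by omega)
  have hp0 := fr_pos (D := D') (hTpos 0 (by omega))
  have hpd := fr_pos (D := D') (hTpos d le_rfl)
  have hq1 : 1 ≤ q := by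
    rcases Nat.eq_zero_or_pos q with h | h
    · rw [h, mul_zero] at hq
      omega
    · exact h
  have hqQ : q ≤ Q := by
    have h1 := hQ (T 0) (T d) (by rw [hTq]) (by rw [hTq])
    rw [hq, mul_comm Q] at h1
    exact Nat.le_of_mul_le_mul_left h1 hp0
  have hUdvd : ∀ i < d, Nm K (U i) ∣ D' ^ (d - 1 + Nm K (T (i + 1))) * q := by
    intro i hi
    refine quot_dvd (s := Nm K (T i)) (t := Nm K (T (i + 1))) (hTpos i (by omega))
      (hTpos (i + 1) (by omega)) ?_ ?_
    · have h1 : Nm K E * Nm K (T (i + 1)) = Nm K (T i) * Nm K (U i) := by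
        rw [← Nm_mul, ← Nm_mul, hU i]
      rw [mul_comm (Nm K (U i)), ← h1]
      exact Nat.mul_dvd_mul hED dvd_rfl
    · refine (hfr2 d le_rfl (i + 1) (by omega)).trans ?_
      rw [hq]
      exact Nat.mul_dvd_mul (hfr2 i (by omega) 0 (by omega)) dvd_rfl
  have hE0 : E ≠ 0 := hbd.E0
  have hU0 : ∀ i < d, U i ≠ 0 := by
    intro i hi h0
    have h1 := hU i
    rw [h0, mul_zero] at h1
    exact hT0 (i + 1) (by omega) ((mul_eq_zero.1 h1).resolve_left hE0)
  have hL1 : 1 ≤ LL d a H := LL_ge ha0 hH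
  have hTH : ∀ i, house (T i : K) ≤ LL d a H := by
    intro i
    refine house_le_of K (by linarith) fun σ => ?_
    simp only [hT]
    rw [vsub, map_sub]
    refine (norm_sub_le _ _).trans ?_
    have h1 := (norm_embedding_le_house (Z (i + 1) : K) σ).trans (hZH (i + 1))
    have h2 := (norm_embedding_le_house (Z i : K) σ).trans (hZH i)
    unfold LL
    linarith
  have hUH : ∀ i < d, house (U i : K) ≤ YY d a H := by
    intro i hi
    have hY1 := YY_ge (d := d) ha0 hH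
    refine house_le_of K (by linarith) fun σ => ?_
    have h1 := one_le_place K hL1 (hT0 i (by omega)) (hTH i) σ
    have h2 : ‖σ (E : K)‖ ≤ (house (a : K) * H) ^ (d - 1) :=
      (norm_embedding_le_house _ σ).trans hbd.EM
    have h3 : ‖σ (T (i + 1) : K)‖ ≤ LL d a H := (norm_embedding_le_house _ σ).trans (hTH _)
    have h4 : ‖σ (E : K)‖ * ‖σ (T (i + 1) : K)‖ = ‖σ (T i : K)‖ * ‖σ (U i : K)‖ := by
      have h0 : (E : K) * (T (i + 1) : K) = (T i : K) * (U i : K) := by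
        rw [← vmul, ← vmul, hU i]
      rw [← norm_mul, ← norm_mul, ← map_mul σ, ← map_mul σ, h0]
    have h5 : LL d a H ^ finrank ℚ K = LL d a H * LL d a H ^ (finrank ℚ K - 1) := by
      rw [← pow_succ']
      congr 1
      have : 1 ≤ finrank ℚ K := finrank_pos
      omega
    unfold YY
    rw [h5]
    have h6 : 0 ≤ LL d a H ^ (finrank ℚ K - 1) := by positivity
    have h7 : 0 ≤ (house (a : K) * H) ^ (d - 1) :=
      pow_nonneg (mul_nonneg (house_nonneg _) (by linarith)) _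
    calc ‖σ (U i : K)‖ ≤ ‖σ (U i : K)‖ * (‖σ (T i : K)‖ * LL d a H ^ (finrank ℚ K - 1)) :=
          le_mul_of_one_le_right (norm_nonneg _) h1
      _ = (‖σ (E : K)‖ * ‖σ (T (i + 1) : K)‖) * LL d a H ^ (finrank ℚ K - 1) := by
        rw [h4]
        ring
      _ ≤ ((house (a : K) * H) ^ (d - 1) * LL d a H) * LL d a H ^ (finrank ℚ K - 1) := by
        refine mul_le_mul_of_nonneg_right ?_ h6
        exact mul_le_mul h2 h3 (norm_nonneg _) h7
      _ = _ := by ring
  refine ⟨q, hq1, hqQ, fun i => U i, fun i => ?_, ?_⟩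
  · refine ⟨hU0 i i.2, hUH i i.2, ?_⟩
    intro p hp
    have hpp := Nat.prime_of_mem_primeFactors hp
    have h1 : p ∣ D' ^ (d - 1 + Nm K (T (i + 1))) * q :=
      (Nat.dvd_of_mem_primeFactors hp).trans (hUdvd i i.2)
    rw [Nat.mem_primeFactors]
    refine ⟨hpp, ?_, (Nat.mul_pos hD'1 hq1).ne'⟩
    rcases (Nat.Prime.dvd_mul hpp).1 h1 with h2 | h2
    · exact (hpp.dvd_of_dvd_pow h2).mul_right _
    · exact h2.mul_left _
  · refine ⟨hB.lc, hB.deg, hc, orb f z, orb_succ f z, hinj, ?_⟩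
    intro i
    show (U i : K) * _ = (E : K) * _
    have h1 : ((T i * U i : 𝓞 K) : K) = ((E * T (i + 1) : 𝓞 K) : K) := by
      rw [← hU i]
    rw [vmul, vmul, hTq, hTq] at h1
    have h2 : (c : K) * ((U i : K) * (orb f z (i + 1) - orb f z i)) =
        (c : K) * ((E : K) * (orb f z (i + 2) - orb f z (i + 1))) := by
      linear_combination h1
    exact mul_left_cancel₀ hcq h2

/-- polynomials with a long cycle -/
theorem cyc_badD {d : ℕ} {a : 𝓞 K} {H : ℝ} (hd : 2 ≤ d) (hH : 1 ≤ H) {f : K[X]}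
    {D : 𝓞 K} {B : ℕ → 𝓞 K} (hc : f.coeff (d - 1) = 0) (hB : Fm d a H f D B) {z : K}
    (hz : d < minimalPeriod (fun x => f.eval x) z) : BadD d a H 1 f D := by
  set h : K → K := fun x => f.eval x with hh
  have hper : z ∈ periodicPts h := minimalPeriod_pos_iff_mem_periodicPts.1 (by omega)
  have hpre : z ∈ Pre f := pre_of_periodic hper
  have hne : ∀ i, orb f z (i + 1) ≠ orb f z i := by
    intro i h0
    rw [orb_succ] at h0
    have h1 : IsFixedPt h (h^[i] z) := h0
    have h2 := minimalPeriod_eq_one_iff_isFixedPt.2 h1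
    rw [minimalPeriod_apply_iterate hper] at h2
    omega
  refine ⟨hc, B, hB, z, hpre, ?_, hne d, ?_⟩
  · intro i hi j hj hij
    exact iterate_injOn_Iio_minimalPeriod (f := h) (x := z) (Set.mem_Iio.2 (by omega))
      (Set.mem_Iio.2 (by omega)) hij
  · intro s t hs ht
    have hbd := fm_bd hd hH hB
    obtain ⟨Z, hZ, hZH, hdvd⟩ := int_orb hbd hd hpre
    have hcq : ((a * D : 𝓞 K) : K) ≠ 0 := RingOfIntegers.coe_ne_zero_iff.2 hbd.c0
    set N := minimalPeriod h z with hN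
    have hZZ : ∀ i j, orb f z i = orb f z j → Z i = Z j := by
      intro i j hij
      refine RingOfIntegers.coe_injective ?_
      show (Z i : K) = Z j
      rw [hZ, hZ, hij]
    have hT0 : ∀ i ≤ N, Z (i + 1) - Z i ≠ 0 := by
      intro i _ h0
      have h1 : ((a * D : 𝓞 K) : K) * orb f z (i + 1) = ((a * D : 𝓞 K) : K) * orb f z i := by
        rw [← hZ, ← hZ, sub_eq_zero.1 h0]
      exact hne i (mul_left_cancel₀ hcq h1)
    have hch := fr_chain (nmE_dvd a D) (T := fun i => Z (i + 1) - Z i) hT0 hdvd N le_rfl d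
      (by omega)
    have e1 : Z N = Z 0 := by
      refine hZZ _ _ ?_
      show h^[N] z = h^[0] z
      rw [hN, iterate_minimalPeriod]
      rfl
    have e2 : Z (N + 1) = Z 1 := by
      refine hZZ _ _ ?_
      show h^[N + 1] z = h^[1] z
      rw [Function.iterate_succ_apply', hN, iterate_minimalPeriod]
      rfl
    simp only [e1, e2] at hch
    have e3 : s = Z 1 - Z 0 := by
      refine RingOfIntegers.coe_injective ?_
      show (s : K) = ((Z 1 - Z 0 : 𝓞 K) : K)
      rw [hs, vsub, hZ, hZ]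
      ring
    have e4 : t = Z (d + 1) - Z d := by
      refine RingOfIntegers.coe_injective ?_
      show (t : K) = ((Z (d + 1) - Z d : 𝓞 K) : K)
      rw [ht, vsub, hZ, hZ]
      ring
    rw [one_mul, e3, e4]
    refine Nat.le_of_dvd ?_ hch
    exact fr_pos (Nm_pos (by simpa using hT0 0 (by omega)))

/-- polynomials with a long orbit -/
theorem orb_badD {d : ℕ} {a : 𝓞 K} {H : ℝ} {κ : ℕ} (hd : 2 ≤ d) (hH : 1 ≤ H)
    (hκ : 1 ≤ κ) {f : K[X]} {D : 𝓞 K} {B : ℕ → 𝓞 K} (hc : f.coeff (d - 1) = 0)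
    (hB : Fm d a H f D B) {z : K} (hz : z ∈ Pre f)
    (hinj : ∀ i ≤ κ * d + 1, ∀ j ≤ κ * d + 1, orb f z i = orb f z j → i = j) :
    BadD d a H (QR κ (LL d a H ^ finrank ℚ K)) f D := by
  have ha := hB.a0
  have hbd := fm_bd hd hH hB
  obtain ⟨Z, hZ, hZH, hdvd⟩ := int_orb hbd hd hz
  have hcq : ((a * D : 𝓞 K) : K) ≠ 0 := RingOfIntegers.coe_ne_zero_iff.2 hbd.c0
  have hT0 : ∀ i ≤ κ * d, Z (i + 1) - Z i ≠ 0 := by
    intro i hi h0
    have h1 : ((a * D : 𝓞 K) : K) * orb f z (i + 1) = ((a * D : 𝓞 K) : K) * orb f z i := by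
      rw [← hZ, ← hZ, sub_eq_zero.1 h0]
    have := hinj (i + 1) (by omega) i (by omega) (mul_left_cancel₀ hcq h1)
    omega
  set n : ℕ → ℕ := fun i => fr (Nm K (a * D)) (Nm K (Z (i + 1) - Z i)) with hn
  have hn1 : ∀ i ≤ κ * d, 1 ≤ n i := fun i hi => fr_pos (Nm_pos (hT0 i hi))
  have hL1 : 1 ≤ LL d a H := LL_ge ha hH
  set X : ℝ := LL d a H ^ finrank ℚ K with hX
  have hX0 : 0 ≤ X := by positivity
  have hnK : (n (κ * d) : ℝ) ≤ X := by
    have h1 : n (κ * d) ≤ Nm K (Z (κ * d + 1) - Z (κ * d)) := fr_le (Nm_pos (hT0 (κ * d) le_rfl))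
    have h2 : house ((Z (κ * d + 1) - Z (κ * d) : 𝓞 K) : K) ≤ LL d a H := by
      refine house_le_of K (by linarith) fun σ => ?_
      rw [vsub, map_sub]
      refine (norm_sub_le _ _).trans ?_
      have h1 := (norm_embedding_le_house (Z (κ * d + 1) : K) σ).trans (hZH (κ * d + 1))
      have h2 := (norm_embedding_le_house (Z (κ * d) : K) σ).trans (hZH (κ * d))
      unfold LL
      linarith
    have h3 := Nm_le (by linarith) h2
    have h4 : (n (κ * d) : ℝ) ≤ (Nm K (Z (κ * d + 1) - Z (κ * d)) : ℝ) := by exact_mod_cast h1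
    exact h4.trans h3
  have hex : ∃ k < κ, n (k * d + d) ≤ QR κ X * n (k * d) := by
    by_contra hcon
    push Not at hcon
    have hch := fr_chain (nmE_dvd a D) (T := fun i => Z (i + 1) - Z i) hT0 hdvd
    have hgrow : ∀ k ≤ κ, (QR κ X + 1) ^ k ≤ n (k * d) := by
      intro k
      induction k with
      | zero =>
        intro _
        rw [pow_zero]
        exact hn1 _ (Nat.mul_le_mul_right _ (by omega))
      | succ k ih =>
        intro hk
        have h1 := ih (by omega)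
        have h2 := hcon k (by omega)
        have h3 : k * d + d ≤ κ * d := by
          calc k * d + d = (k + 1) * d := by ring
            _ ≤ κ * d := Nat.mul_le_mul_right _ hk
        obtain ⟨w, hw⟩ := hch (k * d + d) h3 (k * d) (by omega)
        have hw' : n (k * d + d) = n (k * d) * w := hw
        have h4 : QR κ X < w := by
          rw [hw', mul_comm] at h2
          exact lt_of_mul_lt_mul_left h2 (Nat.zero_le _)
        have h5 : (k + 1) * d = k * d + d := by ring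
        rw [h5, hw', pow_succ]
        exact Nat.mul_le_mul h1 h4
    have h1 := hgrow κ le_rfl
    have h2 := QR_lt (κ := κ) hX0 hκ
    have h3 : (((QR κ X + 1) ^ κ : ℕ) : ℝ) ≤ (n (κ * d) : ℝ) := by exact_mod_cast h1
    linarith
  obtain ⟨k, hk, hkn⟩ := hex
  have hkK : k * d + d ≤ κ * d := by
    calc k * d + d = (k + 1) * d := by ring
      _ ≤ κ * d := Nat.mul_le_mul_right _ hk
  refine ⟨hc, B, hB, orb f z (k * d), orb_pre hz _, ?_, ?_, ?_⟩
  · intro i hi j hj hij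
    rw [orb_orb, orb_orb] at hij
    have := hinj (k * d + i) (by omega) (k * d + j) (by omega) hij
    omega
  · rw [orb_orb, orb_orb]
    intro h0
    have := hinj (k * d + (d + 1)) (by omega) (k * d + d) (by omega) h0
    omega
  · intro s t hs ht
    rw [orb_orb, orb_orb] at hs ht
    have e3 : s = Z (k * d + 1) - Z (k * d) := by
      refine RingOfIntegers.coe_injective ?_
      show (s : K) = ((Z (k * d + 1) - Z (k * d) : 𝓞 K) : K)
      rw [hs, vsub, hZ, hZ, add_zero]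
      ring
    have e4 : t = Z (k * d + d + 1) - Z (k * d + d) := by
      refine RingOfIntegers.coe_injective ?_
      show (t : K) = ((Z (k * d + d + 1) - Z (k * d + d) : 𝓞 K) : K)
      rw [ht, vsub, hZ, hZ, ← add_assoc]
      ring
    rw [e3, e4]
    exact hkn

end Pool.Agent.X12.Nu
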