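import Pool.Agent.X12.Nu4
import Pool.Agent.X12.Nu1b

/-!
# The data of a rational polynomial with a long orbit over some number field of bounded degree
-/

set_option autoImplicit false

namespace Pool.Agent.X12.Nu

open NumberField Module Polynomial Function IntermediateField
open Pool.Agent.X12.Nf

/-! ### Maps of fields -/

section maps

variable {F1 F2 : Type*} [Field F1] [Field F2]

lemma orb_map (τ : F1 →+* F2) (f : F1[X]) (z : F1) (i : ℕ) :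
    orb (f.map τ) (τ z) i = τ (orb f z i) := by
  induction i with
  | zero => rfl
  | succ i ih => rw [orb_succ, orb_succ, ih, Polynomial.eval_map, Polynomial.eval₂_at_apply]

lemma pre_map (τ : F1 →+* F2) (f : F1[X]) (z : F1) :
    τ z ∈ Pre (f.map τ) ↔ z ∈ Pre f := by
  have h1 : (Set.range fun k : ℕ => (fun x => (f.map τ).eval x)^[k] (τ z)) =
      τ '' (Set.range fun k : ℕ => (fun x => f.eval x)^[k] z) := by
    rw [← Set.range_comp]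
    refine congrArg Set.range ?_
    funext k
    exact orb_map τ f z k
  unfold Pre
  rw [Set.mem_ofPred_eq, Set.mem_ofPred_eq, h1]
  exact Set.finite_image_iff τ.injective.injOn

lemma period_map (τ : F1 →+* F2) (f : F1[X]) (z : F1) :
    minimalPeriod (fun x => (f.map τ).eval x) (τ z) = minimalPeriod (fun x => f.eval x) z := by
  rw [minimalPeriod_eq_minimalPeriod_iff]
  intro k
  have h1 : (fun x => (f.map τ).eval x)^[k] (τ z) = τ ((fun x => f.eval x)^[k] z) :=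
    orb_map τ f z k
  unfold IsPeriodicPt IsFixedPt
  rw [h1]
  exact τ.injective.eq_iff

lemma rel_map (τ : F1 →+* F2) {d : ℕ} {a : F1} {f : F1[X]} {E : F1} {u : Fin d → F1}
    (h : Rel d a f E u) : Rel d (τ a) (f.map τ) (τ E) (fun i => τ (u i)) := by
  obtain ⟨h1, h2, h3, z, h4, h5, h6⟩ := h
  refine ⟨by rw [Polynomial.coeff_map, h1], by rw [Polynomial.natDegree_map, h2],
    by rw [Polynomial.coeff_map, h3, map_zero], fun i => τ (z i), ?_, ?_, ?_⟩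
  · intro i
    show τ (z (i + 1)) = (f.map τ).eval (τ (z i))
    rw [h4, Polynomial.eval_map, Polynomial.eval₂_at_apply]
  · intro i hi j hj hij
    exact h5 i hi j hj (τ.injective hij)
  · intro i
    have := congrArg τ (h6 i)
    rw [map_mul, map_mul, map_sub, map_sub] at this
    exact this

end maps

/-! ### The field generated by a complex number -/

/-- the integers of `ℚ(Z)` of house at most `Y` whose norm is supported on the primes of `N` -/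
def FUC (Z : ℂ) (Y : ℝ) (N : ℕ) : Set ℂ :=
  {u | ∃ (_ : NumberField ℚ⟮Z⟯) (w : 𝓞 ℚ⟮Z⟯), w ∈ FU ℚ⟮Z⟯ Y N ∧ u = ((w : ℚ⟮Z⟯) : ℂ)}

lemma nf_adjoin {Z : ℂ} (hZ : IsIntegral ℤ Z) : NumberField ℚ⟮Z⟯ := by
  have h1 : IsIntegral ℚ Z := hZ.tower_top
  have : FiniteDimensional ℚ ℚ⟮Z⟯ := adjoin.finiteDimensional h1
  exact { to_charZero := inferInstance, to_finiteDimensional := inferInstance }

lemma finrank_adjoin {Z : ℂ} (hZ : IsIntegral ℤ Z) {n : ℕ} (hn : (minpoly ℚ Z).natDegree ≤ n) :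
    finrank ℚ ℚ⟮Z⟯ ≤ n := by
  rw [adjoin.finrank (hZ.tower_top : IsIntegral ℚ Z)]
  exact hn

theorem FUC_card (n : ℕ) (ε : ℝ) (hε : 0 < ε) : ∃ C : ℝ, 0 < C ∧ ∀ (Z : ℂ), IsIntegral ℤ Z →
    (minpoly ℚ Z).natDegree ≤ n → ∀ (Y : ℝ) (N : ℕ), 1 ≤ Y → 1 ≤ N →
    (FUC Z Y N).Finite ∧ ((FUC Z Y N).ncard : ℝ) ≤ C * Y ^ ε * (N : ℝ) ^ ε := by
  obtain ⟨C, hC, h⟩ := FU_card_u n ε hε
  refine ⟨C, hC, fun Z hZ hn Y N hY hN => ?_⟩
  have := nf_adjoin hZ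
  obtain ⟨h1, h2⟩ := h ℚ⟮Z⟯ (finrank_adjoin hZ hn) Y N hY hN
  have h3 : FUC Z Y N = (fun w : 𝓞 ℚ⟮Z⟯ => ((w : ℚ⟮Z⟯) : ℂ)) '' (FU ℚ⟮Z⟯ Y N) := by
    ext u
    constructor
    · rintro ⟨_, w, hw, rfl⟩
      exact ⟨w, hw, rfl⟩
    · rintro ⟨w, hw, rfl⟩
      exact ⟨inferInstance, w, hw, rfl⟩
  rw [h3]
  refine ⟨h1.image _, le_trans ?_ h2⟩
  exact_mod_cast Set.ncard_image_le h1

/-! ### Integers -/

section ints

variable {K : Type} [Field K] [NumberField K]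

lemma house_int (x : ℤ) : house (((x : ℤ) : 𝓞 K) : K) = |(x : ℝ)| := by
  have h : (((x : ℤ) : 𝓞 K) : K) = (x : K) := map_intCast (algebraMap (𝓞 K) K) x
  rw [h, house_intCast]
  push_cast
  rfl

lemma Nm_nat (x : ℕ) : Nm K ((x : ℕ) : 𝓞 K) = x ^ finrank ℚ K := by
  unfold Nm
  rw [Ideal.absNorm_span_natCast, RingOfIntegers.rank]

lemma Nm_int (x : ℤ) : Nm K ((x : ℤ) : 𝓞 K) = x.natAbs ^ finrank ℚ K := by
  rcases Int.natAbs_eq x with h | h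
  · rw [h, Int.cast_natCast, Nm_nat, Int.natAbs_natCast]
  · have e : Nm K ((x : ℤ) : 𝓞 K) = Nm K ((x.natAbs : ℕ) : 𝓞 K) := by
      conv_lhs => rw [h]
      rw [Int.cast_neg, Int.cast_natCast]
      unfold Nm
      rw [Ideal.span_singleton_neg]
    rw [e, Nm_nat]

end ints

/-- the integral form of a rational polynomial over every number field -/
lemma fm_of_fam {d : ℕ} {a : ℤ} (ha : a ≠ 0) {H : ℕ} {f : ℚ[X]} (hf : f ∈ Pg.Fam d a H) :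
    ∃ (D : ℕ) (B : ℕ → ℤ), 1 ≤ D ∧ D ≤ H ∧ ∀ (K : Type) [Field K] [NumberField K],
      (f.map (algebraMap ℚ K)).coeff (d - 1) = 0 ∧
      Fm d ((a : ℤ) : 𝓞 K) (H : ℝ) (f.map (algebraMap ℚ K)) ((D : ℤ) : 𝓞 K)
        (fun i => ((B i : ℤ) : 𝓞 K)) := by
  obtain ⟨hc, D, B, hB⟩ := Pg.fam_bd ha hf
  refine ⟨D, B, hB.dat.D1, hB.DH, fun K _ _ => ⟨?_, ?_⟩⟩
  · rw [Polynomial.coeff_map, hc, map_zero]
  have hD1 := hB.dat.D1
  refine ⟨by exact_mod_cast ha, ?_, ?_, ?_, ?_, ?_, ?_⟩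
  · have : (D : ℤ) ≠ 0 := by omega
    exact_mod_cast this
  · rw [Polynomial.natDegree_map, hB.dat.deg]
  · rw [Polynomial.coeff_map, hB.dat.lc, map_intCast]
    exact (map_intCast (algebraMap (𝓞 K) K) a).symm
  · rw [house_int, Int.cast_natCast, abs_of_nonneg (Nat.cast_nonneg _)]
    exact_mod_cast hB.DH
  · intro i hi
    have h1 := congrArg (algebraMap ℚ K) (hB.dat.hB i hi)
    rw [map_intCast, map_mul, map_pow, map_natCast, ← Polynomial.coeff_map] at h1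
    have e1 : (((B i : ℤ) : 𝓞 K) : K) = ((B i : ℤ) : K) := map_intCast (algebraMap (𝓞 K) K) _
    have e2 : ((((D : ℕ) : ℤ) : 𝓞 K) : K) = (D : K) := by
      have := map_intCast (algebraMap (𝓞 K) K) ((D : ℕ) : ℤ)
      rw [Int.cast_natCast (R := K)] at this
      exact this
    rw [e1, e2]
    exact h1
  · intro i hi
    rw [house_int]
    exact_mod_cast hB.BH i hi

/-- the uniform bound of the quotients -/
noncomputable def YU (n d : ℕ) (a : ℤ) (H : ℕ) : ℝ :=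
  (|(a : ℝ)| * H) ^ (d - 1) * (2 * (d + 1) * (|(a : ℝ)| * H)) ^ n

/-- the finite set of the data -/
noncomputable def FDC (n d : ℕ) (a : ℤ) (H Q : ℕ) : Finset (Σ _ : (ℕ × ℕ) × ℂ, (Fin d → ℂ)) :=
  ((Finset.Icc 1 H ×ˢ Finset.Icc 1 Q) ×ˢ fs (AT n (3 * ((d + 1) * (|(a : ℝ)| * H))))).sigma
    fun x => Fintype.piFinset fun _ : Fin d =>
      fs (FUC x.2 (YU n d a H) (a.natAbs * (x.1.1 * x.1.2)))

/-- the multiplier -/
noncomputable def EC (d : ℕ) (a : ℤ) (D : ℕ) : ℂ := ((a ^ (d - 2) * (D : ℤ) ^ (d - 1) : ℤ) : ℂ)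

theorem data_of {n d : ℕ} (hd : 2 ≤ d) {a : ℤ} (ha : a ≠ 0) {H : ℕ} (hH : 1 ≤ H) {Q : ℕ}
    {f : ℚ[X]} {D : ℕ} (hD : 1 ≤ D) (hDH : D ≤ H)
    {K : Type} [Field K] [NumberField K] {B : ℕ → 𝓞 K}
    (hfm : Fm d ((a : ℤ) : 𝓞 K) (H : ℝ) (f.map (algebraMap ℚ K)) ((D : ℤ) : 𝓞 K) B)
    (hK : finrank ℚ K ≤ n) {z : K} (hz : z ∈ Pre (f.map (algebraMap ℚ K)))
    (hbad : ∀ (L : Type) [Field L] [NumberField L], finrank ℚ L ≤ n → ∀ (y : L),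
      (∃ (τ : L →+* ℂ) (σ : K →+* ℂ), τ y = σ z) →
      BadD d ((a : ℤ) : 𝓞 L) (H : ℝ) Q (f.map (algebraMap ℚ L)) ((D : ℤ) : 𝓞 L)) :
    ∃ b ∈ FDC n d a H Q, 1 ≤ b.1.1.1 ∧
      Rel d (a : ℂ) (f.map (algebraMap ℚ ℂ)) (EC d a b.1.1.1) b.2 := by
  classical
  have haR : (1 : ℝ) ≤ |(a : ℝ)| := by exact_mod_cast Int.one_le_abs ha
  have hHR : (1 : ℝ) ≤ H := by exact_mod_cast hH
  obtain ⟨σ⟩ : Nonempty (K →+* ℂ) := inferInstance
  have hbd := fm_bd hd hHR hfm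
  obtain ⟨Z', hZ'⟩ := pre_int hbd hd hz
  have hZ'H : house (Z' : K) ≤ (d + 1) * (|(a : ℝ)| * H) := by
    refine house_le_of K (by positivity) fun τ => ?_
    rw [hZ']
    have := pre_abs hbd hd hz τ
    rw [house_int] at this
    exact this
  have hX1' : (1 : ℝ) ≤ (d + 1) * (|(a : ℝ)| * H) := by
    have h1 : 1 ≤ |(a : ℝ)| * H := by nlinarith
    have h2 : (0 : ℝ) ≤ d := Nat.cast_nonneg d
    nlinarith
  obtain ⟨s, hs⟩ := exists_shift hX1' (mem_AI hK hZ'H σ)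
  set Z : ℂ := σ (Z' : K) + (s : ℂ) with hZdef
  have hZAI : Z ∈ AT n (3 * ((d + 1) * (|(a : ℝ)| * H))) := hs
  have hZint := hZAI.1.1
  have hZn := hZAI.1.2.1
  have hnf := nf_adjoin hZint
  have hLn := finrank_adjoin hZint hZn
  -- the point in `ℚ(Z)`
  have haD : ((a * (D : ℤ) : ℤ) : ℂ) ≠ 0 := by
    have : a * (D : ℤ) ≠ 0 := mul_ne_zero ha (by omega)
    exact_mod_cast this
  have hZz : Z - (s : ℂ) = ((a * (D : ℤ) : ℤ) : ℂ) * σ z := by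
    rw [hZdef, add_sub_cancel_right, hZ', map_mul]
    congr 1
    have e1 : ((((a : ℤ) : 𝓞 K) * ((D : ℤ) : 𝓞 K) : 𝓞 K) : K) = ((a * (D : ℤ) : ℤ) : K) := by
      rw [← Int.cast_mul]
      exact map_intCast (algebraMap (𝓞 K) K) _
    rw [e1, map_intCast]
  set y : ℚ⟮Z⟯ := (AdjoinSimple.gen ℚ Z - (s : ℚ⟮Z⟯)) / ((a * (D : ℤ) : ℤ) : ℚ⟮Z⟯) with hy
  set τ : ℚ⟮Z⟯ →+* ℂ := algebraMap ℚ⟮Z⟯ ℂ with hτ
  have hτy : τ y = σ z := by
    rw [hy, map_div₀, map_intCast, map_sub, map_intCast, hτ, AdjoinSimple.algebraMap_gen,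
      div_eq_iff haD, hZz, mul_comm]
  have hB' := hbad ℚ⟮Z⟯ hLn y ⟨τ, σ, hτy⟩
  obtain ⟨q, hq1, hqQ, U, hU, hrel⟩ := bad_dataD hd hHR hB'
  have hrel' := rel_map τ hrel
  refine ⟨⟨((D, q), Z), fun i => τ (U i : ℚ⟮Z⟯)⟩, ?_, hD, ?_⟩
  · obtain ⟨C1, -, hAI⟩ := AT_card n
    obtain ⟨C2, -, hFU⟩ := FUC_card n 1 one_pos
    have hX1 : (1 : ℝ) ≤ 3 * ((d + 1) * (|(a : ℝ)| * H)) := by linarith
    have hM1 : 1 ≤ |(a : ℝ)| * H := by nlinarith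
    have hL1 : (1 : ℝ) ≤ 2 * (d + 1) * (|(a : ℝ)| * H) := by nlinarith
    have hY1 : 1 ≤ YU n d a H := by
      unfold YU
      have h1 : 1 ≤ (|(a : ℝ)| * H) ^ (d - 1) := one_le_pow₀ hM1
      have h2 : 1 ≤ (2 * (d + 1) * (|(a : ℝ)| * H)) ^ n := one_le_pow₀ hL1
      nlinarith
    have hN1 : 1 ≤ a.natAbs * (D * q) :=
      Nat.mul_pos (Int.natAbs_pos.2 ha) (Nat.mul_pos hD hq1)
    unfold FDC
    rw [Finset.mem_sigma, Finset.mem_product, Finset.mem_product, Finset.mem_Icc, Finset.mem_Icc,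
      mem_fs (hAI _ hX1).1, Fintype.mem_piFinset]
    refine ⟨⟨⟨⟨hD, hDH⟩, hq1, hqQ⟩, hZAI⟩, fun i => ?_⟩
    rw [mem_fs (hFU Z hZint hZn _ _ hY1 hN1).1]
    obtain ⟨u1, u2, u3⟩ := hU i
    refine ⟨hnf, U i, ⟨u1, u2.trans ?_, u3.trans ?_⟩, rfl⟩
    · unfold YY YU
      have e1 : LL d ((a : ℤ) : 𝓞 ℚ⟮Z⟯) (H : ℝ) = 2 * (d + 1) * (|(a : ℝ)| * H) := by
        unfold LL
        rw [house_int]
      rw [e1, house_int]
      refine mul_le_mul_of_nonneg_left ?_ (by positivity)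
      exact pow_le_pow_right₀ hL1 hLn
    · intro p hp
      have hpp := Nat.prime_of_mem_primeFactors hp
      have hpd := Nat.dvd_of_mem_primeFactors hp
      rw [Nm_mul, Nm_int, Nm_int, Int.natAbs_natCast] at hpd
      rw [Nat.mem_primeFactors]
      refine ⟨hpp, ?_, by omega⟩
      rcases (Nat.Prime.dvd_mul hpp).1 hpd with h1 | h1
      · rcases (Nat.Prime.dvd_mul hpp).1 h1 with h2 | h2
        · exact (hpp.dvd_of_dvd_pow h2).mul_right _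
        · exact ((hpp.dvd_of_dvd_pow h2).mul_right _).mul_left _
      · exact (h1.mul_left _).mul_left _
  · have e1 : τ ((((a : ℤ) : 𝓞 ℚ⟮Z⟯)) : ℚ⟮Z⟯) = (a : ℂ) := by
      have := map_intCast (algebraMap (𝓞 ℚ⟮Z⟯) ℚ⟮Z⟯) a
      show τ (algebraMap (𝓞 ℚ⟮Z⟯) ℚ⟮Z⟯ ((a : ℤ) : 𝓞 ℚ⟮Z⟯)) = _
      rw [this, map_intCast]
    have e2 : τ (((((a : ℤ) : 𝓞 ℚ⟮Z⟯) ^ (d - 2) * ((D : ℤ) : 𝓞 ℚ⟮Z⟯) ^ (d - 1) : 𝓞 ℚ⟮Z⟯)) :
        ℚ⟮Z⟯) = EC d a D := by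
      unfold EC
      have h1 : (((a : ℤ) : 𝓞 ℚ⟮Z⟯) ^ (d - 2) * ((D : ℤ) : 𝓞 ℚ⟮Z⟯) ^ (d - 1) : 𝓞 ℚ⟮Z⟯) =
          ((a ^ (d - 2) * (D : ℤ) ^ (d - 1) : ℤ) : 𝓞 ℚ⟮Z⟯) := by
        push_cast
        rfl
      rw [h1]
      have := map_intCast (algebraMap (𝓞 ℚ⟮Z⟯) ℚ⟮Z⟯) (a ^ (d - 2) * (D : ℤ) ^ (d - 1))
      show τ (algebraMap (𝓞 ℚ⟮Z⟯) ℚ⟮Z⟯ _) = _
      rw [this, map_intCast]
    have e3 : (f.map (algebraMap ℚ ℚ⟮Z⟯)).map τ = f.map (algebraMap ℚ ℂ) := by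
      rw [Polynomial.map_map]
      congr 1
    rw [e1, e2, e3] at hrel'
    exact hrel'

end Pool.Agent.X12.Nu
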