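import Pool.Agent.X12.Nu5

/-!
# The exceptional polynomials and their number
-/

set_option autoImplicit false

namespace Pool.Agent.X12.Nu

open NumberField Module Polynomial Function IntermediateField
open Pool.Agent.X12.Nf

/-- cycles -/
theorem cyc_data {n d : ℕ} (hd : 2 ≤ d) {a : ℤ} (ha : a ≠ 0) {H : ℕ} (hH : 1 ≤ H)
    {f : ℚ[X]} (hf : f ∈ Pg.Fam d a H) {K : Type} [Field K] [NumberField K]
    (hK : finrank ℚ K ≤ n) {z : K}
    (hz : d < minimalPeriod (fun x => (f.map (algebraMap ℚ K)).eval x) z) :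
    ∃ b ∈ FDC n d a H 1, 1 ≤ b.1.1.1 ∧
      Rel d (a : ℂ) (f.map (algebraMap ℚ ℂ)) (EC d a b.1.1.1) b.2 := by
  have hHR : (1 : ℝ) ≤ H := by exact_mod_cast hH
  obtain ⟨D, B, hD, hDH, hall⟩ := fm_of_fam ha hf
  have hper : z ∈ periodicPts (fun x => (f.map (algebraMap ℚ K)).eval x) :=
    minimalPeriod_pos_iff_mem_periodicPts.1 (by omega)
  refine data_of hd ha hH hD hDH (hall K).2 hK (pre_of_periodic hper) ?_
  intro L _ _ _ y hy
  obtain ⟨τ, σ, hτ⟩ := hy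
  refine cyc_badD hd hHR (hall L).1 (hall L).2 (z := y) ?_
  have e1 : (f.map (algebraMap ℚ L)).map τ = f.map (algebraMap ℚ ℂ) := by
    rw [Polynomial.map_map]
    congr 1
    exact Subsingleton.elim _ _
  have e2 : (f.map (algebraMap ℚ K)).map σ = f.map (algebraMap ℚ ℂ) := by
    rw [Polynomial.map_map]
    congr 1
    exact Subsingleton.elim _ _
  rw [← period_map τ, e1, hτ, ← e2, period_map σ]
  exact hz

/-- long orbits -/
theorem orb_data {n d : ℕ} (hd : 2 ≤ d) {a : ℤ} (ha : a ≠ 0) {H : ℕ} (hH : 1 ≤ H) {κ : ℕ}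
    (hκ : 1 ≤ κ) {f : ℚ[X]} (hf : f ∈ Pg.Fam d a H) {K : Type} [Field K] [NumberField K]
    (hK : finrank ℚ K ≤ n) {z : K} (hz : z ∈ Pre (f.map (algebraMap ℚ K)))
    (hinj : ∀ i ≤ κ * d + 1, ∀ j ≤ κ * d + 1, orb (f.map (algebraMap ℚ K)) z i =
      orb (f.map (algebraMap ℚ K)) z j → i = j) :
    ∃ b ∈ FDC n d a H (QR κ ((2 * (d + 1) * (|(a : ℝ)| * H)) ^ n)), 1 ≤ b.1.1.1 ∧
      Rel d (a : ℂ) (f.map (algebraMap ℚ ℂ)) (EC d a b.1.1.1) b.2 := by
  have hHR : (1 : ℝ) ≤ H := by exact_mod_cast hH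
  have haR : (1 : ℝ) ≤ |(a : ℝ)| := by exact_mod_cast Int.one_le_abs ha
  obtain ⟨D, B, hD, hDH, hall⟩ := fm_of_fam ha hf
  refine data_of hd ha hH hD hDH (hall K).2 hK hz ?_
  intro L _ _ hL y hy
  obtain ⟨τ, σ, hτ⟩ := hy
  have e1 : (f.map (algebraMap ℚ L)).map τ = f.map (algebraMap ℚ ℂ) := by
    rw [Polynomial.map_map]
    congr 1
    exact Subsingleton.elim _ _
  have e2 : (f.map (algebraMap ℚ K)).map σ = f.map (algebraMap ℚ ℂ) := by
    rw [Polynomial.map_map]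
    congr 1
    exact Subsingleton.elim _ _
  have hpre : y ∈ Pre (f.map (algebraMap ℚ L)) := by
    rw [← pre_map τ, e1, hτ, ← e2, pre_map σ]
    exact hz
  have horb : ∀ i, τ (orb (f.map (algebraMap ℚ L)) y i) = σ (orb (f.map (algebraMap ℚ K)) z i) := by
    intro i
    rw [← orb_map, ← orb_map, e1, e2, hτ]
  have h1 := orb_badD hd hHR hκ (hall L).1 (hall L).2 hpre (fun i hi j hj hij => by
    refine hinj i hi j hj ?_
    refine σ.injective ?_
    rw [← horb, ← horb, hij])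
  refine h1.mono ?_
  have hL' : LL d ((a : ℤ) : 𝓞 L) (H : ℝ) = 2 * (d + 1) * (|(a : ℝ)| * H) := by
    unfold LL
    rw [house_int]
  rw [hL']
  have hM1 : 1 ≤ |(a : ℝ)| * H := by nlinarith
  have hL1 : (1 : ℝ) ≤ 2 * (d + 1) * (|(a : ℝ)| * H) := by
    have h2 : (0 : ℝ) ≤ d := Nat.cast_nonneg d
    nlinarith
  unfold QR
  refine Nat.floor_le_floor ?_
  refine Real.rpow_le_rpow (by positivity) (pow_le_pow_right₀ hL1 hL) (by positivity)

theorem bad_card {n d : ℕ} (hd : 2 ≤ d) {a : ℤ} (ha : a ≠ 0) {H Q : ℕ} {S : Set ℚ[X]}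
    (hS : ∀ f ∈ S, ∃ b ∈ FDC n d a H Q, 1 ≤ b.1.1.1 ∧
      Rel d (a : ℂ) (f.map (algebraMap ℚ ℂ)) (EC d a b.1.1.1) b.2) :
    S.Finite ∧ S.ncard ≤ (FDC n d a H Q).card * (d - 1) := by
  have hinj : Function.Injective (fun f : ℚ[X] => f.map (algebraMap ℚ ℂ)) :=
    Polynomial.map_injective _ (algebraMap ℚ ℂ).injective
  obtain ⟨h1, h2⟩ := card_of_fibre (S := (fun f : ℚ[X] => f.map (algebraMap ℚ ℂ)) '' S) d hd
    (FDC n d a H Q)
    (fun f b => 1 ≤ b.1.1.1 ∧ Rel d (a : ℂ) f (EC d a b.1.1.1) b.2)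
    (by
      rintro _ ⟨f, hf, rfl⟩
      exact hS f hf)
    (fun f f' b h h' => by
      refine rel_scale hd (by exact_mod_cast ha) ?_ h.2 h'.2
      unfold EC
      have h0 : b.1.1.1 ≠ 0 := by
        have := h.1
        omega
      have : a ^ (d - 2) * (b.1.1.1 : ℤ) ^ (d - 1) ≠ 0 :=
        mul_ne_zero (pow_ne_zero _ ha) (pow_ne_zero _ (by exact_mod_cast h0))
      exact_mod_cast this)
  rw [Set.ncard_image_of_injective _ hinj] at h2
  exact ⟨Set.Finite.of_finite_image h1 hinj.injOn, h2⟩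

theorem FDC_card (n : ℕ) {d : ℕ} (hd : 2 ≤ d) (m : ℕ) (ε : ℝ) (hε : 0 < ε) : ∃ C : ℝ, 0 < C ∧
    ∀ (a : ℤ) (H Q : ℕ), 1 ≤ H → a ≠ 0 → |a| ≤ (H : ℤ) ^ m →
    (Q : ℝ) ≤ (2 * (d + 1) * (|(a : ℝ)| * H)) ^ n →
    ((FDC n d a H Q).card : ℝ) ≤
      C * (H : ℝ) ^ (((1 + (m + 1) * (n * (n + 1) / 2 - 1) : ℕ) : ℝ) + ε) * Q := by
  classical
  set P : ℕ := (d - 1 + n) + (2 + n) with hP
  have hP0 : 0 < P := by omega
  have hd0 : (0 : ℝ) < d := by exact_mod_cast (by omega : 0 < d)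
  have hPr : (0 : ℝ) < P := by exact_mod_cast hP0
  set η := ε / (d * ((m + 1) * P)) with hη
  have hη0 : 0 < η := by positivity
  obtain ⟨C0, hC0, hFU⟩ := FUC_card n η hη0
  obtain ⟨C1, hC1, hAI⟩ := AT_card n
  set A : ℝ := 2 * (d + 1) with hA
  have hA1 : 1 ≤ A := by rw [hA]; linarith
  refine ⟨(C1 * (2 * A) ^ (n * (n + 1) / 2 - 1)) * (C0 ^ d * (A ^ P) ^ (η * d)), by positivity,
    fun a H Q hH ha haH hQ => ?_⟩
  have hHR : (1 : ℝ) ≤ H := by exact_mod_cast hH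
  have hH0 : (0 : ℝ) < H := by linarith
  have haR : (1 : ℝ) ≤ |(a : ℝ)| := by exact_mod_cast Int.one_le_abs ha
  have haH' : |(a : ℝ)| ≤ (H : ℝ) ^ m := by exact_mod_cast haH
  set W : ℝ := A * (H : ℝ) ^ (m + 1) with hW
  have hHm : 1 ≤ (H : ℝ) ^ (m + 1) := one_le_pow₀ hHR
  have hW1 : 1 ≤ W := by rw [hW]; nlinarith
  set M : ℝ := |(a : ℝ)| * H with hM
  have hM1 : 1 ≤ M := by rw [hM]; nlinarith
  have hMH : M ≤ (H : ℝ) ^ (m + 1) := by
    rw [hM, pow_succ]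
    exact mul_le_mul_of_nonneg_right haH' hH0.le
  have hMW : M ≤ W := by
    rw [hW]
    nlinarith
  have hLW : A * M ≤ W := by
    rw [hW]
    exact mul_le_mul_of_nonneg_left hMH (by linarith)
  have hL1 : 1 ≤ A * M := by nlinarith
  have hX1 : (1 : ℝ) ≤ 3 * ((d + 1) * M) := by nlinarith
  have hYU : YU n d a H = M ^ (d - 1) * (A * M) ^ n := rfl
  have hY1 : 1 ≤ YU n d a H := by
    rw [hYU]
    have h1 : 1 ≤ M ^ (d - 1) := one_le_pow₀ hM1
    have h2 : 1 ≤ (A * M) ^ n := one_le_pow₀ hL1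
    nlinarith
  have hYW : YU n d a H ≤ W ^ (d - 1 + n) := by
    rw [hYU, pow_add]
    exact mul_le_mul (pow_le_pow_left₀ (by linarith) hMW _)
      (pow_le_pow_left₀ (by linarith) hLW _) (by positivity) (by positivity)
  set B : ℝ := C0 * (W ^ P) ^ η with hB
  have hB0 : 0 ≤ B := by positivity
  have key : ∀ (Z : ℂ) (D q : ℕ), Z ∈ AT n (3 * ((d + 1) * M)) → 1 ≤ D → D ≤ H → 1 ≤ q → q ≤ Q →
      ((fs (FUC Z (YU n d a H) (a.natAbs * (D * q)))).card : ℝ) ≤ B := by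
    intro Z D q hZ hD hDH hq hqQ
    have hN1 : 1 ≤ a.natAbs * (D * q) :=
      Nat.mul_pos (Int.natAbs_pos.2 ha) (Nat.mul_pos hD hq)
    obtain ⟨h1, h2⟩ := hFU Z hZ.1.1 hZ.1.2.1 (YU n d a H) (a.natAbs * (D * q)) hY1 hN1
    rw [card_fs h1]
    refine h2.trans ?_
    rw [hB, mul_assoc, ← Real.mul_rpow (by linarith) (Nat.cast_nonneg _)]
    refine mul_le_mul_of_nonneg_left ?_ hC0.le
    refine Real.rpow_le_rpow (mul_nonneg (by linarith) (Nat.cast_nonneg _)) ?_ hη0.le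
    rw [hP, pow_add W (d - 1 + n)]
    refine mul_le_mul hYW ?_ (Nat.cast_nonneg _) (by positivity)
    have e1 : ((a.natAbs * (D * q) : ℕ) : ℝ) = (|(a : ℝ)| * D) * q := by
      push_cast
      rw [Nat.cast_natAbs]
      push_cast
      ring
    rw [e1, pow_add]
    refine mul_le_mul ?_ ?_ (Nat.cast_nonneg _) (by positivity)
    · have h3 : |(a : ℝ)| * D ≤ M := by
        rw [hM]
        refine mul_le_mul_of_nonneg_left ?_ (abs_nonneg _)
        exact_mod_cast hDH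
      have h4 : W ≤ W ^ 2 := by nlinarith
      linarith
    · have h3 : (q : ℝ) ≤ Q := by exact_mod_cast hqQ
      exact h3.trans (hQ.trans (pow_le_pow_left₀ (by linarith) hLW _))
  have hcard : ((FDC n d a H Q).card : ℝ) ≤
      ((H * Q : ℝ) * (fs (AT n (3 * ((d + 1) * M)))).card) * B ^ d := by
    unfold FDC
    rw [Finset.card_sigma]
    push_cast
    have h1 : ∀ x ∈ (Finset.Icc 1 H ×ˢ Finset.Icc 1 Q) ×ˢ
        fs (AT n (3 * ((d + 1) * (|(a : ℝ)| * H)))),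
        (((Fintype.piFinset fun _ : Fin d => fs (FUC x.2 (YU n d a H)
          (a.natAbs * (x.1.1 * x.1.2)))).card : ℕ) : ℝ) ≤ B ^ d := by
      intro x hx
      rw [Finset.mem_product, Finset.mem_product, Finset.mem_Icc, Finset.mem_Icc,
        mem_fs (hAI _ hX1).1] at hx
      obtain ⟨⟨⟨a1, a2⟩, a3, a4⟩, a5⟩ := hx
      rw [Fintype.card_piFinset_const]
      push_cast
      exact pow_le_pow_left₀ (Nat.cast_nonneg _) (key _ _ _ a5 a1 a2 a3 a4) _
    refine (Finset.sum_le_card_nsmul _ _ _ h1).trans (le_of_eq ?_)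
    rw [Finset.card_product, Finset.card_product, Nat.card_Icc, Nat.card_Icc, nsmul_eq_mul, ← hM]
    push_cast
    simp
  have hai : ((fs (AT n (3 * ((d + 1) * M)))).card : ℝ) ≤
      C1 * (2 * A) ^ (n * (n + 1) / 2 - 1) * (H : ℝ) ^ ((m + 1) * (n * (n + 1) / 2 - 1)) := by
    rw [card_fs (hAI _ hX1).1]
    refine (hAI _ hX1).2.trans ?_
    rw [mul_assoc]
    refine mul_le_mul_of_nonneg_left ?_ hC1.le
    rw [pow_mul, ← mul_pow]
    refine pow_le_pow_left₀ (by linarith) ?_ _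
    rw [hA]
    have h5 : ((d : ℝ) + 1) * M ≤ (d + 1) * (H : ℝ) ^ (m + 1) :=
      mul_le_mul_of_nonneg_left hMH (by positivity)
    have h6 : 0 ≤ ((d : ℝ) + 1) * (H : ℝ) ^ (m + 1) := by positivity
    linarith
  refine hcard.trans ?_
  have e4 : B ^ d = C0 ^ d * (A ^ P) ^ (η * d) * (H : ℝ) ^ ε := by
    have e5 : (W ^ P) ^ (η * d) = (A ^ P) ^ (η * d) * (H : ℝ) ^ ε := by
      rw [hW, mul_pow, Real.mul_rpow (by positivity) (by positivity)]
      congr 1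
      rw [← pow_mul, ← Real.rpow_natCast, ← Real.rpow_mul hH0.le]
      congr 1
      rw [hη]
      push_cast
      field_simp
    rw [hB, mul_pow, ← Real.rpow_natCast ((W ^ P) ^ η) d, ← Real.rpow_mul (by positivity), e5]
    ring
  have e6 : (H : ℝ) ^ (1 + (m + 1) * (n * (n + 1) / 2 - 1)) =
      H * (H : ℝ) ^ ((m + 1) * (n * (n + 1) / 2 - 1)) := by rw [pow_add, pow_one]
  rw [e4, Real.rpow_add hH0, Real.rpow_natCast, e6]
  calc ((H * Q : ℝ) * (fs (AT n (3 * ((d + 1) * M)))).card) *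
        (C0 ^ d * (A ^ P) ^ (η * d) * (H : ℝ) ^ ε) ≤
        ((H * Q : ℝ) * (C1 * (2 * A) ^ (n * (n + 1) / 2 - 1) *
          (H : ℝ) ^ ((m + 1) * (n * (n + 1) / 2 - 1)))) *
        (C0 ^ d * (A ^ P) ^ (η * d) * (H : ℝ) ^ ε) := by
        refine mul_le_mul_of_nonneg_right ?_ (by positivity)
        exact mul_le_mul_of_nonneg_left hai (by positivity)
    _ = _ := by ring

end Pool.Agent.X12.Nu
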