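import Pool.Agent.X12.Nu6

/-!
# The counts, for all number fields of bounded degree at once
-/

set_option autoImplicit false

namespace Pool.Agent.X12.Nu

open NumberField Module Polynomial Function IntermediateField
open Pool.Agent.X12.Nf

/-- cycles -/
theorem cyc_count (n : ℕ) {d : ℕ} (hd : 2 ≤ d) (m : ℕ) (ε : ℝ) (hε : 0 < ε) : ∃ C : ℝ, 0 < C ∧
    ∀ (H : ℕ) (a : ℤ), 1 ≤ H → a ≠ 0 → |a| ≤ (H : ℤ) ^ m → ∀ S : Set ℚ[X],
    (∀ f ∈ S, f ∈ Pg.Fam d a H ∧ ∃ (K : Type) (_ : Field K) (_ : NumberField K),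
      finrank ℚ K ≤ n ∧ ∃ z : K, d < minimalPeriod (fun x => (f.map (algebraMap ℚ K)).eval x) z) →
    (S.ncard : ℝ) ≤ C * (H : ℝ) ^ (((1 + (m + 1) * (n * (n + 1) / 2 - 1) : ℕ) : ℝ) + ε) := by
  obtain ⟨C, hC, h⟩ := FDC_card n hd m ε hε
  have hd1 : (0 : ℝ) < (d - 1 : ℕ) := by exact_mod_cast (by omega : 0 < d - 1)
  refine ⟨C * (d - 1 : ℕ), by positivity, fun H a hH ha haH S hS => ?_⟩
  have hHR : (1 : ℝ) ≤ H := by exact_mod_cast hH
  have haR : (1 : ℝ) ≤ |(a : ℝ)| := by exact_mod_cast Int.one_le_abs ha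
  obtain ⟨-, h2⟩ := bad_card (n := n) (Q := 1) hd ha (S := S) (fun f hf => by
    obtain ⟨h1, K, _, _, h2, z, h3⟩ := hS f hf
    exact cyc_data hd ha hH h1 h2 h3)
  have hL1 : (1 : ℝ) ≤ 2 * (d + 1) * (|(a : ℝ)| * H) := by
    have h1 : 1 ≤ |(a : ℝ)| * H := by nlinarith
    have h2 : (0 : ℝ) ≤ d := Nat.cast_nonneg d
    nlinarith
  have h5 := h a H 1 hH ha haH (by
    rw [Nat.cast_one]
    exact one_le_pow₀ hL1)
  rw [Nat.cast_one, mul_one] at h5
  have h6 : (S.ncard : ℝ) ≤ ((FDC n d a H 1).card : ℝ) * (d - 1 : ℕ) := by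
    exact_mod_cast h2
  refine h6.trans ?_
  calc ((FDC n d a H 1).card : ℝ) * (d - 1 : ℕ) ≤
        (C * (H : ℝ) ^ (((1 + (m + 1) * (n * (n + 1) / 2 - 1) : ℕ) : ℝ) + ε)) * (d - 1 : ℕ) :=
        mul_le_mul_of_nonneg_right h5 hd1.le
    _ = _ := by ring

/-- long orbits -/
theorem long_count (n : ℕ) {d : ℕ} (hd : 2 ≤ d) (m : ℕ) {κ : ℕ} (hκ : 1 ≤ κ) (ε : ℝ)
    (hε : 0 < ε) : ∃ C : ℝ, 0 < C ∧
    ∀ (H : ℕ) (a : ℤ), 1 ≤ H → a ≠ 0 → |a| ≤ (H : ℤ) ^ m → ∀ S : Set ℚ[X],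
    (∀ f ∈ S, f ∈ Pg.Fam d a H ∧ ∃ (K : Type) (_ : Field K) (_ : NumberField K),
      finrank ℚ K ≤ n ∧ ∃ z ∈ Pre (f.map (algebraMap ℚ K)), ∀ i ≤ κ * d + 1, ∀ j ≤ κ * d + 1,
        orb (f.map (algebraMap ℚ K)) z i = orb (f.map (algebraMap ℚ K)) z j → i = j) →
    (S.ncard : ℝ) ≤ C * (H : ℝ) ^ (((1 + (m + 1) * (n * (n + 1) / 2 - 1) : ℕ) : ℝ) +
      ((m : ℝ) + 1) * n / κ + ε) := by
  obtain ⟨C, hC, h⟩ := FDC_card n hd m ε hε
  have hd1 : (0 : ℝ) < (d - 1 : ℕ) := by exact_mod_cast (by omega : 0 < d - 1)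
  have hκ0 : (0 : ℝ) < κ := by exact_mod_cast hκ
  set A : ℝ := 2 * (d + 1) with hA
  have hd0 : (0 : ℝ) ≤ d := Nat.cast_nonneg d
  have hA1 : 1 ≤ A := by rw [hA]; linarith
  refine ⟨C * (A ^ n) ^ (1 / (κ : ℝ)) * (d - 1 : ℕ), by positivity,
    fun H a hH ha haH S hS => ?_⟩
  have hHR : (1 : ℝ) ≤ H := by exact_mod_cast hH
  have hH0 : (0 : ℝ) < H := by linarith
  have haR : (1 : ℝ) ≤ |(a : ℝ)| := by exact_mod_cast Int.one_le_abs ha
  have haH' : |(a : ℝ)| ≤ (H : ℝ) ^ m := by exact_mod_cast haH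
  set X : ℝ := (A * (|(a : ℝ)| * H)) ^ n with hX
  have hL1 : (1 : ℝ) ≤ A * (|(a : ℝ)| * H) := by
    have h1 : 1 ≤ |(a : ℝ)| * H := by nlinarith
    nlinarith
  have hX1 : 1 ≤ X := one_le_pow₀ hL1
  obtain ⟨-, h2⟩ := bad_card (n := n) (Q := QR κ X) hd ha (S := S) (fun f hf => by
    obtain ⟨h1, K, _, _, h2, z, h3, h4⟩ := hS f hf
    exact orb_data hd ha hH hκ h1 h2 h3 h4)
  obtain ⟨q1, q2⟩ := QR_le hκ hX1
  have h5 := h a H (QR κ X) hH ha haH q1
  have h6 : (S.ncard : ℝ) ≤ ((FDC n d a H (QR κ X)).card : ℝ) * (d - 1 : ℕ) := by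
    exact_mod_cast h2
  have h7 : X ^ (1 / (κ : ℝ)) ≤
      (A ^ n) ^ (1 / (κ : ℝ)) * (H : ℝ) ^ (((m : ℝ) + 1) * n / κ) := by
    have h8 : A * (|(a : ℝ)| * H) ≤ A * (H : ℝ) ^ (m + 1) := by
      refine mul_le_mul_of_nonneg_left ?_ (by linarith)
      rw [pow_succ]
      exact mul_le_mul_of_nonneg_right haH' hH0.le
    have h9 : X ≤ A ^ n * (H : ℝ) ^ ((m + 1) * n) := by
      rw [hX, pow_mul, ← mul_pow]
      exact pow_le_pow_left₀ (by linarith) h8 _
    refine (Real.rpow_le_rpow (by linarith) h9 (by positivity)).trans (le_of_eq ?_)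
    rw [Real.mul_rpow (by positivity) (by positivity), ← Real.rpow_natCast (H : ℝ),
      ← Real.rpow_mul hH0.le]
    congr 2
    push_cast
    ring
  set e1 : ℝ := ((1 + (m + 1) * (n * (n + 1) / 2 - 1) : ℕ) : ℝ) with he1
  have h8 : (C * (H : ℝ) ^ (e1 + ε) * (QR κ X : ℝ)) ≤ C * (A ^ n) ^ (1 / (κ : ℝ)) *
      (H : ℝ) ^ (e1 + ((m : ℝ) + 1) * n / κ + ε) := by
    calc C * (H : ℝ) ^ (e1 + ε) * (QR κ X : ℝ) ≤ C * (H : ℝ) ^ (e1 + ε) *
          ((A ^ n) ^ (1 / (κ : ℝ)) * (H : ℝ) ^ (((m : ℝ) + 1) * n / κ)) :=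
          mul_le_mul_of_nonneg_left (q2.trans h7) (by positivity)
      _ = _ := by
        have e : (H : ℝ) ^ (e1 + ((m : ℝ) + 1) * n / κ + ε) =
            (H : ℝ) ^ (e1 + ε) * (H : ℝ) ^ (((m : ℝ) + 1) * n / κ) := by
          rw [← Real.rpow_add hH0]
          congr 1
          ring
        rw [e]
        ring
  calc (S.ncard : ℝ) ≤ ((FDC n d a H (QR κ X)).card : ℝ) * (d - 1 : ℕ) := h6
    _ ≤ (C * (A ^ n) ^ (1 / (κ : ℝ)) *
      (H : ℝ) ^ (e1 + ((m : ℝ) + 1) * n / κ + ε)) * (d - 1 : ℕ) :=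
      mul_le_mul_of_nonneg_right (h5.trans h8) hd1.le
    _ = _ := by ring

/-- many points give a long orbit -/
theorem exists_long_of {F : Type*} [Field F] {d : ℕ} (hd : 2 ≤ d) {f : F[X]}
    (hdeg : f.natDegree = d) {m : ℕ} {T : Set F} (h : ((m * d ^ m : ℕ) : ℕ∞) < T.encard) :
    ∃ z ∈ T, ∀ i ≤ m, ∀ j ≤ m, orb f z i = orb f z j → i = j := by
  classical
  by_contra hcon
  push Not at hcon
  set P : ℕ → F[X] := fun k => f.comp^[k] X with hP
  have hPe : ∀ k z, (P k).eval z = orb f z k := by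
    intro k z
    rw [hP]
    simp only
    rw [Polynomial.iterate_comp_eval, Polynomial.eval_X]
    rfl
  have hPd : ∀ k, (P k).natDegree = d ^ k := by
    intro k
    rw [hP]
    simp only
    rw [Polynomial.natDegree_iterate_comp, hdeg, Polynomial.natDegree_X, mul_one]
  have hlt : ∀ k < m, d ^ k < d ^ m := fun k hk => Nat.pow_lt_pow_right (by omega) hk
  have hsub : T ⊆ (((Finset.range m).biUnion fun k => (P m - P k).roots.toFinset : Finset F) :
      Set F) := by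
    intro z hz
    obtain ⟨i, hi, j, hj, e1, e2⟩ := hcon z hz
    have key : ∀ i j, i < j → j ≤ m → orb f z i = orb f z j → z ∈
        (((Finset.range m).biUnion fun k => (P m - P k).roots.toFinset : Finset F) : Set F) := by
      intro i j hij hj h0
      rw [Finset.mem_coe, Finset.mem_biUnion]
      refine ⟨i + (m - j), Finset.mem_range.2 (by omega), ?_⟩
      rw [Multiset.mem_toFinset, Polynomial.mem_roots]
      · rw [Polynomial.IsRoot.def, Polynomial.eval_sub, hPe, hPe, ← orb_orb f z i, h0, orb_orb,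
          sub_eq_zero]
        congr 1
        omega
      · intro h1
        have h2 := congrArg Polynomial.natDegree (sub_eq_zero.1 h1)
        rw [hPd, hPd] at h2
        have := hlt (i + (m - j)) (by omega)
        omega
    rcases lt_trichotomy i j with h1 | h1 | h1
    · exact key i j h1 hj e1
    · exact absurd h1 e2
    · exact key j i h1 hi e1.symm
  have h1 := Set.encard_le_encard hsub
  rw [Set.encard_coe_eq_coe_finsetCard] at h1
  have h2 : ((Finset.range m).biUnion fun k => (P m - P k).roots.toFinset).card ≤ m * d ^ m := by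
    refine Finset.card_biUnion_le.trans ?_
    have h3 : ∀ k ∈ Finset.range m, ((P m - P k).roots.toFinset).card ≤ d ^ m := by
      intro k hk
      refine (Multiset.toFinset_card_le _).trans ((Polynomial.card_roots' _).trans ?_)
      refine (Polynomial.natDegree_sub_le _ _).trans ?_
      rw [hPd, hPd]
      exact max_le le_rfl (hlt k (Finset.mem_range.1 hk)).le
    refine (Finset.sum_le_card_nsmul _ _ _ h3).trans ?_
    rw [Finset.card_range, smul_eq_mul]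
  have h3 : (((Finset.range m).biUnion fun k => (P m - P k).roots.toFinset).card : ℕ∞) ≤
      ((m * d ^ m : ℕ) : ℕ∞) := by exact_mod_cast h2
  exact absurd (h.trans_le (h1.trans h3)) (lt_irrefl _)

/-- from a complex number to the field it generates -/
lemma to_field {n : ℕ} {f : ℚ[X]} {m : ℕ} {z : ℂ} (hz : IsIntegral ℚ z)
    (hn : (minpoly ℚ z).natDegree ≤ n) (hpre : z ∈ Pre (f.map (algebraMap ℚ ℂ)))
    (hinj : ∀ i ≤ m, ∀ j ≤ m, orb (f.map (algebraMap ℚ ℂ)) z i =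
      orb (f.map (algebraMap ℚ ℂ)) z j → i = j) :
    ∃ (K : Type) (_ : Field K) (_ : NumberField K),
      finrank ℚ K ≤ n ∧ ∃ z ∈ Pre (f.map (algebraMap ℚ K)), ∀ i ≤ m, ∀ j ≤ m,
        orb (f.map (algebraMap ℚ K)) z i = orb (f.map (algebraMap ℚ K)) z j → i = j := by
  have h0 : FiniteDimensional ℚ ℚ⟮z⟯ := adjoin.finiteDimensional hz
  have hnf : NumberField ℚ⟮z⟯ :=
    { to_charZero := inferInstance, to_finiteDimensional := inferInstance }
  have hfr : finrank ℚ ℚ⟮z⟯ ≤ n := by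
    rw [adjoin.finrank hz]
    exact hn
  set τ : ℚ⟮z⟯ →+* ℂ := algebraMap ℚ⟮z⟯ ℂ with hτ
  have e1 : (f.map (algebraMap ℚ ℚ⟮z⟯)).map τ = f.map (algebraMap ℚ ℂ) := by
    rw [Polynomial.map_map]
    congr 1
  have e2 : τ (AdjoinSimple.gen ℚ z) = z := by
    rw [hτ, AdjoinSimple.algebraMap_gen]
  refine ⟨ℚ⟮z⟯, inferInstance, hnf, hfr, AdjoinSimple.gen ℚ z, ?_, ?_⟩
  · rw [← pre_map τ, e1, e2]
    exact hpre
  · intro i hi j hj hij
    refine hinj i hi j hj ?_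
    have := congrArg τ hij
    rw [← orb_map, ← orb_map, e1, e2] at this
    exact this

end Pool.Agent.X12.Nu
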