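import Pool.Agent.X12.Uni1

/-!
# Rational preperiodic points of the odd binomials `a z^(2k+1) + c z`
-/

set_option autoImplicit false

namespace Pool.Agent.X12.Obi

open Function Finset
open Pool.Agent.X12.Cub (Pre escape pre_apply pre_iterate pre_back pre_fixed exists_periodic
  pre_of_periodic exit_point int_of_padic prod_one unit_supp)
open Pool.Agent.X12.Uni (den_norm)

/-- the odd binomial -/
def g (k : ℕ) (a : ℤ) (c : ℚ) : ℚ → ℚ := fun z => a * z ^ (2 * k + 1) + c * z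

/-- the divided difference of the power -/
def Φ (k : ℕ) (x y : ℚ) : ℚ := ∑ i ∈ range (2 * k + 1), x ^ i * y ^ (2 * k - i)

lemma Φ_mul (k : ℕ) (x y : ℚ) : Φ k x y * (x - y) = x ^ (2 * k + 1) - y ^ (2 * k + 1) := by
  have h := (Commute.all x y).geom_sum₂_mul (2 * k + 1)
  rw [← h]
  unfold Φ
  congr 1

lemma Φ_norm {k : ℕ} {p : ℕ} [hp : Fact p.Prime] {x y M : ℚ} (hM : 0 ≤ M)
    (hx : padicNorm p x ≤ M) (hy : padicNorm p y ≤ M) : padicNorm p (Φ k x y) ≤ M ^ (2 * k) := by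
  unfold Φ
  refine padicNorm.sum_le' (fun i hi => ?_) (by positivity)
  rw [Finset.mem_range] at hi
  rw [padicNorm.mul, Pool.Agent.X12.Uni.norm_pow, Pool.Agent.X12.Uni.norm_pow]
  have e : M ^ (2 * k) = M ^ i * M ^ (2 * k - i) := by
    rw [← pow_add]
    congr 1
    omega
  rw [e]
  have h0 := padicNorm.nonneg (p := p) x
  have h1 := padicNorm.nonneg (p := p) y
  gcongr

lemma Φ_abs {k : ℕ} {x y W : ℚ} (hx : |x| ≤ W) (hy : |y| ≤ W) :
    |Φ k x y| ≤ (2 * k + 1) * W ^ (2 * k) := by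
  have hW : 0 ≤ W := (abs_nonneg x).trans hx
  unfold Φ
  refine (Finset.abs_sum_le_sum_abs _ _).trans ?_
  have h := Finset.sum_le_card_nsmul (range (2 * k + 1)) (fun i => |x ^ i * y ^ (2 * k - i)|)
    (W ^ (2 * k)) (fun i hi => by
      rw [Finset.mem_range] at hi
      have e : W ^ (2 * k) = W ^ i * W ^ (2 * k - i) := by
        rw [← pow_add]
        congr 1
        omega
      rw [e, abs_mul, abs_pow, abs_pow]
      have h0 := abs_nonneg x
      have h1 := abs_nonneg y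
      gcongr)
  rw [Finset.card_range, nsmul_eq_mul] at h
  push_cast at h
  exact h

/-! ### Bounds -/

/-- the archimedean bound -/
lemma pre_abs {k : ℕ} (hk : 1 ≤ k) {a : ℤ} {c z : ℚ} (hz : z ∈ Pre (g k a c)) :
    |(a : ℚ)| * z ^ (2 * k) ≤ 1 + |c| := by
  by_contra hcon
  push Not at hcon
  refine escape (h := g k a c) (fun x => 1 + |c| < |(a : ℚ)| * x ^ (2 * k)) (fun x => |x|)
    ?_ hcon hz
  intro x hx
  have hc0 := abs_nonneg c
  have ha0 := abs_nonneg (a : ℚ)
  have hx0 : x ≠ 0 := by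
    rintro rfl
    rw [zero_pow (by omega), mul_zero] at hx
    linarith
  have hx1 : 0 < |x| := abs_pos.2 hx0
  have hev : ∀ y : ℚ, 0 ≤ y ^ (2 * k) := fun y => by
    rw [pow_mul]
    positivity
  have h1 : |g k a c x| = |x| * |(a : ℚ) * x ^ (2 * k) + c| := by
    unfold g
    rw [← abs_mul]
    congr 1
    ring
  have h2 : |(a : ℚ)| * x ^ (2 * k) ≤ |(a : ℚ) * x ^ (2 * k) + c| + |c| := by
    have h3 := abs_sub ((a : ℚ) * x ^ (2 * k) + c) c
    rw [add_sub_cancel_right, abs_mul, abs_of_nonneg (hev x)] at h3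
    exact h3
  have h3 : |x| < |g k a c x| := by
    rw [h1]
    nlinarith
  refine ⟨?_, h3⟩
  have h4 : x ^ (2 * k) ≤ (g k a c x) ^ (2 * k) := by
    have e : ∀ y : ℚ, y ^ (2 * k) = |y| ^ (2 * k) := fun y => (Even.pow_abs ⟨k, by ring⟩ y).symm
    rw [e x, e (g k a c x)]
    exact pow_le_pow_left₀ (abs_nonneg x) h3.le _
  exact hx.trans_le (mul_le_mul_of_nonneg_left h4 ha0)

/-- the `p`-adic bound -/
lemma pre_padic {k : ℕ} (hk : 1 ≤ k) {a : ℤ} {c z : ℚ} (hz : z ∈ Pre (g k a c)) (p : ℕ)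
    [hp : Fact p.Prime] :
    padicNorm p a * padicNorm p z ^ (2 * k) ≤ max 1 (padicNorm p c) := by
  by_contra hcon
  rw [not_le, max_lt_iff] at hcon
  refine escape (h := g k a c) (fun x => 1 < padicNorm p a * padicNorm p x ^ (2 * k) ∧
    padicNorm p c < padicNorm p a * padicNorm p x ^ (2 * k)) (fun x => padicNorm p x) ?_ hcon hz
  rintro x ⟨h1, h2⟩
  have ha0 := padicNorm.nonneg (p := p) (a : ℚ)
  have hx0 := padicNorm.nonneg (p := p) x
  have hN0 : 0 < padicNorm p x := by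
    refine lt_of_le_of_ne hx0 fun h => ?_
    rw [← h, zero_pow (by omega), mul_zero] at h1
    linarith
  have e1 : padicNorm p (a * x ^ (2 * k)) = padicNorm p a * padicNorm p x ^ (2 * k) := by
    rw [padicNorm.mul, Pool.Agent.X12.Uni.norm_pow]
  have h3 : padicNorm p (g k a c x) =
      padicNorm p x * (padicNorm p a * padicNorm p x ^ (2 * k)) := by
    have e : g k a c x = x * (a * x ^ (2 * k) + c) := by
      unfold g
      ring
    rw [e, padicNorm.mul, padicNorm.add_eq_max_of_ne (by rw [e1]; exact h2.ne'), e1,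
      max_eq_left h2.le]
  have h4 : padicNorm p x < padicNorm p (g k a c x) := by
    rw [h3]
    nlinarith
  have h5 : padicNorm p a * padicNorm p x ^ (2 * k) ≤
      padicNorm p a * padicNorm p (g k a c x) ^ (2 * k) :=
    mul_le_mul_of_nonneg_left (pow_le_pow_left₀ hx0 h4.le _) ha0
  exact ⟨⟨h1.trans_le h5, h2.trans_le h5⟩, h4⟩

lemma int_of_bound {c q : ℚ} (h : ∀ p : ℕ, ∀ _ : Fact p.Prime,
    padicNorm p q ≤ max 1 (padicNorm p c)) : ∃ A : ℤ, (A : ℚ) = c.den * q := by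
  refine int_of_padic fun p hp => ?_
  have h1 := h p hp
  rw [Pool.Agent.X12.Dyn.max_padic] at h1
  have hp0 : (0 : ℚ) < (p : ℚ) ^ (padicValNat p c.den) := by
    have : (0 : ℚ) < p := by exact_mod_cast hp.out.pos
    positivity
  rw [padicNorm.mul, den_norm]
  calc ((p : ℚ) ^ (padicValNat p c.den))⁻¹ * padicNorm p q
      ≤ ((p : ℚ) ^ (padicValNat p c.den))⁻¹ * (p : ℚ) ^ (padicValNat p c.den) :=
        mul_le_mul_of_nonneg_left h1 (by positivity)
    _ = 1 := inv_mul_cancel₀ hp0.ne'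

/-- integrality of the factors -/
lemma int_unit {k : ℕ} (hk : 1 ≤ k) {a : ℤ} {c x y : ℚ} (hx : x ∈ Pre (g k a c))
    (hy : y ∈ Pre (g k a c)) : ∃ A : ℤ, (A : ℚ) = c.den * (a * Φ k x y + c) := by
  refine int_of_bound fun p hp => ?_
  have h1 : padicNorm p (a * Φ k x y) ≤ max 1 (padicNorm p c) := by
    set M := max (padicNorm p x) (padicNorm p y) with hM
    have hM0 : 0 ≤ M := (padicNorm.nonneg x).trans (le_max_left _ _)
    have a1 : padicNorm p a * M ^ (2 * k) ≤ max 1 (padicNorm p c) := by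
      rcases max_choice (padicNorm p x) (padicNorm p y) with h | h
      · rw [hM, h]
        exact pre_padic hk hx p
      · rw [hM, h]
        exact pre_padic hk hy p
    have ha0 := padicNorm.nonneg (p := p) (a : ℚ)
    rw [padicNorm.mul]
    refine le_trans ?_ a1
    exact mul_le_mul_of_nonneg_left (Φ_norm hM0 (le_max_left _ _) (le_max_right _ _)) ha0
  exact (padicNorm.nonarchimedean).trans (max_le h1 (le_max_right _ _))

lemma g_neg (k : ℕ) (a : ℤ) (c z : ℚ) : g k a c (-z) = -g k a c z := by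
  unfold g
  have e : (-z) ^ (2 * k + 1) = -z ^ (2 * k + 1) := Odd.neg_pow ⟨k, rfl⟩ z
  rw [e]
  ring

lemma g_zero (k : ℕ) (a : ℤ) (c : ℚ) : g k a c 0 = 0 := by
  unfold g
  rw [zero_pow (by omega)]
  ring

lemma zero_pre (k : ℕ) (a : ℤ) (c : ℚ) : (0 : ℚ) ∈ Pre (g k a c) := pre_fixed (g_zero k a c)

lemma pre_neg {k : ℕ} {a : ℤ} {c z : ℚ} (hz : z ∈ Pre (g k a c)) : -z ∈ Pre (g k a c) := by
  have h1 : ∀ i : ℕ, (g k a c)^[i] (-z) = -(g k a c)^[i] z := by
    intro i
    induction i with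
    | zero => rfl
    | succ i ih => rw [Function.iterate_succ_apply', Function.iterate_succ_apply', ih, g_neg]
  have h2 := Set.Finite.image (fun x : ℚ => -x) hz
  refine h2.subset ?_
  rintro _ ⟨i, rfl⟩
  exact ⟨(g k a c)^[i] z, ⟨i, rfl⟩, (h1 i).symm⟩

/-- the two units of a cycle -/
theorem cycle_units {k : ℕ} (hk : 1 ≤ k) {a : ℤ} {c z : ℚ} (hz : z ∈ periodicPts (g k a c))
    (h1 : g k a c z ≠ z) (h2 : g k a c z ≠ -z) :
    ∃ u v : ℤ, (u : ℚ) = c.den * (a * Φ k z (g k a c z) + c) ∧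
      (v : ℚ) = c.den * (a * Φ k z (-g k a c z) + c) ∧
      (u ≠ 0 ∧ u.natAbs.primeFactors ⊆ c.den.primeFactors) ∧
      (v ≠ 0 ∧ v.natAbs.primeFactors ⊆ c.den.primeFactors) ∧ z ≠ 0 ∧ g k a c z ≠ 0 := by
  set N := minimalPeriod (g k a c) z with hN
  have hN0 : 0 < N := minimalPeriod_pos_of_mem_periodicPts hz
  have hpre := pre_of_periodic hz
  set x : ℕ → ℚ := fun i => (g k a c)^[i] z with hx
  have hxN : ∀ i, x (i + N) = x i := fun i => by
    simp only [hx]
    rw [hN]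
    exact iterate_add_minimalPeriod_eq
  have hxs : ∀ i, g k a c (x i) = x (i + 1) := fun i => by
    simp only [hx]
    rw [Function.iterate_succ_apply']
  have hxp : ∀ i, x i ∈ Pre (g k a c) := fun i => pre_iterate hpre i
  have hx0 : x 0 = z := rfl
  have hx1 : x 1 = g k a c z := rfl
  have hiu : ∀ i, ∃ q : ℤ, (q : ℚ) = c.den * (a * Φ k (x i) (x (i + 1)) + c) := fun i =>
    int_unit hk (hxp i) (hxp (i + 1))
  have hiv : ∀ i, ∃ q : ℤ, (q : ℚ) = c.den * (a * Φ k (x i) (-x (i + 1)) + c) := fun i =>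
    int_unit hk (hxp i) (pre_neg (hxp (i + 1)))
  choose u hu using hiu
  choose v hv using hiv
  have hU : ∏ i ∈ Finset.range N, (a * Φ k (x i) (x (i + 1)) + c) = 1 := by
    refine prod_one (d := fun i => x i - x (i + 1)) ?_ ?_ fun i => ?_
    · have e1 := hxN 0
      have e2 := hxN 1
      rw [zero_add] at e1
      rw [add_comm] at e2
      show x N - x (N + 1) = x 0 - x (0 + 1)
      rw [e1, e2]
    · show x 0 - x 1 ≠ 0
      rw [hx0, hx1, sub_ne_zero]
      exact h1.symm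
    · show (x i - x (i + 1)) * _ = x (i + 1) - x (i + 1 + 1)
      have h3 := Φ_mul k (x i) (x (i + 1))
      have e1 : a * x i ^ (2 * k + 1) + c * x i = x (i + 1) := hxs i
      have e2 : a * x (i + 1) ^ (2 * k + 1) + c * x (i + 1) = x (i + 1 + 1) := hxs (i + 1)
      linear_combination a * h3 + e1 - e2
  have hV : ∏ i ∈ Finset.range N, (a * Φ k (x i) (-x (i + 1)) + c) = 1 := by
    refine prod_one (d := fun i => x i + x (i + 1)) ?_ ?_ fun i => ?_
    · have e1 := hxN 0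
      have e2 := hxN 1
      rw [zero_add] at e1
      rw [add_comm] at e2
      show x N + x (N + 1) = x 0 + x (0 + 1)
      rw [e1, e2]
    · show x 0 + x 1 ≠ 0
      rw [hx0, hx1]
      intro h
      exact h2 (by linarith)
    · show (x i + x (i + 1)) * _ = x (i + 1) + x (i + 1 + 1)
      have h3 := Φ_mul k (x i) (-x (i + 1))
      have e0 : (-x (i + 1)) ^ (2 * k + 1) = -x (i + 1) ^ (2 * k + 1) := Odd.neg_pow ⟨k, rfl⟩ _
      rw [e0] at h3
      have e1 : a * x i ^ (2 * k + 1) + c * x i = x (i + 1) := hxs i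
      have e2 : a * x (i + 1) ^ (2 * k + 1) + c * x (i + 1) = x (i + 1 + 1) := hxs (i + 1)
      linear_combination a * h3 + e1 + e2
  have hu' := unit_supp (u := u) hN0 c.den_ne_zero (fun i => hu i) hU
  have hv' := unit_supp (u := v) hN0 c.den_ne_zero (fun i => hv i) hV
  have hz0 : z ≠ 0 := by
    rintro rfl
    exact h1 (g_zero k a c)
  have hw0 : g k a c z ≠ 0 := by
    intro hw
    have h3 : ∀ i : ℕ, x (i + 1) = 0 := by
      intro i
      induction i with
      | zero => exact hw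
      | succ i ih =>
        rw [← hxs (i + 1), ih]
        exact g_zero k a c
    obtain ⟨i, hi⟩ := Nat.exists_eq_succ_of_ne_zero hN0.ne'
    have h4 := hxN 0
    rw [zero_add, hi, Nat.succ_eq_add_one, h3 i, hx0] at h4
    exact hz0 h4.symm
  exact ⟨u 0, v 0, hu 0, hv 0, hu', hv', hz0, hw0⟩

/-! ### The ratio -/

/-- the even part -/
def W (k : ℕ) (ρ : ℚ) : ℚ := ∑ i ∈ range k, (ρ ^ 2) ^ i

lemma W_mul (k : ℕ) (ρ : ℚ) : (1 - ρ ^ 2) * W k ρ = 1 - ρ ^ (2 * k) := by
  unfold W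
  have h := mul_neg_geom_sum (ρ ^ 2) k
  rw [h, ← pow_mul]

lemma W_pos {k : ℕ} (hk : 1 ≤ k) (ρ : ℚ) : 0 < W k ρ := by
  unfold W
  have h1 : (1 : ℚ) ≤ ∑ i ∈ range k, (ρ ^ 2) ^ i := by
    have h := Finset.single_le_sum (f := fun i => (ρ ^ 2) ^ i) (s := range k)
      (fun i _ => by positivity) (Finset.mem_range.2 hk)
    simpa using h
  linarith

lemma W_odd (k : ℕ) (ρ : ℚ) :
    ∑ i ∈ range (2 * k + 1), ρ ^ i = 1 + ρ * W k ρ * (1 + ρ) := by
  unfold W
  induction k with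
  | zero => simp
  | succ k ih =>
    have e : 2 * (k + 1) + 1 = (2 * k + 1) + 1 + 1 := by ring
    rw [e, Finset.sum_range_succ, Finset.sum_range_succ, ih, Finset.sum_range_succ, ← pow_mul]
    ring

lemma Φ_ratio (k : ℕ) (x ρ : ℚ) :
    Φ k x (ρ * x) = x ^ (2 * k) * (1 + ρ * W k ρ * (1 + ρ)) := by
  have h1 : Φ k x (ρ * x) = x ^ (2 * k) * ∑ i ∈ range (2 * k + 1), ρ ^ (2 * k - i) := by
    unfold Φ
    rw [Finset.mul_sum]
    refine Finset.sum_congr rfl fun i hi => ?_
    rw [Finset.mem_range] at hi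
    rw [mul_pow]
    have e : x ^ (2 * k) = x ^ i * x ^ (2 * k - i) := by
      rw [← pow_add]
      congr 1
      omega
    rw [e]
    ring
  rw [h1]
  congr 1
  rw [← W_odd, ← Finset.sum_range_reflect]
  refine Finset.sum_congr rfl fun i hi => ?_
  rw [Finset.mem_range] at hi
  congr 1
  omega

lemma W_neg (k : ℕ) (ρ : ℚ) : W k (-ρ) = W k ρ := by
  unfold W
  rw [neg_sq]

end Pool.Agent.X12.Obi
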