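import Pool.Agent.X12.Obi1
import Pool.Agent.X12.Dyn3

/-!
# Rational preperiodic points of the odd binomials: the ratios and the short cases
-/

set_option autoImplicit false

namespace Pool.Agent.X12.Obi

open Function Finset
open Pool.Agent.X12.Cub (Pre pre_apply pre_iterate pre_back pre_fixed exists_periodic
  pre_of_periodic exit_point)
open Pool.Agent.X12.Dyn (HtLe TS mem_TS TS_card htLe_of_div)

/-- the nonzero solutions of `a z^(2k) = e` -/
def Ty (k : ℕ) (a : ℤ) (e z : ℚ) : Prop := z ≠ 0 ∧ a * z ^ (2 * k) = e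

/-- `α` is in the class of `a` -/
def Cl (k : ℕ) (a : ℤ) (α : ℚ) : Prop := ∃ y : ℚ, Ty k a α y

/-- not divisible by the `2k`-th power of a nonunit -/
def PF (k : ℕ) (a : ℤ) : Prop := ∀ x : ℤ, x ^ (2 * k) ∣ a → IsUnit x

lemma PF.ne_zero {k : ℕ} {a : ℤ} (h : PF k a) : a ≠ 0 := by
  rintro rfl
  have h1 := h 2 (dvd_zero _)
  rw [Int.isUnit_iff] at h1
  omega

lemma rat_cop (t : ℚ) : IsCoprime t.num (t.den : ℤ) := by
  rw [Int.isCoprime_iff_nat_coprime]
  exact t.reduced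

/-- the class determines the power-free twist -/
lemma cl_inj {k : ℕ} {a b : ℤ} {α : ℚ} (ha : PF k a) (hb : PF k b) (h1 : Cl k a α)
    (h2 : Cl k b α) : a = b := by
  obtain ⟨y, hy0, hy⟩ := h1
  obtain ⟨z, hz0, hz⟩ := h2
  set t := y / z with ht
  have hyt : y = t * z := by rw [ht]; field_simp
  have h3 : (a : ℚ) * t ^ (2 * k) = b := by
    have hzp : z ^ (2 * k) ≠ 0 := pow_ne_zero _ hz0
    refine mul_right_cancel₀ hzp ?_
    rw [hz, ← hy, hyt, mul_pow]
    ring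
  have hd0 : (t.den : ℚ) ≠ 0 := by exact_mod_cast t.den_ne_zero
  have htq : (t.num : ℚ) = t * t.den := (Rat.mul_den_eq_num t).symm
  have h4 : a * t.num ^ (2 * k) = b * (t.den : ℤ) ^ (2 * k) := by
    have : ((a * t.num ^ (2 * k) : ℤ) : ℚ) = ((b * (t.den : ℤ) ^ (2 * k) : ℤ) : ℚ) := by
      push_cast
      rw [htq, mul_pow, ← h3]
      ring
    exact_mod_cast this
  have hcop := rat_cop t
  have u1 : IsUnit t.num :=
    hb _ ((hcop.pow (m := 2 * k) (n := 2 * k)).dvd_of_dvd_mul_right ⟨a, by rw [← h4]; ring⟩)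
  have u2 : IsUnit (t.den : ℤ) :=
    ha _ ((hcop.symm.pow (m := 2 * k) (n := 2 * k)).dvd_of_dvd_mul_right ⟨b, by rw [h4]; ring⟩)
  have e1 : t.num ^ (2 * k) = 1 := by
    rcases Int.isUnit_iff.1 u1 with h | h
    · rw [h, one_pow]
    · rw [h, pow_mul]
      norm_num
  have e2 : (t.den : ℤ) ^ (2 * k) = 1 := by
    rcases Int.isUnit_iff.1 u2 with h | h
    · rw [h, one_pow]
    · rw [h, pow_mul]
      norm_num
  rw [e1, e2] at h4
  linarith

/-- every nonzero rational is in a class -/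
lemma exists_pf {k : ℕ} (hk : 1 ≤ k) {α : ℚ} (hα : α ≠ 0) : ∃ a : ℤ, PF k a ∧ Cl k a α := by
  have key : ∀ N : ℕ, ∀ A : ℤ, A ≠ 0 → A.natAbs ≤ N → ∃ a y : ℤ, PF k a ∧ y ≠ 0 ∧
      a * y ^ (2 * k) = A := by
    intro N
    induction N with
    | zero =>
      intro A hA hN
      exact absurd (Int.natAbs_eq_zero.1 (by omega)) hA
    | succ N ih =>
      intro A hA hN
      by_cases h : PF k A
      · exact ⟨A, 1, h, one_ne_zero, by rw [one_pow, mul_one]⟩
      · unfold PF at h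
        push Not at h
        obtain ⟨x, ⟨B, hB⟩, hx⟩ := h
        have hB0 : B ≠ 0 := by
          rintro rfl
          exact hA (by rw [hB, mul_zero])
        have hx0 : x ≠ 0 := by
          rintro rfl
          rw [zero_pow (by omega), zero_mul] at hB
          exact hA hB
        have hx2 : 2 ≤ x.natAbs := by
          have h1 : x.natAbs ≠ 1 := fun h => hx (Int.isUnit_iff_natAbs_eq.2 h)
          have h2 : x.natAbs ≠ 0 := Int.natAbs_ne_zero.2 hx0
          omega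
        have h3 : A.natAbs = x.natAbs ^ (2 * k) * B.natAbs := by
          rw [hB, Int.natAbs_mul, Int.natAbs_pow]
        have h4 : 2 ≤ x.natAbs ^ (2 * k) := hx2.trans (Nat.le_self_pow (by omega) _)
        have h5 : B.natAbs ≤ N := by
          have h6 : 0 < B.natAbs := Int.natAbs_pos.2 hB0
          nlinarith
        obtain ⟨a, y, e1, e2, e3⟩ := ih B hB0 h5
        refine ⟨a, x * y, e1, mul_ne_zero hx0 e2, ?_⟩
        rw [hB, ← e3, mul_pow]
        ring
  have hd0 : (α.den : ℚ) ≠ 0 := by exact_mod_cast α.den_ne_zero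
  obtain ⟨a, y, h1, h2, h3⟩ := key _ (α.num * (α.den : ℤ) ^ (2 * k - 1))
    (mul_ne_zero (Rat.num_ne_zero.2 hα) (pow_ne_zero _ (by exact_mod_cast α.den_ne_zero))) le_rfl
  have hyq : (y : ℚ) ≠ 0 := by exact_mod_cast h2
  refine ⟨a, h1, (y : ℚ) / α.den, div_ne_zero hyq hd0, ?_⟩
  have h4 : (a : ℚ) * (y : ℚ) ^ (2 * k) = α.num * (α.den : ℚ) ^ (2 * k - 1) := by exact_mod_cast h3
  rw [div_pow, ← mul_div_assoc, h4]
  have e : (α.den : ℚ) ^ (2 * k) = (α.den : ℚ) ^ (2 * k - 1) * α.den := by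
    rw [← pow_succ]
    congr 1
    omega
  rw [e, mul_comm ((α.den : ℚ) ^ (2 * k - 1)) _, mul_div_mul_right _ _ (pow_ne_zero _ hd0)]
  exact Rat.num_div_den α

lemma ev_inj {k : ℕ} (hk : 1 ≤ k) {z w : ℚ} (h : z ^ (2 * k) = w ^ (2 * k)) : z = w ∨ z = -w := by
  have e : ∀ y : ℚ, y ^ (2 * k) = |y| ^ (2 * k) := fun y => (Even.pow_abs ⟨k, by ring⟩ y).symm
  rw [e z, e w] at h
  exact abs_eq_abs.1 ((pow_left_inj₀ (abs_nonneg z) (abs_nonneg w) (by omega)).1 h)

lemma small_set {k : ℕ} (hk : 1 ≤ k) {a : ℤ} (ha : a ≠ 0) {S : Set ℚ} {e : ℚ}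
    (h : ∀ z ∈ S, z ≠ 0 → a * z ^ (2 * k) = e) : S.encard ≤ 3 := by
  have haq : (a : ℚ) ≠ 0 := by exact_mod_cast ha
  by_cases h0 : ∃ z ∈ S, z ≠ 0
  · obtain ⟨z0, hz0, hne⟩ := h0
    have h1 : S ⊆ {0, z0, -z0} := by
      intro z hz
      by_cases hz1 : z = 0
      · exact Or.inl hz1
      right
      exact ev_inj hk (mul_left_cancel₀ haq ((h z hz hz1).trans (h z0 hz0 hne).symm))
    refine (Set.encard_le_encard h1).trans ?_
    refine (Set.encard_insert_le _ _).trans ?_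
    have e1 := (Set.encard_insert_le ({-z0} : Set ℚ) z0)
    rw [Set.encard_singleton] at e1
    calc ({z0, -z0} : Set ℚ).encard + 1 ≤ (1 + 1) + 1 := by gcongr
      _ = 3 := by norm_num
  · push Not at h0
    have h1 : S ⊆ {0} := fun z hz => h0 z hz
    refine (Set.encard_le_encard h1).trans ?_
    rw [Set.encard_singleton]
    norm_num

lemma of_zero {k : ℕ} {a : ℤ} {c z : ℚ} (hz : z ≠ 0) (h : g k a c z = 0) :
    a * z ^ (2 * k) = -c := by
  have h1 : z * (a * z ^ (2 * k) + c) = 0 := by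
    unfold g at h
    linear_combination h
  linarith [(mul_eq_zero.1 h1).resolve_left hz]

lemma of_fix {k : ℕ} {a : ℤ} {c z : ℚ} (hz : z ≠ 0) (h : g k a c z = z) :
    a * z ^ (2 * k) = 1 - c := by
  have h1 : z * (a * z ^ (2 * k) - (1 - c)) = 0 := by
    unfold g at h
    linear_combination h
  linarith [(mul_eq_zero.1 h1).resolve_left hz]

lemma of_anti {k : ℕ} {a : ℤ} {c z : ℚ} (hz : z ≠ 0) (h : g k a c z = -z) :
    a * z ^ (2 * k) = -1 - c := by
  have h1 : z * (a * z ^ (2 * k) - (-1 - c)) = 0 := by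
    unfold g at h
    linear_combination h
  linarith [(mul_eq_zero.1 h1).resolve_left hz]

lemma to_val {k : ℕ} {a : ℤ} {c z e : ℚ} (h : a * z ^ (2 * k) = e) : g k a c z = (e + c) * z := by
  unfold g
  rw [← h]
  ring

lemma pre_anti {k : ℕ} {a : ℤ} {c z : ℚ} (h : g k a c z = -z) : z ∈ Pre (g k a c) := by
  have h1 : ∀ i : ℕ, (g k a c)^[i] z = z ∨ (g k a c)^[i] z = -z := by
    intro i
    induction i with
    | zero => exact Or.inl rfl
    | succ i ih =>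
      rw [Function.iterate_succ_apply']
      rcases ih with h2 | h2
      · rw [h2]
        exact Or.inr h
      · rw [h2, g_neg, h, neg_neg]
        exact Or.inl rfl
  refine (Set.toFinite ({z, -z} : Set ℚ)).subset ?_
  rintro _ ⟨i, rfl⟩
  rcases h1 i with h2 | h2
  · exact Or.inl h2
  · exact Or.inr h2

/-- more than three preperiodic points and no long cycles -/
theorem short_cases {k : ℕ} (hk : 1 ≤ k) {a : ℤ} {c : ℚ} (ha : a ≠ 0)
    (h3 : (3 : ℕ∞) < (Pre (g k a c)).encard)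
    (hper : ∀ y ∈ periodicPts (g k a c), g k a c y = y ∨ g k a c y = -y) :
    (∃ s t : ℚ, Ty k a (-c) s ∧ Ty k a (1 - c) t) ∨
    (∃ s r : ℚ, Ty k a (-c) s ∧ Ty k a (-1 - c) r) ∨
    (∃ t r : ℚ, Ty k a (1 - c) t ∧ Ty k a (-1 - c) r) ∨
    (∃ s w : ℚ, Ty k a (-c) s ∧ w ≠ 0 ∧ g k a c w = s) ∨
    (∃ t w : ℚ, Ty k a (1 - c) t ∧ w ≠ t ∧ g k a c w = t) ∨
    (∃ r w : ℚ, Ty k a (-1 - c) r ∧ w ≠ -r ∧ g k a c w = r) := by
  classical
  by_contra hcon
  push Not at hcon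
  obtain ⟨k1, k2, k3, k4, k5, k6⟩ := hcon
  set S : Set ℚ := {z | z = 0 ∨ a * z ^ (2 * k) = -c ∨ a * z ^ (2 * k) = 1 - c ∨
    a * z ^ (2 * k) = -1 - c} with hS
  have hsmall : S.encard ≤ 3 := by
    by_cases hA : ∃ s, Ty k a (-c) s
    · obtain ⟨s, hs⟩ := hA
      refine small_set hk ha (e := -c) fun z hz hz0 => ?_
      rcases hz with h | h | h | h
      · exact absurd h hz0
      · exact h
      · exact absurd ⟨hz0, h⟩ (k1 s z hs)
      · exact absurd ⟨hz0, h⟩ (k2 s z hs)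
    · push Not at hA
      by_cases hB : ∃ t, Ty k a (1 - c) t
      · obtain ⟨t, ht⟩ := hB
        refine small_set hk ha (e := 1 - c) fun z hz hz0 => ?_
        rcases hz with h | h | h | h
        · exact absurd h hz0
        · exact absurd ⟨hz0, h⟩ (hA z)
        · exact h
        · exact absurd ⟨hz0, h⟩ (k3 t z ht)
      · push Not at hB
        refine small_set hk ha (e := -1 - c) fun z hz hz0 => ?_
        rcases hz with h | h | h | h
        · exact absurd h hz0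
        · exact absurd ⟨hz0, h⟩ (hA z)
        · exact absurd ⟨hz0, h⟩ (hB z)
        · exact h
  have hout : ∃ z ∈ Pre (g k a c), z ∉ S := by
    by_contra hc
    push Not at hc
    have h1 : (Pre (g k a c)).encard ≤ S.encard := Set.encard_le_encard hc
    exact absurd (h3.trans_le (h1.trans hsmall)) (lt_irrefl _)
  obtain ⟨z, hz, hzS⟩ := hout
  have hPS : ∀ y ∈ periodicPts (g k a c), y ∈ S := by
    intro y hy
    by_cases hy0 : y = 0
    · exact Or.inl hy0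
    rcases hper y hy with h | h
    · right; right; left
      exact of_fix hy0 h
    · right; right; right
      exact of_anti hy0 h
  obtain ⟨w, hw, hwS, hgw⟩ := exit_point hz hPS hzS
  have hw0 : w ≠ 0 := fun h => hwS (Or.inl h)
  by_cases hg0 : g k a c w = 0
  · exact hwS (Or.inr (Or.inl (of_zero hw0 hg0)))
  rcases hgw with h | h | h | h
  · exact hg0 h
  · exact k4 _ w ⟨hg0, h⟩ hw0 rfl
  · refine k5 _ w ⟨hg0, h⟩ ?_ rfl
    intro h1
    rw [← h1] at h
    exact hwS (Or.inr (Or.inr (Or.inl h)))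
  · refine k6 _ w ⟨hg0, h⟩ ?_ rfl
    intro h1
    refine hwS (Or.inr (Or.inr (Or.inr ?_)))
    have : w ^ (2 * k) = (g k a c w) ^ (2 * k) := by
      conv_lhs => rw [h1]
      exact Even.neg_pow ⟨k, by ring⟩ _
    rw [this]
    exact h

/-! ### The heights of the ratios -/

lemma int_pow {k : ℕ} (hk : 1 ≤ k) {a : ℤ} {c z : ℚ} (hz : z ∈ Pre (g k a c)) :
    ∃ A : ℤ, (A : ℚ) = c.den * (a * z ^ (2 * k)) := by
  refine int_of_bound fun p hp => ?_
  rw [padicNorm.mul, Pool.Agent.X12.Uni.norm_pow]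
  exact pre_padic hk hz p

lemma size_pow {k : ℕ} (hk : 1 ≤ k) {a A : ℤ} {c z : ℚ} {X : ℝ} (hc : HtLe X c)
    (hz : z ∈ Pre (g k a c)) (hA : (A : ℚ) = c.den * (a * z ^ (2 * k))) :
    |(A : ℝ)| ≤ 2 * X := by
  have k1 := pre_abs hk hz
  have hnq : (0 : ℚ) < c.den := by exact_mod_cast c.den_pos
  have hcn : (c.num : ℚ) = c * c.den := (Rat.mul_den_eq_num c).symm
  have hev : 0 ≤ z ^ (2 * k) := by
    rw [pow_mul]
    positivity
  have k2 : |(A : ℚ)| ≤ c.den + |(c.num : ℚ)| := by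
    have e1 : |(A : ℚ)| = c.den * (|(a : ℚ)| * z ^ (2 * k)) := by
      rw [hA, abs_mul, abs_mul, abs_of_pos hnq, abs_of_nonneg hev]
    have e2 : |(c.num : ℚ)| = |c| * c.den := by rw [hcn, abs_mul, abs_of_pos hnq]
    rw [e1, e2]
    nlinarith
  have k3 : |(A : ℝ)| ≤ c.den + |(c.num : ℝ)| := by exact_mod_cast k2
  linarith [hc.1, hc.2]

/-- the height of the `2k`-th power is at most `2 X` -/
def Small (k : ℕ) (X : ℝ) (ρ : ℚ) : Prop :=
  |(ρ.num : ℝ)| ^ (2 * k) ≤ 2 * X ∧ (ρ.den : ℝ) ^ (2 * k) ≤ 2 * X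

lemma small_ratio {k : ℕ} (hk : 1 ≤ k) {a : ℤ} {c z w : ℚ} {X : ℝ} (ha : a ≠ 0)
    (hc : HtLe X c) (hz : z ∈ Pre (g k a c)) (hw : w ∈ Pre (g k a c)) (hz0 : z ≠ 0)
    (hw0 : w ≠ 0) : Small k X (w / z) := by
  obtain ⟨A, hA⟩ := int_pow hk hz
  obtain ⟨B, hB⟩ := int_pow hk hw
  have sA := size_pow hk hc hz hA
  have sB := size_pow hk hc hw hB
  have haq : (a : ℚ) ≠ 0 := by exact_mod_cast ha
  have hnq : (c.den : ℚ) ≠ 0 := by exact_mod_cast c.den_ne_zero
  have hAq : (A : ℚ) ≠ 0 := by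
    rw [hA]
    exact mul_ne_zero hnq (mul_ne_zero haq (pow_ne_zero _ hz0))
  have hBq : (B : ℚ) ≠ 0 := by
    rw [hB]
    exact mul_ne_zero hnq (mul_ne_zero haq (pow_ne_zero _ hw0))
  have h : (w / z) ^ (2 * k) = (B : ℚ) / A := by
    have hzp : z ^ (2 * k) ≠ 0 := pow_ne_zero _ hz0
    rw [hA, hB, div_pow]
    field_simp
  have h1 := htLe_of_div (by exact_mod_cast hAq) (by exact_mod_cast hBq) h sB sA
  unfold HtLe at h1
  rw [Rat.num_pow, Rat.den_pow] at h1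
  push_cast at h1
  rw [abs_pow] at h1
  exact h1

/-- the exceptional parameters from the ratio -/
def cs (k : ℕ) (ρ : ℚ) : Finset ℚ :=
  {ρ ^ (2 * k) / (ρ ^ (2 * k) - 1), -ρ ^ (2 * k) / (ρ ^ (2 * k) - 1),
    -(ρ ^ (2 * k) + 1) / (ρ ^ (2 * k) - 1), 1 / (ρ * (1 - ρ ^ (2 * k))),
    (ρ * ρ ^ (2 * k) - 1) / (ρ ^ (2 * k) - 1), (ρ * ρ ^ (2 * k) + 1) / (ρ ^ (2 * k) - 1)}

lemma cs_card (k : ℕ) (ρ : ℚ) : (cs k ρ).card ≤ 6 := Finset.card_le_six

/-- the exceptional parameters -/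
def Bad (k : ℕ) (X : ℝ) (c : ℚ) : Prop := ∃ ρ, Small k X ρ ∧ c ∈ cs k ρ

lemma ratio_eq {k : ℕ} {a : ℤ} {s t ρ e : ℚ} (h : s = ρ * t) (ht : a * t ^ (2 * k) = e) :
    a * s ^ (2 * k) = ρ ^ (2 * k) * e := by
  rw [h, mul_pow, ← ht]
  ring

section

variable {k : ℕ} {a : ℤ} {c : ℚ} {X : ℝ} (hk : 1 ≤ k) (ha : a ≠ 0) (hc : HtLe X c)

lemma ty_pre0 {s : ℚ} (hs : Ty k a (-c) s) : s ∈ Pre (g k a c) := by
  refine pre_back ?_
  rw [to_val hs.2, neg_add_cancel, zero_mul]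
  exact zero_pre k a c

lemma ty_fix {t : ℚ} (ht : Ty k a (1 - c) t) : g k a c t = t := by
  rw [to_val ht.2]
  ring

lemma ty_anti {r : ℚ} (hr : Ty k a (-1 - c) r) : g k a c r = -r := by
  rw [to_val hr.2]
  ring

include hk ha hc

lemma bad_AB {s t : ℚ} (hs : Ty k a (-c) s) (ht : Ty k a (1 - c) t) : Bad k X c := by
  refine ⟨s / t, small_ratio hk ha hc (pre_fixed (ty_fix ht)) (ty_pre0 hs) ht.1 hs.1, ?_⟩
  set ρ := s / t with hρ
  have ht0 := ht.1
  have e1 : s = ρ * t := by rw [hρ]; field_simp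
  have e2 := ratio_eq e1 ht.2
  rw [hs.2] at e2
  have e3 : c * (ρ ^ (2 * k) - 1) = ρ ^ (2 * k) := by linear_combination e2
  have e4 : ρ ^ (2 * k) - 1 ≠ 0 := by
    intro h
    rw [h, mul_zero] at e3
    rw [← e3] at h
    norm_num at h
  have e5 : c = ρ ^ (2 * k) / (ρ ^ (2 * k) - 1) := by rw [eq_div_iff e4]; exact e3
  unfold cs
  rw [← e5]
  simp

lemma bad_AC {s t : ℚ} (hs : Ty k a (-c) s) (ht : Ty k a (-1 - c) t) : Bad k X c := by
  refine ⟨s / t, small_ratio hk ha hc (pre_anti (ty_anti ht)) (ty_pre0 hs) ht.1 hs.1, ?_⟩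
  set ρ := s / t with hρ
  have ht0 := ht.1
  have e1 : s = ρ * t := by rw [hρ]; field_simp
  have e2 := ratio_eq e1 ht.2
  rw [hs.2] at e2
  have e3 : c * (ρ ^ (2 * k) - 1) = -ρ ^ (2 * k) := by linear_combination e2
  have e4 : ρ ^ (2 * k) - 1 ≠ 0 := by
    intro h
    rw [h, mul_zero] at e3
    have : ρ ^ (2 * k) = 0 := by linarith
    rw [this] at h
    norm_num at h
  have e5 : c = -ρ ^ (2 * k) / (ρ ^ (2 * k) - 1) := by rw [eq_div_iff e4]; exact e3
  unfold cs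
  rw [← e5]
  simp

lemma bad_BC {s t : ℚ} (hs : Ty k a (1 - c) s) (ht : Ty k a (-1 - c) t) : Bad k X c := by
  refine ⟨s / t, small_ratio hk ha hc (pre_anti (ty_anti ht)) (pre_fixed (ty_fix hs)) ht.1 hs.1,
    ?_⟩
  set ρ := s / t with hρ
  have ht0 := ht.1
  have e1 : s = ρ * t := by rw [hρ]; field_simp
  have e2 := ratio_eq e1 ht.2
  rw [hs.2] at e2
  have e3 : c * (ρ ^ (2 * k) - 1) = -(ρ ^ (2 * k) + 1) := by linear_combination e2
  have e4 : ρ ^ (2 * k) - 1 ≠ 0 := by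
    intro h
    rw [h, mul_zero] at e3
    have : ρ ^ (2 * k) = -1 := by linarith
    rw [this] at h
    norm_num at h
  have e5 : c = -(ρ ^ (2 * k) + 1) / (ρ ^ (2 * k) - 1) := by rw [eq_div_iff e4]; exact e3
  unfold cs
  rw [← e5]
  simp

lemma bad_TA {s w : ℚ} (hs : Ty k a (-c) s) (hw : w ≠ 0) (hg : g k a c w = s) : Bad k X c := by
  have hs0 := hs.1
  have hsp := ty_pre0 hs
  have hwp : w ∈ Pre (g k a c) := pre_back (by rw [hg]; exact hsp)
  refine ⟨w / s, small_ratio hk ha hc hsp hwp hs0 hw, ?_⟩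
  set ρ := w / s with hρ
  have e1 : w = ρ * s := by rw [hρ]; field_simp
  have e2 := ratio_eq e1 hs.2
  have e3 : c * (ρ * (1 - ρ ^ (2 * k))) = 1 := by
    rw [to_val e2, e1] at hg
    have h1 : s * (c * (ρ * (1 - ρ ^ (2 * k))) - 1) = 0 := by linear_combination hg
    linarith [(mul_eq_zero.1 h1).resolve_left hs0]
  have e4 : ρ * (1 - ρ ^ (2 * k)) ≠ 0 := by
    intro h
    rw [h, mul_zero] at e3
    exact zero_ne_one e3
  have e5 : c = 1 / (ρ * (1 - ρ ^ (2 * k))) := by rw [eq_div_iff e4]; exact e3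
  unfold cs
  rw [← e5]
  simp

lemma bad_TB {t w : ℚ} (ht : Ty k a (1 - c) t) (hw : w ≠ t) (hg : g k a c w = t) :
    Bad k X c := by
  have ht0 := ht.1
  have htp : t ∈ Pre (g k a c) := pre_fixed (ty_fix ht)
  have hwp : w ∈ Pre (g k a c) := pre_back (by rw [hg]; exact htp)
  have hw0 : w ≠ 0 := by
    rintro rfl
    rw [g_zero] at hg
    exact ht0 hg.symm
  refine ⟨t / w, small_ratio hk ha hc hwp htp hw0 ht0, ?_⟩
  set ρ := t / w with hρ
  have e1 : t = ρ * w := by rw [hρ]; field_simp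
  have e6 : a * w ^ (2 * k) = ρ - c := by
    have h1 : w * (a * w ^ (2 * k) - (ρ - c)) = 0 := by
      unfold g at hg
      linear_combination hg + e1
    linarith [(mul_eq_zero.1 h1).resolve_left hw0]
  have e2 := ratio_eq e1 e6
  rw [ht.2] at e2
  have e3 : c * (ρ ^ (2 * k) - 1) = ρ * ρ ^ (2 * k) - 1 := by linear_combination e2
  have e4 : ρ ^ (2 * k) - 1 ≠ 0 := by
    intro h
    have h1 : ρ ^ (2 * k) = 1 := by linarith
    rw [h, mul_zero, h1] at e3
    have h2 : ρ = 1 := by linarith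
    rw [h2, one_mul] at e1
    exact hw e1.symm
  have e5 : c = (ρ * ρ ^ (2 * k) - 1) / (ρ ^ (2 * k) - 1) := by rw [eq_div_iff e4]; exact e3
  unfold cs
  rw [← e5]
  simp

lemma bad_TC {t w : ℚ} (ht : Ty k a (-1 - c) t) (hw : w ≠ -t) (hg : g k a c w = t) :
    Bad k X c := by
  have ht0 := ht.1
  have htp : t ∈ Pre (g k a c) := pre_anti (ty_anti ht)
  have hwp : w ∈ Pre (g k a c) := pre_back (by rw [hg]; exact htp)
  have hw0 : w ≠ 0 := by
    rintro rfl
    rw [g_zero] at hg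
    exact ht0 hg.symm
  refine ⟨t / w, small_ratio hk ha hc hwp htp hw0 ht0, ?_⟩
  set ρ := t / w with hρ
  have e1 : t = ρ * w := by rw [hρ]; field_simp
  have e6 : a * w ^ (2 * k) = ρ - c := by
    have h1 : w * (a * w ^ (2 * k) - (ρ - c)) = 0 := by
      unfold g at hg
      linear_combination hg + e1
    linarith [(mul_eq_zero.1 h1).resolve_left hw0]
  have e2 := ratio_eq e1 e6
  rw [ht.2] at e2
  have e3 : c * (ρ ^ (2 * k) - 1) = ρ * ρ ^ (2 * k) + 1 := by linear_combination e2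
  have e4 : ρ ^ (2 * k) - 1 ≠ 0 := by
    intro h
    have h1 : ρ ^ (2 * k) = 1 := by linarith
    rw [h, mul_zero, h1] at e3
    have h2 : ρ = -1 := by linarith
    rw [h2] at e1
    exact hw (by linarith)
  have e5 : c = (ρ * ρ ^ (2 * k) + 1) / (ρ ^ (2 * k) - 1) := by rw [eq_div_iff e4]; exact e3
  unfold cs
  rw [← e5]
  simp

theorem bad_of_more (h3 : (3 : ℕ∞) < (Pre (g k a c)).encard)
    (hper : ∀ y ∈ periodicPts (g k a c), g k a c y = y ∨ g k a c y = -y) : Bad k X c := by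
  rcases short_cases hk ha h3 hper with ⟨s, t, hs, ht⟩ | ⟨s, t, hs, ht⟩ | ⟨s, t, hs, ht⟩ |
    ⟨s, w, hs, hw, hg⟩ | ⟨t, w, ht, hw, hg⟩ | ⟨t, w, ht, hw, hg⟩
  · exact bad_AB hk ha hc hs ht
  · exact bad_AC hk ha hc hs ht
  · exact bad_BC hk ha hc hs ht
  · exact bad_TA hk ha hc hs hw hg
  · exact bad_TB hk ha hc ht hw hg
  · exact bad_TC hk ha hc ht hw hg

end

/-- the three generic classes -/
def gen (c : ℚ) : Finset ℚ := {-c, 1 - c, -1 - c}

lemma gen_card (c : ℚ) : (gen c).card ≤ 3 := Finset.card_le_three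

lemma exists_ne {k : ℕ} {a : ℤ} {c : ℚ} (h : (1 : ℕ∞) < (Pre (g k a c)).encard) :
    ∃ z ∈ Pre (g k a c), z ≠ 0 := by
  by_contra hcon
  push Not at hcon
  have h1 : Pre (g k a c) ⊆ {0} := fun z hz => hcon z hz
  have h2 := Set.encard_le_encard h1
  rw [Set.encard_singleton] at h2
  exact absurd (h.trans_le h2) (lt_irrefl _)

/-- the class of the generic polynomials -/
lemma generic_cl {k : ℕ} {a : ℤ} {c : ℚ} (h : (1 : ℕ∞) < (Pre (g k a c)).encard)
    (hl : ∀ z ∈ periodicPts (g k a c), g k a c z = z ∨ g k a c z = -z) :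
    ∃ α ∈ gen c, Cl k a α := by
  obtain ⟨z, hz, hz0⟩ := exists_ne h
  unfold gen
  by_cases hp : ∃ y ∈ periodicPts (g k a c), y ≠ 0
  · obtain ⟨y, hy, hy0⟩ := hp
    rcases hl y hy with h1 | h1
    · exact ⟨1 - c, by simp, y, hy0, of_fix hy0 h1⟩
    · exact ⟨-1 - c, by simp, y, hy0, of_anti hy0 h1⟩
  · push Not at hp
    obtain ⟨w, hw, hw0, hgw⟩ := exit_point hz (S := {0}) (fun y hy => hp y hy) hz0
    have hw0' : w ≠ 0 := hw0
    exact ⟨-c, by simp, w, hw0', of_zero hw0' hgw⟩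

end Pool.Agent.X12.Obi
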