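import Pool.Agent.X12.Obi2

/-!
# Rational preperiodic points of the odd binomials: the long cycles
-/

set_option autoImplicit false

namespace Pool.Agent.X12.Obi

open Function Finset
open Pool.Agent.X12.Cub (Pre pre_apply pre_iterate pre_back pre_fixed exists_periodic
  pre_of_periodic exit_point)
open Pool.Agent.X12.Dyn (HtLe TS mem_TS TS_card htLe_of_div)

/-- the integer of the bad primes of a ratio -/
def T (k : ℕ) (ρ : ℚ) : ℕ :=
  (ρ.num * ρ.den * ((ρ.den : ℤ) ^ (2 * k) - ρ.num ^ (2 * k))).natAbs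

lemma pow_identity (k : ℕ) (ρ : ℚ) : (1 - ρ ^ (2 * k)) * (ρ.den : ℚ) ^ (2 * k) =
    (((ρ.den : ℤ) ^ (2 * k) - ρ.num ^ (2 * k) : ℤ) : ℚ) := by
  have h : (ρ.num : ℚ) = ρ * ρ.den := (Rat.mul_den_eq_num ρ).symm
  push_cast
  rw [h, mul_pow]
  ring

lemma T_ne {k : ℕ} {ρ : ℚ} (h0 : ρ ≠ 0) (h1 : ρ ^ (2 * k) ≠ 1) : T k ρ ≠ 0 := by
  unfold T
  rw [Int.natAbs_ne_zero]
  refine mul_ne_zero (mul_ne_zero (Rat.num_ne_zero.2 h0) (by exact_mod_cast ρ.den_ne_zero)) ?_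
  intro h
  have h2 := pow_identity k ρ
  rw [h, Int.cast_zero] at h2
  have hd : (ρ.den : ℚ) ≠ 0 := by exact_mod_cast ρ.den_ne_zero
  have h3 := (mul_eq_zero.1 h2).resolve_right (pow_ne_zero _ hd)
  exact h1 (by linarith)

lemma one_of_mul {x y : ℚ} (hx0 : 0 ≤ x) (hy0 : 0 ≤ y) (hx : x ≤ 1) (hy : y ≤ 1)
    (h : x * y = 1) : x = 1 ∧ y = 1 := by
  constructor
  · nlinarith
  · nlinarith

lemma padic_unit {k : ℕ} {ρ : ℚ} {p : ℕ} [hp : Fact p.Prime] (h : ¬ p ∣ T k ρ) :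
    padicNorm p ρ = 1 ∧ padicNorm p (ρ * W k ρ * (1 + ρ)) = 1 ∧
      padicNorm p (ρ * W k ρ * (ρ - 1)) = 1 := by
  unfold T at h
  rw [← Int.natCast_dvd] at h
  have hn : ¬ (p : ℤ) ∣ ρ.num := fun h' => h ((h'.mul_right _).mul_right _)
  have hd : ¬ (p : ℤ) ∣ (ρ.den : ℤ) := fun h' => h ((h'.mul_left _).mul_right _)
  have hq : ¬ (p : ℤ) ∣ ((ρ.den : ℤ) ^ (2 * k) - ρ.num ^ (2 * k)) := fun h' => h (h'.mul_left _)
  have n1 : padicNorm p (ρ.num : ℚ) = 1 := (padicNorm.int_eq_one_iff _).2 hn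
  have n2 : padicNorm p (ρ.den : ℚ) = 1 := by
    have := (padicNorm.int_eq_one_iff (p := p) (ρ.den : ℤ)).2 hd
    exact_mod_cast this
  have n3 := (padicNorm.int_eq_one_iff (p := p) _).2 hq
  have m1 : padicNorm p ρ = 1 := by
    have e : ρ * ρ.den = ρ.num := Rat.mul_den_eq_num ρ
    rw [← e, padicNorm.mul, n2, mul_one] at n1
    exact n1
  have m2 : padicNorm p (1 - ρ ^ (2 * k)) = 1 := by
    rw [← pow_identity, padicNorm.mul, Pool.Agent.X12.Uni.norm_pow, n2, one_pow, mul_one] at n3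
    exact n3
  have one : padicNorm p (1 : ℚ) = 1 := padicNorm.one
  have w1 : padicNorm p (W k ρ) ≤ 1 := by
    unfold W
    refine padicNorm.sum_le' (fun i _ => ?_) zero_le_one
    rw [Pool.Agent.X12.Uni.norm_pow, Pool.Agent.X12.Uni.norm_pow, m1, one_pow, one_pow]
  have w2 : padicNorm p (1 + ρ) ≤ 1 :=
    (padicNorm.nonarchimedean).trans (by rw [one, m1, max_self])
  have w3 : padicNorm p (ρ - 1) ≤ 1 :=
    (padicNorm.sub).trans (by rw [one, m1, max_self])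
  have w0 := padicNorm.nonneg (p := p) (W k ρ)
  have w4 := padicNorm.nonneg (p := p) (1 + ρ)
  have w5 := padicNorm.nonneg (p := p) (ρ - 1)
  have e : padicNorm p (ρ - 1) * (padicNorm p (1 + ρ) * padicNorm p (W k ρ)) = 1 := by
    have e1 : (ρ - 1) * ((1 + ρ) * W k ρ) = -(1 - ρ ^ (2 * k)) := by
      rw [← W_mul]
      ring
    rw [← padicNorm.mul, ← padicNorm.mul, e1, padicNorm.neg, m2]
  obtain ⟨r1, r2⟩ := one_of_mul w5 (mul_nonneg w4 w0) w3 (mul_le_one₀ w2 w0 w1) e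
  obtain ⟨r3, r4⟩ := one_of_mul w4 w0 w2 w1 r2
  refine ⟨m1, ?_, ?_⟩
  · rw [padicNorm.mul, padicNorm.mul, m1, r3, r4]
    norm_num
  · rw [padicNorm.mul, padicNorm.mul, m1, r1, r4]
    norm_num

lemma no_common {ρ α c E : ℚ} {p : ℕ} [hp : Fact p.Prime] {u : ℤ} (hρ : padicNorm p ρ = 1)
    (hE : padicNorm p E = 1) (hα : ρ = α + c) (hu : (u : ℚ) = c.den * (α * E + ρ))
    (h1 : (p : ℤ) ∣ u) (h2 : p ∣ c.den) : False := by
  have n1 : padicNorm p (u : ℚ) < 1 := (padicNorm.int_lt_one_iff u).2 h1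
  have n2 : padicNorm p (c.den : ℚ) < 1 := by
    have := (padicNorm.int_lt_one_iff (p := p) (c.den : ℤ)).2 (by exact_mod_cast h2)
    exact_mod_cast this
  have n2' : padicNorm p (c.den * ρ) < 1 := by
    rw [padicNorm.mul, hρ, mul_one]
    exact n2
  have n3 : padicNorm p (c.den * α) < 1 := by
    have e : (c.den * α) * E = u - c.den * ρ := by
      rw [hu]
      ring
    have e2 : padicNorm p (c.den * α) = padicNorm p (u - c.den * ρ) := by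
      rw [← e, padicNorm.mul _ E, hE, mul_one]
    rw [e2]
    exact (padicNorm.sub).trans_lt (max_lt n1 n2')
  have n4 : padicNorm p (c.num : ℚ) < 1 := by
    have e : (c.num : ℚ) = c.den * ρ - c.den * α := by
      have h3 : (c.num : ℚ) = c * c.den := (Rat.mul_den_eq_num c).symm
      rw [hα, h3]
      ring
    rw [e]
    exact (padicNorm.sub).trans_lt (max_lt n2' n3)
  have h3 : (p : ℤ) ∣ c.num := (padicNorm.int_lt_one_iff c.num).1 n4
  have h4 : p ∣ c.num.natAbs := Int.natCast_dvd.1 h3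
  have h5 := Nat.dvd_gcd h4 h2
  rw [Nat.Coprime.gcd_eq_one c.reduced] at h5
  exact hp.out.one_lt.ne' (Nat.dvd_one.1 h5)

lemma size_unit {k : ℕ} (hk : 1 ≤ k) {a u : ℤ} {c x y : ℚ} {X : ℝ} (hc : HtLe X c)
    (hx : x ∈ Pre (g k a c)) (hy : y ∈ Pre (g k a c))
    (hu : (u : ℚ) = c.den * (a * Φ k x y + c)) : |(u : ℝ)| ≤ (4 * k + 3) * X := by
  have hnq : (0 : ℚ) < c.den := by exact_mod_cast c.den_pos
  have hcn : (c.num : ℚ) = c * c.den := (Rat.mul_den_eq_num c).symm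
  have ev : ∀ w : ℚ, |w| ^ (2 * k) = w ^ (2 * k) := fun w => Even.pow_abs ⟨k, by ring⟩ w
  have h1 : |(a : ℚ)| * (max |x| |y|) ^ (2 * k) ≤ 1 + |c| := by
    rcases max_choice |x| |y| with h | h
    · rw [h, ev]
      exact pre_abs hk hx
    · rw [h, ev]
      exact pre_abs hk hy
  have h2 := Φ_abs (k := k) (le_max_left |x| |y|) (le_max_right |x| |y|)
  have h3 : |(a : ℚ) * Φ k x y| ≤ (2 * k + 1) * (1 + |c|) := by
    rw [abs_mul]
    calc |(a : ℚ)| * |Φ k x y| ≤ |(a : ℚ)| * ((2 * k + 1) * (max |x| |y|) ^ (2 * k)) :=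
          mul_le_mul_of_nonneg_left h2 (abs_nonneg _)
      _ = (2 * k + 1) * (|(a : ℚ)| * (max |x| |y|) ^ (2 * k)) := by ring
      _ ≤ (2 * k + 1) * (1 + |c|) := mul_le_mul_of_nonneg_left h1 (by positivity)
  have h4 : |(u : ℚ)| ≤ (2 * k + 1) * (c.den + |(c.num : ℚ)|) + |(c.num : ℚ)| := by
    have e1 : |(u : ℚ)| = c.den * |(a : ℚ) * Φ k x y + c| := by
      rw [hu, abs_mul, abs_of_pos hnq]
    have e2 : |(c.num : ℚ)| = |c| * c.den := by rw [hcn, abs_mul, abs_of_pos hnq]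
    have e3 : |(a : ℚ) * Φ k x y + c| ≤ (2 * k + 1) * (1 + |c|) + |c| :=
      (abs_add_le _ _).trans (by linarith)
    rw [e1, e2]
    calc (c.den : ℚ) * |(a : ℚ) * Φ k x y + c| ≤ c.den * ((2 * k + 1) * (1 + |c|) + |c|) :=
          mul_le_mul_of_nonneg_left e3 hnq.le
      _ = _ := by ring
  have h5 : |(u : ℝ)| ≤ (2 * k + 1) * (c.den + |(c.num : ℝ)|) + |(c.num : ℝ)| := by
    exact_mod_cast h4
  have hk0 : (0 : ℝ) ≤ k := Nat.cast_nonneg k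
  refine h5.trans ?_
  have h6 : (2 * (k : ℝ) + 1) * (c.den + |(c.num : ℝ)|) ≤ (2 * k + 1) * (X + X) := by
    refine mul_le_mul_of_nonneg_left ?_ (by positivity)
    linarith [hc.1, hc.2]
  linarith [hc.1]

/-- the data of a long cycle -/
theorem long_data {k : ℕ} (hk : 1 ≤ k) {a : ℤ} {c z : ℚ} {X : ℝ} (ha : a ≠ 0)
    (hc : HtLe X c) (hz : z ∈ periodicPts (g k a c)) (h1 : g k a c z ≠ z)
    (h2 : g k a c z ≠ -z) :
    ∃ (ρ α : ℚ) (u v : ℤ), Small k X ρ ∧ ρ ≠ 0 ∧ ρ ^ (2 * k) ≠ 1 ∧ Cl k a α ∧ ρ = α + c ∧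
      (u : ℚ) = c.den * (α * (ρ * W k ρ * (1 + ρ)) + ρ) ∧
      (v : ℚ) = c.den * (α * (ρ * W k ρ * (ρ - 1)) + ρ) ∧
      u ∈ TS ((4 * k + 3) * X) c.den ∧ v ∈ TS ((4 * k + 3) * X) c.den ∧
      u ∈ TS ((4 * k + 3) * X) (T k ρ) ∧ v ∈ TS ((4 * k + 3) * X) (T k ρ) ∧
      (∃ m : ℤ, (m : ℚ) = c.den * ρ) ∧ (∃ m : ℤ, (m : ℚ) = c.den * (α * ρ ^ (2 * k) + c)) := by
  obtain ⟨u, v, hu, hv, ⟨hu0, hus⟩, ⟨hv0, hvs⟩, hz0, hw0⟩ := cycle_units hk hz h1 h2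
  have hpre := pre_of_periodic hz
  have hwp : g k a c z ∈ Pre (g k a c) := pre_apply hpre
  set ρ := g k a c z / z with hρ
  set α := (a : ℚ) * z ^ (2 * k) with hα
  have hgz : g k a c z = ρ * z := by rw [hρ]; field_simp
  have hρα : ρ = α + c := by
    have h3 : z * (ρ - (α + c)) = 0 := by
      have h4 : g k a c z = (α + c) * z := to_val rfl
      linear_combination h4 - hgz
    linarith [(mul_eq_zero.1 h3).resolve_left hz0]
  have hρ0 : ρ ≠ 0 := div_ne_zero hw0 hz0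
  have hρ1 : ρ ^ (2 * k) ≠ 1 := by
    intro h
    rw [← one_pow (2 * k)] at h
    rcases ev_inj hk h with h3 | h3
    · rw [h3, one_mul] at hgz
      exact h1 hgz
    · rw [h3] at hgz
      exact h2 (by linarith)
  have eu : (u : ℚ) = c.den * (α * (ρ * W k ρ * (1 + ρ)) + ρ) := by
    rw [hu, hgz, Φ_ratio]
    rw [hρα]
    ring
  have ev : (v : ℚ) = c.den * (α * (ρ * W k ρ * (ρ - 1)) + ρ) := by
    have e : -(ρ * z) = (-ρ) * z := by ring
    rw [hv, hgz, e, Φ_ratio, W_neg]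
    have e2 : ρ = α + c := hρα
    linear_combination -(c.den : ℚ) * e2
  have su := size_unit hk hc hpre hwp hu
  have sv := size_unit hk hc hpre (pre_neg hwp) hv
  have hT0 := T_ne (k := k) hρ0 hρ1
  have key : ∀ (w : ℤ) (E : ℚ), w.natAbs.primeFactors ⊆ c.den.primeFactors →
      (w : ℚ) = c.den * (α * E + ρ) → (∀ p : ℕ, ∀ _ : Fact p.Prime, ¬ p ∣ T k ρ →
        padicNorm p E = 1) → w.natAbs.primeFactors ⊆ (T k ρ).primeFactors := by
    intro w E hs hw hE p hp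
    have hpp := Nat.prime_of_mem_primeFactors hp
    have hF : Fact p.Prime := ⟨hpp⟩
    have hpd : p ∣ c.den := Nat.dvd_of_mem_primeFactors (hs hp)
    have hpw : (p : ℤ) ∣ w := Int.natCast_dvd.2 (Nat.dvd_of_mem_primeFactors hp)
    by_contra hcon
    have hnd : ¬ p ∣ T k ρ := fun h => hcon (Nat.mem_primeFactors.2 ⟨hpp, h, hT0⟩)
    exact no_common (padic_unit hnd).1 (hE p hF hnd) hρα hw hpw hpd
  obtain ⟨A, hA⟩ := int_pow hk hpre
  obtain ⟨B, hB⟩ := int_pow hk hwp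
  have hcn : (c.num : ℚ) = c * c.den := (Rat.mul_den_eq_num c).symm
  refine ⟨ρ, α, u, v, small_ratio hk ha hc hpre hwp hz0 hw0, hρ0, hρ1, ⟨z, hz0, rfl⟩, hρα, eu, ev,
    mem_TS su hu0 hus, mem_TS sv hv0 hvs, mem_TS su hu0 (key u _ hus eu fun p _ h =>
      (padic_unit h).2.1), mem_TS sv hv0 (key v _ hvs ev fun p _ h => (padic_unit h).2.2),
    ⟨A + c.num, ?_⟩, ⟨B + c.num, ?_⟩⟩
  · push_cast
    rw [hA, hρα, hcn]
    ring
  · push_cast
    rw [hB, hgz, mul_pow, hcn, hα]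
    ring

/-- the class from the two units -/
def al (k : ℕ) (ρ : ℚ) (p : ℤ × ℤ) : ℚ :=
  ((p.1 : ℚ) - p.2) / ((((p.1 : ℚ) + p.2) - ((p.1 : ℚ) - p.2) * ρ) * W k ρ)

/-- the parameter and the class from the two units -/
def lo (k : ℕ) (ρ : ℚ) (p : ℤ × ℤ) : ℚ × ℚ := (ρ - al k ρ p, al k ρ p)

lemma al_eq {k : ℕ} (hk : 1 ≤ k) {ρ α c : ℚ} {u v : ℤ} (hρ : ρ ≠ 0)
    (hu : (u : ℚ) = c.den * (α * (ρ * W k ρ * (1 + ρ)) + ρ))
    (hv : (v : ℚ) = c.den * (α * (ρ * W k ρ * (ρ - 1)) + ρ)) : al k ρ (u, v) = α := by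
  have hn : (c.den : ℚ) ≠ 0 := by exact_mod_cast c.den_ne_zero
  have hW := (W_pos hk ρ).ne'
  unfold al
  simp only
  have e1 : (u : ℚ) - v = α * (2 * c.den * (ρ * W k ρ)) := by
    rw [hu, hv]
    ring
  have e2 : (((u : ℚ) + v) - ((u : ℚ) - v) * ρ) * W k ρ = 2 * c.den * (ρ * W k ρ) := by
    rw [e1, hu, hv]
    ring
  rw [e2, e1]
  have h3 : 2 * (c.den : ℚ) * (ρ * W k ρ) ≠ 0 :=
    mul_ne_zero (mul_ne_zero two_ne_zero hn) (mul_ne_zero hρ hW)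
  exact mul_div_cancel_right₀ _ h3

lemma dvd_TS {n : ℕ} {s : ℤ} {B : ℝ} (hn : 1 ≤ n) (hB : (n : ℝ) ≤ B) (h : s ∣ (n : ℤ)) :
    s ∈ TS B n := by
  have hn0 : (n : ℤ) ≠ 0 := by exact_mod_cast (by omega : n ≠ 0)
  have h1 : |s| ≤ (n : ℤ) := Int.le_of_dvd (by exact_mod_cast hn) ((abs_dvd _ _).2 h)
  refine mem_TS ?_ ?_ ?_
  · have : |(s : ℝ)| ≤ n := by exact_mod_cast h1
    exact this.trans hB
  · rintro rfl
    exact hn0 (zero_dvd_iff.1 h)
  · refine Nat.primeFactors_mono ?_ (by omega)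
    have := Int.natAbs_dvd_natAbs.2 h
    rwa [Int.natAbs_natCast] at this

/-- the possible classes for a given parameter -/
noncomputable def tw (k : ℕ) (X : ℝ) (c : ℚ) : Finset ℚ := by
  classical
  exact gen c ∪ (((TS ((4 * k + 3) * X) c.den ×ˢ TS ((4 * k + 3) * X) c.den).image
    fun p : ℤ × ℤ => ((p.1 : ℚ) + p.2) / ((p.1 : ℚ) - p.2 + 2 * c.den) - c) ∪
    ((TS ((4 * k + 3) * X) c.den ×ˢ TS ((4 * k + 3) * X) c.den).image
    fun p : ℤ × ℤ => (p.1 : ℚ) / p.2 - c))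

theorem tw_mem {k : ℕ} (hk : 1 ≤ k) {a : ℤ} {c : ℚ} {X : ℝ} (hX : 1 ≤ X) (ha : a ≠ 0)
    (hc : HtLe X c) (h : (1 : ℕ∞) < (Pre (g k a c)).encard) : ∃ α ∈ tw k X c, Cl k a α := by
  classical
  by_cases hl : ∃ z ∈ periodicPts (g k a c), g k a c z ≠ z ∧ g k a c z ≠ -z
  · obtain ⟨z, hz, h1, h2⟩ := hl
    obtain ⟨ρ, α, u, v, -, hρ0, hρ1, hcl, hρα, hu, hv, mu, mv, -, -, ⟨m1, hm1⟩, ⟨m2, hm2⟩⟩ :=
      long_data hk ha hc hz h1 h2
    refine ⟨α, ?_, hcl⟩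
    have hn : (c.den : ℚ) ≠ 0 := by exact_mod_cast c.den_ne_zero
    have e1 : (u : ℚ) + v = ρ * (2 * c.den * (α * (ρ * W k ρ) + 1)) := by
      rw [hu, hv]
      ring
    have e2 : (u : ℚ) - v + 2 * c.den = 2 * c.den * (α * (ρ * W k ρ) + 1) := by
      rw [hu, hv]
      ring
    have hα : α = ρ - c := by linarith
    unfold tw
    rw [Finset.mem_union, Finset.mem_union]
    right
    by_cases h3 : α * (ρ * W k ρ) + 1 = 0
    · right
      have e3 : α * ρ ^ (2 * k) + c = 1 / ρ := by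
        rw [eq_div_iff hρ0]
        have h4 := W_mul k ρ
        linear_combination (-1 : ℚ) * (1 - ρ ^ 2) * h3 + α * ρ * h4 - ρ * hρα
      rw [e3] at hm2
      have hd0 : (ρ.den : ℚ) ≠ 0 := by exact_mod_cast ρ.den_ne_zero
      have hρq : (ρ.num : ℚ) = ρ * ρ.den := (Rat.mul_den_eq_num ρ).symm
      have hcop := rat_cop ρ
      have q1 : (ρ.den : ℤ) ∣ (c.den : ℤ) := by
        have h5 : m1 * ρ.den = c.den * ρ.num := by
          have : ((m1 * ρ.den : ℤ) : ℚ) = ((c.den * ρ.num : ℤ) : ℚ) := by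
            push_cast
            rw [hm1, hρq]
            ring
          exact_mod_cast this
        exact hcop.symm.dvd_of_dvd_mul_right ⟨m1, by rw [← h5]; ring⟩
      have q2 : ρ.num ∣ (c.den : ℤ) := by
        have h5 : m2 * ρ.num = c.den * ρ.den := by
          have : ((m2 * ρ.num : ℤ) : ℚ) = ((c.den * ρ.den : ℤ) : ℚ) := by
            push_cast
            rw [hm2, hρq]
            field_simp
          exact_mod_cast this
        exact hcop.dvd_of_dvd_mul_right ⟨m2, by rw [← h5]; ring⟩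
      have hB : (c.den : ℝ) ≤ (4 * k + 3) * X := by
        have : (0 : ℝ) ≤ k := Nat.cast_nonneg k
        nlinarith [hc.2]
      refine Finset.mem_image.2 ⟨(ρ.num, (ρ.den : ℤ)), ?_, ?_⟩
      · rw [Finset.mem_product]
        exact ⟨dvd_TS c.den_pos hB q2, dvd_TS c.den_pos hB q1⟩
      · simp only
        push_cast
        rw [Rat.num_div_den, hα]
    · left
      refine Finset.mem_image.2 ⟨(u, v), ?_, ?_⟩
      · rw [Finset.mem_product]
        exact ⟨mu, mv⟩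
      · simp only
        rw [e1, e2, mul_div_assoc, div_self (mul_ne_zero (mul_ne_zero two_ne_zero hn) h3), mul_one,
          hα]
  · push Not at hl
    obtain ⟨α, h1, h2⟩ := generic_cl h (fun z hz => by
      by_cases h4 : g k a c z = z
      · exact Or.inl h4
      · exact Or.inr (hl z hz h4))
    refine ⟨α, ?_, h2⟩
    unfold tw
    exact Finset.mem_union_left _ h1

/-- the small ratios -/
noncomputable def SR (k : ℕ) (X : ℝ) : Finset ℚ := by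
  classical
  exact ((Finset.Icc (-⌊(2 * X) ^ ((1 : ℝ) / (2 * k))⌋) ⌊(2 * X) ^ ((1 : ℝ) / (2 * k))⌋ ×ˢ
    Finset.Icc 1 ⌊(2 * X) ^ ((1 : ℝ) / (2 * k))⌋₊).image
    fun p : ℤ × ℕ => (p.1 : ℚ) / p.2).filter (Small k X)

lemma root_pow {k : ℕ} (hk : 1 ≤ k) {Y : ℝ} (hY : 0 ≤ Y) :
    (Y ^ ((1 : ℝ) / (2 * k))) ^ (2 * k) = Y := by
  have h := Real.rpow_inv_natCast_pow hY (by omega : 2 * k ≠ 0)
  have e : (((2 * k : ℕ) : ℝ))⁻¹ = (1 : ℝ) / (2 * k) := by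
    push_cast
    rw [one_div]
  rwa [e] at h

lemma root_sq {k : ℕ} (hk : 1 ≤ k) {Y : ℝ} (hY : 0 ≤ Y) :
    (Y ^ ((1 : ℝ) / (2 * k))) * (Y ^ ((1 : ℝ) / (2 * k))) = Y ^ ((1 : ℝ) / k) := by
  have hk0 : (0 : ℝ) < k := by exact_mod_cast hk
  rw [← sq, ← Real.rpow_natCast, ← Real.rpow_mul hY]
  congr 1
  push_cast
  field_simp

lemma mem_SR {k : ℕ} (hk : 1 ≤ k) {X : ℝ} (hX : 1 ≤ X) {ρ : ℚ} (h : Small k X ρ) :
    ρ ∈ SR k X := by
  classical
  set R := (2 * X) ^ ((1 : ℝ) / (2 * k)) with hR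
  have hR0 : 0 ≤ R := Real.rpow_nonneg (by linarith) _
  have hRp : R ^ (2 * k) = 2 * X := root_pow hk (by linarith)
  have h1 : |(ρ.num : ℝ)| ≤ R := by
    refine (pow_le_pow_iff_left₀ (abs_nonneg _) hR0 (by omega : 2 * k ≠ 0)).1 ?_
    rw [hRp]
    exact h.1
  have h2 : (ρ.den : ℝ) ≤ R := by
    refine (pow_le_pow_iff_left₀ (Nat.cast_nonneg _) hR0 (by omega : 2 * k ≠ 0)).1 ?_
    rw [hRp]
    exact h.2
  unfold SR
  rw [Finset.mem_filter]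
  refine ⟨Finset.mem_image.2 ⟨(ρ.num, ρ.den), ?_, Rat.num_div_den ρ⟩, h⟩
  rw [Finset.mem_product]
  exact ⟨Szp.mem_of_abs_le h1, Finset.mem_Icc.2 ⟨ρ.den_pos, Nat.le_floor h2⟩⟩

lemma SR_card {k : ℕ} (hk : 1 ≤ k) {X : ℝ} (hX : 1 ≤ X) :
    ((SR k X).card : ℝ) ≤ 3 * (2 * X) ^ ((1 : ℝ) / k) := by
  classical
  set R := (2 * X) ^ ((1 : ℝ) / (2 * k)) with hR
  have hk0 : (0 : ℝ) < k := by exact_mod_cast hk
  have hR1 : 1 ≤ R := Real.one_le_rpow (by linarith) (by positivity)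
  have h1 : (SR k X).card ≤ (Finset.Icc (-⌊R⌋) ⌊R⌋).card * ⌊R⌋₊ := by
    unfold SR
    refine (Finset.card_filter_le _ _).trans (Finset.card_image_le.trans ?_)
    rw [Finset.card_product, Nat.card_Icc, Nat.add_sub_cancel]
  have h2 := Szp.card_Icc_le (Y := R) hR1
  have h3 : (⌊R⌋₊ : ℝ) ≤ R := Nat.floor_le (by linarith)
  have h4 : ((SR k X).card : ℝ) ≤ ((Finset.Icc (-⌊R⌋) ⌊R⌋).card : ℝ) * (⌊R⌋₊ : ℝ) := by
    exact_mod_cast h1
  rw [← root_sq hk (by linarith : (0 : ℝ) ≤ 2 * X)]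
  refine h4.trans ?_
  calc ((Finset.Icc (-⌊R⌋) ⌊R⌋).card : ℝ) * (⌊R⌋₊ : ℝ) ≤ (3 * R) * R := by
        refine mul_le_mul h2 h3 (Nat.cast_nonneg _) (by linarith)
    _ = _ := by ring

lemma T_le {k : ℕ} {X : ℝ} {ρ : ℚ} (hk : 1 ≤ k) (hX : 1 ≤ X) (h : Small k X ρ) :
    (T k ρ : ℝ) ≤ 16 * X ^ 3 := by
  have h1 : |(ρ.num : ℝ)| ≤ 2 * X := by
    by_cases h0 : 1 ≤ |(ρ.num : ℝ)|
    · exact (le_self_pow₀ h0 (by omega)).trans h.1
    · linarith
  have h2 : (ρ.den : ℝ) ≤ 2 * X :=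
    (le_self_pow₀ (by exact_mod_cast ρ.den_pos) (by omega)).trans h.2
  have h3 : |(ρ.den : ℝ) ^ (2 * k) - (ρ.num : ℝ) ^ (2 * k)| ≤ 4 * X := by
    refine (abs_sub _ _).trans ?_
    rw [abs_pow, abs_pow, abs_of_nonneg (Nat.cast_nonneg ρ.den : (0 : ℝ) ≤ (ρ.den : ℝ))]
    linarith [h.1, h.2]
  have e : (T k ρ : ℝ) = |(ρ.num : ℝ)| * (ρ.den : ℝ) *
      |(ρ.den : ℝ) ^ (2 * k) - (ρ.num : ℝ) ^ (2 * k)| := by
    unfold T
    rw [Nat.cast_natAbs]
    push_cast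
    rw [abs_mul, abs_mul, abs_of_nonneg (Nat.cast_nonneg ρ.den : (0 : ℝ) ≤ (ρ.den : ℝ))]
  rw [e]
  calc |(ρ.num : ℝ)| * (ρ.den : ℝ) * |(ρ.den : ℝ) ^ (2 * k) - (ρ.num : ℝ) ^ (2 * k)|
      ≤ (2 * X) * (2 * X) * (4 * X) := by gcongr
    _ = 16 * X ^ 3 := by ring

lemma TS_bound (k : ℕ) (ε : ℝ) (hε : 0 < ε) : ∃ C : ℝ, 0 < C ∧ ∀ (X : ℝ) (n : ℕ), 1 ≤ X →
    1 ≤ n → (n : ℝ) ≤ 16 * X ^ 3 → ((TS ((4 * k + 3) * X) n).card : ℝ) ≤ C * X ^ ε := by
  obtain ⟨C, hC, h⟩ := TS_card (ε / 4) (by positivity)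
  have hk0 : (0 : ℝ) ≤ k := Nat.cast_nonneg k
  refine ⟨C * (4 * k + 3) ^ (ε / 4) * 16 ^ (ε / 4), by positivity, fun X n hX hn hnX => ?_⟩
  have hX0 : 0 < X := by linarith
  have h1 := h ((4 * k + 3) * X) n (by nlinarith) hn
  refine h1.trans ?_
  have e1 : ((4 * (k : ℝ) + 3) * X) ^ (ε / 4) = (4 * k + 3) ^ (ε / 4) * X ^ (ε / 4) :=
    Real.mul_rpow (by positivity) hX0.le
  have e2 : (n : ℝ) ^ (ε / 4) ≤ 16 ^ (ε / 4) * X ^ (3 * ε / 4) := by
    refine (Real.rpow_le_rpow (Nat.cast_nonneg n) hnX (by positivity)).trans (le_of_eq ?_)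
    rw [Real.mul_rpow (by norm_num) (by positivity), ← Real.rpow_natCast X 3,
      ← Real.rpow_mul hX0.le]
    congr 2
    push_cast
    ring
  have e3 : X ^ ε = X ^ (ε / 4) * X ^ (3 * ε / 4) := by
    rw [← Real.rpow_add hX0]
    congr 1
    ring
  rw [e1, e3]
  calc C * ((4 * (k : ℝ) + 3) ^ (ε / 4) * X ^ (ε / 4)) * (n : ℝ) ^ (ε / 4)
      ≤ C * ((4 * (k : ℝ) + 3) ^ (ε / 4) * X ^ (ε / 4)) * (16 ^ (ε / 4) * X ^ (3 * ε / 4)) := by
        gcongr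
    _ = _ := by ring

/-- the exceptional parameters and classes -/
noncomputable def DE (k : ℕ) (X : ℝ) : Finset (ℚ × ℚ) := by
  classical
  exact ((SR k X).biUnion fun ρ => (cs k ρ).biUnion fun c => (gen c).image fun α => (c, α)) ∪
    (((SR k X).filter fun ρ => T k ρ ≠ 0).biUnion fun ρ =>
      (TS ((4 * k + 3) * X) (T k ρ) ×ˢ TS ((4 * k + 3) * X) (T k ρ)).image (lo k ρ))

theorem DE_card {k : ℕ} (hk : 1 ≤ k) (ε : ℝ) (hε : 0 < ε) : ∃ C : ℝ, 0 < C ∧ ∀ X : ℝ, 1 ≤ X →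
    ((DE k X).card : ℝ) ≤ C * X ^ ((1 : ℝ) / k + ε) := by
  classical
  obtain ⟨C, hC, h⟩ := TS_bound k (ε / 2) (by positivity)
  have hk0 : (0 : ℝ) < k := by exact_mod_cast hk
  refine ⟨3 * 2 ^ ((1 : ℝ) / k) * (18 + C ^ 2), by positivity, fun X hX => ?_⟩
  have hX0 : 0 < X := by linarith
  have h1 := SR_card hk hX
  have c1 : ((SR k X).biUnion fun ρ => (cs k ρ).biUnion fun c =>
      (gen c).image fun α => (c, α)).card ≤ (SR k X).card * 18 := by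
    refine Finset.card_biUnion_le_card_mul _ _ _ fun ρ _ => ?_
    have := Finset.card_biUnion_le_card_mul (cs k ρ) (fun c => (gen c).image fun α => (c, α)) 3
      fun c _ => Finset.card_image_le.trans (gen_card c)
    have h2 := cs_card k ρ
    omega
  have c2 : ((((SR k X).filter fun ρ => T k ρ ≠ 0).biUnion fun ρ =>
      (TS ((4 * k + 3) * X) (T k ρ) ×ˢ TS ((4 * k + 3) * X) (T k ρ)).image (lo k ρ)).card : ℝ) ≤
      ((SR k X).card : ℝ) * (C ^ 2 * X ^ ε) := by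
    have h2 : (((SR k X).filter fun ρ => T k ρ ≠ 0).biUnion fun ρ =>
        (TS ((4 * k + 3) * X) (T k ρ) ×ˢ TS ((4 * k + 3) * X) (T k ρ)).image (lo k ρ)).card ≤
        ∑ ρ ∈ (SR k X).filter fun ρ => T k ρ ≠ 0,
          ((TS ((4 * k + 3) * X) (T k ρ) ×ˢ TS ((4 * k + 3) * X) (T k ρ)).image (lo k ρ)).card :=
      Finset.card_biUnion_le
    have h3 : ∀ ρ ∈ (SR k X).filter fun ρ => T k ρ ≠ 0,
        ((((TS ((4 * k + 3) * X) (T k ρ) ×ˢ TS ((4 * k + 3) * X) (T k ρ)).image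
          (lo k ρ)).card : ℕ) : ℝ) ≤ C ^ 2 * X ^ ε := by
      intro ρ hρ
      rw [Finset.mem_filter] at hρ
      have h4 : Small k X ρ := by
        have := hρ.1
        unfold SR at this
        rw [Finset.mem_filter] at this
        exact this.2
      have h5 := h X (T k ρ) hX (Nat.one_le_iff_ne_zero.2 hρ.2) (T_le hk hX h4)
      have h6 : ((TS ((4 * k + 3) * X) (T k ρ) ×ˢ TS ((4 * k + 3) * X) (T k ρ)).image
          (lo k ρ)).card ≤ (TS ((4 * k + 3) * X) (T k ρ)).card *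
          (TS ((4 * k + 3) * X) (T k ρ)).card := by
        refine Finset.card_image_le.trans ?_
        rw [Finset.card_product]
      have h7 : ((((TS ((4 * k + 3) * X) (T k ρ) ×ˢ TS ((4 * k + 3) * X) (T k ρ)).image
          (lo k ρ)).card : ℕ) : ℝ) ≤ ((TS ((4 * k + 3) * X) (T k ρ)).card : ℝ) *
          ((TS ((4 * k + 3) * X) (T k ρ)).card : ℝ) := by exact_mod_cast h6
      refine h7.trans ?_
      have e : X ^ ε = X ^ (ε / 2) * X ^ (ε / 2) := by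
        rw [← Real.rpow_add hX0]
        congr 1
        ring
      rw [e]
      calc _ ≤ (C * X ^ (ε / 2)) * (C * X ^ (ε / 2)) :=
            mul_le_mul h5 h5 (Nat.cast_nonneg _) (by positivity)
        _ = _ := by ring
    have h4 := Finset.sum_le_card_nsmul _ _ _ h3
    rw [nsmul_eq_mul] at h4
    have h5 : ((((SR k X).filter fun ρ => T k ρ ≠ 0).card : ℕ) : ℝ) ≤ ((SR k X).card : ℝ) := by
      exact_mod_cast Finset.card_filter_le _ _
    calc _ ≤ (∑ ρ ∈ (SR k X).filter fun ρ => T k ρ ≠ 0,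
          ((((TS ((4 * k + 3) * X) (T k ρ) ×ˢ TS ((4 * k + 3) * X) (T k ρ)).image
          (lo k ρ)).card : ℕ) : ℝ)) := by exact_mod_cast h2
      _ ≤ _ := h4
      _ ≤ _ := mul_le_mul_of_nonneg_right h5 (by positivity)
  have c3 : ((DE k X).card : ℝ) ≤ ((SR k X).card : ℝ) * 18 +
      ((SR k X).card : ℝ) * (C ^ 2 * X ^ ε) := by
    have h2 : (DE k X).card ≤ ((SR k X).biUnion fun ρ => (cs k ρ).biUnion fun c =>
      (gen c).image fun α => (c, α)).card + (((SR k X).filter fun ρ => T k ρ ≠ 0).biUnion fun ρ =>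
      (TS ((4 * k + 3) * X) (T k ρ) ×ˢ TS ((4 * k + 3) * X) (T k ρ)).image (lo k ρ)).card := by
      unfold DE
      exact Finset.card_union_le _ _
    have h3 : ((DE k X).card : ℝ) ≤ ((((SR k X).biUnion fun ρ => (cs k ρ).biUnion fun c =>
      (gen c).image fun α => (c, α)).card : ℕ) : ℝ) +
      (((((SR k X).filter fun ρ => T k ρ ≠ 0).biUnion fun ρ =>
      (TS ((4 * k + 3) * X) (T k ρ) ×ˢ TS ((4 * k + 3) * X) (T k ρ)).image
        (lo k ρ)).card : ℕ) : ℝ) := by exact_mod_cast h2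
    refine h3.trans (add_le_add ?_ c2)
    exact_mod_cast c1
  have hXε : 1 ≤ X ^ ε := Real.one_le_rpow hX hε.le
  refine c3.trans ?_
  have e1 : (2 * X) ^ ((1 : ℝ) / k) = 2 ^ ((1 : ℝ) / k) * X ^ ((1 : ℝ) / k) :=
    Real.mul_rpow (by norm_num) hX0.le
  rw [e1] at h1
  rw [Real.rpow_add hX0]
  have h8 : ((SR k X).card : ℝ) * 18 + ((SR k X).card : ℝ) * (C ^ 2 * X ^ ε) ≤
      ((SR k X).card : ℝ) * ((18 + C ^ 2) * X ^ ε) := by
    have : (0 : ℝ) ≤ ((SR k X).card : ℝ) := Nat.cast_nonneg _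
    nlinarith
  refine h8.trans ?_
  calc ((SR k X).card : ℝ) * ((18 + C ^ 2) * X ^ ε)
      ≤ (3 * (2 ^ ((1 : ℝ) / k) * X ^ ((1 : ℝ) / k))) * ((18 + C ^ 2) * X ^ ε) :=
        mul_le_mul_of_nonneg_right h1 (by positivity)
    _ = _ := by ring

theorem DE_mem {k : ℕ} (hk : 1 ≤ k) {a : ℤ} {c : ℚ} {X : ℝ} (hX : 1 ≤ X) (ha : a ≠ 0)
    (hc : HtLe X c) (h : (3 : ℕ∞) < (Pre (g k a c)).encard ∨
      ∃ z ∈ periodicPts (g k a c), g k a c z ≠ z ∧ g k a c z ≠ -z) :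
    ∃ α, (c, α) ∈ DE k X ∧ Cl k a α := by
  classical
  by_cases hl : ∃ z ∈ periodicPts (g k a c), g k a c z ≠ z ∧ g k a c z ≠ -z
  · obtain ⟨z, hz, h1, h2⟩ := hl
    obtain ⟨ρ, α, u, v, hs, hρ0, hρ1, hcl, hρα, hu, hv, -, -, mu, mv, -, -⟩ :=
      long_data hk ha hc hz h1 h2
    refine ⟨α, ?_, hcl⟩
    unfold DE
    rw [Finset.mem_union]
    right
    rw [Finset.mem_biUnion]
    refine ⟨ρ, Finset.mem_filter.2 ⟨mem_SR hk hX hs, T_ne hρ0 hρ1⟩,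
      Finset.mem_image.2 ⟨(u, v), Finset.mem_product.2 ⟨mu, mv⟩, ?_⟩⟩
    unfold lo
    rw [al_eq hk hρ0 hu hv]
    refine Prod.ext ?_ rfl
    simp only
    linarith
  · have h3 := h.resolve_right hl
    push Not at hl
    have hper : ∀ y ∈ periodicPts (g k a c), g k a c y = y ∨ g k a c y = -y := by
      intro y hy
      by_cases h4 : g k a c y = y
      · exact Or.inl h4
      · exact Or.inr (hl y hy h4)
    obtain ⟨ρ, hs, hcs⟩ := bad_of_more hk ha hc h3 hper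
    obtain ⟨α, hα, hcl⟩ := generic_cl (lt_trans (by norm_num) h3) hper
    refine ⟨α, ?_, hcl⟩
    unfold DE
    rw [Finset.mem_union]
    left
    rw [Finset.mem_biUnion]
    refine ⟨ρ, mem_SR hk hX hs, ?_⟩
    rw [Finset.mem_biUnion]
    exact ⟨c, hcs, Finset.mem_image.2 ⟨α, hα, rfl⟩⟩

end Pool.Agent.X12.Obi
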