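import Pool.Agent.X12.Obi3

/-!
# Counting the odd binomials with many rational preperiodic points
-/

set_option autoImplicit false

namespace Pool.Agent.X12.Obi

open Function Finset Filter Topology
open Pool.Agent.X12.Cub (Pre pre_apply pre_iterate pre_back pre_fixed exists_periodic
  pre_of_periodic exit_point)
open Pool.Agent.X12.Dyn (HtLe TS mem_TS TS_card htLe_of_div)

/-- more than `N` rational preperiodic points -/
def MoreB (k N : ℕ) (X : ℝ) : Set (ℤ × ℚ) :=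
  {q | PF k q.1 ∧ HtLe X q.2 ∧ (N : ℕ∞) < (Pre (g k q.1 q.2)).encard}

/-- exactly three rational preperiodic points -/
def ThreeB (k : ℕ) (X : ℝ) : Set (ℤ × ℚ) :=
  {q | PF k q.1 ∧ HtLe X q.2 ∧ (Pre (g k q.1 q.2)).encard = 3}

/-- a rational point of period at least three -/
def LongB (k : ℕ) (X : ℝ) : Set (ℤ × ℚ) :=
  {q | PF k q.1 ∧ HtLe X q.2 ∧ ∃ z : ℚ, 3 ≤ minimalPeriod (g k q.1 q.2) z}

/-- the exceptional pairs -/
def ExcB (k : ℕ) (X : ℝ) : Set (ℤ × ℚ) :=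
  {q | PF k q.1 ∧ HtLe X q.2 ∧ ((3 : ℕ∞) < (Pre (g k q.1 q.2)).encard ∨
    ∃ z ∈ periodicPts (g k q.1 q.2), g k q.1 q.2 z ≠ z ∧ g k q.1 q.2 z ≠ -z)}

/-- the twists with a nonzero preperiodic point -/
def TwB (k : ℕ) (c : ℚ) : Set ℤ := {a | PF k a ∧ (1 : ℕ∞) < (Pre (g k a c)).encard}

theorem count_cl {k : ℕ} (S : Set (ℤ × ℚ)) (D : Finset (ℚ × ℚ))
    (hS : ∀ q ∈ S, PF k q.1 ∧ ∃ α, (q.2, α) ∈ D ∧ Cl k q.1 α) :
    S.Finite ∧ S.ncard ≤ D.card := by
  classical
  set K : ℤ × ℚ → ℚ := fun q => if h : q ∈ S then Classical.choose (hS q h).2 else 0 with hK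
  have hK1 : ∀ q ∈ S, (q.2, K q) ∈ D ∧ Cl k q.1 (K q) := by
    intro q hq
    have h1 := Classical.choose_spec (hS q hq).2
    simp only [hK, dif_pos hq]
    exact h1
  set ψ : ℤ × ℚ → ℚ × ℚ := fun q => (q.2, K q) with hψ
  have hmaps : Set.MapsTo ψ S (D : Set (ℚ × ℚ)) := fun q hq => (hK1 q hq).1
  have hinj : Set.InjOn ψ S := by
    intro q hq r hr hqr
    simp only [hψ, Prod.mk.injEq] at hqr
    obtain ⟨h1, h2⟩ := hqr
    refine Prod.ext (cl_inj (hS q hq).1 (hS r hr).1 (hK1 q hq).2 ?_) h1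
    rw [h2]
    exact (hK1 r hr).2
  refine ⟨Set.Finite.of_injOn hmaps hinj D.finite_toSet, ?_⟩
  have h1 := Set.ncard_le_ncard_of_injOn ψ hmaps hinj D.finite_toSet
  rwa [Set.ncard_coe_finset] at h1

/-- the exceptional pairs -/
theorem exc_count {k : ℕ} (hk : 1 ≤ k) {X : ℝ} (hX : 1 ≤ X) :
    (ExcB k X).Finite ∧ (ExcB k X).ncard ≤ (DE k X).card :=
  count_cl _ _ fun _ hq => ⟨hq.1, DE_mem hk hX hq.1.ne_zero hq.2.1 hq.2.2⟩

lemma more_sub (k : ℕ) (X : ℝ) : MoreB k 3 X ⊆ ExcB k X :=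
  fun _ h => ⟨h.1, h.2.1, Or.inl h.2.2⟩

lemma long_sub (k : ℕ) (X : ℝ) : LongB k X ⊆ ExcB k X := by
  rintro q ⟨h1, h2, z, hz⟩
  refine ⟨h1, h2, Or.inr ⟨z, ?_, ?_, ?_⟩⟩
  · exact minimalPeriod_pos_iff_mem_periodicPts.1 (by omega)
  · intro h
    have h3 : IsPeriodicPt (g k q.1 q.2) 1 z := h
    have := h3.minimalPeriod_le one_pos
    omega
  · intro h
    have h3 : IsPeriodicPt (g k q.1 q.2) 2 z := by
      show g k q.1 q.2 (g k q.1 q.2 z) = z
      rw [h, g_neg, h, neg_neg]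
    have := h3.minimalPeriod_le two_pos
    omega

lemma three_le {k : ℕ} {a : ℤ} {c z : ℚ} (hz : z ∈ Pre (g k a c)) (hz0 : z ≠ 0) :
    (3 : ℕ∞) ≤ (Pre (g k a c)).encard := by
  classical
  set S : Finset ℚ := {0, z, -z} with hS
  have hsub : (S : Set ℚ) ⊆ Pre (g k a c) := by
    intro y hy
    rw [hS] at hy
    simp only [Finset.coe_insert, Finset.coe_singleton, Set.mem_insert_iff,
      Set.mem_singleton_iff] at hy
    rcases hy with rfl | rfl | rfl
    · exact zero_pre k a c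
    · exact hz
    · exact pre_neg hz
  have hcard : S.card = 3 := by
    rw [hS, Finset.card_insert_of_notMem (by simp [hz0, hz0.symm]),
      Finset.card_insert_of_notMem (by
        rw [Finset.mem_singleton]
        intro h
        exact hz0 (by linarith)), Finset.card_singleton]
  have := Set.encard_le_encard hsub
  rw [Set.encard_coe_eq_coe_finsetCard, hcard] at this
  exact this

lemma five_le {k : ℕ} {a : ℤ} {c z w : ℚ} (hz : z ∈ Pre (g k a c)) (hz0 : z ≠ 0)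
    (hw : w ∈ Pre (g k a c)) (hw0 : w ≠ 0) (h1 : w ≠ z) (h2 : w ≠ -z) :
    (5 : ℕ∞) ≤ (Pre (g k a c)).encard := by
  classical
  set S : Finset ℚ := {0, z, -z, w, -w} with hS
  have hsub : (S : Set ℚ) ⊆ Pre (g k a c) := by
    intro y hy
    rw [hS] at hy
    simp only [Finset.coe_insert, Finset.coe_singleton, Set.mem_insert_iff,
      Set.mem_singleton_iff] at hy
    rcases hy with rfl | rfl | rfl | rfl | rfl
    · exact zero_pre k a c
    · exact hz
    · exact pre_neg hz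
    · exact hw
    · exact pre_neg hw
  have e1 : z ≠ -w := fun h => h2 (by linarith)
  have e2 : -z ≠ -w := fun h => h1 (by linarith)
  have e3 : z ≠ -z := fun h => hz0 (by linarith)
  have e4 : w ≠ -w := fun h => hw0 (by linarith)
  have hcard : S.card = 5 := by
    rw [hS, Finset.card_insert_of_notMem (by simp [hz0, hw0, hz0.symm, hw0.symm]),
      Finset.card_insert_of_notMem (by simp [e3, h1.symm, e1]),
      Finset.card_insert_of_notMem (by
        rw [Finset.mem_insert, Finset.mem_singleton, not_or]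
        exact ⟨h2.symm, e2⟩),
      Finset.card_insert_of_notMem (by simpa using e4), Finset.card_singleton]
  have := Set.encard_le_encard hsub
  rw [Set.encard_coe_eq_coe_finsetCard, hcard] at this
  exact this

/-! ### The twists of one polynomial -/

theorem tw_count {k : ℕ} (hk : 1 ≤ k) {X : ℝ} (hX : 1 ≤ X) {c : ℚ} (hc : HtLe X c) :
    (TwB k c).Finite ∧ (TwB k c).ncard ≤ (tw k X c).card := by
  classical
  have hex : ∀ a ∈ TwB k c, ∃ α ∈ tw k X c, Cl k a α :=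
    fun a ha => tw_mem hk hX ha.1.ne_zero hc ha.2
  set K : ℤ → ℚ := fun a => if h : a ∈ TwB k c then Classical.choose (hex a h) else 0 with hK
  have hK1 : ∀ a ∈ TwB k c, K a ∈ tw k X c ∧ Cl k a (K a) := by
    intro a ha
    have h1 := Classical.choose_spec (hex a ha)
    simp only [hK, dif_pos ha]
    exact h1
  have hmaps : Set.MapsTo K (TwB k c) (tw k X c : Set ℚ) := fun a ha => (hK1 a ha).1
  have hinj : Set.InjOn K (TwB k c) := by
    intro a ha b hb hab
    refine cl_inj ha.1 hb.1 (hK1 a ha).2 ?_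
    rw [hab]
    exact (hK1 b hb).2
  refine ⟨Set.Finite.of_injOn hmaps hinj (tw k X c).finite_toSet, ?_⟩
  have h1 := Set.ncard_le_ncard_of_injOn K hmaps hinj (tw k X c).finite_toSet
  rwa [Set.ncard_coe_finset] at h1

theorem tw_card (k : ℕ) (ε : ℝ) (hε : 0 < ε) : ∃ C : ℝ, 0 < C ∧ ∀ (X : ℝ) (c : ℚ), 1 ≤ X →
    HtLe X c → ((tw k X c).card : ℝ) ≤ C * X ^ ε := by
  classical
  obtain ⟨C, hC, h⟩ := TS_bound k (ε / 2) (by positivity)
  refine ⟨3 + 2 * C ^ 2, by positivity, fun X c hX hc => ?_⟩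
  have hX0 : 0 < X := by linarith
  have h1 := h X c.den hX c.den_pos (hc.2.trans (by nlinarith [sq_nonneg (X - 1), sq_nonneg X]))
  set s := (TS ((4 * k + 3) * X) c.den).card with hs
  have h2 : (tw k X c).card ≤ 3 + (s * s + s * s) := by
    unfold tw
    refine (Finset.card_union_le _ _).trans (Nat.add_le_add (gen_card c) ?_)
    refine (Finset.card_union_le _ _).trans (Nat.add_le_add ?_ ?_)
    · refine Finset.card_image_le.trans ?_
      rw [Finset.card_product]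
    · refine Finset.card_image_le.trans ?_
      rw [Finset.card_product]
  have h3 : ((tw k X c).card : ℝ) ≤ 3 + ((s : ℝ) * s + (s : ℝ) * s) := by exact_mod_cast h2
  have e : X ^ ε = X ^ (ε / 2) * X ^ (ε / 2) := by
    rw [← Real.rpow_add hX0]
    congr 1
    ring
  have h4 : (s : ℝ) * s ≤ (C * X ^ (ε / 2)) * (C * X ^ (ε / 2)) :=
    mul_le_mul h1 h1 (Nat.cast_nonneg _) (by positivity)
  have h5 : 1 ≤ X ^ ε := Real.one_le_rpow hX hε.le
  have h6 : (C * X ^ (ε / 2)) * (C * X ^ (ε / 2)) = C ^ 2 * X ^ ε := by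
    rw [e]
    ring
  rw [h6] at h4
  nlinarith

/-! ### The rationals of bounded height -/

/-- the rationals of height at most `X` -/
noncomputable def RX (X : ℝ) : Finset ℚ := by
  classical
  exact ((Finset.Icc (-⌊X⌋) ⌊X⌋ ×ˢ Finset.Icc 1 ⌊X⌋₊).image
    fun p : ℤ × ℕ => (p.1 : ℚ) / p.2).filter (HtLe X)

lemma mem_RX {X : ℝ} {c : ℚ} : c ∈ RX X ↔ HtLe X c := by
  classical
  unfold RX
  rw [Finset.mem_filter]
  refine ⟨fun h => h.2, fun h => ⟨Finset.mem_image.2 ⟨(c.num, c.den), ?_, Rat.num_div_den c⟩, h⟩⟩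
  rw [Finset.mem_product]
  exact ⟨Szp.mem_of_abs_le h.1, Finset.mem_Icc.2 ⟨c.den_pos, Nat.le_floor h.2⟩⟩

lemma coe_RX (X : ℝ) : (RX X : Set ℚ) = {c | HtLe X c} := by
  ext c
  rw [Finset.mem_coe, mem_RX]
  rfl

/-- the generic pairs of parameters and classes -/
noncomputable def DG (S : Finset ℚ) : Finset (ℚ × ℚ) := by
  classical
  exact S.biUnion fun c => (gen c).image fun α => (c, α)

lemma gen_card_eq (c : ℚ) : (gen c).card = 3 := by
  unfold gen
  rw [Finset.card_insert_of_notMem, Finset.card_insert_of_notMem, Finset.card_singleton]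
  · rw [Finset.mem_singleton]
    intro h
    linarith
  · rw [Finset.mem_insert, Finset.mem_singleton, not_or]
    constructor
    · intro h
      linarith
    · intro h
      linarith

lemma mem_DG {S : Finset ℚ} {q : ℚ × ℚ} : q ∈ DG S ↔ q.1 ∈ S ∧ q.2 ∈ gen q.1 := by
  classical
  unfold DG
  rw [Finset.mem_biUnion]
  constructor
  · rintro ⟨c, hc, h⟩
    obtain ⟨α, hα, rfl⟩ := Finset.mem_image.1 h
    exact ⟨hc, hα⟩
  · rintro ⟨h1, h2⟩
    exact ⟨q.1, h1, Finset.mem_image.2 ⟨q.2, h2, rfl⟩⟩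

lemma DG_card (S : Finset ℚ) : (DG S).card = 3 * S.card := by
  classical
  unfold DG
  rw [Finset.card_biUnion]
  · have : ∀ c ∈ S, ((gen c).image fun α => (c, α)).card = 3 := by
      intro c _
      rw [Finset.card_image_of_injective _ (fun x y h => (Prod.mk.inj h).2), gen_card_eq]
    rw [Finset.sum_congr rfl this, Finset.sum_const, smul_eq_mul, mul_comm]
  · intro c _ d _ hcd
    rw [Function.onFun, Finset.disjoint_left]
    intro q h1 h2
    obtain ⟨x, -, rfl⟩ := Finset.mem_image.1 h1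
    obtain ⟨y, -, h3⟩ := Finset.mem_image.1 h2
    exact hcd (Prod.mk.inj h3).1.symm

/-- the pairs with a nonzero preperiodic point, upper bound -/
theorem more_count {k : ℕ} (hk : 1 ≤ k) {X : ℝ} (hX : 1 ≤ X) :
    (MoreB k 1 X).Finite ∧ (MoreB k 1 X).ncard ≤ 3 * (RX X).card + (DE k X).card := by
  classical
  have h := count_cl (k := k) (MoreB k 1 X) (DG (RX X) ∪ DE k X) (fun q hq => by
    obtain ⟨h1, h2, h3⟩ := hq
    refine ⟨h1, ?_⟩
    by_cases hl : ∃ z ∈ periodicPts (g k q.1 q.2), g k q.1 q.2 z ≠ z ∧ g k q.1 q.2 z ≠ -z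
    · obtain ⟨α, h4, h5⟩ := DE_mem hk hX h1.ne_zero h2 (Or.inr hl)
      exact ⟨α, Finset.mem_union_right _ h4, h5⟩
    · push Not at hl
      obtain ⟨α, h4, h5⟩ := generic_cl (k := k) (a := q.1) (c := q.2) (by exact_mod_cast h3)
        (fun z hz => by
          by_cases h6 : g k q.1 q.2 z = z
          · exact Or.inl h6
          · exact Or.inr (hl z hz h6))
      exact ⟨α, Finset.mem_union_left _ (mem_DG.2 ⟨mem_RX.2 h2, h4⟩), h5⟩)
  refine ⟨h.1, h.2.trans ((Finset.card_union_le _ _).trans ?_)⟩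
  rw [DG_card]

/-- the pairs with a nonzero preperiodic point, lower bound -/
theorem more_lower {k : ℕ} (hk : 1 ≤ k) {X : ℝ} (hX : 1 ≤ X) :
    3 * (RX X).card ≤ (MoreB k 1 X).ncard + 18 * (SR k X).card + 9 := by
  classical
  set G := (RX X).filter fun c => ¬ Bad k X c ∧ c ≠ 0 ∧ c ≠ 1 ∧ c ≠ -1 with hG
  have hex : ∀ α : ℚ, ∃ a : ℤ, α ≠ 0 → PF k a ∧ Cl k a α := by
    intro α
    by_cases hα : α = 0
    · exact ⟨0, fun h => absurd hα h⟩
    · obtain ⟨a, ha⟩ := exists_pf hk hα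
      exact ⟨a, fun _ => ha⟩
  choose A hA using hex
  have hne : ∀ q ∈ DG G, q.2 ≠ 0 := by
    intro q hq h0
    obtain ⟨h1, h2⟩ := mem_DG.1 hq
    rw [hG, Finset.mem_filter] at h1
    obtain ⟨-, -, k0, k1, k2⟩ := h1
    unfold gen at h2
    rw [Finset.mem_insert, Finset.mem_insert, Finset.mem_singleton] at h2
    rcases h2 with h3 | h3 | h3
    · exact k0 (by linarith)
    · exact k1 (by linarith)
    · exact k2 (by linarith)
  set φ : ℚ × ℚ → ℤ × ℚ := fun q => (A q.2, q.1) with hφ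
  have hmaps : Set.MapsTo φ (DG G : Set (ℚ × ℚ)) (MoreB k 1 X) := by
    intro q hq
    have hq' : q ∈ DG G := hq
    have h0 := hne q hq'
    obtain ⟨h1, h2⟩ := mem_DG.1 hq'
    rw [hG, Finset.mem_filter, mem_RX] at h1
    obtain ⟨hpf, y, hy⟩ := hA q.2 h0
    refine ⟨hpf, h1.1, ?_⟩
    refine lt_of_lt_of_le (by norm_num : ((1 : ℕ) : ℕ∞) < 3) (three_le (z := y) ?_ hy.1)
    show y ∈ Pre (g k (A q.2) q.1)
    unfold gen at h2
    rw [Finset.mem_insert, Finset.mem_insert, Finset.mem_singleton] at h2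
    rcases h2 with h3 | h3 | h3
    · rw [h3] at hy ⊢
      exact ty_pre0 hy
    · rw [h3] at hy ⊢
      exact pre_fixed (ty_fix hy)
    · rw [h3] at hy ⊢
      exact pre_anti (ty_anti hy)
  have hinj : Set.InjOn φ (DG G : Set (ℚ × ℚ)) := by
    intro q hq r hr hqr
    have hq' : q ∈ DG G := hq
    have hr' : r ∈ DG G := hr
    have e1 : A q.2 = A r.2 := congrArg Prod.fst hqr
    have e2 : q.1 = r.1 := congrArg Prod.snd hqr
    obtain ⟨-, y, hy⟩ := hA q.2 (hne q hq')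
    obtain ⟨-, z, hz⟩ := hA r.2 (hne r hr')
    have ha0 : A q.2 ≠ 0 := (hA q.2 (hne q hq')).1.ne_zero
    obtain ⟨h1, h2⟩ := mem_DG.1 hq'
    obtain ⟨-, h4⟩ := mem_DG.1 hr'
    rw [hG, Finset.mem_filter, mem_RX] at h1
    obtain ⟨hht, hbad, -⟩ := h1
    rw [← e1] at hz
    rw [← e2] at h4
    refine Prod.ext e2 ?_
    unfold gen at h2 h4
    rw [Finset.mem_insert, Finset.mem_insert, Finset.mem_singleton] at h2 h4
    rcases h2 with h5 | h5 | h5 <;> rcases h4 with h6 | h6 | h6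
    · rw [h5, h6]
    · exfalso
      refine hbad (bad_AB hk ha0 hht (s := y) (t := z) ?_ ?_)
      · rw [h5] at hy; rwa [h5]
      · rw [h6] at hz; exact hz
    · exfalso
      refine hbad (bad_AC hk ha0 hht (s := y) (t := z) ?_ ?_)
      · rw [h5] at hy; rwa [h5]
      · rw [h6] at hz; exact hz
    · exfalso
      refine hbad (bad_AB hk ha0 hht (s := z) (t := y) ?_ ?_)
      · rw [h6] at hz; exact hz
      · rw [h5] at hy; rwa [h5]
    · rw [h5, h6]
    · exfalso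
      refine hbad (bad_BC hk ha0 hht (s := y) (t := z) ?_ ?_)
      · rw [h5] at hy; rwa [h5]
      · rw [h6] at hz; exact hz
    · exfalso
      refine hbad (bad_AC hk ha0 hht (s := z) (t := y) ?_ ?_)
      · rw [h6] at hz; exact hz
      · rw [h5] at hy; rwa [h5]
    · exfalso
      refine hbad (bad_BC hk ha0 hht (s := z) (t := y) ?_ ?_)
      · rw [h6] at hz; exact hz
      · rw [h5] at hy; rwa [h5]
    · rw [h5, h6]
  have h1 := Set.ncard_le_ncard_of_injOn φ hmaps hinj (more_count hk hX).1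
  rw [Set.ncard_coe_finset, DG_card] at h1
  have h2 : RX X ⊆ G ∪ ((SR k X).biUnion (cs k) ∪ {0, 1, -1}) := by
    intro c hc
    rw [Finset.mem_union, Finset.mem_union]
    by_cases h3 : Bad k X c
    · right; left
      obtain ⟨ρ, h4, h5⟩ := h3
      exact Finset.mem_biUnion.2 ⟨ρ, mem_SR hk hX h4, h5⟩
    · by_cases h4 : c = 0 ∨ c = 1 ∨ c = -1
      · right; right
        rw [Finset.mem_insert, Finset.mem_insert, Finset.mem_singleton]
        exact h4
      · left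
        push Not at h4
        exact Finset.mem_filter.2 ⟨hc, h3, h4⟩
  have h3 := Finset.card_le_card h2
  have h4 : (G ∪ ((SR k X).biUnion (cs k) ∪ {0, 1, -1})).card ≤
      G.card + (6 * (SR k X).card + 3) := by
    refine (Finset.card_union_le _ _).trans (Nat.add_le_add le_rfl ?_)
    refine (Finset.card_union_le _ _).trans (Nat.add_le_add ?_ Finset.card_le_three)
    rw [mul_comm]
    exact Finset.card_biUnion_le_card_mul _ _ _ fun ρ _ => cs_card k ρ
  omega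

/-- exactly three points -/
theorem three_count {k : ℕ} (hk : 1 ≤ k) {X : ℝ} (hX : 1 ≤ X) :
    (ThreeB k X).Finite ∧ (ThreeB k X).ncard ≤ 3 * (RX X).card + (DE k X).card ∧
    3 * (RX X).card ≤ (ThreeB k X).ncard + (DE k X).card + 18 * (SR k X).card + 9 := by
  have h1 := more_count hk hX
  have h2 := more_lower hk hX
  have h3 := exc_count hk hX
  have hsub : ThreeB k X ⊆ MoreB k 1 X := by
    rintro q ⟨a1, a2, a3⟩
    refine ⟨a1, a2, ?_⟩
    rw [a3]
    norm_num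
  have hcov : MoreB k 1 X ⊆ ThreeB k X ∪ ExcB k X := by
    rintro q ⟨a1, a2, a3⟩
    obtain ⟨z, hz, hz0⟩ := exists_ne (k := k) (a := q.1) (c := q.2) (by exact_mod_cast a3)
    have a4 := three_le hz hz0
    rcases a4.eq_or_lt with h | h
    · exact Or.inl ⟨a1, a2, h.symm⟩
    · exact Or.inr ⟨a1, a2, Or.inl h⟩
  have hfin := h1.1.subset hsub
  refine ⟨hfin, (Set.ncard_le_ncard hsub h1.1).trans h1.2, ?_⟩
  have h4 := Set.ncard_le_ncard hcov (hfin.union h3.1)
  have h5 := Set.ncard_union_le (ThreeB k X) (ExcB k X)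
  omega

/-! ### Coprime pairs -/

lemma sum_sq_le {N : ℕ} (hN : 2 ≤ N) :
    ∑ d ∈ Finset.Icc 2 N, (1 : ℝ) / (d : ℝ) ^ 2 ≤ 3 / 4 - 1 / N := by
  induction N, hN using Nat.le_induction with
  | base => norm_num
  | succ n hn ih =>
    rw [Finset.sum_Icc_succ_top (by omega)]
    have hn0 : (0 : ℝ) < n := by exact_mod_cast (by omega : 0 < n)
    have h1 : (1 : ℝ) / ((n + 1 : ℕ) : ℝ) ^ 2 ≤ 1 / n - 1 / ((n + 1 : ℕ) : ℝ) := by
      push_cast
      rw [div_sub_div _ _ hn0.ne' (by positivity), div_le_div_iff₀ (by positivity) (by positivity)]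
      nlinarith
    linarith

/-- the coprime pairs -/
noncomputable def CP (N : ℕ) : Finset (ℕ × ℕ) := by
  classical
  exact (Finset.Icc 1 N ×ˢ Finset.Icc 1 N).filter fun p => Nat.Coprime p.1 p.2

lemma card_mult (N d : ℕ) :
    ((Finset.Icc 1 N).filter fun m => d ∣ m).card = N / d := by
  have h := Nat.card_multiples' N d
  rw [← Nat.Ioc_filter_dvd_card_eq_div N d]
  congr 1

theorem CP_card (N : ℕ) (hN : 1 ≤ N) : (N : ℝ) ^ 2 / 4 ≤ ((CP N).card : ℝ) := by
  classical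
  have h1 : (Finset.Icc 1 N ×ˢ Finset.Icc 1 N) ⊆ CP N ∪ (Finset.Icc 2 N).biUnion fun d =>
      ((Finset.Icc 1 N).filter fun m => d ∣ m) ×ˢ ((Finset.Icc 1 N).filter fun m => d ∣ m) := by
    intro p hp
    rw [Finset.mem_union]
    by_cases hc : Nat.Coprime p.1 p.2
    · left
      unfold CP
      exact Finset.mem_filter.2 ⟨hp, hc⟩
    · right
      rw [Finset.mem_product] at hp
      have hp1 := Finset.mem_Icc.1 hp.1
      have hg1 : Nat.gcd p.1 p.2 ≠ 1 := hc
      have hg0 : 0 < Nat.gcd p.1 p.2 := Nat.gcd_pos_of_pos_left _ (by omega)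
      have hg2 : Nat.gcd p.1 p.2 ≤ p.1 := Nat.le_of_dvd (by omega) (Nat.gcd_dvd_left _ _)
      rw [Finset.mem_biUnion]
      refine ⟨Nat.gcd p.1 p.2, Finset.mem_Icc.2 ⟨by omega, by omega⟩, ?_⟩
      rw [Finset.mem_product, Finset.mem_filter, Finset.mem_filter]
      exact ⟨⟨hp.1, Nat.gcd_dvd_left _ _⟩, hp.2, Nat.gcd_dvd_right _ _⟩
  have h2 := (Finset.card_le_card h1).trans (Finset.card_union_le _ _)
  rw [Finset.card_product, Nat.card_Icc, Nat.add_sub_cancel] at h2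
  have h3 : ((Finset.Icc 2 N).biUnion fun d =>
      ((Finset.Icc 1 N).filter fun m => d ∣ m) ×ˢ ((Finset.Icc 1 N).filter fun m => d ∣ m)).card ≤
      ∑ d ∈ Finset.Icc 2 N, (N / d) * (N / d) := by
    refine Finset.card_biUnion_le.trans (le_of_eq ?_)
    refine Finset.sum_congr rfl fun d hd => ?_
    rw [Finset.mem_Icc] at hd
    rw [Finset.card_product, card_mult N d]
  have h4 : (∑ d ∈ Finset.Icc 2 N, ((N / d : ℕ) : ℝ) * ((N / d : ℕ) : ℝ)) ≤
      (N : ℝ) ^ 2 * (3 / 4) := by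
    have h5 : ∀ d ∈ Finset.Icc 2 N, ((N / d : ℕ) : ℝ) * ((N / d : ℕ) : ℝ) ≤
        (N : ℝ) ^ 2 * (1 / (d : ℝ) ^ 2) := by
      intro d hd
      have h6 : ((N / d : ℕ) : ℝ) ≤ (N : ℝ) / d := Nat.cast_div_le
      have h7 : (0 : ℝ) ≤ ((N / d : ℕ) : ℝ) := Nat.cast_nonneg _
      calc ((N / d : ℕ) : ℝ) * ((N / d : ℕ) : ℝ) ≤ ((N : ℝ) / d) * ((N : ℝ) / d) :=
            mul_le_mul h6 h6 h7 (h7.trans h6)
        _ = (N : ℝ) ^ 2 * (1 / (d : ℝ) ^ 2) := by
          rw [div_mul_div_comm, ← sq, ← sq]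
          ring
    refine (Finset.sum_le_sum h5).trans ?_
    rw [← Finset.mul_sum]
    refine mul_le_mul_of_nonneg_left ?_ (by positivity)
    by_cases h8 : 2 ≤ N
    · have h9 := sum_sq_le h8
      have h10 : (0 : ℝ) ≤ 1 / N := by positivity
      linarith
    · have : N = 1 := by omega
      subst this
      norm_num
  have h5 : ((N : ℝ) * N) ≤ ((CP N).card : ℝ) +
      ∑ d ∈ Finset.Icc 2 N, ((N / d : ℕ) : ℝ) * ((N / d : ℕ) : ℝ) := by
    exact_mod_cast h2.trans (Nat.add_le_add le_rfl h3)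
  nlinarith

/-- the lower bound for five points -/
theorem five_lower {k : ℕ} (hk : 1 ≤ k) {X : ℝ} (hX : (32 : ℝ) ^ k ≤ X) :
    X ^ ((1 : ℝ) / k) / 32 ≤ ((MoreB k 4 X).ncard : ℝ) := by
  classical
  have hX1 : 1 ≤ X := (one_le_pow₀ (by norm_num)).trans hX
  have hX0 : 0 < X := by linarith
  have hk0 : (0 : ℝ) < k := by exact_mod_cast hk
  set R := X ^ ((1 : ℝ) / (2 * k)) with hR
  have hRp : R ^ (2 * k) = X := root_pow hk hX0.le
  have hR2 : R * R = X ^ ((1 : ℝ) / k) := root_sq hk hX0.le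
  have hR1 : 1 ≤ R := Real.one_le_rpow hX1 (by positivity)
  have h32 : (32 : ℝ) ≤ X ^ ((1 : ℝ) / k) := by
    have h1 := Real.rpow_le_rpow (by positivity) hX (by positivity : (0 : ℝ) ≤ (1 : ℝ) / k)
    have h2 : ((32 : ℝ) ^ k) ^ ((1 : ℝ) / k) = 32 := by
      rw [one_div]
      exact Real.pow_rpow_inv_natCast (by norm_num) (by omega)
    rwa [h2] at h1
  set N := ⌊R⌋₊ with hN
  have hN1 : 1 ≤ N := Nat.le_floor (by simpa using hR1)
  have hNR : (N : ℝ) ≤ R := Nat.floor_le (by linarith)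
  have hNR2 : R / 2 ≤ N := by
    have h1 := Nat.lt_floor_add_one R
    have h2 : (1 : ℝ) ≤ N := by exact_mod_cast hN1
    rw [← hN] at h1
    linarith
  set S := (CP N).erase (1, 1) with hS
  have hSc : (N : ℝ) ^ 2 / 4 - 1 ≤ (S.card : ℝ) := by
    have h1 := CP_card N hN1
    have h2 : (CP N).card ≤ S.card + 1 := by
      rw [hS]
      have := Finset.pred_card_le_card_erase (s := CP N) (a := (1, 1))
      omega
    have h3 : ((CP N).card : ℝ) ≤ S.card + 1 := by exact_mod_cast h2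
    linarith
  have hdata : ∀ p ∈ S, 1 ≤ p.1 ∧ p.1 ≤ N ∧ 1 ≤ p.2 ∧ p.2 ≤ N ∧ Nat.Coprime p.1 p.2 ∧
      p.1 ≠ p.2 := by
    intro p hp
    rw [hS, Finset.mem_erase] at hp
    obtain ⟨h1, h2⟩ := hp
    unfold CP at h2
    rw [Finset.mem_filter, Finset.mem_product, Finset.mem_Icc, Finset.mem_Icc] at h2
    obtain ⟨⟨⟨a1, a2⟩, a3, a4⟩, a5⟩ := h2
    refine ⟨a1, a2, a3, a4, a5, ?_⟩
    intro h
    rw [h, Nat.coprime_self] at a5
    exact h1 (Prod.ext (h.trans a5) a5)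
  have hex : ∀ α : ℚ, ∃ a : ℤ, α ≠ 0 → PF k a ∧ Cl k a α := by
    intro α
    by_cases hα : α = 0
    · exact ⟨0, fun h => absurd hα h⟩
    · obtain ⟨a, ha⟩ := exists_pf hk hα
      exact ⟨a, fun _ => ha⟩
  choose A hA using hex
  set cc : ℕ × ℕ → ℚ := fun p => ((p.2 : ℚ) ^ (2 * k)) / ((p.1 : ℚ) ^ (2 * k) - (p.2 : ℚ) ^ (2 * k))
    with hcc
  have hfact : ∀ p ∈ S, ((p.1 : ℚ) ^ (2 * k) - (p.2 : ℚ) ^ (2 * k)) ≠ 0 ∧ (p.1 : ℚ) ≠ 0 ∧
      (p.2 : ℚ) ≠ 0 := by
    intro p hp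
    obtain ⟨a1, a2, a3, a4, a5, a6⟩ := hdata p hp
    have b1 : (0 : ℚ) < p.1 := by exact_mod_cast a1
    have b2 : (0 : ℚ) < p.2 := by exact_mod_cast a3
    refine ⟨?_, b1.ne', b2.ne'⟩
    intro h
    have h1 := (pow_left_inj₀ b1.le b2.le (by omega : 2 * k ≠ 0)).1 (sub_eq_zero.1 h)
    exact a6 (by exact_mod_cast h1)
  set φ : ℕ × ℕ → ℤ × ℚ := fun p => (A (-cc p), cc p) with hφ
  have hmaps : Set.MapsTo φ (S : Set (ℕ × ℕ)) (MoreB k 4 X) := by
    intro p hp
    have hp' : p ∈ S := hp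
    obtain ⟨a1, a2, a3, a4, a5, a6⟩ := hdata p hp'
    obtain ⟨d1, d2, d3⟩ := hfact p hp'
    have hc0 : -cc p ≠ 0 := neg_ne_zero.2 (div_ne_zero (pow_ne_zero _ d3) d1)
    obtain ⟨hpf, s, hs⟩ := hA (-cc p) hc0
    refine ⟨hpf, ?_, ?_⟩
    · show HtLe X (cc p)
      have r1 : (0 : ℝ) ≤ p.1 := Nat.cast_nonneg _
      have r2 : (0 : ℝ) ≤ p.2 := Nat.cast_nonneg _
      have s1 : (p.1 : ℝ) ^ (2 * k) ≤ X := by
        rw [← hRp]
        exact pow_le_pow_left₀ r1 ((by exact_mod_cast a2 : (p.1 : ℝ) ≤ N).trans hNR) _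
      have s2 : (p.2 : ℝ) ^ (2 * k) ≤ X := by
        rw [← hRp]
        exact pow_le_pow_left₀ r2 ((by exact_mod_cast a4 : (p.2 : ℝ) ≤ N).trans hNR) _
      have s3 : 0 ≤ (p.1 : ℝ) ^ (2 * k) := by positivity
      have s4 : 0 ≤ (p.2 : ℝ) ^ (2 * k) := by positivity
      refine htLe_of_div (m := (p.2 : ℤ) ^ (2 * k))
        (n := (p.1 : ℤ) ^ (2 * k) - (p.2 : ℤ) ^ (2 * k)) (by exact_mod_cast d1)
        (pow_ne_zero _ (by exact_mod_cast d3)) ?_ ?_ ?_
      · rw [hcc]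
        push_cast
        rfl
      · push_cast
        rw [abs_of_nonneg s4]
        exact s2
      · push_cast
        rw [abs_le]
        constructor <;> linarith
    · refine lt_of_lt_of_le (by norm_num : ((4 : ℕ) : ℕ∞) < 5) ?_
      have hr : Ty k (A (-cc p)) (-1 - cc p) ((p.1 : ℚ) / p.2 * s) := by
        refine ⟨mul_ne_zero (div_ne_zero d2 d3) hs.1, ?_⟩
        have h1 := hs.2
        rw [mul_pow, div_pow]
        calc (A (-cc p) : ℚ) * ((p.1 : ℚ) ^ (2 * k) / (p.2 : ℚ) ^ (2 * k) * s ^ (2 * k))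
            = (p.1 : ℚ) ^ (2 * k) / (p.2 : ℚ) ^ (2 * k) * (A (-cc p) * s ^ (2 * k)) := by ring
          _ = (p.1 : ℚ) ^ (2 * k) / (p.2 : ℚ) ^ (2 * k) * (-cc p) := by rw [h1]
          _ = -1 - cc p := by
            rw [hcc]
            have d4 : (p.2 : ℚ) ^ (2 * k) ≠ 0 := pow_ne_zero _ d3
            simp only
            field_simp
            ring
      have hne : ∀ e : ℚ, e ^ (2 * k) = 1 → (p.1 : ℚ) / p.2 * s = e * s → False := by
        intro e he h
        have h1 : (p.1 : ℚ) / p.2 = e := mul_right_cancel₀ hs.1 h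
        have h2 : ((p.1 : ℚ) / p.2) ^ (2 * k) = 1 := by rw [h1, he]
        rw [div_pow, div_eq_one_iff_eq (pow_ne_zero _ d3)] at h2
        exact d1 (sub_eq_zero.2 h2)
      refine five_le (z := s) (w := (p.1 : ℚ) / p.2 * s) (ty_pre0 hs) hs.1
        (pre_anti (ty_anti hr)) hr.1 ?_ ?_
      · intro h
        exact hne 1 (one_pow _) (by rw [h, one_mul])
      · intro h
        refine hne (-1) ?_ (by rw [h]; ring)
        rw [pow_mul]
        norm_num
  have hinj : Set.InjOn φ (S : Set (ℕ × ℕ)) := by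
    intro p hp q hq hpq
    have h1 : cc p = cc q := congrArg Prod.snd hpq
    obtain ⟨a1, a2, a3, a4, a5, a6⟩ := hdata p hp
    obtain ⟨b1, b2, b3, b4, b5, b6⟩ := hdata q hq
    obtain ⟨d1, d2, d3⟩ := hfact p hp
    obtain ⟨f1, f2, f3⟩ := hfact q hq
    rw [hcc] at h1
    simp only at h1
    rw [div_eq_div_iff d1 f1] at h1
    have h2 : ((p.2 : ℚ) * q.1) ^ (2 * k) = ((q.2 : ℚ) * p.1) ^ (2 * k) := by
      rw [mul_pow, mul_pow]
      linear_combination h1
    have h3 := (pow_left_inj₀ (by positivity) (by positivity) (by omega : 2 * k ≠ 0)).1 h2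
    have h4 : p.2 * q.1 = q.2 * p.1 := by exact_mod_cast h3
    have e1 : p.2 ∣ q.2 := a5.symm.dvd_of_dvd_mul_right ⟨q.1, h4.symm⟩
    have e2 : q.2 ∣ p.2 := b5.symm.dvd_of_dvd_mul_right ⟨p.1, h4⟩
    have e3 : p.2 = q.2 := Nat.dvd_antisymm e1 e2
    rw [e3] at h4
    exact Prod.ext (Nat.eq_of_mul_eq_mul_left (by omega) h4).symm e3
  have hfin : (MoreB k 4 X).Finite := (more_count hk hX1).1.subset (by
    rintro q ⟨h1, h2, h3⟩
    exact ⟨h1, h2, lt_of_le_of_lt (by norm_num) h3⟩)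
  have h1 := Set.ncard_le_ncard_of_injOn φ hmaps hinj hfin
  rw [Set.ncard_coe_finset] at h1
  have h2 : (S.card : ℝ) ≤ (MoreB k 4 X).ncard := by exact_mod_cast h1
  have h3 : (R / 2) ^ 2 ≤ (N : ℝ) ^ 2 := pow_le_pow_left₀ (by linarith) hNR2 _
  have h4 : (R / 2) ^ 2 = X ^ ((1 : ℝ) / k) / 4 := by
    rw [← hR2]
    ring
  rw [h4] at h3
  linarith

end Pool.Agent.X12.Obi
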