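import Pool.Agent.X12.Cub1

/-!
# Rational preperiodic points of the unicritical polynomials `μ z^d + 1` of even degree `d = 2 j + 2`
-/

set_option autoImplicit false

namespace Pool.Agent.X12.Uni

open Function Finset
open Pool.Agent.X12.Cub (Pre escape pre_apply pre_iterate pre_back pre_fixed exists_periodic
  pre_of_periodic exit_point int_of_padic prod_one)

/-- the unicritical polynomial of degree `2 j + 2` -/
def f (j : ℕ) (μ : ℚ) : ℚ → ℚ := fun z => μ * z ^ (2 * j + 2) + 1

/-- the form `(x^(2j+2) - y^(2j+2)) / (x² - y²)` -/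
def G (j : ℕ) (x y : ℚ) : ℚ := ∑ i ∈ range (j + 1), (x ^ 2) ^ i * (y ^ 2) ^ (j - i)

lemma G_mul (j : ℕ) (x y : ℚ) :
    G j x y * (x ^ 2 - y ^ 2) = x ^ (2 * j + 2) - y ^ (2 * j + 2) := by
  have h := (Commute.all (x ^ 2) (y ^ 2)).geom_sum₂_mul (j + 1)
  have e : ∀ z : ℚ, (z ^ 2) ^ (j + 1) = z ^ (2 * j + 2) := fun z => by
    rw [← pow_mul]
    congr 1
  rw [e, e] at h
  rw [← h]
  unfold G
  congr 1

lemma G_smul (j : ℕ) (t x y : ℚ) : G j (t * x) (t * y) = t ^ (2 * j) * G j x y := by
  unfold G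
  rw [Finset.mul_sum]
  refine Finset.sum_congr rfl fun i hi => ?_
  rw [Finset.mem_range] at hi
  have e : t ^ (2 * j) = (t ^ 2) ^ i * (t ^ 2) ^ (j - i) := by
    rw [← pow_add, ← pow_mul]
    congr 1
    omega
  rw [e, mul_pow, mul_pow, mul_pow, mul_pow]
  ring

lemma G_norm {j : ℕ} {p : ℕ} [hp : Fact p.Prime] {x y M : ℚ} (hM : 0 ≤ M)
    (hx : padicNorm p x ≤ M) (hy : padicNorm p y ≤ M) : padicNorm p (G j x y) ≤ M ^ (2 * j) := by
  unfold G
  refine padicNorm.sum_le' (fun i hi => ?_) (by positivity)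
  rw [Finset.mem_range] at hi
  have hpow : ∀ (z : ℚ) (n : ℕ), padicNorm p (z ^ n) = padicNorm p z ^ n := by
    intro z n
    induction n with
    | zero => simp
    | succ n ih => rw [pow_succ, padicNorm.mul, ih, pow_succ]
  rw [padicNorm.mul, hpow, hpow, hpow, hpow]
  have e : M ^ (2 * j) = (M ^ 2) ^ i * (M ^ 2) ^ (j - i) := by
    rw [← pow_add, ← pow_mul]
    congr 1
    omega
  rw [e]
  have h0 := padicNorm.nonneg (p := p) x
  have h1 := padicNorm.nonneg (p := p) y
  gcongr

lemma norm_pow {p : ℕ} [hp : Fact p.Prime] (z : ℚ) (n : ℕ) :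
    padicNorm p (z ^ n) = padicNorm p z ^ n := by
  induction n with
  | zero => simp
  | succ n ih => rw [pow_succ, padicNorm.mul, ih, pow_succ]

/-! ### Local bounds -/

lemma padic_or {j : ℕ} {μ z : ℚ} (hz : z ∈ Pre (f j μ)) (p : ℕ) [hp : Fact p.Prime] :
    padicNorm p μ * padicNorm p z ^ (2 * j + 1) ≤ 1 ∨
      padicNorm p μ * padicNorm p z ^ (2 * j + 2) ≤ 1 := by
  by_contra hcon
  push Not at hcon
  refine escape (h := f j μ) (fun x => 1 < padicNorm p μ * padicNorm p x ^ (2 * j + 1) ∧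
    1 < padicNorm p μ * padicNorm p x ^ (2 * j + 2)) (fun x => padicNorm p x) ?_ hcon hz
  rintro x ⟨h1, h2⟩
  have hμ0 := padicNorm.nonneg (p := p) μ
  have hx0 := padicNorm.nonneg (p := p) x
  have hxpos : 0 < padicNorm p x := by
    refine lt_of_le_of_ne hx0 fun h => ?_
    rw [← h, zero_pow (by omega), mul_zero] at h1
    linarith
  have h3 : padicNorm p (f j μ x) = padicNorm p μ * padicNorm p x ^ (2 * j + 2) := by
    unfold f
    have e : padicNorm p (μ * x ^ (2 * j + 2)) = padicNorm p μ * padicNorm p x ^ (2 * j + 2) := by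
      rw [padicNorm.mul, norm_pow]
    rw [padicNorm.add_eq_max_of_ne (by rw [e, padicNorm.one]; exact h2.ne'), e, padicNorm.one,
      max_eq_left h2.le]
  have h4 : padicNorm p x < padicNorm p (f j μ x) := by
    rw [h3]
    have e : padicNorm p μ * padicNorm p x ^ (2 * j + 2) =
      padicNorm p μ * padicNorm p x ^ (2 * j + 1) * padicNorm p x := by ring
    rw [e]
    nlinarith
  refine ⟨⟨h1.trans_le ?_, h2.trans_le ?_⟩, h4⟩
  · exact mul_le_mul_of_nonneg_left (pow_le_pow_left₀ hx0 h4.le _) hμ0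
  · exact mul_le_mul_of_nonneg_left (pow_le_pow_left₀ hx0 h4.le _) hμ0

lemma padic_good {j : ℕ} {μ z : ℚ} (hz : z ∈ Pre (f j μ)) (p : ℕ) [hp : Fact p.Prime]
    (hμ : padicNorm p μ ≤ 1) : padicNorm p μ * padicNorm p z ^ (2 * j + 1) ≤ 1 := by
  have hμ0 := padicNorm.nonneg (p := p) μ
  have hz0 := padicNorm.nonneg (p := p) z
  rcases padic_or hz p with h | h
  · exact h
  · rcases le_or_gt (padicNorm p z) 1 with h1 | h1
    · have : padicNorm p z ^ (2 * j + 1) ≤ 1 := pow_le_one₀ hz0 h1
      calc padicNorm p μ * padicNorm p z ^ (2 * j + 1) ≤ 1 * 1 := by gcongr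
        _ = 1 := one_mul 1
    · refine le_trans ?_ h
      exact mul_le_mul_of_nonneg_left (pow_le_pow_right₀ h1.le (by omega)) hμ0

lemma padic_bad {j : ℕ} {μ z : ℚ} (hz : z ∈ Pre (f j μ)) (p : ℕ) [hp : Fact p.Prime]
    (hμ : 1 < padicNorm p μ) :
    padicNorm p z < 1 ∧ padicNorm p μ * padicNorm p z ^ (2 * j + 2) = 1 := by
  have key : ∀ y : ℚ, y ∈ Pre (f j μ) → padicNorm p y < 1 := by
    intro y hy
    by_contra hcon
    push Not at hcon
    have h1 : 1 ≤ padicNorm p y ^ (2 * j + 1) := one_le_pow₀ hcon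
    have h2 : 1 ≤ padicNorm p y ^ (2 * j + 2) := one_le_pow₀ hcon
    rcases padic_or hy p with h | h <;> nlinarith
  have hz1 := key z hz
  have hμ0 := padicNorm.nonneg (p := p) μ
  have hz0 := padicNorm.nonneg (p := p) z
  refine ⟨hz1, le_antisymm ?_ ?_⟩
  · rcases padic_or hz p with h | h
    · have e : padicNorm p μ * padicNorm p z ^ (2 * j + 2) =
        padicNorm p μ * padicNorm p z ^ (2 * j + 1) * padicNorm p z := by ring
      rw [e]
      have h3 : 0 ≤ padicNorm p μ * padicNorm p z ^ (2 * j + 1) := by positivity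
      nlinarith
    · exact h
  · by_contra hcon
    push Not at hcon
    have h1 : padicNorm p (f j μ z) = 1 := by
      unfold f
      have e : padicNorm p (μ * z ^ (2 * j + 2)) = padicNorm p μ * padicNorm p z ^ (2 * j + 2) := by
        rw [padicNorm.mul, norm_pow]
      rw [padicNorm.add_eq_max_of_ne (by rw [e, padicNorm.one]; exact hcon.ne), e, padicNorm.one,
        max_eq_right hcon.le]
    have h2 := key _ (pre_apply hz)
    rw [h1] at h2
    exact lt_irrefl _ h2

/-- the archimedean bound -/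
lemma real_or {j : ℕ} {μ z : ℚ} (hz : z ∈ Pre (f j μ)) :
    |μ| * |z| ^ (2 * j + 1) ≤ 2 ∨ |z| ≤ 1 := by
  by_contra hcon
  push Not at hcon
  refine escape (h := f j μ) (fun x => 2 < |μ| * |x| ^ (2 * j + 1) ∧ 1 < |x|)
    (fun x => |x|) ?_ hcon hz
  rintro x ⟨h1, h2⟩
  have h3 : |x| < |f j μ x| := by
    unfold f
    have e1 : |μ * x ^ (2 * j + 2)| ≤ |μ * x ^ (2 * j + 2) + 1| + 1 := by
      have := abs_sub (μ * x ^ (2 * j + 2) + 1) 1
      rw [add_sub_cancel_right, abs_one] at this
      exact this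
    have e2 : |μ * x ^ (2 * j + 2)| = |μ| * |x| ^ (2 * j + 1) * |x| := by
      rw [abs_mul, abs_pow]
      ring
    nlinarith
  refine ⟨⟨h1.trans_le ?_, h2.trans h3⟩, h3⟩
  exact mul_le_mul_of_nonneg_left (pow_le_pow_left₀ (abs_nonneg x) h3.le _) (abs_nonneg μ)

/-! ### The denominator -/

lemma pow_of_dvd {n d : ℕ} (hn : n ≠ 0) (hd : d ≠ 0)
    (h : ∀ p : ℕ, p.Prime → d ∣ n.factorization p) : ∃ D : ℕ, D ^ d = n := by
  refine ⟨∏ p ∈ n.primeFactors, p ^ (n.factorization p / d), ?_⟩
  rw [← Finset.prod_pow]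
  conv_rhs => rw [← Nat.factorization_prod_pow_eq_self hn]
  rw [Finsupp.prod, Nat.support_factorization]
  refine Finset.prod_congr rfl fun p hp => ?_
  rw [← pow_mul, Nat.div_mul_cancel (h p (Nat.prime_of_mem_primeFactors hp))]

lemma den_norm (c : ℚ) (p : ℕ) [hp : Fact p.Prime] :
    padicNorm p ((c.den : ℕ) : ℚ) = ((p : ℚ) ^ (padicValNat p c.den))⁻¹ := by
  rw [padicNorm.eq_zpow_of_nonzero (by exact_mod_cast c.den_ne_zero), padicValRat.of_nat,
    zpow_neg, zpow_natCast]

lemma den_gt_iff {c : ℚ} {p : ℕ} [hp : Fact p.Prime] : p ∣ c.den ↔ 1 < padicNorm p c := by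
  have h := Pool.Agent.X12.Dyn.max_padic c p
  constructor
  · intro h1
    have h2 : 1 ≤ padicValNat p c.den := one_le_padicValNat_of_dvd c.den_ne_zero h1
    have h3 : (1 : ℚ) < (p : ℚ) ^ padicValNat p c.den :=
      one_lt_pow₀ (by exact_mod_cast hp.out.one_lt) (by omega)
    rw [← h] at h3
    rcases lt_max_iff.1 h3 with h4 | h4
    · exact absurd h4 (lt_irrefl _)
    · exact h4
  · intro h1
    by_contra h2
    rw [padicValNat.eq_zero_of_not_dvd h2, pow_zero, max_eq_right h1.le] at h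
    linarith

theorem den_pow {j : ℕ} {μ z : ℚ} (hz : z ∈ Pre (f j μ)) : ∃ D : ℕ, D ^ (2 * j + 2) = μ.den := by
  refine pow_of_dvd μ.den_ne_zero (by omega) fun p hp => ?_
  have hF : Fact p.Prime := ⟨hp⟩
  by_cases hd : p ∣ μ.den
  · have h1 : 1 < padicNorm p μ := den_gt_iff.1 hd
    obtain ⟨h2, h3⟩ := padic_bad hz p h1
    have hz0 : z ≠ 0 := by
      rintro rfl
      rw [padicNorm.zero, zero_pow (by omega), mul_zero] at h3
      exact zero_ne_one h3
    have h4 := Pool.Agent.X12.Dyn.max_padic μ p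
    rw [max_eq_right h1.le] at h4
    rw [h4, padicNorm.eq_zpow_of_nonzero hz0, ← zpow_natCast, ← zpow_natCast, ← zpow_mul,
      ← zpow_add₀ (by exact_mod_cast hp.ne_zero)] at h3
    have h5 : (p : ℚ) ^ (((padicValNat p μ.den : ℕ) : ℤ) + -padicValRat p z * ((2 * j + 2 : ℕ) : ℤ)) =
        (p : ℚ) ^ (0 : ℤ) := by rw [h3, zpow_zero]
    have h6 := zpow_right_injective₀ (by exact_mod_cast hp.pos : (0 : ℚ) < p)
      (by exact_mod_cast hp.one_lt.ne' : (p : ℚ) ≠ 1) h5
    rw [Nat.factorization_def _ hp]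
    have h7 : ((padicValNat p μ.den : ℕ) : ℤ) = ((2 * j + 2 : ℕ) : ℤ) * padicValRat p z := by
      linarith
    have h8 : ((2 * j + 2 : ℕ) : ℤ) ∣ ((padicValNat p μ.den : ℕ) : ℤ) := Dvd.intro _ h7.symm
    exact_mod_cast h8
  · rw [Nat.factorization_eq_zero_of_not_dvd hd]
    exact dvd_zero _

/-! ### Units -/

/-- the arithmetic of a pair of points whose divided difference is a unit -/
theorem unit_data {j : ℕ} {μ x y : ℚ} (hμ0 : μ ≠ 0) (hx : x ∈ Pre (f j μ))
    (hy : y ∈ Pre (f j μ))
    (hu : ∀ p : ℕ, ∀ _ : Fact p.Prime, padicNorm p μ ≤ 1 →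
      padicNorm p (μ * ((x + y) * G j x y)) = 1) :
    (x + y).den ^ (2 * j + 1) = μ.num.natAbs ∧
    ((x + y).num ≠ 0 ∧ (x + y).num.natAbs.primeFactors ⊆ μ.den.primeFactors) ∧
    ∃ τ : ℤ, (τ : ℚ) = ((x + y).den : ℚ) ^ (2 * j) * G j x y ∧ τ ≠ 0 ∧
      τ.natAbs.primeFactors ⊆ μ.den.primeFactors := by
  set s := x + y with hs
  -- the local data
  have good : ∀ p : ℕ, ∀ _ : Fact p.Prime, padicNorm p μ ≤ 1 →
      padicNorm p μ * padicNorm p s ^ (2 * j + 1) = 1 ∧
      padicNorm p (G j x y) = padicNorm p s ^ (2 * j) ∧ 1 ≤ padicNorm p s := by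
    intro p hp hμ
    have h1 := hu p hp hμ
    rw [padicNorm.mul, padicNorm.mul] at h1
    set M := max (padicNorm p x) (padicNorm p y) with hM
    have hM0 : 0 ≤ M := (padicNorm.nonneg x).trans (le_max_left _ _)
    have a1 : padicNorm p μ * M ^ (2 * j + 1) ≤ 1 := by
      rcases max_choice (padicNorm p x) (padicNorm p y) with h | h
      · rw [hM, h]
        exact padic_good hx p hμ
      · rw [hM, h]
        exact padic_good hy p hμ
    have a2 : padicNorm p s ≤ M := padicNorm.nonarchimedean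
    have a3 : padicNorm p (G j x y) ≤ M ^ (2 * j) := G_norm hM0 (le_max_left _ _) (le_max_right _ _)
    have n0 := padicNorm.nonneg (p := p) μ
    have n1 := padicNorm.nonneg (p := p) s
    have n2 := padicNorm.nonneg (p := p) (G j x y)
    have hμpos : 0 < padicNorm p μ := by
      refine lt_of_le_of_ne n0 fun h => ?_
      rw [← h, zero_mul] at h1
      exact zero_ne_one h1
    have hspos : 0 < padicNorm p s := by
      refine lt_of_le_of_ne n1 fun h => ?_
      rw [← h, zero_mul, mul_zero] at h1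
      exact zero_ne_one h1
    have hMpos : 0 < M := hspos.trans_le a2
    have b1 : padicNorm p μ * (padicNorm p s * padicNorm p (G j x y)) ≤
        padicNorm p μ * (padicNorm p s * M ^ (2 * j)) := by gcongr
    have b2 : padicNorm p μ * (padicNorm p s * M ^ (2 * j)) ≤
        padicNorm p μ * (M * M ^ (2 * j)) := by gcongr
    have b3 : padicNorm p μ * (M * M ^ (2 * j)) = padicNorm p μ * M ^ (2 * j + 1) := by ring
    have c1 : padicNorm p μ * (padicNorm p s * M ^ (2 * j)) = 1 :=
      le_antisymm (b2.trans (b3.le.trans a1)) (h1.symm.le.trans b1)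
    have c2 : padicNorm p μ * (M * M ^ (2 * j)) = 1 :=
      le_antisymm (b3.le.trans a1) (c1.symm.le.trans b2)
    have c3 : padicNorm p s = M := by
      have h2 : padicNorm p μ * M ^ (2 * j) * padicNorm p s = padicNorm p μ * M ^ (2 * j) * M := by
        linear_combination c1 - c2
      exact mul_left_cancel₀ (by positivity) h2
    have c4 : padicNorm p (G j x y) = M ^ (2 * j) := by
      have h2 : padicNorm p μ * padicNorm p s * padicNorm p (G j x y) =
          padicNorm p μ * padicNorm p s * M ^ (2 * j) := by linear_combination h1 - c1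
      exact mul_left_cancel₀ (by positivity) h2
    refine ⟨?_, ?_, ?_⟩
    · rw [c3]
      linear_combination c2
    · rw [c3]
      exact c4
    · by_contra hcon
      push Not at hcon
      rw [c3] at hcon
      have h2 : M ^ (2 * j + 1) < 1 := pow_lt_one₀ hM0 hcon (by omega)
      have h3 : padicNorm p μ * (M * M ^ (2 * j)) < 1 := by
        rw [b3]
        nlinarith
      linarith
  have bad : ∀ p : ℕ, ∀ _ : Fact p.Prime, 1 < padicNorm p μ →
      padicNorm p s < 1 ∧ padicNorm p (G j x y) ≤ 1 := by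
    intro p hp hμ
    have h1 := (padic_bad hx p hμ).1
    have h2 := (padic_bad hy p hμ).1
    refine ⟨lt_of_le_of_lt padicNorm.nonarchimedean (max_lt h1 h2), ?_⟩
    have := G_norm (j := j) (p := p) (M := 1) zero_le_one h1.le h2.le
    rwa [one_pow] at this
  have hs0 : s ≠ 0 := by
    obtain ⟨p, hp1, hp2⟩ := Nat.exists_infinite_primes (μ.den + 1)
    have hF : Fact p.Prime := ⟨hp2⟩
    have hnd : ¬ p ∣ μ.den := fun h => by
      have := Nat.le_of_dvd μ.den_pos h
      omega
    have h1 : padicNorm p μ ≤ 1 := not_lt.1 fun h => hnd (den_gt_iff.2 h)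
    have h2 := (good p hF h1).2.2
    intro h
    rw [h, padicNorm.zero] at h2
    linarith
  -- the denominator of `s` at good primes
  have hden : ∀ p : ℕ, ∀ _ : Fact p.Prime, padicNorm p μ ≤ 1 →
      padicNorm p s = (p : ℚ) ^ padicValNat p s.den := by
    intro p hp hμ
    have h1 := Pool.Agent.X12.Dyn.max_padic s p
    rwa [max_eq_right (good p hp hμ).2.2] at h1
  refine ⟨?_, ⟨Rat.num_ne_zero.2 hs0, ?_⟩, ?_⟩
  · refine Nat.eq_of_factorization_eq (pow_ne_zero _ s.den_ne_zero)
      (Int.natAbs_ne_zero.2 (Rat.num_ne_zero.2 hμ0)) fun p => ?_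
    by_cases hp : p.Prime
    · have hF : Fact p.Prime := ⟨hp⟩
      rw [Nat.factorization_pow]
      simp only [Finsupp.coe_smul, Pi.smul_apply, smul_eq_mul]
      by_cases hd : p ∣ μ.den
      · have hμ := den_gt_iff.1 hd
        have h1 : ¬ p ∣ s.den := fun h => by
          have h2 := den_gt_iff.1 h
          linarith [(bad p hF hμ).1]
        have h2 : ¬ p ∣ μ.num.natAbs := fun h => by
          have h3 : p ∣ Nat.gcd μ.num.natAbs μ.den := Nat.dvd_gcd h hd
          rw [μ.reduced] at h3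
          exact hp.one_lt.ne' (Nat.dvd_one.1 h3)
        rw [Nat.factorization_eq_zero_of_not_dvd h1, Nat.factorization_eq_zero_of_not_dvd h2,
          mul_zero]
      · have hμ : padicNorm p μ ≤ 1 := not_lt.1 fun h => hd (den_gt_iff.2 h)
        have h1 := (good p hF hμ).1
        rw [hden p hF hμ] at h1
        have h2 : padicNorm p μ = ((p : ℚ) ^ (padicValNat p μ.num.natAbs))⁻¹ := by
          rw [padicNorm.eq_zpow_of_nonzero hμ0, padicValRat_def,
            padicValNat.eq_zero_of_not_dvd hd, padicValInt, Nat.cast_zero, sub_zero, zpow_neg,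
            zpow_natCast]
        rw [h2, ← pow_mul] at h1
        have hp0 : (0 : ℚ) < p := by exact_mod_cast hp.pos
        have h3 : (p : ℚ) ^ (padicValNat p s.den * (2 * j + 1)) =
            (p : ℚ) ^ (padicValNat p μ.num.natAbs) := by
          have h4 : (0 : ℚ) < (p : ℚ) ^ (padicValNat p μ.num.natAbs) := by positivity
          field_simp at h1
          linarith
        have h4 := pow_right_injective₀ hp0 (by exact_mod_cast hp.one_lt.ne') h3
        rw [Nat.factorization_def _ hp, Nat.factorization_def _ hp]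
        have h5 : padicValNat p s.den * (2 * j + 1) = padicValNat p μ.num.natAbs := h4
        linarith
    · rw [Nat.factorization_eq_zero_of_not_prime _ hp, Nat.factorization_eq_zero_of_not_prime _ hp]
  · intro p hp
    have hp1 := Nat.prime_of_mem_primeFactors hp
    have hp2 := Nat.dvd_of_mem_primeFactors hp
    have hF : Fact p.Prime := ⟨hp1⟩
    rw [Nat.mem_primeFactors]
    refine ⟨hp1, ?_, μ.den_ne_zero⟩
    by_contra hd
    have hμ : padicNorm p μ ≤ 1 := not_lt.1 fun h => hd (den_gt_iff.2 h)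
    have h1 := (good p hF hμ).2.2
    have h2 : ¬ p ∣ s.den := fun h => by
      have h3 : p ∣ Nat.gcd s.num.natAbs s.den := Nat.dvd_gcd hp2 h
      rw [s.reduced] at h3
      exact hp1.one_lt.ne' (Nat.dvd_one.1 h3)
    have h3 : padicNorm p s < 1 := by
      have h4 : padicNorm p s = padicNorm p s.num / padicNorm p s.den := by
        conv_lhs => rw [← Rat.num_div_den s]
        rw [padicNorm.div]
      rw [h4, (padicNorm.nat_eq_one_iff s.den).2 h2, div_one]
      exact (padicNorm.int_lt_one_iff s.num).2 (Int.natCast_dvd.2 hp2)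
    linarith
  · have hint : ∃ τ : ℤ, (τ : ℚ) = (s.den : ℚ) ^ (2 * j) * G j x y := by
      refine int_of_padic fun p hp => ?_
      rw [padicNorm.mul, norm_pow, den_norm]
      have hp0 : (0 : ℚ) < p := by exact_mod_cast hp.out.pos
      by_cases hμ : padicNorm p μ ≤ 1
      · rw [(good p hp hμ).2.1, hden p hp hμ, ← mul_pow, inv_mul_cancel₀ (by positivity), one_pow]
      · push Not at hμ
        have h1 := (bad p hp hμ).2
        have h2 : ((p : ℚ) ^ padicValNat p s.den)⁻¹ ≤ 1 :=
          inv_le_one_of_one_le₀ (one_le_pow₀ (by exact_mod_cast hp.out.one_lt.le))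
        have h3 : (((p : ℚ) ^ padicValNat p s.den)⁻¹) ^ (2 * j) ≤ 1 :=
          pow_le_one₀ (by positivity) h2
        have h4 := padicNorm.nonneg (p := p) (G j x y)
        calc (((p : ℚ) ^ padicValNat p s.den)⁻¹) ^ (2 * j) * padicNorm p (G j x y) ≤ 1 * 1 := by
              gcongr
          _ = 1 := one_mul 1
    obtain ⟨τ, hτ⟩ := hint
    have hunit : ∀ p : ℕ, ∀ _ : Fact p.Prime, padicNorm p μ ≤ 1 → padicNorm p (τ : ℚ) = 1 := by
      intro p hp hμ
      have hp0 : (0 : ℚ) < p := by exact_mod_cast hp.out.pos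
      rw [hτ, padicNorm.mul, norm_pow, den_norm, (good p hp hμ).2.1, hden p hp hμ, ← mul_pow,
        inv_mul_cancel₀ (by positivity), one_pow]
    refine ⟨τ, hτ, ?_, ?_⟩
    · obtain ⟨p, hp1, hp2⟩ := Nat.exists_infinite_primes (μ.den + 1)
      have hF : Fact p.Prime := ⟨hp2⟩
      have hnd : ¬ p ∣ μ.den := fun h => by
        have := Nat.le_of_dvd μ.den_pos h
        omega
      have h1 := hunit p hF (not_lt.1 fun h => hnd (den_gt_iff.2 h))
      rintro rfl
      rw [Int.cast_zero, padicNorm.zero] at h1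
      exact zero_ne_one h1
    · intro p hp
      have hp1 := Nat.prime_of_mem_primeFactors hp
      have hp2 := Nat.dvd_of_mem_primeFactors hp
      have hF : Fact p.Prime := ⟨hp1⟩
      rw [Nat.mem_primeFactors]
      refine ⟨hp1, ?_, μ.den_ne_zero⟩
      by_contra hd
      have h1 := hunit p hF (not_lt.1 fun h => hd (den_gt_iff.2 h))
      have h2 : padicNorm p (τ : ℚ) < 1 := (padicNorm.int_lt_one_iff τ).2 (Int.natCast_dvd.2 hp2)
      linarith

/-- the unit of a cycle -/
theorem cycle_unit {j : ℕ} {μ z : ℚ} (hz : z ∈ periodicPts (f j μ)) (h1 : f j μ z ≠ z) :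
    ∀ p : ℕ, ∀ _ : Fact p.Prime, padicNorm p μ ≤ 1 →
      padicNorm p (μ * ((z + f j μ z) * G j z (f j μ z))) = 1 := by
  intro p hp hμ
  set N := minimalPeriod (f j μ) z with hN
  have hN0 : 0 < N := minimalPeriod_pos_of_mem_periodicPts hz
  have hpre := pre_of_periodic hz
  set x : ℕ → ℚ := fun i => (f j μ)^[i] z with hx
  have hxN : ∀ i, x (i + N) = x i := fun i => by
    simp only [hx]
    rw [hN]
    exact iterate_add_minimalPeriod_eq
  have hxs : ∀ i, f j μ (x i) = x (i + 1) := fun i => by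
    simp only [hx]
    rw [Function.iterate_succ_apply']
  have hxp : ∀ i, x i ∈ Pre (f j μ) := fun i => pre_iterate hpre i
  have hU : ∏ i ∈ Finset.range N, (μ * ((x i + x (i + 1)) * G j (x i) (x (i + 1)))) = 1 := by
    refine prod_one (d := fun i => x i - x (i + 1)) ?_ ?_ fun i => ?_
    · have e1 := hxN 0
      have e2 := hxN 1
      rw [zero_add] at e1
      rw [add_comm] at e2
      show x N - x (N + 1) = x 0 - x (0 + 1)
      rw [e1, e2]
    · show x 0 - x 1 ≠ 0
      rw [sub_ne_zero]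
      exact h1.symm
    · show (x i - x (i + 1)) * _ = x (i + 1) - x (i + 1 + 1)
      have h3 := G_mul j (x i) (x (i + 1))
      have e1 : μ * x i ^ (2 * j + 2) + 1 = x (i + 1) := hxs i
      have e2 : μ * x (i + 1) ^ (2 * j + 2) + 1 = x (i + 1 + 1) := hxs (i + 1)
      linear_combination μ * h3 + e1 - e2
  have hle : ∀ i, padicNorm p (μ * ((x i + x (i + 1)) * G j (x i) (x (i + 1)))) ≤ 1 := by
    intro i
    rw [padicNorm.mul, padicNorm.mul]
    set M := max (padicNorm p (x i)) (padicNorm p (x (i + 1))) with hM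
    have hM0 : 0 ≤ M := (padicNorm.nonneg (x i)).trans (le_max_left _ _)
    have a1 : padicNorm p μ * M ^ (2 * j + 1) ≤ 1 := by
      rcases max_choice (padicNorm p (x i)) (padicNorm p (x (i + 1))) with h | h
      · rw [hM, h]
        exact padic_good (hxp i) p hμ
      · rw [hM, h]
        exact padic_good (hxp (i + 1)) p hμ
    have a2 : padicNorm p (x i + x (i + 1)) ≤ M := padicNorm.nonarchimedean
    have a3 : padicNorm p (G j (x i) (x (i + 1))) ≤ M ^ (2 * j) :=
      G_norm hM0 (le_max_left _ _) (le_max_right _ _)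
    have n0 := padicNorm.nonneg (p := p) μ
    have n1 := padicNorm.nonneg (p := p) (x i + x (i + 1))
    have n2 := padicNorm.nonneg (p := p) (G j (x i) (x (i + 1)))
    calc padicNorm p μ * (padicNorm p (x i + x (i + 1)) * padicNorm p (G j (x i) (x (i + 1))))
        ≤ padicNorm p μ * (M * M ^ (2 * j)) := by gcongr
      _ = padicNorm p μ * M ^ (2 * j + 1) := by ring
      _ ≤ 1 := a1
  have hprod : ∏ i ∈ Finset.range N,
      padicNorm p (μ * ((x i + x (i + 1)) * G j (x i) (x (i + 1)))) = 1 := by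
    have h2 : ∀ s : Finset ℕ, padicNorm p (∏ i ∈ s, (μ * ((x i + x (i + 1)) *
        G j (x i) (x (i + 1))))) =
        ∏ i ∈ s, padicNorm p (μ * ((x i + x (i + 1)) * G j (x i) (x (i + 1)))) := by
      classical
      intro s
      induction s using Finset.induction_on with
      | empty => simp
      | insert a s ha ih => rw [Finset.prod_insert ha, Finset.prod_insert ha, padicNorm.mul, ih]
    rw [← h2, hU, padicNorm.one]
  obtain ⟨k, hk⟩ := Nat.exists_eq_succ_of_ne_zero hN0.ne'
  rw [hk, Nat.succ_eq_add_one, Finset.prod_range_succ'] at hprod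
  have hrest : ∏ i ∈ Finset.range k,
      padicNorm p (μ * ((x (i + 1) + x (i + 1 + 1)) * G j (x (i + 1)) (x (i + 1 + 1)))) ≤ 1 :=
    Finset.prod_le_one (fun i _ => padicNorm.nonneg _) fun i _ => hle (i + 1)
  have hrest0 : 0 ≤ ∏ i ∈ Finset.range k,
      padicNorm p (μ * ((x (i + 1) + x (i + 1 + 1)) * G j (x (i + 1)) (x (i + 1 + 1)))) :=
    Finset.prod_nonneg fun i _ => padicNorm.nonneg _
  have h0 := hle 0
  have hn0 := padicNorm.nonneg (p := p) (μ * ((x 0 + x (0 + 1)) * G j (x 0) (x (0 + 1))))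
  show padicNorm p (μ * ((x 0 + x (0 + 1)) * G j (x 0) (x (0 + 1)))) = 1
  refine le_antisymm h0 ?_
  nlinarith

end Pool.Agent.X12.Uni
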