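import Pool.Agent.X12.Cub1
import Pool.Agent.X12.Uni1

/-!
# Preperiodic points of polynomials with rational coefficients: integrality and size
-/

set_option autoImplicit false

namespace Pool.Agent.X12.Pg

open Polynomial Function

/-- the rational numbers with a finite forward orbit -/
def Pre (f : ℚ[X]) : Set ℚ := {z | (Set.range fun k : ℕ => (fun x => f.eval x)^[k] z).Finite}

/-- the integer form of a polynomial -/
structure Dat (d : ℕ) (a : ℤ) (f : ℚ[X]) (D : ℕ) (B : ℕ → ℤ) : Prop where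
  a0 : a ≠ 0
  deg : f.natDegree = d
  lc : f.coeff d = a
  D1 : 1 ≤ D
  hB : ∀ i < d, (B i : ℚ) = (D : ℚ) ^ (d - i) * f.coeff i

/-- the integer polynomial function -/
def gz (d : ℕ) (a : ℤ) (B : ℕ → ℤ) (Z : ℤ) : ℤ :=
  Z ^ d + ∑ i ∈ Finset.range d, (B i * a ^ (d - 1 - i)) * Z ^ i

/-- the multiplier of the recursion -/
def EE (d : ℕ) (a : ℤ) (D : ℕ) : ℤ := a ^ (d - 2) * (D : ℤ) ^ (d - 1)

lemma eval_form {d : ℕ} {a : ℤ} {f : ℚ[X]} {D : ℕ} {B : ℕ → ℤ} (h : Dat d a f D B) (x : ℚ) :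
    (D : ℚ) ^ d * f.eval x = a * (D * x) ^ d +
      ∑ i ∈ Finset.range d, (B i : ℚ) * (D * x) ^ i := by
  rw [Polynomial.eval_eq_sum_range, h.deg, Finset.sum_range_succ, h.lc, mul_add, Finset.mul_sum,
    add_comm]
  congr 1
  · rw [mul_pow]
    ring
  · refine Finset.sum_congr rfl fun i hi => ?_
    rw [h.hB i (Finset.mem_range.1 hi), mul_pow]
    have e : d = (d - i) + i := by
      have := Finset.mem_range.1 hi
      omega
    calc (D : ℚ) ^ d * (f.coeff i * x ^ i) = (D : ℚ) ^ ((d - i) + i) * (f.coeff i * x ^ i) := by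
          rw [← e]
      _ = _ := by rw [pow_add]; ring

lemma eval_form' {d : ℕ} {a : ℤ} {f : ℚ[X]} {D : ℕ} {B : ℕ → ℤ} (h : Dat d a f D B) (hd : 1 ≤ d)
    (x : ℚ) : (D : ℚ) ^ (d - 1) * (D * f.eval x) = a * (D * x) ^ d +
      ∑ i ∈ Finset.range d, (B i : ℚ) * (D * x) ^ i := by
  rw [← eval_form h x, ← mul_assoc, ← pow_succ, Nat.sub_add_cancel hd]

lemma eval_form2 {d : ℕ} {a : ℤ} {f : ℚ[X]} {D : ℕ} {B : ℕ → ℤ} (h : Dat d a f D B) (hd : 2 ≤ d)
    (x : ℚ) : (EE d a D : ℚ) * (a * D * f.eval x) = (a * D * x) ^ d +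
      ∑ i ∈ Finset.range d, ((B i : ℚ) * (a : ℚ) ^ (d - 1 - i)) * (a * D * x) ^ i := by
  have h1 := eval_form' h (by omega) x
  have h2 : (EE d a D : ℚ) * (a * D * f.eval x) =
      (a : ℚ) ^ (d - 1) * ((D : ℚ) ^ (d - 1) * (D * f.eval x)) := by
    unfold EE
    push_cast
    have e : d - 1 = (d - 2) + 1 := by omega
    calc (a : ℚ) ^ (d - 2) * (D : ℚ) ^ (d - 1) * (a * D * f.eval x) =
        ((a : ℚ) ^ (d - 2) * a) * ((D : ℚ) ^ (d - 1) * (D * f.eval x)) := by ring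
      _ = _ := by rw [← pow_succ, ← e]
  rw [h2, h1, mul_add, Finset.mul_sum]
  congr 1
  · have e : d = (d - 1) + 1 := by omega
    have e1 : (a : ℚ) ^ (d - 1) * a = (a : ℚ) ^ d := by
      rw [← pow_succ, ← e]
    calc (a : ℚ) ^ (d - 1) * (a * (D * x) ^ d) = ((a : ℚ) ^ (d - 1) * a) * (D * x) ^ d := by ring
      _ = _ := by rw [e1, ← mul_pow, mul_assoc]
  · refine Finset.sum_congr rfl fun i hi => ?_
    have hi' := Finset.mem_range.1 hi
    have e : d - 1 = (d - 1 - i) + i := by omega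
    have e1 : (a : ℚ) ^ (d - 1) = (a : ℚ) ^ (d - 1 - i) * (a : ℚ) ^ i := by
      rw [← pow_add, ← e]
    rw [e1]
    have e2 : ((a : ℚ) * D * x) ^ i = (a : ℚ) ^ i * ((D : ℚ) * x) ^ i := by
      rw [← mul_pow, mul_assoc]
    rw [e2]
    ring

lemma padic_int_le (p : ℕ) [Fact p.Prime] (n : ℤ) : padicNorm p (n : ℚ) ≤ 1 :=
  padicNorm.of_int n

lemma pre_int {d : ℕ} {a : ℤ} {f : ℚ[X]} {D : ℕ} {B : ℕ → ℤ} (h : Dat d a f D B) (hd : 2 ≤ d)
    {z : ℚ} (hz : z ∈ Pre f) : ∃ Z : ℤ, (Z : ℚ) = a * D * z := by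
  refine Cub.int_of_padic fun p hp => ?_
  by_contra hcon
  rw [not_le] at hcon
  refine Cub.escape (h := fun x => f.eval x) (fun x => 1 < padicNorm p (a * D * x))
    (fun x => padicNorm p (a * D * x)) ?_ hcon hz
  intro x hx
  have hx0 : 0 < padicNorm p (a * D * x) := by linarith
  have hsum : padicNorm p (∑ i ∈ Finset.range d, ((B i : ℚ) * (a : ℚ) ^ (d - 1 - i)) *
      (a * D * x) ^ i) < padicNorm p ((a * D * x) ^ d) := by
    rw [Uni.norm_pow]
    refine padicNorm.sum_lt' ?_ (by positivity)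
    intro i hi
    rw [padicNorm.mul, Uni.norm_pow]
    have h2 : padicNorm p ((B i : ℚ) * (a : ℚ) ^ (d - 1 - i)) ≤ 1 := by
      have := padic_int_le p (B i * a ^ (d - 1 - i))
      push_cast at this
      exact this
    have h3 : padicNorm p (a * D * x) ^ i < padicNorm p (a * D * x) ^ d :=
      pow_lt_pow_right₀ hx (Finset.mem_range.1 hi)
    have h4 : 0 < padicNorm p (a * D * x) ^ i := by positivity
    nlinarith [padicNorm.nonneg (p := p) ((B i : ℚ) * (a : ℚ) ^ (d - 1 - i))]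
  have h1 := congrArg (padicNorm p) (eval_form2 h hd x)
  rw [padicNorm.mul, padicNorm.add_eq_max_of_ne hsum.ne', max_eq_left hsum.le,
    Uni.norm_pow] at h1
  have hD0 : 0 ≤ padicNorm p (EE d a D : ℚ) := padicNorm.nonneg _
  have h2 : padicNorm p (EE d a D : ℚ) ≤ 1 := padic_int_le p _
  have h3 : padicNorm p (a * D * x) < padicNorm p (a * D * x) ^ d := by
    calc padicNorm p (a * D * x) = padicNorm p (a * D * x) ^ 1 := (pow_one _).symm
      _ < _ := pow_lt_pow_right₀ hx (by omega)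
  have h4 : padicNorm p (a * D * x) < padicNorm p (a * D * f.eval x) := by
    have h5 : 0 ≤ padicNorm p (a * D * f.eval x) := padicNorm.nonneg _
    nlinarith
  exact ⟨hx.trans h4, h4⟩

/-- the archimedean bound -/
lemma pre_abs {d : ℕ} {a : ℤ} {f : ℚ[X]} {D : ℕ} {B : ℕ → ℤ} (h : Dat d a f D B) (hd : 2 ≤ d)
    {H : ℕ} (hDH : D ≤ H) (hBH : ∀ i < d, |B i| ≤ (H : ℤ) ^ (d - i)) {z : ℚ}
    (hz : z ∈ Pre f) : |D * z| ≤ (d + 1) * H := by
  by_contra hcon
  rw [not_le] at hcon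
  refine Cub.escape (h := fun x => f.eval x) (fun x => ((d : ℚ) + 1) * H < |D * x|)
    (fun x => |D * x|) ?_ hcon hz
  intro x hx
  have hH1 : (1 : ℚ) ≤ H := by
    have := h.D1
    exact_mod_cast this.trans hDH
  have ha1 : (1 : ℚ) ≤ |(a : ℚ)| := by
    have := Int.one_le_abs h.a0
    exact_mod_cast this
  have hd2 : (2 : ℚ) ≤ d := by exact_mod_cast hd
  have hHx : (H : ℚ) ≤ |D * x| := by nlinarith
  have hx0 : 0 < |(D : ℚ) * x| := by linarith
  have hD0 : (1 : ℚ) ≤ D := by exact_mod_cast h.D1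
  have hDH' : (D : ℚ) ≤ H := by exact_mod_cast hDH
  obtain ⟨e, rfl⟩ : ∃ e, d = e + 2 := ⟨d - 2, by omega⟩
  have hsum : |∑ i ∈ Finset.range (e + 2), (B i : ℚ) * (D * x) ^ i| ≤
      ((e + 2 : ℕ) : ℚ) * (H * |D * x| ^ (e + 1)) := by
    refine (Finset.abs_sum_le_sum_abs _ _).trans ?_
    have := Finset.sum_le_card_nsmul (Finset.range (e + 2)) (fun i => |(B i : ℚ) * (D * x) ^ i|)
      (H * |D * x| ^ (e + 1)) ?_
    · rwa [Finset.card_range, nsmul_eq_mul] at this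
    · intro i hi
      have hi' := Finset.mem_range.1 hi
      rw [abs_mul, abs_pow]
      have h1 : |(B i : ℚ)| ≤ (H : ℚ) ^ (e + 2 - i) := by exact_mod_cast hBH i hi'
      have h2 : (H : ℚ) ^ (e + 2 - i) = H * H ^ (e + 1 - i) := by
        rw [← pow_succ']
        congr 1
        omega
      have h3 : (H : ℚ) ^ (e + 1 - i) ≤ |D * x| ^ (e + 1 - i) :=
        pow_le_pow_left₀ (by linarith) hHx _
      have h4 : |(D : ℚ) * x| ^ (e + 1) = |D * x| ^ (e + 1 - i) * |D * x| ^ i := by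
        rw [← pow_add]
        congr 1
        omega
      rw [h4]
      have h5 : 0 ≤ |(D : ℚ) * x| ^ i := by positivity
      calc |(B i : ℚ)| * |D * x| ^ i ≤ (H : ℚ) ^ (e + 2 - i) * |D * x| ^ i :=
            mul_le_mul_of_nonneg_right h1 h5
        _ = H * (H ^ (e + 1 - i) * |D * x| ^ i) := by rw [h2]; ring
        _ ≤ _ := by
          refine mul_le_mul_of_nonneg_left ?_ (by linarith)
          exact mul_le_mul_of_nonneg_right h3 h5
  have h1 := congrArg abs (eval_form' h (by omega) x)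
  rw [abs_mul, abs_pow, abs_of_nonneg (by linarith : (0 : ℚ) ≤ D)] at h1
  have h2 : |(D : ℚ) * x| ^ (e + 2) - ((e + 2 : ℕ) : ℚ) * (H * |D * x| ^ (e + 1)) ≤
      |a * (D * x) ^ (e + 2) + ∑ i ∈ Finset.range (e + 2), (B i : ℚ) * (D * x) ^ i| := by
    have h3 := abs_sub_abs_le_abs_sub (a * (D * x : ℚ) ^ (e + 2))
      (-∑ i ∈ Finset.range (e + 2), (B i : ℚ) * (D * x) ^ i)
    rw [abs_neg, sub_neg_eq_add, abs_mul, abs_pow] at h3
    have h4 : |(D : ℚ) * x| ^ (e + 2) ≤ |(a : ℚ)| * |(D : ℚ) * x| ^ (e + 2) :=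
      le_mul_of_one_le_left (by positivity) ha1
    linarith
  rw [← h1] at h2
  have h3 : (D : ℚ) ^ (e + 2 - 1) * |D * x| < |(D : ℚ) * x| ^ (e + 2) -
      ((e + 2 : ℕ) : ℚ) * (H * |D * x| ^ (e + 1)) := by
    have g1 : |(D : ℚ) * x| ^ (e + 2) - ((e + 2 : ℕ) : ℚ) * (H * |D * x| ^ (e + 1)) =
        |(D : ℚ) * x| ^ (e + 1) * (|(D : ℚ) * x| - ((e + 2 : ℕ) : ℚ) * H) := by ring
    have g2 : (H : ℚ) < |(D : ℚ) * x| - ((e + 2 : ℕ) : ℚ) * H := by linarith
    have g3 : (0 : ℚ) < |(D : ℚ) * x| ^ (e + 1) := by positivity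
    have g4 : (D : ℚ) ^ (e + 2 - 1) * |D * x| ≤ |(D : ℚ) * x| ^ (e + 1) * H := by
      have g5 : (D : ℚ) ^ e ≤ |(D : ℚ) * x| ^ e :=
        pow_le_pow_left₀ (by linarith) (hDH'.trans hHx) _
      have g6 : (D : ℚ) ^ (e + 2 - 1) = D ^ e * D := by
        rw [← pow_succ]
        congr 1
      rw [g6, pow_succ]
      have g7 : (D : ℚ) ^ e * D ≤ |(D : ℚ) * x| ^ e * H :=
        mul_le_mul g5 hDH' (by linarith) (by positivity)
      nlinarith
    rw [g1]
    nlinarith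
  have h4 : |(D : ℚ) * x| < |D * f.eval x| := by
    have g1 : (D : ℚ) ^ (e + 2 - 1) * |D * x| < (D : ℚ) ^ (e + 2 - 1) * |D * f.eval x| :=
      lt_of_lt_of_le h3 h2
    exact lt_of_mul_lt_mul_left g1 (by positivity)
  exact ⟨hx.trans h4, h4⟩

/-- the recursion for the integer points -/
lemma rec_int {d : ℕ} {a : ℤ} {f : ℚ[X]} {D : ℕ} {B : ℕ → ℤ} (h : Dat d a f D B) (hd : 2 ≤ d)
    {z : ℚ} {Z Z' : ℤ} (hZ : (Z : ℚ) = a * D * z) (hZ' : (Z' : ℚ) = a * D * f.eval z) :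
    EE d a D * Z' = gz d a B Z := by
  have h1 := eval_form2 h hd z
  rw [← hZ, ← hZ'] at h1
  unfold gz
  exact_mod_cast h1

lemma gz_dvd (d : ℕ) (a : ℤ) (B : ℕ → ℤ) (Z W : ℤ) : (Z - W) ∣ gz d a B Z - gz d a B W := by
  unfold gz
  have e : Z ^ d + ∑ i ∈ Finset.range d, (B i * a ^ (d - 1 - i)) * Z ^ i -
      (W ^ d + ∑ i ∈ Finset.range d, (B i * a ^ (d - 1 - i)) * W ^ i) =
      (Z ^ d - W ^ d) + ∑ i ∈ Finset.range d, (B i * a ^ (d - 1 - i)) * (Z ^ i - W ^ i) := by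
    simp only [mul_sub, Finset.sum_sub_distrib]
    ring
  rw [e]
  refine dvd_add (sub_dvd_pow_sub_pow _ _ _) (Finset.dvd_sum fun i _ => ?_)
  exact (sub_dvd_pow_sub_pow _ _ _).mul_left _

end Pool.Agent.X12.Pg
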