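import Pool.Agent.X12.Pg1

/-!
# The data which determine a polynomial with a long orbit
-/

set_option autoImplicit false

namespace Pool.Agent.X12.Pg

open Polynomial Function

/-! ### The part prime to `D` -/

lemma exists_free (D : ℕ) (n : ℕ) (hn : 1 ≤ n) :
    ∃ m : ℕ, Nat.Coprime m D ∧ m ∣ n ∧ n ∣ D ^ n * m := by
  induction n using Nat.strong_induction_on with
  | _ n ih =>
    rcases Nat.eq_zero_or_pos D with hD | hD
    · subst hD
      exact ⟨1, Nat.coprime_one_left 0, one_dvd _, by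
        rw [zero_pow (by omega), zero_mul]; exact dvd_zero _⟩
    by_cases hg : Nat.gcd n D = 1
    · exact ⟨n, hg, dvd_rfl, Dvd.intro_left _ rfl⟩
    · obtain ⟨n', hn'⟩ := Nat.gcd_dvd_left n D
      have hg0 : 0 < Nat.gcd n D := Nat.gcd_pos_of_pos_left _ hn
      have hg2 : 2 ≤ Nat.gcd n D := by omega
      have h1 : 1 ≤ n' := by
        rcases Nat.eq_zero_or_pos n' with h | h
        · rw [h] at hn'
          omega
        · exact h
      have h2 : n' < n := by
        conv_rhs => rw [hn']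
        nlinarith
      obtain ⟨m, e1, e2, e3⟩ := ih n' h2 h1
      refine ⟨m, e1, e2.trans ⟨_, by rw [mul_comm]; exact hn'⟩, ?_⟩
      have h3 : n ∣ D * (D ^ n' * m) := by
        conv_lhs => rw [hn']
        exact Nat.mul_dvd_mul (Nat.gcd_dvd_right n D) e3
      refine h3.trans ?_
      rw [← mul_assoc, ← pow_succ']
      exact Nat.mul_dvd_mul (pow_dvd_pow _ (by omega)) dvd_rfl

/-- the part of `n` prime to `D` -/
noncomputable def fr (D n : ℕ) : ℕ := by
  classical
  exact if h : 1 ≤ n then (exists_free D n h).choose else 1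

lemma fr_spec {D n : ℕ} (hn : 1 ≤ n) :
    Nat.Coprime (fr D n) D ∧ fr D n ∣ n ∧ n ∣ D ^ n * fr D n := by
  unfold fr
  rw [dif_pos hn]
  exact (exists_free D n hn).choose_spec

lemma fr_pos {D n : ℕ} (hn : 1 ≤ n) : 1 ≤ fr D n :=
  Nat.pos_of_dvd_of_pos (fr_spec (D := D) hn).2.1 hn

lemma fr_le {D n : ℕ} (hn : 1 ≤ n) : fr D n ≤ n := Nat.le_of_dvd hn (fr_spec (D := D) hn).2.1

lemma fr_dvd {D m n k : ℕ} (hm : 1 ≤ m) (hn : 1 ≤ n) (h : m ∣ D ^ k * n) : fr D m ∣ fr D n := by
  obtain ⟨e1, e2, e3⟩ := fr_spec (D := D) hm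
  obtain ⟨f1, f2, f3⟩ := fr_spec (D := D) hn
  have h1 : fr D m ∣ D ^ k * (D ^ n * fr D n) := e2.trans (h.trans (Nat.mul_dvd_mul dvd_rfl f3))
  rw [← mul_assoc, ← pow_add] at h1
  exact (Nat.Coprime.dvd_of_dvd_mul_left (Nat.Coprime.pow_right _ e1) h1)

/-- the support of the quotients -/
lemma quot_dvd {D u s t k q : ℕ} (hs : 1 ≤ s) (ht : 1 ≤ t) (h : u * s ∣ D ^ k * t)
    (hq : fr D t ∣ fr D s * q) : u ∣ D ^ (k + t) * q := by
  obtain ⟨e1, e2, e3⟩ := fr_spec (D := D) hs
  obtain ⟨f1, f2, f3⟩ := fr_spec (D := D) ht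
  have h1 : u * fr D s ∣ D ^ k * (D ^ t * (fr D s * q)) :=
    ((Nat.mul_dvd_mul dvd_rfl e2).trans h).trans
      (Nat.mul_dvd_mul dvd_rfl (f3.trans (Nat.mul_dvd_mul dvd_rfl hq)))
  have h2 : D ^ k * (D ^ t * (fr D s * q)) = (D ^ (k + t) * q) * fr D s := by
    rw [pow_add]
    ring
  rw [h2] at h1
  exact Nat.dvd_of_mul_dvd_mul_right (fr_pos hs) h1

/-! ### The shift -/

lemma coeff_shift {d : ℕ} (hd : 2 ≤ d) {a : ℤ} {f : ℚ[X]} (hlc : f.coeff d = a)
    (hdeg : f.natDegree = d) (hc : f.coeff (d - 1) = 0) (μ : ℚ) :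
    (f.comp (X + C μ)).coeff (d - 1) = a * (d * μ) := by
  set r := f - C (a : ℚ) * X ^ d with hr
  have hf : f = C (a : ℚ) * X ^ d + r := by rw [hr]; ring
  have hr1 : ∀ m, d - 1 ≤ m → r.coeff m = 0 := by
    intro m hmm
    rw [hr, Polynomial.coeff_sub, Polynomial.coeff_C_mul_X_pow]
    rcases Nat.lt_or_ge m d with h1 | h1
    · have : m = d - 1 := by omega
      rw [this, hc, if_neg (by omega), sub_zero]
    · rcases Nat.eq_or_lt_of_le h1 with h2 | h2
      · rw [if_pos h2.symm, ← h2, hlc, sub_self]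
      · rw [if_neg (by omega), Polynomial.coeff_eq_zero_of_natDegree_lt (by omega), sub_zero]
  have hr2 : (r.comp (X + C μ)).coeff (d - 1) = 0 := by
    rcases eq_or_ne r 0 with h0 | h0
    · rw [h0, Polynomial.zero_comp, Polynomial.coeff_zero]
    · refine Polynomial.coeff_eq_zero_of_natDegree_lt ?_
      rw [Polynomial.natDegree_comp, Polynomial.natDegree_X_add_C, mul_one]
      by_contra hcon
      have := hr1 r.natDegree (by omega)
      exact h0 (Polynomial.leadingCoeff_eq_zero.1 this)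
  rw [hf, Polynomial.add_comp, Polynomial.coeff_add, hr2, add_zero, Polynomial.C_mul_comp,
    Polynomial.X_pow_comp, Polynomial.coeff_C_mul, Polynomial.coeff_X_add_C_pow]
  have e1 : d - (d - 1) = 1 := by omega
  have e2 : d.choose (d - 1) = d := by
    have := Nat.choose_symm (n := d) (k := 1) (by omega)
    rw [this, Nat.choose_one_right]
  rw [e1, e2, pow_one]
  ring

/-- a conjugacy between two centred polynomials with the same leading coefficient -/
lemma conj_trivial {d : ℕ} (hd : 2 ≤ d) {a : ℤ} (ha : a ≠ 0) {f f' : ℚ[X]}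
    (hm : f.coeff d = a) (hm' : f'.coeff d = a)
    (hdeg : f.natDegree = d) (hdeg' : f'.natDegree = d) (hc : f.coeff (d - 1) = 0)
    (hc' : f'.coeff (d - 1) = 0) {l μ : ℚ} (hl : 0 < l)
    (h : f'.comp (C l * X + C μ) = C l * f + C μ) : f = f' := by
  have haq : (a : ℚ) ≠ 0 := by exact_mod_cast ha
  have hlin : (C l * X + C μ : ℚ[X]).natDegree = 1 := Polynomial.natDegree_linear hl.ne'
  have hlc : (C l * X + C μ : ℚ[X]).leadingCoeff = l := Polynomial.leadingCoeff_linear hl.ne'
  have h1 : (f'.comp (C l * X + C μ)).coeff d = (C l * f + C μ : ℚ[X]).coeff d := by rw [h]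
  have h2 : (f'.comp (C l * X + C μ)).coeff d = a * l ^ d := by
    have := Polynomial.coeff_comp_degree_mul_degree (p := f') (q := C l * X + C μ)
      (by rw [hlin]; norm_num)
    rw [hlin, hlc, mul_one, Polynomial.leadingCoeff, hdeg', hm'] at this
    exact this
  have h3 : (C l * f + C μ : ℚ[X]).coeff d = l * a := by
    rw [Polynomial.coeff_add, Polynomial.coeff_C_mul, Polynomial.coeff_C_of_ne_zero (by omega),
      add_zero, hm]
  rw [h2, h3] at h1
  have h4 : l ^ (d - 1) = 1 := by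
    have h5 : l ^ (d - 1) * (l * a) = 1 * (l * a) := by
      rw [← mul_assoc, ← pow_succ, Nat.sub_add_cancel (by omega), one_mul, ← h1]
      ring
    exact mul_right_cancel₀ (mul_ne_zero hl.ne' haq) h5
  have h5 : l = 1 := by
    exact (pow_eq_one_iff_of_nonneg hl.le (by omega)).1 h4
  subst h5
  rw [Polynomial.C_1, one_mul, one_mul] at h
  have h6 : (f'.comp (X + C μ)).coeff (d - 1) = (f + C μ : ℚ[X]).coeff (d - 1) := by rw [h]
  rw [coeff_shift hd hm' hdeg' hc', Polynomial.coeff_add, hc,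
    Polynomial.coeff_C_of_ne_zero (by omega), add_zero] at h6
  have h7 : μ = 0 := by
    have hd0 : (d : ℚ) ≠ 0 := by
      have : d ≠ 0 := by omega
      exact_mod_cast this
    exact (mul_eq_zero.1 ((mul_eq_zero.1 h6).resolve_left haq)).resolve_left hd0
  rw [h7, Polynomial.C_0, add_zero, add_zero, Polynomial.comp_X] at h
  exact h.symm

/-- the relation between a polynomial and its data -/
def Rel (d : ℕ) (a : ℤ) (f : ℚ[X]) (D : ℕ) (σ : Bool) (u : Fin d → ℤ) : Prop :=
  f.coeff d = a ∧ f.natDegree = d ∧ f.coeff (d - 1) = 0 ∧ ∃ z : ℕ → ℚ,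
    (∀ i, z (i + 1) = f.eval (z i)) ∧
    (∀ i ≤ d, ∀ j ≤ d, z i = z j → i = j) ∧ (σ = true ↔ 0 < z 1 - z 0) ∧
    ∀ i : Fin d, (u i : ℚ) * (z (i + 1) - z i) = (EE d a D : ℚ) * (z (i + 2) - z (i + 1))

theorem rel_inj {d : ℕ} (hd : 2 ≤ d) {a : ℤ} (ha : a ≠ 0) {f f' : ℚ[X]} {D : ℕ} (hD : 1 ≤ D)
    {σ : Bool} {u : Fin d → ℤ} (h : Rel d a f D σ u) (h' : Rel d a f' D σ u) : f = f' := by
  obtain ⟨hm, hdeg, hc, z, hz, hinj, hs, hu⟩ := h
  obtain ⟨hm', hdeg', hc', z', hz', hinj', hs', hu'⟩ := h'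
  have ht0 : z 1 - z 0 ≠ 0 := by
    intro h0
    have := hinj 1 (by omega) 0 (by omega) (sub_eq_zero.1 h0)
    omega
  have ht0' : z' 1 - z' 0 ≠ 0 := by
    intro h0
    have := hinj' 1 (by omega) 0 (by omega) (sub_eq_zero.1 h0)
    omega
  have hD0 : (EE d a D : ℚ) ≠ 0 := by
    have h1 : EE d a D ≠ 0 := by
      unfold EE
      exact mul_ne_zero (pow_ne_zero _ ha) (pow_ne_zero _ (by omega))
    exact_mod_cast h1
  set l := (z' 1 - z' 0) / (z 1 - z 0) with hl
  set μ := z' 0 - l * z 0 with hμ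
  have hl0 : 0 < l := by
    rw [hl]
    by_cases hb : σ = true
    · exact div_pos (hs'.1 hb) (hs.1 hb)
    · have h1 : ¬ 0 < z 1 - z 0 := fun h1 => hb (hs.2 h1)
      have h2 : ¬ 0 < z' 1 - z' 0 := fun h1 => hb (hs'.2 h1)
      exact div_pos_of_neg_of_neg (lt_of_le_of_ne (not_lt.1 h2) ht0')
        (lt_of_le_of_ne (not_lt.1 h1) ht0)
  have hT : ∀ i ≤ d, z' (i + 1) - z' i = l * (z (i + 1) - z i) := by
    intro i
    induction i with
    | zero =>
      intro _
      rw [hl]
      field_simp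
    | succ i ih =>
      intro hi
      have e := ih (by omega)
      have e1 := hu ⟨i, by omega⟩
      have e2 := hu' ⟨i, by omega⟩
      simp only at e1 e2
      rw [e] at e2
      have e3 : (EE d a D : ℚ) * (z' (i + 2) - z' (i + 1)) =
          (EE d a D : ℚ) * (l * (z (i + 2) - z (i + 1))) := by
        rw [← e2, mul_left_comm, e1]
        ring
      exact mul_left_cancel₀ hD0 e3
  have hZ : ∀ i ≤ d + 1, z' i = l * z i + μ := by
    intro i
    induction i with
    | zero =>
      intro _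
      rw [hμ]
      ring
    | succ i ih =>
      intro hi
      have e := ih (by omega)
      have e1 := hT i (by omega)
      rw [e] at e1
      linarith
  refine conj_trivial hd ha hm hm' hdeg hdeg' hc hc' (l := l) (μ := μ) hl0 ?_
  have hlin : (C l * X + C μ : ℚ[X]).natDegree = 1 := Polynomial.natDegree_linear hl0.ne'
  set P := f'.comp (C l * X + C μ) - (C l * f + C μ) with hP
  have hP0 : P = 0 := by
    refine Polynomial.eq_zero_of_natDegree_lt_card_of_eval_eq_zero (R := ℚ) P
      (f := fun i : Fin (d + 1) => z i) ?_ ?_ ?_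
    · intro i j hij
      exact Fin.ext (hinj i (by omega) j (by omega) hij)
    · intro i
      rw [hP, Polynomial.eval_sub, Polynomial.eval_comp, Polynomial.eval_add,
        Polynomial.eval_mul, Polynomial.eval_C, Polynomial.eval_X, Polynomial.eval_C,
        Polynomial.eval_add, Polynomial.eval_mul, Polynomial.eval_C, Polynomial.eval_C,
        ← hZ i (by omega), ← hz, ← hz', hZ (i + 1) (by omega), sub_self]
    · rw [Fintype.card_fin]
      refine lt_of_le_of_lt (Polynomial.natDegree_sub_le _ _) ?_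
      rw [max_lt_iff]
      constructor
      · rw [Polynomial.natDegree_comp, hlin, hdeg']
        omega
      · refine lt_of_le_of_lt (Polynomial.natDegree_add_le _ _) ?_
        rw [max_lt_iff]
        constructor
        · refine lt_of_le_of_lt (Polynomial.natDegree_C_mul_le _ _) ?_
          omega
        · rw [Polynomial.natDegree_C]
          omega
  exact sub_eq_zero.1 hP0

end Pool.Agent.X12.Pg
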