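import Pool.Agent.X12.Pg2
import Pool.Agent.X12.Obi4

/-!
# Counting the polynomials with a long orbit
-/

set_option autoImplicit false

namespace Pool.Agent.X12.Pg

open Polynomial Function
open Pool.Agent.X12.Dyn (TS mem_TS TS_card)

/-- the bounded integer form -/
structure Bd (d : ℕ) (a : ℤ) (H : ℕ) (f : ℚ[X]) (D : ℕ) (B : ℕ → ℤ) : Prop where
  dat : Dat d a f D B
  DH : D ≤ H
  BH : ∀ i < d, |B i| ≤ (H : ℤ) ^ (d - i)

/-- the orbit -/
def orb (f : ℚ[X]) (z : ℚ) (i : ℕ) : ℚ := (fun x => f.eval x)^[i] z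

lemma orb_succ (f : ℚ[X]) (z : ℚ) (i : ℕ) : orb f z (i + 1) = f.eval (orb f z i) := by
  unfold orb
  rw [Function.iterate_succ_apply']

lemma orb_pre {f : ℚ[X]} {z : ℚ} (hz : z ∈ Pre f) (i : ℕ) : orb f z i ∈ Pre f :=
  Cub.pre_iterate (h := fun x => f.eval x) hz i

lemma orb_orb (f : ℚ[X]) (z : ℚ) (i j : ℕ) : orb f (orb f z i) j = orb f z (i + j) := by
  unfold orb
  rw [← Function.iterate_add_apply, add_comm]

/-- the integer orbit -/
lemma int_orb {d : ℕ} {a : ℤ} {H : ℕ} {f : ℚ[X]} {D : ℕ} {B : ℕ → ℤ} (h : Bd d a H f D B)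
    (hd : 2 ≤ d) {z : ℚ}
    (hz : z ∈ Pre f) : ∃ Z : ℕ → ℤ, (∀ i, (Z i : ℚ) = a * D * orb f z i) ∧
      (∀ i, |Z i| ≤ ((d + 1) * (a.natAbs * H) : ℕ)) ∧
      ∀ i, (Z (i + 1) - Z i) ∣ EE d a D * (Z (i + 2) - Z (i + 1)) := by
  choose Z hZ using fun i => pre_int h.dat hd (orb_pre hz i)
  refine ⟨Z, hZ, fun i => ?_, fun i => ?_⟩
  · have h1 := pre_abs h.dat hd h.DH h.BH (orb_pre hz i)
    have h2 : |(Z i : ℚ)| ≤ (d + 1) * (|(a : ℚ)| * H) := by
      rw [hZ, mul_assoc, abs_mul]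
      calc |(a : ℚ)| * |(D : ℚ) * orb f z i| ≤ |(a : ℚ)| * ((d + 1) * H) :=
            mul_le_mul_of_nonneg_left h1 (abs_nonneg _)
        _ = _ := by ring
    push_cast
    exact_mod_cast h2
  · have e1 : EE d a D * Z (i + 1) = gz d a B (Z i) := by
      refine rec_int h.dat hd (hZ i) ?_
      rw [hZ, orb_succ]
    have e2 : EE d a D * Z (i + 2) = gz d a B (Z (i + 1)) := by
      refine rec_int h.dat hd (hZ (i + 1)) ?_
      rw [hZ, orb_succ]
    rw [mul_sub, e1, e2]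
    exact gz_dvd _ _ _ _ _

lemma EE_ne {d : ℕ} {a : ℤ} {D : ℕ} (ha : a ≠ 0) (hD : 1 ≤ D) : EE d a D ≠ 0 := by
  unfold EE
  exact mul_ne_zero (pow_ne_zero _ ha) (pow_ne_zero _ (by omega))

lemma EE_dvd (d : ℕ) (a : ℤ) (D : ℕ) : (EE d a D).natAbs ∣ (a.natAbs * D) ^ (d - 1) := by
  unfold EE
  rw [Int.natAbs_mul, Int.natAbs_pow, Int.natAbs_pow, Int.natAbs_natCast, mul_pow]
  exact Nat.mul_dvd_mul (pow_dvd_pow _ (by omega)) dvd_rfl

lemma dvd_step {d : ℕ} {a : ℤ} {D : ℕ} {s t : ℤ} (h : s ∣ EE d a D * t) :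
    s.natAbs ∣ (a.natAbs * D) ^ (d - 1) * t.natAbs := by
  have h2 := Int.natAbs_dvd_natAbs.2 h
  rw [Int.natAbs_mul] at h2
  exact h2.trans (Nat.mul_dvd_mul (EE_dvd d a D) dvd_rfl)

/-- the chain of the free parts -/
lemma fr_chain {d : ℕ} {a : ℤ} {D : ℕ} {T : ℕ → ℤ} {m : ℕ} (hT : ∀ i ≤ m, T i ≠ 0)
    (hdvd : ∀ i, T i ∣ EE d a D * T (i + 1)) :
    ∀ i ≤ m, ∀ j ≤ i, fr (a.natAbs * D) (T j).natAbs ∣ fr (a.natAbs * D) (T i).natAbs := by
  intro i
  induction i with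
  | zero =>
    intro _ j hj
    have : j = 0 := by omega
    rw [this]
  | succ i ih =>
    intro hi j hj
    rcases Nat.lt_or_ge i j with h1 | h1
    · have : j = i + 1 := by omega
      rw [this]
    · refine (ih (by omega) j h1).trans ?_
      exact fr_dvd (k := d - 1) (Int.natAbs_pos.2 (hT i (by omega)))
        (Int.natAbs_pos.2 (hT (i + 1) hi)) (dvd_step (hdvd i))

/-- the polynomials with a long orbit whose differences grow slowly -/
def Bad (d : ℕ) (a : ℤ) (H Q : ℕ) : Set ℚ[X] := {f | f.coeff (d - 1) = 0 ∧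
  ∃ (D : ℕ) (B : ℕ → ℤ),
  Bd d a H f D B ∧ ∃ z ∈ Pre f, (∀ i ≤ d, ∀ j ≤ d, orb f z i = orb f z j → i = j) ∧
    orb f z (d + 1) ≠ orb f z d ∧ ∀ s t : ℤ, (s : ℚ) = a * D * (orb f z 1 - orb f z 0) →
      (t : ℚ) = a * D * (orb f z (d + 1) - orb f z d) →
      fr (a.natAbs * D) t.natAbs ≤ Q * fr (a.natAbs * D) s.natAbs}

/-- the bound of the quotients -/
noncomputable def YY (d : ℕ) (a : ℤ) (H : ℕ) : ℝ := 2 * (d + 1) * |(a : ℝ)| ^ (d - 1) * (H : ℝ) ^ d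

/-- the finite set of the data -/
noncomputable def FD (d : ℕ) (a : ℤ) (H Q : ℕ) : Finset (Σ _ : (ℕ × ℕ) × Bool, (Fin d → ℤ)) :=
  ((Finset.Icc 1 H ×ˢ Finset.Icc 1 Q) ×ˢ (Finset.univ : Finset Bool)).sigma
    fun x => Fintype.piFinset fun _ : Fin d => TS (YY d a H) (a.natAbs * (x.1.1 * x.1.2))

theorem bad_data {d : ℕ} {a : ℤ} {H Q : ℕ} (hd : 2 ≤ d) {f : ℚ[X]} (hf : f ∈ Bad d a H Q) :
    ∃ b ∈ FD d a H Q, 1 ≤ b.1.1.1 ∧ Rel d a f b.1.1.1 b.1.2 b.2 := by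
  classical
  obtain ⟨hc, D, B, hB, z, hz, hinj, hlast, hQ⟩ := hf
  have hD1 := hB.dat.D1
  have ha0 := hB.dat.a0
  have hDH := hB.DH
  obtain ⟨Z, hZ, hZH, hdvd⟩ := int_orb hB hd hz
  have haq : (a : ℚ) ≠ 0 := by exact_mod_cast ha0
  have hDq : (a * D : ℚ) ≠ 0 := by
    have : D ≠ 0 := by omega
    exact mul_ne_zero haq (by exact_mod_cast this)
  set D' : ℕ := a.natAbs * D with hD'
  have hD'1 : 1 ≤ D' := Nat.mul_pos (Int.natAbs_pos.2 ha0) hD1
  set T : ℕ → ℤ := fun i => Z (i + 1) - Z i with hT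
  have hTq : ∀ i, (T i : ℚ) = a * D * (orb f z (i + 1) - orb f z i) := by
    intro i
    simp only [hT]
    push_cast
    rw [hZ, hZ]
    ring
  have hT0 : ∀ i ≤ d, T i ≠ 0 := by
    intro i hi h0
    have h1 := hTq i
    rw [h0, Int.cast_zero] at h1
    have h2 := (mul_eq_zero.1 h1.symm).resolve_left hDq
    rcases Nat.lt_or_ge i d with h3 | h3
    · have := hinj (i + 1) (by omega) i (by omega) (sub_eq_zero.1 h2)
      omega
    · have : i = d := by omega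
      subst this
      exact hlast (sub_eq_zero.1 h2)
  have hTpos : ∀ i ≤ d, 1 ≤ (T i).natAbs := fun i hi => Int.natAbs_pos.2 (hT0 i hi)
  have hTdvd : ∀ i, T i ∣ EE d a D * T (i + 1) := fun i => hdvd i
  have hfr2 : ∀ i ≤ d, ∀ j ≤ i, fr D' (T j).natAbs ∣ fr D' (T i).natAbs := fr_chain hT0 hTdvd
  choose U hU using hTdvd
  obtain ⟨q, hq⟩ := hfr2 d le_rfl 0 (by omega)
  have hp0 := fr_pos (D := D') (hTpos 0 (by omega))
  have hpd := fr_pos (D := D') (hTpos d le_rfl)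
  have hq1 : 1 ≤ q := by
    rcases Nat.eq_zero_or_pos q with h | h
    · rw [h, mul_zero] at hq
      omega
    · exact h
  have hqQ : q ≤ Q := by
    have h1 := hQ (T 0) (T d) (by rw [hTq]) (by rw [hTq])
    rw [hq, mul_comm Q] at h1
    exact Nat.le_of_mul_le_mul_left h1 hp0
  have hUdvd : ∀ i < d, (U i).natAbs ∣ D' ^ (d - 1 + (T (i + 1)).natAbs) * q := by
    intro i hi
    refine quot_dvd (s := (T i).natAbs) (t := (T (i + 1)).natAbs) (hTpos i (by omega))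
      (hTpos (i + 1) (by omega)) ?_ ?_
    · have h1 := congrArg Int.natAbs (hU i)
      rw [Int.natAbs_mul, Int.natAbs_mul] at h1
      rw [mul_comm, ← h1]
      exact Nat.mul_dvd_mul (EE_dvd d a D) dvd_rfl
    · refine (hfr2 d le_rfl (i + 1) (by omega)).trans ?_
      rw [hq]
      exact Nat.mul_dvd_mul (hfr2 i (by omega) 0 (by omega)) dvd_rfl
  have hE0 : EE d a D ≠ 0 := EE_ne ha0 hD1
  have hU0 : ∀ i < d, U i ≠ 0 := by
    intro i hi h0
    have h1 := hU i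
    rw [h0, mul_zero] at h1
    exact hT0 (i + 1) (by omega) ((mul_eq_zero.1 h1).resolve_left hE0)
  have hTH : ∀ i, |T i| ≤ 2 * ((d + 1) * (a.natAbs * H) : ℕ) := by
    intro i
    have h1 := hZH i
    have h2 := hZH (i + 1)
    have h3 := abs_sub (Z (i + 1)) (Z i)
    show |Z (i + 1) - Z i| ≤ _
    linarith
  have hUH : ∀ i < d, |(U i : ℝ)| ≤ YY d a H := by
    intro i hi
    have h1 : |T i| * |U i| = |EE d a D| * |T (i + 1)| := by
      rw [← abs_mul, ← hU i, abs_mul]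
    have h2 : 1 ≤ |T i| := Int.one_le_abs (hT0 i (by omega))
    have h3 : |U i| ≤ |T i| * |U i| := by nlinarith [abs_nonneg (U i)]
    have h4 : |EE d a D| ≤ |a| ^ (d - 2) * (H : ℤ) ^ (d - 1) := by
      unfold EE
      rw [abs_mul, abs_pow, abs_pow]
      refine mul_le_mul_of_nonneg_left ?_ (by positivity)
      refine pow_le_pow_left₀ (abs_nonneg _) ?_ _
      rw [abs_of_nonneg (by positivity)]
      exact_mod_cast hDH
    have h5 : |U i| ≤ |a| ^ (d - 2) * (H : ℤ) ^ (d - 1) * (2 * ((d + 1) * (a.natAbs * H) : ℕ)) := by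
      rw [h1] at h3
      refine h3.trans ?_
      exact mul_le_mul h4 (hTH (i + 1)) (abs_nonneg _) (by positivity)
    have h6 : |a| ^ (d - 2) * (H : ℤ) ^ (d - 1) * (2 * ((d + 1) * (a.natAbs * H) : ℕ)) =
        2 * (d + 1) * |a| ^ (d - 1) * (H : ℤ) ^ d := by
      have e1 : (H : ℤ) ^ d = (H : ℤ) ^ (d - 1) * H := by
        rw [← pow_succ, Nat.sub_add_cancel (by omega)]
      have e2 : |a| ^ (d - 1) = |a| ^ (d - 2) * |a| := by
        rw [← pow_succ]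
        congr 1
        omega
      rw [e1, e2]
      push_cast
      ring
    rw [h6] at h5
    unfold YY
    exact_mod_cast h5
  refine ⟨⟨((D, q), decide (0 < orb f z 1 - orb f z 0)), fun i => U i⟩, ?_, hD1, ?_⟩
  · unfold FD
    rw [Finset.mem_sigma, Finset.mem_product, Finset.mem_product, Finset.mem_Icc, Finset.mem_Icc,
      Fintype.mem_piFinset]
    refine ⟨⟨⟨⟨hD1, hDH⟩, hq1, hqQ⟩, Finset.mem_univ _⟩, fun i => ?_⟩
    refine mem_TS (hUH i i.2) (hU0 i i.2) ?_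
    intro p hp
    have hpp := Nat.prime_of_mem_primeFactors hp
    have h1 : p ∣ D' ^ (d - 1 + (T (i + 1)).natAbs) * q :=
      (Nat.dvd_of_mem_primeFactors hp).trans (hUdvd i i.2)
    rw [Nat.mem_primeFactors]
    refine ⟨hpp, ?_, ?_⟩
    · show p ∣ a.natAbs * (D * q)
      rw [← mul_assoc]
      rcases (Nat.Prime.dvd_mul hpp).1 h1 with h2 | h2
      · exact (hpp.dvd_of_dvd_pow h2).mul_right _
      · exact h2.mul_left _
    · exact Nat.mul_ne_zero (Int.natAbs_ne_zero.2 ha0)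
        (Nat.mul_ne_zero (Nat.one_le_iff_ne_zero.1 hD1) (Nat.one_le_iff_ne_zero.1 hq1))
  · refine ⟨hB.dat.lc, hB.dat.deg, hc, orb f z, orb_succ f z, hinj, ?_, ?_⟩
    · exact decide_eq_true_iff
    · intro i
      show (U i : ℚ) * _ = _
      have h1 : ((T i * U i : ℤ) : ℚ) = ((EE d a D * T (i + 1) : ℤ) : ℚ) := by
        rw [← hU i]
      rw [Int.cast_mul, Int.cast_mul, hTq, hTq] at h1
      have h2 : (a * D : ℚ) * ((U i : ℚ) * (orb f z (i + 1) - orb f z i)) =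
          (a * D : ℚ) * ((EE d a D : ℚ) * (orb f z (i + 2) - orb f z (i + 1))) := by
        linear_combination h1
      exact mul_left_cancel₀ hDq h2

/-- counting through a relation -/
lemma card_of_rel {α β : Type*} {S : Set α} (F : Finset β) (R : α → β → Prop)
    (h1 : ∀ a ∈ S, ∃ b ∈ F, R a b) (h2 : ∀ a a' b, R a b → R a' b → a = a') :
    S.Finite ∧ S.ncard ≤ F.card := by
  classical
  rcases S.eq_empty_or_nonempty with h0 | ⟨a0, ha0⟩
  · subst h0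
    exact ⟨Set.finite_empty, by simp⟩
  obtain ⟨b0, -, -⟩ := h1 a0 ha0
  have hex : ∀ a, ∃ b, a ∈ S → b ∈ F ∧ R a b := by
    intro a
    by_cases ha : a ∈ S
    · obtain ⟨b, e1, e2⟩ := h1 a ha
      exact ⟨b, fun _ => ⟨e1, e2⟩⟩
    · exact ⟨b0, fun h => absurd h ha⟩
  choose g hg using hex
  have hinj : Set.InjOn g S := by
    intro a ha a' ha' h
    have e1 := (hg a ha).2
    have e2 := (hg a' ha').2
    rw [← h] at e2
    exact h2 a a' _ e1 e2
  have hmap : Set.MapsTo g S (F : Set β) := fun a ha => (hg a ha).1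
  have hfin : S.Finite := Set.Finite.of_injOn hmap hinj F.finite_toSet
  refine ⟨hfin, ?_⟩
  have := Set.ncard_le_ncard_of_injOn g hmap hinj F.finite_toSet
  rwa [Set.ncard_coe_finset] at this

theorem bad_card {d : ℕ} (hd : 2 ≤ d) {a : ℤ} (ha : a ≠ 0) (H Q : ℕ) :
    (Bad d a H Q).Finite ∧ (Bad d a H Q).ncard ≤ (FD d a H Q).card :=
  card_of_rel (FD d a H Q) (fun f b => 1 ≤ b.1.1.1 ∧ Rel d a f b.1.1.1 b.1.2 b.2)
    (fun _ hf => bad_data hd hf) fun _ _ _ h h' => rel_inj hd ha h.1 h.2 h'.2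

end Pool.Agent.X12.Pg
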