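import Pool.Agent.X12.Pg3

/-!
# The exceptional polynomials
-/

set_option autoImplicit false

namespace Pool.Agent.X12.Pg

open Polynomial Function
open Pool.Agent.X12.Dyn (TS mem_TS TS_card)

/-- the centred polynomials of degree `d` with leading coefficient `a`, of weighted height at
most `H` -/
def Fam (d : ℕ) (a : ℤ) (H : ℕ) : Set ℚ[X] := {f | f.natDegree = d ∧ f.coeff d = a ∧
  f.coeff (d - 1) = 0 ∧ ∃ D : ℕ, 1 ≤ D ∧ D ≤ H ∧ ∀ i < d, ∃ B : ℤ,
    (B : ℚ) = (D : ℚ) ^ (d - i) * f.coeff i ∧ |B| ≤ (H : ℤ) ^ (d - i)}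

lemma fam_bd {d : ℕ} {a : ℤ} {H : ℕ} (ha : a ≠ 0) {f : ℚ[X]} (hf : f ∈ Fam d a H) :
    f.coeff (d - 1) = 0 ∧ ∃ (D : ℕ) (B : ℕ → ℤ), Bd d a H f D B := by
  obtain ⟨h1, h2, h3, D, h4, h5, h6⟩ := hf
  refine ⟨h3, D, ?_⟩
  have h7 : ∀ i, ∃ B : ℤ, i < d → (B : ℚ) = (D : ℚ) ^ (d - i) * f.coeff i ∧
      |B| ≤ (H : ℤ) ^ (d - i) := by
    intro i
    by_cases hi : i < d
    · obtain ⟨B, hB⟩ := h6 i hi
      exact ⟨B, fun _ => hB⟩
    · exact ⟨0, fun h => absurd h hi⟩
  choose B hB using h7
  exact ⟨B, ⟨ha, h1, h2, h4, fun i hi => (hB i hi).1⟩, h5, fun i hi => (hB i hi).2⟩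

/-- polynomials with a long cycle -/
theorem cyc_bad {d : ℕ} {a : ℤ} {H : ℕ} (hd : 2 ≤ d) (ha : a ≠ 0) {f : ℚ[X]}
    (hf : f ∈ Fam d a H) {z : ℚ}
    (hz : d < minimalPeriod (fun x => f.eval x) z) : f ∈ Bad d a H 1 := by
  obtain ⟨hc, D, B, hB⟩ := fam_bd ha hf
  set h : ℚ → ℚ := fun x => f.eval x with hh
  have hper : z ∈ periodicPts h := minimalPeriod_pos_iff_mem_periodicPts.1 (by omega)
  have hpre : z ∈ Pre f := Cub.pre_of_periodic hper
  have hne : ∀ i, orb f z (i + 1) ≠ orb f z i := by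
    intro i h0
    rw [orb_succ] at h0
    have h1 : IsFixedPt h (h^[i] z) := h0
    have h2 := minimalPeriod_eq_one_iff_isFixedPt.2 h1
    rw [minimalPeriod_apply_iterate hper] at h2
    omega
  refine ⟨hc, D, B, hB, z, hpre, ?_, hne d, ?_⟩
  · intro i hi j hj hij
    exact iterate_injOn_Iio_minimalPeriod (f := h) (x := z) (Set.mem_Iio.2 (by omega))
      (Set.mem_Iio.2 (by omega)) hij
  · intro s t hs ht
    obtain ⟨Z, hZ, hZH, hdvd⟩ := int_orb hB hd hpre
    have hD1 := hB.dat.D1
    have haq : (a : ℚ) ≠ 0 := by exact_mod_cast ha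
    have hDq : (a * D : ℚ) ≠ 0 := by
      have : D ≠ 0 := by omega
      exact mul_ne_zero haq (by exact_mod_cast this)
    set N := minimalPeriod h z with hN
    have hZZ : ∀ i j, orb f z i = orb f z j → Z i = Z j := by
      intro i j hij
      have : (Z i : ℚ) = Z j := by rw [hZ, hZ, hij]
      exact_mod_cast this
    have hT0 : ∀ i ≤ N, Z (i + 1) - Z i ≠ 0 := by
      intro i _ h0
      have h1 : (a * D : ℚ) * orb f z (i + 1) = a * D * orb f z i := by
        rw [← hZ, ← hZ]
        have : Z (i + 1) = Z i := by linarith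
        rw [this]
      exact hne i (mul_left_cancel₀ hDq h1)
    have hch := fr_chain (T := fun i => Z (i + 1) - Z i) hT0 hdvd N le_rfl d (by omega)
    have e1 : Z N = Z 0 := by
      refine hZZ _ _ ?_
      show h^[N] z = h^[0] z
      rw [hN, iterate_minimalPeriod]
      rfl
    have e2 : Z (N + 1) = Z 1 := by
      refine hZZ _ _ ?_
      show h^[N + 1] z = h^[1] z
      rw [Function.iterate_succ_apply', hN, iterate_minimalPeriod]
      rfl
    simp only [e1, e2] at hch
    have e3 : s = Z 1 - Z 0 := by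
      have : (s : ℚ) = ((Z 1 - Z 0 : ℤ) : ℚ) := by
        rw [hs]
        push_cast
        rw [hZ, hZ]
        ring
      exact_mod_cast this
    have e4 : t = Z (d + 1) - Z d := by
      have : (t : ℚ) = ((Z (d + 1) - Z d : ℤ) : ℚ) := by
        rw [ht]
        push_cast
        rw [hZ, hZ]
        ring
      exact_mod_cast this
    rw [one_mul, e3, e4]
    refine Nat.le_of_dvd ?_ hch
    exact fr_pos (Int.natAbs_pos.2 (by simpa using hT0 0 (by omega)))

/-- the size of the differences -/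
def LL (d : ℕ) (a : ℤ) (H : ℕ) : ℕ := 2 * (d + 1) * (a.natAbs * H)

/-- the growth bound -/
noncomputable def QK (K L : ℕ) : ℕ := ⌊(L : ℝ) ^ (1 / (K : ℝ))⌋₊

lemma QK_lt {K : ℕ} (L : ℕ) (hK : 1 ≤ K) : L < (QK K L + 1) ^ K := by
  have h1 := Nat.lt_floor_add_one ((L : ℝ) ^ (1 / (K : ℝ)))
  have h0 : (0 : ℝ) ≤ (L : ℝ) := Nat.cast_nonneg _
  have hK0 : (K : ℝ) ≠ 0 := by
    have : K ≠ 0 := by omega
    exact_mod_cast this
  have h2 : (L : ℝ) = ((L : ℝ) ^ (1 / (K : ℝ))) ^ K := by
    rw [← Real.rpow_natCast, ← Real.rpow_mul h0, one_div, inv_mul_cancel₀ hK0, Real.rpow_one]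
  have h3 : ((L : ℝ) ^ (1 / (K : ℝ))) ^ K < ((QK K L : ℝ) + 1) ^ K := by
    refine pow_lt_pow_left₀ ?_ (Real.rpow_nonneg h0 _) (by omega)
    unfold QK
    exact h1
  rw [← h2] at h3
  exact_mod_cast h3

/-- polynomials with a long orbit -/
theorem orb_bad {d : ℕ} {a : ℤ} {H K : ℕ} (hd : 2 ≤ d) (ha : a ≠ 0) (hK : 1 ≤ K) {f : ℚ[X]}
    (hf : f ∈ Fam d a H) {z : ℚ} (hz : z ∈ Pre f)
    (hinj : ∀ i ≤ K * d + 1, ∀ j ≤ K * d + 1, orb f z i = orb f z j → i = j) :
    f ∈ Bad d a H (QK K (LL d a H)) := by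
  obtain ⟨hc, D, B, hB⟩ := fam_bd ha hf
  obtain ⟨Z, hZ, hZH, hdvd⟩ := int_orb hB hd hz
  have hD1 := hB.dat.D1
  have haq : (a : ℚ) ≠ 0 := by exact_mod_cast ha
  have hDq : (a * D : ℚ) ≠ 0 := by
    have : D ≠ 0 := by omega
    exact mul_ne_zero haq (by exact_mod_cast this)
  have hT0 : ∀ i ≤ K * d, Z (i + 1) - Z i ≠ 0 := by
    intro i hi h0
    have h1 : (a * D : ℚ) * orb f z (i + 1) = a * D * orb f z i := by
      rw [← hZ, ← hZ]
      have : Z (i + 1) = Z i := by linarith
      rw [this]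
    have := hinj (i + 1) (by omega) i (by omega) (mul_left_cancel₀ hDq h1)
    omega
  set n : ℕ → ℕ := fun i => fr (a.natAbs * D) (Z (i + 1) - Z i).natAbs with hn
  have hn1 : ∀ i ≤ K * d, 1 ≤ n i := fun i hi => fr_pos (Int.natAbs_pos.2 (hT0 i hi))
  have hnK : n (K * d) ≤ LL d a H := by
    have h1 : n (K * d) ≤ (Z (K * d + 1) - Z (K * d)).natAbs :=
      fr_le (Int.natAbs_pos.2 (hT0 (K * d) le_rfl))
    have h2 := hZH (K * d)
    have h3 := hZH (K * d + 1)
    have h4 := abs_sub (Z (K * d + 1)) (Z (K * d))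
    have h5 : ((Z (K * d + 1) - Z (K * d)).natAbs : ℤ) ≤ ((LL d a H : ℕ) : ℤ) := by
      unfold LL
      rw [Int.natCast_natAbs]
      push_cast at h2 h3 ⊢
      linarith
    have h6 : (Z (K * d + 1) - Z (K * d)).natAbs ≤ LL d a H := by exact_mod_cast h5
    exact h1.trans h6
  have hex : ∃ k < K, n (k * d + d) ≤ QK K (LL d a H) * n (k * d) := by
    by_contra hcon
    push Not at hcon
    have hch := fr_chain (T := fun i => Z (i + 1) - Z i) hT0 hdvd
    have hgrow : ∀ k ≤ K, (QK K (LL d a H) + 1) ^ k ≤ n (k * d) := by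
      intro k
      induction k with
      | zero =>
        intro _
        rw [pow_zero]
        exact hn1 _ (Nat.mul_le_mul_right _ (by omega))
      | succ k ih =>
        intro hk
        have h1 := ih (by omega)
        have h2 := hcon k (by omega)
        have h3 : k * d + d ≤ K * d := by
          calc k * d + d = (k + 1) * d := by ring
            _ ≤ K * d := Nat.mul_le_mul_right _ hk
        obtain ⟨w, hw⟩ := hch (k * d + d) h3 (k * d) (by omega)
        have hw' : n (k * d + d) = n (k * d) * w := hw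
        have h4 : QK K (LL d a H) < w := by
          rw [hw', mul_comm] at h2
          exact lt_of_mul_lt_mul_left h2 (Nat.zero_le _)
        have h5 : (k + 1) * d = k * d + d := by ring
        rw [h5, hw', pow_succ]
        exact Nat.mul_le_mul h1 h4
    have h1 := hgrow K le_rfl
    have h2 := QK_lt (K := K) (LL d a H) hK
    omega
  obtain ⟨k, hk, hkn⟩ := hex
  have hkK : k * d + d ≤ K * d := by
    calc k * d + d = (k + 1) * d := by ring
      _ ≤ K * d := Nat.mul_le_mul_right _ hk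
  refine ⟨hc, D, B, hB, orb f z (k * d), orb_pre hz _, ?_, ?_, ?_⟩
  · intro i hi j hj hij
    rw [orb_orb, orb_orb] at hij
    have := hinj (k * d + i) (by omega) (k * d + j) (by omega) hij
    omega
  · rw [orb_orb, orb_orb]
    intro h0
    have := hinj (k * d + (d + 1)) (by omega) (k * d + d) (by omega) h0
    omega
  · intro s t hs ht
    rw [orb_orb, orb_orb] at hs ht
    have e3 : s = Z (k * d + 1) - Z (k * d) := by
      have : (s : ℚ) = ((Z (k * d + 1) - Z (k * d) : ℤ) : ℚ) := by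
        rw [hs]
        push_cast
        rw [hZ, hZ, add_zero]
        ring
      exact_mod_cast this
    have e4 : t = Z (k * d + d + 1) - Z (k * d + d) := by
      have : (t : ℚ) = ((Z (k * d + d + 1) - Z (k * d + d) : ℤ) : ℚ) := by
        rw [ht]
        push_cast
        rw [hZ, hZ, ← add_assoc]
        ring
      exact_mod_cast this
    rw [e3, e4]
    exact hkn

/-- distinct points from a large orbit -/
lemma inj_of_orbit {f : ℚ[X]} {z : ℚ} {m : ℕ} (h : m < (Set.range (orb f z)).ncard) :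
    ∀ i ≤ m, ∀ j ≤ m, orb f z i = orb f z j → i = j := by
  have key : ∀ i j, i < j → j ≤ m → orb f z i ≠ orb f z j := by
    intro i j hij hj h0
    have h1 : ∀ k, ∃ k' < j, orb f z k = orb f z k' := by
      intro k
      induction k using Nat.strong_induction_on with
      | _ k ih =>
        rcases Nat.lt_or_ge k j with h1 | h1
        · exact ⟨k, h1, rfl⟩
        · obtain ⟨k', e1, e2⟩ := ih (i + (k - j)) (by omega)
          refine ⟨k', e1, ?_⟩
          rw [← e2, ← orb_orb, h0, orb_orb]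
          congr 1
          omega
    have h2 : Set.range (orb f z) ⊆ orb f z '' (Set.Iio j) := by
      rintro _ ⟨k, rfl⟩
      obtain ⟨k', e1, e2⟩ := h1 k
      exact ⟨k', e1, e2.symm⟩
    have h3 := Set.ncard_le_ncard h2 ((Set.finite_Iio j).image _)
    have h4 := Set.ncard_image_le (f := orb f z) (Set.finite_Iio j)
    have h5 : (Set.Iio j).ncard = j := by
      rw [← Finset.coe_Iio, Set.ncard_coe_finset, Nat.card_Iio]
    omega
  intro i hi j hj h0
  rcases lt_trichotomy i j with h1 | h1 | h1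
  · exact absurd h0 (key i j h1 hj)
  · exact h1
  · exact absurd h0.symm (key j i h1 hi)

/-- many preperiodic points give a long orbit -/
theorem exists_long {d : ℕ} (hd : 2 ≤ d) {f : ℚ[X]} (hdeg : f.natDegree = d) {m : ℕ}
    (h : ((m * d ^ m : ℕ) : ℕ∞) < (Pre f).encard) :
    ∃ z ∈ Pre f, ∀ i ≤ m, ∀ j ≤ m, orb f z i = orb f z j → i = j := by
  classical
  by_contra hcon
  push Not at hcon
  set P : ℕ → ℚ[X] := fun k => f.comp^[k] X with hP
  have hPe : ∀ k z, (P k).eval z = orb f z k := by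
    intro k z
    rw [hP]
    simp only
    rw [Polynomial.iterate_comp_eval, Polynomial.eval_X]
    rfl
  have hPd : ∀ k, (P k).natDegree = d ^ k := by
    intro k
    rw [hP]
    simp only
    rw [Polynomial.natDegree_iterate_comp, hdeg, Polynomial.natDegree_X, mul_one]
  have hlt : ∀ k < m, d ^ k < d ^ m := fun k hk => Nat.pow_lt_pow_right (by omega) hk
  have hsub : Pre f ⊆ (((Finset.range m).biUnion fun k => (P m - P k).roots.toFinset : Finset ℚ) :
      Set ℚ) := by
    intro z hz
    obtain ⟨i, hi, j, hj, e1, e2⟩ := hcon z hz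
    have key : ∀ i j, i < j → j ≤ m → orb f z i = orb f z j → z ∈
        (((Finset.range m).biUnion fun k => (P m - P k).roots.toFinset : Finset ℚ) : Set ℚ) := by
      intro i j hij hj h0
      rw [Finset.mem_coe, Finset.mem_biUnion]
      refine ⟨i + (m - j), Finset.mem_range.2 (by omega), ?_⟩
      rw [Multiset.mem_toFinset, Polynomial.mem_roots]
      · rw [Polynomial.IsRoot.def, Polynomial.eval_sub, hPe, hPe, ← orb_orb f z i, h0, orb_orb,
          sub_eq_zero]
        congr 1
        omega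
      · intro h1
        have h2 := congrArg Polynomial.natDegree (sub_eq_zero.1 h1)
        rw [hPd, hPd] at h2
        have := hlt (i + (m - j)) (by omega)
        omega
    rcases lt_trichotomy i j with h1 | h1 | h1
    · exact key i j h1 hj e1
    · exact absurd h1 e2
    · exact key j i h1 hi e1.symm
  have h1 := Set.encard_le_encard hsub
  rw [Set.encard_coe_eq_coe_finsetCard] at h1
  have h2 : ((Finset.range m).biUnion fun k => (P m - P k).roots.toFinset).card ≤ m * d ^ m := by
    refine Finset.card_biUnion_le.trans ?_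
    have h3 : ∀ k ∈ Finset.range m, ((P m - P k).roots.toFinset).card ≤ d ^ m := by
      intro k hk
      refine (Multiset.toFinset_card_le _).trans ((Polynomial.card_roots' _).trans ?_)
      refine (Polynomial.natDegree_sub_le _ _).trans ?_
      rw [hPd, hPd]
      exact max_le le_rfl (hlt k (Finset.mem_range.1 hk)).le
    refine (Finset.sum_le_card_nsmul _ _ _ h3).trans ?_
    rw [Finset.card_range, smul_eq_mul]
  have h3 : (((Finset.range m).biUnion fun k => (P m - P k).roots.toFinset).card : ℕ∞) ≤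
      ((m * d ^ m : ℕ) : ℕ∞) := by exact_mod_cast h2
  exact absurd (h.trans_le (h1.trans h3)) (lt_irrefl _)

end Pool.Agent.X12.Pg
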