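import Pool.Agent.X12.Thue

/-!
# A sign in the arithmetic of `ℚ(√6)` and `ℚ(√-3)`
-/

set_option autoImplicit false

namespace Pool.Agent.X12

open Finset

lemma even_val {q : ℕ} (hq : q.Prime) (h8 : q % 8 = 5 ∨ q % 8 = 7) (v b : ℤ) (hb : b ≠ 0) :
    Even (padicValNat q (v ^ 2 + 2 * b ^ 2).natAbs) := by
  have : Fact q.Prime := ⟨hq⟩
  have hq2 : q ≠ 2 := by rintro rfl; omega
  induction hk : b.natAbs using Nat.strong_induction_on generalizing v b with
  | _ k ih =>
    by_cases hd : (q : ℤ) ∣ v ^ 2 + 2 * b ^ 2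
    · have hb' : (q : ℤ) ∣ b := by
        by_contra hnb
        have h1 : (v : ZMod q) ^ 2 + 2 * (b : ZMod q) ^ 2 = 0 := by
          rw [← ZMod.intCast_zmod_eq_zero_iff_dvd] at hd
          push_cast at hd
          exact hd
        have hb0 : (b : ZMod q) ≠ 0 := by
          intro h
          exact hnb ((ZMod.intCast_zmod_eq_zero_iff_dvd b q).1 h)
        have h2 : IsSquare (-2 : ZMod q) := by
          refine ⟨(v : ZMod q) / b, ?_⟩
          field_simp
          linear_combination - h1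
        have h3 := (ZMod.exists_sq_eq_neg_two_iff hq2).1 h2
        omega
      have hv' : (q : ℤ) ∣ v := by
        have h1 : (q : ℤ) ∣ v ^ 2 := by
          have h2 : (q : ℤ) ∣ 2 * b ^ 2 := Dvd.dvd.mul_left (dvd_pow hb' two_ne_zero) _
          exact (Int.dvd_add_left h2).1 hd
        exact (Nat.prime_iff_prime_int.1 hq).dvd_of_dvd_pow h1
      obtain ⟨b', rfl⟩ := hb'
      obtain ⟨v', rfl⟩ := hv'
      have hb0 : b' ≠ 0 := by rintro rfl; simp at hb
      have e : (q * v' : ℤ) ^ 2 + 2 * (q * b') ^ 2 = q ^ 2 * (v' ^ 2 + 2 * b' ^ 2) := by ring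
      have hpos : 0 < v' ^ 2 + 2 * b' ^ 2 := by positivity
      rw [e, Int.natAbs_mul, Int.natAbs_pow, Int.natAbs_natCast,
        padicValNat.mul (pow_ne_zero 2 hq.ne_zero) (Int.natAbs_ne_zero.2 hpos.ne'),
        padicValNat.prime_pow]
      refine Even.add (by norm_num) (ih b'.natAbs ?_ v' b' hb0 rfl)
      rw [← hk, Int.natAbs_mul, Int.natAbs_natCast]
      have h1 : 0 < b'.natAbs := Int.natAbs_pos.2 hb0
      have h2 := hq.two_le
      nlinarith
    · rw [padicValNat.eq_zero_of_not_dvd]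
      · exact Even.zero
      · intro h
        exact hd (Int.natCast_dvd.2 h)

/-- the submonoid `{1, 3}` modulo `8` -/
def Sub13 : Submonoid (ZMod 8) where
  carrier := {x | x = 1 ∨ x = 3}
  mul_mem' := by
    rintro a b (rfl | rfl) (rfl | rfl)
    · left; rfl
    · right; rfl
    · right; rfl
    · left; rfl
  one_mem' := Or.inl rfl

lemma mod_eight_of_even {A : ℕ} (hA : A % 2 = 1)
    (h : ∀ q : ℕ, q.Prime → q ∣ A → (q % 8 = 5 ∨ q % 8 = 7) → Even (padicValNat q A)) :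
    A % 8 = 1 ∨ A % 8 = 3 := by
  have hA0 : A ≠ 0 := by rintro rfl; norm_num at hA
  have h1 : ((A : ℕ) : ZMod 8) ∈ Sub13 := by
    rw [← Nat.prod_factorization_pow_eq_self hA0, Finsupp.prod, Nat.cast_prod]
    refine Submonoid.prod_mem _ fun q hq => ?_
    have hqp : q.Prime := Nat.prime_of_mem_primeFactors (by simpa using hq)
    have hqd : q ∣ A := Nat.dvd_of_mem_primeFactors (by simpa using hq)
    have hodd : q % 2 = 1 := by
      obtain ⟨c, rfl⟩ := hqd
      rcases (by omega : q % 2 = 0 ∨ q % 2 = 1) with h2 | h2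
      · rw [Nat.mul_mod, h2] at hA
        norm_num at hA
      · exact h2
    rw [Nat.cast_pow]
    have hq8 : q % 8 = 1 ∨ q % 8 = 3 ∨ q % 8 = 5 ∨ q % 8 = 7 := by omega
    have hcast : (q : ZMod 8) = ((q % 8 : ℕ) : ZMod 8) := (ZMod.natCast_mod q 8).symm
    rcases hq8 with h2 | h2 | h2 | h2
    · exact Submonoid.pow_mem _ (by rw [hcast, h2]; left; rfl) _
    · exact Submonoid.pow_mem _ (by rw [hcast, h2]; right; rfl) _
    · obtain ⟨k, hk⟩ := h q hqp hqd (Or.inl h2)
      rw [Nat.factorization_def _ hqp, hk, ← two_mul, pow_mul]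
      refine Submonoid.pow_mem _ ?_ _
      rw [hcast, h2]; left; rfl
    · obtain ⟨k, hk⟩ := h q hqp hqd (Or.inr h2)
      rw [Nat.factorization_def _ hqp, hk, ← two_mul, pow_mul]
      refine Submonoid.pow_mem _ ?_ _
      rw [hcast, h2]; left; rfl
  have h2 : ((A % 8 : ℕ) : ZMod 8) ∈ Sub13 := by rw [ZMod.natCast_mod]; exact h1
  have h3 : A % 8 < 8 := Nat.mod_lt _ (by norm_num)
  interval_cases hh : A % 8
  · exfalso; rcases h2 with h | h <;> revert h <;> decide
  · left; rfl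
  · exfalso; rcases h2 with h | h <;> revert h <;> decide
  · right; rfl
  · exfalso; rcases h2 with h | h <;> revert h <;> decide
  · exfalso; rcases h2 with h | h <;> revert h <;> decide
  · exfalso; rcases h2 with h | h <;> revert h <;> decide
  · exfalso; rcases h2 with h | h <;> revert h <;> decide

/-- the key congruence: `a + u ≡ 1, 3 (mod 8)` -/
lemma mod_eight_sum {p : ℕ} (hp : p.Prime) {a b u v : ℤ} (ha : 0 < a) (hb : b ≠ 0)
    (h1 : (p : ℤ) = a ^ 2 - 6 * b ^ 2) (h2 : (p : ℤ) = u ^ 2 + 3 * v ^ 2) (hodd : (a + u) % 2 = 1) :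
    (a + u) % 8 = 1 ∨ (a + u) % 8 = 3 := by
  have hprod : (a + u) * (a - u) = 3 * (v ^ 2 + 2 * b ^ 2) := by nlinarith
  have hpos : 0 < v ^ 2 + 2 * b ^ 2 := by positivity
  have hau : 0 < a + u ∧ 0 < a - u := by
    have h3 : 0 < (a + u) * (a - u) := by rw [hprod]; positivity
    rcases pos_and_pos_or_neg_and_neg_of_mul_pos h3 with h | h
    · exact h
    · omega
  obtain ⟨A, hA⟩ := Int.eq_ofNat_of_zero_le hau.1.le
  obtain ⟨B, hB⟩ := Int.eq_ofNat_of_zero_le hau.2.le
  have hA0 : A ≠ 0 := by rintro rfl; simp at hA; omega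
  have hB0 : B ≠ 0 := by rintro rfl; simp at hB; omega
  have key := mod_eight_of_even (A := A) (by omega) ?_
  · omega
  intro q hq hqA h8
  have : Fact q.Prime := ⟨hq⟩
  have hq3 : q ≠ 3 := by rintro rfl; omega
  have hq2 : q ≠ 2 := by rintro rfl; omega
  have hqi := Nat.prime_iff_prime_int.1 hq
  have hqA' : (q : ℤ) ∣ a + u := by rw [hA]; exact_mod_cast hqA
  have hqd : (q : ℤ) ∣ v ^ 2 + 2 * b ^ 2 := by
    have h3 : (q : ℤ) ∣ 3 * (v ^ 2 + 2 * b ^ 2) := by rw [← hprod]; exact Dvd.dvd.mul_right hqA' _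
    rcases hqi.dvd_or_dvd h3 with h | h
    · exfalso
      have h4 : q ∣ 3 := by exact_mod_cast h
      exact hq3 ((Nat.prime_dvd_prime_iff_eq hq Nat.prime_three).1 h4)
    · exact h
  have hqb : (q : ℤ) ∣ b := by
    by_contra hnb
    have h3 : (v : ZMod q) ^ 2 + 2 * (b : ZMod q) ^ 2 = 0 := by
      rw [← ZMod.intCast_zmod_eq_zero_iff_dvd] at hqd
      push_cast at hqd
      exact hqd
    have hb0 : (b : ZMod q) ≠ 0 := by
      intro h
      exact hnb ((ZMod.intCast_zmod_eq_zero_iff_dvd b q).1 h)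
    have h4 : IsSquare (-2 : ZMod q) := by
      refine ⟨(v : ZMod q) / b, ?_⟩
      field_simp
      linear_combination - h3
    have h5 := (ZMod.exists_sq_eq_neg_two_iff hq2).1 h4
    omega
  have hqB : ¬ q ∣ B := by
    intro h
    have h3 : (q : ℤ) ∣ a - u := by rw [hB]; exact_mod_cast h
    have h4 : (q : ℤ) ∣ 2 * a := by
      have := dvd_add hqA' h3
      have e : a + u + (a - u) = 2 * a := by ring
      rwa [e] at this
    have h5 : (q : ℤ) ∣ a := by
      rcases hqi.dvd_or_dvd h4 with h | h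
      · exfalso
        have h6 : q ∣ 2 := by exact_mod_cast h
        exact hq2 ((Nat.prime_dvd_prime_iff_eq hq Nat.prime_two).1 h6)
      · exact h
    obtain ⟨a', rfl⟩ := h5
    obtain ⟨b', rfl⟩ := hqb
    have h6 : (q : ℤ) ^ 2 ∣ p := ⟨a' ^ 2 - 6 * b' ^ 2, by rw [h1]; ring⟩
    have h7 : q ^ 2 ∣ p := by exact_mod_cast h6
    have h8 : q ∣ p := dvd_trans (dvd_pow_self q two_ne_zero) h7
    have h9 := (Nat.prime_dvd_prime_iff_eq hq hp).1 h8
    subst h9
    have h10 := Nat.le_of_dvd hq.pos h7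
    have h11 := hq.two_le
    nlinarith
  have h3 : padicValNat q (A * B) = padicValNat q (3 * (v ^ 2 + 2 * b ^ 2).natAbs) := by
    congr 1
    zify
    rw [abs_of_pos hpos, ← hprod, hA, hB]
  rw [padicValNat.mul hA0 hB0, padicValNat.mul (by norm_num) (Int.natAbs_ne_zero.2 hpos.ne'),
    padicValNat.eq_zero_of_not_dvd hqB, add_zero,
    padicValNat.eq_zero_of_not_dvd (n := 3) (fun h => hq3
      ((Nat.prime_dvd_prime_iff_eq hq Nat.prime_three).1 h)), zero_add] at h3
  rw [h3]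
  exact even_val hq h8 v b hb

/-- positive odd numbers under the quadratic character -/
lemma qc_nat {p c : ℕ} [Fact p.Prime] (hp : p % 4 = 3) (hc : c % 2 = 1) :
    qc p (c : ZMod p) = (if c % 4 = 1 then 1 else -1) * jacobiSym p c := by
  have h0 : qc p (c : ZMod p) = jacobiSym c p := by
    rw [← jacobiSym.legendreSym.to_jacobiSym, legendre_eq]
    push_cast
    rfl
  rw [h0]
  by_cases h : c % 4 = 1
  · rw [if_pos h, one_mul]
    exact jacobiSym.quadratic_reciprocity_one_mod_four h (Nat.odd_iff.2 (by omega))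
  · rw [if_neg h]
    have := jacobiSym.quadratic_reciprocity_three_mod_four (a := c) (b := p) (by omega) hp
    rw [this]
    ring

/-- the value of the quadratic character at `2 + √6` -/
lemma sign_six {p : ℕ} [Fact p.Prime] (hp : p % 24 = 19) {x y : ℤ}
    (hxy : (p : ℤ) = (4 * x) ^ 2 + 3 * y ^ 2) {r : ZMod p} (hr : r ^ 2 = 6) :
    qc p (2 + r) = if x % 2 = 0 then -1 else 1 := by
  have hpr := (Fact.out : p.Prime)
  have hp2 : p ≠ 2 := by rintro rfl; omega
  have hp4 : p % 4 = 3 := by omega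
  have hr0 : r ≠ 0 := by
    rintro rfl
    have h6 : ((6 : ℕ) : ZMod p) = 0 := by push_cast; rw [← hr]; ring
    rw [ZMod.natCast_eq_zero_iff] at h6
    have := Nat.le_of_dvd (by norm_num) h6
    omega
  have hq6 : qc p 6 = 1 := by rw [← hr, sq, qc_mul, qc_sq hr0]
  obtain ⟨a, b, hab⟩ := exists_sq_sub_six hp hq6
  -- make both positive
  have hb0 : b ≠ 0 := by
    rintro rfl
    have h2 : IsSquare ((p : ℤ)) := ⟨a, by rw [hab]; ring⟩
    exact (Nat.prime_iff_prime_int.1 hpr).irreducible.not_isSquare h2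
  have ha0 : a ≠ 0 := by
    rintro rfl
    have h2 : 0 < b ^ 2 := by positivity
    have := hpr.pos
    omega
  obtain ⟨a, b, ha, hb, hab⟩ : ∃ a b : ℕ, 0 < a ∧ 0 < b ∧ (p : ℤ) = (a : ℤ) ^ 2 - 6 * (b : ℤ) ^ 2 :=
    ⟨a.natAbs, b.natAbs, Int.natAbs_pos.2 ha0, Int.natAbs_pos.2 hb0, by
      rw [Int.natCast_natAbs, Int.natCast_natAbs, sq_abs, sq_abs, hab]⟩
  clear hb0 ha0
  have sq8 : ∀ w : ℤ, (w ^ 2) % 8 = 0 ∧ w % 2 = 0 ∨ (w ^ 2) % 8 = 1 ∧ w % 2 = 1 ∨
      (w ^ 2) % 8 = 4 ∧ w % 2 = 0 := by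
    intro w
    rcases (by omega : w % 8 = 0 ∨ w % 8 = 1 ∨ w % 8 = 2 ∨ w % 8 = 3 ∨ w % 8 = 4 ∨ w % 8 = 5 ∨
      w % 8 = 6 ∨ w % 8 = 7) with h | h | h | h | h | h | h | h
    · left; exact ⟨by simp [sq, Int.mul_emod, h], by omega⟩
    · right; left; exact ⟨by simp [sq, Int.mul_emod, h], by omega⟩
    · right; right; exact ⟨by simp [sq, Int.mul_emod, h], by omega⟩
    · right; left; exact ⟨by simp [sq, Int.mul_emod, h], by omega⟩
    · left; exact ⟨by simp [sq, Int.mul_emod, h], by omega⟩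
    · right; left; exact ⟨by simp [sq, Int.mul_emod, h], by omega⟩
    · right; right; exact ⟨by simp [sq, Int.mul_emod, h], by omega⟩
    · right; left; exact ⟨by simp [sq, Int.mul_emod, h], by omega⟩
  have haodd : (a : ℤ) % 2 = 1 := by
    have h1 := sq8 a
    have h2 := sq8 b
    omega
  have hbodd : (b : ℤ) % 2 = 1 := by
    have h1 := sq8 a
    have h2 := sq8 b
    omega
  -- the congruence for `a`
  have hax : ((a : ℤ) + 4 * x) % 8 = 1 ∨ ((a : ℤ) + 4 * x) % 8 = 3 :=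
    mod_eight_sum hpr (by exact_mod_cast ha) (by exact_mod_cast hb.ne') hab hxy (by omega)
  -- `c = a - 2 b`
  have hc : 2 * b < a := by
    by_contra hcon
    push Not at hcon
    have h1 : (a : ℤ) ≤ 2 * b := by exact_mod_cast hcon
    have h2 : (a : ℤ) ^ 2 ≤ (2 * b) ^ 2 := pow_le_pow_left₀ (by positivity) h1 2
    have h3 : (0 : ℤ) < (b : ℤ) ^ 2 := by positivity
    have h4 := hpr.pos
    nlinarith
  obtain ⟨c, hc⟩ : ∃ c, a = c + 2 * b := ⟨a - 2 * b, by omega⟩
  have hcop : IsCoprime (a : ℤ) (b : ℤ) := by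
    rw [Int.isCoprime_iff_gcd_eq_one, Int.gcd_natCast_natCast]
    by_contra hg
    obtain ⟨q, hq, hqd⟩ := Nat.exists_prime_and_dvd hg
    have h1 : (q : ℤ) ∣ a := by exact_mod_cast dvd_trans hqd (Nat.gcd_dvd_left a b)
    have h2 : (q : ℤ) ∣ b := by exact_mod_cast dvd_trans hqd (Nat.gcd_dvd_right a b)
    obtain ⟨a', ha'⟩ := h1
    obtain ⟨b', hb'⟩ := h2
    have h6 : (q : ℤ) ^ 2 ∣ p := ⟨a' ^ 2 - 6 * b' ^ 2, by rw [hab, ha', hb']; ring⟩
    have h7 : q ^ 2 ∣ p := by exact_mod_cast h6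
    have h8 : q ∣ p := dvd_trans (dvd_pow_self q two_ne_zero) h7
    have h9 := (Nat.prime_dvd_prime_iff_eq hq hpr).1 h8
    subst h9
    have h10 := Nat.le_of_dvd hq.pos h7
    have h11 := hq.two_le
    nlinarith
  have hbp : (b : ZMod p) ≠ 0 := by
    intro h
    rw [ZMod.natCast_eq_zero_iff] at h
    have h1 : (p : ℤ) ∣ b := by exact_mod_cast h
    have h2 : (p : ℤ) ∣ (a : ℤ) ^ 2 := by
      have e : (a : ℤ) ^ 2 = p + 6 * (b : ℤ) ^ 2 := by rw [hab]; ring
      rw [e]
      exact dvd_add dvd_rfl (Dvd.dvd.mul_left (dvd_pow h1 two_ne_zero) _)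
    have h3 := (Nat.prime_iff_prime_int.1 hpr).dvd_of_dvd_pow h2
    obtain ⟨s, t, hst⟩ := hcop
    have h4 : (p : ℤ) ∣ 1 := by
      rw [← hst]
      exact dvd_add (Dvd.dvd.mul_left h3 _) (Dvd.dvd.mul_left h1 _)
    have h5 : p ∣ 1 := by exact_mod_cast h4
    exact hpr.one_lt.ne' (Nat.dvd_one.1 h5)
  -- the characters of `b` and `c`
  have hJb : jacobiSym p b = 1 := by
    have e : jacobiSym p b = jacobiSym ((a : ℤ) ^ 2) b := by
      rw [jacobiSym.mod_left, jacobiSym.mod_left ((a : ℤ) ^ 2)]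
      congr 1
      rw [hab]
      have : (a : ℤ) ^ 2 - 6 * (b : ℤ) ^ 2 = (a : ℤ) ^ 2 + b * (- 6 * b) := by ring
      rw [this, Int.add_mul_emod_self_left]
    rw [e]
    exact jacobiSym.sq_one' (by rw [← Int.isCoprime_iff_gcd_eq_one]; exact hcop)
  have hcopc : IsCoprime (b : ℤ) (c : ℤ) := by
    have : (c : ℤ) = a - 2 * b := by rw [hc]; push_cast; ring
    rw [this]
    obtain ⟨s, t, hst⟩ := hcop
    exact ⟨t + 2 * s, s, by linear_combination hst⟩
  have hcodd : c % 2 = 1 := by omega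
  have hJc : jacobiSym p c = jacobiSym (-2) c := by
    have e : jacobiSym p c = jacobiSym (-2 * (b : ℤ) ^ 2) c := by
      rw [jacobiSym.mod_left, jacobiSym.mod_left (-2 * (b : ℤ) ^ 2)]
      congr 1
      rw [hab, hc]
      push_cast
      have : ((c : ℤ) + 2 * b) ^ 2 - 6 * (b : ℤ) ^ 2 = -2 * (b : ℤ) ^ 2 + c * (c + 4 * b) := by ring
      rw [this, Int.add_mul_emod_self_left]
    rw [e, jacobiSym.mul_left, jacobiSym.sq_one' (by rw [← Int.isCoprime_iff_gcd_eq_one]; exact hcopc),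
      mul_one]
  have hqb := qc_nat (p := p) hp4 (c := b) (by omega)
  have hqc := qc_nat (p := p) hp4 hcodd
  rw [hJb, mul_one] at hqb
  rw [hJc, jacobiSym.at_neg_two (Nat.odd_iff.2 hcodd)] at hqc
  -- both roots of `6` give the same value
  have hprod : qc p (-2) = 1 := by
    have h1 : qc p (-2) = 1 ↔ p % 8 = 1 ∨ p % 8 = 3 := by
      have h0 : (-2 : ZMod p) ≠ 0 := by
        intro h
        have h2 : ((2 : ℕ) : ZMod p) = 0 := by push_cast; rw [← neg_eq_zero]; exact h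
        rw [ZMod.natCast_eq_zero_iff] at h2
        have := Nat.le_of_dvd (by norm_num) h2
        omega
      rw [quadraticChar_one_iff_isSquare h0]
      exact ZMod.exists_sq_eq_neg_two_iff hp2
    exact h1.2 (by omega)
  have hpm : qc p (2 + r) = qc p (2 - r) := by
    have h1 : qc p (2 + r) * qc p (2 - r) = 1 := by
      rw [← qc_mul, ← hprod]
      congr 1
      linear_combination - hr
    have hne : (2 + r : ZMod p) ≠ 0 := by
      intro h
      rw [h, qc_zero] at h1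
      norm_num at h1
    have hd : qc p (2 + r) = 1 ∨ qc p (2 + r) = -1 := quadraticChar_dichotomy hne
    rcases hd with h | h <;> rw [h] at h1 ⊢ <;> omega
  have hab2 : (r * b) ^ 2 = (a : ZMod p) ^ 2 := by
    have h1 : ((p : ℤ) : ZMod p) = (((a : ℤ) ^ 2 - 6 * (b : ℤ) ^ 2 : ℤ) : ZMod p) := by rw [← hab]
    push_cast at h1
    rw [ZMod.natCast_self] at h1
    rw [mul_pow, hr]
    linear_combination h1
  have hmain : qc p (2 + r) = - (qc p b * qc p c) := by
    have hcz : (c : ZMod p) = a - 2 * b := by rw [hc]; push_cast; ring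
    have hm1 := qc_neg_one_of_three (p := p) hp4
    rcases sq_eq_sq_iff_eq_or_eq_neg.1 hab2 with h | h
    · rw [hpm]
      have e : (2 - r) * ((b : ZMod p) * b) = (-1) * (b * c) := by
        rw [hcz]; linear_combination (- (b : ZMod p)) * h
      have h1 := congrArg (qc p) e
      rw [qc_mul, qc_mul, qc_sq hbp, mul_one, qc_mul, qc_mul, hm1] at h1
      rw [h1]; ring
    · have e : (2 + r) * ((b : ZMod p) * b) = (-1) * (b * c) := by
        rw [hcz]; linear_combination ((b : ZMod p)) * h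
      have h1 := congrArg (qc p) e
      rw [qc_mul, qc_mul, qc_sq hbp, mul_one, qc_mul, qc_mul, hm1] at h1
      rw [h1]; ring
  rw [hmain, hqb, hqc]
  have hχ : ZMod.χ₈' (c : ZMod 8) = if c % 8 = 1 ∨ c % 8 = 3 then 1 else -1 := by
    have := ZMod.χ₈'_nat_eq_if_mod_eight c
    rw [this, if_neg (by omega)]
  rw [hχ]
  have hc8 : c % 8 = 1 ∨ c % 8 = 3 ∨ c % 8 = 5 ∨ c % 8 = 7 := by omega
  have hb4 : b % 4 = 1 ∨ b % 4 = 3 := by omega
  have hx2 : x % 2 = 0 ∨ x % 2 = 1 := by omega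
  rcases hc8 with h1 | h1 | h1 | h1 <;> rcases hb4 with h2 | h2 <;> rcases hx2 with h3 | h3 <;>
    simp only [h1, h2, h3] <;> norm_num <;> omega

end Pool.Agent.X12
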