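import Pool.Agent.X12.Leg

/-!
# The product over the quadratic residues
-/

set_option autoImplicit false

namespace Pool.Agent.X12

open Polynomial Finset Complex

/-- The product over the powers of a primitive root of unity. -/
lemma prod_range_root {n : ℕ} (hn : 0 < n) {η : ℂ} (h : IsPrimitiveRoot η n) (x : ℂ) :
    ∏ i ∈ range n, (x - η ^ i) = x ^ n - 1 := by
  classical
  have h1 := X_pow_sub_one_eq_prod hn h
  have h2 : nthRootsFinset n (1 : ℂ) = (range n).image (fun i => η ^ i) := by
    symm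
    apply Finset.eq_of_subset_of_card_le
    · intro y hy
      obtain ⟨i, -, rfl⟩ := Finset.mem_image.1 hy
      rw [Polynomial.mem_nthRootsFinset hn, ← pow_mul, mul_comm, pow_mul, h.pow_eq_one, one_pow]
    · rw [h.card_nthRootsFinset, Finset.card_image_of_injOn, Finset.card_range]
      intro i hi j hj hij
      exact h.pow_inj (Finset.mem_range.1 hi) (Finset.mem_range.1 hj) hij
  rw [h2, Finset.prod_image] at h1
  · have h3 := congrArg (eval x) h1
    rw [eval_prod] at h3
    simp only [eval_sub, eval_pow, eval_X, eval_one, eval_C] at h3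
    exact h3.symm
  · intro i hi j hj hij
    exact h.pow_inj (Finset.mem_range.1 hi) (Finset.mem_range.1 hj) hij

section

variable {p : ℕ} [Fact p.Prime]

/-- the additive character `a ↦ exp (2 π i a / p)` -/
noncomputable abbrev ps (p : ℕ) [Fact p.Prime] (a : ZMod p) : ℂ := ZMod.stdAddChar a

lemma ps_nat (k : ℕ) : ps p (k : ZMod p) = exp (2 * Real.pi * I * k / p) := by
  have := ZMod.stdAddChar_coe (N := p) (k : ℤ)
  push_cast at this
  exact this

lemma ps_mul_neg (a : ZMod p) : ps p a * ps p (-a) = 1 := by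
  unfold ps
  rw [← AddChar.map_add_eq_mul, add_neg_cancel, AddChar.map_zero_eq_one]

lemma ps_zero : ps p 0 = 1 := AddChar.map_zero_eq_one _

lemma ps_inj {a b : ZMod p} (h : ps p a = ps p b) : a = b := ZMod.injective_stdAddChar h

lemma ps_add (a b : ZMod p) : ps p (a + b) = ps p a * ps p b := AddChar.map_add_eq_mul _ _ _

lemma ps_five (a : ZMod p) : ps p (5 * a) = ps p a ^ 5 := by
  have : (5 : ZMod p) * a = 5 • a := by rw [nsmul_eq_mul]; norm_num
  unfold ps
  rw [this, AddChar.map_nsmul_eq_pow]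

lemma ps_two (a : ZMod p) : ps p (2 * a) = ps p a ^ 2 := by
  have : (2 : ZMod p) * a = 2 • a := by rw [nsmul_eq_mul]; norm_num
  unfold ps
  rw [this, AddChar.map_nsmul_eq_pow]

/-- the product over all residues -/
lemma prod_all (x : ℂ) : ∏ a : ZMod p, (x - ps p a) = x ^ p - 1 := by
  have hp := (Fact.out : p.Prime)
  have hr : IsPrimitiveRoot (exp (2 * Real.pi * I / p)) p :=
    Complex.isPrimitiveRoot_exp p hp.ne_zero
  rw [← prod_range_root hp.pos hr x]
  refine Finset.prod_nbij' (fun k => k.val) (fun i => (i : ZMod p)) ?_ ?_ ?_ ?_ ?_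
  · intro k _; exact Finset.mem_range.2 (ZMod.val_lt k)
  · intro i _; exact Finset.mem_univ _
  · intro k _; exact ZMod.natCast_zmod_val k
  · intro i hi; exact ZMod.val_cast_of_lt (Finset.mem_range.1 hi)
  · intro k _
    congr 1
    conv_lhs => rw [← ZMod.natCast_zmod_val k]
    rw [ps_nat, ← Complex.exp_nat_mul]
    congr 1
    ring

/-- the product over the quadratic residues -/
noncomputable def SQ (p : ℕ) [Fact p.Prime] (x : ℂ) : ℂ :=
  ∏ a : ZMod p, if qc p a = 1 then x - ps p a else 1

/-- the product over the quadratic nonresidues -/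
noncomputable def SN (p : ℕ) [Fact p.Prime] (x : ℂ) : ℂ :=
  ∏ a : ZMod p, if qc p a = -1 then x - ps p a else 1

lemma qc_cases {a : ZMod p} (ha : a ≠ 0) : qc p a = 1 ∨ qc p a = -1 := quadraticChar_dichotomy ha

lemma SQ_mul_SN (x : ℂ) : SQ p x * SN p x * (x - 1) = x ^ p - 1 := by
  rw [← prod_all, SQ, SN, ← Finset.prod_mul_distrib,
    ← Finset.mul_prod_erase Finset.univ (fun a => x - ps p a) (Finset.mem_univ 0),
    ← Finset.mul_prod_erase Finset.univ _ (Finset.mem_univ (0 : ZMod p)), ps_zero]
  rw [qc_zero, if_neg (by norm_num), if_neg (by norm_num), mul_one, one_mul, mul_comm]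
  congr 1
  refine Finset.prod_congr rfl fun a ha => ?_
  rcases qc_cases (Finset.ne_of_mem_erase ha) with h | h
  · rw [h, if_pos rfl, if_neg (by norm_num), mul_one]
  · rw [h, if_neg (by norm_num), if_pos rfl, one_mul]

/-- Products over `ZMod p` as products over a range. -/
lemma prod_zmod {M : Type*} [CommMonoid M] (f : ZMod p → M) :
    ∏ k : ZMod p, f k = ∏ i ∈ range p, f (i : ZMod p) := by
  refine Finset.prod_nbij' (fun k => k.val) (fun i => (i : ZMod p)) ?_ ?_ ?_ ?_ ?_
  · intro k _; exact Finset.mem_range.2 (ZMod.val_lt k)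
  · intro i _; exact Finset.mem_univ _
  · intro k _; exact ZMod.natCast_zmod_val k
  · intro i hi; exact ZMod.val_cast_of_lt (Finset.mem_range.1 hi)
  · intro k _; rw [ZMod.natCast_zmod_val]

/-- The product over all residues through the half system `1, …, n`. -/
lemma prod_half {M : Type*} [CommMonoid M] {n : ℕ} (hn : p = 2 * n + 1) (f : ZMod p → M) :
    ∏ k : ZMod p, f k = f 0 * ∏ i ∈ range n, (f ((i : ZMod p) + 1) * f (-((i : ZMod p) + 1))) := by
  rw [prod_zmod, show range p = range (2 * n + 1) by rw [hn], Finset.prod_range_succ',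
    Nat.cast_zero, mul_comm, Finset.prod_mul_distrib]
  congr 1
  rw [two_mul, Finset.prod_range_add]
  congr 1
  · refine Finset.prod_congr rfl fun i _ => ?_
    push_cast; rfl
  · rw [← Finset.prod_range_reflect]
    refine Finset.prod_congr rfl fun i hi => ?_
    congr 1
    have hi' := Finset.mem_range.1 hi
    have h0 : ((2 * n + 1 : ℕ) : ZMod p) = 0 := by rw [← hn]; exact ZMod.natCast_self p
    have h1 : n + (n - 1 - i) + 1 + (i + 1) = 2 * n + 1 := by omega
    rw [← h1] at h0
    push_cast at h0 ⊢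
    linear_combination h0

/-- The set of the squares `1², …, n²` is the set of the quadratic residues. -/
lemma prod_squares {M : Type*} [CommMonoid M] {n : ℕ} (hn : p = 2 * n + 1) (f : ZMod p → M) :
    ∏ k ∈ Icc 1 n, f ((k : ZMod p) ^ 2) = ∏ a : ZMod p, if qc p a = 1 then f a else 1 := by
  rw [← Finset.prod_filter]
  refine Finset.prod_bij (fun k _ => (k : ZMod p) ^ 2) ?_ ?_ ?_ ?_
  · intro k hk
    have hk' := Finset.mem_Icc.1 hk
    rw [Finset.mem_filter]
    refine ⟨Finset.mem_univ _, ?_⟩
    have h0 : (k : ZMod p) ≠ 0 := by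
      intro h
      rw [ZMod.natCast_eq_zero_iff] at h
      have := Nat.le_of_dvd (by omega) h
      omega
    rw [sq, qc_mul, qc_sq h0]
  · intro k hk l hl h
    have hk' := Finset.mem_Icc.1 hk
    have hl' := Finset.mem_Icc.1 hl
    rcases sq_eq_sq_iff_eq_or_eq_neg.1 h with h | h
    · rw [ZMod.natCast_eq_natCast_iff', Nat.mod_eq_of_lt (by omega), Nat.mod_eq_of_lt (by omega)] at h
      exact h
    · exfalso
      have h1 : ((k + l : ℕ) : ZMod p) = 0 := by push_cast; rw [h]; ring
      rw [ZMod.natCast_eq_zero_iff] at h1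
      have := Nat.le_of_dvd (by omega) h1
      omega
  · intro a ha
    have ha1 := (Finset.mem_filter.1 ha).2
    have ha0 : a ≠ 0 := by
      rintro rfl
      rw [qc_zero] at ha1
      norm_num at ha1
    obtain ⟨b, hb⟩ := (quadraticChar_one_iff_isSquare ha0).1 ha1
    have hb0 : b ≠ 0 := by
      rintro rfl
      exact ha0 (by rw [hb, mul_zero])
    have hbv : b.val ≠ 0 := by rwa [Ne, ZMod.val_eq_zero]
    have hlt := ZMod.val_lt b
    by_cases hle : b.val ≤ n
    · refine ⟨b.val, Finset.mem_Icc.2 ⟨by omega, hle⟩, ?_⟩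
      rw [ZMod.natCast_zmod_val, hb, sq]
    · refine ⟨p - b.val, Finset.mem_Icc.2 ⟨by omega, by omega⟩, ?_⟩
      rw [Nat.cast_sub hlt.le, ZMod.natCast_self, ZMod.natCast_zmod_val, hb]
      ring
  · intro k _; rfl

/-- The product of the problem. -/
lemma S_eq_SQ {n : ℕ} (hn : p = 2 * n + 1) (x : ℂ) :
    ∏ k ∈ Icc 1 n, (x - exp (2 * Real.pi * I * (k : ℂ) ^ 2 / p)) = SQ p x := by
  rw [SQ, ← prod_squares hn (fun a => x - ps p a)]
  refine Finset.prod_congr rfl fun k _ => ?_
  have := ps_nat (p := p) (k ^ 2)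
  push_cast at this
  rw [this]

/-- multiplying the residues by a unit -/
lemma prod_mul_unit {M : Type*} [CommMonoid M] {u : ZMod p} (hu : u ≠ 0) (ε : ℤ)
    (f : ZMod p → M) :
    (∏ a : ZMod p, if qc p a = ε then f (u * a) else 1) =
      ∏ a : ZMod p, if qc p a = qc p u * ε then f a else 1 := by
  refine Fintype.prod_equiv (Equiv.mulLeft₀ u hu) _ _ fun a => ?_
  have e : (Equiv.mulLeft₀ u hu) a = u * a := rfl
  rw [e, qc_mul]
  by_cases h : qc p a = ε
  · rw [if_pos h, if_pos (by rw [h])]
  · rw [if_neg h, if_neg]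
    intro h1
    apply h
    have h2 := qc_sq hu
    calc qc p a = (qc p u * qc p u) * qc p a := by rw [h2, one_mul]
      _ = qc p u * (qc p u * qc p a) := by ring
      _ = qc p u * (qc p u * ε) := by rw [h1]
      _ = (qc p u * qc p u) * ε := by ring
      _ = ε := by rw [h2, one_mul]

end

end Pool.Agent.X12
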