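import Pool.Agent.X12.Leg

/-!
# The supersingular character sums attached to `ℚ(√-7)`
-/

set_option autoImplicit false

namespace Pool.Agent.X12

open Finset Polynomial

lemma three_one : (1 : ZMod 3) * (1 ^ 2 + 21 * 1 + 112) = -7 := by decide
lemma three_two : (2 : ZMod 3) * (2 ^ 2 + 21 * 2 + 112) = 1 := by decide

/-- the coefficient of `x ^ n` in `(x² + a x + b) ^ n` -/
noncomputable def An {F : Type*} [Field F] (n : ℕ) (a b : F) : F :=
  ((X ^ 2 + C a * X + C b) ^ n : F[X]).coeff n

lemma An_scale {F : Type*} [Field F] (n : ℕ) {t : F} (ht : t ≠ 0) (a b : F) :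
    An n (t * a) (t ^ 2 * b) = t ^ n * An n a b := by
  have h1 : ((X ^ 2 + C (t * a) * X + C (t ^ 2 * b)) ^ n : F[X]).comp (C t * X) =
      C (t ^ (2 * n)) * (X ^ 2 + C a * X + C b) ^ n := by
    rw [pow_comp]
    have : (X ^ 2 + C (t * a) * X + C (t ^ 2 * b) : F[X]).comp (C t * X) =
        C (t ^ 2) * (X ^ 2 + C a * X + C b) := by
      simp only [add_comp, mul_comp, pow_comp, X_comp, C_comp, C_mul, C_pow]
      ring
    rw [this, mul_pow, ← C_pow, ← pow_mul]
  have h2 := congrArg (fun q : F[X] => q.coeff n) h1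
  simp only [comp_C_mul_X_coeff, coeff_C_mul] at h2
  unfold An
  have h3 : t ^ n ≠ 0 := pow_ne_zero _ ht
  apply mul_right_cancel₀ h3
  rw [h2, two_mul, pow_add]
  ring

lemma An_eq_cubic {F : Type*} [Field F] (n : ℕ) (a b : F) :
    An n a b = ((X * (X ^ 2 + C a * X + C b)) ^ n : F[X]).coeff (2 * n) := by
  rw [mul_pow, mul_comm (X ^ n), two_mul, coeff_mul_X_pow, An]

section

variable {F : Type*} [Field F] {p : ℕ} [Fact p.Prime] [CharP F p]

/-- The coefficient of `x ^ (p - 1)` is invariant under translations. -/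
lemma coeff_comp_add (g : F[X]) (hg : g.natDegree < 2 * p - 1) (r : F) :
    (g.comp (X + C r)).coeff (p - 1) = g.coeff (p - 1) := by
  have hpr := (Fact.out : p.Prime)
  rw [← taylor_apply, taylor_coeff, hasseDeriv_apply, sum_over_range, eval_finsetSum]
  · rw [Finset.sum_eq_single (p - 1)]
    · simp
    · intro m hm hne
      rw [Finset.mem_range] at hm
      rw [eval_monomial]
      rcases Nat.lt_or_ge m (p - 1) with h | h
      · rw [Nat.choose_eq_zero_of_lt h]; simp
      · have h1 : p ∣ Nat.choose m (p - 1) := by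
          have h2 := Nat.Prime.dvd_choose_add hpr (a := p - 1) (b := m - (p - 1))
            (by have := hpr.pos; omega) (by omega) (by omega)
          rwa [Nat.add_sub_cancel' h] at h2
        have h3 : ((Nat.choose m (p - 1) : ℕ) : F) = 0 := (CharP.cast_eq_zero_iff F p _).2 h1
        rw [h3]; simp
    · intro h
      rw [Finset.mem_range, not_lt] at h
      rw [coeff_eq_zero_of_natDegree_lt (by omega)]
      simp
  · intro m; simp

lemma An_trans {n : ℕ} (hn : p = 2 * n + 1) (r s : F) :
    An n (-(r + s)) (r * s) = An n (2 * r - s) (r * (r - s)) := by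
  rw [An_eq_cubic, An_eq_cubic]
  have h1 : ((X * (X ^ 2 + C (-(r + s)) * X + C (r * s))) ^ n : F[X]).comp (X + C r) =
      (X * (X ^ 2 + C (2 * r - s) * X + C (r * (r - s)))) ^ n := by
    rw [pow_comp]
    congr 1
    simp only [mul_comp, add_comp, pow_comp, X_comp, C_comp]
    simp only [C_neg, C_mul, C_add, C_sub]
    have : (C 2 : F[X]) = 2 := map_ofNat C 2
    rw [this]
    ring
  have h2 := coeff_comp_add (p := p) ((X * (X ^ 2 + C (-(r + s)) * X + C (r * s))) ^ n : F[X]) (by
    refine lt_of_le_of_lt natDegree_pow_le ?_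
    have : (X * (X ^ 2 + C (-(r + s)) * X + C (r * s)) : F[X]).natDegree ≤ 3 := by
      compute_degree
    refine lt_of_le_of_lt (Nat.mul_le_mul_left n this) ?_
    have hpr := (Fact.out : p.Prime).one_lt
    omega) r
  rw [h1] at h2
  rw [show 2 * n = p - 1 by omega, h2]

end

section

variable {p : ℕ} [Fact p.Prime]

/-- The power sums. -/
lemma sum_poly (g : (ZMod p)[X]) (hg : g.natDegree < 2 * (p - 1)) (h0 : g.coeff 0 = 0) :
    ∑ x : ZMod p, g.eval x = -g.coeff (p - 1) := by
  have hpr := (Fact.out : p.Prime)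
  simp only [eval_eq_sum_range]
  rw [Finset.sum_comm]
  have h1 : ∀ i ∈ range (g.natDegree + 1), ∑ x : ZMod p, g.coeff i * x ^ i =
      if i = p - 1 then -g.coeff (p - 1) else 0 := by
    intro i hi
    rw [Finset.mem_range] at hi
    rw [← Finset.mul_sum]
    rcases Nat.eq_zero_or_pos i with h | h
    · rw [h, h0, zero_mul, if_neg (by have := hpr.one_lt; omega)]
    · have h2 : ∑ x : ZMod p, x ^ i = ∑ x : (ZMod p)ˣ, ((x ^ i : (ZMod p)ˣ) : ZMod p) := by
        rw [← Finset.add_sum_erase _ _ (Finset.mem_univ (0 : ZMod p)), zero_pow (by omega), zero_add]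
        symm
        refine Finset.sum_bij (fun u _ => (u : ZMod p)) ?_ ?_ ?_ ?_
        · intro u _; exact Finset.mem_erase.2 ⟨u.ne_zero, Finset.mem_univ _⟩
        · intro u _ v _ huv; exact Units.ext huv
        · intro b hb
          exact ⟨Units.mk0 b (Finset.mem_erase.1 hb).1, Finset.mem_univ _, rfl⟩
        · intro u _; push_cast; rfl
      have h3 := FiniteField.sum_pow_units (ZMod p) i
      rw [ZMod.card] at h3
      rw [h2]
      push_cast
      rw [h3]
      by_cases h4 : i = p - 1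
      · rw [if_pos h4, if_pos (by rw [h4]), h4]; ring
      · rw [if_neg h4, if_neg, mul_zero]
        rintro ⟨k, hk⟩
        rcases k with _ | _ | k
        · omega
        · omega
        · have : 2 * (p - 1) ≤ (p - 1) * (k + 1 + 1) := by nlinarith
          omega
  rw [Finset.sum_congr rfl h1, Finset.sum_ite_eq']
  split_ifs with h
  · rfl
  · rw [Finset.mem_range, not_lt] at h
    rw [coeff_eq_zero_of_natDegree_lt (by omega)]
    simp

lemma An_sum {n : ℕ} (hn : p = 2 * n + 1) (a b : ZMod p) :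
    An n a b = -((∑ x : ZMod p, qc p (x * (x ^ 2 + a * x + b)) : ℤ) : ZMod p) := by
  have hpr := (Fact.out : p.Prime).one_lt
  have hpos : 0 < n := by omega
  have h1 := sum_poly ((X * (X ^ 2 + C a * X + C b)) ^ n : (ZMod p)[X]) (by
    refine lt_of_le_of_lt natDegree_pow_le ?_
    have : (X * (X ^ 2 + C a * X + C b) : (ZMod p)[X]).natDegree ≤ 3 := by
      compute_degree
    refine lt_of_le_of_lt (Nat.mul_le_mul_left n this) ?_
    omega) (by
    rw [mul_pow, coeff_X_pow_mul', if_neg (by omega)])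
  rw [show p - 1 = 2 * n by omega, ← An_eq_cubic] at h1
  rw [← neg_eq_iff_eq_neg] at h1
  rw [← h1]
  push_cast
  congr 1
  refine Finset.sum_congr rfl fun x _ => ?_
  simp only [eval_pow, eval_mul, eval_add, eval_X, eval_C]
  have h2 := quadraticChar_eq_pow_of_char_ne_two' (F := ZMod p) (by rw [ZMod.ringChar_zmod_n]; omega)
    (x * (x ^ 2 + a * x + b))
  rw [h2, ZMod.card]
  congr 1
  omega

/-- The number of the roots of a quadratic polynomial. -/
lemma card_roots (hp : p ≠ 2) (z b : ZMod p) :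
    ((univ.filter (fun x : ZMod p => x ^ 2 - z * x + b = 0)).card : ℤ) = qc p (z ^ 2 - 4 * b) + 1 := by
  have h2 : (2 : ZMod p) ≠ 0 := by
    intro h
    have h3 : ((2 : ℕ) : ZMod p) = 0 := by push_cast; exact h
    rw [ZMod.natCast_eq_zero_iff] at h3
    exact hp ((Nat.prime_dvd_prime_iff_eq (Fact.out : p.Prime) Nat.prime_two).1 h3)
  have h1 := quadraticChar_card_sqrts (F := ZMod p) (by rw [ZMod.ringChar_zmod_n]; exact hp)
    (z ^ 2 - 4 * b)
  rw [← h1]
  congr 1
  refine Finset.card_bij' (fun x _ => 2 * x - z) (fun y _ => (y + z) / 2) ?_ ?_ ?_ ?_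
  · intro x hx
    have := (Finset.mem_filter.1 hx).2
    rw [Set.mem_toFinset]
    show (2 * x - z) ^ 2 = _
    linear_combination 4 * this
  · intro y hy
    rw [Set.mem_toFinset] at hy
    have hy' : y ^ 2 = z ^ 2 - 4 * b := hy
    rw [Finset.mem_filter]
    refine ⟨Finset.mem_univ _, ?_⟩
    field_simp
    have h4 : (4 : ZMod p) = 2 * 2 := by norm_num
    linear_combination hy'
  · intro x _
    field_simp
    ring
  · intro y _
    field_simp
    ring

/-- The sums attached to two `2`-isogenous curves. -/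
lemma char_isog (hp : p ≠ 2) {b : ZMod p} (hb : b ≠ 0) (a : ZMod p) :
    ∑ x : ZMod p, qc p (x * (x ^ 2 + a * x + b)) =
      ∑ u : ZMod p, qc p (u * (u ^ 2 + (-2 * a) * u + (a ^ 2 - 4 * b))) := by
  have e1 : ∀ x : ZMod p, qc p (x * (x ^ 2 + a * x + b)) =
      ∑ z : ZMod p, if x ^ 2 - z * x + b = 0 then qc p (z + a) else 0 := by
    intro x
    by_cases hx : x = 0
    · subst hx
      rw [zero_mul, qc_zero, Finset.sum_eq_zero]
      intro z _
      rw [if_neg]
      intro h
      apply hb
      linear_combination h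
    · rw [Finset.sum_eq_single (x + b / x)]
      · rw [if_pos (by field_simp; ring)]
        have : x * (x ^ 2 + a * x + b) = x * x * (x + b / x + a) := by field_simp; ring
        rw [this, qc_mul, qc_mul, qc_sq hx, one_mul]
      · intro z _ hz
        rw [if_neg]
        intro h
        apply hz
        field_simp
        linear_combination -h
      · intro h; exact absurd (Finset.mem_univ _) h
  have e2 : ∑ u : ZMod p, qc p (u * (u ^ 2 + (-2 * a) * u + (a ^ 2 - 4 * b))) =
      ∑ z : ZMod p, qc p ((z + a) * (z ^ 2 - 4 * b)) := by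
    symm
    refine Fintype.sum_equiv (Equiv.addRight a) _ _ fun z => ?_
    rw [Equiv.coe_addRight]
    congr 1
    ring
  rw [Finset.sum_congr rfl fun x _ => e1 x, Finset.sum_comm, e2]
  have e3 : ∀ z : ZMod p, (∑ x : ZMod p, if x ^ 2 - z * x + b = 0 then qc p (z + a) else 0) =
      qc p (z + a) + qc p ((z + a) * (z ^ 2 - 4 * b)) := by
    intro z
    rw [← Finset.sum_filter, Finset.sum_const, nsmul_eq_mul, card_roots hp, qc_mul]
    ring
  have e4 : ∑ z : ZMod p, qc p (z + a) = 0 := by
    rw [← sum_qc (p := p) hp]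
    exact Equiv.sum_comp (Equiv.addRight a) (fun k => qc p k)
  rw [Finset.sum_congr rfl fun z _ => e3 z, Finset.sum_add_distrib, e4, zero_add]

/-- the polynomial in `β` whose values are the coefficients of `x ^ n` in `((x - e)² + v β + w)^n` -/
noncomputable def Qn (F : Type*) [Field F] (n : ℕ) (u : F[X]) (v : F) : F[X] :=
  ∑ k ∈ range (n + 1), C ((u ^ (n - k)).coeff n * (n.choose k : F) * v ^ k) * X ^ k

lemma Qn_eval {F : Type*} [Field F] (n : ℕ) (u : F[X]) (v β : F) :
    (Qn F n u v).eval β = ((u + C (v * β)) ^ n).coeff n := by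
  rw [add_comm u, add_pow, Qn, eval_finsetSum, finsetSum_coeff]
  refine Finset.sum_congr rfl fun k _ => ?_
  simp only [eval_mul, eval_C, eval_pow, eval_X]
  have : C (v * β) ^ k * u ^ (n - k) * ((n.choose k : ℕ) : F[X]) =
      C ((v * β) ^ k * (n.choose k : F)) * u ^ (n - k) := by
    rw [map_mul C ((v * β) ^ k), map_pow, map_natCast]
    ring
  rw [this, coeff_C_mul]
  ring

lemma Qn_natDegree {F : Type*} [Field F] (n : ℕ) (u : F[X]) (v : F) : (Qn F n u v).natDegree ≤ n := by
  unfold Qn
  apply natDegree_sum_le_of_forall_le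
  intro k hk
  rw [Finset.mem_range] at hk
  refine (natDegree_C_mul_X_pow_le _ _).trans (by omega)

lemma Qn_map {F E : Type*} [Field F] [Field E] (f : F →+* E) (n : ℕ) (u : F[X]) (v : F) :
    (Qn F n u v).map f = Qn E n (u.map f) (f v) := by
  unfold Qn
  rw [Polynomial.map_sum]
  refine Finset.sum_congr rfl fun k _ => ?_
  simp only [Polynomial.map_mul, map_C, Polynomial.map_pow, map_X, map_mul, map_pow, map_natCast,
    Polynomial.map_natCast]
  rw [← Polynomial.map_pow, coeff_map]

end

section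

variable {p : ℕ} [Fact p.Prime]

lemma An_one {F : Type*} [Field F] (n : ℕ) (β : F) :
    An n 1 β = (Qn F n (X ^ 2 + X) 1).eval β := by
  rw [Qn_eval, An]
  congr 2
  rw [one_mul, map_one, one_mul]

lemma An_two {F : Type*} [Field F] (n : ℕ) (β : F) :
    An n (-2) (1 - 4 * β) = (Qn F n (X ^ 2 + C (-2) * X + 1) (-4)).eval β := by
  rw [Qn_eval, An]
  congr 2
  rw [sub_eq_add_neg, C_add, C_1, ← neg_mul]
  ring

/-- The polynomial form of the `2`-isogeny. -/
lemma Qn_eq {n : ℕ} (hn : p = 2 * n + 1) :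
    Qn (ZMod p) n (X ^ 2 + X) 1 = Qn (ZMod p) n (X ^ 2 + C (-2) * X + 1) (-4) := by
  have hpr := (Fact.out : p.Prime).one_lt
  apply Polynomial.eq_of_degree_sub_lt_of_eval_finset_eq (univ.erase 0)
  · rw [Finset.card_erase_of_mem (Finset.mem_univ _), Finset.card_univ, ZMod.card]
    refine lt_of_le_of_lt degree_le_natDegree ?_
    have h1 : (Qn (ZMod p) n (X ^ 2 + X) 1 - Qn (ZMod p) n (X ^ 2 + C (-2) * X + 1) (-4)).natDegree ≤ n :=
      (natDegree_sub_le _ _).trans (max_le (Qn_natDegree _ _ _) (Qn_natDegree _ _ _))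
    have h2 : n < p - 1 := by omega
    exact_mod_cast lt_of_le_of_lt h1 h2
  · intro β hβ
    have hβ0 := (Finset.mem_erase.1 hβ).1
    have e1 : (-2 * (1 : ZMod p)) = -2 := by ring
    have e2 : (1 : ZMod p) ^ 2 - 4 * β = 1 - 4 * β := by ring
    rw [← An_one, ← An_two, An_sum hn, An_sum hn, char_isog (by omega) hβ0, e1, e2]

/-- The `2`-isogeny over an arbitrary field of characteristic `p`. -/
lemma An_isog {F : Type*} [Field F] [CharP F p] {n : ℕ} (hn : p = 2 * n + 1) {a : F} (ha : a ≠ 0)
    (b : F) : An n a b = An n (-2 * a) (a ^ 2 - 4 * b) := by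
  have h1 : ∀ β : F, An n 1 β = An n (-2) (1 - 4 * β) := by
    intro β
    have h2 := congrArg (Polynomial.map (ZMod.castHom (dvd_refl p) F)) (Qn_eq hn)
    rw [Qn_map, Qn_map] at h2
    simp only [Polynomial.map_add, Polynomial.map_mul, Polynomial.map_pow, map_X,
      Polynomial.map_one, map_one, map_neg, map_ofNat, Polynomial.map_neg, Polynomial.map_ofNat] at h2
    rw [An_one, An_two, h2]
    simp only [map_neg, map_ofNat]
  have h3 : An n a b = a ^ n * An n 1 (b / a ^ 2) := by
    rw [← An_scale n ha]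
    congr 1
    · rw [mul_one]
    · field_simp
  have h4 : An n (-2 * a) (a ^ 2 - 4 * b) = a ^ n * An n (-2) (1 - 4 * (b / a ^ 2)) := by
    rw [← An_scale n ha]
    congr 1
    · ring
    · field_simp
  rw [h3, h4, h1]

lemma nat_pow_char {F : Type*} [Field F] [CharP F p] (k : ℕ) : (k : F) ^ p = k := by
  have := map_natCast (frobenius F p) k
  rwa [frobenius_def] at this

/-- The endomorphism of degree two. -/
lemma An_zero_aux {F : Type*} [Field F] [CharP F p] {n : ℕ} (hn : p = 2 * n + 1) (h2 : (2 : F) ≠ 0)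
    (h3 : (3 : F) ≠ 0) {w : F} (hw : w ^ 2 = -7) (hwp : w ^ p = -w) (hw0 : w ≠ 0) :
    An n (21 : F) 112 = 0 := by
  obtain ⟨c, hc⟩ : ∃ c : F, c = (1 + w) / 2 := ⟨_, rfl⟩
  obtain ⟨t, ht⟩ : ∃ t : F, t = (w - 3) / 2 := ⟨_, rfl⟩
  have hct : c ^ 2 = t := by
    rw [hc, ht]
    field_simp
    linear_combination hw
  have hcc : c * ((1 - w) / 2) = 2 := by
    rw [hc]
    field_simp
    linear_combination -hw
  have hc0 : c ≠ 0 := by
    intro h
    rw [h, zero_mul] at hcc
    exact h2 hcc.symm
  have ht0 : t ≠ 0 := by rw [← hct]; exact pow_ne_zero _ hc0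
  have hcp : c ^ p = (1 - w) / 2 := by
    have e1 : c ^ p = (1 ^ p + w ^ p) / 2 ^ p := by
      rw [hc, div_pow, add_pow_char]
    have e2 : (2 : F) ^ p = 2 := by
      have := nat_pow_char (F := F) (p := p) 2
      push_cast at this
      exact this
    rw [e1, e2, one_pow, hwp]
    ring
  have htn : t ^ n ≠ 1 := by
    intro h
    rw [← hct, ← pow_mul] at h
    have e0 : c ^ p = c ^ (2 * n + 1) := congrArg (fun k => c ^ k) hn
    have e1 : c ^ p = c := by rw [e0, pow_succ, h, one_mul]
    rw [hcp, hc] at e1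
    apply hw0
    have e2 : (1 - w) = 1 + w := by
      field_simp at e1
      exact e1
    have e3 : 2 * w = 0 := by linear_combination -e2
    exact (mul_eq_zero.1 e3).resolve_left h2
  -- the endomorphism
  have key : An n (21 : F) 112 = t ^ n * An n (21 : F) 112 := by
    have s1 : An n (21 : F) 112 = An n ((-21 + 3 * w) / 2) ((-7 - 21 * w) / 2) := by
      have := An_trans hn ((-21 + w) / 2) ((-21 - w) / 2 : F)
      have a1 : (-((-21 + w) / 2 + (-21 - w) / 2) : F) = 21 := by field_simp; ring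
      have a2 : ((-21 + w) / 2 * ((-21 - w) / 2) : F) = 112 := by
        field_simp; linear_combination -hw
      have a3 : (2 * ((-21 + w) / 2) - (-21 - w) / 2 : F) = (-21 + 3 * w) / 2 := by
        field_simp; ring
      have a4 : ((-21 + w) / 2 * ((-21 + w) / 2 - (-21 - w) / 2) : F) = (-7 - 21 * w) / 2 := by
        field_simp; linear_combination 2 * hw
      rw [a1, a2, a3, a4] at this
      exact this
    have ha : ((-21 + 3 * w) / 2 : F) ≠ 0 := by
      intro h
      have e1 : 3 * w = 21 := by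
        field_simp at h
        linear_combination h
      have e4 : (3 : F) ^ p = 3 := by
        have := nat_pow_char (F := F) (p := p) 3
        push_cast at this
        exact this
      have e5 : (21 : F) ^ p = 21 := by
        have := nat_pow_char (F := F) (p := p) 21
        push_cast at this
        exact this
      have e2 : (3 * w) ^ p = 3 * (-w) := by
        rw [mul_pow, hwp, e4]
      rw [e1, e5] at e2
      have e6 : (2 * 3) * w = 0 := by linear_combination e1 + e2
      exact hw0 ((mul_eq_zero.1 e6).resolve_left (mul_ne_zero h2 h3))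
    have s2 := An_isog hn ha ((-7 - 21 * w) / 2)
    have s3 : An n (-2 * ((-21 + 3 * w) / 2) : F) (((-21 + 3 * w) / 2) ^ 2 - 4 * ((-7 - 21 * w) / 2)) =
        An n (t * 21) (t ^ 2 * 112) := by
      have := An_trans hn ((-35 + 9 * w) / 2) ((-7 - 3 * w) / 2 : F)
      have a1 : (-((-35 + 9 * w) / 2 + (-7 - 3 * w) / 2) : F) = -2 * ((-21 + 3 * w) / 2) := by
        field_simp; ring
      have a2 : ((-35 + 9 * w) / 2 * ((-7 - 3 * w) / 2) : F) =
          ((-21 + 3 * w) / 2) ^ 2 - 4 * ((-7 - 21 * w) / 2) := by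
        field_simp; linear_combination (-36) * hw
      have a3 : (2 * ((-35 + 9 * w) / 2) - (-7 - 3 * w) / 2 : F) = t * 21 := by
        rw [ht]; field_simp; ring
      have a4 : ((-35 + 9 * w) / 2 * ((-35 + 9 * w) / 2 - (-7 - 3 * w) / 2) : F) = t ^ 2 * 112 := by
        rw [ht]; field_simp; linear_combination (-4) * hw
      rw [a1, a2, a3, a4] at this
      exact this
    calc An n (21 : F) 112 = An n (t * 21) (t ^ 2 * 112) := by rw [s1, s2, s3]
      _ = _ := An_scale n ht0 _ _
  have e1 : (1 - t ^ n) * An n (21 : F) 112 = 0 := by linear_combination key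
  rcases mul_eq_zero.1 e1 with h | h
  · exact absurd (sub_eq_zero.1 h).symm htn
  · exact h

/-- The Hasse invariant of the curve `y² = x (x² + 21 x + 112)` vanishes if `-7` is a nonresidue. -/
lemma An_zero {n : ℕ} (hn : p = 2 * n + 1) (h5 : 3 < p) (h7 : qc p (-7) = -1) :
    An n (21 : ZMod p) 112 = 0 := by
  have hpr := (Fact.out : p.Prime)
  have hchar : CharP (AlgebraicClosure (ZMod p)) p :=
    charP_of_injective_algebraMap (algebraMap (ZMod p) (AlgebraicClosure (ZMod p))).injective p
  have hcast : ∀ k : ℕ, 0 < k → k < p → ((k : ℕ) : AlgebraicClosure (ZMod p)) ≠ 0 := by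
    intro k h0 h1 h2
    rw [CharP.cast_eq_zero_iff (AlgebraicClosure (ZMod p)) p] at h2
    have := Nat.le_of_dvd h0 h2
    omega
  have h2 : (2 : AlgebraicClosure (ZMod p)) ≠ 0 := by
    have := hcast 2 (by norm_num) (by omega); exact_mod_cast this
  have h3 : (3 : AlgebraicClosure (ZMod p)) ≠ 0 := by
    have := hcast 3 (by norm_num) (by omega); exact_mod_cast this
  obtain ⟨w, hw⟩ := IsAlgClosed.exists_pow_nat_eq (-7 : AlgebraicClosure (ZMod p)) (n := 2)
    (by norm_num)
  have hmap7 : algebraMap (ZMod p) (AlgebraicClosure (ZMod p)) (-7) = -7 := by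
    rw [map_neg, map_ofNat]
  have hwp : w ^ p = -w := by
    have e1 : ((-7 : ZMod p)) ^ n = -1 := by
      have e2 := quadraticChar_eq_pow_of_char_ne_two' (F := ZMod p) (by rw [ZMod.ringChar_zmod_n]; omega)
        (-7)
      have e3 : ((quadraticChar (ZMod p) (-7) : ℤ) : ZMod p) = -1 := by
        have : quadraticChar (ZMod p) (-7) = -1 := h7
        rw [this]; norm_num
      rw [e3, ZMod.card, show p / 2 = n by omega] at e2
      exact e2.symm
    have e4 : (-7 : AlgebraicClosure (ZMod p)) ^ n = -1 := by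
      have := congrArg (algebraMap (ZMod p) (AlgebraicClosure (ZMod p))) e1
      rw [map_pow, hmap7, map_neg, map_one] at this
      exact this
    have e0 : w ^ p = w ^ (2 * n + 1) := congrArg (fun k => w ^ k) hn
    rw [e0, pow_succ, pow_mul, hw, e4]
    ring
  have hw0 : w ≠ 0 := by
    rintro rfl
    have e5 : (-7 : AlgebraicClosure (ZMod p)) = 0 := by rw [← hw]; ring
    have e6 : (-7 : ZMod p) = 0 := by
      apply (algebraMap (ZMod p) (AlgebraicClosure (ZMod p))).injective
      rw [hmap7, map_zero, e5]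
    rw [e6, qc_zero] at h7
    norm_num at h7
  have h0 := An_zero_aux (p := p) hn h2 h3 hw hwp hw0
  apply (algebraMap (ZMod p) (AlgebraicClosure (ZMod p))).injective
  rw [map_zero, ← h0, An, An, ← coeff_map, Polynomial.map_pow]
  congr 2
  simp only [Polynomial.map_add, Polynomial.map_mul, Polynomial.map_pow, map_X, map_ofNat,
    Polynomial.map_ofNat]

lemma ne_seven (h7 : qc p (-7) = -1) : (7 : ZMod p) ≠ 0 := by
  intro h
  rw [h, neg_zero, qc_zero] at h7
  norm_num at h7

lemma two_ne (hp : p ≠ 2) : (2 : ZMod p) ≠ 0 := by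
  intro h
  have h3 : ((2 : ℕ) : ZMod p) = 0 := by push_cast; exact h
  rw [ZMod.natCast_eq_zero_iff] at h3
  exact hp ((Nat.prime_dvd_prime_iff_eq (Fact.out : p.Prime) Nat.prime_two).1 h3)

/-- The supersingular sum for `(21, 112)`. -/
lemma ss_one (hp : p ≠ 2) (h7 : qc p (-7) = -1) :
    ∑ x : ZMod p, qc p (x * (x ^ 2 + 21 * x + 112)) = 0 := by
  have hpr := (Fact.out : p.Prime)
  have hodd := Nat.odd_iff.1 (hpr.odd_of_ne_two hp)
  by_cases h3 : p = 3
  · subst h3
    have e1 : (1 : ZMod 3) * (1 ^ 2 + 21 * 1 + 112) = -7 := three_one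
    have e2 : (2 : ZMod 3) * (2 ^ 2 + 21 * 2 + 112) = 1 := three_two
    have e3 : ∑ x : ZMod 3, qc 3 (x * (x ^ 2 + 21 * x + 112)) =
        qc 3 (0 * (0 ^ 2 + 21 * 0 + 112)) + qc 3 (1 * (1 ^ 2 + 21 * 1 + 112)) +
          qc 3 (2 * (2 ^ 2 + 21 * 2 + 112)) := Fin.sum_univ_three _
    rw [e3, e1, e2, h7, zero_mul, qc_zero, qc_one]
    norm_num
  have h5 : 3 < p := by have := hpr.two_le; omega
  obtain ⟨n, hn⟩ : ∃ n, p = 2 * n + 1 := ⟨p / 2, by omega⟩
  have h1 := An_zero hn h5 h7
  rw [An_sum hn, neg_eq_zero, ZMod.intCast_zmod_eq_zero_iff_dvd] at h1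
  apply Int.eq_zero_of_abs_lt_dvd h1
  rw [← Finset.add_sum_erase _ _ (Finset.mem_univ (0 : ZMod p)), zero_mul, qc_zero, zero_add]
  refine lt_of_le_of_lt (Finset.abs_sum_le_sum_abs _ _) ?_
  have h2 : ∀ y : ZMod p, |qc p y| ≤ 1 := by
    intro y
    by_cases hy : y = 0
    · rw [hy, qc_zero]; norm_num
    · rcases quadraticChar_dichotomy hy with h | h
      · have : qc p y = 1 := h
        rw [this]; norm_num
      · have : qc p y = -1 := h
        rw [this]; norm_num
  refine lt_of_le_of_lt (Finset.sum_le_sum fun y _ => h2 _) ?_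
  rw [Finset.sum_const, Finset.card_erase_of_mem (Finset.mem_univ _), Finset.card_univ, ZMod.card,
    nsmul_eq_mul, mul_one]
  have := hpr.pos
  omega

/-- The supersingular sum for `(42, -7)`. -/
lemma ss_two (hp : p ≠ 2) (h7 : qc p (-7) = -1) :
    ∑ x : ZMod p, qc p (x * (x ^ 2 + 42 * x + (-7))) = 0 := by
  have h112 : (112 : ZMod p) ≠ 0 := by
    have : (112 : ZMod p) = 2 ^ 4 * 7 := by norm_num
    rw [this]
    exact mul_ne_zero (pow_ne_zero _ (two_ne hp)) (ne_seven h7)
  have h1 := char_isog hp h112 21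
  rw [ss_one hp h7] at h1
  have h2 : ∑ x : ZMod p, qc p (x * (x ^ 2 + 42 * x + (-7))) =
      ∑ x : ZMod p, qc p (-x * ((-x) ^ 2 + 42 * (-x) + (-7))) :=
    (Fintype.sum_equiv (Equiv.neg _) _ _ fun _ => rfl).symm
  have h3 : ∀ x : ZMod p, qc p (-x * ((-x) ^ 2 + 42 * (-x) + (-7))) =
      qc p (-1) * qc p (x * (x ^ 2 + (-2 * 21) * x + (21 ^ 2 - 4 * 112))) := by
    intro x
    rw [← qc_mul]
    congr 1
    ring
  rw [h2, Finset.sum_congr rfl fun x _ => h3 x, ← Finset.mul_sum, ← h1, mul_zero]

/-- The sums over quadratic polynomials. -/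
lemma sum_sq_sub (hp : p ≠ 2) {b : ZMod p} (hb : b ≠ 0) :
    ∑ z : ZMod p, qc p (z ^ 2 - 4 * b) = -1 := by
  have h1 : ∀ z : ZMod p, qc p (z ^ 2 - 4 * b) =
      (∑ x : ZMod p, if x ^ 2 - z * x + b = 0 then (1 : ℤ) else 0) - 1 := by
    intro z
    rw [Finset.sum_boole]
    have := card_roots hp z b
    linarith
  rw [Finset.sum_congr rfl fun z _ => h1 z, Finset.sum_sub_distrib, Finset.sum_comm]
  have h2 : ∀ x : ZMod p, (∑ z : ZMod p, if x ^ 2 - z * x + b = 0 then (1 : ℤ) else 0) =
      if x = 0 then 0 else 1 := by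
    intro x
    by_cases hx : x = 0
    · subst hx
      rw [if_pos rfl]
      apply Finset.sum_eq_zero
      intro z _
      rw [if_neg]
      intro h
      apply hb
      linear_combination h
    · rw [if_neg hx, Finset.sum_eq_single (x + b / x)]
      · rw [if_pos (by field_simp; ring)]
      · intro z _ hz
        rw [if_neg]
        intro h
        apply hz
        field_simp
        linear_combination -h
      · intro h; exact absurd (Finset.mem_univ _) h
  rw [Finset.sum_congr rfl fun x _ => h2 x]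
  rw [← Finset.add_sum_erase _ _ (Finset.mem_univ (0 : ZMod p)), if_pos rfl,
    Finset.sum_congr rfl fun x hx => if_neg (Finset.mem_erase.1 hx).1]
  simp only [Finset.sum_const, Finset.card_erase_of_mem (Finset.mem_univ _), Finset.card_univ,
    ZMod.card, nsmul_eq_mul, mul_one]
  have := (Fact.out : p.Prime).pos
  push_cast [Nat.cast_sub this]
  ring

lemma sum_quadratic (hp : p ≠ 2) {d e f : ZMod p} (hd : d ≠ 0) (hD : e ^ 2 - 4 * d * f ≠ 0) :
    ∑ k : ZMod p, qc p (f + e * k + d * k ^ 2) = -qc p d := by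
  have h2 := two_ne hp
  have h4 : (4 : ZMod p) ≠ 0 := by
    have : (4 : ZMod p) = 2 * 2 := by norm_num
    rw [this]; exact mul_ne_zero h2 h2
  have h1 : ∀ k : ZMod p, qc p (f + e * k + d * k ^ 2) =
      qc p d * qc p ((2 * d * k + e) ^ 2 - 4 * ((e ^ 2 - 4 * d * f) / 4)) := by
    intro k
    have h3 : qc p (2 * 2) = 1 := by rw [qc_mul, qc_sq h2]
    rw [← qc_mul]
    have e1 : d * ((2 * d * k + e) ^ 2 - 4 * ((e ^ 2 - 4 * d * f) / 4)) =
        (2 * 2) * (d * d) * (f + e * k + d * k ^ 2) := by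
      field_simp
      ring
    rw [e1, qc_mul, qc_mul, h3, qc_mul d d, qc_sq hd, one_mul, one_mul]
  rw [Finset.sum_congr rfl fun k _ => h1 k, ← Finset.mul_sum]
  have h3 : ∑ k : ZMod p, qc p ((2 * d * k + e) ^ 2 - 4 * ((e ^ 2 - 4 * d * f) / 4)) =
      ∑ z : ZMod p, qc p (z ^ 2 - 4 * ((e ^ 2 - 4 * d * f) / 4)) := by
    refine Fintype.sum_equiv ((Equiv.mulLeft₀ (2 * d) (mul_ne_zero h2 hd)).trans (Equiv.addRight e))
      _ _ fun k => ?_
    rfl
  rw [h3, sum_sq_sub hp (div_ne_zero hD h4)]
  ring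

/-- From the curve to the matrix. -/
lemma sum_row (hp : p ≠ 2) {c d : ZMod p} (hs : ∑ x : ZMod p, qc p (x * (x ^ 2 + c * x + d)) = 0)
    (j : ZMod p) : ∑ x : ZMod p, qc p (x * (j ^ 2 + c * j * x + d * x ^ 2)) = 0 := by
  by_cases hj : j = 0
  · subst hj
    have h1 : ∀ x : ZMod p, qc p (x * (0 ^ 2 + c * 0 * x + d * x ^ 2)) = qc p d * qc p x := by
      intro x
      by_cases hx : x = 0
      · rw [hx, zero_mul, qc_zero, mul_zero]
      · have : x * (0 ^ 2 + c * 0 * x + d * x ^ 2) = d * (x * x) * x := by ring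
        rw [this, qc_mul, qc_mul, qc_mul x x, qc_sq hx, mul_one]
    rw [Finset.sum_congr rfl fun x _ => h1 x, ← Finset.mul_sum, sum_qc hp, mul_zero]
  · have h1 : ∑ x : ZMod p, qc p (x * (j ^ 2 + c * j * x + d * x ^ 2)) =
        ∑ x : ZMod p, qc p (x * (x ^ 2 + c * x + d)) * qc p j := by
      refine Finset.sum_nbij' (fun x => if x = 0 then 0 else j / x) (fun y => if y = 0 then 0 else j / y)
        (fun x _ => Finset.mem_univ _) (fun x _ => Finset.mem_univ _) ?_ ?_ ?_
      · intro x _
        by_cases hx : x = 0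
        · rw [if_pos hx, if_pos rfl, hx]
        · rw [if_neg hx, if_neg (div_ne_zero hj hx)]
          field_simp
      · intro x _
        by_cases hx : x = 0
        · rw [if_pos hx, if_pos rfl, hx]
        · rw [if_neg hx, if_neg (div_ne_zero hj hx)]
          field_simp
      · intro x _
        by_cases hx : x = 0
        · rw [if_pos hx, hx, zero_mul, zero_mul, qc_zero, zero_mul]
        · rw [if_neg hx, ← qc_mul]
          have e1 : x * (j ^ 2 + c * j * x + d * x ^ 2) * ((j / x) * (j / x)) =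
              (j / x * ((j / x) ^ 2 + c * (j / x) + d) * j) * (x * x) := by
            field_simp
          have e2 := congrArg (qc p) e1
          rw [qc_mul, qc_mul (j / x) (j / x), qc_sq (div_ne_zero hj hx), mul_one, qc_mul _ (x * x),
            qc_mul x x, qc_sq hx, mul_one] at e2
          exact e2
    rw [h1, ← Finset.sum_mul, hs, zero_mul]

end

end Pool.Agent.X12
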