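import Pool.Agent.X12.Szp20

/-!
# Integral points of the stack of generalised elliptic curves: arithmetic
-/

set_option autoImplicit false

namespace Pool.Agent.X12.Stk

open Finset Filter Topology Pool.Agent.H328R2.ABC Pool.Agent.X12.Szp

/-- semistable outside `S` -/
def Sst (S : Finset ℕ) (q : ℤ × ℤ) : Prop :=
  ∀ p : ℕ, p.Prime → p ∉ S → ¬ ((p : ℤ) ∣ q.1 ∧ (p : ℤ) ∣ q.2)

/-- the invariant -/
def jq (q : ℤ × ℤ) : ℚ := 6912 * (q.1 : ℚ) ^ 3 / (4 * (q.1 : ℚ) ^ 3 - 27 * (q.2 : ℚ) ^ 2)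

/-- its height -/
noncomputable def hj (q : ℤ × ℤ) : ℝ := Height.logHeight₁ (jq q)

lemma jq_eq (q : ℤ × ℤ) : jq q = ((6912 * q.1 ^ 3 : ℤ) : ℚ) / ((Dsc q.1 q.2 : ℤ) : ℚ) := by
  unfold jq Dsc
  push_cast
  rfl

lemma num_den {q : ℤ × ℤ} (hD : Dsc q.1 q.2 ≠ 0) :
    ∃ g : ℤ, 6912 * q.1 ^ 3 = (jq q).num * g ∧ Dsc q.1 q.2 = (jq q).den * g := by
  have e3 : jq q = Rat.divInt (6912 * q.1 ^ 3) (Dsc q.1 q.2) := by rw [jq_eq, Rat.divInt_eq_div]
  have h2 : ((jq q).den : ℤ) ∣ Dsc q.1 q.2 := by rw [e3]; exact Rat.den_dvd _ _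
  obtain ⟨g, hg⟩ := h2
  refine ⟨g, ?_, hg⟩
  have hden : ((jq q).den : ℚ) ≠ 0 := by exact_mod_cast (jq q).den_nz
  have hDq : ((Dsc q.1 q.2 : ℤ) : ℚ) ≠ 0 := by exact_mod_cast hD
  have h1 : ((jq q).num : ℚ) / ((jq q).den : ℚ) =
      ((6912 * q.1 ^ 3 : ℤ) : ℚ) / ((Dsc q.1 q.2 : ℤ) : ℚ) := by rw [Rat.num_div_den, jq_eq]
  rw [div_eq_div_iff hden hDq] at h1
  have h2 : (jq q).num * Dsc q.1 q.2 = 6912 * q.1 ^ 3 * (jq q).den := by exact_mod_cast h1
  have hd0 : ((jq q).den : ℤ) ≠ 0 := by exact_mod_cast (jq q).den_nz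
  have h3 : ((jq q).den : ℤ) * (6912 * q.1 ^ 3) = ((jq q).den : ℤ) * ((jq q).num * g) := by
    calc ((jq q).den : ℤ) * (6912 * q.1 ^ 3) = (jq q).num * Dsc q.1 q.2 := by rw [h2]; ring
      _ = ((jq q).den : ℤ) * ((jq q).num * g) := by rw [hg]; ring
  exact mul_left_cancel₀ hd0 h3

lemma fact_le {p n k : ℕ} (hp : p.Prime) (hn0 : n ≠ 0) (hn : n < 2 ^ (k + 1)) :
    n.factorization p ≤ k := by
  by_contra hcon
  push Not at hcon
  have h1 : p ^ n.factorization p ≤ n := Nat.ordProj_le p hn0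
  have h2 : 2 ^ (k + 1) ≤ p ^ n.factorization p := by
    calc 2 ^ (k + 1) ≤ 2 ^ n.factorization p := Nat.pow_le_pow_right (by norm_num) hcon
      _ ≤ p ^ n.factorization p := Nat.pow_le_pow_left hp.two_le _
  omega

lemma dvd_cube {p A : ℕ} (hp : p.Prime) (h : p ^ 40 ∣ 6912 * A ^ 3) : p ^ 10 ∣ A := by
  by_cases hA : A = 0
  · rw [hA]; exact dvd_zero _
  have h0 : 6912 * A ^ 3 ≠ 0 := mul_ne_zero (by norm_num) (pow_ne_zero _ hA)
  have h1 := (hp.pow_dvd_iff_le_factorization h0).1 h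
  rw [Nat.factorization_mul (by norm_num) (pow_ne_zero _ hA), Nat.factorization_pow] at h1
  simp only [Finsupp.coe_add, Pi.add_apply, Finsupp.coe_smul, Pi.smul_apply, smul_eq_mul] at h1
  have h2 := fact_le (k := 12) hp (show (6912 : ℕ) ≠ 0 by norm_num) (by norm_num)
  exact (hp.pow_dvd_iff_le_factorization hA).2 (by omega)

lemma dvd_sq {p B : ℕ} (hp : p.Prime) (h : p ^ 30 ∣ 27 * B ^ 2) : p ^ 6 ∣ B := by
  by_cases hB : B = 0
  · rw [hB]; exact dvd_zero _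
  have h0 : 27 * B ^ 2 ≠ 0 := mul_ne_zero (by norm_num) (pow_ne_zero _ hB)
  have h1 := (hp.pow_dvd_iff_le_factorization h0).1 h
  rw [Nat.factorization_mul (by norm_num) (pow_ne_zero _ hB), Nat.factorization_pow] at h1
  simp only [Finsupp.coe_add, Pi.add_apply, Finsupp.coe_smul, Pi.smul_apply, smul_eq_mul] at h1
  have h2 := fact_le (k := 4) hp (show (27 : ℕ) ≠ 0 by norm_num) (by norm_num)
  exact (hp.pow_dvd_iff_le_factorization hB).2 (by omega)

lemma no_forty {q : ℤ × ℤ} (hmin : IsMn q.1 q.2) {p : ℕ} (hp : p.Prime) :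
    ¬ ((p : ℤ) ^ 40 ∣ 6912 * q.1 ^ 3 ∧ (p : ℤ) ^ 40 ∣ Dsc q.1 q.2) := by
  rintro ⟨h1, h2⟩
  have h3 : p ^ 40 ∣ 6912 * q.1.natAbs ^ 3 := by
    have := Int.natAbs_dvd_natAbs.2 h1
    rwa [Int.natAbs_mul, Int.natAbs_pow, Int.natAbs_pow, Int.natAbs_natCast] at this
  have h4 : (p : ℤ) ^ 10 ∣ q.1 := by
    have := dvd_cube hp h3
    rw [← Int.natCast_pow, Int.natCast_dvd]
    exact this
  have h5 : (p : ℤ) ^ 30 ∣ 27 * q.2 ^ 2 := by
    have e : 27 * q.2 ^ 2 = 4 * q.1 ^ 3 - Dsc q.1 q.2 := by unfold Dsc; ring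
    rw [e]
    refine dvd_sub ?_ ((pow_dvd_pow (p : ℤ) (by norm_num)).trans h2)
    have h6 : ((p : ℤ) ^ 10) ^ 3 ∣ q.1 ^ 3 := pow_dvd_pow_of_dvd h4 3
    rw [← pow_mul] at h6
    exact Dvd.dvd.mul_left h6 _
  have h6 : p ^ 30 ∣ 27 * q.2.natAbs ^ 2 := by
    have := Int.natAbs_dvd_natAbs.2 h5
    rwa [Int.natAbs_mul, Int.natAbs_pow, Int.natAbs_pow, Int.natAbs_natCast] at this
  have h7 : (p : ℤ) ^ 6 ∣ q.2 := by
    have := dvd_sq hp h6
    rw [← Int.natCast_pow, Int.natCast_dvd]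
    exact this
  exact not_dvd_of_isMn hmin p hp ⟨(pow_dvd_pow (p : ℤ) (by norm_num)).trans h4, h7⟩

/-- the constant of `S` -/
def GS (S : Finset ℕ) : ℕ := ∏ p ∈ S.filter Nat.Prime, p ^ 40

lemma GS_pos (S : Finset ℕ) : 0 < GS S := by
  apply Finset.prod_pos
  intro p hp
  rw [Finset.mem_filter] at hp
  have := hp.2.pos
  positivity

lemma not_dvd_g {S : Finset ℕ} (h2 : 2 ∈ S) (h3 : 3 ∈ S) {q : ℤ × ℤ} (hs : Sst S q) {p : ℕ}
    (hp : p.Prime) (hpS : p ∉ S) : ¬ ((p : ℤ) ∣ 6912 * q.1 ^ 3 ∧ (p : ℤ) ∣ Dsc q.1 q.2) := by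
  rintro ⟨h4, h5⟩
  have hpZ : Prime (p : ℤ) := Nat.prime_iff_prime_int.1 hp
  have hp2 : ¬ (p : ℤ) ∣ 2 := by
    intro h
    have h6 : p ∣ 2 := by exact_mod_cast h
    exact hpS (((Nat.prime_dvd_prime_iff_eq hp Nat.prime_two).1 h6) ▸ h2)
  have hp3 : ¬ (p : ℤ) ∣ 3 := by
    intro h
    have h6 : p ∣ 3 := by exact_mod_cast h
    exact hpS (((Nat.prime_dvd_prime_iff_eq hp Nat.prime_three).1 h6) ▸ h3)
  have hpa : (p : ℤ) ∣ q.1 := by
    rcases hpZ.dvd_or_dvd h4 with h6 | h6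
    · exfalso
      have e : (6912 : ℤ) = 2 ^ 8 * 3 ^ 3 := by norm_num
      rw [e] at h6
      rcases hpZ.dvd_or_dvd h6 with h7 | h7
      · exact hp2 (hpZ.dvd_of_dvd_pow h7)
      · exact hp3 (hpZ.dvd_of_dvd_pow h7)
    · exact hpZ.dvd_of_dvd_pow h6
  have hpb : (p : ℤ) ∣ q.2 := by
    have e : 27 * q.2 ^ 2 = 4 * q.1 ^ 3 - Dsc q.1 q.2 := by unfold Dsc; ring
    have h6 : (p : ℤ) ∣ 27 * q.2 ^ 2 := by
      rw [e]
      exact dvd_sub (Dvd.dvd.mul_left (dvd_pow hpa (by norm_num)) _) h5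
    rcases hpZ.dvd_or_dvd h6 with h7 | h7
    · exfalso
      have e : (27 : ℤ) = 3 ^ 3 := by norm_num
      rw [e] at h7
      exact hp3 (hpZ.dvd_of_dvd_pow h7)
    · exact hpZ.dvd_of_dvd_pow h7
  exact hs p hp hpS ⟨hpa, hpb⟩

lemma g_bound {S : Finset ℕ} (h2 : 2 ∈ S) (h3 : 3 ∈ S) {q : ℤ × ℤ} (hmin : IsMn q.1 q.2)
    (hs : Sst S q) {g : ℤ} (h4 : g ∣ 6912 * q.1 ^ 3) (h5 : g ∣ Dsc q.1 q.2) :
    g.natAbs ≤ GS S := by
  have hg0 : g ≠ 0 := by
    rintro rfl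
    exact hmin.1 (zero_dvd_iff.1 h5)
  have hn0 : g.natAbs ≠ 0 := Int.natAbs_ne_zero.2 hg0
  rw [← Nat.prod_factorization_pow_eq_self hn0]
  unfold GS
  have hsub : g.natAbs.primeFactors ⊆ S.filter Nat.Prime := by
    intro p hp
    have hpp := Nat.prime_of_mem_primeFactors hp
    have hpg : (p : ℤ) ∣ g := Int.natCast_dvd.2 (Nat.dvd_of_mem_primeFactors hp)
    rw [Finset.mem_filter]
    refine ⟨?_, hpp⟩
    by_contra hpS
    exact not_dvd_g h2 h3 hs hpp hpS ⟨hpg.trans h4, hpg.trans h5⟩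
  calc g.natAbs.factorization.prod (fun p k => p ^ k) =
      ∏ p ∈ g.natAbs.primeFactors, p ^ g.natAbs.factorization p := rfl
    _ ≤ ∏ p ∈ g.natAbs.primeFactors, p ^ 40 := by
        refine Finset.prod_le_prod' fun p hp => ?_
        have hpp := Nat.prime_of_mem_primeFactors hp
        refine Nat.pow_le_pow_right hpp.pos ?_
        by_contra hcon
        push Not at hcon
        have h6 : p ^ 40 ∣ g.natAbs := (hpp.pow_dvd_iff_le_factorization hn0).2 hcon.le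
        have h7 : (p : ℤ) ^ 40 ∣ g := by
          rw [← Int.natCast_pow, Int.natCast_dvd]
          exact h6
        exact no_forty hmin hpp ⟨h7.trans h4, h7.trans h5⟩
    _ ≤ ∏ p ∈ S.filter Nat.Prime, p ^ 40 := by
        refine Finset.prod_le_prod_of_subset_of_one_le' hsub ?_
        intro p hp _
        rw [Finset.mem_filter] at hp
        exact Nat.one_le_pow _ _ hp.2.pos

/-- the height of the invariant in terms of the coefficients -/
lemma hj_le {q : ℤ × ℤ} (hD : Dsc q.1 q.2 ≠ 0) :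
    hj q ≤ Real.log (max (6912 * |(q.1 : ℝ)| ^ 3) |((Dsc q.1 q.2 : ℤ) : ℝ)|) := by
  obtain ⟨g, h1, h2⟩ := num_den hD
  have hg0 : g ≠ 0 := by
    rintro rfl
    rw [mul_zero] at h2
    exact hD h2
  have hg1 : (1 : ℝ) ≤ |(g : ℝ)| := by
    have : (1 : ℤ) ≤ |g| := Int.one_le_abs hg0
    exact_mod_cast this
  unfold hj
  rw [Rat.logHeight₁_eq_log_max]
  have hden := (jq q).den_pos
  apply Real.log_le_log
  · have h5 : 0 < max (jq q).num.natAbs (jq q).den := lt_max_of_lt_right hden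
    exact_mod_cast h5
  · push_cast
    apply max_le_max
    · have e : (6912 * |(q.1 : ℝ)| ^ 3) = |((jq q).num : ℝ)| * |(g : ℝ)| := by
        have : (((6912 * q.1 ^ 3 : ℤ)) : ℝ) = (((jq q).num * g : ℤ) : ℝ) := by rw [h1]
        push_cast at this
        rw [← abs_mul, ← this, abs_mul, abs_pow]
        norm_num
      rw [e, Nat.cast_natAbs]
      push_cast
      exact le_mul_of_one_le_right (abs_nonneg _) hg1
    · have e : |((Dsc q.1 q.2 : ℤ) : ℝ)| = ((jq q).den : ℝ) * |(g : ℝ)| := by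
        rw [h2]
        push_cast
        rw [abs_mul, abs_of_nonneg (Nat.cast_nonneg _)]
      rw [e]
      exact le_mul_of_one_le_right (Nat.cast_nonneg _) hg1

lemma hj_nonneg (q : ℤ × ℤ) : 0 ≤ hj q := Height.zero_le_logHeight₁ _

lemma hj_ge {S : Finset ℕ} (h2 : 2 ∈ S) (h3 : 3 ∈ S) {q : ℤ × ℤ} (hmin : IsMn q.1 q.2)
    (hs : Sst S q) : 6912 * |(q.1 : ℝ)| ^ 3 ≤ GS S * Real.exp (hj q) ∧
      |((Dsc q.1 q.2 : ℤ) : ℝ)| ≤ GS S * Real.exp (hj q) := by
  obtain ⟨g, k1, k2⟩ := num_den hmin.1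
  have hg : (|g| : ℤ) ≤ GS S := by
    have := g_bound h2 h3 hmin hs (g := g) ⟨(jq q).num, by rw [k1]; ring⟩
      ⟨(jq q).den, by rw [k2]; ring⟩
    rw [Int.abs_eq_natAbs]
    exact_mod_cast this
  have hgR : |(g : ℝ)| ≤ (GS S : ℝ) := by exact_mod_cast hg
  have hden := (jq q).den_pos
  have hmax : Real.exp (hj q) = max |((jq q).num : ℝ)| ((jq q).den : ℝ) := by
    unfold hj
    rw [Rat.logHeight₁_eq_log_max, Real.exp_log]
    · push_cast
      rw [Nat.cast_natAbs]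
      push_cast
      rfl
    · have h5 : 0 < max (jq q).num.natAbs (jq q).den := lt_max_of_lt_right hden
      exact_mod_cast h5
  constructor
  · have e : (6912 * |(q.1 : ℝ)| ^ 3) = |((jq q).num : ℝ)| * |(g : ℝ)| := by
      have : (((6912 * q.1 ^ 3 : ℤ)) : ℝ) = (((jq q).num * g : ℤ) : ℝ) := by rw [k1]
      push_cast at this
      rw [← abs_mul, ← this, abs_mul, abs_pow]
      norm_num
    rw [e, hmax, mul_comm]
    exact mul_le_mul hgR (le_max_left _ _) (abs_nonneg _) (Nat.cast_nonneg _)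
  · have e : |((Dsc q.1 q.2 : ℤ) : ℝ)| = ((jq q).den : ℝ) * |(g : ℝ)| := by
      rw [k2]
      push_cast
      rw [abs_mul, abs_of_nonneg (Nat.cast_nonneg _)]
    rw [e, hmax, mul_comm]
    exact mul_le_mul hgR (le_max_right _ _) (Nat.cast_nonneg _) (Nat.cast_nonneg _)

/-- the truncated counting function -/
noncomputable def tr (S : Finset ℕ) (q : ℤ × ℤ) : ℝ :=
  ∑ p ∈ (jq q).den.primeFactors.filter (fun p => p ∉ S), Real.log p

/-- the product of the primes outside `S` which divide the discriminant -/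
def TT (S : Finset ℕ) (q : ℤ × ℤ) : ℕ :=
  ∏ p ∈ (Dsc q.1 q.2).natAbs.primeFactors.filter (fun p => p ∉ S), p

lemma TT_pos (S : Finset ℕ) (q : ℤ × ℤ) : 0 < TT S q := by
  apply Finset.prod_pos
  intro p hp
  rw [Finset.mem_filter] at hp
  exact (Nat.prime_of_mem_primeFactors hp.1).pos

lemma tr_eq {S : Finset ℕ} (h2 : 2 ∈ S) (h3 : 3 ∈ S) {q : ℤ × ℤ} (hD : Dsc q.1 q.2 ≠ 0)
    (hs : Sst S q) : tr S q = Real.log (TT S q : ℝ) := by
  obtain ⟨g, k1, k2⟩ := num_den hD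
  have hset : (jq q).den.primeFactors.filter (fun p => p ∉ S) =
      (Dsc q.1 q.2).natAbs.primeFactors.filter (fun p => p ∉ S) := by
    ext p
    rw [Finset.mem_filter, Finset.mem_filter]
    constructor
    · rintro ⟨hp, hpS⟩
      refine ⟨?_, hpS⟩
      rw [Nat.mem_primeFactors]
      refine ⟨Nat.prime_of_mem_primeFactors hp, ?_, Int.natAbs_ne_zero.2 hD⟩
      have h4 := Nat.dvd_of_mem_primeFactors hp
      rw [← Int.natCast_dvd, k2]
      exact Dvd.dvd.mul_right (Int.natCast_dvd_natCast.2 h4) _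
    · rintro ⟨hp, hpS⟩
      refine ⟨?_, hpS⟩
      have hpp := Nat.prime_of_mem_primeFactors hp
      have h4 : (p : ℤ) ∣ Dsc q.1 q.2 := Int.natCast_dvd.2 (Nat.dvd_of_mem_primeFactors hp)
      have hpg : ¬ (p : ℤ) ∣ g := by
        intro h
        refine not_dvd_g h2 h3 hs hpp hpS ⟨?_, h4⟩
        rw [k1]
        exact Dvd.dvd.mul_left h _
      rw [Nat.mem_primeFactors]
      refine ⟨hpp, ?_, (jq q).den_nz⟩
      rw [k2] at h4
      rcases (Nat.prime_iff_prime_int.1 hpp).dvd_or_dvd h4 with h5 | h5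
      · exact Int.natCast_dvd_natCast.1 h5
      · exact absurd h5 hpg
  unfold tr TT
  rw [hset]
  push_cast
  rw [Real.log_prod]
  intro p hp
  rw [Finset.mem_filter] at hp
  exact_mod_cast (Nat.prime_of_mem_primeFactors hp.1).ne_zero

lemma TT_le {S : Finset ℕ} (h2 : 2 ∈ S) (h3 : 3 ∈ S) (q : ℤ × ℤ) : TT S q ≤ Cnd q.1 q.2 := by
  unfold TT Cnd
  have hsub : (Dsc q.1 q.2).natAbs.primeFactors.filter (fun p => p ∉ S) ⊆
      (Dsc q.1 q.2).natAbs.primeFactors.filter (fun p => 5 ≤ p) := by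
    intro p hp
    rw [Finset.mem_filter] at hp ⊢
    refine ⟨hp.1, ?_⟩
    have hpp := Nat.prime_of_mem_primeFactors hp.1
    have h4 := hpp.two_le
    by_contra hcon
    push Not at hcon
    interval_cases p
    · exact hp.2 h2
    · exact hp.2 h3
    · exact absurd hpp (by norm_num)
  refine le_trans ?_ (Finset.prod_le_prod_of_subset_of_one_le' hsub ?_)
  · refine Finset.prod_le_prod' fun p hp => ?_
    rw [Finset.mem_filter] at hp
    have hpp := Nat.prime_of_mem_primeFactors hp.1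
    split_ifs
    · exact Nat.le_self_pow (by norm_num) p
    · exact le_rfl
  · intro p hp _
    rw [Finset.mem_filter] at hp
    have hpp := Nat.prime_of_mem_primeFactors hp.1
    split_ifs
    · exact Nat.one_le_pow _ _ hpp.pos
    · exact hpp.one_lt.le

lemma Cnd_le {S : Finset ℕ} {q : ℤ × ℤ} (hs : Sst S q) : Cnd q.1 q.2 ≤ TT S q * GS S := by
  classical
  unfold Cnd
  set A := (Dsc q.1 q.2).natAbs.primeFactors.filter (fun p => 5 ≤ p) with hA
  rw [← Finset.prod_filter_mul_prod_filter_not A (fun p => p ∉ S)]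
  apply Nat.mul_le_mul
  · unfold TT
    have h1 : ∏ p ∈ A.filter (fun p => p ∉ S), (if (p : ℤ) ∣ q.1 then p ^ 2 else p) =
        ∏ p ∈ A.filter (fun p => p ∉ S), p := by
      refine Finset.prod_congr rfl fun p hp => ?_
      rw [Finset.mem_filter, hA, Finset.mem_filter] at hp
      obtain ⟨⟨hp1, hp2⟩, hpS⟩ := hp
      have hpp := Nat.prime_of_mem_primeFactors hp1
      rw [if_neg]
      intro h
      have h4 : (p : ℤ) ∣ Dsc q.1 q.2 := Int.natCast_dvd.2 (Nat.dvd_of_mem_primeFactors hp1)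
      have hpZ : Prime (p : ℤ) := Nat.prime_iff_prime_int.1 hpp
      apply hs p hpp hpS ⟨h, ?_⟩
      have e : 27 * q.2 ^ 2 = 4 * q.1 ^ 3 - Dsc q.1 q.2 := by unfold Dsc; ring
      have h6 : (p : ℤ) ∣ 27 * q.2 ^ 2 := by
        rw [e]
        exact dvd_sub (Dvd.dvd.mul_left (dvd_pow h (by norm_num)) _) h4
      rcases hpZ.dvd_or_dvd h6 with h7 | h7
      · exfalso
        have e : (27 : ℤ) = 3 ^ 3 := by norm_num
        rw [e] at h7
        have h8 := hpZ.dvd_of_dvd_pow h7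
        have h9 : p ∣ 3 := by exact_mod_cast h8
        have := Nat.le_of_dvd (by norm_num) h9
        omega
      · exact hpZ.dvd_of_dvd_pow h7
    rw [h1]
    refine Finset.prod_le_prod_of_subset_of_one_le' ?_ ?_
    · intro p hp
      rw [Finset.mem_filter, hA, Finset.mem_filter] at hp
      rw [Finset.mem_filter]
      exact ⟨hp.1.1, hp.2⟩
    · intro p hp _
      rw [Finset.mem_filter] at hp
      exact (Nat.prime_of_mem_primeFactors hp.1).one_lt.le
  · unfold GS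
    refine le_trans (Finset.prod_le_prod' (g := fun p => p ^ 40) fun p hp => ?_)
      (Finset.prod_le_prod_of_subset_of_one_le' ?_ ?_)
    · rw [Finset.mem_filter, hA, Finset.mem_filter] at hp
      have hpp := Nat.prime_of_mem_primeFactors hp.1.1
      split_ifs
      · exact Nat.pow_le_pow_right hpp.pos (by norm_num)
      · exact Nat.le_self_pow (by norm_num) p
    · intro p hp
      rw [Finset.mem_filter, hA, Finset.mem_filter] at hp
      rw [Finset.mem_filter]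
      exact ⟨not_not.1 hp.2, Nat.prime_of_mem_primeFactors hp.1.1⟩
    · intro p hp _
      rw [Finset.mem_filter] at hp
      exact Nat.one_le_pow _ _ hp.2.pos

end Pool.Agent.X12.Stk
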