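import Pool.Agent.X12.Stk1
import Pool.Agent.X12.Szp8

/-!
# Integral points of the stack of generalised elliptic curves: counting
-/

set_option autoImplicit false

namespace Pool.Agent.X12.Stk

open Finset Filter Topology Pool.Agent.H328R2.ABC Pool.Agent.X12.Szp

/-- the points which violate the inequality of slope `θ` -/
def VS (S : Finset ℕ) (θ c : ℝ) : Set (ℤ × ℤ) :=
  {q | IsMn q.1 q.2 ∧ Sst S q ∧ tr S q < θ * (hj q / 6) + c}

lemma max_le_box {X : ℝ} (hX : 0 ≤ X) {q : ℤ × ℤ} (h : Box X q) :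
    max (6912 * |(q.1 : ℝ)| ^ 3) |((Dsc q.1 q.2 : ℤ) : ℝ)| ≤ 6912 * X ^ 6 := by
  obtain ⟨h1, h2⟩ := h
  have e4 : |(q.1 : ℝ)| ^ 3 ≤ X ^ 6 := by
    calc |(q.1 : ℝ)| ^ 3 ≤ (X ^ 2) ^ 3 := by gcongr
      _ = X ^ 6 := by ring
  have e6 : (q.2 : ℝ) ^ 2 ≤ X ^ 6 := by
    rw [← sq_abs]
    calc |(q.2 : ℝ)| ^ 2 ≤ (X ^ 3) ^ 2 := by gcongr
      _ = X ^ 6 := by ring
  have h0 : 0 ≤ X ^ 6 := by positivity
  apply max_le
  · linarith
  · unfold Dsc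
    push_cast
    have h3 : |4 * (q.1 : ℝ) ^ 3 - 27 * (q.2 : ℝ) ^ 2| ≤ 4 * |(q.1 : ℝ)| ^ 3 + 27 * (q.2 : ℝ) ^ 2 := by
      refine (abs_sub _ _).trans (le_of_eq ?_)
      rw [abs_mul, abs_mul, abs_pow, abs_pow, sq_abs]
      norm_num
    linarith

lemma max_pos {q : ℤ × ℤ} (hD : Dsc q.1 q.2 ≠ 0) :
    0 < max (6912 * |(q.1 : ℝ)| ^ 3) |((Dsc q.1 q.2 : ℤ) : ℝ)| := by
  apply lt_max_of_lt_right
  rw [abs_pos]
  exact_mod_cast hD

theorem VS_top (S : Finset ℕ) (h2 : 2 ∈ S) (h3 : 3 ∈ S) (θ c : ℝ) (hθ : 0 < θ) :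
    ∃ K : ℝ, 0 < K ∧ ∀ X : ℝ, 1 ≤ X →
    {q ∈ VS S θ c | Box X q ∧ ¬ Box (X / 2) q} ⊆ TopE (K * X ^ θ) X := by
  have hG : (0 : ℝ) < GS S := by exact_mod_cast GS_pos S
  refine ⟨GS S * (Real.exp c * (6912 : ℝ) ^ (θ / 6)), by positivity, fun X hX => ?_⟩
  rintro q ⟨⟨hmin, hs, hlt⟩, hbox, hnot⟩
  have hX0 : 0 < X := by linarith
  refine ⟨hmin.1, not_dvd_of_isMn hmin, hbox, ?_, ?_⟩
  · by_contra hcon
    push Not at hcon
    apply hnot
    constructor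
    · have : (X / 2) ^ 2 = X ^ 2 / 4 := by ring
      rw [this]
      exact hcon.1.le
    · have : (X / 2) ^ 3 = X ^ 3 / 8 := by ring
      rw [this]
      exact hcon.2.le
  · rw [tr_eq h2 h3 hmin.1 hs] at hlt
    have hT : (0 : ℝ) < TT S q := by exact_mod_cast TT_pos S q
    have h4 : hj q ≤ Real.log (6912 * X ^ 6) :=
      (hj_le hmin.1).trans (Real.log_le_log (max_pos hmin.1) (max_le_box hX0.le hbox))
    have h5 : Real.log (TT S q : ℝ) ≤ θ / 6 * Real.log (6912 * X ^ 6) + c := by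
      have : θ / 6 * hj q ≤ θ / 6 * Real.log (6912 * X ^ 6) := by gcongr
      linarith
    have h6 : (TT S q : ℝ) ≤ Real.exp c * (6912 : ℝ) ^ (θ / 6) * X ^ θ := by
      rw [← Real.exp_log hT]
      refine (Real.exp_le_exp.2 h5).trans (le_of_eq ?_)
      rw [Real.exp_add, mul_comm (θ / 6), ← Real.rpow_def_of_pos (by positivity),
        Real.mul_rpow (by norm_num) (by positivity), ← Real.rpow_natCast X 6,
        ← Real.rpow_mul hX0.le]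
      have : ((6 : ℕ) : ℝ) * (θ / 6) = θ := by
        push_cast
        ring
      rw [this]
      ring
    have h7 : (Cnd q.1 q.2 : ℝ) ≤ (TT S q : ℝ) * (GS S : ℝ) := by exact_mod_cast Cnd_le hs
    calc (Cnd q.1 q.2 : ℝ) ≤ (TT S q : ℝ) * (GS S : ℝ) := h7
      _ ≤ (Real.exp c * (6912 : ℝ) ^ (θ / 6) * X ^ θ) * (GS S : ℝ) := by gcongr
      _ = _ := by ring

/-- **Upper bound** for the violators in a box -/
theorem VS_box (S : Finset ℕ) (h2 : 2 ∈ S) (h3 : 3 ∈ S) (θ c ε : ℝ) (hθ : 0 < θ) (hε : 0 < ε) :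
    ∃ K : ℝ, 0 < K ∧ ∀ X : ℝ, 1 ≤ X →
    (({q ∈ VS S θ c | Box X q}.ncard : ℕ) : ℝ) ≤ K * X ^ (max (θ - 1) 4 + ε) := by
  obtain ⟨K, hK, h1⟩ := VS_top S h2 h3 θ c hθ
  obtain ⟨C, hC, h2⟩ := topE_le ε hε
  set g := max (θ - 1) 4 with hg
  have hg4 : (4 : ℝ) ≤ g := le_max_right _ _
  refine dyadic (VS S θ c) (C * (K + 1)) (g + ε) (by positivity) (by linarith) fun X hX => ?_
  have hX0 : 0 < X := by linarith
  have e1 : (({q ∈ VS S θ c | Box X q ∧ ¬ Box (X / 2) q}.ncard : ℕ) : ℝ) ≤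
      ((TopE (K * X ^ θ) X).ncard : ℝ) := by
    exact_mod_cast Set.ncard_le_ncard (h1 X hX) (TopE_finite _ _)
  refine e1.trans ((h2 _ X (by positivity) hX).trans ?_)
  have e2 : K * X ^ θ / X = K * X ^ (θ - 1) := by
    rw [Real.rpow_sub_one hX0.ne']
    ring
  have e3 : X ^ (θ - 1) ≤ X ^ g :=
    Real.rpow_le_rpow_of_exponent_le hX (le_max_left _ _)
  have e4 : X ^ (4 : ℝ) ≤ X ^ g := Real.rpow_le_rpow_of_exponent_le hX hg4
  rw [e2, Real.rpow_add hX0]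
  have e5 : 0 < X ^ ε := Real.rpow_pos_of_pos hX0 _
  calc C * X ^ ε * (K * X ^ (θ - 1) + X ^ (4 : ℝ)) ≤
      C * X ^ ε * (K * X ^ g + X ^ g) := by gcongr
    _ = C * (K + 1) * (X ^ g * X ^ ε) := by ring

/-- the integral points of height at most `H` -/
def PH (S : Finset ℕ) (H : ℝ) : Set (ℤ × ℤ) :=
  {q | IsMn q.1 q.2 ∧ Sst S q ∧ hj q ≤ Real.log H}

theorem PH_box {S : Finset ℕ} (h2 : 2 ∈ S) (h3 : 3 ∈ S) {H : ℝ} (hH : 1 ≤ H) :
    PH S H ⊆ {q : ℤ × ℤ | Box ((GS S * H) ^ (1 / 6 : ℝ)) q} := by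
  rintro q ⟨hmin, hs, hh⟩
  have hG : (0 : ℝ) < GS S := by exact_mod_cast GS_pos S
  have hH0 : 0 < H := by linarith
  obtain ⟨k1, k2⟩ := hj_ge h2 h3 hmin hs
  have k3 : Real.exp (hj q) ≤ H := by
    rw [← Real.exp_log hH0]
    exact Real.exp_le_exp.2 hh
  have k4 : (GS S : ℝ) * Real.exp (hj q) ≤ GS S * H := by gcongr
  have hX : 0 ≤ (GS S * H) ^ (1 / 6 : ℝ) := Real.rpow_nonneg (by positivity) _
  have h6 : ((GS S * H) ^ (1 / 6 : ℝ)) ^ 6 = GS S * H := sixth (by positivity)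
  have k5 : 0 ≤ |(q.1 : ℝ)| ^ 3 := by positivity
  constructor
  · refine (pow_le_pow_iff_left₀ (abs_nonneg _) (by positivity) (by norm_num : 3 ≠ 0)).1 ?_
    rw [← pow_mul, h6]
    linarith
  · refine (pow_le_pow_iff_left₀ (abs_nonneg _) (by positivity) (by norm_num : 2 ≠ 0)).1 ?_
    rw [sq_abs, ← pow_mul, h6]
    have e : 27 * (q.2 : ℝ) ^ 2 = 4 * (q.1 : ℝ) ^ 3 - ((Dsc q.1 q.2 : ℤ) : ℝ) := by
      unfold Dsc
      push_cast
      ring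
    have e1 : (q.1 : ℝ) ^ 3 ≤ |(q.1 : ℝ)| ^ 3 := by
      rw [← abs_pow]
      exact le_abs_self _
    have e2 := neg_le_abs ((Dsc q.1 q.2 : ℤ) : ℝ)
    linarith

theorem PH_finite {S : Finset ℕ} (h2 : 2 ∈ S) (h3 : 3 ∈ S) {H : ℝ} (hH : 1 ≤ H) :
    (PH S H).Finite := (Box_finite _).subset (PH_box h2 h3 hH)

lemma one_le_GH (S : Finset ℕ) {H : ℝ} (hH : 1 ≤ H) : 1 ≤ (GS S * H) ^ (1 / 6 : ℝ) := by
  have hG : (1 : ℝ) ≤ GS S := by exact_mod_cast GS_pos S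
  exact Real.one_le_rpow (one_le_mul_of_one_le_of_one_le hG hH) (by norm_num)

/-- the number of the points -/
theorem PH_upper {S : Finset ℕ} (h2 : 2 ∈ S) (h3 : 3 ∈ S) : ∃ C : ℝ, 0 < C ∧
    ∀ H : ℝ, 1 ≤ H → ((PH S H).ncard : ℝ) ≤ C * H ^ (5 / 6 : ℝ) := by
  have hG : (0 : ℝ) < GS S := by exact_mod_cast GS_pos S
  refine ⟨9 * (GS S : ℝ) ^ (5 / 6 : ℝ), by positivity, fun H hH => ?_⟩
  have hH0 : 0 < H := by linarith
  have h1 : ((PH S H).ncard : ℝ) ≤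
      (({q : ℤ × ℤ | Box ((GS S * H) ^ (1 / 6 : ℝ)) q}.ncard : ℕ) : ℝ) := by
    exact_mod_cast Set.ncard_le_ncard (PH_box h2 h3 hH) (Box_finite _)
  refine h1.trans ((Box_card (one_le_GH S hH)).trans (le_of_eq ?_))
  rw [← Real.rpow_natCast, ← Real.rpow_mul (by positivity), mul_assoc,
    ← Real.mul_rpow hG.le hH0.le]
  norm_num

/-- the violators of height at most `H` -/
def QH (S : Finset ℕ) (θ c H : ℝ) : Set (ℤ × ℤ) :=
  {q ∈ PH S H | tr S q < θ * (hj q / 6) + c}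

theorem QH_upper {S : Finset ℕ} (h2 : 2 ∈ S) (h3 : 3 ∈ S) (θ c ε : ℝ) (hθ : 0 < θ) (hε : 0 < ε) :
    ∃ C : ℝ, 0 < C ∧ ∀ H : ℝ, 1 ≤ H →
    ((QH S θ c H).ncard : ℝ) ≤ C * H ^ (max ((θ - 1) / 6) (2 / 3) + ε) := by
  have hG : (0 : ℝ) < GS S := by exact_mod_cast GS_pos S
  obtain ⟨K, hK, h⟩ := VS_box S h2 h3 θ c (6 * ε) hθ (by positivity)
  set g := max ((θ - 1) / 6) (2 / 3) + ε with hg
  refine ⟨K * (GS S : ℝ) ^ g, by positivity, fun H hH => ?_⟩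
  have hH0 : 0 < H := by linarith
  have hsub : QH S θ c H ⊆ {q ∈ VS S θ c | Box ((GS S * H) ^ (1 / 6 : ℝ)) q} := by
    rintro q ⟨hq, hlt⟩
    exact ⟨⟨hq.1, hq.2.1, hlt⟩, PH_box h2 h3 hH hq⟩
  have h1 : ((QH S θ c H).ncard : ℝ) ≤
      (({q ∈ VS S θ c | Box ((GS S * H) ^ (1 / 6 : ℝ)) q}.ncard : ℕ) : ℝ) := by
    exact_mod_cast Set.ncard_le_ncard hsub ((Box_finite _).subset fun q hq => hq.2)
  refine h1.trans ((h _ (one_le_GH S hH)).trans (le_of_eq ?_))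
  rw [← Real.rpow_mul (by positivity), mul_assoc, ← Real.mul_rpow hG.le hH0.le]
  congr 2
  have h4 : max (θ - 1) 4 = 6 * max ((θ - 1) / 6) (2 / 3) := by
    rw [mul_max_of_nonneg _ _ (by norm_num)]
    congr 1
    · ring
    · norm_num
  rw [h4, hg]
  ring

/-- no additive primes `≥ 5` -/
def NoAdd (q : ℤ × ℤ) : Prop := ∀ p : ℕ, p.Prime → 5 ≤ p → ¬ ((p : ℤ) ∣ q.1 ∧ (p : ℤ) ∣ q.2)

lemma model_noadd {W : WeierstrassCurve ℤ} {q : ℤ × ℤ} (hcop : IsCoprime W.c₄ W.Δ)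
    (h : Model W q) : NoAdd q := by
  rintro p hp hp5 ⟨h1, h2⟩
  have hpZ : Prime (p : ℤ) := Nat.prime_iff_prime_int.1 hp
  have key : (p : ℤ) ∣ W.c₄ → (p : ℤ) ∣ W.c₆ → False := by
    intro h4 h6
    have h7 : (p : ℤ) ∣ 1728 * W.Δ := by
      rw [W.c_relation]
      exact dvd_sub (dvd_pow h4 (by norm_num)) (dvd_pow h6 (by norm_num))
    rcases hpZ.dvd_or_dvd h7 with h8 | h8
    · have e : (1728 : ℤ) = 12 ^ 3 := by norm_num
      rw [e] at h8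
      have h9 := hpZ.dvd_of_dvd_pow h8
      have h10 : p ∣ 12 := by exact_mod_cast h9
      have e : (12 : ℕ) = 2 ^ 2 * 3 := by norm_num
      rw [e] at h10
      rcases (Nat.Prime.dvd_mul hp).1 h10 with h11 | h11
      · have := Nat.le_of_dvd (by norm_num) (hp.dvd_of_dvd_pow h11)
        omega
      · have := Nat.le_of_dvd (by norm_num) h11
        omega
    · exact hpZ.not_isUnit (hcop.isUnit_of_dvd' h4 h8)
  have hno : ∀ k : ℤ, (k = 27 ∨ k = 54 ∨ k = 2) → ¬ (p : ℤ) ∣ k := by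
    intro k hk hd
    have h3 : ¬ (p : ℤ) ∣ 3 := by
      intro h
      have h10 : p ∣ 3 := by exact_mod_cast h
      have := Nat.le_of_dvd (by norm_num) h10
      omega
    have h2 : ¬ (p : ℤ) ∣ 2 := by
      intro h
      have h10 : p ∣ 2 := by exact_mod_cast h
      have := Nat.le_of_dvd (by norm_num) h10
      omega
    rcases hk with rfl | rfl | rfl
    · have e : (27 : ℤ) = 3 ^ 3 := by norm_num
      rw [e] at hd
      exact h3 (hpZ.dvd_of_dvd_pow hd)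
    · have e : (54 : ℤ) = 2 * 3 ^ 3 := by norm_num
      rw [e] at hd
      rcases hpZ.dvd_or_dvd hd with h | h
      · exact h2 h
      · exact h3 (hpZ.dvd_of_dvd_pow h)
    · exact h2 hd
  rcases h with ⟨h4, -⟩ | ⟨h4, h5, -⟩
  · rw [h4] at h1 h2
    simp only at h1 h2
    refine key ?_ ?_
    · exact (hpZ.dvd_or_dvd h1).resolve_left (hno 27 (Or.inl rfl))
    · exact (hpZ.dvd_or_dvd h2).resolve_left (hno 54 (Or.inr (Or.inl rfl)))
  · refine key ?_ ?_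
    · rw [h4]
      exact Dvd.dvd.mul_left h1 _
    · have h6 : (p : ℤ) ∣ 2 * W.c₆ := by
        rw [h5]
        exact Dvd.dvd.mul_left h2 _
      exact (hpZ.dvd_or_dvd h6).resolve_left (hno 2 (Or.inr (Or.inr rfl)))

/-- the transfer of the lower bound -/
theorem ExK_le' (c κ : ℝ) (hc : 0 < c) (hκ : 1 ≤ κ) : ∃ K0 : ℝ, 1 ≤ K0 ∧ ∀ X : ℝ, 0 ≤ X →
    ((ExK K0 κ X).ncard : ℝ) ≤ 2 * (({q ∈ BD c κ X | NoAdd q}.ncard : ℕ) : ℝ) := by
  classical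
  have hκ0 : 0 < κ := by linarith
  set K0 := max 1 ((136048896 * c) ^ (1 / κ)) with hK0
  refine ⟨K0, le_max_left _ _, fun X hX => ?_⟩
  have hK0' : 136048896 * c ≤ K0 ^ κ := by
    have h1 : ((136048896 * c) ^ (1 / κ)) ^ κ = 136048896 * c := by
      rw [← Real.rpow_mul (by positivity), one_div_mul_cancel hκ0.ne', Real.rpow_one]
    rw [← h1]
    exact Real.rpow_le_rpow (by positivity) (le_max_right _ _) hκ0.le
  have hfin : {q ∈ BD c κ X | NoAdd q}.Finite := (BD_finite c κ hX).subset fun q hq => hq.1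
  have hsub : ExK K0 κ X ⊆
      (fun q : ℤ × ℤ => (q.1 / 27, q.2 / 54)) '' {q ∈ BD c κ X | NoAdd q} ∪
      (fun q : ℤ × ℤ => (3 * q.1, 27 * q.2 / 2)) '' {q ∈ BD c κ X | NoAdd q} := by
    rintro q ⟨W, h0, hcop, rfl, h1, h2, h3⟩
    obtain ⟨q', hq'⟩ := exists_model h0 hcop
    have hmem : q' ∈ {q ∈ BD c κ X | NoAdd q} := by
      refine ⟨⟨⟨model_min hq', ?_⟩, model_box hq' h1 h2⟩, model_noadd hcop hq'⟩
      have h4 := (minD_bounds (model_min hq')).2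
      have h5 : |(W.Δ : ℝ)| ≤ |((Dsc q'.1 q'.2 : ℤ) : ℝ)| := by
        have := abs_nonneg (W.Δ : ℝ)
        rcases model_disc hq' with h4 | h4
        · rw [h4]
          push_cast
          rw [abs_mul, abs_of_pos (by norm_num : (0 : ℝ) < 136048896)]
          linarith
        · rw [h4]
          push_cast
          rw [abs_mul, abs_of_pos (by norm_num : (0 : ℝ) < 256)]
          linarith
      have h6 : (Cnd q'.1 q'.2 : ℝ) ≤ (rad W.Δ.natAbs : ℝ) := by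
        exact_mod_cast model_cnd h0 hcop hq'
      have hr : (0 : ℝ) < rad W.Δ.natAbs := by exact_mod_cast rad_pos _
      have h7 : (Cnd q'.1 q'.2 : ℝ) ^ κ ≤ (rad W.Δ.natAbs : ℝ) ^ κ :=
        Real.rpow_le_rpow (Cnd_pos' q').le h6 hκ0.le
      have hK00 : 0 < K0 := lt_of_lt_of_le one_pos (le_max_left _ _)
      rw [Real.mul_rpow hK00.le hr.le] at h3
      have h8 : 136048896 * c * (Cnd q'.1 q'.2 : ℝ) ^ κ ≤ K0 ^ κ * (rad W.Δ.natAbs : ℝ) ^ κ := by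
        have : 0 ≤ (Cnd q'.1 q'.2 : ℝ) ^ κ := Real.rpow_nonneg (Cnd_pos' q').le _
        gcongr
      linarith
    rcases hq' with ⟨h4, -⟩ | ⟨h4, h5, -⟩
    · left
      refine ⟨q', hmem, ?_⟩
      rw [h4]
      simp only
      rw [Int.mul_ediv_cancel_left _ (by norm_num), Int.mul_ediv_cancel_left _ (by norm_num)]
    · right
      refine ⟨q', hmem, ?_⟩
      simp only
      rw [← h5, Int.mul_ediv_cancel_left _ (by norm_num), h4]
  have h1 := Set.ncard_le_ncard hsub ((hfin.image _).union (hfin.image _))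
  have h2 := h1.trans (Set.ncard_union_le _ _)
  have h3 := Set.ncard_image_le (f := fun q : ℤ × ℤ => (q.1 / 27, q.2 / 54)) hfin
  have h4 := Set.ncard_image_le (f := fun q : ℤ × ℤ => (3 * q.1, 27 * q.2 / 2)) hfin
  have h5 : (ExK K0 κ X).ncard ≤ 2 * ({q ∈ BD c κ X | NoAdd q}).ncard := by omega
  exact_mod_cast h5

/-- **Lower bound** -/
theorem HD_lower' (c κ ε : ℝ) (hc : 0 < c) (hκ : 1 ≤ κ) (hκ6 : κ < 6) (hε : 0 < ε) :
    ∃ H₀ : ℝ, ∀ H : ℝ, H₀ ≤ H → H ^ (1 / κ - 1 / 6 - ε) ≤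
      (({q ∈ HD c κ H | NoAdd q}.ncard : ℕ) : ℝ) := by
  obtain ⟨K0, hK0, h1⟩ := ExK_le' c κ hc hκ
  obtain ⟨X1, h2⟩ := lower_allK K0 hK0 κ (3 * ε) hκ hκ6 (by positivity)
  set a : ℝ := (1 / 78732) ^ (1 / 6 : ℝ) with ha
  have ha0 : 0 < a := by positivity
  have ha6 : a ^ 6 = 1 / 78732 := sixth (by norm_num)
  set e := 6 / κ - 1 - 3 * ε with he
  have t0 : Tendsto (fun H : ℝ => H ^ (1 / 6 : ℝ)) atTop atTop :=
    tendsto_rpow_atTop (by norm_num)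
  have t1 : Tendsto (fun H : ℝ => a * H ^ (1 / 6 : ℝ)) atTop atTop :=
    Tendsto.const_mul_atTop ha0 t0
  have t2 : Tendsto (fun H : ℝ => H ^ (ε / 2)) atTop atTop := tendsto_rpow_atTop (by positivity)
  have hfin : ∀ᶠ H : ℝ in atTop, H ^ (1 / κ - 1 / 6 - ε) ≤
      (({q ∈ HD c κ H | NoAdd q}.ncard : ℕ) : ℝ) := by
    filter_upwards [t1.eventually_ge_atTop X1, t2.eventually_ge_atTop (2 / a ^ e),
      eventually_ge_atTop 1] with H h3 h4 h5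
    have hH0 : 0 < H := by linarith
    have hX0 : 0 ≤ a * H ^ (1 / 6 : ℝ) := by positivity
    have h6 := h2 _ h3
    have h7 := h1 _ hX0
    have h8 : {q ∈ BD c κ (a * H ^ (1 / 6 : ℝ)) | NoAdd q} ⊆ {q ∈ HD c κ H | NoAdd q} := by
      rintro q ⟨⟨⟨k1, k2⟩, k3, k4⟩, k5⟩
      have e1 : 78732 * (a * H ^ (1 / 6 : ℝ)) ^ 6 = H := by
        rw [mul_pow, ha6, sixth hH0.le]
        ring
      rw [e1] at k3 k4
      exact ⟨⟨k1, k3, k4, k2⟩, k5⟩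
    have h9 : (({q ∈ BD c κ (a * H ^ (1 / 6 : ℝ)) | NoAdd q}.ncard : ℕ) : ℝ) ≤
        (({q ∈ HD c κ H | NoAdd q}.ncard : ℕ) : ℝ) := by
      exact_mod_cast Set.ncard_le_ncard h8 ((HD_finite c κ H).subset fun q hq => hq.1)
    have hae : 0 < a ^ e := Real.rpow_pos_of_pos ha0 _
    rw [Real.mul_rpow ha0.le (by positivity), ← Real.rpow_mul hH0.le] at h6
    rw [div_le_iff₀ hae] at h4
    have h10 : H ^ (1 / 6 * e) = H ^ (1 / κ - 1 / 6 - ε) * H ^ (ε / 2) := by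
      rw [← Real.rpow_add hH0, he]
      congr 1
      ring
    have h11 : 0 < H ^ (1 / κ - 1 / 6 - ε) := Real.rpow_pos_of_pos hH0 _
    have h12 : 2 * H ^ (1 / κ - 1 / 6 - ε) ≤ a ^ e * H ^ (1 / 6 * e) := by
      rw [h10]
      calc 2 * H ^ (1 / κ - 1 / 6 - ε) ≤ (H ^ (ε / 2) * a ^ e) * H ^ (1 / κ - 1 / 6 - ε) := by
            gcongr
        _ = _ := by ring
    linarith
  exact eventually_atTop.1 hfin

theorem HD_sub_QH {S : Finset ℕ} (h2 : 2 ∈ S) (h3 : 3 ∈ S) {θ : ℝ} (c : ℝ) (hθ : 0 < θ)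
    {H : ℝ} (hH : 1 ≤ H) :
    {q ∈ HD (16 * GS S * Real.exp (-(c * (6 / θ)))) (6 / θ) (H / 1728) | NoAdd q} ⊆
      QH S θ c H := by
  rintro q ⟨⟨hmin, k1, k2, k3⟩, hno⟩
  have hG : (0 : ℝ) < GS S := by exact_mod_cast GS_pos S
  have hH0 : 0 < H := by linarith
  have hs : Sst S q := by
    intro p hp hpS
    refine hno p hp ?_
    have h4 := hp.two_le
    by_contra hcon
    push Not at hcon
    interval_cases p
    · exact hpS h2
    · exact hpS h3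
    · exact absurd hp (by norm_num)
  have hmax : max (6912 * |(q.1 : ℝ)| ^ 3) |((Dsc q.1 q.2 : ℤ) : ℝ)| ≤ H := by
    have k0 : 0 ≤ |(q.1 : ℝ)| ^ 3 := by positivity
    apply max_le
    · linarith
    · unfold Dsc
      push_cast
      have h3 : |4 * (q.1 : ℝ) ^ 3 - 27 * (q.2 : ℝ) ^ 2| ≤
          4 * |(q.1 : ℝ)| ^ 3 + 27 * (q.2 : ℝ) ^ 2 := by
        refine (abs_sub _ _).trans (le_of_eq ?_)
        rw [abs_mul, abs_mul, abs_pow, abs_pow, sq_abs]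
        norm_num
      linarith
  have hhj : hj q ≤ Real.log H :=
    (hj_le hmin.1).trans (Real.log_le_log (max_pos hmin.1) hmax)
  refine ⟨⟨hmin, hs, hhj⟩, ?_⟩
  rw [tr_eq h2 h3 hmin.1 hs]
  have hT : (0 : ℝ) < TT S q := by exact_mod_cast TT_pos S q
  have hTC : (TT S q : ℝ) ≤ (Cnd q.1 q.2 : ℝ) := by exact_mod_cast TT_le h2 h3 q
  have hC := Cnd_pos' q
  have k4 := (minD_bounds hmin).1
  have k5 := (hj_ge h2 h3 hmin hs).2
  have k6 : 16 * GS S * Real.exp (-(c * (6 / θ))) * (Cnd q.1 q.2 : ℝ) ^ (6 / θ) <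
      16 * (GS S * Real.exp (hj q)) := by linarith
  have k7 : Real.exp (-(c * (6 / θ))) * (Cnd q.1 q.2 : ℝ) ^ (6 / θ) < Real.exp (hj q) := by
    have : (0 : ℝ) < 16 * GS S := by positivity
    refine lt_of_mul_lt_mul_left ?_ this.le
    calc 16 * (GS S : ℝ) * (Real.exp (-(c * (6 / θ))) * (Cnd q.1 q.2 : ℝ) ^ (6 / θ)) =
        16 * GS S * Real.exp (-(c * (6 / θ))) * (Cnd q.1 q.2 : ℝ) ^ (6 / θ) := by ring
      _ < 16 * (GS S * Real.exp (hj q)) := k6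
      _ = _ := by ring
  have k8 : (Cnd q.1 q.2 : ℝ) ^ (6 / θ) = Real.exp (Real.log (Cnd q.1 q.2 : ℝ) * (6 / θ)) :=
    Real.rpow_def_of_pos hC _
  rw [k8, ← Real.exp_add, Real.exp_lt_exp] at k7
  have k9 : (Real.log (Cnd q.1 q.2 : ℝ) - c) * (6 / θ) < hj q := by linarith
  rw [mul_div_assoc', div_lt_iff₀ hθ] at k9
  have k10 := Real.log_le_log hT hTC
  linarith

theorem QH_finite {S : Finset ℕ} (h2 : 2 ∈ S) (h3 : 3 ∈ S) (θ c : ℝ) {H : ℝ} (hH : 1 ≤ H) :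
    (QH S θ c H).Finite := (PH_finite h2 h3 hH).subset fun _ hq => hq.1

/-- **Lower bound** for the violators -/
theorem QH_lower {S : Finset ℕ} (h2 : 2 ∈ S) (h3 : 3 ∈ S) (θ c ε : ℝ) (h1 : 1 < θ) (h6 : θ ≤ 6)
    (hε : 0 < ε) : ∃ H₀ : ℝ, ∀ H : ℝ, H₀ ≤ H →
      H ^ ((θ - 1) / 6 - ε) ≤ ((QH S θ c H).ncard : ℝ) := by
  have hθ : 0 < θ := by linarith
  have hG : (0 : ℝ) < GS S := by exact_mod_cast GS_pos S
  obtain ⟨H0, h⟩ := HD_lower' (16 * GS S * Real.exp (-(c * (6 / θ)))) (6 / θ) (ε / 2) (by positivity)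
    (by rw [le_div_iff₀ hθ]; linarith) (by rw [div_lt_iff₀ hθ]; linarith) (by positivity)
  set e := 1 / (6 / θ) - 1 / 6 - ε / 2 with he
  have e1 : e = (θ - 1) / 6 - ε / 2 := by
    rw [he, one_div_div]
    ring
  have t2 : Tendsto (fun H : ℝ => H ^ (ε / 2)) atTop atTop := tendsto_rpow_atTop (by positivity)
  have hfin : ∀ᶠ H : ℝ in atTop, H ^ ((θ - 1) / 6 - ε) ≤ ((QH S θ c H).ncard : ℝ) := by
    filter_upwards [t2.eventually_ge_atTop ((1728 : ℝ) ^ e), eventually_ge_atTop 1,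
      eventually_ge_atTop (1728 * H0)] with H k1 k2 k3
    have hH0 : 0 < H := by linarith
    have k4 := h (H / 1728) (by linarith)
    have k5 : (({q ∈ HD (16 * GS S * Real.exp (-(c * (6 / θ)))) (6 / θ) (H / 1728) | NoAdd q}.ncard :
        ℕ) : ℝ) ≤ ((QH S θ c H).ncard : ℝ) := by
      exact_mod_cast Set.ncard_le_ncard (HD_sub_QH h2 h3 c hθ k2) (QH_finite h2 h3 θ c k2)
    refine le_trans ?_ (k4.trans k5)
    rw [Real.div_rpow hH0.le (by norm_num), le_div_iff₀ (by positivity)]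
    have k6 : H ^ e = H ^ ((θ - 1) / 6 - ε) * H ^ (ε / 2) := by
      rw [← Real.rpow_add hH0, e1]
      congr 1
      ring
    rw [k6]
    gcongr
  exact eventually_atTop.1 hfin

end Pool.Agent.X12.Stk
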