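import Mathlib
import Pool.Agent.W366.FM.Sqrt
import Pool.Agent.H510R2.Div

/-!
# Squares in residue classes: counting `b` with `b² ≡ c` in an interval
-/

set_option autoImplicit false

namespace Pool.Agent.X12.Szp

open Finset

/-- the number of the square roots of a unit modulo `n` is at most `2 d(n)` -/
theorem roots_card (n : ℕ) [NeZero n] (c : ℤ) (hc : IsCoprime c (n : ℤ)) :
    (Finset.univ.filter fun r : ZMod n => r ^ 2 = (c : ZMod n)).card ≤ 2 * n.divisors.card := by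
  classical
  have hn : 0 < n := Nat.pos_of_ne_zero (NeZero.ne n)
  rcases Finset.eq_empty_or_nonempty
    (Finset.univ.filter fun r : ZMod n => r ^ 2 = (c : ZMod n)) with h | ⟨r0, hr0⟩
  · rw [h, Finset.card_empty]
    exact Nat.zero_le _
  have hr0' : r0 ^ 2 = (c : ZMod n) := (Finset.mem_filter.1 hr0).2
  have k0 := Pool.Agent.W366.FM.Sqrt.root_dvd hr0'
  have hu0 : IsCoprime (r0.val : ℤ) (n : ℤ) := by
    obtain ⟨t, ht⟩ := k0
    have h1 : (c : ℤ) = (r0.val : ℤ) ^ 2 - n * t := by linarith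
    have h2 : IsCoprime ((r0.val : ℤ) ^ 2) (n : ℤ) := by
      have h3 : (r0.val : ℤ) ^ 2 = c + t * n := by rw [h1]; ring
      rw [h3]
      exact IsCoprime.add_mul_right_left hc t
    exact (IsCoprime.pow_left_iff (by norm_num)).1 h2
  have hmaps : ∀ r ∈ (Finset.univ.filter fun r : ZMod n => r ^ 2 = (c : ZMod n)),
      Int.gcd ((r.val : ℤ) - r0.val) n ∈ n.divisors := by
    intro r _
    rw [Nat.mem_divisors]
    refine ⟨?_, by omega⟩
    have : ((Int.gcd ((r.val : ℤ) - r0.val) n : ℕ) : ℤ) ∣ n := Int.gcd_dvd_right _ _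
    exact_mod_cast this
  rw [Finset.card_eq_sum_card_fiberwise hmaps, mul_comm, ← smul_eq_mul, ← Finset.sum_const]
  refine Finset.sum_le_sum fun e _ => ?_
  have hfib : ∀ r ∈ (Finset.univ.filter fun r : ZMod n => r ^ 2 = (c : ZMod n)).filter
      (fun r => Int.gcd ((r.val : ℤ) - r0.val) n = e), (e : ℤ) ∣ (r.val : ℤ) - r0.val ∧
        ((n / e : ℕ) : ℤ) ∣ (r.val : ℤ) + r0.val ∧ e ∣ n := by
    intro r hr
    rw [Finset.mem_filter, Finset.mem_filter] at hr
    refine Pool.Agent.W366.FM.Sqrt.compl_dvd hn hr.2 ?_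
    have k1 := Pool.Agent.W366.FM.Sqrt.root_dvd hr.1.2
    have e1 : ((r.val : ℤ) - r0.val) * ((r.val : ℤ) + r0.val) =
        ((r.val : ℤ) ^ 2 - c) - ((r0.val : ℤ) ^ 2 - c) := by ring
    rw [e1]
    exact dvd_sub k1 k0
  rcases Finset.eq_empty_or_nonempty ((Finset.univ.filter fun r : ZMod n =>
    r ^ 2 = (c : ZMod n)).filter fun r => Int.gcd ((r.val : ℤ) - r0.val) n = e) with h | ⟨r1, hr1⟩
  · rw [h, Finset.card_empty]
    exact Nat.zero_le _
  obtain ⟨d1, d2, d3⟩ := hfib r1 hr1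
  have hen : e * (n / e) = n := Nat.mul_div_cancel' d3
  set m := n / e with hm
  have hgl : Nat.gcd e m * Nat.lcm e m = n := by rw [Nat.gcd_mul_lcm, hen]
  have hcard : ((Finset.univ.filter fun r : ZMod n => r ^ 2 = (c : ZMod n)).filter
      fun r => Int.gcd ((r.val : ℤ) - r0.val) n = e).card ≤ Nat.gcd e m := by
    rw [← Finset.card_range (Nat.gcd e m)]
    refine Finset.card_le_card_of_injOn (fun r => r.val / Nat.lcm e m) ?_ ?_
    · intro r _
      show r.val / Nat.lcm e m ∈ ((Finset.range (Nat.gcd e m) : Finset ℕ) : Set ℕ)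
      rw [Finset.mem_coe, Finset.mem_range]
      refine Nat.div_lt_of_lt_mul ?_
      rw [mul_comm, hgl]
      exact ZMod.val_lt r
    · intro r hr r' hr' hrr
      obtain ⟨p1, p2, -⟩ := hfib r hr
      obtain ⟨q1, q2, -⟩ := hfib r' hr'
      have s1 : (e : ℤ) ∣ (r'.val : ℤ) - r.val := by
        have : (r'.val : ℤ) - r.val = ((r'.val : ℤ) - r0.val) - ((r.val : ℤ) - r0.val) := by ring
        rw [this]
        exact dvd_sub q1 p1
      have s2 : (m : ℤ) ∣ (r'.val : ℤ) - r.val := by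
        have : (r'.val : ℤ) - r.val = ((r'.val : ℤ) + r0.val) - ((r.val : ℤ) + r0.val) := by ring
        rw [this]
        exact dvd_sub q2 p2
      have s3 : ((Nat.lcm e m : ℕ) : ℤ) ∣ (r'.val : ℤ) - r.val :=
        Int.natCast_dvd.2 (Nat.lcm_dvd (Int.natCast_dvd.1 s1) (Int.natCast_dvd.1 s2))
      have s4 : r.val ≡ r'.val [MOD Nat.lcm e m] := Nat.modEq_iff_dvd.2 s3
      apply ZMod.val_injective
      have t1 := Nat.div_add_mod r.val (Nat.lcm e m)
      have t2 := Nat.div_add_mod r'.val (Nat.lcm e m)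
      have t3 : r.val / Nat.lcm e m = r'.val / Nat.lcm e m := hrr
      have t4 : r.val % Nat.lcm e m = r'.val % Nat.lcm e m := s4
      rw [← t1, ← t2, t3, t4]
  refine hcard.trans ?_
  have g1 : ((Nat.gcd e m : ℕ) : ℤ) ∣ e := by exact_mod_cast Nat.gcd_dvd_left e m
  have g2 : ((Nat.gcd e m : ℕ) : ℤ) ∣ m := by exact_mod_cast Nat.gcd_dvd_right e m
  have g3 : ((Nat.gcd e m : ℕ) : ℤ) ∣ 2 * r0.val := by
    have : (2 : ℤ) * r0.val = ((r1.val : ℤ) + r0.val) - ((r1.val : ℤ) - r0.val) := by ring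
    rw [this]
    exact dvd_sub (g2.trans d2) (g1.trans d1)
  have g4 : ((Nat.gcd e m : ℕ) : ℤ) ∣ (n : ℤ) := by
    have : Nat.gcd e m ∣ n := (Nat.gcd_dvd_left e m).trans d3
    exact_mod_cast this
  have g5 : IsCoprime ((Nat.gcd e m : ℕ) : ℤ) (r0.val : ℤ) :=
    (hu0.of_isCoprime_of_dvd_right g4).symm
  have g6 : ((Nat.gcd e m : ℕ) : ℤ) ∣ 2 := g5.dvd_of_dvd_mul_right g3
  have g7 : Nat.gcd e m ∣ 2 := by exact_mod_cast g6
  exact Nat.le_of_dvd (by norm_num) g7

/-- the number of the `b` in an interval of length `L` with `b ^ 2 ≡ c` modulo `s` -/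
theorem count_interval (s : ℕ) (hs : 1 ≤ s) (c : ℤ) (hc : IsCoprime c (s : ℤ)) (F : Finset ℤ) (L : ℝ)
    (hF : ∀ b ∈ F, (s : ℤ) ∣ b ^ 2 - c) (hL : ∀ b ∈ F, ∀ b' ∈ F, ((b' : ℝ) - b) ≤ L) (hL0 : 0 ≤ L) :
    (F.card : ℝ) ≤ 2 * (s.divisors.card : ℝ) * (L / s + 1) := by
  classical
  have hne : NeZero s := ⟨by omega⟩
  rcases Finset.eq_empty_or_nonempty F with h | hFn
  · rw [h, Finset.card_empty, Nat.cast_zero]
    positivity
  set u := F.min' hFn with hu
  have humem : u ∈ F := Finset.min'_mem F hFn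
  have hs0 : (0 : ℝ) < s := by exact_mod_cast hs
  have hmap : ∀ b ∈ F, ((b : ZMod s), ((b - u) / s).toNat) ∈
      (Finset.univ.filter fun r : ZMod s => r ^ 2 = (c : ZMod s)) ×ˢ
        Finset.range (⌊L / s⌋₊ + 1) := by
    intro b hb
    rw [Finset.mem_product, Finset.mem_filter, Finset.mem_range]
    have hub : u ≤ b := Finset.min'_le F b hb
    refine ⟨⟨Finset.mem_univ _, ?_⟩, ?_⟩
    · have h1 := (ZMod.intCast_zmod_eq_zero_iff_dvd (b ^ 2 - c) s).2 (hF b hb)
      push_cast at h1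
      exact sub_eq_zero.1 h1
    · simp only
      rw [Nat.lt_succ_iff]
      apply Nat.le_floor
      have h2 : (0 : ℤ) ≤ (b - u) / s := Int.ediv_nonneg (by linarith) (by positivity)
      have h3 : ((((b - u) / s).toNat : ℕ) : ℝ) = (((b - u) / s : ℤ) : ℝ) := by
        have : ((((b - u) / s).toNat : ℕ) : ℤ) = (b - u) / s := Int.toNat_of_nonneg h2
        exact_mod_cast this
      rw [h3, le_div_iff₀ hs0]
      have h4 : (b - u) / (s : ℤ) * s ≤ b - u := Int.ediv_mul_le _ (by exact_mod_cast (by omega : s ≠ 0))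
      have h5 : (((b - u) / (s : ℤ) : ℤ) : ℝ) * s ≤ (b : ℝ) - u := by exact_mod_cast h4
      exact h5.trans (hL u humem b hb)
  have hinj : Set.InjOn (fun b : ℤ => ((b : ZMod s), ((b - u) / s).toNat)) (F : Set ℤ) := by
    intro b hb b' hb' hbb
    simp only [Prod.mk.injEq] at hbb
    obtain ⟨h1, h2⟩ := hbb
    have hub : u ≤ b := Finset.min'_le F b hb
    have hub' : u ≤ b' := Finset.min'_le F b' hb'
    have h3 : (0 : ℤ) ≤ (b - u) / s := Int.ediv_nonneg (by linarith) (by positivity)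
    have h4 : (0 : ℤ) ≤ (b' - u) / s := Int.ediv_nonneg (by linarith) (by positivity)
    have h5 : (b - u) / (s : ℤ) = (b' - u) / (s : ℤ) := by
      have := congrArg (fun n : ℕ => (n : ℤ)) h2
      simp only [Int.toNat_of_nonneg h3, Int.toNat_of_nonneg h4] at this
      exact this
    have h6 : (b - u) % (s : ℤ) = (b' - u) % (s : ℤ) := by
      have h7 := (ZMod.intCast_eq_intCast_iff b b' s).1 h1
      exact h7.sub_right u
    have h8 := Int.emod_add_mul_ediv (b - u) s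
    have h9 := Int.emod_add_mul_ediv (b' - u) s
    rw [h5, h6] at h8
    linarith
  have h1 := Finset.card_le_card_of_injOn _ hmap hinj
  rw [Finset.card_product, Finset.card_range] at h1
  have h2 := roots_card s c hc
  have h3 : (F.card : ℝ) ≤ ((Finset.univ.filter fun r : ZMod s => r ^ 2 = (c : ZMod s)).card : ℝ) *
      ((⌊L / s⌋₊ : ℝ) + 1) := by exact_mod_cast h1
  have h4 : ((⌊L / s⌋₊ : ℕ) : ℝ) ≤ L / s := Nat.floor_le (by positivity)
  have h5 : ((Finset.univ.filter fun r : ZMod s => r ^ 2 = (c : ZMod s)).card : ℝ) ≤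
      2 * (s.divisors.card : ℝ) := by exact_mod_cast h2
  calc (F.card : ℝ) ≤ _ := h3
    _ ≤ 2 * (s.divisors.card : ℝ) * (L / s + 1) := by gcongr

/-- two nonnegative numbers with `|A - x²|, |A - y²| ≤ M²` are close -/
lemma close_of_sq {A M x y : ℝ} (hM : 0 ≤ M) (hx : 0 ≤ x) (_hy : 0 ≤ y) (h1 : |A - x ^ 2| ≤ M ^ 2)
    (h2 : |A - y ^ 2| ≤ M ^ 2) : y - x ≤ 2 * M := by
  rcases le_total y x with h | h
  · linarith
  · rw [abs_le] at h1 h2
    have h3 : (y - x) * (y + x) ≤ 2 * M ^ 2 := by nlinarith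
    have h4 : (y - x) ^ 2 ≤ 2 * M ^ 2 := by nlinarith [mul_nonneg (sub_nonneg.2 h) hx]
    by_contra hcon
    push Not at hcon
    nlinarith

/-- the number of the `b` with `s ∣ A - b²` and `|A - b²| ≤ M²` -/
theorem count_near (s : ℕ) (hs : 1 ≤ s) (A : ℤ) (hA : IsCoprime A (s : ℤ)) (F : Finset ℤ) (M : ℝ)
    (hM : 0 ≤ M) (hF : ∀ b ∈ F, (s : ℤ) ∣ A - b ^ 2 ∧ |(A : ℝ) - (b : ℝ) ^ 2| ≤ M ^ 2) :
    (F.card : ℝ) ≤ 4 * (s.divisors.card : ℝ) * (2 * M / s + 1) := by
  classical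
  have h1 := count_interval s hs A hA (F.filter fun b => 0 ≤ b) (2 * M) (by
    intro b hb
    have := (hF b (Finset.mem_filter.1 hb).1).1
    have h2 : b ^ 2 - A = -(A - b ^ 2) := by ring
    rw [h2]
    exact (dvd_neg).2 this) (by
    intro b hb b' hb'
    rw [Finset.mem_filter] at hb hb'
    exact close_of_sq hM (by exact_mod_cast hb.2) (by exact_mod_cast hb'.2) (hF b hb.1).2
      (hF b' hb'.1).2) (by positivity)
  have h2 := count_interval s hs A hA (F.filter fun b => ¬ 0 ≤ b) (2 * M) (by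
    intro b hb
    have := (hF b (Finset.mem_filter.1 hb).1).1
    have h2 : b ^ 2 - A = -(A - b ^ 2) := by ring
    rw [h2]
    exact (dvd_neg).2 this) (by
    intro b hb b' hb'
    rw [Finset.mem_filter] at hb hb'
    have e1 : (b : ℝ) ≤ 0 := by
      have : b ≤ 0 := by omega
      exact_mod_cast this
    have e2 : (b' : ℝ) ≤ 0 := by
      have : b' ≤ 0 := by omega
      exact_mod_cast this
    have k1 := (hF b hb.1).2
    have k2 := (hF b' hb'.1).2
    have := close_of_sq (A := (A : ℝ)) (x := -(b' : ℝ)) (y := -(b : ℝ)) hM (by linarith) (by linarith)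
      (by rw [neg_sq]; exact k2) (by rw [neg_sq]; exact k1)
    linarith) (by positivity)
  have h3 : F.card = (F.filter fun b => 0 ≤ b).card + (F.filter fun b => ¬ 0 ≤ b).card :=
    (Finset.card_filter_add_card_filter_not _).symm
  rw [h3]
  push_cast
  linarith

end Pool.Agent.X12.Szp
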