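import Pool.Agent.X12.Szp9
import Pool.Agent.Y679.Fh.Gm

/-!
# Semistable curves: the Faltings height against the conductor
-/

set_option autoImplicit false

namespace Pool.Agent.X12.Szp

open Finset Filter Topology Pool.Agent.H328R2.ABC Pool.Agent.Y679.Fh

/-- the box -/
def Box (X : ℝ) (q : ℤ × ℤ) : Prop := |(q.1 : ℝ)| ≤ X ^ 2 ∧ |(q.2 : ℝ)| ≤ X ^ 3

theorem Box_mono {X Y : ℝ} (hX : 0 ≤ X) (h : X ≤ Y) {q : ℤ × ℤ} (hq : Box X q) : Box Y q :=
  ⟨hq.1.trans (by gcongr), hq.2.trans (by gcongr)⟩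

theorem Box_sub (X : ℝ) : {q : ℤ × ℤ | Box X q} ⊆ (((Finset.Icc (-⌊X ^ 2⌋) ⌊X ^ 2⌋) ×ˢ
    (Finset.Icc (-⌊X ^ 3⌋) ⌊X ^ 3⌋) : Finset (ℤ × ℤ)) : Set (ℤ × ℤ)) := by
  rintro q ⟨h1, h2⟩
  rw [Finset.mem_coe, Finset.mem_product]
  exact ⟨mem_of_abs_le h1, mem_of_abs_le h2⟩

theorem Box_finite (X : ℝ) : {q : ℤ × ℤ | Box X q}.Finite :=
  Set.Finite.subset (Finset.finite_toSet _) (Box_sub X)

theorem Box_card {X : ℝ} (hX : 1 ≤ X) : (({q : ℤ × ℤ | Box X q}.ncard : ℕ) : ℝ) ≤ 9 * X ^ 5 := by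
  have h1 := Set.ncard_le_ncard (Box_sub X) (Finset.finite_toSet _)
  rw [Set.ncard_coe_finset, Finset.card_product] at h1
  have h2 := card_Icc_le (Y := X ^ 2) (one_le_pow₀ hX)
  have h3 := card_Icc_le (Y := X ^ 3) (one_le_pow₀ hX)
  calc (({q : ℤ × ℤ | Box X q}.ncard : ℕ) : ℝ) ≤
        ((Finset.Icc (-⌊X ^ 2⌋) ⌊X ^ 2⌋).card : ℝ) * ((Finset.Icc (-⌊X ^ 3⌋) ⌊X ^ 3⌋).card : ℝ) := by
        exact_mod_cast h1
    _ ≤ (3 * X ^ 2) * (3 * X ^ 3) := by gcongr
    _ = 9 * X ^ 5 := by ring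

/-- summation over dyadic boxes -/
theorem dyadic (S : Set (ℤ × ℤ)) (C g : ℝ) (hC : 0 < C) (hg : 0 < g)
    (h : ∀ X : ℝ, 1 ≤ X → (({q ∈ S | Box X q ∧ ¬ Box (X / 2) q}.ncard : ℕ) : ℝ) ≤ C * X ^ g) :
    ∃ K : ℝ, 0 < K ∧ ∀ X : ℝ, 1 ≤ X → (({q ∈ S | Box X q}.ncard : ℕ) : ℝ) ≤ K * X ^ g := by
  have h2g : (2 : ℝ) ^ (-g) < 1 := Real.rpow_lt_one_of_one_lt_of_neg (by norm_num) (by linarith)
  have h2g0 : (0 : ℝ) < (2 : ℝ) ^ (-g) := by positivity
  set K := 288 + C / (1 - (2 : ℝ) ^ (-g)) with hK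
  have hd : 0 < 1 - (2 : ℝ) ^ (-g) := by linarith
  have hK0 : 0 < K := by positivity
  have hKC : C ≤ K * (1 - (2 : ℝ) ^ (-g)) := by
    rw [hK, add_mul, div_mul_cancel₀ _ hd.ne']
    nlinarith
  have hfin : ∀ X : ℝ, {q ∈ S | Box X q}.Finite := fun X =>
    (Box_finite X).subset fun q hq => hq.2
  have main : ∀ n : ℕ, ∀ X : ℝ, 1 ≤ X → X < 2 ^ (n + 1) →
      (({q ∈ S | Box X q}.ncard : ℕ) : ℝ) ≤ K * X ^ g := by
    intro n
    induction n with
    | zero =>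
      intro X hX hX2
      have e1 : ({q ∈ S | Box X q}.ncard : ℕ) ≤ {q : ℤ × ℤ | Box X q}.ncard :=
        Set.ncard_le_ncard (fun q hq => hq.2) (Box_finite X)
      have e2 : (({q ∈ S | Box X q}.ncard : ℕ) : ℝ) ≤ 9 * X ^ 5 :=
        le_trans (by exact_mod_cast e1) (Box_card hX)
      have e3 : X ^ 5 ≤ 2 ^ 5 := by
        have : X ≤ 2 := by
          have := hX2.le
          norm_num at this
          exact this
        gcongr
      have e4 : 1 ≤ X ^ g := Real.one_le_rpow hX hg.le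
      have e5 : 0 < C / (1 - (2 : ℝ) ^ (-g)) := by positivity
      nlinarith
    | succ n ih =>
      intro X hX hXn
      rcases lt_or_ge X 2 with hlt | hge
      · refine ih X hX (lt_of_lt_of_le hlt ?_)
        calc (2 : ℝ) = 2 ^ 1 := by norm_num
          _ ≤ 2 ^ (n + 1) := by
            apply pow_le_pow_right₀ (by norm_num)
            omega
      · have hX0 : 0 < X := by linarith
        have e1 := ih (X / 2) (by linarith) (by
          rw [div_lt_iff₀ (by norm_num)]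
          calc X < 2 ^ (n + 1 + 1) := hXn
            _ = 2 ^ (n + 1) * 2 := by ring)
        have e2 : {q ∈ S | Box X q} ⊆ {q ∈ S | Box (X / 2) q} ∪
            {q ∈ S | Box X q ∧ ¬ Box (X / 2) q} := by
          rintro q ⟨k1, k2⟩
          by_cases k3 : Box (X / 2) q
          · exact Or.inl ⟨k1, k3⟩
          · exact Or.inr ⟨k1, k2, k3⟩
        have hf2 : {q ∈ S | Box X q ∧ ¬ Box (X / 2) q}.Finite :=
          (Box_finite X).subset fun q hq => hq.2.1
        have e3 := (Set.ncard_le_ncard e2 ((hfin _).union hf2)).trans (Set.ncard_union_le _ _)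
        have e4 := h X hX
        have e5 : (({q ∈ S | Box X q}.ncard : ℕ) : ℝ) ≤
            (({q ∈ S | Box (X / 2) q}.ncard : ℕ) : ℝ) +
              (({q ∈ S | Box X q ∧ ¬ Box (X / 2) q}.ncard : ℕ) : ℝ) := by exact_mod_cast e3
        have e6 : (X / 2) ^ g = X ^ g * (2 : ℝ) ^ (-g) := by
          rw [Real.div_rpow hX0.le (by norm_num), Real.rpow_neg (by norm_num)]
          rfl
        rw [e6] at e1
        have e7 : 0 < X ^ g := Real.rpow_pos_of_pos hX0 _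
        calc (({q ∈ S | Box X q}.ncard : ℕ) : ℝ) ≤ K * (X ^ g * (2 : ℝ) ^ (-g)) + C * X ^ g := by
              linarith
          _ ≤ K * (X ^ g * (2 : ℝ) ^ (-g)) + (K * (1 - (2 : ℝ) ^ (-g))) * X ^ g := by gcongr
          _ = K * X ^ g := by ring
  refine ⟨K, hK0, fun X hX => ?_⟩
  obtain ⟨n, hn⟩ := pow_unbounded_of_one_lt X (one_lt_two : (1 : ℝ) < 2)
  refine main n X hX (hn.trans_le ?_)
  apply pow_le_pow_right₀ (by norm_num)
  omega

/-- the semistable curves with `lam * log N + c < h_F`, `N` the conductor -/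
def VS (lam c : ℝ) : Set (ℤ × ℤ) :=
  {q | ∃ (W : WeierstrassCurve ℤ) (τ : UpperHalfPlane), W.Δ ≠ 0 ∧ IsCoprime W.c₄ W.Δ ∧
    q = (W.c₄, W.c₆) ∧ IsP W τ ∧ lam * Real.log (rad W.Δ.natAbs : ℝ) + c < fh W τ}

theorem cH_pos {W : WeierstrassCurve ℤ} (h : W.Δ ≠ 0) : 1 ≤ cH W :=
  (m_pos h).trans m_le

theorem cH_le_of_Box {W : WeierstrassCurve ℤ} {X : ℝ} (h : Box X (W.c₄, W.c₆)) :
    cH W ≤ X ^ 6 := by
  refine max_le ?_ ?_
  · calc |(W.c₄ : ℝ)| ^ 3 ≤ (X ^ 2) ^ 3 := by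
          have := h.1
          simp only at this
          gcongr
      _ = X ^ 6 := by ring
  · rw [← sq_abs]
    calc |(W.c₆ : ℝ)| ^ 2 ≤ (X ^ 3) ^ 2 := by
          have := h.2
          simp only at this
          gcongr
      _ = X ^ 6 := by ring

theorem Box_of_cH_le {W : WeierstrassCurve ℤ} {X : ℝ} (hX : 0 ≤ X) (h : cH W ≤ X ^ 6) :
    Box X (W.c₄, W.c₆) := by
  have h1 : |(W.c₄ : ℝ)| ^ 3 ≤ X ^ 6 := (le_max_left _ _).trans h
  have h2 : (W.c₆ : ℝ) ^ 2 ≤ X ^ 6 := (le_max_right _ _).trans h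
  constructor
  · refine (pow_le_pow_iff_left₀ (abs_nonneg _) (by positivity) (by norm_num : 3 ≠ 0)).1 ?_
    calc |(W.c₄ : ℝ)| ^ 3 ≤ X ^ 6 := h1
      _ = (X ^ 2) ^ 3 := by ring
  · refine (pow_le_pow_iff_left₀ (abs_nonneg _) (by positivity) (by norm_num : 2 ≠ 0)).1 ?_
    rw [sq_abs]
    calc (W.c₆ : ℝ) ^ 2 ≤ X ^ 6 := h2
      _ = (X ^ 3) ^ 2 := by ring

/-- the violators near the top of the box have a small radical -/
theorem VS_top (lam c : ℝ) (hlam : 0 < lam) : ∃ K : ℝ, 0 < K ∧ ∀ X : ℝ, 1 ≤ X →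
    {q ∈ VS lam c | Box X q ∧ ¬ Box (X / 2) q} ⊆ Top (K * X ^ (1 / (2 * lam))) X := by
  obtain ⟨C, hC⟩ := fh_le
  refine ⟨Real.exp ((C - 12 * c) / (12 * lam)), Real.exp_pos _, fun X hX => ?_⟩
  rintro q ⟨⟨W, τ, h0, hcop, rfl, hτ, hlt⟩, hbox, hnot⟩
  have hX0 : 0 < X := by linarith
  refine ⟨W, h0, hcop, rfl, hbox.1, hbox.2, ?_, ?_⟩
  · by_contra hcon
    push Not at hcon
    apply hnot
    constructor
    · simp only
      have : (X / 2) ^ 2 = X ^ 2 / 4 := by ring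
      rw [this]
      exact hcon.1.le
    · simp only
      have : (X / 2) ^ 3 = X ^ 3 / 8 := by ring
      rw [this]
      exact hcon.2.le
  · have h1 := hC W h0 τ hτ
    have h2 := Real.log_le_log (by linarith [cH_pos h0]) (cH_le_of_Box hbox)
    rw [Real.log_pow] at h2
    push_cast at h2
    have hr : (0 : ℝ) < rad W.Δ.natAbs := by exact_mod_cast rad_pos _
    have h3 : Real.log (rad W.Δ.natAbs : ℝ) ≤
        (C - 12 * c) / (12 * lam) + 1 / (2 * lam) * Real.log X := by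
      have h4 : 12 * lam * Real.log (rad W.Δ.natAbs : ℝ) ≤ C - 12 * c + 6 * Real.log X := by
        linarith
      have h5 : (C - 12 * c) / (12 * lam) + 1 / (2 * lam) * Real.log X =
          (C - 12 * c + 6 * Real.log X) / (12 * lam) := by
        field_simp
        ring
      rw [h5, le_div_iff₀ (by positivity)]
      linarith
    rw [Real.rpow_def_of_pos hX0, ← Real.exp_add, ← Real.log_le_iff_le_exp hr]
    linarith

/-- **Upper bound** for the violators in a box -/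
theorem VS_box (lam c ε : ℝ) (hlam : 0 < lam) (hε : 0 < ε) : ∃ K : ℝ, 0 < K ∧ ∀ X : ℝ, 1 ≤ X →
    (({q ∈ VS lam c | Box X q}.ncard : ℕ) : ℝ) ≤ K * X ^ (max (1 / (2 * lam) - 1) 4 + ε) := by
  obtain ⟨K, hK, h1⟩ := VS_top lam c hlam
  obtain ⟨C, hC, h2⟩ := top_le ε hε
  set g := max (1 / (2 * lam) - 1) 4 with hg
  have hg4 : (4 : ℝ) ≤ g := le_max_right _ _
  refine dyadic (VS lam c) (C * (K + 1)) (g + ε) (by positivity) (by linarith) fun X hX => ?_
  have hX0 : 0 < X := by linarith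
  have e1 : (({q ∈ VS lam c | Box X q ∧ ¬ Box (X / 2) q}.ncard : ℕ) : ℝ) ≤
      ((Top (K * X ^ (1 / (2 * lam))) X).ncard : ℝ) := by
    exact_mod_cast Set.ncard_le_ncard (h1 X hX) (Top_finite _ _)
  refine e1.trans ((h2 _ X (by positivity) hX).trans ?_)
  have e2 : K * X ^ (1 / (2 * lam)) / X = K * X ^ (1 / (2 * lam) - 1) := by
    rw [Real.rpow_sub_one hX0.ne']
    ring
  have e3 : X ^ (1 / (2 * lam) - 1) ≤ X ^ g :=
    Real.rpow_le_rpow_of_exponent_le hX (le_max_left _ _)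
  have e4 : X ^ (4 : ℝ) ≤ X ^ g := Real.rpow_le_rpow_of_exponent_le hX hg4
  rw [e2, Real.rpow_add hX0]
  have e5 : 0 < X ^ ε := Real.rpow_pos_of_pos hX0 _
  calc C * X ^ ε * (K * X ^ (1 / (2 * lam) - 1) + X ^ (4 : ℝ)) ≤
      C * X ^ ε * (K * X ^ g + X ^ g) := by gcongr
    _ = C * (K + 1) * (X ^ g * X ^ ε) := by ring

/-- the semistable curves with `h_F ≤ log B` -/
def SH (B : ℝ) : Set (ℤ × ℤ) :=
  {q | ∃ (W : WeierstrassCurve ℤ) (τ : UpperHalfPlane), W.Δ ≠ 0 ∧ IsCoprime W.c₄ W.Δ ∧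
    q = (W.c₄, W.c₆) ∧ IsP W τ ∧ fh W τ ≤ Real.log B}

/-- the curves of small Faltings height lie in a small box -/
theorem SH_box (δ : ℝ) (hδ : 0 < δ) : ∃ K : ℝ, 1 ≤ K ∧ ∀ B : ℝ, 1 ≤ B →
    SH B ⊆ {q | Box (K * B ^ (2 + δ)) q} := by
  obtain ⟨C, hC⟩ := fh_ge (δ := δ / 2) (by positivity)
  refine ⟨Real.exp (|C| * (1 + δ / 2) / 6), Real.one_le_exp (by positivity), fun B hB => ?_⟩
  rintro q ⟨W, τ, h0, hcop, rfl, hτ, hle⟩
  have hB0 : 0 < B := by linarith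
  have h1 := hC W h0 τ hτ
  have hcH := cH_pos h0
  refine Box_of_cH_le (by positivity) ?_
  have h2 : Real.log (cH W) ≤ (12 * Real.log B + C) * (1 + δ / 2) := by
    rw [sub_le_iff_le_add, div_le_iff₀ (by positivity)] at h1
    refine h1.trans ?_
    gcongr
  have hlog : 0 ≤ Real.log B := Real.log_nonneg hB
  have h3 : Real.log (cH W) ≤ 6 * (|C| * (1 + δ / 2) / 6 + (2 + δ) * Real.log B) := by
    have h4 : C ≤ |C| := le_abs_self C
    calc Real.log (cH W) ≤ (12 * Real.log B + C) * (1 + δ / 2) := h2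
      _ ≤ (12 * Real.log B + |C|) * (1 + δ / 2) := by gcongr
      _ = _ := by ring
  rw [Real.rpow_def_of_pos hB0, ← Real.exp_add, ← Real.exp_nat_mul,
    ← Real.log_le_iff_le_exp (by linarith)]
  push_cast
  linarith

theorem SH_finite {B : ℝ} (hB : 1 ≤ B) : (SH B).Finite := by
  obtain ⟨K, -, h⟩ := SH_box 1 one_pos
  exact (Box_finite _).subset (h B hB)

/-- the number of all curves with `h_F ≤ log B` -/
theorem SH_card (ε : ℝ) (hε : 0 < ε) : ∃ C : ℝ, 0 < C ∧ ∀ B : ℝ, 1 ≤ B →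
    ((SH B).ncard : ℝ) ≤ C * B ^ (10 + ε) := by
  obtain ⟨K, hK, h⟩ := SH_box (ε / 5) (by positivity)
  refine ⟨9 * K ^ 5, by positivity, fun B hB => ?_⟩
  have hB0 : 0 < B := by linarith
  have h1 : 1 ≤ K * B ^ (2 + ε / 5) :=
    one_le_mul_of_one_le_of_one_le hK (Real.one_le_rpow hB (by positivity))
  have h2 := Set.ncard_le_ncard (h B hB) (Box_finite _)
  calc ((SH B).ncard : ℝ) ≤ (({q : ℤ × ℤ | Box (K * B ^ (2 + ε / 5)) q}.ncard : ℕ) : ℝ) := by
        exact_mod_cast h2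
    _ ≤ 9 * (K * B ^ (2 + ε / 5)) ^ 5 := Box_card h1
    _ = 9 * K ^ 5 * B ^ (10 + ε) := by
      rw [mul_pow, ← Real.rpow_natCast (B ^ (2 + ε / 5)) 5, ← Real.rpow_mul hB0.le]
      push_cast
      have : (2 + ε / 5) * 5 = 10 + ε := by ring
      rw [this]
      ring

/-- the violators with `h_F ≤ log B` -/
def VV (lam c B : ℝ) : Set (ℤ × ℤ) :=
  {q | ∃ (W : WeierstrassCurve ℤ) (τ : UpperHalfPlane), W.Δ ≠ 0 ∧ IsCoprime W.c₄ W.Δ ∧
    q = (W.c₄, W.c₆) ∧ IsP W τ ∧ fh W τ ≤ Real.log B ∧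
    lam * Real.log (rad W.Δ.natAbs : ℝ) + c < fh W τ}

theorem VV_sub (lam c B : ℝ) : VV lam c B ⊆ SH B ∩ VS lam c := by
  rintro q ⟨W, τ, h0, h1, h2, h3, h4, h5⟩
  exact ⟨⟨W, τ, h0, h1, h2, h3, h4⟩, W, τ, h0, h1, h2, h3, h5⟩

/-- **Upper bound** for the violators of small Faltings height -/
theorem VH_upper (lam c ε : ℝ) (hlam : 0 < lam) (hε : 0 < ε) : ∃ C : ℝ, 0 < C ∧ ∀ B : ℝ, 1 ≤ B →
    ((VV lam c B).ncard : ℝ) ≤ C * B ^ (2 * max (1 / (2 * lam) - 1) 4 + ε) := by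
  set g := max (1 / (2 * lam) - 1) 4 with hg
  have hg4 : (4 : ℝ) ≤ g := le_max_right _ _
  -- the parameters
  set δ := min 1 (ε / (4 * (g + 1))) with hδdef
  have hδ : 0 < δ := lt_min one_pos (by positivity)
  have hδ1 : δ ≤ 1 := min_le_left _ _
  have hδ2 : δ * (g + 1) ≤ ε / 4 := by
    have : δ ≤ ε / (4 * (g + 1)) := min_le_right _ _
    rw [le_div_iff₀ (by positivity)] at this
    linarith
  obtain ⟨K, hK, h1⟩ := SH_box δ hδ
  set ε' := min 1 (ε / 8) with hε'def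
  have hε' : 0 < ε' := lt_min one_pos (by positivity)
  have hε'1 : ε' ≤ 1 := min_le_left _ _
  have hε'2 : ε' ≤ ε / 8 := min_le_right _ _
  obtain ⟨M, hM, h2⟩ := VS_box lam c ε' hlam hε'
  refine ⟨M * K ^ (g + ε'), by positivity, fun B hB => ?_⟩
  have hB0 : 0 < B := by linarith
  have h3 : 1 ≤ K * B ^ (2 + δ) :=
    one_le_mul_of_one_le_of_one_le hK (Real.one_le_rpow hB (by positivity))
  have h4 : VV lam c B ⊆ {q ∈ VS lam c | Box (K * B ^ (2 + δ)) q} :=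
    fun q hq => ⟨(VV_sub _ _ _ hq).2, h1 B hB (VV_sub _ _ _ hq).1⟩
  have h5 := Set.ncard_le_ncard h4 ((Box_finite _).subset fun q hq => hq.2)
  have h6 := h2 (K * B ^ (2 + δ)) h3
  have h7 : ((VV lam c B).ncard : ℝ) ≤ M * (K * B ^ (2 + δ)) ^ (g + ε') :=
    le_trans (by exact_mod_cast h5) h6
  refine h7.trans ?_
  rw [Real.mul_rpow (by linarith) (by positivity), ← Real.rpow_mul hB0.le, ← mul_assoc]
  refine mul_le_mul_of_nonneg_left (Real.rpow_le_rpow_of_exponent_le hB ?_) (by positivity)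
  have e1 : (2 + δ) * (g + ε') = 2 * g + 2 * ε' + δ * (g + ε') := by ring
  have e2 : δ * (g + ε') ≤ δ * (g + 1) := by gcongr
  rw [e1]
  linarith

/-- **Lower bound** for the violators of small Faltings height -/
theorem VH_lower_aux (lam c ε : ℝ) (hlam : 1 / 12 ≤ lam) (hlam2 : lam < 1 / 2) (hε : 0 < ε)
    (hε2 : 0 ≤ 1 / lam - 2 - ε) :
    ∃ B₀ : ℝ, ∀ B : ℝ, B₀ ≤ B →
      B ^ (1 / lam - 2 - ε) ≤ ((VV lam c B).ncard : ℝ) := by
  have hl0 : 0 < lam := by linarith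
  -- the exponent `κ`
  obtain ⟨κ, hκ1, hκ2, hκ3⟩ : ∃ κ : ℝ, 12 * lam < κ ∧ κ < 6 ∧ 1 / lam - ε / 4 ≤ 12 / κ := by
    refine ⟨min ((12 * lam + 6) / 2) (12 * lam * (1 + lam * ε / 4)), ?_, ?_, ?_⟩
    · refine lt_min (by linarith) ?_
      have : 0 < 12 * lam * (lam * ε / 4) := by positivity
      linarith
    · exact lt_of_le_of_lt (min_le_left _ _) (by linarith)
    · have h1 : min ((12 * lam + 6) / 2) (12 * lam * (1 + lam * ε / 4)) ≤
          12 * lam * (1 + lam * ε / 4) := min_le_right _ _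
      have h2 : 0 < min ((12 * lam + 6) / 2) (12 * lam * (1 + lam * ε / 4)) :=
        lt_min (by linarith) (by positivity)
      have h3 : 12 / (12 * lam * (1 + lam * ε / 4)) ≤
          12 / min ((12 * lam + 6) / 2) (12 * lam * (1 + lam * ε / 4)) := by gcongr
      refine le_trans ?_ h3
      rw [le_div_iff₀ (by positivity)]
      have h4 : (1 / lam - ε / 4) * (12 * lam * (1 + lam * ε / 4)) =
          12 * (1 - (lam * ε / 4) ^ 2) := by
        field_simp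
        ring
      rw [h4]
      nlinarith [sq_nonneg (lam * ε / 4)]
  have hκ0 : 0 < κ := by linarith
  have hκ11 : 1 ≤ κ := by linarith
  -- the parameter `δ`
  obtain ⟨δ, hδ, hδ2⟩ : ∃ δ : ℝ, 0 < δ ∧ 0 < 1 / (1 + δ) - 12 * lam / κ := by
    have h1 : 12 * lam / κ < 1 := by
      rw [div_lt_one hκ0]
      exact hκ1
    have h2 : 0 < 12 * lam / κ := by positivity
    refine ⟨(1 - 12 * lam / κ) / 2, by linarith, ?_⟩
    rw [sub_pos, lt_div_iff₀ (by linarith)]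
    nlinarith
  obtain ⟨C1, hC1⟩ := fh_le
  obtain ⟨C2, hC2⟩ := fh_ge hδ
  set ρ := 1 / (1 + δ) - 12 * lam / κ with hρ
  -- curves outside a fixed box
  set X1 := Real.exp ((|C2| + 12 * |c| + 1) / ρ) with hX1
  have hX1' : 1 ≤ X1 := Real.one_le_exp (by positivity)
  have key : ∀ B : ℝ, 1 ≤ B → Exc κ (Real.exp (-(C1 / 6)) * B ^ 2) ⊆
      VV lam c B ∪ {q | Box X1 q} := by
    intro B hB q hq
    have hB0 : 0 < B := by linarith
    obtain ⟨W, h0, hcop, rfl, h4, h6, hN⟩ := hq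
    by_cases hbox : Box X1 (W.c₄, W.c₆)
    · exact Or.inr hbox
    left
    obtain ⟨τ, hτ⟩ := ex_P W
    have hcH := cH_pos h0
    have hcH0 : 0 < cH W := by linarith
    have hcHX : cH W ≤ (Real.exp (-(C1 / 6)) * B ^ 2) ^ 6 := cH_le_of_Box ⟨h4, h6⟩
    have hlogX : Real.log (cH W) ≤ -C1 + 12 * Real.log B := by
      have h7 := Real.log_le_log hcH0 hcHX
      rw [Real.log_pow, Real.log_mul (Real.exp_pos _).ne' (by positivity), Real.log_exp,
        Real.log_pow] at h7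
      push_cast at h7
      linarith
    have hbig : (|C2| + 12 * |c| + 1) / ρ ≤ Real.log (cH W) := by
      have h7 : X1 ^ 6 ≤ cH W := by
        by_contra hcon
        push Not at hcon
        exact hbox (Box_of_cH_le (by linarith) hcon.le)
      have h8 : X1 ≤ X1 ^ 6 := le_self_pow₀ hX1' (by norm_num)
      rw [Real.le_log_iff_exp_le hcH0]
      exact h8.trans h7
    refine ⟨W, τ, h0, hcop, rfl, hτ, ?_, ?_⟩
    · have := hC1 W h0 τ hτ
      linarith
    · have e1 := hC2 W h0 τ hτ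
      have hr : (0 : ℝ) < rad W.Δ.natAbs := by exact_mod_cast rad_pos _
      have e2 : κ * Real.log (rad W.Δ.natAbs : ℝ) ≤ Real.log (cH W) := by
        rw [← Real.log_rpow hr]
        refine Real.log_le_log (Real.rpow_pos_of_pos hr _) (hN.le.trans ?_)
        exact (le_max_right _ _).trans m_le
      have e3 : 12 * lam * Real.log (rad W.Δ.natAbs : ℝ) ≤ 12 * lam / κ * Real.log (cH W) := by
        have : 12 * lam * Real.log (rad W.Δ.natAbs : ℝ) =
            12 * lam / κ * (κ * Real.log (rad W.Δ.natAbs : ℝ)) := by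
          field_simp
        rw [this]
        gcongr
      have e4 : |C2| + 12 * |c| + 1 ≤ ρ * Real.log (cH W) := by
        rw [div_le_iff₀ hδ2] at hbig
        linarith
      have e5 : Real.log (cH W) / (1 + δ) = ρ * Real.log (cH W) +
          12 * lam / κ * Real.log (cH W) := by
        rw [hρ]
        ring
      rw [e5] at e1
      have e6 := le_abs_self C2
      have e7 := le_abs_self c
      linarith
  -- the conclusion
  obtain ⟨X0, hX0⟩ := lower_all κ (ε / 8) hκ11 hκ2 (by positivity)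
  set a := Real.exp (-(C1 / 6)) with ha
  have ha0 : 0 < a := Real.exp_pos _
  set K1 := (({q : ℤ × ℤ | Box X1 q}.ncard : ℕ) : ℝ) with hK1
  set e := 6 / κ - 1 - ε / 8 with he
  have hexp : 1 / lam - 2 - ε / 2 ≤ 2 * e := by
    rw [he]
    have : 12 / κ = 2 * (6 / κ) := by ring
    linarith
  have t1 : Tendsto (fun B : ℝ => a * B ^ 2) atTop atTop :=
    Tendsto.const_mul_atTop ha0 (tendsto_pow_atTop (by norm_num))
  have t2 : Tendsto (fun B : ℝ => B ^ (ε / 4)) atTop atTop := tendsto_rpow_atTop (by positivity)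
  have hfin : ∀ᶠ B : ℝ in atTop,
      B ^ (1 / lam - 2 - ε) ≤ ((VV lam c B).ncard : ℝ) := by
    filter_upwards [t1.eventually_ge_atTop X0, t2.eventually_ge_atTop (2 / a ^ e + 1),
      t2.eventually_ge_atTop (K1 + 1), eventually_ge_atTop 1] with B h1 h2 h3 h4
    have hB0 : 0 < B := by linarith
    have h5 := hX0 _ h1
    have h6 := Set.ncard_le_ncard (key B h4)
      ((((SH_finite h4).inter_of_left _).subset (VV_sub lam c B)).union (Box_finite _))
    have h7 := h6.trans (Set.ncard_union_le _ _)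
    have h8 : ((Exc κ (a * B ^ 2)).ncard : ℝ) ≤ ((VV lam c B).ncard : ℝ) + K1 := by
      rw [hK1]
      exact_mod_cast h7
    have h9 : (a * B ^ 2) ^ e = a ^ e * B ^ (2 * e) := by
      rw [Real.mul_rpow ha0.le (by positivity), ← Real.rpow_natCast B 2, ← Real.rpow_mul hB0.le]
      norm_num
    rw [h9] at h5
    have hae : 0 < a ^ e := Real.rpow_pos_of_pos ha0 _
    -- `a ^ e B ^ (2 e) ≥ 2 B ^ (1 / lam - 2 - 3 ε / 4)`
    have h10 : 2 * B ^ (1 / lam - 2 - ε + ε / 4) ≤ a ^ e * B ^ (2 * e) := by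
      have k1 : 2 ≤ a ^ e * B ^ (ε / 4) := by
        have k2 : 2 / a ^ e ≤ B ^ (ε / 4) := by linarith
        rw [div_le_iff₀ hae] at k2
        linarith
      calc 2 * B ^ (1 / lam - 2 - ε + ε / 4) ≤
          a ^ e * B ^ (ε / 4) * B ^ (1 / lam - 2 - ε + ε / 4) := by gcongr
        _ = a ^ e * B ^ (1 / lam - 2 - ε / 2) := by
          rw [mul_assoc, ← Real.rpow_add hB0]
          congr 2
          ring
        _ ≤ a ^ e * B ^ (2 * e) := by
          gcongr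
    have h11 : B ^ (1 / lam - 2 - ε + ε / 4) = B ^ (1 / lam - 2 - ε) * B ^ (ε / 4) :=
      Real.rpow_add hB0 _ _
    have hone : 1 ≤ B ^ (1 / lam - 2 - ε) := Real.one_le_rpow h4 hε2
    have hK : 0 ≤ K1 := Nat.cast_nonneg _
    rw [h11] at h10
    have k1 : B ^ (1 / lam - 2 - ε) * (K1 + 1) ≤ B ^ (1 / lam - 2 - ε) * B ^ (ε / 4) := by gcongr
    nlinarith
  exact (eventually_atTop.1 hfin)

/-- **Lower bound** for the violators of small Faltings height -/
theorem VH_lower (lam c ε : ℝ) (hlam : 1 / 12 ≤ lam) (hlam2 : lam < 1 / 2) (hε : 0 < ε) :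
    ∃ B₀ : ℝ, ∀ B : ℝ, B₀ ≤ B →
      B ^ (1 / lam - 2 - ε) ≤ ((VV lam c B).ncard : ℝ) := by
  have hl : 0 < 1 / lam - 2 := by
    rw [sub_pos, lt_div_iff₀ (by linarith)]
    linarith
  obtain ⟨B0, h⟩ := VH_lower_aux lam c (min ε (1 / lam - 2)) hlam hlam2 (lt_min hε hl) (by
    have := min_le_right ε (1 / lam - 2)
    linarith)
  refine ⟨max B0 1, fun B hB => le_trans ?_ (h B ((le_max_left _ _).trans hB))⟩
  refine Real.rpow_le_rpow_of_exponent_le ((le_max_right _ _).trans hB) ?_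
  have := min_le_left ε (1 / lam - 2)
  linarith

end Pool.Agent.X12.Szp
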