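import Pool.Agent.X12.Szp11

/-!
# All elliptic curves over `ℚ`: the fibres
-/

set_option autoImplicit false

namespace Pool.Agent.X12.Szp

open Finset Filter Topology Pool.Agent.H328R2.ABC

/-- the discriminant of `x³ - a x - b` -/
def Dsc (a b : ℤ) : ℤ := 4 * a ^ 3 - 27 * b ^ 2

/-- the prime-to-6 part of the conductor of a minimal model -/
def Cnd (a b : ℤ) : ℕ :=
  ∏ p ∈ (Dsc a b).natAbs.primeFactors.filter (fun p => 5 ≤ p), if (p : ℤ) ∣ a then p ^ 2 else p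

lemma Cnd_pos (a b : ℤ) : 0 < Cnd a b := by
  apply Finset.prod_pos
  intro p hp
  rw [Finset.mem_filter] at hp
  have hp0 := (Nat.prime_of_mem_primeFactors hp.1).pos
  split_ifs
  · positivity
  · exact hp0

lemma close_top' {X T a b b' : ℝ} (hX : 1 ≤ X) (hT : 0 ≤ T) (hb : 0 ≤ b) (_hb' : 0 ≤ b')
    (hbX' : b' ≤ X ^ 3) (h1 : |4 * a ^ 3 - 27 * b ^ 2| ≤ X ^ 3 * T)
    (h2 : |4 * a ^ 3 - 27 * b' ^ 2| ≤ X ^ 3 * T) (h3 : X ^ 2 / 4 ≤ |a| ∨ X ^ 3 / 8 ≤ b) :
    b' - b ≤ 80 * T := by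
  have hX3 : (1 : ℝ) ≤ X ^ 3 := one_le_pow₀ hX
  by_contra hcon
  push Not at hcon
  have hT1 : 80 * T < X ^ 3 := by linarith
  have hbig : X ^ 3 / 40 ≤ b := by
    by_contra hb1
    push Not at hb1
    have ha : X ^ 2 / 4 ≤ |a| := by
      rcases h3 with h | h
      · exact h
      · exfalso
        linarith
    have ha3 : X ^ 6 / 16 ≤ |4 * a ^ 3| := by
      rw [abs_mul, abs_pow, abs_of_pos (by norm_num : (0 : ℝ) < 4)]
      calc X ^ 6 / 16 = 4 * (X ^ 2 / 4) ^ 3 := by ring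
        _ ≤ 4 * |a| ^ 3 := by gcongr
    have hb2 : 27 * b ^ 2 ≤ 27 * (X ^ 6 / 1600) := by
      calc 27 * b ^ 2 ≤ 27 * (X ^ 3 / 40) ^ 2 := by gcongr
        _ = 27 * (X ^ 6 / 1600) := by ring
    have e1 : |4 * a ^ 3| ≤ |4 * a ^ 3 - 27 * b ^ 2| + |27 * b ^ 2| := by
      have := abs_add_le (4 * a ^ 3 - 27 * b ^ 2) (27 * b ^ 2)
      rwa [sub_add_cancel] at this
    have e2 : |27 * b ^ 2| = 27 * b ^ 2 := abs_of_nonneg (by positivity)
    have e3 : X ^ 3 * (80 * T) < X ^ 3 * X ^ 3 := by gcongr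
    have e4 : X ^ 3 * X ^ 3 = X ^ 6 := by ring
    have e5 : 0 < X ^ 6 := by positivity
    linarith
  rw [abs_le] at h1 h2
  have h5 : (b' - b) * (b' + b) ≤ 2 * (X ^ 3 * T) := by nlinarith
  have h6 : 80 * T * (X ^ 3 / 40) ≤ (b' - b) * (b' + b) := by
    have k1 : 0 ≤ b' - b := by linarith
    calc 80 * T * (X ^ 3 / 40) ≤ (b' - b) * (X ^ 3 / 40) := by gcongr
      _ ≤ (b' - b) * (b' + b) := by
        refine mul_le_mul_of_nonneg_left ?_ k1
        linarith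
  have h5' : 27 * ((b' - b) * (b' + b)) ≤ 2 * (X ^ 3 * T) := by nlinarith
  have h7 : 0 ≤ X ^ 3 * T := by positivity
  have h9 : T = 0 := by
    have : X ^ 3 * T = 0 := by nlinarith
    rcases mul_eq_zero.1 this with h | h
    · linarith
    · exact h
  rw [h9, mul_zero] at hcon
  rw [h9, mul_zero, mul_zero] at h5
  have : 0 < (b' - b) * (b' + b) := by
    apply mul_pos hcon
    linarith
  linarith

/-- the number of the `b₂` in a fibre -/
theorem fiber_count (X T : ℝ) (hX : 1 ≤ X) (hT : 0 ≤ T) (a U V : ℤ) (b1 s : ℕ) (hb1 : 1 ≤ b1)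
    (hs : 1 ≤ s) (hU : IsCoprime U (s : ℤ)) (hV : IsCoprime V (s : ℤ)) (F : Finset ℤ)
    (hF : ∀ x ∈ F, (s : ℤ) ∣ U - V * x ^ 2 ∧
      |4 * (a : ℝ) ^ 3 - 27 * ((b1 : ℝ) * x) ^ 2| ≤ X ^ 3 * T ∧ |(b1 : ℝ) * x| ≤ X ^ 3 ∧
      (X ^ 2 / 4 ≤ |(a : ℝ)| ∨ X ^ 3 / 8 ≤ |(b1 : ℝ) * x|)) :
    (F.card : ℝ) ≤ 4 * (s.divisors.card : ℝ) * (80 * T / b1 / s + 1) := by
  classical
  obtain ⟨y, z, hyz⟩ := hV
  have hb0 : (0 : ℝ) < b1 := by exact_mod_cast hb1
  have hc : IsCoprime (U * y) (s : ℤ) := by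
    refine IsCoprime.mul_left hU ?_
    exact ⟨V, z, by linarith⟩
  have hdv : ∀ x ∈ F, (s : ℤ) ∣ x ^ 2 - U * y := by
    intro x hx
    have h1 := (hF x hx).1
    have h2 : x ^ 2 - U * y = -(y * (U - V * x ^ 2)) + s * (z * x ^ 2) := by
      have : x ^ 2 = (y * V + z * s) * x ^ 2 := by rw [hyz, one_mul]
      linear_combination this
    rw [h2]
    exact dvd_add ((dvd_neg).2 (Dvd.dvd.mul_left h1 _)) (Dvd.intro _ rfl)
  have h1 := count_interval s hs (U * y) hc (F.filter fun x => 0 ≤ x) (80 * T / b1) (by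
    intro x hx
    exact hdv x (Finset.mem_filter.1 hx).1) (by
    intro x hx x' hx'
    rw [Finset.mem_filter] at hx hx'
    have e1 : (0 : ℝ) ≤ x := by exact_mod_cast hx.2
    have e2 : (0 : ℝ) ≤ x' := by exact_mod_cast hx'.2
    obtain ⟨-, p2, p3, p4⟩ := hF x hx.1
    obtain ⟨-, q2, q3, q4⟩ := hF x' hx'.1
    rw [abs_of_nonneg (by positivity : 0 ≤ (b1 : ℝ) * x)] at p3 p4
    rw [abs_of_nonneg (by positivity : 0 ≤ (b1 : ℝ) * x')] at q3
    have := close_top' (a := (a : ℝ)) hX hT (by positivity) (by positivity) q3 p2 q2 p4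
    rw [le_div_iff₀ hb0]
    linarith) (by positivity)
  have h2 := count_interval s hs (U * y) hc (F.filter fun x => ¬ 0 ≤ x) (80 * T / b1) (by
    intro x hx
    exact hdv x (Finset.mem_filter.1 hx).1) (by
    intro x hx x' hx'
    rw [Finset.mem_filter] at hx hx'
    have e1 : 0 ≤ -(x : ℝ) := by
      have : x ≤ 0 := by omega
      have : (x : ℝ) ≤ 0 := by exact_mod_cast this
      linarith
    have e2 : 0 ≤ -(x' : ℝ) := by
      have : x' ≤ 0 := by omega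
      have : (x' : ℝ) ≤ 0 := by exact_mod_cast this
      linarith
    obtain ⟨-, p2, p3, p4⟩ := hF x hx.1
    obtain ⟨-, q2, q3, q4⟩ := hF x' hx'.1
    have e3 : (b1 : ℝ) * x ≤ 0 := by nlinarith
    have e4 : (b1 : ℝ) * x' ≤ 0 := by nlinarith
    rw [abs_of_nonpos e3] at p3
    rw [abs_of_nonpos e4] at q4
    have := close_top' (a := (a : ℝ)) (b := -((b1 : ℝ) * x')) (b' := -((b1 : ℝ) * x)) hX hT
      (by linarith) (by linarith) p3 (by rw [neg_sq]; exact q2) (by rw [neg_sq]; exact p2) q4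
    rw [le_div_iff₀ hb0]
    linarith) (by positivity)
  have h3 : F.card = (F.filter fun b => 0 ≤ b).card + (F.filter fun b => ¬ 0 ≤ b).card :=
    (Finset.card_filter_add_card_filter_not _).symm
  rw [h3]
  push_cast
  linarith

/-- the conductor is large -/
lemma cnd_ge {a b : ℤ} {n b1 : ℕ} (ha : a ≠ 0) (hD : Dsc a b ≠ 0) (hn : (n : ℤ) ∣ Dsc a b)
    (hco : Nat.Coprime n (6 * a.natAbs)) (hb1 : (b1 : ℤ) ∣ b) :
    rad n * rad (Nat.gcd a.natAbs b1) ^ 2 ≤ 36 * Cnd a b := by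
  classical
  have ha' : a.natAbs ≠ 0 := Int.natAbs_ne_zero.2 ha
  have hD' : (Dsc a b).natAbs ≠ 0 := Int.natAbs_ne_zero.2 hD
  have hg : Nat.gcd a.natAbs b1 ≠ 0 := Nat.gcd_ne_zero_left ha'
  set S := (Dsc a b).natAbs.primeFactors.filter (fun p => 5 ≤ p) with hS
  set S2 := (Nat.gcd a.natAbs b1).primeFactors with hS2
  set S3 := S2.filter (fun p => 5 ≤ p) with hS3
  have hpa : ∀ p ∈ n.primeFactors, 5 ≤ p ∧ ¬ (p : ℤ) ∣ a := by
    intro p hp
    have hp' := Nat.prime_of_mem_primeFactors hp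
    have h1 : ¬ p ∣ 6 * a.natAbs := by
      intro h
      have := Nat.dvd_gcd (Nat.dvd_of_mem_primeFactors hp) h
      rw [hco] at this
      exact hp'.one_lt.ne' (Nat.dvd_one.1 this)
    refine ⟨?_, fun h => h1 (Dvd.dvd.mul_left (Int.natCast_dvd.1 h) 6)⟩
    by_contra hcon
    push Not at hcon
    have h2 := hp'.two_le
    interval_cases p
    · exact h1 (Dvd.dvd.mul_right (by norm_num) _)
    · exact h1 (Dvd.dvd.mul_right (by norm_num) _)
    · exact absurd hp' (by norm_num)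
  have hsub1 : n.primeFactors ⊆ S := by
    intro p hp
    rw [hS, Finset.mem_filter]
    refine ⟨Nat.primeFactors_mono (Int.natCast_dvd.1 hn) hD' hp, (hpa p hp).1⟩
  have hpb : ∀ p ∈ S3, 5 ≤ p ∧ (p : ℤ) ∣ a ∧ (p : ℤ) ∣ b ∧ p.Prime := by
    intro p hp
    rw [hS3, Finset.mem_filter, hS2] at hp
    have h1 := Nat.dvd_of_mem_primeFactors hp.1
    rw [Nat.dvd_gcd_iff] at h1
    exact ⟨hp.2, Int.natCast_dvd.2 h1.1, (Int.natCast_dvd_natCast.2 h1.2).trans hb1,
      Nat.prime_of_mem_primeFactors hp.1⟩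
  have hsub2 : S3 ⊆ S := by
    intro p hp
    obtain ⟨h1, h2, h3, h4⟩ := hpb p hp
    rw [hS, Finset.mem_filter]
    refine ⟨Nat.mem_primeFactors.2 ⟨h4, ?_, hD'⟩, h1⟩
    apply Int.natCast_dvd.1
    unfold Dsc
    exact dvd_sub (Dvd.dvd.mul_left (dvd_pow h2 (by norm_num)) _)
      (Dvd.dvd.mul_left (dvd_pow h3 (by norm_num)) _)
  have hdisj : Disjoint n.primeFactors S3 := by
    rw [Finset.disjoint_left]
    intro p hp hp3
    exact (hpa p hp).2 (hpb p hp3).2.1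
  have h1 : rad n * (∏ p ∈ S3, p) ^ 2 ≤ Cnd a b := by
    have e1 : ∏ p ∈ n.primeFactors ∪ S3, (if (p : ℤ) ∣ a then p ^ 2 else p) ≤ Cnd a b := by
      unfold Cnd
      refine Finset.prod_le_prod_of_subset_of_one_le' (Finset.union_subset hsub1 hsub2) ?_
      intro p hp _
      have hp' := (Nat.prime_of_mem_primeFactors (Finset.mem_filter.1 hp).1).one_lt.le
      split_ifs
      · exact Nat.one_le_pow _ _ hp'
      · exact hp'
    rw [Finset.prod_union hdisj] at e1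
    have e2 : ∏ p ∈ n.primeFactors, (if (p : ℤ) ∣ a then p ^ 2 else p) = rad n := by
      unfold rad
      exact Finset.prod_congr rfl fun p hp => if_neg (hpa p hp).2
    have e3 : ∏ p ∈ S3, (if (p : ℤ) ∣ a then p ^ 2 else p) = (∏ p ∈ S3, p) ^ 2 := by
      rw [← Finset.prod_pow]
      exact Finset.prod_congr rfl fun p hp => if_pos (hpb p hp).2.1
    rwa [e2, e3] at e1
  have h2 : rad (Nat.gcd a.natAbs b1) ≤ 6 * ∏ p ∈ S3, p := by
    have e1 : rad (Nat.gcd a.natAbs b1) =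
        (∏ p ∈ S2.filter (fun p => 5 ≤ p), p) * ∏ p ∈ S2.filter (fun p => ¬ 5 ≤ p), p := by
      unfold rad
      exact (Finset.prod_filter_mul_prod_filter_not _ _ _).symm
    rw [e1, mul_comm]
    refine Nat.mul_le_mul_right _ ?_
    have e2 : S2.filter (fun p => ¬ 5 ≤ p) ⊆ {2, 3} := by
      intro p hp
      rw [Finset.mem_filter] at hp
      have hp' := Nat.prime_of_mem_primeFactors hp.1
      have h5 := hp'.two_le
      have h6 : p < 5 := by omega
      interval_cases p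
      · simp
      · simp
      · exact absurd hp' (by norm_num)
    calc ∏ p ∈ S2.filter (fun p => ¬ 5 ≤ p), p ≤ ∏ p ∈ ({2, 3} : Finset ℕ), p := by
          refine Finset.prod_le_prod_of_subset_of_one_le' e2 ?_
          intro p hp _
          simp only [Finset.mem_insert, Finset.mem_singleton] at hp
          omega
      _ = 6 := by norm_num
  calc rad n * rad (Nat.gcd a.natAbs b1) ^ 2 ≤ rad n * (6 * ∏ p ∈ S3, p) ^ 2 := by gcongr
    _ = 36 * (rad n * (∏ p ∈ S3, p) ^ 2) := by ring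
    _ ≤ 36 * Cnd a b := by gcongr

end Pool.Agent.X12.Szp
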