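import Pool.Agent.X12.Szp12

/-!
# All elliptic curves over `ℚ`: the reduction
-/

set_option autoImplicit false

namespace Pool.Agent.X12.Szp

open Finset Filter Topology Pool.Agent.H328R2.ABC

/-- the common factor -/
def uu (a : ℤ) (b1 : ℕ) : ℕ := Nat.gcd (4 * a.natAbs ^ 3) (27 * b1 ^ 2)

/-- the first cofactor -/
def UU (a : ℤ) (b1 : ℕ) : ℤ := 4 * a ^ 3 / (uu a b1 : ℤ)

/-- the second cofactor -/
def WW (a : ℤ) (b1 : ℕ) : ℤ := 27 * (b1 : ℤ) ^ 2 / (uu a b1 : ℤ)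

/-- the size of the interval -/
noncomputable def LL (X Z : ℝ) (a : ℤ) (b1 w : ℕ) : ℝ :=
  36 * (uu a b1 : ℝ) * w * Z / ((rad (Nat.gcd a.natAbs b1) : ℝ) ^ 2 * X ^ 3) + 62 * X ^ 2

/-- the condition on the cofactor `x` -/
def R4 (X Z : ℝ) (a : ℤ) (b1 w d : ℕ) (x : ℤ) : Prop :=
  IsCoprime (UU a b1) ((w * (d * rad d) : ℕ) : ℤ) ∧ IsCoprime (WW a b1) ((w * (d * rad d) : ℕ) : ℤ) ∧
  ((w * (d * rad d) : ℕ) : ℤ) ∣ UU a b1 - WW a b1 * x ^ 2 ∧
  |4 * (a : ℝ) ^ 3 - 27 * ((b1 : ℝ) * x) ^ 2| ≤ X ^ 3 * (LL X Z a b1 w * d) ∧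
  |(b1 : ℝ) * x| ≤ X ^ 3 ∧ (X ^ 2 / 4 ≤ |(a : ℝ)| ∨ X ^ 3 / 8 ≤ |(b1 : ℝ) * x|) ∧
  Dsc a (b1 * x) ≠ 0

lemma Dsc_le {X : ℝ} {a b : ℤ} (ha : |(a : ℝ)| ≤ X ^ 2) (hb : |(b : ℝ)| ≤ X ^ 3) :
    |((Dsc a b : ℤ) : ℝ)| ≤ 31 * X ^ 6 := by
  unfold Dsc
  push_cast
  have e1 : |4 * (a : ℝ) ^ 3| ≤ 4 * X ^ 6 := by
    rw [abs_mul, abs_pow, abs_of_pos (by norm_num : (0 : ℝ) < 4)]
    calc 4 * |(a : ℝ)| ^ 3 ≤ 4 * (X ^ 2) ^ 3 := by gcongr
      _ = 4 * X ^ 6 := by ring
  have e2 : |27 * (b : ℝ) ^ 2| ≤ 27 * X ^ 6 := by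
    rw [abs_mul, abs_pow, abs_of_pos (by norm_num : (0 : ℝ) < 27)]
    calc 27 * |(b : ℝ)| ^ 2 ≤ 27 * (X ^ 3) ^ 2 := by gcongr
      _ = 27 * X ^ 6 := by ring
  have e3 := abs_sub (4 * (a : ℝ) ^ 3) (27 * (b : ℝ) ^ 2)
  linarith

theorem reduction4 {Z X : ℝ} (hZ : 0 < Z) (hX : 1 ≤ X) {a b : ℤ} (ha : a ≠ 0) (hb : b ≠ 0)
    (hD : Dsc a b ≠ 0) (hax : |(a : ℝ)| ≤ X ^ 2) (hbx : |(b : ℝ)| ≤ X ^ 3)
    (htop : X ^ 2 / 4 ≤ |(a : ℝ)| ∨ X ^ 3 / 8 ≤ |(b : ℝ)|) (hC : (Cnd a b : ℝ) ≤ Z) :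
    (∃ p : ℕ, X ^ 2 < p ∧ (p : ℤ) ^ 2 ∣ Dsc a b) ∨
    ∃ (b1 w d : ℕ) (x : ℤ), b = b1 * x ∧ 1 ≤ b1 ∧ (b1 : ℝ) ≤ X ^ 3 ∧
      b1.primeFactors ⊆ (6 * a.natAbs).primeFactors ∧ 1 ≤ w ∧ (w : ℝ) ≤ 31 * X ^ 6 ∧
      w.primeFactors ⊆ (6 * a.natAbs).primeFactors ∧ 1 ≤ d ∧ (d : ℝ) ≤ X ^ 2 ∧
      R4 X Z a b1 w d x := by
  have hX0 : 0 < X := by linarith
  have ha' : a.natAbs ≠ 0 := Int.natAbs_ne_zero.2 ha
  have hb' : b.natAbs ≠ 0 := Int.natAbs_ne_zero.2 hb
  set m := 6 * a.natAbs with hm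
  have hm0 : m ≠ 0 := by omega
  obtain ⟨b1, y, hby, hb1, hb1s, hycop⟩ := split_part m hm0 b.natAbs (by omega)
  have hy0 : y ≠ 0 := by
    rintro rfl
    rw [mul_zero] at hby
    exact hb' hby
  set x : ℤ := b.sign * y with hx
  have hbx' : b = b1 * x := by
    have h1 := Int.sign_mul_natAbs b
    rw [hby] at h1
    push_cast at h1
    rw [hx]
    linarith
  have hxabs : x.natAbs = y := by
    rw [hx, Int.natAbs_mul, Int.natAbs_natCast, Int.natAbs_sign_of_ne_zero hb, one_mul]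
  set u := uu a b1 with hu
  have hu0 : 0 < u := Nat.gcd_pos_of_pos_left _ (by positivity)
  have hu1 : u ∣ 4 * a.natAbs ^ 3 := Nat.gcd_dvd_left _ _
  have hu2 : u ∣ 27 * b1 ^ 2 := Nat.gcd_dvd_right _ _
  have hU : 4 * a ^ 3 = u * UU a b1 := by
    unfold UU
    rw [← hu]
    refine (Int.mul_ediv_cancel' (Int.natCast_dvd.2 ?_)).symm
    rw [Int.natAbs_mul, Int.natAbs_pow]
    exact hu1
  have hW : 27 * (b1 : ℤ) ^ 2 = u * WW a b1 := by
    unfold WW
    rw [← hu]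
    refine (Int.mul_ediv_cancel' ?_).symm
    exact_mod_cast hu2
  set U := UU a b1
  set W := WW a b1
  have hDT : Dsc a b = u * (U - W * x ^ 2) := by
    unfold Dsc
    rw [hbx']
    linear_combination hU - x ^ 2 * hW
  set T := U - W * x ^ 2 with hT
  have hT0 : T ≠ 0 := by
    intro h
    rw [h, mul_zero] at hDT
    exact hD hDT
  -- the coprimality of the cofactors
  have hUn : 4 * a.natAbs ^ 3 = u * U.natAbs := by
    have := congrArg Int.natAbs hU
    rwa [Int.natAbs_mul, Int.natAbs_mul, Int.natAbs_pow, Int.natAbs_natCast] at this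
  have hWn : 27 * b1 ^ 2 = u * W.natAbs := by
    have := congrArg Int.natAbs hW
    rwa [Int.natAbs_mul, Int.natAbs_mul, Int.natAbs_pow, Int.natAbs_natCast,
      Int.natAbs_natCast] at this
  have hUW : Nat.gcd U.natAbs W.natAbs = 1 := by
    have h1 : Nat.gcd (4 * a.natAbs ^ 3) (27 * b1 ^ 2) = u := rfl
    rw [hUn, hWn, Nat.gcd_mul_left] at h1
    exact Nat.eq_of_mul_eq_mul_left hu0 (by rw [h1, mul_one])
  obtain ⟨w, n, hwn, hw, hws, hncop⟩ := split_part m hm0 T.natAbs (by omega)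
  have hn0 : n ≠ 0 := by
    rintro rfl
    rw [mul_zero] at hwn
    omega
  have hnT : (n : ℤ) ∣ T := Int.natCast_dvd.2 (by rw [hwn]; exact Dvd.intro_left w rfl)
  have hwT : (w : ℤ) ∣ T := Int.natCast_dvd.2 (by rw [hwn]; exact Dvd.intro n rfl)
  have hnD : (n : ℤ) ∣ Dsc a b := by
    rw [hDT]
    exact Dvd.dvd.mul_left hnT _
  have hcnd := cnd_ge (b1 := b1) ha hD hnD hncop ⟨x, hbx'⟩
  set G := rad (Nat.gcd a.natAbs b1) with hG
  have hG0 : (0 : ℝ) < G := by exact_mod_cast rad_pos _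
  have hrn : (0 : ℝ) < rad n := by exact_mod_cast rad_pos n
  have hn1 : 1 ≤ n := by omega
  have hn0' : (0 : ℝ) < n := by exact_mod_cast hn1
  have hcnd' : (rad n : ℝ) * (G : ℝ) ^ 2 ≤ 36 * Z := by
    have h1 : (rad n : ℝ) * (G : ℝ) ^ 2 ≤ 36 * (Cnd a b : ℝ) := by exact_mod_cast hcnd
    linarith
  have hDabs : |((Dsc a b : ℤ) : ℝ)| = u * (w * n) := by
    rw [hDT]
    push_cast
    rw [abs_mul, Nat.abs_cast]
    congr 1
    have h1 : ((T.natAbs : ℕ) : ℝ) = |(T : ℝ)| := by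
      rw [Nat.cast_natAbs]
      push_cast
      rfl
    rw [← h1, hwn]
    push_cast
    ring
  have hD31 := Dsc_le hax hbx
  have hu1' : (1 : ℝ) ≤ u := by exact_mod_cast hu0
  have hw1' : (1 : ℝ) ≤ w := by exact_mod_cast hw
  have hn1' : (1 : ℝ) ≤ n := by exact_mod_cast hn1
  have hquot : min X ((n : ℝ) * (G : ℝ) ^ 2 / (36 * Z)) ≤ ((n / rad n : ℕ) : ℝ) := by
    refine (min_le_right _ _).trans ?_
    rw [Nat.cast_div (rad_dvd n) hrn.ne', div_le_div_iff₀ (by positivity) hrn]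
    nlinarith
  rcases choose_modulus n hn1 X (min X ((n : ℝ) * (G : ℝ) ^ 2 / (36 * Z))) hX
    (min_le_left _ _) hquot with ⟨p, hp, hpX, hpn⟩ | ⟨d, hd1, hdX, hdt, hdn⟩
  · left
    refine ⟨p, hpX, ?_⟩
    have h1 : ((p : ℤ)) ^ 2 ∣ (n : ℤ) := by exact_mod_cast hpn
    exact h1.trans hnD
  · right
    have hd0 : (0 : ℝ) < d := by exact_mod_cast hd1
    have hdn' : d ∣ n := (Dvd.intro _ rfl : d ∣ d * rad d).trans hdn
    refine ⟨b1, w, d, x, hbx', hb1, ?_, hb1s, hw, ?_, hws, hd1, hdX, ?_, ?_, ?_, ?_, ?_, ?_, ?_⟩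
    · have h1 : (b1 : ℝ) ≤ |(b : ℝ)| := by
        have h2 : ((b.natAbs : ℕ) : ℝ) = |(b : ℝ)| := by
          rw [Nat.cast_natAbs]
          push_cast
          rfl
        rw [← h2, hby]
        have : b1 ≤ b1 * y := Nat.le_mul_of_pos_right _ (by omega)
        exact_mod_cast this
      exact h1.trans hbx
    · rw [hDabs] at hD31
      calc (w : ℝ) = 1 * (w * 1) := by ring
        _ ≤ u * (w * n) := by gcongr
        _ ≤ 31 * X ^ 6 := hD31
    · -- the first cofactor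
      rw [Int.isCoprime_iff_gcd_eq_one, Int.gcd, Int.natAbs_natCast]
      by_contra hcon
      obtain ⟨p, hp, hpU, hps⟩ := Nat.Prime.not_coprime_iff_dvd.1 hcon
      rcases (Nat.Prime.dvd_mul hp).1 hps with h | h
      · have hpm := Nat.dvd_of_mem_primeFactors (hws (Nat.mem_primeFactors.2 ⟨hp, h, by omega⟩))
        have h1 : (p : ℤ) ∣ T := (Int.natCast_dvd_natCast.2 h).trans hwT
        have h2 : (p : ℤ) ∣ U := Int.natCast_dvd.2 hpU
        have h3 : (p : ℤ) ∣ W * x ^ 2 := by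
          have : W * x ^ 2 = U - T := by rw [hT]; ring
          rw [this]
          exact dvd_sub h2 h1
        have hpp : Prime (p : ℤ) := Nat.prime_iff_prime_int.1 hp
        rcases hpp.dvd_or_dvd h3 with h4 | h4
        · have := Nat.dvd_gcd hpU (Int.natCast_dvd.1 h4)
          rw [hUW] at this
          exact hp.one_lt.ne' (Nat.dvd_one.1 this)
        · have h5 := hpp.dvd_of_dvd_pow h4
          have h6 : p ∣ y := by
            rw [← hxabs]
            exact Int.natCast_dvd.1 h5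
          have := Nat.dvd_gcd h6 hpm
          rw [hycop] at this
          exact hp.one_lt.ne' (Nat.dvd_one.1 this)
      · have hpd : p ∣ d := by
          rcases (Nat.Prime.dvd_mul hp).1 h with h1 | h1
          · exact h1
          · exact h1.trans (rad_dvd d)
        have h1 : p ∣ 4 * a.natAbs ^ 3 := by
          rw [hUn]
          exact Dvd.dvd.mul_left hpU _
        have h2 : p ∣ m := by
          rcases (Nat.Prime.dvd_mul hp).1 h1 with h3 | h3
          · have : p ∣ 2 := hp.dvd_of_dvd_pow (show p ∣ 2 ^ 2 by norm_num; exact h3)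
            exact (this.trans (by norm_num : 2 ∣ 6)).trans (Dvd.intro _ rfl)
          · exact Dvd.dvd.mul_left (hp.dvd_of_dvd_pow h3) 6
        have := Nat.dvd_gcd (hpd.trans hdn') h2
        rw [hncop] at this
        exact hp.one_lt.ne' (Nat.dvd_one.1 this)
    · -- the second cofactor
      rw [Int.isCoprime_iff_gcd_eq_one, Int.gcd, Int.natAbs_natCast]
      by_contra hcon
      obtain ⟨p, hp, hpW, hps⟩ := Nat.Prime.not_coprime_iff_dvd.1 hcon
      rcases (Nat.Prime.dvd_mul hp).1 hps with h | h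
      · have h1 : (p : ℤ) ∣ T := (Int.natCast_dvd_natCast.2 h).trans hwT
        have h2 : (p : ℤ) ∣ W := Int.natCast_dvd.2 hpW
        have h3 : (p : ℤ) ∣ U := by
          have : U = T + W * x ^ 2 := by rw [hT]; ring
          rw [this]
          exact dvd_add h1 (Dvd.dvd.mul_right h2 _)
        have := Nat.dvd_gcd (Int.natCast_dvd.1 h3) hpW
        rw [hUW] at this
        exact hp.one_lt.ne' (Nat.dvd_one.1 this)
      · have hpd : p ∣ d := by
          rcases (Nat.Prime.dvd_mul hp).1 h with h1 | h1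
          · exact h1
          · exact h1.trans (rad_dvd d)
        have h1 : p ∣ 27 * b1 ^ 2 := by
          rw [hWn]
          exact Dvd.dvd.mul_left hpW _
        have h2 : p ∣ m := by
          rcases (Nat.Prime.dvd_mul hp).1 h1 with h3 | h3
          · have : p ∣ 3 := hp.dvd_of_dvd_pow (show p ∣ 3 ^ 3 by norm_num; exact h3)
            exact (this.trans (by norm_num : 3 ∣ 6)).trans (Dvd.intro _ rfl)
          · exact Nat.dvd_of_mem_primeFactors
              (hb1s (Nat.mem_primeFactors.2 ⟨hp, hp.dvd_of_dvd_pow h3, by omega⟩))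
        have := Nat.dvd_gcd (hpd.trans hdn') h2
        rw [hncop] at this
        exact hp.one_lt.ne' (Nat.dvd_one.1 this)
    · -- the divisibility
      rw [← hT]
      apply Int.natCast_dvd.2
      rw [hwn]
      exact Nat.mul_dvd_mul_left w hdn
    · -- the size
      have h1 : 4 * (a : ℝ) ^ 3 - 27 * ((b1 : ℝ) * x) ^ 2 = ((Dsc a b : ℤ) : ℝ) := by
        rw [hbx']
        unfold Dsc
        push_cast
        ring
      rw [h1]
      unfold LL
      rw [← hu, ← hG]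
      have hLL : 0 ≤ 36 * (u : ℝ) * w * Z / ((G : ℝ) ^ 2 * X ^ 3) := by positivity
      rcases le_or_gt X (d : ℝ) with h | h
      · calc |((Dsc a b : ℤ) : ℝ)| ≤ 31 * X ^ 6 := hD31
          _ ≤ X ^ 3 * ((0 + 62 * X ^ 2) * X) := by
            have : 0 ≤ X ^ 6 := by positivity
            nlinarith
          _ ≤ _ := by gcongr
      · have h5 : (n : ℝ) * (G : ℝ) ^ 2 / (36 * Z) ≤ d := by
          rcases min_le_iff.1 hdt with h7 | h7
          · exact absurd h7 (not_le.2 h)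
          · exact h7
        rw [div_le_iff₀ (by positivity)] at h5
        rw [hDabs]
        have h6 : (n : ℝ) ≤ 36 * Z * d / (G : ℝ) ^ 2 := by
          rw [le_div_iff₀ (by positivity)]
          linarith
        calc (u : ℝ) * (w * n) ≤ u * (w * (36 * Z * d / (G : ℝ) ^ 2)) := by gcongr
          _ = X ^ 3 * ((36 * (u : ℝ) * w * Z / ((G : ℝ) ^ 2 * X ^ 3)) * d) := by
            field_simp
          _ ≤ _ := by
            have : 0 ≤ 62 * X ^ 2 := by positivity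
            gcongr
            linarith
    · have h1 : ((b1 : ℝ) * x) = (b : ℝ) := by
        rw [hbx']
        push_cast
        ring
      rw [h1]
      exact hbx
    · have h1 : ((b1 : ℝ) * x) = (b : ℝ) := by
        rw [hbx']
        push_cast
        ring
      rw [h1]
      exact htop
    · rw [← hbx']
      exact hD

end Pool.Agent.X12.Szp
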