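import Pool.Agent.X12.Szp13

/-!
# All elliptic curves over `ℚ`: the count
-/

set_option autoImplicit false

namespace Pool.Agent.X12.Szp

open Finset Filter Topology Pool.Agent.H328R2.ABC

/-- the quotient by the radical -/
noncomputable def qq (n : ℕ) : ℝ := (n : ℝ) / rad n

lemma qq_nonneg (n : ℕ) : 0 ≤ qq n := by unfold qq; positivity

lemma uu_pos {a : ℤ} (ha : a ≠ 0) (b1 : ℕ) : 0 < uu a b1 := by
  have : a.natAbs ≠ 0 := Int.natAbs_ne_zero.2 ha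
  exact Nat.gcd_pos_of_pos_left _ (by positivity)

lemma Dsc_eq (a : ℤ) (b1 : ℕ) (x : ℤ) :
    Dsc a (b1 * x) = uu a b1 * (UU a b1 - WW a b1 * x ^ 2) := by
  have hu1 : uu a b1 ∣ 4 * a.natAbs ^ 3 := Nat.gcd_dvd_left _ _
  have hu2 : uu a b1 ∣ 27 * b1 ^ 2 := Nat.gcd_dvd_right _ _
  have hU : 4 * a ^ 3 = uu a b1 * UU a b1 := by
    unfold UU
    refine (Int.mul_ediv_cancel' (Int.natCast_dvd.2 ?_)).symm
    rw [Int.natAbs_mul, Int.natAbs_pow]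
    exact hu1
  have hW : 27 * (b1 : ℤ) ^ 2 = uu a b1 * WW a b1 := by
    unfold WW
    refine (Int.mul_ediv_cancel' ?_).symm
    exact_mod_cast hu2
  unfold Dsc
  linear_combination hU - x ^ 2 * hW

/-- the minimality in terms of `b1` -/
def Mn (a : ℤ) (b1 : ℕ) : Prop := ∀ p : ℕ, p.Prime → ¬ (p ^ 4 ∣ a.natAbs ∧ p ^ 6 ∣ b1)

lemma LL_le {X Z : ℝ} (hX : 1 ≤ X) (hZ : 0 < Z) {a : ℤ} (ha : a ≠ 0) {b1 w : ℕ} (hb1 : 1 ≤ b1)
    (hw : 1 ≤ w) (hmin : Mn a b1) :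
    LL X Z a b1 w / (b1 * w) ≤ 36 * 6 ^ 14 * qq a.natAbs * (Z / X ^ 3) + 62 * X ^ 2 := by
  have hX0 : 0 < X := by linarith
  have ha' : a.natAbs ≠ 0 := Int.natAbs_ne_zero.2 ha
  have h1 := gcd_dvd ha' (by omega : b1 ≠ 0) hmin
  set G := rad (Nat.gcd a.natAbs b1) with hG
  have hG0 : (0 : ℝ) < G := by exact_mod_cast rad_pos _
  have hr : (0 : ℝ) < rad a.natAbs := by exact_mod_cast rad_pos _
  have hb : (1 : ℝ) ≤ b1 := by exact_mod_cast hb1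
  have hw' : (1 : ℝ) ≤ w := by exact_mod_cast hw
  have h2 : uu a b1 * rad a.natAbs ≤ 6 ^ 14 * (b1 * a.natAbs * G ^ 2) :=
    Nat.le_of_dvd (by
      have := rad_pos (Nat.gcd a.natAbs b1)
      positivity) h1
  have h3 : (uu a b1 : ℝ) * rad a.natAbs ≤ 6 ^ 14 * (b1 * (a.natAbs : ℝ) * (G : ℝ) ^ 2) := by
    have h30 : ((uu a b1 * rad a.natAbs : ℕ) : ℝ) ≤
        ((6 ^ 14 * (b1 * a.natAbs * G ^ 2) : ℕ) : ℝ) := Nat.cast_le.2 h2
    rw [Nat.cast_mul, Nat.cast_mul, Nat.cast_mul, Nat.cast_mul, Nat.cast_pow, Nat.cast_pow] at h30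
    exact h30
  have h4 : (uu a b1 : ℝ) / ((G : ℝ) ^ 2 * b1) ≤ 6 ^ 14 * qq a.natAbs := by
    unfold qq
    rw [div_le_iff₀ (by positivity), mul_assoc, div_mul_eq_mul_div, ← mul_div_assoc,
      le_div_iff₀ hr]
    linarith
  unfold LL
  rw [← hG, add_div]
  refine add_le_add ?_ ?_
  · have h5 : 36 * (uu a b1 : ℝ) * w * Z / ((G : ℝ) ^ 2 * X ^ 3) / (b1 * w) =
        36 * ((uu a b1 : ℝ) / ((G : ℝ) ^ 2 * b1)) * (Z / X ^ 3) := by
      field_simp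
    rw [h5]
    have : 0 ≤ Z / X ^ 3 := by positivity
    calc 36 * ((uu a b1 : ℝ) / ((G : ℝ) ^ 2 * b1)) * (Z / X ^ 3) ≤
        36 * (6 ^ 14 * qq a.natAbs) * (Z / X ^ 3) := by gcongr
      _ = _ := by ring
  · apply div_le_self (by positivity)
    nlinarith

/-- the admissible auxiliary numbers -/
noncomputable def PP (m : ℕ) (Y : ℝ) : Finset ℕ :=
  (Finset.Icc 1 ⌊Y⌋₊).filter (fun n => n.primeFactors ⊆ m.primeFactors)

open scoped Classical in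
/-- the fibre -/
noncomputable def FF (X Z : ℝ) (a : ℤ) (b1 w d : ℕ) : Finset ℤ :=
  (Finset.Icc (-⌊X ^ 3⌋) ⌊X ^ 3⌋).filter (fun x => R4 X Z a b1 w d x ∧ Mn a b1)

lemma FF_card {e C2 : ℝ} (he : 0 < e) (hC2 : 0 < C2)
    (hdiv : ∀ n : ℕ, 1 ≤ n → (n.divisors.card : ℝ) ≤ C2 * (n : ℝ) ^ e)
    {X Z : ℝ} (hX : 1 ≤ X) (hZ : 0 < Z) {a : ℤ} (ha : a ≠ 0) (hax : |(a : ℝ)| ≤ X ^ 2) {b1 w d : ℕ}
    (hb1 : 1 ≤ b1) (hw : 1 ≤ w) (hd : 1 ≤ d) :
    ((FF X Z a b1 w d).card : ℝ) ≤ 4 * (C2 * (31 * X ^ 6) ^ e) *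
      (80 * (36 * 6 ^ 14 * qq a.natAbs * (Z / X ^ 3) + 62 * X ^ 2) * (1 / (rad d : ℝ)) + 1) := by
  classical
  have hX0 : 0 < X := by linarith
  have hr0 : (0 : ℝ) < rad d := by exact_mod_cast rad_pos d
  have hq := qq_nonneg a.natAbs
  rcases Finset.eq_empty_or_nonempty (FF X Z a b1 w d) with h | ⟨x0, hx0⟩
  · rw [h, Finset.card_empty, Nat.cast_zero]
    positivity
  obtain ⟨⟨c1, c2, c3, -, c5, -, c7⟩, hmin⟩ := (Finset.mem_filter.1 hx0).2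
  set s := w * (d * rad d) with hs
  have hs1 : 1 ≤ s := Nat.mul_pos hw (Nat.mul_pos hd (rad_pos d))
  have hb0 : (0 : ℝ) < b1 := by exact_mod_cast hb1
  have hw0 : (0 : ℝ) < w := by exact_mod_cast hw
  have hd0 : (0 : ℝ) < d := by exact_mod_cast hd
  have hLLpos : 0 ≤ LL X Z a b1 w := by
    unfold LL
    positivity
  have h1 := fiber_count X (LL X Z a b1 w * d) hX (by positivity) a (UU a b1) (WW a b1) b1 s hb1
    hs1 c1 c2 (FF X Z a b1 w d) (by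
      intro x hx
      obtain ⟨⟨-, -, k3, k4, k5, k6, -⟩, -⟩ := (Finset.mem_filter.1 hx).2
      exact ⟨k3, k4, k5, k6⟩)
  -- the bound for the modulus
  have hsX : (s : ℝ) ≤ 31 * X ^ 6 := by
    have h2 := Dsc_eq a b1 x0
    have h3 : (s : ℤ) ∣ Dsc a (b1 * x0) := by
      rw [h2]
      exact Dvd.dvd.mul_left c3 _
    have h4 : s ≤ (Dsc a (b1 * x0)).natAbs :=
      Nat.le_of_dvd (Int.natAbs_pos.2 c7) (Int.natCast_dvd.1 h3)
    have h5 : ((s : ℕ) : ℝ) ≤ |((Dsc a (b1 * x0) : ℤ) : ℝ)| := by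
      have : (((Dsc a (b1 * x0)).natAbs : ℕ) : ℝ) = |((Dsc a (b1 * x0) : ℤ) : ℝ)| := by
        rw [Nat.cast_natAbs]
        push_cast
        rfl
      rw [← this]
      exact_mod_cast h4
    refine h5.trans (Dsc_le hax ?_)
    push_cast
    exact c5
  have h6 : (s.divisors.card : ℝ) ≤ C2 * (31 * X ^ 6) ^ e := by
    refine (hdiv s hs1).trans ?_
    gcongr
  have h7 : 80 * (LL X Z a b1 w * d) / b1 / s =
      80 * (LL X Z a b1 w / (b1 * w)) * (1 / (rad d : ℝ)) := by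
    rw [hs]
    push_cast
    field_simp
  rw [h7] at h1
  refine h1.trans ?_
  have h8 := LL_le hX hZ ha hb1 hw hmin
  gcongr

lemma sum_qq {C3 e : ℝ} (hC3 : 0 < C3)
    (hsum : ∀ N : ℕ, 1 ≤ N → ∑ V ∈ Finset.Icc 1 N, (1 : ℝ) / (rad V : ℝ) ≤ C3 * (N : ℝ) ^ e)
    (he : 0 < e) {X : ℝ} (hX : 1 ≤ X) :
    ∑ a ∈ (Finset.Icc (-⌊X ^ 2⌋) ⌊X ^ 2⌋).filter (fun a => a ≠ 0), qq a.natAbs ≤
      2 * C3 * (X ^ 2) ^ e * X ^ 2 := by
  classical
  have hX2 : (1 : ℝ) ≤ X ^ 2 := one_le_pow₀ hX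
  have hf1 : 1 ≤ ⌊X ^ 2⌋₊ := Nat.le_floor (by simpa using hX2)
  have hf2 : ((⌊X ^ 2⌋₊ : ℕ) : ℝ) ≤ X ^ 2 := Nat.floor_le (by positivity)
  set A := (Finset.Icc (-⌊X ^ 2⌋) ⌊X ^ 2⌋).filter (fun a => a ≠ 0) with hA
  have hmaps : ∀ a ∈ A, a.natAbs ∈ Finset.Icc 1 ⌊X ^ 2⌋₊ := by
    intro a ha
    rw [hA, Finset.mem_filter] at ha
    have h1 := abs_le_of_mem ha.1
    rw [Finset.mem_Icc]
    refine ⟨by omega, Nat.le_floor ?_⟩
    have : ((a.natAbs : ℕ) : ℝ) = |(a : ℝ)| := by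
      rw [Nat.cast_natAbs]
      push_cast
      rfl
    rw [this]
    exact h1
  rw [← Finset.sum_fiberwise_of_maps_to hmaps]
  have h1 : ∀ n ∈ Finset.Icc 1 ⌊X ^ 2⌋₊, ∑ a ∈ A.filter (fun a => a.natAbs = n), qq a.natAbs ≤
      2 * (X ^ 2 * (1 / (rad n : ℝ))) := by
    intro n hn
    rw [Finset.mem_Icc] at hn
    have hnX : (n : ℝ) ≤ X ^ 2 := le_trans (by exact_mod_cast hn.2) hf2
    have e1 : ∑ a ∈ A.filter (fun a => a.natAbs = n), qq a.natAbs =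
        ((A.filter (fun a => a.natAbs = n)).card : ℝ) * qq n := by
      rw [← nsmul_eq_mul, ← Finset.sum_const]
      refine Finset.sum_congr rfl fun a ha => ?_
      rw [(Finset.mem_filter.1 ha).2]
    have e2 : (A.filter (fun a => a.natAbs = n)).card ≤ 2 := by
      have : A.filter (fun a => a.natAbs = n) ⊆ {(n : ℤ), -(n : ℤ)} := by
        intro a ha
        have := (Finset.mem_filter.1 ha).2
        simp only [Finset.mem_insert, Finset.mem_singleton]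
        omega
      exact (Finset.card_le_card this).trans (Finset.card_le_two)
    have e3 : qq n ≤ X ^ 2 * (1 / (rad n : ℝ)) := by
      unfold qq
      rw [div_eq_mul_one_div]
      gcongr
    rw [e1]
    have e4 : ((A.filter (fun a => a.natAbs = n)).card : ℝ) ≤ 2 := by exact_mod_cast e2
    have := qq_nonneg n
    gcongr
  refine (Finset.sum_le_sum h1).trans ?_
  rw [← Finset.mul_sum, ← Finset.mul_sum]
  have h2 := hsum _ hf1
  calc 2 * (X ^ 2 * ∑ i ∈ Finset.Icc 1 ⌊X ^ 2⌋₊, 1 / (rad i : ℝ)) ≤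
      2 * (X ^ 2 * (C3 * ((⌊X ^ 2⌋₊ : ℕ) : ℝ) ^ e)) := by gcongr
    _ ≤ 2 * (X ^ 2 * (C3 * (X ^ 2) ^ e)) := by gcongr
    _ = _ := by ring

/-- the pairs with a large square -/
def R5 (X : ℝ) (a b : ℤ) : Prop :=
  a ≠ 0 ∧ Dsc a b ≠ 0 ∧ ∃ p : ℕ, X ^ 2 < p ∧ (p : ℤ) ^ 2 ∣ Dsc a b

/-- the points of the conic -/
def conicSet2 (Z : ℕ) (c m : ℤ) : Set (ℤ × ℤ) :=
  {p : ℤ × ℤ | p.1 ^ 2 - (-m) * p.2 ^ 2 = c ∧ |p.1| ≤ (Z : ℤ) ∧ |p.2| ≤ (Z : ℤ)}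

lemma conicSet2_finite (Z : ℕ) (c m : ℤ) : (conicSet2 Z c m).Finite := by
  refine Set.Finite.subset (Finset.finite_toSet ((Finset.Icc (-(Z : ℤ)) Z) ×ˢ
    (Finset.Icc (-(Z : ℤ)) Z))) ?_
  rintro p ⟨-, h1, h2⟩
  rw [Finset.mem_coe, Finset.mem_product, Finset.mem_Icc, Finset.mem_Icc, ← abs_le, ← abs_le]
  exact ⟨h1, h2⟩

open scoped Classical in
theorem count_R5 (ε : ℝ) (hε : 0 < ε) : ∃ C : ℝ, 0 < C ∧ ∀ (X : ℝ), 1 ≤ X →
    ((((Finset.Icc (-⌊X ^ 2⌋) ⌊X ^ 2⌋) ×ˢ (Finset.Icc (-⌊X ^ 3⌋) ⌊X ^ 3⌋)).filter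
      (fun q : ℤ × ℤ => R5 X q.1 q.2)).card : ℝ) ≤ C * X ^ ε * X ^ (4 : ℝ) := by
  obtain ⟨C₁, hC₁, hpell⟩ := Pool.Agent.Y900.PC.pellgen (ε / 13) (by positivity)
  set K0 : ℝ := (27 * 31) ^ 2 * 108 * 27 with hK0
  refine ⟨3 * 93 * C₁ * K0 ^ (ε / 13), by positivity, ?_⟩
  intro X hX
  have hX0 : 0 < X := by linarith
  have hX2 : (1 : ℝ) ≤ X ^ 2 := one_le_pow₀ hX
  have hX3 : (1 : ℝ) ≤ X ^ 3 := one_le_pow₀ hX
  set A := Finset.Icc (-⌊X ^ 2⌋) ⌊X ^ 2⌋ with hA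
  set B := Finset.Icc (-⌊X ^ 3⌋) ⌊X ^ 3⌋ with hB
  set M := Finset.Icc (-⌊31 * X ^ 2⌋) ⌊31 * X ^ 2⌋ with hM
  set Z := ⌊27 * X ^ 3⌋₊ with hZ
  have hZ1 : 1 ≤ Z := Nat.le_floor (by push_cast; linarith)
  have hZX : (Z : ℝ) ≤ 27 * X ^ 3 := Nat.floor_le (by positivity)
  have h1 : ((A ×ˢ B).filter (fun q : ℤ × ℤ => R5 X q.1 q.2)) ⊆
      (A.filter (fun a => a ≠ 0)).biUnion fun a => (M.filter (fun m => m ≠ 0)).biUnion fun m =>
        (conicSet2_finite Z (108 * a ^ 3) (27 * m)).toFinset.image fun p => (a, p.1 / 27) := by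
    rintro ⟨a, b⟩ hq
    rw [Finset.mem_filter, Finset.mem_product] at hq
    obtain ⟨⟨ha, hb⟩, ha0, hab, p, hp, m, hm⟩ := hq
    simp only at ha hb ha0 hab hm
    have hax := abs_le_of_mem ha
    have hbx := abs_le_of_mem hb
    have hp0 : (0 : ℝ) < p := by linarith
    have hm0 : m ≠ 0 := by
      rintro rfl
      rw [mul_zero] at hm
      exact hab hm
    have hT := Dsc_le hax hbx
    have hmr : ((Dsc a b : ℤ) : ℝ) = (p : ℝ) ^ 2 * m := by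
      rw [hm]
      push_cast
      ring
    rw [hmr, abs_mul, abs_of_nonneg (by positivity : (0 : ℝ) ≤ (p : ℝ) ^ 2)] at hT
    have hm1 : (1 : ℝ) ≤ |(m : ℝ)| := by
      have : (1 : ℤ) ≤ |m| := Int.one_le_abs hm0
      exact_mod_cast this
    have hpp : (X ^ 2) ^ 2 < (p : ℝ) ^ 2 := by gcongr
    have hmM : |(m : ℝ)| ≤ 31 * X ^ 2 := by
      by_contra hcon
      push Not at hcon
      have : (X ^ 2) ^ 2 * (31 * X ^ 2) < (p : ℝ) ^ 2 * |(m : ℝ)| := by gcongr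
      nlinarith
    have hpZ : (p : ℝ) ≤ 27 * X ^ 3 := by
      by_contra hcon
      push Not at hcon
      have h5 : (27 * X ^ 3) ^ 2 * 1 < (p : ℝ) ^ 2 * |(m : ℝ)| := by
        calc (27 * X ^ 3) ^ 2 * 1 < (p : ℝ) ^ 2 * 1 := by gcongr
          _ ≤ (p : ℝ) ^ 2 * |(m : ℝ)| := by gcongr
      have h6 : 0 < X ^ 6 := by positivity
      nlinarith
    rw [Finset.mem_biUnion]
    refine ⟨a, Finset.mem_filter.2 ⟨ha, ha0⟩, ?_⟩
    rw [Finset.mem_biUnion]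
    refine ⟨m, Finset.mem_filter.2 ⟨mem_of_abs_le hmM, hm0⟩, ?_⟩
    rw [Finset.mem_image]
    refine ⟨(27 * b, (p : ℤ)), ?_, ?_⟩
    · rw [Set.Finite.mem_toFinset]
      refine ⟨?_, ?_, ?_⟩
      · simp only
        unfold Dsc at hm
        linear_combination (-27) * hm
      · simp only
        have e1 : ((|27 * b| : ℤ) : ℝ) ≤ 27 * X ^ 3 := by
          push_cast
          rw [abs_mul, abs_of_pos (by norm_num : (0 : ℝ) < 27)]
          linarith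
        have e2 : |27 * b| ≤ ⌊27 * X ^ 3⌋ := Int.le_floor.2 e1
        have e3 : ⌊27 * X ^ 3⌋ ≤ (Z : ℤ) := by
          rw [hZ]
          rw [← Int.natCast_floor_eq_floor (by positivity)]
        exact e2.trans e3
      · simp only [Nat.abs_cast]
        have : p ≤ Z := Nat.le_floor hpZ
        exact_mod_cast this
    · simp only [Prod.mk.injEq, true_and]
      exact Int.mul_ediv_cancel_left b (by norm_num)
  have h2 : ∀ a ∈ A.filter (fun a => a ≠ 0), ∀ m ∈ M.filter (fun m => m ≠ 0),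
      (((conicSet2_finite Z (108 * a ^ 3) (27 * m)).toFinset.image fun p => (a, p.1 / 27)).card : ℝ)
        ≤ C₁ * (K0 ^ (ε / 13) * X ^ ε) := by
    intro a ha m hm
    rw [Finset.mem_filter] at ha hm
    have hax := abs_le_of_mem ha.1
    have hmx := abs_le_of_mem hm.1
    have e1 : (((conicSet2_finite Z (108 * a ^ 3) (27 * m)).toFinset.image
        fun p => (a, p.1 / 27)).card : ℝ) ≤ ((conicSet2 Z (108 * a ^ 3) (27 * m)).ncard : ℝ) := by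
      rw [Set.ncard_eq_toFinset_card _ (conicSet2_finite Z _ _)]
      exact_mod_cast Finset.card_image_le
    refine e1.trans ((hpell (-(27 * m)) (108 * a ^ 3)
      (neg_ne_zero.2 (mul_ne_zero (by norm_num) hm.2))
      (mul_ne_zero (by norm_num) (pow_ne_zero 3 ha.2)) Z hZ1).trans ?_)
    refine mul_le_mul_of_nonneg_left ?_ hC₁.le
    have e2 : |((-(27 * m) : ℤ) : ℝ)| ^ 2 * |((108 * a ^ 3 : ℤ) : ℝ)| * (Z : ℝ) ≤ K0 * X ^ 13 := by
      push_cast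
      rw [abs_neg, abs_mul, abs_mul, abs_pow, abs_of_pos (by norm_num : (0 : ℝ) < 27),
        abs_of_pos (by norm_num : (0 : ℝ) < 108)]
      calc (27 * |(m : ℝ)|) ^ 2 * (108 * |(a : ℝ)| ^ 3) * (Z : ℝ) ≤
            (27 * (31 * X ^ 2)) ^ 2 * (108 * (X ^ 2) ^ 3) * (27 * X ^ 3) := by gcongr
        _ = K0 * X ^ 13 := by rw [hK0]; ring
    refine (Real.rpow_le_rpow (by positivity) e2 (by positivity)).trans (le_of_eq ?_)
    rw [Real.mul_rpow (by positivity) (by positivity)]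
    congr 1
    rw [← Real.rpow_natCast X 13, ← Real.rpow_mul hX0.le]
    congr 1
    push_cast
    ring
  have hK0' : 0 ≤ C₁ * (K0 ^ (ε / 13) * X ^ ε) := by positivity
  have hcA : ((A.filter (fun a => a ≠ 0)).card : ℝ) ≤ 3 * X ^ 2 :=
    le_trans (by exact_mod_cast Finset.card_filter_le _ _) (card_Icc_le hX2)
  have hcM : ((M.filter (fun m => m ≠ 0)).card : ℝ) ≤ 93 * X ^ 2 := by
    have := card_Icc_le (Y := 31 * X ^ 2) (by linarith)
    have h3 : ((M.filter (fun m => m ≠ 0)).card : ℝ) ≤ (M.card : ℝ) := by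
      exact_mod_cast Finset.card_filter_le _ _
    linarith
  calc ((((A ×ˢ B).filter (fun q : ℤ × ℤ => R5 X q.1 q.2)).card : ℕ) : ℝ)
      ≤ ∑ a ∈ A.filter (fun a => a ≠ 0), ∑ m ∈ M.filter (fun m => m ≠ 0),
        (((conicSet2_finite Z (108 * a ^ 3) (27 * m)).toFinset.image
          fun p => (a, p.1 / 27)).card : ℝ) := by
        have e1 := (Finset.card_le_card h1).trans (Finset.card_biUnion_le.trans
          (Finset.sum_le_sum fun a _ => Finset.card_biUnion_le))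
        exact_mod_cast e1
    _ ≤ ∑ a ∈ A.filter (fun a => a ≠ 0), ∑ m ∈ M.filter (fun m => m ≠ 0),
        C₁ * (K0 ^ (ε / 13) * X ^ ε) :=
        Finset.sum_le_sum fun a ha => Finset.sum_le_sum fun m hm => h2 a ha m hm
    _ = (A.filter (fun a => a ≠ 0)).card * ((M.filter (fun m => m ≠ 0)).card *
        (C₁ * (K0 ^ (ε / 13) * X ^ ε))) := by
        rw [Finset.sum_const, Finset.sum_const, nsmul_eq_mul, nsmul_eq_mul]
    _ ≤ (3 * X ^ 2) * ((93 * X ^ 2) * (C₁ * (K0 ^ (ε / 13) * X ^ ε))) := by gcongr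
    _ = _ := by
        rw [show (4 : ℝ) = ((4 : ℕ) : ℝ) by norm_num, Real.rpow_natCast]
        ring

end Pool.Agent.X12.Szp
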