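import Pool.Agent.X12.Szp14

/-!
# All elliptic curves over `ℚ` with a small conductor near the top of the box
-/

set_option autoImplicit false

namespace Pool.Agent.X12.Szp

open Finset Filter Topology Pool.Agent.H328R2.ABC

/-- all minimal models in the box near its top whose conductor (outside 6) is at most `Z` -/
def TopE (Z X : ℝ) : Set (ℤ × ℤ) :=
  {q | Dsc q.1 q.2 ≠ 0 ∧ (∀ p : ℕ, p.Prime → ¬ ((p : ℤ) ^ 4 ∣ q.1 ∧ (p : ℤ) ^ 6 ∣ q.2)) ∧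
    Box X q ∧ (X ^ 2 / 4 ≤ |(q.1 : ℝ)| ∨ X ^ 3 / 8 ≤ |(q.2 : ℝ)|) ∧ (Cnd q.1 q.2 : ℝ) ≤ Z}

theorem TopE_finite (Z X : ℝ) : (TopE Z X).Finite :=
  (Box_finite X).subset fun _ hq => hq.2.2.1

lemma pow_rpow_comm {X : ℝ} (hX : 0 ≤ X) (k : ℕ) (e : ℝ) : (X ^ k) ^ e = (X ^ e) ^ k := by
  rw [← Real.rpow_natCast, ← Real.rpow_mul hX, mul_comm, Real.rpow_mul hX, Real.rpow_natCast]

set_option maxHeartbeats 1600000 in
/-- **All elliptic curves with a small conductor near the top of the box** -/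
theorem topE_le (ε : ℝ) (hε : 0 < ε) : ∃ C : ℝ, 0 < C ∧ ∀ Z X : ℝ, 0 < Z → 1 ≤ X →
      ((TopE Z X).ncard : ℝ) ≤ C * X ^ ε * (Z / X + X ^ (4 : ℝ)) := by
  classical
  set e := ε / 25 with he
  have he0 : 0 < e := by positivity
  obtain ⟨C1, hC1, hsupp⟩ := supp_count e he0
  obtain ⟨C2, hC2, hdiv⟩ := Pool.Agent.H510R2.divisor_bound e he0
  obtain ⟨C3, hC3, hsum⟩ := sum_inv_rad e he0
  obtain ⟨C4, hC4, hR5⟩ := count_R5 ε hε
  set c6 : ℝ := (6 : ℝ) ^ e with hc6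
  set c31 : ℝ := (31 : ℝ) ^ e with hc31
  set c0 : ℝ := 36 * 6 ^ 14 with hc0
  have hc6' : 0 < c6 := by positivity
  have hc31' : 0 < c31 := by positivity
  have hc0' : 0 < c0 := by positivity
  set K := (C1 * c6) * (C1 * c31 * c6) * (4 * (C2 * c31)) with hK
  set K' := 160 * C3 ^ 2 * c0 + 3 * (4960 * C3 + 1) with hK'
  have hK0 : 0 < K := by positivity
  have hK'0 : 0 < K' := by positivity
  refine ⟨K * K' + C4 + 6, by positivity, ?_⟩
  intro Z X hZ hX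
  have hX0 : 0 < X := by linarith
  have hX2 : (1 : ℝ) ≤ X ^ 2 := one_le_pow₀ hX
  have hX3 : (1 : ℝ) ≤ X ^ 3 := one_le_pow₀ hX
  have hX6 : (1 : ℝ) ≤ X ^ 6 := one_le_pow₀ hX
  set E := X ^ e with hE
  have hE1 : 1 ≤ E := Real.one_le_rpow hX he0.le
  have hE0 : 0 < E := by linarith
  have hf1 : 1 ≤ ⌊X ^ 2⌋₊ := Nat.le_floor (by simpa using hX2)
  have hf2 : ((⌊X ^ 2⌋₊ : ℕ) : ℝ) ≤ X ^ 2 := Nat.floor_le (by positivity)
  set A := (Finset.Icc (-⌊X ^ 2⌋) ⌊X ^ 2⌋).filter (fun a => a ≠ 0) with hA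
  set D := Finset.Icc 1 ⌊X ^ 2⌋₊ with hD
  -- the numbers of auxiliary parameters
  have hm6 : ∀ a ∈ A, ((6 * a.natAbs : ℕ) : ℝ) ≤ 6 * X ^ 2 ∧ 1 ≤ 6 * a.natAbs := by
    intro a ha
    rw [hA, Finset.mem_filter] at ha
    have h1 := abs_le_of_mem ha.1
    have h2 : ((a.natAbs : ℕ) : ℝ) = |(a : ℝ)| := by
      rw [Nat.cast_natAbs]
      push_cast
      rfl
    have h3 := ha.2
    refine ⟨?_, by omega⟩
    push_cast [h2]
    linarith
  have hPP : ∀ a ∈ A, ∀ c : ℝ, 1 ≤ c → ∀ k : ℕ, ((PP (6 * a.natAbs) (c * X ^ k)).card : ℝ) ≤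
      C1 * c ^ e * c6 * E ^ (k + 2) := by
    intro a ha c hc k
    obtain ⟨h1, h2⟩ := hm6 a ha
    have hXk : (1 : ℝ) ≤ X ^ k := one_le_pow₀ hX
    have h3 : 1 ≤ ⌊c * X ^ k⌋₊ := Nat.le_floor (by push_cast; nlinarith)
    have h4 : ((⌊c * X ^ k⌋₊ : ℕ) : ℝ) ≤ c * X ^ k := Nat.floor_le (by positivity)
    calc ((PP (6 * a.natAbs) (c * X ^ k)).card : ℝ) ≤
        C1 * ((⌊c * X ^ k⌋₊ : ℕ) : ℝ) ^ e * ((6 * a.natAbs : ℕ) : ℝ) ^ e :=
          hsupp _ _ h2 h3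
      _ ≤ C1 * (c * X ^ k) ^ e * (6 * X ^ 2) ^ e := by gcongr
      _ = C1 * c ^ e * c6 * E ^ (k + 2) := by
        rw [Real.mul_rpow (by linarith) (by positivity), Real.mul_rpow (by norm_num) (by positivity),
          pow_rpow_comm hX0.le, pow_rpow_comm hX0.le, ← hE, ← hc6, pow_add]
        ring
  -- the sum over `d`
  have hsd : ∑ d ∈ D, 1 / (rad d : ℝ) ≤ C3 * E ^ 2 := by
    refine (hsum _ hf1).trans ?_
    have : ((⌊X ^ 2⌋₊ : ℕ) : ℝ) ^ e ≤ E ^ 2 := by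
      rw [hE, ← pow_rpow_comm hX0.le]
      exact Real.rpow_le_rpow (by positivity) hf2 he0.le
    gcongr
  have hcD : (D.card : ℝ) ≤ X ^ 2 := by
    rw [hD, Nat.card_Icc, Nat.add_sub_cancel]
    exact hf2
  have hsumd : ∀ a ∈ A, ∀ b1 w : ℕ, 1 ≤ b1 → 1 ≤ w →
      ∑ d ∈ D, ((FF X Z a b1 w d).card : ℝ) ≤ 4 * (C2 * c31) * E ^ 8 *
        (80 * C3 * (c0 * qq a.natAbs * (Z / X ^ 3)) + (4960 * C3 + 1) * X ^ 2) := by
    intro a ha b1 w hb1 hw
    rw [hA, Finset.mem_filter] at ha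
    have h1 : ∀ d ∈ D, ((FF X Z a b1 w d).card : ℝ) ≤ 4 * (C2 * (31 * X ^ 6) ^ e) *
      (80 * (36 * 6 ^ 14 * qq a.natAbs * (Z / X ^ 3) + 62 * X ^ 2) * (1 / (rad d : ℝ)) + 1) := by
      intro d hd
      rw [hD, Finset.mem_Icc] at hd
      exact FF_card he0 hC2 hdiv hX hZ ha.2 (abs_le_of_mem ha.1) hb1 hw hd.1
    refine (Finset.sum_le_sum h1).trans ?_
    rw [← Finset.mul_sum, Finset.sum_add_distrib, ← Finset.mul_sum, Finset.sum_const, nsmul_eq_mul,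
      mul_one, ← hc0]
    have h2 : (31 * X ^ 6) ^ e = c31 * E ^ 6 := by
      rw [Real.mul_rpow (by norm_num) (by positivity), pow_rpow_comm hX0.le]
    rw [h2]
    have hq := qq_nonneg a.natAbs
    have hZX : 0 ≤ Z / X ^ 3 := by positivity
    calc 4 * (C2 * (c31 * E ^ 6)) * (80 * (c0 * qq a.natAbs * (Z / X ^ 3) + 62 * X ^ 2) *
          ∑ i ∈ D, 1 / (rad i : ℝ) + D.card)
        ≤ 4 * (C2 * (c31 * E ^ 6)) * (80 * (c0 * qq a.natAbs * (Z / X ^ 3) + 62 * X ^ 2) *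
          (C3 * E ^ 2) + X ^ 2 * E ^ 2) := by
          gcongr
          calc (D.card : ℝ) ≤ X ^ 2 * 1 := by rw [mul_one]; exact hcD
            _ ≤ X ^ 2 * E ^ 2 := by
              have : 1 ≤ E ^ 2 := one_le_pow₀ hE1
              gcongr
      _ = _ := by ring
  -- the sum over `b1` and `w`
  have hsbw : ∀ a ∈ A, ∑ b1 ∈ PP (6 * a.natAbs) (1 * X ^ 3), ∑ w ∈ PP (6 * a.natAbs) (31 * X ^ 6),
      ∑ d ∈ D, ((FF X Z a b1 w d).card : ℝ) ≤ K * E ^ 21 *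
        (80 * C3 * (c0 * qq a.natAbs * (Z / X ^ 3)) + (4960 * C3 + 1) * X ^ 2) := by
    intro a ha
    set Q := 80 * C3 * (c0 * qq a.natAbs * (Z / X ^ 3)) + (4960 * C3 + 1) * X ^ 2 with hQ
    have hQ0 : 0 ≤ Q := by
      have := qq_nonneg a.natAbs
      positivity
    have h1 : ∀ b1 ∈ PP (6 * a.natAbs) (1 * X ^ 3), ∑ w ∈ PP (6 * a.natAbs) (31 * X ^ 6),
        ∑ d ∈ D, ((FF X Z a b1 w d).card : ℝ) ≤
          (C1 * c31 * c6 * E ^ 8) * (4 * (C2 * c31) * E ^ 8 * Q) := by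
      intro b1 hb1
      have hb1' : 1 ≤ b1 := (Finset.mem_Icc.1 (Finset.mem_filter.1 hb1).1).1
      calc ∑ w ∈ PP (6 * a.natAbs) (31 * X ^ 6), ∑ d ∈ D, ((FF X Z a b1 w d).card : ℝ)
          ≤ ∑ w ∈ PP (6 * a.natAbs) (31 * X ^ 6), 4 * (C2 * c31) * E ^ 8 * Q :=
            Finset.sum_le_sum fun w hw => hsumd a ha b1 w hb1'
              (Finset.mem_Icc.1 (Finset.mem_filter.1 hw).1).1
        _ = ((PP (6 * a.natAbs) (31 * X ^ 6)).card : ℝ) * (4 * (C2 * c31) * E ^ 8 * Q) := by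
            rw [Finset.sum_const, nsmul_eq_mul]
        _ ≤ _ := by
            have := hPP a ha 31 (by norm_num) 6
            gcongr
    calc ∑ b1 ∈ PP (6 * a.natAbs) (1 * X ^ 3), ∑ w ∈ PP (6 * a.natAbs) (31 * X ^ 6),
          ∑ d ∈ D, ((FF X Z a b1 w d).card : ℝ)
        ≤ ∑ b1 ∈ PP (6 * a.natAbs) (1 * X ^ 3),
          (C1 * c31 * c6 * E ^ 8) * (4 * (C2 * c31) * E ^ 8 * Q) := Finset.sum_le_sum h1
      _ = ((PP (6 * a.natAbs) (1 * X ^ 3)).card : ℝ) *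
          ((C1 * c31 * c6 * E ^ 8) * (4 * (C2 * c31) * E ^ 8 * Q)) := by
          rw [Finset.sum_const, nsmul_eq_mul]
      _ ≤ (C1 * 1 ^ e * c6 * E ^ 5) *
          ((C1 * c31 * c6 * E ^ 8) * (4 * (C2 * c31) * E ^ 8 * Q)) := by
          have := hPP a ha 1 le_rfl 3
          gcongr
      _ = _ := by
          rw [Real.one_rpow, hK]
          ring
  -- the sum over `a`
  have hcA : (A.card : ℝ) ≤ 3 * X ^ 2 :=
    le_trans (by exact_mod_cast Finset.card_filter_le _ _) (card_Icc_le hX2)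
  have hsa : ∑ a ∈ A, ∑ b1 ∈ PP (6 * a.natAbs) (1 * X ^ 3), ∑ w ∈ PP (6 * a.natAbs) (31 * X ^ 6),
      ∑ d ∈ D, ((FF X Z a b1 w d).card : ℝ) ≤ K * K' * X ^ ε * (Z / X + X ^ (4 : ℝ)) := by
    refine (Finset.sum_le_sum hsbw).trans ?_
    rw [← Finset.mul_sum, Finset.sum_add_distrib, Finset.sum_const, nsmul_eq_mul]
    have h1 : ∑ a ∈ A, 80 * C3 * (c0 * qq a.natAbs * (Z / X ^ 3)) =
        80 * C3 * c0 * (Z / X ^ 3) * ∑ a ∈ A, qq a.natAbs := by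
      rw [Finset.mul_sum]
      refine Finset.sum_congr rfl fun a _ => ?_
      ring
    rw [h1]
    have h2 := sum_qq hC3 hsum he0 hX
    rw [pow_rpow_comm hX0.le, ← hE, ← hA] at h2
    have hE2 : 1 ≤ E ^ 2 := one_le_pow₀ hE1
    have hEX : E ^ 23 ≤ X ^ ε := by
      have h3 : X ^ ε = E ^ 25 := by
        rw [hE, ← Real.rpow_natCast, ← Real.rpow_mul hX0.le, he]
        congr 1
        push_cast
        ring
      rw [h3]
      exact pow_le_pow_right₀ hE1 (by norm_num)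
    have h4 : X ^ (4 : ℝ) = X ^ 2 * X ^ 2 := by
      rw [show (4 : ℝ) = ((4 : ℕ) : ℝ) by norm_num, Real.rpow_natCast]
      ring
    rw [h4]
    calc K * E ^ 21 * (80 * C3 * c0 * (Z / X ^ 3) * ∑ a ∈ A, qq a.natAbs +
          (A.card : ℝ) * ((4960 * C3 + 1) * X ^ 2))
        ≤ K * E ^ 21 * (80 * C3 * c0 * (Z / X ^ 3) * (2 * C3 * E ^ 2 * X ^ 2) +
          (3 * X ^ 2) * ((4960 * C3 + 1) * X ^ 2) * E ^ 2) := by
          have h5 : (A.card : ℝ) * ((4960 * C3 + 1) * X ^ 2) ≤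
              (3 * X ^ 2) * ((4960 * C3 + 1) * X ^ 2) * E ^ 2 := by
            calc (A.card : ℝ) * ((4960 * C3 + 1) * X ^ 2) ≤
                (3 * X ^ 2) * ((4960 * C3 + 1) * X ^ 2) * 1 := by
                  rw [mul_one]
                  gcongr
              _ ≤ _ := by gcongr
          gcongr
      _ = K * E ^ 23 * (160 * C3 ^ 2 * c0 * (Z / X) + 3 * (4960 * C3 + 1) * (X ^ 2 * X ^ 2)) := by
          field_simp
          ring
      _ ≤ K * X ^ ε * (160 * C3 ^ 2 * c0 * (Z / X) + 3 * (4960 * C3 + 1) * (X ^ 2 * X ^ 2)) := by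
          gcongr
      _ ≤ K * X ^ ε * (K' * (Z / X) + K' * (X ^ 2 * X ^ 2)) := by
          have h6 : 160 * C3 ^ 2 * c0 ≤ K' := by
            rw [hK']
            have : 0 ≤ 3 * (4960 * C3 + 1) := by positivity
            linarith
          have h7 : 3 * (4960 * C3 + 1) ≤ K' := by
            rw [hK']
            have : 0 ≤ 160 * C3 ^ 2 * c0 := by positivity
            linarith
          gcongr
      _ = _ := by ring
  -- the covering
  set F1 := A.biUnion fun a => (PP (6 * a.natAbs) (1 * X ^ 3)).biUnion fun b1 =>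
    (PP (6 * a.natAbs) (31 * X ^ 6)).biUnion fun w => D.biUnion fun d =>
      (FF X Z a b1 w d).image fun x => (a, (b1 : ℤ) * x) with hF1
  set F2 := ((Finset.Icc (-⌊X ^ 2⌋) ⌊X ^ 2⌋) ×ˢ (Finset.Icc (-⌊X ^ 3⌋) ⌊X ^ 3⌋)).filter
      (fun q : ℤ × ℤ => R5 X q.1 q.2) with hF2
  set F3 := ((Finset.Icc (-⌊X ^ 3⌋) ⌊X ^ 3⌋).image fun b => ((0 : ℤ), b)) ∪
    ((Finset.Icc (-⌊X ^ 2⌋) ⌊X ^ 2⌋).image fun a => (a, (0 : ℤ))) with hF3
  have hsub : TopE Z X ⊆ ((F1 ∪ F2 ∪ F3 : Finset (ℤ × ℤ)) : Set (ℤ × ℤ)) := by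
    rintro ⟨a, b⟩ ⟨hDs, hmin, hbox, htop, hC⟩
    simp only at hDs hmin hbox htop hC
    have hax : |(a : ℝ)| ≤ X ^ 2 := hbox.1
    have hbx : |(b : ℝ)| ≤ X ^ 3 := hbox.2
    rw [Finset.mem_coe, Finset.mem_union, Finset.mem_union]
    by_cases ha : a = 0
    · right
      rw [hF3, Finset.mem_union]
      left
      rw [Finset.mem_image]
      exact ⟨b, mem_of_abs_le hbx, by rw [ha]⟩
    by_cases hb : b = 0
    · right
      rw [hF3, Finset.mem_union]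
      right
      rw [Finset.mem_image]
      exact ⟨a, mem_of_abs_le hax, by rw [hb]⟩
    left
    rcases reduction4 hZ hX ha hb hDs hax hbx htop hC with h | ⟨b1, w, d, x, h1, h2, h3, h4, h5, h6,
      h7, h8, h9, h10⟩
    · right
      rw [hF2, Finset.mem_filter, Finset.mem_product]
      exact ⟨⟨mem_of_abs_le hax, mem_of_abs_le hbx⟩, ha, hDs, h⟩
    · left
      rw [hF1, Finset.mem_biUnion]
      refine ⟨a, Finset.mem_filter.2 ⟨mem_of_abs_le hax, ha⟩, ?_⟩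
      rw [Finset.mem_biUnion]
      refine ⟨b1, Finset.mem_filter.2 ⟨Finset.mem_Icc.2 ⟨h2, Nat.le_floor (by rw [one_mul]; exact h3)⟩,
        h4⟩, ?_⟩
      rw [Finset.mem_biUnion]
      refine ⟨w, Finset.mem_filter.2 ⟨Finset.mem_Icc.2 ⟨h5, Nat.le_floor h6⟩, h7⟩, ?_⟩
      rw [Finset.mem_biUnion]
      refine ⟨d, Finset.mem_Icc.2 ⟨h8, Nat.le_floor h9⟩, ?_⟩
      rw [Finset.mem_image]
      refine ⟨x, Finset.mem_filter.2 ⟨?_, h10, ?_⟩, by rw [h1]⟩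
      · apply mem_of_abs_le
        refine le_trans ?_ hbx
        rw [h1]
        push_cast
        rw [abs_mul, Nat.abs_cast]
        have : (1 : ℝ) ≤ b1 := by exact_mod_cast h2
        have := abs_nonneg (x : ℝ)
        nlinarith
      · intro p hp hpp
        refine hmin p hp ⟨?_, ?_⟩
        · have := Int.natCast_dvd.2 hpp.1
          push_cast at this
          exact this
        · rw [h1]
          have : (((p ^ 6 : ℕ) : ℤ)) ∣ (b1 : ℤ) := Int.natCast_dvd_natCast.2 hpp.2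
          push_cast at this
          exact Dvd.dvd.mul_right this _
  have hcard : ((TopE Z X).ncard : ℝ) ≤ (F1.card : ℝ) + F2.card + F3.card := by
    have e1 := Set.ncard_le_ncard hsub (Finset.finite_toSet _)
    rw [Set.ncard_coe_finset] at e1
    have e2 := Finset.card_union_le F1 F2
    have e3 := Finset.card_union_le (F1 ∪ F2) F3
    have e4 : (TopE Z X).ncard ≤ F1.card + F2.card + F3.card := by omega
    exact_mod_cast e4
  have hF1c : (F1.card : ℝ) ≤ K * K' * X ^ ε * (Z / X + X ^ (4 : ℝ)) := by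
    refine le_trans ?_ hsa
    have e1 : F1.card ≤ ∑ a ∈ A, ∑ b1 ∈ PP (6 * a.natAbs) (1 * X ^ 3),
        ∑ w ∈ PP (6 * a.natAbs) (31 * X ^ 6), ∑ d ∈ D, (FF X Z a b1 w d).card := by
      refine Finset.card_biUnion_le.trans (Finset.sum_le_sum fun a _ => ?_)
      refine Finset.card_biUnion_le.trans (Finset.sum_le_sum fun b1 _ => ?_)
      refine Finset.card_biUnion_le.trans (Finset.sum_le_sum fun w _ => ?_)
      exact Finset.card_biUnion_le.trans (Finset.sum_le_sum fun d _ => Finset.card_image_le)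
    exact_mod_cast e1
  have hF2c : (F2.card : ℝ) ≤ C4 * X ^ ε * X ^ (4 : ℝ) := hR5 X hX
  have hF3c : (F3.card : ℝ) ≤ 6 * X ^ (4 : ℝ) := by
    have e1 : F3.card ≤ (Finset.Icc (-⌊X ^ 3⌋) ⌊X ^ 3⌋).card + (Finset.Icc (-⌊X ^ 2⌋) ⌊X ^ 2⌋).card :=
      (Finset.card_union_le _ _).trans (add_le_add Finset.card_image_le Finset.card_image_le)
    have e2 : (F3.card : ℝ) ≤ 3 * X ^ 3 + 3 * X ^ 2 := by
      have h1 := card_Icc_le hX3
      have h2 := card_Icc_le hX2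
      have h3 : (F3.card : ℝ) ≤ ((Finset.Icc (-⌊X ^ 3⌋) ⌊X ^ 3⌋).card : ℝ) +
        ((Finset.Icc (-⌊X ^ 2⌋) ⌊X ^ 2⌋).card : ℝ) := by exact_mod_cast e1
      linarith
    refine e2.trans ?_
    rw [show (4 : ℝ) = ((4 : ℕ) : ℝ) by norm_num, Real.rpow_natCast]
    have h1 : X ^ 3 ≤ X ^ 4 := pow_le_pow_right₀ hX (by norm_num)
    have h2 : X ^ 2 ≤ X ^ 4 := pow_le_pow_right₀ hX (by norm_num)
    linarith
  have hXe : 1 ≤ X ^ ε := Real.one_le_rpow hX hε.le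
  have p3 : 0 < X ^ (4 : ℝ) := Real.rpow_pos_of_pos hX0 _
  have p4 : 0 < Z / X := by positivity
  have p5 : 6 * X ^ (4 : ℝ) ≤ 6 * X ^ ε * X ^ (4 : ℝ) := by
    have : 1 * X ^ (4 : ℝ) ≤ X ^ ε * X ^ (4 : ℝ) := by gcongr
    linarith
  have p6 : 0 ≤ C4 * X ^ ε * (Z / X) := by positivity
  have p7 : 0 ≤ 6 * X ^ ε * (Z / X) := by positivity
  calc ((TopE Z X).ncard : ℝ) ≤ K * K' * X ^ ε * (Z / X + X ^ (4 : ℝ)) +
        C4 * X ^ ε * X ^ (4 : ℝ) + 6 * X ^ ε * X ^ (4 : ℝ) := by linarith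
    _ ≤ (K * K' + C4 + 6) * X ^ ε * (Z / X + X ^ (4 : ℝ)) := by
        have e1 : (K * K' + C4 + 6) * X ^ ε * (Z / X + X ^ (4 : ℝ)) =
            K * K' * X ^ ε * (Z / X + X ^ (4 : ℝ)) + C4 * X ^ ε * (Z / X) +
            C4 * X ^ ε * X ^ (4 : ℝ) + 6 * X ^ ε * (Z / X) + 6 * X ^ ε * X ^ (4 : ℝ) := by ring
        rw [e1]
        linarith

end Pool.Agent.X12.Szp
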