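import Pool.Agent.X12.Szp15

/-!
# Short models: minimality, conductors and heights
-/

set_option autoImplicit false

namespace Pool.Agent.X12.Szp

open Finset Filter Topology Pool.Agent.H328R2.ABC Pool.Agent.Y679.Fh
open Pool.Agent.TH876.FH (jInv arch ana)

/-- minimal model -/
def IsMn (a b : ℤ) : Prop :=
  Dsc a b ≠ 0 ∧ ∀ (u : ℚ) (a' b' : ℤ), u ≠ 0 → (a' : ℚ) = u ^ 4 * a → (b' : ℚ) = u ^ 6 * b →
    |Dsc a b| ≤ |Dsc a' b'|

theorem not_dvd_of_isMn {a b : ℤ} (h : IsMn a b) (p : ℕ) (hp : p.Prime) :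
    ¬ ((p : ℤ) ^ 4 ∣ a ∧ (p : ℤ) ^ 6 ∣ b) := by
  rintro ⟨⟨a', ha'⟩, b', hb'⟩
  have hp0 : (p : ℚ) ≠ 0 := by exact_mod_cast hp.ne_zero
  have h1 := h.2 (1 / p) a' b' (by positivity) (by
    rw [ha']
    push_cast
    field_simp) (by
    rw [hb']
    push_cast
    field_simp)
  have h2 : Dsc a b = (p : ℤ) ^ 12 * Dsc a' b' := by
    unfold Dsc
    rw [ha', hb']
    ring
  have h3 : Dsc a' b' ≠ 0 := by
    intro h4
    rw [h4, mul_zero] at h2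
    exact h.1 h2
  rw [h2, abs_mul, abs_of_pos (by have := hp.pos; positivity : (0 : ℤ) < (p : ℤ) ^ 12)] at h1
  have h4 : 0 < |Dsc a' b'| := abs_pos.2 h3
  have h5 : (2 : ℤ) ^ 12 ≤ (p : ℤ) ^ 12 := by
    have : (2 : ℤ) ≤ p := by exact_mod_cast hp.two_le
    gcongr
  nlinarith

theorem isMn_of {a b : ℤ} (hD : Dsc a b ≠ 0)
    (h : ∀ p : ℕ, p.Prime → ¬ ((p : ℤ) ^ 4 ∣ a ∧ (p : ℤ) ^ 6 ∣ b)) : IsMn a b := by
  refine ⟨hD, fun u a' b' hu ha hb => ?_⟩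
  have hs0 : (u.den : ℚ) ≠ 0 := by exact_mod_cast u.den_nz
  have hnum : u * (u.den : ℚ) = (u.num : ℚ) := Rat.mul_den_eq_num u
  have e1 : a' * (u.den : ℤ) ^ 4 = u.num ^ 4 * a := by
    have : (a' : ℚ) * (u.den : ℚ) ^ 4 = (u.num : ℚ) ^ 4 * a := by
      rw [ha, ← hnum]
      ring
    exact_mod_cast this
  have e2 : b' * (u.den : ℤ) ^ 6 = u.num ^ 6 * b := by
    have : (b' : ℚ) * (u.den : ℚ) ^ 6 = (u.num : ℚ) ^ 6 * b := by
      rw [hb, ← hnum]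
      ring
    exact_mod_cast this
  have hcop : IsCoprime (u.den : ℤ) u.num := by
    rw [Int.isCoprime_iff_gcd_eq_one, Int.gcd_comm]
    exact u.reduced
  have d1 : (u.den : ℤ) ^ 4 ∣ a :=
    (hcop.pow).dvd_of_dvd_mul_left (show (u.den : ℤ) ^ 4 ∣ u.num ^ 4 * a by
      rw [← e1]; exact Dvd.intro_left _ rfl)
  have d2 : (u.den : ℤ) ^ 6 ∣ b :=
    (hcop.pow).dvd_of_dvd_mul_left (show (u.den : ℤ) ^ 6 ∣ u.num ^ 6 * b by
      rw [← e2]; exact Dvd.intro_left _ rfl)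
  have hden : u.den = 1 := by
    by_contra hne
    obtain ⟨p, hp, hpd⟩ := Nat.exists_prime_and_dvd hne
    have hpd' : (p : ℤ) ∣ (u.den : ℤ) := Int.natCast_dvd_natCast.2 hpd
    exact h p hp ⟨(pow_dvd_pow_of_dvd hpd' 4).trans d1, (pow_dvd_pow_of_dvd hpd' 6).trans d2⟩
  rw [hden] at e1 e2
  simp only [Nat.cast_one, one_pow, mul_one] at e1 e2
  have e3 : Dsc a' b' = u.num ^ 12 * Dsc a b := by
    unfold Dsc
    rw [e1, e2]
    ring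
  rw [e3, abs_mul]
  have h1 : 1 ≤ |u.num ^ 12| := by
    apply Int.one_le_abs
    exact pow_ne_zero _ (Rat.num_ne_zero.2 hu)
  have h2 := abs_nonneg (Dsc a b)
  nlinarith

/-- the curve `y² = x³ - a x - b` -/
def Eq' (q : ℤ × ℤ) : WeierstrassCurve ℚ := ⟨0, 0, 0, -(q.1 : ℚ), -(q.2 : ℚ)⟩

/-- the absolute value of the minimal discriminant -/
noncomputable def minD (W : WeierstrassCurve ℚ) : ℕ :=
  sInf {n : ℕ | ∃ (V : WeierstrassCurve ℤ) (C : WeierstrassCurve.VariableChange ℚ),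
    C • W = V.map (Int.castRingHom ℚ) ∧ n = V.Δ.natAbs}

/-- the integral model -/
def Ez' (q : ℤ × ℤ) : WeierstrassCurve ℤ := ⟨0, 0, 0, -q.1, -q.2⟩

theorem Ez'_map (q : ℤ × ℤ) : (1 : WeierstrassCurve.VariableChange ℚ) • Eq' q =
    (Ez' q).map (Int.castRingHom ℚ) := by
  rw [one_smul]
  unfold Eq' Ez'
  simp [WeierstrassCurve.map]

theorem Ez'_disc (q : ℤ × ℤ) : (Ez' q).Δ = 16 * Dsc q.1 q.2 := by
  unfold Ez' Dsc
  simp only [WeierstrassCurve.Δ, WeierstrassCurve.b₂, WeierstrassCurve.b₄, WeierstrassCurve.b₆,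
    WeierstrassCurve.b₈]
  ring

theorem Ez'_c4 (q : ℤ × ℤ) : (Ez' q).c₄ = 48 * q.1 := by
  unfold Ez'
  simp only [WeierstrassCurve.c₄, WeierstrassCurve.b₂, WeierstrassCurve.b₄]
  ring

theorem Ez'_c6 (q : ℤ × ℤ) : (Ez' q).c₆ = 864 * q.2 := by
  unfold Ez'
  simp only [WeierstrassCurve.c₆, WeierstrassCurve.b₂, WeierstrassCurve.b₄, WeierstrassCurve.b₆]
  ring

theorem minD_le (q : ℤ × ℤ) : minD (Eq' q) ≤ 16 * (Dsc q.1 q.2).natAbs := by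
  refine Nat.sInf_le ⟨Ez' q, 1, Ez'_map q, ?_⟩
  rw [Ez'_disc, Int.natAbs_mul]
  rfl

theorem Eq'_c4 (q : ℤ × ℤ) : (Eq' q).c₄ = 48 * q.1 := by
  unfold Eq'
  simp only [WeierstrassCurve.c₄, WeierstrassCurve.b₂, WeierstrassCurve.b₄]
  ring

theorem Eq'_c6 (q : ℤ × ℤ) : (Eq' q).c₆ = 864 * q.2 := by
  unfold Eq'
  simp only [WeierstrassCurve.c₆, WeierstrassCurve.b₂, WeierstrassCurve.b₄, WeierstrassCurve.b₆]
  ring

theorem Eq'_disc (q : ℤ × ℤ) : (Eq' q).Δ = 16 * (Dsc q.1 q.2 : ℤ) := by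
  unfold Eq' Dsc
  simp only [WeierstrassCurve.Δ, WeierstrassCurve.b₂, WeierstrassCurve.b₄, WeierstrassCurve.b₆,
    WeierstrassCurve.b₈]
  push_cast
  ring

theorem minD_ge {q : ℤ × ℤ} (hmin : IsMn q.1 q.2) :
    (Dsc q.1 q.2).natAbs ≤ 136048896 * minD (Eq' q) := by
  have hne : {n : ℕ | ∃ (V : WeierstrassCurve ℤ) (C : WeierstrassCurve.VariableChange ℚ),
      C • Eq' q = V.map (Int.castRingHom ℚ) ∧ n = V.Δ.natAbs}.Nonempty :=
    ⟨_, Ez' q, 1, Ez'_map q, rfl⟩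
  obtain ⟨V, C, hC, hn⟩ := Nat.sInf_mem hne
  have hn' : minD (Eq' q) = V.Δ.natAbs := hn
  rw [hn']
  have hu : (C.u : ℚ) ≠ 0 := C.u.ne_zero
  have h4 : ((V.c₄ : ℤ) : ℚ) = ((C.u : ℚ)⁻¹) ^ 4 * (48 * q.1) := by
    have h1 := congrArg WeierstrassCurve.c₄ hC
    rw [WeierstrassCurve.variableChange_c₄, WeierstrassCurve.map_c₄, Eq'_c4] at h1
    rw [← Units.val_inv_eq_inv_val]
    exact h1.symm
  have h6 : ((V.c₆ : ℤ) : ℚ) = ((C.u : ℚ)⁻¹) ^ 6 * (864 * q.2) := by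
    have h1 := congrArg WeierstrassCurve.c₆ hC
    rw [WeierstrassCurve.variableChange_c₆, WeierstrassCurve.map_c₆, Eq'_c6] at h1
    rw [← Units.val_inv_eq_inv_val]
    exact h1.symm
  have h7 := hmin.2 (6 / (C.u : ℚ)) (27 * V.c₄) (54 * V.c₆) (div_ne_zero (by norm_num) hu) (by
    push_cast
    rw [h4]
    field_simp
    ring) (by
    push_cast
    rw [h6]
    field_simp
    ring)
  have h8 : Dsc (27 * V.c₄) (54 * V.c₆) = 136048896 * V.Δ := by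
    have h9 := V.c_relation
    unfold Dsc
    linear_combination (-78732) * h9
  rw [h8] at h7
  have h10 : ((Dsc q.1 q.2).natAbs : ℤ) ≤ 136048896 * (V.Δ.natAbs : ℤ) := by
    rw [Int.natCast_natAbs, Int.natCast_natAbs]
    refine h7.trans (le_of_eq ?_)
    rw [abs_mul]
    norm_num
  exact_mod_cast h10

/-- the period of a short model -/
def IsPr (q : ℤ × ℤ) (τ : UpperHalfPlane) : Prop :=
  jInv τ = (((Eq' q).c₄ ^ 3 / (Eq' q).Δ : ℚ) : ℂ)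

/-- the Faltings height of a short model -/
noncomputable def hE (q : ℤ × ℤ) (τ : UpperHalfPlane) : ℝ :=
  (Real.log (minD (Eq' q) : ℝ) + arch τ) / 12

theorem ex_Pr (q : ℤ × ℤ) : ∃ τ, IsPr q τ := Pool.Agent.Y729.FW.j_surj _

theorem IsPr_iff (q : ℤ × ℤ) (τ : UpperHalfPlane) : IsPr q τ ↔ IsP (Ez' q) τ := by
  have h : (((Eq' q).c₄ ^ 3 / (Eq' q).Δ : ℚ) : ℂ) =
      ((((Ez' q).c₄ : ℚ) ^ 3 / (Ez' q).Δ : ℚ) : ℂ) := by
    rw [Eq'_c4, Eq'_disc, Ez'_c4, Ez'_disc]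
    push_cast
    rfl
  unfold IsPr IsP
  rw [h]

/-- the bound for the constants -/
noncomputable def C0 : ℝ := Real.log (16 * 136048896)

theorem C0_pos : 0 < C0 := Real.log_pos (by norm_num)

theorem absD (q : ℤ × ℤ) : (((Dsc q.1 q.2).natAbs : ℕ) : ℝ) = |((Dsc q.1 q.2 : ℤ) : ℝ)| := by
  rw [Nat.cast_natAbs]
  push_cast
  rfl

/-- the heights of the two models -/
theorem hE_fh {q : ℤ × ℤ} (hmin : IsMn q.1 q.2) (τ : UpperHalfPlane) :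
    12 * fh (Ez' q) τ - C0 ≤ 12 * hE q τ ∧ 12 * hE q τ ≤ 12 * fh (Ez' q) τ := by
  have hD0 : (Dsc q.1 q.2).natAbs ≠ 0 := Int.natAbs_ne_zero.2 hmin.1
  have hD1 : (1 : ℝ) ≤ |((Dsc q.1 q.2 : ℤ) : ℝ)| := by
    rw [← absD]
    exact_mod_cast (by omega : 1 ≤ (Dsc q.1 q.2).natAbs)
  have h1 : ((minD (Eq' q) : ℕ) : ℝ) ≤ 16 * |((Dsc q.1 q.2 : ℤ) : ℝ)| := by
    rw [← absD]
    exact_mod_cast minD_le q
  have h2 : |((Dsc q.1 q.2 : ℤ) : ℝ)| ≤ 136048896 * ((minD (Eq' q) : ℕ) : ℝ) := by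
    rw [← absD]
    exact_mod_cast minD_ge hmin
  have h3 : (0 : ℝ) < ((minD (Eq' q) : ℕ) : ℝ) := by
    by_contra hcon
    have : ((minD (Eq' q) : ℕ) : ℝ) = 0 := le_antisymm (not_lt.1 hcon) (Nat.cast_nonneg _)
    rw [this, mul_zero] at h2
    linarith
  have h4 : ((|(Ez' q).Δ| : ℤ) : ℝ) = 16 * |((Dsc q.1 q.2 : ℤ) : ℝ)| := by
    rw [Ez'_disc]
    push_cast
    rw [abs_mul]
    norm_num
  unfold fh hE C0
  rw [h4]
  have h5 := Real.log_le_log h3 h1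
  have h6 := Real.log_le_log (by linarith) h2
  rw [Real.log_mul (by norm_num) (by linarith)] at h5 h6
  rw [Real.log_mul (by norm_num) (by linarith), Real.log_mul (by norm_num) (by norm_num)]
  constructor <;> linarith

theorem cH_Ez (q : ℤ × ℤ) {X : ℝ} (h : Box X q) :
    cH (Ez' q) ≤ 746496 * X ^ 6 := by
  unfold cH
  rw [Ez'_c4, Ez'_c6]
  push_cast
  have h1 := h.1
  have h2 := h.2
  refine max_le ?_ ?_
  · rw [abs_mul, abs_of_pos (by norm_num : (0 : ℝ) < 48)]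
    calc (48 * |(q.1 : ℝ)|) ^ 3 ≤ (48 * X ^ 2) ^ 3 := by gcongr
      _ = 110592 * X ^ 6 := by ring
      _ ≤ 746496 * X ^ 6 := by
        have : 0 ≤ X ^ 6 := by positivity
        linarith
  · rw [← sq_abs, abs_mul, abs_of_pos (by norm_num : (0 : ℝ) < 864)]
    calc (864 * |(q.2 : ℝ)|) ^ 2 ≤ (864 * X ^ 3) ^ 2 := by gcongr
      _ = 746496 * X ^ 6 := by ring

theorem Box_of_cH_Ez (q : ℤ × ℤ) {X : ℝ} (hX : 0 ≤ X) (h : cH (Ez' q) ≤ X ^ 6) : Box X q := by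
  have h1 : |((Ez' q).c₄ : ℝ)| ^ 3 ≤ X ^ 6 := (le_max_left _ _).trans h
  have h2 : ((Ez' q).c₆ : ℝ) ^ 2 ≤ X ^ 6 := (le_max_right _ _).trans h
  rw [Ez'_c4] at h1
  rw [Ez'_c6] at h2
  push_cast at h1 h2
  rw [abs_mul, abs_of_pos (by norm_num : (0 : ℝ) < 48)] at h1
  rw [← sq_abs, abs_mul, abs_of_pos (by norm_num : (0 : ℝ) < 864)] at h2
  have k1 := abs_nonneg (q.1 : ℝ)
  have k2 := abs_nonneg (q.2 : ℝ)
  constructor
  · refine (pow_le_pow_iff_left₀ (abs_nonneg _) (by positivity) (by norm_num : 3 ≠ 0)).1 ?_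
    calc |(q.1 : ℝ)| ^ 3 ≤ (48 * |(q.1 : ℝ)|) ^ 3 := by gcongr; linarith
      _ ≤ X ^ 6 := h1
      _ = (X ^ 2) ^ 3 := by ring
  · refine (pow_le_pow_iff_left₀ (abs_nonneg _) (by positivity) (by norm_num : 2 ≠ 0)).1 ?_
    calc |(q.2 : ℝ)| ^ 2 ≤ (864 * |(q.2 : ℝ)|) ^ 2 := by gcongr; linarith
      _ ≤ X ^ 6 := h2
      _ = (X ^ 3) ^ 2 := by ring

end Pool.Agent.X12.Szp
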