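import Pool.Agent.X12.Szp1
import Pool.Agent.H328R2.ABC.RadSum
import Pool.Agent.Y900.PC.Conic

/-!
# Pairs `(a, b)` for which `a³ - b²` has a large squarefull part: upper bounds
-/

set_option autoImplicit false

namespace Pool.Agent.X12.Szp

open Finset Pool.Agent.H328R2.ABC

lemma rad_pos (n : ℕ) : 0 < rad n :=
  Finset.prod_pos fun _ hp => (Nat.prime_of_mem_primeFactors hp).pos

lemma rad_dvd (n : ℕ) : rad n ∣ n := Nat.prod_primeFactors_dvd n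

lemma rad_le {n : ℕ} (hn : 1 ≤ n) : rad n ≤ n := Nat.le_of_dvd hn (rad_dvd n)

lemma rad_prime {p : ℕ} (hp : p.Prime) : rad p = p := by
  unfold rad
  rw [hp.primeFactors, Finset.prod_singleton]

lemma rad_dvd_rad {d n : ℕ} (hn : n ≠ 0) (h : d ∣ n) : rad d ∣ rad n :=
  Finset.prod_dvd_prod_of_subset _ _ _ (Nat.primeFactors_mono h hn)

/-- `d ∣ n / rad n` implies `d * rad d ∣ n` -/
lemma mul_rad_dvd {d n : ℕ} (hn : n ≠ 0) (h : d ∣ n / rad n) : d * rad d ∣ n := by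
  have h1 : n / rad n * rad n = n := Nat.div_mul_cancel (rad_dvd n)
  have h2 : d ∣ n := h.trans (Nat.div_dvd_of_dvd (rad_dvd n))
  rw [← h1]
  exact Nat.mul_dvd_mul h (rad_dvd_rad hn h2)

/-- the choice of the modulus -/
theorem choose_modulus (n : ℕ) (hn : 1 ≤ n) (X t : ℝ) (hX : 1 ≤ X) (ht : t ≤ X)
    (h : t ≤ ((n / rad n : ℕ) : ℝ)) :
    (∃ p : ℕ, p.Prime ∧ X ^ 2 < p ∧ p ^ 2 ∣ n) ∨
      ∃ d : ℕ, 1 ≤ d ∧ (d : ℝ) ≤ X ^ 2 ∧ t ≤ d ∧ d * rad d ∣ n := by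
  classical
  have hn0 : n ≠ 0 := by omega
  set e := n / rad n with he
  have he0 : 0 < e := Nat.div_pos (rad_le hn) (rad_pos n)
  by_cases h1 : (e : ℝ) ≤ X ^ 2
  · exact Or.inr ⟨e, he0, h1, h, mul_rad_dvd hn0 dvd_rfl⟩
  · push Not at h1
    by_cases h2 : ∃ p : ℕ, p.Prime ∧ p ∣ e ∧ X < p
    · obtain ⟨p, hp, hpe, hpX⟩ := h2
      have h3 : p * rad p ∣ n := mul_rad_dvd hn0 hpe
      rw [rad_prime hp] at h3
      by_cases h4 : (p : ℝ) ≤ X ^ 2
      · exact Or.inr ⟨p, hp.one_lt.le, h4, by linarith, by rw [rad_prime hp]; exact h3⟩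
      · push Not at h4
        exact Or.inl ⟨p, hp, h4, by rw [pow_two]; exact h3⟩
    · push Not at h2
      -- the least divisor of `e` which is at least `X`
      have hex : ∃ d : ℕ, d ∣ e ∧ X ≤ (d : ℝ) := ⟨e, dvd_rfl, by nlinarith⟩
      set d := Nat.find hex with hd
      obtain ⟨hde, hdX⟩ := Nat.find_spec hex
      rw [← hd] at hde hdX
      have hd0 : 0 < d := Nat.pos_of_dvd_of_pos hde he0
      refine Or.inr ⟨d, hd0, ?_, by linarith, mul_rad_dvd hn0 hde⟩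
      rcases Nat.eq_or_lt_of_le (Nat.succ_le_of_lt hd0) with h5 | h5
      · have : (d : ℝ) = 1 := by exact_mod_cast h5.symm
        rw [this]
        nlinarith
      · obtain ⟨p, hp, hpd⟩ := Nat.exists_prime_and_dvd (n := d) (by omega)
        obtain ⟨k, hk⟩ := hpd
        have hk0 : 0 < k := by
          rcases Nat.eq_zero_or_pos k with h6 | h6
          · rw [h6] at hk
            omega
          · exact h6
        have hkd : k < d := by
          rw [hk]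
          have := hp.two_le
          nlinarith
        have h6 : ¬ (k ∣ e ∧ X ≤ (k : ℝ)) := Nat.find_min hex hkd
        have h7 : k ∣ e := (Dvd.intro_left p hk.symm).trans hde
        have h8 : (k : ℝ) < X := by
          by_contra hcon
          push Not at hcon
          exact h6 ⟨h7, hcon⟩
        have h9 : (p : ℝ) ≤ X := h2 p hp ((Dvd.intro k hk.symm).trans hde)
        have h10 : (d : ℝ) = p * k := by
          rw [hk]
          push_cast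
          ring
        rw [h10, pow_two]
        gcongr

/-- the pairs with the modulus `d` -/
def R1 (X g : ℝ) (d : ℕ) (a b : ℤ) : Prop :=
  IsCoprime a (d : ℤ) ∧ ((d * rad d : ℕ) : ℤ) ∣ a ^ 3 - b ^ 2 ∧
    |(a : ℝ) ^ 3 - (b : ℝ) ^ 2| ≤ (42 * d * X ^ g) ^ 2

open scoped Classical in
/-- the number of the pairs with some modulus `d ≤ X²` -/
theorem count_R1 (ε : ℝ) (hε : 0 < ε) : ∃ C : ℝ, 0 < C ∧ ∀ (X g : ℝ), 1 ≤ X →
    ((((Finset.Icc (-⌊X ^ 2⌋) ⌊X ^ 2⌋) ×ˢ (Finset.Icc (-⌊X ^ 3⌋) ⌊X ^ 3⌋)).filter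
      (fun q : ℤ × ℤ => ∃ d : ℕ, 1 ≤ d ∧ (d : ℝ) ≤ X ^ 2 ∧ R1 X g d q.1 q.2)).card : ℝ) ≤
      C * X ^ ε * (X ^ (2 + g) + X ^ (4 : ℝ)) := by
  obtain ⟨C₁, hC₁, hdiv⟩ := Pool.Agent.H510R2.divisor_bound (ε / 8) (by positivity)
  obtain ⟨C₂, hC₂, hsum⟩ := sum_inv_rad (ε / 4) (by positivity)
  refine ⟨3 * (4 * C₁) * (84 * C₂ + 1), by positivity, ?_⟩
  intro X g hX
  have hX0 : 0 < X := by linarith
  set A := Finset.Icc (-⌊X ^ 2⌋) ⌊X ^ 2⌋ with hA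
  set B := Finset.Icc (-⌊X ^ 3⌋) ⌊X ^ 3⌋ with hB
  set D := Finset.Icc 1 ⌊X ^ 2⌋₊ with hD
  have hX2 : (1 : ℝ) ≤ X ^ 2 := one_le_pow₀ hX
  have hf1 : 1 ≤ ⌊X ^ 2⌋₊ := Nat.le_floor (by simpa using hX2)
  have hf2 : ((⌊X ^ 2⌋₊ : ℕ) : ℝ) ≤ X ^ 2 := Nat.floor_le (by positivity)
  -- the union bound
  have h1 : ((A ×ˢ B).filter (fun q : ℤ × ℤ => ∃ d : ℕ, 1 ≤ d ∧ (d : ℝ) ≤ X ^ 2 ∧
      R1 X g d q.1 q.2)).card ≤ ∑ d ∈ D, ∑ a ∈ A, (B.filter fun b => R1 X g d a b).card := by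
    have h2 : (A ×ˢ B).filter (fun q : ℤ × ℤ => ∃ d : ℕ, 1 ≤ d ∧ (d : ℝ) ≤ X ^ 2 ∧
      R1 X g d q.1 q.2) ⊆ D.biUnion fun d => A.biUnion fun a =>
        (B.filter fun b => R1 X g d a b).image fun b => (a, b) := by
      rintro ⟨a, b⟩ hq
      rw [Finset.mem_filter, Finset.mem_product] at hq
      obtain ⟨⟨ha, hb⟩, d, hd1, hd2, hd3⟩ := hq
      rw [Finset.mem_biUnion]
      refine ⟨d, Finset.mem_Icc.2 ⟨hd1, Nat.le_floor hd2⟩, ?_⟩
      rw [Finset.mem_biUnion]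
      refine ⟨a, ha, ?_⟩
      rw [Finset.mem_image]
      exact ⟨b, Finset.mem_filter.2 ⟨hb, hd3⟩, rfl⟩
    refine (Finset.card_le_card h2).trans (Finset.card_biUnion_le.trans ?_)
    refine Finset.sum_le_sum fun d _ => Finset.card_biUnion_le.trans ?_
    exact Finset.sum_le_sum fun a _ => Finset.card_image_le
  -- the fibres
  have h2 : ∀ d ∈ D, ∀ a ∈ A, ((B.filter fun b => R1 X g d a b).card : ℝ) ≤
      4 * C₁ * X ^ (ε / 2) * (84 * X ^ g * (1 / (rad d : ℝ)) + 1) := by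
    intro d hd a _
    rw [hD, Finset.mem_Icc] at hd
    have hd0 : (0 : ℝ) < d := by exact_mod_cast hd.1
    have hr0 : (0 : ℝ) < rad d := by exact_mod_cast rad_pos d
    have hs : 1 ≤ d * rad d := Nat.mul_pos hd.1 (rad_pos d)
    have hdX : (d : ℝ) ≤ X ^ 2 := le_trans (by exact_mod_cast hd.2) hf2
    have hsX : ((d * rad d : ℕ) : ℝ) ≤ X ^ (4 : ℝ) := by
      have e1 : (rad d : ℝ) ≤ d := by exact_mod_cast rad_le hd.1
      push_cast
      have e2 : (d : ℝ) * rad d ≤ X ^ 2 * X ^ 2 := by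
        have := e1.trans hdX
        gcongr
      refine e2.trans (le_of_eq ?_)
      rw [show (4 : ℝ) = ((4 : ℕ) : ℝ) by norm_num, Real.rpow_natCast]
      ring
    rcases Finset.eq_empty_or_nonempty (B.filter fun b => R1 X g d a b) with h | ⟨b0, hb0⟩
    · rw [h, Finset.card_empty, Nat.cast_zero]
      positivity
    have hc := (Finset.mem_filter.1 hb0).2.1
    have hcs : IsCoprime (a ^ 3) ((d * rad d : ℕ) : ℤ) := by
      refine IsCoprime.pow_left ?_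
      have e1 : ((d * rad d : ℕ) : ℤ) ∣ (d : ℤ) ^ 2 := by
        push_cast
        rw [pow_two]
        refine mul_dvd_mul_left _ ?_
        exact_mod_cast rad_dvd d
      exact IsCoprime.of_isCoprime_of_dvd_right (IsCoprime.pow_right hc) e1
    have h3 := count_near (d * rad d) hs (a ^ 3) hcs (B.filter fun b => R1 X g d a b)
      (42 * d * X ^ g) (by positivity) (by
        intro b hb
        obtain ⟨-, p2, p3⟩ := (Finset.mem_filter.1 hb).2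
        refine ⟨p2, ?_⟩
        push_cast
        exact p3)
    refine h3.trans ?_
    have h4 : (((d * rad d).divisors.card : ℕ) : ℝ) ≤ C₁ * X ^ (ε / 2) := by
      refine (hdiv _ hs).trans ?_
      refine mul_le_mul_of_nonneg_left ?_ hC₁.le
      refine (Real.rpow_le_rpow (by positivity) hsX (by positivity)).trans (le_of_eq ?_)
      rw [← Real.rpow_mul hX0.le]
      congr 1
      ring
    have h5 : 2 * (42 * (d : ℝ) * X ^ g) / ((d * rad d : ℕ) : ℝ) =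
        84 * X ^ g * (1 / (rad d : ℝ)) := by
      push_cast
      field_simp
      ring
    rw [h5]
    have h6 : 0 ≤ 84 * X ^ g * (1 / (rad d : ℝ)) + 1 := by positivity
    calc 4 * (((d * rad d).divisors.card : ℕ) : ℝ) * (84 * X ^ g * (1 / (rad d : ℝ)) + 1)
        ≤ 4 * (C₁ * X ^ (ε / 2)) * (84 * X ^ g * (1 / (rad d : ℝ)) + 1) := by gcongr
      _ = _ := by ring
  -- the number of the `a`
  have h3 : (A.card : ℝ) ≤ 3 * X ^ 2 := by
    have e0 : 0 ≤ ⌊X ^ 2⌋ := Int.floor_nonneg.2 (by positivity)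
    have e1 : (A.card : ℤ) = 2 * ⌊X ^ 2⌋ + 1 := by
      rw [hA, Int.card_Icc, Int.toNat_of_nonneg (by linarith)]
      ring
    have e2 : (A.card : ℝ) = 2 * (⌊X ^ 2⌋ : ℝ) + 1 := by exact_mod_cast e1
    have e3 : (⌊X ^ 2⌋ : ℝ) ≤ X ^ 2 := Int.floor_le _
    linarith
  have h4 : (((A ×ˢ B).filter (fun q : ℤ × ℤ => ∃ d : ℕ, 1 ≤ d ∧ (d : ℝ) ≤ X ^ 2 ∧
      R1 X g d q.1 q.2)).card : ℝ) ≤ ∑ d ∈ D, 3 * X ^ 2 *
        (4 * C₁ * X ^ (ε / 2) * (84 * X ^ g * (1 / (rad d : ℝ)) + 1)) := by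
    have e1 : (((A ×ˢ B).filter (fun q : ℤ × ℤ => ∃ d : ℕ, 1 ≤ d ∧ (d : ℝ) ≤ X ^ 2 ∧
      R1 X g d q.1 q.2)).card : ℝ) ≤ ∑ d ∈ D, ∑ a ∈ A,
        ((B.filter fun b => R1 X g d a b).card : ℝ) := by exact_mod_cast h1
    refine e1.trans (Finset.sum_le_sum fun d hd => ?_)
    refine (Finset.sum_le_sum fun a ha => h2 d hd a ha).trans ?_
    rw [Finset.sum_const, nsmul_eq_mul]
    have : 0 ≤ 4 * C₁ * X ^ (ε / 2) * (84 * X ^ g * (1 / (rad d : ℝ)) + 1) := by positivity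
    exact mul_le_mul_of_nonneg_right h3 this
  refine h4.trans ?_
  have h5 : ∑ d ∈ D, 3 * X ^ 2 * (4 * C₁ * X ^ (ε / 2) * (84 * X ^ g * (1 / (rad d : ℝ)) + 1)) =
      3 * X ^ 2 * (4 * C₁ * X ^ (ε / 2)) * (84 * X ^ g * ∑ d ∈ D, 1 / (rad d : ℝ) + D.card) := by
    rw [← Finset.mul_sum]
    have e1 : ∑ d ∈ D, 4 * C₁ * X ^ (ε / 2) * (84 * X ^ g * (1 / (rad d : ℝ)) + 1) =
        4 * C₁ * X ^ (ε / 2) * (84 * X ^ g * ∑ d ∈ D, 1 / (rad d : ℝ) + D.card) := by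
      rw [← Finset.mul_sum, Finset.sum_add_distrib, ← Finset.mul_sum, Finset.sum_const,
        nsmul_eq_mul, mul_one]
    rw [e1]
    ring
  rw [h5]
  have h6 : ∑ d ∈ D, 1 / (rad d : ℝ) ≤ C₂ * X ^ (ε / 2) := by
    refine (hsum _ hf1).trans ?_
    refine mul_le_mul_of_nonneg_left ?_ hC₂.le
    refine (Real.rpow_le_rpow (by positivity) hf2 (by positivity)).trans (le_of_eq ?_)
    rw [show X ^ 2 = X ^ ((2 : ℕ) : ℝ) from (Real.rpow_natCast X 2).symm, ← Real.rpow_mul hX0.le]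
    congr 1
    push_cast
    ring
  have h7 : (D.card : ℝ) ≤ X ^ 2 := by
    rw [hD, Nat.card_Icc, Nat.add_sub_cancel]
    exact hf2
  have hXe : 1 ≤ X ^ (ε / 2) := Real.one_le_rpow hX (by positivity)
  have h8 : X ^ (2 + g) = X ^ 2 * X ^ g := by
    rw [Real.rpow_add hX0, show (2 : ℝ) = ((2 : ℕ) : ℝ) by norm_num, Real.rpow_natCast]
  have h9 : X ^ (4 : ℝ) = X ^ 2 * X ^ 2 := by
    rw [show (4 : ℝ) = ((4 : ℕ) : ℝ) by norm_num, Real.rpow_natCast]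
    ring
  have h10 : X ^ ε = X ^ (ε / 2) * X ^ (ε / 2) := by
    rw [← Real.rpow_add hX0]
    congr 1
    ring
  have hg0 : 0 < X ^ g := Real.rpow_pos_of_pos hX0 g
  calc 3 * X ^ 2 * (4 * C₁ * X ^ (ε / 2)) * (84 * X ^ g * ∑ d ∈ D, 1 / (rad d : ℝ) + D.card)
      ≤ 3 * X ^ 2 * (4 * C₁ * X ^ (ε / 2)) * (84 * X ^ g * (C₂ * X ^ (ε / 2)) +
        X ^ 2 * X ^ (ε / 2)) := by
        gcongr
        calc (D.card : ℝ) ≤ X ^ 2 * 1 := by rw [mul_one]; exact h7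
          _ ≤ X ^ 2 * X ^ (ε / 2) := by gcongr
    _ = 3 * (4 * C₁) * (X ^ (ε / 2) * X ^ (ε / 2)) * (84 * C₂ * (X ^ 2 * X ^ g) +
        X ^ 2 * X ^ 2) := by ring
    _ ≤ 3 * (4 * C₁) * (X ^ (ε / 2) * X ^ (ε / 2)) * ((84 * C₂ + 1) * (X ^ 2 * X ^ g) +
        (84 * C₂ + 1) * (X ^ 2 * X ^ 2)) := by
        refine mul_le_mul_of_nonneg_left ?_ (by positivity)
        have k1 : 0 ≤ X ^ 2 * X ^ g := by positivity
        have k2 : 0 ≤ 84 * C₂ * (X ^ 2 * X ^ 2) := by positivity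
        linarith
    _ = _ := by
        rw [h8, h9, h10]
        ring

end Pool.Agent.X12.Szp
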