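import Pool.Agent.X12.Szp20

/-!
# All elliptic curves over `ℚ`: the discriminant against the bad primes, reduction
-/

set_option autoImplicit false

namespace Pool.Agent.X12.Szp

open Finset Filter Topology Pool.Agent.H328R2.ABC

/-- the product of the bad primes `p ≥ 5` of a minimal model -/
def Bad (a b : ℤ) : ℕ := ∏ p ∈ (Dsc a b).natAbs.primeFactors.filter (fun p => 5 ≤ p), p

lemma Bad_pos (a b : ℤ) : 0 < Bad a b := by
  apply Finset.prod_pos
  intro p hp
  rw [Finset.mem_filter] at hp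
  exact (Nat.prime_of_mem_primeFactors hp.1).pos

/-- the local inequality behind the count -/
lemma gcd_dvd' {a b : ℕ} (ha : a ≠ 0) (hb : b ≠ 0)
    (hmin : ∀ p : ℕ, p.Prime → ¬ (p ^ 4 ∣ a ∧ p ^ 6 ∣ b)) :
    Nat.gcd (4 * a ^ 3) (27 * b ^ 2) ^ 4 * rad a ^ 5 ∣
      6 ^ 60 * ((b * a) ^ 5 * rad (Nat.gcd a b) ^ 4) := by
  have hg : Nat.gcd a b ≠ 0 := Nat.gcd_ne_zero_left ha
  have hr1 : rad a ≠ 0 := (rad_pos a).ne'
  have hr2 : rad (Nat.gcd a b) ≠ 0 := (rad_pos _).ne'
  have hG : Nat.gcd (4 * a ^ 3) (27 * b ^ 2) ≠ 0 := Nat.gcd_ne_zero_left (by positivity)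
  rw [← Nat.factorization_prime_le_iff_dvd (by positivity) (by positivity)]
  intro p hp
  rw [Nat.factorization_mul (pow_ne_zero 4 hG) (pow_ne_zero 5 hr1),
    Nat.factorization_mul (by positivity) (by positivity),
    Nat.factorization_mul (by positivity) (by positivity)]
  simp only [Nat.factorization_pow]
  rw [Nat.factorization_mul hb ha,
    Nat.factorization_gcd (by positivity) (by positivity),
    Nat.factorization_mul (by norm_num) (by positivity),
    Nat.factorization_mul (by norm_num) (by positivity), Nat.factorization_pow,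
    Nat.factorization_pow]
  simp only [Finsupp.add_apply, Finsupp.inf_apply, Finsupp.smul_apply, smul_eq_mul,
    rad_factorization ha hp, rad_factorization hg hp]
  have e1 : p ^ 4 ∣ a ↔ 4 ≤ a.factorization p := hp.pow_dvd_iff_le_factorization ha
  have e2 : p ^ 6 ∣ b ↔ 6 ≤ b.factorization p := hp.pow_dvd_iff_le_factorization hb
  have e3 : p ∣ a ↔ 1 ≤ a.factorization p := by
    have := hp.pow_dvd_iff_le_factorization (k := 1) ha
    rwa [pow_one] at this
  have e4 : p ∣ b ↔ 1 ≤ b.factorization p := by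
    have := hp.pow_dvd_iff_le_factorization (k := 1) hb
    rwa [pow_one] at this
  have e5 : p ∣ Nat.gcd a b ↔ 1 ≤ a.factorization p ∧ 1 ≤ b.factorization p := by
    rw [Nat.dvd_gcd_iff, e3, e4]
  have hm := hmin p hp
  rw [e1, e2] at hm
  simp only [e5, e3]
  set α := a.factorization p
  set β := b.factorization p
  by_cases hp6 : p ∣ 6
  · have h6 : 1 ≤ (6 : ℕ).factorization p := by
      have := hp.pow_dvd_iff_le_factorization (k := 1) (n := 6) (by norm_num)
      rw [pow_one] at this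
      exact this.1 hp6
    have h4 : (4 : ℕ).factorization p ≤ 2 := by
      by_contra hcon
      push Not at hcon
      have := (hp.pow_dvd_iff_le_factorization (k := 3) (n := 4) (by norm_num)).2 hcon
      have h8 : 2 ^ 3 ≤ p ^ 3 := Nat.pow_le_pow_left hp.two_le 3
      have := Nat.le_of_dvd (by norm_num) this
      omega
    have h27 : (27 : ℕ).factorization p ≤ 3 := by
      by_contra hcon
      push Not at hcon
      have h9 := (hp.pow_dvd_iff_le_factorization (k := 4) (n := 27) (by norm_num)).2 hcon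
      have h8 : 2 ^ 4 ≤ p ^ 4 := Nat.pow_le_pow_left hp.two_le 4
      have h10 := Nat.le_of_dvd (by norm_num) h9
      have hp2 : p = 2 := by
        by_contra hne
        have : 3 ≤ p := by
          have := hp.two_le
          omega
        have : 3 ^ 4 ≤ p ^ 4 := Nat.pow_le_pow_left this 4
        omega
      rw [hp2] at h9
      omega
    split_ifs <;> omega
  · have h6 : (6 : ℕ).factorization p = 0 := Nat.factorization_eq_zero_of_not_dvd hp6
    have h2 : ¬ p ∣ 2 := fun h => hp6 (h.trans (by norm_num))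
    have h3 : ¬ p ∣ 3 := fun h => hp6 (h.trans (by norm_num))
    have h4 : (4 : ℕ).factorization p = 0 := by
      apply Nat.factorization_eq_zero_of_not_dvd
      intro h
      exact h2 (hp.dvd_of_dvd_pow (show p ∣ 2 ^ 2 by norm_num; exact h))
    have h27 : (27 : ℕ).factorization p = 0 := by
      apply Nat.factorization_eq_zero_of_not_dvd
      intro h
      exact h3 (hp.dvd_of_dvd_pow (show p ∣ 3 ^ 3 by norm_num; exact h))
    split_ifs <;> omega

/-- the conductor is large -/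
lemma bad_ge {a b : ℤ} {n b1 : ℕ} (ha : a ≠ 0) (hD : Dsc a b ≠ 0) (hn : (n : ℤ) ∣ Dsc a b)
    (hco : Nat.Coprime n (6 * a.natAbs)) (hb1 : (b1 : ℤ) ∣ b) :
    rad n * rad (Nat.gcd a.natAbs b1) ≤ 6 * Bad a b := by
  classical
  have ha' : a.natAbs ≠ 0 := Int.natAbs_ne_zero.2 ha
  have hD' : (Dsc a b).natAbs ≠ 0 := Int.natAbs_ne_zero.2 hD
  have hg : Nat.gcd a.natAbs b1 ≠ 0 := Nat.gcd_ne_zero_left ha'
  set S := (Dsc a b).natAbs.primeFactors.filter (fun p => 5 ≤ p) with hS
  set S2 := (Nat.gcd a.natAbs b1).primeFactors with hS2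
  set S3 := S2.filter (fun p => 5 ≤ p) with hS3
  have hpa : ∀ p ∈ n.primeFactors, 5 ≤ p ∧ ¬ (p : ℤ) ∣ a := by
    intro p hp
    have hp' := Nat.prime_of_mem_primeFactors hp
    have h1 : ¬ p ∣ 6 * a.natAbs := by
      intro h
      have := Nat.dvd_gcd (Nat.dvd_of_mem_primeFactors hp) h
      rw [hco] at this
      exact hp'.one_lt.ne' (Nat.dvd_one.1 this)
    refine ⟨?_, fun h => h1 (Dvd.dvd.mul_left (Int.natCast_dvd.1 h) 6)⟩
    by_contra hcon
    push Not at hcon
    have h2 := hp'.two_le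
    interval_cases p
    · exact h1 (Dvd.dvd.mul_right (by norm_num) _)
    · exact h1 (Dvd.dvd.mul_right (by norm_num) _)
    · exact absurd hp' (by norm_num)
  have hsub1 : n.primeFactors ⊆ S := by
    intro p hp
    rw [hS, Finset.mem_filter]
    refine ⟨Nat.primeFactors_mono (Int.natCast_dvd.1 hn) hD' hp, (hpa p hp).1⟩
  have hpb : ∀ p ∈ S3, 5 ≤ p ∧ (p : ℤ) ∣ a ∧ (p : ℤ) ∣ b ∧ p.Prime := by
    intro p hp
    rw [hS3, Finset.mem_filter, hS2] at hp
    have h1 := Nat.dvd_of_mem_primeFactors hp.1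
    rw [Nat.dvd_gcd_iff] at h1
    exact ⟨hp.2, Int.natCast_dvd.2 h1.1, (Int.natCast_dvd_natCast.2 h1.2).trans hb1,
      Nat.prime_of_mem_primeFactors hp.1⟩
  have hsub2 : S3 ⊆ S := by
    intro p hp
    obtain ⟨h1, h2, h3, h4⟩ := hpb p hp
    rw [hS, Finset.mem_filter]
    refine ⟨Nat.mem_primeFactors.2 ⟨h4, ?_, hD'⟩, h1⟩
    apply Int.natCast_dvd.1
    unfold Dsc
    exact dvd_sub (Dvd.dvd.mul_left (dvd_pow h2 (by norm_num)) _)
      (Dvd.dvd.mul_left (dvd_pow h3 (by norm_num)) _)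
  have hdisj : Disjoint n.primeFactors S3 := by
    rw [Finset.disjoint_left]
    intro p hp hp3
    exact (hpa p hp).2 (hpb p hp3).2.1
  have h1 : rad n * (∏ p ∈ S3, p) ≤ Bad a b := by
    have e1 : ∏ p ∈ n.primeFactors ∪ S3, p ≤ Bad a b := by
      unfold Bad
      refine Finset.prod_le_prod_of_subset_of_one_le' (Finset.union_subset hsub1 hsub2) ?_
      intro p hp _
      exact (Nat.prime_of_mem_primeFactors (Finset.mem_filter.1 hp).1).one_lt.le
    rw [Finset.prod_union hdisj] at e1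
    exact e1
  have h2 : rad (Nat.gcd a.natAbs b1) ≤ 6 * ∏ p ∈ S3, p := by
    have e1 : rad (Nat.gcd a.natAbs b1) =
        (∏ p ∈ S2.filter (fun p => 5 ≤ p), p) * ∏ p ∈ S2.filter (fun p => ¬ 5 ≤ p), p := by
      unfold rad
      exact (Finset.prod_filter_mul_prod_filter_not _ _ _).symm
    rw [e1, mul_comm]
    refine Nat.mul_le_mul_right _ ?_
    have e2 : S2.filter (fun p => ¬ 5 ≤ p) ⊆ {2, 3} := by
      intro p hp
      rw [Finset.mem_filter] at hp
      have hp' := Nat.prime_of_mem_primeFactors hp.1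
      have h5 := hp'.two_le
      have h6 : p < 5 := by omega
      interval_cases p
      · simp
      · simp
      · exact absurd hp' (by norm_num)
    calc ∏ p ∈ S2.filter (fun p => ¬ 5 ≤ p), p ≤ ∏ p ∈ ({2, 3} : Finset ℕ), p := by
          refine Finset.prod_le_prod_of_subset_of_one_le' e2 ?_
          intro p hp _
          simp only [Finset.mem_insert, Finset.mem_singleton] at hp
          omega
      _ = 6 := by norm_num
  calc rad n * rad (Nat.gcd a.natAbs b1) ≤ rad n * (6 * ∏ p ∈ S3, p) := by gcongr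
    _ = 6 * (rad n * ∏ p ∈ S3, p) := by ring
    _ ≤ 6 * Bad a b := by gcongr

/-- the size of the interval -/
noncomputable def LM (X Z : ℝ) (a : ℤ) (b1 w d : ℕ) : ℝ :=
  (31 * X ^ 3) ^ (1 / 5 : ℝ) * (6 * (uu a b1 : ℝ) * w * Z * d /
    ((rad (Nat.gcd a.natAbs b1) : ℝ) * X ^ 3)) ^ (4 / 5 : ℝ) + 62 * X ^ 2 * d

/-- the condition on the cofactor `x` -/
def R4' (X Z : ℝ) (a : ℤ) (b1 w d : ℕ) (x : ℤ) : Prop :=
  IsCoprime (UU a b1) ((w * (d * rad d) : ℕ) : ℤ) ∧ IsCoprime (WW a b1) ((w * (d * rad d) : ℕ) : ℤ) ∧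
  ((w * (d * rad d) : ℕ) : ℤ) ∣ UU a b1 - WW a b1 * x ^ 2 ∧
  |4 * (a : ℝ) ^ 3 - 27 * ((b1 : ℝ) * x) ^ 2| ≤ X ^ 3 * LM X Z a b1 w d ∧
  |(b1 : ℝ) * x| ≤ X ^ 3 ∧ (X ^ 2 / 4 ≤ |(a : ℝ)| ∨ X ^ 3 / 8 ≤ |(b1 : ℝ) * x|) ∧
  Dsc a (b1 * x) ≠ 0

theorem reduction4' {Z X : ℝ} (hZ : 0 < Z) (hX : 1 ≤ X) {a b : ℤ} (ha : a ≠ 0) (hb : b ≠ 0)
    (hD : Dsc a b ≠ 0) (hax : |(a : ℝ)| ≤ X ^ 2) (hbx : |(b : ℝ)| ≤ X ^ 3)
    (htop : X ^ 2 / 4 ≤ |(a : ℝ)| ∨ X ^ 3 / 8 ≤ |(b : ℝ)|) (hC : (Bad a b : ℝ) ≤ Z) :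
    (∃ p : ℕ, X ^ 2 < p ∧ (p : ℤ) ^ 2 ∣ Dsc a b) ∨
    ∃ (b1 w d : ℕ) (x : ℤ), b = b1 * x ∧ 1 ≤ b1 ∧ (b1 : ℝ) ≤ X ^ 3 ∧
      b1.primeFactors ⊆ (6 * a.natAbs).primeFactors ∧ 1 ≤ w ∧ (w : ℝ) ≤ 31 * X ^ 6 ∧
      w.primeFactors ⊆ (6 * a.natAbs).primeFactors ∧ 1 ≤ d ∧ (d : ℝ) ≤ X ^ 2 ∧
      R4' X Z a b1 w d x := by
  have hX0 : 0 < X := by linarith
  have ha' : a.natAbs ≠ 0 := Int.natAbs_ne_zero.2 ha
  have hb' : b.natAbs ≠ 0 := Int.natAbs_ne_zero.2 hb
  set m := 6 * a.natAbs with hm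
  have hm0 : m ≠ 0 := by omega
  obtain ⟨b1, y, hby, hb1, hb1s, hycop⟩ := split_part m hm0 b.natAbs (by omega)
  have hy0 : y ≠ 0 := by
    rintro rfl
    rw [mul_zero] at hby
    exact hb' hby
  set x : ℤ := b.sign * y with hx
  have hbx' : b = b1 * x := by
    have h1 := Int.sign_mul_natAbs b
    rw [hby] at h1
    push_cast at h1
    rw [hx]
    linarith
  have hxabs : x.natAbs = y := by
    rw [hx, Int.natAbs_mul, Int.natAbs_natCast, Int.natAbs_sign_of_ne_zero hb, one_mul]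
  set u := uu a b1 with hu
  have hu0 : 0 < u := Nat.gcd_pos_of_pos_left _ (by positivity)
  have hu1 : u ∣ 4 * a.natAbs ^ 3 := Nat.gcd_dvd_left _ _
  have hu2 : u ∣ 27 * b1 ^ 2 := Nat.gcd_dvd_right _ _
  have hU : 4 * a ^ 3 = u * UU a b1 := by
    unfold UU
    rw [← hu]
    refine (Int.mul_ediv_cancel' (Int.natCast_dvd.2 ?_)).symm
    rw [Int.natAbs_mul, Int.natAbs_pow]
    exact hu1
  have hW : 27 * (b1 : ℤ) ^ 2 = u * WW a b1 := by
    unfold WW
    rw [← hu]
    refine (Int.mul_ediv_cancel' ?_).symm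
    exact_mod_cast hu2
  set U := UU a b1
  set W := WW a b1
  have hDT : Dsc a b = u * (U - W * x ^ 2) := by
    unfold Dsc
    rw [hbx']
    linear_combination hU - x ^ 2 * hW
  set T := U - W * x ^ 2 with hT
  have hT0 : T ≠ 0 := by
    intro h
    rw [h, mul_zero] at hDT
    exact hD hDT
  -- the coprimality of the cofactors
  have hUn : 4 * a.natAbs ^ 3 = u * U.natAbs := by
    have := congrArg Int.natAbs hU
    rwa [Int.natAbs_mul, Int.natAbs_mul, Int.natAbs_pow, Int.natAbs_natCast] at this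
  have hWn : 27 * b1 ^ 2 = u * W.natAbs := by
    have := congrArg Int.natAbs hW
    rwa [Int.natAbs_mul, Int.natAbs_mul, Int.natAbs_pow, Int.natAbs_natCast,
      Int.natAbs_natCast] at this
  have hUW : Nat.gcd U.natAbs W.natAbs = 1 := by
    have h1 : Nat.gcd (4 * a.natAbs ^ 3) (27 * b1 ^ 2) = u := rfl
    rw [hUn, hWn, Nat.gcd_mul_left] at h1
    exact Nat.eq_of_mul_eq_mul_left hu0 (by rw [h1, mul_one])
  obtain ⟨w, n, hwn, hw, hws, hncop⟩ := split_part m hm0 T.natAbs (by omega)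
  have hn0 : n ≠ 0 := by
    rintro rfl
    rw [mul_zero] at hwn
    omega
  have hnT : (n : ℤ) ∣ T := Int.natCast_dvd.2 (by rw [hwn]; exact Dvd.intro_left w rfl)
  have hwT : (w : ℤ) ∣ T := Int.natCast_dvd.2 (by rw [hwn]; exact Dvd.intro n rfl)
  have hnD : (n : ℤ) ∣ Dsc a b := by
    rw [hDT]
    exact Dvd.dvd.mul_left hnT _
  have hcnd := bad_ge (b1 := b1) ha hD hnD hncop ⟨x, hbx'⟩
  set G := rad (Nat.gcd a.natAbs b1) with hG
  have hG0 : (0 : ℝ) < G := by exact_mod_cast rad_pos _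
  have hrn : (0 : ℝ) < rad n := by exact_mod_cast rad_pos n
  have hn1 : 1 ≤ n := by omega
  have hn0' : (0 : ℝ) < n := by exact_mod_cast hn1
  have hcnd' : (rad n : ℝ) * (G : ℝ) ≤ 6 * Z := by
    have h1 : (rad n : ℝ) * (G : ℝ) ≤ 6 * (Bad a b : ℝ) := by exact_mod_cast hcnd
    linarith
  have hDabs : |((Dsc a b : ℤ) : ℝ)| = u * (w * n) := by
    rw [hDT]
    push_cast
    rw [abs_mul, Nat.abs_cast]
    congr 1
    have h1 : ((T.natAbs : ℕ) : ℝ) = |(T : ℝ)| := by
      rw [Nat.cast_natAbs]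
      push_cast
      rfl
    rw [← h1, hwn]
    push_cast
    ring
  have hD31 := Dsc_le hax hbx
  have hu1' : (1 : ℝ) ≤ u := by exact_mod_cast hu0
  have hw1' : (1 : ℝ) ≤ w := by exact_mod_cast hw
  have hn1' : (1 : ℝ) ≤ n := by exact_mod_cast hn1
  have hquot : min X ((n : ℝ) * (G : ℝ) / (6 * Z)) ≤ ((n / rad n : ℕ) : ℝ) := by
    refine (min_le_right _ _).trans ?_
    rw [Nat.cast_div (rad_dvd n) hrn.ne', div_le_div_iff₀ (by positivity) hrn]
    nlinarith
  rcases choose_modulus n hn1 X (min X ((n : ℝ) * (G : ℝ) / (6 * Z))) hX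
    (min_le_left _ _) hquot with ⟨p, hp, hpX, hpn⟩ | ⟨d, hd1, hdX, hdt, hdn⟩
  · left
    refine ⟨p, hpX, ?_⟩
    have h1 : ((p : ℤ)) ^ 2 ∣ (n : ℤ) := by exact_mod_cast hpn
    exact h1.trans hnD
  · right
    have hd0 : (0 : ℝ) < d := by exact_mod_cast hd1
    have hdn' : d ∣ n := (Dvd.intro _ rfl : d ∣ d * rad d).trans hdn
    refine ⟨b1, w, d, x, hbx', hb1, ?_, hb1s, hw, ?_, hws, hd1, hdX, ?_, ?_, ?_, ?_, ?_, ?_, ?_⟩
    · have h1 : (b1 : ℝ) ≤ |(b : ℝ)| := by
        have h2 : ((b.natAbs : ℕ) : ℝ) = |(b : ℝ)| := by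
          rw [Nat.cast_natAbs]
          push_cast
          rfl
        rw [← h2, hby]
        have : b1 ≤ b1 * y := Nat.le_mul_of_pos_right _ (by omega)
        exact_mod_cast this
      exact h1.trans hbx
    · rw [hDabs] at hD31
      calc (w : ℝ) = 1 * (w * 1) := by ring
        _ ≤ u * (w * n) := by gcongr
        _ ≤ 31 * X ^ 6 := hD31
    · -- the first cofactor
      rw [Int.isCoprime_iff_gcd_eq_one, Int.gcd, Int.natAbs_natCast]
      by_contra hcon
      obtain ⟨p, hp, hpU, hps⟩ := Nat.Prime.not_coprime_iff_dvd.1 hcon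
      rcases (Nat.Prime.dvd_mul hp).1 hps with h | h
      · have hpm := Nat.dvd_of_mem_primeFactors (hws (Nat.mem_primeFactors.2 ⟨hp, h, by omega⟩))
        have h1 : (p : ℤ) ∣ T := (Int.natCast_dvd_natCast.2 h).trans hwT
        have h2 : (p : ℤ) ∣ U := Int.natCast_dvd.2 hpU
        have h3 : (p : ℤ) ∣ W * x ^ 2 := by
          have : W * x ^ 2 = U - T := by rw [hT]; ring
          rw [this]
          exact dvd_sub h2 h1
        have hpp : Prime (p : ℤ) := Nat.prime_iff_prime_int.1 hp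
        rcases hpp.dvd_or_dvd h3 with h4 | h4
        · have := Nat.dvd_gcd hpU (Int.natCast_dvd.1 h4)
          rw [hUW] at this
          exact hp.one_lt.ne' (Nat.dvd_one.1 this)
        · have h5 := hpp.dvd_of_dvd_pow h4
          have h6 : p ∣ y := by
            rw [← hxabs]
            exact Int.natCast_dvd.1 h5
          have := Nat.dvd_gcd h6 hpm
          rw [hycop] at this
          exact hp.one_lt.ne' (Nat.dvd_one.1 this)
      · have hpd : p ∣ d := by
          rcases (Nat.Prime.dvd_mul hp).1 h with h1 | h1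
          · exact h1
          · exact h1.trans (rad_dvd d)
        have h1 : p ∣ 4 * a.natAbs ^ 3 := by
          rw [hUn]
          exact Dvd.dvd.mul_left hpU _
        have h2 : p ∣ m := by
          rcases (Nat.Prime.dvd_mul hp).1 h1 with h3 | h3
          · have : p ∣ 2 := hp.dvd_of_dvd_pow (show p ∣ 2 ^ 2 by norm_num; exact h3)
            exact (this.trans (by norm_num : 2 ∣ 6)).trans (Dvd.intro _ rfl)
          · exact Dvd.dvd.mul_left (hp.dvd_of_dvd_pow h3) 6
        have := Nat.dvd_gcd (hpd.trans hdn') h2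
        rw [hncop] at this
        exact hp.one_lt.ne' (Nat.dvd_one.1 this)
    · -- the second cofactor
      rw [Int.isCoprime_iff_gcd_eq_one, Int.gcd, Int.natAbs_natCast]
      by_contra hcon
      obtain ⟨p, hp, hpW, hps⟩ := Nat.Prime.not_coprime_iff_dvd.1 hcon
      rcases (Nat.Prime.dvd_mul hp).1 hps with h | h
      · have h1 : (p : ℤ) ∣ T := (Int.natCast_dvd_natCast.2 h).trans hwT
        have h2 : (p : ℤ) ∣ W := Int.natCast_dvd.2 hpW
        have h3 : (p : ℤ) ∣ U := by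
          have : U = T + W * x ^ 2 := by rw [hT]; ring
          rw [this]
          exact dvd_add h1 (Dvd.dvd.mul_right h2 _)
        have := Nat.dvd_gcd (Int.natCast_dvd.1 h3) hpW
        rw [hUW] at this
        exact hp.one_lt.ne' (Nat.dvd_one.1 this)
      · have hpd : p ∣ d := by
          rcases (Nat.Prime.dvd_mul hp).1 h with h1 | h1
          · exact h1
          · exact h1.trans (rad_dvd d)
        have h1 : p ∣ 27 * b1 ^ 2 := by
          rw [hWn]
          exact Dvd.dvd.mul_left hpW _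
        have h2 : p ∣ m := by
          rcases (Nat.Prime.dvd_mul hp).1 h1 with h3 | h3
          · have : p ∣ 3 := hp.dvd_of_dvd_pow (show p ∣ 3 ^ 3 by norm_num; exact h3)
            exact (this.trans (by norm_num : 3 ∣ 6)).trans (Dvd.intro _ rfl)
          · exact Nat.dvd_of_mem_primeFactors
              (hb1s (Nat.mem_primeFactors.2 ⟨hp, hp.dvd_of_dvd_pow h3, by omega⟩))
        have := Nat.dvd_gcd (hpd.trans hdn') h2
        rw [hncop] at this
        exact hp.one_lt.ne' (Nat.dvd_one.1 this)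
    · -- the divisibility
      rw [← hT]
      apply Int.natCast_dvd.2
      rw [hwn]
      exact Nat.mul_dvd_mul_left w hdn
    · -- the size
      have h1 : 4 * (a : ℝ) ^ 3 - 27 * ((b1 : ℝ) * x) ^ 2 = ((Dsc a b : ℤ) : ℝ) := by
        rw [hbx']
        unfold Dsc
        push_cast
        ring
      rw [h1]
      unfold LM
      rw [← hu, ← hG]
      have hLL : 0 ≤ 6 * (u : ℝ) * w * Z * d / ((G : ℝ) * X ^ 3) := by positivity
      rcases le_or_gt X (d : ℝ) with h | h
      · calc |((Dsc a b : ℤ) : ℝ)| ≤ 31 * X ^ 6 := hD31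
          _ ≤ X ^ 3 * (0 + 62 * X ^ 2 * X) := by
            have : 0 ≤ X ^ 6 := by positivity
            nlinarith
          _ ≤ _ := by gcongr; positivity
      · have h5 : (n : ℝ) * (G : ℝ) / (6 * Z) ≤ d := by
          rcases min_le_iff.1 hdt with h7 | h7
          · exact absurd h7 (not_le.2 h)
          · exact h7
        rw [div_le_iff₀ (by positivity)] at h5
        have h6 : (n : ℝ) ≤ 6 * Z * d / (G : ℝ) := by
          rw [le_div_iff₀ hG0]
          linarith
        set z := |((Dsc a b : ℤ) : ℝ)| / X ^ 3 with hz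
        have hX3 : 0 < X ^ 3 := by positivity
        have hz0 : 0 ≤ z := by positivity
        have hz1 : z ≤ 31 * X ^ 3 := by
          rw [hz, div_le_iff₀ hX3]
          calc |((Dsc a b : ℤ) : ℝ)| ≤ 31 * X ^ 6 := hD31
            _ = 31 * X ^ 3 * X ^ 3 := by ring
        have hz2 : z ≤ 6 * (u : ℝ) * w * Z * d / ((G : ℝ) * X ^ 3) := by
          rw [hz, hDabs, div_le_div_iff₀ hX3 (by positivity)]
          calc (u : ℝ) * (w * n) * ((G : ℝ) * X ^ 3) ≤
              u * (w * (6 * Z * d / (G : ℝ))) * ((G : ℝ) * X ^ 3) := by gcongr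
            _ = _ := by field_simp
        have hz3 : z ≤ (31 * X ^ 3) ^ (1 / 5 : ℝ) * (6 * (u : ℝ) * w * Z * d /
            ((G : ℝ) * X ^ 3)) ^ (4 / 5 : ℝ) := by
          calc z = z ^ (1 / 5 : ℝ) * z ^ (4 / 5 : ℝ) := by
                rw [← Real.rpow_add_of_nonneg hz0 (by norm_num) (by norm_num)]
                norm_num
            _ ≤ _ := by gcongr
        have h8 : |((Dsc a b : ℤ) : ℝ)| = X ^ 3 * z := by
          rw [hz]
          field_simp
        rw [h8]
        have : 0 ≤ 62 * X ^ 2 * (d : ℝ) := by positivity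
        gcongr
        linarith
    · have h1 : ((b1 : ℝ) * x) = (b : ℝ) := by
        rw [hbx']
        push_cast
        ring
      rw [h1]
      exact hbx
    · have h1 : ((b1 : ℝ) * x) = (b : ℝ) := by
        rw [hbx']
        push_cast
        ring
      rw [h1]
      exact htop
    · rw [← hbx']
      exact hD

end Pool.Agent.X12.Szp
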