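import Pool.Agent.X12.Szp21

/-!
# All elliptic curves over `ℚ`: the discriminant against the bad primes, the count
-/

set_option autoImplicit false

namespace Pool.Agent.X12.Szp

open Finset Filter Topology Pool.Agent.H328R2.ABC

/-- the main parameter, `X ^ (-9/5) Z ^ (4/5)` -/
noncomputable def YY (X Z : ℝ) : ℝ := (X ^ 3) ^ (1 / 5 : ℝ) * (Z / X ^ 3) ^ (4 / 5 : ℝ)

lemma LM_le {X Z : ℝ} (hX : 1 ≤ X) (hZ : 0 < Z) {a : ℤ} (ha : a ≠ 0) {b1 w d : ℕ} (hb1 : 1 ≤ b1)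
    (hw : 1 ≤ w) (hd : 1 ≤ d) (hmin : Mn a b1) :
    LM X Z a b1 w d / (b1 * w * d) ≤ 186 * 6 ^ 12 * qq a.natAbs * YY X Z + 62 * X ^ 2 := by
  have hX0 : 0 < X := by linarith
  have ha' : a.natAbs ≠ 0 := Int.natAbs_ne_zero.2 ha
  have h1 := gcd_dvd' ha' (by omega : b1 ≠ 0) hmin
  set G := rad (Nat.gcd a.natAbs b1) with hG
  have hG0 : (0 : ℝ) < G := by exact_mod_cast rad_pos _
  have hr : (0 : ℝ) < rad a.natAbs := by exact_mod_cast rad_pos _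
  have hb : (1 : ℝ) ≤ b1 := by exact_mod_cast hb1
  have hw' : (1 : ℝ) ≤ w := by exact_mod_cast hw
  have hd' : (1 : ℝ) ≤ d := by exact_mod_cast hd
  have hq := qq_nonneg a.natAbs
  have h2 : uu a b1 ^ 4 * rad a.natAbs ^ 5 ≤ 6 ^ 60 * ((b1 * a.natAbs) ^ 5 * G ^ 4) :=
    Nat.le_of_dvd (by
      have := rad_pos (Nat.gcd a.natAbs b1)
      positivity) h1
  have h3 : (uu a b1 : ℝ) ^ 4 * (rad a.natAbs : ℝ) ^ 5 ≤
      6 ^ 60 * ((b1 * (a.natAbs : ℝ)) ^ 5 * (G : ℝ) ^ 4) := by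
    have h30 : ((uu a b1 ^ 4 * rad a.natAbs ^ 5 : ℕ) : ℝ) ≤
        ((6 ^ 60 * ((b1 * a.natAbs) ^ 5 * G ^ 4) : ℕ) : ℝ) := Nat.cast_le.2 h2
    rw [Nat.cast_mul, Nat.cast_mul, Nat.cast_mul, Nat.cast_pow, Nat.cast_pow, Nat.cast_pow,
      Nat.cast_pow, Nat.cast_pow, Nat.cast_mul] at h30
    exact h30
  set v : ℝ := (uu a b1 : ℝ) / G with hv
  have hv0 : 0 ≤ v := by positivity
  have h4 : v ^ 4 ≤ (6 ^ 12 * (b1 * qq a.natAbs)) ^ 5 := by
    have e1 : (6 ^ 12 * (b1 * qq a.natAbs)) ^ 5 =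
        6 ^ 60 * (b1 * (a.natAbs : ℝ)) ^ 5 / (rad a.natAbs : ℝ) ^ 5 := by
      unfold qq
      field_simp
    rw [e1, hv, div_pow, div_le_div_iff₀ (by positivity) (by positivity)]
    linarith
  have h5 : v ^ (4 / 5 : ℝ) ≤ 6 ^ 12 * (b1 * qq a.natAbs) := by
    have e1 : v ^ (4 / 5 : ℝ) = (v ^ 4) ^ (1 / 5 : ℝ) := by
      rw [← Real.rpow_natCast v 4, ← Real.rpow_mul hv0]
      norm_num
    have e2 : (6 ^ 12 * (b1 * qq a.natAbs)) = ((6 ^ 12 * (b1 * qq a.natAbs)) ^ 5) ^ (1 / 5 : ℝ) := by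
      rw [← Real.rpow_natCast (6 ^ 12 * (b1 * qq a.natAbs)) 5, ← Real.rpow_mul (by positivity)]
      norm_num
    rw [e1, e2]
    exact Real.rpow_le_rpow (by positivity) h4 (by norm_num)
  have h6 : (6 * (uu a b1 : ℝ) * w * Z * d / ((G : ℝ) * X ^ 3)) ^ (4 / 5 : ℝ) ≤
      6 ^ 12 * (b1 * qq a.natAbs) * (6 * w * d) * (Z / X ^ 3) ^ (4 / 5 : ℝ) := by
    have e1 : 6 * (uu a b1 : ℝ) * w * Z * d / ((G : ℝ) * X ^ 3) = v * (6 * w * d) * (Z / X ^ 3) := by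
      rw [hv]
      field_simp
    rw [e1, Real.mul_rpow (by positivity) (by positivity), Real.mul_rpow hv0 (by positivity)]
    have e2 : (6 * (w : ℝ) * d) ^ (4 / 5 : ℝ) ≤ 6 * w * d := by
      have e3 : (1 : ℝ) ≤ 6 * w * d := by nlinarith
      calc (6 * (w : ℝ) * d) ^ (4 / 5 : ℝ) ≤ (6 * (w : ℝ) * d) ^ (1 : ℝ) :=
            Real.rpow_le_rpow_of_exponent_le e3 (by norm_num)
        _ = 6 * w * d := Real.rpow_one _
    gcongr
  have h7 : (31 * X ^ 3) ^ (1 / 5 : ℝ) ≤ 31 * (X ^ 3) ^ (1 / 5 : ℝ) := by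
    rw [Real.mul_rpow (by norm_num) (by positivity)]
    have : (31 : ℝ) ^ (1 / 5 : ℝ) ≤ 31 ^ (1 : ℝ) :=
      Real.rpow_le_rpow_of_exponent_le (by norm_num) (by norm_num)
    rw [Real.rpow_one] at this
    gcongr
  unfold LM
  rw [← hG, div_le_iff₀ (by positivity)]
  have h8 : (31 * X ^ 3) ^ (1 / 5 : ℝ) *
      (6 * (uu a b1 : ℝ) * w * Z * d / ((G : ℝ) * X ^ 3)) ^ (4 / 5 : ℝ) ≤
      31 * (X ^ 3) ^ (1 / 5 : ℝ) *
      (6 ^ 12 * (b1 * qq a.natAbs) * (6 * w * d) * (Z / X ^ 3) ^ (4 / 5 : ℝ)) := by gcongr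
  have h9 : 31 * (X ^ 3) ^ (1 / 5 : ℝ) *
      (6 ^ 12 * (b1 * qq a.natAbs) * (6 * w * d) * (Z / X ^ 3) ^ (4 / 5 : ℝ)) =
      186 * 6 ^ 12 * qq a.natAbs * YY X Z * (b1 * w * d) := by
    unfold YY
    ring
  have h10 : 62 * X ^ 2 * (d : ℝ) ≤ 62 * X ^ 2 * (b1 * w * d) := by
    have : (d : ℝ) ≤ b1 * w * d := by
      have : 1 ≤ (b1 : ℝ) * w := by nlinarith
      nlinarith
    gcongr
  calc _ ≤ 186 * 6 ^ 12 * qq a.natAbs * YY X Z * (b1 * w * d) + 62 * X ^ 2 * (b1 * w * d) := by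
        linarith
    _ = _ := by ring

open scoped Classical in
/-- the fibre -/
noncomputable def FM (X Z : ℝ) (a : ℤ) (b1 w d : ℕ) : Finset ℤ :=
  (Finset.Icc (-⌊X ^ 3⌋) ⌊X ^ 3⌋).filter (fun x => R4' X Z a b1 w d x ∧ Mn a b1)

lemma FM_card {e C2 : ℝ} (he : 0 < e) (hC2 : 0 < C2)
    (hdiv : ∀ n : ℕ, 1 ≤ n → (n.divisors.card : ℝ) ≤ C2 * (n : ℝ) ^ e)
    {X Z : ℝ} (hX : 1 ≤ X) (hZ : 0 < Z) {a : ℤ} (ha : a ≠ 0) (hax : |(a : ℝ)| ≤ X ^ 2) {b1 w d : ℕ}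
    (hb1 : 1 ≤ b1) (hw : 1 ≤ w) (hd : 1 ≤ d) :
    ((FM X Z a b1 w d).card : ℝ) ≤ 4 * (C2 * (31 * X ^ 6) ^ e) *
      (80 * (186 * 6 ^ 12 * qq a.natAbs * YY X Z + 62 * X ^ 2) * (1 / (rad d : ℝ)) + 1) := by
  classical
  have hX0 : 0 < X := by linarith
  have hr0 : (0 : ℝ) < rad d := by exact_mod_cast rad_pos d
  have hq := qq_nonneg a.natAbs
  have hY : 0 ≤ YY X Z := by unfold YY; positivity
  rcases Finset.eq_empty_or_nonempty (FM X Z a b1 w d) with h | ⟨x0, hx0⟩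
  · rw [h, Finset.card_empty, Nat.cast_zero]
    positivity
  obtain ⟨⟨c1, c2, c3, -, c5, -, c7⟩, hmin⟩ := (Finset.mem_filter.1 hx0).2
  set s := w * (d * rad d) with hs
  have hs1 : 1 ≤ s := Nat.mul_pos hw (Nat.mul_pos hd (rad_pos d))
  have hb0 : (0 : ℝ) < b1 := by exact_mod_cast hb1
  have hw0 : (0 : ℝ) < w := by exact_mod_cast hw
  have hd0 : (0 : ℝ) < d := by exact_mod_cast hd
  have hLLpos : 0 ≤ LM X Z a b1 w d := by
    unfold LM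
    positivity
  have h1 := fiber_count X (LM X Z a b1 w d) hX hLLpos a (UU a b1) (WW a b1) b1 s hb1
    hs1 c1 c2 (FM X Z a b1 w d) (by
      intro x hx
      obtain ⟨⟨-, -, k3, k4, k5, k6, -⟩, -⟩ := (Finset.mem_filter.1 hx).2
      exact ⟨k3, k4, k5, k6⟩)
  -- the bound for the modulus
  have hsX : (s : ℝ) ≤ 31 * X ^ 6 := by
    have h2 := Dsc_eq a b1 x0
    have h3 : (s : ℤ) ∣ Dsc a (b1 * x0) := by
      rw [h2]
      exact Dvd.dvd.mul_left c3 _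
    have h4 : s ≤ (Dsc a (b1 * x0)).natAbs :=
      Nat.le_of_dvd (Int.natAbs_pos.2 c7) (Int.natCast_dvd.1 h3)
    have h5 : ((s : ℕ) : ℝ) ≤ |((Dsc a (b1 * x0) : ℤ) : ℝ)| := by
      have : (((Dsc a (b1 * x0)).natAbs : ℕ) : ℝ) = |((Dsc a (b1 * x0) : ℤ) : ℝ)| := by
        rw [Nat.cast_natAbs]
        push_cast
        rfl
      rw [← this]
      exact_mod_cast h4
    refine h5.trans (Dsc_le hax ?_)
    push_cast
    exact c5
  have h6 : (s.divisors.card : ℝ) ≤ C2 * (31 * X ^ 6) ^ e := by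
    refine (hdiv s hs1).trans ?_
    gcongr
  have h7 : 80 * LM X Z a b1 w d / b1 / s =
      80 * (LM X Z a b1 w d / (b1 * w * d)) * (1 / (rad d : ℝ)) := by
    rw [hs]
    push_cast
    field_simp
  rw [h7] at h1
  refine h1.trans ?_
  have h8 := LM_le hX hZ ha hb1 hw hd hmin
  gcongr

/-- all minimal models in the box near its top with product of the bad primes at most `Z` -/
def TopM (Z X : ℝ) : Set (ℤ × ℤ) :=
  {q | Dsc q.1 q.2 ≠ 0 ∧ (∀ p : ℕ, p.Prime → ¬ ((p : ℤ) ^ 4 ∣ q.1 ∧ (p : ℤ) ^ 6 ∣ q.2)) ∧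
    Box X q ∧ (X ^ 2 / 4 ≤ |(q.1 : ℝ)| ∨ X ^ 3 / 8 ≤ |(q.2 : ℝ)|) ∧ (Bad q.1 q.2 : ℝ) ≤ Z}

theorem TopM_finite (Z X : ℝ) : (TopM Z X).Finite :=
  (Box_finite X).subset fun _ hq => hq.2.2.1

set_option maxHeartbeats 1600000 in
/-- **All elliptic curves with a small conductor near the top of the box** -/
theorem topM_le (ε : ℝ) (hε : 0 < ε) : ∃ C : ℝ, 0 < C ∧ ∀ Z X : ℝ, 0 < Z → 1 ≤ X →
      ((TopM Z X).ncard : ℝ) ≤ C * X ^ ε * (X ^ 2 * YY X Z + X ^ (4 : ℝ)) := by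
  classical
  set e := ε / 25 with he
  have he0 : 0 < e := by positivity
  obtain ⟨C1, hC1, hsupp⟩ := supp_count e he0
  obtain ⟨C2, hC2, hdiv⟩ := Pool.Agent.H510R2.divisor_bound e he0
  obtain ⟨C3, hC3, hsum⟩ := sum_inv_rad e he0
  obtain ⟨C4, hC4, hR5⟩ := count_R5 ε hε
  set c6 : ℝ := (6 : ℝ) ^ e with hc6
  set c31 : ℝ := (31 : ℝ) ^ e with hc31
  set c0 : ℝ := 186 * 6 ^ 12 with hc0
  have hc6' : 0 < c6 := by positivity
  have hc31' : 0 < c31 := by positivity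
  have hc0' : 0 < c0 := by positivity
  set K := (C1 * c6) * (C1 * c31 * c6) * (4 * (C2 * c31)) with hK
  set K' := 160 * C3 ^ 2 * c0 + 3 * (4960 * C3 + 1) with hK'
  have hK0 : 0 < K := by positivity
  have hK'0 : 0 < K' := by positivity
  refine ⟨K * K' + C4 + 6, by positivity, ?_⟩
  intro Z X hZ hX
  have hX0 : 0 < X := by linarith
  have hX2 : (1 : ℝ) ≤ X ^ 2 := one_le_pow₀ hX
  have hX3 : (1 : ℝ) ≤ X ^ 3 := one_le_pow₀ hX
  have hX6 : (1 : ℝ) ≤ X ^ 6 := one_le_pow₀ hX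
  have hY0 : 0 ≤ YY X Z := by unfold YY; positivity
  set E := X ^ e with hE
  have hE1 : 1 ≤ E := Real.one_le_rpow hX he0.le
  have hE0 : 0 < E := by linarith
  have hf1 : 1 ≤ ⌊X ^ 2⌋₊ := Nat.le_floor (by simpa using hX2)
  have hf2 : ((⌊X ^ 2⌋₊ : ℕ) : ℝ) ≤ X ^ 2 := Nat.floor_le (by positivity)
  set A := (Finset.Icc (-⌊X ^ 2⌋) ⌊X ^ 2⌋).filter (fun a => a ≠ 0) with hA
  set D := Finset.Icc 1 ⌊X ^ 2⌋₊ with hD
  -- the numbers of auxiliary parameters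
  have hm6 : ∀ a ∈ A, ((6 * a.natAbs : ℕ) : ℝ) ≤ 6 * X ^ 2 ∧ 1 ≤ 6 * a.natAbs := by
    intro a ha
    rw [hA, Finset.mem_filter] at ha
    have h1 := abs_le_of_mem ha.1
    have h2 : ((a.natAbs : ℕ) : ℝ) = |(a : ℝ)| := by
      rw [Nat.cast_natAbs]
      push_cast
      rfl
    have h3 := ha.2
    refine ⟨?_, by omega⟩
    push_cast [h2]
    linarith
  have hPP : ∀ a ∈ A, ∀ c : ℝ, 1 ≤ c → ∀ k : ℕ, ((PP (6 * a.natAbs) (c * X ^ k)).card : ℝ) ≤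
      C1 * c ^ e * c6 * E ^ (k + 2) := by
    intro a ha c hc k
    obtain ⟨h1, h2⟩ := hm6 a ha
    have hXk : (1 : ℝ) ≤ X ^ k := one_le_pow₀ hX
    have h3 : 1 ≤ ⌊c * X ^ k⌋₊ := Nat.le_floor (by push_cast; nlinarith)
    have h4 : ((⌊c * X ^ k⌋₊ : ℕ) : ℝ) ≤ c * X ^ k := Nat.floor_le (by positivity)
    calc ((PP (6 * a.natAbs) (c * X ^ k)).card : ℝ) ≤
        C1 * ((⌊c * X ^ k⌋₊ : ℕ) : ℝ) ^ e * ((6 * a.natAbs : ℕ) : ℝ) ^ e :=
          hsupp _ _ h2 h3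
      _ ≤ C1 * (c * X ^ k) ^ e * (6 * X ^ 2) ^ e := by gcongr
      _ = C1 * c ^ e * c6 * E ^ (k + 2) := by
        rw [Real.mul_rpow (by linarith) (by positivity), Real.mul_rpow (by norm_num) (by positivity),
          pow_rpow_comm hX0.le, pow_rpow_comm hX0.le, ← hE, ← hc6, pow_add]
        ring
  -- the sum over `d`
  have hsd : ∑ d ∈ D, 1 / (rad d : ℝ) ≤ C3 * E ^ 2 := by
    refine (hsum _ hf1).trans ?_
    have : ((⌊X ^ 2⌋₊ : ℕ) : ℝ) ^ e ≤ E ^ 2 := by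
      rw [hE, ← pow_rpow_comm hX0.le]
      exact Real.rpow_le_rpow (by positivity) hf2 he0.le
    gcongr
  have hcD : (D.card : ℝ) ≤ X ^ 2 := by
    rw [hD, Nat.card_Icc, Nat.add_sub_cancel]
    exact hf2
  have hsumd : ∀ a ∈ A, ∀ b1 w : ℕ, 1 ≤ b1 → 1 ≤ w →
      ∑ d ∈ D, ((FM X Z a b1 w d).card : ℝ) ≤ 4 * (C2 * c31) * E ^ 8 *
        (80 * C3 * (c0 * qq a.natAbs * YY X Z) + (4960 * C3 + 1) * X ^ 2) := by
    intro a ha b1 w hb1 hw
    rw [hA, Finset.mem_filter] at ha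
    have h1 : ∀ d ∈ D, ((FM X Z a b1 w d).card : ℝ) ≤ 4 * (C2 * (31 * X ^ 6) ^ e) *
      (80 * (186 * 6 ^ 12 * qq a.natAbs * YY X Z + 62 * X ^ 2) * (1 / (rad d : ℝ)) + 1) := by
      intro d hd
      rw [hD, Finset.mem_Icc] at hd
      exact FM_card he0 hC2 hdiv hX hZ ha.2 (abs_le_of_mem ha.1) hb1 hw hd.1
    refine (Finset.sum_le_sum h1).trans ?_
    rw [← Finset.mul_sum, Finset.sum_add_distrib, ← Finset.mul_sum, Finset.sum_const, nsmul_eq_mul,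
      mul_one, ← hc0]
    have h2 : (31 * X ^ 6) ^ e = c31 * E ^ 6 := by
      rw [Real.mul_rpow (by norm_num) (by positivity), pow_rpow_comm hX0.le]
    rw [h2]
    have hq := qq_nonneg a.natAbs
    have hZX : 0 ≤ YY X Z := hY0
    calc 4 * (C2 * (c31 * E ^ 6)) * (80 * (c0 * qq a.natAbs * YY X Z + 62 * X ^ 2) *
          ∑ i ∈ D, 1 / (rad i : ℝ) + D.card)
        ≤ 4 * (C2 * (c31 * E ^ 6)) * (80 * (c0 * qq a.natAbs * YY X Z + 62 * X ^ 2) *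
          (C3 * E ^ 2) + X ^ 2 * E ^ 2) := by
          gcongr
          calc (D.card : ℝ) ≤ X ^ 2 * 1 := by rw [mul_one]; exact hcD
            _ ≤ X ^ 2 * E ^ 2 := by
              have : 1 ≤ E ^ 2 := one_le_pow₀ hE1
              gcongr
      _ = _ := by ring
  -- the sum over `b1` and `w`
  have hsbw : ∀ a ∈ A, ∑ b1 ∈ PP (6 * a.natAbs) (1 * X ^ 3), ∑ w ∈ PP (6 * a.natAbs) (31 * X ^ 6),
      ∑ d ∈ D, ((FM X Z a b1 w d).card : ℝ) ≤ K * E ^ 21 *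
        (80 * C3 * (c0 * qq a.natAbs * YY X Z) + (4960 * C3 + 1) * X ^ 2) := by
    intro a ha
    set Q := 80 * C3 * (c0 * qq a.natAbs * YY X Z) + (4960 * C3 + 1) * X ^ 2 with hQ
    have hQ0 : 0 ≤ Q := by
      have := qq_nonneg a.natAbs
      positivity
    have h1 : ∀ b1 ∈ PP (6 * a.natAbs) (1 * X ^ 3), ∑ w ∈ PP (6 * a.natAbs) (31 * X ^ 6),
        ∑ d ∈ D, ((FM X Z a b1 w d).card : ℝ) ≤
          (C1 * c31 * c6 * E ^ 8) * (4 * (C2 * c31) * E ^ 8 * Q) := by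
      intro b1 hb1
      have hb1' : 1 ≤ b1 := (Finset.mem_Icc.1 (Finset.mem_filter.1 hb1).1).1
      calc ∑ w ∈ PP (6 * a.natAbs) (31 * X ^ 6), ∑ d ∈ D, ((FM X Z a b1 w d).card : ℝ)
          ≤ ∑ w ∈ PP (6 * a.natAbs) (31 * X ^ 6), 4 * (C2 * c31) * E ^ 8 * Q :=
            Finset.sum_le_sum fun w hw => hsumd a ha b1 w hb1'
              (Finset.mem_Icc.1 (Finset.mem_filter.1 hw).1).1
        _ = ((PP (6 * a.natAbs) (31 * X ^ 6)).card : ℝ) * (4 * (C2 * c31) * E ^ 8 * Q) := by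
            rw [Finset.sum_const, nsmul_eq_mul]
        _ ≤ _ := by
            have := hPP a ha 31 (by norm_num) 6
            gcongr
    calc ∑ b1 ∈ PP (6 * a.natAbs) (1 * X ^ 3), ∑ w ∈ PP (6 * a.natAbs) (31 * X ^ 6),
          ∑ d ∈ D, ((FM X Z a b1 w d).card : ℝ)
        ≤ ∑ b1 ∈ PP (6 * a.natAbs) (1 * X ^ 3),
          (C1 * c31 * c6 * E ^ 8) * (4 * (C2 * c31) * E ^ 8 * Q) := Finset.sum_le_sum h1
      _ = ((PP (6 * a.natAbs) (1 * X ^ 3)).card : ℝ) *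
          ((C1 * c31 * c6 * E ^ 8) * (4 * (C2 * c31) * E ^ 8 * Q)) := by
          rw [Finset.sum_const, nsmul_eq_mul]
      _ ≤ (C1 * 1 ^ e * c6 * E ^ 5) *
          ((C1 * c31 * c6 * E ^ 8) * (4 * (C2 * c31) * E ^ 8 * Q)) := by
          have := hPP a ha 1 le_rfl 3
          gcongr
      _ = _ := by
          rw [Real.one_rpow, hK]
          ring
  -- the sum over `a`
  have hcA : (A.card : ℝ) ≤ 3 * X ^ 2 :=
    le_trans (by exact_mod_cast Finset.card_filter_le _ _) (card_Icc_le hX2)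
  have hsa : ∑ a ∈ A, ∑ b1 ∈ PP (6 * a.natAbs) (1 * X ^ 3), ∑ w ∈ PP (6 * a.natAbs) (31 * X ^ 6),
      ∑ d ∈ D, ((FM X Z a b1 w d).card : ℝ) ≤ K * K' * X ^ ε * (X ^ 2 * YY X Z + X ^ (4 : ℝ)) := by
    refine (Finset.sum_le_sum hsbw).trans ?_
    rw [← Finset.mul_sum, Finset.sum_add_distrib, Finset.sum_const, nsmul_eq_mul]
    have h1 : ∑ a ∈ A, 80 * C3 * (c0 * qq a.natAbs * YY X Z) =
        80 * C3 * c0 * YY X Z * ∑ a ∈ A, qq a.natAbs := by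
      rw [Finset.mul_sum]
      refine Finset.sum_congr rfl fun a _ => ?_
      ring
    rw [h1]
    have h2 := sum_qq hC3 hsum he0 hX
    rw [pow_rpow_comm hX0.le, ← hE, ← hA] at h2
    have hE2 : 1 ≤ E ^ 2 := one_le_pow₀ hE1
    have hEX : E ^ 23 ≤ X ^ ε := by
      have h3 : X ^ ε = E ^ 25 := by
        rw [hE, ← Real.rpow_natCast, ← Real.rpow_mul hX0.le, he]
        congr 1
        push_cast
        ring
      rw [h3]
      exact pow_le_pow_right₀ hE1 (by norm_num)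
    have h4 : X ^ (4 : ℝ) = X ^ 2 * X ^ 2 := by
      rw [show (4 : ℝ) = ((4 : ℕ) : ℝ) by norm_num, Real.rpow_natCast]
      ring
    rw [h4]
    calc K * E ^ 21 * (80 * C3 * c0 * YY X Z * ∑ a ∈ A, qq a.natAbs +
          (A.card : ℝ) * ((4960 * C3 + 1) * X ^ 2))
        ≤ K * E ^ 21 * (80 * C3 * c0 * YY X Z * (2 * C3 * E ^ 2 * X ^ 2) +
          (3 * X ^ 2) * ((4960 * C3 + 1) * X ^ 2) * E ^ 2) := by
          have h5 : (A.card : ℝ) * ((4960 * C3 + 1) * X ^ 2) ≤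
              (3 * X ^ 2) * ((4960 * C3 + 1) * X ^ 2) * E ^ 2 := by
            calc (A.card : ℝ) * ((4960 * C3 + 1) * X ^ 2) ≤
                (3 * X ^ 2) * ((4960 * C3 + 1) * X ^ 2) * 1 := by
                  rw [mul_one]
                  gcongr
              _ ≤ _ := by gcongr
          gcongr
      _ = K * E ^ 23 * (160 * C3 ^ 2 * c0 * (X ^ 2 * YY X Z) + 3 * (4960 * C3 + 1) * (X ^ 2 * X ^ 2)) := by
          ring
      _ ≤ K * X ^ ε * (160 * C3 ^ 2 * c0 * (X ^ 2 * YY X Z) + 3 * (4960 * C3 + 1) * (X ^ 2 * X ^ 2)) := by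
          gcongr
      _ ≤ K * X ^ ε * (K' * (X ^ 2 * YY X Z) + K' * (X ^ 2 * X ^ 2)) := by
          have h6 : 160 * C3 ^ 2 * c0 ≤ K' := by
            rw [hK']
            have : 0 ≤ 3 * (4960 * C3 + 1) := by positivity
            linarith
          have h7 : 3 * (4960 * C3 + 1) ≤ K' := by
            rw [hK']
            have : 0 ≤ 160 * C3 ^ 2 * c0 := by positivity
            linarith
          gcongr
      _ = _ := by ring
  -- the covering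
  set F1 := A.biUnion fun a => (PP (6 * a.natAbs) (1 * X ^ 3)).biUnion fun b1 =>
    (PP (6 * a.natAbs) (31 * X ^ 6)).biUnion fun w => D.biUnion fun d =>
      (FM X Z a b1 w d).image fun x => (a, (b1 : ℤ) * x) with hF1
  set F2 := ((Finset.Icc (-⌊X ^ 2⌋) ⌊X ^ 2⌋) ×ˢ (Finset.Icc (-⌊X ^ 3⌋) ⌊X ^ 3⌋)).filter
      (fun q : ℤ × ℤ => R5 X q.1 q.2) with hF2
  set F3 := ((Finset.Icc (-⌊X ^ 3⌋) ⌊X ^ 3⌋).image fun b => ((0 : ℤ), b)) ∪
    ((Finset.Icc (-⌊X ^ 2⌋) ⌊X ^ 2⌋).image fun a => (a, (0 : ℤ))) with hF3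
  have hsub : TopM Z X ⊆ ((F1 ∪ F2 ∪ F3 : Finset (ℤ × ℤ)) : Set (ℤ × ℤ)) := by
    rintro ⟨a, b⟩ ⟨hDs, hmin, hbox, htop, hC⟩
    simp only at hDs hmin hbox htop hC
    have hax : |(a : ℝ)| ≤ X ^ 2 := hbox.1
    have hbx : |(b : ℝ)| ≤ X ^ 3 := hbox.2
    rw [Finset.mem_coe, Finset.mem_union, Finset.mem_union]
    by_cases ha : a = 0
    · right
      rw [hF3, Finset.mem_union]
      left
      rw [Finset.mem_image]
      exact ⟨b, mem_of_abs_le hbx, by rw [ha]⟩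
    by_cases hb : b = 0
    · right
      rw [hF3, Finset.mem_union]
      right
      rw [Finset.mem_image]
      exact ⟨a, mem_of_abs_le hax, by rw [hb]⟩
    left
    rcases reduction4' hZ hX ha hb hDs hax hbx htop hC with h | ⟨b1, w, d, x, h1, h2, h3, h4, h5, h6,
      h7, h8, h9, h10⟩
    · right
      rw [hF2, Finset.mem_filter, Finset.mem_product]
      exact ⟨⟨mem_of_abs_le hax, mem_of_abs_le hbx⟩, ha, hDs, h⟩
    · left
      rw [hF1, Finset.mem_biUnion]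
      refine ⟨a, Finset.mem_filter.2 ⟨mem_of_abs_le hax, ha⟩, ?_⟩
      rw [Finset.mem_biUnion]
      refine ⟨b1, Finset.mem_filter.2 ⟨Finset.mem_Icc.2 ⟨h2, Nat.le_floor (by rw [one_mul]; exact h3)⟩,
        h4⟩, ?_⟩
      rw [Finset.mem_biUnion]
      refine ⟨w, Finset.mem_filter.2 ⟨Finset.mem_Icc.2 ⟨h5, Nat.le_floor h6⟩, h7⟩, ?_⟩
      rw [Finset.mem_biUnion]
      refine ⟨d, Finset.mem_Icc.2 ⟨h8, Nat.le_floor h9⟩, ?_⟩
      rw [Finset.mem_image]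
      refine ⟨x, Finset.mem_filter.2 ⟨?_, h10, ?_⟩, by rw [h1]⟩
      · apply mem_of_abs_le
        refine le_trans ?_ hbx
        rw [h1]
        push_cast
        rw [abs_mul, Nat.abs_cast]
        have : (1 : ℝ) ≤ b1 := by exact_mod_cast h2
        have := abs_nonneg (x : ℝ)
        nlinarith
      · intro p hp hpp
        refine hmin p hp ⟨?_, ?_⟩
        · have := Int.natCast_dvd.2 hpp.1
          push_cast at this
          exact this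
        · rw [h1]
          have : (((p ^ 6 : ℕ) : ℤ)) ∣ (b1 : ℤ) := Int.natCast_dvd_natCast.2 hpp.2
          push_cast at this
          exact Dvd.dvd.mul_right this _
  have hcard : ((TopM Z X).ncard : ℝ) ≤ (F1.card : ℝ) + F2.card + F3.card := by
    have e1 := Set.ncard_le_ncard hsub (Finset.finite_toSet _)
    rw [Set.ncard_coe_finset] at e1
    have e2 := Finset.card_union_le F1 F2
    have e3 := Finset.card_union_le (F1 ∪ F2) F3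
    have e4 : (TopM Z X).ncard ≤ F1.card + F2.card + F3.card := by omega
    exact_mod_cast e4
  have hF1c : (F1.card : ℝ) ≤ K * K' * X ^ ε * (X ^ 2 * YY X Z + X ^ (4 : ℝ)) := by
    refine le_trans ?_ hsa
    have e1 : F1.card ≤ ∑ a ∈ A, ∑ b1 ∈ PP (6 * a.natAbs) (1 * X ^ 3),
        ∑ w ∈ PP (6 * a.natAbs) (31 * X ^ 6), ∑ d ∈ D, (FM X Z a b1 w d).card := by
      refine Finset.card_biUnion_le.trans (Finset.sum_le_sum fun a _ => ?_)
      refine Finset.card_biUnion_le.trans (Finset.sum_le_sum fun b1 _ => ?_)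
      refine Finset.card_biUnion_le.trans (Finset.sum_le_sum fun w _ => ?_)
      exact Finset.card_biUnion_le.trans (Finset.sum_le_sum fun d _ => Finset.card_image_le)
    exact_mod_cast e1
  have hF2c : (F2.card : ℝ) ≤ C4 * X ^ ε * X ^ (4 : ℝ) := hR5 X hX
  have hF3c : (F3.card : ℝ) ≤ 6 * X ^ (4 : ℝ) := by
    have e1 : F3.card ≤ (Finset.Icc (-⌊X ^ 3⌋) ⌊X ^ 3⌋).card + (Finset.Icc (-⌊X ^ 2⌋) ⌊X ^ 2⌋).card :=
      (Finset.card_union_le _ _).trans (add_le_add Finset.card_image_le Finset.card_image_le)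
    have e2 : (F3.card : ℝ) ≤ 3 * X ^ 3 + 3 * X ^ 2 := by
      have h1 := card_Icc_le hX3
      have h2 := card_Icc_le hX2
      have h3 : (F3.card : ℝ) ≤ ((Finset.Icc (-⌊X ^ 3⌋) ⌊X ^ 3⌋).card : ℝ) +
        ((Finset.Icc (-⌊X ^ 2⌋) ⌊X ^ 2⌋).card : ℝ) := by exact_mod_cast e1
      linarith
    refine e2.trans ?_
    rw [show (4 : ℝ) = ((4 : ℕ) : ℝ) by norm_num, Real.rpow_natCast]
    have h1 : X ^ 3 ≤ X ^ 4 := pow_le_pow_right₀ hX (by norm_num)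
    have h2 : X ^ 2 ≤ X ^ 4 := pow_le_pow_right₀ hX (by norm_num)
    linarith
  have hXe : 1 ≤ X ^ ε := Real.one_le_rpow hX hε.le
  have p3 : 0 < X ^ (4 : ℝ) := Real.rpow_pos_of_pos hX0 _
  have p4 : 0 ≤ X ^ 2 * YY X Z := by positivity
  have p5 : 6 * X ^ (4 : ℝ) ≤ 6 * X ^ ε * X ^ (4 : ℝ) := by
    have : 1 * X ^ (4 : ℝ) ≤ X ^ ε * X ^ (4 : ℝ) := by gcongr
    linarith
  have p6 : 0 ≤ C4 * X ^ ε * (X ^ 2 * YY X Z) := by positivity
  have p7 : 0 ≤ 6 * X ^ ε * (X ^ 2 * YY X Z) := by positivity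
  calc ((TopM Z X).ncard : ℝ) ≤ K * K' * X ^ ε * (X ^ 2 * YY X Z + X ^ (4 : ℝ)) +
        C4 * X ^ ε * X ^ (4 : ℝ) + 6 * X ^ ε * X ^ (4 : ℝ) := by linarith
    _ ≤ (K * K' + C4 + 6) * X ^ ε * (X ^ 2 * YY X Z + X ^ (4 : ℝ)) := by
        have e1 : (K * K' + C4 + 6) * X ^ ε * (X ^ 2 * YY X Z + X ^ (4 : ℝ)) =
            K * K' * X ^ ε * (X ^ 2 * YY X Z + X ^ (4 : ℝ)) + C4 * X ^ ε * (X ^ 2 * YY X Z) +
            C4 * X ^ ε * X ^ (4 : ℝ) + 6 * X ^ ε * (X ^ 2 * YY X Z) + 6 * X ^ ε * X ^ (4 : ℝ) := by ring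
        rw [e1]
        linarith

end Pool.Agent.X12.Szp
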