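import Pool.Agent.X12.Szp23

/-!
# All elliptic curves over `ℚ`: the discriminant against the bad primes, the lower bound
-/

set_option autoImplicit false

namespace Pool.Agent.X12.Szp

open Finset Filter Topology Pool.Agent.H328R2.ABC

/-- the twisting factors -/
lemma sqf_count' {P : ℝ} (hP : 1 / 2 ≤ P) :
    P / 2 ≤ (((Finset.Icc 1 ⌊8 * P⌋₊).filter fun m : ℕ => Squarefree m ∧ P < m).card : ℝ) := by
  classical
  have h1 := sqf_count ⌊8 * P⌋₊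
  have h2 : (Finset.Icc 1 ⌊8 * P⌋₊).filter Squarefree ⊆
      ((Finset.Icc 1 ⌊8 * P⌋₊).filter fun m : ℕ => Squarefree m ∧ P < m) ∪ Finset.Icc 1 ⌊P⌋₊ := by
    intro m hm
    rw [Finset.mem_filter, Finset.mem_Icc] at hm
    rw [Finset.mem_union, Finset.mem_filter, Finset.mem_Icc, Finset.mem_Icc]
    rcases lt_or_ge P (m : ℝ) with h | h
    · exact Or.inl ⟨hm.1, hm.2, h⟩
    · exact Or.inr ⟨hm.1.1, Nat.le_floor h⟩
  have h3 := (Finset.card_le_card h2).trans (Finset.card_union_le _ _)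
  rw [Nat.card_Icc, Nat.add_sub_cancel] at h3
  have h4 : (((Finset.Icc 1 ⌊8 * P⌋₊).filter Squarefree).card : ℝ) ≤
      (((Finset.Icc 1 ⌊8 * P⌋₊).filter fun m : ℕ => Squarefree m ∧ P < m).card : ℝ) +
        (⌊P⌋₊ : ℝ) := by
    exact_mod_cast h3
  have h5 : (⌊P⌋₊ : ℝ) ≤ P := Nat.floor_le (by linarith)
  have h6 : 8 * P - 1 < (⌊8 * P⌋₊ : ℝ) := Nat.sub_one_lt_floor _
  linarith

set_option maxHeartbeats 1000000 in
theorem HM_lowerX (c κ ε : ℝ) (hc : 0 < c) (hκ : 1 ≤ κ) (hκ6 : κ < 6) (hε : 0 < ε) :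
    ∃ X₀ : ℝ, ∀ X : ℝ, X₀ ≤ X →
      X ^ (1 / 5 + 24 / (5 * κ) - ε) ≤ ((HM c κ (27 * X ^ 6)).ncard : ℝ) := by
  classical
  have hκ0 : 0 < κ := by linarith
  set θ : ℝ := 6 * (κ - 1) / (5 * κ) with hθ
  set ϑ : ℝ := (6 - κ) / (5 * κ) with hϑ
  have hθϑ : θ + ϑ = 1 := by
    rw [hθ, hϑ]
    field_simp
    ring
  have hθ0 : 0 ≤ θ := by
    rw [hθ]
    apply div_nonneg _ (by positivity)
    linarith
  have hϑ0 : 0 < ϑ := by
    rw [hϑ]
    apply div_pos _ (by positivity)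
    linarith
  set K1 : ℝ := 2 + 136048896 * c * 31 ^ (κ - 1) with hK1
  have h31 : (0 : ℝ) < 31 ^ (κ - 1) := by positivity
  have hK12 : 2 ≤ K1 := by
    rw [hK1]
    have : 0 < 136048896 * c * 31 ^ (κ - 1) := by positivity
    linarith
  have hK10 : 0 < K1 := by linarith
  set η : ℝ := min ϑ (ε / 2) with hη
  have hη0 : 0 < η := lt_min hϑ0 (by linarith)
  have hη1 : 2 * η < 3 * ϑ := by
    have : η ≤ ϑ := min_le_left _ _
    linarith
  have hη2 : η < ε := by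
    have : η ≤ ε / 2 := min_le_right _ _
    linarith
  obtain ⟨cc, CC, hcc, hCC, hsieve⟩ := sieve_ge η hη0
  obtain ⟨X1, hfin⟩ := final_num (1 / (6 * (8 * K1) ^ 2)) (1 / (2 * (8 * K1) ^ 3)) cc CC (2 * ϑ)
    (3 * ϑ) ε η (by positivity) (by positivity) hcc hη0 hη1 hη2
  have t1 : Tendsto (fun X : ℝ => X ^ ϑ) atTop atTop := tendsto_rpow_atTop hϑ0
  obtain ⟨X2, hX2⟩ := Filter.eventually_atTop.1 (t1.eventually_ge_atTop (3 * (8 * K1)))
  refine ⟨max X1 (max X2 1), fun X hX => ?_⟩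
  have hXX1 : X1 ≤ X := (le_max_left _ _).trans hX
  have hXX2 : X2 ≤ X := (le_max_left _ _).trans ((le_max_right _ _).trans hX)
  have hX1 : 1 ≤ X := (le_max_right _ _).trans ((le_max_right _ _).trans hX)
  have hX0 : 0 < X := by linarith
  have hXϑ := hX2 X hXX2
  have hXθ1 : 1 ≤ X ^ θ := Real.one_le_rpow hX1 hθ0
  have hXθ0 : 0 < X ^ θ := by linarith
  set P : ℝ := K1 * X ^ θ with hP
  have hP1 : 2 ≤ P := by
    rw [hP]
    nlinarith
  set Q : ℝ := 8 * P with hQ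
  have hQ0 : 0 < Q := by rw [hQ]; linarith
  have hK : 136048896 * c * 31 ^ (κ - 1) * X ^ (6 * (κ - 1)) < P ^ (5 * κ) := by
    rw [hP, Real.mul_rpow hK10.le hXθ0.le, ← Real.rpow_mul hX0.le]
    have e1 : θ * (5 * κ) = 6 * (κ - 1) := by
      rw [hθ]
      field_simp
    rw [e1]
    have e2 : 136048896 * c * 31 ^ (κ - 1) < K1 ^ (5 * κ) := by
      calc 136048896 * c * 31 ^ (κ - 1) < K1 := by rw [hK1]; linarith
        _ = K1 ^ (1 : ℝ) := (Real.rpow_one _).symm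
        _ ≤ K1 ^ (5 * κ) := Real.rpow_le_rpow_of_exponent_le (by linarith) (by linarith)
    have e3 : 0 < X ^ (6 * (κ - 1)) := Real.rpow_pos_of_pos hX0 _
    gcongr
  set Y : ℝ := X / Q with hY
  have hYe : Y = X ^ ϑ / (8 * K1) := by
    rw [hY, hQ, hP]
    have : X = X ^ θ * X ^ ϑ := by rw [← Real.rpow_add hX0, hθϑ, Real.rpow_one]
    nth_rewrite 1 [this]
    field_simp
  have hY3 : 3 ≤ Y := by
    rw [hYe, le_div_iff₀ (by positivity)]
    exact hXϑ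
  have hY0 : 0 < Y := by linarith
  have hYX : Y ≤ X := by
    rw [hY, div_le_iff₀ hQ0]
    have : 1 ≤ Q := by rw [hQ]; linarith
    nlinarith
  have hY2e : Y ^ 2 = X ^ (2 * ϑ) / (8 * K1) ^ 2 := by
    rw [hYe, div_pow, ← Real.rpow_natCast (X ^ ϑ) 2, ← Real.rpow_mul hX0.le]
    congr 2
    push_cast
    ring
  have hY3e : Y ^ 3 = X ^ (3 * ϑ) / (8 * K1) ^ 3 := by
    rw [hYe, div_pow, ← Real.rpow_natCast (X ^ ϑ) 3, ← Real.rpow_mul hX0.le]
    congr 2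
    push_cast
    ring
  set I : ℕ := ⌊Y ^ 2 / 3⌋₊ with hI
  set K : ℕ := ⌊Y ^ 3⌋₊ with hKK
  have hIle : (I : ℝ) ≤ Y ^ 2 / 3 := Nat.floor_le (by positivity)
  have hKle : (K : ℝ) ≤ Y ^ 3 := Nat.floor_le (by positivity)
  have hIge : 1 / (6 * (8 * K1) ^ 2) * X ^ (2 * ϑ) ≤ (I : ℝ) := by
    have h1 : Y ^ 2 / 3 - 1 < (I : ℝ) := Nat.sub_one_lt_floor _
    have h2 : 1 / (6 * (8 * K1) ^ 2) * X ^ (2 * ϑ) = Y ^ 2 / 6 := by
      rw [hY2e]
      field_simp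
    rw [h2]
    nlinarith
  have hKge : 1 / (2 * (8 * K1) ^ 3) * X ^ (3 * ϑ) ≤ (K : ℝ) := by
    have h1 : Y ^ 3 - 1 < (K : ℝ) := Nat.sub_one_lt_floor _
    have h2 : 1 / (2 * (8 * K1) ^ 3) * X ^ (3 * ϑ) = Y ^ 3 / 2 := by
      rw [hY3e]
      field_simp
    rw [h2]
    have h3 : (3 : ℝ) ^ 3 ≤ Y ^ 3 := by gcongr
    linarith
  have hnum := hfin X hXX1 I K hIge hKge
  -- the curves
  set S : Finset ℕ := (Finset.Icc 1 ⌊8 * P⌋₊).filter fun m : ℕ => Squarefree m ∧ P < m with hS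
  set G : Finset (Σ _ : ℕ, ℕ) := (Finset.range I).sigma fun i =>
    (Finset.range K).filter fun k : ℕ => IsCoprime (1 + 1 * k : ℤ) ((3 * i + 1 : ℕ) : ℤ) with hG
  set f : ℕ × (Σ _ : ℕ, ℕ) → ℤ × ℤ := fun t =>
    (((t.1 ^ 2 * (3 * t.2.1 + 1) : ℕ) : ℤ), ((t.1 ^ 3 * (1 + t.2.2) : ℕ) : ℤ)) with hf
  have hcop : ∀ t ∈ S ×ˢ G, Squarefree t.1 ∧ P < t.1 ∧ (t.1 : ℝ) ≤ Q ∧
      Nat.Coprime (3 * t.2.1 + 1) (1 + t.2.2) ∧ t.2.1 < I ∧ t.2.2 < K := by
    intro t ht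
    rw [Finset.mem_product, hS, hG, Finset.mem_filter, Finset.mem_Icc, Finset.mem_sigma,
      Finset.mem_range, Finset.mem_filter, Finset.mem_range] at ht
    obtain ⟨⟨⟨h1, h2⟩, h3, h4⟩, h5, h6, h7⟩ := ht
    refine ⟨h3, h4, ?_, ?_, h5, h6⟩
    · have h8 : ((t.1 : ℕ) : ℝ) ≤ (⌊8 * P⌋₊ : ℝ) := by exact_mod_cast h2
      exact h8.trans (Nat.floor_le (by linarith))
    · have h8 : IsCoprime ((1 + t.2.2 : ℕ) : ℤ) ((3 * t.2.1 + 1 : ℕ) : ℤ) := by
        have : ((1 + t.2.2 : ℕ) : ℤ) = 1 + 1 * (t.2.2 : ℤ) := by push_cast; ring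
        rw [this]
        exact h7
      exact (Nat.isCoprime_iff_coprime.1 h8).symm
  have hinj : Set.InjOn f (S ×ˢ G : Finset _) := by
    rintro ⟨m, i, k⟩ ht ⟨m', i', k'⟩ ht' heq
    obtain ⟨a1, -, -, a4, -, -⟩ := hcop _ ht
    obtain ⟨b1, -, -, b4, -, -⟩ := hcop _ ht'
    simp only at a1 a4 b1 b4
    rw [hf] at heq
    simp only [Prod.mk.injEq] at heq
    obtain ⟨h1, h2⟩ := heq
    have h1' : m ^ 2 * (3 * i + 1) = m' ^ 2 * (3 * i' + 1) := by exact_mod_cast h1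
    have h2' : m ^ 3 * (1 + k) = m' ^ 3 * (1 + k') := by exact_mod_cast h2
    have hmm := twist_inj a1 b1 a4 b4 h1' h2'
    subst hmm
    have hm0 : 0 < m := Nat.pos_of_ne_zero a1.ne_zero
    have h3 := Nat.eq_of_mul_eq_mul_left (by positivity) h1'
    have h4 := Nat.eq_of_mul_eq_mul_left (by positivity) h2'
    have h5 : i = i' := by omega
    have h6 : k = k' := by omega
    rw [h5, h6]
  have hsub : ((S ×ˢ G).image f : Set (ℤ × ℤ)) ⊆ HM c κ (27 * X ^ 6) := by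
    intro q hq
    rw [Finset.mem_coe, Finset.mem_image] at hq
    obtain ⟨⟨m, i, k⟩, ht, rfl⟩ := hq
    obtain ⟨a1, a2, a3, a4, a5, a6⟩ := hcop _ ht
    simp only at a1 a2 a3 a4 a5 a6
    have hi : ((i : ℕ) : ℝ) + 1 ≤ I := by exact_mod_cast a5
    have hk : ((k : ℕ) : ℝ) + 1 ≤ K := by exact_mod_cast a6
    refine twist_mem hc hκ hκ6 (by linarith) hQ hX0 hK a1 a2 a3 a4 (by omega) (by omega)
      (by omega) ?_ ?_
    · push_cast
      rw [← hY]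
      linarith
    · push_cast
      rw [← hY]
      linarith
  have hcard : (S.card : ℝ) * ∑ i ∈ Finset.range I,
      (((Finset.range K).filter fun k : ℕ =>
        IsCoprime (1 + 1 * k : ℤ) ((3 * i + 1 : ℕ) : ℤ)).card : ℝ) ≤
      ((HM c κ (27 * X ^ 6)).ncard : ℝ) := by
    have h1 : (S ×ˢ G).card ≤ (HM c κ (27 * X ^ 6)).ncard := by
      rw [← Finset.card_image_of_injOn hinj, ← Set.ncard_coe_finset]
      exact Set.ncard_le_ncard hsub (HM_finite _ _ _)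
    rw [Finset.card_product, hG, Finset.card_sigma] at h1
    exact_mod_cast h1
  refine le_trans ?_ hcard
  have hSc : P / 2 ≤ (S.card : ℝ) := sqf_count' (by linarith)
  have hsum : (I : ℝ) * (cc * K * X ^ (-η) - CC * X ^ η) ≤ ∑ i ∈ Finset.range I,
      (((Finset.range K).filter fun k : ℕ =>
        IsCoprime (1 + 1 * k : ℤ) ((3 * i + 1 : ℕ) : ℤ)).card : ℝ) := by
    have h1 := Finset.card_nsmul_le_sum (Finset.range I) (fun i =>
      (((Finset.range K).filter fun k : ℕ =>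
        IsCoprime (1 + 1 * k : ℤ) ((3 * i + 1 : ℕ) : ℤ)).card : ℝ))
      (cc * K * X ^ (-η) - CC * X ^ η) (fun i hi => by
        rw [Finset.mem_range] at hi
        have hi' : ((i : ℕ) : ℝ) + 1 ≤ I := by exact_mod_cast hi
        refine hsieve X (3 * i + 1) K 1 1 hX1 (by omega) ?_ isCoprime_one_left
        push_cast
        have h2 : Y ^ 2 ≤ X ^ 2 := by gcongr
        linarith)
    rw [Finset.card_range, nsmul_eq_mul] at h1
    exact h1
  have hpos : 0 < X ^ (2 * ϑ + 3 * ϑ - ε) := Real.rpow_pos_of_pos hX0 _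
  calc X ^ (1 / 5 + 24 / (5 * κ) - ε) = X ^ θ * X ^ (2 * ϑ + 3 * ϑ - ε) := by
        rw [← Real.rpow_add hX0]
        congr 1
        rw [hθ, hϑ]
        field_simp
        ring
    _ ≤ P / 2 * X ^ (2 * ϑ + 3 * ϑ - ε) := by
        have : X ^ θ ≤ P / 2 := by
          rw [hP]
          nlinarith
        exact mul_le_mul_of_nonneg_right this hpos.le
    _ ≤ (S.card : ℝ) * ∑ i ∈ Finset.range I,
      (((Finset.range K).filter fun k : ℕ =>
        IsCoprime (1 + 1 * k : ℤ) ((3 * i + 1 : ℕ) : ℤ)).card : ℝ) :=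
        mul_le_mul hSc (hnum.trans hsum) hpos.le (Nat.cast_nonneg _)

/-- **Lower bound** -/
theorem HM_lower (c κ ε : ℝ) (hc : 0 < c) (hκ : 1 ≤ κ) (hκ6 : κ < 6) (hε : 0 < ε) :
    ∃ H₀ : ℝ, ∀ H : ℝ, H₀ ≤ H → H ^ (1 / 30 + 4 / (5 * κ) - ε) ≤ ((HM c κ H).ncard : ℝ) := by
  obtain ⟨X1, h2⟩ := HM_lowerX c κ (3 * ε) hc hκ hκ6 (by positivity)
  set a : ℝ := (1 / 27) ^ (1 / 6 : ℝ) with ha
  have ha0 : 0 < a := by positivity
  have ha6 : a ^ 6 = 1 / 27 := sixth (by norm_num)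
  set e := 1 / 5 + 24 / (5 * κ) - 3 * ε with he
  have t0 : Tendsto (fun H : ℝ => H ^ (1 / 6 : ℝ)) atTop atTop :=
    tendsto_rpow_atTop (by norm_num)
  have t1 : Tendsto (fun H : ℝ => a * H ^ (1 / 6 : ℝ)) atTop atTop :=
    Tendsto.const_mul_atTop ha0 t0
  have t2 : Tendsto (fun H : ℝ => H ^ (ε / 2)) atTop atTop := tendsto_rpow_atTop (by positivity)
  have hfin : ∀ᶠ H : ℝ in atTop, H ^ (1 / 30 + 4 / (5 * κ) - ε) ≤ ((HM c κ H).ncard : ℝ) := by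
    filter_upwards [t1.eventually_ge_atTop X1, t2.eventually_ge_atTop (1 / a ^ e),
      eventually_ge_atTop 1] with H h3 h4 h5
    have hH0 : 0 < H := by linarith
    have hX0 : 0 ≤ a * H ^ (1 / 6 : ℝ) := by positivity
    have h6 := h2 _ h3
    have e1 : 27 * (a * H ^ (1 / 6 : ℝ)) ^ 6 = H := by
      rw [mul_pow, ha6, sixth hH0.le]
      ring
    rw [e1] at h6
    have hae : 0 < a ^ e := Real.rpow_pos_of_pos ha0 _
    rw [Real.mul_rpow ha0.le (by positivity), ← Real.rpow_mul hH0.le] at h6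
    rw [div_le_iff₀ hae] at h4
    have h10 : H ^ (1 / 6 * e) = H ^ (1 / 30 + 4 / (5 * κ) - ε) * H ^ (ε / 2) := by
      rw [← Real.rpow_add hH0, he]
      congr 1
      ring
    rw [h10] at h6
    have h11 : 0 < H ^ (1 / 30 + 4 / (5 * κ) - ε) := Real.rpow_pos_of_pos hH0 _
    nlinarith
  obtain ⟨H₀, hH₀⟩ := Filter.eventually_atTop.1 hfin
  exact ⟨H₀, hH₀⟩

end Pool.Agent.X12.Szp
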