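import Pool.Agent.X12.Szp2

/-!
# Pairs `(a, b)` for which `a³ - b²` is divisible by a large square
-/

set_option autoImplicit false

namespace Pool.Agent.X12.Szp

open Finset Pool.Agent.H328R2.ABC

lemma card_Icc_le {Y : ℝ} (hY : 1 ≤ Y) : ((Finset.Icc (-⌊Y⌋) ⌊Y⌋).card : ℝ) ≤ 3 * Y := by
  have e0 : 0 ≤ ⌊Y⌋ := Int.floor_nonneg.2 (by linarith)
  have e1 : ((Finset.Icc (-⌊Y⌋) ⌊Y⌋).card : ℤ) = 2 * ⌊Y⌋ + 1 := by
    rw [Int.card_Icc, Int.toNat_of_nonneg (by linarith)]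
    ring
  have e2 : ((Finset.Icc (-⌊Y⌋) ⌊Y⌋).card : ℝ) = 2 * (⌊Y⌋ : ℝ) + 1 := by exact_mod_cast e1
  have e3 : (⌊Y⌋ : ℝ) ≤ Y := Int.floor_le _
  linarith

lemma abs_le_of_mem {Y : ℝ} {a : ℤ} (h : a ∈ Finset.Icc (-⌊Y⌋) ⌊Y⌋) : |(a : ℝ)| ≤ Y := by
  rw [Finset.mem_Icc] at h
  have h1 : |a| ≤ ⌊Y⌋ := abs_le.2 h
  have h2 : ((|a| : ℤ) : ℝ) ≤ (⌊Y⌋ : ℝ) := by exact_mod_cast h1
  rw [Int.cast_abs] at h2
  exact h2.trans (Int.floor_le _)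

lemma mem_of_abs_le {Y : ℝ} {a : ℤ} (h : |(a : ℝ)| ≤ Y) : a ∈ Finset.Icc (-⌊Y⌋) ⌊Y⌋ := by
  rw [Finset.mem_Icc, ← abs_le]
  apply Int.le_floor.2
  rw [Int.cast_abs]
  exact h

/-- the pairs with a large square -/
def R2 (X : ℝ) (a b : ℤ) : Prop :=
  a ≠ 0 ∧ a ^ 3 ≠ b ^ 2 ∧ ∃ p : ℕ, X ^ 2 < p ∧ (p : ℤ) ^ 2 ∣ a ^ 3 - b ^ 2

/-- the points of the conic -/
def conicSet (Z : ℕ) (a m : ℤ) : Set (ℤ × ℤ) :=
  {p : ℤ × ℤ | p.1 ^ 2 - (-m) * p.2 ^ 2 = a ^ 3 ∧ |p.1| ≤ (Z : ℤ) ∧ |p.2| ≤ (Z : ℤ)}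

lemma conicSet_finite (Z : ℕ) (a m : ℤ) : (conicSet Z a m).Finite := by
  refine Set.Finite.subset (Finset.finite_toSet ((Finset.Icc (-(Z : ℤ)) Z) ×ˢ
    (Finset.Icc (-(Z : ℤ)) Z))) ?_
  rintro p ⟨-, h1, h2⟩
  rw [Finset.mem_coe, Finset.mem_product, Finset.mem_Icc, Finset.mem_Icc, ← abs_le, ← abs_le]
  exact ⟨h1, h2⟩

open scoped Classical in
theorem count_R2 (ε : ℝ) (hε : 0 < ε) : ∃ C : ℝ, 0 < C ∧ ∀ (X : ℝ), 1 ≤ X →
    ((((Finset.Icc (-⌊X ^ 2⌋) ⌊X ^ 2⌋) ×ˢ (Finset.Icc (-⌊X ^ 3⌋) ⌊X ^ 3⌋)).filter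
      (fun q : ℤ × ℤ => R2 X q.1 q.2)).card : ℝ) ≤ C * X ^ ε * X ^ (4 : ℝ) := by
  obtain ⟨C₁, hC₁, hpell⟩ := Pool.Agent.Y900.PC.pellgen (ε / 13) (by positivity)
  refine ⟨18 * C₁ * 8 ^ (ε / 13), by positivity, ?_⟩
  intro X hX
  have hX0 : 0 < X := by linarith
  have hX2 : (1 : ℝ) ≤ X ^ 2 := one_le_pow₀ hX
  have hX3 : (1 : ℝ) ≤ X ^ 3 := one_le_pow₀ hX
  set A := Finset.Icc (-⌊X ^ 2⌋) ⌊X ^ 2⌋ with hA
  set B := Finset.Icc (-⌊X ^ 3⌋) ⌊X ^ 3⌋ with hB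
  set M := Finset.Icc (-⌊2 * X ^ 2⌋) ⌊2 * X ^ 2⌋ with hM
  set Z := ⌊2 * X ^ 3⌋₊ with hZ
  have hZ1 : 1 ≤ Z := Nat.le_floor (by push_cast; linarith)
  have hZX : (Z : ℝ) ≤ 2 * X ^ 3 := Nat.floor_le (by positivity)
  have h1 : ((A ×ˢ B).filter (fun q : ℤ × ℤ => R2 X q.1 q.2)) ⊆
      (A.filter (fun a => a ≠ 0)).biUnion fun a => (M.filter (fun m => m ≠ 0)).biUnion fun m =>
        (conicSet_finite Z a m).toFinset.image fun p => (a, p.1) := by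
    rintro ⟨a, b⟩ hq
    rw [Finset.mem_filter, Finset.mem_product] at hq
    obtain ⟨⟨ha, hb⟩, ha0, hab, p, hp, m, hm⟩ := hq
    simp only at ha hb ha0 hab hm
    have hax := abs_le_of_mem ha
    have hbx := abs_le_of_mem hb
    have hp0 : (0 : ℝ) < p := by linarith
    have hm0 : m ≠ 0 := by
      rintro rfl
      rw [mul_zero, sub_eq_zero] at hm
      exact hab hm
    have hT : |(a : ℝ) ^ 3 - (b : ℝ) ^ 2| ≤ 2 * X ^ 6 := by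
      have e1 : |(a : ℝ) ^ 3| ≤ X ^ 6 := by
        rw [abs_pow]
        calc |(a : ℝ)| ^ 3 ≤ (X ^ 2) ^ 3 := by gcongr
          _ = X ^ 6 := by ring
      have e2 : |(b : ℝ) ^ 2| ≤ X ^ 6 := by
        rw [abs_pow]
        calc |(b : ℝ)| ^ 2 ≤ (X ^ 3) ^ 2 := by gcongr
          _ = X ^ 6 := by ring
      have e3 := abs_sub ((a : ℝ) ^ 3) ((b : ℝ) ^ 2)
      linarith
    have hmr : (a : ℝ) ^ 3 - (b : ℝ) ^ 2 = (p : ℝ) ^ 2 * m := by exact_mod_cast hm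
    rw [hmr, abs_mul, abs_of_nonneg (by positivity : (0 : ℝ) ≤ (p : ℝ) ^ 2)] at hT
    have hm1 : (1 : ℝ) ≤ |(m : ℝ)| := by
      have : (1 : ℤ) ≤ |m| := Int.one_le_abs hm0
      exact_mod_cast this
    have hpp : (X ^ 2) ^ 2 < (p : ℝ) ^ 2 := by gcongr
    have hmM : |(m : ℝ)| ≤ 2 * X ^ 2 := by
      by_contra hcon
      push Not at hcon
      have : (X ^ 2) ^ 2 * (2 * X ^ 2) < (p : ℝ) ^ 2 * |(m : ℝ)| := by gcongr
      nlinarith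
    have hpZ : (p : ℝ) ≤ 2 * X ^ 3 := by
      by_contra hcon
      push Not at hcon
      have h5 : (2 * X ^ 3) ^ 2 * 1 < (p : ℝ) ^ 2 * |(m : ℝ)| := by
        calc (2 * X ^ 3) ^ 2 * 1 < (p : ℝ) ^ 2 * 1 := by gcongr
          _ ≤ (p : ℝ) ^ 2 * |(m : ℝ)| := by gcongr
      have h6 : 0 < X ^ 6 := by positivity
      nlinarith
    rw [Finset.mem_biUnion]
    refine ⟨a, Finset.mem_filter.2 ⟨ha, ha0⟩, ?_⟩
    rw [Finset.mem_biUnion]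
    refine ⟨m, Finset.mem_filter.2 ⟨mem_of_abs_le hmM, hm0⟩, ?_⟩
    rw [Finset.mem_image]
    refine ⟨(b, (p : ℤ)), ?_, rfl⟩
    rw [Set.Finite.mem_toFinset]
    refine ⟨?_, ?_, ?_⟩
    · simp only
      linarith
    · simp only
      have e1 : |b| ≤ ⌊X ^ 3⌋ := by
        rw [hB, Finset.mem_Icc] at hb
        exact abs_le.2 hb
      have e2 : ((⌊X ^ 3⌋ : ℤ) : ℝ) ≤ X ^ 3 := Int.floor_le _
      have e3 : ⌊X ^ 3⌋.toNat ≤ Z := by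
        apply Nat.le_floor
        have e4 : (((⌊X ^ 3⌋.toNat : ℕ) : ℤ) : ℝ) = ((⌊X ^ 3⌋ : ℤ) : ℝ) := by
          rw [Int.toNat_of_nonneg (Int.floor_nonneg.2 (by positivity))]
        have e5 : ((⌊X ^ 3⌋.toNat : ℕ) : ℝ) = ((⌊X ^ 3⌋ : ℤ) : ℝ) := by exact_mod_cast e4
        rw [e5]
        linarith
      have e6 : ⌊X ^ 3⌋ ≤ ((⌊X ^ 3⌋.toNat : ℕ) : ℤ) := Int.self_le_toNat _
      have e7 : ((⌊X ^ 3⌋.toNat : ℕ) : ℤ) ≤ (Z : ℤ) := by exact_mod_cast e3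
      linarith
    · simp only [Nat.abs_cast]
      have : p ≤ Z := Nat.le_floor hpZ
      exact_mod_cast this
  have h2 : ∀ a ∈ A.filter (fun a => a ≠ 0), ∀ m ∈ M.filter (fun m => m ≠ 0),
      (((conicSet_finite Z a m).toFinset.image fun p => (a, p.1)).card : ℝ) ≤
        C₁ * (8 ^ (ε / 13) * X ^ ε) := by
    intro a ha m hm
    rw [Finset.mem_filter] at ha hm
    have hax := abs_le_of_mem ha.1
    have hmx := abs_le_of_mem hm.1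
    have e1 : (((conicSet_finite Z a m).toFinset.image fun p => (a, p.1)).card : ℝ) ≤
        ((conicSet Z a m).ncard : ℝ) := by
      rw [Set.ncard_eq_toFinset_card _ (conicSet_finite Z a m)]
      exact_mod_cast Finset.card_image_le
    refine e1.trans ((hpell (-m) (a ^ 3) (neg_ne_zero.2 hm.2) (pow_ne_zero 3 ha.2) Z hZ1).trans ?_)
    refine mul_le_mul_of_nonneg_left ?_ hC₁.le
    have e2 : |((-m : ℤ) : ℝ)| ^ 2 * |((a ^ 3 : ℤ) : ℝ)| * (Z : ℝ) ≤ 8 * X ^ 13 := by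
      push_cast
      rw [abs_neg, abs_pow]
      calc |(m : ℝ)| ^ 2 * |(a : ℝ)| ^ 3 * (Z : ℝ) ≤ (2 * X ^ 2) ^ 2 * (X ^ 2) ^ 3 * (2 * X ^ 3) := by
            gcongr
        _ = 8 * X ^ 13 := by ring
    refine (Real.rpow_le_rpow (by positivity) e2 (by positivity)).trans (le_of_eq ?_)
    rw [Real.mul_rpow (by norm_num) (by positivity)]
    congr 1
    rw [← Real.rpow_natCast X 13, ← Real.rpow_mul hX0.le]
    congr 1
    push_cast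
    ring
  have hK0 : 0 ≤ C₁ * (8 ^ (ε / 13) * X ^ ε) := by positivity
  have hcA : ((A.filter (fun a => a ≠ 0)).card : ℝ) ≤ 3 * X ^ 2 :=
    le_trans (by exact_mod_cast Finset.card_filter_le _ _) (card_Icc_le hX2)
  have hcM : ((M.filter (fun m => m ≠ 0)).card : ℝ) ≤ 6 * X ^ 2 := by
    have := card_Icc_le (Y := 2 * X ^ 2) (by linarith)
    have h3 : ((M.filter (fun m => m ≠ 0)).card : ℝ) ≤ (M.card : ℝ) := by
      exact_mod_cast Finset.card_filter_le _ _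
    linarith
  calc ((((A ×ˢ B).filter (fun q : ℤ × ℤ => R2 X q.1 q.2)).card : ℕ) : ℝ)
      ≤ ∑ a ∈ A.filter (fun a => a ≠ 0), ∑ m ∈ M.filter (fun m => m ≠ 0),
        (((conicSet_finite Z a m).toFinset.image fun p => (a, p.1)).card : ℝ) := by
        have e1 := (Finset.card_le_card h1).trans (Finset.card_biUnion_le.trans
          (Finset.sum_le_sum fun a _ => Finset.card_biUnion_le))
        exact_mod_cast e1
    _ ≤ ∑ a ∈ A.filter (fun a => a ≠ 0), ∑ m ∈ M.filter (fun m => m ≠ 0),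
        C₁ * (8 ^ (ε / 13) * X ^ ε) :=
        Finset.sum_le_sum fun a ha => Finset.sum_le_sum fun m hm => h2 a ha m hm
    _ = (A.filter (fun a => a ≠ 0)).card * ((M.filter (fun m => m ≠ 0)).card *
        (C₁ * (8 ^ (ε / 13) * X ^ ε))) := by
        rw [Finset.sum_const, Finset.sum_const, nsmul_eq_mul, nsmul_eq_mul]
    _ ≤ (3 * X ^ 2) * ((6 * X ^ 2) * (C₁ * (8 ^ (ε / 13) * X ^ ε))) := by gcongr
    _ = _ := by
        rw [show (4 : ℝ) = ((4 : ℕ) : ℝ) by norm_num, Real.rpow_natCast]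
        ring

end Pool.Agent.X12.Szp
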