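import Pool.Agent.X12.Szp3

/-!
# The exceptional set in Szpiro's inequality for semistable curves: the upper bound
-/

set_option autoImplicit false

namespace Pool.Agent.X12.Szp

open Finset Pool.Agent.H328R2.ABC

/-- the semistable curves in the box with `N ^ κ < |Δ|` -/
def Exc (κ X : ℝ) : Set (ℤ × ℤ) :=
  {q | ∃ W : WeierstrassCurve ℤ, W.Δ ≠ 0 ∧ IsCoprime W.c₄ W.Δ ∧ q = (W.c₄, W.c₆) ∧
    |(W.c₄ : ℝ)| ≤ X ^ 2 ∧ |(W.c₆ : ℝ)| ≤ X ^ 3 ∧ (rad W.Δ.natAbs : ℝ) ^ κ < |(W.Δ : ℝ)|}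

theorem Exc_finite (κ X : ℝ) : (Exc κ X).Finite := by
  refine Set.Finite.subset (Finset.finite_toSet ((Finset.Icc (-⌊X ^ 2⌋) ⌊X ^ 2⌋) ×ˢ
    (Finset.Icc (-⌊X ^ 3⌋) ⌊X ^ 3⌋))) ?_
  rintro q ⟨W, -, -, rfl, h1, h2, -⟩
  rw [Finset.mem_coe, Finset.mem_product]
  exact ⟨mem_of_abs_le h1, mem_of_abs_le h2⟩

theorem Exc_mono {κ κ' X : ℝ} (h : κ ≤ κ') : Exc κ' X ⊆ Exc κ X := by
  rintro q ⟨W, h1, h2, h3, h4, h5, h6⟩
  refine ⟨W, h1, h2, h3, h4, h5, lt_of_le_of_lt ?_ h6⟩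
  refine Real.rpow_le_rpow_of_exponent_le ?_ h
  exact_mod_cast rad_pos _

theorem disc_le {W : WeierstrassCurve ℤ} {X : ℝ} (h1 : |(W.c₄ : ℝ)| ≤ X ^ 2)
    (h2 : |(W.c₆ : ℝ)| ≤ X ^ 3) : |(W.Δ : ℝ)| ≤ X ^ 6 := by
  have hrel : 1728 * (W.Δ : ℝ) = (W.c₄ : ℝ) ^ 3 - (W.c₆ : ℝ) ^ 2 := by exact_mod_cast W.c_relation
  have e1 : |(W.c₄ : ℝ) ^ 3| ≤ X ^ 6 := by
    rw [abs_pow]
    calc |(W.c₄ : ℝ)| ^ 3 ≤ (X ^ 2) ^ 3 := by gcongr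
      _ = X ^ 6 := by ring
  have e2 : |(W.c₆ : ℝ) ^ 2| ≤ X ^ 6 := by
    rw [abs_pow]
    calc |(W.c₆ : ℝ)| ^ 2 ≤ (X ^ 3) ^ 2 := by gcongr
      _ = X ^ 6 := by ring
  have e3 := abs_sub ((W.c₄ : ℝ) ^ 3) ((W.c₆ : ℝ) ^ 2)
  have e4 : 1728 * |(W.Δ : ℝ)| = |(W.c₄ : ℝ) ^ 3 - (W.c₆ : ℝ) ^ 2| := by
    rw [← hrel, abs_mul]
    norm_num
  have e5 : 0 ≤ |(W.Δ : ℝ)| := abs_nonneg _
  linarith

/-- the reduction to the two counting problems -/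
theorem reduction {κ X : ℝ} (hκ : 1 ≤ κ) (hκ' : κ ≤ 6 / 5) (hX : 1 ≤ X) {q : ℤ × ℤ}
    (hq : q ∈ Exc κ X) : R2 X q.1 q.2 ∨ ∃ d : ℕ, 1 ≤ d ∧ (d : ℝ) ≤ X ^ 2 ∧
      R1 X (3 - 6 * (1 - 1 / κ)) d q.1 q.2 := by
  obtain ⟨W, h0, hcop, rfl, h4, h6, hN⟩ := hq
  have hX0 : 0 < X := by linarith
  have hκ0 : 0 < κ := by linarith
  set n := W.Δ.natAbs with hn
  have hn1 : 1 ≤ n := by omega
  have hnr : (n : ℝ) = |(W.Δ : ℝ)| := by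
    rw [hn, Nat.cast_natAbs]
    push_cast
    rfl
  have hnX : (n : ℝ) ≤ X ^ 6 := by rw [hnr]; exact disc_le h4 h6
  have hnpos : (0 : ℝ) < n := by exact_mod_cast hn1
  have hn1' : (1 : ℝ) ≤ n := by exact_mod_cast hn1
  have hrpos : (0 : ℝ) < rad n := by exact_mod_cast rad_pos n
  set θ := 1 - 1 / κ with hθ
  have h1κ : 1 / κ ≤ 1 := by
    rw [div_le_one hκ0]
    exact hκ
  have h1κ' : 5 / 6 ≤ 1 / κ := by
    rw [le_div_iff₀ hκ0]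
    linarith
  have hθ0 : 0 ≤ θ := by linarith
  have hθ1 : θ ≤ 1 / 6 := by linarith
  have hX6 : X ^ 6 = X ^ (6 : ℝ) := by
    rw [show (6 : ℝ) = ((6 : ℕ) : ℝ) by norm_num, Real.rpow_natCast]
  have ht : (n : ℝ) ^ θ ≤ X := by
    calc (n : ℝ) ^ θ ≤ (X ^ 6) ^ θ := Real.rpow_le_rpow hnpos.le hnX hθ0
      _ = X ^ (6 * θ) := by rw [hX6, ← Real.rpow_mul hX0.le]
      _ ≤ X ^ (1 : ℝ) := Real.rpow_le_rpow_of_exponent_le hX (by linarith)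
      _ = X := Real.rpow_one X
  have hquot : (n : ℝ) ^ θ ≤ ((n / rad n : ℕ) : ℝ) := by
    rw [Nat.cast_div (rad_dvd n) hrpos.ne']
    rw [← hnr] at hN
    have e1 : (rad n : ℝ) ≤ (n : ℝ) ^ (1 / κ) := by
      have e2 : ((rad n : ℝ) ^ κ) ^ (1 / κ) = rad n := by
        rw [← Real.rpow_mul hrpos.le, mul_one_div_cancel hκ0.ne', Real.rpow_one]
      rw [← e2]
      exact Real.rpow_le_rpow (by positivity) hN.le (by positivity)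
    rw [le_div_iff₀ hrpos]
    calc (n : ℝ) ^ θ * rad n ≤ (n : ℝ) ^ θ * (n : ℝ) ^ (1 / κ) := by gcongr
      _ = n := by
        rw [← Real.rpow_add hnpos, hθ]
        ring_nf
        exact Real.rpow_one _
  have hrel := W.c_relation
  rcases choose_modulus n hn1 X ((n : ℝ) ^ θ) hX ht hquot with ⟨p, hp, hpX, hpn⟩ |
    ⟨d, hd1, hdX, hdt, hdn⟩
  · left
    have hpΔ : (p : ℤ) ^ 2 ∣ W.Δ := by
      rw [← Int.dvd_natAbs]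
      exact_mod_cast hpn
    refine ⟨?_, ?_, p, hpX, ?_⟩
    · simp only
      intro h
      rw [h, isCoprime_zero_left] at hcop
      have h1 : n = 1 := Int.natAbs_of_isUnit hcop
      rw [h1, Nat.dvd_one] at hpn
      have := hp.two_le
      nlinarith
    · simp only
      intro h
      rw [h, sub_self] at hrel
      omega
    · simp only
      rw [← hrel]
      exact Dvd.dvd.mul_left hpΔ _
  · right
    refine ⟨d, hd1, hdX, ?_, ?_, ?_⟩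
    · simp only
      have hd : (d : ℤ) ∣ W.Δ := by
        rw [← Int.dvd_natAbs]
        exact_mod_cast (Dvd.intro _ rfl : d ∣ d * rad d).trans hdn
      exact IsCoprime.of_isCoprime_of_dvd_right hcop hd
    · simp only
      rw [← hrel]
      have hd : ((d * rad d : ℕ) : ℤ) ∣ W.Δ := by
        rw [← Int.dvd_natAbs]
        exact_mod_cast hdn
      exact Dvd.dvd.mul_left hd _
    · simp only
      have e1 : (W.c₄ : ℝ) ^ 3 - (W.c₆ : ℝ) ^ 2 = 1728 * (W.Δ : ℝ) := by exact_mod_cast hrel.symm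
      rw [e1, abs_mul, ← hnr]
      have hg : X ^ (3 - 6 * θ) = X ^ (6 * (1 / 2 - θ)) := by
        congr 1
        ring
      have e2 : (n : ℝ) ^ (1 / 2 - θ) ≤ X ^ (3 - 6 * θ) := by
        rw [hg]
        calc (n : ℝ) ^ (1 / 2 - θ) ≤ (X ^ 6) ^ (1 / 2 - θ) :=
              Real.rpow_le_rpow hnpos.le hnX (by linarith)
          _ = X ^ (6 * (1 / 2 - θ)) := by rw [hX6, ← Real.rpow_mul hX0.le]
      have e3 : (n : ℝ) = ((n : ℝ) ^ θ * (n : ℝ) ^ (1 / 2 - θ)) ^ 2 := by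
        rw [← Real.rpow_add hnpos, ← Real.rpow_natCast ((n : ℝ) ^ (θ + (1 / 2 - θ))) 2,
          ← Real.rpow_mul hnpos.le]
        push_cast
        have : (θ + (1 / 2 - θ)) * 2 = 1 := by ring
        rw [this, Real.rpow_one]
      have e4 : (n : ℝ) ≤ (d * X ^ (3 - 6 * θ)) ^ 2 := by
        rw [e3]
        gcongr
      have e5 : |(1728 : ℝ)| = 1728 := abs_of_pos (by norm_num)
      rw [e5]
      have e6 : (0 : ℝ) ≤ (d * X ^ (3 - 6 * θ)) ^ 2 := sq_nonneg _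
      nlinarith

open scoped Classical in
theorem upper_aux (κ ε : ℝ) (hκ : 1 ≤ κ) (hκ' : κ ≤ 6 / 5) (hε : 0 < ε) :
    ∃ C : ℝ, 0 < C ∧ ∀ X : ℝ, 1 ≤ X →
      ((Exc κ X).ncard : ℝ) ≤ C * X ^ ε * (X ^ (6 / κ - 1) + X ^ (4 : ℝ)) := by
  obtain ⟨C₁, hC₁, h1⟩ := count_R1 ε hε
  obtain ⟨C₂, hC₂, h2⟩ := count_R2 ε hε
  refine ⟨C₁ + C₂, by positivity, ?_⟩
  intro X hX
  have hX0 : 0 < X := by linarith
  have h1' := h1 X (3 - 6 * (1 - 1 / κ)) hX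
  have h2' := h2 X hX
  set F1 := ((Finset.Icc (-⌊X ^ 2⌋) ⌊X ^ 2⌋) ×ˢ (Finset.Icc (-⌊X ^ 3⌋) ⌊X ^ 3⌋)).filter
      (fun q : ℤ × ℤ => ∃ d : ℕ, 1 ≤ d ∧ (d : ℝ) ≤ X ^ 2 ∧ R1 X (3 - 6 * (1 - 1 / κ)) d q.1 q.2)
    with hF1
  set F2 := ((Finset.Icc (-⌊X ^ 2⌋) ⌊X ^ 2⌋) ×ˢ (Finset.Icc (-⌊X ^ 3⌋) ⌊X ^ 3⌋)).filter
      (fun q : ℤ × ℤ => R2 X q.1 q.2) with hF2
  have hsub : Exc κ X ⊆ ((F1 ∪ F2 : Finset (ℤ × ℤ)) : Set (ℤ × ℤ)) := by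
    intro q hq
    have hbox : q ∈ (Finset.Icc (-⌊X ^ 2⌋) ⌊X ^ 2⌋) ×ˢ (Finset.Icc (-⌊X ^ 3⌋) ⌊X ^ 3⌋) := by
      obtain ⟨W, -, -, rfl, k1, k2, -⟩ := hq
      rw [Finset.mem_product]
      exact ⟨mem_of_abs_le k1, mem_of_abs_le k2⟩
    rw [Finset.mem_coe, Finset.mem_union]
    rcases reduction hκ hκ' hX hq with h | h
    · exact Or.inr (Finset.mem_filter.2 ⟨hbox, h⟩)
    · exact Or.inl (Finset.mem_filter.2 ⟨hbox, h⟩)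
  have h3 : ((Exc κ X).ncard : ℝ) ≤ (F1.card : ℝ) + F2.card := by
    have e1 := Set.ncard_le_ncard hsub (Finset.finite_toSet _)
    rw [Set.ncard_coe_finset] at e1
    have e2 := e1.trans (Finset.card_union_le F1 F2)
    exact_mod_cast e2
  have e1 : (2 : ℝ) + (3 - 6 * (1 - 1 / κ)) = 6 / κ - 1 := by ring
  rw [e1] at h1'
  have p1 : 0 < X ^ ε := Real.rpow_pos_of_pos hX0 _
  have p2 : 0 < X ^ (6 / κ - 1) := Real.rpow_pos_of_pos hX0 _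
  have p3 : 0 < X ^ (4 : ℝ) := Real.rpow_pos_of_pos hX0 _
  have p4 : 0 ≤ C₂ * X ^ ε * X ^ (6 / κ - 1) := by positivity
  calc ((Exc κ X).ncard : ℝ) ≤ C₁ * X ^ ε * (X ^ (6 / κ - 1) + X ^ (4 : ℝ)) +
        C₂ * X ^ ε * X ^ (4 : ℝ) := by linarith
    _ ≤ (C₁ + C₂) * X ^ ε * (X ^ (6 / κ - 1) + X ^ (4 : ℝ)) := by nlinarith

/-- **Upper bound**, sharp for `κ ≤ 6/5` -/
theorem upper (κ ε : ℝ) (hκ : 1 ≤ κ) (hκ' : κ ≤ 6 / 5) (hε : 0 < ε) :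
    ∃ C : ℝ, 0 < C ∧ ∀ X : ℝ, 1 ≤ X →
      ((Exc κ X).ncard : ℝ) ≤ C * X ^ (6 / κ - 1 + ε) := by
  obtain ⟨C, hC, h⟩ := upper_aux κ ε hκ hκ' hε
  refine ⟨2 * C, by positivity, fun X hX => (h X hX).trans ?_⟩
  have hX0 : 0 < X := by linarith
  have h1κ' : 5 ≤ 6 / κ := by
    rw [le_div_iff₀ (by linarith)]
    linarith
  have e1 : X ^ (4 : ℝ) ≤ X ^ (6 / κ - 1) := Real.rpow_le_rpow_of_exponent_le hX (by linarith)
  rw [Real.rpow_add hX0]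
  have p1 : 0 < X ^ ε := Real.rpow_pos_of_pos hX0 _
  calc C * X ^ ε * (X ^ (6 / κ - 1) + X ^ (4 : ℝ)) ≤
      C * X ^ ε * (X ^ (6 / κ - 1) + X ^ (6 / κ - 1)) := by gcongr
    _ = _ := by ring

/-- the bound for larger exponents -/
theorem upper_large (κ ε : ℝ) (hκ : 6 / 5 ≤ κ) (hε : 0 < ε) :
    ∃ C : ℝ, 0 < C ∧ ∀ X : ℝ, 1 ≤ X → ((Exc κ X).ncard : ℝ) ≤ C * X ^ (4 + ε) := by
  obtain ⟨C, hC, h⟩ := upper (6 / 5) ε (by norm_num) le_rfl hε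
  refine ⟨C, hC, fun X hX => ?_⟩
  have h1 : ((Exc κ X).ncard : ℝ) ≤ (Exc (6 / 5) X).ncard := by
    exact_mod_cast Set.ncard_le_ncard (Exc_mono hκ) (Exc_finite _ _)
  have h2 := h X hX
  have h3 : (6 : ℝ) / (6 / 5) - 1 + ε = 4 + ε := by norm_num
  rw [h3] at h2
  exact h1.trans h2

end Pool.Agent.X12.Szp
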