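import Pool.Agent.X12.Szp4
import Pool.Agent.X12.Szp5

/-!
# Many semistable curves whose discriminant is divisible by a high power of 5
-/

set_option autoImplicit false

namespace Pool.Agent.X12.Szp

open Finset Pool.Agent.H328R2.ABC

lemma rad_mul_le (a b : ℕ) (ha : a ≠ 0) (hb : b ≠ 0) : rad (a * b) ≤ rad a * rad b := by
  unfold rad
  rw [Nat.primeFactors_mul ha hb, ← Finset.prod_union_inter]
  refine Nat.le_mul_of_pos_right _ ?_
  exact Finset.prod_pos fun p hp => (Nat.prime_of_mem_primeFactors (Finset.mem_inter.1 hp).1).pos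

lemma rad_pow_le (q j : ℕ) (hq : 0 < q) : rad (q ^ j) ≤ q := by
  rcases Nat.eq_zero_or_pos j with h | h
  · subst h
    unfold rad
    simp
    omega
  · unfold rad
    rw [Nat.primeFactors_pow _ h.ne']
    exact Nat.le_of_dvd hq (Nat.prod_primeFactors_dvd q)

/-- a power of a prime in `n` makes the radical small -/
lemma rad_mul_pow_le {n q j : ℕ} (hn : n ≠ 0) (hq : 0 < q) (h : q ^ (j + 1) ∣ n) :
    rad n * q ^ j ≤ n := by
  obtain ⟨k, hk⟩ := h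
  have hk0 : k ≠ 0 := by
    rintro rfl
    exact hn (by rw [hk, mul_zero])
  have h1 : rad n ≤ q * k := by
    rw [hk]
    refine (rad_mul_le _ _ (by positivity) hk0).trans ?_
    exact Nat.mul_le_mul (rad_pow_le q _ hq) (rad_le (by omega))
  calc rad n * q ^ j ≤ q * k * q ^ j := Nat.mul_le_mul_right _ h1
    _ = n := by rw [hk]; ring

/-- the criterion for `N ^ κ < |Δ|` -/
lemma crit {n N κ X P : ℝ} (hκ : 1 ≤ κ) (hn : 0 < n) (hN : 0 ≤ N) (hX : 1 ≤ X) (hnX : n ≤ X ^ 6)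
    (hP : X ^ (6 - 6 / κ) < P) (h : N * P ≤ n) : N ^ κ < n := by
  have hκ0 : 0 < κ := by linarith
  have hX0 : 0 < X := by linarith
  have hP0 : 0 < P := lt_trans (Real.rpow_pos_of_pos hX0 _) hP
  have h1 : N ≤ n / P := by rwa [le_div_iff₀ hP0]
  have h2 : N ^ κ ≤ (n / P) ^ κ := Real.rpow_le_rpow hN h1 hκ0.le
  refine lt_of_le_of_lt h2 ?_
  rw [Real.div_rpow hn.le hP0.le, div_lt_iff₀ (Real.rpow_pos_of_pos hP0 _)]
  have h3 : n ^ κ = n * n ^ (κ - 1) := by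
    rw [← Real.rpow_one_add' hn.le (by linarith)]
    congr 1
    ring
  rw [h3]
  refine mul_lt_mul_of_pos_left ?_ hn
  calc n ^ (κ - 1) ≤ (X ^ 6) ^ (κ - 1) := Real.rpow_le_rpow hn.le hnX (by linarith)
    _ = (X ^ (6 - 6 / κ)) ^ κ := by
        rw [show X ^ 6 = X ^ ((6 : ℕ) : ℝ) from (Real.rpow_natCast X 6).symm, ← Real.rpow_mul hX0.le,
          ← Real.rpow_mul hX0.le]
        congr 1
        push_cast
        field_simp
    _ < P ^ κ := Real.rpow_lt_rpow (Real.rpow_pos_of_pos hX0 _).le hP hκ0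

/-- the curve `y² + x y = x³ + s x + t` -/
def W1 (s t : ℤ) : WeierstrassCurve ℤ := ⟨1, 0, 0, s, t⟩

lemma W1_c4 (s t : ℤ) : (W1 s t).c₄ = 1 - 48 * s := by
  unfold W1 WeierstrassCurve.c₄ WeierstrassCurve.b₂ WeierstrassCurve.b₄
  ring

lemma W1_c6 (s t : ℤ) : (W1 s t).c₆ = -1 + 72 * s - 864 * t := by
  unfold W1 WeierstrassCurve.c₆ WeierstrassCurve.b₂ WeierstrassCurve.b₄ WeierstrassCurve.b₆
  ring

/-- a square root of a number `≡ 1` modulo `5`, modulo `5 ^ (j + 1)` -/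
lemma exists_root (j : ℕ) (a : ℤ) (ha : (5 : ℤ) ∣ a - 1) :
    ∃ r : ℤ, (5 : ℤ) ^ (j + 1) ∣ a - r ^ 2 := by
  have h1 : (5 : ℤ) ^ (j + 1) ∣ a ^ 5 ^ j - 1 ^ 5 ^ j := by
    have := dvd_sub_pow_of_dvd_sub (R := ℤ) (p := 5) (a := a) (b := 1) (by exact_mod_cast ha) j
    exact_mod_cast this
  rw [one_pow] at h1
  have hodd : Odd (5 ^ j) := Odd.pow (by decide)
  obtain ⟨e, he⟩ := hodd
  refine ⟨a ^ (e + 1), ?_⟩
  have h2 : a - (a ^ (e + 1)) ^ 2 = -(a * (a ^ 5 ^ j - 1)) := by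
    rw [he]
    ring
  rw [h2]
  exact (Dvd.dvd.mul_left h1 a).neg_right

lemma exists_t0 (j : ℕ) (i : ℤ) : ∃ t0 : ℤ, 0 ≤ t0 ∧ t0 < 5 ^ (j + 1) ∧
    (5 : ℤ) ^ (j + 1) ∣ (1 - 240 * i) ^ 3 - (-1 + 360 * i - 864 * t0) ^ 2 := by
  obtain ⟨r, hr⟩ := exists_root j ((1 - 240 * i) ^ 3) (by
    have : (1 - 240 * i) ^ 3 - 1 = 5 * (-144 * i + 34560 * i ^ 2 - 2764800 * i ^ 3) := by ring
    rw [this]
    exact dvd_mul_right _ _)
  have hcop : IsCoprime (864 : ℤ) (5 ^ (j + 1)) := IsCoprime.pow_right (by norm_num)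
  obtain ⟨u, v, huv⟩ := hcop
  have h5 : (0 : ℤ) < 5 ^ (j + 1) := by positivity
  refine ⟨(u * (-1 + 360 * i - r)) % 5 ^ (j + 1), Int.emod_nonneg _ h5.ne', Int.emod_lt_of_pos _ h5,
    ?_⟩
  set t0 := (u * (-1 + 360 * i - r)) % 5 ^ (j + 1) with ht0
  have h1 := Int.emod_add_mul_ediv (u * (-1 + 360 * i - r)) (5 ^ (j + 1))
  rw [← ht0] at h1
  -- `c₆ ≡ r`
  have h2 : (5 : ℤ) ^ (j + 1) ∣ (-1 + 360 * i - 864 * t0) - r := by
    refine ⟨v * (-1 + 360 * i - r) + 864 * (u * (-1 + 360 * i - r) / 5 ^ (j + 1)), ?_⟩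
    have h3 : t0 = u * (-1 + 360 * i - r) - 5 ^ (j + 1) * (u * (-1 + 360 * i - r) / 5 ^ (j + 1)) := by
      linarith
    generalize u * (-1 + 360 * i - r) / 5 ^ (j + 1) = w at h3 ⊢
    rw [h3]
    have h4 : (1 - u * 864) = v * 5 ^ (j + 1) := by linarith
    linear_combination (-1 + 360 * i - r) * h4
  have h3 : (1 - 240 * i) ^ 3 - (-1 + 360 * i - 864 * t0) ^ 2 = ((1 - 240 * i) ^ 3 - r ^ 2) -
      ((-1 + 360 * i - 864 * t0) - r) * ((-1 + 360 * i - 864 * t0) + r) := by ring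
  rw [h3]
  exact dvd_sub hr (Dvd.dvd.mul_right h2 _)

lemma cop_key (j : ℕ) (i : ℤ) : IsCoprime ((864 : ℤ) * 5 ^ (j + 1)) (1 - 240 * i) := by
  have h1 : IsCoprime (30 : ℤ) (1 - 240 * i) := ⟨8 * i, 1, by ring⟩
  have h2 : IsCoprime ((30 : ℤ) ^ (5 + (j + 1))) (1 - 240 * i) := h1.pow_left
  refine IsCoprime.of_isCoprime_of_dvd_left h2 ?_
  refine ⟨9 * 5 ^ 3 * (5 ^ 2 * 6 ^ (j + 1)), ?_⟩
  rw [pow_add, show (30 : ℤ) = 5 * 6 by norm_num, mul_pow 5 6 (j + 1)]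
  ring

lemma exists_pow (q : ℕ) (hq : 2 ≤ q) (Y : ℝ) (hY : 1 ≤ Y) :
    ∃ j : ℕ, Y < (q : ℝ) ^ j ∧ (q : ℝ) ^ j ≤ q * Y := by
  have hq1 : (1 : ℝ) < q := by exact_mod_cast (by omega : 1 < q)
  have hex : ∃ j : ℕ, Y < (q : ℝ) ^ j := pow_unbounded_of_one_lt Y hq1
  classical
  set j := Nat.find hex with hj
  have h1 : Y < (q : ℝ) ^ j := Nat.find_spec hex
  refine ⟨j, h1, ?_⟩
  rcases Nat.eq_zero_or_pos j with h | h
  · rw [h, pow_zero] at h1
    linarith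
  · have h2 : ¬ Y < (q : ℝ) ^ (j - 1) := Nat.find_min hex (by omega)
    push Not at h2
    have h3 : (q : ℝ) ^ j = q * (q : ℝ) ^ (j - 1) := by
      rw [← pow_succ']
      congr 1
      omega
    rw [h3]
    gcongr

/-- many members of the first family -/
theorem family1 (κ X : ℝ) (hκ : 1 ≤ κ) (hX : 2 ≤ X) (j I K : ℕ) (hj : X ^ (6 - 6 / κ) < 5 ^ j)
    (hI : 240 * (I : ℝ) ≤ X ^ 2) (hK : 1728 * (5 : ℝ) ^ (j + 1) * K ≤ X ^ 3) :
    ∃ t0 : ℕ → ℤ, (∑ i ∈ Finset.Icc 1 I, ((Finset.range K).filter fun k : ℕ =>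
      (Int.gcd ((-1 + 360 * (i : ℤ) - 864 * t0 i) + (-(864 * 5 ^ (j + 1))) * k) (240 * i - 1 : ℕ)) = 1).card)
        ≤ (Exc κ X).ncard := by
  classical
  choose t0 ht0 ht1 ht2 using fun i : ℤ => exists_t0 j i
  refine ⟨fun i => t0 i, ?_⟩
  set S := (Finset.Icc 1 I).sigma fun i => (Finset.range K).filter fun k : ℕ =>
      (Int.gcd ((-1 + 360 * (i : ℤ) - 864 * t0 i) + (-(864 * 5 ^ (j + 1))) * k) (240 * i - 1 : ℕ)) = 1
    with hS
  rw [← Finset.card_sigma, ← hS, ← Set.ncard_coe_finset]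
  set W : (Σ _ : ℕ, ℕ) → WeierstrassCurve ℤ := fun x => W1 (5 * x.1) (t0 x.1 + 5 ^ (j + 1) * x.2)
    with hW
  have hX0 : 0 < X := by linarith
  refine Set.ncard_le_ncard_of_injOn (fun x => ((W x).c₄, (W x).c₆)) ?_ ?_ (Exc_finite κ X)
  · rintro ⟨i, k⟩ hx
    rw [Finset.mem_coe, hS, Finset.mem_sigma, Finset.mem_filter, Finset.mem_Icc,
      Finset.mem_range] at hx
    obtain ⟨⟨hi1, hi2⟩, hk, hg⟩ := hx
    simp only at hi1 hi2 hk hg
    have e4 : (W ⟨i, k⟩).c₄ = 1 - 240 * i := by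
      rw [hW]
      simp only
      rw [W1_c4]
      ring
    have e6 : (W ⟨i, k⟩).c₆ = (-1 + 360 * (i : ℤ) - 864 * t0 i) + (-(864 * 5 ^ (j + 1))) * k := by
      rw [hW]
      simp only
      rw [W1_c6]
      ring
    have hcast : ((240 * i - 1 : ℕ) : ℤ) = -(1 - 240 * (i : ℤ)) := by
      rw [Nat.cast_sub (by omega)]
      push_cast
      ring
    have hcop : IsCoprime (W ⟨i, k⟩).c₆ (W ⟨i, k⟩).c₄ := by
      rw [e6, e4]
      rw [hcast, ← Int.isCoprime_iff_gcd_eq_one] at hg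
      rwa [IsCoprime.neg_right_iff] at hg
    have hrel := (W ⟨i, k⟩).c_relation
    have hcopΔ : IsCoprime (W ⟨i, k⟩).c₄ (W ⟨i, k⟩).Δ := by
      have h1 : IsCoprime (W ⟨i, k⟩).c₄ ((W ⟨i, k⟩).c₆ ^ 2) := hcop.symm.pow_right
      have h2 : IsCoprime (W ⟨i, k⟩).c₄ (1728 * (W ⟨i, k⟩).Δ) := by
        rw [hrel]
        have h3 : (W ⟨i, k⟩).c₄ ^ 3 - (W ⟨i, k⟩).c₆ ^ 2 =
            -(W ⟨i, k⟩).c₆ ^ 2 + (W ⟨i, k⟩).c₄ * (W ⟨i, k⟩).c₄ ^ 2 := by ring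
        rw [h3]
        exact IsCoprime.add_mul_left_right h1.neg_right _
      exact h2.of_mul_right_right
    have hΔ : (W ⟨i, k⟩).Δ ≠ 0 := by
      intro h0
      rw [h0, isCoprime_zero_right, e4] at hcopΔ
      have := Int.natAbs_of_isUnit hcopΔ
      omega
    have hi1' : (1 : ℝ) ≤ i := by exact_mod_cast hi1
    have hi2' : (i : ℝ) ≤ I := by exact_mod_cast hi2
    have hX2 : (4 : ℝ) ≤ X ^ 2 := by nlinarith
    have hX3 : 2 * X ^ 2 ≤ X ^ 3 := by nlinarith [sq_nonneg X]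
    have b4 : |((W ⟨i, k⟩).c₄ : ℝ)| ≤ X ^ 2 := by
      rw [e4]
      push_cast
      rw [abs_le]
      constructor <;> nlinarith
    have b6 : |((W ⟨i, k⟩).c₆ : ℝ)| ≤ X ^ 3 := by
      rw [e6]
      push_cast
      have t1 : (0 : ℝ) ≤ t0 i := by exact_mod_cast ht0 i
      have t2 : (t0 i : ℝ) ≤ 5 ^ (j + 1) := by
        have := (ht1 i).le
        have h3 : ((t0 i : ℤ) : ℝ) ≤ ((5 ^ (j + 1) : ℤ) : ℝ) := by exact_mod_cast this
        simpa using h3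
      have t3 : (0 : ℝ) ≤ k := Nat.cast_nonneg k
      have t4 : (k : ℝ) + 1 ≤ K := by exact_mod_cast hk
      have t5 : (0 : ℝ) < 5 ^ (j + 1) := by positivity
      have t6 : (5 : ℝ) ^ (j + 1) * (k + 1) ≤ 5 ^ (j + 1) * K := by gcongr
      have t7 : (0 : ℝ) ≤ 5 ^ (j + 1) * k := by positivity
      rw [abs_le]
      constructor <;> nlinarith
    refine ⟨W ⟨i, k⟩, hΔ, hcopΔ, rfl, b4, b6, ?_⟩
    have hn0 : (W ⟨i, k⟩).Δ.natAbs ≠ 0 := by omega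
    have h5Δ : 5 ^ (j + 1) ∣ (W ⟨i, k⟩).Δ.natAbs := by
      have h1 : (5 : ℤ) ^ (j + 1) ∣ 1728 * (W ⟨i, k⟩).Δ := by
        rw [hrel, e4, e6]
        have h2 : (1 - 240 * (i : ℤ)) ^ 3 - (-1 + 360 * (i : ℤ) - 864 * t0 i +
            (-(864 * 5 ^ (j + 1))) * k) ^ 2 = ((1 - 240 * (i : ℤ)) ^ 3 -
            (-1 + 360 * (i : ℤ) - 864 * t0 i) ^ 2) + 5 ^ (j + 1) * (864 * k *
            (2 * (-1 + 360 * (i : ℤ) - 864 * t0 i) - 864 * 5 ^ (j + 1) * k)) := by ring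
        rw [h2]
        exact dvd_add (ht2 i) (dvd_mul_right _ _)
      have h2 : IsCoprime ((5 : ℤ) ^ (j + 1)) 1728 := IsCoprime.pow_left (by norm_num)
      have h3 := h2.dvd_of_dvd_mul_left h1
      have h4 := Int.natAbs_dvd_natAbs.2 h3
      rwa [Int.natAbs_pow] at h4
    have hnr : (((W ⟨i, k⟩).Δ.natAbs : ℕ) : ℝ) = |((W ⟨i, k⟩).Δ : ℝ)| := by
      rw [Nat.cast_natAbs]
      push_cast
      rfl
    rw [← hnr]
    have h6 := rad_mul_pow_le hn0 (by norm_num : 0 < 5) h5Δ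
    refine crit (X := X) (P := 5 ^ j) hκ ?_ (by positivity) (by linarith) ?_ hj ?_
    · exact_mod_cast Nat.pos_of_ne_zero hn0
    · rw [hnr]
      exact disc_le b4 b6
    · exact_mod_cast h6
  · rintro ⟨i, k⟩ hx ⟨i', k'⟩ hx' hxx
    simp only [Prod.mk.injEq] at hxx
    obtain ⟨h1, h2⟩ := hxx
    rw [hW] at h1 h2
    simp only at h1 h2
    rw [W1_c4, W1_c4] at h1
    have hi : i = i' := by omega
    subst hi
    rw [W1_c6, W1_c6] at h2
    have h3 : (5 : ℤ) ^ (j + 1) * k = 5 ^ (j + 1) * k' := by linarith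
    have h4 : (k : ℤ) = k' := mul_left_cancel₀ (by positivity) h3
    have h5 : k = k' := by exact_mod_cast h4
    rw [h5]

/-- **Lower bound** for `1 ≤ κ < 2` -/
theorem lower1 (κ ε : ℝ) (hκ : 1 ≤ κ) (hκ2 : κ < 2) (hε : 0 < ε) :
    ∃ X₀ : ℝ, ∀ X : ℝ, X₀ ≤ X → X ^ (6 / κ - 1 - ε) ≤ ((Exc κ X).ncard : ℝ) := by
  classical
  have hκ0 : 0 < κ := by linarith
  have hδ0 : 0 ≤ 6 - 6 / κ := by
    have : 6 / κ ≤ 6 := by
      rw [div_le_iff₀ hκ0]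
      linarith
    linarith
  have hβ : 0 < 6 / κ - 3 := by
    have : 3 < 6 / κ := by
      rw [lt_div_iff₀ hκ0]
      linarith
    linarith
  set β := 6 / κ - 3 with hβd
  set η := min (ε / 2) (β / 4) with hη
  have hη0 : 0 < η := lt_min (by positivity) (by positivity)
  have hη1 : η ≤ ε / 2 := min_le_left _ _
  have hη2 : η ≤ β / 4 := min_le_right _ _
  obtain ⟨c, C, hc, hC, hsieve⟩ := sieve_ge η hη0
  obtain ⟨X1, hX1⟩ := final_num (1 / 480) (1 / 86400) c C 2 β ε η (by norm_num) (by norm_num) hc hη0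
    (by linarith) (by linarith)
  obtain ⟨X2, hX2⟩ := Filter.eventually_atTop.1
    ((tendsto_rpow_atTop hβ).eventually_ge_atTop (86400 : ℝ))
  refine ⟨max (max X1 X2) 30, fun X hX => ?_⟩
  have hXa : X1 ≤ X := (le_max_left _ _).trans ((le_max_left _ _).trans hX)
  have hXb : X2 ≤ X := (le_max_right _ _).trans ((le_max_left _ _).trans hX)
  have hXc : (30 : ℝ) ≤ X := (le_max_right _ _).trans hX
  have hX0 : 0 < X := by linarith
  have hX1' : (1 : ℝ) ≤ X := by linarith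
  obtain ⟨j, hj1, hj2⟩ := exists_pow 5 (by norm_num) (X ^ (6 - 6 / κ)) (Real.one_le_rpow hX1' hδ0)
  push_cast at hj1 hj2
  set I := ⌊X ^ 2 / 240⌋₊ with hI
  set K := ⌊X ^ 3 / (1728 * 5 ^ (j + 1))⌋₊ with hK
  have hI1 : (I : ℝ) ≤ X ^ 2 / 240 := Nat.floor_le (by positivity)
  have hI2 : X ^ 2 / 240 - 1 < I := Nat.sub_one_lt_floor _
  have hK1 : (K : ℝ) ≤ X ^ 3 / (1728 * 5 ^ (j + 1)) := Nat.floor_le (by positivity)
  have hK2 : X ^ 3 / (1728 * 5 ^ (j + 1)) - 1 < K := Nat.sub_one_lt_floor _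
  obtain ⟨t0, ht0⟩ := family1 κ X hκ (by linarith) j I K hj1 (by linarith) (by
    rw [le_div_iff₀ (by positivity)] at hK1
    linarith)
  have h1 : ∀ i ∈ Finset.Icc 1 I, c * K * X ^ (-η) - C * X ^ η ≤
      (((Finset.range K).filter fun k : ℕ => (Int.gcd ((-1 + 360 * (i : ℤ) - 864 * t0 i) +
        (-(864 * 5 ^ (j + 1))) * k) (240 * i - 1 : ℕ)) = 1).card : ℝ) := by
    intro i hi
    rw [Finset.mem_Icc] at hi
    have hcast : ((240 * i - 1 : ℕ) : ℤ) = -(1 - 240 * (i : ℤ)) := by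
      rw [Nat.cast_sub (by omega)]
      push_cast
      ring
    have h2 := hsieve X (240 * i - 1) K (-1 + 360 * (i : ℤ) - 864 * t0 i) (-(864 * 5 ^ (j + 1))) hX1'
      (by omega) (by
        have e1 : ((240 * i - 1 : ℕ) : ℝ) ≤ 240 * I := by
          have : 240 * i - 1 ≤ 240 * I := by omega
          exact_mod_cast this
        linarith) (by
        rw [hcast]
        exact (cop_key j i).neg_neg)
    refine h2.trans (le_of_eq ?_)
    congr 2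
    refine Finset.filter_congr fun k _ => ?_
    rw [Int.isCoprime_iff_gcd_eq_one]
  have h2 : (I : ℝ) * (c * K * X ^ (-η) - C * X ^ η) ≤ ((Exc κ X).ncard : ℝ) := by
    calc (I : ℝ) * (c * K * X ^ (-η) - C * X ^ η) =
        ∑ _i ∈ Finset.Icc 1 I, (c * K * X ^ (-η) - C * X ^ η) := by
          rw [Finset.sum_const, Nat.card_Icc, Nat.add_sub_cancel, nsmul_eq_mul]
      _ ≤ ∑ i ∈ Finset.Icc 1 I, (((Finset.range K).filter fun k : ℕ =>
          (Int.gcd ((-1 + 360 * (i : ℤ) - 864 * t0 i) +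
          (-(864 * 5 ^ (j + 1))) * k) (240 * i - 1 : ℕ)) = 1).card : ℝ) := Finset.sum_le_sum h1
      _ ≤ _ := by exact_mod_cast ht0
  refine le_trans ?_ h2
  have e1 : 6 / κ - 1 - ε = 2 + β - ε := by rw [hβd]; ring
  rw [e1]
  refine hX1 X hXa _ _ ?_ ?_
  · rw [show X ^ (2 : ℝ) = X ^ 2 by rw [show (2 : ℝ) = ((2 : ℕ) : ℝ) by norm_num, Real.rpow_natCast]]
    nlinarith
  · have h3 := hX2 X hXb
    have e2 : X ^ β / 43200 ≤ X ^ 3 / (1728 * 5 ^ (j + 1)) := by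
      rw [le_div_iff₀ (by positivity)]
      have e3 : X ^ 3 = X ^ β * X ^ (6 - 6 / κ) := by
        rw [← Real.rpow_add hX0, hβd]
        have : 6 / κ - 3 + (6 - 6 / κ) = 3 := by ring
        rw [this, show (3 : ℝ) = ((3 : ℕ) : ℝ) by norm_num, Real.rpow_natCast]
      have p1 : 0 < X ^ β := Real.rpow_pos_of_pos hX0 _
      rw [e3]
      calc X ^ β / 43200 * (1728 * 5 ^ (j + 1)) = X ^ β * (5 ^ j) / 5 := by ring
        _ ≤ X ^ β * (5 * X ^ (6 - 6 / κ)) / 5 := by gcongr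
        _ = _ := by ring
    linarith

end Pool.Agent.X12.Szp
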