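import Pool.Agent.X12.Szp6

/-!
# Many semistable Frey curves with a large Szpiro ratio
-/

set_option autoImplicit false

namespace Pool.Agent.X12.Szp

open Finset Pool.Agent.H328R2.ABC

/-- Frey's curve of `A = 4 x + 3`, `B = 16 y` -/
def WF (x y : ℤ) : WeierstrassCurve ℤ := ⟨1, 4 * y - x - 1, 0, -(4 * x + 3) * y, 0⟩

lemma WF_c4 (x y : ℤ) : (WF x y).c₄ = (4 * x + 3) ^ 2 + (4 * x + 3) * (16 * y) + (16 * y) ^ 2 := by
  unfold WF WeierstrassCurve.c₄ WeierstrassCurve.b₂ WeierstrassCurve.b₄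
  ring

lemma WF_c6 (x y : ℤ) : (WF x y).c₆ = -(16 * y - (4 * x + 3)) * ((4 * x + 3) + 8 * y) *
    ((4 * x + 3) + 2 * (16 * y)) := by
  unfold WF WeierstrassCurve.c₆ WeierstrassCurve.b₂ WeierstrassCurve.b₄ WeierstrassCurve.b₆
  ring

lemma WF_disc (x y : ℤ) : (WF x y).Δ = ((4 * x + 3) * y * ((4 * x + 3) + 16 * y)) ^ 2 := by
  unfold WF WeierstrassCurve.Δ WeierstrassCurve.b₂ WeierstrassCurve.b₄ WeierstrassCurve.b₆
    WeierstrassCurve.b₈
  ring

lemma WF_coprime {x y : ℤ} (h : IsCoprime (4 * x + 3) (16 * y)) : IsCoprime (WF x y).c₄ (WF x y).Δ := by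
  rw [WF_c4, WF_disc]
  set A := 4 * x + 3 with hA
  have h16 : IsCoprime A (16 * y) := h
  have hy : IsCoprime A y := h.of_mul_right_right
  have h1 : IsCoprime (A ^ 2 + A * (16 * y) + (16 * y) ^ 2) A := by
    have e : A ^ 2 + A * (16 * y) + (16 * y) ^ 2 = (16 * y) ^ 2 + (A + 16 * y) * A := by ring
    rw [e]
    exact IsCoprime.add_mul_right_left h.symm.pow_left _
  have h2 : IsCoprime (A ^ 2 + A * (16 * y) + (16 * y) ^ 2) y := by
    have e : A ^ 2 + A * (16 * y) + (16 * y) ^ 2 = A ^ 2 + (A * 16 + 16 * (16 * y)) * y := by ring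
    rw [e]
    exact IsCoprime.add_mul_right_left hy.pow_left _
  have h3 : IsCoprime (A ^ 2 + A * (16 * y) + (16 * y) ^ 2) (A + 16 * y) := by
    have e : A ^ 2 + A * (16 * y) + (16 * y) ^ 2 = -(A * (16 * y)) + (A + 16 * y) * (A + 16 * y) := by
      ring
    rw [e]
    refine IsCoprime.add_mul_right_left ?_ _
    refine IsCoprime.neg_left (IsCoprime.mul_left ?_ ?_)
    · have : IsCoprime A (16 * y + A * 1) := h16.add_mul_left_right 1
      rwa [mul_one, add_comm] at this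
    · have : IsCoprime (16 * y) (A + (16 * y) * 1) := h16.symm.add_mul_left_right 1
      rwa [mul_one] at this
  exact IsCoprime.pow_right (IsCoprime.mul_right (IsCoprime.mul_right h1 h2) h3)

/-- the criterion for the Frey curves -/
lemma crit2 {D N κ X Q : ℝ} (hκ : 2 ≤ κ) (hD : 0 < D) (hN : 0 ≤ N) (hX : 1 ≤ X) (hDX : D ≤ X ^ 3)
    (hQ : 6 * X ^ (3 - 6 / κ) < Q) (h : N * Q ≤ 6 * D) : N ^ κ < D ^ 2 := by
  have hκ0 : 0 < κ := by linarith
  have hX0 : 0 < X := by linarith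
  have p0 : 0 < X ^ (3 - 6 / κ) := Real.rpow_pos_of_pos hX0 _
  have hQ0 : 0 < Q := by linarith
  have h1 : N ≤ 6 * D / Q := by rwa [le_div_iff₀ hQ0]
  have h2 : N ^ κ ≤ (6 * D / Q) ^ κ := Real.rpow_le_rpow hN h1 hκ0.le
  refine lt_of_le_of_lt h2 ?_
  rw [Real.div_rpow (by positivity) hQ0.le, div_lt_iff₀ (Real.rpow_pos_of_pos hQ0 _),
    Real.mul_rpow (by norm_num) hD.le]
  have h3 : D ^ κ = D ^ 2 * D ^ (κ - 2) := by
    rw [show D ^ 2 = D ^ (2 : ℝ) by
      rw [show (2 : ℝ) = ((2 : ℕ) : ℝ) by norm_num, Real.rpow_natCast], ← Real.rpow_add hD]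
    congr 1
    ring
  have h4 : 6 ^ κ * D ^ (κ - 2) < Q ^ κ := by
    calc 6 ^ κ * D ^ (κ - 2) ≤ 6 ^ κ * (X ^ 3) ^ (κ - 2) := by
          have := Real.rpow_le_rpow hD.le hDX (by linarith : 0 ≤ κ - 2)
          gcongr
      _ = (6 * X ^ (3 - 6 / κ)) ^ κ := by
          rw [Real.mul_rpow (by norm_num) p0.le, ← Real.rpow_mul hX0.le,
            show X ^ 3 = X ^ ((3 : ℕ) : ℝ) from (Real.rpow_natCast X 3).symm, ← Real.rpow_mul hX0.le]
          congr 2
          push_cast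
          field_simp
          ring
      _ < Q ^ κ := Real.rpow_lt_rpow (by positivity) hQ hκ0
  have hD2 : 0 < D ^ 2 := by positivity
  rw [h3]
  calc 6 ^ κ * (D ^ 2 * D ^ (κ - 2)) = D ^ 2 * (6 ^ κ * D ^ (κ - 2)) := by ring
    _ < D ^ 2 * Q ^ κ := by gcongr

lemma rad_sq (n : ℕ) : rad (n ^ 2) = rad n := by
  unfold rad
  rw [Nat.primeFactors_pow _ (by norm_num)]

/-- a member of the family is in the exceptional set -/
theorem frey_mem (κ X : ℝ) (hκ : 2 ≤ κ) (hX : 1 ≤ X) (k l u v x : ℕ) (hu : 1 ≤ u) (hv : 1 ≤ v)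
    (hA : 3 ^ l * v = 4 * x + 3) (hcop : IsCoprime (4 * (x : ℤ) + 3) (16 * (2 ^ k * u)))
    (hAX : (4 * (x : ℝ) + 3) ≤ X / 2) (hBX : 16 * (2 ^ k * (u : ℝ)) ≤ X / 2)
    (hQ : 6 * X ^ (3 - 6 / κ) < 2 ^ k * 3 ^ l) :
    ((WF x (2 ^ k * u)).c₄, (WF x (2 ^ k * u)).c₆) ∈ Exc κ X := by
  have hx0 : (0 : ℝ) ≤ x := Nat.cast_nonneg x
  have hy0 : (1 : ℝ) ≤ 2 ^ k * (u : ℝ) := by
    have : 1 ≤ 2 ^ k * u := Nat.mul_pos (by positivity) hu
    exact_mod_cast this
  have hΔ := WF_disc x (2 ^ k * u)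
  have hD0 : (0 : ℤ) < (4 * (x : ℤ) + 3) * (2 ^ k * u) * ((4 * (x : ℤ) + 3) + 16 * (2 ^ k * u)) := by
    have : (0 : ℤ) < u := by exact_mod_cast hu
    positivity
  have b4 : |((WF x (2 ^ k * u)).c₄ : ℝ)| ≤ X ^ 2 := by
    rw [WF_c4]
    push_cast
    generalize hy : (2 : ℝ) ^ k * (u : ℝ) = y at *
    generalize hA' : 4 * (x : ℝ) + 3 = A at *
    have hA0 : 0 ≤ A := by rw [← hA']; positivity
    rw [abs_of_nonneg (by positivity)]
    nlinarith [mul_nonneg hA0 (by linarith : 0 ≤ 16 * y)]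
  have b6 : |((WF x (2 ^ k * u)).c₆ : ℝ)| ≤ X ^ 3 := by
    rw [WF_c6]
    push_cast
    generalize hy : (2 : ℝ) ^ k * (u : ℝ) = y at *
    generalize hA' : 4 * (x : ℝ) + 3 = A at *
    have hA0 : 0 ≤ A := by rw [← hA']; positivity
    rw [abs_mul, abs_mul, abs_neg, abs_of_nonneg (by positivity : (0 : ℝ) ≤ A + 8 * y),
      abs_of_nonneg (by positivity : (0 : ℝ) ≤ A + 2 * (16 * y))]
    have h1 : |16 * y - A| ≤ X / 2 := by
      rw [abs_le]
      constructor <;> linarith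
    have h2 : A + 8 * y ≤ X := by linarith
    have h3 : A + 2 * (16 * y) ≤ 2 * X := by linarith
    calc |16 * y - A| * (A + 8 * y) * (A + 2 * (16 * y)) ≤ X / 2 * X * (2 * X) := by
          gcongr
      _ = X ^ 3 := by ring
  refine ⟨WF x (2 ^ k * u), ?_, WF_coprime hcop, rfl, b4, b6, ?_⟩
  · rw [hΔ]
    positivity
  · -- the size of the conductor
    set D : ℕ := (4 * x + 3) * (2 ^ k * u) * ((4 * x + 3) + 16 * (2 ^ k * u)) with hD
    have hΔn : (WF x (2 ^ k * u)).Δ = ((D ^ 2 : ℕ) : ℤ) := by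
      rw [hΔ, hD]
      push_cast
      rfl
    have hDpos : 0 < D := by
      rw [hD]
      have : 0 < u := hu
      positivity
    have h1 : (WF x (2 ^ k * u)).Δ.natAbs = D ^ 2 := by rw [hΔn, Int.natAbs_natCast]
    have h2 : |((WF x (2 ^ k * u)).Δ : ℝ)| = (D : ℝ) ^ 2 := by
      rw [hΔn]
      push_cast
      rw [abs_of_nonneg (by positivity)]
    rw [h1, h2, rad_sq]
    have h3 : rad D * (2 ^ k * 3 ^ l) ≤ 6 * D := by
      have e1 : D = (3 ^ l * v) * (2 ^ k * u) * ((4 * x + 3) + 16 * (2 ^ k * u)) := by rw [hD, hA]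
      have n1 : (3 : ℕ) ^ l ≠ 0 := by positivity
      have n2 : (2 : ℕ) ^ k ≠ 0 := by positivity
      have n3 : (4 * x + 3) + 16 * (2 ^ k * u) ≠ 0 := by omega
      have r1 : rad (3 ^ l * v) ≤ 3 * v := (rad_mul_le _ _ n1 (by omega)).trans
        (Nat.mul_le_mul (rad_pow_le 3 l (by norm_num)) (rad_le hv))
      have r2 : rad (2 ^ k * u) ≤ 2 * u := (rad_mul_le _ _ n2 (by omega)).trans
        (Nat.mul_le_mul (rad_pow_le 2 k (by norm_num)) (rad_le hu))
      have m1 : 3 ^ l * v ≠ 0 := Nat.mul_ne_zero n1 (by omega)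
      have m2 : 2 ^ k * u ≠ 0 := Nat.mul_ne_zero n2 (by omega)
      have r3 : rad D ≤ 3 * v * (2 * u) * ((4 * x + 3) + 16 * (2 ^ k * u)) := by
        rw [e1]
        refine (rad_mul_le _ _ (Nat.mul_ne_zero m1 m2) n3).trans ?_
        refine Nat.mul_le_mul ((rad_mul_le _ _ m1 m2).trans (Nat.mul_le_mul r1 r2)) ?_
        exact rad_le (by omega)
      calc rad D * (2 ^ k * 3 ^ l) ≤
          3 * v * (2 * u) * ((4 * x + 3) + 16 * (2 ^ k * u)) * (2 ^ k * 3 ^ l) :=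
            Nat.mul_le_mul_right _ r3
        _ = 6 * D := by
            rw [e1]
            ring
    refine crit2 (X := X) (Q := 2 ^ k * 3 ^ l) hκ (by exact_mod_cast hDpos) (by positivity) hX ?_ hQ ?_
    · have h4 := disc_le b4 b6
      rw [h2] at h4
      have h5 : (D : ℝ) ^ 2 ≤ (X ^ 3) ^ 2 := by
        calc (D : ℝ) ^ 2 ≤ X ^ 6 := h4
          _ = (X ^ 3) ^ 2 := by ring
      exact (pow_le_pow_iff_left₀ (by positivity) (by positivity) (by norm_num)).1 h5
    · exact_mod_cast h3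

/-- `(A, B)` is determined by the curve -/
theorem frey_inj {x y x' y' : ℤ} (hx : 0 ≤ x) (hy : 0 < y) (hx' : 0 ≤ x') (hy' : 0 < y')
    (h4 : (WF x y).c₄ = (WF x' y').c₄) (h6 : (WF x y).c₆ = (WF x' y').c₆) : x = x' ∧ y = y' := by
  have r1 := (WF x y).c_relation
  have r2 := (WF x' y').c_relation
  rw [h4, h6, ← r2] at r1
  have r3 : (WF x y).Δ = (WF x' y').Δ := mul_left_cancel₀ (by norm_num) r1
  rw [WF_disc, WF_disc] at r3
  rw [WF_c4, WF_c4] at h4
  set A := 4 * x + 3 with hA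
  set A' := 4 * x' + 3 with hA'
  have hA0 : 0 < A := by omega
  have hA0' : 0 < A' := by omega
  have r4 : A * y * (A + 16 * y) = A' * y' * (A' + 16 * y') := by
    have p1 : 0 ≤ A * y * (A + 16 * y) := by positivity
    have p2 : 0 ≤ A' * y' * (A' + 16 * y') := by positivity
    exact (pow_left_inj₀ p1 p2 (by norm_num)).1 r3
  -- `16 y'` is a root of the cubic of `A, B, -(A + B)`
  have r5 : (16 * y' - A) * (16 * y' - 16 * y) * (16 * y' + (A + 16 * y)) = 0 := by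
    have e : (16 * y' - A) * (16 * y' - 16 * y) * (16 * y' + (A + 16 * y)) =
        (16 * y') ^ 3 - (A ^ 2 + A * (16 * y) + (16 * y) ^ 2) * (16 * y') +
          16 * (A * y * (A + 16 * y)) := by ring
    rw [e, h4, r4]
    ring
  have hne1 : 16 * y' - A ≠ 0 := by omega
  have hne2 : 16 * y' + (A + 16 * y) ≠ 0 := by positivity
  have hy2 : y = y' := by
    rcases mul_eq_zero.1 r5 with h | h
    · rcases mul_eq_zero.1 h with h' | h'
      · exact absurd h' hne1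
      · omega
    · exact absurd h hne2
  refine ⟨?_, hy2⟩
  rw [← hy2] at h4
  have r6 : (A - A') * (A + A' + 16 * y) = 0 := by linear_combination h4
  rcases mul_eq_zero.1 r6 with h | h
  · omega
  · exfalso
    have : 0 < A + A' + 16 * y := by positivity
    omega

/-- **Lower bound** for `2 ≤ κ < 3` -/
theorem lower2 (κ ε : ℝ) (hκ : 2 ≤ κ) (hκ3 : κ < 3) (hε : 0 < ε) :
    ∃ X₀ : ℝ, ∀ X : ℝ, X₀ ≤ X → X ^ (6 / κ - 1 - ε) ≤ ((Exc κ X).ncard : ℝ) := by
  classical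
  have hκ0 : 0 < κ := by linarith
  have hs0 : 0 ≤ 3 - 6 / κ := by
    have : 6 / κ ≤ 3 := by
      rw [div_le_iff₀ hκ0]
      linarith
    linarith
  have hα : 0 < 6 / κ - 2 := by
    have : 2 < 6 / κ := by
      rw [lt_div_iff₀ hκ0]
      linarith
    linarith
  set α := 6 / κ - 2 with hαd
  set η := min (ε / 2) (1 / 4) with hη
  have hη0 : 0 < η := lt_min (by positivity) (by norm_num)
  have hη1 : η ≤ ε / 2 := min_le_left _ _
  have hη2 : η ≤ 1 / 4 := min_le_right _ _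
  obtain ⟨c, C, hc, hC, hsieve⟩ := sieve_ge η hη0
  obtain ⟨X1, hX1⟩ := final_num (1 / 1536) (1 / 16) c C α 1 ε η (by norm_num) (by norm_num) hc hη0
    (by linarith) (by linarith)
  obtain ⟨X2, hX2⟩ := Filter.eventually_atTop.1
    ((tendsto_rpow_atTop hα).eventually_ge_atTop (1536 : ℝ))
  refine ⟨max (max X1 X2) 30, fun X hX => ?_⟩
  have hXa : X1 ≤ X := (le_max_left _ _).trans ((le_max_left _ _).trans hX)
  have hXb : X2 ≤ X := (le_max_right _ _).trans ((le_max_left _ _).trans hX)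
  have hXc : (30 : ℝ) ≤ X := (le_max_right _ _).trans hX
  have hX0 : 0 < X := by linarith
  have hX1' : (1 : ℝ) ≤ X := by linarith
  have hY1 : 1 ≤ X ^ (3 - 6 / κ) := Real.one_le_rpow hX1' hs0
  obtain ⟨k, hk1, hk2⟩ := exists_pow 2 (by norm_num) (6 * X ^ (3 - 6 / κ)) (by linarith)
  push_cast at hk1 hk2
  set I := ⌊X / (64 * 2 ^ k)⌋₊ with hI
  set K := ⌊X / 8⌋₊ with hK
  have hI1 : (I : ℝ) ≤ X / (64 * 2 ^ k) := Nat.floor_le (by positivity)
  have hI2 : X / (64 * 2 ^ k) - 1 < I := Nat.sub_one_lt_floor _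
  have hK1 : (K : ℝ) ≤ X / 8 := Nat.floor_le (by positivity)
  have hK2 : X / 8 - 1 < K := Nat.sub_one_lt_floor _
  have hI1' : 64 * 2 ^ k * (I : ℝ) ≤ X := by
    rw [le_div_iff₀ (by positivity)] at hI1
    linarith
  have h2k : (1 : ℝ) ≤ 2 ^ k := one_le_pow₀ (by norm_num)
  -- the injection
  set S := (Finset.Icc 1 I).sigma fun i => (Finset.range K).filter fun x : ℕ =>
      IsCoprime ((3 : ℤ) + 4 * x) ((2 * i - 1 : ℕ) : ℤ) with hS
  have hcard : S.card ≤ (Exc κ X).ncard := by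
    rw [← Set.ncard_coe_finset]
    refine Set.ncard_le_ncard_of_injOn (fun z : Σ _ : ℕ, ℕ =>
      ((WF z.2 (2 ^ k * (2 * z.1 - 1 : ℕ))).c₄, (WF z.2 (2 ^ k * (2 * z.1 - 1 : ℕ))).c₆)) ?_ ?_
      (Exc_finite κ X)
    · rintro ⟨i, x⟩ hx
      rw [Finset.mem_coe, hS, Finset.mem_sigma, Finset.mem_filter, Finset.mem_Icc,
        Finset.mem_range] at hx
      obtain ⟨⟨hi1, hi2⟩, hxK, hg⟩ := hx
      simp only at hi1 hi2 hxK hg ⊢
      have hcop : IsCoprime (4 * (x : ℤ) + 3) (16 * (2 ^ k * ((2 * i - 1 : ℕ) : ℤ))) := by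
        have e2 : IsCoprime (4 * (x : ℤ) + 3) 2 := ⟨1, -(2 * x + 1), by ring⟩
        have e3 : IsCoprime (4 * (x : ℤ) + 3) ((2 * i - 1 : ℕ) : ℤ) := by
          rw [add_comm]
          exact hg
        refine IsCoprime.mul_right ?_ (IsCoprime.mul_right e2.pow_right e3)
        have : (16 : ℤ) = 2 ^ 4 := by norm_num
        rw [this]
        exact e2.pow_right
      have hi2' : (i : ℝ) ≤ I := by exact_mod_cast hi2
      have hx' : (x : ℝ) + 1 ≤ K := by exact_mod_cast hxK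
      refine frey_mem κ X hκ hX1' k 0 (2 * i - 1) (4 * x + 3) x (by omega) (by omega) (by ring) hcop
        (by linarith) ?_ (by rw [pow_zero, mul_one]; exact hk1)
      have e4 : ((2 * i - 1 : ℕ) : ℝ) ≤ 2 * i := by
        have : 2 * i - 1 ≤ 2 * i := by omega
        exact_mod_cast this
      have e5 : (2 : ℝ) ^ k * ((2 * i - 1 : ℕ) : ℝ) ≤ 2 ^ k * (2 * I) := by
        gcongr
        linarith
      linarith
    · rintro ⟨i, x⟩ hx ⟨i', x'⟩ hx' hxx
      rw [Finset.mem_coe, hS, Finset.mem_sigma, Finset.mem_filter, Finset.mem_Icc,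
        Finset.mem_range] at hx hx'
      simp only [Prod.mk.injEq] at hxx hx hx'
      have p1 : (0 : ℤ) < 2 ^ k * ((2 * i - 1 : ℕ) : ℤ) := by
        have : 0 < 2 * i - 1 := by omega
        positivity
      have p2 : (0 : ℤ) < 2 ^ k * ((2 * i' - 1 : ℕ) : ℤ) := by
        have : 0 < 2 * i' - 1 := by omega
        positivity
      obtain ⟨q1, q2⟩ := frey_inj (by positivity) p1 (by positivity) p2 hxx.1 hxx.2
      have q3 : ((2 * i - 1 : ℕ) : ℤ) = ((2 * i' - 1 : ℕ) : ℤ) := mul_left_cancel₀ (by positivity) q2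
      have q4 : 2 * i - 1 = 2 * i' - 1 := by exact_mod_cast q3
      have q5 : i = i' := by omega
      have q6 : x = x' := by exact_mod_cast q1
      rw [q5, q6]
  have hsum : (I : ℝ) * (c * K * X ^ (-η) - C * X ^ η) ≤ ((Exc κ X).ncard : ℝ) := by
    calc (I : ℝ) * (c * K * X ^ (-η) - C * X ^ η) =
        ∑ _i ∈ Finset.Icc 1 I, (c * K * X ^ (-η) - C * X ^ η) := by
          rw [Finset.sum_const, Nat.card_Icc, Nat.add_sub_cancel, nsmul_eq_mul]
      _ ≤ ∑ i ∈ Finset.Icc 1 I, (((Finset.range K).filter fun x : ℕ =>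
          IsCoprime ((3 : ℤ) + 4 * x) ((2 * i - 1 : ℕ) : ℤ)).card : ℝ) := by
          refine Finset.sum_le_sum fun i hi => ?_
          rw [Finset.mem_Icc] at hi
          refine hsieve X (2 * i - 1) K 3 4 hX1' (by omega) ?_ ?_
          · have e1 : ((2 * i - 1 : ℕ) : ℝ) ≤ 2 * I := by
              have : 2 * i - 1 ≤ 2 * I := by omega
              exact_mod_cast this
            have e2 : (64 : ℝ) * I ≤ 64 * 2 ^ k * I := by
              have : (0 : ℝ) ≤ I := Nat.cast_nonneg I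
              nlinarith
            nlinarith
          · have e1 : ((2 * i - 1 : ℕ) : ℤ) = 2 * i - 1 := by
              rw [Nat.cast_sub (by omega)]
              push_cast
              ring
            rw [e1]
            have e2 : IsCoprime (2 : ℤ) (2 * i - 1) := ⟨i, -1, by ring⟩
            have : (4 : ℤ) = 2 ^ 2 := by norm_num
            rw [this]
            exact e2.pow_left
      _ ≤ _ := by
          rw [hS, Finset.card_sigma] at hcard
          exact_mod_cast hcard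
  refine le_trans ?_ hsum
  have e1 : 6 / κ - 1 - ε = α + 1 - ε := by rw [hαd]; ring
  rw [e1]
  refine hX1 X hXa _ _ ?_ ?_
  · have h3 := hX2 X hXb
    have e2 : X ^ α / 768 ≤ X / (64 * 2 ^ k) := by
      rw [le_div_iff₀ (by positivity)]
      have e3 : X = X ^ α * X ^ (3 - 6 / κ) := by
        rw [← Real.rpow_add hX0, hαd]
        have : 6 / κ - 2 + (3 - 6 / κ) = 1 := by ring
        rw [this, Real.rpow_one]
      have p1 : 0 < X ^ α := Real.rpow_pos_of_pos hX0 _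
      calc X ^ α / 768 * (64 * 2 ^ k) = X ^ α * 2 ^ k / 12 := by ring
        _ ≤ X ^ α * (2 * (6 * X ^ (3 - 6 / κ))) / 12 := by gcongr
        _ = X ^ α * X ^ (3 - 6 / κ) := by ring
        _ = X := e3.symm
    linarith
  · rw [Real.rpow_one]
    linarith

/-- **Lower bound** for `3 ≤ κ < 6` -/
theorem lower3 (κ ε : ℝ) (hκ : 3 ≤ κ) (hκ6 : κ < 6) (hε : 0 < ε) :
    ∃ X₀ : ℝ, ∀ X : ℝ, X₀ ≤ X → X ^ (6 / κ - 1 - ε) ≤ ((Exc κ X).ncard : ℝ) := by
  classical
  have hκ0 : 0 < κ := by linarith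
  have hs0 : 0 ≤ 2 - 6 / κ := by
    have : 6 / κ ≤ 2 := by
      rw [div_le_iff₀ hκ0]
      linarith
    linarith
  have hα : 0 < 6 / κ - 1 := by
    have : 1 < 6 / κ := by
      rw [lt_div_iff₀ hκ0]
      linarith
    linarith
  set α := 6 / κ - 1 with hαd
  obtain ⟨X2, hX2⟩ := Filter.eventually_atTop.1
    (((tendsto_rpow_atTop hα).eventually_ge_atTop (18432 : ℝ)).and
      ((tendsto_rpow_atTop hε).eventually_ge_atTop (18432 : ℝ)))
  refine ⟨max X2 128, fun X hX => ?_⟩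
  have hXb : X2 ≤ X := (le_max_left _ _).trans hX
  have hXc : (128 : ℝ) ≤ X := (le_max_right _ _).trans hX
  have hX0 : 0 < X := by linarith
  have hX1' : (1 : ℝ) ≤ X := by linarith
  obtain ⟨k, hk1, hk2⟩ := exists_pow 2 (by norm_num) (X / 64) (by linarith)
  push_cast at hk1 hk2
  have hY1 : 1 ≤ X ^ (2 - 6 / κ) := Real.one_le_rpow hX1' hs0
  obtain ⟨l, hl1, hl2⟩ := exists_pow 3 (by norm_num) (384 * X ^ (2 - 6 / κ)) (by linarith)
  push_cast at hl1 hl2
  set J := ⌊X / (8 * 3 ^ l)⌋₊ with hJ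
  have hJ1 : (J : ℝ) ≤ X / (8 * 3 ^ l) := Nat.floor_le (by positivity)
  have hJ2 : X / (8 * 3 ^ l) - 1 < J := Nat.sub_one_lt_floor _
  have hJ1' : 8 * 3 ^ l * (J : ℝ) ≤ X := by
    rw [le_div_iff₀ (by positivity)] at hJ1
    linarith
  -- `3 ^ l * c ≡ 3` modulo 4
  obtain ⟨c, hc1, hc3, hc4⟩ : ∃ c : ℕ, 1 ≤ c ∧ c ≤ 3 ∧ 3 ^ l * c % 4 = 3 := by
    have h9 : (3 ^ l) % 4 = 1 ∨ (3 ^ l) % 4 = 3 := by
      clear_value J
      clear hl1 hl2 hJ hJ1 hJ2 hJ1'
      induction l with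
      | zero => left; rfl
      | succ l ih =>
        rw [pow_succ]
        omega
    rcases h9 with h | h
    · exact ⟨3, by norm_num, le_rfl, by omega⟩
    · exact ⟨1, le_rfl, by norm_num, by omega⟩
  have hcard : (Finset.range J).card ≤ (Exc κ X).ncard := by
    rw [← Set.ncard_coe_finset]
    -- `A = 3 ^ l (4 i + c)`
    have hA : ∀ i : ℕ, 3 ^ l * (4 * i + c) = 4 * ((3 ^ l * (4 * i + c) - 3) / 4) + 3 := by
      intro i
      have e1 : 3 ^ l * (4 * i + c) = 4 * (3 ^ l * i) + 3 ^ l * c := by ring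
      rw [e1]
      omega
    refine Set.ncard_le_ncard_of_injOn (fun i : ℕ =>
      ((WF ((3 ^ l * (4 * i + c) - 3) / 4 : ℕ) (2 ^ k * (1 : ℕ))).c₄,
        (WF ((3 ^ l * (4 * i + c) - 3) / 4 : ℕ) (2 ^ k * (1 : ℕ))).c₆)) ?_ ?_ (Exc_finite κ X)
    · intro i hi
      rw [Finset.mem_coe, Finset.mem_range] at hi
      set x := (3 ^ l * (4 * i + c) - 3) / 4 with hx
      have hAx : 3 ^ l * (4 * i + c) = 4 * x + 3 := hA i
      have hcop : IsCoprime (4 * (x : ℤ) + 3) (16 * (2 ^ k * ((1 : ℕ) : ℤ))) := by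
        have e2 : IsCoprime (4 * (x : ℤ) + 3) 2 := ⟨1, -(2 * x + 1), by ring⟩
        rw [Nat.cast_one, mul_one]
        refine IsCoprime.mul_right ?_ e2.pow_right
        have : (16 : ℤ) = 2 ^ 4 := by norm_num
        rw [this]
        exact e2.pow_right
      have hi' : (i : ℝ) + 1 ≤ J := by exact_mod_cast hi
      have hAr : (4 * (x : ℝ) + 3) = 3 ^ l * (4 * i + c) := by exact_mod_cast hAx.symm
      have hcr : (c : ℝ) ≤ 3 := by exact_mod_cast hc3
      refine frey_mem κ X (by linarith) hX1' k l 1 (4 * i + c) x le_rfl (by omega) hAx hcop ?_ ?_ ?_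
      · rw [hAr]
        have e1 : (4 * (i : ℝ) + c) ≤ 4 * J := by linarith
        have e2 : (3 : ℝ) ^ l * (4 * i + c) ≤ 3 ^ l * (4 * J) := by gcongr
        linarith
      · rw [Nat.cast_one, mul_one]
        linarith
      · have e1 : X ^ (3 - 6 / κ) = X * X ^ (2 - 6 / κ) := by
          rw [← Real.rpow_one_add' hX0.le (by
            have : 0 < 1 + (2 - 6 / κ) := by linarith
            exact this.ne')]
          congr 1
          ring
        rw [e1]
        calc 6 * (X * X ^ (2 - 6 / κ)) = X / 64 * (384 * X ^ (2 - 6 / κ)) := by ring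
          _ < 2 ^ k * 3 ^ l := by
            have : 0 < 384 * X ^ (2 - 6 / κ) := by linarith
            gcongr
    · intro i _ i' _ hii
      simp only [Prod.mk.injEq] at hii
      have p : (0 : ℤ) < 2 ^ k * ((1 : ℕ) : ℤ) := by positivity
      obtain ⟨q1, -⟩ := frey_inj (by positivity) p (by positivity) p hii.1 hii.2
      have q2 : (3 ^ l * (4 * i + c) - 3) / 4 = (3 ^ l * (4 * i' + c) - 3) / 4 := by exact_mod_cast q1
      have q3 := hA i
      rw [q2, ← hA i'] at q3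
      have q4 : 4 * i + c = 4 * i' + c := Nat.eq_of_mul_eq_mul_left (by positivity) q3
      omega
  rw [Finset.card_range] at hcard
  have h1 : (J : ℝ) ≤ ((Exc κ X).ncard : ℝ) := by exact_mod_cast hcard
  refine le_trans ?_ h1
  obtain ⟨h2, h3⟩ := hX2 X hXb
  have p1 : 0 < X ^ α := Real.rpow_pos_of_pos hX0 _
  have e2 : X ^ α / 9216 ≤ X / (8 * 3 ^ l) := by
    rw [le_div_iff₀ (by positivity)]
    have e3 : X = X ^ α * X ^ (2 - 6 / κ) := by
      rw [← Real.rpow_add hX0, hαd]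
      have : 6 / κ - 1 + (2 - 6 / κ) = 1 := by ring
      rw [this, Real.rpow_one]
    calc X ^ α / 9216 * (8 * 3 ^ l) = X ^ α * 3 ^ l / 1152 := by ring
      _ ≤ X ^ α * (3 * (384 * X ^ (2 - 6 / κ))) / 1152 := by gcongr
      _ = X ^ α * X ^ (2 - 6 / κ) := by ring
      _ = X := e3.symm
  have e4 : X ^ (α - ε) ≤ X ^ α / 18432 := by
    rw [Real.rpow_sub hX0]
    gcongr
  linarith

end Pool.Agent.X12.Szp
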