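import Pool.Agent.X12.Szp8

/-!
# Semistable curves near the top of the box with a small radical
-/

set_option autoImplicit false

namespace Pool.Agent.X12.Szp

open Finset Pool.Agent.H328R2.ABC

lemma close_top {X T a b b' : ℝ} (hX : 1 ≤ X) (hT : 0 ≤ T) (hb : 0 ≤ b) (_hb' : 0 ≤ b')
    (hbX' : b' ≤ X ^ 3) (h1 : |a ^ 3 - b ^ 2| ≤ X ^ 3 * T)
    (h2 : |a ^ 3 - b' ^ 2| ≤ X ^ 3 * T) (h3 : X ^ 2 / 4 ≤ |a| ∨ X ^ 3 / 8 ≤ b) :
    b' - b ≤ 80 * T := by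
  have hX3 : (1 : ℝ) ≤ X ^ 3 := one_le_pow₀ hX
  by_contra hcon
  push Not at hcon
  have hT1 : 80 * T < X ^ 3 := by linarith
  have hbig : X ^ 3 / 20 ≤ b := by
    by_contra hb1
    push Not at hb1
    have ha : X ^ 2 / 4 ≤ |a| := by
      rcases h3 with h | h
      · exact h
      · exfalso
        linarith
    have ha3 : X ^ 6 / 64 ≤ |a ^ 3| := by
      rw [abs_pow]
      calc X ^ 6 / 64 = (X ^ 2 / 4) ^ 3 := by ring
        _ ≤ |a| ^ 3 := by gcongr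
    have hb2 : b ^ 2 ≤ X ^ 6 / 400 := by
      calc b ^ 2 ≤ (X ^ 3 / 20) ^ 2 := by gcongr
        _ = X ^ 6 / 400 := by ring
    have e1 : |a ^ 3| ≤ |a ^ 3 - b ^ 2| + |b ^ 2| := by
      have := abs_add_le (a ^ 3 - b ^ 2) (b ^ 2)
      rwa [sub_add_cancel] at this
    have e2 : |b ^ 2| = b ^ 2 := abs_of_nonneg (sq_nonneg _)
    have e3 : X ^ 3 * (80 * T) < X ^ 3 * X ^ 3 := by gcongr
    have e4 : X ^ 3 * X ^ 3 = X ^ 6 := by ring
    have e5 : 0 < X ^ 6 := by positivity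
    linarith
  rw [abs_le] at h1 h2
  have h5 : (b' - b) * (b' + b) ≤ 2 * (X ^ 3 * T) := by nlinarith
  have h6 : 80 * T * (X ^ 3 / 20) ≤ (b' - b) * (b' + b) := by
    have k1 : 0 ≤ b' - b := by linarith
    calc 80 * T * (X ^ 3 / 20) ≤ (b' - b) * (X ^ 3 / 20) := by gcongr
      _ ≤ (b' - b) * (b' + b) := by
        refine mul_le_mul_of_nonneg_left ?_ k1
        linarith
  have h7 : 0 ≤ X ^ 3 * T := by positivity
  have h8 : 2 * (X ^ 3 * T) ≤ 0 := by nlinarith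
  have h9 : T = 0 := by
    have : X ^ 3 * T = 0 := by linarith
    rcases mul_eq_zero.1 this with h | h
    · linarith
    · exact h
  rw [h9, mul_zero] at hcon
  rw [h9, mul_zero, mul_zero] at h5
  have : 0 < (b' - b) * (b' + b) := by
    apply mul_pos hcon
    linarith
  linarith

/-- the number of the `b` near the top of the box -/
theorem count_top (s : ℕ) (hs : 1 ≤ s) (a : ℤ) (hA : IsCoprime (a ^ 3) (s : ℤ)) (F : Finset ℤ)
    (X T : ℝ) (hX : 1 ≤ X) (hT : 0 ≤ T) (hF : ∀ b ∈ F, (s : ℤ) ∣ a ^ 3 - b ^ 2 ∧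
      |(a : ℝ) ^ 3 - (b : ℝ) ^ 2| ≤ X ^ 3 * T ∧ |(b : ℝ)| ≤ X ^ 3 ∧
      (X ^ 2 / 4 ≤ |(a : ℝ)| ∨ X ^ 3 / 8 ≤ |(b : ℝ)|)) :
    (F.card : ℝ) ≤ 4 * (s.divisors.card : ℝ) * (80 * T / s + 1) := by
  classical
  have h1 := count_interval s hs (a ^ 3) hA (F.filter fun b => 0 ≤ b) (80 * T) (by
    intro b hb
    have := (hF b (Finset.mem_filter.1 hb).1).1
    have h2 : b ^ 2 - a ^ 3 = -(a ^ 3 - b ^ 2) := by ring
    rw [h2]
    exact (dvd_neg).2 this) (by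
    intro b hb b' hb'
    rw [Finset.mem_filter] at hb hb'
    have e1 : (0 : ℝ) ≤ b := by exact_mod_cast hb.2
    have e2 : (0 : ℝ) ≤ b' := by exact_mod_cast hb'.2
    obtain ⟨-, p2, p3, p4⟩ := hF b hb.1
    obtain ⟨-, q2, q3, q4⟩ := hF b' hb'.1
    rw [abs_of_nonneg e1] at p3 p4
    rw [abs_of_nonneg e2] at q3
    exact close_top hX hT e1 e2 q3 p2 q2 p4) (by positivity)
  have h2 := count_interval s hs (a ^ 3) hA (F.filter fun b => ¬ 0 ≤ b) (80 * T) (by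
    intro b hb
    have := (hF b (Finset.mem_filter.1 hb).1).1
    have h2 : b ^ 2 - a ^ 3 = -(a ^ 3 - b ^ 2) := by ring
    rw [h2]
    exact (dvd_neg).2 this) (by
    intro b hb b' hb'
    rw [Finset.mem_filter] at hb hb'
    have e1 : (b : ℝ) ≤ 0 := by
      have : b ≤ 0 := by omega
      exact_mod_cast this
    have e2 : (b' : ℝ) ≤ 0 := by
      have : b' ≤ 0 := by omega
      exact_mod_cast this
    obtain ⟨-, p2, p3, p4⟩ := hF b hb.1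
    obtain ⟨-, q2, q3, q4⟩ := hF b' hb'.1
    rw [abs_of_nonpos e1] at p3
    rw [abs_of_nonpos e2] at q4
    have := close_top (a := (a : ℝ)) (b := -(b' : ℝ)) (b' := -(b : ℝ)) hX hT (by linarith)
      (by linarith) p3 (by rw [neg_sq]; exact q2) (by rw [neg_sq]; exact p2) q4
    linarith) (by positivity)
  have h3 : F.card = (F.filter fun b => 0 ≤ b).card + (F.filter fun b => ¬ 0 ≤ b).card :=
    (Finset.card_filter_add_card_filter_not _).symm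
  rw [h3]
  push_cast
  linarith

/-- the pairs near the top of the box with the modulus `d` -/
def R3 (X L : ℝ) (d : ℕ) (a b : ℤ) : Prop :=
  IsCoprime a (d : ℤ) ∧ ((d * rad d : ℕ) : ℤ) ∣ a ^ 3 - b ^ 2 ∧
    |(a : ℝ) ^ 3 - (b : ℝ) ^ 2| ≤ X ^ 3 * (L * d) ∧
    (X ^ 2 / 4 ≤ |(a : ℝ)| ∨ X ^ 3 / 8 ≤ |(b : ℝ)|)

open scoped Classical in
/-- the number of the pairs near the top of the box with some modulus `d ≤ X²` -/
theorem count_R3 (ε : ℝ) (hε : 0 < ε) : ∃ C : ℝ, 0 < C ∧ ∀ (X L : ℝ), 1 ≤ X → 0 ≤ L →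
    ((((Finset.Icc (-⌊X ^ 2⌋) ⌊X ^ 2⌋) ×ˢ (Finset.Icc (-⌊X ^ 3⌋) ⌊X ^ 3⌋)).filter
      (fun q : ℤ × ℤ => ∃ d : ℕ, 1 ≤ d ∧ (d : ℝ) ≤ X ^ 2 ∧ R3 X L d q.1 q.2)).card : ℝ) ≤
      C * X ^ ε * (X ^ 2 * L + X ^ (4 : ℝ)) := by
  obtain ⟨C₁, hC₁, hdiv⟩ := Pool.Agent.H510R2.divisor_bound (ε / 8) (by positivity)
  obtain ⟨C₂, hC₂, hsum⟩ := sum_inv_rad (ε / 4) (by positivity)
  refine ⟨3 * (4 * C₁) * (80 * C₂ + 1), by positivity, ?_⟩
  intro X L hX hL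
  have hX0 : 0 < X := by linarith
  set A := Finset.Icc (-⌊X ^ 2⌋) ⌊X ^ 2⌋ with hA
  set B := Finset.Icc (-⌊X ^ 3⌋) ⌊X ^ 3⌋ with hB
  set D := Finset.Icc 1 ⌊X ^ 2⌋₊ with hD
  have hX2 : (1 : ℝ) ≤ X ^ 2 := one_le_pow₀ hX
  have hf1 : 1 ≤ ⌊X ^ 2⌋₊ := Nat.le_floor (by simpa using hX2)
  have hf2 : ((⌊X ^ 2⌋₊ : ℕ) : ℝ) ≤ X ^ 2 := Nat.floor_le (by positivity)
  -- the union bound
  have h1 : ((A ×ˢ B).filter (fun q : ℤ × ℤ => ∃ d : ℕ, 1 ≤ d ∧ (d : ℝ) ≤ X ^ 2 ∧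
      R3 X L d q.1 q.2)).card ≤ ∑ d ∈ D, ∑ a ∈ A, (B.filter fun b => R3 X L d a b).card := by
    have h2 : (A ×ˢ B).filter (fun q : ℤ × ℤ => ∃ d : ℕ, 1 ≤ d ∧ (d : ℝ) ≤ X ^ 2 ∧
      R3 X L d q.1 q.2) ⊆ D.biUnion fun d => A.biUnion fun a =>
        (B.filter fun b => R3 X L d a b).image fun b => (a, b) := by
      rintro ⟨a, b⟩ hq
      rw [Finset.mem_filter, Finset.mem_product] at hq
      obtain ⟨⟨ha, hb⟩, d, hd1, hd2, hd3⟩ := hq
      rw [Finset.mem_biUnion]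
      refine ⟨d, Finset.mem_Icc.2 ⟨hd1, Nat.le_floor hd2⟩, ?_⟩
      rw [Finset.mem_biUnion]
      refine ⟨a, ha, ?_⟩
      rw [Finset.mem_image]
      exact ⟨b, Finset.mem_filter.2 ⟨hb, hd3⟩, rfl⟩
    refine (Finset.card_le_card h2).trans (Finset.card_biUnion_le.trans ?_)
    refine Finset.sum_le_sum fun d _ => Finset.card_biUnion_le.trans ?_
    exact Finset.sum_le_sum fun a _ => Finset.card_image_le
  -- the fibres
  have h2 : ∀ d ∈ D, ∀ a ∈ A, ((B.filter fun b => R3 X L d a b).card : ℝ) ≤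
      4 * C₁ * X ^ (ε / 2) * (80 * L * (1 / (rad d : ℝ)) + 1) := by
    intro d hd a _
    rw [hD, Finset.mem_Icc] at hd
    have hd0 : (0 : ℝ) < d := by exact_mod_cast hd.1
    have hr0 : (0 : ℝ) < rad d := by exact_mod_cast rad_pos d
    have hs : 1 ≤ d * rad d := Nat.mul_pos hd.1 (rad_pos d)
    have hdX : (d : ℝ) ≤ X ^ 2 := le_trans (by exact_mod_cast hd.2) hf2
    have hsX : ((d * rad d : ℕ) : ℝ) ≤ X ^ (4 : ℝ) := by
      have e1 : (rad d : ℝ) ≤ d := by exact_mod_cast rad_le hd.1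
      push_cast
      have e2 : (d : ℝ) * rad d ≤ X ^ 2 * X ^ 2 := by
        have := e1.trans hdX
        gcongr
      refine e2.trans (le_of_eq ?_)
      rw [show (4 : ℝ) = ((4 : ℕ) : ℝ) by norm_num, Real.rpow_natCast]
      ring
    rcases Finset.eq_empty_or_nonempty (B.filter fun b => R3 X L d a b) with h | ⟨b0, hb0⟩
    · rw [h, Finset.card_empty, Nat.cast_zero]
      positivity
    have hc := (Finset.mem_filter.1 hb0).2.1
    have hcs : IsCoprime (a ^ 3) ((d * rad d : ℕ) : ℤ) := by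
      refine IsCoprime.pow_left ?_
      have e1 : ((d * rad d : ℕ) : ℤ) ∣ (d : ℤ) ^ 2 := by
        push_cast
        rw [pow_two]
        refine mul_dvd_mul_left _ ?_
        exact_mod_cast rad_dvd d
      exact IsCoprime.of_isCoprime_of_dvd_right (IsCoprime.pow_right hc) e1
    have h3 := count_top (d * rad d) hs a hcs (B.filter fun b => R3 X L d a b) X (L * d) hX
      (by positivity) (by
        intro b hb
        rw [Finset.mem_filter] at hb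
        obtain ⟨-, p2, p3, p4⟩ := hb.2
        exact ⟨p2, p3, abs_le_of_mem hb.1, p4⟩)
    refine h3.trans ?_
    have h4 : (((d * rad d).divisors.card : ℕ) : ℝ) ≤ C₁ * X ^ (ε / 2) := by
      refine (hdiv _ hs).trans ?_
      refine mul_le_mul_of_nonneg_left ?_ hC₁.le
      refine (Real.rpow_le_rpow (by positivity) hsX (by positivity)).trans (le_of_eq ?_)
      rw [← Real.rpow_mul hX0.le]
      congr 1
      ring
    have h5 : 80 * (L * (d : ℝ)) / ((d * rad d : ℕ) : ℝ) = 80 * L * (1 / (rad d : ℝ)) := by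
      push_cast
      field_simp
    rw [h5]
    have h6 : 0 ≤ 80 * L * (1 / (rad d : ℝ)) + 1 := by positivity
    calc 4 * (((d * rad d).divisors.card : ℕ) : ℝ) * (80 * L * (1 / (rad d : ℝ)) + 1)
        ≤ 4 * (C₁ * X ^ (ε / 2)) * (80 * L * (1 / (rad d : ℝ)) + 1) := by gcongr
      _ = _ := by ring
  -- the number of the `a`
  have h3 : (A.card : ℝ) ≤ 3 * X ^ 2 := card_Icc_le hX2
  have h4 : (((A ×ˢ B).filter (fun q : ℤ × ℤ => ∃ d : ℕ, 1 ≤ d ∧ (d : ℝ) ≤ X ^ 2 ∧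
      R3 X L d q.1 q.2)).card : ℝ) ≤ ∑ d ∈ D, 3 * X ^ 2 *
        (4 * C₁ * X ^ (ε / 2) * (80 * L * (1 / (rad d : ℝ)) + 1)) := by
    have e1 : (((A ×ˢ B).filter (fun q : ℤ × ℤ => ∃ d : ℕ, 1 ≤ d ∧ (d : ℝ) ≤ X ^ 2 ∧
      R3 X L d q.1 q.2)).card : ℝ) ≤ ∑ d ∈ D, ∑ a ∈ A,
        ((B.filter fun b => R3 X L d a b).card : ℝ) := by exact_mod_cast h1
    refine e1.trans (Finset.sum_le_sum fun d hd => ?_)
    refine (Finset.sum_le_sum fun a ha => h2 d hd a ha).trans ?_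
    rw [Finset.sum_const, nsmul_eq_mul]
    have : 0 ≤ 4 * C₁ * X ^ (ε / 2) * (80 * L * (1 / (rad d : ℝ)) + 1) := by positivity
    exact mul_le_mul_of_nonneg_right h3 this
  refine h4.trans ?_
  have h5 : ∑ d ∈ D, 3 * X ^ 2 * (4 * C₁ * X ^ (ε / 2) * (80 * L * (1 / (rad d : ℝ)) + 1)) =
      3 * X ^ 2 * (4 * C₁ * X ^ (ε / 2)) * (80 * L * ∑ d ∈ D, 1 / (rad d : ℝ) + D.card) := by
    rw [← Finset.mul_sum]
    have e1 : ∑ d ∈ D, 4 * C₁ * X ^ (ε / 2) * (80 * L * (1 / (rad d : ℝ)) + 1) =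
        4 * C₁ * X ^ (ε / 2) * (80 * L * ∑ d ∈ D, 1 / (rad d : ℝ) + D.card) := by
      rw [← Finset.mul_sum, Finset.sum_add_distrib, ← Finset.mul_sum, Finset.sum_const,
        nsmul_eq_mul, mul_one]
    rw [e1]
    ring
  rw [h5]
  have h6 : ∑ d ∈ D, 1 / (rad d : ℝ) ≤ C₂ * X ^ (ε / 2) := by
    refine (hsum _ hf1).trans ?_
    refine mul_le_mul_of_nonneg_left ?_ hC₂.le
    refine (Real.rpow_le_rpow (by positivity) hf2 (by positivity)).trans (le_of_eq ?_)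
    rw [show X ^ 2 = X ^ ((2 : ℕ) : ℝ) from (Real.rpow_natCast X 2).symm, ← Real.rpow_mul hX0.le]
    congr 1
    push_cast
    ring
  have h7 : (D.card : ℝ) ≤ X ^ 2 := by
    rw [hD, Nat.card_Icc, Nat.add_sub_cancel]
    exact hf2
  have hXe : 1 ≤ X ^ (ε / 2) := Real.one_le_rpow hX (by positivity)
  have h9 : X ^ (4 : ℝ) = X ^ 2 * X ^ 2 := by
    rw [show (4 : ℝ) = ((4 : ℕ) : ℝ) by norm_num, Real.rpow_natCast]
    ring
  have h10 : X ^ ε = X ^ (ε / 2) * X ^ (ε / 2) := by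
    rw [← Real.rpow_add hX0]
    congr 1
    ring
  calc 3 * X ^ 2 * (4 * C₁ * X ^ (ε / 2)) * (80 * L * ∑ d ∈ D, 1 / (rad d : ℝ) + D.card)
      ≤ 3 * X ^ 2 * (4 * C₁ * X ^ (ε / 2)) * (80 * L * (C₂ * X ^ (ε / 2)) +
        X ^ 2 * X ^ (ε / 2)) := by
        gcongr
        calc (D.card : ℝ) ≤ X ^ 2 * 1 := by rw [mul_one]; exact h7
          _ ≤ X ^ 2 * X ^ (ε / 2) := by gcongr
    _ = 3 * (4 * C₁) * (X ^ (ε / 2) * X ^ (ε / 2)) * (80 * C₂ * (X ^ 2 * L) +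
        X ^ 2 * X ^ 2) := by ring
    _ ≤ 3 * (4 * C₁) * (X ^ (ε / 2) * X ^ (ε / 2)) * ((80 * C₂ + 1) * (X ^ 2 * L) +
        (80 * C₂ + 1) * (X ^ 2 * X ^ 2)) := by
        refine mul_le_mul_of_nonneg_left ?_ (by positivity)
        have k1 : 0 ≤ X ^ 2 * L := by positivity
        have k2 : 0 ≤ 80 * C₂ * (X ^ 2 * X ^ 2) := by positivity
        linarith
    _ = _ := by
        rw [h9, h10]
        ring

/-- the semistable curves in the box near its top whose radical is at most `Z` -/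
def Top (Z X : ℝ) : Set (ℤ × ℤ) :=
  {q | ∃ W : WeierstrassCurve ℤ, W.Δ ≠ 0 ∧ IsCoprime W.c₄ W.Δ ∧ q = (W.c₄, W.c₆) ∧
    |(W.c₄ : ℝ)| ≤ X ^ 2 ∧ |(W.c₆ : ℝ)| ≤ X ^ 3 ∧
    (X ^ 2 / 4 ≤ |(W.c₄ : ℝ)| ∨ X ^ 3 / 8 ≤ |(W.c₆ : ℝ)|) ∧ (rad W.Δ.natAbs : ℝ) ≤ Z}

theorem Top_finite (Z X : ℝ) : (Top Z X).Finite := by
  refine Set.Finite.subset (Finset.finite_toSet ((Finset.Icc (-⌊X ^ 2⌋) ⌊X ^ 2⌋) ×ˢ
    (Finset.Icc (-⌊X ^ 3⌋) ⌊X ^ 3⌋))) ?_
  rintro q ⟨W, -, -, rfl, h1, h2, -⟩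
  rw [Finset.mem_coe, Finset.mem_product]
  exact ⟨mem_of_abs_le h1, mem_of_abs_le h2⟩

/-- the reduction to the two counting problems -/
theorem reduction3 {Z X : ℝ} (hZ : 0 < Z) (hX : 1 ≤ X) {q : ℤ × ℤ}
    (hq : q ∈ Top Z X) : R2 X q.1 q.2 ∨ ∃ d : ℕ, 1 ≤ d ∧ (d : ℝ) ≤ X ^ 2 ∧
      R3 X (1728 * (Z / X ^ 3) + 2 * X ^ 2) d q.1 q.2 := by
  obtain ⟨W, h0, hcop, rfl, h4, h6, htop, hN⟩ := hq
  have hX0 : 0 < X := by linarith
  have hX3 : 0 < X ^ 3 := by positivity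
  set n := W.Δ.natAbs with hn
  have hn1 : 1 ≤ n := by omega
  have hnr : (n : ℝ) = |(W.Δ : ℝ)| := by
    rw [hn, Nat.cast_natAbs]
    push_cast
    rfl
  have hnpos : (0 : ℝ) < n := by exact_mod_cast hn1
  have hrpos : (0 : ℝ) < rad n := by exact_mod_cast rad_pos n
  have hquot : min X ((n : ℝ) / Z) ≤ ((n / rad n : ℕ) : ℝ) := by
    refine (min_le_right _ _).trans ?_
    rw [Nat.cast_div (rad_dvd n) hrpos.ne']
    gcongr
  have hrel := W.c_relation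
  have hrel' : (W.c₄ : ℝ) ^ 3 - (W.c₆ : ℝ) ^ 2 = 1728 * (W.Δ : ℝ) := by exact_mod_cast hrel.symm
  rcases choose_modulus n hn1 X (min X ((n : ℝ) / Z)) hX (min_le_left _ _) hquot with
    ⟨p, hp, hpX, hpn⟩ | ⟨d, hd1, hdX, hdt, hdn⟩
  · left
    have hpΔ : (p : ℤ) ^ 2 ∣ W.Δ := by
      rw [← Int.dvd_natAbs]
      exact_mod_cast hpn
    refine ⟨?_, ?_, p, hpX, ?_⟩
    · simp only
      intro h
      rw [h, isCoprime_zero_left] at hcop
      have h1 : n = 1 := Int.natAbs_of_isUnit hcop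
      rw [h1, Nat.dvd_one] at hpn
      have := hp.two_le
      nlinarith
    · simp only
      intro h
      rw [h, sub_self] at hrel
      omega
    · simp only
      rw [← hrel]
      exact Dvd.dvd.mul_left hpΔ _
  · right
    have hd0 : (0 : ℝ) < d := by exact_mod_cast hd1
    refine ⟨d, hd1, hdX, ?_, ?_, ?_, htop⟩
    · simp only
      have hd : (d : ℤ) ∣ W.Δ := by
        rw [← Int.dvd_natAbs]
        exact_mod_cast (Dvd.intro _ rfl : d ∣ d * rad d).trans hdn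
      exact IsCoprime.of_isCoprime_of_dvd_right hcop hd
    · simp only
      rw [← hrel]
      have hd : ((d * rad d : ℕ) : ℤ) ∣ W.Δ := by
        rw [← Int.dvd_natAbs]
        exact_mod_cast hdn
      exact Dvd.dvd.mul_left hd _
    · simp only
      have hZX : 0 < Z / X ^ 3 := by positivity
      rcases le_or_gt X (d : ℝ) with h | h
      · have e1 : |(W.c₄ : ℝ) ^ 3| ≤ X ^ 6 := by
          rw [abs_pow]
          calc |(W.c₄ : ℝ)| ^ 3 ≤ (X ^ 2) ^ 3 := by gcongr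
            _ = X ^ 6 := by ring
        have e2 : |(W.c₆ : ℝ) ^ 2| ≤ X ^ 6 := by
          rw [abs_pow]
          calc |(W.c₆ : ℝ)| ^ 2 ≤ (X ^ 3) ^ 2 := by gcongr
            _ = X ^ 6 := by ring
        have e3 := abs_sub ((W.c₄ : ℝ) ^ 3) ((W.c₆ : ℝ) ^ 2)
        calc |(W.c₄ : ℝ) ^ 3 - (W.c₆ : ℝ) ^ 2| ≤ 2 * X ^ 6 := by linarith
          _ = X ^ 3 * ((0 + 2 * X ^ 2) * X) := by ring
          _ ≤ X ^ 3 * ((1728 * (Z / X ^ 3) + 2 * X ^ 2) * d) := by gcongr; positivity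
      · have h5 : (n : ℝ) / Z ≤ d := by
          rcases min_le_iff.1 hdt with h7 | h7
          · exact absurd h7 (not_le.2 h)
          · exact h7
        rw [div_le_iff₀ hZ] at h5
        rw [hrel', abs_mul, ← hnr, abs_of_pos (by norm_num : (0 : ℝ) < 1728)]
        have e1 : X ^ 3 * ((1728 * (Z / X ^ 3) + 2 * X ^ 2) * d) =
            1728 * (d * Z) + 2 * X ^ 5 * d := by
          field_simp
        rw [e1]
        have e2 : 0 ≤ 2 * X ^ 5 * d := by positivity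
        linarith

/-- **Semistable curves with a small radical near the top of the box** -/
theorem top_le (ε : ℝ) (hε : 0 < ε) : ∃ C : ℝ, 0 < C ∧ ∀ Z X : ℝ, 0 < Z → 1 ≤ X →
      ((Top Z X).ncard : ℝ) ≤ C * X ^ ε * (Z / X + X ^ (4 : ℝ)) := by
  classical
  obtain ⟨C₁, hC₁, h1⟩ := count_R3 ε hε
  obtain ⟨C₂, hC₂, h2⟩ := count_R2 ε hε
  refine ⟨1728 * C₁ + 3 * C₁ + C₂, by positivity, ?_⟩
  intro Z X hZ hX
  have hX0 : 0 < X := by linarith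
  have h1' := h1 X (1728 * (Z / X ^ 3) + 2 * X ^ 2) hX (by positivity)
  have h2' := h2 X hX
  set F1 := ((Finset.Icc (-⌊X ^ 2⌋) ⌊X ^ 2⌋) ×ˢ (Finset.Icc (-⌊X ^ 3⌋) ⌊X ^ 3⌋)).filter
      (fun q : ℤ × ℤ => ∃ d : ℕ, 1 ≤ d ∧ (d : ℝ) ≤ X ^ 2 ∧
        R3 X (1728 * (Z / X ^ 3) + 2 * X ^ 2) d q.1 q.2) with hF1
  set F2 := ((Finset.Icc (-⌊X ^ 2⌋) ⌊X ^ 2⌋) ×ˢ (Finset.Icc (-⌊X ^ 3⌋) ⌊X ^ 3⌋)).filter
      (fun q : ℤ × ℤ => R2 X q.1 q.2) with hF2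
  have hsub : Top Z X ⊆ ((F1 ∪ F2 : Finset (ℤ × ℤ)) : Set (ℤ × ℤ)) := by
    intro q hq
    have hbox : q ∈ (Finset.Icc (-⌊X ^ 2⌋) ⌊X ^ 2⌋) ×ˢ (Finset.Icc (-⌊X ^ 3⌋) ⌊X ^ 3⌋) := by
      obtain ⟨W, -, -, rfl, k1, k2, -⟩ := hq
      rw [Finset.mem_product]
      exact ⟨mem_of_abs_le k1, mem_of_abs_le k2⟩
    rw [Finset.mem_coe, Finset.mem_union]
    rcases reduction3 hZ hX hq with h | h
    · exact Or.inr (Finset.mem_filter.2 ⟨hbox, h⟩)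
    · exact Or.inl (Finset.mem_filter.2 ⟨hbox, h⟩)
  have h3 : ((Top Z X).ncard : ℝ) ≤ (F1.card : ℝ) + F2.card := by
    have e1 := Set.ncard_le_ncard hsub (Finset.finite_toSet _)
    rw [Set.ncard_coe_finset] at e1
    have e2 := e1.trans (Finset.card_union_le F1 F2)
    exact_mod_cast e2
  have e4 : X ^ (4 : ℝ) = X ^ 2 * X ^ 2 := by
    rw [show (4 : ℝ) = ((4 : ℕ) : ℝ) by norm_num, Real.rpow_natCast]
    ring
  have e1 : X ^ 2 * (1728 * (Z / X ^ 3) + 2 * X ^ 2) + X ^ (4 : ℝ) =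
      1728 * (Z / X) + 3 * X ^ (4 : ℝ) := by
    rw [e4]
    field_simp
    ring
  rw [e1] at h1'
  have p1 : 0 < X ^ ε := Real.rpow_pos_of_pos hX0 _
  have p2 : 0 < Z / X := by positivity
  have p3 : 0 < X ^ (4 : ℝ) := Real.rpow_pos_of_pos hX0 _
  have q1 : 0 ≤ C₂ * X ^ ε * (Z / X) := by positivity
  have q2 : 0 ≤ C₁ * X ^ ε * (Z / X) := by positivity
  have q3 : 0 ≤ C₁ * X ^ ε * X ^ (4 : ℝ) := by positivity
  have q4 : 0 ≤ C₂ * X ^ ε * X ^ (4 : ℝ) := by positivity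
  calc ((Top Z X).ncard : ℝ) ≤ C₁ * X ^ ε * (1728 * (Z / X) + 3 * X ^ (4 : ℝ)) +
        C₂ * X ^ ε * X ^ (4 : ℝ) := by linarith
    _ ≤ (1728 * C₁ + 3 * C₁ + C₂) * X ^ ε * (Z / X + X ^ (4 : ℝ)) := by nlinarith

end Pool.Agent.X12.Szp
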