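import Pool.Agent.X12.Leg

/-!
# Small solutions of linear congruences and representations of primes by binary quadratic forms
-/

set_option autoImplicit false

namespace Pool.Agent.X12

open Finset

/-- Thue's lemma for a prime modulus. -/
lemma thue {p : ℕ} (hp : p.Prime) (r : ℤ) :
    ∃ u v : ℤ, 0 < v ∧ u ^ 2 < p ∧ v ^ 2 < p ∧ (p : ℤ) ∣ u - r * v := by
  have hn : 0 < Nat.sqrt p := Nat.sqrt_pos.2 hp.pos
  obtain ⟨j, k, hk0, hkn, hjk⟩ := Real.exists_int_int_abs_mul_sub_le ((r : ℝ) / p) hn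
  have hp0 : (0 : ℝ) < p := by exact_mod_cast hp.pos
  have h1 : (p : ℝ) < ((Nat.sqrt p : ℝ) + 1) ^ 2 := by
    have := Nat.lt_succ_sqrt' p
    rw [Nat.succ_eq_add_one] at this
    exact_mod_cast this
  have hne : ∀ t : ℤ, t ^ 2 ≠ p := by
    intro t ht
    have h2 : IsSquare ((p : ℤ)) := ⟨t, by rw [← ht]; ring⟩
    exact (Nat.prime_iff_prime_int.1 hp).irreducible.not_isSquare h2
  refine ⟨k * r - j * p, k, hk0, ?_, ?_, ⟨-j, by ring⟩⟩
  · have hpos : (0 : ℝ) < (Nat.sqrt p : ℝ) + 1 := by positivity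
    have h3 : |(k : ℝ) * r - j * p| ≤ p / ((Nat.sqrt p : ℝ) + 1) := by
      have h4 : (k : ℝ) * r - j * p = p * (k * (r / p) - j) := by
        field_simp
      rw [h4, abs_mul, abs_of_pos hp0]
      calc (p : ℝ) * |(k : ℝ) * (r / p) - j| ≤ p * (1 / ((Nat.sqrt p : ℝ) + 1)) :=
            mul_le_mul_of_nonneg_left hjk hp0.le
        _ = p / ((Nat.sqrt p : ℝ) + 1) := by ring
    have h5 : |(k : ℝ) * r - j * p| ^ 2 < p := by
      calc |(k : ℝ) * r - j * p| ^ 2 ≤ (p / ((Nat.sqrt p : ℝ) + 1)) ^ 2 :=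
            pow_le_pow_left₀ (abs_nonneg _) h3 2
        _ = p * (p / ((Nat.sqrt p : ℝ) + 1) ^ 2) := by rw [div_pow]; ring
        _ < p * 1 := by
            apply mul_lt_mul_of_pos_left _ hp0
            rw [div_lt_one (by positivity)]
            exact h1
        _ = p := mul_one _
    rw [sq_abs] at h5
    exact_mod_cast h5
  · have h6 : k ^ 2 ≤ p := by
      calc k ^ 2 ≤ (Nat.sqrt p : ℤ) ^ 2 := pow_le_pow_left₀ hk0.le hkn 2
        _ ≤ p := by exact_mod_cast Nat.sqrt_le' p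
    exact lt_of_le_of_ne h6 (hne k)

lemma exists_root {p : ℕ} [Fact p.Prime] {d : ℤ} (h : qc p (d : ZMod p) = 1) :
    ∃ r : ℤ, (p : ℤ) ∣ r ^ 2 - d := by
  have h0 : (d : ZMod p) ≠ 0 := by
    intro h1
    rw [h1, qc_zero] at h
    norm_num at h
  obtain ⟨b, hb⟩ := (quadraticChar_one_iff_isSquare h0).1 h
  refine ⟨b.val, ?_⟩
  rw [← ZMod.intCast_zmod_eq_zero_iff_dvd]
  push_cast
  rw [ZMod.natCast_zmod_val, hb]
  ring

/-- a prime with `-3` a residue is of the form `c² + 3 d²` -/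
lemma exists_sq_add_three {p : ℕ} [Fact p.Prime] (hp3 : p % 3 = 1) (h : qc p (-3) = 1) :
    ∃ c d : ℤ, (p : ℤ) = c ^ 2 + 3 * d ^ 2 := by
  obtain ⟨r, hr⟩ := exists_root (p := p) (d := -3) (by push_cast; exact h)
  obtain ⟨u, v, hv, hu2, hv2, huv⟩ := thue (Fact.out : p.Prime) r
  have hp3' : (p : ℤ) % 3 = 1 := by omega
  have h1 : (p : ℤ) ∣ u ^ 2 + 3 * v ^ 2 := by
    have e : u ^ 2 + 3 * v ^ 2 = (u - r * v) * (u + r * v) + (r ^ 2 - (-3)) * v ^ 2 := by ring
    rw [e]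
    exact dvd_add (Dvd.dvd.mul_right huv _) (Dvd.dvd.mul_right hr _)
  obtain ⟨k, hk⟩ := h1
  have hk0 : 0 < k := by
    by_contra hcon
    push Not at hcon
    have : (p : ℤ) * k ≤ 0 := mul_nonpos_of_nonneg_of_nonpos (by positivity) hcon
    have h2 : 0 < u ^ 2 + 3 * v ^ 2 := by positivity
    omega
  have hk4 : k < 4 := by
    by_contra hcon
    push Not at hcon
    have : (p : ℤ) * 4 ≤ p * k := mul_le_mul_of_nonneg_left hcon (by positivity)
    omega
  obtain rfl | rfl | rfl : k = 1 ∨ k = 2 ∨ k = 3 := by omega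
  · exact ⟨u, v, by rw [hk]; ring⟩
  · exfalso
    have h3 : (u ^ 2) % 3 = 2 := by omega
    rcases (by omega : u % 3 = 0 ∨ u % 3 = 1 ∨ u % 3 = 2) with h | h | h <;>
      simp [sq, Int.mul_emod, h] at h3
  · have h3 : (u ^ 2) % 3 = 0 := by omega
    have h4 : u % 3 = 0 := by
      rcases (by omega : u % 3 = 0 ∨ u % 3 = 1 ∨ u % 3 = 2) with h | h | h
      · exact h
      · simp [sq, Int.mul_emod, h] at h3
      · simp [sq, Int.mul_emod, h] at h3
    obtain ⟨w, rfl⟩ := Int.dvd_of_emod_eq_zero h4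
    exact ⟨v, w, by nlinarith⟩

/-- A prime `p ≡ 19 (mod 24)` is of the form `a² - 6 b²`. -/
lemma exists_sq_sub_six {p : ℕ} [Fact p.Prime] (hp : p % 24 = 19) (h : qc p 6 = 1) :
    ∃ a b : ℤ, (p : ℤ) = a ^ 2 - 6 * b ^ 2 := by
  obtain ⟨r, hr⟩ := exists_root (p := p) (d := 6) (by push_cast; exact h)
  obtain ⟨u, v, hv, hu2, hv2, huv⟩ := thue (Fact.out : p.Prime) r
  have hp' : (p : ℤ) % 24 = 19 := by omega
  have h1 : (p : ℤ) ∣ u ^ 2 - 6 * v ^ 2 := by
    have e : u ^ 2 - 6 * v ^ 2 = (u - r * v) * (u + r * v) + (r ^ 2 - 6) * v ^ 2 := by ring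
    rw [e]
    exact dvd_add (Dvd.dvd.mul_right huv _) (Dvd.dvd.mul_right hr _)
  obtain ⟨k, hk⟩ := h1
  have hk1 : k < 1 := by
    by_contra hcon
    push Not at hcon
    have : (p : ℤ) * 1 ≤ p * k := mul_le_mul_of_nonneg_left hcon (by positivity)
    have h2 : 0 < v ^ 2 := by positivity
    omega
  have hk6 : -6 < k := by
    by_contra hcon
    push Not at hcon
    have : (p : ℤ) * k ≤ p * (-6) := mul_le_mul_of_nonneg_left hcon (by positivity)
    have h2 : 0 ≤ u ^ 2 := by positivity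
    omega
  have sq3 : ∀ w : ℤ, (w ^ 2) % 3 = 0 ∨ (w ^ 2) % 3 = 1 := by
    intro w
    rcases (by omega : w % 3 = 0 ∨ w % 3 = 1 ∨ w % 3 = 2) with h | h | h <;>
      simp [sq, Int.mul_emod, h]
  have sq8 : ∀ w : ℤ, (w ^ 2) % 8 = 0 ∨ (w ^ 2) % 8 = 1 ∨ (w ^ 2) % 8 = 4 := by
    intro w
    rcases (by omega : w % 8 = 0 ∨ w % 8 = 1 ∨ w % 8 = 2 ∨ w % 8 = 3 ∨ w % 8 = 4 ∨ w % 8 = 5 ∨
      w % 8 = 6 ∨ w % 8 = 7) with h | h | h | h | h | h | h | h <;>
      simp [sq, Int.mul_emod, h]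
  obtain rfl | rfl | rfl | rfl | rfl | rfl :
    k = 0 ∨ k = -1 ∨ k = -2 ∨ k = -3 ∨ k = -4 ∨ k = -5 := by omega
  · -- `u² = 6 v²`
    exfalso
    have e : u ^ 2 = 6 * v ^ 2 := by linarith
    have hu0 : u ≠ 0 := by
      rintro rfl
      have : 0 < v ^ 2 := by positivity
      omega
    have e2 : u.natAbs ^ 2 = (2 * 3) * v.natAbs ^ 2 := by
      zify
      rw [sq_abs, sq_abs, e]
      norm_num
    have h2 := congrArg (padicValNat 2) e2
    have : Fact (Nat.Prime 2) := ⟨Nat.prime_two⟩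
    have hu0' : u.natAbs ≠ 0 := Int.natAbs_ne_zero.2 hu0
    have hv0' : v.natAbs ≠ 0 := Int.natAbs_ne_zero.2 hv.ne'
    rw [padicValNat.pow, padicValNat.mul (by norm_num) (pow_ne_zero 2 hv0'),
      padicValNat.pow, padicValNat.mul (by norm_num) (by norm_num), padicValNat_self] at h2
    have h6 : padicValNat 2 3 = 0 := padicValNat.eq_zero_of_not_dvd (by norm_num)
    rw [h6] at h2
    omega
  · exfalso
    have := sq3 u
    omega
  · -- `u` even
    have h2 := sq8 u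
    have h3 : u % 2 = 0 := by
      rcases (by omega : u % 2 = 0 ∨ u % 2 = 1) with h | h
      · exact h
      · exfalso
        have h4 : (u ^ 2) % 2 = 1 := by simp [sq, Int.mul_emod, h]
        omega
    obtain ⟨w, rfl⟩ := Int.dvd_of_emod_eq_zero h3
    exact ⟨3 * v - 2 * w, w - v, by nlinarith⟩
  · exfalso
    have h2 : (u ^ 2) % 3 = 0 := by omega
    have h4 : u % 3 = 0 := by
      rcases (by omega : u % 3 = 0 ∨ u % 3 = 1 ∨ u % 3 = 2) with h | h | h
      · exact h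
      · simp [sq, Int.mul_emod, h] at h2
      · simp [sq, Int.mul_emod, h] at h2
    obtain ⟨w, rfl⟩ := Int.dvd_of_emod_eq_zero h4
    have h5 : 3 * w ^ 2 - 2 * v ^ 2 = - p := by nlinarith
    have := sq3 v
    omega
  · exfalso
    have h2 : (u ^ 2) % 2 = 0 := by omega
    have h3 : u % 2 = 0 := by
      rcases (by omega : u % 2 = 0 ∨ u % 2 = 1) with h | h
      · exact h
      · simp [sq, Int.mul_emod, h] at h2
    obtain ⟨w, rfl⟩ := Int.dvd_of_emod_eq_zero h3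
    have h5 : 2 * w ^ 2 - 3 * v ^ 2 = - 2 * p := by nlinarith
    have h6 : (v ^ 2) % 2 = 0 := by omega
    have h7 : v % 2 = 0 := by
      rcases (by omega : v % 2 = 0 ∨ v % 2 = 1) with h | h
      · exact h
      · simp [sq, Int.mul_emod, h] at h6
    obtain ⟨t, rfl⟩ := Int.dvd_of_emod_eq_zero h7
    have h8 : w ^ 2 - 6 * t ^ 2 = - p := by nlinarith
    have := sq3 w
    omega
  · -- `u ≡ ± v (mod 5)`
    have h5 : (5 : ℤ) ∣ (u - v) * (u + v) := ⟨v ^ 2 - p, by linarith⟩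
    have h5p : Prime (5 : ℤ) := by norm_num
    rcases h5p.dvd_or_dvd h5 with ⟨t, ht⟩ | ⟨t, ht⟩
    · refine ⟨v - t, t, ?_⟩
      have hu : u = v + 5 * t := by linarith
      subst hu
      nlinarith
    · refine ⟨v + t, t, ?_⟩
      have hu : u = 5 * t - v := by linarith
      subst hu
      nlinarith

end Pool.Agent.X12
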