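import Pool.Agent.X12.TwSp

/-!
# Legendre symbol Toeplitz matrices: the nodes
-/

set_option autoImplicit false

namespace Pool.Agent.X12

open Finset Complex Polynomial

section

variable {p : ℕ} [Fact p.Prime]

/-- The quadratic Gauss sum. -/
noncomputable def Gs (p : ℕ) [Fact p.Prime] : ℂ := ∑ a : ZMod p, (qc p a : ℂ) * ps p a

lemma Gs_sq (hp : p ≠ 2) : Gs p ^ 2 = ((qc p (-1) * p : ℤ) : ℂ) := by
  let chi : MulChar (ZMod p) ℂ := (quadraticChar (ZMod p)).ringHomComp (Int.castRingHom ℂ)
  have hchi : chi ≠ 1 := by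
    intro hc
    obtain ⟨a, ha⟩ := quadraticChar_exists_neg_one (ringChar_ne_two hp)
    have h1 : chi a = ((-1 : ℤ) : ℂ) := by
      show (Int.castRingHom ℂ) (quadraticChar (ZMod p) a) = _
      rw [ha]; rfl
    have ha0 : a ≠ 0 := by
      rintro rfl
      rw [quadraticChar_zero] at ha
      norm_num at ha
    rw [hc, MulChar.one_apply (isUnit_iff_ne_zero.2 ha0)] at h1
    norm_num at h1
  have hquad : chi.IsQuadratic :=
    MulChar.IsQuadratic.comp (quadraticChar_isQuadratic (F := ZMod p)) (Int.castRingHom ℂ)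
  have key := gaussSum_sq hchi hquad (ZMod.isPrimitive_stdAddChar p)
  have h2 : gaussSum chi ZMod.stdAddChar = Gs p := rfl
  rw [h2, ZMod.card p] at key
  rw [key]
  push_cast
  rfl

lemma sum_qc_ps (hp : p ≠ 2) (c : ZMod p) :
    ∑ a : ZMod p, (qc p a : ℂ) * ps p (a * c) = qc p c * Gs p := by
  by_cases hc : c = 0
  · subst hc
    rw [qc_zero]
    simp only [mul_zero, ps_zero, mul_one, Int.cast_zero, zero_mul]
    exact_mod_cast sum_qc (p := p) hp
  · rw [Gs, Finset.mul_sum]
    refine Fintype.sum_equiv (Equiv.mulRight₀ c hc) _ _ fun a => ?_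
    have e : (Equiv.mulRight₀ c hc) a = a * c := rfl
    rw [e, qc_mul]
    have h1 := qc_sq hc
    have h2 : (qc p c : ℂ) * qc p c = 1 := by exact_mod_cast h1
    push_cast
    linear_combination (- (qc p a : ℂ) * ps p (a * c)) * h2

/-- the sum of a character -/
lemma sum_ps (c : ZMod p) : ∑ a : ZMod p, ps p (a * c) = if c = 0 then (p : ℂ) else 0 := by
  split_ifs with hc
  · subst hc
    simp only [mul_zero, ps_zero]
    rw [Finset.sum_const, Finset.card_univ, ZMod.card, nsmul_eq_mul, mul_one]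
  · have h1 : ∑ a : ZMod p, ps p (a * c) = ∑ a : ZMod p, ps p a :=
      Fintype.sum_equiv (Equiv.mulRight₀ c hc) _ _ fun a => rfl
    rw [h1]
    have h2 := AddChar.sum_eq_zero_of_ne_one (ψ := (ZMod.stdAddChar (N := p))) (by
      intro h
      have h3 := DFunLike.congr_fun h (1 : ZMod p)
      have h4 : ps p 1 = ps p 0 := by rw [ps_zero]; exact h3
      exact one_ne_zero (ps_inj h4))
    exact h2

/-- the residues `(s + 1)²` -/
def aa (p : ℕ) (s : ℕ) : ZMod p := ((s : ZMod p) + 1) ^ 2

lemma aa_ne_zero {n : ℕ} (hn : p = 2 * n + 1) (s : Fin n) : aa p s ≠ 0 :=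
  pow_ne_zero 2 (half_ne_zero hn s.2)

lemma qc_aa {n : ℕ} (hn : p = 2 * n + 1) (s : Fin n) : qc p (aa p s) = 1 := by
  rw [aa, sq, qc_mul, qc_sq (half_ne_zero hn s.2)]

lemma aa_inj {n : ℕ} (hn : p = 2 * n + 1) : Function.Injective (fun s : Fin n => aa p s) := by
  intro s t h
  rcases sq_eq_sq_iff_eq_or_eq_neg.1 h with h | h
  · exact Fin.ext ((half_inj hn s.2 t.2).1 h)
  · exact absurd h (half_ne_neg hn s.2 t.2)

/-- products over the residues as products over the half system -/
lemma prod_aa {M : Type*} [CommMonoid M] {n : ℕ} (hn : p = 2 * n + 1) (f : ZMod p → M) :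
    ∏ s : Fin n, f (aa p s) = ∏ a : ZMod p, if qc p a = 1 then f a else 1 := by
  rw [← prod_squares hn f, Fin.prod_univ_eq_prod_range (fun s => f (aa p s)) n]
  refine Finset.prod_nbij' (fun s => s + 1) (fun k => k - 1) ?_ ?_ ?_ ?_ ?_
  · intro s hs
    have := Finset.mem_range.1 hs
    exact Finset.mem_Icc.2 ⟨by omega, by omega⟩
  · intro k hk
    have := Finset.mem_Icc.1 hk
    exact Finset.mem_range.2 (by omega)
  · intro s _; simp
  · intro k hk
    have := Finset.mem_Icc.1 hk
    show k - 1 + 1 = k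
    omega
  · intro s _
    rw [aa]
    push_cast
    rfl

lemma sum_aa {n : ℕ} (hn : p = 2 * n + 1) (f : ZMod p → ℂ) :
    ∑ s : Fin n, f (aa p s) = ∑ a : ZMod p, if qc p a = 1 then f a else 0 := by
  have h := prod_aa hn (fun a => Multiplicative.ofAdd (f a))
  have h2 := congrArg Multiplicative.toAdd h
  rw [toAdd_prod, toAdd_prod] at h2
  simp only [toAdd_ofAdd] at h2
  rw [h2]
  refine Finset.sum_congr rfl fun a _ => ?_
  split_ifs <;> rfl

/-- splitting a sum over all residues, `p ≡ 3 (mod 4)` -/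
lemma sum_split {n : ℕ} (hn : p = 2 * n + 1) (h3 : p % 4 = 3) (f : ZMod p → ℂ) :
    ∑ a : ZMod p, f a = f 0 + ∑ s : Fin n, (f (aa p s) + f (- aa p s)) := by
  rw [Finset.sum_add_distrib, sum_aa hn f, sum_aa hn (fun a => f (-a))]
  have h1 : (∑ a : ZMod p, if qc p a = 1 then f (-a) else 0) =
      ∑ a : ZMod p, if qc p a = -1 then f a else 0 := by
    refine Fintype.sum_equiv (Equiv.neg (ZMod p)) _ _ fun a => ?_
    have e : (Equiv.neg (ZMod p)) a = -a := rfl
    rw [e, qc_neg, qc_neg_one_of_three h3]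
    by_cases h : qc p a = 1
    · rw [if_pos h, if_pos (by rw [h]; norm_num)]
    · rw [if_neg h, if_neg (by omega)]
  rw [h1, ← Finset.sum_add_distrib, ← Finset.add_sum_erase Finset.univ f (Finset.mem_univ 0),
    ← Finset.add_sum_erase Finset.univ (fun a => (if qc p a = 1 then f a else 0) +
      if qc p a = -1 then f a else 0) (Finset.mem_univ 0)]
  rw [qc_zero, if_neg (by norm_num), if_neg (by norm_num), add_zero, zero_add]
  congr 1
  refine Finset.sum_congr rfl fun a ha => ?_
  rcases qc_cases (Finset.ne_of_mem_erase ha) with h | h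
  · rw [if_pos h, if_neg (by omega), add_zero]
  · rw [if_neg (by omega), if_pos h, zero_add]

/-- the derivative of `x ^ p - 1` at a root -/
lemma prod_erase (a : ZMod p) : ∏ b ∈ univ.erase a, (ps p a - ps p b) = p * ps p (-a) := by
  have h1 : Lagrange.nodal univ (fun b : ZMod p => ps p b) = X ^ p - 1 := by
    apply Polynomial.funext
    intro z
    rw [Lagrange.eval_nodal, prod_all]
    simp
  have h2 := Lagrange.eval_nodal_derivative_eval_node_eq (s := univ) (v := fun b : ZMod p => ps p b)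
    (Finset.mem_univ a)
  rw [h1, Lagrange.eval_nodal] at h2
  rw [← h2]
  simp only [derivative_sub, derivative_X_pow, derivative_one, sub_zero, eval_mul, eval_pow,
    eval_X, map_natCast, eval_natCast]
  congr 1
  have h3 : ps p a ^ p = 1 := by
    have h5 : ps p a ^ p = ps p (p • a) := (AddChar.map_nsmul_eq_pow _ _ _).symm
    rw [h5, nsmul_eq_mul, ZMod.natCast_self, zero_mul, ps_zero]
  have h4 := ps_mul_neg (p := p) a
  have h0 : ps p a ≠ 0 := left_ne_zero_of_mul_eq_one h4
  apply mul_left_cancel₀ h0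
  rw [h4, ← pow_succ', Nat.sub_add_cancel (Fact.out : p.Prime).one_le, h3]

lemma prod_one_sub : ∏ b ∈ univ.erase (0 : ZMod p), (1 - ps p b) = p := by
  have := prod_erase (p := p) 0
  rw [ps_zero, neg_zero, ps_zero, mul_one] at this
  exact this

lemma norm_ps (a : ZMod p) : ‖ps p a‖ = 1 := by
  have h : ps p a ^ p = 1 := by
    have h5 : ps p a ^ p = ps p (p • a) := (AddChar.map_nsmul_eq_pow _ _ _).symm
    rw [h5, nsmul_eq_mul, ZMod.natCast_self, zero_mul, ps_zero]
  exact Complex.norm_eq_one_of_pow_eq_one h (Fact.out : p.Prime).ne_zero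

lemma conj_ps (a : ZMod p) : (starRingEnd ℂ) (ps p a) = ps p (-a) := by
  have h1 := ps_mul_neg (p := p) a
  have h2 : ps p a * (starRingEnd ℂ) (ps p a) = 1 := by
    rw [Complex.mul_conj, Complex.normSq_eq_norm_sq, norm_ps]; norm_num
  have h0 : ps p a ≠ 0 := left_ne_zero_of_mul_eq_one h1
  exact mul_left_cancel₀ h0 (h2.trans h1.symm)

/-- The absolute value of the product over the residues or nonresidues. -/
lemma norm_prod_aa {n : ℕ} (hn : p = 2 * n + 1) (h3 : p % 4 = 3) {c : ZMod p} (hc : c ≠ 0) :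
    (∏ s : Fin n, ‖1 - ps p (c * aa p s)‖) ^ 2 = p := by
  have h1 : ∏ s : Fin n, ‖1 - ps p (c * aa p s)‖ = ‖PE p (qc p c) 1‖ := by
    rw [prod_aa hn (fun a => ‖1 - ps p (c * a)‖),
      prod_mul_unit hc 1 (fun a => ‖1 - ps p a‖), mul_one, PE, norm_prod]
    refine Finset.prod_congr rfl fun a _ => ?_
    split_ifs <;> simp
  have h2 : ∀ ε : ℤ, (starRingEnd ℂ) (PE p ε 1) = PE p (-ε) 1 := by
    intro ε
    have h0 : (-1 : ZMod p) ≠ 0 := neg_ne_zero.2 one_ne_zero
    have h4 := prod_mul_unit (p := p) (u := -1) h0 ε (fun a => 1 - ps p a)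
    rw [qc_neg_one_of_three h3, neg_one_mul] at h4
    rw [PE, PE, ← h4, map_prod]
    refine Finset.prod_congr rfl fun a _ => ?_
    split_ifs
    · rw [map_sub, map_one, conj_ps, neg_one_mul]
    · rw [map_one]
  have h4 : PE p 1 1 * PE p (-1) 1 = p := by
    rw [← prod_one_sub, PE, PE, ← Finset.prod_mul_distrib,
      ← Finset.mul_prod_erase Finset.univ _ (Finset.mem_univ (0 : ZMod p)), qc_zero,
      if_neg (by norm_num), if_neg (by norm_num), one_mul, one_mul]
    refine Finset.prod_congr rfl fun a ha => ?_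
    rcases qc_cases (Finset.ne_of_mem_erase ha) with h | h
    · rw [if_pos h, if_neg (by omega), mul_one]
    · rw [if_neg (by omega), if_pos h, one_mul]
  have h5 : ‖PE p 1 1‖ ^ 2 = p ∧ ‖PE p (-1) 1‖ ^ 2 = p := by
    have h6 := congrArg norm (h2 1)
    rw [Complex.norm_conj] at h6
    have h7 := congrArg norm h4
    rw [norm_mul, ← h6, Complex.norm_natCast] at h7
    constructor
    · rw [sq, h7]
    · rw [← h6, sq, h7]
  rw [h1]
  rcases qc_cases hc with h | h
  · rw [h]; exact h5.1
  · rw [h]; exact h5.2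

/-- reindexing by a residue -/
lemma prod_aa_mul {M : Type*} [CommMonoid M] {n : ℕ} (hn : p = 2 * n + 1) {a : ZMod p}
    (ha : qc p a = 1) (f : ZMod p → M) : ∏ t : Fin n, f (a * aa p t) = ∏ t : Fin n, f (aa p t) := by
  have ha0 : a ≠ 0 := by
    rintro rfl
    rw [qc_zero] at ha
    norm_num at ha
  rw [prod_aa hn f, prod_aa hn (fun b => f (a * b)), prod_mul_unit ha0 1 f, ha, one_mul]

lemma prod_pair_add {n : ℕ} (hn : p = 2 * n + 1) (h3 : p % 4 = 3) {F : ZMod p → ℝ} {K : ℝ}
    (hF : ∀ c : ZMod p, c ≠ 0 → ∏ s : Fin n, F (c * aa p s) = K) {c : ZMod p} (hc : c ≠ 0) :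
    ∏ s : Fin n, ∏ t : Fin n, F (c * (aa p s + aa p t)) = K ^ n := by
  have h1 : ∀ s : Fin n, ∏ t : Fin n, F (c * (aa p s + aa p t)) =
      ∏ t : Fin n, F ((c * (1 + aa p t)) * aa p s) := by
    intro s
    rw [← prod_aa_mul hn (qc_aa hn s) (fun b => F (c * (aa p s + b)))]
    refine Finset.prod_congr rfl fun t _ => ?_
    congr 1
    ring
  rw [Finset.prod_congr rfl (fun s _ => h1 s), Finset.prod_comm]
  rw [Finset.prod_congr rfl (fun t _ => hF _ (mul_ne_zero hc (by
    intro h
    have h2 : aa p t = -1 := by linear_combination h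
    have h4 := qc_aa hn t
    rw [h2, qc_neg_one_of_three h3] at h4
    norm_num at h4))), Finset.prod_const, Finset.card_univ, Fintype.card_fin]

lemma prod_pair_sub {n : ℕ} (hn : p = 2 * n + 1) (hn0 : 0 < n) {F : ZMod p → ℝ} {K : ℝ}
    (hF : ∀ c : ZMod p, c ≠ 0 → ∏ s : Fin n, F (c * aa p s) = K) {c : ZMod p} (hc : c ≠ 0) :
    ∏ s : Fin n, ∏ t ∈ univ.erase s, F (c * (aa p s - aa p t)) = K ^ (n - 1) := by
  have h1 : ∀ s : Fin n, ∏ t ∈ univ.erase s, F (c * (aa p s - aa p t)) =
      ∏ t : Fin n, if aa p t = 1 then 1 else F ((c * (1 - aa p t)) * aa p s) := by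
    intro s
    have e : ∏ t : Fin n, (if aa p t = aa p s then 1 else F (c * (aa p s - aa p t))) =
        ∏ t ∈ univ.erase s, F (c * (aa p s - aa p t)) := by
      rw [← Finset.mul_prod_erase Finset.univ _ (Finset.mem_univ s), if_pos rfl, one_mul]
      refine Finset.prod_congr rfl fun t ht => ?_
      rw [if_neg]
      intro h
      exact Finset.ne_of_mem_erase ht (aa_inj hn h)
    rw [← e, ← prod_aa_mul hn (qc_aa hn s) (fun b => if b = aa p s then 1 else F (c * (aa p s - b)))]
    refine Finset.prod_congr rfl fun t _ => ?_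
    have h0 := aa_ne_zero hn s
    by_cases ht : aa p t = 1
    · rw [if_pos ht, if_pos (by rw [ht, mul_one])]
    · rw [if_neg ht, if_neg]
      · congr 1; ring
      · intro h
        exact ht (mul_left_cancel₀ h0 (by rw [h, mul_one]))
  rw [Finset.prod_congr rfl (fun s _ => h1 s), Finset.prod_comm,
    ← Finset.mul_prod_erase Finset.univ _ (Finset.mem_univ (⟨0, hn0⟩ : Fin n))]
  have h2 : aa p ((⟨0, hn0⟩ : Fin n) : ℕ) = 1 := by simp [aa]
  rw [Finset.prod_eq_one (fun s _ => by rw [if_pos h2]), one_mul]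
  rw [Finset.prod_congr rfl (g := fun _ => K) (fun t ht => ?_), Finset.prod_const,
    Finset.card_erase_of_mem (Finset.mem_univ _), Finset.card_univ, Fintype.card_fin]
  have h4 : aa p t ≠ 1 := by
    intro h
    rw [← h2] at h
    exact Finset.ne_of_mem_erase ht (aa_inj hn h)
  rw [← hF (c * (1 - aa p t)) (mul_ne_zero hc (by
    intro h
    exact h4 (by linear_combination - h)))]
  exact Finset.prod_congr rfl fun s _ => by rw [if_neg h4]

end

/-! ### Lagrange matrices -/

section

variable {n : ℕ}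

/-- The matrix of the coefficients of the Lagrange polynomials. -/
noncomputable def LM (x : Fin n → ℂ) : Matrix (Fin n) (Fin n) ℂ :=
  fun s j => (Lagrange.basis univ x s).coeff j

lemma basis_deg {x : Fin n → ℂ} (hx : Function.Injective x) (hn : 0 < n) (s : Fin n) :
    (Lagrange.basis univ x s).natDegree < n := by
  have h1 := Lagrange.degree_basis (s := univ) (v := x) (i := s) (hx.injOn) (Finset.mem_univ s)
  rw [Finset.card_univ, Fintype.card_fin] at h1
  rw [Polynomial.natDegree_eq_of_degree_eq_some h1]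
  omega

lemma eval_sum {f : ℂ[X]} (hf : f.natDegree < n) (z : ℂ) :
    f.eval z = ∑ j : Fin n, f.coeff j * z ^ (j : ℕ) := by
  rw [Polynomial.eval_eq_sum_range' hf, Fin.sum_univ_eq_sum_range (fun j => f.coeff j * z ^ j) n]

/-- The determinant of the Lagrange matrix times a Vandermonde matrix. -/
lemma LM_mul {x : Fin n → ℂ} (hx : Function.Injective x) (hn : 0 < n) (z : Fin n → ℂ) :
    LM x * (Matrix.vandermonde z).transpose = Matrix.of fun s t => (Lagrange.basis univ x s).eval (z t) := by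
  ext s t
  rw [Matrix.mul_apply, Matrix.of_apply, eval_sum (basis_deg hx hn s)]
  rfl

lemma LM_self {x : Fin n → ℂ} (hx : Function.Injective x) (hn : 0 < n) :
    LM x * (Matrix.vandermonde x).transpose = 1 := by
  rw [LM_mul hx hn]
  ext s t
  rw [Matrix.of_apply, Matrix.one_apply]
  split_ifs with h
  · subst h
    exact Lagrange.eval_basis_self hx.injOn (Finset.mem_univ s)
  · exact Lagrange.eval_basis_of_ne h (Finset.mem_univ t)

lemma det_LM {x : Fin n → ℂ} (hx : Function.Injective x) (hn : 0 < n) :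
    (LM x).det * (Matrix.vandermonde x).det = 1 := by
  have h := congrArg Matrix.det (LM_self hx hn)
  rwa [Matrix.det_mul, Matrix.det_transpose, Matrix.det_one] at h

/-- the value of the Lagrange polynomial -/
lemma basis_eval {x : Fin n → ℂ} (s : Fin n) {z : ℂ} (hz : z ≠ x s)
    (hx : ∏ t ∈ univ.erase s, (x s - x t) ≠ 0) :
    (Lagrange.basis univ x s).eval z =
      (∏ t, (z - x t)) / ((z - x s) * ∏ t ∈ univ.erase s, (x s - x t)) := by
  rw [Lagrange.eval_basis_not_at_node (Finset.mem_univ s) hz, Lagrange.eval_nodal, Lagrange.nodalWeight,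
    Finset.prod_inv_distrib]
  have h1 : z - x s ≠ 0 := sub_ne_zero.2 hz
  field_simp

/-- the square of the absolute value of a Vandermonde determinant -/
lemma norm_vandermonde (x : Fin n → ℂ) :
    ‖(Matrix.vandermonde x).det‖ ^ 2 = ∏ s, ∏ t ∈ univ.erase s, ‖x s - x t‖ := by
  rw [Matrix.det_vandermonde]
  have h1 : ∀ s : Fin n, ∏ t ∈ univ.erase s, ‖x s - x t‖ =
      (∏ t ∈ Ioi s, ‖x s - x t‖) * ∏ t ∈ Iio s, ‖x s - x t‖ := by
    intro s
    rw [← Finset.prod_union]
    · congr 1
      ext t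
      simp only [mem_erase, mem_univ, and_true, mem_union, mem_Ioi, mem_Iio]
      rw [ne_iff_lt_or_gt, or_comm]
    · rw [Finset.disjoint_left]
      intro t h2 h3
      rw [mem_Ioi] at h2
      rw [mem_Iio] at h3
      exact absurd h2 (not_lt.2 h3.le)
  rw [Finset.prod_congr rfl (fun s _ => h1 s), Finset.prod_mul_distrib,
    Finset.prod_comm' (s := univ) (t := fun s => Iio s) (t' := univ) (s' := fun t => Ioi t)
      (by intro x y; simp), sq, norm_prod]
  congr 1
  · refine Finset.prod_congr rfl fun s _ => ?_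
    rw [norm_prod]
    exact Finset.prod_congr rfl fun t _ => by rw [norm_sub_rev]
  · refine Finset.prod_congr rfl fun s _ => ?_
    rw [norm_prod]

end

end Pool.Agent.X12
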