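import Pool.Agent.X12.Toep

/-!
# Legendre symbol Toeplitz matrices: the determinant of `G (j - k / p) + 1`
-/

set_option autoImplicit false

namespace Pool.Agent.X12

open Finset Complex Polynomial

section bordered

variable {m R : Type*} [Fintype m] [DecidableEq m] [CommRing R]

/-- the bordered matrix -/
def bd (C : Matrix m m R) : Matrix (Unit ⊕ m) (Unit ⊕ m) R :=
  Matrix.fromBlocks 0 (Matrix.of fun _ _ => -1) (Matrix.of fun _ _ => 1) C

lemma det_add_J (C : Matrix m m R) (x : R) :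
    (C + x • Matrix.of fun _ _ => (1 : R)).det = C.det + x * (bd C).det := by
  set M0 : Matrix (Unit ⊕ m) (Unit ⊕ m) R :=
    Matrix.fromBlocks 0 0 (Matrix.of fun _ _ => 1) C with hM0
  have h1 : (C + x • Matrix.of fun _ _ => (1 : R)) =
      C - (Matrix.of fun (_ : m) (_ : Unit) => (1 : R)) * (Matrix.of fun (_ : Unit) (_ : m) => -x) := by
    ext i j
    simp [Matrix.mul_apply]
  rw [h1, ← Matrix.det_fromBlocks_one₁₁]
  have h2 : Matrix.fromBlocks 1 (Matrix.of fun (_ : Unit) (_ : m) => -x)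
      (Matrix.of fun (_ : m) (_ : Unit) => (1 : R)) C =
      M0.updateRow (Sum.inl ()) (Sum.elim (fun _ => 1) (fun _ => 0) +
        x • Sum.elim (fun _ => 0) (fun _ => -1)) := by
    ext i j
    rcases i with i | i <;> rcases j with j | j <;>
      simp [hM0, Matrix.updateRow_apply]
  rw [h2, Matrix.det_updateRow_add, Matrix.det_updateRow_smul]
  congr 1
  · have h3 : M0.updateRow (Sum.inl ()) (Sum.elim (fun _ => 1) (fun _ => 0)) =
        Matrix.fromBlocks 1 0 (Matrix.of fun _ _ => 1) C := by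
      ext i j
      rcases i with i | i <;> rcases j with j | j <;>
        simp [hM0, Matrix.updateRow_apply]
    rw [h3, Matrix.det_fromBlocks_zero₁₂, Matrix.det_one, one_mul]
  · congr 2
    ext i j
    rcases i with i | i <;> rcases j with j | j <;>
      simp [hM0, bd, Matrix.updateRow_apply]

omit [Fintype m] [DecidableEq m] in
lemma bd_skew {C : Matrix m m R} (hC : ∀ i j, C i j = - C j i) : ∀ i j, bd C i j = - bd C j i := by
  intro i j
  rcases i with i | i <;> rcases j with j | j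
  · simp [bd]
  · simp [bd]
  · simp [bd]
  · simp [bd, hC i j]

omit [Fintype m] [DecidableEq m] in
lemma bd_map {S : Type*} [CommRing S] (f : R →+* S) (C : Matrix m m R) :
    bd (C.map f) = (bd C).map f := by
  ext i j
  rcases i with i | i <;> rcases j with j | j <;> simp [bd]

end bordered

section

variable {p : ℕ} [Fact p.Prime]

/-- the Toeplitz matrix of the Legendre symbols -/
def TC (p : ℕ) [Fact p.Prime] (n : ℕ) : Matrix (Fin n) (Fin n) ℤ :=
  Matrix.of fun j k => qc p (((j : ℕ) : ZMod p) - ((k : ℕ) : ZMod p))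

/-- `2⁻¹ (s + 1)²` -/
def bb (p : ℕ) [Fact p.Prime] (s : ℕ) : ZMod p := 2⁻¹ * aa p s

lemma two_ne' (hp : p ≠ 2) : (2 : ZMod p) ≠ 0 := by
  intro h
  have h2 : ((2 : ℕ) : ZMod p) = 0 := by push_cast; exact h
  rw [ZMod.natCast_eq_zero_iff] at h2
  have := Nat.le_of_dvd (by norm_num) h2
  have h3 := (Fact.out : p.Prime).two_le
  omega

lemma bb_add (hp : p ≠ 2) (s : ℕ) : bb p s + bb p s = aa p s := by
  have h := two_ne' hp
  rw [bb, ← two_mul, ← mul_assoc, mul_inv_cancel₀ h, one_mul]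

lemma ps_pow_p (a : ZMod p) : ps p a ^ p = 1 := by
  have h5 : ps p a ^ p = ps p (p • a) := (AddChar.map_nsmul_eq_pow _ _ _).symm
  rw [h5, nsmul_eq_mul, ZMod.natCast_self, zero_mul, ps_zero]

lemma ps_ne_neg_one (hp : p ≠ 2) (a : ZMod p) : ps p a ≠ -1 := by
  intro h
  have h1 := ps_pow_p (p := p) a
  rw [h, ((Fact.out : p.Prime).eq_two_or_odd'.resolve_left hp).neg_one_pow] at h1
  norm_num at h1

lemma ps_ne_one {a : ZMod p} (ha : a ≠ 0) : ps p a ≠ 1 := by
  intro h
  rw [← ps_zero (p := p)] at h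
  exact ha (ps_inj h)

lemma ps_ne_zero (a : ZMod p) : ps p a ≠ 0 := left_ne_zero_of_mul_eq_one (ps_mul_neg a)

lemma ps_neg' (a : ZMod p) : ps p (-a) = (ps p a)⁻¹ :=
  (inv_eq_of_mul_eq_one_right (ps_mul_neg a)).symm

lemma xs_eq (hp : p ≠ 2) (s : ℕ) : ps p (aa p s) = ps p (bb p s) ^ 2 := by
  rw [← bb_add hp, ps_add, sq]

lemma aa_add_ne {n : ℕ} (hn : p = 2 * n + 1) (h3 : p % 4 = 3) (s t : Fin n) : aa p s + aa p t ≠ 0 := by
  intro h
  have h1 := qc_aa hn s
  have h2 := qc_aa hn t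
  have h4 : aa p s = - aa p t := by linear_combination h
  rw [h4, qc_neg, qc_neg_one_of_three h3, h2] at h1
  norm_num at h1

lemma bb_add_ne {n : ℕ} (hn : p = 2 * n + 1) (h3 : p % 4 = 3) (s t : Fin n) : bb p s + bb p t ≠ 0 := by
  have hp : p ≠ 2 := by rintro rfl; norm_num at h3
  intro h
  apply aa_add_ne hn h3 s t
  rw [← bb_add hp, ← bb_add hp]
  linear_combination 2 * h

/-- `S'(x_s)` -/
noncomputable def Sd (p : ℕ) [Fact p.Prime] {n : ℕ} (s : Fin n) : ℂ :=
  ∏ t ∈ univ.erase s, (ps p (aa p s) - ps p (aa p t))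

lemma Sd_ne_zero {n : ℕ} (hn : p = 2 * n + 1) (s : Fin n) : Sd p s ≠ 0 := by
  rw [Sd, Finset.prod_ne_zero_iff]
  intro t ht
  rw [sub_ne_zero]
  intro h
  exact Finset.ne_of_mem_erase ht (aa_inj hn (ps_inj h)).symm

lemma prod_nodes {n : ℕ} (hn : p = 2 * n + 1) (z : ℂ) : ∏ s : Fin n, (z - ps p (aa p s)) = PE p 1 z :=
  prod_aa hn (fun a => z - ps p a)

lemma Sd_mul {n : ℕ} (hn : p = 2 * n + 1) (s : Fin n) :
    (ps p (aa p s) - 1) * Sd p s * PE p (-1) (ps p (aa p s)) * ps p (aa p s) = p := by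
  have h1 := prod_erase (p := p) (aa p s)
  set x := ps p (aa p s) with hx
  have h2 : ∏ b ∈ univ.erase (aa p s), (x - ps p b) =
      ∏ b : ZMod p, if b = aa p s then 1 else x - ps p b := by
    rw [← Finset.mul_prod_erase Finset.univ _ (Finset.mem_univ (aa p s)), if_pos rfl, one_mul]
    exact Finset.prod_congr rfl fun b hb => by rw [if_neg (Finset.ne_of_mem_erase hb)]
  have h4 : ∏ b : ZMod p, (if b = aa p s then 1 else x - ps p b) =
      (x - 1) * (∏ b : ZMod p, if qc p b = 1 then (if b = aa p s then 1 else x - ps p b) else 1) *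
        PE p (-1) x := by
    rw [PE, mul_assoc, ← Finset.prod_mul_distrib,
      ← Finset.mul_prod_erase Finset.univ _ (Finset.mem_univ (0 : ZMod p)),
      ← Finset.mul_prod_erase Finset.univ (fun b => (if qc p b = 1 then
        (if b = aa p s then 1 else x - ps p b) else 1) * if qc p b = -1 then x - ps p b else 1)
        (Finset.mem_univ (0 : ZMod p)), qc_zero, if_neg (Ne.symm (aa_ne_zero hn s)), if_neg (by norm_num),
      if_neg (by norm_num), one_mul, one_mul, ps_zero]
    congr 1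
    refine Finset.prod_congr rfl fun b hb => ?_
    rcases qc_cases (Finset.ne_of_mem_erase hb) with h | h
    · rw [if_pos h, if_neg (c := qc p b = -1) (by omega), mul_one]
    · rw [if_neg (c := qc p b = 1) (by omega), if_pos (c := qc p b = -1) h, one_mul, if_neg]
      intro h5
      rw [h5, qc_aa hn s] at h
      norm_num at h
  have h5 : (∏ b : ZMod p, if qc p b = 1 then (if b = aa p s then 1 else x - ps p b) else 1) = Sd p s := by
    rw [← prod_aa hn (fun b => if b = aa p s then 1 else x - ps p b), Sd,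
      ← Finset.mul_prod_erase Finset.univ _ (Finset.mem_univ s), if_pos rfl, one_mul]
    refine Finset.prod_congr rfl fun t ht => ?_
    rw [if_neg]
    intro h
    exact Finset.ne_of_mem_erase ht (aa_inj hn h)
  rw [h2, h4, h5] at h1
  rw [h1, mul_assoc, mul_comm (ps p (-aa p s)), ps_mul_neg, mul_one]

/-- the value of `S` at the inverse of a node -/
lemma S_inv {n : ℕ} (hn : p = 2 * n + 1) (h3 : p % 4 = 3) (h5 : 3 < p) (s : Fin n) :
    PE p 1 (ps p (aa p s))⁻¹ = - ps p (bb p s) * PE p (-1) (ps p (aa p s)) := by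
  have hp : p ≠ 2 := by omega
  have h1 := PE_inv hn h3 h5 (Or.inl rfl) (ps_ne_zero (p := p) (aa p s))
  have h2 : ps p (aa p s) ^ n * ps p (bb p s) = 1 := by
    rw [xs_eq hp, ← pow_mul, ← pow_succ, ← hn, ps_pow_p]
  linear_combination (ps p (bb p s)) * h1 - PE p 1 (ps p (aa p s))⁻¹ * h2

/-- `x_s S(1/x_s) S'(x_s)` -/
lemma us_eq {n : ℕ} (hn : p = 2 * n + 1) (h3 : p % 4 = 3) (h5 : 3 < p) (s : Fin n) :
    ps p (aa p s) * PE p 1 (ps p (aa p s))⁻¹ * Sd p s * (ps p (aa p s) - 1) = - p * ps p (bb p s) := by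
  rw [S_inv hn h3 h5, ← Sd_mul hn s]
  ring

lemma S_one_sq {n : ℕ} (hn : p = 2 * n + 1) (h3 : p % 4 = 3) (h5 : 3 < p) : PE p 1 1 ^ 2 = - (p : ℂ) := by
  have h1 := PE_inv hn h3 h5 (Or.inl rfl) (one_ne_zero (α := ℂ))
  rw [inv_one, one_pow, mul_one] at h1
  have h4 : PE p 1 1 * PE p (-1) 1 = p := by
    rw [← prod_one_sub, PE, PE, ← Finset.prod_mul_distrib,
      ← Finset.mul_prod_erase Finset.univ _ (Finset.mem_univ (0 : ZMod p)), qc_zero,
      if_neg (by norm_num), if_neg (by norm_num), one_mul, one_mul]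
    refine Finset.prod_congr rfl fun a ha => ?_
    rcases qc_cases (Finset.ne_of_mem_erase ha) with h | h
    · rw [if_pos h, if_neg (by omega), mul_one]
    · rw [if_neg (by omega), if_pos h, one_mul]
  rw [sq, ← h4]
  linear_combination (PE p 1 1) * h1

end

end Pool.Agent.X12
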