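import Pool.Agent.X12.Toep2
import Pool.Agent.X12.Circ

/-!
# Legendre symbol Toeplitz matrices: the evaluation
-/

set_option autoImplicit false

namespace Pool.Agent.X12

open Finset Complex Polynomial

section

variable {p : ℕ} [Fact p.Prime]

/-- the nodes -/
noncomputable def xs (p : ℕ) [Fact p.Prime] (n : ℕ) : Fin n → ℂ := fun s => ps p (aa p s)

/-- their square roots -/
noncomputable def ys (p : ℕ) [Fact p.Prime] (n : ℕ) : Fin n → ℂ := fun s => ps p (bb p s)

lemma xs_inj {n : ℕ} (hn : p = 2 * n + 1) : Function.Injective (xs p n) := by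
  intro s t h
  exact aa_inj hn (ps_inj h)

lemma bb_inj {n : ℕ} (hn : p = 2 * n + 1) (h2 : p ≠ 2) {s t : Fin n} (h : bb p s = bb p t) : s = t := by
  apply aa_inj hn
  show aa p s = aa p t
  rw [← bb_add h2, ← bb_add h2, h]

lemma ys_inj {n : ℕ} (hn : p = 2 * n + 1) (h2 : p ≠ 2) : Function.Injective (ys p n) := by
  intro s t h
  exact bb_inj hn h2 (ps_inj h)

lemma L_one {n : ℕ} (hn : p = 2 * n + 1) (s : Fin n) :
    (Lagrange.basis univ (xs p n) s).eval 1 = PE p 1 1 / ((1 - xs p n s) * Sd p s) := by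
  have h1 : (1 : ℂ) ≠ xs p n s := Ne.symm (ps_ne_one (aa_ne_zero hn s))
  rw [basis_eval s h1 (Sd_ne_zero hn s)]
  congr 1
  exact prod_nodes hn 1

lemma L_inv {n : ℕ} (hn : p = 2 * n + 1) (h3 : p % 4 = 3) (h5 : 3 < p) (s t : Fin n) :
    (Lagrange.basis univ (xs p n) t).eval (xs p n s)⁻¹ =
      (- p * ys p n s / (xs p n s - 1)) / ((1 - xs p n s * xs p n t) * Sd p s * Sd p t) := by
  have hx0 : xs p n s ≠ 0 := ps_ne_zero _
  have hst : 1 - xs p n s * xs p n t ≠ 0 := by
    intro h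
    have h6 : ps p (aa p s + aa p t) = 1 := by
      rw [ps_add]
      exact (sub_eq_zero.1 h).symm
    exact ps_ne_one (aa_add_ne hn h3 s t) h6
  have h1 : (xs p n s)⁻¹ ≠ xs p n t := by
    intro h
    apply hst
    rw [← h, mul_inv_cancel₀ hx0, sub_self]
  have hx1 : xs p n s - 1 ≠ 0 := sub_ne_zero.2 (ps_ne_one (aa_ne_zero hn s))
  have hs := Sd_ne_zero hn s
  have ht := Sd_ne_zero hn t
  rw [basis_eval t h1 (Sd_ne_zero hn t)]
  have h2 : ∏ u : Fin n, ((xs p n s)⁻¹ - xs p n u) = PE p 1 (xs p n s)⁻¹ := prod_nodes hn _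
  have h4 : xs p n s * PE p 1 (xs p n s)⁻¹ * Sd p s * (xs p n s - 1) = - p * ys p n s :=
    us_eq hn h3 h5 s
  have h6 : ((xs p n s)⁻¹ - xs p n t) = (1 - xs p n s * xs p n t) / xs p n s := by
    field_simp
  have h7 : ∏ u ∈ univ.erase t, (xs p n t - xs p n u) = Sd p t := rfl
  rw [h2, h6, h7, ← h4]
  field_simp

/-- the key identity -/
lemma W_eq {n : ℕ} (hn : p = 2 * n + 1) (h3 : p % 4 = 3) (h5 : 3 < p) (s t : Fin n) :
    (Lagrange.basis univ (xs p n) t).eval (xs p n s)⁻¹ -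
      (Lagrange.basis univ (xs p n) s).eval (xs p n t)⁻¹ +
      (Lagrange.basis univ (xs p n) s).eval 1 * (Lagrange.basis univ (xs p n) t).eval 1 =
      p / ((1 + ys p n s) * Sd p s) * (1 / (1 - ys p n s * ys p n t)) *
        (1 / ((ys p n t - 1) * Sd p t)) := by
  have h2 : p ≠ 2 := by omega
  have hs := Sd_ne_zero hn s
  have ht := Sd_ne_zero hn t
  rw [L_inv hn h3 h5, L_inv hn h3 h5, L_one hn, L_one hn]
  have hS := S_one_sq hn h3 h5
  have hxs : xs p n s = ys p n s ^ 2 := xs_eq h2 s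
  have hxt : xs p n t = ys p n t ^ 2 := xs_eq h2 t
  have hx1 : ys p n s ^ 2 - 1 ≠ 0 := by
    rw [← hxs]; exact sub_ne_zero.2 (ps_ne_one (aa_ne_zero hn s))
  have hx2 : ys p n t ^ 2 - 1 ≠ 0 := by
    rw [← hxt]; exact sub_ne_zero.2 (ps_ne_one (aa_ne_zero hn t))
  have hst : 1 - ys p n s ^ 2 * ys p n t ^ 2 ≠ 0 := by
    rw [← hxs, ← hxt]
    intro h
    have h6 : ps p (aa p s + aa p t) = 1 := by
      rw [ps_add]
      exact (sub_eq_zero.1 h).symm
    exact ps_ne_one (aa_add_ne hn h3 s t) h6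
  rw [hxs, hxt]
  set y := ys p n s with hy
  set z := ys p n t with hz
  have f1 : (y ^ 2 - 1) = (y - 1) * (1 + y) := by ring
  have f2 : (z ^ 2 - 1) = (z - 1) * (1 + z) := by ring
  have f3 : 1 - y ^ 2 * z ^ 2 = (1 - y * z) * (1 + y * z) := by ring
  have f4 : 1 - y ^ 2 = - ((y - 1) * (1 + y)) := by ring
  have f5 : 1 - z ^ 2 = - ((z - 1) * (1 + z)) := by ring
  have f6 : 1 - z ^ 2 * y ^ 2 = (1 - y * z) * (1 + y * z) := by ring
  rw [f1] at hx1
  rw [f2] at hx2
  rw [f3] at hst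
  have a1 := left_ne_zero_of_mul hx1
  have a2 := right_ne_zero_of_mul hx1
  have a3 := left_ne_zero_of_mul hx2
  have a4 := right_ne_zero_of_mul hx2
  have a5 := left_ne_zero_of_mul hst
  have a6 := right_ne_zero_of_mul hst
  rw [f1, f2, f3, f4, f5, f6]
  field_simp
  rw [hS]
  ring

/-- The matrix `G (j - k / p) + 1`. -/
noncomputable def AT (p : ℕ) [Fact p.Prime] (n : ℕ) : Matrix (Fin n) (Fin n) ℂ :=
  Matrix.of fun j k => Gs p * qc p (((j : ℕ) : ZMod p) - ((k : ℕ) : ZMod p)) + 1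

lemma ps_pow' (a : ZMod p) (j : ℕ) : ps p a ^ j = ps p (a * j) := by
  have h5 : ps p a ^ j = ps p (j • a) := (AddChar.map_nsmul_eq_pow _ _ _).symm
  rw [h5, nsmul_eq_mul, mul_comm]

/-- the weights -/
noncomputable def et (p : ℕ) [Fact p.Prime] (r : ZMod p) : ℂ := qc p r + if r = 0 then 1 else 0

lemma AT_eq {n : ℕ} (h2 : p ≠ 2) : AT p n =
    (Matrix.of fun (j : Fin n) (r : ZMod p) => ps p r ^ (j : ℕ)) * Matrix.diagonal (et p) *
      (Matrix.of fun (k : Fin n) (r : ZMod p) => ps p (-r) ^ (k : ℕ)).transpose := by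
  ext j k
  rw [Matrix.mul_apply]
  simp only [Matrix.mul_diagonal, Matrix.of_apply, Matrix.transpose_apply]
  have h1 : ∀ r : ZMod p, ps p r ^ (j : ℕ) * et p r * ps p (-r) ^ (k : ℕ) =
      qc p r * ps p (r * (((j : ℕ) : ZMod p) - ((k : ℕ) : ZMod p))) + if r = 0 then 1 else 0 := by
    intro r
    have e : ps p r ^ (j : ℕ) * ps p (-r) ^ (k : ℕ) =
        ps p (r * (((j : ℕ) : ZMod p) - ((k : ℕ) : ZMod p))) := by
      rw [ps_pow', ps_pow', ← ps_add]
      congr 1
      ring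
    rw [et]
    split_ifs with h
    · subst h
      rw [qc_zero]
      simp [ps_zero]
    · rw [add_zero, add_zero, ← e]
      ring
  rw [Finset.sum_congr rfl (fun r _ => h1 r), Finset.sum_add_distrib, sum_qc_ps h2]
  simp [AT, mul_comm]

/-- the product with the Lagrange matrices -/
lemma LM_AT {n : ℕ} (hn : p = 2 * n + 1) (hn0 : 0 < n) (h3 : p % 4 = 3) (h5 : 3 < p) :
    LM (xs p n) * AT p n * (LM (xs p n)).transpose =
      Matrix.diagonal (fun s => (p : ℂ) / ((1 + ys p n s) * Sd p s)) *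
        (Matrix.of fun s t => 1 / (1 - ys p n s * ys p n t)) *
        Matrix.diagonal (fun t => 1 / ((ys p n t - 1) * Sd p t)) := by
  have h2 : p ≠ 2 := by omega
  have hev : ∀ (w : ZMod p → ℂ) (s : Fin n) (r : ZMod p),
      (LM (xs p n) * (Matrix.of fun (j : Fin n) (r : ZMod p) => w r ^ (j : ℕ))) s r =
        (Lagrange.basis univ (xs p n) s).eval (w r) := by
    intro w s r
    rw [Matrix.mul_apply, eval_sum (basis_deg (xs_inj hn) hn0 s)]
    rfl
  ext s t
  rw [Matrix.mul_diagonal, Matrix.diagonal_mul, Matrix.of_apply, ← W_eq hn h3 h5 s t, AT_eq h2]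
  have e1 : LM (xs p n) * ((Matrix.of fun (j : Fin n) (r : ZMod p) => ps p r ^ (j : ℕ)) *
      Matrix.diagonal (et p) *
      (Matrix.of fun (k : Fin n) (r : ZMod p) => ps p (-r) ^ (k : ℕ)).transpose) *
      (LM (xs p n)).transpose =
      (LM (xs p n) * (Matrix.of fun (j : Fin n) (r : ZMod p) => ps p r ^ (j : ℕ))) *
        Matrix.diagonal (et p) * (LM (xs p n) *
        (Matrix.of fun (k : Fin n) (r : ZMod p) => ps p (-r) ^ (k : ℕ))).transpose := by
    rw [Matrix.transpose_mul]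
    simp only [Matrix.mul_assoc]
  rw [e1, Matrix.mul_apply]
  simp only [Matrix.mul_diagonal, Matrix.transpose_apply]
  rw [Finset.sum_congr rfl (fun r _ => by rw [hev (fun r => ps p r), hev (fun r => ps p (-r))]),
    sum_split hn h3]
  have hb : ∀ (s u : Fin n), (Lagrange.basis univ (xs p n) s).eval (ps p (aa p u)) =
      if s = u then 1 else 0 := by
    intro s u
    split_ifs with h
    · subst h
      exact Lagrange.eval_basis_self (xs_inj hn).injOn (Finset.mem_univ s)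
    · exact Lagrange.eval_basis_of_ne (v := xs p n) h (Finset.mem_univ u)
  have h6 : ∀ u : Fin n, et p (aa p u) = 1 := by
    intro u
    rw [et, qc_aa hn u, if_neg (aa_ne_zero hn u)]; norm_num
  have h7 : ∀ u : Fin n, et p (-aa p u) = -1 := by
    intro u
    rw [et, qc_neg, qc_neg_one_of_three h3, qc_aa hn u, if_neg (neg_ne_zero.2 (aa_ne_zero hn u))]
    norm_num
  have h8 : et p 0 = 1 := by rw [et, qc_zero, if_pos rfl]; norm_num
  simp only [neg_neg, hb, h6, h7, h8, neg_zero, ps_zero]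
  rw [Finset.sum_add_distrib]
  have h9 : ∑ u : Fin n, (if s = u then (1 : ℂ) else 0) * 1 *
      (Lagrange.basis univ (xs p n) t).eval (ps p (-aa p u)) =
      (Lagrange.basis univ (xs p n) t).eval (xs p n s)⁻¹ := by
    simp [ps_neg', xs]
  have h10 : ∑ u : Fin n, (Lagrange.basis univ (xs p n) s).eval (ps p (-aa p u)) * -1 *
      (if t = u then (1 : ℂ) else 0) = - (Lagrange.basis univ (xs p n) s).eval (xs p n t)⁻¹ := by
    simp [ps_neg', xs]
  rw [h9, h10]
  ring

end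

end Pool.Agent.X12
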