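import Pool.Agent.X12.Toep3

/-!
# Legendre symbol Toeplitz matrices: the sum of the cofactors
-/

set_option autoImplicit false

namespace Pool.Agent.X12

open Finset Complex Polynomial

section

variable {p : ℕ} [Fact p.Prime]

/-- `|1 - ζ^c|` -/
noncomputable def Fn (p : ℕ) [Fact p.Prime] (c : ZMod p) : ℝ := ‖1 - ps p c‖

/-- `√p` as a product -/
noncomputable def Kp (p : ℕ) [Fact p.Prime] (n : ℕ) : ℝ := ∏ s : Fin n, Fn p (aa p s)

lemma Kp_sq {n : ℕ} (hn : p = 2 * n + 1) (h3 : p % 4 = 3) : Kp p n ^ 2 = p := by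
  have := norm_prod_aa hn h3 (c := 1) one_ne_zero
  simp only [one_mul] at this
  exact this

lemma Kp_nonneg {n : ℕ} : 0 ≤ Kp p n := Finset.prod_nonneg fun _ _ => norm_nonneg _

lemma Kp_pos {n : ℕ} (hn : p = 2 * n + 1) (h3 : p % 4 = 3) : 0 < Kp p n := by
  rcases Kp_nonneg.eq_or_lt (a := (0 : ℝ)) (b := Kp p n) with h | h
  · exfalso
    have h1 := Kp_sq hn h3
    rw [← h] at h1
    have h2 : (p : ℝ) ≠ 0 := by exact_mod_cast (Fact.out : p.Prime).ne_zero
    apply h2
    rw [← h1]; norm_num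
  · exact h

lemma Fn_prod {n : ℕ} (hn : p = 2 * n + 1) (h3 : p % 4 = 3) (c : ZMod p) (hc : c ≠ 0) :
    ∏ s : Fin n, Fn p (c * aa p s) = Kp p n := by
  have h1 := norm_prod_aa hn h3 hc
  have h2 := Kp_sq hn h3
  have h4 : 0 ≤ ∏ s : Fin n, Fn p (c * aa p s) := Finset.prod_nonneg fun _ _ => norm_nonneg _
  have h5 : (∏ s : Fin n, Fn p (c * aa p s)) ^ 2 = Kp p n ^ 2 := by
    rw [h2]; exact h1
  exact (pow_left_inj₀ h4 Kp_nonneg two_ne_zero).1 h5

lemma norm_sub_ps (a b : ZMod p) : ‖ps p a - ps p b‖ = Fn p (a - b) := by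
  have e : ps p a - ps p b = - (ps p b * (1 - ps p (a - b))) := by
    have : ps p a = ps p b * ps p (a - b) := by rw [← ps_add]; congr 1; ring
    rw [this]; ring
  rw [e, norm_neg, norm_mul, norm_ps, one_mul, Fn]

lemma prod_Sd {n : ℕ} (hn : p = 2 * n + 1) (hn0 : 0 < n) (h3 : p % 4 = 3) :
    ∏ s : Fin n, ‖Sd p s‖ = Kp p n ^ (n - 1) := by
  rw [← prod_pair_sub hn hn0 (Fn_prod hn h3) (c := 1) one_ne_zero]
  refine Finset.prod_congr rfl fun s _ => ?_
  rw [Sd, norm_prod]
  refine Finset.prod_congr rfl fun t _ => ?_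
  rw [norm_sub_ps, one_mul]

lemma norm_V {n : ℕ} (hn : p = 2 * n + 1) (hn0 : 0 < n) (h3 : p % 4 = 3) :
    ‖(Matrix.vandermonde (xs p n)).det‖ ^ 2 = Kp p n ^ (n - 1) := by
  rw [norm_vandermonde, ← prod_Sd hn hn0 h3]
  refine Finset.prod_congr rfl fun s _ => ?_
  rw [Sd, norm_prod]
  rfl

/-- the Cauchy determinant -/
lemma norm_cauchy {n : ℕ} (hn : p = 2 * n + 1) (hn0 : 0 < n) (h3 : p % 4 = 3) :
    ‖(Matrix.of fun s t : Fin n => 1 / (1 - ys p n s * ys p n t)).det‖ * Kp p n = 1 := by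
  have h2 : p ≠ 2 := by rintro rfl; norm_num at h3
  have h2' := two_ne' h2
  have h2i : (2 : ZMod p)⁻¹ ≠ 0 := inv_ne_zero h2'
  have hy := ys_inj hn h2
  have hK := Kp_pos hn h3
  have hR : ∏ s : Fin n, ‖∏ u ∈ univ.erase s, (ys p n s - ys p n u)‖ = Kp p n ^ (n - 1) := by
    rw [← prod_pair_sub hn hn0 (Fn_prod hn h3) h2i]
    refine Finset.prod_congr rfl fun s _ => ?_
    rw [norm_prod]
    refine Finset.prod_congr rfl fun t _ => ?_
    show ‖ps p (bb p s) - ps p (bb p t)‖ = _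
    rw [norm_sub_ps, bb, bb, mul_sub]
  have hR0 : ∀ s : Fin n, ∏ u ∈ univ.erase s, (ys p n s - ys p n u) ≠ 0 := by
    intro s
    rw [Finset.prod_ne_zero_iff]
    intro t ht
    rw [sub_ne_zero]
    intro h
    exact Finset.ne_of_mem_erase ht (hy h).symm
  have hy0 : ∀ s, ys p n s ≠ 0 := fun s => ps_ne_zero _
  have hst : ∀ s t, 1 - ys p n s * ys p n t ≠ 0 := by
    intro s t h
    have h6 : ps p (bb p s + bb p t) = 1 := by
      rw [ps_add]
      exact (sub_eq_zero.1 h).symm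
    exact ps_ne_one (bb_add_ne hn h3 s t) h6
  have hR2 : ∏ t : Fin n, ‖ys p n t * ∏ u : Fin n, ((ys p n t)⁻¹ - ys p n u)‖ = Kp p n ^ n := by
    rw [← prod_pair_add hn h3 (Fn_prod hn h3) h2i]
    refine Finset.prod_congr rfl fun s _ => ?_
    rw [norm_mul, show ‖ys p n s‖ = 1 from norm_ps _, one_mul, norm_prod]
    refine Finset.prod_congr rfl fun t _ => ?_
    have : (ys p n s)⁻¹ = ps p (- bb p s) := (ps_neg' _).symm
    rw [this]
    show ‖ps p (- bb p s) - ps p (bb p t)‖ = _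
    rw [norm_sub_rev, norm_sub_ps, bb, bb]
    congr 1
    ring
  have hfac : LM (ys p n) * (Matrix.vandermonde (fun t => (ys p n t)⁻¹)).transpose =
      Matrix.diagonal (fun s => (∏ u ∈ univ.erase s, (ys p n s - ys p n u))⁻¹) *
        (Matrix.of fun s t : Fin n => 1 / (1 - ys p n s * ys p n t)) *
        Matrix.diagonal (fun t => ys p n t * ∏ u : Fin n, ((ys p n t)⁻¹ - ys p n u)) := by
    rw [LM_mul hy hn0]
    ext s t
    rw [Matrix.mul_diagonal, Matrix.diagonal_mul, Matrix.of_apply, Matrix.of_apply]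
    have hne : (ys p n t)⁻¹ ≠ ys p n s := by
      intro h
      apply hst s t
      rw [← h, inv_mul_cancel₀ (hy0 t), sub_self]
    rw [basis_eval s hne (hR0 s)]
    have e : (ys p n t)⁻¹ - ys p n s = (1 - ys p n s * ys p n t) / ys p n t := by
      have := hy0 t
      field_simp
    rw [e]
    have a1 := hst s t
    have a2 := hR0 s
    have a3 := hy0 t
    field_simp
  have hdet := congrArg norm (congrArg Matrix.det hfac)
  rw [Matrix.det_mul, Matrix.det_mul, Matrix.det_mul, Matrix.det_diagonal, Matrix.det_diagonal,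
    Matrix.det_transpose, norm_mul, norm_mul, norm_mul, norm_prod, norm_prod, hR2] at hdet
  have hinv : ∏ s : Fin n, ‖(∏ u ∈ univ.erase s, (ys p n s - ys p n u))⁻¹‖ =
      (Kp p n ^ (n - 1))⁻¹ := by
    rw [← hR, ← Finset.prod_inv_distrib]
    exact Finset.prod_congr rfl fun s _ => by rw [norm_inv]
  rw [hinv] at hdet
  have hVV : ‖(Matrix.vandermonde (fun t => (ys p n t)⁻¹)).det‖ =
      ‖(Matrix.vandermonde (ys p n)).det‖ := by
    rw [← pow_left_inj₀ (norm_nonneg _) (norm_nonneg _) two_ne_zero, norm_vandermonde,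
      norm_vandermonde]
    refine Finset.prod_congr rfl fun s _ => Finset.prod_congr rfl fun t _ => ?_
    have e : (ys p n s)⁻¹ - (ys p n t)⁻¹ = - ((ys p n s)⁻¹ * (ys p n t)⁻¹ * (ys p n s - ys p n t)) := by
      have a1 := hy0 s
      have a2 := hy0 t
      field_simp
      ring
    rw [e, norm_neg, norm_mul, norm_mul, norm_inv, norm_inv, show ‖ys p n s‖ = 1 from norm_ps _,
      show ‖ys p n t‖ = 1 from norm_ps _]
    norm_num
  have hLV := congrArg norm (det_LM hy hn0)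
  rw [norm_mul, norm_one] at hLV
  rw [hVV, hLV] at hdet
  have hKn : Kp p n ^ (n - 1) ≠ 0 := pow_ne_zero _ hK.ne'
  have hKn2 : Kp p n ^ n = Kp p n ^ (n - 1) * Kp p n := by
    rw [← pow_succ, Nat.sub_add_cancel hn0]
  rw [hKn2] at hdet
  field_simp at hdet
  linarith

/-- the absolute value of the determinant of `G (j - k / p) + 1` -/
lemma norm_AT {n : ℕ} (hn : p = 2 * n + 1) (hn0 : 0 < n) (h3 : p % 4 = 3) (h5 : 3 < p) :
    ‖(AT p n).det‖ = Kp p n ^ (n - 1) := by
  have h2 : p ≠ 2 := by omega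
  have hK := Kp_pos hn h3
  have hdet := congrArg norm (congrArg Matrix.det (LM_AT hn hn0 h3 h5))
  rw [Matrix.det_mul, Matrix.det_mul, Matrix.det_mul, Matrix.det_mul, Matrix.det_diagonal,
    Matrix.det_diagonal, Matrix.det_transpose, norm_mul, norm_mul, norm_mul, norm_mul, norm_prod,
    norm_prod] at hdet
  have hLV := congrArg norm (det_LM (xs_inj hn) hn0)
  rw [norm_mul, norm_one] at hLV
  have hV := norm_V hn hn0 h3
  have hC := norm_cauchy hn hn0 h3
  have hS := prod_Sd hn hn0 h3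
  have hx : (∏ s : Fin n, ‖1 + ys p n s‖) * ∏ s : Fin n, ‖ys p n s - 1‖ = Kp p n := by
    rw [← Finset.prod_mul_distrib, Kp]
    refine Finset.prod_congr rfl fun s _ => ?_
    rw [← norm_mul, Fn]
    have : xs p n s = ys p n s ^ 2 := xs_eq h2 s
    rw [show ps p (aa p s) = xs p n s from rfl, this, norm_sub_rev]
    congr 1
    ring
  have hA : ∏ s : Fin n, ‖(p : ℂ) / ((1 + ys p n s) * Sd p s)‖ =
      (p : ℝ) ^ n / ((∏ s : Fin n, ‖1 + ys p n s‖) * Kp p n ^ (n - 1)) := by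
    rw [← hS, ← Finset.prod_mul_distrib]
    have : (p : ℝ) ^ n = ∏ _s : Fin n, (p : ℝ) := by
      rw [Finset.prod_const, Finset.card_univ, Fintype.card_fin]
    rw [this, ← Finset.prod_div_distrib]
    exact Finset.prod_congr rfl fun s _ => by rw [norm_div, norm_mul, Complex.norm_natCast]
  have hB : ∏ s : Fin n, ‖1 / ((ys p n s - 1) * Sd p s)‖ =
      1 / ((∏ s : Fin n, ‖ys p n s - 1‖) * Kp p n ^ (n - 1)) := by
    rw [← hS, ← Finset.prod_mul_distrib]
    have : (1 : ℝ) = ∏ _s : Fin n, (1 : ℝ) := by simp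
    rw [this, ← Finset.prod_div_distrib]
    exact Finset.prod_congr rfl fun s _ => by rw [norm_div, norm_mul, norm_one]
  rw [hA, hB] at hdet
  set a := ∏ s : Fin n, ‖1 + ys p n s‖ with ha
  set b := ∏ s : Fin n, ‖ys p n s - 1‖ with hb
  set c := ‖(Matrix.of fun s t : Fin n => 1 / (1 - ys p n s * ys p n t)).det‖ with hc
  set l := ‖(LM (xs p n)).det‖ with hl
  set v := ‖(Matrix.vandermonde (xs p n)).det‖ with hv
  set D := ‖(AT p n).det‖ with hD
  set K := Kp p n with hKd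
  have hKp : (p : ℝ) = K ^ 2 := (Kp_sq hn h3).symm
  have hab : a * b ≠ 0 := by rw [hx]; exact hK.ne'
  have ha0 := left_ne_zero_of_mul hab
  have hb0 := right_ne_zero_of_mul hab
  have hKn : K ^ (n - 1) ≠ 0 := pow_ne_zero _ hK.ne'
  have hKn2 : K ^ n = K ^ (n - 1) * K := by
    rw [← pow_succ, Nat.sub_add_cancel hn0]
  have h6 : l * D * l * (a * b) * K ^ (n - 1) * K ^ (n - 1) = (K ^ 2) ^ n * c := by
    rw [hdet, hKp]
    field_simp
  rw [hx] at h6
  -- multiply by `v ^ 2 K`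
  have h7 : D * K * K ^ (n - 1) * K ^ (n - 1) * K = (K ^ 2) ^ n * (c * K) * v ^ 2 := by
    calc D * K * K ^ (n - 1) * K ^ (n - 1) * K = (l * v) ^ 2 * D * K * K ^ (n - 1) * K ^ (n - 1) * K := by
          rw [hLV]; ring
      _ = (l * D * l * K * K ^ (n - 1) * K ^ (n - 1)) * v ^ 2 * K := by ring
      _ = _ := by rw [h6]; ring
  rw [hC, hV, mul_one] at h7
  have h8 : (K ^ 2) ^ n = K * K ^ (n - 1) * K ^ (n - 1) * K := by
    rw [← pow_mul, mul_comm 2 n, pow_mul, hKn2]; ring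
  have h9 : K * K ^ (n - 1) * K ^ (n - 1) * K ≠ 0 :=
    mul_ne_zero (mul_ne_zero (mul_ne_zero hK.ne' hKn) hKn) hK.ne'
  apply mul_left_cancel₀ h9
  rw [← h8]
  calc (K ^ 2) ^ n * D = D * K * K ^ (n - 1) * K ^ (n - 1) * K := by rw [h8]; ring
    _ = _ := h7

/-- The bordered determinant. -/
lemma det_bd_TC {n : ℕ} (hn : p = 2 * n + 1) (h3 : p % 4 = 3) : (bd (TC p n)).det = 1 := by
  have hp := (Fact.out : p.Prime)
  have h2 : p ≠ 2 := by rintro rfl; norm_num at h3
  have hskew : ∀ i j, TC p n i j = - TC p n j i := by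
    intro i j
    simp only [TC, Matrix.of_apply]
    rw [← neg_sub, qc_neg, qc_neg_one_of_three h3]
    ring
  obtain ⟨d, hd⟩ := sq_of_skew (bd (TC p n)) (bd_skew hskew)
  have hn0 : 0 < n := by
    rcases Nat.eq_zero_or_pos n with h | h
    · exfalso; rw [h] at hn; exact hp.one_lt.ne' hn
    · exact h
  by_cases h5 : 3 < p
  swap
  · -- `p = 3`
    have h4 : p = 3 := by
      have := hp.two_le
      omega
    have hn1 : n = 1 := by omega
    subst hn1
    have h6 : (bd (TC p 1)).det = 1 := by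
      have e := det_add_J (TC p 1) (1 : ℤ)
      have hT : TC p 1 0 0 = 0 := by simp [TC]
      rw [Matrix.det_fin_one, Matrix.det_fin_one, Matrix.add_apply, hT, Matrix.smul_apply,
        Matrix.of_apply, smul_eq_mul, one_mul, zero_add, zero_add, one_mul] at e
      exact e.symm
    exact h6
  have hC0 : (TC p n).det = 0 := by
    have h6 : (TC p n).transpose = - TC p n := by
      ext i j
      rw [Matrix.transpose_apply, Matrix.neg_apply, hskew]
    have h7 := congrArg Matrix.det h6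
    rw [Matrix.det_transpose, Matrix.det_neg, Fintype.card_fin] at h7
    have hodd : Odd n := Nat.odd_iff.2 (by omega)
    rw [hodd.neg_one_pow] at h7
    omega
  have hG : Gs p ^ 2 = - (p : ℂ) := by
    rw [Gs_sq h2, qc_neg_one_of_three h3]
    push_cast; ring
  have hp0 : (p : ℂ) ≠ 0 := by exact_mod_cast hp.ne_zero
  have hG0 : Gs p ≠ 0 := by
    intro h
    rw [h] at hG
    apply hp0
    linear_combination hG
  have hGn : ‖Gs p‖ = Kp p n := by
    rw [← pow_left_inj₀ (norm_nonneg _) Kp_nonneg two_ne_zero, ← norm_pow, hG, norm_neg,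
      Complex.norm_natCast, Kp_sq hn h3]
  have hAT : (AT p n).det = Gs p ^ (n - 1) * ((bd (TC p n)).det : ℤ) := by
    have e1 : AT p n = Gs p • ((TC p n).map (Int.castRingHom ℂ) +
        (Gs p)⁻¹ • Matrix.of fun _ _ => (1 : ℂ)) := by
      ext j k
      simp only [AT, TC, Matrix.of_apply, Matrix.smul_apply, Matrix.add_apply, Matrix.map_apply,
        smul_eq_mul]
      have : (Int.castRingHom ℂ) (qc p (((j : ℕ) : ZMod p) - ((k : ℕ) : ZMod p))) =
        (qc p (((j : ℕ) : ZMod p) - ((k : ℕ) : ZMod p)) : ℂ) := rfl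
      rw [this]
      field_simp
    rw [e1, Matrix.det_smul, det_add_J, Fintype.card_fin, bd_map]
    have e2 : ((TC p n).map (Int.castRingHom ℂ)).det = 0 := by
      rw [← RingHom.mapMatrix_apply, ← RingHom.map_det, hC0, map_zero]
    have e3 : ((bd (TC p n)).map (Int.castRingHom ℂ)).det = ((bd (TC p n)).det : ℤ) := by
      rw [← RingHom.mapMatrix_apply, ← RingHom.map_det]
      rfl
    rw [e2, e3, zero_add]
    have : Gs p ^ n = Gs p ^ (n - 1) * Gs p := by rw [← pow_succ, Nat.sub_add_cancel hn0]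
    rw [this]
    field_simp
  have h6 := congrArg norm hAT
  rw [norm_AT hn hn0 h3 h5, norm_mul, norm_pow, hGn, hd] at h6
  have hKn : Kp p n ^ (n - 1) ≠ 0 := pow_ne_zero _ (Kp_pos hn h3).ne'
  have h7 : ‖((d ^ 2 : ℤ) : ℂ)‖ = 1 := by
    apply mul_left_cancel₀ hKn
    rw [← h6, mul_one]
  rw [Complex.norm_intCast] at h7
  have h8 : |d ^ 2| = 1 := by exact_mod_cast h7
  rw [abs_of_nonneg (sq_nonneg d)] at h8
  rw [hd, h8]

end

end Pool.Agent.X12
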