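import Pool.Agent.X12.Newt

/-!
# A Toeplitz system and the cofactor sum of order `(p - 5) / 2`
-/

set_option autoImplicit false

namespace Pool.Agent.X12

open Finset Complex Polynomial

section

variable {p : ℕ} [Fact p.Prime]

/-- the solution vector -/
noncomputable def vv (p : ℕ) [Fact p.Prime] (k : ℕ) : ℂ :=
  (if k = 0 then 0 else (BP p).coeff (2 * k - 1)) - Gs p * (BP p).coeff (2 * k) -
    (BP p).coeff (2 * k + 1)

lemma vv_zero {n : ℕ} (hn : p = 2 * n + 1) (h3 : p % 4 = 3) (h5 : 3 < p) : vv p 0 = 0 := by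
  obtain ⟨h0, h1, -⟩ := BP_coeffs hn h3 h5
  rw [vv, if_pos rfl, mul_zero, zero_add, h0, h1]
  ring

lemma vv_last {n : ℕ} (hn : p = 2 * n + 1) (h3 : p % 4 = 3) (h5 : 3 < p) : vv p n = 0 := by
  obtain ⟨-, -, -, -, h0, h1, h2⟩ := BP_coeffs hn h3 h5
  rw [vv, if_neg (by omega), h0, h1, h2]
  ring

lemma vv_one {n : ℕ} (hn : p = 2 * n + 1) (h3 : p % 4 = 3) (h5 : 3 < p) :
    3 * vv p 1 = Gs p * (2 * (n - 1) + qc p 3) := by
  obtain ⟨-, h1, h2, h4, -⟩ := BP_coeffs hn h3 h5
  rw [vv, if_neg one_ne_zero]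
  show 3 * ((BP p).coeff 1 - Gs p * (BP p).coeff 2 - (BP p).coeff 3) = _
  rw [h1, h2]
  linear_combination - h4

lemma vhat {n : ℕ} (hn : p = 2 * n + 1) (h3 : p % 4 = 3) (h5 : 3 < p) (u : ZMod p) :
    ∑ k : Fin n, vv p k * ps p (u * (2 * ((k : ℕ) : ZMod p))) =
      ps p u ^ 2 * Ov p n u - Gs p * Ev p n u - Ov p n u := by
  have h0 : ∑ k : Fin n, vv p k * ps p (u * (2 * ((k : ℕ) : ZMod p))) =
      ∑ k ∈ range (n + 1), vv p k * ps p (u * (2 * (k : ZMod p))) := by
    rw [Finset.sum_range_succ, vv_last hn h3 h5, zero_mul, add_zero,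
      Finset.sum_range (fun k => vv p k * ps p (u * (2 * (k : ZMod p))))]
  rw [h0]
  have h1 : ∑ k ∈ range (n + 1), (if k = 0 then 0 else (BP p).coeff (2 * k - 1)) *
      ps p (u * (2 * (k : ZMod p))) = ps p u ^ 2 * Ov p n u := by
    rw [Finset.sum_range_succ', if_pos rfl, zero_mul, add_zero, Ov, Finset.mul_sum]
    refine Finset.sum_congr rfl fun k _ => ?_
    rw [if_neg (by omega), ← ps_two]
    have e : ps p (u * (2 * ((k + 1 : ℕ) : ZMod p))) = ps p (2 * u) * ps p (u * (2 * (k : ZMod p))) := by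
      rw [← ps_add]
      congr 1
      push_cast
      ring
    rw [e, show 2 * (k + 1) - 1 = 2 * k + 1 by omega]
    ring
  have h2 : ∑ k ∈ range (n + 1), (BP p).coeff (2 * k + 1) * ps p (u * (2 * (k : ZMod p))) =
      Ov p n u := by
    obtain ⟨-, -, -, -, -, -, h2⟩ := BP_coeffs hn h3 h5
    rw [Finset.sum_range_succ, h2, zero_mul, add_zero, Ov]
  rw [← h1, ← h2, Ev, Finset.mul_sum, ← Finset.sum_sub_distrib, ← Finset.sum_sub_distrib]
  refine Finset.sum_congr rfl fun k _ => ?_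
  rw [vv]
  ring

lemma cast_ne {z : ℤ} (h1 : z % 2 = 1) (h2 : -(p : ℤ) < z) (h3 : z < p) : ((z : ℤ) : ZMod p) ≠ 0 := by
  intro h
  rw [ZMod.intCast_zmod_eq_zero_iff_dvd] at h
  obtain ⟨c, hc⟩ := h
  have hp : (0 : ℤ) < p := by exact_mod_cast (Fact.out : p.Prime).pos
  have hc1 : c < 1 := by
    by_contra hcon
    push Not at hcon
    nlinarith
  have hc2 : -1 < c := by
    by_contra hcon
    push Not at hcon
    nlinarith
  have hc0 : c = 0 := by omega
  rw [hc0, mul_zero] at hc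
  omega

/-- The Toeplitz system. -/
lemma TC_vv {n : ℕ} (hn : p = 2 * n + 1) (h3 : p % 4 = 3) (h5 : 3 < p) (j : Fin n) :
    Gs p * ∑ k : Fin n, (qc p (((j : ℕ) : ZMod p) - ((k : ℕ) : ZMod p)) : ℂ) * vv p k =
      qc p (-2) * ((if (j : ℕ) = 0 then -(p : ℂ) else 0) + Gs p * Ov p n 0) := by
  have h2 : p ≠ 2 := by omega
  have h2' := two_ne' h2
  have hm2 : (-2 : ZMod p) ≠ 0 := neg_ne_zero.2 h2'
  have hodd : p % 2 = 1 := by omega
  -- the Gauss sum expansion
  have hG : ∀ c : ZMod p, Gs p * qc p c = qc p (-2) * ∑ u : ZMod p, qc p u * ps p (-2 * u * c) := by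
    intro c
    rw [mul_comm, ← sum_qc_ps h2 c, Finset.mul_sum]
    symm
    refine Fintype.sum_equiv (Equiv.mulLeft₀ (-2) hm2) _ _ fun u => ?_
    have e : (Equiv.mulLeft₀ (-2 : ZMod p) hm2) u = -2 * u := rfl
    rw [e, qc_mul]
    push_cast
    ring
  have step1 : Gs p * ∑ k : Fin n, (qc p (((j : ℕ) : ZMod p) - ((k : ℕ) : ZMod p)) : ℂ) * vv p k =
      qc p (-2) * ∑ u : ZMod p, qc p u * ps p (-2 * u * ((j : ℕ) : ZMod p)) *
        ∑ k : Fin n, vv p k * ps p (u * (2 * ((k : ℕ) : ZMod p))) := by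
    rw [Finset.mul_sum]
    have e1 : ∀ k : Fin n, Gs p * ((qc p (((j : ℕ) : ZMod p) - ((k : ℕ) : ZMod p)) : ℂ) * vv p k) =
        qc p (-2) * ∑ u : ZMod p, qc p u * ps p (-2 * u * ((j : ℕ) : ZMod p)) *
          (vv p k * ps p (u * (2 * ((k : ℕ) : ZMod p)))) := by
      intro k
      rw [← mul_assoc, hG, mul_assoc, Finset.sum_mul]
      congr 1
      refine Finset.sum_congr rfl fun u _ => ?_
      have : ps p (-2 * u * (((j : ℕ) : ZMod p) - ((k : ℕ) : ZMod p))) =
          ps p (-2 * u * ((j : ℕ) : ZMod p)) * ps p (u * (2 * ((k : ℕ) : ZMod p))) := by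
        rw [← ps_add]; congr 1; ring
      rw [this]
      ring
    rw [Finset.sum_congr rfl (fun k _ => e1 k), ← Finset.mul_sum, Finset.sum_comm]
    congr 1
    refine Finset.sum_congr rfl fun u _ => ?_
    rw [Finset.mul_sum]
  rw [step1]
  congr 1
  -- replace the inner sums
  have step2 : ∀ u : ZMod p, qc p u * ps p (-2 * u * ((j : ℕ) : ZMod p)) *
      ∑ k : Fin n, vv p k * ps p (u * (2 * ((k : ℕ) : ZMod p))) =
      ps p (-2 * u * ((j : ℕ) : ZMod p)) * (ps p u * Ev p n u - Gs p * (ps p u * Ov p n u) -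
        ps p (-u) * Ev p n u) + if u = 0 then Gs p * Ov p n 0 else 0 := by
    intro u
    rw [vhat hn h3 h5]
    by_cases hu : u = 0
    · subst hu
      rw [qc_zero, if_pos rfl]
      simp only [neg_zero, mul_zero, zero_mul, ps_zero, Int.cast_zero]
      ring
    · rw [if_neg hu, add_zero]
      have hE := Ev_eq hn h3 hu
      have h4 : (qc p u : ℂ) * qc p u = 1 := by exact_mod_cast qc_sq hu
      have h6 := ps_mul_neg (p := p) u
      have h7 : (qc p u : ℂ) * Ev p n u = ps p u * Ov p n u := by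
        rw [hE]; linear_combination (ps p u * Ov p n u) * h4
      have h8 : (qc p u : ℂ) * Ov p n u = ps p (-u) * Ev p n u := by
        rw [hE]; linear_combination (- qc p u * Ov p n u) * h6
      have h9 : ps p u ^ 2 * (ps p (-u) * Ev p n u) = ps p u * Ev p n u := by
        linear_combination (ps p u * Ev p n u) * h6
      calc qc p u * ps p (-2 * u * ((j : ℕ) : ZMod p)) *
          (ps p u ^ 2 * Ov p n u - Gs p * Ev p n u - Ov p n u) =
          ps p (-2 * u * ((j : ℕ) : ZMod p)) * (ps p u ^ 2 * ((qc p u : ℂ) * Ov p n u) -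
            Gs p * ((qc p u : ℂ) * Ev p n u) - (qc p u : ℂ) * Ov p n u) := by ring
        _ = _ := by rw [h7, h8, h9]
  rw [Finset.sum_congr rfl (fun u _ => step2 u), Finset.sum_add_distrib, Finset.sum_ite_eq' univ,
    if_pos (Finset.mem_univ _)]
  congr 1
  -- the three full sums
  have hpn : (p : ℤ) = 2 * n + 1 := by exact_mod_cast hn
  have hj := j.2
  have f1 : ∑ u : ZMod p, ps p (-2 * u * ((j : ℕ) : ZMod p)) * (ps p u * Ev p n u) =
      if (j : ℕ) = 0 then -(p : ℂ) else 0 := by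
    have e1 : ∀ u : ZMod p, ps p (-2 * u * ((j : ℕ) : ZMod p)) * (ps p u * Ev p n u) =
        ∑ k ∈ range (n + 1), (BP p).coeff (2 * k) *
          ps p (u * (((2 * k + 1 - 2 * (j : ℕ) : ℤ)) : ZMod p)) := by
      intro u
      rw [Ev, Finset.mul_sum, Finset.mul_sum]
      refine Finset.sum_congr rfl fun k _ => ?_
      have : ps p (u * (((2 * k + 1 - 2 * (j : ℕ) : ℤ)) : ZMod p)) =
          ps p (-2 * u * ((j : ℕ) : ZMod p)) * (ps p u * ps p (u * (2 * (k : ZMod p)))) := by
        rw [← ps_add, ← ps_add]; congr 1; push_cast; ring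
      rw [this]; ring
    rw [Finset.sum_congr rfl (fun u _ => e1 u), Finset.sum_comm]
    simp only [← Finset.mul_sum, sum_ps]
    obtain ⟨-, -, -, -, h0, -, -⟩ := BP_coeffs hn h3 h5
    rw [Finset.sum_range_succ]
    have e2 : ∑ k ∈ range n, (BP p).coeff (2 * k) *
        (if (((2 * k + 1 - 2 * (j : ℕ) : ℤ)) : ZMod p) = 0 then (p : ℂ) else 0) = 0 := by
      refine Finset.sum_eq_zero fun k hk => ?_
      have hk' := Finset.mem_range.1 hk
      rw [if_neg (cast_ne (by omega) (by omega) (by omega)), mul_zero]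
    rw [e2, zero_add, h0]
    split_ifs with a b b
    · ring
    · exfalso
      apply cast_ne (p := p) (z := 2 * (n : ℕ) + 1 - 2 * (j : ℕ)) (by omega) (by omega) (by omega) a
    · exfalso
      apply a
      rw [b, ZMod.intCast_zmod_eq_zero_iff_dvd]
      exact ⟨1, by push_cast; omega⟩
    · ring
  have f2 : ∑ u : ZMod p, ps p (-2 * u * ((j : ℕ) : ZMod p)) * (ps p u * Ov p n u) = 0 := by
    have e1 : ∀ u : ZMod p, ps p (-2 * u * ((j : ℕ) : ZMod p)) * (ps p u * Ov p n u) =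
        ∑ k ∈ range n, (BP p).coeff (2 * k + 1) *
          ps p (u * (((2 * k + 1 - 2 * (j : ℕ) : ℤ)) : ZMod p)) := by
      intro u
      rw [Ov, Finset.mul_sum, Finset.mul_sum]
      refine Finset.sum_congr rfl fun k _ => ?_
      have : ps p (u * (((2 * k + 1 - 2 * (j : ℕ) : ℤ)) : ZMod p)) =
          ps p (-2 * u * ((j : ℕ) : ZMod p)) * (ps p u * ps p (u * (2 * (k : ZMod p)))) := by
        rw [← ps_add, ← ps_add]; congr 1; push_cast; ring
      rw [this]; ring
    rw [Finset.sum_congr rfl (fun u _ => e1 u), Finset.sum_comm]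
    simp only [← Finset.mul_sum, sum_ps]
    refine Finset.sum_eq_zero fun k hk => ?_
    have hk' := Finset.mem_range.1 hk
    rw [if_neg (cast_ne (by omega) (by omega) (by omega)), mul_zero]
  have f3 : ∑ u : ZMod p, ps p (-2 * u * ((j : ℕ) : ZMod p)) * (ps p (-u) * Ev p n u) = 0 := by
    have e1 : ∀ u : ZMod p, ps p (-2 * u * ((j : ℕ) : ZMod p)) * (ps p (-u) * Ev p n u) =
        ∑ k ∈ range (n + 1), (BP p).coeff (2 * k) *
          ps p (u * (((2 * k - 1 - 2 * (j : ℕ) : ℤ)) : ZMod p)) := by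
      intro u
      rw [Ev, Finset.mul_sum, Finset.mul_sum]
      refine Finset.sum_congr rfl fun k _ => ?_
      have : ps p (u * (((2 * k - 1 - 2 * (j : ℕ) : ℤ)) : ZMod p)) =
          ps p (-2 * u * ((j : ℕ) : ZMod p)) * (ps p (-u) * ps p (u * (2 * (k : ZMod p)))) := by
        rw [← ps_add, ← ps_add]; congr 1; push_cast; ring
      rw [this]; ring
    rw [Finset.sum_congr rfl (fun u _ => e1 u), Finset.sum_comm]
    simp only [← Finset.mul_sum, sum_ps]
    refine Finset.sum_eq_zero fun k hk => ?_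
    have hk' := Finset.mem_range.1 hk
    rw [if_neg (cast_ne (by omega) (by omega) (by omega)), mul_zero]
  have e3 : ∀ u : ZMod p, ps p (-2 * u * ((j : ℕ) : ZMod p)) * (ps p u * Ev p n u -
      Gs p * (ps p u * Ov p n u) - ps p (-u) * Ev p n u) =
      ps p (-2 * u * ((j : ℕ) : ZMod p)) * (ps p u * Ev p n u) -
      Gs p * (ps p (-2 * u * ((j : ℕ) : ZMod p)) * (ps p u * Ov p n u)) -
      ps p (-2 * u * ((j : ℕ) : ZMod p)) * (ps p (-u) * Ev p n u) := fun u => by ring
  rw [Finset.sum_congr rfl (fun u _ => e3 u), Finset.sum_sub_distrib, Finset.sum_sub_distrib,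
    ← Finset.mul_sum, f1, f2, f3]
  ring

/-- `E(1) = 0` -/
lemma Ev_zero {n : ℕ} (hn : p = 2 * n + 1) (h3 : p % 4 = 3) (h5 : 3 < p) : Ev p n 0 = 0 := by
  have h1 := eval_split hn (e := 1) (by norm_num) (0 : ZMod p)
  have h2 := eval_split hn (e := -1) (by norm_num) (0 : ZMod p)
  rw [ps_zero] at h1 h2
  have h4 : (BP p).eval (-1 * 1) = - (BP p).eval (1 * 1) := by
    rw [BP, BPo, eval_prod, eval_prod]
    simp only [eval_sub, eval_one, eval_mul, eval_C, eval_X, mul_one]
    have h6 : ∀ a ∈ univ.erase (0 : ZMod p), 1 - rho p a * -1 =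
        (- rho p a) * ((-1) * (1 - rho p (-a))) := by
      intro a ha
      have h4 : (qc p a : ℂ) * qc p a = 1 := by exact_mod_cast qc_sq (Finset.ne_of_mem_erase ha)
      have h5 := ps_mul_neg (p := p) a
      rw [rho, rho, qc_neg, qc_neg_one_of_three h3]
      push_cast
      linear_combination (- ps p a * ps p (-a)) * h4 - h5
    rw [Finset.prod_congr rfl h6, Finset.prod_mul_distrib, prod_rho hn h3 h5, Finset.prod_mul_distrib,
      Finset.prod_const, card_erase hn, pow_mul, neg_one_sq, one_pow, one_mul, neg_one_mul]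
    congr 1
    refine Finset.prod_nbij' (fun a => -a) (fun a => -a) ?_ ?_ ?_ ?_ ?_
    · intro a ha; simpa using ha
    · intro a ha; simpa using ha
    · intro a _; simp
    · intro a _; simp
    · intro a _; rfl
  rw [h1, h2] at h4
  linear_combination (1 / 2) * h4

end

end Pool.Agent.X12
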