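import Pool.Agent.X12.Toep5

/-!
# The cofactor sum of order `(p - 5) / 2`
-/

set_option autoImplicit false

namespace Pool.Agent.X12

open Finset Complex Polynomial

section jacobi

variable {α β ι F : Type*} [Fintype α] [DecidableEq α] [Fintype β] [DecidableEq β] [Fintype ι]
  [DecidableEq ι] [Field F]

/-- Jacobi's identity for complementary minors. -/
lemma jacobi (M : Matrix ι ι F) (hM : M.det ≠ 0) (e : α ⊕ β ≃ ι) :
    (M.submatrix (e ∘ Sum.inr) (e ∘ Sum.inr)).det =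
      M.det * ((M⁻¹).submatrix (e ∘ Sum.inl) (e ∘ Sum.inl)).det := by
  set M' := M.submatrix e e with hM'
  set N' := (M⁻¹).submatrix e e with hN'
  have hMN : M' * N' = 1 := by
    rw [hM', hN', Matrix.submatrix_mul_equiv, Matrix.mul_nonsing_inv _ (isUnit_iff_ne_zero.2 hM),
      Matrix.submatrix_one_equiv]
  have hb : Matrix.fromBlocks M'.toBlocks₁₁ M'.toBlocks₁₂ M'.toBlocks₂₁ M'.toBlocks₂₂ *
      Matrix.fromBlocks N'.toBlocks₁₁ N'.toBlocks₁₂ N'.toBlocks₂₁ N'.toBlocks₂₂ = 1 := by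
    rw [Matrix.fromBlocks_toBlocks, Matrix.fromBlocks_toBlocks, hMN]
  rw [Matrix.fromBlocks_multiply, ← Matrix.fromBlocks_one, Matrix.fromBlocks_inj] at hb
  obtain ⟨h1, -, h3, -⟩ := hb
  have h5 : M' * Matrix.fromBlocks N'.toBlocks₁₁ 0 N'.toBlocks₂₁ 1 =
      Matrix.fromBlocks 1 M'.toBlocks₁₂ 0 M'.toBlocks₂₂ := by
    conv_lhs => rw [← Matrix.fromBlocks_toBlocks M']
    rw [Matrix.fromBlocks_multiply, h1, h3]
    simp
  have h6 := congrArg Matrix.det h5
  rw [Matrix.det_mul, Matrix.det_fromBlocks_zero₁₂, Matrix.det_fromBlocks_zero₂₁, Matrix.det_one,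
    Matrix.det_one, mul_one, one_mul, hM', Matrix.det_submatrix_equiv_self] at h6
  exact h6.symm

end jacobi

/-- the splitting of the index set -/
def spl (m : ℕ) : Fin 2 ⊕ (Unit ⊕ Fin m) ≃ Unit ⊕ Fin (2 + m) :=
  (Equiv.sumAssoc (Fin 2) Unit (Fin m)).symm.trans
    ((Equiv.sumCongr (Equiv.sumComm (Fin 2) Unit) (Equiv.refl _)).trans
      ((Equiv.sumAssoc Unit (Fin 2) (Fin m)).trans (Equiv.sumCongr (Equiv.refl Unit) finSumFinEquiv)))

lemma spl_inl (m : ℕ) (i : Fin 2) : spl m (Sum.inl i) = Sum.inr (Fin.castAdd m i) := by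
  simp [spl]

lemma spl_inr_inl (m : ℕ) (u : Unit) : spl m (Sum.inr (Sum.inl u)) = Sum.inl u := by
  simp [spl]

lemma spl_inr_inr (m : ℕ) (i : Fin m) : spl m (Sum.inr (Sum.inr i)) = Sum.inr (Fin.natAdd 2 i) := by
  simp [spl]

/-- The minor of a bordered skew matrix through the solution of a system. -/
lemma bd_minor {m : ℕ} (Cm : Matrix (Fin (2 + m)) (Fin (2 + m)) ℂ) (hC : ∀ i j, Cm i j = - Cm j i)
    (hdet : (bd Cm).det = 1) (v : Fin (2 + m) → ℂ) {κ l : ℂ} (hl : l ≠ 0)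
    (hv : ∀ j : Fin (2 + m), ∑ k, Cm j k * v k = κ + if (j : ℕ) = 0 then l else 0)
    (hs : ∑ k, v k = 0) :
    (bd (Cm.submatrix (Fin.natAdd 2) (Fin.natAdd 2) : Matrix (Fin m) (Fin m) ℂ)).det =
      (v (Fin.castAdd m 1) / l) ^ 2 := by
  set M := bd Cm with hM
  have hM0 : M.det ≠ 0 := by rw [hdet]; exact one_ne_zero
  have hsk : M.transpose = - M := by
    ext i j
    rw [Matrix.transpose_apply, Matrix.neg_apply]
    exact bd_skew hC j i
  have hNs : (M⁻¹).transpose = - M⁻¹ := by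
    rw [Matrix.transpose_nonsing_inv, hsk]
    apply Matrix.inv_eq_left_inv
    rw [neg_mul_neg, Matrix.nonsing_inv_mul _ (isUnit_iff_ne_zero.2 hM0)]
  have hent : ∀ i j, M⁻¹ i j = - M⁻¹ j i := by
    intro i j
    have := congrFun (congrFun hNs j) i
    rw [Matrix.transpose_apply, Matrix.neg_apply] at this
    exact this
  -- the system
  set i0 : Unit ⊕ Fin (2 + m) := Sum.inr (Fin.castAdd m 0) with hi0
  set i1 : Unit ⊕ Fin (2 + m) := Sum.inr (Fin.castAdd m 1) with hi1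
  set y : Unit ⊕ Fin (2 + m) → ℂ := Sum.elim (fun _ => -κ) v with hy
  have hMy : M.mulVec y = l • Pi.single i0 1 := by
    ext i
    rcases i with i | i
    · rw [Matrix.mulVec, dotProduct, Fintype.sum_sum_type]
      simp [hM, bd, hy, hi0, hs]
    · rw [Matrix.mulVec, dotProduct, Fintype.sum_sum_type]
      have e1 : ∑ k : Fin (2 + m), M (Sum.inr i) (Sum.inr k) * y (Sum.inr k) =
          κ + if (i : ℕ) = 0 then l else 0 := hv i
      rw [e1]
      have e2 : ∑ k : Unit, M (Sum.inr i) (Sum.inl k) * y (Sum.inl k) = -κ := by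
        simp [hM, bd, hy]
      rw [e2]
      by_cases h : (i : ℕ) = 0
      · have : i = Fin.castAdd m 0 := Fin.ext h
        rw [if_pos h, this]
        simp [hi0]
      · have : i ≠ Fin.castAdd m 0 := fun h1 => h (by rw [h1]; rfl)
        rw [if_neg h]
        simp [hi0, this]
  have hNy : y = l • (M⁻¹).mulVec (Pi.single i0 1) := by
    rw [← Matrix.mulVec_smul, ← hMy, Matrix.mulVec_mulVec,
      Matrix.nonsing_inv_mul _ (isUnit_iff_ne_zero.2 hM0), Matrix.one_mulVec]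
  have h10 : M⁻¹ i1 i0 = v (Fin.castAdd m 1) / l := by
    have h := congrFun hNy i1
    rw [Pi.smul_apply, Matrix.mulVec_single_one, Matrix.col_apply, smul_eq_mul] at h
    have h' : y i1 = v (Fin.castAdd m 1) := rfl
    rw [h'] at h
    rw [h, mul_div_cancel_left₀ _ hl]
  have key := jacobi M hM0 (spl m)
  rw [hdet, one_mul, Matrix.det_fin_two] at key
  simp only [Matrix.submatrix_apply, Function.comp_apply, spl_inl] at key
  have h00 : M⁻¹ i0 i0 = 0 := by
    have := hent i0 i0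
    have h2 : (2 : ℂ) * M⁻¹ i0 i0 = 0 := by linear_combination this
    exact (mul_eq_zero.1 h2).resolve_left two_ne_zero
  have h01 : M⁻¹ i0 i1 = - (v (Fin.castAdd m 1) / l) := by rw [hent, h10]
  have hk : (M⁻¹ i0 i0) * (M⁻¹ i1 i1) - M⁻¹ i0 i1 * M⁻¹ i1 i0 = (v (Fin.castAdd m 1) / l) ^ 2 := by
    rw [h00, h01, h10]; ring
  rw [← hk]
  refine Eq.trans ?_ key
  congr 1
  ext i j
  rcases i with i | i <;> rcases j with j | j
  · simp [bd, Matrix.submatrix_apply, spl_inr_inl, hM]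
  · simp [bd, Matrix.submatrix_apply, spl_inr_inl, spl_inr_inr, hM]
  · simp [bd, Matrix.submatrix_apply, spl_inr_inl, spl_inr_inr, hM]
  · simp [bd, Matrix.submatrix_apply, spl_inr_inr, hM]

section

variable {p : ℕ} [Fact p.Prime]

/-- The cofactor sum of order `(p - 5) / 2`. -/
lemma det_bd_small {m : ℕ} (hm : p = 2 * (2 + m) + 1) (h3 : p % 4 = 3) :
    9 * (bd (TC p m)).det = ((p : ℤ) - 3 + qc p 3) ^ 2 := by
  have h2 : p ≠ 2 := by omega
  have h5 : 3 < p := by omega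
  have hG : Gs p ^ 2 = - (p : ℂ) := by
    rw [Gs_sq h2, qc_neg_one_of_three h3]
    push_cast; ring
  have hp0 : (p : ℂ) ≠ 0 := by exact_mod_cast (Fact.out : p.Prime).ne_zero
  have hG0 : Gs p ≠ 0 := by
    intro h
    rw [h] at hG
    apply hp0
    linear_combination hG
  have hq : (qc p (-2) : ℂ) * qc p (-2) = 1 := by
    exact_mod_cast qc_sq (neg_ne_zero.2 (two_ne' h2))
  have hq0 : (qc p (-2) : ℂ) ≠ 0 := left_ne_zero_of_mul_eq_one hq
  set Cm : Matrix (Fin (2 + m)) (Fin (2 + m)) ℂ := (TC p (2 + m)).map (Int.castRingHom ℂ) with hCm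
  have hskew : ∀ i j, Cm i j = - Cm j i := by
    intro i j
    simp only [hCm, TC, Matrix.map_apply, Matrix.of_apply]
    rw [← map_neg]
    congr 1
    rw [← neg_sub, qc_neg, qc_neg_one_of_three h3]
    ring
  have hdet : (bd Cm).det = 1 := by
    rw [hCm, bd_map, ← RingHom.mapMatrix_apply, ← RingHom.map_det, det_bd_TC hm h3, map_one]
  have hl : (qc p (-2) : ℂ) * Gs p ≠ 0 := mul_ne_zero hq0 hG0
  have key := bd_minor Cm hskew hdet (fun k => vv p k) (κ := qc p (-2) * Ov p (2 + m) 0)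
    (l := qc p (-2) * Gs p) hl ?_ ?_
  · have e1 : bd (Cm.submatrix (Fin.natAdd 2) (Fin.natAdd 2) : Matrix (Fin m) (Fin m) ℂ) =
        (bd (TC p m)).map (Int.castRingHom ℂ) := by
      rw [← bd_map]
      congr 1
      ext i j
      simp only [hCm, TC, Matrix.submatrix_apply, Matrix.map_apply, Matrix.of_apply, Fin.val_natAdd]
      congr 2
      push_cast
      ring
    rw [e1, ← RingHom.mapMatrix_apply, ← RingHom.map_det] at key
    have e2 : vv p ((Fin.castAdd m (1 : Fin 2) : Fin (2 + m)) : ℕ) = vv p 1 := rfl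
    simp only [e2] at key
    have h6 := vv_one hm h3 h5
    have hpn : (p : ℂ) = 2 * (2 + m : ℕ) + 1 := by exact_mod_cast hm
    have h7 : (9 : ℂ) * ((bd (TC p m)).det : ℤ) = ((p : ℂ) - 3 + qc p 3) ^ 2 := by
      have e3 : (Int.castRingHom ℂ) (bd (TC p m)).det = ((bd (TC p m)).det : ℂ) := rfl
      rw [e3] at key
      rw [key, div_pow, mul_pow]
      have h8 : (qc p (-2) : ℂ) ^ 2 = 1 := by rw [sq]; exact hq
      rw [h8, one_mul]
      rw [mul_div_assoc', div_eq_iff (pow_ne_zero 2 hG0)]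
      have h9 : (9 : ℂ) * vv p 1 ^ 2 = (3 * vv p 1) ^ 2 := by ring
      rw [h9, h6, hpn]
      ring
    exact_mod_cast h7
  · intro j
    have h := TC_vv hm h3 h5 j
    apply mul_left_cancel₀ hG0
    have e1 : ∑ k : Fin (2 + m), Cm j k * vv p k =
        ∑ k : Fin (2 + m), (qc p (((j : ℕ) : ZMod p) - ((k : ℕ) : ZMod p)) : ℂ) * vv p k := rfl
    rw [e1, h]
    split_ifs
    · linear_combination (- qc p (-2)) * hG
    · ring
  · have h := vhat hm h3 h5 0
    simp only [zero_mul, ps_zero, mul_one] at h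
    rw [h, Ev_zero hm h3 h5]
    ring

end

end Pool.Agent.X12
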