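import Pool.Agent.X12.Szp20

/-!
# Families with torsion: arithmetic lemmas
-/

set_option autoImplicit false

namespace Pool.Agent.X12.Tor

open Finset Filter Topology Pool.Agent.H328R2.ABC Pool.Agent.X12.Szp

/-- the number of the `x` in an interval of length `L` with `x (U - W x) ≡ 0` modulo `s` -/
lemma prod_count (s : ℕ) (hs : 1 ≤ s) (U W : ℤ) (hU : IsCoprime U (s : ℤ))
    (hW : IsCoprime W (s : ℤ)) (F : Finset ℤ) (L : ℝ)
    (hF : ∀ x ∈ F, (s : ℤ) ∣ x * (U - W * x)) (hL : ∀ x ∈ F, ∀ x' ∈ F, ((x' : ℝ) - x) ≤ L)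
    (hL0 : 0 ≤ L) : (F.card : ℝ) ≤ 2 * (s.divisors.card : ℝ) * (2 * L / s + 1) := by
  classical
  obtain ⟨y, z, hyz⟩ := hW
  have hc : IsCoprime ((U * y) ^ 2) (s : ℤ) :=
    (IsCoprime.mul_left hU ⟨W, z, by linarith⟩).pow_left
  have h := count_interval s hs ((U * y) ^ 2) hc (F.image fun x => 2 * x - U * y) (2 * L) (by
    intro b hb
    obtain ⟨x, hx, rfl⟩ := Finset.mem_image.1 hb
    have e : (2 * x - U * y) ^ 2 - (U * y) ^ 2 = -4 * (y * (x * (U - W * x))) +
        s * (4 * z * x ^ 2) := by linear_combination (-4 * x ^ 2) * hyz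
    rw [e]
    exact dvd_add (Dvd.dvd.mul_left (Dvd.dvd.mul_left (hF x hx) _) _) (Dvd.intro _ rfl)) (by
    intro b hb b' hb'
    obtain ⟨x, hx, rfl⟩ := Finset.mem_image.1 hb
    obtain ⟨x', hx', rfl⟩ := Finset.mem_image.1 hb'
    have := hL x hx x' hx'
    push_cast
    linarith) (by positivity)
  rwa [Finset.card_image_of_injective] at h
  intro a b hab
  simp only at hab
  omega

/-- the primes `≥ 5` of `N` with their exponents in the conductor -/
def Cn (N : ℕ) (r : ℤ) : ℕ :=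
  ∏ p ∈ N.primeFactors.filter (fun p => 5 ≤ p), if (p : ℤ) ∣ r then p ^ 2 else p

lemma Cn_pos (N : ℕ) (r : ℤ) : 0 < Cn N r := by
  apply Finset.prod_pos
  intro p hp
  rw [Finset.mem_filter] at hp
  have hp0 := (Nat.prime_of_mem_primeFactors hp.1).pos
  split_ifs
  · positivity
  · exact hp0

/-- the conductor is large -/
lemma Cn_ge {r : ℤ} {n N u1 : ℕ} (hr : r ≠ 0) (hN : N ≠ 0) (hn : n ∣ N)
    (hco : Nat.Coprime n (6 * r.natAbs)) (hu1 : u1 ∣ N) :
    rad n * rad (Nat.gcd r.natAbs u1) ^ 2 ≤ 36 * Cn N r := by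
  classical
  have hr' : r.natAbs ≠ 0 := Int.natAbs_ne_zero.2 hr
  have hg : Nat.gcd r.natAbs u1 ≠ 0 := Nat.gcd_ne_zero_left hr'
  set S := N.primeFactors.filter (fun p => 5 ≤ p) with hS
  set S2 := (Nat.gcd r.natAbs u1).primeFactors with hS2
  set S3 := S2.filter (fun p => 5 ≤ p) with hS3
  have hpa : ∀ p ∈ n.primeFactors, 5 ≤ p ∧ ¬ (p : ℤ) ∣ r := by
    intro p hp
    have hp' := Nat.prime_of_mem_primeFactors hp
    have h1 : ¬ p ∣ 6 * r.natAbs := by
      intro h
      have := Nat.dvd_gcd (Nat.dvd_of_mem_primeFactors hp) h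
      rw [hco] at this
      exact hp'.one_lt.ne' (Nat.dvd_one.1 this)
    refine ⟨?_, fun h => h1 (Dvd.dvd.mul_left (Int.natCast_dvd.1 h) 6)⟩
    by_contra hcon
    push Not at hcon
    have h2 := hp'.two_le
    interval_cases p
    · exact h1 (Dvd.dvd.mul_right (by norm_num) _)
    · exact h1 (Dvd.dvd.mul_right (by norm_num) _)
    · exact absurd hp' (by norm_num)
  have hsub1 : n.primeFactors ⊆ S := by
    intro p hp
    rw [hS, Finset.mem_filter]
    exact ⟨Nat.primeFactors_mono hn hN hp, (hpa p hp).1⟩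
  have hpb : ∀ p ∈ S3, 5 ≤ p ∧ (p : ℤ) ∣ r ∧ p ∣ u1 ∧ p.Prime := by
    intro p hp
    rw [hS3, Finset.mem_filter, hS2] at hp
    have h1 := Nat.dvd_of_mem_primeFactors hp.1
    rw [Nat.dvd_gcd_iff] at h1
    exact ⟨hp.2, Int.natCast_dvd.2 h1.1, h1.2, Nat.prime_of_mem_primeFactors hp.1⟩
  have hsub2 : S3 ⊆ S := by
    intro p hp
    obtain ⟨h1, h2, h3, h4⟩ := hpb p hp
    rw [hS, Finset.mem_filter]
    exact ⟨Nat.mem_primeFactors.2 ⟨h4, h3.trans hu1, hN⟩, h1⟩
  have hdisj : Disjoint n.primeFactors S3 := by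
    rw [Finset.disjoint_left]
    intro p hp hp3
    exact (hpa p hp).2 (hpb p hp3).2.1
  have h1 : rad n * (∏ p ∈ S3, p) ^ 2 ≤ Cn N r := by
    have e1 : ∏ p ∈ n.primeFactors ∪ S3, (if (p : ℤ) ∣ r then p ^ 2 else p) ≤ Cn N r := by
      unfold Cn
      refine Finset.prod_le_prod_of_subset_of_one_le' (Finset.union_subset hsub1 hsub2) ?_
      intro p hp _
      have hp' := (Nat.prime_of_mem_primeFactors (Finset.mem_filter.1 hp).1).one_lt.le
      split_ifs
      · exact Nat.one_le_pow _ _ hp'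
      · exact hp'
    rw [Finset.prod_union hdisj] at e1
    have e2 : ∏ p ∈ n.primeFactors, (if (p : ℤ) ∣ r then p ^ 2 else p) = rad n := by
      unfold rad
      exact Finset.prod_congr rfl fun p hp => if_neg (hpa p hp).2
    have e3 : ∏ p ∈ S3, (if (p : ℤ) ∣ r then p ^ 2 else p) = (∏ p ∈ S3, p) ^ 2 := by
      rw [← Finset.prod_pow]
      exact Finset.prod_congr rfl fun p hp => if_pos (hpb p hp).2.1
    rwa [e2, e3] at e1
  have h2 : rad (Nat.gcd r.natAbs u1) ≤ 6 * ∏ p ∈ S3, p := by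
    have e1 : rad (Nat.gcd r.natAbs u1) =
        (∏ p ∈ S2.filter (fun p => 5 ≤ p), p) * ∏ p ∈ S2.filter (fun p => ¬ 5 ≤ p), p := by
      unfold rad
      exact (Finset.prod_filter_mul_prod_filter_not _ _ _).symm
    rw [e1, mul_comm]
    refine Nat.mul_le_mul_right _ ?_
    have e2 : S2.filter (fun p => ¬ 5 ≤ p) ⊆ {2, 3} := by
      intro p hp
      rw [Finset.mem_filter] at hp
      have hp' := Nat.prime_of_mem_primeFactors hp.1
      have h5 := hp'.two_le
      have h6 : p < 5 := by omega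
      interval_cases p
      · simp
      · simp
      · exact absurd hp' (by norm_num)
    calc ∏ p ∈ S2.filter (fun p => ¬ 5 ≤ p), p ≤ ∏ p ∈ ({2, 3} : Finset ℕ), p := by
          refine Finset.prod_le_prod_of_subset_of_one_le' e2 ?_
          intro p hp _
          simp only [Finset.mem_insert, Finset.mem_singleton] at hp
          omega
      _ = 6 := by norm_num
  calc rad n * rad (Nat.gcd r.natAbs u1) ^ 2 ≤ rad n * (6 * ∏ p ∈ S3, p) ^ 2 := by gcongr
    _ = 36 * (rad n * (∏ p ∈ S3, p) ^ 2) := by ring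
    _ ≤ 36 * Cn N r := by gcongr

/-- the two families -/
def Fam (k s α β : ℕ) : Prop :=
  ((k = 2 ∧ s = 2) ∨ (k = 3 ∧ s = 1)) ∧ α ∣ 216 ∧ β ∣ 216

lemma Fam.pos {k s α β : ℕ} (h : Fam k s α β) : 1 ≤ α ∧ 1 ≤ β :=
  ⟨Nat.pos_of_dvd_of_pos h.2.1 (by norm_num), Nat.pos_of_dvd_of_pos h.2.2 (by norm_num)⟩

lemma fact6 {p : ℕ} (hp : p.Prime) : (6 : ℕ).factorization p ≤ 1 := by
  by_contra hcon
  push Not at hcon
  have h := (hp.pow_dvd_iff_le_factorization (k := 2) (n := 6) (by norm_num)).2 hcon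
  have h2 : 2 ^ 2 ≤ p ^ 2 := Nat.pow_le_pow_left hp.two_le 2
  have h3 := Nat.le_of_dvd (by norm_num) h
  have hp2 : p = 2 := by
    by_contra hne
    have : 3 ≤ p := by
      have := hp.two_le
      omega
    have : 3 ^ 2 ≤ p ^ 2 := Nat.pow_le_pow_left this 2
    omega
  rw [hp2] at h
  omega

lemma fact_dvd216 {m p : ℕ} (hm : m ∣ 216) :
    m.factorization p ≤ 3 * (6 : ℕ).factorization p := by
  have h1 : (216 : ℕ) = 6 ^ 3 := by norm_num
  rw [h1] at hm
  have h2 := (Nat.factorization_le_iff_dvd (by rintro rfl; norm_num at hm) (by norm_num)).2 hm p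
  rwa [Nat.factorization_pow, Finsupp.smul_apply, smul_eq_mul] at h2

/-- the gcd inequality -/
lemma gcd_dvd2 {k s α β : ℕ} (hf : Fam k s α β) {r u : ℕ} (hr : r ≠ 0) (hu : u ≠ 0)
    (hmin : ∀ p : ℕ, p.Prime → ¬ (p ^ s ∣ r ∧ p ^ (s * k) ∣ u)) :
    Nat.gcd (α * r ^ k) (β * u) * rad r ∣ 6 ^ 14 * (r * rad (Nat.gcd r u) ^ 2) := by
  obtain ⟨hα1, hβ1⟩ := hf.pos
  obtain ⟨hks, hα, hβ⟩ := hf
  have hg : Nat.gcd r u ≠ 0 := Nat.gcd_ne_zero_left hr
  have hr1 : rad r ≠ 0 := (rad_pos r).ne'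
  have hr2 : rad (Nat.gcd r u) ≠ 0 := (rad_pos _).ne'
  have hα0 : α ≠ 0 := by omega
  have hβ0 : β ≠ 0 := by omega
  have hA0 : α * r ^ k ≠ 0 := by positivity
  have hB0 : β * u ≠ 0 := by positivity
  have hG : Nat.gcd (α * r ^ k) (β * u) ≠ 0 := Nat.gcd_ne_zero_left hA0
  rw [← Nat.factorization_prime_le_iff_dvd (by positivity) (by positivity)]
  intro p hp
  rw [Nat.factorization_mul hG hr1, Nat.factorization_mul (by positivity) (by positivity),
    Nat.factorization_mul hr (by positivity),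
    Nat.factorization_gcd hA0 hB0, Nat.factorization_pow,
    Nat.factorization_pow, Nat.factorization_mul hα0 (by positivity),
    Nat.factorization_mul hβ0 hu, Nat.factorization_pow]
  simp only [Finsupp.add_apply, Finsupp.inf_apply, Finsupp.smul_apply, smul_eq_mul,
    rad_factorization hr hp, rad_factorization hg hp]
  have e1 : p ^ s ∣ r ↔ s ≤ r.factorization p := hp.pow_dvd_iff_le_factorization hr
  have e2 : p ^ (s * k) ∣ u ↔ s * k ≤ u.factorization p := hp.pow_dvd_iff_le_factorization hu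
  have e3 : p ∣ r ↔ 1 ≤ r.factorization p := by
    have := hp.pow_dvd_iff_le_factorization (k := 1) hr
    rwa [pow_one] at this
  have e4 : p ∣ u ↔ 1 ≤ u.factorization p := by
    have := hp.pow_dvd_iff_le_factorization (k := 1) hu
    rwa [pow_one] at this
  have e5 : p ∣ Nat.gcd r u ↔ 1 ≤ r.factorization p ∧ 1 ≤ u.factorization p := by
    rw [Nat.dvd_gcd_iff, e3, e4]
  have hm := hmin p hp
  rw [e1, e2] at hm
  simp only [e5, e3]
  have h6 := fact6 hp
  have ha := fact_dvd216 (p := p) hα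
  have hb := fact_dvd216 (p := p) hβ
  generalize α.factorization p = a at *
  generalize β.factorization p = b at *
  generalize r.factorization p = ρ at *
  generalize u.factorization p = υ at *
  generalize (6 : ℕ).factorization p = c at *
  rcases hks with ⟨rfl, rfl⟩ | ⟨rfl, rfl⟩
  · split_ifs <;> omega
  · split_ifs <;> omega

end Pool.Agent.X12.Tor
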