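import Pool.Agent.X12.Tor1

/-!
# Families with torsion: the reduction
-/

set_option autoImplicit false

namespace Pool.Agent.X12.Tor

open Finset Filter Topology Pool.Agent.H328R2.ABC Pool.Agent.X12.Szp

/-- the second factor -/
def vv (k α β : ℕ) (r u : ℤ) : ℤ := α * r ^ k - β * u

/-- the gcd -/
def gF (k α β : ℕ) (r : ℤ) (u1 : ℕ) : ℕ := Nat.gcd (α * r.natAbs ^ k) (β * u1)

/-- the first cofactor -/
def UF (k α β : ℕ) (r : ℤ) (u1 : ℕ) : ℤ := α * r ^ k / (gF k α β r u1 : ℤ)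

/-- the second cofactor -/
def WF' (k α β : ℕ) (r : ℤ) (u1 : ℕ) : ℤ := β * (u1 : ℤ) / (gF k α β r u1 : ℤ)

/-- the length of the interval -/
noncomputable def LF (k α β : ℕ) (Z B Y : ℝ) (r : ℤ) (u1 w : ℕ) : ℝ :=
  2304 * ((u1 : ℝ) * gF k α β r u1 * w) * Z / ((rad (Nat.gcd r.natAbs u1) : ℝ) ^ 2 * B) + 20 * B / Y

/-- the condition on the cofactor `x` -/
def RF (k α β : ℕ) (Z B Y : ℝ) (r : ℤ) (u1 w d : ℕ) (x : ℤ) : Prop :=
  IsCoprime (UF k α β r u1) ((w * (d * rad d) : ℕ) : ℤ) ∧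
  IsCoprime (WF' k α β r u1) ((w * (d * rad d) : ℕ) : ℤ) ∧
  ((w * (d * rad d) : ℕ) : ℤ) ∣ x * (UF k α β r u1 - WF' k α β r u1 * x) ∧
  (|(u1 : ℝ) * x| ≤ LF k α β Z B Y r u1 w * d ∨
    |((α * r ^ k : ℤ) : ℝ) - β * ((u1 : ℝ) * x)| ≤ LF k α β Z B Y r u1 w * d) ∧
  x * (UF k α β r u1 - WF' k α β r u1 * x) ≠ 0 ∧
  |(u1 : ℝ) * x| ≤ 20 * B ∧ |((α * r ^ k : ℤ) : ℝ) - β * ((u1 : ℝ) * x)| ≤ 20 * B

lemma gF_pos {k s α β : ℕ} (hf : Fam k s α β) {r : ℤ} (hr : r ≠ 0) (u1 : ℕ) :
    0 < gF k α β r u1 := by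
  have h1 := hf.pos
  have h2 : r.natAbs ≠ 0 := Int.natAbs_ne_zero.2 hr
  exact Nat.gcd_pos_of_pos_left _ (by
    have : 0 < r.natAbs := by omega
    have : 0 < α := by omega
    positivity)

lemma UF_eq (k α β : ℕ) (r : ℤ) (u1 : ℕ) :
    (α : ℤ) * r ^ k = gF k α β r u1 * UF k α β r u1 := by
  unfold UF
  refine (Int.mul_ediv_cancel' (Int.natCast_dvd.2 ?_)).symm
  rw [Int.natAbs_mul, Int.natAbs_pow, Int.natAbs_natCast]
  exact Nat.gcd_dvd_left _ _

lemma WF_eq (k α β : ℕ) (r : ℤ) (u1 : ℕ) :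
    (β : ℤ) * (u1 : ℤ) = gF k α β r u1 * WF' k α β r u1 := by
  unfold WF'
  refine (Int.mul_ediv_cancel' ?_).symm
  have : gF k α β r u1 ∣ β * u1 := Nat.gcd_dvd_right _ _
  exact_mod_cast this

lemma vv_eq (k α β : ℕ) (r : ℤ) (u1 : ℕ) (x : ℤ) :
    vv k α β r (u1 * x) = gF k α β r u1 * (UF k α β r u1 - WF' k α β r u1 * x) := by
  unfold vv
  have h1 := UF_eq k α β r u1
  have h2 := WF_eq k α β r u1
  linear_combination h1 - x * h2

lemma real_natAbs (n : ℤ) : ((n.natAbs : ℕ) : ℝ) = |(n : ℝ)| := by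
  rw [Nat.cast_natAbs]
  push_cast
  rfl

set_option maxHeartbeats 1600000 in
theorem reductionF {k s α β : ℕ} (hf : Fam k s α β) {Z B Y : ℝ} (hZ : 0 < Z) (hB : 0 < B)
    (hY : 1 ≤ Y) (hYB : 20 * B < Y ^ 4) {r u : ℤ} (hr : r ≠ 0) (hu : u ≠ 0)
    (hv : vv k α β r u ≠ 0) (huB : |(u : ℝ)| ≤ 20 * B) (hvB : |((vv k α β r u : ℤ) : ℝ)| ≤ 20 * B)
    (htop : B / 64 ≤ |(u : ℝ)| ∨ B / 64 ≤ |((vv k α β r u : ℤ) : ℝ)|)
    (hC : (Cn (u * vv k α β r u).natAbs r : ℝ) ≤ Z) :
    ∃ (u1 w d : ℕ) (x : ℤ), u = u1 * x ∧ 1 ≤ u1 ∧ (u1 : ℝ) ≤ 20 * B ∧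
      u1.primeFactors ⊆ (6 * r.natAbs).primeFactors ∧ 1 ≤ w ∧ (w : ℝ) ≤ 20 * B ∧
      w.primeFactors ⊆ (6 * r.natAbs).primeFactors ∧ 1 ≤ d ∧ (d : ℝ) ≤ Y ^ 2 ∧
      RF k α β Z B Y r u1 w d x := by
  obtain ⟨hα1, hβ1⟩ := hf.pos
  have hks := hf.1
  have hk0 : k ≠ 0 := by omega
  have hr' : r.natAbs ≠ 0 := Int.natAbs_ne_zero.2 hr
  have hu' : u.natAbs ≠ 0 := Int.natAbs_ne_zero.2 hu
  set m := 6 * r.natAbs with hm
  have hm0 : m ≠ 0 := by omega
  have h216 : ∀ p c : ℕ, p.Prime → c ∣ 216 → p ∣ c → p ∣ m := by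
    intro p c hp hc hpc
    have h1 : p ∣ 6 ^ 3 := hpc.trans (by norm_num; exact hc)
    exact (hp.dvd_of_dvd_pow h1).trans (Dvd.intro _ rfl)
  obtain ⟨u1, y, huy, hu1, hu1s, hycop⟩ := split_part m hm0 u.natAbs (by omega)
  have hy0 : y ≠ 0 := by
    rintro rfl
    rw [mul_zero] at huy
    exact hu' huy
  set x : ℤ := u.sign * y with hx
  have hux : u = u1 * x := by
    have h1 := Int.sign_mul_natAbs u
    rw [huy] at h1
    push_cast at h1
    rw [hx]
    linarith
  have hxabs : x.natAbs = y := by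
    rw [hx, Int.natAbs_mul, Int.natAbs_natCast, Int.natAbs_sign_of_ne_zero hu, one_mul]
  set g := gF k α β r u1 with hg
  have hg0 : 0 < g := gF_pos hf hr u1
  have hU := UF_eq k α β r u1
  have hW := WF_eq k α β r u1
  set U := UF k α β r u1 with hUdef
  set W := WF' k α β r u1 with hWdef
  rw [← hg] at hU hW
  have hvT : vv k α β r u = g * (U - W * x) := by
    rw [hux]
    exact vv_eq k α β r u1 x
  set T := U - W * x with hT
  have hT0 : T ≠ 0 := by
    intro h
    rw [h, mul_zero] at hvT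
    exact hv hvT
  have hUn : α * r.natAbs ^ k = g * U.natAbs := by
    have := congrArg Int.natAbs hU
    rwa [Int.natAbs_mul, Int.natAbs_mul, Int.natAbs_pow, Int.natAbs_natCast,
      Int.natAbs_natCast] at this
  have hWn : β * u1 = g * W.natAbs := by
    have := congrArg Int.natAbs hW
    rwa [Int.natAbs_mul, Int.natAbs_mul, Int.natAbs_natCast, Int.natAbs_natCast,
      Int.natAbs_natCast] at this
  have hUW : Nat.gcd U.natAbs W.natAbs = 1 := by
    have h1 : Nat.gcd (α * r.natAbs ^ k) (β * u1) = g := rfl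
    rw [hUn, hWn, Nat.gcd_mul_left] at h1
    exact Nat.eq_of_mul_eq_mul_left hg0 (by rw [h1, mul_one])
  have hUm : ∀ p : ℕ, p.Prime → p ∣ U.natAbs → p ∣ m := by
    intro p hp hpU
    have h1 : p ∣ α * r.natAbs ^ k := by
      rw [hUn]
      exact Dvd.dvd.mul_left hpU _
    rcases (Nat.Prime.dvd_mul hp).1 h1 with h2 | h2
    · exact h216 p α hp hf.2.1 h2
    · exact Dvd.dvd.mul_left (hp.dvd_of_dvd_pow h2) 6
  have hWm : ∀ p : ℕ, p.Prime → p ∣ W.natAbs → p ∣ m := by
    intro p hp hpW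
    have h1 : p ∣ β * u1 := by
      rw [hWn]
      exact Dvd.dvd.mul_left hpW _
    rcases (Nat.Prime.dvd_mul hp).1 h1 with h2 | h2
    · exact h216 p β hp hf.2.2 h2
    · exact Nat.dvd_of_mem_primeFactors (hu1s (Nat.mem_primeFactors.2 ⟨hp, h2, by omega⟩))
  obtain ⟨w, z, hwz, hw, hws, hzcop⟩ := split_part m hm0 T.natAbs (by omega)
  have hz0 : z ≠ 0 := by
    rintro rfl
    rw [mul_zero] at hwz
    omega
  have hzT : (z : ℤ) ∣ T := Int.natCast_dvd.2 (by rw [hwz]; exact Dvd.intro_left w rfl)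
  have hwT : (w : ℤ) ∣ T := Int.natCast_dvd.2 (by rw [hwz]; exact Dvd.intro z rfl)
  -- the product
  set n := y * z with hn
  have hn1 : 1 ≤ n := Nat.mul_pos (by omega) (by omega)
  have hn0' : (0 : ℝ) < n := by exact_mod_cast hn1
  have hyz : Nat.Coprime y z := by
    rw [Nat.coprime_iff_gcd_eq_one]
    by_contra hcon
    obtain ⟨p, hp, hpy, hpz⟩ := Nat.Prime.not_coprime_iff_dvd.1 hcon
    have h1 : (p : ℤ) ∣ T := (Int.natCast_dvd_natCast.2 hpz).trans hzT
    have h2 : (p : ℤ) ∣ x := Int.natCast_dvd.2 (by rw [hxabs]; exact hpy)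
    have h3 : (p : ℤ) ∣ U := by
      have : U = T + W * x := by rw [hT]; ring
      rw [this]
      exact dvd_add h1 (Dvd.dvd.mul_left h2 _)
    have := Nat.dvd_gcd hpy (hUm p hp (Int.natCast_dvd.1 h3))
    rw [hycop] at this
    exact hp.one_lt.ne' (Nat.dvd_one.1 this)
  have hncop : Nat.Coprime n m := Nat.Coprime.mul_left hycop hzcop
  set N := (u * vv k α β r u).natAbs with hN
  have hNeq : N = u1 * g * w * n := by
    rw [hN, Int.natAbs_mul, hvT, Int.natAbs_mul, Int.natAbs_natCast, hwz, huy, hn]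
    ring
  have hN0 : N ≠ 0 := by
    rw [hN]
    exact Int.natAbs_ne_zero.2 (mul_ne_zero hu hv)
  have hcnd := Cn_ge (r := r) (n := n) (N := N) (u1 := u1) hr hN0 (by rw [hNeq]; exact Dvd.intro_left _ rfl)
    hncop (by rw [hNeq]; exact ⟨g * w * n, by ring⟩)
  set G := rad (Nat.gcd r.natAbs u1) with hG
  have hG0 : (0 : ℝ) < G := by exact_mod_cast rad_pos _
  have hrn : (0 : ℝ) < rad n := by exact_mod_cast rad_pos n
  have hcnd' : (rad n : ℝ) * (G : ℝ) ^ 2 ≤ 36 * Z := by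
    have h1 : (rad n : ℝ) * (G : ℝ) ^ 2 ≤ 36 * (Cn N r : ℝ) := by exact_mod_cast hcnd
    linarith
  have huv : |(u : ℝ)| * |((vv k α β r u : ℤ) : ℝ)| = (u1 : ℝ) * g * w * n := by
    rw [← real_natAbs, ← real_natAbs]
    have h1 : u.natAbs * (vv k α β r u).natAbs = u1 * g * w * n := by
      rw [← Int.natAbs_mul, ← hN, hNeq]
    exact_mod_cast h1
  have hg1' : (1 : ℝ) ≤ g := by exact_mod_cast hg0
  have hw1' : (1 : ℝ) ≤ w := by exact_mod_cast hw
  have hu1' : (1 : ℝ) ≤ u1 := by exact_mod_cast hu1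
  have hquot : min Y ((n : ℝ) * (G : ℝ) ^ 2 / (36 * Z)) ≤ ((n / rad n : ℕ) : ℝ) := by
    refine (min_le_right _ _).trans ?_
    rw [Nat.cast_div (rad_dvd n) hrn.ne', div_le_div_iff₀ (by positivity) hrn]
    nlinarith
  have hyB : (y : ℝ) ≤ 20 * B := by
    have h1 : ((u.natAbs : ℕ) : ℝ) = |(u : ℝ)| := real_natAbs u
    have h2 : (y : ℝ) ≤ ((u.natAbs : ℕ) : ℝ) := by
      rw [huy]
      exact_mod_cast Nat.le_mul_of_pos_left _ (by omega)
    linarith
  have hwzB : (w : ℝ) * z ≤ 20 * B := by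
    have h2 : (((vv k α β r u).natAbs : ℕ) : ℝ) = g * (w * z) := by
      rw [hvT, Int.natAbs_mul, Int.natAbs_natCast, hwz]
      push_cast
      ring
    rw [real_natAbs] at h2
    have h3 : 0 ≤ (w : ℝ) * z := by positivity
    nlinarith
  have hz1' : (1 : ℝ) ≤ z := by exact_mod_cast (by omega : 1 ≤ z)
  have hzB : (z : ℝ) ≤ 20 * B := by nlinarith
  have hwB : (w : ℝ) ≤ 20 * B := by nlinarith
  rcases choose_modulus n hn1 Y (min Y ((n : ℝ) * (G : ℝ) ^ 2 / (36 * Z))) hY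
    (min_le_left _ _) hquot with ⟨p, hp, hpY, hpn⟩ | ⟨d, hd1, hdY, hdt, hdn⟩
  · exfalso
    have hp2 : (p : ℝ) ^ 2 ≤ 20 * B := by
      by_cases hpy : p ∣ y
      · have hpz : ¬ p ∣ z := fun h => hp.one_lt.ne' (Nat.dvd_one.1 (by
          have := Nat.dvd_gcd hpy h
          rwa [hyz] at this))
        have h1 : Nat.Coprime (p ^ 2) z := ((Nat.Prime.coprime_iff_not_dvd hp).2 hpz).pow_left 2
        have h2 : p ^ 2 ∣ y := h1.dvd_of_dvd_mul_right hpn
        have h3 : p ^ 2 ≤ y := Nat.le_of_dvd (by omega) h2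
        have h4 : (p : ℝ) ^ 2 ≤ y := by exact_mod_cast h3
        linarith
      · have h1 : Nat.Coprime (p ^ 2) y := ((Nat.Prime.coprime_iff_not_dvd hp).2 hpy).pow_left 2
        have h2 : p ^ 2 ∣ z := h1.dvd_of_dvd_mul_left hpn
        have h3 : p ^ 2 ≤ z := Nat.le_of_dvd (by omega) h2
        have h4 : (p : ℝ) ^ 2 ≤ z := by exact_mod_cast h3
        linarith
    have h5 : (Y ^ 2) ^ 2 < (p : ℝ) ^ 2 := by
      have : 0 ≤ Y ^ 2 := by positivity
      gcongr
    have h6 : (Y ^ 2) ^ 2 = Y ^ 4 := by ring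
    linarith
  · have hd0 : (0 : ℝ) < d := by exact_mod_cast hd1
    have hdn' : d ∣ n := (Dvd.intro _ rfl : d ∣ d * rad d).trans hdn
    have hreal1 : (u1 : ℝ) * x = (u : ℝ) := by
      rw [hux]
      push_cast
      ring
    have hreal2 : ((α * r ^ k : ℤ) : ℝ) - β * ((u1 : ℝ) * x) = ((vv k α β r u : ℤ) : ℝ) := by
      rw [hreal1]
      unfold vv
      push_cast
      ring
    refine ⟨u1, w, d, x, hux, hu1, ?_, hu1s, hw, hwB, hws, hd1, hdY, ?_, ?_, ?_, ?_, ?_, ?_, ?_⟩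
    · have h2 : ((u.natAbs : ℕ) : ℝ) = |(u : ℝ)| := real_natAbs u
      have h3 : (u1 : ℝ) ≤ ((u.natAbs : ℕ) : ℝ) := by
        rw [huy]
        exact_mod_cast Nat.le_mul_of_pos_right _ (by omega)
      linarith
    · -- the first cofactor
      rw [Int.isCoprime_iff_gcd_eq_one, Int.gcd, Int.natAbs_natCast]
      by_contra hcon
      obtain ⟨p, hp, hpU, hps⟩ := Nat.Prime.not_coprime_iff_dvd.1 hcon
      rcases (Nat.Prime.dvd_mul hp).1 hps with h | h
      · have hpm := Nat.dvd_of_mem_primeFactors (hws (Nat.mem_primeFactors.2 ⟨hp, h, by omega⟩))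
        have h1 : (p : ℤ) ∣ T := (Int.natCast_dvd_natCast.2 h).trans hwT
        have h2 : (p : ℤ) ∣ U := Int.natCast_dvd.2 hpU
        have h3 : (p : ℤ) ∣ W * x := by
          have : W * x = U - T := by rw [hT]; ring
          rw [this]
          exact dvd_sub h2 h1
        have hpp : Prime (p : ℤ) := Nat.prime_iff_prime_int.1 hp
        rcases hpp.dvd_or_dvd h3 with h4 | h4
        · have := Nat.dvd_gcd hpU (Int.natCast_dvd.1 h4)
          rw [hUW] at this
          exact hp.one_lt.ne' (Nat.dvd_one.1 this)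
        · have h6 : p ∣ y := by
            rw [← hxabs]
            exact Int.natCast_dvd.1 h4
          have := Nat.dvd_gcd h6 hpm
          rw [hycop] at this
          exact hp.one_lt.ne' (Nat.dvd_one.1 this)
      · have hpd : p ∣ d := by
          rcases (Nat.Prime.dvd_mul hp).1 h with h1 | h1
          · exact h1
          · exact h1.trans (rad_dvd d)
        have := Nat.dvd_gcd (hpd.trans hdn') (hUm p hp hpU)
        rw [hncop] at this
        exact hp.one_lt.ne' (Nat.dvd_one.1 this)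
    · -- the second cofactor
      rw [Int.isCoprime_iff_gcd_eq_one, Int.gcd, Int.natAbs_natCast]
      by_contra hcon
      obtain ⟨p, hp, hpW, hps⟩ := Nat.Prime.not_coprime_iff_dvd.1 hcon
      rcases (Nat.Prime.dvd_mul hp).1 hps with h | h
      · have h1 : (p : ℤ) ∣ T := (Int.natCast_dvd_natCast.2 h).trans hwT
        have h2 : (p : ℤ) ∣ W := Int.natCast_dvd.2 hpW
        have h3 : (p : ℤ) ∣ U := by
          have : U = T + W * x := by rw [hT]; ring
          rw [this]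
          exact dvd_add h1 (Dvd.dvd.mul_right h2 _)
        have := Nat.dvd_gcd (Int.natCast_dvd.1 h3) hpW
        rw [hUW] at this
        exact hp.one_lt.ne' (Nat.dvd_one.1 this)
      · have hpd : p ∣ d := by
          rcases (Nat.Prime.dvd_mul hp).1 h with h1 | h1
          · exact h1
          · exact h1.trans (rad_dvd d)
        have := Nat.dvd_gcd (hpd.trans hdn') (hWm p hp hpW)
        rw [hncop] at this
        exact hp.one_lt.ne' (Nat.dvd_one.1 this)
    · -- the divisibility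
      rw [← hT]
      apply Int.natCast_dvd.2
      rw [Int.natAbs_mul, hxabs, hwz]
      have : y * (w * z) = w * n := by rw [hn]; ring
      rw [this]
      exact Nat.mul_dvd_mul_left w hdn
    · -- the size
      rw [hreal2, hreal1]
      unfold LF
      rw [← hg, ← hG]
      have hLL : 0 ≤ 2304 * ((u1 : ℝ) * g * w) * Z / ((G : ℝ) ^ 2 * B) := by positivity
      rcases le_or_gt Y (d : ℝ) with h | h
      · left
        have hY0 : 0 < Y := by linarith
        calc |(u : ℝ)| ≤ 20 * B := huB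
          _ = (0 + 20 * B / Y) * Y := by field_simp; ring
          _ ≤ _ := by gcongr
      · have h5 : (n : ℝ) * (G : ℝ) ^ 2 / (36 * Z) ≤ d := by
          rcases min_le_iff.1 hdt with h7 | h7
          · exact absurd h7 (not_le.2 h)
          · exact h7
        rw [div_le_iff₀ (by positivity)] at h5
        have h6 : (n : ℝ) ≤ 36 * Z * d / (G : ℝ) ^ 2 := by
          rw [le_div_iff₀ (by positivity)]
          linarith
        have h7 : |(u : ℝ)| * |((vv k α β r u : ℤ) : ℝ)| ≤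
            (B / 64) * ((2304 * ((u1 : ℝ) * g * w) * Z / ((G : ℝ) ^ 2 * B)) * d) := by
          rw [huv]
          calc (u1 : ℝ) * g * w * n ≤ u1 * g * w * (36 * Z * d / (G : ℝ) ^ 2) := by gcongr
            _ = _ := by
              field_simp
              ring
        have h8 : 0 ≤ 20 * B / Y := by positivity
        have h9 : (2304 * ((u1 : ℝ) * g * w) * Z / ((G : ℝ) ^ 2 * B)) * d ≤
            (2304 * ((u1 : ℝ) * g * w) * Z / ((G : ℝ) ^ 2 * B) + 20 * B / Y) * d := by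
          gcongr
          linarith
        rcases htop with ht | ht
        · right
          refine le_trans ?_ h9
          refine le_of_mul_le_mul_left ?_ (by positivity : 0 < B / 64)
          refine le_trans ?_ h7
          have := abs_nonneg ((vv k α β r u : ℤ) : ℝ)
          gcongr
        · left
          refine le_trans ?_ h9
          refine le_of_mul_le_mul_left ?_ (by positivity : 0 < B / 64)
          refine le_trans ?_ h7
          rw [mul_comm |(u : ℝ)|]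
          have := abs_nonneg (u : ℝ)
          gcongr
    · have hx0 : x ≠ 0 := by
        intro h
        rw [h, Int.natAbs_zero] at hxabs
        exact hy0 hxabs.symm
      exact mul_ne_zero hx0 hT0
    · rw [hreal1]
      exact huB
    · rw [hreal2]
      exact hvB

end Pool.Agent.X12.Tor
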