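import Pool.Agent.X12.Tor2

/-!
# Families with torsion: the count
-/

set_option autoImplicit false

namespace Pool.Agent.X12.Tor

open Finset Filter Topology Pool.Agent.H328R2.ABC Pool.Agent.X12.Szp

/-- minimality of the auxiliary part -/
def MnF (k s : ℕ) (r : ℤ) (u1 : ℕ) : Prop :=
  ∀ p : ℕ, p.Prime → ¬ (p ^ s ∣ r.natAbs ∧ p ^ (s * k) ∣ u1)

lemma LF_le {k s α β : ℕ} (hf : Fam k s α β) {Z B Y : ℝ} (hZ : 0 < Z) (hB : 0 < B) (hY : 1 ≤ Y)
    {r : ℤ} (hr : r ≠ 0) {u1 w : ℕ} (hu1 : 1 ≤ u1) (hw : 1 ≤ w) (hmin : MnF k s r u1) :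
    LF k α β Z B Y r u1 w / (u1 * w) ≤ 2304 * 6 ^ 14 * qq r.natAbs * (Z / B) + 20 * B / Y := by
  have hr' : r.natAbs ≠ 0 := Int.natAbs_ne_zero.2 hr
  have h1 := gcd_dvd2 hf hr' (by omega : u1 ≠ 0) hmin
  set G := rad (Nat.gcd r.natAbs u1) with hG
  set g := gF k α β r u1 with hg
  have hGpos : 0 < G := rad_pos _
  have h2 : g * rad r.natAbs ≤ 6 ^ 14 * (r.natAbs * G ^ 2) :=
    Nat.le_of_dvd (by positivity) h1
  have h3 : (g : ℝ) * rad r.natAbs ≤ 6 ^ 14 * (r.natAbs * (G : ℝ) ^ 2) := by exact_mod_cast h2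
  have hrr : (0 : ℝ) < rad r.natAbs := by exact_mod_cast rad_pos _
  have hG0 : (0 : ℝ) < G := by exact_mod_cast hGpos
  have hu0 : (1 : ℝ) ≤ u1 := by exact_mod_cast hu1
  have hw0 : (1 : ℝ) ≤ w := by exact_mod_cast hw
  have h4 : (g : ℝ) / (G : ℝ) ^ 2 ≤ 6 ^ 14 * qq r.natAbs := by
    unfold qq
    rw [div_le_iff₀ (by positivity), mul_div_assoc', div_mul_eq_mul_div, le_div_iff₀ hrr]
    linarith
  unfold LF
  rw [← hg, ← hG, add_div]
  have hY0 : 0 < Y := by linarith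
  apply add_le_add
  · calc 2304 * ((u1 : ℝ) * g * w) * Z / ((G : ℝ) ^ 2 * B) / (u1 * w) =
        2304 * ((g : ℝ) / (G : ℝ) ^ 2) * (Z / B) := by field_simp
      _ ≤ 2304 * (6 ^ 14 * qq r.natAbs) * (Z / B) := by gcongr
      _ = _ := by ring
  · apply div_le_self (by positivity)
    nlinarith

open scoped Classical in
/-- the fibre -/
noncomputable def FT (k s α β : ℕ) (Z B Y : ℝ) (r : ℤ) (u1 w d : ℕ) : Finset ℤ :=
  (Finset.Icc (-⌊20 * B⌋) ⌊20 * B⌋).filter (fun x => RF k α β Z B Y r u1 w d x ∧ MnF k s r u1)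

lemma FT_card {k s α β : ℕ} (hf : Fam k s α β) {e C2 : ℝ} (he : 0 < e) (hC2 : 0 < C2)
    (hdiv : ∀ n : ℕ, 1 ≤ n → (n.divisors.card : ℝ) ≤ C2 * (n : ℝ) ^ e)
    {Z B Y : ℝ} (hZ : 0 < Z) (hB : 1 ≤ B) (hY : 1 ≤ Y) {r : ℤ} (hr : r ≠ 0) {u1 w d : ℕ}
    (hu1 : 1 ≤ u1) (hw : 1 ≤ w) (hd : 1 ≤ d) :
    ((FT k s α β Z B Y r u1 w d).card : ℝ) ≤ 4 * (C2 * (400 * B ^ 2) ^ e) *
      (4 * (2304 * 6 ^ 14 * qq r.natAbs * (Z / B) + 20 * B / Y) * (1 / (rad d : ℝ)) + 1) := by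
  classical
  have hβ1 := hf.pos.2
  have hB0 : 0 < B := by linarith
  have hY0 : 0 < Y := by linarith
  have hr0 : (0 : ℝ) < rad d := by exact_mod_cast rad_pos d
  have hq := qq_nonneg r.natAbs
  rcases Finset.eq_empty_or_nonempty (FT k s α β Z B Y r u1 w d) with h | ⟨x0, hx0⟩
  · rw [h, Finset.card_empty, Nat.cast_zero]
    positivity
  obtain ⟨⟨c1, c2, c3, c4, c5, c6, c7⟩, hmin⟩ := (Finset.mem_filter.1 hx0).2
  set t := w * (d * rad d) with ht
  have ht1 : 1 ≤ t := Nat.mul_pos hw (Nat.mul_pos hd (rad_pos d))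
  have hu0 : (0 : ℝ) < u1 := by exact_mod_cast hu1
  have hw0 : (0 : ℝ) < w := by exact_mod_cast hw
  have hd0 : (0 : ℝ) < d := by exact_mod_cast hd
  have hβ0 : (1 : ℝ) ≤ β := by exact_mod_cast hβ1
  have hLLpos : 0 ≤ LF k α β Z B Y r u1 w := by
    unfold LF
    positivity
  set M := LF k α β Z B Y r u1 w * d with hM
  have hM0 : 0 ≤ M := by positivity
  set F := FT k s α β Z B Y r u1 w d with hF
  have h1 := prod_count t ht1 (UF k α β r u1) (WF' k α β r u1) c1 c2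
    (F.filter fun x : ℤ => |(u1 : ℝ) * x| ≤ M) (2 * M / u1) (by
      intro x hx
      exact (Finset.mem_filter.1 (Finset.mem_filter.1 hx).1).2.1.2.2.1) (by
      intro x hx x' hx'
      have k1 := (Finset.mem_filter.1 hx).2
      have k2 := (Finset.mem_filter.1 hx').2
      rw [abs_le] at k1 k2
      rw [le_div_iff₀ hu0]
      linarith [k1.1, k2.2]) (by positivity)
  have h2 := prod_count t ht1 (UF k α β r u1) (WF' k α β r u1) c1 c2
    (F.filter fun x : ℤ => ¬ |(u1 : ℝ) * x| ≤ M) (2 * M / u1) (by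
      intro x hx
      exact (Finset.mem_filter.1 (Finset.mem_filter.1 hx).1).2.1.2.2.1) (by
      intro x hx x' hx'
      rw [Finset.mem_filter] at hx hx'
      have k1 := (Finset.mem_filter.1 hx.1).2.1.2.2.2.1.resolve_left hx.2
      have k2 := (Finset.mem_filter.1 hx'.1).2.1.2.2.2.1.resolve_left hx'.2
      rw [abs_le] at k1 k2
      rw [le_div_iff₀ hu0]
      have k3 : (β : ℝ) * ((x' - x) * u1) ≤ 2 * M := by linarith [k1.1, k2.2, k1.2, k2.1]
      rcases le_or_gt 0 (((x' : ℝ) - x) * u1) with k4 | k4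
      · nlinarith
      · linarith) (by positivity)
  have h3 : F.card = (F.filter fun x : ℤ => |(u1 : ℝ) * x| ≤ M).card +
      (F.filter fun x : ℤ => ¬ |(u1 : ℝ) * x| ≤ M).card :=
    (Finset.card_filter_add_card_filter_not _).symm
  -- the bound for the modulus
  have htX : (t : ℝ) ≤ 400 * B ^ 2 := by
    have h4 : t ≤ (x0 * (UF k α β r u1 - WF' k α β r u1 * x0)).natAbs :=
      Nat.le_of_dvd (Int.natAbs_pos.2 c5) (Int.natCast_dvd.1 c3)
    have h5 : (t : ℝ) ≤ |(x0 : ℝ)| * |((UF k α β r u1 - WF' k α β r u1 * x0 : ℤ) : ℝ)| := by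
      rw [← abs_mul]
      have h6 := real_natAbs (x0 * (UF k α β r u1 - WF' k α β r u1 * x0))
      push_cast at h6 ⊢
      rw [← h6]
      exact_mod_cast h4
    have h7 : |(x0 : ℝ)| ≤ 20 * B := by
      refine le_trans ?_ c6
      rw [abs_mul, Nat.abs_cast]
      have : (1 : ℝ) ≤ u1 := by exact_mod_cast hu1
      have := abs_nonneg (x0 : ℝ)
      nlinarith
    have h8 : |((UF k α β r u1 - WF' k α β r u1 * x0 : ℤ) : ℝ)| ≤ 20 * B := by
      refine le_trans ?_ c7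
      have e1 : ((α * r ^ k : ℤ) : ℝ) - β * ((u1 : ℝ) * x0) = ((vv k α β r (u1 * x0) : ℤ) : ℝ) := by
        unfold vv
        push_cast
        ring
      rw [e1, vv_eq]
      push_cast
      rw [abs_mul, Nat.abs_cast]
      have h9 : (1 : ℝ) ≤ gF k α β r u1 := by exact_mod_cast gF_pos hf hr u1
      have := abs_nonneg (((UF k α β r u1 : ℤ) : ℝ) - (WF' k α β r u1 : ℤ) * (x0 : ℝ))
      nlinarith
    calc (t : ℝ) ≤ |(x0 : ℝ)| * |((UF k α β r u1 - WF' k α β r u1 * x0 : ℤ) : ℝ)| := h5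
      _ ≤ (20 * B) * (20 * B) := by gcongr
      _ = _ := by ring
  have h6 : (t.divisors.card : ℝ) ≤ C2 * (400 * B ^ 2) ^ e := by
    refine (hdiv t ht1).trans ?_
    gcongr
  have h7 : 2 * (2 * M / u1) / t =
      4 * (LF k α β Z B Y r u1 w / (u1 * w)) * (1 / (rad d : ℝ)) := by
    rw [hM, ht]
    push_cast
    field_simp
    ring
  rw [h7] at h1 h2
  have h8 := LF_le hf hZ hB0 hY hr hu1 hw hmin
  have h9 : (F.card : ℝ) ≤ 4 * (t.divisors.card : ℝ) *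
      (4 * (LF k α β Z B Y r u1 w / (u1 * w)) * (1 / (rad d : ℝ)) + 1) := by
    rw [h3]
    push_cast
    linarith
  refine h9.trans ?_
  gcongr

/-- the members near the top of the box with a small conductor -/
def TopF (k s α β : ℕ) (Z T : ℝ) : Set (ℤ × ℤ) :=
  {q | q.1 ≠ 0 ∧ q.2 ≠ 0 ∧ vv k α β q.1 q.2 ≠ 0 ∧
    (∀ p : ℕ, p.Prime → ¬ ((p : ℤ) ^ s ∣ q.1 ∧ (p : ℤ) ^ (s * k) ∣ q.2)) ∧
    |(q.1 : ℝ)| ≤ T ∧ |(q.2 : ℝ)| ≤ 20 * T ^ k ∧ |((vv k α β q.1 q.2 : ℤ) : ℝ)| ≤ 20 * T ^ k ∧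
    (T ^ k / 64 ≤ |(q.2 : ℝ)| ∨ T ^ k / 64 ≤ |((vv k α β q.1 q.2 : ℤ) : ℝ)|) ∧
    (Cn (q.2 * vv k α β q.1 q.2).natAbs q.1 : ℝ) ≤ Z}

lemma TopF_finite (k s α β : ℕ) (Z T : ℝ) : (TopF k s α β Z T).Finite := by
  refine Set.Finite.subset (Finset.finite_toSet ((Finset.Icc (-⌊T⌋) ⌊T⌋) ×ˢ
    (Finset.Icc (-⌊20 * T ^ k⌋) ⌊20 * T ^ k⌋))) ?_
  rintro q ⟨-, -, -, -, h1, h2, -⟩
  rw [Finset.mem_coe, Finset.mem_product]
  exact ⟨mem_of_abs_le h1, mem_of_abs_le h2⟩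

set_option maxHeartbeats 1600000 in
/-- **Members of the families with a small conductor near the top of the box** -/
theorem topF_le {k s α β : ℕ} (hf : Fam k s α β) (ε : ℝ) (hε : 0 < ε) : ∃ C : ℝ, 0 < C ∧
    ∀ Z T : ℝ, 0 < Z → 1 ≤ T →
      ((TopF k s α β Z T).ncard : ℝ) ≤ C * T ^ ε * (Z * T / T ^ k + T ^ (1 + 2 * (k : ℝ) / 3)) := by
  classical
  have hk3 : k ≤ 3 := by
    have := hf.1
    omega
  have hk2 : 2 ≤ k := by
    have := hf.1
    omega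
  set e := ε / 20 with he
  have he0 : 0 < e := by positivity
  obtain ⟨C1, hC1, hsupp⟩ := supp_count e he0
  obtain ⟨C2, hC2, hdiv⟩ := Pool.Agent.H510R2.divisor_bound e he0
  obtain ⟨C3, hC3, hsum⟩ := sum_inv_rad e he0
  set c6 : ℝ := (6 : ℝ) ^ e with hc6
  set c20 : ℝ := (20 : ℝ) ^ e with hc20
  set c400 : ℝ := (400 : ℝ) ^ e with hc400
  set c9 : ℝ := (9 : ℝ) ^ e with hc9
  set c0 : ℝ := 2304 * 6 ^ 14 with hc0
  have hc6' : 0 < c6 := by positivity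
  have hc20' : 0 < c20 := by positivity
  have hc400' : 0 < c400 := by positivity
  have hc9' : 0 < c9 := by positivity
  have hc0' : 0 < c0 := by positivity
  set K := (C1 * c20 * c6) * (C1 * c20 * c6) * (4 * (C2 * c400)) with hK
  set K1 := 4 * C3 * c9 * c0 with hK1
  set K2 := 27 * C3 * c9 + 9 with hK2
  have hK0 : 0 < K := by positivity
  have hK10 : 0 < K1 := by positivity
  have hK20 : 0 < K2 := by positivity
  refine ⟨K * (K1 * (2 * C3) + 3 * K2), by positivity, ?_⟩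
  intro Z T hZ hT
  have hT0 : 0 < T := by linarith
  set B := T ^ k with hB
  have hB1 : 1 ≤ B := one_le_pow₀ hT
  have hB0 : 0 < B := by linarith
  set E := T ^ e with hE
  have hE1 : 1 ≤ E := Real.one_le_rpow hT he0.le
  have hE0 : 0 < E := by linarith
  set P := T ^ (2 * (k : ℝ) / 3) with hP
  have hP1 : 1 ≤ P := Real.one_le_rpow hT (by positivity)
  have hP0 : 0 < P := by linarith
  set Y := 3 * T ^ ((k : ℝ) / 3) with hYd
  have hY1' : 1 ≤ T ^ ((k : ℝ) / 3) := Real.one_le_rpow hT (by positivity)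
  have hY1 : 1 ≤ Y := by rw [hYd]; linarith
  have hY0 : 0 < Y := by linarith
  have hY2 : Y ^ 2 = 9 * P := by
    rw [hYd, mul_pow, ← Real.rpow_natCast (T ^ ((k : ℝ) / 3)), ← Real.rpow_mul hT0.le, hP]
    norm_num
    congr 1
    ring
  have hBP : B = T ^ ((k : ℝ) / 3) * P := by
    rw [hP, ← Real.rpow_add hT0, hB, ← Real.rpow_natCast]
    congr 1
    ring
  have hY4 : 20 * B < Y ^ 4 := by
    have e1 : Y ^ 4 = 81 * (P * P) := by
      have : Y ^ 4 = Y ^ 2 * Y ^ 2 := by ring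
      rw [this, hY2]
      ring
    have e2 : T ^ ((k : ℝ) / 3) ≤ P := by
      rw [hP]
      exact Real.rpow_le_rpow_of_exponent_le hT (by
        have : (0 : ℝ) ≤ k := Nat.cast_nonneg k
        linarith)
    rw [e1, hBP]
    nlinarith [mul_pos hP0 hP0, mul_le_mul_of_nonneg_right e2 hP0.le]
  have hBY : 20 * B / Y = 20 / 3 * P := by
    rw [hBP, hYd]
    field_simp
  have hYe : (Y ^ 2) ^ e ≤ c9 * E ^ 2 := by
    rw [hY2, Real.mul_rpow (by norm_num) hP0.le, ← hc9]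
    have : P ^ e ≤ E ^ 2 := by
      rw [hP, hE, ← Real.rpow_natCast, ← Real.rpow_mul hT0.le, ← Real.rpow_mul hT0.le]
      refine Real.rpow_le_rpow_of_exponent_le hT ?_
      have : (k : ℝ) ≤ 3 := by exact_mod_cast hk3
      push_cast
      nlinarith
    gcongr
  have hBe : B ^ e ≤ E ^ 3 := by
    rw [hB, pow_rpow_comm hT0.le, ← hE]
    exact pow_le_pow_right₀ hE1 hk3
  set A := (Finset.Icc (-⌊T⌋) ⌊T⌋).filter (fun r => r ≠ 0) with hA
  set D := Finset.Icc 1 ⌊Y ^ 2⌋₊ with hD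
  have hY21 : (1 : ℝ) ≤ Y ^ 2 := one_le_pow₀ hY1
  have hf1 : 1 ≤ ⌊Y ^ 2⌋₊ := Nat.le_floor (by simpa using hY21)
  have hf2 : ((⌊Y ^ 2⌋₊ : ℕ) : ℝ) ≤ Y ^ 2 := Nat.floor_le (by positivity)
  have hm6 : ∀ r ∈ A, ((6 * r.natAbs : ℕ) : ℝ) ≤ 6 * T ∧ 1 ≤ 6 * r.natAbs := by
    intro r hr
    rw [hA, Finset.mem_filter] at hr
    have h1 := abs_le_of_mem hr.1
    have h2 := real_natAbs r
    have h3 := hr.2
    refine ⟨?_, by omega⟩
    push_cast [h2]
    linarith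
  have hPP : ∀ r ∈ A, ((PP (6 * r.natAbs) (20 * B)).card : ℝ) ≤ C1 * c20 * c6 * E ^ 4 := by
    intro r hr
    obtain ⟨h1, h2⟩ := hm6 r hr
    have h3 : 1 ≤ ⌊20 * B⌋₊ := Nat.le_floor (by push_cast; linarith)
    have h4 : ((⌊20 * B⌋₊ : ℕ) : ℝ) ≤ 20 * B := Nat.floor_le (by positivity)
    calc ((PP (6 * r.natAbs) (20 * B)).card : ℝ) ≤
        C1 * ((⌊20 * B⌋₊ : ℕ) : ℝ) ^ e * ((6 * r.natAbs : ℕ) : ℝ) ^ e :=
          hsupp _ _ h2 h3
      _ ≤ C1 * (20 * B) ^ e * (6 * T) ^ e := by gcongr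
      _ = C1 * (c20 * B ^ e) * (c6 * E) := by
        rw [Real.mul_rpow (by norm_num) hB0.le, Real.mul_rpow (by norm_num) hT0.le]
      _ ≤ C1 * (c20 * E ^ 3) * (c6 * E) := by gcongr
      _ = _ := by ring
  -- the sum over `d`
  have hsd : ∑ d ∈ D, 1 / (rad d : ℝ) ≤ C3 * (c9 * E ^ 2) := by
    refine (hsum _ hf1).trans ?_
    have : ((⌊Y ^ 2⌋₊ : ℕ) : ℝ) ^ e ≤ c9 * E ^ 2 :=
      (Real.rpow_le_rpow (by positivity) hf2 he0.le).trans hYe
    gcongr
  have hcD : (D.card : ℝ) ≤ 9 * P := by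
    rw [hD, Nat.card_Icc, Nat.add_sub_cancel, ← hY2]
    exact hf2
  have hsumd : ∀ r ∈ A, ∀ u1 w : ℕ, 1 ≤ u1 → 1 ≤ w →
      ∑ d ∈ D, ((FT k s α β Z B Y r u1 w d).card : ℝ) ≤ 4 * (C2 * c400) * E ^ 8 *
        (K1 * qq r.natAbs * (Z / B) + K2 * P) := by
    intro r hr u1 w hu1 hw
    rw [hA, Finset.mem_filter] at hr
    have h1 : ∀ d ∈ D, ((FT k s α β Z B Y r u1 w d).card : ℝ) ≤ 4 * (C2 * (400 * B ^ 2) ^ e) *
      (4 * (c0 * qq r.natAbs * (Z / B) + 20 / 3 * P) * (1 / (rad d : ℝ)) + 1) := by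
      intro d hd
      rw [hD, Finset.mem_Icc] at hd
      have := FT_card (s := s) hf he0 hC2 hdiv hZ hB1 hY1 hr.2 hu1 hw hd.1
      rw [hBY] at this
      exact this
    refine (Finset.sum_le_sum h1).trans ?_
    rw [← Finset.mul_sum, Finset.sum_add_distrib, ← Finset.mul_sum, Finset.sum_const, nsmul_eq_mul,
      mul_one]
    have h2 : (400 * B ^ 2) ^ e ≤ c400 * E ^ 6 := by
      rw [Real.mul_rpow (by norm_num) (by positivity), pow_rpow_comm hB0.le, ← hc400]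
      have : (B ^ e) ^ 2 ≤ (E ^ 3) ^ 2 := by gcongr
      have e6 : (E ^ 3) ^ 2 = E ^ 6 := by ring
      rw [← e6]
      gcongr
    have hq := qq_nonneg r.natAbs
    have hZB : 0 ≤ Z / B := by positivity
    calc 4 * (C2 * (400 * B ^ 2) ^ e) * (4 * (c0 * qq r.natAbs * (Z / B) + 20 / 3 * P) *
          ∑ i ∈ D, 1 / (rad i : ℝ) + D.card)
        ≤ 4 * (C2 * (c400 * E ^ 6)) * (4 * (c0 * qq r.natAbs * (Z / B) + 20 / 3 * P) *
          (C3 * (c9 * E ^ 2)) + 9 * P * E ^ 2) := by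
          gcongr
          calc (D.card : ℝ) ≤ 9 * P * 1 := by rw [mul_one]; exact hcD
            _ ≤ 9 * P * E ^ 2 := by
              have : 1 ≤ E ^ 2 := one_le_pow₀ hE1
              gcongr
      _ = 4 * (C2 * c400) * E ^ 8 * (K1 * qq r.natAbs * (Z / B) + (80 / 3 * (C3 * c9) + 9) * P) := by
          rw [hK1]
          ring
      _ ≤ _ := by
          have : 80 / 3 * (C3 * c9) + 9 ≤ K2 := by
            rw [hK2]
            have : 0 < C3 * c9 := by positivity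
            linarith
          gcongr
  -- the sum over `u1` and `w`
  have hsbw : ∀ r ∈ A, ∑ u1 ∈ PP (6 * r.natAbs) (20 * B), ∑ w ∈ PP (6 * r.natAbs) (20 * B),
      ∑ d ∈ D, ((FT k s α β Z B Y r u1 w d).card : ℝ) ≤ K * E ^ 16 *
        (K1 * qq r.natAbs * (Z / B) + K2 * P) := by
    intro r hr
    set Q := K1 * qq r.natAbs * (Z / B) + K2 * P with hQ
    have hQ0 : 0 ≤ Q := by
      have := qq_nonneg r.natAbs
      positivity
    have h0 := hPP r hr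
    have h1 : ∀ u1 ∈ PP (6 * r.natAbs) (20 * B), ∑ w ∈ PP (6 * r.natAbs) (20 * B),
        ∑ d ∈ D, ((FT k s α β Z B Y r u1 w d).card : ℝ) ≤
          (C1 * c20 * c6 * E ^ 4) * (4 * (C2 * c400) * E ^ 8 * Q) := by
      intro u1 hu1
      have hu1' : 1 ≤ u1 := (Finset.mem_Icc.1 (Finset.mem_filter.1 hu1).1).1
      calc ∑ w ∈ PP (6 * r.natAbs) (20 * B), ∑ d ∈ D, ((FT k s α β Z B Y r u1 w d).card : ℝ)
          ≤ ∑ w ∈ PP (6 * r.natAbs) (20 * B), 4 * (C2 * c400) * E ^ 8 * Q :=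
            Finset.sum_le_sum fun w hw => hsumd r hr u1 w hu1'
              (Finset.mem_Icc.1 (Finset.mem_filter.1 hw).1).1
        _ = ((PP (6 * r.natAbs) (20 * B)).card : ℝ) * (4 * (C2 * c400) * E ^ 8 * Q) := by
            rw [Finset.sum_const, nsmul_eq_mul]
        _ ≤ _ := by gcongr
    calc ∑ u1 ∈ PP (6 * r.natAbs) (20 * B), ∑ w ∈ PP (6 * r.natAbs) (20 * B),
          ∑ d ∈ D, ((FT k s α β Z B Y r u1 w d).card : ℝ)
        ≤ ∑ u1 ∈ PP (6 * r.natAbs) (20 * B),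
          (C1 * c20 * c6 * E ^ 4) * (4 * (C2 * c400) * E ^ 8 * Q) := Finset.sum_le_sum h1
      _ = ((PP (6 * r.natAbs) (20 * B)).card : ℝ) *
          ((C1 * c20 * c6 * E ^ 4) * (4 * (C2 * c400) * E ^ 8 * Q)) := by
          rw [Finset.sum_const, nsmul_eq_mul]
      _ ≤ (C1 * c20 * c6 * E ^ 4) *
          ((C1 * c20 * c6 * E ^ 4) * (4 * (C2 * c400) * E ^ 8 * Q)) := by gcongr
      _ = _ := by
          rw [hK]
          ring
  -- the sum over `r`
  have hcA : (A.card : ℝ) ≤ 3 * T :=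
    le_trans (by exact_mod_cast Finset.card_filter_le _ _) (card_Icc_le hT)
  have hqqs : ∑ r ∈ A, qq r.natAbs ≤ 2 * C3 * E * T := by
    have hs1 : 1 ≤ Real.sqrt T := Real.one_le_sqrt.2 hT
    have h2 := sum_qq hC3 hsum he0 hs1
    rw [Real.sq_sqrt hT0.le, ← hE] at h2
    exact h2
  have hsa : ∑ r ∈ A, ∑ u1 ∈ PP (6 * r.natAbs) (20 * B), ∑ w ∈ PP (6 * r.natAbs) (20 * B),
      ∑ d ∈ D, ((FT k s α β Z B Y r u1 w d).card : ℝ) ≤
      K * (K1 * (2 * C3) + 3 * K2) * T ^ ε * (Z * T / B + T ^ (1 + 2 * (k : ℝ) / 3)) := by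
    refine (Finset.sum_le_sum hsbw).trans ?_
    rw [← Finset.mul_sum, Finset.sum_add_distrib, Finset.sum_const, nsmul_eq_mul]
    have h1 : ∑ r ∈ A, K1 * qq r.natAbs * (Z / B) = K1 * (Z / B) * ∑ r ∈ A, qq r.natAbs := by
      rw [Finset.mul_sum]
      refine Finset.sum_congr rfl fun r _ => ?_
      ring
    rw [h1]
    have hEX : E ^ 17 ≤ T ^ ε := by
      have h3 : T ^ ε = E ^ 20 := by
        rw [hE, ← Real.rpow_natCast, ← Real.rpow_mul hT0.le, he]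
        congr 1
        push_cast
        ring
      rw [h3]
      exact pow_le_pow_right₀ hE1 (by norm_num)
    have h4 : T ^ (1 + 2 * (k : ℝ) / 3) = T * P := by
      rw [Real.rpow_add hT0, Real.rpow_one]
    rw [h4]
    have hZB : 0 ≤ Z / B := by positivity
    calc K * E ^ 16 * (K1 * (Z / B) * ∑ r ∈ A, qq r.natAbs + (A.card : ℝ) * (K2 * P))
        ≤ K * E ^ 16 * (K1 * (Z / B) * (2 * C3 * E * T) + (3 * T) * (K2 * P) * E) := by
          have h5 : (A.card : ℝ) * (K2 * P) ≤ (3 * T) * (K2 * P) * E := by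
            calc (A.card : ℝ) * (K2 * P) ≤ (3 * T) * (K2 * P) * 1 := by
                  rw [mul_one]
                  gcongr
              _ ≤ _ := by gcongr
          gcongr
      _ = K * E ^ 17 * (K1 * (2 * C3) * (Z * T / B) + 3 * K2 * (T * P)) := by
          field_simp
      _ ≤ K * T ^ ε * (K1 * (2 * C3) * (Z * T / B) + 3 * K2 * (T * P)) := by
          gcongr
      _ ≤ K * T ^ ε * ((K1 * (2 * C3) + 3 * K2) * (Z * T / B) +
            (K1 * (2 * C3) + 3 * K2) * (T * P)) := by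
          have h6 : K1 * (2 * C3) ≤ K1 * (2 * C3) + 3 * K2 := by linarith
          have h7 : 3 * K2 ≤ K1 * (2 * C3) + 3 * K2 := by
            have : 0 < K1 * (2 * C3) := by positivity
            linarith
          gcongr
      _ = _ := by ring
  -- the covering
  set F1 := A.biUnion fun r => (PP (6 * r.natAbs) (20 * B)).biUnion fun u1 =>
    (PP (6 * r.natAbs) (20 * B)).biUnion fun w => D.biUnion fun d =>
      (FT k s α β Z B Y r u1 w d).image fun x => (r, (u1 : ℤ) * x) with hF1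
  have hsub : TopF k s α β Z T ⊆ ((F1 : Finset (ℤ × ℤ)) : Set (ℤ × ℤ)) := by
    rintro ⟨r, u⟩ ⟨hr, hu, hv, hmin, hrT, huB, hvB, htop, hC⟩
    simp only at hr hu hv hmin hrT huB hvB htop hC
    rw [Finset.mem_coe]
    obtain ⟨u1, w, d, x, h1, h2, h3, h4, h5, h6, h7, h8, h9, h10⟩ :=
      reductionF hf hZ hB0 hY1 hY4 hr hu hv huB hvB htop hC
    rw [hF1, Finset.mem_biUnion]
    refine ⟨r, Finset.mem_filter.2 ⟨mem_of_abs_le hrT, hr⟩, ?_⟩
    rw [Finset.mem_biUnion]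
    refine ⟨u1, Finset.mem_filter.2 ⟨Finset.mem_Icc.2 ⟨h2, Nat.le_floor h3⟩, h4⟩, ?_⟩
    rw [Finset.mem_biUnion]
    refine ⟨w, Finset.mem_filter.2 ⟨Finset.mem_Icc.2 ⟨h5, Nat.le_floor h6⟩, h7⟩, ?_⟩
    rw [Finset.mem_biUnion]
    refine ⟨d, Finset.mem_Icc.2 ⟨h8, Nat.le_floor h9⟩, ?_⟩
    rw [Finset.mem_image]
    refine ⟨x, Finset.mem_filter.2 ⟨?_, h10, ?_⟩, by rw [h1]⟩
    · apply mem_of_abs_le
      refine le_trans ?_ huB
      rw [h1]
      push_cast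
      rw [abs_mul, Nat.abs_cast]
      have : (1 : ℝ) ≤ u1 := by exact_mod_cast h2
      have := abs_nonneg (x : ℝ)
      nlinarith
    · intro p hp hpp
      refine hmin p hp ⟨?_, ?_⟩
      · have := Int.natCast_dvd.2 hpp.1
        push_cast at this
        exact this
      · rw [h1]
        have : (((p ^ (s * k) : ℕ) : ℤ)) ∣ (u1 : ℤ) := Int.natCast_dvd_natCast.2 hpp.2
        push_cast at this
        exact Dvd.dvd.mul_right this _
  have hcard : ((TopF k s α β Z T).ncard : ℝ) ≤ (F1.card : ℝ) := by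
    have e1 := Set.ncard_le_ncard hsub (Finset.finite_toSet _)
    rw [Set.ncard_coe_finset] at e1
    exact_mod_cast e1
  refine hcard.trans (le_trans ?_ hsa)
  have e1 : F1.card ≤ ∑ r ∈ A, ∑ u1 ∈ PP (6 * r.natAbs) (20 * B),
      ∑ w ∈ PP (6 * r.natAbs) (20 * B), ∑ d ∈ D, (FT k s α β Z B Y r u1 w d).card := by
    refine Finset.card_biUnion_le.trans (Finset.sum_le_sum fun r _ => ?_)
    refine Finset.card_biUnion_le.trans (Finset.sum_le_sum fun u1 _ => ?_)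
    refine Finset.card_biUnion_le.trans (Finset.sum_le_sum fun w _ => ?_)
    exact Finset.card_biUnion_le.trans (Finset.sum_le_sum fun d _ => Finset.card_image_le)
  exact_mod_cast e1

end Pool.Agent.X12.Tor
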