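import Pool.Agent.X12.Tor3

/-!
# Curves with a rational point of order two or three: upper bounds
-/

set_option autoImplicit false

namespace Pool.Agent.X12.Tor

open Finset Filter Topology Pool.Agent.H328R2.ABC Pool.Agent.X12.Szp

/-- the upper bound near the top of the box for the curves with the property `Q` -/
def TopBound (Q : ℤ × ℤ → Prop) (g0 : ℝ) : Prop :=
  ∀ ε : ℝ, 0 < ε → ∃ C : ℝ, 0 < C ∧ ∀ Z X : ℝ, 0 < Z → 1 ≤ X →
    (({q ∈ TopE Z X | Q q}.ncard : ℕ) : ℝ) ≤ C * X ^ ε * (Z / X + X ^ g0)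

/-- **Upper bound** for the violators in a box -/
theorem SDQ_box {Q : ℤ × ℤ → Prop} {g0 : ℝ} (hQ : TopBound Q g0) (hg0 : 0 < g0) (c κ ε : ℝ)
    (hc : 0 < c) (hκ : 0 < κ) (hε : 0 < ε) : ∃ K : ℝ, 0 < K ∧ ∀ X : ℝ, 1 ≤ X →
    (({q ∈ {q ∈ SD c κ | Q q} | Box X q}.ncard : ℕ) : ℝ) ≤ K * X ^ (max (6 / κ - 1) g0 + ε) := by
  obtain ⟨K, hK, h1⟩ := SD_top c κ hc hκ
  obtain ⟨C, hC, h2⟩ := hQ ε hε
  set g := max (6 / κ - 1) g0 with hg
  have hg4 : g0 ≤ g := le_max_right _ _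
  refine dyadic {q ∈ SD c κ | Q q} (C * (K + 1)) (g + ε) (by positivity) (by linarith)
    fun X hX => ?_
  have hX0 : 0 < X := by linarith
  have e1 : (({q ∈ {q ∈ SD c κ | Q q} | Box X q ∧ ¬ Box (X / 2) q}.ncard : ℕ) : ℝ) ≤
      (({q ∈ TopE (K * X ^ (6 / κ)) X | Q q}.ncard : ℕ) : ℝ) := by
    have hsub : {q ∈ {q ∈ SD c κ | Q q} | Box X q ∧ ¬ Box (X / 2) q} ⊆
        {q ∈ TopE (K * X ^ (6 / κ)) X | Q q} := by
      rintro q ⟨⟨k1, k2⟩, k3⟩
      exact ⟨h1 X hX ⟨k1, k3⟩, k2⟩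
    exact_mod_cast Set.ncard_le_ncard hsub ((TopE_finite _ _).subset fun q hq => hq.1)
  refine e1.trans ((h2 _ X (by positivity) hX).trans ?_)
  have e2 : K * X ^ (6 / κ) / X = K * X ^ (6 / κ - 1) := by
    rw [Real.rpow_sub_one hX0.ne']
    ring
  have e3 : X ^ (6 / κ - 1) ≤ X ^ g :=
    Real.rpow_le_rpow_of_exponent_le hX (le_max_left _ _)
  have e4 : X ^ g0 ≤ X ^ g := Real.rpow_le_rpow_of_exponent_le hX hg4
  rw [e2, Real.rpow_add hX0]
  have e5 : 0 < X ^ ε := Real.rpow_pos_of_pos hX0 _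
  calc C * X ^ ε * (K * X ^ (6 / κ - 1) + X ^ g0) ≤
      C * X ^ ε * (K * X ^ g + X ^ g) := by gcongr
    _ = C * (K + 1) * (X ^ g * X ^ ε) := by ring

/-- **Upper bound** -/
theorem HDQ_upper {Q : ℤ × ℤ → Prop} {g0 : ℝ} (hQ : TopBound Q g0) (hg0 : 0 < g0) (c κ ε : ℝ)
    (hc : 0 < c) (hκ : 0 < κ) (hε : 0 < ε) : ∃ K : ℝ, 0 < K ∧
    ∀ H : ℝ, 1 ≤ H → (({q ∈ HD c κ H | Q q}.ncard : ℕ) : ℝ) ≤
      K * H ^ (max (1 / κ - 1 / 6) (g0 / 6) + ε) := by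
  obtain ⟨K, hK, h⟩ := SDQ_box hQ hg0 c κ (6 * ε) hc hκ (by positivity)
  refine ⟨K, hK, fun H hH => ?_⟩
  have hH0 : 0 ≤ H := by linarith
  have h1 := h (H ^ (1 / 6 : ℝ)) (Real.one_le_rpow hH (by norm_num))
  have hsub : {q ∈ HD c κ H | Q q} ⊆ {q ∈ {q ∈ SD c κ | Q q} | Box (H ^ (1 / 6 : ℝ)) q} := by
    rintro q ⟨k1, k2⟩
    have k3 := HD_sub c κ hH0 k1
    exact ⟨⟨k3.1, k2⟩, k3.2⟩
  have h2 := Set.ncard_le_ncard hsub ((Box_finite _).subset fun q hq => hq.2)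
  have h3 : (({q ∈ HD c κ H | Q q}.ncard : ℕ) : ℝ) ≤
      K * (H ^ (1 / 6 : ℝ)) ^ (max (6 / κ - 1) g0 + 6 * ε) :=
    le_trans (by exact_mod_cast h2) h1
  refine h3.trans (le_of_eq ?_)
  rw [← Real.rpow_mul hH0]
  congr 2
  have h4 : max (6 / κ - 1) g0 = 6 * max (1 / κ - 1 / 6) (g0 / 6) := by
    rw [mul_max_of_nonneg _ _ (by norm_num)]
    congr 1
    · ring
    · ring
  rw [h4]
  ring

/-- there is a rational point of order two -/
def HasTwo (q : ℤ × ℤ) : Prop := ∃ r : ℚ, r ^ 3 - q.1 * r - q.2 = 0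

/-- there is a rational point of order three -/
def HasThree (q : ℤ × ℤ) : Prop := ∃ x y : ℚ, y ^ 2 = x ^ 3 - q.1 * x - q.2 ∧
  3 * x ^ 4 - 6 * q.1 * x ^ 2 - 12 * q.2 * x - q.1 ^ 2 = 0

lemma int_root {q : ℤ × ℤ} (h : HasTwo q) : ∃ r : ℤ, r ^ 3 - q.1 * r - q.2 = 0 := by
  obtain ⟨r, hr⟩ := h
  have hint : IsIntegral ℤ r := by
    refine ⟨Polynomial.X ^ 3 - Polynomial.C q.1 * Polynomial.X - Polynomial.C q.2, ?_, ?_⟩
    · monicity!
    · simp only [Polynomial.eval₂_sub, Polynomial.eval₂_mul, Polynomial.eval₂_pow,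
        Polynomial.eval₂_X, Polynomial.eval₂_C]
      simpa using hr
  obtain ⟨n, hn⟩ := IsIntegrallyClosed.isIntegral_iff.1 hint
  have hn' : (n : ℚ) = r := by simpa using hn
  refine ⟨n, ?_⟩
  rw [← hn'] at hr
  exact_mod_cast hr

/-- the conductor in the coordinates of a family -/
lemma Cn_eq {a b r u v : ℤ} (c j l : ℕ) (hc : ∀ p : ℕ, p.Prime → 5 ≤ p → ¬ p ∣ c)
    (hj : j ≠ 0) (hl : l ≠ 0)
    (hD : (Dsc a b).natAbs = c * (u.natAbs ^ j * v.natAbs ^ l)) (hD0 : Dsc a b ≠ 0)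
    (hp : ∀ p : ℕ, p.Prime → 5 ≤ p → (p : ℤ) ∣ u * v → ((p : ℤ) ∣ r ↔ (p : ℤ) ∣ a)) :
    Cn (u * v).natAbs r = Cnd a b := by
  have hD0' : (Dsc a b).natAbs ≠ 0 := Int.natAbs_ne_zero.2 hD0
  have hu : u.natAbs ≠ 0 := by
    intro h
    rw [hD, h, zero_pow hj] at hD0'
    simp at hD0'
  have hv : v.natAbs ≠ 0 := by
    intro h
    rw [hD, h, zero_pow hl] at hD0'
    simp at hD0'
  have hset : (u * v).natAbs.primeFactors.filter (fun p => 5 ≤ p) =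
      (Dsc a b).natAbs.primeFactors.filter (fun p => 5 ≤ p) := by
    ext p
    rw [Finset.mem_filter, Finset.mem_filter, Nat.mem_primeFactors, Nat.mem_primeFactors]
    constructor
    · rintro ⟨⟨h1, h2, h3⟩, h4⟩
      refine ⟨⟨h1, ?_, hD0'⟩, h4⟩
      rw [Int.natAbs_mul] at h2
      rw [hD]
      apply Dvd.dvd.mul_left
      rcases (Nat.Prime.dvd_mul h1).1 h2 with h5 | h5
      · exact Dvd.dvd.mul_right (dvd_pow h5 hj) _
      · exact Dvd.dvd.mul_left (dvd_pow h5 hl) _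
    · rintro ⟨⟨h1, h2, h3⟩, h4⟩
      refine ⟨⟨h1, ?_, ?_⟩, h4⟩
      · rw [Int.natAbs_mul]
        rw [hD] at h2
        rcases (Nat.Prime.dvd_mul h1).1 h2 with h5 | h5
        · exact absurd h5 (hc p h1 h4)
        rcases (Nat.Prime.dvd_mul h1).1 h5 with h6 | h6
        · exact Dvd.dvd.mul_right (h1.dvd_of_dvd_pow h6) _
        · exact Dvd.dvd.mul_left (h1.dvd_of_dvd_pow h6) _
      · rw [Int.natAbs_mul]
        exact Nat.mul_ne_zero hu hv
  unfold Cn Cnd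
  rw [hset]
  refine Finset.prod_congr rfl fun p hp' => ?_
  have h0 := hp'
  rw [← hset, Finset.mem_filter] at h0
  have h1 := Nat.prime_of_mem_primeFactors h0.1
  have h2 : (p : ℤ) ∣ u * v := Int.natCast_dvd.2 (Nat.dvd_of_mem_primeFactors h0.1)
  rw [if_congr (hp p h1 h0.2 h2) rfl rfl]

lemma prime_not_dvd {p : ℕ} (hp : p.Prime) (h5 : 5 ≤ p) :
    ¬ (p : ℤ) ∣ 2 ∧ ¬ (p : ℤ) ∣ 3 := by
  constructor
  · intro h
    have h10 : p ∣ 2 := by exact_mod_cast h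
    have := Nat.le_of_dvd (by norm_num) h10
    omega
  · intro h
    have h10 : p ∣ 3 := by exact_mod_cast h
    have := Nat.le_of_dvd (by norm_num) h10
    omega

lemma two_mem {Z X : ℝ} (hX : 1 ≤ X) {q : ℤ × ℤ} (hq : q ∈ TopE Z X) {r : ℤ}
    (hr : r ^ 3 - q.1 * r - q.2 = 0) (hr0 : r ≠ 0) :
    (r, 3 * r ^ 2 - q.1) ∈ TopF 2 2 9 4 Z (2 * X) := by
  obtain ⟨a, b⟩ := q
  obtain ⟨hD, hmin, ⟨hax, hbx⟩, htop, hC⟩ := hq
  simp only at hr hD hmin hax hbx htop hC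
  have hb : b = r ^ 3 - a * r := by linarith
  set u := 3 * r ^ 2 - a with hu
  have hv : vv 2 9 4 r u = 4 * a - 3 * r ^ 2 := by
    unfold vv
    rw [hu]
    push_cast
    ring
  have hDuv : Dsc a b = u ^ 2 * (4 * a - 3 * r ^ 2) := by
    unfold Dsc
    rw [hb, hu]
    ring
  have hu0 : u ≠ 0 := by
    intro h
    rw [hDuv, h] at hD
    simp at hD
  have hv0 : 4 * a - 3 * r ^ 2 ≠ 0 := by
    intro h
    rw [hDuv, h] at hD
    simp at hD
  have hX0 : 0 < X := by linarith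
  have hrb : (r : ℝ) ^ 3 = a * r + b := by
    have : r ^ 3 = a * r + b := by linarith
    exact_mod_cast this
  have hr2 : |(r : ℝ)| ≤ 2 * X := by
    by_contra hcon
    push Not at hcon
    have h1 : |(r : ℝ)| ^ 3 ≤ X ^ 2 * |(r : ℝ)| + X ^ 3 := by
      rw [← abs_pow, hrb]
      refine (abs_add_le _ _).trans ?_
      rw [abs_mul]
      gcongr
    have h2 : 0 < |(r : ℝ)| := by linarith
    nlinarith [mul_pos h2 hX0, mul_pos (sub_pos.2 hcon) h2, sq_nonneg (|(r : ℝ)| - X),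
      mul_pos (mul_pos h2 h2) (sub_pos.2 hcon), mul_pos (mul_pos hX0 hX0) (sub_pos.2 hcon),
      mul_pos (mul_pos hX0 h2) (sub_pos.2 hcon)]
  have hrsq : (r : ℝ) ^ 2 ≤ 4 * X ^ 2 := by
    rw [← sq_abs]
    have := abs_nonneg (r : ℝ)
    nlinarith
  have hr20 : 0 ≤ (r : ℝ) ^ 2 := by positivity
  rw [abs_le] at hax
  refine ⟨hr0, hu0, ?_, ?_, hr2, ?_, ?_, ?_, ?_⟩
  · simp only
    rw [hv]
    exact hv0
  · intro p hp
    simp only
    rintro ⟨h1, h2⟩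
    have h2' : (p : ℤ) ^ 4 ∣ u := h2
    apply hmin p hp
    have h3 : (p : ℤ) ^ 4 ∣ r ^ 2 := by
      have := pow_dvd_pow_of_dvd h1 2
      rwa [← pow_mul] at this
    have h4 : (p : ℤ) ^ 4 ∣ a := by
      have : a = 3 * r ^ 2 - u := by rw [hu]; ring
      rw [this]
      exact dvd_sub (Dvd.dvd.mul_left h3 _) h2'
    refine ⟨h4, ?_⟩
    have : b = r * (r ^ 2 - a) := by rw [hb]; ring
    rw [this]
    have h5 : (p : ℤ) ^ 6 = (p : ℤ) ^ 2 * (p : ℤ) ^ 4 := by ring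
    rw [h5]
    exact mul_dvd_mul h1 (dvd_sub h3 h4)
  · simp only
    rw [abs_le, hu]
    push_cast
    constructor <;> nlinarith [hax.1, hax.2]
  · simp only
    rw [hv, abs_le]
    push_cast
    constructor <;> nlinarith [hax.1, hax.2]
  · simp only
    rw [hv]
    by_contra hcon
    push Not at hcon
    obtain ⟨h1, h2⟩ := hcon
    have e64 : (2 * X) ^ 2 / 64 = X ^ 2 / 16 := by ring
    rw [e64] at h1 h2
    rw [hu] at h1
    push_cast at h1 h2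
    rw [abs_lt] at h1 h2
    have h3 : (r : ℝ) ^ 2 < X ^ 2 * (5 / 144) := by linarith [h1.1, h1.2, h2.1, h2.2]
    have h4 : |(a : ℝ)| < X ^ 2 / 4 := by
      rw [abs_lt]
      constructor <;> linarith [h1.1, h1.2, h2.1, h2.2]
    have h5 : |(r : ℝ)| < X / 5 := by
      refine abs_lt_of_sq_lt_sq ?_ (by positivity)
      have : (X / 5) ^ 2 = X ^ 2 * (1 / 25) := by ring
      rw [this]
      nlinarith
    have h6 : |(b : ℝ)| < X ^ 3 / 8 := by
      have e : (b : ℝ) = (r : ℝ) * ((r : ℝ) ^ 2 - a) := by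
        rw [hb]
        push_cast
        ring
      rw [e, abs_mul]
      have h7 : |(r : ℝ) ^ 2 - a| ≤ X ^ 2 * (1 / 2) := by
        rw [abs_lt] at h4
        rw [abs_le]
        constructor <;> nlinarith [h4.1, h4.2]
      calc |(r : ℝ)| * |(r : ℝ) ^ 2 - a| ≤ (X / 5) * (X ^ 2 * (1 / 2)) := by gcongr
        _ < X ^ 3 / 8 := by
          have : 0 < X ^ 3 := by positivity
          nlinarith
    rcases htop with h | h
    · linarith
    · linarith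
  · simp only
    rw [hv, Cn_eq (a := a) (b := b) 1 2 1 ?_ (by norm_num) (by norm_num) ?_ hD ?_]
    · exact hC
    · intro p hp h5 h
      exact hp.one_lt.ne' (Nat.dvd_one.1 h)
    · rw [hDuv, Int.natAbs_mul, Int.natAbs_pow]
      ring
    · intro p hp h5 huv
      have hpZ := Nat.prime_iff_prime_int.1 hp
      obtain ⟨hn2, hn3⟩ := prime_not_dvd hp h5
      have key3 : ∀ t : ℤ, (p : ℤ) ∣ 3 * t → (p : ℤ) ∣ t := fun t h =>
        (hpZ.dvd_or_dvd h).resolve_left hn3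
      have key4 : ∀ t : ℤ, (p : ℤ) ∣ 4 * t → (p : ℤ) ∣ t := by
        intro t h
        refine (hpZ.dvd_or_dvd h).resolve_left ?_
        intro h4
        have : (4 : ℤ) = 2 ^ 2 := by norm_num
        rw [this] at h4
        exact hn2 (hpZ.dvd_of_dvd_pow h4)
      rcases hpZ.dvd_or_dvd huv with h | h
      · constructor
        · intro hr1
          have : a = 3 * r ^ 2 - u := by rw [hu]; ring
          rw [this]
          exact dvd_sub (Dvd.dvd.mul_left (dvd_pow hr1 (by norm_num)) _) h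
        · intro ha1
          have : (p : ℤ) ∣ 3 * r ^ 2 := by
            have e : 3 * r ^ 2 = u + a := by rw [hu]; ring
            rw [e]
            exact dvd_add h ha1
          exact hpZ.dvd_of_dvd_pow (key3 _ this)
      · constructor
        · intro hr1
          refine key4 a ?_
          have e : 4 * a = (4 * a - 3 * r ^ 2) + 3 * r ^ 2 := by ring
          rw [e]
          exact dvd_add h (Dvd.dvd.mul_left (dvd_pow hr1 (by norm_num)) _)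
        · intro ha1
          have : (p : ℤ) ∣ 3 * r ^ 2 := by
            have e : 3 * r ^ 2 = 4 * a - (4 * a - 3 * r ^ 2) := by ring
            rw [e]
            exact dvd_sub (Dvd.dvd.mul_left ha1 _) h
          exact hpZ.dvd_of_dvd_pow (key3 _ this)

theorem two_bound : TopBound HasTwo (7 / 3) := by
  classical
  intro ε hε
  obtain ⟨C, hC, h⟩ := topF_le (k := 2) (s := 2) (α := 9) (β := 4)
    ⟨Or.inl ⟨rfl, rfl⟩, by norm_num, by norm_num⟩ ε hε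
  refine ⟨C * 2 ^ ε * 8 + 3, by positivity, fun Z X hZ hX => ?_⟩
  have hX0 : 0 < X := by linarith
  set S := {q ∈ TopE Z X | HasTwo q} with hS
  have hSfin : S.Finite := (TopE_finite Z X).subset fun q hq => hq.1
  -- the choice of the root
  have hch : ∀ q : ℤ × ℤ, ∃ r : ℤ, HasTwo q → r ^ 3 - q.1 * r - q.2 = 0 := by
    intro q
    by_cases hq : HasTwo q
    · obtain ⟨r, hr⟩ := int_root hq
      exact ⟨r, fun _ => hr⟩
    · exact ⟨0, fun h => absurd h hq⟩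
  choose ρ hρ using hch
  have h1 : ({q ∈ S | ρ q ≠ 0}.ncard : ℕ) ≤ (TopF 2 2 9 4 Z (2 * X)).ncard := by
    refine Set.ncard_le_ncard_of_injOn (fun q => (ρ q, 3 * (ρ q) ^ 2 - q.1)) ?_ ?_
      (TopF_finite _ _ _ _ _ _)
    · rintro q ⟨⟨hq1, hq2⟩, hq3⟩
      exact two_mem hX hq1 (hρ q hq2) hq3
    · rintro q ⟨⟨hq1, hq2⟩, hq3⟩ q' ⟨⟨hq1', hq2'⟩, hq3'⟩ hqq
      simp only [Prod.mk.injEq] at hqq
      obtain ⟨e1, e2⟩ := hqq
      have r1 := hρ q hq2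
      have r2 := hρ q' hq2'
      rw [e1] at e2 r1
      have e3 : q.1 = q'.1 := by linarith
      rw [e3] at r1
      have e4 : q.2 = q'.2 := by linarith
      exact Prod.ext e3 e4
  have h2 : (({q ∈ S | ρ q = 0}.ncard : ℕ) : ℝ) ≤ 3 * X ^ 2 := by
    have hsub : {q ∈ S | ρ q = 0} ⊆
        (((Finset.Icc (-⌊X ^ 2⌋) ⌊X ^ 2⌋).image fun a => (a, (0 : ℤ)) : Finset (ℤ × ℤ)) :
          Set (ℤ × ℤ)) := by
      rintro ⟨a, b⟩ ⟨⟨hq1, hq2⟩, hq3⟩
      have r1 := hρ _ hq2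
      rw [hq3] at r1
      simp only at r1
      rw [Finset.mem_coe, Finset.mem_image]
      refine ⟨a, mem_of_abs_le hq1.2.2.1.1, ?_⟩
      rw [Prod.mk.injEq]
      exact ⟨rfl, by linarith⟩
    have e1 := Set.ncard_le_ncard hsub (Finset.finite_toSet _)
    rw [Set.ncard_coe_finset] at e1
    have e2 : ({q ∈ S | ρ q = 0}.ncard : ℕ) ≤ (Finset.Icc (-⌊X ^ 2⌋) ⌊X ^ 2⌋).card :=
      e1.trans Finset.card_image_le
    exact le_trans (by exact_mod_cast e2) (card_Icc_le (one_le_pow₀ hX))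
  have h3 : (S.ncard : ℝ) ≤ ((TopF 2 2 9 4 Z (2 * X)).ncard : ℝ) + 3 * X ^ 2 := by
    have hsplit : S ⊆ {q ∈ S | ρ q ≠ 0} ∪ {q ∈ S | ρ q = 0} := by
      intro q hq
      by_cases h0 : ρ q = 0
      · exact Or.inr ⟨hq, h0⟩
      · exact Or.inl ⟨hq, h0⟩
    have e1 := (Set.ncard_le_ncard hsplit ((hSfin.subset fun q hq => hq.1).union
      (hSfin.subset fun q hq => hq.1))).trans (Set.ncard_union_le _ _)
    have e2 : (S.ncard : ℝ) ≤ (({q ∈ S | ρ q ≠ 0}.ncard : ℕ) : ℝ) +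
        (({q ∈ S | ρ q = 0}.ncard : ℕ) : ℝ) := by exact_mod_cast e1
    have e3 : (({q ∈ S | ρ q ≠ 0}.ncard : ℕ) : ℝ) ≤ ((TopF 2 2 9 4 Z (2 * X)).ncard : ℝ) := by
      exact_mod_cast h1
    linarith
  have h4 := h Z (2 * X) hZ (by linarith)
  refine h3.trans ?_
  have e1 : Z * (2 * X) / (2 * X) ^ 2 ≤ Z / X := by
    have : Z * (2 * X) / (2 * X) ^ 2 = Z / X / 2 := by
      field_simp
      try ring
    rw [this]
    have : 0 < Z / X := by positivity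
    linarith
  have e2 : (2 * X) ^ (1 + 2 * ((2 : ℕ) : ℝ) / 3) ≤ 8 * X ^ (7 / 3 : ℝ) := by
    have e3 : (1 + 2 * ((2 : ℕ) : ℝ) / 3) = (7 / 3 : ℝ) := by norm_num
    rw [e3, Real.mul_rpow (by norm_num) hX0.le]
    have : (2 : ℝ) ^ (7 / 3 : ℝ) ≤ 8 := by
      calc (2 : ℝ) ^ (7 / 3 : ℝ) ≤ (2 : ℝ) ^ (3 : ℝ) :=
            Real.rpow_le_rpow_of_exponent_le (by norm_num) (by norm_num)
        _ = 8 := by norm_num
    gcongr
  have e3 : X ^ 2 ≤ X ^ (7 / 3 : ℝ) := by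
    rw [← Real.rpow_natCast]
    exact Real.rpow_le_rpow_of_exponent_le hX (by norm_num)
  have hXe : 1 ≤ X ^ ε := Real.one_le_rpow hX hε.le
  have p1 : 0 < X ^ (7 / 3 : ℝ) := by positivity
  have p2 : 0 < Z / X := by positivity
  calc ((TopF 2 2 9 4 Z (2 * X)).ncard : ℝ) + 3 * X ^ 2 ≤
      C * (2 * X) ^ ε * (Z * (2 * X) / (2 * X) ^ 2 + (2 * X) ^ (1 + 2 * ((2 : ℕ) : ℝ) / 3)) +
        3 * X ^ 2 := by linarith
    _ ≤ C * (2 ^ ε * X ^ ε) * (8 * (Z / X) + 8 * X ^ (7 / 3 : ℝ)) +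
        3 * X ^ ε * (Z / X + X ^ (7 / 3 : ℝ)) := by
        rw [Real.mul_rpow (by norm_num) hX0.le]
        have e5 : Z * (2 * X) / (2 * X) ^ 2 ≤ 8 * (Z / X) := by linarith
        have e6 : 3 * X ^ 2 ≤ 3 * X ^ ε * (Z / X + X ^ (7 / 3 : ℝ)) := by
          calc 3 * X ^ 2 = 3 * 1 * (0 + X ^ 2) := by ring
            _ ≤ 3 * X ^ ε * (Z / X + X ^ (7 / 3 : ℝ)) := by gcongr
        gcongr
    _ = _ := by ring

end Pool.Agent.X12.Tor
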