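import Pool.Agent.X12.Tor4

/-!
# Curves with a rational point of order two: the lower bound
-/

set_option autoImplicit false

namespace Pool.Agent.X12.Tor

open Finset Filter Topology Pool.Agent.H328R2.ABC Pool.Agent.X12.Szp

/-- the curve with invariants `c₄, c₆` has a rational point of order two -/
def R2 (q : ℤ × ℤ) : Prop := ∃ x : ℤ, x ^ 3 - 27 * q.1 * x - 54 * q.2 = 0

/-- the curve with invariants `c₄, c₆` has a rational point of order three -/
def R3 (q : ℤ × ℤ) : Prop := ∃ x y : ℤ, y ^ 2 = x ^ 3 - 27 * q.1 * x - 54 * q.2 ∧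
  3 * x ^ 4 - 162 * q.1 * x ^ 2 - 648 * q.2 * x - 729 * q.1 ^ 2 = 0

theorem R2_model {W : WeierstrassCurve ℤ} {q : ℤ × ℤ} (h : Model W q) (hR : R2 (W.c₄, W.c₆)) :
    HasTwo q := by
  obtain ⟨x, hx⟩ := hR
  simp only at hx
  rcases h with ⟨h1, -⟩ | ⟨h1, h2, -⟩
  · refine ⟨x, ?_⟩
    rw [h1]
    simp only
    have : ((x ^ 3 - 27 * W.c₄ * x - 54 * W.c₆ : ℤ) : ℚ) = 0 := by exact_mod_cast hx
    push_cast at this ⊢
    linarith
  · refine ⟨x / 9, ?_⟩
    have e1 : x ^ 3 - 81 * q.1 * x - 729 * q.2 = 0 := by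
      rw [h1] at hx
      have : 54 * W.c₆ = 729 * q.2 := by linarith
      rw [this] at hx
      linarith
    have e2 : ((x ^ 3 - 81 * q.1 * x - 729 * q.2 : ℤ) : ℚ) = 0 := by exact_mod_cast e1
    push_cast at e2
    linarith

theorem R3_model {W : WeierstrassCurve ℤ} {q : ℤ × ℤ} (h : Model W q) (hR : R3 (W.c₄, W.c₆)) :
    HasThree q := by
  obtain ⟨x, y, hxy, hx⟩ := hR
  simp only at hx hxy
  rcases h with ⟨h1, -⟩ | ⟨h1, h2, -⟩
  · refine ⟨x, y, ?_, ?_⟩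
    · rw [h1]
      simp only
      have : ((y ^ 2 : ℤ) : ℚ) = ((x ^ 3 - 27 * W.c₄ * x - 54 * W.c₆ : ℤ) : ℚ) := by
        exact_mod_cast hxy
      push_cast at this ⊢
      linarith
    · rw [h1]
      simp only
      have : ((3 * x ^ 4 - 162 * W.c₄ * x ^ 2 - 648 * W.c₆ * x - 729 * W.c₄ ^ 2 : ℤ) : ℚ) = 0 := by
        exact_mod_cast hx
      push_cast at this ⊢
      linarith
  · have h3 : W.c₆ * 54 = 729 * q.2 := by linarith
    refine ⟨x / 9, y / 27, ?_, ?_⟩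
    · have e1 : y ^ 2 = x ^ 3 - 81 * q.1 * x - 729 * q.2 := by
        rw [hxy, h1]
        linarith
      have e2 : ((y ^ 2 : ℤ) : ℚ) = ((x ^ 3 - 81 * q.1 * x - 729 * q.2 : ℤ) : ℚ) := by
        exact_mod_cast e1
      push_cast at e2
      linarith
    · have e1 : 3 * x ^ 4 - 486 * q.1 * x ^ 2 - 8748 * q.2 * x - 6561 * q.1 ^ 2 = 0 := by
        have e0 : 648 * W.c₆ * x = 8748 * q.2 * x := by
          have : 648 * W.c₆ = 8748 * q.2 := by linarith
          rw [this]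
        rw [e0, h1] at hx
        linarith
      have e2 : ((3 * x ^ 4 - 486 * q.1 * x ^ 2 - 8748 * q.2 * x - 6561 * q.1 ^ 2 : ℤ) : ℚ) = 0 := by
        exact_mod_cast e1
      push_cast at e2
      linarith

/-- the transfer of the lower bound -/
theorem ExR_le {R Q : ℤ × ℤ → Prop}
    (hRQ : ∀ (W : WeierstrassCurve ℤ) (q : ℤ × ℤ), Model W q → R (W.c₄, W.c₆) → Q q)
    (c κ : ℝ) (hc : 0 < c) (hκ : 1 ≤ κ) : ∃ K0 : ℝ, 1 ≤ K0 ∧ ∀ X : ℝ, 0 ≤ X →
    (({q ∈ ExK K0 κ X | R q}.ncard : ℕ) : ℝ) ≤ 2 * (({q ∈ BD c κ X | Q q}.ncard : ℕ) : ℝ) := by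
  classical
  have hκ0 : 0 < κ := by linarith
  set K0 := max 1 ((136048896 * c) ^ (1 / κ)) with hK0
  refine ⟨K0, le_max_left _ _, fun X hX => ?_⟩
  have hK0' : 136048896 * c ≤ K0 ^ κ := by
    have h1 : ((136048896 * c) ^ (1 / κ)) ^ κ = 136048896 * c := by
      rw [← Real.rpow_mul (by positivity), one_div_mul_cancel hκ0.ne', Real.rpow_one]
    rw [← h1]
    exact Real.rpow_le_rpow (by positivity) (le_max_right _ _) hκ0.le
  have hfin : {q ∈ BD c κ X | Q q}.Finite := (BD_finite c κ hX).subset fun q hq => hq.1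
  have hsub : {q ∈ ExK K0 κ X | R q} ⊆
      (fun q : ℤ × ℤ => (q.1 / 27, q.2 / 54)) '' {q ∈ BD c κ X | Q q} ∪
      (fun q : ℤ × ℤ => (3 * q.1, 27 * q.2 / 2)) '' {q ∈ BD c κ X | Q q} := by
    rintro q ⟨⟨W, h0, hcop, rfl, h1, h2, h3⟩, hR⟩
    obtain ⟨q', hq'⟩ := exists_model h0 hcop
    have hmem : q' ∈ {q ∈ BD c κ X | Q q} := by
      refine ⟨⟨⟨model_min hq', ?_⟩, model_box hq' h1 h2⟩, hRQ W q' hq' hR⟩
      have h4 := (minD_bounds (model_min hq')).2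
      have h5 : |(W.Δ : ℝ)| ≤ |((Dsc q'.1 q'.2 : ℤ) : ℝ)| := by
        have := abs_nonneg (W.Δ : ℝ)
        rcases model_disc hq' with h4 | h4
        · rw [h4]
          push_cast
          rw [abs_mul, abs_of_pos (by norm_num : (0 : ℝ) < 136048896)]
          linarith
        · rw [h4]
          push_cast
          rw [abs_mul, abs_of_pos (by norm_num : (0 : ℝ) < 256)]
          linarith
      have h6 : (Cnd q'.1 q'.2 : ℝ) ≤ (rad W.Δ.natAbs : ℝ) := by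
        exact_mod_cast model_cnd h0 hcop hq'
      have hr : (0 : ℝ) < rad W.Δ.natAbs := by exact_mod_cast rad_pos _
      have h7 : (Cnd q'.1 q'.2 : ℝ) ^ κ ≤ (rad W.Δ.natAbs : ℝ) ^ κ :=
        Real.rpow_le_rpow (Cnd_pos' q').le h6 hκ0.le
      have hK00 : 0 < K0 := lt_of_lt_of_le one_pos (le_max_left _ _)
      rw [Real.mul_rpow hK00.le hr.le] at h3
      have h8 : 136048896 * c * (Cnd q'.1 q'.2 : ℝ) ^ κ ≤ K0 ^ κ * (rad W.Δ.natAbs : ℝ) ^ κ := by
        have : 0 ≤ (Cnd q'.1 q'.2 : ℝ) ^ κ := Real.rpow_nonneg (Cnd_pos' q').le _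
        gcongr
      linarith
    rcases hq' with ⟨h4, -⟩ | ⟨h4, h5, -⟩
    · left
      refine ⟨q', hmem, ?_⟩
      rw [h4]
      simp only
      rw [Int.mul_ediv_cancel_left _ (by norm_num), Int.mul_ediv_cancel_left _ (by norm_num)]
    · right
      refine ⟨q', hmem, ?_⟩
      simp only
      rw [← h5, Int.mul_ediv_cancel_left _ (by norm_num), h4]
  have h1 := Set.ncard_le_ncard hsub ((hfin.image _).union (hfin.image _))
  have h2 := h1.trans (Set.ncard_union_le _ _)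
  have h3 := Set.ncard_image_le (f := fun q : ℤ × ℤ => (q.1 / 27, q.2 / 54)) hfin
  have h4 := Set.ncard_image_le (f := fun q : ℤ × ℤ => (3 * q.1, 27 * q.2 / 2)) hfin
  have h5 : ({q ∈ ExK K0 κ X | R q}).ncard ≤ 2 * ({q ∈ BD c κ X | Q q}).ncard := by omega
  exact_mod_cast h5

/-- **Lower bound** from the semistable curves -/
theorem HDQ_lower {R Q : ℤ × ℤ → Prop}
    (hRQ : ∀ (W : WeierstrassCurve ℤ) (q : ℤ × ℤ), Model W q → R (W.c₄, W.c₆) → Q q)
    (c κ ε : ℝ) (hc : 0 < c) (hκ : 1 ≤ κ) (hε : 0 < ε)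
    (hlow : ∀ K0 : ℝ, 1 ≤ K0 → ∃ X₀ : ℝ, ∀ X : ℝ, X₀ ≤ X →
      X ^ (6 / κ - 1 - 3 * ε) ≤ (({q ∈ ExK K0 κ X | R q}.ncard : ℕ) : ℝ)) :
    ∃ H₀ : ℝ, ∀ H : ℝ, H₀ ≤ H → H ^ (1 / κ - 1 / 6 - ε) ≤ (({q ∈ HD c κ H | Q q}.ncard : ℕ) : ℝ) := by
  obtain ⟨K0, hK0, h1⟩ := ExR_le hRQ c κ hc hκ
  obtain ⟨X1, h2⟩ := hlow K0 hK0
  set a : ℝ := (1 / 78732) ^ (1 / 6 : ℝ) with ha
  have ha0 : 0 < a := by positivity
  have ha6 : a ^ 6 = 1 / 78732 := sixth (by norm_num)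
  set e := 6 / κ - 1 - 3 * ε with he
  have t0 : Tendsto (fun H : ℝ => H ^ (1 / 6 : ℝ)) atTop atTop :=
    tendsto_rpow_atTop (by norm_num)
  have t1 : Tendsto (fun H : ℝ => a * H ^ (1 / 6 : ℝ)) atTop atTop :=
    Tendsto.const_mul_atTop ha0 t0
  have t2 : Tendsto (fun H : ℝ => H ^ (ε / 2)) atTop atTop := tendsto_rpow_atTop (by positivity)
  have hfin : ∀ᶠ H : ℝ in atTop,
      H ^ (1 / κ - 1 / 6 - ε) ≤ (({q ∈ HD c κ H | Q q}.ncard : ℕ) : ℝ) := by
    filter_upwards [t1.eventually_ge_atTop X1, t2.eventually_ge_atTop (2 / a ^ e),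
      eventually_ge_atTop 1] with H h3 h4 h5
    have hH0 : 0 < H := by linarith
    have hX0 : 0 ≤ a * H ^ (1 / 6 : ℝ) := by positivity
    have h6 := h2 _ h3
    have h7 := h1 _ hX0
    have h8 : {q ∈ BD c κ (a * H ^ (1 / 6 : ℝ)) | Q q} ⊆ {q ∈ HD c κ H | Q q} := by
      rintro q ⟨⟨⟨k1, k2⟩, k3, k4⟩, k5⟩
      have e1 : 78732 * (a * H ^ (1 / 6 : ℝ)) ^ 6 = H := by
        rw [mul_pow, ha6, sixth hH0.le]
        ring
      rw [e1] at k3 k4
      exact ⟨⟨k1, k3, k4, k2⟩, k5⟩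
    have h9 : (({q ∈ BD c κ (a * H ^ (1 / 6 : ℝ)) | Q q}.ncard : ℕ) : ℝ) ≤
        (({q ∈ HD c κ H | Q q}.ncard : ℕ) : ℝ) := by
      exact_mod_cast Set.ncard_le_ncard h8 ((HD_finite c κ H).subset fun q hq => hq.1)
    have hae : 0 < a ^ e := Real.rpow_pos_of_pos ha0 _
    rw [Real.mul_rpow ha0.le (by positivity), ← Real.rpow_mul hH0.le] at h6
    rw [div_le_iff₀ hae] at h4
    have h10 : H ^ (1 / 6 * e) = H ^ (1 / κ - 1 / 6 - ε) * H ^ (ε / 2) := by
      rw [← Real.rpow_add hH0, he]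
      congr 1
      ring
    have h11 : 0 < H ^ (1 / κ - 1 / 6 - ε) := Real.rpow_pos_of_pos hH0 _
    have h12 : 2 * H ^ (1 / κ - 1 / 6 - ε) ≤ a ^ e * H ^ (1 / 6 * e) := by
      rw [h10]
      calc 2 * H ^ (1 / κ - 1 / 6 - ε) ≤ (H ^ (ε / 2) * a ^ e) * H ^ (1 / κ - 1 / 6 - ε) := by
            gcongr
        _ = _ := by ring
    linarith
  exact eventually_atTop.1 hfin

/-- the curve `y² + x y = x³ + a x² + t x` -/
def WT (a t : ℤ) : WeierstrassCurve ℤ := ⟨1, a, 0, t, 0⟩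

lemma WT_c4 (a t : ℤ) : (WT a t).c₄ = (4 * a + 1) ^ 2 - 48 * t := by
  unfold WT WeierstrassCurve.c₄ WeierstrassCurve.b₂ WeierstrassCurve.b₄
  ring

lemma WT_c6 (a t : ℤ) : (WT a t).c₆ = -(4 * a + 1) ^ 3 + 72 * (4 * a + 1) * t := by
  unfold WT WeierstrassCurve.c₆ WeierstrassCurve.b₂ WeierstrassCurve.b₄ WeierstrassCurve.b₆
  ring

lemma WT_disc (a t : ℤ) : (WT a t).Δ = t ^ 2 * ((4 * a + 1) ^ 2 - 64 * t) := by
  unfold WT WeierstrassCurve.Δ WeierstrassCurve.b₂ WeierstrassCurve.b₄ WeierstrassCurve.b₆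
    WeierstrassCurve.b₈
  ring

lemma R2_of_b6 {W : WeierstrassCurve ℤ} (h : W.b₆ = 0) : R2 (W.c₄, W.c₆) := by
  refine ⟨3 * W.b₂, ?_⟩
  simp only
  unfold WeierstrassCurve.c₄ WeierstrassCurve.c₆
  rw [h]
  ring

lemma WT_coprime {a t : ℤ} (h : IsCoprime (4 * a + 1) t) : IsCoprime (WT a t).c₄ (WT a t).Δ := by
  rw [WT_c4, WT_disc]
  set A := 4 * a + 1 with hA
  have h1 : IsCoprime (A ^ 2 - 48 * t) t := by
    have e : A ^ 2 - 48 * t = A ^ 2 + (-48) * t := by ring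
    rw [e]
    exact IsCoprime.add_mul_right_left h.pow_left _
  have h2 : IsCoprime (A ^ 2 - 48 * t) 2 :=
    ⟨1, -(8 * a ^ 2 + 4 * a - 24 * t), by rw [hA]; ring⟩
  have h3 : IsCoprime (A ^ 2 - 48 * t) (A ^ 2 - 64 * t) := by
    have e : A ^ 2 - 64 * t = -(2 ^ 4 * t) + (A ^ 2 - 48 * t) * 1 := by ring
    rw [e]
    refine IsCoprime.add_mul_left_right ?_ _
    exact (IsCoprime.mul_right h2.pow_right h1).neg_right
  exact IsCoprime.mul_right h1.pow_right h3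

/-- the family with one real point of order two is injective -/
lemma WT_inj {a t a' t' : ℤ} (h : (4 * a + 1) ^ 2 < 64 * t)
    (h4 : (WT a t).c₄ = (WT a' t').c₄) (h6 : (WT a t).c₆ = (WT a' t').c₆) : a = a' ∧ t = t' := by
  rw [WT_c4, WT_c4] at h4
  rw [WT_c6, WT_c6] at h6
  have key : (4 * a + 1 - (4 * a' + 1)) * ((4 * a' + 1) ^ 2 + (4 * a + 1) * (4 * a' + 1) -
      2 * (4 * a + 1) ^ 2 + 144 * t) = 0 := by
    generalize 4 * a + 1 = A at *
    generalize 4 * a' + 1 = A' at *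
    have e1 : 48 * t' = 48 * t - A ^ 2 + A' ^ 2 := by linarith
    have e2 : 2 * (-A ^ 3 + 72 * A * t) = 2 * (-A' ^ 3) + 3 * A' * (48 * t') := by
      rw [h6]
      ring
    rw [e1] at e2
    linear_combination e2
  rcases mul_eq_zero.1 key with h0 | h0
  · have ha : a = a' := by linarith
    refine ⟨ha, ?_⟩
    rw [ha] at h4
    linarith
  · exfalso
    nlinarith [sq_nonneg (2 * (4 * a' + 1) + (4 * a + 1))]

/-- a member of the family is in the exceptional set -/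
theorem two_memK (K0 : ℝ) (hK0 : 1 ≤ K0) (κ X : ℝ) (hκ : 1 ≤ κ) (hX : 1 ≤ X) (j s x : ℕ)
    (hs : 1 ≤ s) (hcop : IsCoprime (4 * (x : ℤ) + 1) ((2 : ℤ) ^ j * s))
    (hAX : 4 * (x : ℝ) + 1 ≤ X / 2) (ht1 : X ^ 2 / 192 ≤ 2 ^ j * (s : ℝ))
    (ht2 : 48 * (2 ^ j * (s : ℝ)) ≤ X ^ 2)
    (hQ : 384 * (K0 * X ^ (4 - 6 / κ)) < 2 ^ j) :
    ((WT x (2 ^ j * s)).c₄, (WT x (2 ^ j * s)).c₆) ∈ {q ∈ ExK K0 κ X | R2 q} := by
  have hX0 : 0 < X := by linarith
  have hx0 : (0 : ℝ) ≤ x := Nat.cast_nonneg x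
  have hs0 : (0 : ℝ) < s := by exact_mod_cast hs
  set A : ℝ := 4 * (x : ℝ) + 1 with hA
  set t : ℝ := 2 ^ j * (s : ℝ) with ht
  have hA0 : 0 < A := by positivity
  have ht0 : 0 < t := by positivity
  have hc4 : ((WT x (2 ^ j * s)).c₄ : ℝ) = A ^ 2 - 48 * t := by
    rw [WT_c4, hA, ht]
    push_cast
    ring
  have hc6 : ((WT x (2 ^ j * s)).c₆ : ℝ) = -A ^ 3 + 72 * A * t := by
    rw [WT_c6, hA, ht]
    push_cast
    ring
  have hΔ := WT_disc x (2 ^ j * s)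
  have hodd : (4 * (x : ℤ) + 1) ^ 2 - 64 * (2 ^ j * s) ≠ 0 := by
    intro h0
    have : 2 * (8 * (x : ℤ) ^ 2 + 4 * x - 32 * (2 ^ j * s)) + 1 = 0 := by linarith
    omega
  have hΔ0 : (WT x (2 ^ j * s)).Δ ≠ 0 := by
    rw [hΔ]
    refine mul_ne_zero (pow_ne_zero _ ?_) hodd
    have : (0 : ℤ) < s := by exact_mod_cast hs
    positivity
  have b4 : |((WT x (2 ^ j * s)).c₄ : ℝ)| ≤ X ^ 2 := by
    rw [hc4, abs_le]
    constructor <;> nlinarith
  have b6 : |((WT x (2 ^ j * s)).c₆ : ℝ)| ≤ X ^ 3 := by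
    have h1 : A ^ 3 ≤ X ^ 3 / 8 := by
      calc A ^ 3 ≤ (X / 2) ^ 3 := by gcongr
        _ = X ^ 3 / 8 := by ring
    have h2 : 72 * A * t ≤ 3 / 4 * X ^ 3 := by
      calc 72 * A * t = 3 / 2 * A * (48 * t) := by ring
        _ ≤ 3 / 2 * (X / 2) * X ^ 2 := by gcongr
        _ = 3 / 4 * X ^ 3 := by ring
    have h3 : 0 ≤ A ^ 3 := by positivity
    have h4 : 0 ≤ 72 * A * t := by positivity
    have h5 : 0 < X ^ 3 := by positivity
    rw [hc6, abs_le]
    constructor <;> linarith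
  refine ⟨⟨WT x (2 ^ j * s), hΔ0, WT_coprime hcop, rfl, b4, b6, ?_⟩, R2_of_b6 ?_⟩
  · -- the conductor
    set v : ℕ := ((4 * (x : ℤ) + 1) ^ 2 - 64 * (2 ^ j * s)).natAbs with hv
    have hv1 : 1 ≤ v := Int.natAbs_pos.2 hodd
    have hn : (WT x (2 ^ j * s)).Δ.natAbs = (2 ^ j * s) ^ 2 * v := by
      rw [hΔ, Int.natAbs_mul, Int.natAbs_pow]
      congr 2
    have hnr : |((WT x (2 ^ j * s)).Δ : ℝ)| = t ^ 2 * (v : ℝ) := by
      rw [← real_natAbs, hn]
      push_cast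
      rw [ht]
    have hrad : rad (WT x (2 ^ j * s)).Δ.natAbs ≤ 2 * s * v := by
      rw [hn]
      have n1 : (2 ^ j * s) ^ 2 ≠ 0 := by positivity
      refine (rad_mul_le _ _ n1 (by omega)).trans ?_
      refine Nat.mul_le_mul ?_ (rad_le hv1)
      rw [rad_sq]
      refine (rad_mul_le _ _ (by positivity) (by omega)).trans ?_
      exact Nat.mul_le_mul (rad_pow_le 2 j (by norm_num)) (rad_le hs)
    have hradR : (rad (WT x (2 ^ j * s)).Δ.natAbs : ℝ) ≤ 2 * s * v := by exact_mod_cast hrad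
    have hK00 : 0 < K0 := by linarith
    have hv0 : (0 : ℝ) < v := by exact_mod_cast hv1
    have h2j : (0 : ℝ) < 2 ^ j := by positivity
    refine crit (X := X) (N := K0 * (rad (WT x (2 ^ j * s)).Δ.natAbs : ℝ))
      (P := 2 ^ j * t / (2 * K0)) hκ ?_ (by positivity) hX (disc_le b4 b6) ?_ ?_
    · rw [hnr]
      positivity
    · rw [lt_div_iff₀ (by positivity)]
      have e1 : X ^ (6 - 6 / κ) = X ^ (4 - 6 / κ) * X ^ 2 := by
        rw [← Real.rpow_natCast, ← Real.rpow_add hX0]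
        congr 1
        push_cast
        ring
      have p1 : 0 < X ^ (4 - 6 / κ) := Real.rpow_pos_of_pos hX0 _
      rw [e1]
      calc X ^ (4 - 6 / κ) * X ^ 2 * (2 * K0) = 384 * (K0 * X ^ (4 - 6 / κ)) * (X ^ 2 / 192) := by
            ring
        _ < 2 ^ j * (X ^ 2 / 192) := by
            have : 0 < X ^ 2 / 192 := by positivity
            gcongr
        _ ≤ 2 ^ j * t := by gcongr
    · rw [hnr]
      calc K0 * (rad (WT x (2 ^ j * s)).Δ.natAbs : ℝ) * (2 ^ j * t / (2 * K0)) ≤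
          K0 * (2 * s * v) * (2 ^ j * t / (2 * K0)) := by gcongr
        _ = t ^ 2 * v := by
            rw [ht]
            field_simp
  · unfold WT WeierstrassCurve.b₆
    ring

/-- **Lower bound** for `3/2 ≤ κ < 3` -/
theorem two_lower1 (K0 : ℝ) (hK0 : 1 ≤ K0) (κ ε : ℝ) (hκ : 3 / 2 ≤ κ) (hκ3 : κ < 3) (hε : 0 < ε) :
    ∃ X₀ : ℝ, ∀ X : ℝ, X₀ ≤ X →
      X ^ (6 / κ - 1 - ε) ≤ (({q ∈ ExK K0 κ X | R2 q}.ncard : ℕ) : ℝ) := by
  classical
  have hκ0 : 0 < κ := by linarith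
  have hs0 : 0 ≤ 4 - 6 / κ := by
    have : 6 / κ ≤ 4 := by
      rw [div_le_iff₀ hκ0]
      linarith
    linarith
  have hα : 0 < 6 / κ - 2 := by
    have : 2 < 6 / κ := by
      rw [lt_div_iff₀ hκ0]
      linarith
    linarith
  set α := 6 / κ - 2 with hαd
  set η := min (ε / 2) (1 / 4) with hη
  have hη0 : 0 < η := lt_min (by positivity) (by norm_num)
  have hη1 : η ≤ ε / 2 := min_le_left _ _
  have hη2 : η ≤ 1 / 4 := min_le_right _ _
  obtain ⟨c, C, hc, hC, hsieve⟩ := sieve_ge η hη0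
  obtain ⟨X1, hX1⟩ := final_num (1 / (294912 * K0)) (1 / 16) c C α 1 ε η (by positivity)
    (by norm_num) hc hη0
    (by linarith) (by linarith)
  obtain ⟨X2, hX2⟩ := Filter.eventually_atTop.1
    ((tendsto_rpow_atTop hα).eventually_ge_atTop (294912 * K0 : ℝ))
  refine ⟨max (max X1 X2) 30, fun X hX => ?_⟩
  have hXa : X1 ≤ X := (le_max_left _ _).trans ((le_max_left _ _).trans hX)
  have hXb : X2 ≤ X := (le_max_right _ _).trans ((le_max_left _ _).trans hX)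
  have hXc : (30 : ℝ) ≤ X := (le_max_right _ _).trans hX
  have hX0 : 0 < X := by linarith
  have hX1' : (1 : ℝ) ≤ X := by linarith
  have hY1 : 1 ≤ X ^ (4 - 6 / κ) := Real.one_le_rpow hX1' hs0
  obtain ⟨k, hk1, hk2⟩ := exists_pow 2 (by norm_num) (384 * (K0 * X ^ (4 - 6 / κ))) (by
    have := one_le_mul_of_one_le_of_one_le hK0 hY1
    linarith)
  push_cast at hk1 hk2
  set I := ⌊X ^ 2 / (192 * 2 ^ k)⌋₊ with hI
  set K := ⌊X / 8⌋₊ with hK
  have hI1 : (I : ℝ) ≤ X ^ 2 / (192 * 2 ^ k) := Nat.floor_le (by positivity)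
  have hI2 : X ^ 2 / (192 * 2 ^ k) - 1 < I := Nat.sub_one_lt_floor _
  have hK1 : (K : ℝ) ≤ X / 8 := Nat.floor_le (by positivity)
  have hK2 : X / 8 - 1 < K := Nat.sub_one_lt_floor _
  have hI1' : 192 * 2 ^ k * (I : ℝ) ≤ X ^ 2 := by
    rw [le_div_iff₀ (by positivity)] at hI1
    linarith
  have h2k : (1 : ℝ) ≤ 2 ^ k := one_le_pow₀ (by norm_num)
  -- the injection
  set S := (Finset.Icc (I + 1) (2 * I)).sigma fun i => (Finset.range K).filter fun x : ℕ =>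
      IsCoprime ((1 : ℤ) + 4 * x) ((2 * i - 1 : ℕ) : ℤ) with hS
  have hfin : {q ∈ ExK K0 κ X | R2 q}.Finite :=
    (ExK_finite hK0 (by linarith : 0 ≤ κ) X).subset fun q hq => hq.1
  have ht1 : ∀ i : ℕ, I + 1 ≤ i → X ^ 2 / 192 ≤ 2 ^ k * ((2 * i - 1 : ℕ) : ℝ) := by
    intro i hi
    have e1 : ((2 * i - 1 : ℕ) : ℝ) = 2 * i - 1 := by
      rw [Nat.cast_sub (by omega)]
      push_cast
      ring
    have e2 : (I : ℝ) + 1 ≤ i := by exact_mod_cast hi
    have e3 : (0 : ℝ) ≤ I := Nat.cast_nonneg I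
    have e4 : X ^ 2 / (192 * 2 ^ k) ≤ 2 * (i : ℝ) - 1 := by linarith
    rw [e1]
    rw [div_le_iff₀ (by positivity)] at e4
    rw [div_le_iff₀ (by norm_num)]
    linarith
  have hcard : S.card ≤ {q ∈ ExK K0 κ X | R2 q}.ncard := by
    rw [← Set.ncard_coe_finset]
    refine Set.ncard_le_ncard_of_injOn (fun z : Σ _ : ℕ, ℕ =>
      ((WT z.2 (2 ^ k * (2 * z.1 - 1 : ℕ))).c₄, (WT z.2 (2 ^ k * (2 * z.1 - 1 : ℕ))).c₆)) ?_ ?_
      hfin
    · rintro ⟨i, x⟩ hx
      rw [Finset.mem_coe, hS, Finset.mem_sigma, Finset.mem_filter, Finset.mem_Icc,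
        Finset.mem_range] at hx
      obtain ⟨⟨hi1, hi2⟩, hxK, hg⟩ := hx
      simp only at hi1 hi2 hxK hg ⊢
      have hcop : IsCoprime (4 * (x : ℤ) + 1) (2 ^ k * ((2 * i - 1 : ℕ) : ℤ)) := by
        have e2 : IsCoprime (4 * (x : ℤ) + 1) 2 := ⟨1, -(2 * x), by ring⟩
        have e3 : IsCoprime (4 * (x : ℤ) + 1) ((2 * i - 1 : ℕ) : ℤ) := by
          rw [add_comm]
          exact hg
        exact IsCoprime.mul_right e2.pow_right e3
      have hi2' : (i : ℝ) ≤ 2 * I := by exact_mod_cast hi2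
      have hx' : (x : ℝ) + 1 ≤ K := by exact_mod_cast hxK
      refine two_memK K0 hK0 κ X (by linarith) hX1' k (2 * i - 1) x (by omega) hcop
        (by linarith) (ht1 i hi1) ?_ hk1
      have e4 : ((2 * i - 1 : ℕ) : ℝ) ≤ 2 * i := by
        have : 2 * i - 1 ≤ 2 * i := by omega
        exact_mod_cast this
      have e5 : (2 : ℝ) ^ k * ((2 * i - 1 : ℕ) : ℝ) ≤ 2 ^ k * (4 * I) := by
        gcongr
        linarith
      linarith
    · rintro ⟨i, x⟩ hx ⟨i', x'⟩ hx' hxx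
      rw [Finset.mem_coe, hS, Finset.mem_sigma, Finset.mem_filter, Finset.mem_Icc,
        Finset.mem_range] at hx hx'
      simp only [Prod.mk.injEq] at hxx hx hx'
      have hneg : (4 * (x : ℤ) + 1) ^ 2 < 64 * (2 ^ k * ((2 * i - 1 : ℕ) : ℤ)) := by
        have e1 := ht1 i hx.1.1
        have hxK : (x : ℝ) + 1 ≤ K := by exact_mod_cast hx.2.1
        have e2 : (4 * (x : ℝ) + 1) ≤ X / 2 := by linarith
        have e3 : (4 * (x : ℝ) + 1) ^ 2 ≤ (X / 2) ^ 2 := by gcongr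
        have e4 : (4 * (x : ℝ) + 1) ^ 2 < 64 * (2 ^ k * ((2 * i - 1 : ℕ) : ℝ)) := by
          nlinarith
        exact_mod_cast e4
      obtain ⟨q1, q2⟩ := WT_inj hneg hxx.1 hxx.2
      have q3 : ((2 * i - 1 : ℕ) : ℤ) = ((2 * i' - 1 : ℕ) : ℤ) := mul_left_cancel₀ (by positivity) q2
      have q4 : 2 * i - 1 = 2 * i' - 1 := by exact_mod_cast q3
      have q5 : i = i' := by
        have := hx.1.1
        have := hx'.1.1
        omega
      have q6 : x = x' := by exact_mod_cast q1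
      rw [q5, q6]
  have hsum : (I : ℝ) * (c * K * X ^ (-η) - C * X ^ η) ≤
      (({q ∈ ExK K0 κ X | R2 q}.ncard : ℕ) : ℝ) := by
    calc (I : ℝ) * (c * K * X ^ (-η) - C * X ^ η) =
        ∑ _i ∈ Finset.Icc (I + 1) (2 * I), (c * K * X ^ (-η) - C * X ^ η) := by
          rw [Finset.sum_const, Nat.card_Icc, nsmul_eq_mul]
          congr 2
          have : 2 * I + 1 - (I + 1) = I := by omega
          rw [this]
      _ ≤ ∑ i ∈ Finset.Icc (I + 1) (2 * I), (((Finset.range K).filter fun x : ℕ =>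
          IsCoprime ((1 : ℤ) + 4 * x) ((2 * i - 1 : ℕ) : ℤ)).card : ℝ) := by
          refine Finset.sum_le_sum fun i hi => ?_
          rw [Finset.mem_Icc] at hi
          refine hsieve X (2 * i - 1) K 1 4 hX1' (by omega) ?_ ?_
          · have e1 : ((2 * i - 1 : ℕ) : ℝ) ≤ 4 * I := by
              have : 2 * i - 1 ≤ 4 * I := by omega
              exact_mod_cast this
            have e2 : (192 : ℝ) * I ≤ 192 * 2 ^ k * I := by
              have : (0 : ℝ) ≤ I := Nat.cast_nonneg I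
              nlinarith
            have : (0 : ℝ) ≤ I := Nat.cast_nonneg I
            linarith
          · have e1 : ((2 * i - 1 : ℕ) : ℤ) = 2 * i - 1 := by
              rw [Nat.cast_sub (by omega)]
              push_cast
              ring
            rw [e1]
            have e2 : IsCoprime (2 : ℤ) (2 * i - 1) := ⟨i, -1, by ring⟩
            have : (4 : ℤ) = 2 ^ 2 := by norm_num
            rw [this]
            exact e2.pow_left
      _ ≤ _ := by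
          rw [hS, Finset.card_sigma] at hcard
          exact_mod_cast hcard
  refine le_trans ?_ hsum
  have e1 : 6 / κ - 1 - ε = α + 1 - ε := by rw [hαd]; ring
  rw [e1]
  refine hX1 X hXa _ _ ?_ ?_
  · have h3 := hX2 X hXb
    have hK00 : 0 < K0 := by linarith
    have e2 : X ^ α / (147456 * K0) ≤ X ^ 2 / (192 * 2 ^ k) := by
      rw [le_div_iff₀ (by positivity)]
      have e3 : X ^ 2 = X ^ α * X ^ (4 - 6 / κ) := by
        rw [← Real.rpow_add hX0, hαd]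
        have : 6 / κ - 2 + (4 - 6 / κ) = ((2 : ℕ) : ℝ) := by push_cast; ring
        rw [this, Real.rpow_natCast]
      have p1 : 0 < X ^ α := Real.rpow_pos_of_pos hX0 _
      calc X ^ α / (147456 * K0) * (192 * 2 ^ k) = X ^ α * 2 ^ k / (768 * K0) := by
            field_simp
            ring
        _ ≤ X ^ α * (2 * (384 * (K0 * X ^ (4 - 6 / κ)))) / (768 * K0) := by gcongr
        _ = X ^ α * X ^ (4 - 6 / κ) := by
            field_simp
            ring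
        _ = X ^ 2 := e3.symm
    have e4 : X ^ α / (147456 * K0) = 2 * (1 / (294912 * K0) * X ^ α) := by
      field_simp
      ring
    have e5 : 1 ≤ 1 / (294912 * K0) * X ^ α := by
      rw [one_div, inv_mul_eq_div, le_div_iff₀ (by positivity)]
      linarith
    linarith
  · rw [Real.rpow_one]
    linarith

lemma WF_b6 (x y : ℤ) : (WF x y).b₆ = 0 := by
  unfold WF WeierstrassCurve.b₆
  ring

/-- **Lower bound** for `3 ≤ κ < 6` -/
theorem two_lower2 (K0 : ℝ) (hK0 : 1 ≤ K0) (κ ε : ℝ) (hκ : 3 ≤ κ) (hκ6 : κ < 6) (hε : 0 < ε) :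
    ∃ X₀ : ℝ, ∀ X : ℝ, X₀ ≤ X →
      X ^ (6 / κ - 1 - ε) ≤ (({q ∈ ExK K0 κ X | R2 q}.ncard : ℕ) : ℝ) := by
  classical
  have hκ0 : 0 < κ := by linarith
  have hs0 : 0 ≤ 2 - 6 / κ := by
    have : 6 / κ ≤ 2 := by
      rw [div_le_iff₀ hκ0]
      linarith
    linarith
  have hα : 0 < 6 / κ - 1 := by
    have : 1 < 6 / κ := by
      rw [lt_div_iff₀ hκ0]
      linarith
    linarith
  set α := 6 / κ - 1 with hαd
  obtain ⟨X2, hX2⟩ := Filter.eventually_atTop.1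
    (((tendsto_rpow_atTop hα).eventually_ge_atTop (18432 * K0 : ℝ)).and
      ((tendsto_rpow_atTop hε).eventually_ge_atTop (18432 * K0 : ℝ)))
  refine ⟨max X2 128, fun X hX => ?_⟩
  have hXb : X2 ≤ X := (le_max_left _ _).trans hX
  have hXc : (128 : ℝ) ≤ X := (le_max_right _ _).trans hX
  have hX0 : 0 < X := by linarith
  have hX1' : (1 : ℝ) ≤ X := by linarith
  obtain ⟨k, hk1, hk2⟩ := exists_pow 2 (by norm_num) (X / 64) (by linarith)
  push_cast at hk1 hk2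
  have hY1 : 1 ≤ X ^ (2 - 6 / κ) := Real.one_le_rpow hX1' hs0
  obtain ⟨l, hl1, hl2⟩ := exists_pow 3 (by norm_num) (384 * (K0 * X ^ (2 - 6 / κ))) (by
    have := one_le_mul_of_one_le_of_one_le hK0 hY1
    linarith)
  push_cast at hl1 hl2
  set J := ⌊X / (8 * 3 ^ l)⌋₊ with hJ
  have hJ1 : (J : ℝ) ≤ X / (8 * 3 ^ l) := Nat.floor_le (by positivity)
  have hJ2 : X / (8 * 3 ^ l) - 1 < J := Nat.sub_one_lt_floor _
  have hJ1' : 8 * 3 ^ l * (J : ℝ) ≤ X := by
    rw [le_div_iff₀ (by positivity)] at hJ1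
    linarith
  -- `3 ^ l * c ≡ 3` modulo 4
  obtain ⟨c, hc1, hc3, hc4⟩ : ∃ c : ℕ, 1 ≤ c ∧ c ≤ 3 ∧ 3 ^ l * c % 4 = 3 := by
    have h9 : (3 ^ l) % 4 = 1 ∨ (3 ^ l) % 4 = 3 := by
      clear_value J
      clear hl1 hl2 hJ hJ1 hJ2 hJ1'
      induction l with
      | zero => left; rfl
      | succ l ih =>
        rw [pow_succ]
        omega
    rcases h9 with h | h
    · exact ⟨3, by norm_num, le_rfl, by omega⟩
    · exact ⟨1, le_rfl, by norm_num, by omega⟩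
  have hfin : {q ∈ ExK K0 κ X | R2 q}.Finite :=
    (ExK_finite hK0 (by linarith : 0 ≤ κ) X).subset fun q hq => hq.1
  have hcard : (Finset.range J).card ≤ {q ∈ ExK K0 κ X | R2 q}.ncard := by
    rw [← Set.ncard_coe_finset]
    -- `A = 3 ^ l (4 i + c)`
    have hA : ∀ i : ℕ, 3 ^ l * (4 * i + c) = 4 * ((3 ^ l * (4 * i + c) - 3) / 4) + 3 := by
      intro i
      have e1 : 3 ^ l * (4 * i + c) = 4 * (3 ^ l * i) + 3 ^ l * c := by ring
      rw [e1]
      omega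
    refine Set.ncard_le_ncard_of_injOn (fun i : ℕ =>
      ((WF ((3 ^ l * (4 * i + c) - 3) / 4 : ℕ) (2 ^ k * (1 : ℕ))).c₄,
        (WF ((3 ^ l * (4 * i + c) - 3) / 4 : ℕ) (2 ^ k * (1 : ℕ))).c₆)) ?_ ?_ hfin
    · intro i hi
      rw [Finset.mem_coe, Finset.mem_range] at hi
      set x := (3 ^ l * (4 * i + c) - 3) / 4 with hx
      have hAx : 3 ^ l * (4 * i + c) = 4 * x + 3 := hA i
      have hcop : IsCoprime (4 * (x : ℤ) + 3) (16 * (2 ^ k * ((1 : ℕ) : ℤ))) := by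
        have e2 : IsCoprime (4 * (x : ℤ) + 3) 2 := ⟨1, -(2 * x + 1), by ring⟩
        rw [Nat.cast_one, mul_one]
        refine IsCoprime.mul_right ?_ e2.pow_right
        have : (16 : ℤ) = 2 ^ 4 := by norm_num
        rw [this]
        exact e2.pow_right
      have hi' : (i : ℝ) + 1 ≤ J := by exact_mod_cast hi
      have hAr : (4 * (x : ℝ) + 3) = 3 ^ l * (4 * i + c) := by exact_mod_cast hAx.symm
      have hcr : (c : ℝ) ≤ 3 := by exact_mod_cast hc3
      refine ⟨frey_memK K0 hK0 κ X (by linarith) hX1' k l 1 (4 * i + c) x le_rfl (by omega) hAx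
        hcop ?_ ?_ ?_, R2_of_b6 (WF_b6 _ _)⟩
      · rw [hAr]
        have e1 : (4 * (i : ℝ) + c) ≤ 4 * J := by linarith
        have e2 : (3 : ℝ) ^ l * (4 * i + c) ≤ 3 ^ l * (4 * J) := by gcongr
        linarith
      · rw [Nat.cast_one, mul_one]
        linarith
      · have e1 : X ^ (3 - 6 / κ) = X * X ^ (2 - 6 / κ) := by
          rw [← Real.rpow_one_add' hX0.le (by
            have : 0 < 1 + (2 - 6 / κ) := by linarith
            exact this.ne')]
          congr 1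
          ring
        rw [e1]
        calc 6 * (K0 * (X * X ^ (2 - 6 / κ))) = X / 64 * (384 * (K0 * X ^ (2 - 6 / κ))) := by ring
          _ < 2 ^ k * 3 ^ l := by
            have : 0 < 384 * (K0 * X ^ (2 - 6 / κ)) := by positivity
            gcongr
    · intro i _ i' _ hii
      simp only [Prod.mk.injEq] at hii
      have p : (0 : ℤ) < 2 ^ k * ((1 : ℕ) : ℤ) := by positivity
      obtain ⟨q1, -⟩ := frey_inj (by positivity) p (by positivity) p hii.1 hii.2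
      have q2 : (3 ^ l * (4 * i + c) - 3) / 4 = (3 ^ l * (4 * i' + c) - 3) / 4 := by exact_mod_cast q1
      have q3 := hA i
      rw [q2, ← hA i'] at q3
      have q4 : 4 * i + c = 4 * i' + c := Nat.eq_of_mul_eq_mul_left (by positivity) q3
      omega
  rw [Finset.card_range] at hcard
  have h1 : (J : ℝ) ≤ (({q ∈ ExK K0 κ X | R2 q}.ncard : ℕ) : ℝ) := by exact_mod_cast hcard
  refine le_trans ?_ h1
  obtain ⟨h2, h3⟩ := hX2 X hXb
  have p1 : 0 < X ^ α := Real.rpow_pos_of_pos hX0 _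
  have hK00 : 0 < K0 := by linarith
  have e2 : X ^ α / (9216 * K0) ≤ X / (8 * 3 ^ l) := by
    rw [le_div_iff₀ (by positivity)]
    have e3 : X = X ^ α * X ^ (2 - 6 / κ) := by
      rw [← Real.rpow_add hX0, hαd]
      have : 6 / κ - 1 + (2 - 6 / κ) = 1 := by ring
      rw [this, Real.rpow_one]
    calc X ^ α / (9216 * K0) * (8 * 3 ^ l) = X ^ α * 3 ^ l / (1152 * K0) := by
          field_simp
          ring
      _ ≤ X ^ α * (3 * (384 * (K0 * X ^ (2 - 6 / κ)))) / (1152 * K0) := by gcongr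
      _ = X ^ α * X ^ (2 - 6 / κ) := by
          field_simp
          ring
      _ = X := e3.symm
  have e4 : X ^ (α - ε) ≤ X ^ α / (18432 * K0) := by
    rw [Real.rpow_sub hX0]
    gcongr
  have e5 : X ^ α / (9216 * K0) = 2 * (X ^ α / (18432 * K0)) := by
    field_simp
    ring
  have e6 : 1 ≤ X ^ α / (18432 * K0) := by
    rw [le_div_iff₀ (by positivity)]
    linarith
  linarith

/-- **Lower bound** for the curves with a rational point of order two -/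
theorem two_HD_lower (c κ ε : ℝ) (hc : 0 < c) (hκ : 3 / 2 ≤ κ) (hκ6 : κ < 6) (hε : 0 < ε) :
    ∃ H₀ : ℝ, ∀ H : ℝ, H₀ ≤ H →
      H ^ (1 / κ - 1 / 6 - ε) ≤ (({q ∈ HD c κ H | HasTwo q}.ncard : ℕ) : ℝ) := by
  refine HDQ_lower (R := R2) (fun W q h1 h2 => R2_model h1 h2) c κ ε hc (by linarith) hε
    fun K0 hK0 => ?_
  rcases lt_or_ge κ 3 with h | h
  · exact two_lower1 K0 hK0 κ (3 * ε) hκ h (by positivity)
  · exact two_lower2 K0 hK0 κ (3 * ε) h hκ6 (by positivity)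

end Pool.Agent.X12.Tor
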