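import Pool.Agent.X12.Tor4

/-!
# Curves with a rational point of order three: the upper bound
-/

set_option autoImplicit false

namespace Pool.Agent.X12.Tor

open Finset Filter Topology Pool.Agent.H328R2.ABC Pool.Agent.X12.Szp

lemma int_of_sq {z : ℚ} {c : ℤ} (h : z ^ 2 = c) : ∃ w : ℤ, (w : ℚ) = z := by
  have hint : IsIntegral ℤ z := by
    refine ⟨Polynomial.X ^ 2 - Polynomial.C c, ?_, ?_⟩
    · monicity!
    · simp only [Polynomial.eval₂_sub, Polynomial.eval₂_pow, Polynomial.eval₂_X,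
        Polynomial.eval₂_C]
      rw [h]
      simp
  obtain ⟨n, hn⟩ := IsIntegrallyClosed.isIntegral_iff.1 hint
  exact ⟨n, by simpa using hn⟩

lemma three_dvd_of_sq {w c : ℤ} (h : w ^ 2 = 3 * c) : ∃ w' : ℤ, w = 3 * w' := by
  have h1 : (3 : ℤ) ∣ w ^ 2 := ⟨c, h⟩
  exact Int.prime_three.dvd_of_dvd_pow h1

/-- the normal form of a curve with a rational point of order three -/
theorem three_form {q : ℤ × ℤ} (h : HasThree q) (hD : Dsc q.1 q.2 ≠ 0) :
    ∃ m n : ℤ, q.1 = -(27 * m ^ 4 + 6 * m * n) ∧ q.2 = 27 * m ^ 6 - n ^ 2 := by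
  obtain ⟨a, b⟩ := q
  obtain ⟨x, y, hxy, hx⟩ := h
  simp only at hxy hx hD ⊢
  have hsq : (3 * x ^ 2 - a) ^ 2 = 12 * x * y ^ 2 := by
    rw [hxy]
    linear_combination (-1 : ℚ) * hx
  have hy : y ≠ 0 := by
    intro h0
    rw [h0] at hsq hxy
    have h1 : 3 * x ^ 2 - (a : ℚ) = 0 := by
      have : (3 * x ^ 2 - (a : ℚ)) ^ 2 = 0 := by rw [hsq]; ring
      exact pow_eq_zero_iff (by norm_num) |>.1 this
    apply hD
    have h2 : (a : ℚ) = 3 * x ^ 2 := by linarith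
    have h3 : (b : ℚ) = -2 * x ^ 3 := by
      rw [h2] at hxy
      linarith
    have h4 : ((Dsc a b : ℤ) : ℚ) = 0 := by
      unfold Dsc
      push_cast
      rw [h2, h3]
      ring
    exact_mod_cast h4
  set l := (3 * x ^ 2 - a) / (2 * y) with hl
  have hl2 : l ^ 2 = 3 * x := by
    rw [hl, div_pow, hsq]
    field_simp
    ring
  have hly : 2 * l * y = 3 * x ^ 2 - a := by
    rw [hl]
    field_simp
  -- `l` is an integer
  obtain ⟨m', hm'⟩ : ∃ m' : ℤ, (m' : ℚ) = l := by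
    have hint : IsIntegral ℤ l := by
      refine ⟨Polynomial.X ^ 8 - Polynomial.C (18 * a) * Polynomial.X ^ 4 -
        Polynomial.C (108 * b) * Polynomial.X ^ 2 - Polynomial.C (27 * a ^ 2), ?_, ?_⟩
      · monicity!
      · simp only [Polynomial.eval₂_sub, Polynomial.eval₂_mul, Polynomial.eval₂_pow,
          Polynomial.eval₂_X, Polynomial.eval₂_C]
        have e1 : x = l ^ 2 / 3 := by linarith
        rw [e1] at hx
        simp only [map_mul, map_pow, map_ofNat, eq_intCast]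
        linear_combination 27 * hx
    obtain ⟨n, hn⟩ := IsIntegrallyClosed.isIntegral_iff.1 hint
    exact ⟨n, by simpa using hn⟩
  have hx' : x = (m' : ℚ) ^ 2 / 3 := by rw [hm']; linarith
  set ν := y - l * x with hν
  -- the equation for `ν`
  have hν2 : ν ^ 2 = x ^ 3 - b := by
    have e1 : y = ν + l * x := by rw [hν]; ring
    have e2 : (a : ℚ) = 3 * x ^ 2 - 2 * l * y := by linarith
    have e3 : l ^ 2 * x ^ 2 = 3 * x ^ 3 := by rw [hl2]; ring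
    have e4 : y ^ 2 = x ^ 3 - (3 * x ^ 2 - 2 * l * y) * x - b := by rw [← e2]; exact hxy
    have e5 : ν ^ 2 = y ^ 2 - 2 * l * x * y + l ^ 2 * x ^ 2 := by rw [hν]; ring
    rw [e5, e4, e3]
    ring
  have hw : (27 * ν) ^ 2 = ((27 * (m' ^ 6 - 27 * b) : ℤ) : ℚ) := by
    have : (27 * ν) ^ 2 = 729 * ν ^ 2 := by ring
    rw [this, hν2, hx']
    push_cast
    ring
  obtain ⟨w, hw'⟩ := int_of_sq hw
  have hw2 : w ^ 2 = 27 * (m' ^ 6 - 27 * b) := by
    rw [← hw'] at hw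
    exact_mod_cast hw
  obtain ⟨w1, hw1⟩ := three_dvd_of_sq (c := 9 * (m' ^ 6 - 27 * b)) (by rw [hw2]; ring)
  obtain ⟨w2, hw2'⟩ := three_dvd_of_sq (w := w1) (c := m' ^ 6 - 27 * b) (by
    rw [hw1] at hw2
    linarith)
  have hm3 : ∃ m : ℤ, m' = 3 * m := by
    have h1 : (3 : ℤ) ∣ m' ^ 6 := by
      rw [hw1, hw2'] at hw2
      exact ⟨w2 ^ 2 + 9 * b, by linarith⟩
    exact Int.prime_three.dvd_of_dvd_pow h1
  obtain ⟨m, hm⟩ := hm3
  obtain ⟨w3, hw3⟩ := three_dvd_of_sq (w := w2) (c := 81 * m ^ 6 - 3 * b) (by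
    rw [hw1, hw2', hm] at hw2
    linarith)
  have hνw : ν = w3 := by
    have : (w : ℚ) = 27 * w3 := by
      rw [hw1, hw2', hw3]
      push_cast
      ring
    linarith
  have hlm : l = 3 * m := by
    rw [← hm', hm]
    push_cast
    ring
  have hxm : x = 3 * m ^ 2 := by
    rw [hx', hm]
    push_cast
    ring
  refine ⟨m, w3, ?_, ?_⟩
  · have e1 : (a : ℚ) = 3 * x ^ 2 - 2 * l * y := by linarith
    have e2 : y = ν + l * x := by rw [hν]; ring
    have e3 : (a : ℚ) = ((-(27 * m ^ 4 + 6 * m * w3) : ℤ) : ℚ) := by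
      rw [e1, e2, hνw, hlm, hxm]
      push_cast
      ring
    exact_mod_cast e3
  · have e3 : (b : ℚ) = ((27 * m ^ 6 - w3 ^ 2 : ℤ) : ℚ) := by
      have : (b : ℚ) = x ^ 3 - ν ^ 2 := by linarith
      rw [this, hνw, hxm]
      push_cast
      ring
    exact_mod_cast e3

lemma three_bounds {X a b m n : ℝ} (hX : 0 < X) (ha : |a| ≤ X ^ 2) (hb : |b| ≤ X ^ 3)
    (h1 : a = -(27 * m ^ 4 + 6 * m * n)) (h2 : b = 27 * m ^ 6 - n ^ 2) :
    m ^ 2 ≤ X ∧ n ^ 2 ≤ 28 * X ^ 3 := by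
  have hm : m ^ 2 ≤ X := by
    by_contra hcon
    push Not at hcon
    -- the division polynomial
    have h3 : 3 * (3 * m ^ 2) ^ 4 - 6 * a * (3 * m ^ 2) ^ 2 - 12 * b * (3 * m ^ 2) - a ^ 2 = 0 := by
      rw [h1, h2]
      ring
    set z := m ^ 2 with hz
    have hz0 : 0 < z := by linarith
    rw [abs_le] at ha hb
    have h4 : a ^ 2 ≤ X ^ 4 := by nlinarith
    have h5 : 243 * z ^ 4 - 54 * a * z ^ 2 - 36 * b * z - a ^ 2 = 0 := by linarith
    have h6 : 54 * a * z ^ 2 ≤ 54 * X ^ 2 * z ^ 2 := by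
      have : 0 ≤ z ^ 2 := by positivity
      nlinarith
    have h7 : 36 * b * z ≤ 36 * X ^ 3 * z := by nlinarith
    have h8 : 243 * z ^ 4 ≤ 54 * X ^ 2 * z ^ 2 + 36 * X ^ 3 * z + X ^ 4 := by linarith
    have h9 : X ^ 2 * z ^ 2 ≤ z ^ 4 := by
      have : X ^ 2 ≤ z ^ 2 := by nlinarith
      calc X ^ 2 * z ^ 2 ≤ z ^ 2 * z ^ 2 := by gcongr
        _ = z ^ 4 := by ring
    have h10 : X ^ 3 * z ≤ z ^ 4 := by
      calc X ^ 3 * z ≤ z ^ 3 * z := by gcongr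
        _ = z ^ 4 := by ring
    have h11 : X ^ 4 ≤ z ^ 4 := by gcongr
    have : 0 < z ^ 4 := by positivity
    linarith
  refine ⟨hm, ?_⟩
  rw [abs_le] at hb
  have e1 : m ^ 6 ≤ X ^ 3 := by
    calc m ^ 6 = (m ^ 2) ^ 3 := by ring
      _ ≤ X ^ 3 := by gcongr
  linarith [hb.1]

lemma three_mem {Z T : ℝ} (hT : 0 < T) {q : ℤ × ℤ} (hq : q ∈ TopE Z (T ^ 2)) {m n : ℤ}
    (h1 : q.1 = -(27 * m ^ 4 + 6 * m * n)) (h2 : q.2 = 27 * m ^ 6 - n ^ 2) (hm0 : m ≠ 0) :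
    (m, n + 9 * m ^ 3) ∈ TopF 3 1 4 1 Z T := by
  obtain ⟨a, b⟩ := q
  obtain ⟨hD, hmin, ⟨hax, hbx⟩, htop, hC⟩ := hq
  simp only at h1 h2 hD hmin hax hbx htop hC
  set u := n + 9 * m ^ 3 with hu
  have hv : vv 3 4 1 m u = -(5 * m ^ 3 + n) := by
    unfold vv
    rw [hu]
    push_cast
    ring
  have hDuv : Dsc a b = 27 * (u ^ 3 * (-(5 * m ^ 3 + n))) := by
    unfold Dsc
    rw [h1, h2, hu]
    ring
  have hu0 : u ≠ 0 := by
    intro h
    rw [hDuv, h] at hD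
    simp at hD
  have hv0 : -(5 * m ^ 3 + n) ≠ 0 := by
    intro h
    rw [hDuv, h] at hD
    simp at hD
  have h1r : (a : ℝ) = -(27 * (m : ℝ) ^ 4 + 6 * m * n) := by rw [h1]; push_cast; ring
  have h2r : (b : ℝ) = 27 * (m : ℝ) ^ 6 - (n : ℝ) ^ 2 := by rw [h2]; push_cast; ring
  obtain ⟨b1, b2⟩ := three_bounds (by positivity) hax hbx h1r h2r
  have hm1 : |(m : ℝ)| ≤ T := abs_le_of_sq_le_sq b1 hT.le |> fun h => h
  have hn1 : |(n : ℝ)| ≤ 6 * T ^ 3 := by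
    refine abs_le_of_sq_le_sq ?_ (by positivity)
    have e : (6 * T ^ 3) ^ 2 = 36 * (T ^ 2) ^ 3 := by ring
    rw [e]
    have : 0 < (T ^ 2) ^ 3 := by positivity
    linarith
  have hm3 : |(m : ℝ) ^ 3| ≤ T ^ 3 := by
    rw [abs_pow]
    gcongr
  have hm3' := abs_le.1 hm3
  have hn1' := abs_le.1 hn1
  have hT3 : 0 < T ^ 3 := by positivity
  refine ⟨hm0, hu0, ?_, ?_, hm1, ?_, ?_, ?_, ?_⟩
  · simp only
    rw [hv]
    exact hv0
  · intro p hp
    simp only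
    rintro ⟨k1, k2⟩
    have k2' : (p : ℤ) ^ 3 ∣ u := k2
    have k1' : (p : ℤ) ∣ m := by simpa using k1
    apply hmin p hp
    have k3 : (p : ℤ) ^ 3 ∣ m ^ 3 := pow_dvd_pow_of_dvd k1' 3
    have k4 : (p : ℤ) ^ 3 ∣ n := by
      have : n = u - 9 * m ^ 3 := by rw [hu]; ring
      rw [this]
      exact dvd_sub k2' (Dvd.dvd.mul_left k3 _)
    constructor
    · have : a = m * (-3 * (9 * m ^ 3 + 2 * n)) := by rw [h1]; ring
      rw [this]
      have h5 : (p : ℤ) ^ 4 = p * (p : ℤ) ^ 3 := by ring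
      rw [h5]
      exact mul_dvd_mul k1' (Dvd.dvd.mul_left
        (dvd_add (Dvd.dvd.mul_left k3 _) (Dvd.dvd.mul_left k4 _)) _)
    · rw [h2]
      have h5 : (p : ℤ) ^ 6 = ((p : ℤ) ^ 3) ^ 2 := by ring
      have h6 : m ^ 6 = (m ^ 3) ^ 2 := by ring
      rw [h5, h6]
      exact dvd_sub (Dvd.dvd.mul_left (pow_dvd_pow_of_dvd k3 2) _) (pow_dvd_pow_of_dvd k4 2)
  · simp only
    rw [hu, abs_le]
    push_cast
    constructor <;> linarith [hm3'.1, hm3'.2, hn1'.1, hn1'.2]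
  · simp only
    rw [hv, abs_le]
    push_cast
    constructor <;> linarith [hm3'.1, hm3'.2, hn1'.1, hn1'.2]
  · simp only
    rw [hv]
    by_contra hcon
    push Not at hcon
    obtain ⟨k1, k2⟩ := hcon
    rw [hu] at k1
    push_cast at k1 k2
    rw [abs_lt] at k1 k2
    have k3 : |(m : ℝ) ^ 3| < T ^ 3 / 125 := by
      rw [abs_lt]
      constructor <;> linarith [k1.1, k1.2, k2.1, k2.2]
    have k3' := abs_lt.1 k3
    have k4 : |(m : ℝ)| < T / 5 := by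
      rw [abs_pow] at k3
      have e : T ^ 3 / 125 = (T / 5) ^ 3 := by ring
      rw [e] at k3
      exact lt_of_pow_lt_pow_left₀ 3 (by positivity) k3
    have k5 : |(n : ℝ)| ≤ T ^ 3 / 8 := by
      rw [abs_le]
      constructor <;> linarith [k1.1, k1.2, k3'.1, k3'.2]
    rcases htop with h | h
    · have e1 : |(a : ℝ)| ≤ 27 * |(m : ℝ)| ^ 4 + 6 * |(m : ℝ)| * |(n : ℝ)| := by
        rw [h1r, abs_neg]
        refine (abs_add_le _ _).trans (le_of_eq ?_)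
        rw [abs_mul, abs_mul, abs_mul, abs_pow, abs_of_pos (by norm_num : (0 : ℝ) < 27),
          abs_of_pos (by norm_num : (0 : ℝ) < 6)]
      have e2 : |(a : ℝ)| ≤ 27 * (T / 5) ^ 4 + 6 * (T / 5) * (T ^ 3 / 8) := by
        refine e1.trans ?_
        have := k4.le
        gcongr
      have e3 : 27 * (T / 5) ^ 4 + 6 * (T / 5) * (T ^ 3 / 8) = T ^ 4 * (483 / 2500) := by ring
      have e4 : (T ^ 2) ^ 2 / 4 = T ^ 4 / 4 := by ring
      have : 0 < T ^ 4 := by positivity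
      rw [e4] at h
      linarith
    · have e1 : |(b : ℝ)| ≤ 27 * (|(m : ℝ)| ^ 3) ^ 2 + |(n : ℝ)| ^ 2 := by
        rw [h2r]
        refine (abs_sub _ _).trans (le_of_eq ?_)
        rw [abs_mul, abs_pow, abs_pow, abs_of_pos (by norm_num : (0 : ℝ) < 27)]
        ring
      have e2 : |(b : ℝ)| ≤ 27 * (T ^ 3 / 125) ^ 2 + (T ^ 3 / 8) ^ 2 := by
        refine e1.trans ?_
        rw [abs_pow] at k3
        have := k3.le
        gcongr
      have e3 : (T ^ 2) ^ 3 / 8 = T ^ 6 / 8 := by ring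
      have e4 : 27 * (T ^ 3 / 125) ^ 2 + (T ^ 3 / 8) ^ 2 = T ^ 6 * (27 / 15625 + 1 / 64) := by ring
      have : 0 < T ^ 6 := by positivity
      rw [e3] at h
      linarith
  · simp only
    rw [hv, Cn_eq (a := a) (b := b) 27 3 1 ?_ (by norm_num) (by norm_num) ?_ hD ?_]
    · exact hC
    · intro p hp h5 h
      have : p ∣ 3 ^ 3 := by
        norm_num
        exact h
      have h3 := Nat.le_of_dvd (by norm_num) (hp.dvd_of_dvd_pow this)
      omega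
    · rw [hDuv, Int.natAbs_mul, Int.natAbs_mul, Int.natAbs_pow, pow_one]
      rfl
    · intro p hp h5 huv
      have hpZ := Nat.prime_iff_prime_int.1 hp
      obtain ⟨hn2, hn3⟩ := prime_not_dvd hp h5
      constructor
      · intro hr1
        rw [h1]
        have : -(27 * m ^ 4 + 6 * m * n) = m * (-(27 * m ^ 3 + 6 * n)) := by ring
        rw [this]
        exact Dvd.dvd.mul_right hr1 _
      · intro ha1
        have e1 : a = 3 * (m * -(9 * m ^ 3 + 2 * n)) := by rw [h1]; ring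
        rw [e1] at ha1
        have h3 := (hpZ.dvd_or_dvd ha1).resolve_left hn3
        rcases hpZ.dvd_or_dvd h3 with h4 | h4
        · exact h4
        rw [dvd_neg] at h4
        rcases hpZ.dvd_or_dvd huv with h | h
        · have h6 : (p : ℤ) ∣ 3 * (3 * m ^ 3) := by
            have : 3 * (3 * m ^ 3) = 2 * u - (9 * m ^ 3 + 2 * n) := by rw [hu]; ring
            rw [this]
            exact dvd_sub (Dvd.dvd.mul_left h _) h4
          have h7 := (hpZ.dvd_or_dvd ((hpZ.dvd_or_dvd h6).resolve_left hn3)).resolve_left hn3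
          exact hpZ.dvd_of_dvd_pow h7
        · rw [dvd_neg] at h
          have h6 : (p : ℤ) ∣ m ^ 3 := by
            have : m ^ 3 = 2 * (5 * m ^ 3 + n) - (9 * m ^ 3 + 2 * n) := by ring
            rw [this]
            exact dvd_sub (Dvd.dvd.mul_left h _) h4
          exact hpZ.dvd_of_dvd_pow h6

theorem three_bound : TopBound HasThree (3 / 2) := by
  classical
  intro ε hε
  obtain ⟨C, hC, h⟩ := topF_le (k := 3) (s := 1) (α := 4) (β := 1)
    ⟨Or.inr ⟨rfl, rfl⟩, by norm_num, by norm_num⟩ ε hε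
  refine ⟨C + 3, by positivity, fun Z X hZ hX => ?_⟩
  have hX0 : 0 < X := by linarith
  set T := X ^ (1 / 2 : ℝ) with hT
  have hT1 : 1 ≤ T := Real.one_le_rpow hX (by norm_num)
  have hT0 : 0 < T := by linarith
  have hT2 : T ^ 2 = X := by
    rw [hT, ← Real.rpow_natCast, ← Real.rpow_mul hX0.le]
    norm_num
  have hT3 : T ^ 3 = X ^ (3 / 2 : ℝ) := by
    rw [hT, ← Real.rpow_natCast, ← Real.rpow_mul hX0.le]
    norm_num
  set S := {q ∈ TopE Z X | HasThree q} with hS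
  have hSfin : S.Finite := (TopE_finite Z X).subset fun q hq => hq.1
  -- the choice of the parameters
  have hch : ∀ q : ℤ × ℤ, ∃ z : ℤ × ℤ, q ∈ S →
      q.1 = -(27 * z.1 ^ 4 + 6 * z.1 * z.2) ∧ q.2 = 27 * z.1 ^ 6 - z.2 ^ 2 := by
    intro q
    by_cases hq : q ∈ S
    · obtain ⟨m, n, h1, h2⟩ := three_form hq.2 hq.1.1
      exact ⟨(m, n), fun _ => ⟨h1, h2⟩⟩
    · exact ⟨0, fun h => absurd h hq⟩
  choose ρ hρ using hch
  have h1 : ({q ∈ S | (ρ q).1 ≠ 0}.ncard : ℕ) ≤ (TopF 3 1 4 1 Z T).ncard := by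
    refine Set.ncard_le_ncard_of_injOn (fun q => ((ρ q).1, (ρ q).2 + 9 * (ρ q).1 ^ 3)) ?_ ?_
      (TopF_finite _ _ _ _ _ _)
    · rintro q ⟨hq1, hq3⟩
      obtain ⟨r1, r2⟩ := hρ q hq1
      have hq1' : q ∈ TopE Z (T ^ 2) := by rw [hT2]; exact hq1.1
      exact three_mem hT0 hq1' r1 r2 hq3
    · rintro q ⟨hq1, hq3⟩ q' ⟨hq1', hq3'⟩ hqq
      simp only [Prod.mk.injEq] at hqq
      obtain ⟨e1, e2⟩ := hqq
      obtain ⟨r1, r2⟩ := hρ q hq1
      obtain ⟨r1', r2'⟩ := hρ q' hq1'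
      rw [e1] at e2 r1 r2
      have e3 : (ρ q).2 = (ρ q').2 := by linarith
      rw [e3] at r1 r2
      exact Prod.ext (r1.trans r1'.symm) (r2.trans r2'.symm)
  have h2 : (({q ∈ S | (ρ q).1 = 0}.ncard : ℕ) : ℝ) ≤ 3 * X ^ (3 / 2 : ℝ) := by
    have hsub : {q ∈ S | (ρ q).1 = 0} ⊆
        (((Finset.Icc (-⌊T ^ 3⌋) ⌊T ^ 3⌋).image fun n => ((0 : ℤ), -n ^ 2) : Finset (ℤ × ℤ)) :
          Set (ℤ × ℤ)) := by
      rintro ⟨a, b⟩ ⟨hq1, hq3⟩
      obtain ⟨r1, r2⟩ := hρ _ hq1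
      rw [hq3] at r1 r2
      simp only at r1 r2
      rw [Finset.mem_coe, Finset.mem_image]
      refine ⟨(ρ (a, b)).2, mem_of_abs_le ?_, ?_⟩
      · have hb := hq1.1.2.2.1.2
        simp only at hb
        refine abs_le_of_sq_le_sq ?_ (by positivity)
        have e1 : (b : ℝ) = -(((ρ (a, b)).2 : ℤ) : ℝ) ^ 2 := by
          have e0 : b = -(ρ (a, b)).2 ^ 2 := by linarith
          exact_mod_cast e0
        rw [e1, abs_neg, abs_of_nonneg (by positivity), ← hT2] at hb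
        calc (((ρ (a, b)).2 : ℤ) : ℝ) ^ 2 ≤ (T ^ 2) ^ 3 := hb
          _ = (T ^ 3) ^ 2 := by ring
      · rw [Prod.mk.injEq]
        exact ⟨by linarith, by linarith⟩
    have e1 := Set.ncard_le_ncard hsub (Finset.finite_toSet _)
    rw [Set.ncard_coe_finset] at e1
    have e2 : ({q ∈ S | (ρ q).1 = 0}.ncard : ℕ) ≤ (Finset.Icc (-⌊T ^ 3⌋) ⌊T ^ 3⌋).card :=
      e1.trans Finset.card_image_le
    rw [← hT3]
    exact le_trans (by exact_mod_cast e2) (card_Icc_le (one_le_pow₀ hT1))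
  have h3 : (S.ncard : ℝ) ≤ ((TopF 3 1 4 1 Z T).ncard : ℝ) + 3 * X ^ (3 / 2 : ℝ) := by
    have hsplit : S ⊆ {q ∈ S | (ρ q).1 ≠ 0} ∪ {q ∈ S | (ρ q).1 = 0} := by
      intro q hq
      by_cases h0 : (ρ q).1 = 0
      · exact Or.inr ⟨hq, h0⟩
      · exact Or.inl ⟨hq, h0⟩
    have e1 := (Set.ncard_le_ncard hsplit ((hSfin.subset fun q hq => hq.1).union
      (hSfin.subset fun q hq => hq.1))).trans (Set.ncard_union_le _ _)
    have e2 : (S.ncard : ℝ) ≤ (({q ∈ S | (ρ q).1 ≠ 0}.ncard : ℕ) : ℝ) +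
        (({q ∈ S | (ρ q).1 = 0}.ncard : ℕ) : ℝ) := by exact_mod_cast e1
    have e3 : (({q ∈ S | (ρ q).1 ≠ 0}.ncard : ℕ) : ℝ) ≤ ((TopF 3 1 4 1 Z T).ncard : ℝ) := by
      exact_mod_cast h1
    linarith
  have h4 := h Z T hZ hT1
  refine h3.trans ?_
  have e1 : Z * T / T ^ 3 = Z / X := by
    rw [← hT2]
    field_simp
  have e2 : T ^ (1 + 2 * ((3 : ℕ) : ℝ) / 3) = X ^ (3 / 2 : ℝ) := by
    rw [← hT3, ← Real.rpow_natCast T 3]
    congr 1
    norm_num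
  have e3 : T ^ ε ≤ X ^ ε := by
    refine Real.rpow_le_rpow hT0.le ?_ hε.le
    rw [← hT2]
    nlinarith
  rw [e1, e2] at h4
  have hXe : 1 ≤ X ^ ε := Real.one_le_rpow hX hε.le
  have p1 : 0 < X ^ (3 / 2 : ℝ) := by positivity
  have p2 : 0 < Z / X := by positivity
  calc ((TopF 3 1 4 1 Z T).ncard : ℝ) + 3 * X ^ (3 / 2 : ℝ) ≤
      C * T ^ ε * (Z / X + X ^ (3 / 2 : ℝ)) + 3 * (1 * (0 + X ^ (3 / 2 : ℝ))) := by linarith
    _ ≤ C * X ^ ε * (Z / X + X ^ (3 / 2 : ℝ)) + 3 * (X ^ ε * (Z / X + X ^ (3 / 2 : ℝ))) := by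
        gcongr
    _ = _ := by ring

end Pool.Agent.X12.Tor
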