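import Pool.Agent.X12.Tor5
import Pool.Agent.X12.Tor6

/-!
# Curves with a rational point of order three: the lower bound
-/

set_option autoImplicit false

namespace Pool.Agent.X12.Tor

open Finset Filter Topology Pool.Agent.H328R2.ABC Pool.Agent.X12.Szp

/-- the curve `y² + A x y + B y = x³` -/
def WH (A B : ℤ) : WeierstrassCurve ℤ := ⟨A, 0, B, 0, 0⟩

lemma WH_c4 (A B : ℤ) : (WH A B).c₄ = A ^ 4 - 24 * A * B := by
  unfold WH WeierstrassCurve.c₄ WeierstrassCurve.b₂ WeierstrassCurve.b₄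
  ring

lemma WH_c6 (A B : ℤ) : (WH A B).c₆ = -A ^ 6 + 36 * A ^ 3 * B - 216 * B ^ 2 := by
  unfold WH WeierstrassCurve.c₆ WeierstrassCurve.b₂ WeierstrassCurve.b₄ WeierstrassCurve.b₆
  ring

lemma WH_disc (A B : ℤ) : (WH A B).Δ = B ^ 3 * (A ^ 3 - 27 * B) := by
  unfold WH WeierstrassCurve.Δ WeierstrassCurve.b₂ WeierstrassCurve.b₄ WeierstrassCurve.b₆
    WeierstrassCurve.b₈
  ring

lemma WH_R3 (A B : ℤ) : R3 ((WH A B).c₄, (WH A B).c₆) := by
  refine ⟨3 * A ^ 2, 108 * B, ?_, ?_⟩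
  · simp only
    rw [WH_c4, WH_c6]
    ring
  · simp only
    rw [WH_c4, WH_c6]
    ring

lemma WH_coprime {A B : ℤ} (h : IsCoprime A B) (h3 : IsCoprime A 3) :
    IsCoprime (WH A B).c₄ (WH A B).Δ := by
  rw [WH_c4, WH_disc]
  have e0 : A ^ 4 - 24 * A * B = A * (A ^ 3 - 24 * B) := by ring
  rw [e0]
  have h1 : IsCoprime (A ^ 3 - 24 * B) B := by
    have e : A ^ 3 - 24 * B = A ^ 3 + (-24) * B := by ring
    rw [e]
    exact IsCoprime.add_mul_right_left h.pow_left _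
  have h2 : IsCoprime (A ^ 3 - 24 * B) 3 := by
    have e : A ^ 3 - 24 * B = A ^ 3 + (-8 * B) * 3 := by ring
    rw [e]
    exact IsCoprime.add_mul_right_left h3.pow_left _
  have h4 : IsCoprime (A ^ 3 - 24 * B) (A ^ 3 - 27 * B) := by
    have e : A ^ 3 - 27 * B = -(3 * B) + (A ^ 3 - 24 * B) * 1 := by ring
    rw [e]
    exact IsCoprime.add_mul_left_right (IsCoprime.mul_right h2 h1).neg_right _
  have h5 : IsCoprime A (A ^ 3 - 27 * B) := by
    have e : A ^ 3 - 27 * B = -(3 ^ 3 * B) + A * A ^ 2 := by ring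
    rw [e]
    exact IsCoprime.add_mul_left_right (IsCoprime.mul_right h3.pow_right h).neg_right _
  exact IsCoprime.mul_left (IsCoprime.mul_right h.pow_right h5)
    (IsCoprime.mul_right h1.pow_right h4)

/-- the family is injective -/
lemma WH_inj {A B A' B' : ℤ} (hA : 0 < A) (hA' : 0 < A')
    (h4 : (WH A B).c₄ = (WH A' B').c₄) (h6 : (WH A B).c₆ = (WH A' B').c₆) : A = A' ∧ B = B' := by
  have f1 : (A ^ 2) ^ 4 - 6 * (WH A B).c₄ * (A ^ 2) ^ 2 - 8 * (WH A B).c₆ * A ^ 2 -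
      3 * (WH A B).c₄ ^ 2 = 0 := by
    rw [WH_c4, WH_c6]
    ring
  have f2 : (A' ^ 2) ^ 4 - 6 * (WH A' B').c₄ * (A' ^ 2) ^ 2 - 8 * (WH A' B').c₆ * A' ^ 2 -
      3 * (WH A' B').c₄ ^ 2 = 0 := by
    rw [WH_c4, WH_c6]
    ring
  rw [← h4, ← h6] at f2
  set c := (WH A B).c₄
  set d := (WH A B).c₆
  set z := A ^ 2 with hz
  set z' := A' ^ 2 with hz'
  have hz0 : 0 < z := by positivity
  have hz0' : 0 < z' := by positivity
  have key : (z - z') * (3 * (c - z * z') ^ 2 + z * z' * (z - z') ^ 2) = 0 := by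
    linear_combination z' * f1 - z * f2
  have hzz : z = z' := by
    rcases mul_eq_zero.1 key with h | h
    · linarith
    · have h1 : 0 ≤ 3 * (c - z * z') ^ 2 := by positivity
      have h2 : 0 ≤ z * z' * (z - z') ^ 2 := by positivity
      have h3 : z * z' * (z - z') ^ 2 = 0 := by linarith
      have h4 : (z - z') ^ 2 = 0 :=
        (mul_eq_zero.1 h3).resolve_left (mul_pos hz0 hz0').ne'
      have h5 : z - z' = 0 := pow_eq_zero_iff (by norm_num) |>.1 h4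
      linarith
  have hAA : A = A' := by
    rw [hz, hz'] at hzz
    exact (pow_left_inj₀ hA.le hA'.le (by norm_num)).1 hzz
  refine ⟨hAA, ?_⟩
  have h4' : A ^ 4 - 24 * A * B = A' ^ 4 - 24 * A' * B' := by
    rw [← WH_c4, ← WH_c4]
    exact h4
  rw [← hAA] at h4'
  have h7 : A * B = A * B' := by linarith
  exact mul_left_cancel₀ hA.ne' h7

lemma WH_box {A B : ℤ} {T : ℝ} (hT : 0 < T) (hA0 : 0 ≤ (A : ℝ)) (hA : (A : ℝ) ≤ T / 2)
    (hB0 : 0 ≤ (B : ℝ)) (hB : (B : ℝ) ≤ T ^ 3 / 24) :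
    |((WH A B).c₄ : ℝ)| ≤ (T ^ 2) ^ 2 ∧ |((WH A B).c₆ : ℝ)| ≤ (T ^ 2) ^ 3 := by
  have hc4 : ((WH A B).c₄ : ℝ) = (A : ℝ) ^ 4 - 24 * A * B := by
    rw [WH_c4]
    push_cast
    ring
  have hc6 : ((WH A B).c₆ : ℝ) = -(A : ℝ) ^ 6 + 36 * (A : ℝ) ^ 3 * B - 216 * (B : ℝ) ^ 2 := by
    rw [WH_c6]
    push_cast
    ring
  have e1 : (A : ℝ) ^ 4 ≤ T ^ 4 / 16 := by
    calc (A : ℝ) ^ 4 ≤ (T / 2) ^ 4 := by gcongr
      _ = T ^ 4 / 16 := by ring
  have e2 : 24 * (A : ℝ) * B ≤ T ^ 4 / 2 := by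
    calc 24 * (A : ℝ) * B ≤ 24 * (T / 2) * (T ^ 3 / 24) := by gcongr
      _ = T ^ 4 / 2 := by ring
  have e3 : (A : ℝ) ^ 6 ≤ T ^ 6 / 64 := by
    calc (A : ℝ) ^ 6 ≤ (T / 2) ^ 6 := by gcongr
      _ = T ^ 6 / 64 := by ring
  have e4 : 36 * (A : ℝ) ^ 3 * B ≤ T ^ 6 * (3 / 16) := by
    calc 36 * (A : ℝ) ^ 3 * B ≤ 36 * (T / 2) ^ 3 * (T ^ 3 / 24) := by gcongr
      _ = T ^ 6 * (3 / 16) := by ring
  have e5 : 216 * (B : ℝ) ^ 2 ≤ T ^ 6 * (3 / 8) := by
    calc 216 * (B : ℝ) ^ 2 ≤ 216 * (T ^ 3 / 24) ^ 2 := by gcongr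
      _ = T ^ 6 * (3 / 8) := by ring
  have p1 : 0 ≤ (A : ℝ) ^ 4 := by positivity
  have p2 : 0 ≤ 24 * (A : ℝ) * B := by positivity
  have p3 : 0 ≤ (A : ℝ) ^ 6 := by positivity
  have p4 : 0 ≤ 36 * (A : ℝ) ^ 3 * B := by positivity
  have p5 : 0 ≤ 216 * (B : ℝ) ^ 2 := by positivity
  have p6 : 0 < T ^ 4 := by positivity
  have p7 : 0 < T ^ 6 := by positivity
  have q1 : (T ^ 2) ^ 2 = T ^ 4 := by ring
  have q2 : (T ^ 2) ^ 3 = T ^ 6 := by ring
  rw [hc4, hc6, q1, q2, abs_le, abs_le]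
  refine ⟨⟨?_, ?_⟩, ?_, ?_⟩ <;> linarith

/-- a member of the first family is in the exceptional set -/
theorem three_memK (K0 : ℝ) (hK0 : 1 ≤ K0) (κ T : ℝ) (hκ : 1 ≤ κ) (hT : 1 ≤ T) (j s x : ℕ)
    (hs : 1 ≤ s) (hcop : IsCoprime (6 * (x : ℤ) + 1) ((2 : ℤ) ^ j * s))
    (hAX : 6 * (x : ℝ) + 1 ≤ T / 2) (ht1 : T ^ 3 / 52 ≤ 2 ^ j * (s : ℝ))
    (ht2 : 2 ^ j * (s : ℝ) ≤ T ^ 3 / 24)
    (hQ : 5408 * (K0 * (T ^ 2) ^ (3 - 6 / κ)) < 2 ^ j) :
    ((WH (6 * x + 1) (2 ^ j * s)).c₄, (WH (6 * x + 1) (2 ^ j * s)).c₆) ∈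
      {q ∈ ExK K0 κ (T ^ 2) | R3 q} := by
  have hT0 : 0 < T := by linarith
  have hx0 : (0 : ℝ) ≤ x := Nat.cast_nonneg x
  have hs0 : (0 : ℝ) < s := by exact_mod_cast hs
  set A : ℤ := 6 * x + 1 with hA
  set B : ℤ := 2 ^ j * s with hB
  have hAr : (A : ℝ) = 6 * (x : ℝ) + 1 := by rw [hA]; push_cast; ring
  have hBr : (B : ℝ) = 2 ^ j * (s : ℝ) := by rw [hB]; push_cast; ring
  have hB0 : (0 : ℝ) < B := by rw [hBr]; positivity
  have h3 : IsCoprime A 3 := ⟨1, -(2 * x), by rw [hA]; ring⟩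
  obtain ⟨b4, b6⟩ := WH_box (A := A) (B := B) hT0 (by rw [hAr]; positivity) (by rw [hAr]; exact hAX)
    hB0.le (by rw [hBr]; exact ht2)
  have hne : A ^ 3 - 27 * B ≠ 0 := by
    intro h0
    have h1 : (3 : ℤ) ∣ A ^ 3 := ⟨9 * B, by linarith⟩
    have h2 := Int.prime_three.dvd_of_dvd_pow h1
    omega
  have hB0' : B ≠ 0 := by
    intro h0
    rw [h0] at hB0
    simp at hB0
  have hΔ0 : (WH A B).Δ ≠ 0 := by
    rw [WH_disc]
    exact mul_ne_zero (pow_ne_zero _ hB0') hne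
  refine ⟨⟨WH A B, hΔ0, WH_coprime hcop h3, rfl, b4, b6, ?_⟩, WH_R3 A B⟩
  set v : ℕ := (A ^ 3 - 27 * B).natAbs with hv
  have hv1 : 1 ≤ v := Int.natAbs_pos.2 hne
  have hBn : B.natAbs = 2 ^ j * s := by
    rw [hB]
    have : ((2 : ℤ) ^ j * (s : ℤ)) = ((2 ^ j * s : ℕ) : ℤ) := by push_cast; ring
    rw [this, Int.natAbs_natCast]
  have hn : (WH A B).Δ.natAbs = (2 ^ j * s) ^ 3 * v := by
    rw [WH_disc, Int.natAbs_mul, Int.natAbs_pow, hBn]
  have hnr : |((WH A B).Δ : ℝ)| = (B : ℝ) ^ 3 * (v : ℝ) := by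
    rw [← real_natAbs, hn, hBr]
    push_cast
    ring
  have hrad : rad (WH A B).Δ.natAbs ≤ 2 * s * v := by
    rw [hn]
    have n1 : (2 ^ j * s) ^ 3 ≠ 0 := by positivity
    refine (rad_mul_le _ _ n1 (by omega)).trans ?_
    refine Nat.mul_le_mul ?_ (rad_le hv1)
    have : rad ((2 ^ j * s) ^ 3) = rad (2 ^ j * s) := by
      unfold rad
      rw [Nat.primeFactors_pow _ (by norm_num)]
    rw [this]
    refine (rad_mul_le _ _ (by positivity) (by omega)).trans ?_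
    exact Nat.mul_le_mul (rad_pow_le 2 j (by norm_num)) (rad_le hs)
  have hradR : (rad (WH A B).Δ.natAbs : ℝ) ≤ 2 * s * v := by exact_mod_cast hrad
  have hK00 : 0 < K0 := by linarith
  have hv0 : (0 : ℝ) < v := by exact_mod_cast hv1
  have h2j : (0 : ℝ) < 2 ^ j := by positivity
  have hX1 : 1 ≤ T ^ 2 := one_le_pow₀ hT
  have hX0 : 0 < T ^ 2 := by positivity
  refine crit (X := T ^ 2) (N := K0 * (rad (WH A B).Δ.natAbs : ℝ))
    (P := 2 ^ j * (B : ℝ) ^ 2 / (2 * K0)) hκ ?_ (by positivity) hX1 (disc_le b4 b6) ?_ ?_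
  · rw [hnr]
    positivity
  · rw [lt_div_iff₀ (by positivity)]
    have e1 : (T ^ 2) ^ (6 - 6 / κ) = (T ^ 2) ^ (3 - 6 / κ) * (T ^ 2) ^ 3 := by
      rw [← Real.rpow_natCast (T ^ 2) 3, ← Real.rpow_add hX0]
      congr 1
      push_cast
      ring
    have p1 : 0 < (T ^ 2) ^ (3 - 6 / κ) := Real.rpow_pos_of_pos hX0 _
    rw [e1]
    calc (T ^ 2) ^ (3 - 6 / κ) * (T ^ 2) ^ 3 * (2 * K0) =
          5408 * (K0 * (T ^ 2) ^ (3 - 6 / κ)) * (T ^ 3 / 52) ^ 2 := by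
          ring
      _ < 2 ^ j * (T ^ 3 / 52) ^ 2 := by
          have : 0 < (T ^ 3 / 52) ^ 2 := by positivity
          gcongr
      _ ≤ 2 ^ j * (B : ℝ) ^ 2 := by
          rw [hBr]
          gcongr
  · rw [hnr]
    calc K0 * (rad (WH A B).Δ.natAbs : ℝ) * (2 ^ j * (B : ℝ) ^ 2 / (2 * K0)) ≤
        K0 * (2 * s * v) * (2 ^ j * (B : ℝ) ^ 2 / (2 * K0)) := by gcongr
      _ = (B : ℝ) ^ 3 * v := by
          rw [hBr]
          field_simp

/-- **Lower bound** for `2 ≤ κ < 4` -/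
theorem three_lower1 (K0 : ℝ) (hK0 : 1 ≤ K0) (κ ε : ℝ) (hκ : 2 ≤ κ) (hκ4 : κ < 4) (hε : 0 < ε) :
    ∃ X₀ : ℝ, ∀ X : ℝ, X₀ ≤ X →
      X ^ (6 / κ - 1 - ε) ≤ (({q ∈ ExK K0 κ X | R3 q}.ncard : ℕ) : ℝ) := by
  classical
  have hκ0 : 0 < κ := by linarith
  have hs0 : 0 ≤ 3 - 6 / κ := by
    have : 6 / κ ≤ 3 := by
      rw [div_le_iff₀ hκ0]
      linarith
    linarith
  have hα : 0 < 6 / κ - 3 / 2 := by
    have : 3 / 2 < 6 / κ := by
      rw [lt_div_iff₀ hκ0]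
      linarith
    linarith
  set α := 6 / κ - 3 / 2 with hαd
  set η := min (ε / 2) (1 / 8) with hη
  have hη0 : 0 < η := lt_min (by positivity) (by norm_num)
  have hη1 : η ≤ ε / 2 := min_le_left _ _
  have hη2 : η ≤ 1 / 8 := min_le_right _ _
  obtain ⟨c, C, hc, hC, hsieve⟩ := sieve_ge η hη0
  obtain ⟨X1, hX1⟩ := final_num (1 / (6749184 * K0)) (1 / 24) c C α (1 / 2) ε η (by positivity)
    (by norm_num) hc hη0
    (by linarith) (by linarith)
  obtain ⟨X2, hX2⟩ := Filter.eventually_atTop.1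
    ((tendsto_rpow_atTop hα).eventually_ge_atTop (6749184 * K0 : ℝ))
  refine ⟨max (max X1 X2) 2500, fun X hX => ?_⟩
  have hXa : X1 ≤ X := (le_max_left _ _).trans ((le_max_left _ _).trans hX)
  have hXb : X2 ≤ X := (le_max_right _ _).trans ((le_max_left _ _).trans hX)
  have hXc : (2500 : ℝ) ≤ X := (le_max_right _ _).trans hX
  have hX0 : 0 < X := by linarith
  have hX1' : (1 : ℝ) ≤ X := by linarith
  set T := X ^ (1 / 2 : ℝ) with hT
  have hTp : 0 < T := Real.rpow_pos_of_pos hX0 _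
  have hT2 : T ^ 2 = X := by
    rw [hT, ← Real.rpow_natCast, ← Real.rpow_mul hX0.le]
    norm_num
  have hT3 : T ^ 3 = X ^ (3 / 2 : ℝ) := by
    rw [hT, ← Real.rpow_natCast, ← Real.rpow_mul hX0.le]
    norm_num
  have hT50 : 50 ≤ T := by
    by_contra hcon
    push Not at hcon
    nlinarith
  have hT1 : 1 ≤ T := by linarith
  have hY1 : 1 ≤ X ^ (3 - 6 / κ) := Real.one_le_rpow hX1' hs0
  obtain ⟨k, hk1, hk2⟩ := exists_pow 2 (by norm_num) (5408 * (K0 * X ^ (3 - 6 / κ))) (by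
    have := one_le_mul_of_one_le_of_one_le hK0 hY1
    linarith)
  push_cast at hk1 hk2
  set I := ⌊T ^ 3 / (312 * 2 ^ k)⌋₊ with hI
  set K := ⌊T / 12⌋₊ with hK
  have hI1 : (I : ℝ) ≤ T ^ 3 / (312 * 2 ^ k) := Nat.floor_le (by positivity)
  have hI2 : T ^ 3 / (312 * 2 ^ k) - 1 < I := Nat.sub_one_lt_floor _
  have hK1 : (K : ℝ) ≤ T / 12 := Nat.floor_le (by positivity)
  have hK2 : T / 12 - 1 < K := Nat.sub_one_lt_floor _
  have hI1' : 312 * 2 ^ k * (I : ℝ) ≤ T ^ 3 := by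
    rw [le_div_iff₀ (by positivity)] at hI1
    linarith
  have h2k : (1 : ℝ) ≤ 2 ^ k := one_le_pow₀ (by norm_num)
  -- the injection
  set S := (Finset.Icc (I + 1) (2 * I)).sigma fun i => (Finset.range K).filter fun x : ℕ =>
      IsCoprime ((1 : ℤ) + 6 * x) ((6 * i + 1 : ℕ) : ℤ) with hS
  have hfin : {q ∈ ExK K0 κ X | R3 q}.Finite :=
    (ExK_finite hK0 (by linarith : 0 ≤ κ) X).subset fun q hq => hq.1
  have hcard : S.card ≤ {q ∈ ExK K0 κ X | R3 q}.ncard := by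
    rw [← Set.ncard_coe_finset]
    refine Set.ncard_le_ncard_of_injOn (fun z : Σ _ : ℕ, ℕ =>
      ((WH (6 * z.2 + 1) (2 ^ k * (6 * z.1 + 1 : ℕ))).c₄,
        (WH (6 * z.2 + 1) (2 ^ k * (6 * z.1 + 1 : ℕ))).c₆)) ?_ ?_ hfin
    · rintro ⟨i, x⟩ hx
      rw [Finset.mem_coe, hS, Finset.mem_sigma, Finset.mem_filter, Finset.mem_Icc,
        Finset.mem_range] at hx
      obtain ⟨⟨hi1, hi2⟩, hxK, hg⟩ := hx
      simp only at hi1 hi2 hxK hg ⊢
      have hcop : IsCoprime (6 * (x : ℤ) + 1) (2 ^ k * ((6 * i + 1 : ℕ) : ℤ)) := by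
        have e2 : IsCoprime (6 * (x : ℤ) + 1) 2 := ⟨1, -(3 * x), by ring⟩
        have e3 : IsCoprime (6 * (x : ℤ) + 1) ((6 * i + 1 : ℕ) : ℤ) := by
          rw [add_comm]
          exact hg
        exact IsCoprime.mul_right e2.pow_right e3
      have hi1' : (I : ℝ) + 1 ≤ i := by exact_mod_cast hi1
      have hi2' : (i : ℝ) ≤ 2 * I := by exact_mod_cast hi2
      have hI1n : 1 ≤ I := by omega
      have hIr : (1 : ℝ) ≤ I := by exact_mod_cast hI1n
      have hx' : (x : ℝ) + 1 ≤ K := by exact_mod_cast hxK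
      have hcast : ((6 * i + 1 : ℕ) : ℝ) = 6 * (i : ℝ) + 1 := by push_cast; ring
      have hmem := three_memK K0 hK0 κ T (by linarith) hT1 k (6 * i + 1) x (by omega) hcop
        (by linarith) ?_ ?_ (by rw [hT2]; exact hk1)
      · rw [hT2] at hmem
        exact hmem
      · rw [hcast]
        have e4 : T ^ 3 / (312 * 2 ^ k) ≤ (i : ℝ) := by linarith
        rw [div_le_iff₀ (by positivity)] at e4
        have e5 : (0 : ℝ) < 2 ^ k := by positivity
        rw [div_le_iff₀ (by norm_num)]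
        linarith
      · rw [hcast]
        have e5 : (2 : ℝ) ^ k * (6 * (i : ℝ) + 1) ≤ 2 ^ k * (13 * I) := by
          gcongr
          linarith
        linarith
    · rintro ⟨i, x⟩ hx ⟨i', x'⟩ hx' hxx
      simp only [Prod.mk.injEq] at hxx
      obtain ⟨q1, q2⟩ := WH_inj (by positivity) (by positivity) hxx.1 hxx.2
      have q3 : ((6 * i + 1 : ℕ) : ℤ) = ((6 * i' + 1 : ℕ) : ℤ) := mul_left_cancel₀ (by positivity) q2
      have q5 : i = i' := by
        have q4 : 6 * i + 1 = 6 * i' + 1 := by exact_mod_cast q3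
        omega
      have q6 : x = x' := by omega
      rw [q5, q6]
  have hsum : (I : ℝ) * (c * K * X ^ (-η) - C * X ^ η) ≤
      (({q ∈ ExK K0 κ X | R3 q}.ncard : ℕ) : ℝ) := by
    calc (I : ℝ) * (c * K * X ^ (-η) - C * X ^ η) =
        ∑ _i ∈ Finset.Icc (I + 1) (2 * I), (c * K * X ^ (-η) - C * X ^ η) := by
          rw [Finset.sum_const, Nat.card_Icc, nsmul_eq_mul]
          congr 2
          have : 2 * I + 1 - (I + 1) = I := by omega
          rw [this]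
      _ ≤ ∑ i ∈ Finset.Icc (I + 1) (2 * I), (((Finset.range K).filter fun x : ℕ =>
          IsCoprime ((1 : ℤ) + 6 * x) ((6 * i + 1 : ℕ) : ℤ)).card : ℝ) := by
          refine Finset.sum_le_sum fun i hi => ?_
          rw [Finset.mem_Icc] at hi
          have hI1n : 1 ≤ I := by omega
          refine hsieve X (6 * i + 1) K 1 6 hX1' (by omega) ?_ ?_
          · have e1 : ((6 * i + 1 : ℕ) : ℝ) ≤ 13 * I := by
              have : 6 * i + 1 ≤ 13 * I := by omega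
              exact_mod_cast this
            have e2 : (312 : ℝ) * I ≤ 312 * 2 ^ k * I := by
              have : (0 : ℝ) ≤ I := Nat.cast_nonneg I
              nlinarith
            have : (0 : ℝ) ≤ I := Nat.cast_nonneg I
            have e3 : T ^ 3 ≤ X ^ 2 := by
              rw [← hT2]
              have : (T ^ 2) ^ 2 = T ^ 3 * T := by ring
              rw [this]
              have : 0 < T ^ 3 := by positivity
              nlinarith
            linarith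
          · push_cast
            exact ⟨-i, 1, by ring⟩
      _ ≤ _ := by
          rw [hS, Finset.card_sigma] at hcard
          exact_mod_cast hcard
  refine le_trans ?_ hsum
  have e1 : 6 / κ - 1 - ε = α + 1 / 2 - ε := by rw [hαd]; ring
  rw [e1]
  refine hX1 X hXa _ _ ?_ ?_
  · have h3 := hX2 X hXb
    have hK00 : 0 < K0 := by linarith
    have e2 : X ^ α / (3374592 * K0) ≤ T ^ 3 / (312 * 2 ^ k) := by
      rw [le_div_iff₀ (by positivity)]
      have e3 : T ^ 3 = X ^ α * X ^ (3 - 6 / κ) := by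
        rw [hT3, ← Real.rpow_add hX0, hαd]
        congr 1
        ring
      have p1 : 0 < X ^ α := Real.rpow_pos_of_pos hX0 _
      calc X ^ α / (3374592 * K0) * (312 * 2 ^ k) = X ^ α * 2 ^ k / (10816 * K0) := by
            field_simp
            ring
        _ ≤ X ^ α * (2 * (5408 * (K0 * X ^ (3 - 6 / κ)))) / (10816 * K0) := by gcongr
        _ = X ^ α * X ^ (3 - 6 / κ) := by
            field_simp
            ring
        _ = T ^ 3 := e3.symm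
    have e4 : X ^ α / (3374592 * K0) = 2 * (1 / (6749184 * K0) * X ^ α) := by
      field_simp
      ring
    have e5 : 1 ≤ 1 / (6749184 * K0) * X ^ α := by
      rw [one_div, inv_mul_eq_div, le_div_iff₀ (by positivity)]
      linarith
    linarith
  · rw [← hT]
    linarith

/-- a member of the second family is in the exceptional set -/
theorem three_memK2 (K0 : ℝ) (hK0 : 1 ≤ K0) (κ T : ℝ) (hκ : 1 ≤ κ) (hT : 1 ≤ T) (i l r : ℕ)
    (h1 : 3 * (2 : ℝ) ^ i ≤ T / 4) (h2 : T / 24 ≤ (2 : ℝ) ^ i)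
    (h3 : 5 ^ l * (6 * (r : ℝ) + 1) ≤ T / 4)
    (hQ : 24 ^ 9 * 10 * (K0 * (T ^ 2) ^ (3 / 2 - 6 / κ)) < 5 ^ l) :
    ((WH (3 * 2 ^ i + 5 ^ l * (6 * r + 1)) ((2 ^ i) ^ 3)).c₄,
      (WH (3 * 2 ^ i + 5 ^ l * (6 * r + 1)) ((2 ^ i) ^ 3)).c₆) ∈
      {q ∈ ExK K0 κ (T ^ 2) | R3 q} := by
  have hT0 : 0 < T := by linarith
  have hr0 : (0 : ℝ) ≤ r := Nat.cast_nonneg r
  set b : ℕ := 2 ^ i with hb
  set s : ℕ := 6 * r + 1 with hs
  set w : ℕ := 5 ^ l * s with hw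
  have hb1 : 1 ≤ b := Nat.one_le_two_pow
  have hs1 : 1 ≤ s := by omega
  have hw1 : 1 ≤ w := Nat.mul_pos (by positivity) hs1
  have hbZ : ((b : ℕ) : ℤ) = 2 ^ i := by rw [hb]; push_cast; ring
  have hbR : ((b : ℕ) : ℝ) = 2 ^ i := by rw [hb]; push_cast; ring
  have hwZ : ((w : ℕ) : ℤ) = 5 ^ l * (6 * r + 1) := by rw [hw, hs]; push_cast; ring
  have hwR : ((w : ℕ) : ℝ) = 5 ^ l * (6 * (r : ℝ) + 1) := by rw [hw, hs]; push_cast; ring
  set A : ℤ := 3 * 2 ^ i + 5 ^ l * (6 * r + 1) with hA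
  set B : ℤ := (2 ^ i) ^ 3 with hB
  have hAn : A = ((3 * b + w : ℕ) : ℤ) := by
    rw [hA]
    push_cast
    rw [hbZ, hwZ]
  have hBn : B = ((b ^ 3 : ℕ) : ℤ) := by
    rw [hB]
    push_cast
    rw [hbZ]
  have hAr : (A : ℝ) = 3 * (b : ℝ) + w := by rw [hAn]; push_cast; ring
  have hBr : (B : ℝ) = (b : ℝ) ^ 3 := by rw [hBn]; push_cast; ring
  have hbR0 : (0 : ℝ) < b := by exact_mod_cast hb1
  have hwR0 : (0 : ℝ) < w := by exact_mod_cast hw1
  have h1' : 3 * (b : ℝ) ≤ T / 4 := by rw [hbR]; exact h1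
  have h2' : T / 24 ≤ (b : ℝ) := by rw [hbR]; exact h2
  have h3' : (w : ℝ) ≤ T / 4 := by rw [hwR]; exact h3
  -- coprimality
  have hA3 : IsCoprime A 3 := by
    rw [hA]
    have e : (3 * 2 ^ i + 5 ^ l * (6 * (r : ℤ) + 1) : ℤ) = 5 ^ l * (6 * r + 1) + 2 ^ i * 3 := by ring
    rw [e]
    refine IsCoprime.add_mul_right_left ?_ _
    refine IsCoprime.mul_left ?_ ⟨1, -(2 * r), by ring⟩
    exact IsCoprime.pow_left (by norm_num)
  have hAB : IsCoprime A B := by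
    rw [hB]
    refine IsCoprime.pow_right ?_
    rw [hA]
    have e : (3 * 2 ^ i + 5 ^ l * (6 * (r : ℤ) + 1) : ℤ) = 5 ^ l * (6 * r + 1) + 3 * 2 ^ i := by ring
    rw [e]
    refine IsCoprime.add_mul_right_left ?_ _
    refine IsCoprime.mul_left (IsCoprime.pow_left (IsCoprime.pow_right (by norm_num)))
      (IsCoprime.pow_right ⟨1, -(3 * r), by ring⟩)
  obtain ⟨b4, b6⟩ := WH_box (A := A) (B := B) hT0 (by rw [hAr]; positivity)
    (by rw [hAr]; linarith) (by rw [hBr]; positivity) (by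
      rw [hBr]
      calc (b : ℝ) ^ 3 ≤ (T / 12) ^ 3 := by
            gcongr
            linarith
        _ ≤ T ^ 3 / 24 := by
            have : 0 < T ^ 3 := by positivity
            have e : (T / 12) ^ 3 = T ^ 3 / 1728 := by ring
            rw [e]
            linarith)
  have hfac : A ^ 3 - 27 * B = ((w * ((3 * b + w) ^ 2 + 3 * (3 * b + w) * b + 9 * b ^ 2) : ℕ) : ℤ) := by
    rw [hAn, hBn]
    push_cast
    ring
  set v : ℕ := (3 * b + w) ^ 2 + 3 * (3 * b + w) * b + 9 * b ^ 2 with hv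
  have hv1 : 1 ≤ v := by
    rw [hv]
    have g1 : 0 < b := hb1
    exact Nat.succ_le_of_lt (by positivity)
  have hΔ : (WH A B).Δ = (((b ^ 3) ^ 3 * (w * v) : ℕ) : ℤ) := by
    rw [WH_disc, hfac, hBn]
    push_cast
    ring
  have hΔ0 : (WH A B).Δ ≠ 0 := by
    rw [hΔ]
    have g1 : 0 < b := hb1
    have g2 : 0 < w := hw1
    have g3 : 0 < v := hv1
    have g4 : 0 < (b ^ 3) ^ 3 * (w * v) := by positivity
    exact_mod_cast g4.ne'
  refine ⟨⟨WH A B, hΔ0, WH_coprime hAB hA3, rfl, b4, b6, ?_⟩, WH_R3 A B⟩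
  have hn : (WH A B).Δ.natAbs = (2 ^ (i * 9) * (5 ^ l * s)) * v := by
    rw [hΔ, Int.natAbs_natCast, hb, hw, pow_mul, ← pow_mul (2 ^ i) 3 3]
    ring
  have hnr : |((WH A B).Δ : ℝ)| = (b : ℝ) ^ 9 * (5 ^ l * s) * (v : ℝ) := by
    rw [← real_natAbs, hn, hbR]
    push_cast
    ring
  have hrad : rad (WH A B).Δ.natAbs ≤ 2 * (5 * s) * v := by
    rw [hn]
    have n1 : 2 ^ (i * 9) * (5 ^ l * s) ≠ 0 := by positivity
    refine (rad_mul_le _ _ n1 (by omega)).trans ?_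
    refine Nat.mul_le_mul ?_ (rad_le hv1)
    refine (rad_mul_le _ _ (by positivity) (by positivity)).trans ?_
    refine Nat.mul_le_mul (rad_pow_le 2 _ (by norm_num)) ?_
    refine (rad_mul_le _ _ (by positivity) (by omega)).trans ?_
    exact Nat.mul_le_mul (rad_pow_le 5 _ (by norm_num)) (rad_le hs1)
  have hradR : (rad (WH A B).Δ.natAbs : ℝ) ≤ 2 * (5 * s) * v := by exact_mod_cast hrad
  have hK00 : 0 < K0 := by linarith
  have hv0 : (0 : ℝ) < v := by exact_mod_cast hv1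
  have hs0 : (0 : ℝ) < s := by exact_mod_cast hs1
  have hX1 : 1 ≤ T ^ 2 := one_le_pow₀ hT
  have hX0 : 0 < T ^ 2 := by positivity
  refine crit (X := T ^ 2) (N := K0 * (rad (WH A B).Δ.natAbs : ℝ))
    (P := (b : ℝ) ^ 9 * 5 ^ l / (10 * K0)) hκ ?_ (by positivity) hX1 (disc_le b4 b6) ?_ ?_
  · rw [hnr]
    positivity
  · rw [lt_div_iff₀ (by positivity)]
    have e1 : (T ^ 2) ^ (6 - 6 / κ) = (T ^ 2) ^ (3 / 2 - 6 / κ) * T ^ 9 := by
      have e2 : T ^ 9 = (T ^ 2) ^ (9 / 2 : ℝ) := by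
        rw [← Real.rpow_natCast T 2, ← Real.rpow_mul hT0.le, ← Real.rpow_natCast T 9]
        congr 1
        norm_num
      rw [e2, ← Real.rpow_add hX0]
      congr 1
      ring
    have p1 : 0 < (T ^ 2) ^ (3 / 2 - 6 / κ) := Real.rpow_pos_of_pos hX0 _
    rw [e1]
    calc (T ^ 2) ^ (3 / 2 - 6 / κ) * T ^ 9 * (10 * K0) =
          24 ^ 9 * 10 * (K0 * (T ^ 2) ^ (3 / 2 - 6 / κ)) * (T / 24) ^ 9 := by
          ring
      _ < 5 ^ l * (T / 24) ^ 9 := by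
          have : 0 < (T / 24) ^ 9 := by positivity
          gcongr
      _ ≤ 5 ^ l * (b : ℝ) ^ 9 := by gcongr
      _ = (b : ℝ) ^ 9 * 5 ^ l := by ring
  · rw [hnr]
    calc K0 * (rad (WH A B).Δ.natAbs : ℝ) * ((b : ℝ) ^ 9 * 5 ^ l / (10 * K0)) ≤
        K0 * (2 * (5 * s) * v) * ((b : ℝ) ^ 9 * 5 ^ l / (10 * K0)) := by gcongr
      _ = (b : ℝ) ^ 9 * (5 ^ l * s) * v := by
          field_simp
          ring

/-- **Lower bound** for `4 ≤ κ < 6` -/
theorem three_lower2 (K0 : ℝ) (hK0 : 1 ≤ K0) (κ ε : ℝ) (hκ : 4 ≤ κ) (hκ6 : κ < 6) (hε : 0 < ε) :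
    ∃ X₀ : ℝ, ∀ X : ℝ, X₀ ≤ X →
      X ^ (6 / κ - 1 - ε) ≤ (({q ∈ ExK K0 κ X | R3 q}.ncard : ℕ) : ℝ) := by
  classical
  have hκ0 : 0 < κ := by linarith
  have hs0 : 0 ≤ 3 / 2 - 6 / κ := by
    have : 6 / κ ≤ 3 / 2 := by
      rw [div_le_iff₀ hκ0]
      linarith
    linarith
  have hα : 0 < 6 / κ - 1 := by
    have : 1 < 6 / κ := by
      rw [lt_div_iff₀ hκ0]
      linarith
    linarith
  set α := 6 / κ - 1 with hαd
  set M : ℝ := 24 ^ 9 * 10 with hM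
  have hMp : 0 < M := by rw [hM]; norm_num
  obtain ⟨X2, hX2⟩ := Filter.eventually_atTop.1
    (((tendsto_rpow_atTop hα).eventually_ge_atTop (280 * M * K0 : ℝ)).and
      ((tendsto_rpow_atTop hε).eventually_ge_atTop (280 * M * K0 : ℝ)))
  refine ⟨max X2 2500, fun X hX => ?_⟩
  have hXb : X2 ≤ X := (le_max_left _ _).trans hX
  have hXc : (2500 : ℝ) ≤ X := (le_max_right _ _).trans hX
  have hX0 : 0 < X := by linarith
  have hX1' : (1 : ℝ) ≤ X := by linarith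
  set T := X ^ (1 / 2 : ℝ) with hT
  have hTp : 0 < T := Real.rpow_pos_of_pos hX0 _
  have hT2 : T ^ 2 = X := by
    rw [hT, ← Real.rpow_natCast, ← Real.rpow_mul hX0.le]
    norm_num
  have hT50 : 50 ≤ T := by
    by_contra hcon
    push Not at hcon
    nlinarith
  have hT1 : 1 ≤ T := by linarith
  obtain ⟨i, hi1, hi2⟩ := exists_pow 2 (by norm_num) (T / 24) (by linarith)
  push_cast at hi1 hi2
  have hY1 : 1 ≤ X ^ (3 / 2 - 6 / κ) := Real.one_le_rpow hX1' hs0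
  obtain ⟨l, hl1, hl2⟩ := exists_pow 5 (by norm_num) (M * (K0 * X ^ (3 / 2 - 6 / κ))) (by
    have h1 := one_le_mul_of_one_le_of_one_le hK0 hY1
    have h2 : (1 : ℝ) ≤ M := by rw [hM]; norm_num
    exact one_le_mul_of_one_le_of_one_le h2 h1)
  push_cast at hl1 hl2
  set J := ⌊T / (28 * 5 ^ l)⌋₊ with hJ
  have hJ1 : (J : ℝ) ≤ T / (28 * 5 ^ l) := Nat.floor_le (by positivity)
  have hJ2 : T / (28 * 5 ^ l) - 1 < J := Nat.sub_one_lt_floor _
  have hJ1' : 28 * 5 ^ l * (J : ℝ) ≤ T := by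
    rw [le_div_iff₀ (by positivity)] at hJ1
    linarith
  have hfin : {q ∈ ExK K0 κ X | R3 q}.Finite :=
    (ExK_finite hK0 (by linarith : 0 ≤ κ) X).subset fun q hq => hq.1
  have hcard : (Finset.range J).card ≤ {q ∈ ExK K0 κ X | R3 q}.ncard := by
    rw [← Set.ncard_coe_finset]
    refine Set.ncard_le_ncard_of_injOn (fun r : ℕ =>
      ((WH (3 * 2 ^ i + 5 ^ l * (6 * r + 1)) ((2 ^ i) ^ 3)).c₄,
        (WH (3 * 2 ^ i + 5 ^ l * (6 * r + 1)) ((2 ^ i) ^ 3)).c₆)) ?_ ?_ hfin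
    · intro r hr
      rw [Finset.mem_coe, Finset.mem_range] at hr
      have hr' : (r : ℝ) + 1 ≤ J := by exact_mod_cast hr
      have hr0 : (0 : ℝ) ≤ r := Nat.cast_nonneg r
      have hmem := three_memK2 K0 hK0 κ T (by linarith) hT1 i l r (by linarith) hi1.le ?_ ?_
      · rw [hT2] at hmem
        exact hmem
      · have e1 : (5 : ℝ) ^ l * (6 * r + 1) ≤ 5 ^ l * (7 * J) := by
          gcongr
          linarith
        linarith
      · rw [hT2]
        exact hl1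
    · intro r _ r' _ hrr
      simp only [Prod.mk.injEq] at hrr
      obtain ⟨q1, -⟩ := WH_inj (by positivity) (by positivity) hrr.1 hrr.2
      have q2 : (5 : ℤ) ^ l * (6 * r + 1) = 5 ^ l * (6 * r' + 1) := by linarith
      have q3 := mul_left_cancel₀ (by positivity) q2
      omega
  rw [Finset.card_range] at hcard
  have h1 : (J : ℝ) ≤ (({q ∈ ExK K0 κ X | R3 q}.ncard : ℕ) : ℝ) := by exact_mod_cast hcard
  refine le_trans ?_ h1
  obtain ⟨h2, h3⟩ := hX2 X hXb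
  have p1 : 0 < X ^ α := Real.rpow_pos_of_pos hX0 _
  have hK00 : 0 < K0 := by linarith
  have e2 : X ^ α / (140 * M * K0) ≤ T / (28 * 5 ^ l) := by
    rw [le_div_iff₀ (by positivity)]
    have e3 : T = X ^ α * X ^ (3 / 2 - 6 / κ) := by
      rw [← Real.rpow_add hX0, hαd, hT]
      congr 1
      ring
    calc X ^ α / (140 * M * K0) * (28 * 5 ^ l) = X ^ α * 5 ^ l / (5 * M * K0) := by
          field_simp
          ring
      _ ≤ X ^ α * (5 * (M * (K0 * X ^ (3 / 2 - 6 / κ)))) / (5 * M * K0) := by gcongr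
      _ = X ^ α * X ^ (3 / 2 - 6 / κ) := by
          field_simp
      _ = T := e3.symm
  have e4 : X ^ (α - ε) ≤ X ^ α / (280 * M * K0) := by
    rw [Real.rpow_sub hX0]
    gcongr
  have e5 : X ^ α / (140 * M * K0) = 2 * (X ^ α / (280 * M * K0)) := by
    field_simp
    ring
  have e6 : 1 ≤ X ^ α / (280 * M * K0) := by
    rw [le_div_iff₀ (by positivity)]
    linarith
  linarith

/-- **Lower bound** for the curves with a rational point of order three -/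
theorem three_HD_lower (c κ ε : ℝ) (hc : 0 < c) (hκ : 2 ≤ κ) (hκ6 : κ < 6) (hε : 0 < ε) :
    ∃ H₀ : ℝ, ∀ H : ℝ, H₀ ≤ H →
      H ^ (1 / κ - 1 / 6 - ε) ≤ (({q ∈ HD c κ H | HasThree q}.ncard : ℕ) : ℝ) := by
  refine HDQ_lower (R := R3) (fun W q h1 h2 => R3_model h1 h2) c κ ε hc (by linarith) hε
    fun K0 hK0 => ?_
  rcases lt_or_ge κ 4 with h | h
  · exact three_lower1 K0 hK0 κ (3 * ε) hκ h (by positivity)
  · exact three_lower2 K0 hK0 κ (3 * ε) h hκ6 (by positivity)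

end Pool.Agent.X12.Tor
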