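import Pool.Agent.X12.Tor7
import Pool.Agent.X12.Szp18

/-!
# The Faltings height against the conductor for the curves with a rational point of order two or three
-/

set_option autoImplicit false

namespace Pool.Agent.X12.Tor

open Finset Filter Topology Pool.Agent.H328R2.ABC Pool.Agent.X12.Szp Pool.Agent.Y679.Fh
open Pool.Agent.TH876.FH (jInv arch ana)

/-- **Upper bound** for the violators in a box -/
theorem WSQ_box {Q : ℤ × ℤ → Prop} {g0 : ℝ} (hQ : TopBound Q g0) (hg0 : 0 < g0)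
    (lam c ε : ℝ) (hlam : 0 < lam) (hε : 0 < ε) : ∃ K : ℝ, 0 < K ∧ ∀ X : ℝ, 1 ≤ X →
    (({q ∈ {q ∈ WS lam c | Q q} | Box X q}.ncard : ℕ) : ℝ) ≤
      K * X ^ (max (1 / (2 * lam) - 1) g0 + ε) := by
  obtain ⟨K, hK, h1⟩ := WS_top lam c hlam
  obtain ⟨C, hC, h2⟩ := hQ ε hε
  set g := max (1 / (2 * lam) - 1) g0 with hg
  have hg4 : g0 ≤ g := le_max_right _ _
  refine dyadic {q ∈ WS lam c | Q q} (C * (K + 1)) (g + ε) (by positivity) (by linarith)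
    fun X hX => ?_
  have hX0 : 0 < X := by linarith
  have e1 : (({q ∈ {q ∈ WS lam c | Q q} | Box X q ∧ ¬ Box (X / 2) q}.ncard : ℕ) : ℝ) ≤
      (({q ∈ TopE (K * X ^ (1 / (2 * lam))) X | Q q}.ncard : ℕ) : ℝ) := by
    have hsub : {q ∈ {q ∈ WS lam c | Q q} | Box X q ∧ ¬ Box (X / 2) q} ⊆
        {q ∈ TopE (K * X ^ (1 / (2 * lam))) X | Q q} := by
      rintro q ⟨⟨k1, k2⟩, k3⟩
      exact ⟨h1 X hX ⟨k1, k3⟩, k2⟩
    exact_mod_cast Set.ncard_le_ncard hsub ((TopE_finite _ _).subset fun q hq => hq.1)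
  refine e1.trans ((h2 _ X (by positivity) hX).trans ?_)
  have e2 : K * X ^ (1 / (2 * lam)) / X = K * X ^ (1 / (2 * lam) - 1) := by
    rw [Real.rpow_sub_one hX0.ne']
    ring
  have e3 : X ^ (1 / (2 * lam) - 1) ≤ X ^ g :=
    Real.rpow_le_rpow_of_exponent_le hX (le_max_left _ _)
  have e4 : X ^ g0 ≤ X ^ g := Real.rpow_le_rpow_of_exponent_le hX hg4
  rw [e2, Real.rpow_add hX0]
  have e5 : 0 < X ^ ε := Real.rpow_pos_of_pos hX0 _
  calc C * X ^ ε * (K * X ^ (1 / (2 * lam) - 1) + X ^ g0) ≤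
      C * X ^ ε * (K * X ^ g + X ^ g) := by gcongr
    _ = C * (K + 1) * (X ^ g * X ^ ε) := by ring

/-- **Upper bound** for the violators of small Faltings height -/
theorem WHQ_upper {Q : ℤ × ℤ → Prop} {g0 : ℝ} (hQ : TopBound Q g0) (hg0 : 0 < g0)
    (lam c ε : ℝ) (hlam : 0 < lam) (hε : 0 < ε) : ∃ C : ℝ, 0 < C ∧ ∀ B : ℝ, 1 ≤ B →
    (({q ∈ WW' lam c B | Q q}.ncard : ℕ) : ℝ) ≤
      C * B ^ (2 * max (1 / (2 * lam) - 1) g0 + ε) := by
  set g := max (1 / (2 * lam) - 1) g0 with hg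
  have hg4 : g0 ≤ g := le_max_right _ _
  set δ := min 1 (ε / (4 * (g + 1))) with hδdef
  have hδ : 0 < δ := lt_min one_pos (by positivity)
  have hδ1 : δ ≤ 1 := min_le_left _ _
  have hδ2 : δ * (g + 1) ≤ ε / 4 := by
    have : δ ≤ ε / (4 * (g + 1)) := min_le_right _ _
    rw [le_div_iff₀ (by positivity)] at this
    linarith
  obtain ⟨K, hK, h1⟩ := AH_box δ hδ
  set ε' := min 1 (ε / 8) with hε'def
  have hε' : 0 < ε' := lt_min one_pos (by positivity)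
  have hε'1 : ε' ≤ 1 := min_le_left _ _
  have hε'2 : ε' ≤ ε / 8 := min_le_right _ _
  obtain ⟨M, hM, h2⟩ := WSQ_box hQ hg0 lam c ε' hlam hε'
  refine ⟨M * K ^ (g + ε'), by positivity, fun B hB => ?_⟩
  have hB0 : 0 < B := by linarith
  have h3 : 1 ≤ K * B ^ (2 + δ) :=
    one_le_mul_of_one_le_of_one_le hK (Real.one_le_rpow hB (by positivity))
  have h4 : {q ∈ WW' lam c B | Q q} ⊆ {q ∈ {q ∈ WS lam c | Q q} | Box (K * B ^ (2 + δ)) q} :=
    fun q hq => ⟨⟨(WW'_sub _ _ _ hq.1).2, hq.2⟩, h1 B hB (WW'_sub _ _ _ hq.1).1⟩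
  have h5 := Set.ncard_le_ncard h4 ((Box_finite _).subset fun q hq => hq.2)
  have h6 := h2 (K * B ^ (2 + δ)) h3
  have h7 : (({q ∈ WW' lam c B | Q q}.ncard : ℕ) : ℝ) ≤ M * (K * B ^ (2 + δ)) ^ (g + ε') :=
    le_trans (by exact_mod_cast h5) h6
  refine h7.trans ?_
  rw [Real.mul_rpow (by linarith) (by positivity), ← Real.rpow_mul hB0.le, ← mul_assoc]
  refine mul_le_mul_of_nonneg_left (Real.rpow_le_rpow_of_exponent_le hB ?_) (by positivity)
  have e1 : (2 + δ) * (g + ε') = 2 * g + 2 * ε' + δ * (g + ε') := by ring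
  have e2 : δ * (g + ε') ≤ δ * (g + 1) := by gcongr
  rw [e1]
  linarith

set_option maxHeartbeats 1600000 in
/-- **Lower bound** for the violators of small Faltings height -/
theorem VHR_lower_aux {R : ℤ × ℤ → Prop} {κ0 : ℝ} (hκ0' : 1 ≤ κ0)
    (hlow : ∀ κ ε : ℝ, κ0 ≤ κ → κ < 6 → 0 < ε → ∃ X₀ : ℝ, ∀ X : ℝ, X₀ ≤ X →
      X ^ (6 / κ - 1 - ε) ≤ (({q ∈ ExK 1 κ X | R q}.ncard : ℕ) : ℝ))
    (lam c ε : ℝ) (hlam : κ0 ≤ 12 * lam) (hlam2 : lam < 1 / 2) (hε : 0 < ε)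
    (hε2 : 0 ≤ 1 / lam - 2 - ε) :
    ∃ B₀ : ℝ, ∀ B : ℝ, B₀ ≤ B →
      B ^ (1 / lam - 2 - ε) ≤ (({q ∈ VV lam c B | R q}.ncard : ℕ) : ℝ) := by
  have hl0 : 0 < lam := by linarith
  -- the exponent `κ`
  obtain ⟨κ, hκ1, hκ2, hκ3⟩ : ∃ κ : ℝ, 12 * lam < κ ∧ κ < 6 ∧ 1 / lam - ε / 4 ≤ 12 / κ := by
    refine ⟨min ((12 * lam + 6) / 2) (12 * lam * (1 + lam * ε / 4)), ?_, ?_, ?_⟩
    · refine lt_min (by linarith) ?_
      have : 0 < 12 * lam * (lam * ε / 4) := by positivity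
      linarith
    · exact lt_of_le_of_lt (min_le_left _ _) (by linarith)
    · have h1 : min ((12 * lam + 6) / 2) (12 * lam * (1 + lam * ε / 4)) ≤
          12 * lam * (1 + lam * ε / 4) := min_le_right _ _
      have h2 : 0 < min ((12 * lam + 6) / 2) (12 * lam * (1 + lam * ε / 4)) :=
        lt_min (by linarith) (by positivity)
      have h3 : 12 / (12 * lam * (1 + lam * ε / 4)) ≤
          12 / min ((12 * lam + 6) / 2) (12 * lam * (1 + lam * ε / 4)) := by gcongr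
      refine le_trans ?_ h3
      rw [le_div_iff₀ (by positivity)]
      have h4 : (1 / lam - ε / 4) * (12 * lam * (1 + lam * ε / 4)) =
          12 * (1 - (lam * ε / 4) ^ 2) := by
        field_simp
        ring
      rw [h4]
      nlinarith [sq_nonneg (lam * ε / 4)]
  have hκ0 : 0 < κ := by linarith
  have hκ11 : 1 ≤ κ := by linarith
  -- the parameter `δ`
  obtain ⟨δ, hδ, hδ2⟩ : ∃ δ : ℝ, 0 < δ ∧ 0 < 1 / (1 + δ) - 12 * lam / κ := by
    have h1 : 12 * lam / κ < 1 := by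
      rw [div_lt_one hκ0]
      exact hκ1
    have h2 : 0 < 12 * lam / κ := by positivity
    refine ⟨(1 - 12 * lam / κ) / 2, by linarith, ?_⟩
    rw [sub_pos, lt_div_iff₀ (by linarith)]
    nlinarith
  obtain ⟨C1, hC1⟩ := fh_le
  obtain ⟨C2, hC2⟩ := fh_ge hδ
  set ρ := 1 / (1 + δ) - 12 * lam / κ with hρ
  -- curves outside a fixed box
  set X1 := Real.exp ((|C2| + 12 * |c| + 1) / ρ) with hX1
  have hX1' : 1 ≤ X1 := Real.one_le_exp (by positivity)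
  have key : ∀ B : ℝ, 1 ≤ B → {q ∈ ExK 1 κ (Real.exp (-(C1 / 6)) * B ^ 2) | R q} ⊆
      {q ∈ VV lam c B | R q} ∪ {q | Box X1 q} := by
    rintro B hB q ⟨hq, hR⟩
    have hB0 : 0 < B := by linarith
    have hq' := ExK_sub le_rfl hκ0.le _ hq
    obtain ⟨W, h0, hcop, rfl, h4, h6, hN⟩ := hq'
    by_cases hbox : Box X1 (W.c₄, W.c₆)
    · exact Or.inr hbox
    left
    obtain ⟨τ, hτ⟩ := ex_P W
    have hcH := cH_pos h0
    have hcH0 : 0 < cH W := by linarith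
    have hcHX : cH W ≤ (Real.exp (-(C1 / 6)) * B ^ 2) ^ 6 := cH_le_of_Box ⟨h4, h6⟩
    have hlogX : Real.log (cH W) ≤ -C1 + 12 * Real.log B := by
      have h7 := Real.log_le_log hcH0 hcHX
      rw [Real.log_pow, Real.log_mul (Real.exp_pos _).ne' (by positivity), Real.log_exp,
        Real.log_pow] at h7
      push_cast at h7
      linarith
    have hbig : (|C2| + 12 * |c| + 1) / ρ ≤ Real.log (cH W) := by
      have h7 : X1 ^ 6 ≤ cH W := by
        by_contra hcon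
        push Not at hcon
        exact hbox (Box_of_cH_le (by linarith) hcon.le)
      have h8 : X1 ≤ X1 ^ 6 := le_self_pow₀ hX1' (by norm_num)
      rw [Real.le_log_iff_exp_le hcH0]
      exact h8.trans h7
    refine ⟨⟨W, τ, h0, hcop, rfl, hτ, ?_, ?_⟩, hR⟩
    · have := hC1 W h0 τ hτ
      linarith
    · have e1 := hC2 W h0 τ hτ
      have hr : (0 : ℝ) < rad W.Δ.natAbs := by exact_mod_cast rad_pos _
      have e2 : κ * Real.log (rad W.Δ.natAbs : ℝ) ≤ Real.log (cH W) := by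
        rw [← Real.log_rpow hr]
        refine Real.log_le_log (Real.rpow_pos_of_pos hr _) (hN.le.trans ?_)
        exact (le_max_right _ _).trans m_le
      have e3 : 12 * lam * Real.log (rad W.Δ.natAbs : ℝ) ≤ 12 * lam / κ * Real.log (cH W) := by
        have : 12 * lam * Real.log (rad W.Δ.natAbs : ℝ) =
            12 * lam / κ * (κ * Real.log (rad W.Δ.natAbs : ℝ)) := by
          field_simp
        rw [this]
        gcongr
      have e4 : |C2| + 12 * |c| + 1 ≤ ρ * Real.log (cH W) := by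
        rw [div_le_iff₀ hδ2] at hbig
        linarith
      have e5 : Real.log (cH W) / (1 + δ) = ρ * Real.log (cH W) +
          12 * lam / κ * Real.log (cH W) := by
        rw [hρ]
        ring
      rw [e5] at e1
      have e6 := le_abs_self C2
      have e7 := le_abs_self c
      linarith
  -- the conclusion
  obtain ⟨X0, hX0⟩ := hlow κ (ε / 8) (by linarith) hκ2 (by positivity)
  set a := Real.exp (-(C1 / 6)) with ha
  have ha0 : 0 < a := Real.exp_pos _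
  set K1 := (({q : ℤ × ℤ | Box X1 q}.ncard : ℕ) : ℝ) with hK1
  set e := 6 / κ - 1 - ε / 8 with he
  have hexp : 1 / lam - 2 - ε / 2 ≤ 2 * e := by
    rw [he]
    have : 12 / κ = 2 * (6 / κ) := by ring
    linarith
  have t1 : Tendsto (fun B : ℝ => a * B ^ 2) atTop atTop :=
    Tendsto.const_mul_atTop ha0 (tendsto_pow_atTop (by norm_num))
  have t2 : Tendsto (fun B : ℝ => B ^ (ε / 4)) atTop atTop := tendsto_rpow_atTop (by positivity)
  have hfin : ∀ᶠ B : ℝ in atTop,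
      B ^ (1 / lam - 2 - ε) ≤ (({q ∈ VV lam c B | R q}.ncard : ℕ) : ℝ) := by
    filter_upwards [t1.eventually_ge_atTop X0, t2.eventually_ge_atTop (2 / a ^ e + 1),
      t2.eventually_ge_atTop (K1 + 1), eventually_ge_atTop 1] with B h1 h2 h3 h4
    have hB0 : 0 < B := by linarith
    have h5 := hX0 _ h1
    have hVfin : {q ∈ VV lam c B | R q}.Finite :=
      ((SH_finite h4).subset fun q hq => (VV_sub lam c B hq).1).subset fun q hq => hq.1
    have h6 := Set.ncard_le_ncard (key B h4) (hVfin.union (Box_finite _))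
    have h7 := h6.trans (Set.ncard_union_le _ _)
    have h8 : (({q ∈ ExK 1 κ (a * B ^ 2) | R q}.ncard : ℕ) : ℝ) ≤
        (({q ∈ VV lam c B | R q}.ncard : ℕ) : ℝ) + K1 := by
      rw [hK1]
      exact_mod_cast h7
    have h9 : (a * B ^ 2) ^ e = a ^ e * B ^ (2 * e) := by
      rw [Real.mul_rpow ha0.le (by positivity), ← Real.rpow_natCast B 2, ← Real.rpow_mul hB0.le]
      norm_num
    rw [h9] at h5
    have hae : 0 < a ^ e := Real.rpow_pos_of_pos ha0 _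
    -- `a ^ e B ^ (2 e) ≥ 2 B ^ (1 / lam - 2 - 3 ε / 4)`
    have h10 : 2 * B ^ (1 / lam - 2 - ε + ε / 4) ≤ a ^ e * B ^ (2 * e) := by
      have k1 : 2 ≤ a ^ e * B ^ (ε / 4) := by
        have k2 : 2 / a ^ e ≤ B ^ (ε / 4) := by linarith
        rw [div_le_iff₀ hae] at k2
        linarith
      calc 2 * B ^ (1 / lam - 2 - ε + ε / 4) ≤
          a ^ e * B ^ (ε / 4) * B ^ (1 / lam - 2 - ε + ε / 4) := by gcongr
        _ = a ^ e * B ^ (1 / lam - 2 - ε / 2) := by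
          rw [mul_assoc, ← Real.rpow_add hB0]
          congr 2
          ring
        _ ≤ a ^ e * B ^ (2 * e) := by
          gcongr
    have h11 : B ^ (1 / lam - 2 - ε + ε / 4) = B ^ (1 / lam - 2 - ε) * B ^ (ε / 4) :=
      Real.rpow_add hB0 _ _
    have hone : 1 ≤ B ^ (1 / lam - 2 - ε) := Real.one_le_rpow h4 hε2
    have hK : 0 ≤ K1 := Nat.cast_nonneg _
    rw [h11] at h10
    have k1 : B ^ (1 / lam - 2 - ε) * (K1 + 1) ≤ B ^ (1 / lam - 2 - ε) * B ^ (ε / 4) := by gcongr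
    nlinarith
  exact (eventually_atTop.1 hfin)

/-- **Lower bound** for the violators of small Faltings height -/
theorem VHR_lower {R : ℤ × ℤ → Prop} {κ0 : ℝ} (hκ0' : 1 ≤ κ0)
    (hlow : ∀ κ ε : ℝ, κ0 ≤ κ → κ < 6 → 0 < ε → ∃ X₀ : ℝ, ∀ X : ℝ, X₀ ≤ X →
      X ^ (6 / κ - 1 - ε) ≤ (({q ∈ ExK 1 κ X | R q}.ncard : ℕ) : ℝ))
    (lam c ε : ℝ) (hlam : κ0 ≤ 12 * lam) (hlam2 : lam < 1 / 2) (hε : 0 < ε) :
    ∃ B₀ : ℝ, ∀ B : ℝ, B₀ ≤ B →
      B ^ (1 / lam - 2 - ε) ≤ (({q ∈ VV lam c B | R q}.ncard : ℕ) : ℝ) := by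
  have hl : 0 < 1 / lam - 2 := by
    rw [sub_pos, lt_div_iff₀ (by linarith)]
    linarith
  obtain ⟨B0, h⟩ := VHR_lower_aux hκ0' hlow lam c (min ε (1 / lam - 2)) hlam hlam2
    (lt_min hε hl) (by
      have := min_le_right ε (1 / lam - 2)
      linarith)
  refine ⟨max B0 1, fun B hB => le_trans ?_ (h B ((le_max_left _ _).trans hB))⟩
  refine Real.rpow_le_rpow_of_exponent_le ((le_max_right _ _).trans hB) ?_
  have := min_le_left ε (1 / lam - 2)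
  linarith

/-- the transfer of the lower bound -/
theorem VVR_le {R Q : ℤ × ℤ → Prop}
    (hRQ : ∀ (W : WeierstrassCurve ℤ) (q : ℤ × ℤ), Model W q → R (W.c₄, W.c₆) → Q q)
    (lam c B : ℝ) (hlam : 0 < lam) (hB : 1 ≤ B) :
    (({q ∈ VV lam (c + C0 / 12) (Real.exp (-(C0 / 12)) * B) | R q}.ncard : ℕ) : ℝ) ≤
      2 * (({q ∈ WW' lam c B | Q q}.ncard : ℕ) : ℝ) := by
  classical
  have hB0 : 0 < B := by linarith
  have hfin : {q ∈ WW' lam c B | Q q}.Finite := (WW'_finite lam c hB).subset fun q hq => hq.1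
  have hsub : {q ∈ VV lam (c + C0 / 12) (Real.exp (-(C0 / 12)) * B) | R q} ⊆
      (fun q : ℤ × ℤ => (q.1 / 27, q.2 / 54)) '' {q ∈ WW' lam c B | Q q} ∪
      (fun q : ℤ × ℤ => (3 * q.1, 27 * q.2 / 2)) '' {q ∈ WW' lam c B | Q q} := by
    rintro q ⟨⟨W, τ, h0, hcop, rfl, hτ, h1, h2⟩, hR⟩
    obtain ⟨q', hq'⟩ := exists_model h0 hcop
    have h3 := model_height h0 hq' τ
    have hmem : q' ∈ {q ∈ WW' lam c B | Q q} := by
      refine ⟨⟨τ, model_min hq', model_period h0 hq' hτ, ?_, ?_⟩, hRQ W q' hq' hR⟩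
      · rw [Real.log_mul (Real.exp_pos _).ne' hB0.ne', Real.log_exp] at h1
        linarith [h3.2]
      · have h4 := model_cnd h0 hcop hq'
        have h5 : Real.log (Cnd q'.1 q'.2 : ℝ) ≤ Real.log (rad W.Δ.natAbs : ℝ) :=
          Real.log_le_log (Cnd_pos' q') (by exact_mod_cast h4)
        have h6 : lam * Real.log (Cnd q'.1 q'.2 : ℝ) ≤ lam * Real.log (rad W.Δ.natAbs : ℝ) := by
          gcongr
        linarith [h3.1]
    rcases hq' with ⟨h4, -⟩ | ⟨h4, h5, -⟩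
    · left
      refine ⟨q', hmem, ?_⟩
      rw [h4]
      simp only
      rw [Int.mul_ediv_cancel_left _ (by norm_num), Int.mul_ediv_cancel_left _ (by norm_num)]
    · right
      refine ⟨q', hmem, ?_⟩
      simp only
      rw [← h5, Int.mul_ediv_cancel_left _ (by norm_num), h4]
  have h1 := Set.ncard_le_ncard hsub ((hfin.image _).union (hfin.image _))
  have h2 := h1.trans (Set.ncard_union_le _ _)
  have h3 := Set.ncard_image_le (f := fun q : ℤ × ℤ => (q.1 / 27, q.2 / 54)) hfin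
  have h4 := Set.ncard_image_le (f := fun q : ℤ × ℤ => (3 * q.1, 27 * q.2 / 2)) hfin
  have h5 : ({q ∈ VV lam (c + C0 / 12) (Real.exp (-(C0 / 12)) * B) | R q}).ncard ≤
      2 * ({q ∈ WW' lam c B | Q q}).ncard := by omega
  exact_mod_cast h5

/-- **Lower bound** for the violators of small Faltings height -/
theorem WHQ_lower {R Q : ℤ × ℤ → Prop}
    (hRQ : ∀ (W : WeierstrassCurve ℤ) (q : ℤ × ℤ), Model W q → R (W.c₄, W.c₆) → Q q)
    {κ0 : ℝ} (hκ0' : 1 ≤ κ0)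
    (hlow : ∀ κ ε : ℝ, κ0 ≤ κ → κ < 6 → 0 < ε → ∃ X₀ : ℝ, ∀ X : ℝ, X₀ ≤ X →
      X ^ (6 / κ - 1 - ε) ≤ (({q ∈ ExK 1 κ X | R q}.ncard : ℕ) : ℝ))
    (lam c ε : ℝ) (hlam : κ0 ≤ 12 * lam) (hlam2 : lam < 1 / 2) (hε : 0 < ε) :
    ∃ B₀ : ℝ, ∀ B : ℝ, B₀ ≤ B →
      B ^ (1 / lam - 2 - ε) ≤ (({q ∈ WW' lam c B | Q q}.ncard : ℕ) : ℝ) := by
  have hl0 : 0 < lam := by linarith
  obtain ⟨B1, h⟩ := VHR_lower hκ0' hlow lam (c + C0 / 12) (ε / 2) hlam hlam2 (by positivity)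
  set a := Real.exp (-(C0 / 12)) with ha
  have ha0 : 0 < a := Real.exp_pos _
  set e := 1 / lam - 2 - ε / 2 with he
  have t1 : Tendsto (fun B : ℝ => a * B) atTop atTop := Tendsto.const_mul_atTop ha0 tendsto_id
  have t2 : Tendsto (fun B : ℝ => B ^ (ε / 2)) atTop atTop := tendsto_rpow_atTop (by positivity)
  have hfin : ∀ᶠ B : ℝ in atTop,
      B ^ (1 / lam - 2 - ε) ≤ (({q ∈ WW' lam c B | Q q}.ncard : ℕ) : ℝ) := by
    filter_upwards [t1.eventually_ge_atTop B1, t2.eventually_ge_atTop (2 / a ^ e),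
      eventually_ge_atTop 1] with B h1 h2 h3
    have hB0 : 0 < B := by linarith
    have h4 := h _ h1
    have h5 := VVR_le hRQ lam c B hl0 h3
    rw [Real.mul_rpow ha0.le hB0.le] at h4
    have hae : 0 < a ^ e := Real.rpow_pos_of_pos ha0 _
    rw [div_le_iff₀ hae] at h2
    have h6 : B ^ e = B ^ (1 / lam - 2 - ε) * B ^ (ε / 2) := by
      rw [← Real.rpow_add hB0, he]
      congr 1
      ring
    have h7 : 0 < B ^ (1 / lam - 2 - ε) := Real.rpow_pos_of_pos hB0 _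
    have h8 : 2 * B ^ (1 / lam - 2 - ε) ≤ a ^ e * B ^ e := by
      rw [h6]
      calc 2 * B ^ (1 / lam - 2 - ε) ≤ (B ^ (ε / 2) * a ^ e) * B ^ (1 / lam - 2 - ε) := by gcongr
        _ = _ := by ring
    linarith
  exact eventually_atTop.1 hfin

theorem two_WH_lower (lam c ε : ℝ) (hlam : 1 / 8 ≤ lam) (hlam2 : lam < 1 / 2) (hε : 0 < ε) :
    ∃ B₀ : ℝ, ∀ B : ℝ, B₀ ≤ B →
      B ^ (1 / lam - 2 - ε) ≤ (({q ∈ WW' lam c B | HasTwo q}.ncard : ℕ) : ℝ) := by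
  refine WHQ_lower (R := R2) (fun W q h1 h2 => R2_model h1 h2) (κ0 := 3 / 2) (by norm_num)
    (fun κ ε h1 h2 h3 => ?_) lam c ε (by linarith) hlam2 hε
  rcases lt_or_ge κ 3 with h | h
  · exact two_lower1 1 le_rfl κ ε h1 h h3
  · exact two_lower2 1 le_rfl κ ε h h2 h3

theorem three_WH_lower (lam c ε : ℝ) (hlam : 1 / 6 ≤ lam) (hlam2 : lam < 1 / 2) (hε : 0 < ε) :
    ∃ B₀ : ℝ, ∀ B : ℝ, B₀ ≤ B →
      B ^ (1 / lam - 2 - ε) ≤ (({q ∈ WW' lam c B | HasThree q}.ncard : ℕ) : ℝ) := by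
  refine WHQ_lower (R := R3) (fun W q h1 h2 => R3_model h1 h2) (κ0 := 2) (by norm_num)
    (fun κ ε h1 h2 h3 => ?_) lam c ε (by linarith) hlam2 hε
  rcases lt_or_ge κ 4 with h | h
  · exact three_lower1 1 le_rfl κ ε h1 h h3
  · exact three_lower2 1 le_rfl κ ε h h2 h3

/-! ### The number of all curves of the families -/

lemma two_box_card {X : ℝ} (hX : 1 ≤ X) :
    (({q : ℤ × ℤ | Box X q ∧ HasTwo q}.ncard : ℕ) : ℝ) ≤ 18 * X ^ 3 := by
  have hX0 : 0 < X := by linarith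
  have hX2 : 1 ≤ X ^ 2 := one_le_pow₀ hX
  set F : Finset (ℤ × ℤ) := ((Finset.Icc (-⌊2 * X⌋) ⌊2 * X⌋) ×ˢ
    (Finset.Icc (-⌊X ^ 2⌋) ⌊X ^ 2⌋)).image fun z : ℤ × ℤ => (z.2, z.1 ^ 3 - z.2 * z.1) with hF
  have hsub : {q : ℤ × ℤ | Box X q ∧ HasTwo q} ⊆ (F : Set (ℤ × ℤ)) := by
    rintro ⟨a, b⟩ ⟨⟨h1, h2⟩, h3⟩
    obtain ⟨r, hr⟩ := int_root h3
    simp only at h1 h2 hr
    rw [hF, Finset.mem_coe, Finset.mem_image]
    refine ⟨(r, a), Finset.mem_product.2 ⟨mem_of_abs_le ?_, mem_of_abs_le h1⟩, ?_⟩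
    · by_contra hcon
      push Not at hcon
      have hrb : (r : ℝ) ^ 3 = a * r + b := by
        have : r ^ 3 = a * r + b := by linarith
        exact_mod_cast this
      have k1 : |(r : ℝ)| ^ 3 ≤ X ^ 2 * |(r : ℝ)| + X ^ 3 := by
        rw [← abs_pow, hrb]
        refine (abs_add_le _ _).trans ?_
        rw [abs_mul]
        gcongr
      have k2 : 0 < |(r : ℝ)| := by linarith
      simp only at hcon
      nlinarith [mul_pos k2 hX0, mul_pos (sub_pos.2 hcon) k2, sq_nonneg (|(r : ℝ)| - X),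
        mul_pos (mul_pos k2 k2) (sub_pos.2 hcon), mul_pos (mul_pos hX0 hX0) (sub_pos.2 hcon),
        mul_pos (mul_pos hX0 k2) (sub_pos.2 hcon)]
    · rw [Prod.mk.injEq]
      exact ⟨rfl, by linarith⟩
  have h1 := Set.ncard_le_ncard hsub (Finset.finite_toSet _)
  rw [Set.ncard_coe_finset] at h1
  have h2 : (F.card : ℝ) ≤ (3 * (2 * X)) * (3 * X ^ 2) := by
    have e1 : F.card ≤ _ := Finset.card_image_le
    rw [Finset.card_product] at e1
    calc (F.card : ℝ) ≤ (((Finset.Icc (-⌊2 * X⌋) ⌊2 * X⌋).card *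
          (Finset.Icc (-⌊X ^ 2⌋) ⌊X ^ 2⌋).card : ℕ) : ℝ) := by exact_mod_cast e1
      _ = ((Finset.Icc (-⌊2 * X⌋) ⌊2 * X⌋).card : ℝ) *
          ((Finset.Icc (-⌊X ^ 2⌋) ⌊X ^ 2⌋).card : ℝ) := by push_cast; ring
      _ ≤ (3 * (2 * X)) * (3 * X ^ 2) := by
          have k1 := card_Icc_le (Y := 2 * X) (by linarith)
          have k2 := card_Icc_le hX2
          gcongr
  calc (({q : ℤ × ℤ | Box X q ∧ HasTwo q}.ncard : ℕ) : ℝ) ≤ (F.card : ℝ) := by exact_mod_cast h1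
    _ ≤ (3 * (2 * X)) * (3 * X ^ 2) := h2
    _ = 18 * X ^ 3 := by ring

lemma three_box_card {X : ℝ} (hX : 1 ≤ X) :
    (({q : ℤ × ℤ | Dsc q.1 q.2 ≠ 0 ∧ Box X q ∧ HasThree q}.ncard : ℕ) : ℝ) ≤ 54 * X ^ 2 := by
  have hX0 : 0 < X := by linarith
  set T := X ^ (1 / 2 : ℝ) with hT
  have hT1 : 1 ≤ T := Real.one_le_rpow hX (by norm_num)
  have hT0 : 0 < T := by linarith
  have hT2 : T ^ 2 = X := by
    rw [hT, ← Real.rpow_natCast, ← Real.rpow_mul hX0.le]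
    norm_num
  set F : Finset (ℤ × ℤ) := ((Finset.Icc (-⌊T⌋) ⌊T⌋) ×ˢ
    (Finset.Icc (-⌊6 * T ^ 3⌋) ⌊6 * T ^ 3⌋)).image fun z : ℤ × ℤ =>
      (-(27 * z.1 ^ 4 + 6 * z.1 * z.2), 27 * z.1 ^ 6 - z.2 ^ 2) with hF
  have hsub : {q : ℤ × ℤ | Dsc q.1 q.2 ≠ 0 ∧ Box X q ∧ HasThree q} ⊆ (F : Set (ℤ × ℤ)) := by
    rintro q ⟨hD, ⟨h1, h2⟩, h3⟩
    obtain ⟨m, n, r1, r2⟩ := three_form h3 hD
    have r1' : (q.1 : ℝ) = -(27 * (m : ℝ) ^ 4 + 6 * m * n) := by rw [r1]; push_cast; ring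
    have r2' : (q.2 : ℝ) = 27 * (m : ℝ) ^ 6 - (n : ℝ) ^ 2 := by rw [r2]; push_cast; ring
    obtain ⟨b1, b2⟩ := three_bounds hX0 h1 h2 r1' r2'
    rw [hF, Finset.mem_coe, Finset.mem_image]
    refine ⟨(m, n), Finset.mem_product.2 ⟨mem_of_abs_le ?_, mem_of_abs_le ?_⟩, ?_⟩
    · exact abs_le_of_sq_le_sq (by rw [hT2]; exact b1) hT0.le
    · refine abs_le_of_sq_le_sq ?_ (by positivity)
      have e : (6 * T ^ 3) ^ 2 = 36 * (T ^ 2) ^ 3 := by ring
      rw [e, hT2]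
      have : 0 < X ^ 3 := by positivity
      simp only
      linarith
    · exact Prod.ext r1.symm r2.symm
  have h1 := Set.ncard_le_ncard hsub (Finset.finite_toSet _)
  rw [Set.ncard_coe_finset] at h1
  have hT3 : 1 ≤ T ^ 3 := one_le_pow₀ hT1
  have h2 : (F.card : ℝ) ≤ (3 * T) * (3 * (6 * T ^ 3)) := by
    have e1 : F.card ≤ _ := Finset.card_image_le
    rw [Finset.card_product] at e1
    calc (F.card : ℝ) ≤ (((Finset.Icc (-⌊T⌋) ⌊T⌋).card *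
          (Finset.Icc (-⌊6 * T ^ 3⌋) ⌊6 * T ^ 3⌋).card : ℕ) : ℝ) := by exact_mod_cast e1
      _ = ((Finset.Icc (-⌊T⌋) ⌊T⌋).card : ℝ) *
          ((Finset.Icc (-⌊6 * T ^ 3⌋) ⌊6 * T ^ 3⌋).card : ℝ) := by push_cast; ring
      _ ≤ (3 * T) * (3 * (6 * T ^ 3)) := by
          have k1 := card_Icc_le hT1
          have k2 := card_Icc_le (Y := 6 * T ^ 3) (by linarith)
          gcongr
  calc (({q : ℤ × ℤ | Dsc q.1 q.2 ≠ 0 ∧ Box X q ∧ HasThree q}.ncard : ℕ) : ℝ) ≤ (F.card : ℝ) := by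
        exact_mod_cast h1
    _ ≤ (3 * T) * (3 * (6 * T ^ 3)) := h2
    _ = 54 * (T ^ 2) ^ 2 := by ring
    _ = 54 * X ^ 2 := by rw [hT2]

/-- the number of the curves with a rational point of order two and `h_F ≤ log B` -/
theorem two_AH_card (ε : ℝ) (hε : 0 < ε) : ∃ C : ℝ, 0 < C ∧ ∀ B : ℝ, 1 ≤ B →
    (({q ∈ AH B | HasTwo q}.ncard : ℕ) : ℝ) ≤ C * B ^ (6 + ε) := by
  obtain ⟨K, hK, h⟩ := AH_box (ε / 3) (by positivity)
  refine ⟨18 * K ^ 3, by positivity, fun B hB => ?_⟩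
  have hB0 : 0 < B := by linarith
  have h1 : 1 ≤ K * B ^ (2 + ε / 3) :=
    one_le_mul_of_one_le_of_one_le hK (Real.one_le_rpow hB (by positivity))
  have hsub : {q ∈ AH B | HasTwo q} ⊆ {q : ℤ × ℤ | Box (K * B ^ (2 + ε / 3)) q ∧ HasTwo q} :=
    fun q hq => ⟨h B hB hq.1, hq.2⟩
  have h2 := Set.ncard_le_ncard hsub ((Box_finite _).subset fun q hq => hq.1)
  calc (({q ∈ AH B | HasTwo q}.ncard : ℕ) : ℝ) ≤
      (({q : ℤ × ℤ | Box (K * B ^ (2 + ε / 3)) q ∧ HasTwo q}.ncard : ℕ) : ℝ) := by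
        exact_mod_cast h2
    _ ≤ 18 * (K * B ^ (2 + ε / 3)) ^ 3 := two_box_card h1
    _ = 18 * K ^ 3 * B ^ (6 + ε) := by
      rw [mul_pow, ← Real.rpow_natCast (B ^ (2 + ε / 3)) 3, ← Real.rpow_mul hB0.le]
      push_cast
      have : (2 + ε / 3) * 3 = 6 + ε := by ring
      rw [this]
      ring

/-- the number of the curves with a rational point of order three and `h_F ≤ log B` -/
theorem three_AH_card (ε : ℝ) (hε : 0 < ε) : ∃ C : ℝ, 0 < C ∧ ∀ B : ℝ, 1 ≤ B →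
    (({q ∈ AH B | HasThree q}.ncard : ℕ) : ℝ) ≤ C * B ^ (4 + ε) := by
  obtain ⟨K, hK, h⟩ := AH_box (ε / 2) (by positivity)
  refine ⟨54 * K ^ 2, by positivity, fun B hB => ?_⟩
  have hB0 : 0 < B := by linarith
  have h1 : 1 ≤ K * B ^ (2 + ε / 2) :=
    one_le_mul_of_one_le_of_one_le hK (Real.one_le_rpow hB (by positivity))
  have hsub : {q ∈ AH B | HasThree q} ⊆
      {q : ℤ × ℤ | Dsc q.1 q.2 ≠ 0 ∧ Box (K * B ^ (2 + ε / 2)) q ∧ HasThree q} := by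
    rintro q ⟨hq1, hq2⟩
    refine ⟨?_, h B hB hq1, hq2⟩
    obtain ⟨τ, k1, -, -⟩ := hq1
    exact k1.1
  have h2 := Set.ncard_le_ncard hsub ((Box_finite _).subset fun q hq => hq.2.1)
  calc (({q ∈ AH B | HasThree q}.ncard : ℕ) : ℝ) ≤
      (({q : ℤ × ℤ | Dsc q.1 q.2 ≠ 0 ∧ Box (K * B ^ (2 + ε / 2)) q ∧ HasThree q}.ncard : ℕ) : ℝ) := by
        exact_mod_cast h2
    _ ≤ 54 * (K * B ^ (2 + ε / 2)) ^ 2 := three_box_card h1
    _ = 54 * K ^ 2 * B ^ (4 + ε) := by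
      rw [mul_pow, ← Real.rpow_natCast (B ^ (2 + ε / 2)) 2, ← Real.rpow_mul hB0.le]
      push_cast
      have : (2 + ε / 2) * 2 = 4 + ε := by ring
      rw [this]
      ring

end Pool.Agent.X12.Tor
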