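import Pool.Agent.X12.Tor8

/-!
# The stable Faltings height
-/

set_option autoImplicit false

namespace Pool.Agent.X12.Tor

open Finset Filter Topology Pool.Agent.H328R2.ABC Pool.Agent.X12.Szp Pool.Agent.Y679.Fh
open Pool.Agent.TH876.FH (jInv arch ana)

/-- the `j`-invariant -/
def jE (q : ℤ × ℤ) : ℚ := (Eq' q).c₄ ^ 3 / (Eq' q).Δ

/-- the stable Faltings height -/
noncomputable def hS (q : ℤ × ℤ) (τ : UpperHalfPlane) : ℝ :=
  (Real.log ((jE q).den : ℝ) + arch τ) / 12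

lemma jden_le {q : ℤ × ℤ} (hD : Dsc q.1 q.2 ≠ 0) : (jE q).den ≤ minD (Eq' q) := by
  have hne : {n : ℕ | ∃ (V : WeierstrassCurve ℤ) (C : WeierstrassCurve.VariableChange ℚ),
      C • Eq' q = V.map (Int.castRingHom ℚ) ∧ n = V.Δ.natAbs}.Nonempty :=
    ⟨_, Ez' q, 1, Ez'_map q, rfl⟩
  obtain ⟨V, C, hC, hn⟩ := Nat.sInf_mem hne
  have hn' : minD (Eq' q) = V.Δ.natAbs := hn
  rw [hn']
  have hu : (C.u : ℚ) ≠ 0 := C.u.ne_zero
  have h4 : ((V.c₄ : ℤ) : ℚ) = ((C.u : ℚ)⁻¹) ^ 4 * (Eq' q).c₄ := by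
    have h1 := congrArg WeierstrassCurve.c₄ hC
    rw [WeierstrassCurve.variableChange_c₄, WeierstrassCurve.map_c₄] at h1
    rw [← Units.val_inv_eq_inv_val]
    exact h1.symm
  have h6 : ((V.Δ : ℤ) : ℚ) = ((C.u : ℚ)⁻¹) ^ 12 * (Eq' q).Δ := by
    have h1 := congrArg WeierstrassCurve.Δ hC
    rw [WeierstrassCurve.variableChange_Δ, WeierstrassCurve.map_Δ] at h1
    rw [← Units.val_inv_eq_inv_val]
    exact h1.symm
  have hE0 : (Eq' q).Δ ≠ 0 := by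
    rw [Eq'_disc]
    exact mul_ne_zero (by norm_num) (by exact_mod_cast hD)
  have hV0 : V.Δ ≠ 0 := by
    intro h0
    rw [h0, Int.cast_zero] at h6
    exact (mul_ne_zero (pow_ne_zero _ (inv_ne_zero hu)) hE0) h6.symm
  have hj : jE q = ((V.c₄ ^ 3 : ℤ) : ℚ) / ((V.Δ : ℤ) : ℚ) := by
    push_cast
    rw [h4, h6]
    unfold jE
    field_simp
  rw [hj]
  have hdvd := Rat.den_dvd (V.c₄ ^ 3) V.Δ
  rw [Rat.divInt_eq_div] at hdvd
  exact Nat.le_of_dvd (Int.natAbs_pos.2 hV0) (Int.natCast_dvd.1 hdvd)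

lemma hS_le {q : ℤ × ℤ} (hD : Dsc q.1 q.2 ≠ 0) (τ : UpperHalfPlane) : hS q τ ≤ hE q τ := by
  unfold hS hE
  have h1 : (0 : ℝ) < ((jE q).den : ℝ) := by exact_mod_cast (jE q).den_pos
  have h2 := Real.log_le_log h1 (by exact_mod_cast jden_le hD : ((jE q).den : ℝ) ≤ minD (Eq' q))
  linarith

lemma model_hS {W : WeierstrassCurve ℤ} {q : ℤ × ℤ} (h0 : W.Δ ≠ 0) (hcop : IsCoprime W.c₄ W.Δ)
    (h : Model W q) (τ : UpperHalfPlane) : fh W τ ≤ hS q τ := by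
  have hΔ : (W.Δ : ℚ) ≠ 0 := by exact_mod_cast h0
  have h1 : jE q = (W.c₄ : ℚ) ^ 3 / W.Δ := by
    unfold jE
    rw [Eq'_c4, Eq'_disc]
    rcases h with ⟨h2, -⟩ | ⟨h2, h3, -⟩
    · rw [h2]
      simp only
      rw [Dsc_one]
      push_cast
      rw [div_eq_div_iff (by positivity) hΔ]
      ring
    · rw [Dsc_two h2 h3, h2]
      push_cast
      rw [div_eq_div_iff (by positivity) hΔ]
      ring
  have h2 : W.Δ ∣ ((jE q).den : ℤ) := by
    have h3 : (W.c₄ : ℚ) ^ 3 * (jE q).den = (jE q).num * W.Δ := by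
      have h4 := Rat.num_div_den (jE q)
      have h5 : ((jE q).den : ℚ) ≠ 0 := by exact_mod_cast (jE q).den_ne_zero
      have h6 : ((jE q).num : ℚ) = jE q * (jE q).den := by
        field_simp at h4
        linarith
      rw [h6]
      nth_rewrite 2 [h1]
      field_simp
    have h4 : W.c₄ ^ 3 * ((jE q).den : ℤ) = (jE q).num * W.Δ := by exact_mod_cast h3
    have h5 : W.Δ ∣ W.c₄ ^ 3 * ((jE q).den : ℤ) := ⟨(jE q).num, by rw [h4]; ring⟩
    exact (hcop.symm.pow_right).dvd_of_dvd_mul_left h5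
  have h3 : W.Δ.natAbs ≤ (jE q).den :=
    Nat.le_of_dvd (jE q).den_pos (by
      have := Int.natAbs_dvd_natAbs.2 h2
      simpa using this)
  unfold fh hS
  have h4 : ((|W.Δ| : ℤ) : ℝ) = ((W.Δ.natAbs : ℕ) : ℝ) := by
    rw [real_natAbs]
    push_cast
    rfl
  rw [h4]
  have h5 : (0 : ℝ) < ((W.Δ.natAbs : ℕ) : ℝ) := by exact_mod_cast Int.natAbs_pos.2 h0
  have h6 := Real.log_le_log h5 (by exact_mod_cast h3 : ((W.Δ.natAbs : ℕ) : ℝ) ≤ (jE q).den)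
  linarith

/-- the violators for the stable height with `h_F ≤ log B` -/
def WWs (lam c B : ℝ) : Set (ℤ × ℤ) :=
  {q | ∃ τ : UpperHalfPlane, IsMn q.1 q.2 ∧ IsPr q τ ∧ hE q τ ≤ Real.log B ∧
    lam * Real.log (Cnd q.1 q.2 : ℝ) + c < hS q τ}

theorem WWs_sub (lam c B : ℝ) : WWs lam c B ⊆ WW' lam c B := by
  rintro q ⟨τ, h0, h1, h2, h3⟩
  exact ⟨τ, h0, h1, h2, h3.trans_le (hS_le h0.1 τ)⟩

/-- the transfer of the lower bound -/
theorem VVs_le {R Q : ℤ × ℤ → Prop}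
    (hRQ : ∀ (W : WeierstrassCurve ℤ) (q : ℤ × ℤ), Model W q → R (W.c₄, W.c₆) → Q q)
    (lam c B : ℝ) (hlam : 0 < lam) (hB : 1 ≤ B) :
    (({q ∈ VV lam c (Real.exp (-(C0 / 12)) * B) | R q}.ncard : ℕ) : ℝ) ≤
      2 * (({q ∈ WWs lam c B | Q q}.ncard : ℕ) : ℝ) := by
  classical
  have hB0 : 0 < B := by linarith
  have hfin : {q ∈ WWs lam c B | Q q}.Finite :=
    (WW'_finite lam c hB).subset fun q hq => WWs_sub _ _ _ hq.1
  have hsub : {q ∈ VV lam c (Real.exp (-(C0 / 12)) * B) | R q} ⊆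
      (fun q : ℤ × ℤ => (q.1 / 27, q.2 / 54)) '' {q ∈ WWs lam c B | Q q} ∪
      (fun q : ℤ × ℤ => (3 * q.1, 27 * q.2 / 2)) '' {q ∈ WWs lam c B | Q q} := by
    rintro q ⟨⟨W, τ, h0, hcop, rfl, hτ, h1, h2⟩, hR⟩
    obtain ⟨q', hq'⟩ := exists_model h0 hcop
    have h3 := model_height h0 hq' τ
    have hmem : q' ∈ {q ∈ WWs lam c B | Q q} := by
      refine ⟨⟨τ, model_min hq', model_period h0 hq' hτ, ?_, ?_⟩, hRQ W q' hq' hR⟩
      · rw [Real.log_mul (Real.exp_pos _).ne' hB0.ne', Real.log_exp] at h1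
        linarith [h3.2]
      · have h4 := model_cnd h0 hcop hq'
        have h5 : Real.log (Cnd q'.1 q'.2 : ℝ) ≤ Real.log (rad W.Δ.natAbs : ℝ) :=
          Real.log_le_log (Cnd_pos' q') (by exact_mod_cast h4)
        have h6 : lam * Real.log (Cnd q'.1 q'.2 : ℝ) ≤ lam * Real.log (rad W.Δ.natAbs : ℝ) := by
          gcongr
        linarith [model_hS h0 hcop hq' τ]
    rcases hq' with ⟨h4, -⟩ | ⟨h4, h5, -⟩
    · left
      refine ⟨q', hmem, ?_⟩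
      rw [h4]
      simp only
      rw [Int.mul_ediv_cancel_left _ (by norm_num), Int.mul_ediv_cancel_left _ (by norm_num)]
    · right
      refine ⟨q', hmem, ?_⟩
      simp only
      rw [← h5, Int.mul_ediv_cancel_left _ (by norm_num), h4]
  have h1 := Set.ncard_le_ncard hsub ((hfin.image _).union (hfin.image _))
  have h2 := h1.trans (Set.ncard_union_le _ _)
  have h3 := Set.ncard_image_le (f := fun q : ℤ × ℤ => (q.1 / 27, q.2 / 54)) hfin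
  have h4 := Set.ncard_image_le (f := fun q : ℤ × ℤ => (3 * q.1, 27 * q.2 / 2)) hfin
  have h5 : ({q ∈ VV lam c (Real.exp (-(C0 / 12)) * B) | R q}).ncard ≤
      2 * ({q ∈ WWs lam c B | Q q}).ncard := by omega
  exact_mod_cast h5

/-- **Lower bound** for the violators of small Faltings height -/
theorem WHs_lower {R Q : ℤ × ℤ → Prop}
    (hRQ : ∀ (W : WeierstrassCurve ℤ) (q : ℤ × ℤ), Model W q → R (W.c₄, W.c₆) → Q q)
    {κ0 : ℝ} (hκ0' : 1 ≤ κ0)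
    (hlow : ∀ κ ε : ℝ, κ0 ≤ κ → κ < 6 → 0 < ε → ∃ X₀ : ℝ, ∀ X : ℝ, X₀ ≤ X →
      X ^ (6 / κ - 1 - ε) ≤ (({q ∈ ExK 1 κ X | R q}.ncard : ℕ) : ℝ))
    (lam c ε : ℝ) (hlam : κ0 ≤ 12 * lam) (hlam2 : lam < 1 / 2) (hε : 0 < ε) :
    ∃ B₀ : ℝ, ∀ B : ℝ, B₀ ≤ B →
      B ^ (1 / lam - 2 - ε) ≤ (({q ∈ WWs lam c B | Q q}.ncard : ℕ) : ℝ) := by
  have hl0 : 0 < lam := by linarith
  obtain ⟨B1, h⟩ := VHR_lower hκ0' hlow lam c (ε / 2) hlam hlam2 (by positivity)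
  set a := Real.exp (-(C0 / 12)) with ha
  have ha0 : 0 < a := Real.exp_pos _
  set e := 1 / lam - 2 - ε / 2 with he
  have t1 : Tendsto (fun B : ℝ => a * B) atTop atTop := Tendsto.const_mul_atTop ha0 tendsto_id
  have t2 : Tendsto (fun B : ℝ => B ^ (ε / 2)) atTop atTop := tendsto_rpow_atTop (by positivity)
  have hfin : ∀ᶠ B : ℝ in atTop,
      B ^ (1 / lam - 2 - ε) ≤ (({q ∈ WWs lam c B | Q q}.ncard : ℕ) : ℝ) := by
    filter_upwards [t1.eventually_ge_atTop B1, t2.eventually_ge_atTop (2 / a ^ e),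
      eventually_ge_atTop 1] with B h1 h2 h3
    have hB0 : 0 < B := by linarith
    have h4 := h _ h1
    have h5 := VVs_le hRQ lam c B hl0 h3
    rw [Real.mul_rpow ha0.le hB0.le] at h4
    have hae : 0 < a ^ e := Real.rpow_pos_of_pos ha0 _
    rw [div_le_iff₀ hae] at h2
    have h6 : B ^ e = B ^ (1 / lam - 2 - ε) * B ^ (ε / 2) := by
      rw [← Real.rpow_add hB0, he]
      congr 1
      ring
    have h7 : 0 < B ^ (1 / lam - 2 - ε) := Real.rpow_pos_of_pos hB0 _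
    have h8 : 2 * B ^ (1 / lam - 2 - ε) ≤ a ^ e * B ^ e := by
      rw [h6]
      calc 2 * B ^ (1 / lam - 2 - ε) ≤ (B ^ (ε / 2) * a ^ e) * B ^ (1 / lam - 2 - ε) := by gcongr
        _ = _ := by ring
    linarith
  exact eventually_atTop.1 hfin

theorem two_WHs_lower (lam c ε : ℝ) (hlam : 1 / 8 ≤ lam) (hlam2 : lam < 1 / 2) (hε : 0 < ε) :
    ∃ B₀ : ℝ, ∀ B : ℝ, B₀ ≤ B →
      B ^ (1 / lam - 2 - ε) ≤ (({q ∈ WWs lam c B | HasTwo q}.ncard : ℕ) : ℝ) := by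
  refine WHs_lower (R := R2) (fun W q h1 h2 => R2_model h1 h2) (κ0 := 3 / 2) (by norm_num)
    (fun κ ε h1 h2 h3 => ?_) lam c ε (by linarith) hlam2 hε
  rcases lt_or_ge κ 3 with h | h
  · exact two_lower1 1 le_rfl κ ε h1 h h3
  · exact two_lower2 1 le_rfl κ ε h h2 h3

theorem three_WHs_lower (lam c ε : ℝ) (hlam : 1 / 6 ≤ lam) (hlam2 : lam < 1 / 2) (hε : 0 < ε) :
    ∃ B₀ : ℝ, ∀ B : ℝ, B₀ ≤ B →
      B ^ (1 / lam - 2 - ε) ≤ (({q ∈ WWs lam c B | HasThree q}.ncard : ℕ) : ℝ) := by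
  refine WHs_lower (R := R3) (fun W q h1 h2 => R3_model h1 h2) (κ0 := 2) (by norm_num)
    (fun κ ε h1 h2 h3 => ?_) lam c ε (by linarith) hlam2 hε
  rcases lt_or_ge κ 4 with h | h
  · exact three_lower1 1 le_rfl κ ε h1 h h3
  · exact three_lower2 1 le_rfl κ ε h h2 h3

end Pool.Agent.X12.Tor
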