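import Pool.Agent.X12.TwVal
import Pool.Agent.X12.Cyc

/-!
# The sign of the product over the quadratic residues at twelfth roots of unity
-/

set_option autoImplicit false

namespace Pool.Agent.X12

open Finset Polynomial

variable {p : ℕ} [Fact p.Prime]

/-- An integral relation for a primitive `N p`-th root of unity in `ℂ` holds for the primitive
`N`-th roots of unity of a field of characteristic `p`. -/
lemma transfer_char {N : ℕ} (hN : 0 < N) (hpN : ¬ p ∣ N) {K : Type*} [Field K] [CharP K p]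
    {η : ℂ} (hη : IsPrimitiveRoot η (N * p)) {g : K} (hg : IsPrimitiveRoot g N) (F : ℤ[X])
    (hF : aeval η F = 0) : aeval g F = 0 := by
  have hp := (Fact.out : p.Prime)
  have hNp : 0 < N * p := Nat.mul_pos hN hp.pos
  have h1 : minpoly ℤ η ∣ F := minpoly.isIntegrallyClosed_dvd (hη.isIntegral hNp) hF
  rw [← cyclotomic_eq_minpoly hη hNp] at h1
  obtain ⟨Q, hQ⟩ := h1
  have h2 : aeval g (cyclotomic (N * p) ℤ) = 0 := by
    rw [aeval_def, algebraMap_int_eq, ← eval_map, map_cyclotomic_int,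
      cyclotomic_mul_prime_eq_pow_of_not_dvd K hpN, eval_pow]
    have : eval g (cyclotomic N K) = 0 := hg.isRoot_cyclotomic hN
    rw [this, zero_pow]
    have := hp.two_le
    omega
  rw [hQ, map_mul, h2, zero_mul]

/-- The computation in characteristic `p`. -/
lemma char_value {K : Type*} [Field K] [Algebra (ZMod p) K] {m : ℕ} (hm : p = 24 * m + 19)
    {x y : ℤ} (hxy : (p : ℤ) = (4 * x) ^ 2 + 3 * y ^ 2) {z : K} (hz : z ^ 4 - z ^ 2 + 1 = 0) :
    (z - 1) ^ (12 * m + 9) = (-1) ^ m * (if x % 2 = 0 then 1 else -1) * (z + z ^ 2) := by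
  have : CharP K p := charP_of_injective_algebraMap (algebraMap (ZMod p) K).injective p
  have hp := (Fact.out : p.Prime)
  have hp2 : p ≠ 2 := by omega
  have nz : ∀ k : ℕ, 0 < k → k < p → ((k : ℕ) : K) ≠ 0 := by
    intro k hk hkp h
    rw [CharP.cast_eq_zero_iff K p] at h
    have := Nat.le_of_dvd hk h
    omega
  have nz' : ∀ k : ℕ, 0 < k → k < p → ((k : ℕ) : ZMod p) ≠ 0 := by
    intro k hk hkp h
    rw [ZMod.natCast_eq_zero_iff] at h
    have := Nat.le_of_dvd hk h
    omega
  have h20 : (2 : K) ≠ 0 := by exact_mod_cast nz 2 (by norm_num) (by omega)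
  have h30 : (3 : K) ≠ 0 := by exact_mod_cast nz 3 (by norm_num) (by omega)
  have h20' : (2 : ZMod p) ≠ 0 := by exact_mod_cast nz' 2 (by norm_num) (by omega)
  have h30' : (3 : ZMod p) ≠ 0 := by exact_mod_cast nz' 3 (by norm_num) (by omega)
  have h60' : (6 : ZMod p) ≠ 0 := by exact_mod_cast nz' 6 (by norm_num) (by omega)
  -- a root of `6`
  have hq2 : qc p 2 = -1 := by
    have h1 : ¬ (qc p 2 = 1) := by
      intro h
      have h2 := (quadraticChar_one_iff_isSquare h20').1 h
      have := (ZMod.exists_sq_eq_two_iff hp2).1 h2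
      omega
    exact (qc_cases h20').resolve_left h1
  have hq3 : qc p 3 = -1 := by
    have h1 : qc p ((3 : ℕ) : ZMod p) = -1 := by
      rw [qc_nat (by omega) (by norm_num), if_neg (by norm_num), jacobiSym.mod_left]
      have : (p : ℤ) % (3 : ℕ) = 1 := by omega
      rw [this, jacobiSym.one_left]
      norm_num
    exact_mod_cast h1
  have hq6 : qc p 6 = 1 := by
    rw [show (6 : ZMod p) = 2 * 3 by norm_num, qc_mul, hq2, hq3]; norm_num
  obtain ⟨r, hr⟩ := (quadraticChar_one_iff_isSquare h60').1 hq6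
  have hr' : r ^ 2 = 6 := by rw [hr, sq]
  have hsign := sign_six (p := p) (by omega) hxy hr'
  -- transport to `K`
  set r6 : K := algebraMap (ZMod p) K r with hr6
  have hr6sq : r6 ^ 2 = 6 := by
    rw [hr6, ← map_pow, hr', map_ofNat]
  have hr6p : r6 ^ p = r6 := by rw [hr6, ← map_pow, ZMod.pow_card]
  have h2p : (2 : K) ^ p = 2 := by
    have : (2 : K) = algebraMap (ZMod p) K 2 := by rw [map_ofNat]
    rw [this, ← map_pow, ZMod.pow_card]
  have h3p : (3 : K) ^ p = 3 := by
    have : (3 : K) = algebraMap (ZMod p) K 3 := by rw [map_ofNat]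
    rw [this, ← map_pow, ZMod.pow_card]
  have hz6 : z ^ 6 = -1 := by linear_combination (z ^ 2 + 1) * hz
  have hz12 : z ^ 12 = 1 := by linear_combination (z ^ 6 - 1) * hz6
  have hzp : z ^ p = - z := by
    rw [hm, show 24 * m + 19 = 12 * (2 * m + 1) + 7 by ring, pow_add, pow_mul, hz12, one_pow]
    linear_combination z * hz6
  set r3 : K := 2 * z - z ^ 3 with hr3
  have hr3sq : r3 ^ 2 = 3 := by
    rw [hr3]; linear_combination (z ^ 2 - 3) * hz
  have hr3p : r3 ^ p = - r3 := by
    rw [hr3, sub_pow_char, mul_pow, h2p, hzp, ← pow_mul, mul_comm 3 p, pow_mul, hzp]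
    ring
  set η : K := (r6 - r6 * r3 / 3) / 2 with hη
  set η' : K := (r6 + r6 * r3 / 3) / 2 with hη'
  have e1 : η ^ 2 = 2 - r3 := by
    rw [hη]
    field_simp
    linear_combination (9 - 6 * r3 + r3 ^ 2) * hr6sq + 6 * hr3sq
  have e2 : η + η' = r6 := by rw [hη, hη']; field_simp; ring
  have e3 : η * η' = 1 := by
    rw [hη, hη']
    field_simp
    linear_combination (9 - r3 ^ 2) * hr6sq - 6 * hr3sq
  have e4 : η ^ p = η' := by
    rw [hη, div_pow, sub_pow_char, div_pow, mul_pow, hr6p, hr3p, h2p, h3p, hη']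
    ring
  have e5 : (1 + η) ^ 2 = η * (2 + r6) := by
    rw [← e2]; linear_combination - e3
  have e6 : (1 + η) ^ (p + 1) = 2 + r6 := by
    rw [pow_succ, add_pow_char, one_pow, e4, ← e2]
    linear_combination e3
  have hne : 2 + r6 ≠ 0 := by
    intro h
    have h1 : (2 + r6) * (2 - r6) = -2 := by linear_combination - hr6sq
    rw [h, zero_mul] at h1
    exact h20 (by linear_combination h1)
  have e7 : η ^ (12 * m + 10) * (2 + r6) ^ (12 * m + 9) = 1 := by
    apply mul_right_cancel₀ hne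
    rw [one_mul, mul_assoc, ← pow_succ, ← mul_pow, ← e5, ← pow_mul,
      show 2 * (12 * m + 10) = p + 1 by omega, e6]
  have e8 : (2 + r6) ^ (12 * m + 9) = (qc p (2 + r) : K) := by
    have h1 := quadraticChar_eq_pow_of_char_ne_two' (F := ZMod p) (ringChar_ne_two hp2) (2 + r)
    rw [ZMod.card p, show p / 2 = 12 * m + 9 by omega] at h1
    have h2 : algebraMap (ZMod p) K ((2 + r) ^ (12 * m + 9)) = (2 + r6) ^ (12 * m + 9) := by
      rw [map_pow, map_add, map_ofNat]
    rw [← h2, ← h1, map_intCast]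
  rw [e8, hsign] at e7
  have e9 : (2 - r3) ^ (6 * m + 5) = -(if x % 2 = 0 then 1 else -1) := by
    rw [← e1, ← pow_mul, show 2 * (6 * m + 5) = 12 * m + 10 by ring]
    split_ifs at e7 ⊢ with hx
    · push_cast at e7
      linear_combination - e7
    · push_cast at e7
      linear_combination e7
  have e10 : (2 - r3) ^ (6 * m + 4) = -(if x % 2 = 0 then 1 else -1) * (2 + r3) := by
    rw [← e9, pow_succ]
    linear_combination (- (2 - r3) ^ (6 * m + 4)) * hr3sq * (-1)
  have e11 : (z - 1) ^ 2 = - z * (2 - r3) := by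
    rw [hr3]; linear_combination hz
  rw [show 12 * m + 9 = 2 * (6 * m + 4) + 1 by ring, pow_succ, pow_mul, e11, mul_pow, e10]
  have e12 : (-z) ^ (6 * m + 4) = (-1) ^ m * z ^ 4 := by
    rw [Even.neg_pow ⟨3 * m + 2, by ring⟩, pow_add, pow_mul, hz6]
  rw [e12, hr3]
  have e13 : z ^ 4 * (2 + (2 * z - z ^ 3)) * (z - 1) = - (z + z ^ 2) := by
    linear_combination (-z^4 + z^3 + z^2 + z) * hz
  linear_combination (- (-1) ^ m * (if x % 2 = 0 then 1 else -1)) * e13

end Pool.Agent.X12
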