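import Pool.Agent.X12.Sp
import Pool.Agent.X12.SignTw

/-!
# Functional equations of the product over the quadratic residues
-/

set_option autoImplicit false

namespace Pool.Agent.X12

open Finset Complex

variable {p : ℕ} [Fact p.Prime]

/-- the product over the residues with character `ε` -/
noncomputable def PE (p : ℕ) [Fact p.Prime] (ε : ℤ) (x : ℂ) : ℂ :=
  ∏ a : ZMod p, if qc p a = ε then x - ps p a else 1

lemma PE_one (x : ℂ) : PE p 1 x = SQ p x := rfl

lemma PE_neg_one (x : ℂ) : PE p (-1) x = SN p x := rfl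

/-- constant products over the residues -/
lemma prod_const_QR {n : ℕ} (hn : p = 2 * n + 1) (c : ℂ) :
    (∏ a : ZMod p, if qc p a = 1 then c else 1) = c ^ n := by
  rw [← prod_squares hn (fun _ => c), Finset.prod_const, Nat.card_Icc, Nat.add_sub_cancel]

lemma prod_const {n : ℕ} (hn : p = 2 * n + 1) (h3 : p % 4 = 3) {ε : ℤ} (hε : ε = 1 ∨ ε = -1) (c : ℂ) :
    (∏ a : ZMod p, if qc p a = ε then c else 1) = c ^ n := by
  rcases hε with rfl | rfl
  · exact prod_const_QR hn c
  · have h0 : (-1 : ZMod p) ≠ 0 := neg_ne_zero.2 one_ne_zero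
    have h := prod_mul_unit (p := p) (u := -1) h0 1 (fun _ => c)
    rw [prod_const_QR hn, qc_neg_one_of_three h3, mul_one] at h
    exact h.symm

/-- multiplication by a fixed factor inside a product with a condition -/
lemma prod_ite_mul (P : ZMod p → Prop) [DecidablePred P] (f g : ZMod p → ℂ) :
    (∏ a : ZMod p, if P a then f a * g a else 1) =
      (∏ a : ZMod p, if P a then f a else 1) * ∏ a : ZMod p, if P a then g a else 1 := by
  rw [← Finset.prod_mul_distrib]
  refine Finset.prod_congr rfl fun a _ => ?_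
  split_ifs <;> simp

lemma prod_ps (h5 : 3 < p) {ε : ℤ} :
    (∏ a : ZMod p, if qc p a = ε then ps p a else 1) = 1 := by
  set σ := ∏ a : ZMod p, if qc p a = ε then ps p a else 1 with hσ
  have h20 : (2 : ZMod p) ≠ 0 := by
    intro h
    have h2 : ((2 : ℕ) : ZMod p) = 0 := by push_cast; exact h
    rw [ZMod.natCast_eq_zero_iff] at h2
    have := Nat.le_of_dvd (by norm_num) h2
    omega
  have h40 : (2 * 2 : ZMod p) ≠ 0 := mul_ne_zero h20 h20
  have h1 := prod_mul_unit (p := p) (u := 2 * 2) h40 ε (fun a => ps p a)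
  rw [qc_mul, qc_sq h20, one_mul, ← hσ] at h1
  have h2 : (∏ a : ZMod p, if qc p a = ε then ps p (2 * 2 * a) else 1) = σ ^ 4 := by
    rw [hσ, ← Finset.prod_pow]
    refine Finset.prod_congr rfl fun a _ => ?_
    split_ifs
    · rw [mul_assoc, ps_two, ps_two, ← pow_mul]
    · rw [one_pow]
  rw [h2] at h1
  have h4 : σ ^ p = 1 := by
    rw [hσ, ← Finset.prod_pow]
    refine Finset.prod_eq_one fun a _ => ?_
    split_ifs
    · have : (p : ZMod p) * a = p • a := by rw [nsmul_eq_mul]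
      have h5 : ps p a ^ p = ps p (p • a) := (AddChar.map_nsmul_eq_pow _ _ _).symm
      rw [h5, ← this, ZMod.natCast_self, zero_mul, ps_zero]
    · rw [one_pow]
  have hσ0 : σ ≠ 0 := by
    intro h
    rw [h, zero_pow (Fact.out : p.Prime).ne_zero] at h4
    exact zero_ne_one h4
  have h5 : σ ^ 3 = 1 := by
    apply mul_left_cancel₀ hσ0
    rw [mul_one, ← pow_succ', h1]
  have hcop : Nat.Coprime 3 p := by
    rw [Nat.coprime_primes Nat.prime_three (Fact.out : p.Prime)]
    omega
  have h6 : orderOf σ ∣ 3 := orderOf_dvd_of_pow_eq_one h5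
  have h7 : orderOf σ ∣ p := orderOf_dvd_of_pow_eq_one h4
  have h8 : orderOf σ ∣ 1 := by
    have := Nat.dvd_gcd h6 h7
    rwa [hcop.gcd_eq_one] at this
  exact orderOf_eq_one_iff.1 (Nat.dvd_one.1 h8)

/-- `S(x) S(-x)` -/
lemma PE_neg {n : ℕ} (hn : p = 2 * n + 1) (h8 : p % 8 = 3) {ε : ℤ} (hε : ε = 1 ∨ ε = -1) (x : ℂ) :
    PE p ε x * PE p ε (-x) = - PE p (-ε) (x ^ 2) := by
  have hp2 : p ≠ 2 := by rintro rfl; omega
  have h20 : (2 : ZMod p) ≠ 0 := by
    intro h
    have h2 : ((2 : ℕ) : ZMod p) = 0 := by push_cast; exact h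
    rw [ZMod.natCast_eq_zero_iff] at h2
    have := Nat.le_of_dvd (by norm_num) h2
    omega
  have hq2 : qc p 2 = -1 := by
    have h1 : ¬ (qc p 2 = 1) := by
      intro h
      have h2 := (quadraticChar_one_iff_isSquare h20).1 h
      have := (ZMod.exists_sq_eq_two_iff hp2).1 h2
      omega
    exact (qc_cases h20).resolve_left h1
  have h1 := prod_mul_unit (p := p) (u := 2) h20 ε (fun a => x ^ 2 - ps p a)
  rw [hq2, neg_one_mul] at h1
  have hodd : (-1 : ℂ) ^ n = -1 := Odd.neg_one_pow (Nat.odd_iff.2 (by omega))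
  rw [PE, PE, ← Finset.prod_mul_distrib, PE, ← h1]
  have h2 : (∏ a : ZMod p, (if qc p a = ε then x - ps p a else 1) * (if qc p a = ε then -x - ps p a else 1))
      = ∏ a : ZMod p, if qc p a = ε then (-1) * (x ^ 2 - ps p (2 * a)) else 1 := by
    refine Finset.prod_congr rfl fun a _ => ?_
    split_ifs
    · rw [ps_two]; ring
    · rw [one_mul]
  rw [h2, prod_ite_mul, prod_const hn (by omega) hε, hodd]
  ring

/-- `S(x) S(ω x) S(ω² x)` -/
lemma PE_three (h12 : p % 12 = 7) {ε : ℤ} (x : ℂ) {w : ℂ} (hw : w ^ 2 + w + 1 = 0) :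
    PE p ε x * PE p ε (x * w) * PE p ε (x * w ^ 2) = PE p (-ε) (x ^ 3) := by
  have hp3 : p ≠ 3 := by rintro rfl; omega
  have h30 : (3 : ZMod p) ≠ 0 := by
    intro h
    have h2 : ((3 : ℕ) : ZMod p) = 0 := by push_cast; exact h
    rw [ZMod.natCast_eq_zero_iff] at h2
    have := Nat.le_of_dvd (by norm_num) h2
    omega
  have hq3 : qc p 3 = -1 := by
    have h1 : qc p ((3 : ℕ) : ZMod p) = -1 := by
      rw [qc_nat (by omega) (by norm_num), if_neg (by norm_num), jacobiSym.mod_left]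
      have : (p : ℤ) % (3 : ℕ) = 1 := by omega
      rw [this, jacobiSym.one_left]
      norm_num
    exact_mod_cast h1
  have hw3 : w ^ 3 = 1 := by linear_combination (w - 1) * hw
  have h1 := prod_mul_unit (p := p) (u := 3) h30 ε (fun a => x ^ 3 - ps p a)
  rw [hq3, neg_one_mul] at h1
  rw [PE, PE, PE, ← Finset.prod_mul_distrib, ← Finset.prod_mul_distrib, PE, ← h1]
  refine Finset.prod_congr rfl fun a _ => ?_
  split_ifs
  · have h3 : ps p (3 * a) = ps p a ^ 3 := by
      have : (3 : ZMod p) * a = 3 • a := by rw [nsmul_eq_mul]; norm_num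
      unfold ps
      rw [this, AddChar.map_nsmul_eq_pow]
    rw [h3]
    linear_combination (x * ps p a ^ 2 - w * x ^ 2 * ps p a) * hw + (x ^ 3 ) * hw3
  · simp

/-- `S(1/x)` -/
lemma PE_inv {n : ℕ} (hn : p = 2 * n + 1) (h3 : p % 4 = 3) (h5 : 3 < p) {ε : ℤ} (hε : ε = 1 ∨ ε = -1)
    {x : ℂ} (hx : x ≠ 0) : PE p ε x⁻¹ * x ^ n = - PE p (-ε) x := by
  have h0 : (-1 : ZMod p) ≠ 0 := neg_ne_zero.2 one_ne_zero
  have h1 := prod_mul_unit (p := p) (u := -1) h0 ε (fun a => x - ps p a)
  rw [qc_neg_one_of_three h3, neg_one_mul] at h1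
  have hodd : (-1 : ℂ) ^ n = -1 := Odd.neg_one_pow (Nat.odd_iff.2 (by omega))
  rw [PE, PE, ← h1, ← prod_const hn h3 hε x, ← Finset.prod_mul_distrib]
  have h2 : (∏ a : ZMod p, (if qc p a = ε then x⁻¹ - ps p a else 1) * (if qc p a = ε then x else 1))
      = ∏ a : ZMod p, if qc p a = ε then (-1) * (ps p a * (x - ps p (-1 * a))) else 1 := by
    refine Finset.prod_congr rfl fun a _ => ?_
    split_ifs
    · have h6 := ps_mul_neg (p := p) a
      rw [neg_one_mul a, sub_mul, inv_mul_cancel₀ hx]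
      linear_combination - h6
    · rw [one_mul]
  rw [h2, prod_ite_mul, prod_const hn h3 hε, hodd, prod_ite_mul, prod_ps h5]
  ring

end Pool.Agent.X12
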