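import Pool.Agent.X12.TwSp

/-!
# The product over the quadratic residues at twelfth roots of unity, up to sign
-/

set_option autoImplicit false

namespace Pool.Agent.X12

open Finset Complex

variable {p : ℕ} [Fact p.Prime]

lemma PE_ne_zero {ε : ℤ} (hε : ε = 1 ∨ ε = -1) {x : ℂ} (hx : x ^ p ≠ 1) : PE p ε x ≠ 0 := by
  have h1 := SQ_mul_SN (p := p) x
  intro h
  apply hx
  rcases hε with rfl | rfl
  · rw [PE_one] at h
    rw [h, zero_mul, zero_mul] at h1
    exact (sub_eq_zero.1 h1.symm)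
  · rw [PE_neg_one] at h
    rw [h, mul_zero, zero_mul] at h1
    exact (sub_eq_zero.1 h1.symm)

/-- the values at the primitive sixth roots of unity -/
lemma PE_sixth {m : ℕ} (hm : p = 24 * m + 19) {ε : ℤ} (hε : ε = 1 ∨ ε = -1) {w : ℂ}
    (hw : w ^ 2 + w + 1 = 0) : PE p ε (-w) = 1 := by
  have hn : p = 2 * (12 * m + 9) + 1 := by omega
  have hw3 : w ^ 3 = 1 := by linear_combination (w - 1) * hw
  have hw0 : w ≠ 0 := by rintro rfl; norm_num at hw
  have h1 := PE_neg hn (by omega) hε w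
  have h2 := PE_inv hn (by omega) (by omega) hε (x := w ^ 2) (pow_ne_zero 2 hw0)
  have h3 : (w ^ 2)⁻¹ = w := inv_eq_of_mul_eq_one_right (by rw [← hw3]; ring)
  have h4 : (w ^ 2) ^ (12 * m + 9) = 1 := by
    rw [← pow_mul, show 2 * (12 * m + 9) = 3 * (8 * m + 6) by ring, pow_mul, hw3, one_pow]
  rw [h3, h4, mul_one] at h2
  rw [← h2] at h1
  have hwp : w ^ p ≠ 1 := by
    rw [hm, show 24 * m + 19 = 3 * (8 * m + 6) + 1 by ring, pow_succ, pow_mul, hw3, one_pow, one_mul]
    rintro rfl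
    norm_num at hw
  have h0 := PE_ne_zero hε hwp
  exact mul_left_cancel₀ h0 (by rw [h1, mul_one])

/-- the value at a primitive twelfth root of unity up to sign -/
lemma PE_twelfth {m : ℕ} (hm : p = 24 * m + 19) {z : ℂ} (hz : z ^ 4 - z ^ 2 + 1 = 0) :
    PE p 1 z = z + z ^ 2 ∨ PE p 1 z = - (z + z ^ 2) := by
  have hn : p = 2 * (12 * m + 9) + 1 := by omega
  have hz6 : z ^ 6 = -1 := by linear_combination (z ^ 2 + 1) * hz
  have hz12 : z ^ 12 = 1 := by linear_combination (z ^ 6 - 1) * hz6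
  have hz0 : z ≠ 0 := by rintro rfl; norm_num at hz
  have hpow : ∀ k : ℕ, z ^ (12 * k) = 1 := fun k => by rw [pow_mul, hz12, one_pow]
  set a := PE p 1 z with ha
  set b := PE p 1 (z ^ 5) with hb
  -- (i) at `z ^ 5`
  have e1 := PE_neg hn (by omega) (Or.inl rfl) (z ^ 5)
  have e2 : - z ^ 5 = z⁻¹ := eq_inv_of_mul_eq_one_left (by linear_combination - hz6)
  have e3 : PE p (-1) ((z ^ 5) ^ 2) = 1 := by
    have h := PE_sixth hm (ε := -1) (Or.inr rfl) (w := z ^ 4)
      (by linear_combination (z ^ 4 + z ^ 2 + 1) * hz)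
    have e : (z ^ 5) ^ 2 = - z ^ 4 := by linear_combination (z ^ 4) * hz6
    rw [e, h]
  rw [e2, e3, ← hb] at e1
  -- (ii)
  have e4 := PE_inv hn (by omega) (by omega) (Or.inl rfl) hz0
  have e5 : z ^ (12 * m + 9) = z ^ 9 := by rw [pow_add, hpow, one_mul]
  rw [e5] at e4
  -- (iii)
  have e6 := SQ_mul_SN (p := p) z
  have e7 : z ^ p = - z := by
    rw [hm, show 24 * m + 19 = 12 * (2 * m + 1) + 7 by ring, pow_add, hpow]
    linear_combination z * hz6
  rw [e7, ← PE_one, ← PE_neg_one, ← ha] at e6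
  -- (iv)
  have e8 := PE_three (p := p) (by omega) (ε := 1) z (w := z ^ 4)
    (by linear_combination (z ^ 4 + z ^ 2 + 1) * hz)
  have e9 : z * z ^ 4 = z ^ 5 := by ring
  have e10 : z * (z ^ 4) ^ 2 = (z ^ 3)⁻¹ := eq_inv_of_mul_eq_one_left (by linear_combination hz12)
  rw [e9, e10, ← ha, ← hb] at e8
  have e11 := PE_inv hn (by omega) (by omega) (Or.inl rfl) (pow_ne_zero 3 hz0)
  have e12 : (z ^ 3) ^ (12 * m + 9) = z ^ 3 := by
    rw [← pow_mul, show 3 * (12 * m + 9) = 12 * (3 * m + 2) + 3 by ring, pow_add, hpow, one_mul]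
  rw [e12] at e11
  -- nonvanishing
  have e13 : PE p (-1) (z ^ 3) ≠ 0 := by
    apply PE_ne_zero (Or.inr rfl)
    rw [← pow_mul, hm, show 3 * (24 * m + 19) = 12 * (6 * m + 4) + 9 by ring, pow_add, hpow, one_mul]
    intro h
    have h1 : z ^ 3 = -1 := by linear_combination (z ^ 3) * hz6 - h
    have h2 : z ^ 6 = 1 := by linear_combination (z ^ 3 - 1) * h1
    rw [hz6] at h2
    norm_num at h2
  have e14 : PE p (-1) z ≠ 0 := by
    apply PE_ne_zero (Or.inr rfl)
    rw [e7]
    intro h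
    have h1 : z = -1 := by linear_combination - h
    rw [h1] at hz6
    norm_num at hz6
  -- `a b z³ = 1`
  set T := PE p (-1) (z ^ 3) with hT
  have e15 : a * b * z ^ 3 = 1 := by
    apply mul_right_cancel₀ e13
    rw [one_mul]
    have hA : PE p 1 (z ^ 3)⁻¹ = z ^ 3 * T := by
      have h9 : z ^ 9 * z ^ 3 = 1 := by linear_combination hz12
      calc PE p 1 (z ^ 3)⁻¹ = (PE p 1 (z ^ 3)⁻¹ * z ^ 3) * z ^ 9 := by linear_combination (- PE p 1 (z ^ 3)⁻¹) * h9
        _ = (- T) * z ^ 9 := by rw [e11]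
        _ = z ^ 3 * T := by linear_combination (- T * z ^ 3) * hz6
    rw [hA] at e8
    linear_combination e8
  set c := PE p (-1) z with hc
  set d := PE p 1 z⁻¹ with hd
  have e16 : b * z ^ 3 * c = 1 := by
    have hA : d = z ^ 3 * (- c) * (-1) * (-1) := by
      have h9 : z ^ 9 * z ^ 3 = 1 := by linear_combination hz12
      calc d = (d * z ^ 9) * z ^ 3 := by linear_combination (- d) * h9
        _ = (- c) * z ^ 3 := by rw [e4]
        _ = _ := by ring
    rw [hA] at e1
    linear_combination - e1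
  -- combine
  have e17 : a * (z - 1) = - (z + 1) * (b * z ^ 3) := by
    linear_combination (b * z ^ 3) * e6 - a * (z - 1) * e16
  have e18 : a ^ 2 * (z - 1) = - (z + 1) := by
    linear_combination a * e17 - (z + 1) * e15
  have hz1 : z - 1 ≠ 0 := by
    intro h
    have h1 : z = 1 := by linear_combination h
    rw [h1] at hz6
    norm_num at hz6
  have e19 : a ^ 2 = (z + z ^ 2) ^ 2 := by
    apply mul_right_cancel₀ hz1
    rw [e18]
    linear_combination (- (1 + z)) * hz
  exact sq_eq_sq_iff_eq_or_eq_neg.1 e19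

end Pool.Agent.X12
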