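import Pool.Agent.X12.Uni1
import Pool.Agent.X12.Dyn2

/-!
# Unicritical polynomials of even degree with more than two rational preperiodic points
-/

set_option autoImplicit false

namespace Pool.Agent.X12.Uni

open Function Finset
open Pool.Agent.X12.Cub (Pre escape pre_apply pre_iterate pre_back pre_fixed exists_periodic
  pre_of_periodic exit_point int_of_padic prod_one)
open Pool.Agent.X12.Dyn (HtLe TS mem_TS TS_card)

/-! ### The roots -/

/-- the polynomial for the numerator -/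
noncomputable def gp (j : ℕ) (σ τ : ℤ) : Polynomial ℚ :=
  ∑ i ∈ range (j + 1), (Polynomial.X ^ 2) ^ i * ((Polynomial.C (σ : ℚ) - Polynomial.X) ^ 2) ^ (j - i)
    - Polynomial.C (τ : ℚ)

lemma gp_eval (j : ℕ) (σ τ : ℤ) (x : ℚ) : (gp j σ τ).eval x = G j x (σ - x) - τ := by
  unfold gp G
  rw [Polynomial.eval_sub, Polynomial.eval_finset_sum, Polynomial.eval_C]
  congr 1
  refine Finset.sum_congr rfl fun i _ => ?_
  simp

lemma G_ge (j : ℕ) (x y : ℚ) : (x ^ 2) ^ j ≤ G j x y := by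
  unfold G
  have h := Finset.single_le_sum (f := fun i => (x ^ 2) ^ i * (y ^ 2) ^ (j - i))
    (s := range (j + 1)) (fun i _ => by positivity) (Finset.mem_range.2 (Nat.lt_succ_self j))
  simpa using h

lemma gp_ne {j : ℕ} (hj : 1 ≤ j) (σ τ : ℤ) : gp j σ τ ≠ 0 := by
  intro h
  have h1 := gp_eval j σ τ (|(τ : ℚ)| + 1)
  rw [h, Polynomial.eval_zero] at h1
  have h2 := G_ge j (|(τ : ℚ)| + 1) (σ - (|(τ : ℚ)| + 1))
  have h3 : (τ : ℚ) ≤ |(τ : ℚ)| := le_abs_self _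
  have h0 := abs_nonneg (τ : ℚ)
  have h4 : (1 : ℚ) ≤ (|(τ : ℚ)| + 1) ^ 2 := by nlinarith
  have h5 : (|(τ : ℚ)| + 1) ^ 2 ≤ ((|(τ : ℚ)| + 1) ^ 2) ^ j := le_self_pow₀ h4 (by omega)
  nlinarith

lemma gp_deg (j : ℕ) (σ τ : ℤ) : (gp j σ τ).natDegree ≤ 2 * j := by
  unfold gp
  refine (Polynomial.natDegree_sub_le _ _).trans (max_le ?_ ?_)
  · refine Polynomial.natDegree_sum_le_of_forall_le _ _ fun i hi => ?_
    rw [Finset.mem_range] at hi
    refine (Polynomial.natDegree_mul_le).trans ?_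
    have h1 : ((Polynomial.X ^ 2 : Polynomial ℚ) ^ i).natDegree ≤ 2 * i := by
      rw [← pow_mul]
      exact Polynomial.natDegree_X_pow_le _
    have h2 : (((Polynomial.C (σ : ℚ) - Polynomial.X) ^ 2) ^ (j - i)).natDegree ≤ 2 * (j - i) := by
      rw [← pow_mul]
      refine (Polynomial.natDegree_pow_le).trans ?_
      have h3 : (Polynomial.C (σ : ℚ) - Polynomial.X).natDegree ≤ 1 := by
        refine (Polynomial.natDegree_sub_le _ _).trans ?_
        simp
      nlinarith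
    omega
  · simp

/-- the possible numerators -/
noncomputable def Rt (j : ℕ) (σ τ : ℤ) : Finset ℚ := (gp j σ τ).roots.toFinset

lemma Rt_card (j : ℕ) (σ τ : ℤ) : (Rt j σ τ).card ≤ 2 * j :=
  (Multiset.toFinset_card_le _).trans ((Polynomial.card_roots' _).trans (gp_deg j σ τ))

lemma mem_Rt {j : ℕ} (hj : 1 ≤ j) {σ τ : ℤ} {x : ℚ} (h : G j x (σ - x) = τ) : x ∈ Rt j σ τ := by
  unfold Rt
  rw [Multiset.mem_toFinset, Polynomial.mem_roots (gp_ne hj σ τ), Polynomial.IsRoot, gp_eval, h,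
    sub_self]

/-! ### The parameters -/

/-- the scale -/
def sc (j D : ℕ) (σ : ℤ) (ε x : ℚ) (b : Bool) : ℚ :=
  (if b then x else σ - x) - ε * x ^ (2 * j + 2) / D ^ (2 * j + 2)

/-- the parameter of a pair of points -/
def val (j D : ℕ) (σ : ℤ) (ε x : ℚ) (b : Bool) : ℚ :=
  ε * (sc j D σ ε x b) ^ (2 * j + 1) / D ^ (2 * j + 2)

/-- the parameter of a preimage of the opposite of a fixed point -/
def tv (j : ℕ) (κ : ℚ) (p : ℤ × ℤ) : ℚ :=
  (κ * ((((p.1 : ℚ) + p.2) / 2) ^ (2 * j + 2) - (((p.2 : ℚ) - p.1) / 2) ^ (2 * j + 2)) / 2 -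
    κ * ((((p.1 : ℚ) + p.2) / 2) ^ (2 * j + 2) + (((p.2 : ℚ) - p.1) / 2) ^ (2 * j + 2)) / 2) *
  (κ * ((((p.1 : ℚ) + p.2) / 2) ^ (2 * j + 2) + (((p.2 : ℚ) - p.1) / 2) ^ (2 * j + 2)) / 2) ^
    (2 * j + 1) /
  (κ * ((((p.1 : ℚ) + p.2) / 2) ^ (2 * j + 2) - (((p.2 : ℚ) - p.1) / 2) ^ (2 * j + 2)) / 2) ^
    (2 * j + 2)

/-- the divisors -/
noncomputable def TT (j : ℕ) (X : ℝ) (D : ℕ) : Finset ℤ := TS ((4 * j + 4) * X) (2 * D)

/-- the exceptional parameters with the denominator `D ^ (2 j + 2)` -/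
noncomputable def FU (j : ℕ) (X : ℝ) (D : ℕ) : Finset ℚ := by
  classical
  exact (TT j X D ×ˢ TT j X D).biUnion fun p =>
    ((Rt j p.1 p.2).biUnion fun x =>
      {val j D p.1 1 x true, val j D p.1 1 x false, val j D p.1 (-1) x true,
        val j D p.1 (-1) x false}) ∪ {tv j 1 p, tv j (-1) p, tv j 2 p, tv j (-2) p}

lemma four_card {a b c d : ℚ} : ({a, b, c, d} : Finset ℚ).card ≤ 4 := Finset.card_le_four

theorem FU_card (j : ℕ) (ε : ℝ) (hε : 0 < ε) : ∃ C : ℝ, 0 < C ∧ ∀ (X : ℝ) (D : ℕ), 1 ≤ X →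
    1 ≤ D → (D : ℝ) ≤ X → ((FU j X D).card : ℝ) ≤ C * X ^ ε := by
  classical
  obtain ⟨C, hC, h⟩ := TS_card (ε / 4) (by positivity)
  refine ⟨(C * (4 * j + 4 : ℝ) ^ (ε / 4) * (2 : ℝ) ^ (ε / 4)) ^ 2 * (8 * j + 4), by positivity,
    fun X D hX hD hDX => ?_⟩
  have hX0 : 0 < X := by linarith
  have hj0 : (0 : ℝ) ≤ j := Nat.cast_nonneg j
  have h1 := h ((4 * j + 4) * X) (2 * D) (by nlinarith) (by omega)
  have h2 : ((TT j X D).card : ℝ) ≤
      C * (4 * j + 4 : ℝ) ^ (ε / 4) * (2 : ℝ) ^ (ε / 4) * X ^ (ε / 2) := by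
    unfold TT
    refine h1.trans ?_
    have e1 : ((4 * j + 4 : ℝ) * X) ^ (ε / 4) = (4 * j + 4 : ℝ) ^ (ε / 4) * X ^ (ε / 4) :=
      Real.mul_rpow (by positivity) hX0.le
    have e2 : (((2 * D : ℕ) : ℝ)) ^ (ε / 4) ≤ (2 : ℝ) ^ (ε / 4) * X ^ (ε / 4) := by
      rw [← Real.mul_rpow (by norm_num) hX0.le]
      refine Real.rpow_le_rpow (Nat.cast_nonneg _) ?_ (by positivity)
      push_cast
      linarith
    have e3 : X ^ (ε / 4) * X ^ (ε / 4) = X ^ (ε / 2) := by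
      rw [← Real.rpow_add hX0]
      congr 1
      ring
    rw [e1]
    calc C * ((4 * j + 4 : ℝ) ^ (ε / 4) * X ^ (ε / 4)) * (((2 * D : ℕ) : ℝ)) ^ (ε / 4)
        ≤ C * ((4 * j + 4 : ℝ) ^ (ε / 4) * X ^ (ε / 4)) * ((2 : ℝ) ^ (ε / 4) * X ^ (ε / 4)) := by
          gcongr
      _ = _ := by rw [← e3]; ring
  have h3 : (FU j X D).card ≤ ((TT j X D).card * (TT j X D).card) * (8 * j + 4) := by
    unfold FU
    have h4 := Finset.card_biUnion_le_card_mul (TT j X D ×ˢ TT j X D) (fun p : ℤ × ℤ =>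
      ((Rt j p.1 p.2).biUnion fun x =>
        ({val j D p.1 1 x true, val j D p.1 1 x false, val j D p.1 (-1) x true,
          val j D p.1 (-1) x false} : Finset ℚ)) ∪ {tv j 1 p, tv j (-1) p, tv j 2 p, tv j (-2) p})
      (8 * j + 4) (fun p _ => by
        refine (Finset.card_union_le _ _).trans (Nat.add_le_add ?_ four_card)
        refine (Finset.card_biUnion_le_card_mul _ _ 4 fun x _ => four_card).trans ?_
        have := Rt_card j p.1 p.2
        omega)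
    rwa [Finset.card_product] at h4
  have h4 : ((FU j X D).card : ℝ) ≤
      (((TT j X D).card : ℝ) * ((TT j X D).card : ℝ)) * (8 * j + 4) := by exact_mod_cast h3
  refine h4.trans ?_
  have e4 : X ^ ε = X ^ (ε / 2) * X ^ (ε / 2) := by
    rw [← Real.rpow_add hX0]
    congr 1
    ring
  rw [e4]
  have h5 : (0 : ℝ) ≤ ((TT j X D).card : ℝ) := Nat.cast_nonneg _
  calc (((TT j X D).card : ℝ) * ((TT j X D).card : ℝ)) * (8 * j + 4)
      ≤ ((C * (4 * j + 4 : ℝ) ^ (ε / 4) * (2 : ℝ) ^ (ε / 4) * X ^ (ε / 2)) *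
        (C * (4 * j + 4 : ℝ) ^ (ε / 4) * (2 : ℝ) ^ (ε / 4) * X ^ (ε / 2))) * (8 * j + 4) := by
        gcongr
    _ = _ := by ring

/-! ### Pairs of points -/

lemma G_abs {j : ℕ} {x y W : ℚ} (hx : |x| ≤ W) (hy : |y| ≤ W) :
    |G j x y| ≤ (j + 1) * W ^ (2 * j) := by
  have hW : 0 ≤ W := (abs_nonneg x).trans hx
  have h0 : 0 ≤ G j x y := le_trans (by positivity) (G_ge j x y)
  rw [abs_of_nonneg h0]
  unfold G
  have h := Finset.sum_le_card_nsmul (range (j + 1)) (fun i => (x ^ 2) ^ i * (y ^ 2) ^ (j - i))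
    (W ^ (2 * j)) (fun i hi => by
      rw [Finset.mem_range] at hi
      have e : W ^ (2 * j) = (W ^ 2) ^ i * (W ^ 2) ^ (j - i) := by
        rw [← pow_add, ← pow_mul]
        congr 1
        omega
      have h1 : x ^ 2 ≤ W ^ 2 := by
        rw [← sq_abs x]
        exact pow_le_pow_left₀ (abs_nonneg x) hx 2
      have h2 : y ^ 2 ≤ W ^ 2 := by
        rw [← sq_abs y]
        exact pow_le_pow_left₀ (abs_nonneg y) hy 2
      rw [e]
      gcongr)
  rw [Finset.card_range, nsmul_eq_mul] at h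
  push_cast at h
  exact h

theorem pair_mem {j : ℕ} (hj : 1 ≤ j) {μ x y : ℚ} {X : ℝ} (hX : 1 ≤ X) (hμ0 : μ ≠ 0)
    (hH : HtLe X μ) (hx : x ∈ Pre (f j μ)) (hy : y ∈ Pre (f j μ))
    (hu : ∀ p : ℕ, ∀ _ : Fact p.Prime, padicNorm p μ ≤ 1 →
      padicNorm p (μ * ((x + y) * G j x y)) = 1) (hf : f j μ x = x ∨ f j μ x = y) :
    ∃ D : ℕ, 1 ≤ D ∧ ((D : ℝ)) ^ (2 * j + 2) ≤ X ∧ μ ∈ FU j X D := by
  classical
  obtain ⟨hE, ⟨hσ0, hσ⟩, τ, hτ, hτ0, hτp⟩ := unit_data hμ0 hx hy hu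
  obtain ⟨D, hD⟩ := den_pow hx
  set E : ℕ := (x + y).den with hEd
  set σ : ℤ := (x + y).num with hσd
  have hD0 : D ≠ 0 := by
    rintro rfl
    rw [zero_pow (by omega)] at hD
    exact μ.den_ne_zero hD.symm
  have hσq : (σ : ℚ) = E * (x + y) := by
    rw [mul_comm]
    exact (Rat.mul_den_eq_num (x + y)).symm
  have hDq : (D : ℚ) ^ (2 * j + 2) = μ.den := by exact_mod_cast hD
  have hDq0 : (D : ℚ) ≠ 0 := by exact_mod_cast hD0
  have hEq : (E : ℚ) ^ (2 * j + 1) = |(μ.num : ℚ)| := by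
    have h1 : ((E ^ (2 * j + 1) : ℕ) : ℚ) = ((μ.num.natAbs : ℕ) : ℚ) := by rw [hE]
    push_cast at h1
    rw [h1, Nat.cast_natAbs]
    push_cast
    rfl
  have hE0 : 0 ≤ (E : ℚ) := Nat.cast_nonneg E
  -- the sizes
  set K : ℚ := max |(μ.num : ℚ)| μ.den with hK
  have hden1 : (1 : ℚ) ≤ μ.den := by exact_mod_cast μ.den_pos
  have hK1 : 1 ≤ K := hden1.trans (le_max_right _ _)
  have hKX : (K : ℝ) ≤ X := by
    rw [hK]
    push_cast
    exact max_le hH.1 hH.2
  have hsz : ∀ z : ℚ, z ∈ Pre (f j μ) → ((E : ℚ) * |z|) ^ (2 * j + 1) ≤ 2 * K := by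
    intro z hz
    rw [mul_pow, hEq]
    rcases real_or hz with h | h
    · have h1 : |(μ.num : ℚ)| = |μ| * μ.den := by
        have hd : (0 : ℚ) < μ.den := by linarith
        rw [← Rat.mul_den_eq_num μ, abs_mul, abs_of_pos hd]
      rw [h1]
      have h2 : (μ.den : ℚ) ≤ K := le_max_right _ _
      nlinarith
    · have h1 : |z| ^ (2 * j + 1) ≤ 1 := pow_le_one₀ (abs_nonneg z) h
      have h2 : |(μ.num : ℚ)| ≤ K := le_max_left _ _
      have h3 := abs_nonneg (μ.num : ℚ)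
      have h4 : 0 ≤ |z| ^ (2 * j + 1) := by positivity
      nlinarith
  set W : ℚ := max 1 (max (E * |x|) (E * |y|)) with hW
  have hW1 : 1 ≤ W := le_max_left _ _
  have hWx : E * |x| ≤ W := (le_max_left _ _).trans (le_max_right _ _)
  have hWy : E * |y| ≤ W := (le_max_right _ _).trans (le_max_right _ _)
  have hWK : W ^ (2 * j + 1) ≤ 2 * K := by
    rw [hW]
    rcases max_choice 1 (max (E * |x|) (E * |y|)) with h | h
    · rw [h, one_pow]
      linarith
    · rw [h]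
      rcases max_choice (E * |x|) (E * |y|) with h' | h'
      · rw [h']
        exact hsz x hx
      · rw [h']
        exact hsz y hy
  have hWW : W ≤ W ^ (2 * j + 1) := le_self_pow₀ hW1 (by omega)
  have hWW' : W ^ (2 * j) ≤ W ^ (2 * j + 1) := pow_le_pow_right₀ hW1 (by omega)
  have hax : |(E : ℚ) * x| = E * |x| := by rw [abs_mul, abs_of_nonneg hE0]
  have hay : |(E : ℚ) * y| = E * |y| := by rw [abs_mul, abs_of_nonneg hE0]
  have hjq : (0 : ℚ) ≤ j := Nat.cast_nonneg j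
  have hjr : (0 : ℝ) ≤ j := Nat.cast_nonneg j
  have sσ : |(σ : ℚ)| ≤ (4 * j + 4) * K := by
    rw [hσq, mul_add]
    have := abs_add_le ((E : ℚ) * x) (E * y)
    rw [hax, hay] at this
    nlinarith
  have hτG : (τ : ℚ) = G j (E * x) (E * y) := by
    rw [hτ, G_smul]
  have sτ : |(τ : ℚ)| ≤ (4 * j + 4) * K := by
    rw [hτG]
    refine (G_abs (W := W) (by rw [hax]; exact hWx) (by rw [hay]; exact hWy)).trans ?_
    nlinarith
  have toR : ∀ s : ℤ, |(s : ℚ)| ≤ (4 * j + 4) * K → |(s : ℝ)| ≤ (4 * j + 4) * X := by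
    intro s hs
    have h1 : |(s : ℝ)| ≤ (4 * j + 4) * (K : ℝ) := by exact_mod_cast hs
    exact h1.trans (by gcongr)
  have hsub : μ.den.primeFactors ⊆ (2 * D).primeFactors := by
    rw [← hD, Nat.primeFactors_pow _ (by omega)]
    exact Nat.primeFactors_mono (Dvd.intro_left _ rfl) (by omega)
  have mσ : σ ∈ TT j X D := mem_TS (toR σ sσ) hσ0 (hσ.trans hsub)
  have mτ : τ ∈ TT j X D := mem_TS (toR τ sτ) hτ0 (hτp.trans hsub)
  have eσ : (σ : ℚ) - E * x = E * y := by rw [hσq]; ring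
  have mx : (E : ℚ) * x ∈ Rt j σ τ := by
    refine mem_Rt hj ?_
    rw [eσ, ← hτG]
  refine ⟨D, Nat.one_le_iff_ne_zero.2 hD0, ?_, ?_⟩
  · have : ((D : ℝ)) ^ (2 * j + 2) = μ.den := by exact_mod_cast hD
    rw [this]
    exact hH.2
  · -- the parameter
    have key : ∀ ε : ℚ, (μ.num : ℚ) = ε * E ^ (2 * j + 1) → ∀ b : Bool,
        f j μ x = (if b then x else y) → μ = val j D σ ε (E * x) b := by
      intro ε hε b hb
      have h1 : μ = ε * E ^ (2 * j + 1) / D ^ (2 * j + 2) := by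
        rw [← hε, hDq]
        exact (Rat.num_div_den μ).symm
      have h2 : sc j D σ ε (E * x) b = E := by
        unfold sc
        have h3 : (if b then (E : ℚ) * x else (σ : ℚ) - E * x) = E * (if b then x else y) := by
          cases b
          · simp only [Bool.false_eq_true, if_false]
            exact eσ
          · simp only [if_true]
        rw [h3, ← hb]
        unfold f
        nth_rw 1 [h1]
        rw [mul_pow]
        field_simp
        ring
      unfold val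
      rw [h2]
      exact h1
    unfold FU
    rw [Finset.mem_biUnion]
    refine ⟨(σ, τ), Finset.mem_product.2 ⟨mσ, mτ⟩, Finset.mem_union_left _ ?_⟩
    rw [Finset.mem_biUnion]
    refine ⟨E * x, mx, ?_⟩
    simp only [Finset.mem_insert, Finset.mem_singleton]
    have hsign : (μ.num : ℚ) = 1 * E ^ (2 * j + 1) ∨ (μ.num : ℚ) = (-1) * E ^ (2 * j + 1) := by
      rcases abs_choice (μ.num : ℚ) with h | h
      · left
        rw [hEq, h, one_mul]
      · right
        rw [hEq, h]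
        ring
    rcases hsign with h | h <;> rcases hf with hb | hb
    · exact Or.inl (key 1 h true (by simpa using hb))
    · exact Or.inr (Or.inl (key 1 h false (by simpa using hb)))
    · exact Or.inr (Or.inr (Or.inl (key (-1) h true (by simpa using hb))))
    · exact Or.inr (Or.inr (Or.inr (key (-1) h false (by simpa using hb))))

/-! ### Fixed points -/

lemma even_pow_eq {j : ℕ} {x y : ℚ} (h : x ^ (2 * j + 2) = y ^ (2 * j + 2)) : x = y ∨ x = -y := by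
  have e : ∀ z : ℚ, z ^ (2 * j + 2) = (z ^ 2) ^ (j + 1) := fun z => by
    rw [← pow_mul]
    congr 1
  rw [e, e] at h
  have h1 : x ^ 2 = y ^ 2 := (pow_left_inj₀ (sq_nonneg x) (sq_nonneg y) (by omega)).1 h
  exact sq_eq_sq_iff_eq_or_eq_neg.1 h1

/-- the arithmetic of a fixed point -/
lemma fixed_data {j : ℕ} {μ p : ℚ} (hμ0 : μ ≠ 0) (hp : f j μ p = p) :
    p ≠ 0 ∧ p ≠ 1 ∧
    μ = ((p.num : ℚ) - p.den) * (p.den : ℚ) ^ (2 * j + 1) / (p.num : ℚ) ^ (2 * j + 2) ∧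
    μ.den = p.num.natAbs ^ (2 * j + 2) ∧ μ.num = (p.num - p.den) * (p.den : ℤ) ^ (2 * j + 1) := by
  have hp' : μ * p ^ (2 * j + 2) + 1 = p := hp
  have hp0 : p ≠ 0 := by
    rintro rfl
    rw [zero_pow (by omega)] at hp'
    norm_num at hp'
  have hp1 : p ≠ 1 := by
    rintro rfl
    rw [one_pow] at hp'
    exact hμ0 (by linarith)
  have hd : (p.den : ℚ) ≠ 0 := by exact_mod_cast p.den_ne_zero
  have hn : (p.num : ℚ) ≠ 0 := by exact_mod_cast Rat.num_ne_zero.2 hp0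
  have hpe : p = (p.num : ℚ) / p.den := (Rat.num_div_den p).symm
  have e1 : μ = ((p.num : ℚ) - p.den) * (p.den : ℚ) ^ (2 * j + 1) / (p.num : ℚ) ^ (2 * j + 2) := by
    have h1 : μ = (p - 1) / p ^ (2 * j + 2) := by
      rw [eq_div_iff (pow_ne_zero _ hp0)]
      linarith
    rw [h1]
    conv_lhs => rw [hpe]
    rw [div_pow]
    field_simp
    ring
  have hcop : IsCoprime p.num (p.den : ℤ) := by
    rw [Int.isCoprime_iff_nat_coprime]
    exact p.reduced
  have hcop2 : IsCoprime ((p.num - p.den) * (p.den : ℤ) ^ (2 * j + 1)) (p.num ^ (2 * j + 2)) := by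
    refine IsCoprime.pow_right (IsCoprime.mul_left ?_ (hcop.symm.pow_left))
    have h1 : IsCoprime (-(p.den : ℤ) + p.num * 1) p.num :=
      IsCoprime.add_mul_left_left hcop.symm.neg_left _
    have e : -(p.den : ℤ) + p.num * 1 = p.num - p.den := by ring
    rwa [e] at h1
  have hpos : (0 : ℤ) < p.num ^ (2 * j + 2) := by
    have h1 : p.num ^ (2 * j + 2) = (p.num ^ 2) ^ (j + 1) := by
      rw [← pow_mul]
      congr 1
    rw [h1]
    have h2 : 0 < p.num ^ 2 := by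
      have := Rat.num_ne_zero.2 hp0
      positivity
    positivity
  have hc := Int.isCoprime_iff_nat_coprime.1 hcop2
  have e2 : μ = (((p.num - p.den) * (p.den : ℤ) ^ (2 * j + 1) : ℤ) : ℚ) /
      ((p.num ^ (2 * j + 2) : ℤ) : ℚ) := by
    rw [e1]
    push_cast
    rfl
  refine ⟨hp0, hp1, e1, ?_, ?_⟩
  · have h1 : (μ.den : ℤ) = p.num ^ (2 * j + 2) := by
      rw [e2]
      exact Rat.den_div_eq_of_coprime hpos hc
    have h2 : ((p.num.natAbs ^ (2 * j + 2) : ℕ) : ℤ) = p.num ^ (2 * j + 2) := by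
      push_cast
      have e : |p.num| ^ (2 * j + 2) = (|p.num| ^ 2) ^ (j + 1) := by
        rw [← pow_mul]
        congr 1
      rw [e, sq_abs, ← pow_mul]
      congr 1
    have h3 : (μ.den : ℤ) = ((p.num.natAbs ^ (2 * j + 2) : ℕ) : ℤ) := h1.trans h2.symm
    exact_mod_cast h3
  · rw [e2]
    exact Rat.num_div_eq_of_coprime hpos hc

/-- two fixed points -/
theorem two_fixed {j : ℕ} (hj : 1 ≤ j) {μ p q : ℚ} {X : ℝ} (hX : 1 ≤ X) (hμ0 : μ ≠ 0)
    (hH : HtLe X μ) (hp : f j μ p = p) (hq : f j μ q = q) (hpq : p ≠ q) :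
    ∃ D : ℕ, 1 ≤ D ∧ ((D : ℝ)) ^ (2 * j + 2) ≤ X ∧ μ ∈ FU j X D := by
  refine pair_mem hj hX hμ0 hH (pre_fixed hp) (pre_fixed hq) (fun r hr _ => ?_) (Or.inl hp)
  have h1 : μ * ((p + q) * G j p q) = 1 := by
    refine mul_left_cancel₀ (sub_ne_zero.2 hpq) ?_
    have h2 := G_mul j p q
    have hp' : μ * p ^ (2 * j + 2) + 1 = p := hp
    have hq' : μ * q ^ (2 * j + 2) + 1 = q := hq
    linear_combination μ * h2 + hp' - hq'
  rw [h1, padicNorm.one]

/-- a preimage of the opposite of a fixed point -/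
theorem tail_mem {j : ℕ} {μ p w : ℚ} {X : ℝ} (hX : 1 ≤ X) (hμ0 : μ ≠ 0)
    (hH : HtLe X μ) (hp : f j μ p = p) (hw : f j μ w = -p) :
    ∃ D : ℕ, 1 ≤ D ∧ ((D : ℝ)) ^ (2 * j + 2) ≤ X ∧ μ ∈ FU j X D := by
  classical
  obtain ⟨hp0, hp1, e1, e2, e3⟩ := fixed_data hμ0 hp
  have hp' : μ * p ^ (2 * j + 2) + 1 = p := hp
  have hw' : μ * w ^ (2 * j + 2) + 1 = -p := hw
  set P : ℤ := p.num with hP
  set Q : ℕ := p.den with hQ
  have hQq : (Q : ℚ) ≠ 0 := by exact_mod_cast p.den_ne_zero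
  have hPz : P ≠ 0 := Rat.num_ne_zero.2 hp0
  have hPq : (P : ℚ) ≠ 0 := by exact_mod_cast hPz
  have hpe : p * Q = P := Rat.mul_den_eq_num p
  set r := w / p with hr
  have hwr : w = r * p := by rw [hr]; field_simp
  -- `(Q + P) / (Q - P)` is a power
  have k1 : r ^ (2 * j + 2) * (1 - p) = 1 + p := by
    have h1 : μ * p ^ (2 * j + 2) = p - 1 := by linarith
    have h2 : μ * p ^ (2 * j + 2) * r ^ (2 * j + 2) = -p - 1 := by
      rw [hwr, mul_pow] at hw'
      linear_combination hw'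
    rw [h1] at h2
    linear_combination -h2
  set A : ℤ := r.num with hA
  set B : ℕ := r.den with hB
  have hBz : (B : ℤ) ≠ 0 := by exact_mod_cast r.den_ne_zero
  have hBq : (B : ℚ) ≠ 0 := by exact_mod_cast r.den_ne_zero
  have hre : r = (A : ℚ) / B := (Rat.num_div_den r).symm
  have k2 : A ^ (2 * j + 2) * ((Q : ℤ) - P) = ((Q : ℤ) + P) * (B : ℤ) ^ (2 * j + 2) := by
    have h1 : ((A ^ (2 * j + 2) * ((Q : ℤ) - P) : ℤ) : ℚ) =
        ((((Q : ℤ) + P) * (B : ℤ) ^ (2 * j + 2) : ℤ) : ℚ) := by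
      push_cast
      rw [hre, div_pow] at k1
      rw [← hpe]
      field_simp at k1
      linear_combination (Q : ℚ) * k1
    exact_mod_cast h1
  have hAB : IsCoprime A (B : ℤ) := by
    rw [Int.isCoprime_iff_nat_coprime]
    exact r.reduced
  have hPQ : IsCoprime P (Q : ℤ) := by
    rw [Int.isCoprime_iff_nat_coprime]
    exact p.reduced
  have hd1 : (B : ℤ) ^ (2 * j + 2) ∣ (Q : ℤ) - P := by
    have h1 : (B : ℤ) ^ (2 * j + 2) ∣ A ^ (2 * j + 2) * ((Q : ℤ) - P) := by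
      rw [k2]
      exact Dvd.intro_left _ rfl
    exact (hAB.symm.pow (m := 2 * j + 2) (n := 2 * j + 2)).dvd_of_dvd_mul_left h1
  obtain ⟨κ, hκ⟩ := hd1
  have hκ2 : (Q : ℤ) + P = A ^ (2 * j + 2) * κ := by
    have h1 : (B : ℤ) ^ (2 * j + 2) * ((Q : ℤ) + P) =
        (B : ℤ) ^ (2 * j + 2) * (A ^ (2 * j + 2) * κ) := by
      rw [hκ] at k2
      linear_combination -k2
    exact mul_left_cancel₀ (pow_ne_zero _ hBz) h1
  have hκd : κ ∣ 2 := by
    obtain ⟨a, b, hab⟩ := hPQ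
    have h1 : κ ∣ (Q : ℤ) - P := Dvd.intro_left _ hκ.symm
    have h2 : κ ∣ (Q : ℤ) + P := Dvd.intro_left _ hκ2.symm
    have h3 : (2 : ℤ) = (a + b) * ((Q : ℤ) + P) + (b - a) * ((Q : ℤ) - P) := by
      linear_combination -2 * hab
    rw [h3]
    exact dvd_add (Dvd.dvd.mul_left h2 _) (Dvd.dvd.mul_left h1 _)
  have h2P : 2 * P = κ * (A ^ (2 * j + 2) - (B : ℤ) ^ (2 * j + 2)) := by
    linear_combination hκ2 - hκ
  have hdv1 : (A - B) ∣ 2 * P := by
    rw [h2P]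
    exact Dvd.dvd.mul_left (sub_dvd_pow_sub_pow A (B : ℤ) (2 * j + 2)) _
  have hdv2 : (A + B) ∣ 2 * P := by
    rw [h2P]
    refine Dvd.dvd.mul_left ?_ _
    have h1 : (A ^ 2 - (B : ℤ) ^ 2) ∣ (A ^ 2) ^ (j + 1) - ((B : ℤ) ^ 2) ^ (j + 1) :=
      sub_dvd_pow_sub_pow _ _ _
    have e : ∀ z : ℤ, (z ^ 2) ^ (j + 1) = z ^ (2 * j + 2) := fun z => by
      rw [← pow_mul]
      congr 1
    rw [e, e] at h1
    exact (Dvd.intro (A - B) (by ring)).trans h1
  have hnat1 : 1 ≤ P.natAbs := Nat.one_le_iff_ne_zero.2 (Int.natAbs_ne_zero.2 hPz)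
  have hPX : ((P.natAbs : ℕ) : ℝ) ^ (2 * j + 2) ≤ X := by
    have h1 : ((μ.den : ℕ) : ℝ) = ((P.natAbs : ℕ) : ℝ) ^ (2 * j + 2) := by exact_mod_cast e2
    rw [← h1]
    exact hH.2
  have hPX1 : ((P.natAbs : ℕ) : ℝ) ≤ X := by
    refine le_trans ?_ hPX
    exact le_self_pow₀ (by exact_mod_cast hnat1) (by omega)
  have hjr : (0 : ℝ) ≤ j := Nat.cast_nonneg j
  have hmem : ∀ s : ℤ, s ∣ 2 * P → s ∈ TT j X P.natAbs := by
    intro s hs
    have h2P0 : 2 * P ≠ 0 := mul_ne_zero two_ne_zero hPz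
    have hs0 : s ≠ 0 := by
      rintro rfl
      exact h2P0 (zero_dvd_iff.1 hs)
    refine mem_TS ?_ hs0 ?_
    · have h1 : |s| ≤ |2 * P| := Int.le_of_dvd (abs_pos.2 h2P0) ((abs_dvd_abs _ _).2 hs)
      have h2 : |2 * P| = 2 * (P.natAbs : ℤ) := by
        rw [abs_mul, Int.natCast_natAbs]
        rfl
      rw [h2] at h1
      have h3 : ((|s| : ℤ) : ℝ) ≤ ((2 * (P.natAbs : ℤ) : ℤ) : ℝ) := Int.cast_le.2 h1
      rw [Int.cast_abs] at h3
      push_cast at h3
      have h4 : |(P : ℝ)| = ((P.natAbs : ℕ) : ℝ) := by rw [Nat.cast_natAbs, Int.cast_abs]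
      rw [h4] at h3
      nlinarith
    · have h1 : s.natAbs ∣ 2 * P.natAbs := by
        have := Int.natAbs_dvd_natAbs.2 hs
        rwa [Int.natAbs_mul] at this
      exact Nat.primeFactors_mono h1 (by omega)
  refine ⟨P.natAbs, hnat1, hPX, ?_⟩
  unfold FU
  rw [Finset.mem_biUnion]
  refine ⟨(A - B, A + B), Finset.mem_product.2 ⟨hmem _ hdv1, hmem _ hdv2⟩,
    Finset.mem_union_right _ ?_⟩
  have hval : μ = tv j κ (A - B, A + B) := by
    unfold tv
    have c1 : (((A - B : ℤ) : ℚ) + ((A + B : ℤ) : ℚ)) / 2 = A := by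
      push_cast
      ring
    have c2 : (((A + B : ℤ) : ℚ) - ((A - B : ℤ) : ℚ)) / 2 = B := by
      push_cast
      ring
    simp only
    rw [c1, c2]
    have c3 : (κ : ℚ) * ((A : ℚ) ^ (2 * j + 2) - (B : ℚ) ^ (2 * j + 2)) / 2 = P := by
      have : ((2 * P : ℤ) : ℚ) = ((κ * (A ^ (2 * j + 2) - (B : ℤ) ^ (2 * j + 2)) : ℤ) : ℚ) := by
        rw [h2P]
      push_cast at this
      rw [← this]
      ring
    have c4 : (κ : ℚ) * ((A : ℚ) ^ (2 * j + 2) + (B : ℚ) ^ (2 * j + 2)) / 2 = Q := by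
      have h3 : 2 * (Q : ℤ) = κ * (A ^ (2 * j + 2) + (B : ℤ) ^ (2 * j + 2)) := by
        linear_combination hκ2 + hκ
      have : ((2 * (Q : ℤ) : ℤ) : ℚ) =
          ((κ * (A ^ (2 * j + 2) + (B : ℤ) ^ (2 * j + 2)) : ℤ) : ℚ) := by
        rw [h3]
      push_cast at this
      rw [← this]
      ring
    rw [c3, c4]
    exact e1
  simp only [Finset.mem_insert, Finset.mem_singleton]
  have hκc : κ = 1 ∨ κ = -1 ∨ κ = 2 ∨ κ = -2 := by
    have h1 : κ.natAbs ∣ 2 := by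
      have := Int.natAbs_dvd_natAbs.2 hκd
      exact this
    have h2 : κ.natAbs ≤ 2 := Nat.le_of_dvd two_pos h1
    have h3 : κ.natAbs ≠ 0 := by
      intro h
      rw [h] at h1
      exact absurd (Nat.eq_zero_of_zero_dvd h1) two_ne_zero
    omega
  rcases hκc with rfl | rfl | rfl | rfl
  · left
    rw [hval]
    norm_num
  · right; left
    rw [hval]
    norm_num
  · right; right; left
    rw [hval]
    norm_num
  · right; right; right
    rw [hval]
    norm_num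

/-! ### The classification -/

theorem exc_mem {j : ℕ} (hj : 1 ≤ j) {μ : ℚ} {X : ℝ} (hX : 1 ≤ X) (hμ0 : μ ≠ 0) (hH : HtLe X μ)
    (h : (2 : ℕ∞) < (Pre (f j μ)).encard ∨ ∃ z ∈ periodicPts (f j μ), f j μ z ≠ z) :
    ∃ D : ℕ, 1 ≤ D ∧ ((D : ℝ)) ^ (2 * j + 2) ≤ X ∧ μ ∈ FU j X D := by
  classical
  by_cases hl : ∃ z ∈ periodicPts (f j μ), f j μ z ≠ z
  · obtain ⟨z, hz, h1⟩ := hl
    have hpre := pre_of_periodic hz
    exact pair_mem hj hX hμ0 hH hpre (pre_apply hpre) (cycle_unit hz h1) (Or.inr rfl)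
  · have h2 := h.resolve_right hl
    push Not at hl
    have hne : (Pre (f j μ)).Nonempty := by
      rw [← Set.encard_pos]
      exact lt_of_le_of_lt bot_le h2
    obtain ⟨z0, hz0⟩ := hne
    obtain ⟨k, hk⟩ := exists_periodic hz0
    set p := (f j μ)^[k] z0 with hp
    have hpp := hl p hk
    by_cases hq : ∃ q ∈ periodicPts (f j μ), q ≠ p
    · obtain ⟨q, hq1, hq2⟩ := hq
      exact two_fixed hj hX hμ0 hH hpp (hl q hq1) hq2.symm
    · push Not at hq
      have hout : ∃ z ∈ Pre (f j μ), z ∉ ({p, -p} : Set ℚ) := by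
        by_contra hc
        push Not at hc
        have h3 : (Pre (f j μ)).encard ≤ ({p, -p} : Set ℚ).encard := Set.encard_le_encard hc
        have h4 : ({p, -p} : Set ℚ).encard ≤ 2 := by
          refine (Set.encard_insert_le _ _).trans ?_
          rw [Set.encard_singleton]
          norm_num
        exact absurd (h2.trans_le (h3.trans h4)) (lt_irrefl _)
      obtain ⟨z, hz, hzS⟩ := hout
      obtain ⟨w, hw, hwS, hgw⟩ := exit_point hz (S := {p, -p}) (fun y hy => Or.inl (hq y hy)) hzS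
      rcases hgw with h3 | h3
      · exfalso
        have h4 : μ * w ^ (2 * j + 2) + 1 = p := h3
        have h5 : μ * p ^ (2 * j + 2) + 1 = p := hpp
        have h6 : w ^ (2 * j + 2) = p ^ (2 * j + 2) :=
          mul_left_cancel₀ hμ0 (by linarith)
        rcases even_pow_eq h6 with h7 | h7
        · exact hwS (Or.inl h7)
        · exact hwS (Or.inr h7)
      · exact tail_mem hX hμ0 hH hpp h3

end Pool.Agent.X12.Uni
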