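import Pool.Agent.X12.Uni2
import Pool.Agent.X12.Dyn3

/-!
# Counting the unicritical polynomials of even degree with rational preperiodic points
-/

set_option autoImplicit false

namespace Pool.Agent.X12.Uni

open Function Finset Filter Topology
open Pool.Agent.X12.Cub (Pre pre_fixed pre_back pre_of_periodic exists_periodic)
open Pool.Agent.X12.Dyn (HtLe many_rat htLe_of_div)

/-- more than `N` rational preperiodic points -/
def MoreU (j N : ℕ) (X : ℝ) : Set ℚ :=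
  {μ | μ ≠ 0 ∧ HtLe X μ ∧ (N : ℕ∞) < (Pre (f j μ)).encard}

/-- a rational preperiodic point but not exactly two -/
def NotTwo (j : ℕ) (X : ℝ) : Set ℚ :=
  {μ | μ ≠ 0 ∧ HtLe X μ ∧ (Pre (f j μ)).Nonempty ∧ (Pre (f j μ)).encard ≠ 2}

/-- a rational point of period at least two -/
def LongU (j : ℕ) (X : ℝ) : Set ℚ :=
  {μ | μ ≠ 0 ∧ HtLe X μ ∧ ∃ z : ℚ, 2 ≤ minimalPeriod (f j μ) z}

/-- the exceptional parameters -/
def ExcU (j : ℕ) (X : ℝ) : Set ℚ :=
  {μ | μ ≠ 0 ∧ HtLe X μ ∧ ((2 : ℕ∞) < (Pre (f j μ)).encard ∨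
    ∃ z ∈ periodicPts (f j μ), f j μ z ≠ z)}

lemma le_root {j D : ℕ} {X : ℝ} (h : ((D : ℝ)) ^ (2 * j + 2) ≤ X) :
    (D : ℝ) ≤ X ^ ((1 : ℝ) / (2 * j + 2)) := by
  have h0 : (0 : ℝ) ≤ D := Nat.cast_nonneg D
  have h1 := Real.pow_rpow_inv_natCast h0 (by omega : 2 * j + 2 ≠ 0)
  rw [← h1]
  have e : (((2 * j + 2 : ℕ) : ℝ))⁻¹ = (1 : ℝ) / (2 * j + 2) := by
    push_cast
    rw [one_div]
  rw [e]
  exact Real.rpow_le_rpow (by positivity) h (by positivity)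

lemma root_pow {j : ℕ} {X : ℝ} (hX : 0 ≤ X) : (X ^ ((1 : ℝ) / (2 * j + 2))) ^ (2 * j + 2) = X := by
  have h := Real.rpow_inv_natCast_pow hX (by omega : 2 * j + 2 ≠ 0)
  have e : (((2 * j + 2 : ℕ) : ℝ))⁻¹ = (1 : ℝ) / (2 * j + 2) := by
    push_cast
    rw [one_div]
  rwa [e] at h

theorem count_D {j : ℕ} {X B : ℝ} (hX : 1 ≤ X) (hB : 0 ≤ B) (F : ℕ → Finset ℚ) (S : Set ℚ)
    (hS : ∀ μ ∈ S, ∃ D : ℕ, 1 ≤ D ∧ ((D : ℝ)) ^ (2 * j + 2) ≤ X ∧ μ ∈ F D)
    (hF : ∀ D : ℕ, 1 ≤ D → ((D : ℝ)) ^ (2 * j + 2) ≤ X → ((F D).card : ℝ) ≤ B) :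
    S.Finite ∧ (S.ncard : ℝ) ≤ X ^ ((1 : ℝ) / (2 * j + 2)) * B := by
  classical
  set R := X ^ ((1 : ℝ) / (2 * j + 2)) with hR
  have hR0 : 0 ≤ R := Real.rpow_nonneg (by linarith) _
  have hRp : R ^ (2 * j + 2) = X := root_pow (by linarith)
  set T : Finset ℚ := (Finset.Icc 1 ⌊R⌋₊).biUnion F with hT
  have hsub : S ⊆ (T : Set ℚ) := by
    intro μ hμ
    obtain ⟨D, h1, h2, h3⟩ := hS μ hμ
    rw [Finset.mem_coe, hT, Finset.mem_biUnion]
    exact ⟨D, Finset.mem_Icc.2 ⟨h1, Nat.le_floor (le_root h2)⟩, h3⟩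
  refine ⟨T.finite_toSet.subset hsub, ?_⟩
  have h1 := Set.ncard_le_ncard hsub T.finite_toSet
  rw [Set.ncard_coe_finset] at h1
  have h2 : T.card ≤ ∑ D ∈ Finset.Icc 1 ⌊R⌋₊, (F D).card := Finset.card_biUnion_le
  have h3 : (S.ncard : ℝ) ≤ ∑ D ∈ Finset.Icc 1 ⌊R⌋₊, ((F D).card : ℝ) := by
    exact_mod_cast h1.trans h2
  refine h3.trans ?_
  have h4 : ∑ D ∈ Finset.Icc 1 ⌊R⌋₊, ((F D).card : ℝ) ≤ ∑ _D ∈ Finset.Icc 1 ⌊R⌋₊, B := by
    refine Finset.sum_le_sum fun D hD => ?_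
    rw [Finset.mem_Icc] at hD
    refine hF D hD.1 ?_
    have h5 : (D : ℝ) ≤ R := (Nat.le_floor_iff hR0).1 hD.2
    rw [← hRp]
    exact pow_le_pow_left₀ (Nat.cast_nonneg D) h5 _
  refine h4.trans ?_
  rw [Finset.sum_const, Nat.card_Icc, Nat.add_sub_cancel, nsmul_eq_mul]
  exact mul_le_mul_of_nonneg_right (Nat.floor_le hR0) hB

lemma D_le {j D : ℕ} {X : ℝ} (hD : 1 ≤ D) (h : ((D : ℝ)) ^ (2 * j + 2) ≤ X) : (D : ℝ) ≤ X :=
  (le_self_pow₀ (by exact_mod_cast hD) (by omega)).trans h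

/-- **Upper bound**: the exceptional parameters -/
theorem exc_upper {j : ℕ} (hj : 1 ≤ j) (ε : ℝ) (hε : 0 < ε) : ∃ C : ℝ, 0 < C ∧ ∀ X : ℝ, 1 ≤ X →
    (ExcU j X).Finite ∧ ((ExcU j X).ncard : ℝ) ≤ C * X ^ ((1 : ℝ) / (2 * j + 2) + ε) := by
  obtain ⟨C, hC, h⟩ := FU_card j ε hε
  refine ⟨C, hC, fun X hX => ?_⟩
  have hX0 : 0 < X := by linarith
  have h1 := count_D (j := j) (B := C * X ^ ε) hX (by positivity) (FU j X) (ExcU j X)
    (fun μ hμ => exc_mem hj hX hμ.1 hμ.2.1 hμ.2.2) (fun D h1 h2 => h X D hX h1 (D_le h1 h2))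
  refine ⟨h1.1, h1.2.trans (le_of_eq ?_)⟩
  rw [Real.rpow_add hX0]
  ring

lemma more_sub {j N : ℕ} (hN : 2 ≤ N) (X : ℝ) : MoreU j N X ⊆ ExcU j X := by
  rintro μ ⟨h1, h2, h3⟩
  refine ⟨h1, h2, Or.inl (lt_of_le_of_lt ?_ h3)⟩
  exact_mod_cast hN

lemma long_sub (j : ℕ) (X : ℝ) : LongU j X ⊆ ExcU j X := by
  rintro μ ⟨h1, h2, z, hz⟩
  refine ⟨h1, h2, Or.inr ⟨z, ?_, ?_⟩⟩
  · exact minimalPeriod_pos_iff_mem_periodicPts.1 (by omega)
  · intro h
    have h3 : IsPeriodicPt (f j μ) 1 z := h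
    have := h3.minimalPeriod_le one_pos
    omega

lemma f_neg (j : ℕ) (μ z : ℚ) : f j μ (-z) = f j μ z := by
  unfold f
  have e : (-z) ^ (2 * j + 2) = z ^ (2 * j + 2) := Even.neg_pow ⟨j + 1, by ring⟩ z
  rw [e]

lemma two_le {j : ℕ} {μ p : ℚ} (hμ0 : μ ≠ 0) (hp : f j μ p = p) :
    (2 : ℕ∞) ≤ (Pre (f j μ)).encard := by
  classical
  have hp0 := (fixed_data hμ0 hp).1
  have h1 : p ∈ Pre (f j μ) := pre_fixed hp
  have h2 : -p ∈ Pre (f j μ) := by
    refine pre_back ?_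
    rw [f_neg, hp]
    exact h1
  have hsub : ({p, -p} : Set ℚ) ⊆ Pre (f j μ) := by
    rintro z (rfl | rfl)
    · exact h1
    · exact h2
  have hcard : ({p, -p} : Set ℚ).encard = 2 :=
    Set.encard_pair (fun h => hp0 (by linarith))
  have := Set.encard_le_encard hsub
  rw [hcard] at this
  exact this

/-- a nonexceptional parameter with a preperiodic point has a fixed point -/
lemma generic_fixed {j : ℕ} {μ : ℚ} (hne : (Pre (f j μ)).Nonempty)
    (hl : ∀ z ∈ periodicPts (f j μ), f j μ z = z) : ∃ p : ℚ, f j μ p = p := by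
  obtain ⟨z0, hz0⟩ := hne
  obtain ⟨k, hk⟩ := exists_periodic hz0
  exact ⟨_, hl _ hk⟩

lemma notTwo_sub (j : ℕ) (X : ℝ) : NotTwo j X ⊆ ExcU j X := by
  rintro μ ⟨h1, h2, h3, h4⟩
  refine ⟨h1, h2, ?_⟩
  by_cases hl : ∃ z ∈ periodicPts (f j μ), f j μ z ≠ z
  · exact Or.inr hl
  · push Not at hl
    obtain ⟨p, hp⟩ := generic_fixed h3 hl
    exact Or.inl (lt_of_le_of_ne (two_le h1 hp) h4.symm)

/-- all the parameters for a given denominator -/
noncomputable def F0 (j : ℕ) (X : ℝ) (D : ℕ) : Finset ℚ := by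
  classical
  exact FU j X D ∪
    (((Finset.Icc 1 ⌊2 * X ^ ((1 : ℝ) / (2 * j + 2))⌋₊).image fun Q : ℕ =>
      (((D : ℚ) - Q) * (Q : ℚ) ^ (2 * j + 1) / (D : ℚ) ^ (2 * j + 2))) ∪
    ((Finset.Icc 1 ⌊2 * X ^ ((1 : ℝ) / (2 * j + 2))⌋₊).image fun Q : ℕ =>
      ((-(D : ℚ) - Q) * (Q : ℚ) ^ (2 * j + 1) / (D : ℚ) ^ (2 * j + 2))))

lemma fixed_mem {j : ℕ} {μ p : ℚ} {X : ℝ} (hX : 1 ≤ X) (hμ0 : μ ≠ 0) (hH : HtLe X μ)
    (hp : f j μ p = p) : ∃ D : ℕ, 1 ≤ D ∧ ((D : ℝ)) ^ (2 * j + 2) ≤ X ∧ μ ∈ F0 j X D := by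
  classical
  obtain ⟨hp0, hp1, e1, e2, e3⟩ := fixed_data hμ0 hp
  have hPz : p.num ≠ 0 := Rat.num_ne_zero.2 hp0
  have hnat1 : 1 ≤ p.num.natAbs := Nat.one_le_iff_ne_zero.2 (Int.natAbs_ne_zero.2 hPz)
  have hPX : ((p.num.natAbs : ℕ) : ℝ) ^ (2 * j + 2) ≤ X := by
    have h1 : ((μ.den : ℕ) : ℝ) = ((p.num.natAbs : ℕ) : ℝ) ^ (2 * j + 2) := by exact_mod_cast e2
    rw [← h1]
    exact hH.2
  set R := X ^ ((1 : ℝ) / (2 * j + 2)) with hR
  have hR0 : 0 ≤ R := Real.rpow_nonneg (by linarith) _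
  have hRp : R ^ (2 * j + 2) = X := root_pow (by linarith)
  have hPR : ((p.num.natAbs : ℕ) : ℝ) ≤ R := le_root hPX
  have hPabs : |(p.num : ℝ)| = ((p.num.natAbs : ℕ) : ℝ) := by rw [Nat.cast_natAbs, Int.cast_abs]
  have hQ0 : (0 : ℝ) < p.den := by exact_mod_cast p.den_pos
  have hQR : (p.den : ℝ) ≤ 2 * R := by
    by_contra hcon
    push Not at hcon
    have h1 : |(μ.num : ℝ)| = |(p.num : ℝ) - p.den| * (p.den : ℝ) ^ (2 * j + 1) := by
      rw [e3]
      push_cast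
      rw [abs_mul, abs_of_pos (pow_pos hQ0 _)]
    have h2 : (p.den : ℝ) / 2 ≤ |(p.num : ℝ) - p.den| := by
      have h3 := abs_le.1 (hPabs.le.trans hPR)
      rw [abs_sub_comm]
      refine le_trans ?_ (le_abs_self _)
      linarith
    have h3 : (p.den : ℝ) ^ (2 * j + 2) ≤ 2 * X := by
      have h4 : (p.den : ℝ) / 2 * (p.den : ℝ) ^ (2 * j + 1) ≤ X := by
        refine le_trans ?_ hH.1
        rw [h1]
        exact mul_le_mul_of_nonneg_right h2 (by positivity)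
      calc (p.den : ℝ) ^ (2 * j + 2) = 2 * ((p.den : ℝ) / 2 * (p.den : ℝ) ^ (2 * j + 1)) := by ring
        _ ≤ 2 * X := by linarith
    have h5 : (2 * R) ^ (2 * j + 2) < (p.den : ℝ) ^ (2 * j + 2) :=
      pow_lt_pow_left₀ hcon (by positivity) (by omega)
    rw [mul_pow, hRp] at h5
    have h6 : (2 : ℝ) ≤ 2 ^ (2 * j + 2) := le_self_pow₀ (by norm_num) (by omega)
    nlinarith
  have hQmem : p.den ∈ Finset.Icc 1 ⌊2 * R⌋₊ :=
    Finset.mem_Icc.2 ⟨p.den_pos, Nat.le_floor hQR⟩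
  refine ⟨p.num.natAbs, hnat1, hPX, ?_⟩
  unfold F0
  rw [Finset.mem_union, Finset.mem_union]
  right
  have hn : ((p.num.natAbs : ℕ) : ℚ) = |(p.num : ℚ)| := by rw [Nat.cast_natAbs, Int.cast_abs]
  have hpw : |(p.num : ℚ)| ^ (2 * j + 2) = (p.num : ℚ) ^ (2 * j + 2) :=
    Even.pow_abs ⟨j + 1, by ring⟩ _
  rcases abs_choice (p.num : ℚ) with h | h
  · left
    refine Finset.mem_image.2 ⟨p.den, hQmem, ?_⟩
    rw [hn, hpw, h]
    exact e1.symm
  · right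
    refine Finset.mem_image.2 ⟨p.den, hQmem, ?_⟩
    rw [hn, hpw, h, neg_neg]
    exact e1.symm

/-- **Upper bound**: the parameters with a preperiodic point -/
theorem some_upper {j : ℕ} (hj : 1 ≤ j) (ε : ℝ) (hε : 0 < ε) : ∃ C : ℝ, 0 < C ∧
    ∀ (N : ℕ) (X : ℝ), 1 ≤ X →
    (MoreU j N X).Finite ∧ ((MoreU j N X).ncard : ℝ) ≤ C * X ^ ((1 : ℝ) / (j + 1) + ε) := by
  classical
  obtain ⟨C, hC, h⟩ := FU_card j ε hε
  refine ⟨C + 4, by positivity, fun N X hX => ?_⟩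
  have hX0 : 0 < X := by linarith
  set R := X ^ ((1 : ℝ) / (2 * j + 2)) with hR
  have hR1 : 1 ≤ R := Real.one_le_rpow hX (by positivity)
  have hXε : 1 ≤ X ^ ε := Real.one_le_rpow hX hε.le
  have h1 := count_D (j := j) (B := C * X ^ ε + 4 * R) hX (by positivity) (F0 j X) (MoreU j N X)
    (fun μ hμ => by
      obtain ⟨g1, g2, g3⟩ := hμ
      by_cases hl : ∃ z ∈ periodicPts (f j μ), f j μ z ≠ z
      · obtain ⟨D, d1, d2, d3⟩ := exc_mem hj hX g1 g2 (Or.inr hl)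
        exact ⟨D, d1, d2, Finset.mem_union_left _ d3⟩
      · push Not at hl
        have hne : (Pre (f j μ)).Nonempty := by
          rw [← Set.encard_pos]
          exact lt_of_le_of_lt bot_le g3
        obtain ⟨p, hp⟩ := generic_fixed hne hl
        exact fixed_mem hX g1 g2 hp) (fun D h1 h2 => by
      have k1 := h X D hX h1 (D_le h1 h2)
      have k2 : (F0 j X D).card ≤ (FU j X D).card + (⌊2 * R⌋₊ + ⌊2 * R⌋₊) := by
        unfold F0
        refine (Finset.card_union_le _ _).trans (Nat.add_le_add le_rfl ?_)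
        refine (Finset.card_union_le _ _).trans (Nat.add_le_add ?_ ?_)
        · refine Finset.card_image_le.trans ?_
          rw [Nat.card_Icc, Nat.add_sub_cancel]
        · refine Finset.card_image_le.trans ?_
          rw [Nat.card_Icc, Nat.add_sub_cancel]
      have k3 : ((F0 j X D).card : ℝ) ≤ ((FU j X D).card : ℝ) +
          ((⌊2 * R⌋₊ : ℝ) + (⌊2 * R⌋₊ : ℝ)) := by exact_mod_cast k2
      have k4 : (⌊2 * R⌋₊ : ℝ) ≤ 2 * R := Nat.floor_le (by linarith)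
      linarith)
  refine ⟨h1.1, h1.2.trans ?_⟩
  have e : X ^ ((1 : ℝ) / (j + 1) + ε) = R * (R * X ^ ε) := by
    rw [hR, ← Real.rpow_add hX0, ← Real.rpow_add hX0]
    congr 1
    have hj0 : (0 : ℝ) < j + 1 := by positivity
    field_simp
    ring
  rw [e]
  have h0 : 0 < X ^ ε := by positivity
  have a1 : C * X ^ ε ≤ C * (R * X ^ ε) := by
    refine mul_le_mul_of_nonneg_left ?_ hC.le
    nlinarith
  have a2 : 4 * R ≤ 4 * (R * X ^ ε) := by nlinarith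
  calc R * (C * X ^ ε + 4 * R) ≤ R * (C * (R * X ^ ε) + 4 * (R * X ^ ε)) := by
        refine mul_le_mul_of_nonneg_left (by linarith) (by linarith)
    _ = (C + 4) * (R * (R * X ^ ε)) := by ring

/-! ### Lower bounds -/

lemma strict_anti {j : ℕ} {u v : ℚ} (hu : 2 ≤ u) (huv : u < v) :
    (v - 1) * u ^ (2 * j + 2) < (u - 1) * v ^ (2 * j + 2) := by
  have h1 : (v - 1) * u ^ 2 < (u - 1) * v ^ 2 := by
    have h2 : 0 < (v - u) * ((u - 1) * (v - 1) - 1) := by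
      refine mul_pos (by linarith) ?_
      nlinarith
    nlinarith
  have h3 : u ^ (2 * j) ≤ v ^ (2 * j) := pow_le_pow_left₀ (by linarith) huv.le _
  have h4 : 0 < u ^ (2 * j) := by positivity
  calc (v - 1) * u ^ (2 * j + 2) = ((v - 1) * u ^ 2) * u ^ (2 * j) := by ring
    _ < ((u - 1) * v ^ 2) * u ^ (2 * j) := mul_lt_mul_of_pos_right h1 h4
    _ ≤ ((u - 1) * v ^ 2) * v ^ (2 * j) := by
        refine mul_le_mul_of_nonneg_left h3 ?_
        have : 0 ≤ u - 1 := by linarith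
        positivity
    _ = (u - 1) * v ^ (2 * j + 2) := by ring

/-- **Lower bound**: at most one -/
theorem one_lower {j : ℕ} (hj : 1 ≤ j) (ε : ℝ) (hε : 0 < ε) : ∃ X₀ : ℝ, ∀ (N : ℕ) (X : ℝ),
    N ≤ 1 → X₀ ≤ X → X ^ ((1 : ℝ) / (j + 1) - ε) ≤ ((MoreU j N X).ncard : ℝ) := by
  classical
  have hj0 : (0 : ℝ) < j + 1 := by positivity
  obtain ⟨A0, hA0⟩ := many_rat ((2 * j + 2) * ε) (by positivity)
  obtain ⟨C, -, hfin⟩ := some_upper hj 1 one_pos
  refine ⟨max 1 ((max A0 0) ^ (2 * j + 2)), fun N X hN hX => ?_⟩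
  have hX1 : 1 ≤ X := (le_max_left _ _).trans hX
  have hX2 : (max A0 0) ^ (2 * j + 2) ≤ X := (le_max_right _ _).trans hX
  have hX0 : 0 < X := by linarith
  set R := X ^ ((1 : ℝ) / (2 * j + 2)) with hR
  have hR0 : 0 ≤ R := Real.rpow_nonneg (by linarith) _
  have hRp : R ^ (2 * j + 2) = X := root_pow (by linarith)
  have hA0R : A0 ≤ R := by
    refine (le_max_left A0 0).trans ?_
    by_contra hcon
    push Not at hcon
    have := pow_lt_pow_left₀ hcon hR0 (by omega : 2 * j + 2 ≠ 0)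
    rw [hRp] at this
    linarith
  obtain ⟨S, hS1, hS2⟩ := hA0 R hA0R
  set φ : ℚ → ℚ := fun u => (u - 1) / u ^ (2 * j + 2) with hφ
  have hsub : ((S.image φ : Finset ℚ) : Set ℚ) ⊆ MoreU j N X := by
    intro c hc
    rw [Finset.mem_coe, Finset.mem_image] at hc
    obtain ⟨u, hu, rfl⟩ := hc
    obtain ⟨g1, g2, g3⟩ := hS1 u hu
    have hu0 : 0 < u := by linarith
    have hφ0 : φ u ≠ 0 := by
      rw [hφ]
      exact div_ne_zero (by linarith) (pow_ne_zero _ hu0.ne')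
    have hdz : (0 : ℤ) < u.den := by exact_mod_cast u.den_pos
    have hnz : (0 : ℤ) < u.num := Rat.num_pos.2 hu0
    have hn : (u.den : ℤ) < u.num := by
      have h1 : (u.num : ℚ) = u * u.den := (Rat.mul_den_eq_num u).symm
      have hd : (0 : ℚ) < u.den := by exact_mod_cast u.den_pos
      have : ((u.den : ℤ) : ℚ) < u.num := by
        rw [h1]
        push_cast
        nlinarith
      exact_mod_cast this
    have hfix : f j (φ u) u = u := by
      unfold f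
      rw [hφ]
      simp only
      rw [div_mul_cancel₀ _ (pow_ne_zero _ hu0.ne')]
      ring
    refine ⟨hφ0, htLe_of_div (m := (u.num - u.den) * (u.den : ℤ) ^ (2 * j + 1))
      (n := u.num ^ (2 * j + 2)) (by positivity) ?_ ?_ ?_ ?_, ?_⟩
    · have h1 : 0 < u.num - u.den := by linarith
      positivity
    · rw [hφ]
      have hd : (u.den : ℚ) ≠ 0 := by exact_mod_cast u.den_ne_zero
      have hn' : (u.num : ℚ) ≠ 0 := by exact_mod_cast hnz.ne'
      have hue : u = (u.num : ℚ) / u.den := (Rat.num_div_den u).symm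
      simp only
      conv_lhs => rw [hue]
      rw [div_pow]
      push_cast
      field_simp
      ring
    · have r1 : (0 : ℝ) < u.den := by exact_mod_cast hdz
      have r2 : (u.den : ℝ) < u.num := by exact_mod_cast hn
      push_cast
      rw [abs_of_nonneg (mul_nonneg (by linarith) (by positivity))]
      calc ((u.num : ℝ) - u.den) * (u.den : ℝ) ^ (2 * j + 1) ≤ R * R ^ (2 * j + 1) := by
            refine mul_le_mul (by linarith) (pow_le_pow_left₀ r1.le g3 _) (by positivity) hR0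
        _ = R ^ (2 * j + 2) := by ring
        _ = X := hRp
    · have r2 : (0 : ℝ) < u.num := by exact_mod_cast hnz
      push_cast
      rw [abs_of_nonneg (by positivity), ← hRp]
      exact pow_le_pow_left₀ r2.le g2 _
    · refine lt_of_lt_of_le ?_ (two_le hφ0 hfix)
      have : N < 2 := by omega
      exact_mod_cast this
  have hinj : Set.InjOn φ (S : Set ℚ) := by
    intro u hu v hv huv
    have h1 := (hS1 u hu).1
    have h2 := (hS1 v hv).1
    have hu0 : u ^ (2 * j + 2) ≠ 0 := pow_ne_zero _ (by linarith)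
    have hv0 : v ^ (2 * j + 2) ≠ 0 := pow_ne_zero _ (by linarith)
    have h3 : (u - 1) / u ^ (2 * j + 2) = (v - 1) / v ^ (2 * j + 2) := huv
    rw [div_eq_div_iff hu0 hv0] at h3
    rcases lt_trichotomy u v with h | h | h
    · have := strict_anti (j := j) h1 h
      linarith
    · exact h
    · have := strict_anti (j := j) h2 h
      linarith
  have h1 := Set.ncard_le_ncard hsub (hfin N X hX1).1
  rw [Set.ncard_coe_finset, Finset.card_image_of_injOn hinj] at h1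
  have h2 : (S.card : ℝ) ≤ (MoreU j N X).ncard := by exact_mod_cast h1
  refine le_trans (le_of_eq ?_) (hS2.trans h2)
  rw [hR, ← Real.rpow_mul hX0.le]
  congr 1
  field_simp

/-! ### The exponents -/

theorem tendsto_few {j : ℕ} (hj : 1 ≤ j) (N : ℕ) (hN : N ≤ 1) :
    Tendsto (fun X => Real.log ((MoreU j N X).ncard : ℝ) / Real.log X) atTop
      (𝓝 ((1 : ℝ) / (j + 1))) := by
  refine Szp.tendsto_of_bounds (fun X => ((MoreU j N X).ncard : ℝ)) ((1 : ℝ) / (j + 1)) ?_ ?_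
  · intro ε hε
    obtain ⟨X0, h⟩ := one_lower hj ε hε
    exact ⟨X0, fun X hX => h N X hN hX⟩
  · intro ε hε
    obtain ⟨C, hC, h⟩ := some_upper hj ε hε
    exact ⟨C, hC, fun X hX => (h N X hX).2⟩

end Pool.Agent.X12.Uni
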